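import Pool.Agent.SDN.TwoScale

/-!
NTW, block A: the low hanging walks. One more leaf, the part Z of the leaf behind the in-piece P: if Z is at least H high,
a bound B of the sum over Z is used; if Z is lower, P is a giant seen from both sides.
-/

set_option autoImplicit false

namespace HexObs

namespace NTW

open Finset TS SDN SDN.T2

open scoped ENNReal

open Rec8 (mb)

variable {C δ : ℝ}

namespace LW

/-- the bridges lower than 2^(k + 1) lie in the blocks 0, ..., k -/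
lemma low_blocks (k : ℕ) (F : List Bool → ℝ≥0∞) :
    Rec8.sw {Z | ∃ z, z < 2 ^ (k + 1) ∧ Z ∈ Brd z} F ≤ ∑ b ∈ range (k + 1), Rec8.sw (Fld.BrB b) F := by
  classical
  simp only [Rec8.sw_ind]
  rw [← Summable.tsum_finsetSum (fun _ _ => ENNReal.summable)]
  refine ENNReal.tsum_le_tsum fun t => ?_
  by_cases ht : t ∈ {Z | ∃ z, z < 2 ^ (k + 1) ∧ Z ∈ Brd z}
  · rw [if_pos ht]
    obtain ⟨z, hz, hzt⟩ := ht
    have hb : Nat.log 2 z < k + 1 := by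
      rcases Nat.eq_zero_or_pos z with h0 | h0
      · rw [h0]
        simp
      · exact Nat.log_lt_of_lt_pow (by omega) hz
    have hB : t ∈ Fld.BrB (Nat.log 2 z) := by
      refine ⟨z, ⟨Nat.lt_pow_succ_log_self (by norm_num) z, ?_⟩, hzt⟩
      rcases Nat.eq_zero_or_pos z with h0 | h0
      · right
        rw [h0]
        simp
      · left
        exact Nat.pow_log_le_self 2 (by omega)
    refine le_trans (le_of_eq ?_) (Finset.single_le_sum (f := fun b => if t ∈ Fld.BrB b then wE t * F t else 0)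
      (fun _ _ => zero_le) (Finset.mem_range.2 hb))
    exact (if_pos hB).symm
  · rw [if_neg ht]
    exact zero_le

/-- the part of the leaf behind the piece P, lower than H -/
theorem restLow (h : Inp C δ) : ∃ K : ℝ, 1 ≤ K ∧ ∀ (D1 k1 H r : ℕ) (Φ : List Bool → ℝ≥0∞) (P : List Bool), Hered Φ →
    2 ^ (k1 + 4) ≤ D1 → P ∈ Irr r →
    Rec8.sw {Z | ∃ z, z < H ∧ Z ∈ Brd z} (fun Z => Φ (P ++ Z)) ≤
      xT D1 k1 Φ * (∑ b ∈ range (k1 + 1), Sw D1 k1 b P + ENNReal.ofReal (K * UU H)) := by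
  obtain ⟨K, hK1, hK⟩ := endsH h
  refine ⟨K, hK1, fun D1 k1 H r Φ P hΦ hD hP => ?_⟩
  have hPb : P ∈ Brd r := hP.1
  have hsub : {Z : List Bool | ∃ z, z < H ∧ Z ∈ Brd z} ⊆
      {Z | ∃ z, z < 2 ^ (k1 + 1) ∧ Z ∈ Brd z} ∪ BrR (2 ^ (k1 + 1)) H := by
    rintro Z ⟨z, hz, hZ⟩
    rcases Nat.lt_or_ge z (2 ^ (k1 + 1)) with hc | hc
    · exact Or.inl ⟨z, hc, hZ⟩
    · exact Or.inr ⟨z, hc, hz.le, hZ⟩
  refine (TN5b_sw_union hsub _).trans ?_
  rw [mul_add]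
  refine add_le_add ?_ ?_
  · refine (low_blocks k1 _).trans ?_
    rw [Finset.mul_sum]
    refine Finset.sum_le_sum fun b hb => ?_
    rw [Finset.mem_range] at hb
    exact xT_use (by omega) ⟨r, hP⟩ Φ
  · have h1 : Rec8.sw (BrR (2 ^ (k1 + 1)) H) (fun Z => Φ (P ++ Z)) ≤ Rec8.sw (BrR (2 ^ (k1 + 1)) H) Φ :=
      Rec8.sw_mono' fun Z _ => hΦ P ⟨r, hPb⟩ Z
    refine h1.trans ((endR (j := k1) (D := 2 ^ (k1 + 1)) (N := H) le_rfl Φ).trans ?_)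
    have h3 : ∀ m r' : ℕ, mu k1 m r' * Rec8.sw {Z | ∃ h, h ≤ H ∧ Z ∈ Brd h} (fun Z => Rec8.sw (Irr r') (fun P' =>
        Rec8.sw {M | M ∈ Brd m ∧ Z ++ (P' ++ M) ∈ BrR (2 ^ (k1 + 1)) H} (fun M => Φ (Z ++ (P' ++ M))))) ≤
        gf {Z | ∃ h, h ≤ H ∧ Z ∈ Brd h} *
          (mu k1 m r' * Rec8.sw (Irr r') (fun P' => Rec8.sw (Brd m) (fun M => Φ (P' ++ M)))) := by
      intro m r'
      rw [mul_left_comm, ← NX_const]
      refine mul_le_mul_right ?_ _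
      refine Rec8.sw_mono' fun Z hZ => ?_
      obtain ⟨z, _, hZ⟩ := hZ
      refine Rec8.sw_mono' fun P' hP' => ?_
      refine Rec8.sw_mono (fun t ht => ht.1) fun M hM => ?_
      exact hΦ _ ⟨_, hZ⟩ _
    refine (ENNReal.tsum_le_tsum fun m => ENNReal.tsum_le_tsum fun r' => h3 m r').trans ?_
    simp only [ENNReal.tsum_mul_left]
    calc gf {Z | ∃ h, h ≤ H ∧ Z ∈ Brd h} *
          ∑' m : ℕ, ∑' r' : ℕ, mu k1 m r' * Rec8.sw (Irr r') (fun P' => Rec8.sw (Brd m) (fun M => Φ (P' ++ M)))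
        ≤ ENNReal.ofReal (UU H) * (ENNReal.ofReal K * xT D1 k1 Φ) := mul_le_mul' (gf_BU_le H) (hK D1 k1 Φ hD)
      _ = xT D1 k1 Φ * ENNReal.ofReal (K * UU H) := by
        rw [ENNReal.ofReal_mul (by linarith : (0 : ℝ) ≤ K)]
        ring

/-- the next leaf behind I ++ M, decomposed at the in-level of the window j, any functional -/
theorem next_gen {D0 E N j : ℕ} {F : List Bool → ℝ≥0∞} (hj : 2 ^ (j + 1) ≤ E)
    (hDE : D0 ≤ E) (Θ : ℕ → List Bool → ℝ≥0∞) (hΘ : ∀ n r X P, n < 2 ^ (j + 1) → X ∈ Brd n → P ∈ Irr r →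
      Rec8.sw {Z | Z ∈ BU ∧ X ++ (P ++ Z) ∈ BrR E N} (fun Z => F (X ++ (P ++ Z))) ≤ Θ r P)
    {i m : ℕ} {I M : List Bool} (hI : I ∈ Brd i) (hM : M ∈ Brd m) :
    vA D0 (BrR E N) F (I ++ M) ≤ ∑' n : ℕ, ∑' r : ℕ, mu j n r * Rec8.sw (Brd n) (fun X =>
      Rec8.sw {P | P ∈ Irr r ∧ ∃ c : Bool, KRel D0 I P M ((!c) :: c :: X)} (fun P => Θ r P)) := by
  classical
  unfold vA
  rw [Rec8.sw_and]
  refine (inR (j := j) (D := E) (N := N) hj _).trans ?_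
  refine ENNReal.tsum_le_tsum fun n => ENNReal.tsum_le_tsum fun r => ?_
  by_cases hn : 2 ^ (j + 1) ≤ n
  · rw [mu_eq_zero hn, zero_mul, zero_mul]
  refine mul_le_mul_right (Rec8.sw_mono' fun X hX => ?_) _
  rw [Rec8.sw_and]
  refine Rec8.sw_mono' fun P hP => ?_
  have hPB : P ∈ Brd r := hP.1
  by_cases hK : ∃ c : Bool, KRel D0 I P M ((!c) :: c :: X)
  · rw [if_pos hK]
    refine le_trans (Rec8.sw_mono' ?_) (hΘ n r X P (not_le.mp hn) hX hP)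
    rintro Z' -
    split_ifs
    · exact le_rfl
    · exact zero_le
  · rw [if_neg hK]
    refine le_trans (Rec8.sw_mono' (Ψ := fun _ => 0) ?_) (le_of_eq (Rec8.sw_zero _))
    rintro Z' ⟨⟨y, hy⟩, hb⟩
    rw [if_neg]
    intro hRR
    refine hK (RT_KRel RNb_LFold hI hM hX hPB hy ?_ hRR)
    obtain ⟨H, h1, -, h3⟩ := hb
    exact ⟨H, hDE.trans h1, h3⟩

/-- a constant added to the functional of the piece -/
lemma sum_const (D0 j b : ℕ) (I : List Bool) (Θ : ℕ → List Bool → ℝ≥0∞) (B : ℝ≥0∞) :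
    ∑ a ∈ range (j + 2), ∑' r : ℕ, mb j a r * Rec8.sw (Irr r) (fun P => KT D0 b I a P * (Θ r P + B)) =
      ∑ a ∈ range (j + 2), ∑' r : ℕ, mb j a r * Rec8.sw (Irr r) (fun P => KT D0 b I a P * Θ r P) +
      B * ∑ a ∈ range (j + 2), pm j a (fun P => KT D0 b I a P) := by
  rw [Finset.mul_sum, ← Finset.sum_add_distrib]
  refine Finset.sum_congr rfl fun a _ => ?_
  unfold pm
  rw [← ENNReal.tsum_mul_left, ← ENNReal.tsum_add]
  refine tsum_congr fun r => ?_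
  have e1 : Rec8.sw (Irr r) (fun P => KT D0 b I a P * (Θ r P + B)) =
      Rec8.sw (Irr r) (fun P => KT D0 b I a P * Θ r P) + B * Rec8.sw (Irr r) (fun P => KT D0 b I a P) := by
    rw [← Rec8.sw_mul_left, ← Rec8.sw_add]
    refine Rec8.sw_congr fun P _ => ?_
    ring
  rw [e1]
  ring

end LW

open LW in
/-- the low hanging walks; k3J as a hypothesis -/
theorem lowA_of (h : Inp C δ) (hk3 : ∃ K c : ℝ, 1 ≤ K ∧ 0 < c ∧ ∀ (D0 k D1 k1 a1 b : ℕ) (I : List Bool),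
    2 ^ (k + 4) ≤ D0 → 2 ^ (k1 + 4) ≤ D1 → k1 ≤ k → a1 ≤ k → b ≤ k →
    ∑ a ∈ range (a1 + 2), ∑ b2 ∈ range (k1 + 1), ∑' r : ℕ, (if 2 ^ k < r then
      Rec8.sw (Irr r) (fun P => KT D0 b I a P * Sw D1 k1 b2 P) else 0) ≤
        ENNReal.ofReal (K * (2 : ℝ) ^ (-(c * ((k : ℝ) - a1))) * (2 : ℝ) ^ (-(c * ((k : ℝ) - k1)))) * Sw D0 k b I) :
    ∃ K c : ℝ, 1 ≤ K ∧ 0 < c ∧ ∀ (D0 k D1 k1 E N H : ℕ) (Φ F : List Bool → ℝ≥0∞) (B : ℝ≥0∞), Hered Φ →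
    2 ^ (k + 4) ≤ D0 → 2 ^ (k1 + 4) ≤ D1 → k1 ≤ k → D0 ≤ E → E ≤ N → H ≤ 2 ^ k → H ≤ 2 ^ (k1 + 6) →
    (∀ n r z X P Z, n < 2 ^ (k + 1) → X ∈ Brd n → P ∈ Irr r → Z ∈ Brd z → z < H → X ++ (P ++ Z) ∈ BrR E N →
      F (X ++ (P ++ Z)) ≤ Φ (P ++ Z)) →
    (∀ n r X P, n < 2 ^ (k + 1) → X ∈ Brd n → P ∈ Irr r →
      Rec8.sw {Z | (∃ z, H ≤ z ∧ Z ∈ Brd z) ∧ X ++ (P ++ Z) ∈ BrR E N} (fun Z => F (X ++ (P ++ Z))) ≤ B) →
    xT D0 k (fun t => Rec8.sw {g | g ∈ BrR E N ∧ RT D0 LFold t g} F) ≤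
      ENNReal.ofReal (K / Ub k) * B + ENNReal.ofReal (K * (2 : ℝ) ^ (-(c * ((k : ℝ) - k1)))) * xT D1 k1 Φ := by
  obtain ⟨K3, c, hK3, hc, k3h⟩ := hk3
  obtain ⟨K1, hK1, k1h⟩ := k1 h
  obtain ⟨Kr, hKr, hrest⟩ := restLow h
  obtain ⟨c', hc'⟩ : ∃ c', c' = min c kap0 := ⟨_, rfl⟩
  have hk0 := kap0_pos
  have hc0 : 0 < c' := by
    rw [hc']
    exact lt_min hc hk0
  refine ⟨16 * (K3 + 128 * Kr * K1 + K1), c', by nlinarith [mul_nonneg (by linarith : (0:ℝ) ≤ Kr) (by linarith : (0:ℝ) ≤ K1)],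
    hc0, fun D0 k D1 k1 E N H Φ F B hΦ hD0 hD1 hk1 h0E hEN hH hH1 hF hB => ?_⟩
  refine xT_le fun b I hb hI => ?_
  obtain ⟨i, hIi⟩ := hI
  have heE : 2 ^ (k + 4) ≤ E := hD0.trans h0E
  have hp4 : 2 ^ (k + 4) = 8 * 2 ^ (k + 1) := by ring
  have hp1 : 2 ^ (k + 1) = 2 * 2 ^ k := by ring
  have hp0 : 1 ≤ 2 ^ k := Nat.one_le_two_pow
  obtain ⟨x, hx⟩ : ∃ x, x = xT D1 k1 Φ := ⟨_, rfl⟩
  let Θ : ℕ → List Bool → ℝ≥0∞ := fun r P =>
    x * ((if 2 ^ k < r then ∑ b2 ∈ range (k1 + 1), Sw D1 k1 b2 P else 0) + ENNReal.ofReal (Kr * UU H))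
  have s1 : Rec8.sw (Fld.BrB b) (fun M => vA D0 (BrR E N) F (I ++ M)) ≤
      Rec8.sw (Fld.BrB b) (fun M => ∑' n : ℕ, ∑' r : ℕ, mu k n r * Rec8.sw (Brd n) (fun X =>
        Rec8.sw {P | P ∈ Irr r ∧ ∃ c : Bool, KRel D0 I P M ((!c) :: c :: X)} (fun P => Θ r P + B))) := by
    refine Rec8.sw_mono' fun M hM => ?_
    obtain ⟨m, -, hMm⟩ := hM
    refine next_gen (by omega) h0E (fun r P => Θ r P + B) (fun n r X P hn hX hP => ?_) hIi.1 hMm
    have hsub : {Z : List Bool | Z ∈ BU ∧ X ++ (P ++ Z) ∈ BrR E N} ⊆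
        {Z | (∃ z, z < H ∧ Z ∈ Brd z) ∧ X ++ (P ++ Z) ∈ BrR E N} ∪
          {Z | (∃ z, H ≤ z ∧ Z ∈ Brd z) ∧ X ++ (P ++ Z) ∈ BrR E N} := by
      rintro Z ⟨⟨z, hZ⟩, h1⟩
      rcases Nat.lt_or_ge z H with hcc | hcc
      · exact Or.inl ⟨⟨z, hcc, hZ⟩, h1⟩
      · exact Or.inr ⟨⟨z, hcc, hZ⟩, h1⟩
    refine (TN5b_sw_union hsub _).trans (add_le_add ?_ (hB n r X P hn hX hP))
    by_cases hr : 2 ^ k < r
    · have e1 : Rec8.sw {Z | (∃ z, z < H ∧ Z ∈ Brd z) ∧ X ++ (P ++ Z) ∈ BrR E N} (fun Z => F (X ++ (P ++ Z))) ≤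
          Rec8.sw {Z | ∃ z, z < H ∧ Z ∈ Brd z} (fun Z => Φ (P ++ Z)) := by
        refine Rec8.sw_mono (fun Z hZ => hZ.1) fun Z hZ => ?_
        obtain ⟨⟨z, hz, hZ1⟩, hZ2⟩ := hZ
        exact hF n r z X P Z hn hX hP hZ1 hz hZ2
      refine (e1.trans (hrest D1 k1 H r Φ P hΦ hD1 hP)).trans ?_
      show _ ≤ x * ((if 2 ^ k < r then ∑ b2 ∈ range (k1 + 1), Sw D1 k1 b2 P else 0) + ENNReal.ofReal (Kr * UU H))
      rw [if_pos hr, hx]
    · refine le_trans (Rec8.sw_mono' (Ψ := fun _ => 0) ?_) ?_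
      · rintro Z ⟨⟨z, hz, hZ⟩, hb2⟩
        exfalso
        obtain ⟨H', h1, -, h3⟩ := hb2
        have h4 := Brd_height h3 (Brd_append hX (Brd_append hP.1 hZ))
        omega
      · rw [Rec8.sw_zero]
        exact zero_le
  have s2 := fold_sum D0 b k I (mu k) (mb k) (fun a n r => mu_le_mb) (fun n r => mu_eq_zero)
    (fun a r => mb_mono (Nat.le_succ a) r) (fun r P => Θ r P + B)
  refine s1.trans (s2.trans ?_)
  rw [sum_const]
  have s4 := sum2 D0 k b I x (ENNReal.ofReal (Kr * UU H)) k k1 D1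
  have t1 := k3h D0 k D1 k1 k b I hD0 hD1 hk1 le_rfl hb
  have t2 := k1h D0 k k b I hD0 le_rfl hb
  have hUk := Ub_pos k
  have hUk1 := Ub_pos k1
  have hUH : 0 ≤ UU H := by
    unfold UU
    exact Finset.sum_nonneg fun t _ => ENNReal.toReal_nonneg
  have hkk : (k1 : ℝ) ≤ k := by exact_mod_cast hk1
  obtain ⟨q, hq⟩ : ∃ q : ℝ, q = (2 : ℝ) ^ (-(c' * ((k : ℝ) - k1))) := ⟨_, rfl⟩
  have hq0 : 0 < q := by
    rw [hq]
    exact Real.rpow_pos_of_pos two_pos _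
  have q1 : (2 : ℝ) ^ (-(c * ((k : ℝ) - k1))) ≤ q := by
    rw [hq]
    refine Real.rpow_le_rpow_of_exponent_le (by norm_num) ?_
    have h5 : c' ≤ c := by rw [hc']; exact min_le_left _ _
    have := mul_le_mul_of_nonneg_right h5 (by linarith : (0 : ℝ) ≤ (k : ℝ) - k1)
    linarith
  have q2 : UU H / Ub k ≤ 128 * q := by
    have h6 : UU H ≤ 64 * Ub k1 := by
      calc UU H ≤ UU (2 ^ (k1 + 6)) := Num2Aux.UU_mono hH1
        _ ≤ 2 ^ 6 * Ub k1 := Ub_add k1 6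
        _ = 64 * Ub k1 := by norm_num
    have h7 := Ub_growth hk1
    have h8 : (2 : ℝ) ^ (kap0 * ((k : ℝ) - k1)) * (2 : ℝ) ^ (-(kap0 * ((k : ℝ) - k1))) = 1 := by
      rw [← Real.rpow_add two_pos]
      simp
    have h9 : (2 : ℝ) ^ (-(kap0 * ((k : ℝ) - k1))) ≤ q := by
      rw [hq]
      refine Real.rpow_le_rpow_of_exponent_le (by norm_num) ?_
      have h5 : c' ≤ kap0 := by rw [hc']; exact min_le_right _ _
      have := mul_le_mul_of_nonneg_right h5 (by linarith : (0 : ℝ) ≤ (k : ℝ) - k1)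
      linarith
    have h10 : 0 < (2 : ℝ) ^ (-(kap0 * ((k : ℝ) - k1))) := Real.rpow_pos_of_pos two_pos _
    have h11 : Ub k1 ≤ 2 * Ub k * (2 : ℝ) ^ (-(kap0 * ((k : ℝ) - k1))) := by
      calc Ub k1 = Ub k1 * ((2 : ℝ) ^ (kap0 * ((k : ℝ) - k1)) * (2 : ℝ) ^ (-(kap0 * ((k : ℝ) - k1)))) := by
            rw [h8, mul_one]
        _ = (Ub k1 * (2 : ℝ) ^ (kap0 * ((k : ℝ) - k1))) * (2 : ℝ) ^ (-(kap0 * ((k : ℝ) - k1))) := by ring
        _ ≤ (2 * Ub k) * (2 : ℝ) ^ (-(kap0 * ((k : ℝ) - k1))) := mul_le_mul_of_nonneg_right h7 h10.le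
    rw [div_le_iff₀ hUk]
    calc UU H ≤ 64 * Ub k1 := h6
      _ ≤ 64 * (2 * Ub k * (2 : ℝ) ^ (-(kap0 * ((k : ℝ) - k1)))) := by gcongr
      _ ≤ 64 * (2 * Ub k * q) := by gcongr
      _ = 128 * q * Ub k := by ring
  have t1' : ∑ a ∈ range (k + 2), ∑ b2 ∈ range (k1 + 1), ∑' r : ℕ, (if 2 ^ k < r then
      Rec8.sw (Irr r) (fun P => KT D0 b I a P * Sw D1 k1 b2 P) else 0) ≤ ENNReal.ofReal (K3 * q) * Sw D0 k b I := by
    refine t1.trans (mul_le_mul_left (ENNReal.ofReal_le_ofReal ?_) _)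
    have h5 : (2 : ℝ) ^ (-(c * ((k : ℝ) - (k : ℕ)))) = 1 := by simp
    rw [h5, mul_one]
    exact mul_le_mul_of_nonneg_left q1 (by linarith)
  calc 16 * (∑ a ∈ range (k + 2), ∑' r : ℕ, mb k a r * Rec8.sw (Irr r) (fun P => KT D0 b I a P * Θ r P) +
        B * ∑ a ∈ range (k + 2), pm k a (fun P => KT D0 b I a P))
      ≤ 16 * (x * (ENNReal.ofReal (K3 * q) * Sw D0 k b I +
          ENNReal.ofReal (Kr * UU H) * (ENNReal.ofReal (K1 / Ub k) * Sw D0 k b I)) +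
          B * (ENNReal.ofReal (K1 / Ub k) * Sw D0 k b I)) := by
        refine mul_le_mul_right (add_le_add (s4.trans ?_) (mul_le_mul_right t2 _)) _
        gcongr
    _ = (ENNReal.ofReal (16 * K1 / Ub k) * B + ENNReal.ofReal (16 * (K3 * q + Kr * K1 * (UU H / Ub k))) * x) *
          Sw D0 k b I := by
        have e16 : ENNReal.ofReal 16 = 16 := by simp
        have e1 : ENNReal.ofReal (16 * K1 / Ub k) = 16 * ENNReal.ofReal (K1 / Ub k) := by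
          rw [← e16, ← ENNReal.ofReal_mul (by norm_num)]
          congr 1
          ring
        have e2 : ENNReal.ofReal (16 * (K3 * q + Kr * K1 * (UU H / Ub k))) =
            16 * (ENNReal.ofReal (K3 * q) + ENNReal.ofReal (Kr * UU H) * ENNReal.ofReal (K1 / Ub k)) := by
          rw [ENNReal.ofReal_mul (by norm_num : (0 : ℝ) ≤ 16), e16, ENNReal.ofReal_add (by positivity) (by positivity),
            ← ENNReal.ofReal_mul (by positivity)]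
          congr 3
          ring
        rw [e1, e2]
        ring
    _ ≤ (ENNReal.ofReal (16 * (K3 + 128 * Kr * K1 + K1) / Ub k) * B +
          ENNReal.ofReal (16 * (K3 + 128 * Kr * K1 + K1) * (2 : ℝ) ^ (-(c' * ((k : ℝ) - k1)))) * xT D1 k1 Φ) *
          Sw D0 k b I := by
        rw [hx, ← hq]
        have p1 : 0 ≤ Kr * K1 := by positivity
        refine mul_le_mul_left (add_le_add (mul_le_mul_left (ENNReal.ofReal_le_ofReal ?_) _)
          (mul_le_mul_left (ENNReal.ofReal_le_ofReal ?_) _)) _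
        · refine div_le_div_of_nonneg_right ?_ hUk.le
          nlinarith
        · have h12 : Kr * K1 * (UU H / Ub k) ≤ Kr * K1 * (128 * q) := mul_le_mul_of_nonneg_left q2 p1
          have h13 : 0 ≤ K1 * q := by positivity
          nlinarith

end NTW

end HexObs
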