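import Pool.Agent.SDN.TwoScale

/-!
NTW, block A: one more leaf with a functional of the tail and of the height of the leaf. The front is decomposed at the
window j, the rest at the window k1 measured from the top; the bridge between the two pieces is free.
-/

set_option autoImplicit false

namespace HexObs

namespace NTW

open Finset TS SDN SDN.T2

open scoped ENNReal

open Rec8 (mb)

variable {C δ : ℝ}

namespace WN

/-- the bridges of height at most N, by heights -/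
lemma sw_le_range (N : ℕ) (F : ℕ → ℝ≥0∞) :
    Rec8.sw {Z | ∃ h, h ≤ N ∧ Z ∈ Brd h} (fun Z => F (hgt Z)) ≤ ∑ v ∈ range (N + 1), gf (Brd v) * F v := by
  classical
  have h1 : Rec8.sw {Z | ∃ h, h ≤ N ∧ Z ∈ Brd h} (fun Z => F (hgt Z)) ≤
      Rec8.sw BU (fun Z => if hgt Z ≤ N then F (hgt Z) else 0) := by
    refine Rec8.sw_mono (fun Z hZ => ?_) (fun Z hZ => ?_)
    · obtain ⟨h, -, hZ⟩ := hZ
      exact ⟨h, hZ⟩
    · obtain ⟨h, hN, hZ⟩ := hZ
      rw [if_pos (by rw [hgt_eq hZ]; exact hN)]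
  refine h1.trans (le_of_eq ?_)
  have h2 := sB_BU (fun n _ => if n ≤ N then F n else 0)
  have h3 : Rec8.sw BU (fun Z => if hgt Z ≤ N then F (hgt Z) else 0) =
      sB BU (fun X => wE X * (fun n (_ : List Bool) => if n ≤ N then F n else 0) (hgt X) X) := rfl
  rw [h3, h2, tsum_eq_sum (s := range (N + 1)) ?_]
  · refine Finset.sum_congr rfl fun v hv => ?_
    rw [Finset.mem_range] at hv
    show Rec8.sw (Brd v) (fun _ => if v ≤ N then F v else 0) = _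
    rw [NX_const, if_pos (by omega)]
  · intro v hv
    rw [Finset.mem_range] at hv
    show Rec8.sw (Brd v) (fun _ => if v ≤ N then F v else 0) = _
    rw [NX_const, if_neg (by omega), mul_zero]

/-- the rest of the leaf behind the piece P, out-level at the window k1 from the top -/
theorem rest_win (h : Inp C δ) : ∃ K : ℝ, 1 ≤ K ∧ ∀ (D1 E N k1 n r : ℕ) (κ : ℝ≥0∞) (Φ : List Bool → ℝ≥0∞)
    (G : ℕ → List Bool → ℝ≥0∞) (P : List Bool), (∀ h, Hered (G h)) → (∀ h t, G h t ≤ Φ t) →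
    (∀ c t, ∑ v ∈ range (N + 1), gf (Brd v) * G (c + v) t ≤ κ * Φ t) →
    2 ^ (k1 + 4) ≤ D1 → D1 ≤ E → n + 2 ^ (k1 + 1) ≤ E → P ∈ Irr r →
    Rec8.sw {Z | Z ∈ BU ∧ ∃ Y ∈ Brd n, Y ++ (P ++ Z) ∈ BrR E N} (fun Z => G (n + r + hgt Z) (P ++ Z)) ≤
      xT D1 k1 Φ * ((if E ≤ n + r + 2 ^ (k1 + 1) then ∑ b ∈ range (k1 + 1), Sw D1 k1 b P else 0) +
        κ * ENNReal.ofReal K) := by
  obtain ⟨K, hK1, hK⟩ := endsH h
  refine ⟨K, hK1, fun D1 E N k1 n r κ Φ G P hG hGΦ hκ hD hDE hn hP => ?_⟩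
  refine (outR hn hP (fun Z => G (n + r + hgt Z) (P ++ Z))).trans ?_
  rw [mul_add]
  refine add_le_add ?_ ?_
  · split_ifs with hE
    · have h1 := endH (D := D1) (k := k1) le_rfl r hP Φ
      have h2 : ∑' m : ℕ, mu k1 m r * Rec8.sw {M | M ∈ Brd m ∧ ∃ Y ∈ Brd n, Y ++ (P ++ M) ∈ BrR E N}
          (fun Z => G (n + r + hgt Z) (P ++ Z)) ≤ ∑' m : ℕ, mu k1 m r * Rec8.sw (Brd m) (fun M => Φ (P ++ M)) := by
        refine ENNReal.tsum_le_tsum fun m => ?_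
        gcongr
        exact Rec8.sw_mono (fun t ht => ht.1) (fun t _ => hGΦ _ _)
      refine (h2.trans h1).trans ?_
      rw [Finset.mul_sum]
      refine Finset.sum_le_sum fun b _ => ?_
      calc mb k1 b r * (xT D1 k1 Φ * Sw D1 k1 b P) ≤ 1 * (xT D1 k1 Φ * Sw D1 k1 b P) :=
            mul_le_mul_left (mb_le_one _ _ _) _
        _ = _ := one_mul _
    · rw [mul_zero, nonpos_iff_eq_zero, ENNReal.tsum_eq_zero]
      intro m
      rcases Nat.lt_or_ge m (2 ^ (k1 + 1)) with hm | hm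
      · have e : {M : List Bool | M ∈ Brd m ∧ ∃ Y ∈ Brd n, Y ++ (P ++ M) ∈ BrR E N} = ∅ := by
          rw [Set.eq_empty_iff_forall_notMem]
          rintro M ⟨hM, Y, hY, H, h1, -, h3⟩
          have := Brd_height h3 (Brd_append hY (Brd_append hP.1 hM))
          omega
        rw [e]
        unfold Rec8.sw
        rw [tsum_empty, mul_zero]
      · rw [mu_eq_zero hm, zero_mul]
  · have hPb : P ∈ Brd r := hP.1
    have h3 : ∀ m r' : ℕ, mu k1 m r' * Rec8.sw {Z | ∃ h, h ≤ N ∧ Z ∈ Brd h} (fun Z => Rec8.sw (Irr r') (fun P' =>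
        Rec8.sw {M | M ∈ Brd m ∧ ∃ Y ∈ Brd n, Y ++ (P ++ (Z ++ (P' ++ M))) ∈ BrR E N}
          (fun M => G (n + r + hgt (Z ++ (P' ++ M))) (P ++ (Z ++ (P' ++ M)))))) ≤
        κ * (mu k1 m r' * Rec8.sw (Irr r') (fun P' => Rec8.sw (Brd m) (fun M => Φ (P' ++ M)))) := by
      intro m r'
      rw [mul_left_comm]
      refine mul_le_mul_right ?_ _
      have e1 : Rec8.sw {Z | ∃ h, h ≤ N ∧ Z ∈ Brd h} (fun Z => Rec8.sw (Irr r') (fun P' =>
          Rec8.sw {M | M ∈ Brd m ∧ ∃ Y ∈ Brd n, Y ++ (P ++ (Z ++ (P' ++ M))) ∈ BrR E N}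
            (fun M => G (n + r + hgt (Z ++ (P' ++ M))) (P ++ (Z ++ (P' ++ M)))))) ≤
          Rec8.sw {Z | ∃ h, h ≤ N ∧ Z ∈ Brd h} (fun Z => (fun v => Rec8.sw (Irr r') (fun P' =>
            Rec8.sw (Brd m) (fun M => G ((n + r + r' + m) + v) (P' ++ M)))) (hgt Z)) := by
        refine Rec8.sw_mono' fun Z hZ => ?_
        obtain ⟨z, -, hZ⟩ := hZ
        refine Rec8.sw_mono' fun P' hP' => ?_
        refine Rec8.sw_mono (fun t ht => ht.1) fun M hM => ?_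
        have e2 : hgt (Z ++ (P' ++ M)) = z + (r' + m) := hgt_eq (Brd_append hZ (Brd_append hP'.1 hM.1))
        have e3 : n + r + hgt (Z ++ (P' ++ M)) = (n + r + r' + m) + hgt Z := by
          rw [e2, hgt_eq hZ]
          omega
        rw [e3, ← List.append_assoc]
        exact hG _ _ ⟨_, Brd_append hPb hZ⟩ _
      refine e1.trans ((sw_le_range N (fun v => Rec8.sw (Irr r') (fun P' =>
            Rec8.sw (Brd m) (fun M => G ((n + r + r' + m) + v) (P' ++ M))))).trans ?_)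
      have e4 : ∑ v ∈ range (N + 1), gf (Brd v) * Rec8.sw (Irr r') (fun P' =>
            Rec8.sw (Brd m) (fun M => G ((n + r + r' + m) + v) (P' ++ M))) =
          Rec8.sw (Irr r') (fun P' => Rec8.sw (Brd m) (fun M =>
            ∑ v ∈ range (N + 1), gf (Brd v) * G ((n + r + r' + m) + v) (P' ++ M))) := by
        have e5 : ∀ P' : List Bool, Rec8.sw (Brd m) (fun M =>
            ∑ v ∈ range (N + 1), gf (Brd v) * G ((n + r + r' + m) + v) (P' ++ M)) =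
            ∑ v ∈ range (N + 1), gf (Brd v) * Rec8.sw (Brd m) (fun M => G ((n + r + r' + m) + v) (P' ++ M)) := by
          intro P'
          rw [Rec8.sw_sum]
          exact Finset.sum_congr rfl fun v _ => Rec8.sw_mul_left _ _ _
        simp only [e5]
        rw [Rec8.sw_sum]
        exact Finset.sum_congr rfl fun v _ => (Rec8.sw_mul_left _ _ _).symm
      rw [e4]
      calc Rec8.sw (Irr r') (fun P' => Rec8.sw (Brd m) (fun M =>
            ∑ v ∈ range (N + 1), gf (Brd v) * G ((n + r + r' + m) + v) (P' ++ M)))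
          ≤ Rec8.sw (Irr r') (fun P' => Rec8.sw (Brd m) (fun M => κ * Φ (P' ++ M))) :=
            Rec8.sw_mono' fun P' _ => Rec8.sw_mono' fun M _ => hκ _ _
        _ = κ * Rec8.sw (Irr r') (fun P' => Rec8.sw (Brd m) (fun M => Φ (P' ++ M))) := by
            rw [← Rec8.sw_mul_left]
            exact Rec8.sw_congr fun P' _ => Rec8.sw_mul_left _ _ _
    refine (ENNReal.tsum_le_tsum fun m => ENNReal.tsum_le_tsum fun r' => h3 m r').trans ?_
    simp only [ENNReal.tsum_mul_left]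
    calc κ * ∑' m : ℕ, ∑' r' : ℕ, mu k1 m r' * Rec8.sw (Irr r') (fun P' => Rec8.sw (Brd m) (fun M => Φ (P' ++ M)))
        ≤ κ * (ENNReal.ofReal K * xT D1 k1 Φ) := mul_le_mul_right (hK D1 k1 Φ hD) _
      _ = xT D1 k1 Φ * (κ * ENNReal.ofReal K) := by ring

/-- the next leaf behind I ++ M, decomposed at the in-level of the window j, the functional depends on the height -/
theorem next_win {D0 E N j : ℕ} {G : ℕ → List Bool → ℝ≥0∞} (hG : ∀ h, Hered (G h)) (hj : 2 ^ (j + 1) ≤ E)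
    (hDE : D0 ≤ E) (Θ : ℕ → ℕ → List Bool → ℝ≥0∞) (hΘ : ∀ n r P, n ≤ 2 ^ (j + 1) → P ∈ Irr r →
      Rec8.sw {Z | Z ∈ BU ∧ ∃ Y ∈ Brd n, Y ++ (P ++ Z) ∈ BrR E N} (fun Z => G (n + r + hgt Z) (P ++ Z)) ≤ Θ n r P)
    {i m : ℕ} {I M : List Bool} (hI : I ∈ Brd i) (hM : M ∈ Brd m) :
    vA D0 (BrR E N) (fun g => G (hgt g) g) (I ++ M) ≤ ∑' n : ℕ, ∑' r : ℕ, mu j n r * Rec8.sw (Brd n) (fun X =>
      Rec8.sw {P | P ∈ Irr r ∧ ∃ c : Bool, KRel D0 I P M ((!c) :: c :: X)} (fun P => Θ n r P)) := by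
  classical
  unfold vA
  rw [Rec8.sw_and]
  refine (inR (j := j) (D := E) (N := N) hj _).trans ?_
  refine ENNReal.tsum_le_tsum fun n => ENNReal.tsum_le_tsum fun r => ?_
  by_cases hn : 2 ^ (j + 1) ≤ n
  · rw [mu_eq_zero hn, zero_mul, zero_mul]
  refine mul_le_mul_right (Rec8.sw_mono' fun X hX => ?_) _
  rw [Rec8.sw_and]
  refine Rec8.sw_mono' fun P hP => ?_
  have hPB : P ∈ Brd r := hP.1
  have hnn : n ≤ 2 ^ (j + 1) := (not_le.mp hn).le
  by_cases hK : ∃ c : Bool, KRel D0 I P M ((!c) :: c :: X)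
  · rw [if_pos hK]
    refine le_trans (Rec8.sw_mono ?_ ?_) (hΘ n r P hnn hP)
    · rintro Z' ⟨ha, hb⟩
      exact ⟨ha, X, hX, hb⟩
    · rintro Z' ⟨ha, hb⟩
      split_ifs
      · have e : hgt (X ++ (P ++ Z')) = n + r + hgt Z' := by
          rw [hgt_eq (Brd_append hX (Brd_append hPB (BU_hgt ha)))]
          omega
        rw [e]
        exact hG _ X ⟨n, hX⟩ _
      · exact zero_le
  · rw [if_neg hK]
    refine le_trans (Rec8.sw_mono' (Ψ := fun _ => 0) ?_) (le_of_eq (Rec8.sw_zero _))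
    rintro Z' ⟨⟨y, hy⟩, hb⟩
    rw [if_neg]
    intro hRR
    refine hK (RT_KRel RNb_LFold hI hM hX hPB hy ?_ hRR)
    obtain ⟨H, h1, -, h3⟩ := hb
    exact ⟨H, hDE.trans h1, h3⟩

end WN

open WN in
/-- one more leaf, two scales, with a functional of the height and the tail; k3J as a hypothesis -/
theorem win2_of (h : Inp C δ) (hk3 : ∃ K c : ℝ, 1 ≤ K ∧ 0 < c ∧ ∀ (D0 k D1 k1 a1 b : ℕ) (I : List Bool),
    2 ^ (k + 4) ≤ D0 → 2 ^ (k1 + 4) ≤ D1 → k1 ≤ k → a1 ≤ k → b ≤ k →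
    ∑ a ∈ range (a1 + 2), ∑ b2 ∈ range (k1 + 1), ∑' r : ℕ, (if 2 ^ k < r then
      Rec8.sw (Irr r) (fun P => KT D0 b I a P * Sw D1 k1 b2 P) else 0) ≤
        ENNReal.ofReal (K * (2 : ℝ) ^ (-(c * ((k : ℝ) - a1)))) * Sw D0 k b I) :
    ∃ K c : ℝ, 1 ≤ K ∧ 0 < c ∧ ∀ (D0 k D1 k1 E N j1 : ℕ) (A : ℝ) (Φ : List Bool → ℝ≥0∞)
    (S : ℕ → List Bool → ℝ≥0∞), Hered Φ → (∀ n, Hered (S n)) → (∀ n t, S n t ≤ Φ t) → 0 ≤ A →
    (∀ (n : ℕ) (t : List Bool), ∑' v : ℕ, gf (Brd v) * S (n + v) t ≤ ENNReal.ofReal A * Φ t) →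
    2 ^ (k + 4) ≤ D0 → 2 ^ (k1 + 4) ≤ D1 → k1 ≤ k → D0 ≤ E → D1 ≤ E → E ≤ N → j1 + 3 ≤ k →
    xT D0 k (fun t => Rec8.sw {g | g ∈ BrR E N ∧ RT D0 LFold t g} (fun g => S (hgt g) g)) ≤
      ENNReal.ofReal (K * (UU N / Ub k) * ((2 : ℝ) ^ (-(c * ((k : ℝ) - j1))) + A / Ub j1)) * xT D1 k1 Φ := by
  obtain ⟨K3, c, hK3, hc, k3h⟩ := hk3
  obtain ⟨K1, hK1, k1h⟩ := k1 h
  obtain ⟨Kr, hKr, hrest⟩ := rest_win h
  refine ⟨16 * (K3 + Kr * K1), c, by nlinarith, hc,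
    fun D0 k D1 k1 E N j A Φ G _ hG hGΦ hA hκ hD0 hD1 hk1 h0E h1E hEN hj => ?_⟩
  refine xT_le fun b I hb hI => ?_
  obtain ⟨i, hIi⟩ := hI
  have hκ' : ∀ c t, ∑ v ∈ range (N + 1), gf (Brd v) * G (c + v) t ≤ ENNReal.ofReal A * Φ t := fun c t =>
    (ENNReal.sum_le_tsum _).trans (hκ c t)
  have heE : 2 ^ (k + 4) ≤ E := hD0.trans h0E
  have hp4 : 2 ^ (k + 4) = 8 * 2 ^ (k + 1) := by ring
  have hp1 : 2 ^ (k + 1) = 2 * 2 ^ k := by ring
  have hp0 : 1 ≤ 2 ^ k := Nat.one_le_two_pow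
  have hk0e : 2 ^ (j + 1) ≤ 2 ^ (k + 1) := Nat.pow_le_pow_right (by norm_num) (by omega)
  have hk1e : 2 ^ (k1 + 1) ≤ 2 ^ (k + 1) := Nat.pow_le_pow_right (by norm_num) (by omega)
  obtain ⟨x, hx⟩ : ∃ x, x = xT D1 k1 Φ := ⟨_, rfl⟩
  let Θ : ℕ → List Bool → ℝ≥0∞ := fun r P =>
    x * ((if 2 ^ k < r then ∑ b2 ∈ range (k1 + 1), Sw D1 k1 b2 P else 0) + ENNReal.ofReal A * ENNReal.ofReal Kr)
  have s1 : Rec8.sw (Fld.BrB b) (fun M => vA D0 (BrR E N) (fun g => G (hgt g) g) (I ++ M)) ≤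
      Rec8.sw (Fld.BrB b) (fun M => ∑' n : ℕ, ∑' r : ℕ, mu j n r * Rec8.sw (Brd n) (fun X =>
        Rec8.sw {P | P ∈ Irr r ∧ ∃ c : Bool, KRel D0 I P M ((!c) :: c :: X)} (fun P => Θ r P))) := by
    refine Rec8.sw_mono' fun M hM => ?_
    obtain ⟨m, -, hMm⟩ := hM
    refine next_win hG (by omega) h0E (fun _ r P => Θ r P) (fun n r P hn hP => ?_) hIi.1 hMm
    refine (hrest D1 E N k1 n r (ENNReal.ofReal A) Φ G P hG hGΦ hκ' hD1 h1E (by omega) hP).trans ?_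
    rw [← hx]
    refine mul_le_mul_right (add_le_add ?_ le_rfl) x
    by_cases h1 : E ≤ n + r + 2 ^ (k1 + 1)
    · rw [if_pos h1, if_pos (by omega)]
    · rw [if_neg h1]
      exact zero_le
  have s2 := fold_sum D0 b j I (mu j) (mb j) (fun a n r => mu_le_mb) (fun n r => mu_eq_zero)
    (fun a r => mb_mono (Nat.le_succ a) r) Θ
  refine s1.trans (s2.trans ?_)
  have s4 := sum2 D0 j b I x (ENNReal.ofReal A * ENNReal.ofReal Kr) k k1 D1
  have t1 := k3h D0 k D1 k1 j b I hD0 hD1 hk1 (by omega) hb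
  have t2 := k1h D0 k j b I hD0 (by omega) hb
  have hUk := Ub_pos k
  have hUj := Ub_pos j
  have hUN : 0 < UU N := Num2Aux.UU_pos N
  have hUeN : Ub k ≤ UU N := Num2Aux.UU_mono (by omega)
  have hone : 1 ≤ UU N / Ub k := (one_le_div hUk).2 hUeN
  obtain ⟨q, hq⟩ : ∃ q : ℝ, q = (2 : ℝ) ^ (-(c * ((k : ℝ) - j))) := ⟨_, rfl⟩
  have hq0 : 0 < q := by
    rw [hq]
    exact Real.rpow_pos_of_pos two_pos _
  rw [← hq] at t1 ⊢
  have hAj : 0 ≤ A / Ub j := div_nonneg hA hUj.le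
  calc 16 * ∑ a ∈ range (j + 2), ∑' r : ℕ, mb j a r * Rec8.sw (Irr r) (fun P => KT D0 b I a P * Θ r P)
      ≤ 16 * (x * (ENNReal.ofReal (K3 * q) * Sw D0 k b I +
          ENNReal.ofReal A * ENNReal.ofReal Kr * (ENNReal.ofReal (K1 / Ub j) * Sw D0 k b I))) := by
        refine mul_le_mul_right (s4.trans ?_) _
        gcongr
    _ = ENNReal.ofReal (16 * K3 * q + 16 * (Kr * K1) * (A / Ub j)) * x * Sw D0 k b I := by
        have e16 : ENNReal.ofReal 16 = 16 := by simp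
        have e1 : ENNReal.ofReal (16 * K3 * q) = 16 * ENNReal.ofReal (K3 * q) := by
          rw [← e16, ← ENNReal.ofReal_mul (by norm_num)]
          congr 1
          ring
        have e2 : ENNReal.ofReal (16 * (Kr * K1) * (A / Ub j)) =
            16 * (ENNReal.ofReal A * ENNReal.ofReal Kr * ENNReal.ofReal (K1 / Ub j)) := by
          rw [← e16, ← ENNReal.ofReal_mul hA, ← ENNReal.ofReal_mul (by positivity), ← ENNReal.ofReal_mul (by norm_num)]
          congr 1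
          ring
        rw [ENNReal.ofReal_add (by positivity) (by positivity), e1, e2]
        ring
    _ ≤ ENNReal.ofReal (16 * (K3 + Kr * K1) * (UU N / Ub k) * (q + A / Ub j)) * xT D1 k1 Φ * Sw D0 k b I := by
        rw [hx]
        refine mul_le_mul_left (mul_le_mul_left (ENNReal.ofReal_le_ofReal ?_) _) _
        have h8 : 16 * K3 * q + 16 * (Kr * K1) * (A / Ub j) ≤ 16 * (K3 + Kr * K1) * (q + A / Ub j) := by
          have h9 : 0 ≤ Kr * K1 * q := by positivity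
          have h10 : 0 ≤ K3 * (A / Ub j) := by positivity
          nlinarith
        refine h8.trans ?_
        have h11 : 0 ≤ 16 * (K3 + Kr * K1) * (q + A / Ub j) := by positivity
        calc 16 * (K3 + Kr * K1) * (q + A / Ub j) = 16 * (K3 + Kr * K1) * (q + A / Ub j) * 1 := by ring
          _ ≤ 16 * (K3 + Kr * K1) * (q + A / Ub j) * (UU N / Ub k) := mul_le_mul_of_nonneg_left hone h11
          _ = _ := by ring

end NTW

end HexObs
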