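import Pool.Agent.NTW.KernG
import Pool.Agent.NTW.Win
import Pool.Agent.NTW.Low

/-!
NTW, block A: win2 and lowA with the kernel k3J.
-/

set_option autoImplicit false

namespace HexObs

namespace NTW

open Finset TS SDN

open scoped ENNReal

open Rec8 (mb)

variable {C δ : ℝ}

/-- k3J without the second gain -/
theorem k3J' (h : Inp C δ) : ∃ K c : ℝ, 1 ≤ K ∧ 0 < c ∧ ∀ (D0 k D1 k1 a1 b : ℕ) (I : List Bool),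
    2 ^ (k + 4) ≤ D0 → 2 ^ (k1 + 4) ≤ D1 → k1 ≤ k → a1 ≤ k → b ≤ k →
    ∑ a ∈ range (a1 + 2), ∑ b2 ∈ range (k1 + 1), ∑' r : ℕ, (if 2 ^ k < r then
      Rec8.sw (Irr r) (fun P => KT D0 b I a P * Sw D1 k1 b2 P) else 0) ≤
        ENNReal.ofReal (K * (2 : ℝ) ^ (-(c * ((k : ℝ) - a1)))) * Sw D0 k b I := by
  obtain ⟨K, c, hK, hc, h3⟩ := k3J h
  refine ⟨K, c, hK, hc, fun D0 k D1 k1 a1 b I hD0 hD1 hk1 ha1 hb => ?_⟩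
  refine (h3 D0 k D1 k1 a1 b I hD0 hD1 hk1 ha1 hb).trans (mul_le_mul_left (ENNReal.ofReal_le_ofReal ?_) _)
  have hk : (k1 : ℝ) ≤ k := by exact_mod_cast hk1
  have h1 : (2 : ℝ) ^ (-(c * ((k : ℝ) - k1))) ≤ 1 := by
    apply Real.rpow_le_one_of_one_le_of_nonpos (by norm_num)
    have := mul_nonneg hc.le (by linarith : (0 : ℝ) ≤ (k : ℝ) - k1)
    linarith
  have h2 : 0 < (2 : ℝ) ^ (-(c * ((k : ℝ) - a1))) := Real.rpow_pos_of_pos two_pos _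
  calc K * (2 : ℝ) ^ (-(c * ((k : ℝ) - a1))) * (2 : ℝ) ^ (-(c * ((k : ℝ) - k1))) ≤
      K * (2 : ℝ) ^ (-(c * ((k : ℝ) - a1))) * 1 := by gcongr
    _ = _ := mul_one _

/-- the window operator -/
theorem win2 (h : Inp C δ) : ∃ K c : ℝ, 1 ≤ K ∧ 0 < c ∧ ∀ (D0 k D1 k1 E N j1 : ℕ) (A : ℝ) (Φ : List Bool → ℝ≥0∞)
    (S : ℕ → List Bool → ℝ≥0∞), Hered Φ → (∀ n, Hered (S n)) → (∀ n t, S n t ≤ Φ t) → 0 ≤ A →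
    (∀ (n : ℕ) (t : List Bool), ∑' v : ℕ, gf (Brd v) * S (n + v) t ≤ ENNReal.ofReal A * Φ t) →
    2 ^ (k + 4) ≤ D0 → 2 ^ (k1 + 4) ≤ D1 → k1 ≤ k → D0 ≤ E → D1 ≤ E → E ≤ N → j1 + 3 ≤ k →
    xT D0 k (fun t => Rec8.sw {g | g ∈ BrR E N ∧ RT D0 LFold t g} (fun g => S (hgt g) g)) ≤
      ENNReal.ofReal (K * (UU N / Ub k) * ((2 : ℝ) ^ (-(c * ((k : ℝ) - j1))) + A / Ub j1)) * xT D1 k1 Φ :=
  win2_of h (k3J' h)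

/-- the low hanging walks -/
theorem lowA (h : Inp C δ) : ∃ K c : ℝ, 1 ≤ K ∧ 0 < c ∧ ∀ (D0 k D1 k1 E N H : ℕ) (Φ F : List Bool → ℝ≥0∞) (B : ℝ≥0∞),
    Hered Φ → 2 ^ (k + 4) ≤ D0 → 2 ^ (k1 + 4) ≤ D1 → k1 ≤ k → D0 ≤ E → E ≤ N → H ≤ 2 ^ k → H ≤ 2 ^ (k1 + 6) →
    (∀ n r z X P Z, n < 2 ^ (k + 1) → X ∈ Brd n → P ∈ Irr r → Z ∈ Brd z → z < H → X ++ (P ++ Z) ∈ BrR E N →
      F (X ++ (P ++ Z)) ≤ Φ (P ++ Z)) →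
    (∀ n r X P, n < 2 ^ (k + 1) → X ∈ Brd n → P ∈ Irr r →
      Rec8.sw {Z | (∃ z, H ≤ z ∧ Z ∈ Brd z) ∧ X ++ (P ++ Z) ∈ BrR E N} (fun Z => F (X ++ (P ++ Z))) ≤ B) →
    xT D0 k (fun t => Rec8.sw {g | g ∈ BrR E N ∧ RT D0 LFold t g} F) ≤
      ENNReal.ofReal (K / Ub k) * B + ENNReal.ofReal (K * (2 : ℝ) ^ (-(c * ((k : ℝ) - k1)))) * xT D1 k1 Φ :=
  lowA_of h (k3J h)

end NTW

end HexObs
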