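import Pool.Agent.NTW.Kern
import Pool.Agent.NTW.WinK

/-!
NTW, block (A): the leaves whose beginning is dropped (doc NTW/9A, class A).
-/

set_option autoImplicit false

namespace HexObs

namespace NTW

open Finset TS SDN

open scoped ENNReal

open Rec8 (mb)

variable {C δ : ℝ}

/-- every kernel is at most the weight -/
lemma KT_le_Sw (h : Inp C δ) {D k b a : ℕ} (I P : List Bool) (hD : 2 ^ (k + 4) ≤ D) (hb : b ≤ k) (ha : a ≤ k + 1) :
    KT D b I a P ≤ ENNReal.ofReal C * Sw D k b I := by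
  have hC := h.one_le
  have hk := kap0_pos
  rcases le_or_gt b a with hab | hab
  · have h1 := KT_le_left D b I a P
    have h2 : EE D b a (rev I) ≤ Sw D k b I := by
      unfold Sw
      refine le_trans ?_ le_add_self
      refine le_trans ?_ (Finset.single_le_sum (fun _ _ => zero_le) (Finset.mem_Icc.2 ⟨hab, ha⟩))
      have h3 : (1 : ℝ≥0∞) ≤ ENNReal.ofReal ((2 : ℝ) ^ (kap0 / 4 * ((k : ℝ) + 1 - a))) := by
        rw [← ENNReal.ofReal_one]
        apply ENNReal.ofReal_le_ofReal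
        apply Real.one_le_rpow (by norm_num)
        have : (a : ℝ) ≤ (k : ℝ) + 1 := by exact_mod_cast ha
        have h4 : (0 : ℝ) ≤ (k : ℝ) + 1 - a := by linarith
        positivity
      calc EE D b a (rev I) = 1 * EE D b a (rev I) := (one_mul _).symm
        _ ≤ _ := mul_le_mul' h3 le_rfl
    calc KT D b I a P ≤ 1 * Sw D k b I := by
          rw [one_mul]
          exact h1.trans h2
      _ ≤ _ := by
          refine mul_le_mul' ?_ le_rfl
          rw [← ENNReal.ofReal_one]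
          exact ENNReal.ofReal_le_ofReal hC
  · have h1 := KT_le_right D b I a P
    have h0 : 2 ^ (b + 3) ≤ D := (Nat.pow_le_pow_right (by norm_num) (by omega)).trans hD
    have h2 := h.cu D b a hab.le h0 P
    have h3 : ENNReal.ofReal (Ub b) ≤ Sw D k b I := by
      unfold Sw
      refine le_trans ?_ le_self_add
      apply ENNReal.ofReal_le_ofReal
      have h4 : (1 : ℝ) ≤ (2 : ℝ) ^ (kap0 / 4 * ((k : ℝ) - b)) := by
        apply Real.one_le_rpow (by norm_num)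
        have : (b : ℝ) ≤ (k : ℝ) := by exact_mod_cast hb
        have h5 : (0 : ℝ) ≤ (k : ℝ) - b := by linarith
        positivity
      nlinarith [Ub_pos b]
    calc KT D b I a P ≤ ENNReal.ofReal (C * Ub b) := h1.trans h2
      _ = ENNReal.ofReal C * ENNReal.ofReal (Ub b) := ENNReal.ofReal_mul (by linarith)
      _ ≤ _ := mul_le_mul' le_rfl h3

open Classical in
/-- one term of the decomposition of the next leaf at a level -/
lemma piece_le {D0 E N j n r : ℕ} {F G : List Bool → ℝ≥0∞} (hDE : D0 ≤ E) (hn : n < 2 ^ (j + 1))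
    (hFG : ∀ X P Z, X ∈ Brd n → P ∈ Irr r → Z ∈ BU → X ++ (P ++ Z) ∈ BrR E N → F (X ++ (P ++ Z)) ≤ G (P ++ Z))
    {i m : ℕ} {I M : List Bool} (hI : I ∈ Brd i) (hM : M ∈ Brd m) :
    Rec8.sw (Brd n) (fun X => Rec8.sw (Irr r) (fun P => Rec8.sw {Z | Z ∈ BU ∧ X ++ (P ++ Z) ∈ BrR E N} (fun Z =>
      if RT D0 LFold (I ++ M) (X ++ (P ++ Z)) then F (X ++ (P ++ Z)) else 0))) ≤
    Rec8.sw (Brd n) (fun X => Rec8.sw {P | P ∈ Irr r ∧ ∃ c : Bool, KRel D0 I P M ((!c) :: c :: X)} (fun P =>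
      Rec8.sw {Z | Z ∈ BU ∧ P ++ Z ∈ BrR (E - 2 ^ (j + 1)) N} (fun Z => G (P ++ Z)))) := by
  refine Rec8.sw_mono' fun X hX => ?_
  rw [Rec8.sw_and]
  refine Rec8.sw_mono' fun P hP => ?_
  have hPB : P ∈ Brd r := hP.1
  by_cases hK : ∃ c : Bool, KRel D0 I P M ((!c) :: c :: X)
  · rw [if_pos hK]
    refine Rec8.sw_mono ?_ ?_
    · rintro Z ⟨⟨z, hz⟩, H, h1, h2, h3⟩
      have h4 := Brd_height h3 (Brd_append hX (Brd_append hPB hz))
      exact ⟨⟨z, hz⟩, r + z, by omega, by omega, Brd_append hPB hz⟩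
    · rintro Z ⟨ha, hb⟩
      split_ifs
      · exact hFG X P Z hX hP ha hb
      · exact zero_le
  · rw [if_neg hK]
    refine le_trans (Rec8.sw_mono' (Ψ := fun _ => 0) ?_) (le_of_eq (Rec8.sw_zero _))
    rintro Z' ⟨⟨y, hy⟩, hb⟩
    rw [if_neg]
    intro hRR
    refine hK (RT_KRel RNb_LFold hI hM hX hPB hy ?_ hRR)
    obtain ⟨H, h1, -, h3⟩ := hb
    exact ⟨H, hDE.trans h1, h3⟩

/-- the next leaf behind I ++ M: short and long beginnings -/
lemma next3 {D0 E N j a1 : ℕ} {Φ F G : List Bool → ℝ≥0∞} (hΦ : Hered Φ) (hF : ∀ g, F g ≤ Φ g) (hj : 2 ^ (j + 1) ≤ E)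
    (hDE : D0 ≤ E)
    (hFG : ∀ (n r : ℕ) (X P Z : List Bool), n < 2 ^ (j + 1) → X ∈ Brd n → P ∈ Irr r → Z ∈ BU →
      X ++ (P ++ Z) ∈ BrR E N → F (X ++ (P ++ Z)) ≤ G (P ++ Z))
    {i m : ℕ} {I M : List Bool} (hI : I ∈ Brd i) (hM : M ∈ Brd m) :
    vA D0 (BrR E N) F (I ++ M) ≤
      (∑' n : ℕ, ∑' r : ℕ, (if n < 2 ^ (a1 + 1) then mu j n r else 0) * Rec8.sw (Brd n) (fun X =>
        Rec8.sw {P | P ∈ Irr r ∧ ∃ c : Bool, KRel D0 I P M ((!c) :: c :: X)} (fun P =>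
          Rec8.sw {Z | Z ∈ BU ∧ P ++ Z ∈ BrR (E - 2 ^ (j + 1)) N} (fun Z => Φ (P ++ Z))))) +
      ∑' n : ℕ, ∑' r : ℕ, (if n < 2 ^ (a1 + 1) then 0 else mu j n r) * Rec8.sw (Brd n) (fun X =>
        Rec8.sw {P | P ∈ Irr r ∧ ∃ c : Bool, KRel D0 I P M ((!c) :: c :: X)} (fun P =>
          Rec8.sw {Z | Z ∈ BU ∧ P ++ Z ∈ BrR (E - 2 ^ (j + 1)) N} (fun Z => G (P ++ Z)))) := by
  classical
  unfold vA
  rw [Rec8.sw_and]
  refine (inR (j := j) (D := E) (N := N) hj _).trans ?_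
  rw [← ENNReal.tsum_add]
  refine ENNReal.tsum_le_tsum fun n => ?_
  rw [← ENNReal.tsum_add]
  refine ENNReal.tsum_le_tsum fun r => ?_
  by_cases hn : 2 ^ (j + 1) ≤ n
  · rw [mu_eq_zero hn, zero_mul]
    exact zero_le
  rw [not_le] at hn
  by_cases ha : n < 2 ^ (a1 + 1)
  · rw [if_pos ha, if_pos ha, zero_mul, add_zero]
    refine mul_le_mul' le_rfl (piece_le hDE hn (fun X P Z hX hP hZ hb => ?_) hI hM)
    exact (hF _).trans (hΦ X ⟨n, hX⟩ _)
  · rw [if_neg ha, if_neg ha, zero_mul, zero_add]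
    exact mul_le_mul' le_rfl (piece_le hDE hn (fun X P Z hX hP hZ hb => hFG n r X P Z hn hX hP hZ hb) hI hM)

/-- the sum over the short beginnings: giants and free rest -/
lemma sumS (D0 b j a2 : ℕ) (I : List Bool) (x A : ℝ≥0∞) (e k1 D1 : ℕ) :
    ∑ a ∈ range a2, ∑' r : ℕ, mb j a r * Rec8.sw (Irr r) (fun P => KT D0 b I a P *
      (x * ((if 2 ^ e < r then ∑ b2 ∈ range (k1 + 1), Sw D1 k1 b2 P else 0) + A))) ≤
    x * (∑ a ∈ range a2, ∑ b2 ∈ range (k1 + 1), ∑' r : ℕ, (if 2 ^ e < r then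
      Rec8.sw (Irr r) (fun P => KT D0 b I a P * Sw D1 k1 b2 P) else 0) +
      A * ∑ a ∈ range a2, pm j a (fun P => KT D0 b I a P)) := by
  rw [Finset.mul_sum, ← Finset.sum_add_distrib, Finset.mul_sum]
  refine Finset.sum_le_sum fun a _ => ?_
  rw [← Summable.tsum_finsetSum (fun _ _ => ENNReal.summable)]
  unfold pm
  rw [← ENNReal.tsum_mul_left, ← ENNReal.tsum_add, ← ENNReal.tsum_mul_left]
  refine ENNReal.tsum_le_tsum fun r => ?_
  have e1 : Rec8.sw (Irr r) (fun P => KT D0 b I a P *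
      (x * ((if 2 ^ e < r then ∑ b2 ∈ range (k1 + 1), Sw D1 k1 b2 P else 0) + A))) =
      x * ((if 2 ^ e < r then ∑ b2 ∈ range (k1 + 1), Rec8.sw (Irr r) (fun P => KT D0 b I a P * Sw D1 k1 b2 P) else 0) +
        A * Rec8.sw (Irr r) (fun P => KT D0 b I a P)) := by
    have e2 : Rec8.sw (Irr r) (fun P => KT D0 b I a P *
        (x * ((if 2 ^ e < r then ∑ b2 ∈ range (k1 + 1), Sw D1 k1 b2 P else 0) + A))) =
        Rec8.sw (Irr r) (fun P => x * ((if 2 ^ e < r then ∑ b2 ∈ range (k1 + 1), KT D0 b I a P * Sw D1 k1 b2 P else 0) +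
          A * KT D0 b I a P)) := by
      refine Rec8.sw_congr fun P _ => ?_
      split_ifs
      · rw [← Finset.mul_sum]
        ring
      · ring
    rw [e2, Rec8.sw_mul_left, Rec8.sw_add, Rec8.sw_mul_left]
    congr 2
    split_ifs
    · exact Rec8.sw_sum _ _ _
    · exact Rec8.sw_zero _
  rw [e1, mul_left_comm]
  refine mul_le_mul_right ?_ x
  rw [mul_add]
  refine add_le_add ?_ ?_
  · split_ifs
    · calc mb j a r * ∑ b2 ∈ range (k1 + 1), Rec8.sw (Irr r) (fun P => KT D0 b I a P * Sw D1 k1 b2 P) ≤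
            1 * ∑ b2 ∈ range (k1 + 1), Rec8.sw (Irr r) (fun P => KT D0 b I a P * Sw D1 k1 b2 P) :=
            mul_le_mul_left (T2.mb_le_one _ _ _) _
        _ = _ := one_mul _
    · rw [mul_zero]
      exact zero_le
  · rw [mul_left_comm]

/-- the sum over the long beginnings -/
lemma sumL (h : Inp C δ) {D0 k b j a1 : ℕ} (I : List Bool) (hD : 2 ^ (k + 4) ≤ D0) (hb : b ≤ k) (hj : j ≤ k)
    (ha : a1 + 3 ≤ j) (Θ : ℕ → List Bool → ℝ≥0∞) :
    ∑ a ∈ range (j + 2), ∑' r : ℕ, (if a ≤ a1 then 0 else mb j a r) * Rec8.sw (Irr r) (fun P => KT D0 b I a P * Θ r P) ≤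
      ENNReal.ofReal (C * ((j : ℝ) - a1 + 2)) * Sw D0 k b I * ∑' r : ℕ, min 1 ((r : ℝ≥0∞) / 2 ^ j) * Rec8.sw (Irr r) (Θ r) := by
  have hC := h.one_le
  set T := ∑' r : ℕ, min 1 ((r : ℝ≥0∞) / 2 ^ j) * Rec8.sw (Irr r) (Θ r) with hT
  have h1 : ∀ a ∈ range (j + 2), ∑' r : ℕ, (if a ≤ a1 then 0 else mb j a r) *
      Rec8.sw (Irr r) (fun P => KT D0 b I a P * Θ r P) ≤ if a ≤ a1 then 0 else ENNReal.ofReal C * Sw D0 k b I * T := by
    intro a haj
    rw [Finset.mem_range] at haj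
    split_ifs with haa
    · simp
    · rw [hT, ← ENNReal.tsum_mul_left]
      refine ENNReal.tsum_le_tsum fun r => ?_
      calc mb j a r * Rec8.sw (Irr r) (fun P => KT D0 b I a P * Θ r P)
          ≤ min 1 ((r : ℝ≥0∞) / 2 ^ j) * Rec8.sw (Irr r) (fun P => ENNReal.ofReal C * Sw D0 k b I * Θ r P) := by
            refine mul_le_mul' ?_ (Rec8.sw_mono' fun P _ => ?_)
            · unfold mb
              split_ifs
              · exact zero_le
              · exact le_rfl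
            · exact mul_le_mul' (KT_le_Sw h I P hD hb (by omega)) le_rfl
        _ = _ := by
            rw [Rec8.sw_mul_left]
            ring
  refine (Finset.sum_le_sum h1).trans ?_
  have h2 : ∑ a ∈ range (j + 2), (if a ≤ a1 then 0 else ENNReal.ofReal C * Sw D0 k b I * T) ≤
      ∑ a ∈ Finset.Ico (a1 + 1) (j + 2), ENNReal.ofReal C * Sw D0 k b I * T := by
    rw [← Finset.sum_filter_add_sum_filter_not (range (j + 2)) (fun a => a ≤ a1)]
    have e1 : ∑ a ∈ (range (j + 2)).filter (fun a => a ≤ a1),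
        (if a ≤ a1 then 0 else ENNReal.ofReal C * Sw D0 k b I * T) = 0 := by
      refine Finset.sum_eq_zero fun a ha => ?_
      rw [Finset.mem_filter] at ha
      rw [if_pos ha.2]
    rw [e1, zero_add]
    refine le_trans (Finset.sum_le_sum (g := fun _ => ENNReal.ofReal C * Sw D0 k b I * T) fun a _ => ?_) ?_
    · split_ifs
      · exact zero_le
      · exact le_rfl
    · refine Finset.sum_le_sum_of_subset fun a ha => ?_
      rw [Finset.mem_filter, Finset.mem_range] at ha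
      rw [Finset.mem_Ico]
      omega
  refine h2.trans ?_
  rw [Finset.sum_const, Nat.card_Ico, nsmul_eq_mul]
  have e2 : ((j + 2 - (a1 + 1) : ℕ) : ℝ≥0∞) = ENNReal.ofReal ((j : ℝ) - a1 + 1) := by
    rw [← ENNReal.ofReal_natCast]
    congr 1
    have : (j + 2 - (a1 + 1) : ℕ) = j - a1 + 1 := by omega
    rw [this]
    push_cast [Nat.cast_sub (by omega : a1 ≤ j)]
    ring
  have e3 : (0 : ℝ) ≤ (j : ℝ) - a1 := by
    have : (a1 : ℝ) ≤ j := by exact_mod_cast (by omega : a1 ≤ j)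
    linarith
  rw [e2, ← mul_assoc, ← mul_assoc, ← ENNReal.ofReal_mul (by linarith)]
  refine mul_le_mul' (mul_le_mul' (ENNReal.ofReal_le_ofReal ?_) le_rfl) le_rfl
  nlinarith

/-- class A: the beginning of the leaf is dropped -/
theorem clsA (h : Inp C δ) : ∃ K c : ℝ, 1 ≤ K ∧ 0 < c ∧ ∀ (D0 k D1 k1 E N j a1 : ℕ) (Φ F G : List Bool → ℝ≥0∞)
    (B : ℝ≥0∞), Hered Φ → (∀ g, F g ≤ Φ g) →
    (∀ (n r : ℕ) (X P Z : List Bool), n < 2 ^ (j + 1) → X ∈ Brd n → P ∈ Irr r → Z ∈ BU → X ++ (P ++ Z) ∈ BrR E N →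
      F (X ++ (P ++ Z)) ≤ G (P ++ Z)) →
    (∑' r : ℕ, min 1 ((r : ℝ≥0∞) / 2 ^ j) * Rec8.sw (Irr r) (fun P =>
      Rec8.sw {Z | Z ∈ BU ∧ P ++ Z ∈ BrR (E - 2 ^ (j + 1)) N} (fun Z => G (P ++ Z))) ≤ B) →
    2 ^ (k + 4) ≤ D0 → 2 ^ (k1 + 4) ≤ D1 → k1 ≤ k → D0 ≤ E → D1 ≤ E → E ≤ N → j ≤ k → a1 + 3 ≤ j →
    xT D0 k (fun t => Rec8.sw {g | g ∈ BrR E N ∧ RT D0 LFold t g} F) ≤
      ENNReal.ofReal (K * ((j : ℝ) - a1 + 2)) * B +
      ENNReal.ofReal (K * (UU N / Ub j) * (2 : ℝ) ^ (-(c * ((j : ℝ) - a1)))) * xT D1 k1 Φ := by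
  obtain ⟨Kr, hKr, hrest⟩ := rest3 h
  obtain ⟨K2, c2, hK2, hc2, h2J⟩ := k2J h
  obtain ⟨K3, c3, hK3, hc3, h3J⟩ := k3J' h
  have hC := h.one_le
  refine ⟨16 * (K3 + Kr * K2 + C), min c2 c3, by nlinarith, lt_min hc2 hc3, ?_⟩
  intro D0 k D1 k1 E N j a1 Φ F G B hΦ hF hFG hB hD0 hD1 hk1 h0E h1E hEN hj ha1
  refine xT_le fun b I hb hI => ?_
  obtain ⟨i, hIi⟩ := hI
  have hp4 : 2 ^ (k + 4) = 8 * 2 ^ (k + 1) := by ring
  have hp1 : 2 ^ (k + 1) = 2 * 2 ^ k := by ring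
  have hp0 : 1 ≤ 2 ^ k := Nat.one_le_two_pow
  have hjk : 2 ^ (j + 1) ≤ 2 ^ (k + 1) := Nat.pow_le_pow_right (by norm_num) (by omega)
  have hk1e : 2 ^ (k1 + 1) ≤ 2 ^ (k + 1) := Nat.pow_le_pow_right (by norm_num) (by omega)
  obtain ⟨x, hx⟩ : ∃ x, x = xT D1 k1 Φ := ⟨_, rfl⟩
  let Θ1 : ℕ → List Bool → ℝ≥0∞ := fun r P =>
    x * ((if 2 ^ k < r then ∑ b2 ∈ range (k1 + 1), Sw D1 k1 b2 P else 0) + ENNReal.ofReal (Kr * UU N))
  let Θ2 : ℕ → List Bool → ℝ≥0∞ := fun r P =>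
    Rec8.sw {Z | Z ∈ BU ∧ P ++ Z ∈ BrR (E - 2 ^ (j + 1)) N} (fun Z => G (P ++ Z))
  let W1 : ℕ → ℕ → ℝ≥0∞ := fun n r => if n < 2 ^ (a1 + 1) then mu j n r else 0
  let W2 : ℕ → ℕ → ℝ≥0∞ := fun n r => if n < 2 ^ (a1 + 1) then 0 else mu j n r
  have s1 : Rec8.sw (Fld.BrB b) (fun M => vA D0 (BrR E N) F (I ++ M)) ≤
      Rec8.sw (Fld.BrB b) (fun M => ∑' n : ℕ, ∑' r : ℕ, W1 n r * Rec8.sw (Brd n) (fun X =>
        Rec8.sw {P | P ∈ Irr r ∧ ∃ c : Bool, KRel D0 I P M ((!c) :: c :: X)} (fun P => Θ1 r P))) +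
      Rec8.sw (Fld.BrB b) (fun M => ∑' n : ℕ, ∑' r : ℕ, W2 n r * Rec8.sw (Brd n) (fun X =>
        Rec8.sw {P | P ∈ Irr r ∧ ∃ c : Bool, KRel D0 I P M ((!c) :: c :: X)} (fun P => Θ2 r P))) := by
    rw [← Rec8.sw_add]
    refine Rec8.sw_mono' fun M hM => ?_
    obtain ⟨m, -, hMm⟩ := hM
    refine (next3 (a1 := a1) hΦ hF (by omega) h0E hFG hIi.1 hMm).trans ?_
    refine add_le_add ?_ le_rfl
    refine ENNReal.tsum_le_tsum fun n => ENNReal.tsum_le_tsum fun r => ?_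
    refine mul_le_mul' le_rfl (Rec8.sw_mono' fun X _ => Rec8.sw_mono' fun P hP => ?_)
    have hsub : {Z | Z ∈ BU ∧ P ++ Z ∈ BrR (E - 2 ^ (j + 1)) N} ⊆
        {Z | (∃ z, z ≤ N ∧ Z ∈ Brd z) ∧ P ++ Z ∈ BrR (E - 2 ^ (j + 1)) N} := by
      rintro Z ⟨⟨z, hz⟩, H, h1, h2, h3⟩
      have h4 := Brd_height h3 (Brd_append hP.1.1 hz)
      exact ⟨⟨z, by omega, hz⟩, H, h1, h2, h3⟩
    refine (Rec8.sw_mono hsub fun _ _ => le_rfl).trans ?_
    refine (hrest D1 (E - 2 ^ (j + 1)) N N k1 r Φ P hΦ hD1 (by omega) hP.1).trans ?_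
    show _ ≤ x * _
    rw [← hx]
    refine mul_le_mul_right (add_le_add ?_ le_rfl) x
    by_cases h1 : E - 2 ^ (j + 1) ≤ r + 2 ^ (k1 + 1)
    · rw [if_pos h1, if_pos (by omega)]
    · rw [if_neg h1]
      exact zero_le
  have s2 := fold_sum D0 b a1 I W1 (mb j) (fun a n r hn => by
      show (if n < 2 ^ (a1 + 1) then mu j n r else 0) ≤ _
      split_ifs
      · exact mu_le_mb hn
      · exact zero_le)
    (fun n r hn => if_neg (by omega)) (fun a r => mb_mono (Nat.le_succ a) r) Θ1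
  have s3 := fold_sum D0 b j I W2 (fun a r => if a ≤ a1 then 0 else mb j a r) (fun a n r hn => by
      show (if n < 2 ^ (a1 + 1) then 0 else mu j n r) ≤ if a ≤ a1 then 0 else mb j a r
      by_cases h1 : n < 2 ^ (a1 + 1)
      · rw [if_pos h1]
        exact zero_le
      · rw [if_neg h1, if_neg]
        · exact mu_le_mb hn
        · intro h2
          have h3 : 2 ^ (a + 1) ≤ 2 ^ (a1 + 1) := Nat.pow_le_pow_right (by norm_num) (by omega)
          have h4 : n < 2 ^ (a + 1) := hn.1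
          omega)
    (fun n r hn => by
      show (if n < 2 ^ (a1 + 1) then 0 else mu j n r) = 0
      rw [mu_eq_zero hn]
      simp) (fun a r => by
        show (if a ≤ a1 then 0 else mb j a r) ≤ if a + 1 ≤ a1 then 0 else mb j (a + 1) r
        by_cases h1 : a ≤ a1
        · rw [if_pos h1]
          exact zero_le
        · rw [if_neg h1, if_neg (by omega)]
          exact mb_mono (Nat.le_succ a) r) Θ2
  refine s1.trans ((add_le_add s2 s3).trans ?_)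
  have s4 := sumS D0 b j (a1 + 2) I x (ENNReal.ofReal (Kr * UU N)) k k1 D1
  have t1 := h3J D0 k D1 k1 a1 b I hD0 hD1 hk1 (by omega) hb
  have t2 := h2J D0 k j a1 b I hD0 hj ha1 hb
  have s5 := (sumL h I hD0 hb hj ha1 Θ2).trans (mul_le_mul' le_rfl hB)
  have hUj := Ub_pos j
  have hUN : 0 < UU N := Num2Aux.UU_pos N
  have hUjN : Ub j ≤ UU N := Num2Aux.UU_mono (by
    have : 2 ^ j ≤ 2 ^ (j + 1) := Nat.pow_le_pow_right (by norm_num) (by omega)
    omega)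
  have hja : (a1 : ℝ) ≤ j := by exact_mod_cast (by omega : a1 ≤ j)
  have hjk' : (j : ℝ) ≤ k := by exact_mod_cast hj
  have hr1 : (2 : ℝ) ^ (-(c3 * ((k : ℝ) - a1))) ≤ (2 : ℝ) ^ (-(min c2 c3 * ((j : ℝ) - a1))) := by
    apply Real.rpow_le_rpow_of_exponent_le (by norm_num)
    have h1 : min c2 c3 * ((j : ℝ) - a1) ≤ c3 * ((k : ℝ) - a1) :=
      mul_le_mul (min_le_right _ _) (by linarith) (by linarith) hc3.le
    linarith
  have hr2 : (2 : ℝ) ^ (-(c2 * ((j : ℝ) - a1))) ≤ (2 : ℝ) ^ (-(min c2 c3 * ((j : ℝ) - a1))) := by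
    apply Real.rpow_le_rpow_of_exponent_le (by norm_num)
    have h1 : min c2 c3 * ((j : ℝ) - a1) ≤ c2 * ((j : ℝ) - a1) :=
      mul_le_mul_of_nonneg_right (min_le_left _ _) (by linarith)
    linarith
  have hq1 : (0 : ℝ) < (2 : ℝ) ^ (-(c3 * ((k : ℝ) - a1))) := Real.rpow_pos_of_pos (by norm_num) _
  have hq2 : (0 : ℝ) < (2 : ℝ) ^ (-(c2 * ((j : ℝ) - a1))) := Real.rpow_pos_of_pos (by norm_num) _
  obtain ⟨q1, hq1e⟩ : ∃ q1, q1 = (2 : ℝ) ^ (-(c3 * ((k : ℝ) - a1))) := ⟨_, rfl⟩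
  obtain ⟨q2, hq2e⟩ : ∃ q2, q2 = (2 : ℝ) ^ (-(c2 * ((j : ℝ) - a1))) := ⟨_, rfl⟩
  obtain ⟨q, hqe⟩ : ∃ q, q = (2 : ℝ) ^ (-(min c2 c3 * ((j : ℝ) - a1))) := ⟨_, rfl⟩
  rw [← hq1e] at t1 hr1 hq1
  rw [← hq2e] at t2 hr2 hq2
  rw [← hqe] at hr1 hr2 ⊢
  have hq : 0 < q := hq1.trans_le hr1
  have e16 : ENNReal.ofReal 16 = 16 := by simp
  calc 16 * ∑ a ∈ range (a1 + 2), ∑' r : ℕ, mb j a r * Rec8.sw (Irr r) (fun P => KT D0 b I a P * Θ1 r P) +
        16 * ∑ a ∈ range (j + 2), ∑' r : ℕ, (if a ≤ a1 then 0 else mb j a r) *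
          Rec8.sw (Irr r) (fun P => KT D0 b I a P * Θ2 r P)
      ≤ 16 * (x * (ENNReal.ofReal (K3 * q1) * Sw D0 k b I +
          ENNReal.ofReal (Kr * UU N) * (ENNReal.ofReal (K2 / Ub j * q2) * Sw D0 k b I))) +
        16 * (ENNReal.ofReal (C * ((j : ℝ) - a1 + 2)) * Sw D0 k b I * B) := by
        refine add_le_add (mul_le_mul_right (s4.trans ?_) _) (mul_le_mul_right s5 _)
        gcongr
    _ = ENNReal.ofReal (16 * (K3 * q1 + Kr * UU N * (K2 / Ub j * q2))) * x * Sw D0 k b I +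
        ENNReal.ofReal (16 * (C * ((j : ℝ) - a1 + 2))) * B * Sw D0 k b I := by
        rw [ENNReal.ofReal_mul (p := 16) (by norm_num), ENNReal.ofReal_mul (p := 16) (by norm_num), e16,
          ENNReal.ofReal_add (by positivity) (by positivity), ENNReal.ofReal_mul (p := Kr * UU N) (by positivity)]
        ring
    _ ≤ ENNReal.ofReal (16 * (K3 + Kr * K2 + C) * (UU N / Ub j) * q) * x * Sw D0 k b I +
        ENNReal.ofReal (16 * (K3 + Kr * K2 + C) * ((j : ℝ) - a1 + 2)) * B * Sw D0 k b I := by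
        refine add_le_add (mul_le_mul' (mul_le_mul' (ENNReal.ofReal_le_ofReal ?_) le_rfl) le_rfl)
          (mul_le_mul' (mul_le_mul' (ENNReal.ofReal_le_ofReal ?_) le_rfl) le_rfl)
        · have h1 : (1 : ℝ) ≤ UU N / Ub j := by
            rw [le_div_iff₀ hUj]
            linarith
          have h2 : K3 * q1 ≤ K3 * (UU N / Ub j) * q := by
            have h3 : q1 ≤ (UU N / Ub j) * q := hr1.trans (by nlinarith)
            have h4 := mul_le_mul_of_nonneg_left h3 (by linarith : (0 : ℝ) ≤ K3)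
            linarith
          have h5 : Kr * UU N * (K2 / Ub j * q2) ≤ Kr * K2 * (UU N / Ub j) * q := by
            have h6 : Kr * UU N * (K2 / Ub j * q2) = Kr * K2 * (UU N / Ub j) * q2 := by ring
            rw [h6]
            exact mul_le_mul_of_nonneg_left hr2 (by positivity)
          have h7 : 0 ≤ C * (UU N / Ub j) * q := by positivity
          nlinarith
        · have h1 : (0 : ℝ) ≤ (j : ℝ) - a1 + 2 := by linarith
          have h2 : 0 ≤ (K3 + Kr * K2) * ((j : ℝ) - a1 + 2) := by positivity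
          nlinarith
    _ = _ := by
        rw [hx]
        ring

end NTW

end HexObs
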