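import Pool.Agent.NTW.EndsL
import Pool.Agent.NTW.EndsA

/-!
NTW, block (A) with a time bound: END.
-/

set_option autoImplicit false

namespace HexObs

namespace NTW

open Finset TS SDN

open scoped ENNReal

open Rec8 (mb)

variable {C δ : ℝ}

lemma le_bl (lam : ℕ) {i j : ℕ} (h : i ≤ j) : HHl (2 ^ i) lam / ENNReal.ofReal (UU (2 ^ i)) ≤ bl lam j :=
  le_iSup (fun i : Fin (j + 1) => HHl (2 ^ i.1) lam / ENNReal.ofReal (UU (2 ^ i.1))) ⟨i, by omega⟩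

lemma bl_mono (lam : ℕ) {i j : ℕ} (h : i ≤ j) : bl lam i ≤ bl lam j :=
  iSup_le fun a => le_bl lam (by have := a.2; omega)

lemma bl_mono_lam {lam lam' : ℕ} (h : lam ≤ lam') (j : ℕ) : bl lam j ≤ bl lam' j :=
  iSup_mono fun _ => ENNReal.div_le_div_right (HHl_mono le_rfl h) _

/-- the value at N against the dyadic values -/
lemma HHl_le_bl {j N lam : ℕ} (h1 : 2 ^ j ≤ N) (h2 : N ≤ 2 ^ (j + 2)) (C1 : ℝ) (hC : 0 ≤ C1) :
    ENNReal.ofReal (C1 / UU N) * HHl N lam ≤ ENNReal.ofReal (4 * C1) * bl lam (j + 2) := by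
  have hU : 0 < UU (2 ^ (j + 2)) := Num2Aux.UU_pos _
  have hUN : 0 < UU N := Num2Aux.UU_pos _
  have e := UU_ratio_up j 2
  have e3 : UU (2 ^ j) ≤ UU N := Num2Aux.UU_mono h1
  norm_num at e
  have h3 : C1 / UU N ≤ 4 * C1 * (1 / UU (2 ^ (j + 2))) := by
    rw [mul_one_div, div_le_div_iff₀ hUN hU]
    nlinarith
  calc ENNReal.ofReal (C1 / UU N) * HHl N lam ≤
      ENNReal.ofReal (4 * C1 * (1 / UU (2 ^ (j + 2)))) * HHl (2 ^ (j + 2)) lam :=
        mul_le_mul' (ENNReal.ofReal_le_ofReal h3) (HHl_mono h2 le_rfl)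
    _ = ENNReal.ofReal (4 * C1) * (HHl (2 ^ (j + 2)) lam / ENNReal.ofReal (UU (2 ^ (j + 2)))) := by
        rw [ENNReal.ofReal_mul (by positivity), one_div, ENNReal.ofReal_inv_of_pos hU, div_eq_mul_inv]
        ring
    _ ≤ _ := mul_le_mul_right (le_bl lam le_rfl) _

lemma zNl_ne_top (lam j N : ℕ) : zNl lam j N ≠ ⊤ := by
  have h1 : zNl lam j N ≤ 2 * BAR.HH N := by
    refine le_trans (xT_mono (Ψ := fun _ => BAR.HH N) fun t => ?_) (xT_const _ _ _)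
    exact gf_mono fun W hW => hW.1
  refine ne_top_of_le_ne_top ?_ h1
  exact ENNReal.mul_ne_top (by norm_num) (PLW.gf_SSt_fin N)

/-- the statement close1 of Close -/
def Close1 : Prop := ∀ (K c : ℝ), 1 ≤ K → 0 < c → ∃ (c0 : ℕ) (ε : ℝ), 6 ≤ c0 ∧ 0 < ε ∧
  ∀ (C1 : ℝ) (z b : ℕ → ℝ≥0∞) (J : ℕ), 1 ≤ C1 → (∀ j, 5 ≤ j → j ≤ J → z j ≠ ⊤) → Monotone b →
  (∀ j, 5 ≤ j → j ≤ J → z j ≤ ENNReal.ofReal C1 * b j +
    ∑ i ∈ Ico 5 (j + 1 - c0), ENNReal.ofReal (K * (2 : ℝ) ^ (-(c * ((j : ℝ) - i)))) * z i +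
    ENNReal.ofReal ε * (∑ i ∈ Ico (max 5 (j + 1 - c0)) j, z i + z j)) →
  ∀ j, 5 ≤ j → j ≤ J → z j ≤ ENNReal.ofReal (2 * C1) * b j

/-- **END with a time bound** -/
theorem ENDl_of (h : Inp C δ) (hS : HSumL) (hE : EFlLe) (hZ : SumZl) (hcl : Close1) :
    ∃ C1 : ℝ, 1 ≤ C1 ∧ ∀ j N lam lam' : ℕ, 5 ≤ j → 2 ^ j < N → N ≤ 2 ^ (j + 2) → QL j lam' →
      zNl lam j N ≤ ENNReal.ofReal C1 * bl (lam + lam' + 12) (j + 2) := by
  obtain ⟨K, c, hK, hc, hst⟩ := step1l_of h (fun h => clsA h) hS hE hZ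
  obtain ⟨c0, ε, hc0, hε, hcl⟩ := hcl K c hK hc
  obtain ⟨C1, hC1, hst⟩ := hst c0 ε hc0 hε
  refine ⟨2 * (4 * C1), by linarith, fun j N lam lam' hj hjN hN hQ => ?_⟩
  obtain ⟨z, hz⟩ : ∃ z : ℕ → ℝ≥0∞, z = fun i => if i = j then zNl lam j N else zl lam i := ⟨_, rfl⟩
  have hzj : z j = zNl lam j N := by
    rw [hz]
    simp
  have hzi : ∀ i, i ≠ j → z i = zl lam i := by
    intro i hi
    rw [hz]
    simp [hi]
  have key := hcl (4 * C1) z (fun i => bl (lam + lam' + 12) (i + 2)) j (by linarith) ?_ ?_ ?_ j hj le_rfl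
  · rw [hzj] at key
    exact key
  · intro i hi hij
    by_cases hc : i = j
    · rw [hc, hzj]
      exact zNl_ne_top _ _ _
    · rw [hzi i hc]
      exact zNl_ne_top lam i (2 ^ (i + 1))
  · intro a b hab
    exact bl_mono _ (by omega)
  · intro i hi hij
    have hs1 : ∑ a ∈ Ico 5 (i + 1 - c0), ENNReal.ofReal (K * (2 : ℝ) ^ (-(c * ((i : ℝ) - a)))) * z a =
        ∑ a ∈ Ico 5 (i + 1 - c0), ENNReal.ofReal (K * (2 : ℝ) ^ (-(c * ((i : ℝ) - a)))) * zl lam a := by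
      refine Finset.sum_congr rfl fun a ha => ?_
      rw [Finset.mem_Ico] at ha
      rw [hzi a (by omega)]
    have hs2 : ∑ a ∈ Ico (max 5 (i + 1 - c0)) i, z a = ∑ a ∈ Ico (max 5 (i + 1 - c0)) i, zl lam a := by
      refine Finset.sum_congr rfl fun a ha => ?_
      rw [Finset.mem_Ico] at ha
      rw [hzi a (by omega)]
    rw [hs1, hs2]
    by_cases hc : i = j
    · subst hc
      rw [hzj]
      refine (hst i N lam lam' hj hjN hN hQ).trans ?_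
      exact add_le_add (add_le_add (HHl_le_bl hjN.le hN C1 (by linarith)) le_rfl) le_rfl
    · rw [hzi i hc]
      have h3 : 2 ^ i < 2 ^ (i + 1) := Nat.pow_lt_pow_right (by norm_num) (by omega)
      have h4 : 2 ^ (i + 1) ≤ 2 ^ (i + 2) := Nat.pow_le_pow_right (by norm_num) (by omega)
      refine (hst i (2 ^ (i + 1)) lam lam' hi h3 h4 (fun a ha => hQ a (by omega))).trans ?_
      have h5 : zNl lam i (2 ^ (i + 1)) = zl lam i := rfl
      rw [h5]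
      exact add_le_add (add_le_add (HHl_le_bl h3.le h4 C1 (by linarith)) le_rfl) le_rfl

end NTW

end HexObs
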