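import Pool.Agent.NTW.DomO
import Pool.Agent.NTW.Low
import Pool.Agent.NTW.EndL

/-!
NTW: instances of Dom: functionals with a finite norm xT, constants, and the whole end functional (all hanging walks,
with a time bound).
-/

set_option autoImplicit false

namespace HexObs

namespace NTW

open Finset TS SDN

open scoped ENNReal

open Rec8 (mb)

variable {C δ : ℝ}

namespace DE

lemma EE_anti {D D1 : ℕ} (h : D ≤ D1) (b a : ℕ) (I : List Bool) : EE D1 b a I ≤ EE D b a I := by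
  unfold EE
  refine g2_mono le_rfl le_rfl fun s t _ _ hst => ?_
  obtain ⟨x, y, p, q, X', Y', hx, hy, hIX, hY', h1, h2, h3⟩ := hst
  exact ⟨x, y, p, q, X', Y', hx, hy, hIX, hY', h.trans h1, h.trans h2, h3⟩

lemma Sw_anti {D D1 : ℕ} (h : D ≤ D1) (k b : ℕ) (I : List Bool) : Sw D1 k b I ≤ Sw D k b I := by
  unfold Sw
  gcongr with a ha
  exact EE_anti h b a _

lemma Ub_le_SS (k : ℕ) (P : List Bool) : ENNReal.ofReal (Ub k) ≤ SS k P := by
  unfold SS
  refine le_trans ?_ (Finset.single_le_sum (f := fun j => ∑ b ∈ range (j + 1), Sw (2 ^ (j + 4)) j b P)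
    (fun _ _ => zero_le) (Finset.mem_range.2 (Nat.lt_succ_self k)))
  refine le_trans ?_ (Finset.single_le_sum (f := fun b => Sw (2 ^ (k + 4)) k b P)
    (fun _ _ => zero_le) (Finset.mem_range.2 (Nat.lt_succ_self k)))
  unfold Sw
  refine le_trans (le_of_eq ?_) le_self_add
  rw [sub_self, mul_zero, Real.rpow_zero, one_mul]

/-- one scale of SS -/
lemma Sw_le_SS {j k : ℕ} (h : j ≤ k) (P : List Bool) : ∑ b ∈ range (j + 1), Sw (2 ^ (j + 4)) j b P ≤ SS k P := by
  unfold SS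
  exact Finset.single_le_sum (f := fun j => ∑ b ∈ range (j + 1), Sw (2 ^ (j + 4)) j b P)
    (fun _ _ => zero_le) (Finset.mem_range.2 (by omega))

lemma UU_two (k : ℕ) : UU (2 ^ (k + 1)) ≤ 2 * Ub k := Ub_succ k

end DE

open DE LW in
/-- functionals with a finite norm -/
theorem Dom_xT (h : Inp C δ) : ∃ K : ℝ, 1 ≤ K ∧ ∀ (D1 k1 k : ℕ) (Φ : List Bool → ℝ≥0∞), Hered Φ → 2 ^ (k1 + 4) ≤ D1 →
    k1 ≤ k → Dom k (ENNReal.ofReal K * xT D1 k1 Φ) Φ := by
  obtain ⟨K, hK1, hK⟩ := restLow h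
  refine ⟨1 + 2 * K, by linarith, fun D1 k1 k Φ hΦ hD hk => ⟨hΦ, fun r P hP => ?_⟩⟩
  refine (hK D1 k1 (2 ^ (k + 1)) r Φ P hΦ hD hP).trans ?_
  have hUk := Ub_pos k
  have h1 : ∑ b ∈ range (k1 + 1), Sw D1 k1 b P ≤ SS k P :=
    (Finset.sum_le_sum fun b _ => Sw_anti hD k1 b P).trans (Sw_le_SS hk P)
  have h2 : ENNReal.ofReal (K * UU (2 ^ (k + 1))) ≤ ENNReal.ofReal (2 * K) * SS k P := by
    refine le_trans ?_ (mul_le_mul_right (Ub_le_SS k P) _)
    rw [← ENNReal.ofReal_mul (by linarith)]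
    apply ENNReal.ofReal_le_ofReal
    have := UU_two k
    nlinarith
  calc xT D1 k1 Φ * (∑ b ∈ range (k1 + 1), Sw D1 k1 b P + ENNReal.ofReal (K * UU (2 ^ (k + 1))))
      ≤ xT D1 k1 Φ * (SS k P + ENNReal.ofReal (2 * K) * SS k P) := mul_le_mul_right (add_le_add h1 h2) _
    _ = _ := by
        rw [ENNReal.ofReal_add (by norm_num) (by linarith), ENNReal.ofReal_one]
        ring

open DE in
/-- constants -/
theorem Dom_const (k : ℕ) (c : ℝ≥0∞) : Dom k (2 * c) (fun _ => c) := by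
  refine ⟨fun _ _ _ => le_rfl, fun r P _ => ?_⟩
  have h1 : Rec8.sw {M | ∃ m, m < 2 ^ (k + 1) ∧ M ∈ Brd m} (fun _ => c) ≤ c * ENNReal.ofReal (UU (2 ^ (k + 1))) := by
    have e : Rec8.sw {M | ∃ m, m < 2 ^ (k + 1) ∧ M ∈ Brd m} (fun _ => c) =
        c * gf {M | ∃ m, m < 2 ^ (k + 1) ∧ M ∈ Brd m} := by
      rw [← Rec8.sw_one, ← Rec8.sw_mul_left]
      exact Rec8.sw_congr fun _ _ => (mul_one c).symm
    rw [e]
    refine mul_le_mul_right (le_trans (gf_mono ?_) (gf_BU_le _)) _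
    rintro t ⟨m, h1, h2⟩
    exact ⟨m, h1.le, h2⟩
  refine h1.trans ?_
  calc c * ENNReal.ofReal (UU (2 ^ (k + 1))) ≤ c * ENNReal.ofReal (2 * Ub k) :=
        mul_le_mul_right (ENNReal.ofReal_le_ofReal (UU_two k)) _
    _ = 2 * c * ENNReal.ofReal (Ub k) := by
        rw [ENNReal.ofReal_mul (by norm_num)]
        simp only [ENNReal.ofReal_ofNat]
        ring
    _ ≤ _ := mul_le_mul_right (Ub_le_SS k P) _

/-- the whole end functional: hanging walks of height at most N; the tail and the walk together have at most lam letters -/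
noncomputable def ENl (D N lam : ℕ) (t : List Bool) : ℝ≥0∞ :=
  gf {W | W ∈ SSt N ∧ RT D LFold t W ∧ t.length + W.length ≤ lam}

theorem Hered_ENl (D N lam : ℕ) : Hered (ENl D N lam) := by
  intro s hs t
  refine gf_mono fun W hW => ⟨hW.1, RT_her hs hW.2.1, ?_⟩
  have := hW.2.2
  rw [List.length_append] at this
  omega

theorem ENl_mono {D D' N N' lam lam' : ℕ} (hD : D' ≤ D) (hN : N ≤ N') (hl : lam ≤ lam') (t : List Bool) :
    ENl D N lam t ≤ ENl D' N' lam' t := by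
  refine gf_mono fun W hW => ⟨SSt_mo hN hW.1, ?_, hW.2.2.trans hl⟩
  obtain ⟨Z, h1, ⟨n, h2, h3⟩, h4⟩ := hW.2.1
  exact ⟨Z, h1, ⟨n, hD.trans h2, h3⟩, h4⟩

theorem GLl_le_ENl {D N m lam : ℕ} (hm : m ≤ N) {g : List Bool} (hg : g ∈ HB D) : GLl m lam g ≤ ENl D N lam g :=
  gf_mono fun _ hW => ⟨SSt_mo hm hW.1, RT_of hg hW.2.1, hW.2.2⟩

open Classical in
/-- pointwise decomposition -/
theorem ENl_blocks {j N m lam : ℕ} (hj : 5 ≤ j) {P M : List Bool} (hM : M ∈ Brd m) :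
    ENl (2 ^ j) N lam (P ++ M) ≤ BAR.HH (2 ^ 5) + (if 1 ≤ m then GLl (m - 1) lam M else 0) +
      (∑ i ∈ Ico 5 j, (if m < 2 ^ (i + 2) then EFl (2 ^ i) (2 ^ (i + 1)) lam (P ++ M) else 0) +
        EFl (2 ^ j) N lam (P ++ M)) := by
  have hsub : {W | W ∈ SSt N ∧ RT (2 ^ j) LFold (P ++ M) W ∧ (P ++ M).length + W.length ≤ lam} ⊆
      (SSt (2 ^ 5) ∪ {W | 1 ≤ m ∧ W ∈ SSt (m - 1) ∧ LFold M W ∧ M.length + W.length ≤ lam}) ∪
      ((⋃ i ∈ Ico 5 j, {W | m < 2 ^ (i + 2) ∧ W ∈ SSt (2 ^ (i + 1)) ∧ W ∉ SSt (2 ^ i) ∧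
        RT (2 ^ i) LFold (P ++ M) W ∧ W.length ≤ lam}) ∪
        {W | W ∈ SSt N ∧ W ∉ SSt (2 ^ j) ∧ RT (2 ^ j) LFold (P ++ M) W ∧ W.length ≤ lam}) := by
    rintro W ⟨h1, h2, h2'⟩
    have hlen : W.length ≤ lam := by omega
    by_cases h3 : W ∈ SSt (2 ^ 5)
    · exact Or.inl (Or.inl h3)
    by_cases h4 : W ∈ SSt (2 ^ j)
    · have hex : ∃ i, W ∈ SSt (2 ^ (5 + i)) := ⟨j - 5, by rwa [Nat.add_sub_cancel' hj]⟩
      obtain ⟨i, hi1, hi2⟩ : ∃ i, W ∈ SSt (2 ^ (5 + i)) ∧ ∀ i' < i, W ∉ SSt (2 ^ (5 + i')) :=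
        ⟨Nat.find hex, Nat.find_spec hex, fun i' hi' => Nat.find_min hex hi'⟩
      have hi0 : i ≠ 0 := by
        rintro rfl
        exact h3 hi1
      obtain ⟨i', rfl⟩ : ∃ i', i = i' + 1 := ⟨i - 1, by omega⟩
      have hij : 5 + (i' + 1) ≤ j := by
        by_contra hc
        exact hi2 (j - 5) (by omega) (by rwa [Nat.add_sub_cancel' hj])
      by_cases hm : m < 2 ^ (5 + i' + 2)
      · right
        left
        rw [Set.mem_iUnion₂]
        refine ⟨5 + i', Finset.mem_Ico.2 ⟨by omega, by omega⟩, hm, ?_, hi2 i' (by omega), ?_, hlen⟩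
        · rw [add_assoc]
          exact hi1
        · obtain ⟨Z, z1, ⟨n, z2, z3⟩, z4⟩ := h2
          exact ⟨Z, z1, ⟨n, (Nat.pow_le_pow_right (by norm_num) (by omega)).trans z2, z3⟩, z4⟩
      · left
        right
        have hp : 2 ^ (5 + i' + 2) = 2 * 2 ^ (5 + (i' + 1)) := by ring
        have hp1 : 1 ≤ 2 ^ (5 + (i' + 1)) := Nat.one_le_two_pow
        refine ⟨by omega, SSt_mo (by omega) hi1, ?_, ?_⟩
        · obtain ⟨Z, z1, z2, z4⟩ := h2
          rw [← List.append_assoc] at z4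
          refine LF_drop ?_ z4
          rintro rfl
          have := Brd_height hM (show ([] : List Bool) ∈ Brd 0 by rw [Brd_zero]; exact Set.mem_singleton _)
          omega
        · rw [List.length_append] at h2'
          omega
    · right
      right
      exact ⟨h1, h4, h2, hlen⟩
  unfold ENl
  refine (gf_mono hsub).trans ((gf_union_le _ _).trans (add_le_add ((gf_union_le _ _).trans
    (add_le_add le_rfl ?_)) ((gf_union_le _ _).trans (add_le_add ?_ le_rfl))))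
  · split_ifs with hm
    · exact gf_mono fun W hW => hW.2
    · refine le_of_eq ?_
      have e : {W : List Bool | 1 ≤ m ∧ W ∈ SSt (m - 1) ∧ LFold M W ∧ M.length + W.length ≤ lam} = ∅ := by
        ext W
        simp only [Set.mem_empty_iff_false, iff_false]
        rintro ⟨h1, -⟩
        exact hm h1
      rw [e]
      unfold gf
      exact tsum_empty
  · refine (JumpVaux.gf_biUnion_le _ _).trans (Finset.sum_le_sum fun i _ => ?_)
    split_ifs with hm
    · exact gf_mono fun W hW => hW.2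
    · refine le_of_eq ?_
      have e : {W : List Bool | m < 2 ^ (i + 2) ∧ W ∈ SSt (2 ^ (i + 1)) ∧ W ∉ SSt (2 ^ i) ∧
        RT (2 ^ i) LFold (P ++ M) W ∧ W.length ≤ lam} = ∅ := by
        ext W
        simp only [Set.mem_empty_iff_false, iff_false]
        rintro ⟨h1, -⟩
        exact hm h1
      rw [e]
      unfold gf
      exact tsum_empty

/-- the statement of ENDl_of -/
def EndL : Prop := ∃ C1 : ℝ, 1 ≤ C1 ∧ ∀ j N lam lam' : ℕ, 5 ≤ j → 2 ^ j < N → N ≤ 2 ^ (j + 2) → QL j lam' →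
      zNl lam j N ≤ ENNReal.ofReal C1 * bl (lam + lam' + 12) (j + 2)

open DE LW DO in
/-- **the whole end functional is dominated by the number bl** -/
theorem Dom_end_of (h : Inp C δ) (hE : EndL) (hZ : SumZl) : ∃ K : ℝ, 1 ≤ K ∧ ∀ j N lam lam' : ℕ, 5 ≤ j → 2 ^ j < N →
    N ≤ 2 ^ (j + 2) → QL j lam' →
    Dom (j - 4) (ENNReal.ofReal K * bl (lam + lam' + 12) (j + 2)) (fun t => 1 + ENl (2 ^ j) N lam t) := by
  obtain ⟨Kr, hKr, hrest⟩ := restLow h
  obtain ⟨C1, hC1, hE⟩ := hE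
  obtain ⟨KZ, hKZ, hZ⟩ := hZ
  obtain ⟨KU, hKU, hU⟩ := geo_Ub (η := 0) kap0_pos
  obtain ⟨H5, hH50, hH5⟩ : ∃ H5 : ℝ, 0 ≤ H5 ∧ 1 + BAR.HH (2 ^ 5) = ENNReal.ofReal H5 := by
    refine ⟨(1 + BAR.HH (2 ^ 5)).toReal, ENNReal.toReal_nonneg, (ENNReal.ofReal_toReal ?_).symm⟩
    exact ENNReal.add_ne_top.2 ⟨ENNReal.one_ne_top, PLW.gf_SSt_fin _⟩
  have hKr0 : 0 < Kr := by linarith
  have hC10 : 0 < C1 := by linarith
  have hKU0 : 0 < KU := by linarith
  have hKZ0 : 0 < KZ := by linarith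
  refine ⟨4 * H5 + (2 * KZ + (C1 + C1 * (Kr * (KU * 32)) + (C1 + 2 * (Kr * C1)))), ?_,
    fun j N lam lam' hj hjN hN hQ => ⟨?_, fun r P hP => ?_⟩⟩
  · have h1 : 0 < C1 * (Kr * (KU * 32)) := by positivity
    have h2 : 0 < 2 * (Kr * C1) := by positivity
    linarith
  · intro s hs t
    exact add_le_add le_rfl (Hered_ENl _ _ _ s hs t)
  obtain ⟨k, hk⟩ : ∃ k, k = j - 4 := ⟨_, rfl⟩
  have hjk : j = k + 4 := by omega
  rw [← hk]
  obtain ⟨B, hB⟩ : ∃ B, B = bl (lam + lam' + 12) (j + 2) := ⟨_, rfl⟩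
  obtain ⟨S, hS⟩ : ∃ S, S = SS k P := ⟨_, rfl⟩
  have hUk := Ub_pos k
  have hUS : ENNReal.ofReal (Ub k) ≤ S := by rw [hS]; exact Ub_le_SS k P
  -- 1 ≤ 2 bl
  have hone : 1 ≤ 2 * B := by
    have h0 := hQ 0 (by omega)
    have h1 : gf {X | (∃ n, n ≤ 2 ^ 0 ∧ X ∈ Brd n) ∧ X.length ≤ lam'} ≤ HHl (2 ^ 0) (lam + lam' + 12) := by
      refine gf_mono fun W hW => ?_
      obtain ⟨⟨n, hn, hW1⟩, hW2⟩ := hW
      exact ⟨SSt_mo hn (BAR.Brd_SSt hW1), by omega⟩
    have hU0 : 0 < UU (2 ^ 0) := Num2Aux.UU_pos _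
    have h2 : HHl (2 ^ 0) (lam + lam' + 12) / ENNReal.ofReal (UU (2 ^ 0)) ≤ B := by
      rw [hB]
      exact le_bl _ (by omega)
    have h3 : ENNReal.ofReal (UU (2 ^ 0)) ≤ 2 * HHl (2 ^ 0) (lam + lam' + 12) := h0.trans (mul_le_mul_right h1 _)
    have hne : ENNReal.ofReal (UU (2 ^ 0)) ≠ 0 := (ENNReal.ofReal_pos.2 hU0).ne'
    calc (1 : ℝ≥0∞) = ENNReal.ofReal (UU (2 ^ 0)) / ENNReal.ofReal (UU (2 ^ 0)) :=
          (ENNReal.div_self hne ENNReal.ofReal_ne_top).symm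
      _ ≤ 2 * HHl (2 ^ 0) (lam + lam' + 12) / ENNReal.ofReal (UU (2 ^ 0)) := ENNReal.div_le_div_right h3 _
      _ = 2 * (HHl (2 ^ 0) (lam + lam' + 12) / ENNReal.ofReal (UU (2 ^ 0))) := by
          rw [mul_div_assoc]
      _ ≤ 2 * B := mul_le_mul_right h2 _
  have hz : ∀ i, 5 ≤ i → i < j → zl lam i ≤ ENNReal.ofReal C1 * B := by
    intro i hi hij
    have h1 := hE i (2 ^ (i + 1)) lam lam' hi (Nat.pow_lt_pow_right (by norm_num) (by omega))
      (Nat.pow_le_pow_right (by norm_num) (by omega)) (fun a ha => hQ a (by omega))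
    refine h1.trans (mul_le_mul_right ?_ _)
    rw [hB]
    exact bl_mono _ (by omega)
  have hzN : zNl lam j N ≤ ENNReal.ofReal C1 * B := by
    rw [hB]
    exact hE j N lam lam' hj hjN hN hQ
  -- pointwise decomposition
  obtain ⟨c5, hc5⟩ : ∃ c5, c5 = 1 + BAR.HH (2 ^ 5) := ⟨_, rfl⟩
  classical
  have hpt : ∀ M ∈ {M | ∃ m, m < 2 ^ (k + 1) ∧ M ∈ Brd m}, 1 + ENl (2 ^ j) N lam (P ++ M) ≤
      c5 + ((if M ∈ BrR 1 (2 ^ (k + 1)) then GLl (hgt M - 1) lam M else 0) +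
      (∑ i ∈ Ico 5 j, (if M ∈ {M | ∃ m, m < 2 ^ (i + 2) ∧ M ∈ Brd m} then EFl (2 ^ i) (2 ^ (i + 1)) lam (P ++ M) else 0) +
        EFl (2 ^ j) N lam (P ++ M))) := by
    rintro M ⟨m, hm, hM⟩
    have h1 := ENl_blocks (lam := lam) (N := N) (P := P) hj hM
    rw [hc5]
    refine (add_le_add_right h1 1).trans ?_
    rw [add_assoc, ← add_assoc 1]
    refine add_le_add le_rfl (add_le_add ?_ (add_le_add (Finset.sum_le_sum fun i _ => ?_) le_rfl))
    · split_ifs with a1 a2 a2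
      · rw [hgt_eq hM]
      · exact absurd ⟨m, a1, hm.le, hM⟩ a2
      · exact zero_le
      · exact le_rfl
    · split_ifs with a1 a2 a2
      · exact le_rfl
      · exact absurd ⟨m, a1, hM⟩ a2
      · exact zero_le
      · exact le_rfl
  refine (Rec8.sw_mono' hpt).trans ?_
  rw [Rec8.sw_add, Rec8.sw_add, Rec8.sw_add, Rec8.sw_sum]
  -- the four sums
  have s1 : Rec8.sw {M | ∃ m, m < 2 ^ (k + 1) ∧ M ∈ Brd m} (fun _ => c5) ≤ ENNReal.ofReal (4 * H5) * (B * S) := by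
    have h1 := (Dom_const k c5).bd r P hP
    rw [← hS] at h1
    refine h1.trans ?_
    rw [hc5, hH5]
    calc 2 * ENNReal.ofReal H5 * S = 2 * ENNReal.ofReal H5 * (1 * S) := by rw [one_mul]
      _ ≤ 2 * ENNReal.ofReal H5 * (2 * B * S) := by gcongr
      _ = ENNReal.ofReal (4 * H5) * (B * S) := by
          rw [show (4 : ℝ) * H5 = 2 * 2 * H5 by ring, ENNReal.ofReal_mul (by norm_num), ENNReal.ofReal_mul (by norm_num)]
          simp only [ENNReal.ofReal_ofNat]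
          ring
  have s2 : Rec8.sw {M | ∃ m, m < 2 ^ (k + 1) ∧ M ∈ Brd m}
      (fun M => if M ∈ BrR 1 (2 ^ (k + 1)) then GLl (hgt M - 1) lam M else 0) ≤ ENNReal.ofReal (2 * KZ) * (B * S) := by
    have h1 : Rec8.sw {M | ∃ m, m < 2 ^ (k + 1) ∧ M ∈ Brd m}
        (fun M => if M ∈ BrR 1 (2 ^ (k + 1)) then GLl (hgt M - 1) lam M else 0) ≤
        Rec8.sw (BrR 1 (2 ^ (k + 1))) (fun g => GLl (hgt g - 1) lam g) := by
      simp only [Rec8.sw_ind]
      refine ENNReal.tsum_le_tsum fun t => ?_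
      split_ifs with a1 a2 a3
      · exact le_rfl
      · rw [mul_zero]
      · exact zero_le
      · exact le_rfl
    refine (h1.trans (hZ _ _)).trans ?_
    have hU2 : 0 < UU (2 ^ (k + 1)) := Num2Aux.UU_pos _
    have h2 : HHl (2 ^ (k + 1)) (lam + 1) ≤ ENNReal.ofReal (2 * Ub k) * B := by
      have h3 : HHl (2 ^ (k + 1)) (lam + lam' + 12) / ENNReal.ofReal (UU (2 ^ (k + 1))) ≤ B := by
        rw [hB]
        exact le_bl _ (by omega)
      have h4 : HHl (2 ^ (k + 1)) (lam + lam' + 12) ≤ B * ENNReal.ofReal (UU (2 ^ (k + 1))) := by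
        rwa [ENNReal.div_le_iff (ENNReal.ofReal_pos.2 hU2).ne' ENNReal.ofReal_ne_top] at h3
      refine ((HHl_mono le_rfl (by omega)).trans h4).trans ?_
      rw [mul_comm]
      exact mul_le_mul_left (ENNReal.ofReal_le_ofReal (UU_two k)) _
    calc ENNReal.ofReal KZ * HHl (2 ^ (k + 1)) (lam + 1) ≤ ENNReal.ofReal KZ * (ENNReal.ofReal (2 * Ub k) * B) :=
          mul_le_mul_right h2 _
      _ = ENNReal.ofReal (2 * KZ) * (B * ENNReal.ofReal (Ub k)) := by
          rw [ENNReal.ofReal_mul (p := 2) (q := Ub k) (by norm_num), ENNReal.ofReal_mul (p := 2) (q := KZ) (by norm_num)]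
          ring
      _ ≤ ENNReal.ofReal (2 * KZ) * (B * S) := mul_le_mul_right (mul_le_mul_right hUS _) _
  have s3 : ∑ i ∈ Ico 5 j, Rec8.sw {M | ∃ m, m < 2 ^ (k + 1) ∧ M ∈ Brd m} (fun M =>
      if M ∈ {M | ∃ m, m < 2 ^ (i + 2) ∧ M ∈ Brd m} then EFl (2 ^ i) (2 ^ (i + 1)) lam (P ++ M) else 0) ≤
      ENNReal.ofReal (C1 + C1 * (Kr * (KU * 32))) * (B * S) := by
    have h1 : ∀ i ∈ Ico 5 j, Rec8.sw {M | ∃ m, m < 2 ^ (k + 1) ∧ M ∈ Brd m} (fun M =>
      if M ∈ {M | ∃ m, m < 2 ^ (i + 2) ∧ M ∈ Brd m} then EFl (2 ^ i) (2 ^ (i + 1)) lam (P ++ M) else 0) ≤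
        ENNReal.ofReal C1 * B * (∑ b ∈ range (i - 4 + 1), Sw (2 ^ (i - 4 + 4)) (i - 4) b P +
          ENNReal.ofReal (Kr * Ub (i + 2))) := by
      intro i hi
      rw [Finset.mem_Ico] at hi
      have e4 : i - 4 + 4 = i := by omega
      have h2 := hrest (2 ^ i) (i - 4) (2 ^ (i + 2)) r (EFl (2 ^ i) (2 ^ (i + 1)) lam) P (Hered_EFl _ _ _)
        (by rw [e4]) hP
      rw [e4]
      refine le_trans ?_ (h2.trans (mul_le_mul_left (hz i hi.1 hi.2) _))
      simp only [Rec8.sw_ind]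
      refine ENNReal.tsum_le_tsum fun t => ?_
      split_ifs with a1 a2 a3
      · exact le_rfl
      · rw [mul_zero]
      · exact zero_le
      · exact le_rfl
    refine (Finset.sum_le_sum h1).trans ?_
    rw [← Finset.mul_sum, Finset.sum_add_distrib]
    have h3 : ∑ i ∈ Ico 5 j, ∑ b ∈ range (i - 4 + 1), Sw (2 ^ (i - 4 + 4)) (i - 4) b P ≤ S := by
      rw [hS]
      unfold SS
      calc ∑ i ∈ Ico 5 j, ∑ b ∈ range (i - 4 + 1), Sw (2 ^ (i - 4 + 4)) (i - 4) b P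
          = ∑ i ∈ (Ico 5 j).image (fun i => i - 4), ∑ b ∈ range (i + 1), Sw (2 ^ (i + 4)) i b P := by
            rw [Finset.sum_image]
            intro x hx y hy hxy
            rw [Finset.mem_coe, Finset.mem_Ico] at hx hy
            simp only at hxy
            omega
        _ ≤ _ := by
            refine Finset.sum_le_sum_of_subset ?_
            intro x hx
            rw [Finset.mem_image] at hx
            obtain ⟨y, hy, rfl⟩ := hx
            rw [Finset.mem_Ico] at hy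
            rw [Finset.mem_range]
            omega
    have h4 : ∑ i ∈ Ico 5 j, ENNReal.ofReal (Kr * Ub (i + 2)) ≤ ENNReal.ofReal (Kr * (KU * 32)) * S := by
      have h5 : ∑ i ∈ Ico 5 j, Ub (i + 2) ≤ KU * (32 * Ub k) := by
        calc ∑ i ∈ Ico 5 j, Ub (i + 2) = ∑ i ∈ (Ico 5 j).image (fun i => i + 2), Ub i := by
              rw [Finset.sum_image]
              intro x hx y hy hxy
              simp only at hxy
              omega
          _ ≤ ∑ i ∈ range (k + 5 + 1), Ub i := by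
              refine Finset.sum_le_sum_of_subset_of_nonneg ?_ fun i _ _ => (Ub_pos i).le
              intro x hx
              rw [Finset.mem_image] at hx
              obtain ⟨y, hy, rfl⟩ := hx
              rw [Finset.mem_Ico] at hy
              rw [Finset.mem_range]
              omega
          _ ≤ KU * Ub (k + 5) := by
              refine le_trans (Finset.sum_le_sum fun i _ => ?_) (hU (k + 5))
              rw [zero_mul, Real.rpow_zero, one_mul]
          _ ≤ KU * (32 * Ub k) := by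
              refine mul_le_mul_of_nonneg_left ?_ (by linarith)
              have := Ub_add k 5
              norm_num at this
              exact this
      rw [← ENNReal.ofReal_sum_of_nonneg (fun i _ => by have := Ub_pos (i + 2); positivity)]
      refine le_trans (ENNReal.ofReal_le_ofReal (q := Kr * (KU * 32) * Ub k) ?_) ?_
      · rw [← Finset.mul_sum]
        calc Kr * ∑ i ∈ Ico 5 j, Ub (i + 2) ≤ Kr * (KU * (32 * Ub k)) := mul_le_mul_of_nonneg_left h5 (by linarith)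
          _ = _ := by ring
      · rw [ENNReal.ofReal_mul (by positivity)]
        exact mul_le_mul_right hUS _
    calc ENNReal.ofReal C1 * B * (∑ i ∈ Ico 5 j, ∑ b ∈ range (i - 4 + 1), Sw (2 ^ (i - 4 + 4)) (i - 4) b P +
          ∑ i ∈ Ico 5 j, ENNReal.ofReal (Kr * Ub (i + 2)))
        ≤ ENNReal.ofReal C1 * B * (S + ENNReal.ofReal (Kr * (KU * 32)) * S) := by gcongr
      _ = ENNReal.ofReal (C1 + C1 * (Kr * (KU * 32))) * (B * S) := by
          rw [ENNReal.ofReal_add (by linarith) (by positivity), ENNReal.ofReal_mul (p := C1) (by linarith)]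
          ring
  have s4 : Rec8.sw {M | ∃ m, m < 2 ^ (k + 1) ∧ M ∈ Brd m} (fun M => EFl (2 ^ j) N lam (P ++ M)) ≤
      ENNReal.ofReal (C1 + 2 * (Kr * C1)) * (B * S) := by
    have h2 := hrest (2 ^ j) k (2 ^ (k + 1)) r (EFl (2 ^ j) N lam) P (Hered_EFl _ _ _)
        (by rw [hjk]) hP
    have h3 : xT (2 ^ j) k (EFl (2 ^ j) N lam) ≤ ENNReal.ofReal C1 * B := by
      rw [hk]
      exact hzN
    refine h2.trans ((mul_le_mul_left h3 _).trans ?_)
    have h4 : ∑ b ∈ range (k + 1), Sw (2 ^ j) k b P ≤ S := by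
      rw [hS, hjk]
      exact Sw_le_SS le_rfl P
    have h5 : ENNReal.ofReal (Kr * UU (2 ^ (k + 1))) ≤ ENNReal.ofReal (2 * Kr) * S := by
      refine le_trans ?_ (mul_le_mul_right hUS _)
      rw [← ENNReal.ofReal_mul (by linarith)]
      apply ENNReal.ofReal_le_ofReal
      have := UU_two k
      nlinarith
    calc ENNReal.ofReal C1 * B * (∑ b ∈ range (k + 1), Sw (2 ^ j) k b P + ENNReal.ofReal (Kr * UU (2 ^ (k + 1))))
        ≤ ENNReal.ofReal C1 * B * (S + ENNReal.ofReal (2 * Kr) * S) := by gcongr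
      _ = ENNReal.ofReal (C1 + 2 * (Kr * C1)) * (B * S) := by
          rw [ENNReal.ofReal_add (by linarith) (by positivity), show 2 * (Kr * C1) = C1 * (2 * Kr) by ring,
            ENNReal.ofReal_mul (p := C1) (by linarith)]
          ring
  refine (add_le_add s1 (add_le_add s2 (add_le_add s3 s4))).trans (le_of_eq ?_)
  rw [← add_mul, ← add_mul, ← add_mul, ← ENNReal.ofReal_add (by positivity) (by positivity),
    ← ENNReal.ofReal_add (by positivity) (by positivity), ← ENNReal.ofReal_add (by positivity) (by positivity)]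
  rw [← hB, ← hS, ← mul_assoc]

end NTW

end HexObs
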