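import Pool.Agent.NTW.DomD
import Pool.Agent.SDN.TwoScale

/-!
NTW: the operators of one more leaf, the total weight and the two sided sum, with functionals dominated by numbers (Dom)
instead of the norm xT. The three kernel bounds for the universal weight SS are hypotheses here (SsA, Ss3, SsD).
-/

set_option autoImplicit false

namespace HexObs

namespace NTW

open Finset TS SDN SDN.T2

open scoped ENNReal

open Rec8 (mb)

variable {C δ : ℝ}

/-- the ends -/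
def SsA : Prop := ∃ K : ℝ, 1 ≤ K ∧ ∀ k : ℕ, ∑' r : ℕ, min 1 ((r : ℝ≥0∞) / 2 ^ k) * Rec8.sw (Irr r) (fun P => SS k P) ≤
  ENNReal.ofReal K

/-- the giants next to a fold -/
def Ss3 : Prop := ∃ K : ℝ, 1 ≤ K ∧ ∀ (D0 k0 k1 e b : ℕ) (I : List Bool), 2 ^ (k0 + 4) ≤ D0 → k0 ≤ e → k1 ≤ e → b ≤ k0 →
  ∑ a ∈ range (k0 + 2), ∑' r : ℕ, (if 2 ^ e < r then Rec8.sw (Irr r) (fun P => KT D0 b I a P * SS k1 P) else 0) ≤
    ENNReal.ofReal (K * (Ub e / Ub k0)) * Sw D0 k0 b I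

/-- the giants used at both ends -/
def SsD : Prop := ∃ K : ℝ, 1 ≤ K ∧ ∀ k0 k1 e : ℕ, k0 ≤ e → k1 ≤ e →
  ∑' r : ℕ, (if 2 ^ e < r then Rec8.sw (Irr r) (fun P => SS k0 (rev P) * SS k1 P) else 0) ≤ ENNReal.ofReal (K * Ub e)

namespace DO

/-- the bridges lower than n, by heights -/
lemma sum_Brd (n : ℕ) (F : List Bool → ℝ≥0∞) :
    ∑' m : ℕ, (if m < n then Rec8.sw (Brd m) F else 0) ≤ Rec8.sw {M | ∃ m, m < n ∧ M ∈ Brd m} F := by
  classical
  have e1 : ∀ m : ℕ, (if m < n then Rec8.sw (Brd m) F else 0) =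
      ∑' t : List Bool, (if m < n ∧ t ∈ Brd m then wE t * F t else 0) := by
    intro m
    by_cases hm : m < n
    · rw [if_pos hm, Rec8.sw_ind]
      refine tsum_congr fun t => ?_
      simp only [hm, true_and]
    · rw [if_neg hm]
      simp only [hm, false_and, if_false, tsum_zero]
  rw [tsum_congr e1, ENNReal.tsum_comm, Rec8.sw_ind]
  refine ENNReal.tsum_le_tsum fun t => ?_
  by_cases ht : t ∈ {M | ∃ m, m < n ∧ M ∈ Brd m}
  · rw [if_pos ht]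
    obtain ⟨m, hm, htm⟩ := ht
    rw [tsum_eq_single m]
    · split_ifs
      · exact le_rfl
      · exact zero_le
    · intro m' hm'
      rw [if_neg]
      rintro ⟨-, h2⟩
      exact hm' (Brd_height h2 htm)
  · rw [if_neg ht, nonpos_iff_eq_zero, ENNReal.tsum_eq_zero]
    intro m
    rw [if_neg]
    rintro ⟨h1, h2⟩
    exact ht ⟨m, h1, h2⟩

/-- the average over the levels of the window k of the parts behind a piece of height r -/
lemma sum_mu (k r : ℕ) (F : List Bool → ℝ≥0∞) :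
    ∑' m : ℕ, mu k m r * Rec8.sw (Brd m) F ≤
      min 1 ((r : ℝ≥0∞) / 2 ^ k) * Rec8.sw {M | ∃ m, m < 2 ^ (k + 1) ∧ M ∈ Brd m} F := by
  calc ∑' m : ℕ, mu k m r * Rec8.sw (Brd m) F
      ≤ ∑' m : ℕ, min 1 ((r : ℝ≥0∞) / 2 ^ k) * (if m < 2 ^ (k + 1) then Rec8.sw (Brd m) F else 0) := by
        refine ENNReal.tsum_le_tsum fun m => ?_
        by_cases hm : m < 2 ^ (k + 1)
        · rw [if_pos hm]
          exact mul_le_mul_left (mu_le_min k m r) _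
        · rw [mu_eq_zero (not_lt.mp hm), zero_mul]
          exact zero_le
    _ = min 1 ((r : ℝ≥0∞) / 2 ^ k) * ∑' m : ℕ, (if m < 2 ^ (k + 1) then Rec8.sw (Brd m) F else 0) :=
        ENNReal.tsum_mul_left
    _ ≤ _ := mul_le_mul_right (sum_Brd _ _) _

/-- the sum of the parts behind the piece P -/
lemma end_le {k r : ℕ} {x : ℝ≥0∞} {Φ : List Bool → ℝ≥0∞} (hΦ : Dom k x Φ) {P : List Bool} (hP : P ∈ Irr r) :
    ∑' m : ℕ, mu k m r * Rec8.sw (Brd m) (fun M => Φ (P ++ M)) ≤ min 1 ((r : ℝ≥0∞) / 2 ^ k) * (x * SS k P) :=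
  (sum_mu k r _).trans (mul_le_mul_right (hΦ.bd r P hP) _)

lemma end_le' {k r : ℕ} {x : ℝ≥0∞} {Φ : List Bool → ℝ≥0∞} (hΦ : Dom k x Φ) {P : List Bool} (hP : P ∈ Irr r) :
    ∑' m : ℕ, mu k m r * Rec8.sw (Brd m) (fun M => Φ (P ++ M)) ≤ x * SS k P := by
  refine (end_le hΦ hP).trans ?_
  calc min 1 ((r : ℝ≥0∞) / 2 ^ k) * (x * SS k P) ≤ 1 * (x * SS k P) := mul_le_mul_left (min_le_left _ _) _
    _ = _ := one_mul _

end DO

open DO in
/-- sum over the last piece and the end -/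
theorem endsD_of (hA : SsA) : ∃ K : ℝ, 1 ≤ K ∧ ∀ (k : ℕ) (x : ℝ≥0∞) (Φ : List Bool → ℝ≥0∞), Dom k x Φ →
    ∑' m : ℕ, ∑' r : ℕ, mu k m r * Rec8.sw (Irr r) (fun P => Rec8.sw (Brd m) (fun M => Φ (P ++ M))) ≤
      ENNReal.ofReal K * x := by
  obtain ⟨K, hK, hA⟩ := hA
  refine ⟨K, hK, fun k x Φ hΦ => ?_⟩
  calc ∑' m : ℕ, ∑' r : ℕ, mu k m r * Rec8.sw (Irr r) (fun P => Rec8.sw (Brd m) (fun M => Φ (P ++ M)))
      = ∑' r : ℕ, Rec8.sw (Irr r) (fun P => ∑' m : ℕ, mu k m r * Rec8.sw (Brd m) (fun M => Φ (P ++ M))) := by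
        rw [ENNReal.tsum_comm]
        refine tsum_congr fun r => ?_
        rw [NX_sw_tsum]
        exact tsum_congr fun m => (Rec8.sw_mul_left _ _ _).symm
    _ ≤ ∑' r : ℕ, Rec8.sw (Irr r) (fun P => min 1 ((r : ℝ≥0∞) / 2 ^ k) * (x * SS k P)) :=
        ENNReal.tsum_le_tsum fun r => Rec8.sw_mono' fun P hP => end_le hΦ hP
    _ = x * ∑' r : ℕ, min 1 ((r : ℝ≥0∞) / 2 ^ k) * Rec8.sw (Irr r) (fun P => SS k P) := by
        rw [← ENNReal.tsum_mul_left]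
        refine tsum_congr fun r => ?_
        rw [Rec8.sw_mul_left, Rec8.sw_mul_left]
        ring
    _ ≤ x * ENNReal.ofReal K := mul_le_mul_right (hA k) _
    _ = _ := mul_comm _ _

/-- total weight -/
theorem totD_of (hA : SsA) : ∃ K : ℝ, 1 ≤ K ∧ ∀ (E N k : ℕ) (x : ℝ≥0∞) (Φ : List Bool → ℝ≥0∞), Dom k x Φ →
    2 ^ (k + 1) ≤ E → Rec8.sw (BrR E N) Φ ≤ ENNReal.ofReal (K * UU N) * x := by
  obtain ⟨K, hK, he⟩ := endsD_of hA
  refine ⟨K, hK, fun E N k x Φ hΦ hE => ?_⟩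
  have hpt : ∀ m r : ℕ, Rec8.sw {Z | ∃ h, h ≤ N ∧ Z ∈ Brd h} (fun Z => Rec8.sw (Irr r) (fun P =>
      Rec8.sw {M | M ∈ Brd m ∧ Z ++ (P ++ M) ∈ BrR E N} (fun M => Φ (Z ++ (P ++ M))))) ≤
      ENNReal.ofReal (UU N) * Rec8.sw (Irr r) (fun P => Rec8.sw (Brd m) (fun M => Φ (P ++ M))) := by
    intro m r
    calc Rec8.sw {Z | ∃ h, h ≤ N ∧ Z ∈ Brd h} (fun Z => Rec8.sw (Irr r) (fun P =>
        Rec8.sw {M | M ∈ Brd m ∧ Z ++ (P ++ M) ∈ BrR E N} (fun M => Φ (Z ++ (P ++ M)))))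
        ≤ Rec8.sw {Z | ∃ h, h ≤ N ∧ Z ∈ Brd h} (fun _ => 1 * Rec8.sw (Irr r) (fun P =>
          Rec8.sw (Brd m) (fun M => Φ (P ++ M)))) := by
          refine Rec8.sw_mono' fun Z hZ => ?_
          rw [one_mul]
          refine Rec8.sw_mono' fun P _ => ?_
          refine Rec8.sw_mono (fun M hM => hM.1) fun M hM => ?_
          obtain ⟨h0, -, hZh⟩ := hZ
          exact hΦ.her Z ⟨h0, hZh⟩ _
      _ = gf {Z | ∃ h, h ≤ N ∧ Z ∈ Brd h} * Rec8.sw (Irr r) (fun P => Rec8.sw (Brd m) (fun M => Φ (P ++ M))) := by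
          rw [Rec8.sw_mul_right, Rec8.sw_one]
      _ ≤ _ := mul_le_mul_left (gf_BU_le N) _
  refine (endR hE Φ).trans ?_
  calc ∑' m : ℕ, ∑' r : ℕ, mu k m r * Rec8.sw {Z | ∃ h, h ≤ N ∧ Z ∈ Brd h} (fun Z => Rec8.sw (Irr r) (fun P =>
        Rec8.sw {M | M ∈ Brd m ∧ Z ++ (P ++ M) ∈ BrR E N} (fun M => Φ (Z ++ (P ++ M)))))
      ≤ ∑' m : ℕ, ∑' r : ℕ, ENNReal.ofReal (UU N) *
          (mu k m r * Rec8.sw (Irr r) (fun P => Rec8.sw (Brd m) (fun M => Φ (P ++ M)))) := by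
        refine ENNReal.tsum_le_tsum fun m => ENNReal.tsum_le_tsum fun r => ?_
        rw [mul_left_comm]
        exact mul_le_mul_right (hpt m r) _
    _ = ENNReal.ofReal (UU N) * ∑' m : ℕ, ∑' r : ℕ, mu k m r * Rec8.sw (Irr r) (fun P => Rec8.sw (Brd m)
          (fun M => Φ (P ++ M))) := by
        simp only [ENNReal.tsum_mul_left]
    _ ≤ ENNReal.ofReal (UU N) * (ENNReal.ofReal K * x) := mul_le_mul_right (he k x Φ hΦ) _
    _ = ENNReal.ofReal (K * UU N) * x := by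
        rw [ENNReal.ofReal_mul (by linarith : (0 : ℝ) ≤ K)]
        ring

open DO in
/-- the rest of the leaf behind the piece P -/
theorem restD_of (hA : SsA) : ∃ K : ℝ, 1 ≤ K ∧ ∀ (E N k1 n r : ℕ) (x : ℝ≥0∞) (Φ : List Bool → ℝ≥0∞) (P : List Bool),
    Dom k1 x Φ → n + 2 ^ (k1 + 1) ≤ E → P ∈ Irr r →
    Rec8.sw {Z | Z ∈ BU ∧ ∃ Y ∈ Brd n, Y ++ (P ++ Z) ∈ BrR E N} (fun Z => Φ (P ++ Z)) ≤
      x * ((if E ≤ n + r + 2 ^ (k1 + 1) then SS k1 P else 0) + ENNReal.ofReal (K * UU N)) := by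
  obtain ⟨K, hK1, hK⟩ := endsD_of hA
  refine ⟨K, hK1, fun E N k1 n r x Φ P hΦ hn hP => ?_⟩
  refine (outR hn hP (fun Z => Φ (P ++ Z))).trans ?_
  rw [mul_add]
  refine add_le_add ?_ ?_
  · split_ifs with hE
    · have h2 : ∑' m : ℕ, mu k1 m r * Rec8.sw {M | M ∈ Brd m ∧ ∃ Y ∈ Brd n, Y ++ (P ++ M) ∈ BrR E N}
          (fun Z => Φ (P ++ Z)) ≤ ∑' m : ℕ, mu k1 m r * Rec8.sw (Brd m) (fun M => Φ (P ++ M)) := by
        refine ENNReal.tsum_le_tsum fun m => ?_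
        gcongr
        exact Rec8.sw_mono (fun t ht => ht.1) (fun t _ => le_rfl)
      exact h2.trans (end_le' hΦ hP)
    · rw [mul_zero, nonpos_iff_eq_zero, ENNReal.tsum_eq_zero]
      intro m
      rcases Nat.lt_or_ge m (2 ^ (k1 + 1)) with hm | hm
      · have e : {M : List Bool | M ∈ Brd m ∧ ∃ Y ∈ Brd n, Y ++ (P ++ M) ∈ BrR E N} = ∅ := by
          rw [Set.eq_empty_iff_forall_notMem]
          rintro M ⟨hM, Y, hY, H, h1, -, h3⟩
          have := Brd_height h3 (Brd_append hY (Brd_append hP.1 hM))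
          omega
        rw [e]
        unfold Rec8.sw
        rw [tsum_empty, mul_zero]
      · rw [mu_eq_zero hm, zero_mul]
  · have hPb : P ∈ Brd r := hP.1
    have h3 : ∀ m r' : ℕ, mu k1 m r' * Rec8.sw {Z | ∃ h, h ≤ N ∧ Z ∈ Brd h} (fun Z => Rec8.sw (Irr r') (fun P' =>
        Rec8.sw {M | M ∈ Brd m ∧ ∃ Y ∈ Brd n, Y ++ (P ++ (Z ++ (P' ++ M))) ∈ BrR E N}
          (fun M => Φ (P ++ (Z ++ (P' ++ M)))))) ≤
        gf {Z | ∃ h, h ≤ N ∧ Z ∈ Brd h} *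
          (mu k1 m r' * Rec8.sw (Irr r') (fun P' => Rec8.sw (Brd m) (fun M => Φ (P' ++ M)))) := by
      intro m r'
      rw [mul_left_comm, ← NX_const]
      gcongr
      refine Rec8.sw_mono' fun Z hZ => ?_
      obtain ⟨h, _, hZ⟩ := hZ
      refine Rec8.sw_mono' fun P' hP' => ?_
      refine Rec8.sw_mono (fun t ht => ht.1) fun M hM => ?_
      rw [← List.append_assoc]
      exact hΦ.her _ ⟨_, Brd_append hPb hZ⟩ _
    refine (ENNReal.tsum_le_tsum fun m => ENNReal.tsum_le_tsum fun r' => h3 m r').trans ?_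
    simp only [ENNReal.tsum_mul_left]
    calc gf {Z | ∃ h, h ≤ N ∧ Z ∈ Brd h} *
          ∑' m : ℕ, ∑' r' : ℕ, mu k1 m r' * Rec8.sw (Irr r') (fun P' => Rec8.sw (Brd m) (fun M => Φ (P' ++ M)))
        ≤ ENNReal.ofReal (UU N) * (ENNReal.ofReal K * x) := mul_le_mul' (gf_BU_le N) (hK k1 x Φ hΦ)
      _ = x * ENNReal.ofReal (K * UU N) := by
        rw [ENNReal.ofReal_mul (by linarith : (0 : ℝ) ≤ K)]
        ring

namespace DO

/-- the sum of the terms of the giants and of the free rest -/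
lemma sum2D (D0 k0 b : ℕ) (I : List Bool) (x A : ℝ≥0∞) (e k1 : ℕ) :
    ∑ a ∈ range (k0 + 2), ∑' r : ℕ, mb k0 a r * Rec8.sw (Irr r) (fun P => KT D0 b I a P *
      (x * ((if 2 ^ e < r then SS k1 P else 0) + A))) ≤
    x * (∑ a ∈ range (k0 + 2), ∑' r : ℕ, (if 2 ^ e < r then
      Rec8.sw (Irr r) (fun P => KT D0 b I a P * SS k1 P) else 0) +
      A * ∑ a ∈ range (k0 + 2), pm k0 a (fun P => KT D0 b I a P)) := by
  rw [Finset.mul_sum, ← Finset.sum_add_distrib, Finset.mul_sum]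
  refine Finset.sum_le_sum fun a _ => ?_
  unfold pm
  rw [← ENNReal.tsum_mul_left, ← ENNReal.tsum_add, ← ENNReal.tsum_mul_left]
  refine ENNReal.tsum_le_tsum fun r => ?_
  have e1 : Rec8.sw (Irr r) (fun P => KT D0 b I a P *
      (x * ((if 2 ^ e < r then SS k1 P else 0) + A))) =
      x * ((if 2 ^ e < r then Rec8.sw (Irr r) (fun P => KT D0 b I a P * SS k1 P) else 0) +
        A * Rec8.sw (Irr r) (fun P => KT D0 b I a P)) := by
    have e2 : Rec8.sw (Irr r) (fun P => KT D0 b I a P *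
        (x * ((if 2 ^ e < r then SS k1 P else 0) + A))) =
        Rec8.sw (Irr r) (fun P => x * ((if 2 ^ e < r then KT D0 b I a P * SS k1 P else 0) +
          A * KT D0 b I a P)) := by
      refine Rec8.sw_congr fun P _ => ?_
      split_ifs
      · ring
      · ring
    rw [e2, Rec8.sw_mul_left, Rec8.sw_add, Rec8.sw_mul_left]
    congr 2
    split_ifs
    · rfl
    · exact Rec8.sw_zero _
  rw [e1, mul_left_comm]
  refine mul_le_mul_right ?_ x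
  rw [mul_add]
  refine add_le_add ?_ ?_
  · split_ifs
    · calc mb k0 a r * Rec8.sw (Irr r) (fun P => KT D0 b I a P * SS k1 P) ≤
            1 * Rec8.sw (Irr r) (fun P => KT D0 b I a P * SS k1 P) :=
            mul_le_mul_left (mb_le_one _ _ _) _
        _ = _ := one_mul _
    · rw [mul_zero]
  · rw [mul_left_comm]

end DO

open DO in
/-- one more leaf -/
theorem nextD_of (h : Inp C δ) (hA : SsA) (h3 : Ss3) :
    ∃ K : ℝ, 1 ≤ K ∧ ∀ (D0 k0 k1 E N : ℕ) (x : ℝ≥0∞) (Φ : List Bool → ℝ≥0∞), Dom k1 x Φ → 2 ^ (k0 + 4) ≤ D0 →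
    D0 ≤ E → 2 ^ (k1 + 4) ≤ E → E ≤ N →
    xT D0 k0 (vA D0 (BrR E N) Φ) ≤ ENNReal.ofReal (K * (UU N / Ub k0)) * x := by
  obtain ⟨K3, hK3, k3h⟩ := h3
  obtain ⟨K1, hK1, k1h⟩ := k1 h
  obtain ⟨Kr, hKr, hrest⟩ := restD_of hA
  refine ⟨16 * (K3 + Kr * K1), by nlinarith, fun D0 k0 k1 E N x Φ hΦ hD0 h0E h1E hEN => ?_⟩
  refine xT_le fun b I hb hI => ?_
  obtain ⟨i, hIi⟩ := hI
  obtain ⟨e, he⟩ : ∃ e, e = max k0 k1 := ⟨_, rfl⟩
  have he0 : k0 ≤ e := by rw [he]; exact le_max_left _ _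
  have he1 : k1 ≤ e := by rw [he]; exact le_max_right _ _
  have heE : 2 ^ (e + 4) ≤ E := by
    rcases le_total k0 k1 with hc | hc
    · have : e = k1 := by rw [he]; exact max_eq_right hc
      rw [this]
      omega
    · have : e = k0 := by rw [he]; exact max_eq_left hc
      rw [this]
      omega
  have hp4 : 2 ^ (e + 4) = 8 * 2 ^ (e + 1) := by ring
  have hp1 : 2 ^ (e + 1) = 2 * 2 ^ e := by ring
  have hp0 : 1 ≤ 2 ^ e := Nat.one_le_two_pow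
  have hk0e : 2 ^ (k0 + 1) ≤ 2 ^ (e + 1) := Nat.pow_le_pow_right (by norm_num) (by omega)
  have hk1e : 2 ^ (k1 + 1) ≤ 2 ^ (e + 1) := Nat.pow_le_pow_right (by norm_num) (by omega)
  let Θ : ℕ → List Bool → ℝ≥0∞ := fun r P =>
    x * ((if 2 ^ e < r then SS k1 P else 0) + ENNReal.ofReal (Kr * UU N))
  have s1 : Rec8.sw (Fld.BrB b) (fun M => vA D0 (BrR E N) Φ (I ++ M)) ≤ Rec8.sw (Fld.BrB b) (fun M => ∑' n : ℕ,
      ∑' r : ℕ, mu k0 n r * Rec8.sw (Brd n) (fun X =>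
        Rec8.sw {P | P ∈ Irr r ∧ ∃ c : Bool, KRel D0 I P M ((!c) :: c :: X)} (fun P => Θ r P))) := by
    refine Rec8.sw_mono' fun M hM => ?_
    obtain ⟨m, -, hMm⟩ := hM
    refine next2 hΦ.her (by omega) h0E (fun _ r P => Θ r P) (fun n r P hn hP => ?_) hIi.1 hMm
    refine (hrest E N k1 n r x Φ P hΦ (by omega) hP).trans ?_
    refine mul_le_mul_right (add_le_add ?_ le_rfl) x
    by_cases h1 : E ≤ n + r + 2 ^ (k1 + 1)
    · rw [if_pos h1, if_pos (by omega)]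
    · rw [if_neg h1]
      exact zero_le
  have s2 := fold_sum D0 b k0 I (mu k0) (mb k0) (fun a n r => mu_le_mb) (fun n r => mu_eq_zero)
    (fun a r => mb_mono (Nat.le_succ a) r) Θ
  refine s1.trans (s2.trans ?_)
  have s4 := sum2D D0 k0 b I x (ENNReal.ofReal (Kr * UU N)) e k1
  have t1 := k3h D0 k0 k1 e b I hD0 he0 he1 hb
  have t2 := k1h D0 k0 k0 b I hD0 le_rfl hb
  have hUk := Ub_pos k0
  have hUe := Ub_pos e
  have hUN : 0 < UU N := Num2Aux.UU_pos N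
  have hUeN : Ub e ≤ UU N := Num2Aux.UU_mono (by omega)
  calc 16 * ∑ a ∈ range (k0 + 2), ∑' r : ℕ, mb k0 a r * Rec8.sw (Irr r) (fun P => KT D0 b I a P * Θ r P)
      ≤ 16 * (x * (ENNReal.ofReal (K3 * (Ub e / Ub k0)) * Sw D0 k0 b I +
          ENNReal.ofReal (Kr * UU N) * (ENNReal.ofReal (K1 / Ub k0) * Sw D0 k0 b I))) := by
        refine mul_le_mul_right (s4.trans ?_) _
        gcongr
    _ = ENNReal.ofReal (16 * (K3 * (Ub e / Ub k0) + Kr * UU N * (K1 / Ub k0))) * x * Sw D0 k0 b I := by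
        have e16 : ENNReal.ofReal 16 = 16 := by simp
        rw [ENNReal.ofReal_mul (p := 16) (by norm_num), e16, ENNReal.ofReal_add (by positivity) (by positivity),
          ENNReal.ofReal_mul (p := Kr * UU N) (by positivity)]
        ring
    _ ≤ ENNReal.ofReal (16 * (K3 + Kr * K1) * (UU N / Ub k0)) * x * Sw D0 k0 b I := by
        refine mul_le_mul_left (mul_le_mul_left (ENNReal.ofReal_le_ofReal ?_) _) _
        have h5 : Ub e / Ub k0 ≤ UU N / Ub k0 := div_le_div_of_nonneg_right hUeN hUk.le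
        have h6 : K3 * (Ub e / Ub k0) ≤ K3 * (UU N / Ub k0) := mul_le_mul_of_nonneg_left h5 (by linarith)
        have h7 : Kr * UU N * (K1 / Ub k0) = Kr * K1 * (UU N / Ub k0) := by ring
        rw [h7]
        nlinarith

end NTW

end HexObs
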