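import Pool.Agent.NTW.DomO

/-!
NTW: the sum over a leaf of a functional of its head and a functional of its tail, both dominated by numbers.
-/

set_option autoImplicit false

namespace HexObs

namespace NTW

open Finset TS SDN SDN.T2

open scoped ENNReal

open Rec8 (mb)

variable {C δ : ℝ}

namespace DO

lemma sw_rev (A : Set (List Bool)) (hA : ∀ t ∈ A, rev t ∈ A) (F : List Bool → ℝ≥0∞) :
    Rec8.sw A (fun t => F (rev t)) = Rec8.sw A F := by
  unfold Rec8.sw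
  have e : ∀ t : {t : List Bool // t ∈ A}, wE t.1 * F (rev t.1) =
      (fun s : {t : List Bool // t ∈ A} => wE s.1 * F s.1) ⟨rev t.1, hA t.1 t.2⟩ := by
    intro t
    show _ = wE (rev t.1) * F (rev t.1)
    rw [wE_rev]
  rw [tsum_congr e]
  have hinv : Function.Involutive (fun t : {t : List Bool // t ∈ A} =>
      (⟨rev t.1, hA t.1 t.2⟩ : {t : List Bool // t ∈ A})) := by
    intro t
    apply Subtype.ext
    exact rev_rev t.1
  exact (Equiv.ofBijective _ hinv.bijective).tsum_eq (fun s : {t : List Bool // t ∈ A} => wE s.1 * F s.1)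

lemma tsum_pull (S : Set (List Bool)) (c : ℕ → ℝ≥0∞) (x : ℝ≥0∞) (W : List Bool → ℝ≥0∞) (G : ℕ → List Bool → ℝ≥0∞) :
    ∑' n : ℕ, c n * Rec8.sw S (fun P => x * (W P * G n P)) =
      Rec8.sw S (fun P => x * (W P * ∑' n : ℕ, c n * G n P)) := by
  simp only [← Rec8.sw_mul_left]
  rw [← NX_sw_tsum]
  refine Rec8.sw_congr fun P _ => ?_
  rw [← ENNReal.tsum_mul_left, ← ENNReal.tsum_mul_left]
  refine tsum_congr fun n => ?_
  ring

end DO

open DO in
/-- the sum over a leaf of a functional of its head and a functional of its tail -/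
theorem two2_of (hA : SsA) (hD : SsD) : ∃ K : ℝ, 1 ≤ K ∧ ∀ (k0 k1 E N : ℕ) (x y : ℝ≥0∞) (Ψ Φ : List Bool → ℝ≥0∞),
    Dom k0 x Ψ → Dom k1 y Φ → 2 ^ (k0 + 4) ≤ E → 2 ^ (k1 + 4) ≤ E → E ≤ N →
    Rec8.sw (BrR E N) (fun g => Ψ (rev g) * Φ g) ≤ ENNReal.ofReal (K * UU N) * (x * y) := by
  obtain ⟨Kr, hKr, hrest⟩ := restD_of hA
  obtain ⟨Ke, hKe, hends⟩ := endsD_of hA
  obtain ⟨Kd, hKd, hd⟩ := hD
  refine ⟨Kr * Ke + Kd, by nlinarith, fun k0 k1 E N y x Ψ Φ hΨ hΦ h0E h1E hEN => ?_⟩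
  obtain ⟨e, he⟩ : ∃ e, e = max k0 k1 := ⟨_, rfl⟩
  have he0 : k0 ≤ e := by rw [he]; exact le_max_left _ _
  have he1 : k1 ≤ e := by rw [he]; exact le_max_right _ _
  have heE : 2 ^ (e + 4) ≤ E := by
    rcases le_total k0 k1 with hc | hc
    · have : e = k1 := by rw [he]; exact max_eq_right hc
      rw [this]
      omega
    · have : e = k0 := by rw [he]; exact max_eq_left hc
      rw [this]
      omega
  have hp4 : 2 ^ (e + 4) = 8 * 2 ^ (e + 1) := by ring
  have hp1 : 2 ^ (e + 1) = 2 * 2 ^ e := by ring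
  have hp0 : 1 ≤ 2 ^ e := Nat.one_le_two_pow
  have hk0e : 2 ^ (k0 + 1) ≤ 2 ^ (e + 1) := Nat.pow_le_pow_right (by norm_num) (by omega)
  have hk1e : 2 ^ (k1 + 1) ≤ 2 ^ (e + 1) := Nat.pow_le_pow_right (by norm_num) (by omega)
  obtain ⟨A, hA'⟩ : ∃ A, A = ENNReal.ofReal (Kr * UU N) := ⟨_, rfl⟩
  -- the level near the bottom
  have s1 : Rec8.sw (BrR E N) (fun g => Ψ (rev g) * Φ g) ≤ ∑' n : ℕ, ∑' r : ℕ, mu k0 n r * Rec8.sw (Brd n) (fun X =>
      Rec8.sw (Irr r) (fun P => Ψ (rev P ++ rev X) *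
        (x * ((if 2 ^ e < r then SS k1 P else 0) + A)))) := by
    refine (inR (j := k0) (D := E) (N := N) (by omega) _).trans ?_
    refine ENNReal.tsum_le_tsum fun n => ENNReal.tsum_le_tsum fun r => ?_
    by_cases hn : 2 ^ (k0 + 1) ≤ n
    · rw [mu_eq_zero hn, zero_mul, zero_mul]
    refine mul_le_mul_right (Rec8.sw_mono' fun X hX => Rec8.sw_mono' fun P hP => ?_) _
    have h1 := hrest E N k1 n r x Φ P hΦ (by omega) hP
    have h2 : Rec8.sw {Z | Z ∈ BU ∧ X ++ (P ++ Z) ∈ BrR E N} (fun Z => Ψ (rev (X ++ (P ++ Z))) * Φ (X ++ (P ++ Z))) ≤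
        Ψ (rev P ++ rev X) * Rec8.sw {Z | Z ∈ BU ∧ ∃ Y ∈ Brd n, Y ++ (P ++ Z) ∈ BrR E N} (fun Z => Φ (P ++ Z)) := by
      rw [← Rec8.sw_mul_left]
      refine Rec8.sw_mono (fun Z hZ => ⟨hZ.1, X, hX, hZ.2⟩) fun Z hZ => ?_
      refine mul_le_mul' ?_ (hΦ.her X ⟨n, hX⟩ _)
      rw [rev_append, rev_append, List.append_assoc]
      obtain ⟨z, hz⟩ := hZ.1
      exact hΨ.her (rev Z) ⟨z, Brd_rev hz⟩ _
    refine h2.trans (mul_le_mul_right (h1.trans ?_) _)
    rw [← hA']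
    refine mul_le_mul_right (add_le_add ?_ le_rfl) x
    by_cases h3 : E ≤ n + r + 2 ^ (k1 + 1)
    · rw [if_pos h3, if_pos (by omega)]
    · rw [if_neg h3]
      exact zero_le
  refine s1.trans ?_
  -- reversal of X and exchange of the sums
  have s2 : ∀ n r : ℕ, Rec8.sw (Brd n) (fun X => Rec8.sw (Irr r) (fun P => Ψ (rev P ++ rev X) *
        (x * ((if 2 ^ e < r then SS k1 P else 0) + A)))) =
      Rec8.sw (Irr r) (fun P => (x * ((if 2 ^ e < r then SS k1 P else 0) + A)) *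
        Rec8.sw (Brd n) (fun M => Ψ (rev P ++ M))) := by
    intro n r
    rw [Rec8.sw_comm]
    refine Rec8.sw_congr fun P _ => ?_
    rw [← Rec8.sw_mul_left, ← sw_rev (Brd n) (fun t ht => Brd_rev ht)
      (fun M => (x * ((if 2 ^ e < r then SS k1 P else 0) + A)) * Ψ (rev P ++ M))]
    exact Rec8.sw_congr fun X _ => mul_comm _ _
  simp only [s2]
  -- the two parts
  have s3 : ∀ r : ℕ, ∑' n : ℕ, mu k0 n r * Rec8.sw (Irr r) (fun P =>
      (x * ((if 2 ^ e < r then SS k1 P else 0) + A)) *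
        Rec8.sw (Brd n) (fun M => Ψ (rev P ++ M))) ≤
      x * (y * (if 2 ^ e < r then Rec8.sw (Irr r) (fun P => SS k0 (rev P) * SS k1 P) else 0)) +
      x * (A * ∑' n : ℕ, mu k0 n r * Rec8.sw (Irr r) (fun P => Rec8.sw (Brd n) (fun M => Ψ (P ++ M)))) := by
    intro r
    have e1 : ∀ n : ℕ, Rec8.sw (Irr r) (fun P => (x * ((if 2 ^ e < r then SS k1 P else 0) + A)) *
        Rec8.sw (Brd n) (fun M => Ψ (rev P ++ M))) =
        Rec8.sw (Irr r) (fun P => x * ((if 2 ^ e < r then SS k1 P else 0) *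
          Rec8.sw (Brd n) (fun M => Ψ (rev P ++ M)))) +
        x * (A * Rec8.sw (Irr r) (fun P => Rec8.sw (Brd n) (fun M => Ψ (P ++ M)))) := by
      intro n
      rw [← sw_rev (Irr r) (fun t ht => Irr_rev ht) (fun P => Rec8.sw (Brd n) (fun M => Ψ (P ++ M))),
        ← Rec8.sw_mul_left, ← Rec8.sw_mul_left, ← Rec8.sw_add]
      refine Rec8.sw_congr fun P _ => ?_
      ring
    have e1' : ∀ n : ℕ, mu k0 n r * Rec8.sw (Irr r) (fun P => (x * ((if 2 ^ e < r then
        SS k1 P else 0) + A)) * Rec8.sw (Brd n) (fun M => Ψ (rev P ++ M))) =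
        mu k0 n r * Rec8.sw (Irr r) (fun P => x * ((if 2 ^ e < r then SS k1 P else 0) *
          Rec8.sw (Brd n) (fun M => Ψ (rev P ++ M)))) +
        mu k0 n r * (x * (A * Rec8.sw (Irr r) (fun P => Rec8.sw (Brd n) (fun M => Ψ (P ++ M))))) := fun n => by
      rw [e1 n, mul_add]
    rw [tsum_congr e1', ENNReal.tsum_add]
    refine add_le_add ?_ ?_
    · rw [tsum_pull (Irr r) (fun n => mu k0 n r) x (fun P => if 2 ^ e < r then SS k1 P else 0)
        (fun n P => Rec8.sw (Brd n) (fun M => Ψ (rev P ++ M)))]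
      have e3 : Rec8.sw (Irr r) (fun P => x * ((if 2 ^ e < r then SS k1 P else 0) *
            ∑' n : ℕ, mu k0 n r * Rec8.sw (Brd n) (fun M => Ψ (rev P ++ M)))) ≤
          Rec8.sw (Irr r) (fun P => x * ((if 2 ^ e < r then SS k1 P else 0) *
            (y * SS k0 (rev P)))) :=
        Rec8.sw_mono' fun P hP => mul_le_mul_right (mul_le_mul_right (end_le' hΨ (Irr_rev hP)) _) _
      refine e3.trans (le_of_eq ?_)
      by_cases hr : 2 ^ e < r
      · simp only [if_pos hr]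
        rw [← Rec8.sw_mul_left, ← Rec8.sw_mul_left]
        refine Rec8.sw_congr fun P _ => ?_
        ring
      · simp only [if_neg hr]
        simp [Rec8.sw_zero]
    · rw [← ENNReal.tsum_mul_left, ← ENNReal.tsum_mul_left]
      refine ENNReal.tsum_le_tsum fun n => le_of_eq ?_
      ring
  rw [ENNReal.tsum_comm]
  refine (ENNReal.tsum_le_tsum s3).trans ?_
  rw [ENNReal.tsum_add, ENNReal.tsum_mul_left, ENNReal.tsum_mul_left, ENNReal.tsum_mul_left, ENNReal.tsum_mul_left]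
  have t1 := hd k0 k1 e he0 he1
  have t2 : ∑' r : ℕ, ∑' n : ℕ, mu k0 n r * Rec8.sw (Irr r) (fun P => Rec8.sw (Brd n) (fun M => Ψ (P ++ M))) ≤
      ENNReal.ofReal Ke * y := by
    rw [ENNReal.tsum_comm]
    exact hends k0 y Ψ hΨ
  have hUe := Ub_pos e
  have hUN : 0 < UU N := Num2Aux.UU_pos N
  have hUeN : Ub e ≤ UU N := Num2Aux.UU_mono (by omega)
  calc x * (y * ∑' r : ℕ, (if 2 ^ e < r then Rec8.sw (Irr r) (fun P => SS k0 (rev P) * SS k1 P) else 0)) +
      x * (A * ∑' r : ℕ, ∑' n : ℕ, mu k0 n r * Rec8.sw (Irr r) (fun P => Rec8.sw (Brd n) (fun M => Ψ (P ++ M))))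
      ≤ x * (y * ENNReal.ofReal (Kd * Ub e)) + x * (A * (ENNReal.ofReal Ke * y)) := by gcongr
    _ = ENNReal.ofReal (Kr * Ke * UU N + Kd * Ub e) * (y * x) := by
        rw [hA', ENNReal.ofReal_add (by positivity) (by positivity), mul_assoc Kr, mul_comm Ke (UU N), ← mul_assoc Kr,
          ENNReal.ofReal_mul (p := Kr * UU N) (by positivity)]
        ring
    _ ≤ ENNReal.ofReal ((Kr * Ke + Kd) * UU N) * (y * x) := by
        refine mul_le_mul_left (ENNReal.ofReal_le_ofReal ?_) _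
        have : Kd * Ub e ≤ Kd * UU N := mul_le_mul_of_nonneg_left hUeN (by linarith)
        linarith

end NTW

end HexObs
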