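import Pool.Agent.SDN.Defs
import Pool.Agent.PHW.DefsB

/-!
NTW: definitions for the representation of a self-avoiding word by two free ends and a chain of leaves
(doc NTW/10, section 1). Direction false, levels lev.
-/

set_option autoImplicit false

namespace HexObs

namespace NTW

open Finset TS SDN

open scoped ENNReal

/-- e 0 < ... < e m are folds of the walk t: e 0 is the first extremum of its side (strict before, weak after), e m the last
one (weak before, strict after), the folds between are as in Hyst; the piece number j goes up if u + j is odd, down if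
u + j is even (Tight.sg k x = x for k odd, - x for k even) -/
structure FoldG (t : List Bool) (m u : ℕ) (e : ℕ → ℕ) : Prop where
  lt : ∀ j, j < m → e j < e (j + 1)
  le : e m ≤ t.length
  lo0 : ∀ i, e 0 ≤ i → i ≤ e 1 → Tight.sg u (lev t (e 0)) ≤ Tight.sg u (lev t i)
  lo : ∀ j, 1 ≤ j → j < m → ∀ i, e j < i → i ≤ e (j + 1) → Tight.sg (u + j) (lev t (e j)) < Tight.sg (u + j) (lev t i)
  hi : ∀ j, j < m → ∀ i, e j ≤ i → i ≤ e (j + 1) → Tight.sg (u + j) (lev t i) ≤ Tight.sg (u + j) (lev t (e (j + 1)))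
  gap : ∀ j, j < m → 4 ≤ Tight.sg (u + j) (lev t (e (j + 1))) - Tight.sg (u + j) (lev t (e j))
  beg : ∀ i, i < e 0 → Tight.sg u (lev t (e 0)) < Tight.sg u (lev t i)
  fin : ∀ i, e m < i → i ≤ t.length → Tight.sg (u + (m - 1)) (lev t i) < Tight.sg (u + (m - 1)) (lev t (e m))

/-- the word g is the piece of t between the folds e l and e (l + 1), up to one vertex at each end -/
def PosL (t : List Bool) (u : ℕ) (e : ℕ → ℕ) (l : ℕ) (g : List Bool) : Prop :=
  ∃ s : ℕ, e l ≤ s + 1 ∧ s ≤ e l + 1 ∧ s + g.length ≤ e (l + 1) ∧ e (l + 1) ≤ s + g.length + 1 ∧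
    ∀ i, 1 ≤ i → i ≤ g.length → lev g i - lev g 1 = Tight.sg (u + l) (lev t (s + i) - lev t (s + 1))

/-- gs are the words of the leaves of t -/
structure RepG (t : List Bool) (m u : ℕ) (e : ℕ → ℕ) (gs : List (List Bool)) : Prop where
  len : gs.length = m
  ch : gs.IsChain LFold
  brd : ∀ g ∈ gs, ∃ k : ℕ, 1 ≤ k ∧ g ∈ Brd k
  pos : ∀ (l : ℕ) (hl : l < gs.length), PosL t u e l gs[l]
  mid : ∀ (l : ℕ) (hl : l < gs.length), 1 ≤ l → l + 2 ≤ m → gs[l] = lw t (e l) (e (l + 1))

/-- the level of the end of a free end -/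
def lvW : Option (List Bool) → ℤ
  | none => 0
  | some W => lev W W.length

/-- the weight of a free end -/
noncomputable def wO : Option (List Bool) → ℝ≥0∞
  | none => 1
  | some W => wE W

/-- the displacement of the whole walk in the case of one leaf -/
def DispR (t : List Bool) (m u : ℕ) (o : Option (List Bool)) (gs : List (List Bool)) (o' : Option (List Bool)) : Prop :=
  m = 1 → ∀ g ∈ gs, ∀ h : ℕ, g ∈ Brd h → |Tight.sg u (lev t t.length) + lvW o - 3 * h + lvW o'| ≤ 20

/-- the representation with two free ends o, o' and the chain gs of leaves; asm = any fixed function -/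
def RepTwo : Prop := ∃ asm : Fin 16 → Option (List Bool) → List (List Bool) → Option (List Bool) → List Bool,
  ∀ (t : List Bool) (m u : ℕ) (e : ℕ → ℕ) (N0 N1 : ℕ), t ∈ SA → 1 ≤ m → FoldG t m u e →
    (∀ i, i < e 0 → Tight.sg u (lev t i) - Tight.sg u (lev t (e 0)) ≤ 3 * N0) →
    (∀ i, e m < i → i ≤ t.length → Tight.sg (u + (m - 1)) (lev t (e m)) - Tight.sg (u + (m - 1)) (lev t i) ≤ 3 * N1) →
    ∃ (c : Fin 16) (o o' : Option (List Bool)) (gs : List (List Bool)), RepG t m u e gs ∧
      (∀ W ∈ o, W ∈ SSt N0 ∧ LFold (rev (gs.headD [])) W) ∧ (∀ W ∈ o', W ∈ SSt N1 ∧ LFold (gs.getLastD []) W) ∧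
      t = asm c o gs o' ∧ (o.getD []).length + (unf gs).length + (o'.getD []).length ≤ t.length + 10 ∧
      t.length ≤ (o.getD []).length + (unf gs).length + (o'.getD []).length + 10 ∧ DispR t m u o gs o'

/-- folds of the scale b (hysteresis RR b), at least one leaf -/
def Fd (b : ℕ) (t : List Bool) (m u : ℕ) (e : ℕ → ℕ) : Prop :=
  1 ≤ m ∧ FoldG t m u e ∧
  (∀ j, j < m → RR b ≤ Tight.sg (u + j) (lev t (e (j + 1))) - Tight.sg (u + j) (lev t (e j))) ∧
  (∀ j, j < m → ∀ i i', e j ≤ i → i ≤ i' → i' ≤ e (j + 1) →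
    Tight.sg (u + j) (lev t i) - Tight.sg (u + j) (lev t i') < RR b) ∧
  (∀ i i', i ≤ e 0 → i' ≤ e 0 → lev t i - lev t i' < RR b) ∧
  (∀ i i', e m ≤ i → i ≤ t.length → e m ≤ i' → i' ≤ t.length → lev t i - lev t i' < RR b)

/-- one free end hanging at g, or none -/
noncomputable def EE0 (N lam : ℕ) (g : List Bool) : ℝ≥0∞ :=
  1 + gf {W | W ∈ SSt N ∧ LFold g W ∧ g.length + W.length ≤ lam + 20}

end NTW

end HexObs
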