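import Pool.Agent.NTW.QXEnd
import Pool.Agent.NTW.RepDefs

/-!
NTW: statements of the crowd theorem with two ends and of the event theorem (a leaf in a class of small norm), for an
abstract predicate Dm k x Φ (the functional Φ is controlled by the number x at the scales up to k).
-/

set_option autoImplicit false

namespace HexObs

namespace NTW

open Finset TS SDN

open scoped ENNReal

/-- what is used of the predicate Dm -/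
structure DmP (Dm : ℕ → ℝ≥0∞ → (List Bool → ℝ≥0∞) → Prop) : Prop where
  dom : ∀ (k : ℕ) (x : ℝ≥0∞) (Φ : List Bool → ℝ≥0∞), Dm k x Φ → Dom k x Φ
  her : ∀ (k : ℕ) (x : ℝ≥0∞) (Φ : List Bool → ℝ≥0∞), Dm k x Φ → HerD (2 ^ (k + 4)) Φ
  dm : ∀ (k : ℕ) (Φ : List Bool → ℝ≥0∞), HerD (2 ^ (k + 4)) Φ → Dm k (xT (2 ^ (k + 4)) k Φ) Φ
  fin : ∃ K : ℝ, 1 ≤ K ∧ ∀ j N lam lam' : ℕ, 5 ≤ j → 2 ^ j < N → N ≤ 2 ^ (j + 2) → QL j lam' →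
    Dm (j - 4) (ENNReal.ofReal K * bl (lam + lam' + 12) (j + 2)) (fun t => 1 + ENl (2 ^ j) N lam t)

/-- a class of leaves of small norm at the scale kc + 5 -/
structure SmD (Dm : ℕ → ℝ≥0∞ → (List Bool → ℝ≥0∞) → Prop) (kc : ℕ) (S : Set (List Bool)) (δ : ℝ) : Prop where
  near : ∀ (x : ℝ≥0∞) (Φ : List Bool → ℝ≥0∞), Dm kc x Φ →
    xT (2 ^ (kc + 4)) kc (vA (2 ^ (kc + 4)) S Φ) ≤ ENNReal.ofReal δ * x
  free : ∀ (y x : ℝ≥0∞) (Ψ Φ : List Bool → ℝ≥0∞), Dm kc y Ψ → Flp (2 ^ (kc + 4)) Ψ → Dm kc x Φ →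
    Rec8.sw S (fun g => Ψ (rev g) * Φ g) ≤ ENNReal.ofReal (δ * Ub kc) * (y * x)

/-- the crowd theorem with two ends -/
def Crowd2 : Prop := ∀ J : ℕ, 6 ≤ J → ∃ (A C : ℝ) (k0 : ℕ), 1 ≤ A ∧ 0 < C ∧ ∀ (k m lam lam' : ℕ), k0 ≤ k →
  QL (k + 8) lam' → gf {t | t ∈ SAL lam ∧ t ∈ WL (k + J) ∧ ∃ (u : ℕ) (e : ℕ → ℕ), Fd (k + 5) t m u e ∧
    A * nb (k + 5) t ≤ m} ≤ ENNReal.ofReal (C * Ub k / 4 ^ m) * (bl (lam + lam' + 40) (k + 6)) ^ 2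

/-- the event theorem: a leaf in a class of small norm -/
def Event2 (Dm : ℕ → ℝ≥0∞ → (List Bool → ℝ≥0∞) → Prop) : Prop := ∀ J : ℕ, 6 ≤ J → ∀ ε : ℝ, 0 < ε →
  ∃ (δ : ℝ) (k0 : ℕ), 0 < δ ∧ ∀ (kc lam lam' : ℕ) (S : Set (List Bool)), k0 ≤ kc → QL (kc + 8) lam' → SmD Dm kc S δ →
    gf {t | t ∈ SAL lam ∧ t ∈ WL (kc + J) ∧ ∃ (m u : ℕ) (e : ℕ → ℕ), Fd (kc + 5) t m u e ∧
      ∀ gs, RepG t m u e gs → ∃ g ∈ gs, g ∈ S} ≤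
      ENNReal.ofReal (ε * Ub (kc + J)) * (bl (lam + lam' + 40) (kc + 6)) ^ 2

end NTW

end HexObs
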