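import Pool.Agent.NTQ.Fun
import Pool.Agent.NTW.EventDefs
import Pool.Agent.NTW.DomO
import Pool.Agent.NTW.DomT
import Pool.Agent.NTW.DomE

/-!
NTW, (E) of doc NTW/37Q: the norms of the functionals of the monotone chains with two free ends.
-/

set_option autoImplicit false

namespace HexObs

namespace NTW

open Finset TS SDN SDN.CN NTm

open scoped ENNReal

/-- the right continuations by at least one and at most M pieces, windows number ≥ i in increasing order; Φ i = the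
functional of the end behind the window number i -/
noncomputable def Rx (W : ℕ → Set (List Bool)) (kp : ℕ → ℕ) (n : ℕ) (Φ : ℕ → List Bool → ℝ≥0∞) :
    ℕ → ℕ → List Bool → ℝ≥0∞
  | 0, _ => fun _ => 0
  | M + 1, i => fun t => ∑ i' ∈ Ico i n, vA (2 ^ (kp i + 4)) (W i') (fun s => Φ i' s + Rx W kp n Φ M i' s) t

/-- the right continuations by at most M pieces -/
noncomputable def FX (W : ℕ → Set (List Bool)) (kp : ℕ → ℕ) (n : ℕ) (Φ : ℕ → List Bool → ℝ≥0∞) (M i : ℕ)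
    (t : List Bool) : ℝ≥0∞ := Φ i t + Rx W kp n Φ M i t

namespace QF

variable {kc J n : ℕ} {W : ℕ → Set (List Bool)} {kp : ℕ → ℕ} {Φ : ℕ → List Bool → ℝ≥0∞}

lemma hered_Rx (M i : ℕ) : Hered (Rx W kp n Φ M i) := by
  cases M with
  | zero => exact fun _ _ _ => le_rfl
  | succ M =>
    intro s hs t
    exact Finset.sum_le_sum fun i' _ => hered_vA _ _ _ s hs t

lemma herD_Rx (M i : ℕ) : HerD (2 ^ (kp i + 4)) (Rx W kp n Φ M i) := by
  cases M with
  | zero => exact ⟨fun _ _ _ => le_rfl, fun _ _ _ _ => le_rfl⟩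
  | succ M =>
    exact ⟨hered_Rx _ _, fun s t h1 h2 => Finset.sum_le_sum fun i' _ =>
      (herD_vA Nat.one_le_two_pow (W i') (fun s => Φ i' s + Rx W kp n Φ M i' s)).suf s t h1 h2⟩

lemma vA_add {D : ℕ} {A : Set (List Bool)} (F G : List Bool → ℝ≥0∞) (t : List Bool) :
    vA D A (fun s => F s + G s) t = vA D A F t + vA D A G t := by
  unfold vA
  exact Rec8.sw_add _ _ _

lemma xT_zero (D k : ℕ) : xT D k (fun _ => 0) = 0 := by
  refine le_antisymm ?_ zero_le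
  refine xT_le fun b I _ _ => ?_
  rw [Rec8.sw_zero]
  exact zero_le

/-- the right functional -/
lemma rightX {K K2 Q x : ℝ} (hK1 : 1 ≤ K) (hQ : 128 * K + 1 ≤ Q)
    (hK : ∀ (D0 k0 D1 k1 E N : ℕ) (Φ : List Bool → ℝ≥0∞), Hered Φ → 2 ^ (k0 + 4) ≤ D0 →
      2 ^ (k1 + 4) ≤ D1 → D0 ≤ E → D1 ≤ E → E ≤ N →
      xT D0 k0 (vA D0 (BrR E N) Φ) ≤ ENNReal.ofReal (K * (UU N / Ub k0)) * xT D1 k1 Φ) (hK2 : 1 ≤ K2)
    (hN : ∀ (D0 k0 k1 E N : ℕ) (x : ℝ≥0∞) (Φ : List Bool → ℝ≥0∞), Dom k1 x Φ → 2 ^ (k0 + 4) ≤ D0 →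
      D0 ≤ E → 2 ^ (k1 + 4) ≤ E → E ≤ N →
      xT D0 k0 (vA D0 (BrR E N) Φ) ≤ ENNReal.ofReal (K2 * (UU N / Ub k0)) * x) (hW : Wnd kc J n W kp)
    (hx : 0 ≤ x) (hΦ : ∀ i, i < n → Dom (kp i) (ENNReal.ofReal x) (Φ i)) (M : ℕ) :
    ∀ i : ℕ, kp i ≤ kc + J → xT (2 ^ (kp i + 4)) (kp i) (Rx W kp n Φ M i) ≤
      ENNReal.ofReal (64 * K2 * n * x * (Ub (kc + J) / Ub (kp i)) * Q ^ (n - i)) := by
  have hQ1 : 1 ≤ Q := by linarith
  have hn0 : (0 : ℝ) ≤ n := Nat.cast_nonneg n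
  have hr : ∀ i, kp i ≤ kc + J → 1 ≤ Ub (kc + J) / Ub (kp i) := fun i hi => by
    rw [le_div_iff₀ (Ub_pos _), one_mul]
    exact Ub_mono hi
  induction M with
  | zero =>
    intro i hi
    show xT _ _ (fun _ => 0) ≤ _
    rw [xT_zero]
    exact zero_le
  | succ M ih =>
    intro i hi
    have h1 := hr i hi
    obtain ⟨r, hrr⟩ : ∃ r, r = Ub (kc + J) / Ub (kp i) := ⟨_, rfl⟩
    obtain ⟨B, hB⟩ : ∃ B, B = 64 * K2 * n * x := ⟨_, rfl⟩
    rw [← hB] at ih ⊢
    have hB0 : 0 ≤ B := by rw [hB]; positivity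
    rw [← hrr] at h1 ⊢
    have hr0 : 0 ≤ r := by linarith
    have hUi := Ub_pos (kp i)
    have hUL := Ub_pos (kc + J)
    -- the ends
    have h2a : ∀ i' ∈ Ico i n, xT (2 ^ (kp i + 4)) (kp i) (vA (2 ^ (kp i + 4)) (W i') (Φ i')) ≤
        ENNReal.ofReal (32 * K2 * r * x) := by
      intro i' hi'
      rw [Finset.mem_Ico] at hi'
      have e0 : 2 ^ (kp i + 4) ≤ 2 ^ (kp i' + 4) :=
        Nat.pow_le_pow_right (by norm_num) (Nat.add_le_add_right (hW.mono i i' hi'.1) 4)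
      have e2 : 2 ^ (kp i' + 4) ≤ 2 ^ (kp i' + 5) := Nat.pow_le_pow_right (by norm_num) (by omega)
      refine (xT_mono fun t => FB.vA_mono (hW.sub i' hi'.2) _ t).trans
        ((hN (2 ^ (kp i + 4)) (kp i) (kp i') _ _ (ENNReal.ofReal x) (Φ i') (hΦ i' hi'.2) le_rfl e0 le_rfl e2).trans ?_)
      rw [← ENNReal.ofReal_mul (by have := Num2Aux.UU_pos (2 ^ (kp i' + 5)); positivity)]
      apply ENNReal.ofReal_le_ofReal
      have h3 : UU (2 ^ (kp i' + 5)) ≤ 2 ^ 5 * Ub (kp i') := UU_ratio_up (kp i') 5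
      have h4 : Ub (kp i') ≤ Ub (kc + J) := Ub_mono (hW.top i' hi'.2)
      calc K2 * (UU (2 ^ (kp i' + 5)) / Ub (kp i)) * x ≤ K2 * (2 ^ 5 * Ub (kc + J) / Ub (kp i)) * x := by
            gcongr
            linarith
        _ = 32 * K2 * r * x := by
            rw [hrr]
            ring
    -- the sum
    have h2 : ∀ i' ∈ Ico i n, xT (2 ^ (kp i + 4)) (kp i) (vA (2 ^ (kp i + 4)) (W i') (Rx W kp n Φ M i')) ≤
        ENNReal.ofReal (B * ((if i' = i then r * Q ^ (n - i) / 4 else 0) +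
          32 * K * r * (if i + 1 ≤ i' then Q ^ (n - i') else 0))) := by
      intro i' hi'
      rw [Finset.mem_Ico] at hi'
      rcases hi'.1.eq_or_lt with h3 | h3
      · subst h3
        rw [if_pos rfl, if_neg (by omega), mul_zero, add_zero]
        refine (hW.norm i hi'.2 _ (hered_Rx _ _)).trans ((mul_le_mul_right (ih i hi) _).trans ?_)
        rw [← ENNReal.ofReal_mul (by norm_num), ← hrr]
        apply ENNReal.ofReal_le_ofReal
        linarith
      · rw [if_neg (by omega), if_pos (by omega), zero_add]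
        have hUi' := Ub_pos (kp i')
        refine (FB.step hK1 hK hW hi'.2 (hW.mono i i' h3.le) le_rfl (hered_Rx _ _)).trans
          ((mul_le_mul_right (ih i' (hW.top i' hi'.2)) _).trans ?_)
        rw [← ENNReal.ofReal_mul (by positivity)]
        apply ENNReal.ofReal_le_ofReal
        apply le_of_eq
        rw [hrr]
        field_simp
    have h3 : xT (2 ^ (kp i + 4)) (kp i) (Rx W kp n Φ (M + 1) i) ≤
        ∑ i' ∈ Ico i n, (xT (2 ^ (kp i + 4)) (kp i) (vA (2 ^ (kp i + 4)) (W i') (Φ i')) +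
          xT (2 ^ (kp i + 4)) (kp i) (vA (2 ^ (kp i + 4)) (W i') (Rx W kp n Φ M i'))) := by
      refine (xT_sum _ _ _ (fun i' => vA (2 ^ (kp i + 4)) (W i') (fun s => Φ i' s + Rx W kp n Φ M i' s))).trans
        (Finset.sum_le_sum fun i' _ => ?_)
      refine (xT_mono fun t => (vA_add _ _ t).le).trans (Ch.xT_add _ _ _ _)
    refine h3.trans ((Finset.sum_le_sum fun i' hi' => add_le_add (h2a i' hi') (h2 i' hi')).trans ?_)
    have hQp : ∀ j, 0 ≤ (if i + 1 ≤ j then Q ^ (n - j) else 0) := fun j => by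
      split_ifs
      · positivity
      · exact le_rfl
    have hQp2 : ∀ j, 0 ≤ (if j = i then r * Q ^ (n - i) / 4 else 0) := fun j => by
      split_ifs
      · positivity
      · exact le_rfl
    have e3 : ∀ i' ∈ Ico i n, ENNReal.ofReal (32 * K2 * r * x) +
        ENNReal.ofReal (B * ((if i' = i then r * Q ^ (n - i) / 4 else 0) +
          32 * K * r * (if i + 1 ≤ i' then Q ^ (n - i') else 0))) =
        ENNReal.ofReal (32 * K2 * r * x + B * ((if i' = i then r * Q ^ (n - i) / 4 else 0) +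
          32 * K * r * (if i + 1 ≤ i' then Q ^ (n - i') else 0))) := fun i' _ => by
      have a1 := hQp i'
      have a2 := hQp2 i'
      rw [← ENNReal.ofReal_add (by positivity) (by positivity)]
    rw [Finset.sum_congr rfl e3, ← ENNReal.ofReal_sum_of_nonneg (fun i' _ => by
      have a1 := hQp i'
      have a2 := hQp2 i'
      positivity)]
    apply ENNReal.ofReal_le_ofReal
    rw [Finset.sum_add_distrib, Finset.sum_const, ← Finset.mul_sum, Finset.sum_add_distrib, ← Finset.mul_sum, nsmul_eq_mul,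
      Nat.card_Ico]
    have hcard : ((n - i : ℕ) : ℝ) ≤ n := by exact_mod_cast Nat.sub_le n i
    have h4 : ∑ i' ∈ Ico i n, (if i' = i then r * Q ^ (n - i) / 4 else 0) ≤ r * Q ^ (n - i) / 4 := by
      rw [Finset.sum_ite_eq']
      split_ifs
      · exact le_rfl
      · positivity
    have h5 : (Q - 1) * ∑ i' ∈ Ico i n, (if i + 1 ≤ i' then Q ^ (n - i') else 0) ≤ Q ^ (n - i) := by
      rcases Nat.lt_or_ge i n with h6 | h6
      · have h7 := FB.geoR (Q := Q) n (n - (i + 1)) hQ1 (by omega)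
        rw [show n - (n - (i + 1)) = i + 1 by omega, show n - (i + 1) + 1 = n - i by omega] at h7
        refine le_trans (le_of_eq ?_) h7
        congr 1
        rw [Finset.sum_eq_sum_Ico_succ_bot h6, if_neg (by omega), zero_add]
        refine Finset.sum_congr rfl fun i' hi' => ?_
        rw [Finset.mem_Ico] at hi'
        rw [if_pos hi'.1]
      · rw [Finset.Ico_eq_empty (by omega), Finset.sum_empty, mul_zero]
        positivity
    obtain ⟨s, hs⟩ : ∃ s, s = ∑ i' ∈ Ico i n, (if i + 1 ≤ i' then Q ^ (n - i') else 0) := ⟨_, rfl⟩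
    rw [← hs] at h5 ⊢
    have hs0 : 0 ≤ s := by
      rw [hs]
      exact Finset.sum_nonneg fun i' _ => hQp i'
    have h6 : 128 * K * s ≤ Q ^ (n - i) := le_trans (mul_le_mul_of_nonneg_right (by linarith) hs0) h5
    have h7 : 1 ≤ Q ^ (n - i) := one_le_pow₀ hQ1
    have h8 : 32 * K * r * s ≤ r * Q ^ (n - i) / 4 := by
      calc 32 * K * r * s = r * (128 * K * s) / 4 := by ring
        _ ≤ _ := by
          have := mul_le_mul_of_nonneg_left h6 hr0
          linarith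
    have h9 : ((n - i : ℕ) : ℝ) * (32 * K2 * r * x) ≤ B * (r * Q ^ (n - i)) / 2 := by
      calc ((n - i : ℕ) : ℝ) * (32 * K2 * r * x) ≤ n * (32 * K2 * r * x) :=
            mul_le_mul_of_nonneg_right hcard (by positivity)
        _ = B * (r * 1) / 2 := by
            rw [hB]
            ring
        _ ≤ B * (r * Q ^ (n - i)) / 2 := by
            have := mul_le_mul_of_nonneg_left (mul_le_mul_of_nonneg_left h7 hr0) hB0
            linarith
    have h10 : B * (∑ i' ∈ Ico i n, (if i' = i then r * Q ^ (n - i) / 4 else 0) + 32 * K * r * s) ≤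
        B * (r * Q ^ (n - i) / 2) := by
      apply mul_le_mul_of_nonneg_left _ hB0
      linarith
    calc ((n - i : ℕ) : ℝ) * (32 * K2 * r * x) +
          B * (∑ i' ∈ Ico i n, (if i' = i then r * Q ^ (n - i) / 4 else 0) + 32 * K * r * s)
        ≤ B * (r * Q ^ (n - i)) / 2 + B * (r * Q ^ (n - i) / 2) := add_le_add h9 h10
      _ = B * r * Q ^ (n - i) := by ring

lemma vA_mulr {A : Set (List Bool)} (F G H : List Bool → ℝ≥0∞) :
    Rec8.sw A (fun g => F g * (G g + H g)) = Rec8.sw A (fun g => F g * G g) + Rec8.sw A (fun g => F g * H g) := by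
  rw [← Rec8.sw_add]
  exact Rec8.sw_congr fun g _ => mul_add _ _ _

end QF

open QF in
/-- the norms of the functionals of the monotone chains, two free ends -/
theorem fun_boundX {Dm : ℕ → ℝ≥0∞ → (List Bool → ℝ≥0∞) → Prop} (hDm : DmP Dm) (hA : SsA) (h3 : Ss3) (hD : SsD) :
    ∃ Q : ℝ, 1 ≤ Q ∧ ∀ (kc J n : ℕ) (W : ℕ → Set (List Bool)) (kp : ℕ → ℕ) (S : Set (List Bool)) (δ x : ℝ)
      (x0 : ℝ≥0∞) (Φ : ℕ → List Bool → ℝ≥0∞), Wnd kc J n W kp → 1 ≤ n → 0 ≤ δ → 0 ≤ x → SmD Dm kc S δ →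
      (∀ i, i < n → Dom (kp i) (ENNReal.ofReal x) (Φ i)) → x0 ≤ ENNReal.ofReal x → Dm kc x0 (Φ 0) →
      Flp (2 ^ (kc + 4)) (Φ 0) → ∀ M : ℕ,
    Rec8.sw S (fun g => Φ 0 (rev g) * FX W kp n Φ M 0 g) +
      ∑ i ∈ range n, Rec8.sw (W i) (fun g => Φ i (rev g) * FL W kp (vA (2 ^ (kc + 4)) S (FX W kp n Φ M 0)) M i g) ≤
      ENNReal.ofReal (Q ^ (n + J + 1) * δ * Ub (kc + J) * x ^ 2) := by
  obtain ⟨C, δ0, hInp⟩ := inp_exists
  obtain ⟨K, hK1, hK⟩ := two_scale
  obtain ⟨K2, hK2, hN⟩ := nextD_of hInp hA h3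
  obtain ⟨K3, hK3, hT⟩ := two2_of hA hD
  obtain ⟨K4, hK4, hX⟩ := Dom_xT hInp
  obtain ⟨q, hq⟩ : ∃ q : ℝ, q = 128 * K + 1 := ⟨_, rfl⟩
  have hq1 : 1 ≤ q := by linarith
  have hq2 : 2 ≤ q := by linarith
  have hq0 : 0 ≤ q := by linarith
  obtain ⟨A, hAdef⟩ : ∃ A : ℝ, A = 2145 * (K2 * (K3 * K4)) := ⟨_, rfl⟩
  have hKKK : 1 ≤ K2 * (K3 * K4) := one_le_mul_of_one_le_of_one_le hK2 (one_le_mul_of_one_le_of_one_le hK3 hK4)
  have hA1 : 1 ≤ A := by linarith
  refine ⟨A * q ^ 3, one_le_mul_of_one_le_of_one_le hA1 (one_le_pow₀ hq1), ?_⟩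
  intro kc J n W kp S δ x x0 Φ hW hn hδ hx hS hΦ hx0 hΦ0 hflp M
  have hK20 : 0 ≤ K2 := by linarith
  have hK30 : 0 ≤ K3 := by linarith
  have hK40 : 0 ≤ K4 := by linarith
  have hU := Ub_pos kc
  have hUL := Ub_pos (kc + J)
  have hUJ : Ub (kc + J) ≤ 2 ^ J * Ub kc := UU_ratio_up kc J
  have hn0 : (0 : ℝ) ≤ n := Nat.cast_nonneg n
  have hn1 : (1 : ℝ) ≤ n := by exact_mod_cast hn
  obtain ⟨r, hr⟩ : ∃ r, r = Ub (kc + J) / Ub kc := ⟨_, rfl⟩
  have hr1 : 1 ≤ r := by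
    rw [hr, le_div_iff₀ hU, one_mul]
    exact Ub_mono (by omega)
  have hr0 : 0 ≤ r := by linarith
  have hrJ : r ≤ 2 ^ J := by
    rw [hr, div_le_iff₀ hU]
    exact hUJ
  have hqn : 1 ≤ q ^ n := one_le_pow₀ hq1
  -- the right functional
  obtain ⟨B, hB⟩ : ∃ B : ℝ, B = 64 * K2 * n * x * r * q ^ n := ⟨_, rfl⟩
  have hB0 : 0 ≤ B := by rw [hB]; positivity
  have hR : xT (2 ^ (kc + 4)) kc (Rx W kp n Φ M 0) ≤ ENNReal.ofReal B := by
    have h1 := rightX (Q := q) hK1 (by linarith) hK hK2 hN hW hx hΦ M 0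
      (by rw [hW.zero]; omega)
    rw [hW.zero, Nat.sub_zero, ← hr, ← hB] at h1
    exact h1
  have hRh : HerD (2 ^ (kc + 4)) (Rx W kp n Φ M 0) := by
    have := herD_Rx (W := W) (kp := kp) (n := n) (Φ := Φ) M 0
    rwa [hW.zero] at this
  have hRD : Dm kc (xT (2 ^ (kc + 4)) kc (Rx W kp n Φ M 0)) (Rx W kp n Φ M 0) := hDm.dm kc _ hRh
  -- the special leaf
  obtain ⟨g, hg⟩ : ∃ g : ℝ, g = δ * (x + B) := ⟨_, rfl⟩
  have hg0 : 0 ≤ g := by
    rw [hg]
    positivity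
  have hG : xT (2 ^ (kc + 4)) kc (vA (2 ^ (kc + 4)) S (FX W kp n Φ M 0)) ≤ ENNReal.ofReal g := by
    have e1 : ∀ t, vA (2 ^ (kc + 4)) S (FX W kp n Φ M 0) t ≤
        vA (2 ^ (kc + 4)) S (Φ 0) t + vA (2 ^ (kc + 4)) S (Rx W kp n Φ M 0) t := fun t => (vA_add _ _ t).le
    refine (xT_mono e1).trans ((Ch.xT_add _ _ _ _).trans ((add_le_add
      ((hS.near _ _ hΦ0).trans (mul_le_mul_right hx0 _))
      ((hS.near _ _ hRD).trans (mul_le_mul_right hR _))).trans (le_of_eq ?_)))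
    rw [← ENNReal.ofReal_mul hδ, ← ENNReal.ofReal_mul hδ, ← ENNReal.ofReal_add (by positivity) (by positivity), hg]
    congr 1
    ring
  have h1 : Rec8.sw S (fun z => Φ 0 (rev z) * FX W kp n Φ M 0 z) ≤ ENNReal.ofReal (Ub kc * x * g) := by
    have e1 : Rec8.sw S (fun z => Φ 0 (rev z) * FX W kp n Φ M 0 z) =
        Rec8.sw S (fun z => Φ 0 (rev z) * Φ 0 z) + Rec8.sw S (fun z => Φ 0 (rev z) * Rx W kp n Φ M 0 z) :=
      vA_mulr (fun z => Φ 0 (rev z)) (Φ 0) (Rx W kp n Φ M 0)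
    rw [e1]
    refine (add_le_add ((hS.free _ _ _ _ hΦ0 hflp hΦ0).trans (mul_le_mul_right (mul_le_mul' hx0 hx0) _))
      ((hS.free _ _ _ _ hΦ0 hflp hRD).trans (mul_le_mul_right (mul_le_mul' hx0 hR) _))).trans (le_of_eq ?_)
    rw [← ENNReal.ofReal_mul hx, ← ENNReal.ofReal_mul hx, ← ENNReal.ofReal_mul (by positivity),
      ← ENNReal.ofReal_mul (by positivity), ← ENNReal.ofReal_add (by positivity) (by positivity), hg]
    congr 1
    ring
  -- the left functional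
  obtain ⟨G, hGd⟩ : ∃ G, G = vA (2 ^ (kc + 4)) S (FX W kp n Φ M 0) := ⟨_, rfl⟩
  have hGher : Hered G := by
    rw [hGd]
    exact hered_vA _ _ _
  rw [← hGd] at hG ⊢
  have hL := FB.left (Q := q) hK1 (by linarith) hg0 hK hW hGher hG
  have hpair : ∀ i, i < n → ∀ k1, k1 ≤ kp i → ∀ F : List Bool → ℝ≥0∞, Hered F → ∀ y : ℝ, 0 ≤ y →
      xT (2 ^ (k1 + 4)) k1 F ≤ ENNReal.ofReal y →
      Rec8.sw (W i) (fun z => Φ i (rev z) * F z) ≤ ENNReal.ofReal (32 * (K3 * K4) * Ub (kc + J) * x * y) := by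
    intro i hi k1 hk1 F hF y hy hFy
    have e0 : 2 ^ (k1 + 4) ≤ 2 ^ (kp i + 4) := Nat.pow_le_pow_right (by norm_num) (by omega)
    have e2 : 2 ^ (kp i + 4) ≤ 2 ^ (kp i + 5) := Nat.pow_le_pow_right (by norm_num) (by omega)
    refine (Rec8.sw_mono (hW.sub i hi) fun _ _ => le_rfl).trans ((hT (kp i) k1 _ _ _ _ (Φ i) F (hΦ i hi)
      (hX (2 ^ (k1 + 4)) k1 k1 F hF le_rfl le_rfl) le_rfl e0 e2).trans ?_)
    refine (mul_le_mul_right (mul_le_mul_right (mul_le_mul_right hFy _) _) _).trans ?_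
    rw [← ENNReal.ofReal_mul hK40, ← ENNReal.ofReal_mul hx,
      ← ENNReal.ofReal_mul (by have := Num2Aux.UU_pos (2 ^ (kp i + 5)); positivity)]
    apply ENNReal.ofReal_le_ofReal
    have h3 : UU (2 ^ (kp i + 5)) ≤ 2 ^ 5 * Ub (kp i) := UU_ratio_up (kp i) 5
    have h4 : Ub (kp i) ≤ Ub (kc + J) := Ub_mono (hW.top i hi)
    calc K3 * UU (2 ^ (kp i + 5)) * (x * (K4 * y)) ≤ K3 * (2 ^ 5 * Ub (kc + J)) * (x * (K4 * y)) := by
          gcongr
          linarith
      _ = _ := by ring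
  have h2 : ∀ i ∈ range n, Rec8.sw (W i) (fun z => Φ i (rev z) * FL W kp G M i z) ≤
      ENNReal.ofReal (32 * (K3 * K4) * Ub (kc + J) * x * (g * q ^ (i + 2))) := by
    intro i hi
    rw [Finset.mem_range] at hi
    have h0 : kc ≤ kp i := by
      rw [← hW.zero]
      exact hW.mono 0 i (Nat.zero_le i)
    have ha := hpair i hi kc h0 G hGher g hg0 hG
    cases M with
    | zero =>
      refine ha.trans ?_
      apply ENNReal.ofReal_le_ofReal
      apply mul_le_mul_of_nonneg_left _ (by positivity)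
      have : 1 ≤ q ^ (i + 2) := one_le_pow₀ hq1
      nlinarith
    | succ M =>
      have e : Rec8.sw (W i) (fun z => Φ i (rev z) * FL W kp G (M + 1) i z) =
          Rec8.sw (W i) (fun z => Φ i (rev z) * G z) +
          ∑ i' ∈ range (i + 1), Rec8.sw (W i) (fun z => Φ i (rev z) * vA (2 ^ (kp i' + 4)) (W i') (FL W kp G M i') z) := by
        rw [← Rec8.sw_sum, ← Rec8.sw_add]
        refine Rec8.sw_congr fun z _ => ?_
        rw [← Finset.mul_sum, ← mul_add]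
        rfl
      rw [e]
      have hL' := FB.left (Q := q) hK1 (by linarith) hg0 hK hW hGher hG M
      have hb : ∀ i' ∈ range (i + 1), Rec8.sw (W i) (fun z => Φ i (rev z) *
            vA (2 ^ (kp i' + 4)) (W i') (FL W kp G M i') z) ≤
          ENNReal.ofReal (32 * (K3 * K4) * Ub (kc + J) * x * (q ^ (i' + 1) * g)) := by
        intro i' hi'
        rw [Finset.mem_range] at hi'
        exact hpair i hi (kp i') (hW.mono i' i (by omega)) _ (hered_vA _ _ _) _ (by positivity) (hL' i' (by omega))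
      refine (add_le_add ha (Finset.sum_le_sum hb)).trans ?_
      rw [← ENNReal.ofReal_sum_of_nonneg (fun i' _ => by positivity),
        ← ENNReal.ofReal_add (by positivity) (by positivity)]
      apply ENNReal.ofReal_le_ofReal
      rw [← Finset.mul_sum, ← mul_add]
      apply mul_le_mul_of_nonneg_left _ (by positivity)
      rw [← Finset.sum_mul]
      have h3 := FB.geoL (Q := q) (i + 1)
      have h4 : ∑ i' ∈ range (i + 1), q ^ (i' + 1) ≤ q ^ (i + 1 + 1) - q := by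
        have h5 : 0 ≤ ∑ i' ∈ range (i + 1), q ^ (i' + 1) := Finset.sum_nonneg fun _ _ => by positivity
        nlinarith
      have h5 : 1 + ∑ i' ∈ range (i + 1), q ^ (i' + 1) ≤ q ^ (i + 2) := by linarith
      calc g + (∑ i' ∈ range (i + 1), q ^ (i' + 1)) * g = g * (1 + ∑ i' ∈ range (i + 1), q ^ (i' + 1)) := by ring
        _ ≤ g * q ^ (i + 2) := mul_le_mul_of_nonneg_left h5 hg0
  refine (add_le_add h1 (Finset.sum_le_sum h2)).trans ?_
  rw [← ENNReal.ofReal_sum_of_nonneg (fun i' _ => by positivity), ← ENNReal.ofReal_add (by positivity) (by positivity)]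
  apply ENNReal.ofReal_le_ofReal
  rw [← Finset.mul_sum, ← Finset.mul_sum]
  have h3 : ∑ i ∈ range n, q ^ (i + 2) ≤ q ^ (n + 2) := by
    have h4 := FB.geoL (Q := q) n
    have h5 : ∑ i ∈ range n, q ^ (i + 2) = q * ∑ i ∈ range n, q ^ (i + 1) := by
      rw [Finset.mul_sum]
      exact Finset.sum_congr rfl fun i _ => by ring
    have h6 : 0 ≤ ∑ i ∈ range n, q ^ (i + 1) := Finset.sum_nonneg fun _ _ => by positivity
    have h7 : ∑ i ∈ range n, q ^ (i + 1) ≤ q ^ (n + 1) := by nlinarith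
    rw [h5]
    calc q * ∑ i ∈ range n, q ^ (i + 1) ≤ q * q ^ (n + 1) := mul_le_mul_of_nonneg_left h7 hq0
      _ = q ^ (n + 2) := by ring
  have hUU : Ub kc ≤ Ub (kc + J) := Ub_mono (by omega)
  have hK34 : 1 ≤ K3 * K4 := one_le_mul_of_one_le_of_one_le hK3 hK4
  have hqn2 : 1 ≤ q ^ (n + 2) := one_le_pow₀ hq1
  have h4 : Ub kc * x * g + 32 * (K3 * K4) * Ub (kc + J) * x * (g * ∑ i ∈ range n, q ^ (i + 2)) ≤
      33 * (K3 * K4) * Ub (kc + J) * x * g * q ^ (n + 2) := by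
    have a1 : Ub kc * x * g ≤ (K3 * K4) * Ub (kc + J) * x * g * q ^ (n + 2) := by
      have b1 : Ub kc ≤ (K3 * K4) * Ub (kc + J) * q ^ (n + 2) := by
        calc Ub kc ≤ Ub (kc + J) := hUU
          _ = 1 * Ub (kc + J) * 1 := by ring
          _ ≤ (K3 * K4) * Ub (kc + J) * q ^ (n + 2) := by gcongr
      calc Ub kc * x * g ≤ ((K3 * K4) * Ub (kc + J) * q ^ (n + 2)) * x * g := by gcongr
        _ = _ := by ring
    have a2 : 32 * (K3 * K4) * Ub (kc + J) * x * (g * ∑ i ∈ range n, q ^ (i + 2)) ≤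
        32 * (K3 * K4) * Ub (kc + J) * x * (g * q ^ (n + 2)) := by gcongr
    nlinarith [a1, a2]
  have h5 : g ≤ 65 * K2 * (δ * x) * (n * r * q ^ n) := by
    have a1 : 1 ≤ (n : ℝ) * r * q ^ n :=
      one_le_mul_of_one_le_of_one_le (one_le_mul_of_one_le_of_one_le hn1 hr1) hqn
    have a2 : δ * x ≤ K2 * (δ * x) * (n * r * q ^ n) := by
      have b1 : 1 ≤ K2 * (n * r * q ^ n) := one_le_mul_of_one_le_of_one_le hK2 a1
      calc δ * x = (δ * x) * 1 := (mul_one _).symm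
        _ ≤ (δ * x) * (K2 * (n * r * q ^ n)) := mul_le_mul_of_nonneg_left b1 (by positivity)
        _ = _ := by ring
    rw [hg, hB]
    calc δ * (x + 64 * K2 * n * x * r * q ^ n) = δ * x + 64 * (K2 * (δ * x) * (n * r * q ^ n)) := by ring
      _ ≤ K2 * (δ * x) * (n * r * q ^ n) + 64 * (K2 * (δ * x) * (n * r * q ^ n)) := by linarith
      _ = _ := by ring
  have h6 : (n : ℝ) ≤ q ^ n := by
    have a1 : n < 2 ^ n := Nat.lt_two_pow_self
    have a2 : (n : ℝ) ≤ 2 ^ n := by exact_mod_cast a1.le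
    exact a2.trans (pow_le_pow_left₀ (by norm_num) hq2 n)
  have h7 : r ≤ q ^ J := hrJ.trans (pow_le_pow_left₀ (by norm_num) hq2 J)
  have h8 : (n : ℝ) * r * q ^ n * q ^ (n + 2) ≤ (q ^ 3) ^ (n + J + 1) := by
    calc (n : ℝ) * r * q ^ n * q ^ (n + 2) ≤ q ^ n * q ^ J * q ^ n * q ^ (n + 2) := by gcongr
      _ = q ^ (n + J + n + (n + 2)) := by ring
      _ ≤ q ^ (3 * (n + J + 1)) := pow_le_pow_right₀ hq1 (by omega)
      _ = _ := by rw [pow_mul]
  have h9 : A ≤ A ^ (n + J + 1) := by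
    calc A = A ^ 1 := (pow_one _).symm
      _ ≤ _ := pow_le_pow_right₀ hA1 (by omega)
  calc Ub kc * x * g + 32 * (K3 * K4) * Ub (kc + J) * x * (g * ∑ i ∈ range n, q ^ (i + 2))
      ≤ 33 * (K3 * K4) * Ub (kc + J) * x * g * q ^ (n + 2) := h4
    _ ≤ 33 * (K3 * K4) * Ub (kc + J) * x * (65 * K2 * (δ * x) * (n * r * q ^ n)) * q ^ (n + 2) := by gcongr
    _ = A * (n * r * q ^ n * q ^ (n + 2)) * (δ * Ub (kc + J) * x ^ 2) := by
        rw [hAdef]
        ring
    _ ≤ A ^ (n + J + 1) * (q ^ 3) ^ (n + J + 1) * (δ * Ub (kc + J) * x ^ 2) := by gcongr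
    _ = (A * q ^ 3) ^ (n + J + 1) * δ * Ub (kc + J) * x ^ 2 := by
        rw [← mul_pow]
        ring

end NTW

end HexObs
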