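import Pool.Agent.NTQ.Sum
import Pool.Agent.NTW.EqFun

/-!
NTW, (E) of doc NTW/37Q: the sums over the monotone chains with two free ends.
-/

set_option autoImplicit false

namespace HexObs

namespace NTW

open Finset TS SDN SDN.CN NTm

open scoped ENNReal

/-- right parts behind the piece g of the window number i; c = the weight of the end behind the last piece -/
def IncE (W : ℕ → Set (List Bool)) (n : ℕ) (Φ : ℕ → List Bool → ℝ≥0∞) :
    List (List Bool) → ℕ → List Bool → ℝ≥0∞ → Prop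
  | [], i, g, c => c ≤ Φ i g
  | x :: xs, i, _, c => ∃ i', i ≤ i' ∧ i' < n ∧ x ∈ W i' ∧ IncE W n Φ xs i' x c

/-- windows number < i in decreasing order, a leaf in S, a right part with at most M pieces -/
def DecE (W : ℕ → Set (List Bool)) (n M : ℕ) (S : Set (List Bool)) (Φ : ℕ → List Bool → ℝ≥0∞) :
    List (List Bool) → ℕ → ℝ≥0∞ → Prop
  | [], _, _ => False
  | g :: gs, i, c => (g ∈ S ∧ gs.length ≤ M ∧ IncE W n Φ gs 0 g c) ∨
      ∃ i', i' < i ∧ g ∈ W i' ∧ DecE W n M S Φ gs (i' + 1) c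

/-- the whole chain; a = the weight of the end before the first piece -/
def TotE (W : ℕ → Set (List Bool)) (n M : ℕ) (S : Set (List Bool)) (Φ : ℕ → List Bool → ℝ≥0∞) :
    List (List Bool) → ℝ≥0∞ → ℝ≥0∞ → Prop
  | [], _, _ => False
  | g :: gs, a, c => (g ∈ S ∧ a ≤ Φ 0 (rev g) ∧ gs.length ≤ M ∧ IncE W n Φ gs 0 g c) ∨
      ∃ i, i < n ∧ g ∈ W i ∧ a ≤ Φ i (rev g) ∧ DecE W n M S Φ gs (i + 1) c

namespace QF

/-- sums over the chains by the first piece, with a weight -/
lemma sum_consW (s : Finset ℕ) (A : ℕ → Set (List Bool)) (F : ℕ → List Bool → ℝ≥0∞) (w : List (List Bool) → ℝ≥0∞)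
    (c : List (List Bool) → Prop) (c' : ℕ → List Bool → List (List Bool) → Prop) [∀ gs, Decidable (c gs)]
    [∀ i g gs, Decidable (c' i g gs)] (h : ∀ g gs, c (g :: gs) → ∃ i ∈ s, g ∈ A i ∧ c' i g gs)
    (hF : ∀ i ∈ s, ∀ g ∈ A i, (∑' gs : List (List Bool), if c' i g gs then SDN.wl gs * w (g :: gs) else 0) ≤ F i g) :
    ∑' g : List Bool, ∑' gs : List (List Bool), (if c (g :: gs) then SDN.wl (g :: gs) * w (g :: gs) else 0) ≤
      ∑ i ∈ s, Rec8.sw (A i) (F i) := by
  classical
  have h1 : ∑ i ∈ s, Rec8.sw (A i) (F i) = ∑' g : List Bool, ∑ i ∈ s, (if g ∈ A i then wE g * F i g else 0) := by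
    rw [Summable.tsum_finsetSum (fun _ _ => ENNReal.summable)]
    exact Finset.sum_congr rfl fun i _ => Rec8.sw_ind _ _
  rw [h1]
  refine ENNReal.tsum_le_tsum fun g => ?_
  have h2 : ∑' gs : List (List Bool), (if c (g :: gs) then SDN.wl (g :: gs) * w (g :: gs) else 0) ≤
      ∑' gs : List (List Bool), ∑ i ∈ s, (if g ∈ A i then wE g * (if c' i g gs then SDN.wl gs * w (g :: gs) else 0)
        else 0) := by
    refine ENNReal.tsum_le_tsum fun gs => ?_
    by_cases hc : c (g :: gs)
    · rw [if_pos hc]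
      obtain ⟨i, hi, hg, hc'⟩ := h g gs hc
      refine le_trans ?_ (Finset.single_le_sum (f := fun i => (if g ∈ A i then wE g * (if c' i g gs then
        SDN.wl gs * w (g :: gs) else 0) else 0)) (fun _ _ => zero_le) hi)
      simp only [if_pos hg, if_pos hc', NTm.wl_cons, mul_assoc, le_refl]
    · rw [if_neg hc]
      exact zero_le
  refine h2.trans ?_
  rw [Summable.tsum_finsetSum (fun _ _ => ENNReal.summable)]
  refine Finset.sum_le_sum fun i hi => ?_
  by_cases hg : g ∈ A i
  · simp only [if_pos hg]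
    rw [ENNReal.tsum_mul_left]
    exact mul_le_mul_right (hF i hi g hg) _
  · simp only [if_neg hg, tsum_zero, le_refl]

open Classical in
/-- right chains behind the leaf g -/
lemma TR_leX {kc J n : ℕ} {W : ℕ → Set (List Bool)} {kp : ℕ → ℕ} {Φ : ℕ → List Bool → ℝ≥0∞} (hW : Wnd kc J n W kp)
    (M : ℕ) : ∀ (i : ℕ) (g : List Bool) (w : List (List Bool) → ℝ≥0∞), g ∈ HB (2 ^ (kp i + 4)) →
    (∑' gs : List (List Bool), if gs.length ≤ M ∧ (g :: gs).IsChain LFold ∧ IncE W n Φ gs i g (w gs) then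
      SDN.wl gs * w gs else 0) ≤ FX W kp n Φ M i g := by
  induction M with
  | zero =>
    intro i g w _
    rw [tsum_eq_single []]
    · split_ifs with h
      · rw [NTm.wl_nil, one_mul]
        exact le_add_right h.2.2
      · exact zero_le
    · intro gs hgs
      rw [if_neg]
      rintro ⟨h, -⟩
      exact hgs (List.length_eq_zero_iff.1 (by omega))
  | succ M ih =>
    intro i g w hg
    refine (tsum_list1 _).trans (add_le_add ?_ ?_)
    · split_ifs with h
      · rw [NTm.wl_nil, one_mul]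
        exact h.2.2
      · exact zero_le
    · refine sum_consW (Ico i n) (fun i' => {g' | g' ∈ W i' ∧ RT (2 ^ (kp i + 4)) LFold g g'})
        (fun i' s => Φ i' s + Rx W kp n Φ M i' s) w
        (fun gs => gs.length ≤ M + 1 ∧ (g :: gs).IsChain LFold ∧ IncE W n Φ gs i g (w gs))
        (fun i' g' gs => gs.length ≤ M ∧ (g' :: gs).IsChain LFold ∧ IncE W n Φ gs i' g' (w (g' :: gs))) ?_ ?_
      · rintro g' gs ⟨h1, h2, i', h3, h4, h5, h6⟩
        rw [List.isChain_cons_cons] at h2
        rw [List.length_cons] at h1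
        exact ⟨i', Finset.mem_Ico.2 ⟨h3, h4⟩, ⟨h5, RT_of hg h2.1⟩, by omega, h2.2, h6⟩
      · rintro i' hi' g' ⟨h5, -⟩
        obtain ⟨h, a1, a2, a3⟩ := hW.sub i' (Finset.mem_Ico.1 hi').2 h5
        exact ih i' g' (fun gs => w (g' :: gs)) ⟨h, a1, a3⟩

open Classical in
/-- left chains, the leaf in S and right chains behind the leaf g -/
lemma TL_leX {kc J n : ℕ} {W : ℕ → Set (List Bool)} {kp : ℕ → ℕ} {Φ : ℕ → List Bool → ℝ≥0∞} (hW : Wnd kc J n W kp)
    {S : Set (List Bool)} (hS : S ⊆ HB (2 ^ (kc + 4))) (M M' : ℕ) :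
    ∀ (i : ℕ) (g : List Bool) (w : List (List Bool) → ℝ≥0∞), i < n → g ∈ HB (2 ^ (kp i + 4)) →
    (∑' gs : List (List Bool), if gs.length ≤ M' + 1 ∧ (g :: gs).IsChain LFold ∧ DecE W n M S Φ gs (i + 1) (w gs) then
      SDN.wl gs * w gs else 0) ≤ FL W kp (vA (2 ^ (kc + 4)) S (FX W kp n Φ M 0)) M' i g := by
  have hmono : ∀ (i i' : ℕ) (g : List Bool), i' ≤ i → g ∈ HB (2 ^ (kp i + 4)) → g ∈ HB (2 ^ (kp i' + 4)) := by
    rintro i i' g hi ⟨h, a1, a2⟩
    exact ⟨h, (Nat.pow_le_pow_right (by norm_num) (Nat.add_le_add_right (hW.mono i' i hi) 4)).trans a1, a2⟩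
  have hR : ∀ g ∈ S, ∀ w : List (List Bool) → ℝ≥0∞, (∑' gs : List (List Bool), if gs.length ≤ M ∧
      (g :: gs).IsChain LFold ∧ IncE W n Φ gs 0 g (w gs) then SDN.wl gs * w gs else 0) ≤ FX W kp n Φ M 0 g := by
    intro g hg w
    apply TR_leX hW M 0 g w
    rw [hW.zero]
    exact hS hg
  induction M' with
  | zero =>
    intro i g w hi hg
    have hg0 : g ∈ HB (2 ^ (kc + 4)) := by
      have := hmono i 0 g (Nat.zero_le i) hg
      rwa [hW.zero] at this
    refine (CCh.tsum_list _ ?_).trans ?_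
    · rw [if_neg]
      rintro ⟨-, -, h⟩
      exact h
    · refine (sum_consW (range 1) (fun _ => {g' | g' ∈ S ∧ RT (2 ^ (kc + 4)) LFold g g'}) (fun _ => FX W kp n Φ M 0) w
        (fun gs => gs.length ≤ 0 + 1 ∧ (g :: gs).IsChain LFold ∧ DecE W n M S Φ gs (i + 1) (w gs))
        (fun _ g' gs => gs.length ≤ M ∧ (g' :: gs).IsChain LFold ∧ IncE W n Φ gs 0 g' (w (g' :: gs))) ?_ ?_).trans ?_
      · rintro g' gs ⟨h1, h2, h3⟩
        rw [List.isChain_cons_cons] at h2
        rw [List.length_cons] at h1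
        have h0 : gs = [] := List.length_eq_zero_iff.1 (by omega)
        rcases h3 with ⟨h4, h5, h6⟩ | ⟨i', h4, h5, h6⟩
        · exact ⟨0, Finset.mem_range.2 (by omega), ⟨h4, RT_of hg0 h2.1⟩, h5, h2.2, h6⟩
        · rw [h0] at h6
          exact h6.elim
      · rintro _ _ g' ⟨h5, -⟩
        exact hR g' h5 (fun gs => w (g' :: gs))
      · rw [Finset.sum_range_one]
        exact le_rfl
  | succ M' ih =>
    intro i g w hi hg
    have hg0 : g ∈ HB (2 ^ (kc + 4)) := by
      have := hmono i 0 g (Nat.zero_le i) hg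
      rwa [hW.zero] at this
    refine (CCh.tsum_list _ ?_).trans ?_
    · rw [if_neg]
      rintro ⟨-, -, h⟩
      exact h
    · refine (sum_consW (range (i + 1 + 1)) (fun j => if j = 0 then {g' | g' ∈ S ∧ RT (2 ^ (kc + 4)) LFold g g'} else
          {g' | g' ∈ W (j - 1) ∧ RT (2 ^ (kp (j - 1) + 4)) LFold g g'})
        (fun j => if j = 0 then FX W kp n Φ M 0 else FL W kp (vA (2 ^ (kc + 4)) S (FX W kp n Φ M 0)) M' (j - 1)) w
        (fun gs => gs.length ≤ M' + 1 + 1 ∧ (g :: gs).IsChain LFold ∧ DecE W n M S Φ gs (i + 1) (w gs))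
        (fun j g' gs => if j = 0 then gs.length ≤ M ∧ (g' :: gs).IsChain LFold ∧ IncE W n Φ gs 0 g' (w (g' :: gs)) else
          gs.length ≤ M' + 1 ∧ (g' :: gs).IsChain LFold ∧ DecE W n M S Φ gs (j - 1 + 1) (w (g' :: gs))) ?_ ?_).trans ?_
      · rintro g' gs ⟨h1, h2, h3⟩
        rw [List.isChain_cons_cons] at h2
        rw [List.length_cons] at h1
        rcases h3 with ⟨h4, h5, h6⟩ | ⟨i', h4, h5, h6⟩
        · refine ⟨0, Finset.mem_range.2 (by omega), ?_, ?_⟩
          · rw [if_pos rfl]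
            exact ⟨h4, RT_of hg0 h2.1⟩
          · rw [if_pos rfl]
            exact ⟨h5, h2.2, h6⟩
        · refine ⟨i' + 1, Finset.mem_range.2 (by omega), ?_, ?_⟩
          · rw [if_neg (by omega), Nat.add_sub_cancel]
            exact ⟨h5, RT_of (hmono i i' g (by omega) hg) h2.1⟩
          · rw [if_neg (by omega), Nat.add_sub_cancel]
            exact ⟨by omega, h2.2, h6⟩
      · rintro j hj g' h5
        rcases Nat.eq_zero_or_pos j with h0 | h0
        · rw [if_pos h0] at h5 ⊢
          simp only [if_pos h0]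
          exact hR g' h5.1 (fun gs => w (g' :: gs))
        · rw [if_neg (by omega)] at h5 ⊢
          simp only [if_neg (show j ≠ 0 by omega)]
          have hjn : j - 1 < n := by
            have := Finset.mem_range.1 hj
            omega
          obtain ⟨h, a1, a2, a3⟩ := hW.sub (j - 1) hjn h5.1
          exact ih (j - 1) g' (fun gs => w (g' :: gs)) hjn ⟨h, a1, a3⟩
      · rw [Finset.sum_range_succ', if_pos rfl, if_pos rfl, add_comm]
        refine add_le_add le_rfl (le_of_eq (Finset.sum_congr rfl fun j _ => ?_))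
        rw [if_neg (Nat.succ_ne_zero j), if_neg (Nat.succ_ne_zero j), Nat.add_sub_cancel]
        rfl

end QF

open QF in
open Classical in
/-- **the sum over the chains** -/
theorem chain_massX {kc J n : ℕ} {W : ℕ → Set (List Bool)} {kp : ℕ → ℕ} {Φ : ℕ → List Bool → ℝ≥0∞} (hW : Wnd kc J n W kp)
    {S : Set (List Bool)} (hS : S ⊆ HB (2 ^ (kc + 4))) (M : ℕ) (w0 w1 : List (List Bool) → ℝ≥0∞)
    (h0 : ∀ g gs, w0 (g :: gs) = w0 [g]) :
    (∑' gs : List (List Bool), if gs.length ≤ M ∧ gs.IsChain LFold ∧ TotE W n M S Φ gs (w0 gs) (w1 gs) then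
      SDN.wl gs * (w0 gs * w1 gs) else 0) ≤
      Rec8.sw S (fun g => Φ 0 (rev g) * FX W kp n Φ M 0 g) +
        ∑ i ∈ range n, Rec8.sw (W i) (fun g => Φ i (rev g) * FL W kp (vA (2 ^ (kc + 4)) S (FX W kp n Φ M 0)) M i g) := by
  refine (CCh.tsum_list _ ?_).trans ?_
  · rw [if_neg]
    rintro ⟨-, -, h⟩
    exact h
  · refine (sum_consW (range (n + 1)) (fun j => if j = 0 then S else W (j - 1))
      (fun j => if j = 0 then (fun g => Φ 0 (rev g) * FX W kp n Φ M 0 g) else
        (fun g => Φ (j - 1) (rev g) * FL W kp (vA (2 ^ (kc + 4)) S (FX W kp n Φ M 0)) M (j - 1) g))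
      (fun gs => w0 gs * w1 gs)
      (fun gs => gs.length ≤ M ∧ gs.IsChain LFold ∧ TotE W n M S Φ gs (w0 gs) (w1 gs))
      (fun j g' gs => if j = 0 then w0 [g'] ≤ Φ 0 (rev g') ∧ gs.length ≤ M ∧ (g' :: gs).IsChain LFold ∧
          IncE W n Φ gs 0 g' (w1 (g' :: gs)) else
        w0 [g'] ≤ Φ (j - 1) (rev g') ∧ gs.length ≤ M + 1 ∧ (g' :: gs).IsChain LFold ∧
          DecE W n M S Φ gs (j - 1 + 1) (w1 (g' :: gs))) ?_ ?_).trans ?_
    · rintro g' gs ⟨h1, h2, h3⟩
      rw [List.length_cons] at h1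
      rcases h3 with ⟨h4, h7, h5, h6⟩ | ⟨i', h4, h5, h7, h6⟩
      · refine ⟨0, Finset.mem_range.2 (by omega), ?_, ?_⟩
        · rw [if_pos rfl]
          exact h4
        · rw [if_pos rfl]
          rw [h0] at h7
          exact ⟨h7, h5, h2, h6⟩
      · refine ⟨i' + 1, Finset.mem_range.2 (by omega), ?_, ?_⟩
        · rw [if_neg (by omega), Nat.add_sub_cancel]
          exact h5
        · rw [if_neg (by omega), Nat.add_sub_cancel]
          rw [h0] at h7
          exact ⟨h7, by omega, h2, h6⟩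
    · rintro j hj g' h5
      rcases Nat.eq_zero_or_pos j with hj0 | hj0
      · rw [if_pos hj0] at h5 ⊢
        simp only [if_pos hj0]
        have hT : (∑' gs : List (List Bool), if gs.length ≤ M ∧ (g' :: gs).IsChain LFold ∧
            IncE W n Φ gs 0 g' (w1 (g' :: gs)) then SDN.wl gs * w1 (g' :: gs) else 0) ≤ FX W kp n Φ M 0 g' := by
          apply TR_leX hW M 0 g' (fun gs => w1 (g' :: gs))
          rw [hW.zero]
          exact hS h5
        by_cases hw : w0 [g'] ≤ Φ 0 (rev g')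
        · refine le_trans ?_ (mul_le_mul' hw hT)
          rw [← ENNReal.tsum_mul_left]
          refine ENNReal.tsum_le_tsum fun gs => ?_
          by_cases hc : gs.length ≤ M ∧ (g' :: gs).IsChain LFold ∧ IncE W n Φ gs 0 g' (w1 (g' :: gs))
          · rw [if_pos ⟨hw, hc⟩, if_pos hc, h0]
            apply le_of_eq
            ring
          · rw [if_neg fun h => hc h.2]
            exact zero_le
        · refine le_trans (le_of_eq ?_) zero_le
          rw [ENNReal.tsum_eq_zero]
          intro gs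
          rw [if_neg fun h => hw h.1]
      · rw [if_neg (by omega)] at h5 ⊢
        simp only [if_neg (show j ≠ 0 by omega)]
        have hjn : j - 1 < n := by
          have := Finset.mem_range.1 hj
          omega
        obtain ⟨h, a1, a2, a3⟩ := hW.sub (j - 1) hjn h5
        have hT := TL_leX (Φ := Φ) hW hS M M (j - 1) g' (fun gs => w1 (g' :: gs)) hjn ⟨h, a1, a3⟩
        by_cases hw : w0 [g'] ≤ Φ (j - 1) (rev g')
        · refine le_trans ?_ (mul_le_mul' hw hT)
          rw [← ENNReal.tsum_mul_left]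
          refine ENNReal.tsum_le_tsum fun gs => ?_
          by_cases hc : gs.length ≤ M + 1 ∧ (g' :: gs).IsChain LFold ∧ DecE W n M S Φ gs (j - 1 + 1) (w1 (g' :: gs))
          · rw [if_pos ⟨hw, hc⟩, if_pos hc, h0]
            apply le_of_eq
            ring
          · rw [if_neg fun h => hc h.2]
            exact zero_le
        · refine le_trans (le_of_eq ?_) zero_le
          rw [ENNReal.tsum_eq_zero]
          intro gs
          rw [if_neg fun h => hw h.1]
    · rw [Finset.sum_range_succ', if_pos rfl, if_pos rfl, add_comm]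
      refine add_le_add le_rfl (le_of_eq (Finset.sum_congr rfl fun j _ => ?_))
      rw [if_neg (Nat.succ_ne_zero j), if_neg (Nat.succ_ne_zero j), Nat.add_sub_cancel]

end NTW

end HexObs
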