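import Pool.Agent.NT.Chain

/-!
NTW: chains of leaves with at least one leaf in a class S of small norm, an end functional Φ0 at the last leaf and a start
functional Ψ at the reversed first leaf (the generalisation of NT/Chain to two free ends). The class of the admissible
functionals is an abstract predicate Dm x Φ (the functional Φ is controlled by the number x).
-/

set_option autoImplicit false

namespace HexObs

namespace NTW

open Finset TS SDN SDN.CN

open scoped ENNReal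

namespace TS2

variable {S : Set (List Bool)} {Ψ Φ0 : List Bool → ℝ≥0∞} {Dm : ℝ≥0∞ → (List Bool → ℝ≥0∞) → Prop} {y : ℝ≥0∞}

/-- norm of all leaves of a height in [2^(k+4), N] -/
structure AllG (Ψ : List Bool → ℝ≥0∞) (y : ℝ≥0∞) (Dm : ℝ≥0∞ → (List Bool → ℝ≥0∞) → Prop) (k N : ℕ) (Q : ℝ) : Prop where
  dm : ∀ Φ : List Bool → ℝ≥0∞, HerD (2 ^ (k + 4)) Φ → Dm (xT (2 ^ (k + 4)) k Φ) Φ
  near : ∀ (x : ℝ≥0∞) (Φ : List Bool → ℝ≥0∞), Dm x Φ →
    xT (2 ^ (k + 4)) k (vA (2 ^ (k + 4)) (BrR (2 ^ (k + 4)) N) Φ) ≤ ENNReal.ofReal Q * x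
  free : ∀ (x : ℝ≥0∞) (Φ : List Bool → ℝ≥0∞), Dm x Φ →
    Rec8.sw (BrR (2 ^ (k + 4)) N) (fun g => Ψ (rev g) * Φ g) ≤ ENNReal.ofReal (Q * Ub k) * (y * x)

/-- a class of small norm -/
structure SmS (S : Set (List Bool)) (Ψ : List Bool → ℝ≥0∞) (y : ℝ≥0∞) (Dm : ℝ≥0∞ → (List Bool → ℝ≥0∞) → Prop) (k : ℕ)
    (δ : ℝ) : Prop where
  near : ∀ (x : ℝ≥0∞) (Φ : List Bool → ℝ≥0∞), Dm x Φ → xT (2 ^ (k + 4)) k (vA (2 ^ (k + 4)) S Φ) ≤ ENNReal.ofReal δ * x
  free : ∀ (x : ℝ≥0∞) (Φ : List Bool → ℝ≥0∞), Dm x Φ →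
    Rec8.sw S (fun g => Ψ (rev g) * Φ g) ≤ ENNReal.ofReal (δ * Ub k) * (y * x)

lemma SmS_mono {S S' : Set (List Bool)} {k : ℕ} {δ : ℝ} (h : S' ⊆ S) (hS : SmS S Ψ y Dm k δ) : SmS S' Ψ y Dm k δ := by
  refine ⟨fun x Φ hΦ => (xT_mono fun t => ?_).trans (hS.near x Φ hΦ), fun x Φ hΦ =>
    (Rec8.sw_mono h fun _ _ => le_rfl).trans (hS.free x Φ hΦ)⟩
  exact Rec8.sw_mono (fun g hg => ⟨h hg.1, hg.2⟩) fun _ _ => le_rfl

lemma SmS_le {k : ℕ} {δ δ' : ℝ} (h : δ ≤ δ') (hS : SmS S Ψ y Dm k δ) : SmS S Ψ y Dm k δ' := by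
  have hU := (Ub_pos k).le
  exact ⟨fun x Φ hΦ => (hS.near x Φ hΦ).trans (mul_le_mul_left (ENNReal.ofReal_le_ofReal h) _), fun x Φ hΦ =>
    (hS.free x Φ hΦ).trans (mul_le_mul_left (ENNReal.ofReal_le_ofReal (mul_le_mul_of_nonneg_right h hU)) _)⟩

/-- all leaves are a class -/
lemma AllG.sms {k N : ℕ} {Q : ℝ} (h : AllG Ψ y Dm k N Q) : SmS (BrR (2 ^ (k + 4)) N) Ψ y Dm k Q := ⟨h.near, h.free⟩

/-- two classes -/
lemma SmS_union {S S' : Set (List Bool)} {k : ℕ} {δ δ' : ℝ} (hδ : 0 ≤ δ) (hδ' : 0 ≤ δ') (h : SmS S Ψ y Dm k δ)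
    (h' : SmS S' Ψ y Dm k δ') : SmS (S ∪ S') Ψ y Dm k (δ + δ') := by
  have hU := (Ub_pos k).le
  refine ⟨fun x Φ hΦ => ?_, fun x Φ hΦ => ?_⟩
  · refine (xT_mono (Ψ := fun t => vA (2 ^ (k + 4)) S Φ t + vA (2 ^ (k + 4)) S' Φ t) fun t => ?_).trans
      ((xT_add _ _ _ _).trans ?_)
    · refine TN5b_sw_union ?_ Φ
      rintro g ⟨h1 | h1, h2⟩
      · exact Or.inl ⟨h1, h2⟩
      · exact Or.inr ⟨h1, h2⟩
    · rw [ENNReal.ofReal_add hδ hδ', add_mul]
      exact add_le_add (h.near x Φ hΦ) (h'.near x Φ hΦ)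
  · refine (TN5b_sw_union (fun g hg => hg) _).trans ?_
    rw [add_mul, ENNReal.ofReal_add (mul_nonneg hδ hU) (mul_nonneg hδ' hU), add_mul]
    exact add_le_add (h.free x Φ hΦ) (h'.free x Φ hΦ)

/-- the sum over the next n leaves, then the functional Φ0 of the last leaf -/
noncomputable def AA (Φ0 : List Bool → ℝ≥0∞) (D N : ℕ) : ℕ → List Bool → ℝ≥0∞
  | 0 => Φ0
  | n + 1 => vA D (BrR D N) (AA Φ0 D N n)

/-- the same, one of the n leaves in S -/
noncomputable def SS (Φ0 : List Bool → ℝ≥0∞) (D N : ℕ) (S : Set (List Bool)) : ℕ → List Bool → ℝ≥0∞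
  | 0 => fun _ => 0
  | n + 1 => fun t => vA D S (AA Φ0 D N n) t + vA D (BrR D N) (SS Φ0 D N S n) t

lemma herD_AA {D : ℕ} (hD : 1 ≤ D) (N n : ℕ) : HerD D (AA Φ0 D N (n + 1)) := NTm.herD_vA hD _ _

lemma herD_SS {D : ℕ} (hD : 1 ≤ D) (N : ℕ) (S : Set (List Bool)) (n : ℕ) : HerD D (SS Φ0 D N S n) := by
  cases n with
  | zero => exact ⟨fun _ _ _ => le_rfl, fun _ _ _ _ => le_rfl⟩
  | succ n =>
    exact ⟨fun s hs t => add_le_add ((NTm.herD_vA hD S _).her s hs t) ((NTm.herD_vA hD _ _).her s hs t),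
      fun s t h1 h2 => add_le_add ((NTm.herD_vA hD S _).suf s t h1 h2) ((NTm.herD_vA hD _ _).suf s t h1 h2)⟩

lemma Dm_AA {k N : ℕ} {Q : ℝ} (hQ : 1 ≤ Q) (h : AllG Ψ y Dm k N Q) {x : ℝ≥0∞} (hx : Dm x Φ0) (n : ℕ) :
    ∃ x' : ℝ≥0∞, x' ≤ ENNReal.ofReal (Q ^ n) * x ∧ Dm x' (AA Φ0 (2 ^ (k + 4)) N n) := by
  induction n with
  | zero =>
    refine ⟨x, ?_, hx⟩
    rw [pow_zero, ENNReal.ofReal_one, one_mul]
  | succ n ih =>
    obtain ⟨x', h1, h2⟩ := ih
    refine ⟨xT (2 ^ (k + 4)) k (AA Φ0 (2 ^ (k + 4)) N (n + 1)), ?_, h.dm _ (herD_AA Nat.one_le_two_pow N n)⟩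
    refine (h.near x' _ h2).trans ((mul_le_mul_right h1 _).trans ?_)
    rw [← mul_assoc, ← ENNReal.ofReal_mul (by linarith), pow_succ, mul_comm (Q ^ n)]

lemma xT_SS {k N : ℕ} {Q δ : ℝ} (hQ : 1 ≤ Q) (hδ : 0 ≤ δ) (h : AllG Ψ y Dm k N Q) (hS : SmS S Ψ y Dm k δ) {x : ℝ≥0∞}
    (hx : Dm x Φ0) (n : ℕ) :
    xT (2 ^ (k + 4)) k (SS Φ0 (2 ^ (k + 4)) N S n) ≤ ENNReal.ofReal (n * (δ * Q ^ n)) * x := by
  have hQ0 : 0 ≤ Q := by linarith
  induction n with
  | zero =>
    refine xT_le fun b I _ _ => ?_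
    show Rec8.sw (Fld.BrB b) (fun M => (0 : ℝ≥0∞)) ≤ _
    rw [Rec8.sw_zero]
    exact zero_le
  | succ n ih =>
    refine (xT_add _ _ _ _).trans ?_
    obtain ⟨x', hx1, hx2⟩ := Dm_AA hQ h hx n
    have h1 := (hS.near x' _ hx2).trans (mul_le_mul_right hx1 _)
    have h2 := (h.near _ _ (h.dm _ (herD_SS Nat.one_le_two_pow N S n))).trans (mul_le_mul_right ih _)
    refine (add_le_add h1 h2).trans ?_
    rw [← mul_assoc, ← mul_assoc, ← add_mul, ← ENNReal.ofReal_mul hδ, ← ENNReal.ofReal_mul hQ0,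
      ← ENNReal.ofReal_add (by positivity) (by positivity)]
    refine mul_le_mul_left (ENNReal.ofReal_le_ofReal ?_) x
    have h3 : Q ^ n ≤ Q ^ (n + 1) := pow_le_pow_right₀ hQ (Nat.le_succ n)
    push_cast
    calc δ * Q ^ n + Q * (↑n * (δ * Q ^ n)) = δ * Q ^ n + n * (δ * Q ^ (n + 1)) := by ring
      _ ≤ δ * Q ^ (n + 1) + n * (δ * Q ^ (n + 1)) := by gcongr
      _ = _ := by ring

open Classical in
/-- chains behind the leaf g -/
noncomputable def TA (Φ0 : List Bool → ℝ≥0∞) (D N n : ℕ) (g : List Bool) : ℝ≥0∞ :=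
  ∑' gs : List (List Bool), if gs.length = n ∧ (g :: gs).IsChain LFold ∧ ∀ u ∈ gs, u ∈ BrR D N then
    SDN.wl gs * Φ0 (gs.getLastD g) else 0

open Classical in
/-- chains behind the leaf g with a leaf in S -/
noncomputable def TSs (Φ0 : List Bool → ℝ≥0∞) (D N : ℕ) (S : Set (List Bool)) (n : ℕ) (g : List Bool) : ℝ≥0∞ :=
  ∑' gs : List (List Bool), if gs.length = n ∧ (g :: gs).IsChain LFold ∧ (∀ u ∈ gs, u ∈ BrR D N) ∧ (∃ u ∈ gs, u ∈ S)
    then SDN.wl gs * Φ0 (gs.getLastD g) else 0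

lemma TA_le (D N n : ℕ) : ∀ g ∈ HB D, TA Φ0 D N n g ≤ AA Φ0 D N n g := by
  classical
  induction n with
  | zero =>
    intro g _
    unfold TA
    rw [tsum_eq_single []]
    · split_ifs
      · rw [NTm.wl_nil, one_mul]
        exact le_rfl
      · exact zero_le
    · intro gs hgs
      rw [if_neg]
      rintro ⟨h, -⟩
      exact hgs (List.length_eq_zero_iff.1 h)
  | succ n ih =>
    intro g hg
    unfold TA
    refine (CCh.tsum_list _ ?_).trans ?_
    · rw [if_neg]
      rintro ⟨h, -⟩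
      simp at h
    · show _ ≤ Rec8.sw {g' | g' ∈ BrR D N ∧ RT D LFold g g'} (AA Φ0 D N n)
      rw [Rec8.sw_ind]
      refine ENNReal.tsum_le_tsum fun g' => ?_
      by_cases h2 : g' ∈ BrR D N ∧ LFold g g'
      · have h3 : g' ∈ {g' | g' ∈ BrR D N ∧ RT D LFold g g'} := ⟨h2.1, RT_of hg h2.2⟩
        rw [if_pos h3]
        have hg' : g' ∈ HB D := by
          obtain ⟨h, a1, a2, a3⟩ := h2.1
          exact ⟨h, a1, a3⟩
        refine le_trans ?_ (mul_le_mul_right (ih g' hg') _)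
        unfold TA
        rw [← ENNReal.tsum_mul_left]
        refine ENNReal.tsum_le_tsum fun gs => ?_
        by_cases h5 : (g' :: gs).length = n + 1 ∧ (g :: g' :: gs).IsChain LFold ∧ ∀ u ∈ g' :: gs, u ∈ BrR D N
        · rw [if_pos h5, if_pos, NTm.wl_cons, List.getLastD_cons, mul_assoc]
          refine ⟨?_, ?_, ?_⟩
          · have := h5.1
            rw [List.length_cons] at this
            omega
          · exact (List.isChain_cons_cons.1 h5.2.1).2
          · exact fun u hu => h5.2.2 u (List.mem_cons_of_mem _ hu)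
        · rw [if_neg h5]
          exact zero_le
      · have h3 : ∀ gs : List (List Bool), (if (g' :: gs).length = n + 1 ∧ (g :: g' :: gs).IsChain LFold ∧
            ∀ u ∈ g' :: gs, u ∈ BrR D N then SDN.wl (g' :: gs) * Φ0 ((g' :: gs).getLastD g) else 0) = 0 := by
          intro gs
          rw [if_neg]
          rintro ⟨-, h4, h5⟩
          exact h2 ⟨h5 g' List.mem_cons_self, (List.isChain_cons_cons.1 h4).1⟩
        rw [tsum_congr h3, tsum_zero]
        exact zero_le

lemma TSs_le (D N : ℕ) (S : Set (List Bool)) (n : ℕ) : ∀ g ∈ HB D, TSs Φ0 D N S n g ≤ SS Φ0 D N S n g := by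
  classical
  induction n with
  | zero =>
    intro g _
    unfold TSs
    rw [tsum_eq_single []]
    · rw [if_neg]
      · exact zero_le
      · rintro ⟨-, -, -, u, hu, -⟩
        simp at hu
    · intro gs hgs
      rw [if_neg]
      rintro ⟨h, -⟩
      exact hgs (List.length_eq_zero_iff.1 h)
  | succ n ih =>
    intro g hg
    unfold TSs
    refine (CCh.tsum_list _ ?_).trans ?_
    · rw [if_neg]
      rintro ⟨h, -⟩
      simp at h
    · show _ ≤ Rec8.sw {g' | g' ∈ S ∧ RT D LFold g g'} (AA Φ0 D N n) +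
        Rec8.sw {g' | g' ∈ BrR D N ∧ RT D LFold g g'} (SS Φ0 D N S n)
      rw [Rec8.sw_ind, Rec8.sw_ind, ← ENNReal.tsum_add]
      refine ENNReal.tsum_le_tsum fun g' => ?_
      by_cases h2 : g' ∈ BrR D N ∧ LFold g g'
      · have h3 : g' ∈ {g' | g' ∈ BrR D N ∧ RT D LFold g g'} := ⟨h2.1, RT_of hg h2.2⟩
        have hg' : g' ∈ HB D := by
          obtain ⟨h, a1, a2, a3⟩ := h2.1
          exact ⟨h, a1, a3⟩
        by_cases hS : g' ∈ S
        · refine le_trans ?_ le_self_add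
          rw [if_pos (show g' ∈ {g' | g' ∈ S ∧ RT D LFold g g'} from ⟨hS, RT_of hg h2.2⟩)]
          refine le_trans ?_ (mul_le_mul_right (TA_le D N n g' hg') _)
          unfold TA
          rw [← ENNReal.tsum_mul_left]
          refine ENNReal.tsum_le_tsum fun gs => ?_
          split_ifs with h5 h6
          · rw [NTm.wl_cons, List.getLastD_cons, mul_assoc]
          · exfalso
            apply h6
            refine ⟨?_, ?_, ?_⟩
            · have := h5.1
              rw [List.length_cons] at this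
              omega
            · exact (List.isChain_cons_cons.1 h5.2.1).2
            · exact fun u hu => h5.2.2.1 u (List.mem_cons_of_mem _ hu)
          · exact zero_le
          · exact zero_le
        · refine le_trans ?_ le_add_self
          rw [if_pos h3]
          refine le_trans ?_ (mul_le_mul_right (ih g' hg') _)
          unfold TSs
          rw [← ENNReal.tsum_mul_left]
          refine ENNReal.tsum_le_tsum fun gs => ?_
          split_ifs with h5 h6
          · rw [NTm.wl_cons, List.getLastD_cons, mul_assoc]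
          · exfalso
            apply h6
            refine ⟨?_, ?_, ?_, ?_⟩
            · have := h5.1
              rw [List.length_cons] at this
              omega
            · exact (List.isChain_cons_cons.1 h5.2.1).2
            · exact fun u hu => h5.2.2.1 u (List.mem_cons_of_mem _ hu)
            · obtain ⟨u, hu, huS⟩ := h5.2.2.2
              rw [List.mem_cons] at hu
              rcases hu with rfl | hu
              · exact absurd huS hS
              · exact ⟨u, hu, huS⟩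
          · exact zero_le
          · exact zero_le
      · have h3 : ∀ gs : List (List Bool), (if (g' :: gs).length = n + 1 ∧ (g :: g' :: gs).IsChain LFold ∧
            (∀ u ∈ g' :: gs, u ∈ BrR D N) ∧ (∃ u ∈ g' :: gs, u ∈ S) then
            SDN.wl (g' :: gs) * Φ0 ((g' :: gs).getLastD g) else 0) = 0 := by
          intro gs
          rw [if_neg]
          rintro ⟨-, h4, h5, -⟩
          exact h2 ⟨h5 g' List.mem_cons_self, (List.isChain_cons_cons.1 h4).1⟩
        rw [tsum_congr h3, tsum_zero]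
        exact zero_le

open Classical in
/-- all chains of n + 1 leaves, with the two end functionals -/
theorem chain_A {k N : ℕ} {Q : ℝ} (hQ : 1 ≤ Q) (h : AllG Ψ y Dm k N Q) {x : ℝ≥0∞} (hx : Dm x Φ0) (n : ℕ) :
    ∑' gs : List (List Bool), (if gs.length = n + 1 ∧ gs.IsChain LFold ∧ (∀ g ∈ gs, g ∈ BrR (2 ^ (k + 4)) N) then
      SDN.wl gs * (Ψ (rev (gs.headD [])) * Φ0 (gs.getLastD [])) else 0) ≤
      ENNReal.ofReal (Q ^ (n + 1) * Ub k) * (y * x) := by
  obtain ⟨D, hD⟩ : ∃ D, D = 2 ^ (k + 4) := ⟨_, rfl⟩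
  have hQ0 : 0 ≤ Q := by linarith
  have hU := (Ub_pos k).le
  obtain ⟨x', hx1, hx2⟩ := Dm_AA hQ h hx n
  have hfree := (h.free x' _ hx2).trans (mul_le_mul_right (mul_le_mul_right hx1 y) _)
  have e : ENNReal.ofReal (Q * Ub k) * (y * (ENNReal.ofReal (Q ^ n) * x)) = ENNReal.ofReal (Q ^ (n + 1) * Ub k) * (y * x) := by
    rw [show y * (ENNReal.ofReal (Q ^ n) * x) = ENNReal.ofReal (Q ^ n) * (y * x) by ring, ← mul_assoc,
      ← ENNReal.ofReal_mul (by positivity)]
    congr 2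
    ring
  rw [e] at hfree
  refine le_trans ?_ hfree
  rw [← hD]
  refine (CCh.tsum_list _ ?_).trans ?_
  · rw [if_neg]
    rintro ⟨h, -⟩
    simp at h
  · rw [Rec8.sw_ind]
    refine ENNReal.tsum_le_tsum fun g' => ?_
    by_cases h2 : g' ∈ BrR D N
    · have hg' : g' ∈ HB D := by
        obtain ⟨h, a1, a2, a3⟩ := h2
        exact ⟨h, a1, a3⟩
      rw [if_pos h2]
      refine le_trans ?_ (mul_le_mul_right (mul_le_mul_right (TA_le D N n g' hg') _) _)
      unfold TA
      rw [← ENNReal.tsum_mul_left, ← ENNReal.tsum_mul_left]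
      refine ENNReal.tsum_le_tsum fun gs => ?_
      split_ifs with h5 h6
      · rw [NTm.wl_cons, List.getLastD_cons]
        show wE g' * SDN.wl gs * (Ψ (rev g') * Φ0 (gs.getLastD g')) ≤ _
        exact le_of_eq (by ring)
      · exfalso
        apply h6
        refine ⟨?_, h5.2.1, ?_⟩
        · have := h5.1
          rw [List.length_cons] at this
          omega
        · exact fun u hu => h5.2.2 u (List.mem_cons_of_mem _ hu)
      · exact zero_le
      · exact zero_le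
    · have h3 : ∀ gs : List (List Bool), (if (g' :: gs).length = n + 1 ∧ (g' :: gs).IsChain LFold ∧
          (∀ u ∈ g' :: gs, u ∈ BrR D N) then
          SDN.wl (g' :: gs) * (Ψ (rev ((g' :: gs).headD [])) * Φ0 ((g' :: gs).getLastD [])) else 0) = 0 := by
        intro gs
        rw [if_neg]
        rintro ⟨-, -, h5⟩
        exact h2 (h5 g' List.mem_cons_self)
      rw [tsum_congr h3, tsum_zero]
      exact zero_le

open Classical in
/-- the chains of n + 1 leaves with a leaf in S, with the two end functionals -/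
theorem chain_S {k N : ℕ} {Q δ : ℝ} (hQ : 1 ≤ Q) (hδ : 0 ≤ δ) (h : AllG Ψ y Dm k N Q) (hS : SmS S Ψ y Dm k δ) {x : ℝ≥0∞}
    (hx : Dm x Φ0) (n : ℕ) :
    ∑' gs : List (List Bool), (if gs.length = n + 1 ∧ gs.IsChain LFold ∧ (∀ g ∈ gs, g ∈ BrR (2 ^ (k + 4)) N) ∧
      (∃ g ∈ gs, g ∈ S) then SDN.wl gs * (Ψ (rev (gs.headD [])) * Φ0 (gs.getLastD [])) else 0) ≤
      ENNReal.ofReal ((n + 1) * (δ * Q ^ (n + 1)) * Ub k) * (y * x) := by
  obtain ⟨D, hD⟩ : ∃ D, D = 2 ^ (k + 4) := ⟨_, rfl⟩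
  have hQ0 : 0 ≤ Q := by linarith
  have hU := (Ub_pos k).le
  obtain ⟨x', hx1, hx2⟩ := Dm_AA hQ h hx n
  have hf1 := (hS.free x' _ hx2).trans (mul_le_mul_right (mul_le_mul_right hx1 y) _)
  have hf2 := (h.free _ _ (h.dm _ (herD_SS (Φ0 := Φ0) Nat.one_le_two_pow N S n))).trans
    (mul_le_mul_right (mul_le_mul_right (xT_SS hQ hδ h hS hx n) y) _)
  have e : ENNReal.ofReal (δ * Ub k) * (y * (ENNReal.ofReal (Q ^ n) * x)) +
      ENNReal.ofReal (Q * Ub k) * (y * (ENNReal.ofReal (n * (δ * Q ^ n)) * x)) ≤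
      ENNReal.ofReal ((n + 1) * (δ * Q ^ (n + 1)) * Ub k) * (y * x) := by
    have e1 : ENNReal.ofReal (δ * Ub k) * (y * (ENNReal.ofReal (Q ^ n) * x)) =
        ENNReal.ofReal (δ * Ub k * Q ^ n) * (y * x) := by
      rw [ENNReal.ofReal_mul (by positivity : (0 : ℝ) ≤ δ * Ub k)]
      ring
    have e2 : ENNReal.ofReal (Q * Ub k) * (y * (ENNReal.ofReal (n * (δ * Q ^ n)) * x)) =
        ENNReal.ofReal (Q * Ub k * (n * (δ * Q ^ n))) * (y * x) := by
      rw [ENNReal.ofReal_mul (by positivity : (0 : ℝ) ≤ Q * Ub k)]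
      ring
    rw [e1, e2, ← add_mul, ← ENNReal.ofReal_add (by positivity) (by positivity)]
    refine mul_le_mul_left (ENNReal.ofReal_le_ofReal ?_) _
    have h3 : Q ^ n ≤ Q ^ (n + 1) := pow_le_pow_right₀ hQ (Nat.le_succ n)
    calc δ * Ub k * Q ^ n + Q * Ub k * (n * (δ * Q ^ n)) = δ * Q ^ n * Ub k + n * (δ * Q ^ (n + 1)) * Ub k := by ring
      _ ≤ δ * Q ^ (n + 1) * Ub k + n * (δ * Q ^ (n + 1)) * Ub k := by gcongr
      _ = _ := by ring
  refine le_trans ?_ ((add_le_add hf1 hf2).trans e)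
  rw [← hD]
  refine (CCh.tsum_list _ ?_).trans ?_
  · rw [if_neg]
    rintro ⟨h, -⟩
    simp at h
  · rw [Rec8.sw_ind, Rec8.sw_ind, ← ENNReal.tsum_add]
    refine ENNReal.tsum_le_tsum fun g' => ?_
    by_cases h2 : g' ∈ BrR D N
    · have hg' : g' ∈ HB D := by
        obtain ⟨h, a1, a2, a3⟩ := h2
        exact ⟨h, a1, a3⟩
      by_cases hS : g' ∈ S
      · refine le_trans ?_ le_self_add
        rw [if_pos hS]
        refine le_trans ?_ (mul_le_mul_right (mul_le_mul_right (TA_le D N n g' hg') _) _)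
        unfold TA
        rw [← ENNReal.tsum_mul_left, ← ENNReal.tsum_mul_left]
        refine ENNReal.tsum_le_tsum fun gs => ?_
        split_ifs with h5 h6
        · rw [NTm.wl_cons, List.getLastD_cons]
          show wE g' * SDN.wl gs * (Ψ (rev g') * Φ0 (gs.getLastD g')) ≤ _
          exact le_of_eq (by ring)
        · exfalso
          apply h6
          refine ⟨?_, h5.2.1, ?_⟩
          · have := h5.1
            rw [List.length_cons] at this
            omega
          · exact fun u hu => h5.2.2.1 u (List.mem_cons_of_mem _ hu)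
        · exact zero_le
        · exact zero_le
      · refine le_trans ?_ le_add_self
        rw [if_pos h2]
        refine le_trans ?_ (mul_le_mul_right (mul_le_mul_right (TSs_le D N S n g' hg') _) _)
        unfold TSs
        rw [← ENNReal.tsum_mul_left, ← ENNReal.tsum_mul_left]
        refine ENNReal.tsum_le_tsum fun gs => ?_
        split_ifs with h5 h6
        · rw [NTm.wl_cons, List.getLastD_cons]
          show wE g' * SDN.wl gs * (Ψ (rev g') * Φ0 (gs.getLastD g')) ≤ _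
          exact le_of_eq (by ring)
        · exfalso
          apply h6
          refine ⟨?_, h5.2.1, ?_, ?_⟩
          · have := h5.1
            rw [List.length_cons] at this
            omega
          · exact fun u hu => h5.2.2.1 u (List.mem_cons_of_mem _ hu)
          · obtain ⟨u, hu, huS⟩ := h5.2.2.2
            rw [List.mem_cons] at hu
            rcases hu with rfl | hu
            · exact absurd huS hS
            · exact ⟨u, hu, huS⟩
        · exact zero_le
        · exact zero_le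
    · have h3 : ∀ gs : List (List Bool), (if (g' :: gs).length = n + 1 ∧ (g' :: gs).IsChain LFold ∧
          (∀ u ∈ g' :: gs, u ∈ BrR D N) ∧ (∃ u ∈ g' :: gs, u ∈ S) then
          SDN.wl (g' :: gs) * (Ψ (rev ((g' :: gs).headD [])) * Φ0 ((g' :: gs).getLastD [])) else 0) = 0 := by
        intro gs
        rw [if_neg]
        rintro ⟨-, -, h5, -⟩
        exact h2 (h5 g' List.mem_cons_self)
      rw [tsum_congr h3, tsum_zero]
      exact zero_le

end TS2

end NTW

end HexObs
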