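import Pool.Agent.NTW.EndF
import Pool.Agent.NTW.DomT
import Pool.Agent.NTW.RepDefs
import Pool.Agent.BAR.Front
import Pool.Agent.Tight.Extremes

/-!
NTW: critical weight of the walks with at most lam letters in a strip of 2^j rows (ext), from the pivot leaf, the two sided
sum and the whole end functional.
-/

set_option autoImplicit false

namespace HexObs

namespace NTW

open Finset TS SDN

open scoped ENNReal

open Rec8 (mb)

variable {C δ : ℝ}

/-- the statement cover_two -/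
def CoverTwo : Prop := ∃ K : ℝ, 1 ≤ K ∧ ∀ (A : Set (List Bool)) (N0 N1 lam : ℕ) (𝒬 : List (List Bool) → Prop),
  (∀ t ∈ A, t ∈ SAL lam ∧ ∃ (m u : ℕ) (e : ℕ → ℕ), 1 ≤ m ∧ FoldG t m u e ∧
    (∀ i, i < e 0 → Tight.sg u (lev t i) - Tight.sg u (lev t (e 0)) ≤ 3 * N0) ∧
    (∀ i, e m < i → i ≤ t.length → Tight.sg (u + (m - 1)) (lev t (e m)) - Tight.sg (u + (m - 1)) (lev t i) ≤ 3 * N1) ∧
    ∀ gs, RepG t m u e gs → 𝒬 gs) →
  gf A ≤ ENNReal.ofReal K * ∑' gs : List (List Bool), open Classical in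
    if gs ≠ [] ∧ gs.IsChain LFold ∧ (∀ g ∈ gs, ∃ k : ℕ, 1 ≤ k ∧ g ∈ Brd k) ∧ 𝒬 gs then
      SDN.wl gs * (EE0 N0 lam (rev (gs.headD [])) * EE0 N1 lam (gs.getLastD [])) else 0

/-- the statement pivot_ex -/
def PivotEx : Prop := ∀ t : List Bool, t ∈ SA → (∃ i i', i ≤ t.length ∧ i' ≤ t.length ∧ 4 ≤ lev t i - lev t i') →
  ∃ (u : ℕ) (e : ℕ → ℕ), FoldG t 1 u e ∧ (∀ i, i ≤ t.length →
    Tight.sg u (lev t (e 0)) ≤ Tight.sg u (lev t i) ∧ Tight.sg u (lev t i) ≤ Tight.sg u (lev t (e 1)))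

/-- the vertical range of t is at most r -/
def Rng (r : ℤ) (t : List Bool) : Prop := ∀ i i', i ≤ t.length → i' ≤ t.length → lev t i - lev t i' ≤ r

namespace EX

lemma step2 (t : List Bool) (i : ℕ) : |lev t (i + 1) - lev t i| ≤ 2 := by
  rw [lev_succ]
  have h1 : ∀ d ∈ dirs, |ip d up| ≤ 2 := by decide
  have h2 := h1 _ (dx_mem upd t i)
  have e : lev t i + ip (dx up t i) up - lev t i = ip (dx up t i) up := by ring
  rw [e]
  exact h2

lemma near2 (t : List Bool) {a b : ℕ} (h1 : a ≤ b) (n : ℕ) (h2 : b ≤ a + n) : |lev t b - lev t a| ≤ 2 * n := by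
  induction n generalizing b with
  | zero =>
    have : b = a := by omega
    rw [this, sub_self, abs_zero]
    norm_num
  | succ n ih =>
    rcases Nat.lt_or_ge (a + n) b with h | h
    · obtain ⟨c, rfl⟩ : ∃ c, b = c + 1 := ⟨b - 1, by omega⟩
      have h3 := ih (b := c) (by omega) (by omega)
      have h4 := step2 t c
      rw [abs_le] at h3 h4 ⊢
      push_cast
      constructor <;> linarith
    · have h3 := ih h1 h
      push_cast
      linarith

lemma sg_sub (u : ℕ) (x y : ℤ) : Tight.sg u (x - y) = Tight.sg u x - Tight.sg u y := by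
  unfold Tight.sg
  split_ifs <;> ring

lemma sg_abs (u : ℕ) (x : ℤ) : |Tight.sg u x| = |x| := by
  unfold Tight.sg
  split_ifs
  · exact abs_neg x
  · rfl

/-- the height of the only leaf -/
lemma pivot_hgt {t : List Bool} {u : ℕ} {e : ℕ → ℕ} {gs : List (List Bool)} (hR : RepG t 1 u e gs) :
    ∃ (g : List Bool) (h : ℕ), gs = [g] ∧ g ∈ Brd h ∧
      |3 * (h : ℤ) - (Tight.sg u (lev t (e 1)) - Tight.sg u (lev t (e 0)))| ≤ 8 := by
  obtain ⟨g, rfl⟩ : ∃ g, gs = [g] := List.length_eq_one_iff.1 hR.len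
  obtain ⟨h, hh, hg⟩ := hR.brd g (by simp)
  refine ⟨g, h, rfl, hg, ?_⟩
  obtain ⟨s, s1, s2, s3, s4, s5⟩ := hR.pos 0 (by simp)
  simp only [List.getElem_cons_zero] at s3 s4 s5
  have hlen := brd_len' hg
  have h1 := s5 g.length (by omega) le_rfl
  rw [(mem_Brd.1 hg).2.2.2, add_zero, sg_sub] at h1
  have h2 := near2 g (a := 0) (b := 1) (by omega) 1 (by omega)
  rw [lev_zero, sub_zero] at h2
  have h3 : |lev t (e 1) - lev t (s + g.length)| ≤ 2 * (1 : ℕ) := near2 t s3 1 s4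
  have h4 : |lev t (s + 1) - lev t (e 0)| ≤ 2 * (2 : ℕ) := near2 t s1 2 (by omega)
  have h5 := sg_abs u (lev t (e 1) - lev t (s + g.length))
  have h6 := sg_abs u (lev t (s + 1) - lev t (e 0))
  rw [sg_sub] at h5 h6
  rw [← h5] at h3
  rw [← h6] at h4
  rw [abs_le] at h2 h3 h4 ⊢
  push_cast at h2 h3 h4
  constructor <;> linarith

open Classical in
/-- the chains with one leaf -/
lemma tsum_one (S : Set (List Bool)) (F : List Bool → ℝ≥0∞) (G : List (List Bool) → ℝ≥0∞)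
    (h1 : ∀ gs, G gs = 0 ∨ ∃ g ∈ S, gs = [g] ∧ G gs ≤ wE g * F g) :
    ∑' gs : List (List Bool), G gs ≤ Rec8.sw S F := by
  rw [Rec8.sw_ind]
  calc ∑' gs : List (List Bool), G gs
      ≤ ∑' gs : List (List Bool), ∑' g : List Bool, (if gs = [g] then (if g ∈ S then wE g * F g else 0) else 0) := by
        refine ENNReal.tsum_le_tsum fun gs => ?_
        rcases h1 gs with hQ | ⟨g, hg, rfl, h2⟩
        · rw [hQ]
          exact zero_le
        · refine h2.trans ?_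
          refine le_trans (le_of_eq ?_) (ENNReal.le_tsum g)
          rw [if_pos rfl, if_pos hg]
    _ = ∑' g : List Bool, ∑' gs : List (List Bool), (if gs = [g] then (if g ∈ S then wE g * F g else 0) else 0) :=
        ENNReal.tsum_comm
    _ = _ := by
        refine tsum_congr fun g => ?_
        rw [tsum_ite_eq]

/-- words of a small vertical range -/
lemma Rng_Ext {m : ℕ} {r : ℤ} (hr : r + 5 ≤ 3 * m) {t : List Bool} (h : Rng r t) : BAR.Ext m t := by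
  obtain ⟨i0, hi0, hmin⟩ := Finset.exists_min_image (Finset.range (t.length + 1)) (fun i => lev t i)
    ⟨0, by rw [Finset.mem_range]; omega⟩
  rw [Finset.mem_range] at hi0
  refine ⟨lev t i0 / 3 - 1, fun i h1 h2 => ?_⟩
  have h3 := hmin i (by rw [Finset.mem_range]; omega)
  have h4 := h i i0 h2 (by omega)
  constructor <;> omega

lemma Chi_fin (m : ℕ) : BAR.Chi m ≠ ⊤ := by
  have h1 : BAR.PP m ≤ BAR.HH m * BAR.HH m := by
    unfold BAR.PP
    rw [g2_left]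
    calc _ ≤ ∑' s : {s : List Bool // s ∈ SSt m}, wE s.1 * BAR.HH m := by
          refine ENNReal.tsum_le_tsum fun s => mul_le_mul_right (gf_mono fun t ht => ?_) _
          exact ht.1
      _ = _ := by
          rw [ENNReal.tsum_mul_right]
          rfl
  refine ne_top_of_le_ne_top ?_ (BAR.Chi_le m)
  refine ENNReal.mul_ne_top (by norm_num) (ENNReal.add_ne_top.2 ⟨PLW.gf_SSt_fin m, ne_top_of_le_ne_top ?_ h1⟩)
  exact ENNReal.mul_ne_top (PLW.gf_SSt_fin m) (PLW.gf_SSt_fin m)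

/-- a free end against the end functional -/
lemma EE0_le {D N lam : ℕ} {g : List Bool} (hg : g ∈ HB D) : EE0 N lam g ≤ 1 + ENl D N (lam + 20) g :=
  add_le_add le_rfl (GLl_le_ENl (m := N) le_rfl hg)

lemma Brd_HB {D E N : ℕ} (h : D ≤ E) {g : List Bool} (hg : g ∈ BrR E N) : g ∈ HB D ∧ rev g ∈ HB D := by
  obtain ⟨n, h1, -, h3⟩ := hg
  exact ⟨⟨n, h.trans h1, h3⟩, ⟨n, h.trans h1, Brd_rev h3⟩⟩

end EX

open EX in
/-- one dyadic range -/
theorem ext_blk (hA : SsA) (hD : SsD) (hC : CoverTwo) (hP : PivotEx) : ∃ K : ℝ, 1 ≤ K ∧ ∀ i lam lam' : ℕ, 6 ≤ i →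
    QL (i - 1) lam' → gf {t | t ∈ SAL lam ∧ Rng (3 * 2 ^ (i + 1)) t ∧ ¬ Rng (3 * 2 ^ i) t} ≤
      ENNReal.ofReal (K * Ub (i + 2)) * bl (lam + lam' + 32) (i + 1) ^ 2 := by
  obtain ⟨Kc, hKc, hC⟩ := hC
  obtain ⟨Ke, hKe, hE⟩ := dom_end
  obtain ⟨K2, hK2, h2⟩ := two2_of hA hD
  refine ⟨Kc * (K2 * (Ke * Ke)), one_le_mul_of_one_le_of_one_le hKc (one_le_mul_of_one_le_of_one_le hK2
    (one_le_mul_of_one_le_of_one_le hKe hKe)), fun i lam lam' hi hQ => ?_⟩
  classical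
  have e1 : i - 1 + 2 = i + 1 := by omega
  have hp0 : 2 ^ i = 2 * 2 ^ (i - 1) := by
    rw [← pow_succ']
    congr 1
    omega
  have hp1 : 2 ^ (i + 1) = 2 * 2 ^ i := by ring
  have hp2 : 2 ^ (i + 2) = 4 * 2 ^ i := by ring
  have hp6 : 2 ^ 6 ≤ 2 ^ i := Nat.pow_le_pow_right (by norm_num) hi
  obtain ⟨S, hS⟩ : ∃ S : Set (List Bool), S = BrR (2 ^ (i - 1)) (2 ^ (i + 2)) := ⟨_, rfl⟩
  obtain ⟨Φ, hΦ⟩ : ∃ Φ : List Bool → ℝ≥0∞, Φ = fun t => 1 + ENl (2 ^ (i - 1)) (2 ^ (i + 1)) (lam + 20) t := ⟨_, rfl⟩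
  -- the cover
  have h1 := hC {t | t ∈ SAL lam ∧ Rng (3 * 2 ^ (i + 1)) t ∧ ¬ Rng (3 * 2 ^ i) t} (2 ^ (i + 1)) (2 ^ (i + 1)) lam
    (fun gs => ∃ g ∈ S, gs = [g]) ?_
  · refine h1.trans ?_
    have h3 : (∑' gs : List (List Bool), if gs ≠ [] ∧ gs.IsChain LFold ∧ (∀ g ∈ gs, ∃ k : ℕ, 1 ≤ k ∧ g ∈ Brd k) ∧
        (∃ g ∈ S, gs = [g]) then SDN.wl gs * (EE0 (2 ^ (i + 1)) lam (rev (gs.headD [])) *
          EE0 (2 ^ (i + 1)) lam (gs.getLastD [])) else 0) ≤ Rec8.sw S (fun g => Φ (rev g) * Φ g) := by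
      refine tsum_one S _ _ fun gs => ?_
      split_ifs with hgs
      swap
      · exact Or.inl rfl
      obtain ⟨-, -, -, g, hg, rfl⟩ := hgs
      refine Or.inr ⟨g, hg, rfl, ?_⟩
      have h4 : SDN.wl [g] = wE g := by
        unfold SDN.wl
        simp
      show SDN.wl [g] * (EE0 (2 ^ (i + 1)) lam (rev g) * EE0 (2 ^ (i + 1)) lam g) ≤ wE g * (Φ (rev g) * Φ g)
      rw [h4, hΦ]
      rw [hS] at hg
      have h5 := Brd_HB (D := 2 ^ (i - 1)) le_rfl hg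
      exact mul_le_mul_right (mul_le_mul' (EE0_le h5.2) (EE0_le h5.1)) _
    refine (mul_le_mul_right h3 _).trans ?_
    have hdom := hE (i - 1) (2 ^ (i + 1)) (lam + 20) lam' (by omega) (by omega) (by rw [e1]) hQ
    rw [← hΦ, e1] at hdom
    have h6 := h2 (i - 1 - 4) (i - 1 - 4) (2 ^ (i - 1)) (2 ^ (i + 2)) _ _ Φ Φ hdom hdom
      (Nat.pow_le_pow_right (by norm_num) (by omega)) (Nat.pow_le_pow_right (by norm_num) (by omega)) (by omega)
    rw [hS]
    refine (mul_le_mul_right h6 _).trans (le_of_eq ?_)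
    have e2 : lam + 20 + lam' + 12 = lam + lam' + 32 := by ring
    have hU : 0 ≤ UU (2 ^ (i + 2)) := (Num2Aux.UU_pos _).le
    rw [e2]
    show _ = ENNReal.ofReal (Kc * (K2 * (Ke * Ke)) * UU (2 ^ (i + 2))) * _
    rw [show Kc * (K2 * (Ke * Ke)) * UU (2 ^ (i + 2)) = Kc * (K2 * UU (2 ^ (i + 2)) * (Ke * Ke)) by ring,
      ENNReal.ofReal_mul (p := Kc) (by linarith), ENNReal.ofReal_mul (p := K2 * UU (2 ^ (i + 2))) (by positivity),
      ENNReal.ofReal_mul (p := Ke) (by linarith)]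
    ring
  · rintro t ⟨ht, hr1, hr2⟩
    refine ⟨ht, ?_⟩
    obtain ⟨i1, i2, hi1, hi2, hr3⟩ : ∃ i1 i2, i1 ≤ t.length ∧ i2 ≤ t.length ∧ 3 * 2 ^ i < lev t i1 - lev t i2 := by
      unfold Rng at hr2
      push Not at hr2
      obtain ⟨i1, i2, a, b, c⟩ := hr2
      exact ⟨i1, i2, a, b, c⟩
    have hz6 : (2 : ℤ) ^ 6 ≤ 2 ^ i := by exact_mod_cast hp6
    have hzi : (2 : ℤ) ^ i = 2 * 2 ^ (i - 1) := by exact_mod_cast hp0
    have hz1 : (2 : ℤ) ^ (i + 1) = 2 * 2 ^ i := by ring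
    have hz2 : (2 : ℤ) ^ (i + 2) = 4 * 2 ^ i := by ring
    obtain ⟨u, e, hF, hb⟩ := hP t ht.1 ⟨i1, i2, hi1, hi2, by omega⟩
    have he1 : e 1 ≤ t.length := hF.le
    have he0 : e 0 ≤ t.length := ((hF.lt 0 (by omega)).le).trans he1
    -- the height of the pivot
    obtain ⟨Δ, hΔ⟩ : ∃ Δ, Δ = Tight.sg u (lev t (e 1)) - Tight.sg u (lev t (e 0)) := ⟨_, rfl⟩
    have hΔ1 : Δ ≤ 3 * 2 ^ (i + 1) := by
      rw [hΔ, ← sg_sub]
      have h3 := hr1 (e 1) (e 0) he1 he0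
      have h4 := hr1 (e 0) (e 1) he0 he1
      unfold Tight.sg
      split_ifs <;> omega
    have hΔ2 : 3 * 2 ^ i < Δ := by
      rw [hΔ]
      have h3 := hb i1 hi1
      have h4 := hb i2 hi2
      have h5 : lev t i1 - lev t i2 ≤ |Tight.sg u (lev t i1) - Tight.sg u (lev t i2)| := by
        rw [← sg_sub, sg_abs]
        exact le_abs_self _
      rcases abs_cases (Tight.sg u (lev t i1) - Tight.sg u (lev t i2)) with h6 | h6
      · omega
      · omega
    refine ⟨1, u, e, le_rfl, hF, fun a ha => ?_, fun a ha1 ha2 => ?_, fun gs hgs => ?_⟩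
    · have h3 := hb a (by omega)
      push_cast
      omega
    · have h3 := hb a ha2
      show Tight.sg u (lev t (e 1)) - Tight.sg u (lev t a) ≤ _
      push_cast
      omega
    · obtain ⟨g, h, h3, h4, h5⟩ := pivot_hgt hgs
      refine ⟨g, ?_, h3⟩
      rw [hS]
      rw [← hΔ, abs_le] at h5
      have h6 : (2 : ℤ) ^ (i - 1) ≤ h := by omega
      have h7 : (h : ℤ) ≤ 2 ^ (i + 2) := by omega
      exact ⟨h, by exact_mod_cast h6, by exact_mod_cast h7, h4⟩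

open EX in
/-- **ext**: the walks with at most lam letters in a strip of 2^j rows -/
theorem ext_of (hA : SsA) (hD : SsD) (hC : CoverTwo) (hP : PivotEx) : ∃ K : ℝ, 1 ≤ K ∧ ∀ j lam lam' : ℕ, QL j lam' →
    gf {t | t ∈ SAL lam ∧ ∀ i i', i ≤ t.length → i' ≤ t.length → lev t i - lev t i' ≤ 3 * 2 ^ j} ≤
      ENNReal.ofReal (K * Ub j) * bl (lam + lam' + 32) j ^ 2 := by
  obtain ⟨K, hK, hblk⟩ := ext_blk hA hD hC hP
  obtain ⟨KU, hKU, hU⟩ := geo_Ub (η := 0) kap0_pos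
  obtain ⟨X, hX0, hX⟩ : ∃ X : ℝ, 0 ≤ X ∧ BAR.Chi 66 = ENNReal.ofReal X :=
    ⟨(BAR.Chi 66).toReal, ENNReal.toReal_nonneg, (ENNReal.ofReal_toReal (Chi_fin 66)).symm⟩
  have hKU0 : 0 < KU := by linarith
  have hK0 : 0 < K := by linarith
  refine ⟨4 * X + K * (KU * 2), by nlinarith, fun j lam lam' hQ => ?_⟩
  classical
  obtain ⟨B, hB⟩ : ∃ B, B = bl (lam + lam' + 32) j := ⟨_, rfl⟩
  have hUj := Ub_pos j
  have hU1 : 1 ≤ Ub j := by
    have h1 : UU 0 ≤ UU (2 ^ j) := Num2Aux.UU_mono (Nat.zero_le _)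
    have h2 : UU 0 = uu 0 := by
      unfold UU
      simp
    rw [h2, uu_zero] at h1
    exact h1
  -- 1 ≤ 2 B
  have hone : 1 ≤ 2 * B := by
    have h0 := hQ 0 (Nat.zero_le _)
    have h1 : gf {X | (∃ n, n ≤ 2 ^ 0 ∧ X ∈ Brd n) ∧ X.length ≤ lam'} ≤ HHl (2 ^ 0) (lam + lam' + 32) := by
      refine gf_mono fun W hW => ?_
      obtain ⟨⟨n, hn, hW1⟩, hW2⟩ := hW
      exact ⟨SSt_mo hn (BAR.Brd_SSt hW1), by omega⟩
    have hU0 : 0 < UU (2 ^ 0) := Num2Aux.UU_pos _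
    have h2 : HHl (2 ^ 0) (lam + lam' + 32) / ENNReal.ofReal (UU (2 ^ 0)) ≤ B := by
      rw [hB]
      exact le_bl _ (Nat.zero_le _)
    have h3 : ENNReal.ofReal (UU (2 ^ 0)) ≤ 2 * HHl (2 ^ 0) (lam + lam' + 32) := h0.trans (mul_le_mul_right h1 _)
    have hne : ENNReal.ofReal (UU (2 ^ 0)) ≠ 0 := (ENNReal.ofReal_pos.2 hU0).ne'
    calc (1 : ℝ≥0∞) = ENNReal.ofReal (UU (2 ^ 0)) / ENNReal.ofReal (UU (2 ^ 0)) :=
          (ENNReal.div_self hne ENNReal.ofReal_ne_top).symm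
      _ ≤ 2 * HHl (2 ^ 0) (lam + lam' + 32) / ENNReal.ofReal (UU (2 ^ 0)) := ENNReal.div_le_div_right h3 _
      _ = 2 * (HHl (2 ^ 0) (lam + lam' + 32) / ENNReal.ofReal (UU (2 ^ 0))) := by
          rw [mul_div_assoc]
      _ ≤ 2 * B := mul_le_mul_right h2 _
  -- dyadic ranges
  have hsub : {t | t ∈ SAL lam ∧ ∀ i i', i ≤ t.length → i' ≤ t.length → lev t i - lev t i' ≤ 3 * 2 ^ j} ⊆
      {t | Saw Set.univ oo up t ∧ BAR.Ext 66 t} ∪
      ⋃ i ∈ Ico 6 j, {t | t ∈ SAL lam ∧ Rng (3 * 2 ^ (i + 1)) t ∧ ¬ Rng (3 * 2 ^ i) t} := by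
    rintro t ⟨h1, h2⟩
    by_cases h3 : Rng (3 * 2 ^ 6) t
    · exact Or.inl ⟨h1.1, Rng_Ext (m := 66) (by norm_num) h3⟩
    right
    have hj6 : 6 < j := by
      by_contra hc
      apply h3
      intro i i' hi hi'
      refine (h2 i i' hi hi').trans ?_
      have : (2 : ℤ) ^ j ≤ 2 ^ 6 := pow_le_pow_right₀ (by norm_num) (by omega)
      linarith
    have hex : ∃ i, Rng (3 * 2 ^ (6 + i)) t := ⟨j - 6, by
      rw [show 6 + (j - 6) = j by omega]
      exact h2⟩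
    obtain ⟨i, hi1, hi2⟩ : ∃ i, Rng (3 * 2 ^ (6 + i)) t ∧ ∀ i' < i, ¬ Rng (3 * 2 ^ (6 + i')) t :=
      ⟨Nat.find hex, Nat.find_spec hex, fun i' hi' => Nat.find_min hex hi'⟩
    have hi0 : i ≠ 0 := by
      rintro rfl
      exact h3 hi1
    obtain ⟨i', rfl⟩ : ∃ i', i = i' + 1 := ⟨i - 1, by omega⟩
    have hij : 6 + (i' + 1) ≤ j := by
      by_contra hc
      refine hi2 (j - 6) (by omega) ?_
      rw [show 6 + (j - 6) = j by omega]
      exact h2
    rw [Set.mem_iUnion₂]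
    refine ⟨6 + i', Finset.mem_Ico.2 ⟨by omega, by omega⟩, h1, ?_, hi2 i' (by omega)⟩
    rw [add_assoc]
    exact hi1
  refine (gf_mono hsub).trans ((gf_union_le _ _).trans ?_)
  have s1 : gf {t | Saw Set.univ oo up t ∧ BAR.Ext 66 t} ≤ ENNReal.ofReal (4 * X * Ub j) * B ^ 2 := by
    show BAR.Chi 66 ≤ _
    rw [hX]
    calc ENNReal.ofReal X = ENNReal.ofReal X * (1 * 1) := by rw [mul_one, mul_one]
      _ ≤ ENNReal.ofReal (X * Ub j) * ((2 * B) * (2 * B)) := by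
          refine mul_le_mul' (ENNReal.ofReal_le_ofReal ?_) (mul_le_mul' hone hone)
          nlinarith
      _ = _ := by
          rw [show 4 * X * Ub j = 4 * (X * Ub j) by ring, ENNReal.ofReal_mul (p := 4) (by norm_num)]
          simp only [ENNReal.ofReal_ofNat]
          ring
  have s2 : gf (⋃ i ∈ Ico 6 j, {t | t ∈ SAL lam ∧ Rng (3 * 2 ^ (i + 1)) t ∧ ¬ Rng (3 * 2 ^ i) t}) ≤
      ENNReal.ofReal (K * (KU * 2) * Ub j) * B ^ 2 := by
    refine (JumpVaux.gf_biUnion_le _ _).trans ?_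
    have h1 : ∀ i ∈ Ico 6 j, gf {t | t ∈ SAL lam ∧ Rng (3 * 2 ^ (i + 1)) t ∧ ¬ Rng (3 * 2 ^ i) t} ≤
        ENNReal.ofReal (K * Ub (i + 2)) * B ^ 2 := by
      intro i hi
      rw [Finset.mem_Ico] at hi
      refine (hblk i lam lam' hi.1 (fun a ha => hQ a (by omega))).trans (mul_le_mul_right ?_ _)
      rw [hB]
      have := bl_mono (lam + lam' + 32) (show i + 1 ≤ j by omega)
      gcongr
    refine (Finset.sum_le_sum h1).trans ?_
    rw [← Finset.sum_mul, ← ENNReal.ofReal_sum_of_nonneg (fun i _ => by have := Ub_pos (i + 2); positivity)]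
    refine mul_le_mul_left (ENNReal.ofReal_le_ofReal ?_) _
    have h5 : ∑ i ∈ Ico 6 j, Ub (i + 2) ≤ KU * (2 * Ub j) := by
      calc ∑ i ∈ Ico 6 j, Ub (i + 2) = ∑ i ∈ (Ico 6 j).image (fun i => i + 2), Ub i := by
            rw [Finset.sum_image]
            intro x hx y hy hxy
            simp only at hxy
            omega
        _ ≤ ∑ i ∈ range (j + 1 + 1), Ub i := by
            refine Finset.sum_le_sum_of_subset_of_nonneg ?_ fun i _ _ => (Ub_pos i).le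
            intro x hx
            rw [Finset.mem_image] at hx
            obtain ⟨y, hy, rfl⟩ := hx
            rw [Finset.mem_Ico] at hy
            rw [Finset.mem_range]
            omega
        _ ≤ KU * Ub (j + 1) := by
            refine le_trans (Finset.sum_le_sum fun i _ => ?_) (hU (j + 1))
            rw [zero_mul, Real.rpow_zero, one_mul]
        _ ≤ KU * (2 * Ub j) := mul_le_mul_of_nonneg_left (Ub_succ j) (by linarith)
    rw [← Finset.mul_sum]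
    calc K * ∑ i ∈ Ico 6 j, Ub (i + 2) ≤ K * (KU * (2 * Ub j)) := mul_le_mul_of_nonneg_left h5 hK0.le
      _ = _ := by ring
  refine (add_le_add s1 s2).trans (le_of_eq ?_)
  rw [← add_mul, ← ENNReal.ofReal_add (by positivity) (by positivity), ← hB]
  congr 2
  ring

end NTW

end HexObs
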