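import Pool.Agent.NTW.EventDefs
import Pool.Agent.NTW.ChainS
import Pool.Agent.NTW.Ext
import Pool.Agent.NT.Event

/-!
NTW: the walks of the box with a leaf in a class of small norm are rare, two free ends (port of NT/Event).
-/

set_option autoImplicit false

namespace HexObs

namespace NTW

open Finset TS SDN

open scoped ENNReal

open Rec8 (mb)

variable {C δ : ℝ}

namespace EX

/-- the height of a leaf against the levels of its folds -/
lemma leaf_hgt {t g : List Bool} {u l : ℕ} {e : ℕ → ℕ} {h : ℕ} (hg : g ∈ Brd h) (hh : 1 ≤ h) (hp : PosL t u e l g) :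
    |3 * (h : ℤ) - (Tight.sg (u + l) (lev t (e (l + 1))) - Tight.sg (u + l) (lev t (e l)))| ≤ 8 := by
  obtain ⟨s, s1, s2, s3, s4, s5⟩ := hp
  have hlen := brd_len' hg
  have h1 := s5 g.length (by omega) le_rfl
  rw [(mem_Brd.1 hg).2.2.2, sg_sub] at h1
  have h2 := near2 g (a := 0) (b := 1) (by omega) 1 (by omega)
  rw [lev_zero, sub_zero] at h2
  have h3 : |lev t (e (l + 1)) - lev t (s + g.length)| ≤ 2 * (1 : ℕ) := near2 t s3 1 s4
  have h4 : |lev t (s + 1) - lev t (e l)| ≤ 2 * (2 : ℕ) := near2 t s1 2 (by omega)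
  have h5 := sg_abs (u + l) (lev t (e (l + 1)) - lev t (s + g.length))
  have h6 := sg_abs (u + l) (lev t (s + 1) - lev t (e l))
  rw [sg_sub] at h5 h6
  rw [← h5] at h3
  rw [← h6] at h4
  rw [abs_le] at h2 h3 h4 ⊢
  push_cast at h2 h3 h4
  constructor <;> linarith

/-- levels in the box -/
lemma lev_box {L : ℕ} {t : List Bool} (ht : t ∈ WL L) {i : ℕ} (hi : i ≤ t.length) :
    -(3 * 2 ^ L) ≤ lev t i ∧ lev t i ≤ 3 * 2 ^ L + 2 := by
  have h1 := ht.2 i hi false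
  have h2 : row false (vx oo up t i) = lev t i / 3 := rfl
  rw [h2, abs_le] at h1
  constructor <;> omega

/-- all leaves lie in BrR -/
lemma rep_brr {t : List Bool} {m u kc J : ℕ} {e : ℕ → ℕ} {gs : List (List Bool)} (ht : t ∈ WL (kc + J))
    (hF : Fd (kc + 5) t m u e) (hR : RepG t m u e gs) : ∀ g ∈ gs, g ∈ BrR (2 ^ (kc + 4)) (2 ^ (kc + J + 2)) := by
  intro g hg
  obtain ⟨l, hl, rfl⟩ := List.mem_iff_getElem.1 hg
  obtain ⟨h, hh, hb⟩ := hR.brd _ hg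
  have hlm : l < m := by
    have := hR.len
    omega
  have h1 := leaf_hgt hb hh (hR.pos l hl)
  have h2 := hF.2.2.1 l hlm
  have he1 : e (l + 1) ≤ t.length := by
    have hmono : ∀ a, l + 1 + a ≤ m → e (l + 1) ≤ e (l + 1 + a) := by
      intro a
      induction a with
      | zero => intro _; exact le_rfl
      | succ a ih =>
        intro ha
        exact (ih (by omega)).trans (hF.2.1.lt (l + 1 + a) (by omega)).le
    have h3 := hmono (m - (l + 1)) (by omega)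
    rw [show l + 1 + (m - (l + 1)) = m by omega] at h3
    exact h3.trans hF.2.1.le
  have he0 : e l ≤ t.length := (hF.2.1.lt l hlm).le.trans he1
  have b1 := lev_box ht he1
  have b0 := lev_box ht he0
  unfold RR at h2
  rw [abs_le] at h1
  have h3 : |(Tight.sg (u + l) (lev t (e (l + 1))) - Tight.sg (u + l) (lev t (e l)))| ≤ 6 * 2 ^ (kc + J) + 2 := by
    rw [← sg_sub, sg_abs, abs_le]
    constructor <;> omega
  rw [abs_le] at h3
  have p1 : (2 : ℤ) ^ (kc + 5) = 2 * 2 ^ (kc + 4) := by ring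
  have p2 : (2 : ℤ) ^ (kc + J + 2) = 4 * 2 ^ (kc + J) := by ring
  have p3 : (2 : ℤ) ^ 4 ≤ 2 ^ (kc + 4) := pow_le_pow_right₀ (by norm_num) (by omega)
  have p4 : (1 : ℤ) ≤ 2 ^ (kc + J) := one_le_pow₀ (by norm_num)
  have h4 : (2 : ℤ) ^ (kc + 4) ≤ h := by omega
  have h5 : (h : ℤ) ≤ 2 ^ (kc + J + 2) := by
    omega
  exact ⟨h, by exact_mod_cast h4, by exact_mod_cast h5, hb⟩

/-- all leaves of the box -/
lemma allG {Dm : ℕ → ℝ≥0∞ → (List Bool → ℝ≥0∞) → Prop} (hDm : DmP Dm) (hA : SsA) (h3 : Ss3) (hD : SsD) :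
    ∃ K : ℝ, 1 ≤ K ∧ ∀ (k J : ℕ) (Ψ : List Bool → ℝ≥0∞) (y : ℝ≥0∞), Dm k y Ψ →
      TS2.AllG Ψ y (Dm k) k (2 ^ (k + J + 2)) (K * 2 ^ (J + 2)) := by
  obtain ⟨C, δ, h⟩ := inp_exists
  obtain ⟨K1, hK1, hn⟩ := nextD_of h hA h3
  obtain ⟨K2, hK2, ht⟩ := two2_of hA hD
  refine ⟨K1 + K2, by linarith, fun k J Ψ y hΨ => ?_⟩
  have hUk := Ub_pos k
  have hU : UU (2 ^ (k + J + 2)) ≤ 2 ^ (J + 2) * Ub k := by
    have := Ub_add k (J + 2)
    exact this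
  have hU0 : 0 < UU (2 ^ (k + J + 2)) := Num2Aux.UU_pos _
  have hle : 2 ^ (k + 4) ≤ 2 ^ (k + J + 2) ∨ J < 2 := by
    rcases Nat.lt_or_ge J 2 with h1 | h1
    · exact Or.inr h1
    · exact Or.inl (Nat.pow_le_pow_right (by norm_num) (by omega))
  rcases hle with hle | hJ
  · refine ⟨fun Φ hΦ => hDm.dm k Φ hΦ, fun x Φ hΦ => ?_, fun x Φ hΦ => ?_⟩
    · refine (hn (2 ^ (k + 4)) k k (2 ^ (k + 4)) (2 ^ (k + J + 2)) x Φ (hDm.dom k x Φ hΦ) le_rfl le_rfl le_rfl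
        hle).trans (mul_le_mul_left (ENNReal.ofReal_le_ofReal ?_) _)
      have h5 : UU (2 ^ (k + J + 2)) / Ub k ≤ 2 ^ (J + 2) := by
        rw [div_le_iff₀ hUk]
        exact hU
      calc K1 * (UU (2 ^ (k + J + 2)) / Ub k) ≤ K1 * 2 ^ (J + 2) := by gcongr
        _ ≤ (K1 + K2) * 2 ^ (J + 2) := by gcongr; linarith
    · refine (ht k k (2 ^ (k + 4)) (2 ^ (k + J + 2)) y x Ψ Φ (hDm.dom k y Ψ hΨ) (hDm.dom k x Φ hΦ) le_rfl le_rfl
        hle).trans (mul_le_mul_left (ENNReal.ofReal_le_ofReal ?_) _)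
      calc K2 * UU (2 ^ (k + J + 2)) ≤ K2 * (2 ^ (J + 2) * Ub k) := by gcongr
        _ = K2 * 2 ^ (J + 2) * Ub k := by ring
        _ ≤ (K1 + K2) * 2 ^ (J + 2) * Ub k := by gcongr; linarith
  · -- no leaves
    have hemp : BrR (2 ^ (k + 4)) (2 ^ (k + J + 2)) = ∅ := by
      ext g
      simp only [Set.mem_empty_iff_false, iff_false]
      rintro ⟨n, h1, h2, -⟩
      have : 2 ^ (k + J + 2) < 2 ^ (k + 4) := Nat.pow_lt_pow_right (by norm_num) (by omega)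
      omega
    refine ⟨fun Φ hΦ => hDm.dm k Φ hΦ, fun x Φ hΦ => ?_, fun x Φ hΦ => ?_⟩
    · refine xT_le fun b I _ _ => ?_
      rw [hemp]
      have e : ∀ t, vA (2 ^ (k + 4)) (∅ : Set (List Bool)) Φ t = 0 := by
        intro t
        unfold vA
        have e2 : {g' : List Bool | g' ∈ (∅ : Set (List Bool)) ∧ RT (2 ^ (k + 4)) LFold t g'} = ∅ := by
          ext g
          simp
        rw [e2]
        unfold Rec8.sw
        exact tsum_empty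
      simp only [e, Rec8.sw_zero]
      exact zero_le
    · rw [hemp]
      unfold Rec8.sw
      rw [tsum_empty]
      exact zero_le

end EX

open EX in
open Classical in
/-- few leaves, one of them in S -/
theorem few2 {Dm : ℕ → ℝ≥0∞ → (List Bool → ℝ≥0∞) → Prop} (hDm : DmP Dm) (hC : CoverTwo) (hA : SsA) (h3 : Ss3)
    (hD : SsD) : ∃ K : ℝ, 1 ≤ K ∧ ∀ (kc J m lam lam' : ℕ) (S : Set (List Bool)) (δ : ℝ), 1 ≤ kc → 1 ≤ m → 0 ≤ δ →
    QL (kc + 4) lam' → SmD Dm kc S δ →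
    gf {t | t ∈ SAL lam ∧ t ∈ WL (kc + J) ∧ ∃ (u : ℕ) (e : ℕ → ℕ), Fd (kc + 5) t m u e ∧
      ∀ gs, RepG t m u e gs → ∃ g ∈ gs, g ∈ S} ≤
      ENNReal.ofReal (m * (δ * (K * 2 ^ J) ^ (m + 1)) * Ub kc) * (bl (lam + lam' + 40) (kc + 6)) ^ 2 := by
  obtain ⟨Kc, hKc, hC⟩ := hC
  obtain ⟨Ka, hKa, hall⟩ := allG hDm hA h3 hD
  obtain ⟨Ke, hKe, hE⟩ := hDm.fin
  have hKc0 : 0 < Kc := by linarith
  have hKa0 : 0 < Ka := by linarith
  have hKe0 : 0 < Ke := by linarith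
  refine ⟨4 * Ka * (Kc * (Ke * Ke)), by
    have h1 : 1 ≤ Kc * (Ke * Ke) := one_le_mul_of_one_le_of_one_le hKc (one_le_mul_of_one_le_of_one_le hKe hKe)
    nlinarith, fun kc J m lam lam' S δ hkc hm hδ hQ hS => ?_⟩
  have hUk := Ub_pos kc
  obtain ⟨Φ, hΦ⟩ : ∃ Φ : List Bool → ℝ≥0∞, Φ = fun t => 1 + ENl (2 ^ (kc + 4)) (2 ^ (kc + 5)) (lam + 20) t := ⟨_, rfl⟩
  obtain ⟨x, hx⟩ : ∃ x, x = ENNReal.ofReal Ke * bl (lam + 20 + lam' + 12) (kc + 4 + 2) := ⟨_, rfl⟩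
  have hdm : Dm kc x Φ := by
    have := hE (kc + 4) (2 ^ (kc + 5)) (lam + 20) lam' (by omega) (Nat.pow_lt_pow_right (by norm_num) (by omega))
      (Nat.pow_le_pow_right (by norm_num) (by omega)) hQ
    rw [← hΦ, ← hx] at this
    exact this
  have hflp : Flp (2 ^ (kc + 4)) Φ := by
    rw [hΦ]
    exact flp_one Nat.one_le_two_pow _ _
  have hag := hall kc J Φ x hdm
  have hSmS : TS2.SmS S Φ x (Dm kc) kc δ := ⟨fun x' Φ' h' => hS.near x' Φ' h', fun x' Φ' h' => hS.free x x' Φ Φ' hdm hflp h'⟩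
  have h2J : (1 : ℝ) ≤ 2 ^ (J + 2) := one_le_pow₀ (by norm_num)
  have hch := TS2.chain_S (by nlinarith : 1 ≤ Ka * 2 ^ (J + 2)) hδ hag hSmS hdm (m - 1)
  have e1 : m - 1 + 1 = m := by omega
  rw [e1] at hch
  have hcast : ((m - 1 : ℕ) : ℝ) + 1 = m := by
    rw [Nat.cast_sub hm]
    push_cast
    ring
  rw [hcast] at hch
  have h1 := hC {t | t ∈ SAL lam ∧ t ∈ WL (kc + J) ∧ ∃ (u : ℕ) (e : ℕ → ℕ), Fd (kc + 5) t m u e ∧
      ∀ gs, RepG t m u e gs → ∃ g ∈ gs, g ∈ S} (2 ^ (kc + 5)) (2 ^ (kc + 5)) lam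
    (fun gs => gs.length = m ∧ (∀ g ∈ gs, g ∈ BrR (2 ^ (kc + 4)) (2 ^ (kc + J + 2))) ∧ ∃ g ∈ gs, g ∈ S) ?_
  · refine h1.trans ?_
    refine (mul_le_mul_right (le_trans (ENNReal.tsum_le_tsum fun gs => ?_) hch) _).trans ?_
    · by_cases hgs : gs ≠ [] ∧ gs.IsChain LFold ∧ (∀ g ∈ gs, ∃ k : ℕ, 1 ≤ k ∧ g ∈ Brd k) ∧
        (gs.length = m ∧ (∀ g ∈ gs, g ∈ BrR (2 ^ (kc + 4)) (2 ^ (kc + J + 2))) ∧ ∃ g ∈ gs, g ∈ S)
      swap
      · rw [if_neg hgs]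
        exact zero_le
      · rw [if_pos hgs, if_pos ⟨hgs.2.2.2.1, hgs.2.1, hgs.2.2.2.2.1, hgs.2.2.2.2.2⟩]
        have hne := hgs.1
        have hhd : gs.headD [] ∈ gs := by
          obtain ⟨a, gs', rfl⟩ := List.exists_cons_of_ne_nil hne
          simp
        have hla : gs.getLastD [] ∈ gs := by
          rw [List.getLastD_eq_getLast?, List.getLast?_eq_getLast_of_ne_nil hne, Option.getD_some]
          exact List.getLast_mem hne
        refine mul_le_mul_right (mul_le_mul' ?_ ?_) _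
        · rw [hΦ]
          exact EE0_le (Brd_HB le_rfl (hgs.2.2.2.2.1 _ hhd)).2
        · rw [hΦ]
          exact EE0_le (Brd_HB le_rfl (hgs.2.2.2.2.1 _ hla)).1
    have hxB : x ≤ ENNReal.ofReal Ke * bl (lam + lam' + 40) (kc + 6) := by
      rw [hx]
      exact mul_le_mul_right (bl_mono_lam (by omega) _) _
    obtain ⟨B, hB⟩ : ∃ B, B = bl (lam + lam' + 40) (kc + 6) := ⟨_, rfl⟩
    rw [← hB] at hxB ⊢
    have hp : (4 * Ka * (Kc * (Ke * Ke)) * 2 ^ J) ^ (m + 1) ≥ Kc * (Ke * Ke) * (Ka * 2 ^ (J + 2)) ^ m := by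
      have a1 : 1 ≤ Kc * (Ke * Ke) := one_le_mul_of_one_le_of_one_le hKc (one_le_mul_of_one_le_of_one_le hKe hKe)
      have a2 : 4 * Ka * (Kc * (Ke * Ke)) * 2 ^ J = (Kc * (Ke * Ke)) * (Ka * 2 ^ (J + 2)) := by ring
      rw [a2, mul_pow]
      have a3 : Kc * (Ke * Ke) ≤ (Kc * (Ke * Ke)) ^ (m + 1) := by
        calc Kc * (Ke * Ke) = (Kc * (Ke * Ke)) ^ 1 := (pow_one _).symm
          _ ≤ _ := pow_le_pow_right₀ a1 (by omega)
      have a4 : (Ka * 2 ^ (J + 2)) ^ m ≤ (Ka * 2 ^ (J + 2)) ^ (m + 1) :=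
        pow_le_pow_right₀ (by nlinarith) (by omega)
      exact mul_le_mul a3 a4 (by positivity) (by positivity)
    calc ENNReal.ofReal Kc * (ENNReal.ofReal (m * (δ * (Ka * 2 ^ (J + 2)) ^ m) * Ub kc) * (x * x))
        ≤ ENNReal.ofReal Kc * (ENNReal.ofReal (m * (δ * (Ka * 2 ^ (J + 2)) ^ m) * Ub kc) *
          ((ENNReal.ofReal Ke * B) * (ENNReal.ofReal Ke * B))) := by gcongr
      _ = ENNReal.ofReal (m * (δ * (Kc * (Ke * Ke) * (Ka * 2 ^ (J + 2)) ^ m)) * Ub kc) * B ^ 2 := by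
          obtain ⟨W, hW0, hW⟩ : ∃ W : ℝ, 0 ≤ W ∧ m * (δ * (Ka * 2 ^ (J + 2)) ^ m) * Ub kc = W := ⟨_, by positivity, rfl⟩
          rw [show m * (δ * (Kc * (Ke * Ke) * (Ka * 2 ^ (J + 2)) ^ m)) * Ub kc =
            Kc * ((m * (δ * (Ka * 2 ^ (J + 2)) ^ m) * Ub kc) * (Ke * Ke)) by ring, hW, ENNReal.ofReal_mul hKc0.le,
            ENNReal.ofReal_mul hW0, ENNReal.ofReal_mul hKe0.le]
          ring
      _ ≤ _ := by
          refine mul_le_mul_left (ENNReal.ofReal_le_ofReal ?_) _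
          have := hp
          gcongr
  · rintro t ⟨ht, htW, u, e, hF, hgs⟩
    refine ⟨ht, m, u, e, hm, hF.2.1, fun a ha => ?_, fun a ha1 ha2 => ?_, fun gs hR => ⟨hR.len, rep_brr htW hF hR, hgs gs hR⟩⟩
    · have h5 := hF.2.2.2.2.1 a (e 0) ha.le le_rfl
      have h6 := hF.2.2.2.2.1 (e 0) a le_rfl ha.le
      unfold RR at h5 h6
      rw [← sg_sub]
      unfold Tight.sg
      push_cast
      split_ifs <;> omega
    · have h5 := hF.2.2.2.2.2 (e m) a le_rfl hF.2.1.le ha1.le ha2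
      have h6 := hF.2.2.2.2.2 a (e m) ha1.le ha2 le_rfl hF.2.1.le
      unfold RR at h5 h6
      rw [← sg_sub]
      unfold Tight.sg
      push_cast
      split_ifs <;> omega

open Classical in
/-- **the event theorem with two free ends** -/
theorem event2_of {Dm : ℕ → ℝ≥0∞ → (List Bool → ℝ≥0∞) → Prop} (hDm : DmP Dm) (hC : CoverTwo) (hCr : Crowd2)
    (hA : SsA) (h3 : Ss3) (hD : SsD) : Event2 Dm := by
  intro J hJ ε hε
  obtain ⟨A, C, b0, hA1, hC0, hcr⟩ := hCr J hJ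
  obtain ⟨K, hK, hfew⟩ := few2 hDm hC hA h3 hD
  obtain ⟨m0, hm0, hm1, hm2⟩ : ∃ m0 : ℕ, 1 ≤ m0 ∧ A * 4 ^ (J - 3) ≤ m0 ∧ 2 * C * (1 / 2) ^ m0 ≤ ε / 2 := by
    obtain ⟨a, ha⟩ := exists_nat_ge (A * 4 ^ (J - 3))
    obtain ⟨b, hb⟩ := exists_pow_lt_of_lt_one (show 0 < ε / (4 * (C + 1)) by positivity) (show (1 / 2 : ℝ) < 1 by norm_num)
    refine ⟨max (max a b) 1, le_max_right _ _, ?_, ?_⟩
    · refine ha.trans ?_
      exact_mod_cast (le_max_left a b).trans (le_max_left _ 1)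
    · have h1 : (1 / 2 : ℝ) ^ (max (max a b) 1) ≤ (1 / 2) ^ b :=
        pow_le_pow_of_le_one (by norm_num) (by norm_num) ((le_max_right a b).trans (le_max_left _ 1))
      have h2 : (1 / 2 : ℝ) ^ (max (max a b) 1) ≤ ε / (4 * (C + 1)) := h1.trans hb.le
      calc 2 * C * (1 / 2) ^ (max (max a b) 1) ≤ 2 * (C + 1) * (ε / (4 * (C + 1))) := by
            apply mul_le_mul _ h2 (by positivity) (by positivity)
            linarith
        _ = ε / 2 := by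
            field_simp
            norm_num
  obtain ⟨B, hB⟩ : ∃ B : ℝ, B = (K * 2 ^ J) ^ (m0 + 1) := ⟨_, rfl⟩
  have hKJ : 1 ≤ K * 2 ^ J := by
    have h2J : (1 : ℝ) ≤ 2 ^ J := one_le_pow₀ (by norm_num)
    nlinarith
  have hB1 : 1 ≤ B := by
    rw [hB]
    exact one_le_pow₀ hKJ
  have hm0R : (1 : ℝ) ≤ m0 := by exact_mod_cast hm0
  refine ⟨ε / (2 * (m0 * m0) * B), max b0 1, by positivity, fun kc lam lam' S hkc hQ hS => ?_⟩
  obtain ⟨δ, hδ⟩ : ∃ δ, δ = ε / (2 * (m0 * m0) * B) := ⟨_, rfl⟩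
  rw [← hδ] at hS
  have hδ0 : 0 ≤ δ := by rw [hδ]; positivity
  have hUL := Ub_pos (kc + J)
  have hUk : Ub kc ≤ Ub (kc + J) := Ub_mono (by omega)
  have hUk0 := Ub_pos kc
  have hkb : b0 ≤ kc := (le_max_left _ _).trans hkc
  have hk1 : 1 ≤ kc := (le_max_right _ _).trans hkc
  obtain ⟨X, hX⟩ : ∃ X, X = (bl (lam + lam' + 40) (kc + 6)) ^ 2 := ⟨_, rfl⟩
  rw [← hX]
  -- many leaves
  let Q : ℕ → Set (List Bool) := fun m => {t | m0 ≤ m ∧ (t ∈ SAL lam ∧ t ∈ WL (kc + J) ∧ ∃ (u : ℕ) (e : ℕ → ℕ),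
    Fd (kc + 5) t m u e ∧ A * nb (kc + 5) t ≤ m)}
  have hQ1 : ∀ m, m0 ≤ m → gf (Q m) ≤ ENNReal.ofReal (C * Ub kc / 4 ^ m) * X := by
    intro m hm
    refine (gf_mono (fun t ht => ht.2)).trans ?_
    rw [hX]
    exact hcr kc m lam lam' hkb hQ
  have hQ0 : ∀ m, m < m0 → gf (Q m) = 0 := by
    intro m hm
    have : Q m = ∅ := by
      ext t
      exact ⟨fun ht => by have := ht.1; omega, fun ht => ht.elim⟩
    rw [this]
    simp [gf]
  let R : ℕ → Set (List Bool) := fun m => {t | t ∈ SAL lam ∧ t ∈ WL (kc + J) ∧ ∃ (u : ℕ) (e : ℕ → ℕ),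
    Fd (kc + 5) t m u e ∧ ∀ gs, RepG t m u e gs → ∃ g ∈ gs, g ∈ S}
  have hsub : {t | t ∈ SAL lam ∧ t ∈ WL (kc + J) ∧ ∃ (m u : ℕ) (e : ℕ → ℕ), Fd (kc + 5) t m u e ∧
      ∀ gs, RepG t m u e gs → ∃ g ∈ gs, g ∈ S} ⊆ (⋃ m, Q m) ∪ ⋃ m ∈ Ico 1 m0, R m := by
    rintro t ⟨ht, htW, m, u, e, hF, hgs⟩
    rcases Nat.lt_or_ge m m0 with hm | hm
    · right
      rw [Set.mem_iUnion₂]
      exact ⟨m, Finset.mem_Ico.2 ⟨hF.1, hm⟩, ht, htW, u, e, hF, hgs⟩
    · left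
      rw [Set.mem_iUnion]
      have h7 : nb (kc + 5) t ≤ 4 ^ (J - 3) := by
        have := T2.Few.nb_box' htW (J - 4) (kc + 5) (by omega)
        rw [show J - 4 + 1 = J - 3 by omega] at this
        exact this
      refine ⟨m, hm, ht, htW, u, e, hF, ?_⟩
      have h8 : ((nb (kc + 5) t : ℕ) : ℝ) ≤ 4 ^ (J - 3) := by exact_mod_cast h7
      calc A * nb (kc + 5) t ≤ A * 4 ^ (J - 3) := by gcongr
        _ ≤ m0 := hm1
        _ ≤ m := by exact_mod_cast hm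
  have hfewS : gf (⋃ m ∈ Ico 1 m0, R m) ≤ ENNReal.ofReal (ε / 2 * Ub (kc + J)) * X := by
    have h1 : gf (⋃ m ∈ Ico 1 m0, R m) ≤ ∑ m ∈ Ico 1 m0, gf (R m) :=
      ENNReal.tsum_biUnion_le (fun t => wE t) (Ico 1 m0) R
    refine h1.trans ?_
    have h2 : ∀ m ∈ Ico 1 m0, gf (R m) ≤ ENNReal.ofReal (m0 * (δ * B) * Ub kc) * X := by
      intro m hm
      rw [Finset.mem_Ico] at hm
      rw [hX]
      refine (hfew kc J m lam lam' S δ hk1 hm.1 hδ0 (fun a ha => hQ a (by omega)) hS).trans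
        (mul_le_mul_left (ENNReal.ofReal_le_ofReal ?_) _)
      have h5 : (K * 2 ^ J) ^ (m + 1) ≤ B := by
        rw [hB]
        exact pow_le_pow_right₀ hKJ (by omega)
      have h6 : (m : ℝ) ≤ m0 := by exact_mod_cast hm.2.le
      gcongr
    refine (Finset.sum_le_sum h2).trans ?_
    rw [Finset.sum_const, Nat.card_Ico, nsmul_eq_mul, ← mul_assoc, ← ENNReal.ofReal_natCast,
      ← ENNReal.ofReal_mul (by positivity)]
    refine mul_le_mul_left (ENNReal.ofReal_le_ofReal ?_) _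
    have h7 : ((m0 - 1 : ℕ) : ℝ) ≤ m0 := by exact_mod_cast Nat.sub_le m0 1
    calc ((m0 - 1 : ℕ) : ℝ) * (m0 * (δ * B) * Ub kc) ≤ m0 * (m0 * (δ * B) * Ub (kc + J)) := by gcongr
      _ = ε / 2 * Ub (kc + J) := by
          rw [hδ]
          field_simp
  have hmany : gf (⋃ m, Q m) ≤ ENNReal.ofReal (ε / 2 * Ub (kc + J)) * X := by
    have h1 : gf (⋃ m, Q m) ≤ ∑' m, gf (Q m) := ENNReal.tsum_iUnion_le_tsum (fun t => wE t) Q
    refine h1.trans ?_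
    have h2 : ∀ m, gf (Q m) ≤ (if m0 ≤ m then ENNReal.ofReal (C * Ub kc / 4 ^ m) else 0) * X := by
      intro m
      split_ifs with hm
      · exact hQ1 m hm
      · rw [hQ0 m (by omega)]
        exact zero_le
    refine (ENNReal.tsum_le_tsum h2).trans ?_
    rw [ENNReal.tsum_mul_right]
    refine mul_le_mul_left ((NTm.tail_sum (K := C * Ub kc) (by positivity) m0 _ (fun m hm => ?_) (fun m hm => ?_)).trans ?_) _
    · rw [if_pos hm]
    · rw [if_neg (by omega)]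
    · apply ENNReal.ofReal_le_ofReal
      calc 2 * (C * Ub kc) * (1 / 2) ^ m0 = (2 * C * (1 / 2) ^ m0) * Ub kc := by ring
        _ ≤ ε / 2 * Ub (kc + J) := by gcongr
  refine (gf_mono hsub).trans ((gf_union_le _ _).trans ((add_le_add hmany hfewS).trans (le_of_eq ?_)))
  rw [← add_mul, ← ENNReal.ofReal_add (by positivity) (by positivity)]
  congr 2
  ring

end NTW

end HexObs
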