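import Pool.Agent.NTW.FoldEx
import Pool.Agent.NT.Zig

/-!
NTW: the leaves of the folds of a self-avoiding word with two free ends: no large backtracks, heights; the folds in the
sense of SDN.
-/

set_option autoImplicit false

namespace HexObs

namespace NTW

open Finset TS SDN

variable {b m u : ℕ} {t : List Bool} {e : ℕ → ℕ}

namespace FoldA

lemma lev_up (t : List Bool) (i : ℕ) : lev t (i + 1) ≤ lev t i + 2 := xD_step_le (D := up) upd t i

/-- one step -/
lemma step_abs (t : List Bool) (i : ℕ) : |lev t (i + 1) - lev t i| ≤ 2 := by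
  have h1 := lev_up t i
  have h2 := NTm.lev_down t i
  rw [abs_le]
  constructor <;> omega

/-- at most two steps -/
lemma two_step (t : List Bool) {i i' : ℕ} (h : i ≤ i') (h' : i' ≤ i + 2) : |lev t i' - lev t i| ≤ 3 := by
  have h3 : i' = i ∨ i' = i + 1 ∨ i' = i + 1 + 1 := by omega
  rcases h3 with rfl | rfl | rfl
  · simp
  · exact (step_abs t i).trans (by norm_num)
  · have a1 := step_abs t i
    have a2 := step_abs t (i + 1)
    have a3 := lev_mod t i
    have a4 := lev_mod t (i + 1 + 1)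
    have a5 : Even (i + 1 + 1) ↔ Even i := by
      rw [Nat.even_add_one, Nat.even_add_one, not_not]
    rw [abs_le] at a1 a2 ⊢
    by_cases h4 : Even i
    · rw [if_pos h4] at a3
      rw [if_pos (a5.2 h4)] at a4
      constructor <;> omega
    · rw [if_neg h4] at a3
      rw [if_neg (fun h => h4 (a5.1 h))] at a4
      constructor <;> omega

lemma lip (t : List Bool) (i n : ℕ) : |lev t (i + n) - lev t i| ≤ 2 * n := by
  induction n with
  | zero => simp
  | succ n ih =>
    have h1 := step_abs t (i + n)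
    rw [abs_le] at ih h1 ⊢
    push_cast
    rw [← add_assoc]
    constructor <;> omega

lemma sg_le_of_abs {k : ℕ} {x y z : ℤ} (h : |x - y| ≤ z) : Tight.sg k x ≤ Tight.sg k y + z ∧ Tight.sg k y ≤ Tight.sg k x + z := by
  rw [abs_le] at h
  unfold Tight.sg
  split_ifs <;> constructor <;> omega

/-- the height of a leaf -/
theorem foldG_ht (h : FoldG t m u e) {l : ℕ} (hl : l < m) {g : List Bool} (hp : PosL t u e l g) {k : ℕ} (hg : g ∈ Brd k) :
    1 ≤ g.length ∧ Tight.sg (u + l) (lev t (e (l + 1))) - Tight.sg (u + l) (lev t (e l)) - 3 ≤ 3 * k ∧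
      3 * k ≤ Tight.sg (u + l) (lev t (e (l + 1))) - Tight.sg (u + l) (lev t (e l)) + 2 := by
  obtain ⟨s, s1, s2, s3, s4, s5⟩ := hp
  have hgap := h.gap l hl
  have hlo : ∀ i, e l ≤ i → i ≤ e (l + 1) → Tight.sg (u + l) (lev t (e l)) ≤ Tight.sg (u + l) (lev t i) := by
    intro i i1 i2
    rcases Nat.eq_zero_or_pos l with rfl | h0
    · exact h.lo0 i i1 i2
    · rcases Nat.lt_or_ge (e l) i with h3 | h3
      · exact (h.lo l h0 hl i h3 i2).le
      · rw [show i = e l by omega]
  have hhi := h.hi l hl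
  have hlen : 1 ≤ g.length := by
    by_contra hc
    have h0 : g.length = 0 := by omega
    have h1 := two_step t (i := e l) (i' := e (l + 1)) (h.lt l hl).le (by omega)
    have h2 := (sg_le_of_abs (k := u + l) h1).1
    omega
  refine ⟨hlen, ?_⟩
  obtain ⟨t1, t2, t3, t4⟩ := mem_Brd.1 hg
  have h1 := s5 g.length hlen le_rfl
  have hl1 : lev g 1 = 2 := by
    rw [show (1 : ℕ) = 0 + 1 from rfl, lev_succ, lev_zero]
    show 0 + ip up up = 2
    decide
  rw [t4, hl1, NTm.sg_sub] at h1
  -- the first vertex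
  have a1 := hlo (s + 1) s1 (by omega)
  have a2 := (sg_le_of_abs (k := u + l) (two_step t (i := e l) (i' := s + 1) s1 (by omega))).1
  -- the last vertex
  have a3 := hhi (s + g.length) (by omega) s3
  have a4 : Tight.sg (u + l) (lev t (e (l + 1))) ≤ Tight.sg (u + l) (lev t (s + g.length)) + 2 := by
    rcases Nat.lt_or_ge (s + g.length) (e (l + 1)) with h3 | h3
    · have h4 : e (l + 1) = s + g.length + 1 := by omega
      rw [h4]
      exact (sg_le_of_abs (k := u + l) (step_abs t (s + g.length))).1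
    · rw [show e (l + 1) = s + g.length by omega]
      omega
  constructor <;> omega

lemma abs_sg (k : ℕ) (x y : ℤ) (h : Tight.sg k y ≤ Tight.sg k x) : |x - y| = Tight.sg k x - Tight.sg k y := by
  unfold Tight.sg at h ⊢
  split_ifs at h ⊢
  · rw [abs_of_nonpos (by omega)]
    omega
  · rw [abs_of_nonneg (by omega)]

end FoldA

open FoldA

/-- **the leaves have no large backtracks** -/
theorem fd_cl (h : Fd b t m u e) {l : ℕ} (hl : l < m) {g : List Bool} (hp : PosL t u e l g) {k : ℕ} (hg : g ∈ Brd k) :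
    g ∈ CL b ∧ 2 ^ b - 1 ≤ k ∧ |3 * (k : ℤ) - (|lev t (e (l + 1)) - lev t (e l)|)| ≤ 6 := by
  obtain ⟨hm, hG, hbig, hsm, -, -⟩ := h
  obtain ⟨h1, h2, h3⟩ := foldG_ht hG hl hp hg
  have hb := hbig l hl
  have hp1 : (1 : ℤ) ≤ 2 ^ b := one_le_pow₀ (by norm_num)
  have hR : RR b = 3 * 2 ^ b - 2 := rfl
  refine ⟨?_, ?_, ?_⟩
  · intro i i' i1 i2
    obtain ⟨s, s1, s2, s3, s4, s5⟩ := hp
    rcases Nat.eq_zero_or_pos i with rfl | h0
    · have := (lev_range hg i2).1
      rw [lev_zero]
      omega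
    · have a1 := s5 i h0 (by omega)
      have a2 := s5 i' (by omega) i2
      have a3 := hsm l hl (s + i) (s + i') (by omega) (by omega) (by omega)
      rw [NTm.sg_sub] at a1 a2
      omega
  · have h4 : (2 : ℤ) ^ b - 1 ≤ k := by omega
    have h5 : ((2 ^ b : ℕ) : ℤ) - 1 ≤ k := by
      push_cast
      exact h4
    omega
  · rw [abs_sg (u + l) (lev t (e (l + 1))) (lev t (e l)) (by omega), abs_le]
    constructor <;> omega

/-- **folds in the sense of SDN** -/
theorem fd_lf (h : Fd b t m u e) : ∃ e' : ℕ → ℕ, (∀ j, 1 ≤ j → e' j = e j) ∧ Lf false b t m u e' := by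
  obtain ⟨hm, hG, hbig, hsm, hst, hfin⟩ := h
  obtain ⟨a, a1, a2, a3⟩ := Crs.last_min (fun i => Tight.sg u (lev t i)) (e 1)
  have hp1 : (1 : ℤ) ≤ 2 ^ b := one_le_pow₀ (by norm_num)
  have hR : RR b = 3 * 2 ^ b - 2 := rfl
  have hlt0 : e 0 < e 1 := hG.lt 0 (by omega)
  have hbig0 := hbig 0 (by omega)
  simp only [Nat.add_zero, Nat.zero_add] at hbig0
  have hhi0 := hG.hi 0 (by omega)
  simp only [Nat.add_zero, Nat.zero_add] at hhi0
  have hsm0 := hsm 0 (by omega)
  simp only [Nat.add_zero, Nat.zero_add] at hsm0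
  have hst' : ∀ i i', i ≤ e 0 → i' ≤ e 0 → Tight.sg u (lev t i) - Tight.sg u (lev t i') < RR b := fun i i' h1 h2 =>
    Crs.sg_range (hst i i' h1 h2) (hst i' i h2 h1)
  have b1 : e 0 ≤ a := by
    by_contra hc
    have h1 := hG.beg a (by omega)
    have h2 := a2 (e 0) hlt0.le
    omega
  have b2 : Tight.sg u (lev t a) = Tight.sg u (lev t (e 0)) :=
    le_antisymm (a2 (e 0) hlt0.le) (hG.lo0 a b1 a1)
  have b3 : a < e 1 := by
    rcases Nat.lt_or_ge a (e 1) with h | h
    · exact h
    · have h1 : a = e 1 := by omega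
      rw [h1] at b2
      omega
  have hE : ∀ j, 1 ≤ j → Function.update e 0 a j = e j := fun j hj => Function.update_of_ne (by omega) _ _
  have hE0 : Function.update e 0 a 0 = a := Function.update_self _ _ _
  refine ⟨Function.update e 0 a, hE, ⟨?_, ?_, ?_, ?_, ?_, ?_, ?_, ?_⟩⟩
  · intro j hj
    rcases Nat.eq_zero_or_pos j with rfl | h0
    · rw [hE0, Nat.zero_add, hE 1 le_rfl]
      exact b3
    · rw [hE j h0, hE (j + 1) (by omega)]
      exact hG.lt j hj
  · rw [hE m hm]
    exact hG.le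
  · intro j hj i i1 i2
    simp only [lvl_false]
    rcases Nat.eq_zero_or_pos j with rfl | h0
    · rw [hE0] at i1 ⊢
      rw [Nat.zero_add, hE 1 le_rfl] at i2
      exact a3 i i1 i2
    · rw [hE j h0] at i1 ⊢
      rw [hE (j + 1) (by omega)] at i2
      exact hG.lo j h0 hj i i1 i2
  · intro j hj i i1 i2
    simp only [lvl_false]
    rcases Nat.eq_zero_or_pos j with rfl | h0
    · rw [hE0] at i1
      rw [Nat.zero_add, hE 1 le_rfl] at i2 ⊢
      exact hhi0 i (by omega) i2
    · rw [hE j h0] at i1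
      rw [hE (j + 1) (by omega)] at i2 ⊢
      exact hG.hi j hj i i1 i2
  · intro j hj
    simp only [lvl_false]
    rcases Nat.eq_zero_or_pos j with rfl | h0
    · rw [hE0, Nat.zero_add, hE 1 le_rfl, Nat.add_zero]
      omega
    · rw [hE j h0, hE (j + 1) (by omega)]
      exact hbig j hj
  · intro j hj i i' i1 i2 i3
    simp only [lvl_false]
    rcases Nat.eq_zero_or_pos j with rfl | h0
    · rw [hE0] at i1
      rw [Nat.zero_add, hE 1 le_rfl] at i3
      rw [Nat.add_zero]
      exact hsm0 i i' (by omega) i2 i3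
    · rw [hE j h0] at i1
      rw [hE (j + 1) (by omega)] at i3
      exact hsm j hj i i' i1 i2 i3
  · intro i i' i1 i2
    rw [hE0] at i1 i2
    simp only [lvl_false]
    -- all the values are at least the value of the fold
    have c1 : ∀ x, x ≤ a → Tight.sg u (lev t (e 0)) ≤ Tight.sg u (lev t x) ∧
        Tight.sg u (lev t x) < Tight.sg u (lev t (e 0)) + RR b := by
      intro x hx
      rcases Nat.lt_or_ge x (e 0) with h1 | h1
      · exact ⟨(hG.beg x h1).le, by have := hst' x (e 0) h1.le le_rfl; omega⟩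
      · refine ⟨hG.lo0 x h1 (by omega), ?_⟩
        have := hsm0 x a h1 hx b3.le
        omega
    obtain ⟨d1, d2⟩ := c1 i i1
    obtain ⟨d3, d4⟩ := c1 i' i2
    exact Crs.range_sg (k := u) (by omega) (by omega)
  · intro i i' i1 i2 i3 i4
    rw [hE m hm] at i1 i3
    exact hfin i i' i1 i2 i3 i4

end NTW

end HexObs
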