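import Pool.Agent.NTW.EventDefs
import Pool.Agent.NT.Short
import Pool.Agent.NT.Disp

/-!
NTW, quantitative form with two free ends (doc NTW/37Q): the literal statements.
-/

set_option autoImplicit false

namespace HexObs

namespace NTW

open Finset TS SDN

open scoped ENNReal

/-- the range of the piece number q -/
def RG (t : List Bool) (u : ℕ) (E : ℕ → ℕ) (q : ℕ) : ℤ :=
  Tight.sg (u + q) (lev t (E (q + 1))) - Tight.sg (u + q) (lev t (E q))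

/-- the monotone chain through the leaf number l: the ranges decrease before the piece number p = the leaf l and increase
after it; the ends are lower than the first resp. last piece (than RR b if the leaf l is the first resp. last piece) -/
def GeoMono2 : Prop := ∀ (b m u : ℕ) (t : List Bool) (e : ℕ → ℕ), 1 ≤ b → t ∈ SA → Fd b t m u e → ∀ l, l < m →
  ∃ (r u' p : ℕ) (E : ℕ → ℕ), p < r ∧ FoldG t r u' E ∧
    (∀ g, PosL t u' E p g → PosL t u e l g) ∧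
    (∀ q, q < r → RR b ≤ RG t u' E q) ∧
    (∀ q, q + 1 < p → RG t u' E (q + 1) ≤ RG t u' E q) ∧
    (∀ q, p < q → q + 1 < r → RG t u' E q ≤ RG t u' E (q + 1)) ∧
    (∀ i, i < E 0 → Tight.sg u' (lev t i) - Tight.sg u' (lev t (E 0)) ≤ if p = 0 then RR b else RG t u' E 0) ∧
    (∀ i, E r < i → i ≤ t.length → Tight.sg (u' + (r - 1)) (lev t (E r)) - Tight.sg (u' + (r - 1)) (lev t i) ≤
      if p + 1 = r then RR b else RG t u' E (r - 1))

/-- the sum over the representations, the ends bounded by functions of the ranges of the first and of the last piece -/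
def CoverV : Prop := ∃ K : ℝ, 1 ≤ K ∧ ∀ (A : Set (List Bool)) (f0 f1 : ℕ → ℕ) (lam : ℕ) (Q : List (List Bool) → Prop),
  Monotone f0 → Monotone f1 →
  (∀ t ∈ A, t ∈ SAL lam ∧ ∃ (m u : ℕ) (e : ℕ → ℕ), 1 ≤ m ∧ FoldG t m u e ∧
    (∀ i, i < e 0 → Tight.sg u (lev t i) - Tight.sg u (lev t (e 0)) ≤ 3 * f0 (RG t u e 0).toNat) ∧
    (∀ i, e m < i → i ≤ t.length → Tight.sg (u + (m - 1)) (lev t (e m)) - Tight.sg (u + (m - 1)) (lev t i) ≤
      3 * f1 (RG t u e (m - 1)).toNat) ∧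
    ∀ gs, RepG t m u e gs → Q gs) →
  gf A ≤ ENNReal.ofReal K * ∑' gs : List (List Bool),
    (open Classical in if gs ≠ [] ∧ gs.IsChain LFold ∧ (∀ g ∈ gs, ∃ k : ℕ, 1 ≤ k ∧ g ∈ Brd k) ∧ Q gs then
      SDN.wl gs * (EE0 (f0 (3 * hgt (gs.headD []) + 8)) lam (rev (gs.headD [])) *
        EE0 (f1 (3 * hgt (gs.getLastD []) + 8)) lam (gs.getLastD [])) else 0)

/-- walks of the box with a marked leaf in S -/
def EQ2 (kc J : ℕ) (S : Set (List Bool)) : Set (List Bool) :=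
  {t | t ∈ WL (kc + J) ∧ ∃ (m u : ℕ) (e : ℕ → ℕ), Fd (kc + 5) t m u e ∧ ∃ l, l < m ∧ ∀ g, PosL t u e l g →
    g ∈ BrR (2 ^ (kc + 4)) (2 ^ (kc + J + 2)) → g ∈ S}

/-- the event theorem with an exponential constant -/
def EventQ2 (Dm : ℕ → ℝ≥0∞ → (List Bool → ℝ≥0∞) → Prop) : Prop := ∃ (C : ℝ) (k0 : ℕ), 1 ≤ C ∧
  ∀ (kc J lam lam' : ℕ) (S : Set (List Bool)) (δ : ℝ), k0 ≤ kc → 6 ≤ J → 0 < δ → QL (kc + J + 8) lam' → SmD Dm kc S δ →
    gf {t | t ∈ SAL lam ∧ t ∈ EQ2 kc J S} ≤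
      ENNReal.ofReal (C ^ J * δ * Ub (kc + J)) * (bl (lam + lam' + 40) (kc + J + 8)) ^ 2

/-- the short leaves, exponential form -/
def ShortQ2 (Dm : ℕ → ℝ≥0∞ → (List Bool → ℝ≥0∞) → Prop) : Prop := ∃ (d : ℝ) (C : ℕ), 0 < d ∧ 1 ≤ C ∧
  ∀ (kc J a q : ℕ) (x : ℝ), C * (q + 1) ≤ 2 ^ a → C * (q + 1) + a ≤ kc → NTm.AS x (d * Ub (kc - a)) →
    SmD Dm kc (NTm.SL kc J x) (C * 2 ^ J * (1 / 2) ^ q)

/-- walks of the box with a displacement of at least 824 2 ^ kc levels in a time less than x - 1 -/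
def DFQ (kc J : ℕ) (x : ℝ) : Set (List Bool) :=
  {t | t ∈ WL (kc + J) ∧ ∃ i j : ℕ, i ≤ j ∧ j ≤ t.length ∧ ((j : ℝ) - i + 1 < x) ∧
    824 * (2 : ℤ) ^ kc ≤ |lev t j - lev t i|}

/-- no large displacements in a short time, quantitative form -/
def DispQ2 : Prop := ∃ (d : ℝ) (C : ℕ), 0 < d ∧ ∀ (kc J a q lam lam' : ℕ) (x : ℝ), 6 ≤ J → C * (J + q + 1) ≤ 2 ^ a →
  C * (J + q + 1) + 2 * a ≤ kc → QL (kc + J + 8) lam' → NTm.AS x (d * Ub (kc - 2 * a)) →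
    gf {t | t ∈ SAL lam ∧ t ∈ DFQ kc J x} ≤
      ENNReal.ofReal ((1 / 2) ^ q * Ub (kc + J)) * (bl (lam + lam' + 40) (kc + J + 8)) ^ 2

end NTW

end HexObs
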