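import Pool.Agent.NTQ.WinF
import Pool.Agent.NTW.EqSum
import Pool.Agent.NTW.QDefs
import Pool.Agent.NTW.Event2
import Pool.Agent.NTW.FoldCl

/-!
NTW, (E) of doc NTW/37Q: the walks with a marked leaf in a class of small norm, exponential constant, two free ends.
-/

set_option autoImplicit false

namespace HexObs

namespace NTW

open Finset TS SDN SDN.CN NTm

open scoped ENNReal

namespace QF

variable {kc J n M : ℕ} {W : ℕ → Set (List Bool)} {kp idx : ℕ → ℕ} {S : Set (List Bool)} {Φ : ℕ → List Bool → ℝ≥0∞}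

lemma SmD_mono {Dm : ℕ → ℝ≥0∞ → (List Bool → ℝ≥0∞) → Prop} {S S' : Set (List Bool)} {δ : ℝ} (h : S' ⊆ S)
    (hS : SmD Dm kc S δ) : SmD Dm kc S' δ :=
  ⟨fun x Φ hΦ => (xT_mono fun t => FB.vA_mono h Φ t).trans (hS.near x Φ hΦ), fun y x Ψ Φ hΨ hf hΦ =>
    (Rec8.sw_mono h fun _ _ => le_rfl).trans (hS.free y x Ψ Φ hΨ hf hΦ)⟩

lemma fold_mono {t : List Bool} {m u : ℕ} {e : ℕ → ℕ} (h : FoldG t m u e) {a b : ℕ} (hab : a ≤ b) (hb : b ≤ m) :
    e a ≤ e b := by
  obtain ⟨d, rfl⟩ := Nat.exists_eq_add_of_le hab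
  have : ∀ d', d' ≤ d → e a ≤ e (a + d') := by
    intro d'
    induction d' with
    | zero => intro _; exact le_rfl
    | succ d' ih =>
      intro hd'
      have a1 := ih (by omega)
      have a2 := h.lt (a + d') (by omega)
      rw [← add_assoc]
      omega
  exact this d le_rfl

lemma fold_card {t : List Bool} {m u : ℕ} {e : ℕ → ℕ} (h : FoldG t m u e) : m ≤ t.length := by
  have : ∀ d, d ≤ m → d ≤ e d := by
    intro d
    induction d with
    | zero => intro _; exact Nat.zero_le _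
    | succ d ih =>
      intro hd
      have a1 := ih (by omega)
      have a2 := h.lt d (by omega)
      omega
  exact (this m le_rfl).trans h.le

/-- the height of an interior leaf -/
lemma mid_hgt {t : List Bool} {m u : ℕ} {e : ℕ → ℕ} (ht : t ∈ SA) (h : FoldG t m u e) {q : ℕ} (h1 : 1 ≤ q)
    (h2 : q + 2 ≤ m) {k : ℕ} (hg : lw t (e q) (e (q + 1)) ∈ Brd k) :
    3 * (k : ℤ) + 1 = Tight.sg (u + q) (lev t (e (q + 1))) - Tight.sg (u + q) (lev t (e q)) := by
  obtain ⟨i, rfl⟩ : ∃ i, q = i + 1 := ⟨q - 1, by omega⟩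
  have m1 := h.lt i (by omega)
  have m1' := h.lt (i + 1) (by omega)
  have m2' := h.lt (i + 1 + 1) (by omega)
  have hstep : ∀ (k : ℕ) (j : ℕ), Tight.sg k (lev t (j + 1)) ≤ Tight.sg k (lev t j) + 2 := by
    intro k j
    have h := xD_step_le (dD_mem false k) t j
    rw [xD_dD, xD_dD] at h
    exact h
  have two : ∀ j, j < m → e j + 2 ≤ e (j + 1) := by
    intro j hj
    have h1 := h.lt j hj
    by_contra hc
    have h2 : e (j + 1) = e j + 1 := by omega
    have h3 := h.gap j hj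
    have h4 := hstep (u + j) (e j)
    rw [h2] at h3
    omega
  have m2 := two (i + 1) (by omega)
  have m3 := two (i + 1 + 1) (by omega)
  have m4 : e (i + 1 + 1 + 1) ≤ t.length := (fold_mono h (by omega) le_rfl).trans h.le
  obtain ⟨a, ha⟩ : ∃ a, e (i + 1) = a + 1 := ⟨e (i + 1) - 1, by omega⟩
  obtain ⟨D, hDdef⟩ : ∃ D, D = dD false (u + (i + 1)) := ⟨_, rfl⟩
  have hD : D ∈ dirs := by
    rw [hDdef]
    exact dD_mem _ _
  have hx : ∀ l, xD D t l = Tight.sg (u + (i + 1)) (lev t l) := fun l => by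
    rw [hDdef]
    exact xD_dD _ _ _ _
  have hx1 : ∀ l, xD D t l = -Tight.sg (u + i) (lev t l) := by
    intro l
    rw [hx, ← add_assoc, Tight.sg_succ]
  have hx2 : ∀ l, Tight.sg (u + (i + 1 + 1)) (lev t l) = -xD D t l := by
    intro l
    rw [hx, ← add_assoc, Tight.sg_succ]
  have k0 : xD D t (a + 1) ≤ xD D t a := by
    have := h.hi i (by omega) a (by omega) (by omega)
    rw [hx1, hx1, ← ha]
    omega
  have k1 : ∀ l, a + 1 < l → l ≤ e (i + 1 + 1) → xD D t (a + 1) < xD D t l ∧ xD D t l ≤ xD D t (e (i + 1 + 1)) := by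
    intro l l1 l2
    rw [hx, hx, hx, ← ha]
    exact ⟨h.lo (i + 1) (by omega) (by omega) l (by omega) l2, h.hi (i + 1) (by omega) l (by omega) l2⟩
  have k2 : xD D t (a + 1) + 4 ≤ xD D t (e (i + 1 + 1)) := by
    have := h.gap (i + 1) (by omega)
    rw [hx, hx, ← ha]
    omega
  have k3 : ∀ l, e (i + 1 + 1) < l → l ≤ e (i + 1 + 1 + 1) → xD D t l < xD D t (e (i + 1 + 1)) := by
    intro l l1 l2
    have := h.lo (i + 1 + 1) (by omega) (by omega) l l1 l2
    simp only [hx2] at this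
    omega
  obtain ⟨c, M, r1, r2, r3, r4, r5, r6, r7, r8, r9, r10, r11, r12⟩ := leaf_core hD ht (e := a)
    (e' := e (i + 1 + 1)) (by omega) (by omega) k0 k1 k2 (k3 _ (by omega) (by omega)) (k3 _ (by omega) (by omega))
  rw [← ha] at r6
  have hkM : k = M := Brd_height hg r6
  rw [hkM, ← hx, ← hx, ha]
  omega

lemma rep_brr' {t : List Bool} {m u kc J : ℕ} {e : ℕ → ℕ} {gs : List (List Bool)} (ht : t ∈ WL (kc + J))
    (hF : FoldG t m u e) (hbig : ∀ q, q < m → RR (kc + 5) ≤ RG t u e q) (hR : RepG t m u e gs) :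
    ∀ g ∈ gs, g ∈ BrR (2 ^ (kc + 4)) (2 ^ (kc + J + 2)) := by
  intro g hg
  obtain ⟨l, hl, rfl⟩ := List.mem_iff_getElem.1 hg
  obtain ⟨h, hh, hb⟩ := hR.brd _ hg
  have hlm : l < m := by
    have := hR.len
    omega
  have h1 := EX.leaf_hgt hb hh (hR.pos l hl)
  have h2 := hbig l hlm
  have he1 : e (l + 1) ≤ t.length := (fold_mono hF (by omega) le_rfl).trans hF.le
  have he0 : e l ≤ t.length := (hF.lt l hlm).le.trans he1
  have b1 := EX.lev_box ht he1
  have b0 := EX.lev_box ht he0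
  unfold RR RG at h2
  rw [abs_le] at h1
  have h3 : |(Tight.sg (u + l) (lev t (e (l + 1))) - Tight.sg (u + l) (lev t (e l)))| ≤ 6 * 2 ^ (kc + J) + 2 := by
    rw [← NTm.sg_sub, EX.sg_abs, abs_le]
    constructor <;> omega
  rw [abs_le] at h3
  have p1 : (2 : ℤ) ^ (kc + 5) = 2 * 2 ^ (kc + 4) := by ring
  have p2 : (2 : ℤ) ^ (kc + J + 2) = 4 * 2 ^ (kc + J) := by ring
  have p3 : (2 : ℤ) ^ 4 ≤ 2 ^ (kc + 4) := pow_le_pow_right₀ (by norm_num) (by omega)
  have p4 : (1 : ℤ) ≤ 2 ^ (kc + J) := one_le_pow₀ (by norm_num)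
  have h4 : (2 : ℤ) ^ (kc + 4) ≤ h := by omega
  have h5 : (h : ℤ) ≤ 2 ^ (kc + J + 2) := by
    omega
  exact ⟨h, by exact_mod_cast h4, by exact_mod_cast h5, hb⟩

/-- right parts -/
lemma inc_ofX (hidx : ∀ h h' : ℕ, h ≤ h' → idx h ≤ idx h')
    (hmem : ∀ (g : List Bool) (h : ℕ), g ∈ Brd h → 2 ^ (kc + 4) ≤ h → h ≤ 2 ^ (kc + J + 2) → idx h < n ∧ g ∈ W (idx h))
    {c : ℝ≥0∞} : ∀ (rs : List (List Bool)) (i : ℕ) (g : List Bool),
      (∀ x ∈ rs, x ∈ BrR (2 ^ (kc + 4)) (2 ^ (kc + J + 2))) → rs.IsChain (fun a b => hgt a ≤ hgt b) →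
      (∀ x, rs.head? = some x → i ≤ idx (hgt x)) → (rs = [] → c ≤ Φ i g) →
      (rs ≠ [] → c ≤ Φ (idx (hgt (rs.getLastD []))) (rs.getLastD [])) → IncE W n Φ rs i g c := by
  intro rs
  induction rs with
  | nil => intro i g _ _ _ h4 _; exact h4 rfl
  | cons x rs ih =>
    intro i g h1 h2 h3 _ h5
    obtain ⟨h, a1, a2, a3⟩ := h1 x List.mem_cons_self
    obtain ⟨b1, b2⟩ := hmem x h a3 a1 a2
    rw [← hgt_eq a3] at b1 b2
    refine ⟨idx (hgt x), h3 x rfl, b1, b2, ih _ _ (fun y hy => h1 y (List.mem_cons_of_mem _ hy)) ?_ ?_ ?_ ?_⟩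
    · exact h2.tail
    · intro y hy
      obtain ⟨rs', rfl⟩ : ∃ rs', rs = y :: rs' := by
        rcases rs with _ | ⟨z, rs'⟩
        · simp at hy
        · rw [List.head?_cons, Option.some.injEq] at hy
          exact ⟨rs', by rw [hy]⟩
      rw [List.isChain_cons_cons] at h2
      exact hidx _ _ h2.1
    · intro h0
      have h6 := h5 (by simp)
      rw [h0] at h6
      exact h6
    · intro h0
      have h6 := h5 (by simp)
      obtain ⟨z, rs', rfl⟩ := List.exists_cons_of_ne_nil h0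
      exact h6

/-- left parts -/
lemma dec_ofX (hidx : ∀ h h' : ℕ, h ≤ h' → idx h ≤ idx h')
    (hmem : ∀ (g : List Bool) (h : ℕ), g ∈ Brd h → 2 ^ (kc + 4) ≤ h → h ≤ 2 ^ (kc + J + 2) → idx h < n ∧ g ∈ W (idx h))
    {c : ℝ≥0∞} {g : List Bool} {rs : List (List Bool)} (hg : g ∈ S) (hM : rs.length ≤ M) (hrs : IncE W n Φ rs 0 g c) :
    ∀ (ls : List (List Bool)) (i : ℕ), (∀ x ∈ ls, x ∈ BrR (2 ^ (kc + 4)) (2 ^ (kc + J + 2))) →
      ls.IsChain (fun a b => hgt b ≤ hgt a) → (∀ x, ls.head? = some x → idx (hgt x) < i) →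
      DecE W n M S Φ (ls ++ g :: rs) i c := by
  intro ls
  induction ls with
  | nil =>
    intro i _ _ _
    exact Or.inl ⟨hg, hM, hrs⟩
  | cons x ls ih =>
    intro i h1 h2 h3
    obtain ⟨h, a1, a2, a3⟩ := h1 x List.mem_cons_self
    obtain ⟨b1, b2⟩ := hmem x h a3 a1 a2
    rw [← hgt_eq a3] at b1 b2
    right
    refine ⟨idx (hgt x), h3 x rfl, b2, ih _ (fun y hy => h1 y (List.mem_cons_of_mem _ hy)) h2.tail ?_⟩
    intro y hy
    obtain ⟨ls', rfl⟩ : ∃ ls', ls = y :: ls' := by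
      rcases ls with _ | ⟨z, ls'⟩
      · simp at hy
      · rw [List.head?_cons, Option.some.injEq] at hy
        exact ⟨ls', by rw [hy]⟩
    rw [List.isChain_cons_cons] at h2
    exact Nat.lt_succ_of_le (hidx _ _ h2.1)

lemma last_app (ls : List (List Bool)) (g : List Bool) (rs : List (List Bool)) :
    (ls ++ g :: rs).getLastD [] = (g :: rs).getLastD [] := by
  rw [List.getLastD_eq_getLast?, List.getLastD_eq_getLast?, List.getLast?_append_cons]

/-- the chain of the pieces of a walk with a monotone chain of folds -/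
lemma tot_of (hidx : ∀ h h' : ℕ, h ≤ h' → idx h ≤ idx h')
    (hmem : ∀ (g : List Bool) (h : ℕ), g ∈ Brd h → 2 ^ (kc + 4) ≤ h → h ≤ 2 ^ (kc + J + 2) → idx h < n ∧ g ∈ W (idx h))
    {t : List Bool} {r u p : ℕ} {E : ℕ → ℕ} {gs : List (List Bool)} (ht : t ∈ SA) (hF : FoldG t r u E) (hp : p < r)
    (hdec : ∀ q, q + 1 < p → RG t u E (q + 1) ≤ RG t u E q)
    (hinc : ∀ q, p < q → q + 1 < r → RG t u E q ≤ RG t u E (q + 1))
    (hR : RepG t r u E gs) (hB : ∀ g ∈ gs, g ∈ BrR (2 ^ (kc + 4)) (2 ^ (kc + J + 2)))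
    (hS : ∀ g, PosL t u E p g → g ∈ BrR (2 ^ (kc + 4)) (2 ^ (kc + J + 2)) → g ∈ S) (hM : gs.length ≤ M) {a c : ℝ≥0∞}
    (ha0 : p = 0 → gs.headD [] ∈ S → a ≤ Φ 0 (rev (gs.headD [])))
    (ha1 : 1 ≤ p → a ≤ Φ (idx (hgt (gs.headD []))) (rev (gs.headD [])))
    (hc0 : p + 1 = r → gs.getLastD [] ∈ S → c ≤ Φ 0 (gs.getLastD []))
    (hc1 : p + 1 < r → c ≤ Φ (idx (hgt (gs.getLastD []))) (gs.getLastD [])) :
    TotE W n M S Φ gs a c := by
  have hlen := hR.len
  have cmp : ∀ (q q' : ℕ) (hq : q < gs.length) (hq' : q' < gs.length), 1 ≤ q' → q' + 2 ≤ r → RG t u E q' ≤ RG t u E q →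
      hgt gs[q'] ≤ hgt gs[q] := by
    intro q q' hq hq' h1 h2 h3
    obtain ⟨k, hk1, hk⟩ := hR.brd _ (List.getElem_mem hq)
    obtain ⟨k', hk1', hk'⟩ := hR.brd _ (List.getElem_mem hq')
    have h4 := (FoldA.foldG_ht hF (by omega) (hR.pos q hq) hk).2.1
    have h5 := hR.mid q' hq' h1 h2
    have h6 := mid_hgt ht hF h1 h2 (h5 ▸ hk')
    rw [hgt_eq hk, hgt_eq hk']
    unfold RG at h3
    omega
  obtain ⟨g, hg⟩ : ∃ g, g = gs[p]'(by omega) := ⟨_, rfl⟩
  obtain ⟨ls, hls⟩ : ∃ ls, ls = gs.take p := ⟨_, rfl⟩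
  obtain ⟨rs, hrs⟩ : ∃ rs, rs = gs.drop (p + 1) := ⟨_, rfl⟩
  have hsp : gs = ls ++ g :: rs := by
    rw [hls, hrs, hg, ← List.drop_eq_getElem_cons, List.take_append_drop]
  have hlsl : ls.length = p := by
    rw [hls, List.length_take]
    omega
  have hrsl : rs.length = r - (p + 1) := by
    rw [hrs, List.length_drop, hlen]
  have hgS : g ∈ S := by
    rw [hg]
    exact hS _ (hR.pos p (by omega)) (hB _ (List.getElem_mem _))
  have hlsB : ∀ x ∈ ls, x ∈ BrR (2 ^ (kc + 4)) (2 ^ (kc + J + 2)) := fun x hx => hB x (by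
    rw [hls] at hx
    exact List.mem_of_mem_take hx)
  have hrsB : ∀ x ∈ rs, x ∈ BrR (2 ^ (kc + 4)) (2 ^ (kc + J + 2)) := fun x hx => hB x (by
    rw [hrs] at hx
    exact List.mem_of_mem_drop hx)
  have hlsC : ls.IsChain (fun a b => hgt b ≤ hgt a) := by
    rw [List.isChain_iff_getElem]
    intro i hi
    have e1 : ls[i]'(by omega) = gs[i]'(by omega) := by
      subst hls
      exact List.getElem_take
    have e2 : ls[i + 1]'hi = gs[i + 1]'(by omega) := by
      subst hls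
      exact List.getElem_take
    rw [e1, e2]
    exact cmp i (i + 1) _ _ (by omega) (by omega) (hdec i (by omega))
  have hrsC : rs.IsChain (fun a b => hgt a ≤ hgt b) := by
    rw [List.isChain_iff_getElem]
    intro i hi
    have e1 : rs[i]'(by omega) = gs[p + 1 + i]'(by omega) := by
      subst hrs
      exact List.getElem_drop
    have e2 : rs[i + 1]'hi = gs[p + 1 + (i + 1)]'(by omega) := by
      subst hrs
      exact List.getElem_drop
    rw [e1, e2]
    exact cmp (p + 1 + (i + 1)) (p + 1 + i) _ _ (by omega) (by omega) (hinc (p + 1 + i) (by omega) (by omega))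
  have hlast : gs.getLastD [] = (g :: rs).getLastD [] := by
    rw [hsp, last_app]
  have hrsE : IncE W n Φ rs 0 g c := by
    refine inc_ofX hidx hmem rs 0 g hrsB hrsC (fun _ _ => Nat.zero_le _) (fun h0 => ?_) (fun h0 => ?_)
    · have h1 : p + 1 = r := by
        rw [h0, List.length_nil] at hrsl
        omega
      have h2 : gs.getLastD [] = g := by
        rw [hlast, h0]
        rfl
      have h3 := hc0 h1 (by rw [h2]; exact hgS)
      rw [h2] at h3
      exact h3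
    · have h1 : p + 1 < r := by
        have := List.length_pos_iff.2 h0
        omega
      have h2 : gs.getLastD [] = rs.getLastD [] := by
        rw [hlast]
        obtain ⟨z, rs', rfl⟩ := List.exists_cons_of_ne_nil h0
        rfl
      have h3 := hc1 h1
      rw [h2] at h3
      exact h3
  have hrsM : rs.length ≤ M := by
    omega
  rcases ls with _ | ⟨x, xs⟩
  · rw [List.nil_append] at hsp
    rw [List.length_nil] at hlsl
    rw [hsp]
    have h2 := ha0 hlsl.symm (by rw [hsp]; exact hgS)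
    rw [hsp] at h2
    exact Or.inl ⟨hgS, h2, hrsM, hrsE⟩
  · rw [List.cons_append] at hsp
    rw [List.length_cons] at hlsl
    rw [hsp]
    have h2 := ha1 (by omega)
    rw [hsp] at h2
    obtain ⟨h, a1, a2, a3⟩ := hlsB x List.mem_cons_self
    obtain ⟨b1, b2⟩ := hmem x h a3 a1 a2
    rw [← hgt_eq a3] at b1 b2
    refine Or.inr ⟨idx (hgt x), b1, b2, h2, dec_ofX hidx hmem hgS hrsM hrsE xs _
      (fun y hy => hlsB y (List.mem_cons_of_mem _ hy)) hlsC.tail ?_⟩
    intro y hy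
    obtain ⟨ls', rfl⟩ : ∃ ls', xs = y :: ls' := by
      rcases xs with _ | ⟨z, ls'⟩
      · simp at hy
      · rw [List.head?_cons, Option.some.injEq] at hy
        exact ⟨ls', by rw [hy]⟩
    rw [List.isChain_cons_cons] at hlsC
    exact Nat.lt_succ_of_le (hidx _ _ hlsC.1)

end QF

open QF in
open Classical in
/-- **the walks with a marked leaf in a class of small norm** -/
theorem eventQ2_of {Dm : ℕ → ℝ≥0∞ → (List Bool → ℝ≥0∞) → Prop} (hDm : DmP Dm) (hG : GeoMono2) (hV : CoverV)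
    (hA : SsA) (h3 : Ss3) (hD : SsD) : EventQ2 Dm := by
  obtain ⟨V, k0, hV1, hwin⟩ := win_family
  obtain ⟨Q, hQ, hfun⟩ := fun_boundX hDm hA h3 hD
  obtain ⟨Kc, hKc, hcov⟩ := hV
  obtain ⟨Ke, hKe, hE⟩ := hDm.fin
  have hKc0 : 0 < Kc := by linarith
  have hKe0 : 0 < Ke := by linarith
  have hQ0 : 0 < Q := by linarith
  have hKK : 1 ≤ 16 * Kc * Ke ^ 2 := by
    have a1 : 1 ≤ Ke ^ 2 := one_le_pow₀ hKe
    have a2 : 1 ≤ Kc * Ke ^ 2 := one_le_mul_of_one_le_of_one_le hKc a1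
    linarith
  have hQV : 1 ≤ Q ^ (2 * V + 2) := one_le_pow₀ hQ
  refine ⟨16 * Kc * Ke ^ 2 * Q ^ (2 * V + 2), max k0 1, one_le_mul_of_one_le_of_one_le hKK hQV, ?_⟩
  intro kc J lam lam' S δ hkc hJ hδ hQL hS
  have hk0 : k0 ≤ kc := (le_max_left _ _).trans hkc
  have hk1 : 1 ≤ kc := (le_max_right _ _).trans hkc
  have hUL := Ub_pos (kc + J)
  obtain ⟨B, hB⟩ : ∃ B, B = bl (lam + lam' + 40) (kc + J + 8) := ⟨_, rfl⟩
  rw [← hB]
  by_cases hBt : B = ⊤
  · rw [hBt]
    have h1 : ENNReal.ofReal ((16 * Kc * Ke ^ 2 * Q ^ (2 * V + 2)) ^ J * δ * Ub (kc + J)) ≠ 0 := by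
      rw [Ne, ENNReal.ofReal_eq_zero, not_le]
      positivity
    rw [show ((⊤ : ℝ≥0∞)) ^ 2 = ⊤ by simp, ENNReal.mul_top h1]
    exact le_top
  obtain ⟨b, hb⟩ : ∃ b, b = B.toReal := ⟨_, rfl⟩
  have hb0 : 0 ≤ b := by rw [hb]; exact ENNReal.toReal_nonneg
  have hBb : B = ENNReal.ofReal b := by rw [hb, ENNReal.ofReal_toReal hBt]
  obtain ⟨x, hx⟩ : ∃ x, x = Ke * b := ⟨_, rfl⟩
  have hx0 : 0 ≤ x := by rw [hx]; positivity
  have hxB : ENNReal.ofReal x = ENNReal.ofReal Ke * B := by rw [hx, hBb, ENNReal.ofReal_mul hKe0.le]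
  obtain ⟨W, kp, idx, hW, hidx, hmem⟩ := hwin kc (J + 2) hk0 (by omega)
  obtain ⟨n, hn⟩ : ∃ n, n = V * (J + 2) := ⟨_, rfl⟩
  rw [← hn] at hW hmem
  have hn1 : 1 ≤ n := by
    rw [hn]
    exact Nat.mul_pos hV1 (by omega)
  obtain ⟨Φ, hΦ⟩ : ∃ Φ : ℕ → List Bool → ℝ≥0∞,
    Φ = fun i t => 1 + ENl (2 ^ (kp i + 4)) (2 ^ (kp i + 6)) (lam + 20) t := ⟨_, rfl⟩
  have hDmi : ∀ i, i < n → Dm (kp i) (ENNReal.ofReal Ke * bl (lam + 20 + lam' + 12) (kp i + 6)) (Φ i) := by
    intro i hi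
    have h0 : kc ≤ kp i := by
      rw [← hW.zero]
      exact hW.mono 0 i (Nat.zero_le i)
    have h1 := hW.top i hi
    have := hE (kp i + 4) (2 ^ (kp i + 6)) (lam + 20) lam' (by omega) (Nat.pow_lt_pow_right (by norm_num) (by omega))
      (Nat.pow_le_pow_right (by norm_num) (by omega)) (fun a ha => hQL a (by omega))
    rw [hΦ]
    exact this
  have hle : ∀ i, i < n → ENNReal.ofReal Ke * bl (lam + 20 + lam' + 12) (kp i + 6) ≤ ENNReal.ofReal x := by
    intro i hi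
    rw [hxB, hB]
    refine mul_le_mul_right ((bl_mono_lam (by omega) _).trans (bl_mono _ ?_)) _
    have h1 := hW.top i hi
    omega
  have hDom : ∀ i, i < n → Dom (kp i) (ENNReal.ofReal x) (Φ i) := fun i hi =>
    (hDm.dom _ _ _ (hDmi i hi)).mono (hle i hi)
  have hD0 : Dm kc (ENNReal.ofReal Ke * bl (lam + 20 + lam' + 12) (kc + 6)) (Φ 0) := by
    have := hDmi 0 (by omega)
    rwa [hW.zero] at this
  have hle0 : ENNReal.ofReal Ke * bl (lam + 20 + lam' + 12) (kc + 6) ≤ ENNReal.ofReal x := by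
    have := hle 0 (by omega)
    rwa [hW.zero] at this
  have hΦ0 : Φ 0 = fun t => 1 + ENl (2 ^ (kc + 4)) (2 ^ (kc + 6)) (lam + 20) t := by
    rw [hΦ]
    simp only [hW.zero]
  have hflp : Flp (2 ^ (kc + 4)) (Φ 0) := by
    rw [hΦ0]
    exact flp_one Nat.one_le_two_pow _ _
  obtain ⟨S', hS'⟩ : ∃ S', S' = S ∩ BrR (2 ^ (kc + 4)) (2 ^ (kc + J + 2)) := ⟨_, rfl⟩
  have hS'S : SmD Dm kc S' δ := SmD_mono (by rw [hS']; exact Set.inter_subset_left) hS
  have hS'B : S' ⊆ BrR (2 ^ (kc + 4)) (2 ^ (kc + J + 2)) := by rw [hS']; exact Set.inter_subset_right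
  have hS'H : S' ⊆ HB (2 ^ (kc + 4)) := fun g hg => (EX.Brd_HB le_rfl (hS'B hg)).1
  obtain ⟨M, hM⟩ : ∃ M, M = 100 * 4 ^ (kc + J) := ⟨_, rfl⟩
  obtain ⟨T, hT⟩ : ∃ T, T = ENNReal.ofReal (Q ^ (n + (J + 2) + 1) * δ * Ub (kc + (J + 2)) * x ^ 2) := ⟨_, rfl⟩
  have hfun' := hfun kc (J + 2) n W kp S' δ x _ Φ hW hn1 hδ.le hx0 hS'S hDom hle0 hD0 hflp M
  rw [← hT] at hfun'
  -- the classes
  obtain ⟨f, hf⟩ : ∃ f : Bool → ℕ → ℕ, f = fun a r => if a then 2 ^ (kc + 5) else r / 3 + 1 := ⟨_, rfl⟩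
  have hfm : ∀ a, Monotone (f a) := by
    intro a x y hxy
    rw [hf]
    cases a
    · exact Nat.add_le_add_right (Nat.div_le_div_right hxy) 1
    · exact le_rfl
  let A : Bool → Bool → Set (List Bool) := fun a a' => {t | t ∈ SAL lam ∧ t ∈ WL (kc + J) ∧ ∃ (r u p : ℕ) (E : ℕ → ℕ),
    p < r ∧ FoldG t r u E ∧ (∀ g, PosL t u E p g → g ∈ BrR (2 ^ (kc + 4)) (2 ^ (kc + J + 2)) → g ∈ S') ∧
    (∀ q, q < r → RR (kc + 5) ≤ RG t u E q) ∧ (∀ q, q + 1 < p → RG t u E (q + 1) ≤ RG t u E q) ∧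
    (∀ q, p < q → q + 1 < r → RG t u E q ≤ RG t u E (q + 1)) ∧
    (∀ i, i < E 0 → Tight.sg u (lev t i) - Tight.sg u (lev t (E 0)) ≤ if p = 0 then RR (kc + 5) else RG t u E 0) ∧
    (∀ i, E r < i → i ≤ t.length → Tight.sg (u + (r - 1)) (lev t (E r)) - Tight.sg (u + (r - 1)) (lev t i) ≤
      if p + 1 = r then RR (kc + 5) else RG t u E (r - 1)) ∧ (a = true ↔ p = 0) ∧ (a' = true ↔ p + 1 = r)}
  have hsub : {t | t ∈ SAL lam ∧ t ∈ EQ2 kc J S} ⊆ ⋃ a ∈ (Finset.univ : Finset Bool), ⋃ a' ∈ (Finset.univ : Finset Bool),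
      A a a' := by
    rintro t ⟨ht, htW, m, u, e, hF, l, hl, hgS⟩
    obtain ⟨r, u', p, E, g1, g2, g3, g4, g5, g6, g7, g8⟩ := hG (kc + 5) m u t e (by omega) ht.1 hF l hl
    rw [Set.mem_iUnion₂]
    refine ⟨decide (p = 0), Finset.mem_univ _, ?_⟩
    rw [Set.mem_iUnion₂]
    refine ⟨decide (p + 1 = r), Finset.mem_univ _, ht, htW, r, u', p, E, g1, g2, ?_, g4, g5, g6, g7, g8, ?_, ?_⟩
    · intro g hg hgB
      rw [hS']
      exact ⟨hgS g (g3 g hg) hgB, hgB⟩
    · simp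
    · simp
  have hcl : ∀ a a', gf (A a a') ≤ ENNReal.ofReal Kc * T := by
    intro a a'
    refine (hcov (A a a') (f a) (f a') lam (fun gs => gs.length ≤ M ∧ TotE W n M S' Φ gs
      (EE0 (f a (3 * hgt (gs.headD []) + 8)) lam (rev (gs.headD [])))
      (EE0 (f a' (3 * hgt (gs.getLastD []) + 8)) lam (gs.getLastD []))) (hfm a) (hfm a') ?_).trans ?_
    · rintro t ⟨ht, htW, r, u, p, E, g1, g2, g3, g4, g5, g6, g7, g8, g9, g10⟩
      have hRR0 : 0 < RR (kc + 5) := by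
        unfold RR
        have : (1 : ℤ) ≤ 2 ^ (kc + 5) := one_le_pow₀ (by norm_num)
        omega
      refine ⟨ht, r, u, E, by omega, g2, fun i hi => ?_, fun i hi1 hi2 => ?_, fun gs hR => ?_⟩
      · refine (g7 i hi).trans ?_
        have h4 := g4 0 (by omega)
        by_cases hp : p = 0
        · rw [if_pos hp, g9.2 hp, hf]
          simp only [if_true]
          unfold RR
          push_cast
          omega
        · have ha : a = false := by
            rw [← Bool.not_eq_true]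
            exact fun h => hp (g9.1 h)
          rw [if_neg hp, ha, hf]
          simp only [Bool.false_eq_true, if_false]
          push_cast
          omega
      · refine (g8 i hi1 hi2).trans ?_
        have h4 := g4 (r - 1) (by omega)
        by_cases hp : p + 1 = r
        · rw [if_pos hp, g10.2 hp, hf]
          simp only [if_true]
          unfold RR
          push_cast
          omega
        · have ha : a' = false := by
            rw [← Bool.not_eq_true]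
            exact fun h => hp (g10.1 h)
          rw [if_neg hp, ha, hf]
          simp only [Bool.false_eq_true, if_false]
          push_cast
          omega
      · have hlen : gs.length ≤ M := by
          rw [hR.len, hM]
          exact (fold_card g2).trans (WL_length htW)
        have hBr := rep_brr' htW g2 g4 hR
        have hne : gs ≠ [] := by
          intro h0
          have := hR.len
          rw [h0, List.length_nil] at this
          omega
        have hhd : gs.headD [] ∈ gs := by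
          obtain ⟨a, gs', rfl⟩ := List.exists_cons_of_ne_nil hne
          simp
        have hla : gs.getLastD [] ∈ gs := by
          rw [List.getLastD_eq_getLast?, List.getLast?_eq_getLast_of_ne_nil hne, Option.getD_some]
          exact List.getLast_mem hne
        -- weights of the ends
        have hw0 : ∀ g, g ∈ S' → EE0 (2 ^ (kc + 5)) lam g ≤ Φ 0 g ∧ EE0 (2 ^ (kc + 5)) lam (rev g) ≤ Φ 0 (rev g) := by
          intro g hg
          obtain ⟨h1, h2⟩ := EX.Brd_HB le_rfl (hS'B hg)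
          rw [hΦ0]
          have h5 : (2 : ℕ) ^ (kc + 5) ≤ 2 ^ (kc + 6) := Nat.pow_le_pow_right (by norm_num) (by omega)
          exact ⟨(EX.EE0_le h1).trans (add_le_add le_rfl (ENl_mono le_rfl h5 le_rfl _)),
            (EX.EE0_le h2).trans (add_le_add le_rfl (ENl_mono le_rfl h5 le_rfl _))⟩
        have hw1 : ∀ g, g ∈ BrR (2 ^ (kc + 4)) (2 ^ (kc + J + 2)) → EE0 ((3 * hgt g + 8) / 3 + 1) lam g ≤ Φ (idx (hgt g)) g ∧
            EE0 ((3 * hgt g + 8) / 3 + 1) lam (rev g) ≤ Φ (idx (hgt g)) (rev g) := by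
          rintro g ⟨h, a1, a2, a3⟩
          obtain ⟨b1, b2⟩ := hmem g h a3 a1 a2
          have hh : hgt g = h := hgt_eq a3
          rw [hh]
          obtain ⟨h', c1, c2, c3⟩ := hW.sub _ b1 b2
          have e1 : h' = h := Brd_height c3 a3
          rw [e1] at c1 c2
          have h5 : (3 * h + 8) / 3 + 1 ≤ 2 ^ (kp (idx h) + 6) := by
            have e2 : 2 ^ (kp (idx h) + 6) = 2 * 2 ^ (kp (idx h) + 5) := by ring
            have e3 : (2 : ℕ) ^ 2 ≤ 2 ^ (kp (idx h) + 5) := Nat.pow_le_pow_right (by norm_num) (by omega)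
            omega
          obtain ⟨d1, d2⟩ := EX.Brd_HB le_rfl (hW.sub _ b1 b2)
          rw [hΦ]
          exact ⟨(EX.EE0_le d1).trans (add_le_add le_rfl (ENl_mono le_rfl h5 le_rfl _)),
            (EX.EE0_le d2).trans (add_le_add le_rfl (ENl_mono le_rfl h5 le_rfl _))⟩
        refine ⟨hlen, tot_of hidx (fun g h a1 a2 a3 => hmem g h a1 a2 a3) ht.1 g2 g1 g5 g6 hR hBr g3 hlen ?_ ?_ ?_ ?_⟩
        · intro hp hgS
          rw [g9.2 hp, hf]
          exact (hw0 _ hgS).2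
        · intro hp
          have ha : a = false := by
            rw [← Bool.not_eq_true]
            exact fun h => by have := g9.1 h; omega
          rw [ha, hf]
          exact (hw1 _ (hBr _ hhd)).2
        · intro hp hgS
          rw [g10.2 hp, hf]
          exact (hw0 _ hgS).1
        · intro hp
          have ha : a' = false := by
            rw [← Bool.not_eq_true]
            exact fun h => by have := g10.1 h; omega
          rw [ha, hf]
          exact (hw1 _ (hBr _ hla)).1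
    · refine mul_le_mul_right (le_trans ?_ ((chain_massX (Φ := Φ) hW hS'H M
        (fun gs => EE0 (f a (3 * hgt (gs.headD []) + 8)) lam (rev (gs.headD [])))
        (fun gs => EE0 (f a' (3 * hgt (gs.getLastD []) + 8)) lam (gs.getLastD [])) (fun _ _ => rfl)).trans hfun')) _
      refine ENNReal.tsum_le_tsum fun gs => ?_
      split_ifs with h1 h2
      · exact le_rfl
      · exact absurd ⟨h1.2.2.2.1, h1.2.1, h1.2.2.2.2⟩ h2
      · exact zero_le
      · exact le_rfl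
  have h4 : gf {t | t ∈ SAL lam ∧ t ∈ EQ2 kc J S} ≤ 4 * (ENNReal.ofReal Kc * T) := by
    refine (gf_mono hsub).trans ((BAR.gf_bi_le _ _).trans ?_)
    refine (Finset.sum_le_sum fun a _ => (BAR.gf_bi_le _ _).trans (Finset.sum_le_sum fun a' _ => hcl a a')).trans ?_
    simp only [Finset.sum_const, Finset.card_univ, Fintype.card_bool, nsmul_eq_mul]
    apply le_of_eq
    push_cast
    ring
  refine h4.trans ?_
  have e4 : (4 : ℝ≥0∞) = ENNReal.ofReal 4 := by simp
  have hx2 : x ^ 2 = Ke ^ 2 * b ^ 2 := by rw [hx]; ring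
  rw [hT, e4, hBb, ← ENNReal.ofReal_pow hb0, ← ENNReal.ofReal_mul hKc0.le, ← ENNReal.ofReal_mul (by norm_num),
    ← ENNReal.ofReal_mul (by positivity)]
  apply ENNReal.ofReal_le_ofReal
  have hU2 : Ub (kc + (J + 2)) ≤ 4 * Ub (kc + J) := by
    have := UU_ratio_up (kc + J) 2
    calc Ub (kc + (J + 2)) = UU (2 ^ (kc + J + 2)) := rfl
      _ ≤ 2 ^ 2 * Ub (kc + J) := this
      _ = _ := by norm_num
  have hQp : Q ^ (n + (J + 2) + 1) ≤ (Q ^ (2 * V + 2)) ^ J := by
    rw [← pow_mul]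
    apply pow_le_pow_right₀ hQ
    have e5 : V * (J + 2) ≤ 2 * V * J := by
      have : V * 2 ≤ V * J := Nat.mul_le_mul_left _ (by omega)
      calc V * (J + 2) = V * J + V * 2 := by ring
        _ ≤ V * J + V * J := by omega
        _ = _ := by ring
    have e6 : (2 * V + 2) * J = 2 * V * J + 2 * J := by ring
    omega
  have hKJ : 16 * Kc * Ke ^ 2 ≤ (16 * Kc * Ke ^ 2) ^ J := by
    calc 16 * Kc * Ke ^ 2 = (16 * Kc * Ke ^ 2) ^ 1 := (pow_one _).symm
      _ ≤ _ := pow_le_pow_right₀ hKK (by omega)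
  have hUJ2 := Ub_pos (kc + (J + 2))
  calc 4 * (Kc * (Q ^ (n + (J + 2) + 1) * δ * Ub (kc + (J + 2)) * x ^ 2))
      ≤ 4 * (Kc * ((Q ^ (2 * V + 2)) ^ J * δ * (4 * Ub (kc + J)) * x ^ 2)) := by gcongr
    _ = (16 * Kc * Ke ^ 2) * (Q ^ (2 * V + 2)) ^ J * δ * Ub (kc + J) * b ^ 2 := by
        rw [hx2]
        ring
    _ ≤ (16 * Kc * Ke ^ 2) ^ J * (Q ^ (2 * V + 2)) ^ J * δ * Ub (kc + J) * b ^ 2 := by gcongr
    _ = (16 * Kc * Ke ^ 2 * Q ^ (2 * V + 2)) ^ J * δ * Ub (kc + J) * b ^ 2 := by rw [← mul_pow]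

end NTW

end HexObs
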