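import Pool.Agent.NTW.QDefs
import Pool.Agent.NTW.Ext
import Pool.Agent.NTW.Event2

/-!
NTW: the sum over the representations, the ends bounded by functions of the ranges of the first and of the last piece.
-/

set_option autoImplicit false

namespace HexObs

namespace NTW

open Finset TS SDN

open scoped ENNReal

namespace CV

lemma EE0_mono {N N' lam : ℕ} (h : N ≤ N') (g : List Bool) : EE0 N lam g ≤ EE0 N' lam g := by
  unfold EE0
  refine add_le_add le_rfl (gf_mono ?_)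
  rintro W ⟨h1, h2, h3⟩
  exact ⟨SSt_mo h h1, h2, h3⟩

/-- the sum over the values r with |3 h - r| ≤ 8 -/
lemma sum_near (h : ℕ) (F : ℕ → ℝ≥0∞) (B : ℝ≥0∞) (hF : ∀ r, r ≤ 3 * h + 8 → F r ≤ B) :
    ∑' r : ℕ, (if r ≤ 3 * h + 8 ∧ 3 * h ≤ r + 8 then F r else 0) ≤ 17 * B := by
  rw [tsum_eq_sum (s := Finset.Icc (3 * h - 8) (3 * h + 8))]
  · refine (Finset.sum_le_card_nsmul _ _ B ?_).trans ?_
    · intro r hr
      rw [Finset.mem_Icc] at hr
      split_ifs
      · exact hF r hr.2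
      · exact zero_le
    · rw [nsmul_eq_mul, Nat.card_Icc]
      refine mul_le_mul_left ?_ B
      have : 3 * h + 8 + 1 - (3 * h - 8) ≤ 17 := by omega
      exact_mod_cast this
  · intro r hr
    rw [Finset.mem_Icc] at hr
    rw [if_neg (by omega)]

end CV

open CV in
open Classical in
theorem coverV (hC : CoverTwo) : CoverV := by
  obtain ⟨K, hK, hC⟩ := hC
  refine ⟨K * 289, by linarith, ?_⟩
  intro A f0 f1 lam Q hf0 hf1 hA
  -- the classes
  obtain ⟨A', hA'⟩ : ∃ A' : ℕ → ℕ → Set (List Bool), A' = fun r0 r1 => {t | t ∈ A ∧ ∃ (m u : ℕ) (e : ℕ → ℕ), 1 ≤ m ∧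
    FoldG t m u e ∧ (∀ i, i < e 0 → Tight.sg u (lev t i) - Tight.sg u (lev t (e 0)) ≤ 3 * f0 (RG t u e 0).toNat) ∧
    (∀ i, e m < i → i ≤ t.length → Tight.sg (u + (m - 1)) (lev t (e m)) - Tight.sg (u + (m - 1)) (lev t i) ≤
      3 * f1 (RG t u e (m - 1)).toNat) ∧ (∀ gs, RepG t m u e gs → Q gs) ∧ (RG t u e 0).toNat = r0 ∧
      (RG t u e (m - 1)).toNat = r1} := ⟨_, rfl⟩
  have hsub : A ⊆ ⋃ r0, ⋃ r1, A' r0 r1 := by
    intro t ht
    obtain ⟨-, m, u, e, h1, h2, h3, h4, h5⟩ := hA t ht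
    rw [Set.mem_iUnion]
    refine ⟨(RG t u e 0).toNat, ?_⟩
    rw [Set.mem_iUnion]
    refine ⟨(RG t u e (m - 1)).toNat, ?_⟩
    rw [hA']
    exact ⟨ht, m, u, e, h1, h2, h3, h4, h5, rfl, rfl⟩
  obtain ⟨P, hP⟩ : ∃ P : List (List Bool) → Prop, P = fun gs => gs ≠ [] ∧ gs.IsChain LFold ∧
    (∀ g ∈ gs, ∃ k : ℕ, 1 ≤ k ∧ g ∈ Brd k) ∧ Q gs := ⟨_, rfl⟩
  have hone : ∀ r0 r1, gf (A' r0 r1) ≤ ENNReal.ofReal K * ∑' gs : List (List Bool),
      (if P gs then SDN.wl gs * ((if r0 ≤ 3 * hgt (gs.headD []) + 8 ∧ 3 * hgt (gs.headD []) ≤ r0 + 8 then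
        EE0 (f0 r0) lam (rev (gs.headD [])) else 0) * (if r1 ≤ 3 * hgt (gs.getLastD []) + 8 ∧
          3 * hgt (gs.getLastD []) ≤ r1 + 8 then EE0 (f1 r1) lam (gs.getLastD []) else 0)) else 0) := by
    intro r0 r1
    refine (hC (A' r0 r1) (f0 r0) (f1 r1) lam (fun gs => Q gs ∧ (r0 ≤ 3 * hgt (gs.headD []) + 8 ∧
      3 * hgt (gs.headD []) ≤ r0 + 8) ∧ (r1 ≤ 3 * hgt (gs.getLastD []) + 8 ∧ 3 * hgt (gs.getLastD []) ≤ r1 + 8)) ?_).trans
      (mul_le_mul_right (ENNReal.tsum_le_tsum fun gs => ?_) _)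
    · intro t ht
      rw [hA'] at ht
      obtain ⟨htA, m, u, e, h1, h2, h3, h4, h5, h6, h7⟩ := ht
      refine ⟨(hA t htA).1, m, u, e, h1, h2, ?_, ?_, fun gs hR => ⟨h5 gs hR, ?_, ?_⟩⟩
      · rw [← h6]
        exact h3
      · rw [← h7]
        exact h4
      · have hl : 0 < gs.length := by rw [hR.len]; omega
        obtain ⟨k, k1, k2⟩ := hR.brd _ (List.getElem_mem hl)
        have h8 := EX.leaf_hgt k2 k1 (hR.pos 0 hl)
        have h9 : gs.headD [] = gs[0] := by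
          cases gs with
          | nil => simp at hl
          | cons a gs => rfl
        rw [h9, hgt_eq k2]
        have h10 : RG t u e 0 = Tight.sg (u + 0) (lev t (e (0 + 1))) - Tight.sg (u + 0) (lev t (e 0)) := rfl
        have h11 := h2.gap 0 (by omega)
        rw [← h10, abs_le] at h8
        rw [← h10] at h11
        omega
      · have hl : m - 1 < gs.length := by rw [hR.len]; omega
        obtain ⟨k, k1, k2⟩ := hR.brd _ (List.getElem_mem hl)
        have h8 := EX.leaf_hgt k2 k1 (hR.pos (m - 1) hl)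
        have h9 : gs.getLastD [] = gs[m - 1] := by
          have hne : gs ≠ [] := by
            rintro rfl
            simp at hl
          rw [List.getLastD_eq_getLast?, List.getLast?_eq_getLast_of_ne_nil hne, Option.getD_some, List.getLast_eq_getElem]
          congr 1
          rw [hR.len]
        rw [h9, hgt_eq k2]
        have h10 : RG t u e (m - 1) = Tight.sg (u + (m - 1)) (lev t (e (m - 1 + 1))) -
          Tight.sg (u + (m - 1)) (lev t (e (m - 1))) := rfl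
        have h11 := h2.gap (m - 1) (by omega)
        rw [← h10, abs_le] at h8
        rw [← h10] at h11
        omega
    · rw [hP]
      by_cases hg : gs ≠ [] ∧ gs.IsChain LFold ∧ (∀ g ∈ gs, ∃ k : ℕ, 1 ≤ k ∧ g ∈ Brd k) ∧
        (Q gs ∧ (r0 ≤ 3 * hgt (gs.headD []) + 8 ∧ 3 * hgt (gs.headD []) ≤ r0 + 8) ∧
          (r1 ≤ 3 * hgt (gs.getLastD []) + 8 ∧ 3 * hgt (gs.getLastD []) ≤ r1 + 8))
      · rw [if_pos hg]
        obtain ⟨g1, g2, g3, g4, g5, g6⟩ := hg
        simp only [if_pos g5, if_pos g6]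
        rw [if_pos ⟨g1, g2, g3, g4⟩]
      · rw [if_neg hg]
        exact zero_le
  -- the sum
  have hB : ∀ gs : List (List Bool), (∑' (r0 : ℕ) (r1 : ℕ), (if P gs then SDN.wl gs * ((if r0 ≤ 3 * hgt (gs.headD []) + 8 ∧
        3 * hgt (gs.headD []) ≤ r0 + 8 then EE0 (f0 r0) lam (rev (gs.headD [])) else 0) *
        (if r1 ≤ 3 * hgt (gs.getLastD []) + 8 ∧ 3 * hgt (gs.getLastD []) ≤ r1 + 8 then EE0 (f1 r1) lam (gs.getLastD [])
          else 0)) else 0)) ≤ 289 * (if P gs then SDN.wl gs * (EE0 (f0 (3 * hgt (gs.headD []) + 8)) lam (rev (gs.headD [])) *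
        EE0 (f1 (3 * hgt (gs.getLastD []) + 8)) lam (gs.getLastD [])) else 0) := by
    intro gs
    by_cases hg : P gs
    · simp only [if_pos hg]
      have e1 := sum_near (hgt (gs.headD [])) (fun r0 => EE0 (f0 r0) lam (rev (gs.headD [])))
        (EE0 (f0 (3 * hgt (gs.headD []) + 8)) lam (rev (gs.headD []))) (fun r hr => EE0_mono (hf0 hr) _)
      have e2 := sum_near (hgt (gs.getLastD [])) (fun r1 => EE0 (f1 r1) lam (gs.getLastD []))
        (EE0 (f1 (3 * hgt (gs.getLastD []) + 8)) lam (gs.getLastD [])) (fun r hr => EE0_mono (hf1 hr) _)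
      simp only [ENNReal.tsum_mul_left]
      simp only [ENNReal.tsum_mul_right]
      calc SDN.wl gs * ((∑' r0 : ℕ, (if r0 ≤ 3 * hgt (gs.headD []) + 8 ∧ 3 * hgt (gs.headD []) ≤ r0 + 8 then
            EE0 (f0 r0) lam (rev (gs.headD [])) else 0)) * (∑' r1 : ℕ, (if r1 ≤ 3 * hgt (gs.getLastD []) + 8 ∧
              3 * hgt (gs.getLastD []) ≤ r1 + 8 then EE0 (f1 r1) lam (gs.getLastD []) else 0)))
          ≤ SDN.wl gs * ((17 * EE0 (f0 (3 * hgt (gs.headD []) + 8)) lam (rev (gs.headD []))) *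
            (17 * EE0 (f1 (3 * hgt (gs.getLastD []) + 8)) lam (gs.getLastD []))) :=
            mul_le_mul_right (mul_le_mul' e1 e2) _
        _ = _ := by
            have : (289 : ℝ≥0∞) = 17 * 17 := by norm_num
            rw [this]
            ring
    · simp only [if_neg hg, tsum_zero, mul_zero, le_refl]
  have h289 : ENNReal.ofReal (K * 289) = ENNReal.ofReal K * 289 := by
    rw [ENNReal.ofReal_mul (by linarith)]
    congr 1
    norm_num
  rw [hP] at hone hB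
  refine (gf_mono hsub).trans ?_
  refine (ENNReal.tsum_iUnion_le_tsum (fun t => wE t) _).trans ?_
  refine (ENNReal.tsum_le_tsum fun r0 => (ENNReal.tsum_iUnion_le_tsum (fun t => wE t) _).trans
    (ENNReal.tsum_le_tsum fun r1 => hone r0 r1)).trans ?_
  simp only [ENNReal.tsum_mul_left]
  rw [h289, mul_assoc, ← ENNReal.tsum_mul_left (a := (289 : ℝ≥0∞))]
  refine mul_le_mul' le_rfl ?_
  have hcomm : ∀ F : ℕ → ℕ → List (List Bool) → ℝ≥0∞, ∑' (r0 : ℕ) (r1 : ℕ) (gs : List (List Bool)), F r0 r1 gs =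
      ∑' (gs : List (List Bool)) (r0 : ℕ) (r1 : ℕ), F r0 r1 gs := by
    intro F
    calc ∑' (r0 : ℕ) (r1 : ℕ) (gs : List (List Bool)), F r0 r1 gs =
          ∑' (r0 : ℕ) (gs : List (List Bool)) (r1 : ℕ), F r0 r1 gs := tsum_congr fun r0 => ENNReal.tsum_comm
      _ = _ := ENNReal.tsum_comm
  rw [hcomm]
  refine ENNReal.tsum_le_tsum fun gs => ?_
  have h := hB gs
  convert h using 3

end NTW

end HexObs
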