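import Pool.Agent.NTW.RepDefs
import Pool.Agent.NT.Chain

/-!
NTW: weights of a class of self-avoiding words from the representation with two free ends (cover_gen, cover_two).
-/

set_option autoImplicit false

namespace HexObs

namespace NTW

open Finset TS SDN

open scoped ENNReal

namespace CovA

lemma xcE_ne : ENNReal.ofReal xc ≠ 0 := (ENNReal.ofReal_pos.2 xc_pos).ne'

lemma xcE_le : ENNReal.ofReal xc ≤ 1 := by
  rw [← ENNReal.ofReal_one]
  exact ENNReal.ofReal_le_ofReal xc_bounds.2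

lemma wO_eq (o : Option (List Bool)) : wO o = ENNReal.ofReal xc ^ (o.getD []).length := by
  cases o with
  | none => simp [wO]
  | some W => exact wE_eq_pow W

/-- the weight of a word of given length -/
lemma wE_bound {t : List Bool} {o o' : Option (List Bool)} {gs : List (List Bool)} (hne : ∀ g ∈ gs, g ≠ []) (hgs : gs ≠ [])
    (h : (o.getD []).length + (unf gs).length + (o'.getD []).length ≤ t.length + 10) :
    wE t ≤ ENNReal.ofReal (xc⁻¹ ^ 10) * (wO o * SDN.wl gs * wO o') := by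
  have hx := xc_pos
  have h1 : ENNReal.ofReal (xc⁻¹ ^ 10) * ENNReal.ofReal xc ^ 10 = 1 := by
    rw [← ENNReal.ofReal_pow hx.le, ← ENNReal.ofReal_mul (by positivity), ← mul_pow, inv_mul_cancel₀ hx.ne', one_pow,
      ENNReal.ofReal_one]
  calc wE t = ENNReal.ofReal (xc⁻¹ ^ 10) * (ENNReal.ofReal xc ^ (t.length + 10)) := by
        rw [pow_add, mul_comm (ENNReal.ofReal xc ^ t.length), ← mul_assoc, h1, one_mul, wE_eq_pow]
    _ ≤ ENNReal.ofReal (xc⁻¹ ^ 10) *
        (ENNReal.ofReal xc ^ ((o.getD []).length + (unf gs).length + (o'.getD []).length)) :=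
        mul_le_mul' le_rfl (pow_le_pow_of_le_one zero_le xcE_le h)
    _ = ENNReal.ofReal (xc⁻¹ ^ 10) * (wO o * wE (unf gs) * wO o') := by
        rw [pow_add, pow_add, wO_eq, wO_eq, wE_eq_pow]
    _ ≤ _ := mul_le_mul' le_rfl (mul_le_mul' (mul_le_mul' le_rfl (NTm.wE_unf hne hgs)) le_rfl)

end CovA

open CovA

/-- the length of a leaf of a chain -/
lemma length_le_unf {gs : List (List Bool)} (hne : ∀ g ∈ gs, g ≠ []) {g : List Bool} (hg : g ∈ gs) :
    g.length ≤ (unf gs).length := by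
  have hgs : gs ≠ [] := List.ne_nil_of_mem hg
  have h1 := unf_length hne hgs
  have h2 : g.length ≤ (gs.map List.length).sum := List.le_sum_of_mem (List.mem_map.2 ⟨g, hg, rfl⟩)
  have h3 : 1 ≤ gs.length := List.length_pos_iff.2 hgs
  omega

open Classical in
/-- **cover_gen** -/
theorem cover_gen (hR : RepTwo) : ∃ K : ℝ, 1 ≤ K ∧ ∀ (A : Set (List Bool)) (N0 N1 lam : ℕ)
    (Q : Option (List Bool) → List (List Bool) → Option (List Bool) → Prop),
    (∀ t ∈ A, t ∈ SAL lam ∧ ∃ (m u : ℕ) (e : ℕ → ℕ), 1 ≤ m ∧ FoldG t m u e ∧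
      (∀ i, i < e 0 → Tight.sg u (lev t i) - Tight.sg u (lev t (e 0)) ≤ 3 * N0) ∧
      (∀ i, e m < i → i ≤ t.length →
        Tight.sg (u + (m - 1)) (lev t (e m)) - Tight.sg (u + (m - 1)) (lev t i) ≤ 3 * N1) ∧
      ∀ o gs o', RepG t m u e gs → DispR t m u o gs o' → Q o gs o') →
    gf A ≤ ENNReal.ofReal K * ∑' (o : Option (List Bool)) (gs : List (List Bool)) (o' : Option (List Bool)),
      (if gs ≠ [] ∧ gs.IsChain LFold ∧ (∀ g ∈ gs, ∃ k : ℕ, 1 ≤ k ∧ g ∈ Brd k) ∧ Q o gs o' ∧
        (∀ W ∈ o, W ∈ SSt N0 ∧ LFold (rev (gs.headD [])) W ∧ (gs.headD []).length + W.length ≤ lam + 20) ∧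
        (∀ W ∈ o', W ∈ SSt N1 ∧ LFold (gs.getLastD []) W ∧ (gs.getLastD []).length + W.length ≤ lam + 20)
      then wO o * SDN.wl gs * wO o' else 0) := by
  obtain ⟨asm, hR⟩ := hR
  have hx := xc_pos
  have hx1 := xc_bounds.2
  refine ⟨16 * xc⁻¹ ^ 10, ?_, ?_⟩
  · have h1 : 1 ≤ xc⁻¹ := (one_le_inv₀ hx).2 hx1
    have h2 : 1 ≤ xc⁻¹ ^ 10 := one_le_pow₀ h1
    linarith
  intro A N0 N1 lam Q hA
  obtain ⟨F, hF⟩ : ∃ F : Option (List Bool) → List (List Bool) → Option (List Bool) → ℝ≥0∞,
    F = fun o gs o' => (if gs ≠ [] ∧ gs.IsChain LFold ∧ (∀ g ∈ gs, ∃ k : ℕ, 1 ≤ k ∧ g ∈ Brd k) ∧ Q o gs o' ∧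
        (∀ W ∈ o, W ∈ SSt N0 ∧ LFold (rev (gs.headD [])) W ∧ (gs.headD []).length + W.length ≤ lam + 20) ∧
        (∀ W ∈ o', W ∈ SSt N1 ∧ LFold (gs.getLastD []) W ∧ (gs.getLastD []).length + W.length ≤ lam + 20)
      then wO o * SDN.wl gs * wO o' else 0) := ⟨_, rfl⟩
  have hgoal : gf A ≤ ENNReal.ofReal (16 * xc⁻¹ ^ 10) * ∑' (o : Option (List Bool)) (gs : List (List Bool))
      (o' : Option (List Bool)), F o gs o' := by
    rw [← Rec8.sw_one]
    refine (Rec8.sw_cover A (fun _ => 1)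
      (fun x : Fin 16 × (Option (List Bool) × (List (List Bool) × Option (List Bool))) =>
        ENNReal.ofReal (xc⁻¹ ^ 10) * F x.2.1 x.2.2.1 x.2.2.2) (fun x => asm x.1 x.2.1 x.2.2.1 x.2.2.2) ?_).trans ?_
    · intro t ht
      obtain ⟨h1, m, u, e, hm, hG, h0, h0', hQ⟩ := hA t ht
      obtain ⟨c, o, o', gs, r1, r2, r3, r4, r5, r6, r7⟩ := hR t m u e N0 N1 h1.1 hm hG h0 h0'
      refine ⟨(c, o, gs, o'), r4.symm, ?_⟩
      have hlt := h1.2
      have hne : ∀ g ∈ gs, g ≠ [] := by
        intro g hg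
        obtain ⟨k, k1, k2⟩ := r1.brd g hg
        exact Brd_ne_nil k2 k1
      have hgs : gs ≠ [] := by
        rintro rfl
        have := r1.len
        simp at this
        omega
      have hhead : gs.headD [] ∈ gs := by
        cases gs with
        | nil => exact absurd rfl hgs
        | cons g gs => exact List.mem_cons_self
      have hlast : gs.getLastD [] ∈ gs := by
        rw [List.getLastD_eq_getLast?, List.getLast?_eq_getLast_of_ne_nil hgs]
        exact List.getLast_mem hgs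
      have l1 := length_le_unf hne hhead
      have l2 := length_le_unf hne hlast
      rw [hF]
      simp only
      rw [if_pos]
      · rw [mul_one]
        exact wE_bound hne hgs r5
      · refine ⟨hgs, r1.ch, r1.brd, hQ o gs o' r1 r7, ?_, ?_⟩
        · intro W hW
          obtain ⟨w1, w2⟩ := r2 W hW
          refine ⟨w1, w2, ?_⟩
          have : (o.getD []).length = W.length := by
            rw [Option.mem_def.1 hW]
            rfl
          omega
        · intro W hW
          obtain ⟨w1, w2⟩ := r3 W hW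
          refine ⟨w1, w2, ?_⟩
          have : (o'.getD []).length = W.length := by
            rw [Option.mem_def.1 hW]
            rfl
          omega
    · have e1 : ∀ c : Fin 16, ∑' y : Option (List Bool) × (List (List Bool) × Option (List Bool)),
          ENNReal.ofReal (xc⁻¹ ^ 10) * F (c, y).2.1 (c, y).2.2.1 (c, y).2.2.2 =
          ENNReal.ofReal (xc⁻¹ ^ 10) * ∑' (o : Option (List Bool)) (gs : List (List Bool)) (o' : Option (List Bool)),
            F o gs o' := by
        intro c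
        rw [ENNReal.tsum_mul_left, ENNReal.tsum_prod']
        congr 1
        refine tsum_congr fun o => ?_
        rw [ENNReal.tsum_prod']
      rw [ENNReal.tsum_prod', tsum_fintype, Finset.sum_congr rfl fun c _ => e1 c, Finset.sum_const, Finset.card_univ,
        Fintype.card_fin, nsmul_eq_mul, ENNReal.ofReal_mul (by norm_num), mul_assoc]
      refine mul_le_mul' ?_ le_rfl
      norm_num
  rw [hF] at hgoal
  exact hgoal

lemma tsum_some {G : Option (List Bool) → ℝ≥0∞} (h : G none = 0) : ∑' o, G o = ∑' W : List Bool, G (some W) := by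
  refine ((Option.some_injective (List Bool)).tsum_eq (f := G) ?_).symm
  intro o ho
  cases o with
  | none => exact absurd h ho
  | some W => exact ⟨W, rfl⟩

lemma tsum_option {F : Option (List Bool) → ℝ≥0∞} : ∑' o, F o = F none + ∑' W : List Bool, F (some W) := by
  classical
  rw [ENNReal.tsum_eq_add_tsum_ite (none : Option (List Bool)), tsum_some]
  · congr 1
    exact tsum_congr fun W => by rw [if_neg (by simp)]
  · rw [if_pos rfl]

/-- the sum over one free end -/
lemma sum_end (P : List Bool → Prop) : ∑' o : Option (List Bool), (Set.indicator {o | ∀ W ∈ o, P W} wO o) =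
    1 + gf {W | P W} := by
  classical
  rw [tsum_option, ← Rec8.sw_one, Rec8.sw_ind]
  congr 1
  · rw [Set.indicator_of_mem]
    · rfl
    · intro W hW
      simp at hW
  · refine tsum_congr fun W => ?_
    by_cases h : P W
    · rw [Set.indicator_of_mem, if_pos (show W ∈ {W | P W} from h), mul_one]
      · rfl
      · intro W' hW'
        rw [Option.mem_def, Option.some.injEq] at hW'
        rw [← hW']
        exact h
    · rw [Set.indicator_of_notMem, if_neg (show W ∉ {W | P W} from h)]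
      intro h'
      exact h (h' W rfl)

open Classical in
/-- **cover_two** -/
theorem cover_two (hR : RepTwo) : ∃ K : ℝ, 1 ≤ K ∧ ∀ (A : Set (List Bool)) (N0 N1 lam : ℕ) (Q : List (List Bool) → Prop),
    (∀ t ∈ A, t ∈ SAL lam ∧ ∃ (m u : ℕ) (e : ℕ → ℕ), 1 ≤ m ∧ FoldG t m u e ∧
      (∀ i, i < e 0 → Tight.sg u (lev t i) - Tight.sg u (lev t (e 0)) ≤ 3 * N0) ∧
      (∀ i, e m < i → i ≤ t.length →
        Tight.sg (u + (m - 1)) (lev t (e m)) - Tight.sg (u + (m - 1)) (lev t i) ≤ 3 * N1) ∧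
      ∀ gs, RepG t m u e gs → Q gs) →
    gf A ≤ ENNReal.ofReal K * ∑' gs : List (List Bool),
      (if gs ≠ [] ∧ gs.IsChain LFold ∧ (∀ g ∈ gs, ∃ k : ℕ, 1 ≤ k ∧ g ∈ Brd k) ∧ Q gs then
        SDN.wl gs * (EE0 N0 lam (rev (gs.headD [])) * EE0 N1 lam (gs.getLastD [])) else 0) := by
  obtain ⟨K, hK, h⟩ := cover_gen hR
  refine ⟨K, hK, fun A N0 N1 lam Q hA => ?_⟩
  refine (h A N0 N1 lam (fun _ gs _ => Q gs) fun t ht => ?_).trans ?_
  · obtain ⟨h1, m, u, e, h2, h3, h4, h5, h6⟩ := hA t ht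
    exact ⟨h1, m, u, e, h2, h3, h4, h5, fun o gs o' h7 _ => h6 gs h7⟩
  · refine mul_le_mul' le_rfl ?_
    rw [ENNReal.tsum_comm]
    refine ENNReal.tsum_le_tsum fun gs => ?_
    by_cases hg : gs ≠ [] ∧ gs.IsChain LFold ∧ (∀ g ∈ gs, ∃ k : ℕ, 1 ≤ k ∧ g ∈ Brd k) ∧ Q gs
    · rw [if_pos hg]
      have e1 : EE0 N0 lam (rev (gs.headD [])) = ∑' o : Option (List Bool), (Set.indicator {o | ∀ W ∈ o, W ∈ SSt N0 ∧
          LFold (rev (gs.headD [])) W ∧ (gs.headD []).length + W.length ≤ lam + 20} wO o) := by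
        rw [sum_end]
        unfold EE0
        rw [rev_length]
      have e2 : EE0 N1 lam (gs.getLastD []) = ∑' o : Option (List Bool), (Set.indicator {o | ∀ W ∈ o, W ∈ SSt N1 ∧
          LFold (gs.getLastD []) W ∧ (gs.getLastD []).length + W.length ≤ lam + 20} wO o) := by
        rw [sum_end]
        rfl
      rw [e1, e2, ← ENNReal.tsum_mul_right, ← ENNReal.tsum_mul_left]
      refine ENNReal.tsum_le_tsum fun o => ?_
      rw [← ENNReal.tsum_mul_left, ← ENNReal.tsum_mul_left]
      refine ENNReal.tsum_le_tsum fun o' => ?_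
      split_ifs with hc
      · obtain ⟨-, -, -, -, c1, c2⟩ := hc
        rw [Set.indicator_of_mem (show o ∈ {o : Option (List Bool) | ∀ W ∈ o, W ∈ SSt N0 ∧
          LFold (rev (gs.headD [])) W ∧ (gs.headD []).length + W.length ≤ lam + 20} from c1),
          Set.indicator_of_mem (show o' ∈ {o : Option (List Bool) | ∀ W ∈ o, W ∈ SSt N1 ∧
          LFold (gs.getLastD []) W ∧ (gs.getLastD []).length + W.length ≤ lam + 20} from c2)]
        apply le_of_eq
        ring
      · exact zero_le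
    · rw [if_neg hg]
      apply le_of_eq
      rw [ENNReal.tsum_eq_zero]
      intro o
      rw [ENNReal.tsum_eq_zero]
      intro o'
      rw [if_neg]
      exact fun hc => hg ⟨hc.1, hc.2.1, hc.2.2.1, hc.2.2.2.1⟩

end NTW

end HexObs
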