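import Pool.Agent.BAR.HCut

/-!
NTW, block (A): the bootstrap of the norms of the ends closes (numbers only).
-/

set_option autoImplicit false

namespace HexObs

namespace NTW

open Finset

open scoped ENNReal

/-- bridges are half plane words -/
theorem HH_low : ∃ K : ℝ, 1 ≤ K ∧ ∀ N, ENNReal.ofReal (UU N) ≤ ENNReal.ofReal K * BAR.HH N :=
  ⟨1, le_refl 1, fun N => by simpa using BAR.UU_le_HH N⟩

theorem Cl_abs {z a : ℝ≥0∞} {e : ℝ} (hz : z ≠ ⊤) (he : e ≤ 1 / 4) (h : z ≤ a + ENNReal.ofReal e * z) :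
    z ≤ ENNReal.ofReal (4 / 3) * a := by
  rcases eq_or_ne a ⊤ with ha | ha
  · rw [ha, ENNReal.mul_top (by simp)]
    exact le_top
  · have h1 : z ≤ a + ENNReal.ofReal (1 / 4) * z := h.trans (by gcongr)
    lift z to NNReal using hz
    lift a to NNReal using ha
    have e1 : ENNReal.ofReal (1 / 4) = ((1 / 4 : NNReal) : ℝ≥0∞) := by
      rw [ENNReal.ofReal, Real.toNNReal_div (by norm_num)]
      simp
    have e2 : ENNReal.ofReal (4 / 3) = ((4 / 3 : NNReal) : ℝ≥0∞) := by
      rw [ENNReal.ofReal, Real.toNNReal_div (by norm_num)]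
      simp
    rw [e1] at h1
    rw [e2]
    have h2 : z ≤ a + 1 / 4 * z := by exact_mod_cast h1
    have h3 : z ≤ 4 / 3 * a := by
      rw [← NNReal.coe_le_coe] at h2 ⊢
      push_cast at h2 ⊢
      linarith
    exact_mod_cast h3

theorem Cl_geo {K c : ℝ} (hK : 0 ≤ K) (hc : 0 < c) {ρ : ℝ} (hρ : 0 < ρ) :
    ∃ c0 : ℕ, 6 ≤ c0 ∧ ∀ j : ℕ,
      ∑ i ∈ Ico 5 (j + 1 - c0), K * (2 : ℝ) ^ (-(c * ((j : ℝ) - i))) ≤ ρ := by
  have hq0 : (0 : ℝ) < (2 : ℝ) ^ (-c) := by positivity
  have hq1 : (2 : ℝ) ^ (-c) < 1 := Real.rpow_lt_one_of_one_lt_of_neg (by norm_num) (by linarith)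
  set q : ℝ := (2 : ℝ) ^ (-c) with hq
  have hlim : Filter.Tendsto (fun n : ℕ => K / (1 - q) * q ^ n) Filter.atTop (nhds 0) := by
    have := (tendsto_pow_atTop_nhds_zero_of_lt_one hq0.le hq1).const_mul (K / (1 - q))
    simpa using this
  obtain ⟨n0, hn0⟩ := (hlim.eventually (eventually_lt_nhds hρ)).exists_forall_of_atTop
  refine ⟨max n0 6, le_max_right _ _, fun j => ?_⟩
  have hterm : ∀ i ∈ Ico 5 (j + 1 - max n0 6), K * (2 : ℝ) ^ (-(c * ((j : ℝ) - i))) = K * q ^ (j - i) := by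
    intro i hi
    have hi' := mem_Ico.1 hi
    have h1 : ((j - i : ℕ) : ℝ) = (j : ℝ) - i := by
      rw [Nat.cast_sub (by omega)]
    rw [hq, ← Real.rpow_natCast, ← Real.rpow_mul (by norm_num), h1]
    congr 2
    ring
  rw [sum_congr rfl hterm, ← mul_sum]
  have hsum : ∑ i ∈ Ico 5 (j + 1 - max n0 6), q ^ (j - i) ≤ q ^ (max n0 6) / (1 - q) := by
    have hs : ∀ m : ℕ, ∀ a : ℕ, m ≤ j + 1 → ∑ i ∈ Ico a (j + 1 - m), q ^ (j - i) ≤ q ^ m / (1 - q) := by
      intro m a hm
      have e1 : ∑ i ∈ Ico a (j + 1 - m), q ^ (j - i) ≤ ∑ i ∈ range (j + 1 - m), q ^ (j - i) := by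
        refine sum_le_sum_of_subset_of_nonneg ?_ (fun _ _ _ => by positivity)
        intro i hi
        simp only [mem_Ico, mem_range] at hi ⊢
        omega
      refine e1.trans ?_
      have e2 : ∑ i ∈ range (j + 1 - m), q ^ (j - i) = ∑ i ∈ range (j + 1 - m), q ^ m * q ^ i := by
        rw [← sum_range_reflect]
        refine sum_congr rfl fun i hi => ?_
        have hi' := mem_range.1 hi
        rw [← pow_add]
        congr 1
        omega
      rw [e2, ← mul_sum, div_eq_mul_inv]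
      refine mul_le_mul_of_nonneg_left ?_ (by positivity)
      have h3 : (∑ i ∈ range (j + 1 - m), q ^ i) * (1 - q) = 1 - q ^ (j + 1 - m) := by
        have := geom_sum_mul q (j + 1 - m)
        linarith
      have h4 : (0 : ℝ) < 1 - q := by linarith
      rw [← mul_inv_cancel_right₀ h4.ne' (∑ i ∈ range (j + 1 - m), q ^ i), h3]
      have h5 : (0 : ℝ) ≤ q ^ (j + 1 - m) := by positivity
      calc (1 - q ^ (j + 1 - m)) * (1 - q)⁻¹ ≤ 1 * (1 - q)⁻¹ := by
            refine mul_le_mul_of_nonneg_right (by linarith) (by positivity)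
        _ = _ := one_mul _
    rcases le_or_gt (max n0 6) (j + 1) with h1 | h1
    · exact hs _ 5 h1
    · rw [Nat.sub_eq_zero_of_le h1.le]
      simp only [Ico_eq_empty_of_le, zero_le, sum_empty]
      have : 0 < 1 - q := by linarith
      positivity
  have h2 := hn0 (max n0 6) (le_max_left _ _)
  calc K * ∑ i ∈ Ico 5 (j + 1 - max n0 6), q ^ (j - i) ≤ K * (q ^ (max n0 6) / (1 - q)) :=
        mul_le_mul_of_nonneg_left hsum hK
    _ = K / (1 - q) * q ^ (max n0 6) := by ring
    _ ≤ ρ := h2.le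

/-- the bootstrap closes: a recursion with a geometric tail and a small coefficient for the recent terms -/
theorem close1 : ∀ (K c : ℝ), 1 ≤ K → 0 < c → ∃ (c0 : ℕ) (ε : ℝ), 6 ≤ c0 ∧ 0 < ε ∧
    ∀ (C1 : ℝ) (z b : ℕ → ℝ≥0∞) (J : ℕ), 1 ≤ C1 → (∀ j, 5 ≤ j → j ≤ J → z j ≠ ⊤) → Monotone b →
      (∀ j, 5 ≤ j → j ≤ J → z j ≤ ENNReal.ofReal C1 * b j +
        ∑ i ∈ Ico 5 (j + 1 - c0), ENNReal.ofReal (K * (2 : ℝ) ^ (-(c * ((j : ℝ) - i)))) * z i +
        ENNReal.ofReal ε * (∑ i ∈ Ico (max 5 (j + 1 - c0)) j, z i + z j)) →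
      ∀ j, 5 ≤ j → j ≤ J → z j ≤ ENNReal.ofReal (2 * C1) * b j := by
  intro K c hK hc
  obtain ⟨c0, hc0, hgeo⟩ := Cl_geo (K := K) (c := c) (by linarith) hc (ρ := 1 / 8) (by norm_num)
  refine ⟨c0, 1 / (16 * (c0 + 1)), hc0, by positivity, ?_⟩
  intro C1 z b J hC1 hfin hb hrec j
  induction j using Nat.strong_induction_on with
  | _ j ih =>
    intro h5 hJ
    have hC : (0 : ℝ) ≤ 2 * C1 := by linarith
    set ε : ℝ := 1 / (16 * (c0 + 1)) with hε
    have hε0 : 0 < ε := by positivity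
    have hεc : ε * c0 ≤ 1 / 16 := by
      rw [hε, div_mul_eq_mul_div, div_le_div_iff₀ (by positivity) (by norm_num)]
      ring_nf
      linarith
    have hε4 : ε ≤ 1 / 4 := by
      rw [hε, div_le_div_iff₀ (by positivity) (by norm_num)]
      have : (0 : ℝ) ≤ c0 := by positivity
      linarith
    have hz : ∀ i, 5 ≤ i → i < j → z i ≤ ENNReal.ofReal (2 * C1) * b j := fun i h1 h2 =>
      (ih i h2 h1 (by omega)).trans (by gcongr; exact hb h2.le)
    -- the geometric part
    have hA : ∑ i ∈ Ico 5 (j + 1 - c0), ENNReal.ofReal (K * (2 : ℝ) ^ (-(c * ((j : ℝ) - i)))) * z i ≤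
        ENNReal.ofReal (1 / 8) * (ENNReal.ofReal (2 * C1) * b j) := by
      calc ∑ i ∈ Ico 5 (j + 1 - c0), ENNReal.ofReal (K * (2 : ℝ) ^ (-(c * ((j : ℝ) - i)))) * z i
          ≤ ∑ i ∈ Ico 5 (j + 1 - c0), ENNReal.ofReal (K * (2 : ℝ) ^ (-(c * ((j : ℝ) - i)))) *
              (ENNReal.ofReal (2 * C1) * b j) := by
            refine sum_le_sum fun i hi => ?_
            have hi' := mem_Ico.1 hi
            gcongr
            exact hz i hi'.1 (by omega)
        _ = ENNReal.ofReal (∑ i ∈ Ico 5 (j + 1 - c0), K * (2 : ℝ) ^ (-(c * ((j : ℝ) - i)))) *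
              (ENNReal.ofReal (2 * C1) * b j) := by
            rw [← sum_mul, ENNReal.ofReal_sum_of_nonneg]
            intro i _
            have : (0 : ℝ) ≤ K := by linarith
            positivity
        _ ≤ _ := by
            gcongr
            exact hgeo j
    -- the recent part
    have hB : ∑ i ∈ Ico (max 5 (j + 1 - c0)) j, z i ≤ ENNReal.ofReal c0 * (ENNReal.ofReal (2 * C1) * b j) := by
      calc ∑ i ∈ Ico (max 5 (j + 1 - c0)) j, z i
          ≤ ∑ i ∈ Ico (max 5 (j + 1 - c0)) j, ENNReal.ofReal (2 * C1) * b j := by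
            refine sum_le_sum fun i hi => ?_
            have hi' := mem_Ico.1 hi
            exact hz i (le_trans (le_max_left _ _) hi'.1) hi'.2
        _ = ((Ico (max 5 (j + 1 - c0)) j).card : ℝ≥0∞) * (ENNReal.ofReal (2 * C1) * b j) := by
            rw [sum_const, nsmul_eq_mul]
        _ ≤ _ := by
            gcongr
            rw [Nat.card_Ico, ENNReal.ofReal_natCast]
            have : j - max 5 (j + 1 - c0) ≤ c0 := by omega
            exact_mod_cast this
    have hC1' : ENNReal.ofReal C1 * b j = ENNReal.ofReal (1 / 2) * (ENNReal.ofReal (2 * C1) * b j) := by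
      rw [← mul_assoc, ← ENNReal.ofReal_mul (by norm_num)]
      congr 2
      ring
    have h1 := hrec j h5 hJ
    have h2 : z j ≤ ENNReal.ofReal (11 / 16) * (ENNReal.ofReal (2 * C1) * b j) + ENNReal.ofReal ε * z j := by
      set t : ℝ≥0∞ := ENNReal.ofReal (2 * C1) * b j with ht
      calc z j ≤ _ := h1
        _ ≤ ENNReal.ofReal (1 / 2) * t + ENNReal.ofReal (1 / 8) * t +
              ENNReal.ofReal ε * (ENNReal.ofReal c0 * t + z j) := by
            rw [hC1']
            gcongr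
        _ = (ENNReal.ofReal (1 / 2) + ENNReal.ofReal (1 / 8) + ENNReal.ofReal (ε * c0)) * t +
              ENNReal.ofReal ε * z j := by
            rw [ENNReal.ofReal_mul hε0.le]
            ring
        _ ≤ (ENNReal.ofReal (1 / 2) + ENNReal.ofReal (1 / 8) + ENNReal.ofReal (1 / 16)) * t +
              ENNReal.ofReal ε * z j := by
            gcongr
        _ = _ := by
            rw [← ENNReal.ofReal_add (by norm_num) (by norm_num), ← ENNReal.ofReal_add (by norm_num) (by norm_num)]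
            norm_num
    have h3 := Cl_abs (hfin j h5 hJ) hε4 h2
    calc z j ≤ _ := h3
      _ = ENNReal.ofReal (11 / 12) * (ENNReal.ofReal (2 * C1) * b j) := by
          rw [← mul_assoc, ← ENNReal.ofReal_mul (by norm_num)]
          norm_num
      _ ≤ 1 * (ENNReal.ofReal (2 * C1) * b j) := by
          gcongr
          rw [← ENNReal.ofReal_one]
          exact ENNReal.ofReal_le_ofReal (by norm_num)
      _ = _ := one_mul _

end NTW

end HexObs
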