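import Pool.Agent.NTW.DefsW
import Pool.Agent.PHW.DefsQ

/-!
NTW: half plane words with a bound lam of the number of letters (captain's decision, 4 Dec 01:22).
-/

set_option autoImplicit false

namespace HexObs

namespace NTW

open Finset TS SDN

open scoped ENNReal

/-- weight of the half plane words of height at most N with at most lam letters -/
noncomputable def HHl (N lam : ℕ) : ℝ≥0∞ := gf {W | W ∈ SSt N ∧ W.length ≤ lam}

/-- the end functional with at most lam letters -/
noncomputable def EFl (D N lam : ℕ) (t : List Bool) : ℝ≥0∞ :=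
  gf {W | W ∈ SSt N ∧ W ∉ SSt D ∧ RT D LFold t W ∧ W.length ≤ lam}

/-- hanging walks; the leaf and the walk together have at most lam letters -/
noncomputable def GLl (m lam : ℕ) (g : List Bool) : ℝ≥0∞ :=
  gf {W | W ∈ SSt m ∧ LFold g W ∧ g.length + W.length ≤ lam}

/-- half of the bridges of height at most 2^i have at most lam letters, for all i ≤ j -/
def QL (j lam : ℕ) : Prop := ∀ i ≤ j, ENNReal.ofReal (UU (2 ^ i)) ≤ 2 * gf {X | (∃ n, n ≤ 2 ^ i ∧ X ∈ Brd n) ∧ X.length ≤ lam}

/-- norm of the free ends of the block i -/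
noncomputable def zl (lam i : ℕ) : ℝ≥0∞ := xT (2 ^ i) (i - 4) (EFl (2 ^ i) (2 ^ (i + 1)) lam)

/-- norm of the free ends of a height in (2^j, N] -/
noncomputable def zNl (lam j N : ℕ) : ℝ≥0∞ := xT (2 ^ j) (j - 4) (EFl (2 ^ j) N lam)

/-- normalised weight of the half plane words, largest value up to the scale j -/
noncomputable def bl (lam j : ℕ) : ℝ≥0∞ := ⨆ i : Fin (j + 1), HHl (2 ^ i.1) lam / ENNReal.ofReal (UU (2 ^ i.1))

end NTW

end HexObs
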