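import Pool.Agent.NTW.HSumF
import Pool.Agent.NTW.DefsL

/-!
NTW, block (A), module HSum with a bound of the number of letters.
-/

set_option autoImplicit false

namespace HexObs

namespace NTW

open Finset ENNReal BAR TS SDN

open Classical in
/-- product form, abstract, with the fronts F h -/
theorem prod_formL (M : ℕ) (w : ℕ → ℝ≥0∞) (c : ℝ≥0∞) (F W : ℕ → Set (List Bool)) (A : ℕ → ℕ → Set (List Bool))
    (S : Set (List Bool)) (h1 : ∀ h r, gf (F h) * gf (W r) ≤ gf (A h r)) (h2 : ∀ h < M, ∀ r, A h r ⊆ S)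
    (h3 : ∀ t, ∑ h ∈ range M, ∑' r : ℕ, (if t ∈ A h r then w r else 0) ≤ c) :
    (∑ h ∈ range M, gf (F h)) * ∑' r : ℕ, w r * gf (W r) ≤ c * gf S := by
  have hgf : ∀ P : Set (List Bool), gf P = ∑' t : List Bool, if t ∈ P then wE t else 0 := by
    intro P
    unfold gf
    rw [tsum_subtype P wE]
    exact tsum_congr fun t => by simp only [Set.indicator_apply]
  calc (∑ h ∈ range M, gf (F h)) * ∑' r : ℕ, w r * gf (W r)
      = ∑ h ∈ range M, ∑' r : ℕ, w r * (gf (F h) * gf (W r)) := by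
        rw [sum_mul]
        refine sum_congr rfl fun h _ => ?_
        rw [← ENNReal.tsum_mul_left]
        exact tsum_congr fun r => by ring
    _ ≤ ∑ h ∈ range M, ∑' r : ℕ, w r * gf (A h r) :=
        sum_le_sum fun h _ => ENNReal.tsum_le_tsum fun r => mul_le_mul_right (h1 h r) _
    _ = ∑ h ∈ range M, ∑' r : ℕ, ∑' t : List Bool, wE t * (if t ∈ A h r then w r else 0) := by
        refine sum_congr rfl fun h _ => tsum_congr fun r => ?_
        rw [hgf, ← ENNReal.tsum_mul_left]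
        refine tsum_congr fun t => ?_
        split_ifs
        · ring
        · rw [mul_zero, mul_zero]
    _ = ∑' t : List Bool, wE t * ∑ h ∈ range M, ∑' r : ℕ, (if t ∈ A h r then w r else 0) := by
        simp only [ENNReal.tsum_comm (α := ℕ) (β := List Bool)]
        rw [← Summable.tsum_finsetSum fun i _ => ENNReal.summable]
        refine tsum_congr fun t => ?_
        rw [mul_sum]
        exact sum_congr rfl fun h _ => ENNReal.tsum_mul_left
    _ ≤ ∑' t : List Bool, (if t ∈ S then wE t else 0) * c := by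
        refine ENNReal.tsum_le_tsum fun t => ?_
        by_cases ht : t ∈ S
        · rw [if_pos ht]
          exact mul_le_mul_right (h3 t) _
        · have h0 : ∑ h ∈ range M, ∑' r : ℕ, (if t ∈ A h r then w r else 0) = 0 := by
            refine sum_eq_zero fun h hh => ?_
            rw [ENNReal.tsum_eq_zero]
            intro r
            rw [if_neg]
            intro hr
            exact ht (h2 h (mem_range.1 hh) r hr)
          rw [h0, mul_zero]
          exact zero_le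
    _ = c * gf S := by
        rw [ENNReal.tsum_mul_right, mul_comm, hgf S]

/-- short bridges of the height h -/
def BS (lam h : ℕ) : Set (List Bool) := {X | X ∈ Brd h ∧ X.length ≤ lam}

/-- the words of the triples with at most lam letters -/
def WJl (E N lam r : ℕ) : Set (List Bool) :=
  {w | ∃ x, TJ E N r x ∧ (x.1 ++ x.2.1).length + x.2.2.length ≤ lam ∧ w = joi (x.1 ++ x.2.1) x.2.2}

/-- a short bridge of height h in front -/
def WJlb (E N lam lam' h r : ℕ) : Set (List Bool) := {t | ∃ x ∈ BS lam' h, ∃ w ∈ WJl E N lam r, t = x ++ w}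

lemma WJl_sub (E N lam r : ℕ) : WJl E N lam r ⊆ WJ E N r := by
  rintro w ⟨x, hx, -, hw⟩
  exact ⟨x, hx, hw⟩

lemma WJlb_sub (E N lam lam' h r : ℕ) : WJlb E N lam lam' h r ⊆ WJb E N h r := by
  rintro t ⟨x, hx, w, hw, ht⟩
  exact ⟨x, hx.1, w, WJl_sub _ _ _ _ hw, ht⟩

lemma WJl_len {E N lam r : ℕ} {w : List Bool} (hw : w ∈ WJl E N lam r) : w.length ≤ lam + 1 := by
  obtain ⟨x, hx, hl, rfl⟩ := hw
  obtain ⟨k, hk, -, hb, -⟩ := TJ_brd hx
  rw [joi_len hb hk]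
  omega

lemma WJlb_mem {E N lam lam' h r : ℕ} {t : List Bool} (ht : t ∈ WJlb E N lam lam' h r) :
    t ∈ SSt (h + N) ∧ t.length ≤ lam + lam' + 1 := by
  refine ⟨WJb_SSt joiMem (WJlb_sub _ _ _ _ _ _ ht), ?_⟩
  obtain ⟨x, hx, w, hw, rfl⟩ := ht
  have h1 := WJl_len hw
  have h2 := hx.2
  rw [List.length_append]
  omega

lemma gf_WJlb (E N lam lam' h r : ℕ) : gf (BS lam' h) * gf (WJl E N lam r) ≤ gf (WJlb E N lam lam' h r) := by
  refine mul_le_gf (fun a ha b hb => ⟨a, ha, b, hb, rfl⟩) ?_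
  intro a ha b hb a' ha' b' hb' he
  obtain ⟨v, hv, h3, h4⟩ := BAR.nested ha.1 ha'.1 (pos_SSt (WJ_SSt joiMem (WJl_sub _ _ _ _ hb)))
    (pos_SSt (WJ_SSt joiMem (WJl_sub _ _ _ _ hb'))) le_rfl he
  rw [Nat.sub_self] at hv
  have hv0 := brd_zero_nil hv
  rw [h3, hv0, List.append_nil]

lemma sw_TJl (E N lam r : ℕ) :
    Rec8.sw (Irr r) (fun P => Rec8.sw {Z | Z ∈ BU ∧ P ++ Z ∈ BrR E N} (fun Z => GLl (hgt (P ++ Z) - 1) lam (P ++ Z))) =
      ∑' x : {x // TJ E N r x ∧ (x.1 ++ x.2.1).length + x.2.2.length ≤ lam}, wE x.1.1 * (wE x.1.2.1 * wE x.1.2.2) := by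
  classical
  have hgf : ∀ P : Set (List Bool), gf P = ∑' t : List Bool, if t ∈ P then wE t else 0 := by
    intro P
    unfold gf
    rw [tsum_subtype P wE]
    exact tsum_congr fun t => by simp only [Set.indicator_apply]
  have e0 : (∑' x : {x // TJ E N r x ∧ (x.1 ++ x.2.1).length + x.2.2.length ≤ lam},
      wE x.1.1 * (wE x.1.2.1 * wE x.1.2.2)) =
    ∑' x : List Bool × List Bool × List Bool,
      if TJ E N r x ∧ (x.1 ++ x.2.1).length + x.2.2.length ≤ lam then wE x.1 * (wE x.2.1 * wE x.2.2) else 0 := by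
      refine (tsum_subtype {x | TJ E N r x ∧ (x.1 ++ x.2.1).length + x.2.2.length ≤ lam}
        (fun x => wE x.1 * (wE x.2.1 * wE x.2.2))).trans ?_
      exact tsum_congr fun t => by simp only [Set.indicator_apply, Set.mem_ofPred_eq]
  rw [e0, ENNReal.tsum_prod', Rec8.sw_ind]
  refine tsum_congr fun P => ?_
  rw [ENNReal.tsum_prod']
  by_cases hP : P ∈ Irr r
  · rw [if_pos hP, Rec8.sw_ind, ← ENNReal.tsum_mul_left]
    refine tsum_congr fun Z => ?_
    by_cases hZ : Z ∈ BU ∧ P ++ Z ∈ BrR E N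
    · have hZ' : Z ∈ {Z | Z ∈ BU ∧ P ++ Z ∈ BrR E N} := hZ
      rw [if_pos hZ']
      unfold GLl
      rw [hgf, ← ENNReal.tsum_mul_left, ← ENNReal.tsum_mul_left]
      refine tsum_congr fun W => ?_
      by_cases hW : W ∈ SSt (hgt (P ++ Z) - 1) ∧ LFold (P ++ Z) W ∧ (P ++ Z).length + W.length ≤ lam
      · have hW' : W ∈ {W | W ∈ SSt (hgt (P ++ Z) - 1) ∧ LFold (P ++ Z) W ∧ (P ++ Z).length + W.length ≤ lam} := hW
        have h3 : TJ E N r (P, Z, W) ∧ ((P, Z, W).1 ++ (P, Z, W).2.1).length + (P, Z, W).2.2.length ≤ lam :=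
          ⟨⟨hP, hZ, hW.1, hW.2.1⟩, hW.2.2⟩
        rw [if_pos hW', if_pos h3]
      · have hW' : W ∉ {W | W ∈ SSt (hgt (P ++ Z) - 1) ∧ LFold (P ++ Z) W ∧ (P ++ Z).length + W.length ≤ lam} := hW
        have h3 : ¬ (TJ E N r (P, Z, W) ∧ ((P, Z, W).1 ++ (P, Z, W).2.1).length + (P, Z, W).2.2.length ≤ lam) :=
          fun h => hW ⟨h.1.2.2.1, h.1.2.2.2, h.2⟩
        rw [if_neg hW', if_neg h3, mul_zero, mul_zero]
    · have hZ' : Z ∉ {Z | Z ∈ BU ∧ P ++ Z ∈ BrR E N} := hZ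
      rw [if_neg hZ', mul_zero]
      symm
      rw [ENNReal.tsum_eq_zero]
      intro W
      rw [if_neg]
      exact fun h => hZ h.1.2.1
  · rw [if_neg hP]
    symm
    rw [ENNReal.tsum_eq_zero]
    intro Z
    rw [ENNReal.tsum_eq_zero]
    intro W
    rw [if_neg]
    exact fun h => hP h.1.1

lemma sw_le_WJl (E N lam r : ℕ) : ENNReal.ofReal xc *
    Rec8.sw (Irr r) (fun P => Rec8.sw {Z | Z ∈ BU ∧ P ++ Z ∈ BrR E N} (fun Z => GLl (hgt (P ++ Z) - 1) lam (P ++ Z))) ≤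
      gf (WJl E N lam r) := by
  rw [sw_TJl, ← ENNReal.tsum_mul_left]
  let ψ : {x // TJ E N r x ∧ (x.1 ++ x.2.1).length + x.2.2.length ≤ lam} → {w // w ∈ WJl E N lam r} :=
    fun x => ⟨joi (x.1.1 ++ x.1.2.1) x.1.2.2, x.1, x.2.1, x.2.2, rfl⟩
  have hψ : Function.Injective ψ := by
    rintro ⟨⟨P, Z, W⟩, hx, hxl⟩ ⟨⟨P', Z', W'⟩, hx', hxl'⟩ he
    have he' : joi (P ++ Z) W = joi (P' ++ Z') W' := congrArg Subtype.val he
    obtain ⟨k, hk, -, hb, hW⟩ := TJ_brd hx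
    obtain ⟨k', hk', -, hb', hW'⟩ := TJ_brd hx'
    obtain ⟨e1, e2⟩ := joi_uniq hb hk (pos_SSt hW) hb' hk' (pos_SSt hW') he'
    obtain ⟨z, hz⟩ := hx.2.1.1
    obtain ⟨z', hz'⟩ := hx'.2.1.1
    obtain ⟨v, hv, e3, e4⟩ := BAR.nested hx.1.1 hx'.1.1 (pos_Brd hz) (pos_Brd hz') le_rfl e1
    rw [Nat.sub_self] at hv
    have hv0 := brd_zero_nil hv
    rw [hv0, List.append_nil] at e3
    rw [hv0, List.nil_append] at e4
    apply Subtype.ext
    exact Prod.ext e3.symm (Prod.ext e4 e2)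
  calc ∑' x : {x // TJ E N r x ∧ (x.1 ++ x.2.1).length + x.2.2.length ≤ lam},
        ENNReal.ofReal xc * (wE x.1.1 * (wE x.1.2.1 * wE x.1.2.2))
      = ∑' x : {x // TJ E N r x ∧ (x.1 ++ x.2.1).length + x.2.2.length ≤ lam}, wE (ψ x).1 := by
        refine tsum_congr fun x => ?_
        obtain ⟨k, hk, -, hb, -⟩ := TJ_brd x.2.1
        show _ = wE (joi (x.1.1 ++ x.1.2.1) x.1.2.2)
        rw [wE_joi hb hk, wE_append]
        ring
    _ ≤ gf (WJl E N lam r) := ENNReal.tsum_comp_le_tsum_of_injective hψ (fun w : {w // w ∈ WJl E N lam r} => wE w.1)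

lemma fronts (j lam : ℕ) : gf {X | (∃ n, n ≤ 2 ^ j ∧ X ∈ Brd n) ∧ X.length ≤ lam} ≤
    ∑ h ∈ range (2 ^ j + 1), gf (BS lam h) := by
  classical
  have hgf : ∀ P : Set (List Bool), gf P = ∑' t : List Bool, if t ∈ P then wE t else 0 := by
    intro P
    unfold gf
    rw [tsum_subtype P wE]
    exact tsum_congr fun t => by simp only [Set.indicator_apply]
  rw [hgf]
  simp only [hgf]
  rw [← Summable.tsum_finsetSum fun i _ => ENNReal.summable]
  refine ENNReal.tsum_le_tsum fun t => ?_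
  by_cases ht : t ∈ {X | (∃ n, n ≤ 2 ^ j ∧ X ∈ Brd n) ∧ X.length ≤ lam}
  · rw [if_pos ht]
    obtain ⟨⟨n, hn, hb⟩, hl⟩ := ht
    refine le_trans ?_ (single_le_sum (f := fun h => if t ∈ BS lam h then wE t else 0) (fun _ _ => zero_le)
      (mem_range.2 (show n < 2 ^ j + 1 by omega)))
    have h1 : t ∈ BS lam n := ⟨hb, hl⟩
    simp only [h1, if_true]
    exact le_rfl
  · rw [if_neg ht]
    exact zero_le

/-- HSum with a bound of the number of letters -/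
theorem hsuml : ∃ K : ℝ, 1 ≤ K ∧ ∀ (E N j lam lam' : ℕ), QL j lam' → ∑' r : ℕ, min 1 ((r : ℝ≥0∞) / 2 ^ j) *
    Rec8.sw (Irr r) (fun P => Rec8.sw {Z | Z ∈ BU ∧ P ++ Z ∈ BrR E N}
      (fun Z => GLl (hgt (P ++ Z) - 1) lam (P ++ Z))) ≤
        ENNReal.ofReal (K / Ub j) * HHl (N + 2 ^ j) (lam + lam' + 1) := by
  classical
  have hx : 0 < xc := xc_pos
  refine ⟨max 1 (4 / xc), le_max_left _ _, fun E N j lam lam' hQ => ?_⟩
  have hU : 0 < Ub j := Ub_pos j
  obtain ⟨S0, hS0⟩ : ∃ S0, S0 = ∑' r : ℕ, min 1 ((r : ℝ≥0∞) / 2 ^ j) *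
    Rec8.sw (Irr r) (fun P => Rec8.sw {Z | Z ∈ BU ∧ P ++ Z ∈ BrR E N}
      (fun Z => GLl (hgt (P ++ Z) - 1) lam (P ++ Z))) := ⟨_, rfl⟩
  rw [← hS0]
  have h0 := prod_formL (2 ^ j + 1) (fun r => min 1 ((r : ℝ≥0∞) / 2 ^ j)) 2 (BS lam') (WJl E N lam)
    (WJlb E N lam lam') {W | W ∈ SSt (N + 2 ^ j) ∧ W.length ≤ lam + lam' + 1} (fun h r => gf_WJlb E N lam lam' h r)
    (fun h hh r t ht => ⟨SSt_mono (by omega) (WJlb_mem ht).1, (WJlb_mem ht).2⟩)
    (fun t => count_min (WJlb E N lam lam') t N j fun h r ht => by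
      obtain ⟨T, H, h5⟩ := WJb_key (WJlb_sub _ _ _ _ _ _ ht)
      exact ⟨T, fun h' r' ht' => (h5 h' r' (WJlb_sub _ _ _ _ _ _ ht')).1⟩)
  have h1 : ENNReal.ofReal (Ub j) * (ENNReal.ofReal xc * S0) ≤ 4 * HHl (N + 2 ^ j) (lam + lam' + 1) := by
    have h2 : ENNReal.ofReal (Ub j) ≤ 2 * ∑ h ∈ range (2 ^ j + 1), gf (BS lam' h) :=
      (hQ j le_rfl).trans (mul_le_mul_right (fronts j lam') _)
    have h3 : ENNReal.ofReal xc * S0 ≤ ∑' r : ℕ, min 1 ((r : ℝ≥0∞) / 2 ^ j) * gf (WJl E N lam r) := by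
      rw [hS0, ← ENNReal.tsum_mul_left]
      refine ENNReal.tsum_le_tsum fun r => ?_
      rw [mul_left_comm]
      exact mul_le_mul_right (sw_le_WJl E N lam r) _
    calc ENNReal.ofReal (Ub j) * (ENNReal.ofReal xc * S0)
        ≤ (2 * ∑ h ∈ range (2 ^ j + 1), gf (BS lam' h)) *
          ∑' r : ℕ, min 1 ((r : ℝ≥0∞) / 2 ^ j) * gf (WJl E N lam r) := mul_le_mul' h2 h3
      _ = 2 * ((∑ h ∈ range (2 ^ j + 1), gf (BS lam' h)) *
          ∑' r : ℕ, min 1 ((r : ℝ≥0∞) / 2 ^ j) * gf (WJl E N lam r)) := by ring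
      _ ≤ 2 * (2 * gf {W | W ∈ SSt (N + 2 ^ j) ∧ W.length ≤ lam + lam' + 1}) := mul_le_mul_right h0 _
      _ = 4 * HHl (N + 2 ^ j) (lam + lam' + 1) := by
          unfold HHl
          ring
  have hU0 : ENNReal.ofReal (Ub j) ≠ 0 := by
    rw [Ne, ENNReal.ofReal_eq_zero, not_le]
    exact hU
  have hx0 : ENNReal.ofReal xc ≠ 0 := by
    rw [Ne, ENNReal.ofReal_eq_zero, not_le]
    exact hx
  have h4 : S0 ≤ 4 / (ENNReal.ofReal (Ub j) * ENNReal.ofReal xc) * HHl (N + 2 ^ j) (lam + lam' + 1) := by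
    rw [← mul_assoc] at h1
    have e1 : ENNReal.ofReal (Ub j) * ENNReal.ofReal xc ≠ 0 := mul_ne_zero hU0 hx0
    have e2 : ENNReal.ofReal (Ub j) * ENNReal.ofReal xc ≠ ∞ :=
      ENNReal.mul_ne_top ENNReal.ofReal_ne_top ENNReal.ofReal_ne_top
    rw [ENNReal.mul_comm_div, ← mul_div_assoc, ENNReal.le_div_iff_mul_le (Or.inl e1) (Or.inl e2), mul_comm]
    exact h1
  refine h4.trans (mul_le_mul_left ?_ _)
  rw [← ENNReal.ofReal_mul hU.le, show (4 : ℝ≥0∞) = ENNReal.ofReal 4 by norm_num,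
    ← ENNReal.ofReal_div_of_pos (by positivity)]
  apply ENNReal.ofReal_le_ofReal
  rw [show 4 / (Ub j * xc) = (4 / xc) / Ub j by field_simp]
  exact div_le_div_of_nonneg_right (le_max_right _ _) hU.le

end NTW

end HexObs
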