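import Pool.Agent.SDN.Defs
import Pool.Agent.PHW.DefsB
import Pool.Agent.Tight.LeafDefs

/-!
NTW, block (A): definitions for the free ends.
-/

set_option autoImplicit false

namespace HexObs

namespace NTW

open Finset TS SDN

open scoped ENNReal

/-- the word of the leaf g (going up) followed by the half plane word W that hangs at its end -/
def joi (g W : List Bool) : List Bool := g.dropLast ++ (!lst g) :: (!lst g) :: W

/-- weight of the half plane words of the strip of height m that hang at the end of g -/
noncomputable def GLf (m : ℕ) (g : List Bool) : ℝ≥0∞ := gf {W | W ∈ SSt m ∧ LFold g W}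

/-- weight of the half plane words of a height in (D, N] that can hang at some leaf with the tail t, of height at least D -/
noncomputable def EF (D N : ℕ) (t : List Bool) : ℝ≥0∞ := gf {W | W ∈ SSt N ∧ W ∉ SSt D ∧ RT D LFold t W}

end NTW

end HexObs
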