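import Pool.Agent.PHW.TopB
import Pool.Agent.PHW.TopC
import Pool.Agent.Tight.LeafArcs
import Pool.Agent.NTW.DefsW
import Pool.Agent.BAR.Defs
import Pool.Agent.SDN.NormX
import Pool.Agent.PHW8.Lev8

/-!
NTW, block A: a half plane walk is a bridge followed by a half plane walk that hangs at its end.
-/

set_option autoImplicit false

namespace HexObs

namespace NTW

open Finset TS SDN

open scoped ENNReal

/-! ### 1. The hanging relation, other direction -/

lemma Jo_rev {G : List Bool} (hG : dx up G G.length = up) {j : ℕ} (hj1 : 1 ≤ j) (hj2 : j ≤ G.length) :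
    vx oo up (rev G) (G.length + 1 - j) = vx oo up G G.length + up - vx oo up G j := by
  have h := vx_rev_turned hG (i := G.length + 1 - j) (by omega)
  rw [h, show G.length + 1 - (G.length + 1 - j) = j by omega]

lemma Jo_of_hang {G r : List Bool} {b : Bool} (hG : dx up G G.length = up) (hH : Hang G b r) :
    ∀ j, 1 ≤ j → j ≤ G.length → ∀ k, k ≤ r.length →
      vx oo up G j ≠ vx oo up G G.length + turn (!b) (turn (!b) up) - vx oo up r k := by
  intro j hj1 hj2 k hk heq
  have hv := Jo_rev hG hj1 hj2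
  cases b with
  | true =>
    unfold Hang at hH
    rw [if_pos rfl] at hH
    unfold Dj at hH
    rw [Set.disjoint_left] at hH
    refine hH (a := vx (foot oo up 0) up (false :: true :: r) (k + 2))
      ⟨k + 2, by omega, by simp only [List.length_cons]; omega, rfl⟩
      ⟨G.length + 1 - j, by omega, by rw [rev_length]; omega, ?_⟩
    rw [vx_shift, foot1, hv, foot0]
    have e := vx_two false r k
    simp only [Bool.not_false] at e
    rw [e, heq]
    show _ + (vx oo up G G.length + up - (vx oo up G G.length + turn false (turn false up) - vx oo up r k)) = _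
    abel
  | false =>
    unfold Hang at hH
    rw [if_neg (by decide)] at hH
    unfold Dj at hH
    rw [Set.disjoint_left] at hH
    refine hH (a := vx (foot oo up 0) up (rev G) (G.length + 1 - j))
      ⟨G.length + 1 - j, by omega, by rw [rev_length]; omega, rfl⟩
      ⟨k + 2, by omega, by simp only [List.length_cons]; omega, ?_⟩
    rw [vx_shift (foot oo up 1), foot1, foot0, hv]
    have hL : turn false up + turn false (turn false up) = -(turn true up + turn true (turn true up)) := by decide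
    rw [hL]
    have e := vx_two true r k
    simp only [Bool.not_true] at e
    rw [e, heq]
    show _ = vx oo up G G.length + up - (vx oo up G G.length + turn true (turn true up) - vx oo up r k)
    abel

lemma Jo_of_hang0 {G r : List Bool} {b : Bool} (hG : dx up G G.length = up) (hH : Hang G b r) :
    ∀ j, 1 ≤ j → j ≤ G.length →
      vx oo up G j ≠ vx oo up G G.length + turn (!b) up + turn (!b) (turn (!b) up) := by
  intro j hj1 hj2 heq
  have hv := Jo_rev hG hj1 hj2
  cases b with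
  | true =>
    unfold Hang at hH
    rw [if_pos rfl] at hH
    unfold Dj at hH
    rw [Set.disjoint_left] at hH
    refine hH (a := vx (foot oo up 0) up (false :: true :: r) 1)
      ⟨1, le_rfl, by simp only [List.length_cons]; omega, rfl⟩
      ⟨G.length + 1 - j, by omega, by rw [rev_length]; omega, ?_⟩
    rw [vx_shift, foot1, hv, foot0, vx_one, heq]
    show _ + (vx oo up G G.length + up - (vx oo up G G.length + turn false up + turn false (turn false up))) = _
    abel
  | false =>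
    unfold Hang at hH
    rw [if_neg (by decide)] at hH
    unfold Dj at hH
    rw [Set.disjoint_left] at hH
    refine hH (a := vx (foot oo up 0) up (rev G) (G.length + 1 - j))
      ⟨G.length + 1 - j, by omega, by rw [rev_length]; omega, rfl⟩
      ⟨1, le_rfl, by simp only [List.length_cons]; omega, ?_⟩
    rw [vx_shift (foot oo up 1), foot1, foot0, hv]
    have hL : turn false up + turn false (turn false up) = -(turn true up + turn true (turn true up)) := by decide
    rw [hL, vx_one, heq]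
    show _ = vx oo up G G.length + up - (vx oo up G G.length + turn true up + turn true (turn true up))
    abel

/-- the walk hangs on the side of the last letter -/
theorem hang_lst {h : ℕ} {g W : List Bool} (hg : g ∈ Brd h) (hh : 1 ≤ h) {b : Bool} (hR : Hang g b W) : b = lst g := by
  by_contra hne
  have hb : (!b) = lst g := by
    cases hb1 : b <;> cases hb2 : lst g <;> rw [hb1, hb2] at hne <;> simp at hne ⊢
  have hnn := Brd_ne_nil hg hh
  have hgl := List.length_pos_iff.2 hnn
  obtain ⟨m1, m2, m3, m4⟩ := mem_Brd.1 hg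
  have hl2 : 2 ≤ g.length := by
    by_contra hcon
    have h1 : g.length = 1 := by omega
    have h2 : lev g 1 = 2 := by
      rw [lev_succ, lev_zero]
      show 0 + ip up up = 2
      decide
    rw [h1, h2] at m4
    omega
  obtain ⟨n, hn⟩ : ∃ n, g.length = n + 2 := ⟨g.length - 2, by omega⟩
  obtain ⟨s, hs⟩ : ∃ s, s = g.dropLast := ⟨_, rfl⟩
  have hgs : g = s ++ [!b] := by
    rw [hs, hb]
    exact split_lst hnn
  have hsl : s.length = n + 1 := by
    rw [hs, List.length_dropLast, hn]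
    rfl
  have hd : dx up g (n + 1) = turn b up := by
    have h2 := dx_append_one (d0 := up) (t := s) (b := !b)
    rw [← hgs, m3] at h2
    have h3 := congrArg (turn b) h2
    have h4 := turn_turn (!b) (dx up s s.length)
    rw [Bool.not_not] at h4
    rw [h4] at h3
    rw [hgs, dx_append (by omega), ← hsl]
    exact h3.symm
  have hv : vx oo up g g.length = vx oo up g (n + 1) + turn b up := by
    rw [hn, show n + 2 = n + 1 + 1 from rfl, vx_succ, hd]
  refine Jo_of_hang m3 hR (n + 1) (by omega) (by omega) 0 (Nat.zero_le _) ?_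
  rw [hv]
  have e0 : vx oo up W 0 = 0 := rfl
  have e1 : turn b up + turn (!b) (turn (!b) up) = 0 := by
    cases b <;> decide
  rw [e0, sub_zero, add_assoc, e1, add_zero]

/-! ### 2. The joined word -/

lemma joi_length {h : ℕ} {g W : List Bool} (hg : g ∈ Brd h) (hh : 1 ≤ h) : (joi g W).length = g.length + 1 + W.length :=
  (unf_step (r := W) hg hh).1

theorem Jo_wE {h : ℕ} {g W : List Bool} (hg : g ∈ Brd h) (hh : 1 ≤ h) :
    wE (joi g W) = wE g * wE W * ENNReal.ofReal xc := by
  rw [wE_eq_pow, wE_eq_pow, wE_eq_pow, joi_length hg hh, pow_add, pow_add, pow_one]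
  ring

theorem joi_mem {h : ℕ} {g W : List Bool} (hg : g ∈ Brd h) (hh : 1 ≤ h) (hW : W ∈ SSt (h - 1)) (hR : LFold g W) :
    joi g W ∈ SSt h := by
  obtain ⟨m1, m2, m3, m4⟩ := mem_Brd.1 hg
  obtain ⟨u1, u2, u3⟩ := unf_step (r := W) hg hh
  obtain ⟨u4, u5⟩ := unf_step_lev (r := W) hg hh
  have key := Jo_of_hang m3 hR
  have hWl : ∀ k, 1 ≤ k → k ≤ W.length → 0 < lev W k ∧ lev W k < 3 * h - 1 := by
    intro k h1 h2
    have h3 := mem_St.1 (hW.mem k h1 h2)
    rw [Nat.cast_sub hh] at h3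
    push_cast at h3
    omega
  have hlow : ∀ j, j ≤ W.length → 0 < lev (joi g W) (g.length + 1 + j) ∧ lev (joi g W) (g.length + 1 + j) < 3 * h := by
    intro j hj
    have h1 : lev (joi g W) (g.length + 1 + j) = 3 * h - 1 - lev W j := (u5 j).1
    rw [h1]
    rcases Nat.eq_zero_or_pos j with rfl | h0
    · rw [lev_zero]
      omega
    · have := hWl j h0 hj
      omega
  refine ⟨?_, ?_⟩
  · intro i hi hl
    rw [mem_St]
    rw [joi_length hg hh] at hl
    rcases Nat.lt_or_ge g.length i with h1 | h1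
    · obtain ⟨j, rfl⟩ : ∃ j, i = g.length + 1 + j := ⟨i - (g.length + 1), by omega⟩
      have := hlow j (by omega)
      omega
    · have h2 : lev (joi g W) i = lev g i := (u4 i h1).1
      have h3 := m1 i hi h1
      rw [h2]
      omega
  · intro i k hik hk heq
    rw [joi_length hg hh] at hk
    have v1 : ∀ i, i ≤ g.length → vx oo up (joi g W) i = vx oo up g i := u2
    have v2 : ∀ j, vx oo up (joi g W) (g.length + 1 + j) =
        vx oo up g g.length + turn (!lst g) (turn (!lst g) up) - vx oo up W j := u3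
    rcases Nat.lt_or_ge g.length k with h1 | h1
    · obtain ⟨l, rfl⟩ : ∃ l, k = g.length + 1 + l := ⟨k - (g.length + 1), by omega⟩
      rcases Nat.lt_or_ge g.length i with h2 | h2
      · obtain ⟨j, rfl⟩ : ∃ j, i = g.length + 1 + j := ⟨i - (g.length + 1), by omega⟩
        rw [v2, v2] at heq
        exact hW.inj j l (by omega) (by omega) (sub_right_injective heq)
      · rcases Nat.eq_zero_or_pos i with rfl | h0
        · have h3 := (hlow l (by omega)).1
          have h4 : lev (joi g W) 0 = lev (joi g W) (g.length + 1 + l) := by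
            unfold lev
            rw [heq]
          rw [lev_zero] at h4
          omega
        · rw [v1 i h2, v2] at heq
          exact key i h0 h2 l (by omega) heq
    · rw [v1 i (by omega), v1 k h1] at heq
      exact m2 i k hik h1 heq

/-- the levels behind the leaf are lower -/
lemma Jo_low {h : ℕ} {g W : List Bool} (hg : g ∈ Brd h) (hh : 1 ≤ h) (hW : W ∈ SSt (h - 1)) {i : ℕ}
    (hi : g.length < i) (hl : i ≤ (joi g W).length) : lev (joi g W) i < 3 * h := by
  obtain ⟨u4, u5⟩ := unf_step_lev (r := W) hg hh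
  rw [joi_length hg hh] at hl
  obtain ⟨j, rfl⟩ : ∃ j, i = g.length + 1 + j := ⟨i - (g.length + 1), by omega⟩
  have h1 : lev (joi g W) (g.length + 1 + j) = 3 * h - 1 - lev W j := (u5 j).1
  rw [h1]
  rcases Nat.eq_zero_or_pos j with rfl | h0
  · rw [lev_zero]
    omega
  · have h3 := mem_St.1 (hW.mem j h0 (by omega))
    omega

lemma Jo_top {h : ℕ} {g W : List Bool} (hg : g ∈ Brd h) (hh : 1 ≤ h) : lev (joi g W) g.length = 3 * h := by
  obtain ⟨u4, u5⟩ := unf_step_lev (r := W) hg hh
  have h1 : lev (joi g W) g.length = lev g g.length := (u4 _ le_rfl).1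
  rw [h1]
  exact (mem_Brd.1 hg).2.2.2

lemma Jo_le {h : ℕ} {g W : List Bool} (hg : g ∈ Brd h) (hh : 1 ≤ h) {i : ℕ} (hi : i ≤ g.length) :
    lev (joi g W) i ≤ 3 * h := by
  obtain ⟨u4, u5⟩ := unf_step_lev (r := W) hg hh
  have h1 : lev (joi g W) i = lev g i := (u4 _ hi).1
  rw [h1]
  rcases Nat.eq_zero_or_pos i with rfl | h0
  · rw [lev_zero]
    omega
  · exact ((mem_Brd.1 hg).1 i h0 hi).2

lemma Jo_len_le {h h' : ℕ} {g W g' W' : List Bool} (hg : g ∈ Brd h) (hg' : g' ∈ Brd h') (hh : 1 ≤ h) (hh' : 1 ≤ h')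
    (hW' : W' ∈ SSt (h' - 1)) (he : joi g W = joi g' W') :
    h ≤ h' ∧ (h = h' → g.length ≤ g'.length) := by
  have hl : g.length ≤ (joi g' W').length := by
    rw [← he, joi_length hg hh]
    omega
  have ht := Jo_top (W := W) hg hh
  rw [he] at ht
  rcases Nat.lt_or_ge g'.length g.length with h1 | h1
  · have h2 := Jo_low hg' hh' hW' h1 hl
    rw [ht] at h2
    constructor
    · omega
    · intro h3
      omega
  · have h2 := Jo_le (W := W') hg' hh' h1
    rw [ht] at h2
    exact ⟨by omega, fun _ => h1⟩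

theorem joi_inj {h h' : ℕ} {g W g' W' : List Bool} (hg : g ∈ Brd h) (hg' : g' ∈ Brd h') (hh : 1 ≤ h) (hh' : 1 ≤ h')
    (hW : W ∈ SSt (h - 1)) (hW' : W' ∈ SSt (h' - 1)) (he : joi g W = joi g' W') : g = g' ∧ W = W' := by
  obtain ⟨a1, a2⟩ := Jo_len_le hg hg' hh hh' hW' he
  obtain ⟨b1, b2⟩ := Jo_len_le hg' hg hh' hh hW he.symm
  have hhe : h = h' := le_antisymm a1 b1
  have hl : g.length = g'.length := le_antisymm (a2 hhe) (b2 hhe.symm)
  have hn := Brd_ne_nil hg hh
  have hn' := Brd_ne_nil hg' hh'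
  unfold joi at he
  have h1 := List.append_inj he (by rw [List.length_dropLast, List.length_dropLast, hl])
  obtain ⟨h2, h3⟩ := h1
  rw [List.cons.injEq, List.cons.injEq] at h3
  obtain ⟨h4, -, h5⟩ := h3
  refine ⟨?_, h5⟩
  rw [split_lst hn, split_lst hn', h2]
  have h6 : lst g = lst g' := by
    have := congrArg (fun b => !b) h4
    simpa using this
  rw [h6]

/-! ### 3. Half plane walks by the first leaf -/

lemma Jo_GH {h : ℕ} {g : List Bool} (hg : g ∈ Brd h) (hh : 1 ≤ h) (m : ℕ) : GH m g ≤ GLf m g := by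
  unfold GH GLf
  have h0 : gf (∅ : Set (List Bool)) = 0 := by
    unfold gf
    rw [_root_.tsum_subtype]
    simp
  cases hb : lst g with
  | true =>
    have h1 : {t | t ∈ SSt m ∧ Hang g false t} = (∅ : Set (List Bool)) := by
      rw [Set.eq_empty_iff_forall_notMem]
      rintro t ⟨-, ht⟩
      have := hang_lst hg hh ht
      rw [hb] at this
      exact absurd this (by decide)
    rw [h1, h0, add_zero]
    refine gf_mono ?_
    rintro t ⟨h2, h3⟩
    refine ⟨h2, ?_⟩
    unfold LFold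
    rw [hb]
    exact h3
  | false =>
    have h1 : {t | t ∈ SSt m ∧ Hang g true t} = (∅ : Set (List Bool)) := by
      rw [Set.eq_empty_iff_forall_notMem]
      rintro t ⟨-, ht⟩
      have := hang_lst hg hh ht
      rw [hb] at this
      exact absurd this (by decide)
    rw [h1, h0, zero_add]
    refine gf_mono ?_
    rintro t ⟨h2, h3⟩
    refine ⟨h2, ?_⟩
    unfold LFold
    rw [hb]
    exact h3

theorem top_le {P : Set (List Bool)} (hP : PrefC P) (hL : LastC P) {h : ℕ} (hh : 1 ≤ h) :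
    gf (HT h ∩ P) ≤ 4 * ∑' g : {g : List Bool // g ∈ Brd h ∧ g ∈ P}, wE g.1 * (1 + GLf (h - 1) g.1) := by
  refine (gf_HT_le hP hL (p := []) (Or.inl rfl) hh).trans ?_
  rw [← ENNReal.tsum_mul_left]
  refine ENNReal.tsum_le_tsum fun g => ?_
  rw [List.nil_append]
  have h1 := Jo_GH g.2.1 hh (h - 1)
  calc wE g.1 * (4 + 4 * GH (h - 1) g.1) ≤ wE g.1 * (4 + 4 * GLf (h - 1) g.1) := by gcongr
    _ = 4 * (wE g.1 * (1 + GLf (h - 1) g.1)) := by ring

lemma Jo_SSt_mono {a b : ℕ} (hab : a ≤ b) {t : List Bool} (ht : t ∈ SSt a) : t ∈ SSt b := by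
  refine ⟨fun i h1 h2 => ?_, ht.inj⟩
  have h3 := mem_St.1 (ht.mem i h1 h2)
  rw [mem_St]
  omega

lemma Jo_PrefC (D : ℕ) (t : List Bool) : PrefC {W | RT D LFold t W} := by
  rintro a b ⟨Z, h1, h2, h3⟩
  exact ⟨Z, h1, h2, PrefC_Hang _ _ a b h3⟩

lemma Jo_LastC (D : ℕ) (t : List Bool) : LastC {W | RT D LFold t W} := by
  rintro a c c' ⟨Z, h1, h2, h3⟩
  exact ⟨Z, h1, h2, LastC_Hang _ _ a c c' h3⟩

lemma Jo_BrR {D N : ℕ} (P : Set (List Bool)) (F : List Bool → ℝ≥0∞) :
    ∑ T ∈ Finset.Icc D N, (∑' g : {g : List Bool // g ∈ Brd T ∧ g ∈ P}, wE g.1 * F g.1) ≤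
      Rec8.sw {g | g ∈ BrR D N ∧ g ∈ P} F := by
  classical
  have h1 : ∀ A : Set (List Bool), (∑' g : {g : List Bool // g ∈ A}, wE g.1 * F g.1) =
      ∑' g : List Bool, A.indicator (fun g => wE g * F g) g := fun A => _root_.tsum_subtype A (fun g => wE g * F g)
  have h2 : Rec8.sw {g | g ∈ BrR D N ∧ g ∈ P} F =
      ∑' g : List Bool, ({g | g ∈ BrR D N ∧ g ∈ P} : Set (List Bool)).indicator (fun g => wE g * F g) g := h1 _
  rw [h2]
  have h3 : ∀ T, (∑' g : {g : List Bool // g ∈ Brd T ∧ g ∈ P}, wE g.1 * F g.1) =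
      ∑' g : List Bool, ({g | g ∈ Brd T ∧ g ∈ P} : Set (List Bool)).indicator (fun g => wE g * F g) g := fun T =>
    h1 {g | g ∈ Brd T ∧ g ∈ P}
  simp_rw [h3]
  rw [← Summable.tsum_finsetSum (fun i _ => ENNReal.summable)]
  refine ENNReal.tsum_le_tsum fun g => ?_
  by_cases hg : ∃ T, D ≤ T ∧ T ≤ N ∧ g ∈ Brd T ∧ g ∈ P
  · obtain ⟨T, hD, hN, hT, hgP⟩ := hg
    rw [Set.indicator_of_mem (show g ∈ {g | g ∈ BrR D N ∧ g ∈ P} from ⟨⟨T, hD, hN, hT⟩, hgP⟩)]
    rw [Finset.sum_eq_single T]
    · rw [Set.indicator_of_mem (show g ∈ {g | g ∈ Brd T ∧ g ∈ P} from ⟨hT, hgP⟩)]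
    · intro T' _ hne
      refine Set.indicator_of_notMem ?_ _
      rintro ⟨h4, -⟩
      exact hne (Brd_height h4 hT)
    · intro h4
      exact absurd (Finset.mem_Icc.2 ⟨hD, hN⟩) h4
  · refine (Finset.sum_eq_zero fun T hT => ?_).le.trans zero_le
    rw [Finset.mem_Icc] at hT
    refine Set.indicator_of_notMem ?_ _
    rintro ⟨h4, h5⟩
    exact hg ⟨T, hT.1, hT.2, h4, h5⟩

theorem EF_le : ∃ K : ℝ, 1 ≤ K ∧ ∀ (D N : ℕ), 1 ≤ D → D ≤ N → ∀ t : List Bool,
    EF D N t ≤ ENNReal.ofReal K *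
      Rec8.sw {g | g ∈ BrR D N ∧ RT D LFold t g} (fun g => 1 + GLf (hgt g - 1) g) := by
  refine ⟨6, by norm_num, fun D N hD hDN t => ?_⟩
  obtain ⟨P, hPd⟩ : ∃ P : Set (List Bool), P = {W | RT D LFold t W} := ⟨_, rfl⟩
  have hP : PrefC P := hPd ▸ Jo_PrefC D t
  have hL : LastC P := hPd ▸ Jo_LastC D t
  have hset : {g | g ∈ BrR D N ∧ RT D LFold t g} = {g | g ∈ BrR D N ∧ g ∈ P} := by
    rw [hPd]
    rfl
  rw [hset]
  have hadd : ∀ (c : Bool) (T : ℕ), gf ({t | ∃ g ∈ Brd T ∩ P, t = g ++ [c]}) ≤ gf (Brd T ∩ P) := by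
    intro c T
    have h1 := gf_le_mul (P := {t | ∃ g ∈ Brd T ∩ P, t = g ++ [c]}) (Q := Brd T ∩ P) (R := {[c]}) (by
      rintro t ⟨g, hg, rfl⟩
      exact ⟨g, hg, [c], rfl, rfl⟩)
    refine h1.trans ?_
    have h2 : gf ({[c]} : Set (List Bool)) ≤ 1 := by
      rw [B2b_gf_singleton]
      exact B2b_wE_le_one _
    calc gf (Brd T ∩ P) * gf {[c]} ≤ gf (Brd T ∩ P) * 1 := by gcongr
      _ = gf (Brd T ∩ P) := mul_one _
  have hsub : {W | W ∈ SSt N ∧ W ∉ SSt D ∧ RT D LFold t W} ⊆ (⋃ T ∈ Finset.Icc D N, HT (T : ℕ) ∩ P) ∪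
      ((⋃ T ∈ Finset.Icc D N, {t | ∃ g ∈ Brd T ∩ P, t = g ++ [true]}) ∪
       (⋃ T ∈ Finset.Icc D N, {t | ∃ g ∈ Brd T ∩ P, t = g ++ [false]})) := by
    rintro W ⟨hW, hWD, hWP⟩
    have hWP' : W ∈ P := by
      rw [hPd]
      exact hWP
    rcases SSt_cases hW with ⟨T, hT, h⟩ | ⟨T, hT, g, hg, c, rfl⟩
    · left
      rw [Set.mem_iUnion₂]
      have hDT : D ≤ T := by
        by_contra hcon
        exact hWD (Jo_SSt_mono (by omega) h.1)
      exact ⟨T, Finset.mem_Icc.2 ⟨hDT, hT⟩, h, hWP'⟩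
    · right
      have hgP : g ∈ P := hP g [c] hWP'
      have hDT : D ≤ T := by
        by_contra hcon
        refine hWD ⟨fun i h1 h2 => ?_, hW.inj⟩
        rw [mem_St]
        have h3 := (mem_St.1 (hW.mem i h1 h2)).1
        rw [List.length_append, List.length_singleton] at h2
        rcases Nat.lt_or_ge g.length i with h4 | h4
        · have h5 : i = g.length + 1 := by omega
          have h6 : lev (g ++ [c]) i = lev g (g.length + 1) := by
            unfold lev
            rw [h5, vx_append le_rfl]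
          have h7 := lev_succ g g.length
          rw [(mem_Brd.1 hg).2.2.1, (mem_Brd.1 hg).2.2.2] at h7
          have h8 : ip up up = 2 := by decide
          rw [h8] at h7
          rw [h6, h7]
          omega
        · have h6 : lev (g ++ [c]) i = lev g i := by
            unfold lev
            rw [vx_append (by omega)]
          have h7 := (mem_Brd.1 hg).1 i h1 h4
          rw [h6]
          omega
      cases c
      · right
        rw [Set.mem_iUnion₂]
        exact ⟨T, Finset.mem_Icc.2 ⟨hDT, hT.le⟩, g, ⟨hg, hgP⟩, rfl⟩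
      · left
        rw [Set.mem_iUnion₂]
        exact ⟨T, Finset.mem_Icc.2 ⟨hDT, hT.le⟩, g, ⟨hg, hgP⟩, rfl⟩
  have hun : ∀ (I : Finset ℕ) (Q : ℕ → Set (List Bool)), gf (⋃ T ∈ I, Q T) ≤ ∑ T ∈ I, gf (Q T) := by
    classical
    intro I Q
    induction I using Finset.induction_on with
    | empty =>
      simp [gf]
    | insert a s ha ih =>
      rw [Finset.set_biUnion_insert, Finset.sum_insert ha]
      exact (gf_union_le _ _).trans (add_le_add le_rfl ih)
  obtain ⟨F, hF⟩ : ∃ F : List Bool → ℝ≥0∞, F = fun g => 1 + GLf (hgt g - 1) g := ⟨_, rfl⟩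
  rw [← hF]
  obtain ⟨X, hX⟩ : ∃ X : ℝ≥0∞, X = Rec8.sw {g | g ∈ BrR D N ∧ g ∈ P} F := ⟨_, rfl⟩
  rw [← hX]
  have h4 : ∑ T ∈ Finset.Icc D N, gf (HT T ∩ P) ≤ 4 * X := by
    have h1 : ∀ T ∈ Finset.Icc D N, gf (HT T ∩ P) ≤ 4 * ∑' g : {g : List Bool // g ∈ Brd T ∧ g ∈ P}, wE g.1 * F g.1 := by
      intro T hT
      rw [Finset.mem_Icc] at hT
      refine (top_le hP hL (by omega)).trans (le_of_eq ?_)
      congr 1
      refine tsum_congr fun g => ?_
      rw [hF]
      show _ = wE g.1 * (1 + GLf (hgt g.1 - 1) g.1)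
      rw [hgt_eq g.2.1]
    refine (Finset.sum_le_sum h1).trans ?_
    rw [← Finset.mul_sum, hX]
    gcongr
    exact Jo_BrR P F
  have h5 : ∑ T ∈ Finset.Icc D N, gf (Brd T ∩ P) ≤ X := by
    have h1 : ∀ T ∈ Finset.Icc D N, gf (Brd T ∩ P) ≤ ∑' g : {g : List Bool // g ∈ Brd T ∧ g ∈ P}, wE g.1 * F g.1 := by
      intro T hT
      have h2 : gf (Brd T ∩ P) = ∑' g : {g : List Bool // g ∈ Brd T ∧ g ∈ P}, wE g.1 := rfl
      rw [h2]
      refine ENNReal.tsum_le_tsum fun g => ?_
      rw [hF]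
      calc wE g.1 = wE g.1 * 1 := (mul_one _).symm
        _ ≤ wE g.1 * (1 + GLf (hgt g.1 - 1) g.1) := by
            gcongr
            exact le_self_add
    refine (Finset.sum_le_sum h1).trans ?_
    rw [hX]
    exact Jo_BrR P F
  have h6 : EF D N t ≤ 4 * X + (X + X) := by
    unfold EF
    refine (gf_mono hsub).trans ((gf_union_le _ _).trans (add_le_add ((hun _ _).trans h4)
      ((gf_union_le _ _).trans (add_le_add ?_ ?_))))
    · exact ((hun _ _).trans (Finset.sum_le_sum (fun T _ => hadd true T))).trans h5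
    · exact ((hun _ _).trans (Finset.sum_le_sum (fun T _ => hadd false T))).trans h5
  refine h6.trans (le_of_eq ?_)
  have h7 : ENNReal.ofReal (6 : ℝ) = 6 := by
    rw [show (6 : ℝ) = ((6 : ℕ) : ℝ) by norm_num, ENNReal.ofReal_natCast]
    norm_num
  rw [h7]
  ring

theorem HH_le : ∃ K : ℝ, 1 ≤ K ∧ ∀ N : ℕ, BAR.HH N ≤ ENNReal.ofReal K *
    (1 + Rec8.sw (BrR 1 N) (fun g => 1 + GLf (hgt g - 1) g)) := by
  refine ⟨6, by norm_num, fun N => ?_⟩
  have hP : PrefC (Set.univ : Set (List Bool)) := fun _ _ _ => Set.mem_univ _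
  have hL : LastC (Set.univ : Set (List Bool)) := fun _ _ _ _ => Set.mem_univ _
  have h0 := gf_SSt_le hP N
  obtain ⟨F, hF⟩ : ∃ F : List Bool → ℝ≥0∞, F = fun g => 1 + GLf (hgt g - 1) g := ⟨_, rfl⟩
  rw [← hF]
  obtain ⟨X, hX⟩ : ∃ X : ℝ≥0∞, X = Rec8.sw (BrR 1 N) F := ⟨_, rfl⟩
  have hX' : X = Rec8.sw {g | g ∈ BrR 1 N ∧ g ∈ (Set.univ : Set (List Bool))} F := by
    rw [hX]
    congr 1
    ext g
    exact ⟨fun h => ⟨h, Set.mem_univ _⟩, fun h => h.1⟩
  rw [← hX]
  have h1 : ∀ T, gf (Brd T ∩ Set.univ) ≤ ∑' g : {g : List Bool // g ∈ Brd T ∧ g ∈ (Set.univ : Set (List Bool))},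
      wE g.1 * F g.1 := by
    intro T
    have h2 : gf (Brd T ∩ Set.univ) = ∑' g : {g : List Bool // g ∈ Brd T ∧ g ∈ (Set.univ : Set (List Bool))}, wE g.1 :=
      rfl
    rw [h2]
    refine ENNReal.tsum_le_tsum fun g => ?_
    rw [hF]
    calc wE g.1 = wE g.1 * 1 := (mul_one _).symm
      _ ≤ wE g.1 * (1 + GLf (hgt g.1 - 1) g.1) := by
          gcongr
          exact le_self_add
  have h2 : ∀ T, 1 ≤ T → gf (HT T ∩ Set.univ) ≤
      4 * ∑' g : {g : List Bool // g ∈ Brd T ∧ g ∈ (Set.univ : Set (List Bool))}, wE g.1 * F g.1 := by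
    intro T hT
    refine (top_le hP hL hT).trans (le_of_eq ?_)
    congr 1
    refine tsum_congr fun g => ?_
    rw [hF]
    show _ = wE g.1 * (1 + GLf (hgt g.1 - 1) g.1)
    rw [hgt_eq g.2.1]
  have hI : ∑ T ∈ Finset.Icc 1 N, (∑' g : {g : List Bool // g ∈ Brd T ∧ g ∈ (Set.univ : Set (List Bool))},
      wE g.1 * F g.1) ≤ X := by
    rw [hX']
    exact Jo_BrR Set.univ F
  have h3 : ∑ T ∈ Finset.range (N + 1), gf (HT T ∩ Set.univ) ≤ 1 + 4 * X := by
    rw [Finset.sum_range_succ', add_comm]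
    apply add_le_add
    · rw [HT_zero, Set.inter_univ, B2b_gf_singleton]
      exact B2b_wE_le_one _
    · have h4 : ∑ T ∈ Finset.range N, gf (HT (T + 1) ∩ Set.univ) = ∑ T ∈ Finset.Icc 1 N, gf (HT T ∩ Set.univ) := by
        rw [Finset.range_eq_Ico, Finset.sum_Ico_add' (fun T => gf (HT T ∩ Set.univ)) 0 N 1]
        rfl
      rw [h4]
      refine (Finset.sum_le_sum fun T hT => h2 T (Finset.mem_Icc.1 hT).1).trans ?_
      rw [← Finset.mul_sum]
      gcongr
  have h5 : ∑ T ∈ Finset.range N, gf (Brd T ∩ Set.univ) ≤ 1 + X := by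
    have h6 : ∑ T ∈ Finset.range N, gf (Brd T ∩ Set.univ) ≤ ∑ T ∈ Finset.range (N + 1), gf (Brd T ∩ Set.univ) :=
      Finset.sum_le_sum_of_subset (Finset.range_mono (Nat.le_succ N))
    refine h6.trans ?_
    rw [Finset.sum_range_succ', add_comm]
    apply add_le_add
    · have h7 : Brd 0 ∩ Set.univ ⊆ ({[]} : Set (List Bool)) := by
        rintro t ⟨ht, -⟩
        have h8 := (mem_Brd.1 ht).1
        by_contra hne
        have hl : 1 ≤ t.length := List.length_pos_iff.2 hne
        have h9 := h8 1 le_rfl hl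
        push_cast at h9
        omega
      refine (gf_mono h7).trans ?_
      rw [B2b_gf_singleton]
      exact B2b_wE_le_one _
    · have h4 : ∑ T ∈ Finset.range N, gf (Brd (T + 1) ∩ Set.univ) = ∑ T ∈ Finset.Icc 1 N, gf (Brd T ∩ Set.univ) := by
        rw [Finset.range_eq_Ico, Finset.sum_Ico_add' (fun T => gf (Brd T ∩ Set.univ)) 0 N 1]
        rfl
      rw [h4]
      exact (Finset.sum_le_sum fun T _ => h1 T).trans hI
  have h6 : BAR.HH N ≤ 1 + 4 * X + 2 * (1 + X) := by
    have h7 : BAR.HH N = gf (SSt N ∩ Set.univ) := by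
      rw [Set.inter_univ]
      rfl
    rw [h7]
    refine h0.trans ?_
    gcongr
  refine h6.trans ?_
  have h7 : ENNReal.ofReal (6 : ℝ) = 6 := by
    rw [show (6 : ℝ) = ((6 : ℕ) : ℝ) by norm_num, ENNReal.ofReal_natCast]
    norm_num
  rw [h7]
  calc 1 + 4 * X + 2 * (1 + X) = 3 + 6 * X := by ring
    _ ≤ 6 + 6 * X := by gcongr; norm_num
    _ = 6 * (1 + X) := by ring

/-! ### 4. A bridge in front of the leaf -/

lemma Jo_lst {X g : List Bool} (hg : g ≠ []) : lst (X ++ g) = lst g := by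
  unfold lst
  rw [List.getLastD_eq_getLast?, List.getLastD_eq_getLast?, List.getLast?_append_of_ne_nil X hg]

theorem lf_app {n h : ℕ} {X g W : List Bool} (hX : X ∈ Brd n) (hg : g ∈ Brd h) (hh : 1 ≤ h) (hW : W ∈ SSt (h - 1))
    (hR : LFold g W) : LFold (X ++ g) W := by
  have hne := Brd_ne_nil hg hh
  obtain ⟨x1, x2, x3, x4⟩ := mem_Brd.1 hX
  obtain ⟨m1, m2, m3, m4⟩ := mem_Brd.1 hg
  have k0 := Jo_of_hang0 m3 hR
  have k1 := Jo_of_hang m3 hR
  unfold LFold
  rw [Jo_lst hne]
  have hl : (X ++ g).length = X.length + g.length := List.length_append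
  have hcat : ∀ j, vx oo up (X ++ g) (X.length + j) = vx oo up X X.length + vx oo up g j := fun j => vx_cat x3 j
  have hend : vx oo up (X ++ g) (X ++ g).length = vx oo up X X.length + vx oo up g g.length := by
    rw [hl, hcat]
  have hdir : dx up (X ++ g) (X ++ g).length = up := by
    rw [hl, dx_cat x3, m3]
  have hXl : ∀ j, 1 ≤ j → j ≤ X.length → ip (vx oo up (X ++ g) j) up ≤ 3 * n := by
    intro j h1 h2
    rw [vx_append (by omega)]
    exact (x1 j h1 h2).2
  have hP : ip (vx oo up X X.length) up = 3 * n := x4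
  have hG : ip (vx oo up g g.length) up = 3 * h := m4
  refine hang_of hdir ?_ ?_
  · intro j h1 h2 heq
    rw [hend] at heq
    rcases Nat.lt_or_ge X.length j with h3 | h3
    · obtain ⟨l, rfl⟩ : ∃ l, j = X.length + l := ⟨j - X.length, by omega⟩
      rw [hcat] at heq
      refine k0 l (by omega) (by omega) ?_
      linear_combination heq
    · have h4 := hXl j h1 h3
      rw [heq] at h4
      simp only [ip_add_left] at h4
      have e1 : ip (turn (!lst g) up) up + ip (turn (!lst g) (turn (!lst g) up)) up = 0 := by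
        cases lst g <;> decide
      rw [hP, hG] at h4
      omega
  · intro j h1 h2 k hk heq
    rw [hend] at heq
    rcases Nat.lt_or_ge X.length j with h3 | h3
    · obtain ⟨l, rfl⟩ : ∃ l, j = X.length + l := ⟨j - X.length, by omega⟩
      rw [hcat] at heq
      refine k1 l (by omega) (by omega) k hk ?_
      linear_combination heq
    · have h4 := hXl j h1 h3
      rw [heq] at h4
      simp only [ip_sub_left, ip_add_left] at h4
      have e1 : ip (turn (!lst g) (turn (!lst g) up)) up = -1 := by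
        cases lst g <;> decide
      rw [hP, hG, e1] at h4
      have h5 : ip (vx oo up W k) up = lev W k := rfl
      rw [h5] at h4
      rcases Nat.eq_zero_or_pos k with rfl | h0
      · rw [lev_zero] at h4
        omega
      · have h6 := (mem_St.1 (hW.mem k h0 hk)).2
        rw [Nat.cast_sub hh] at h6
        push_cast at h6
        omega

end NTW

end HexObs
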