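import Pool.Agent.NTW.DefsL
import Pool.Agent.NTW.Join

/-!
NTW, block A, with a bound lam of the number of letters: a half plane word is a leaf followed by a half plane word that
hangs at its end.
-/

set_option autoImplicit false

namespace HexObs

namespace NTW

open Finset TS SDN

open scoped ENNReal

/-- the words with at most lam letters that belong to the leaf g -/
def JLA (T lam : ℕ) (g : List Bool) : Set (List Bool) :=
  {t | t.length ≤ lam ∧ ∃ s b, g = s ++ [b] ∧ ((∃ c, t = s ++ [c]) ∨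
      ∃ r e, r ∈ SSt (T - 1) ∧ e.length ≤ 1 ∧ Hang (s ++ [b]) b r ∧
        (t = s ++ ((!b) :: (!b) :: (r ++ e)) ∨ (r = [] ∧ t = s ++ [!b, b])))}

lemma JL_lst (s : List Bool) (b : Bool) : lst (s ++ [b]) = b := by
  unfold lst
  simp

lemma JL_gf (T lam : ℕ) (g : List Bool) :
    gf (JLA T lam g) ≤ wE g * (4 * ((if g.length ≤ lam then 1 else 0) + GLl (T - 1) lam g)) := by
  have h00 : gf (∅ : Set (List Bool)) = 0 := by
    unfold gf
    rw [_root_.tsum_subtype]
    simp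
  rcases List.eq_nil_or_concat g with h | ⟨s, b, h⟩
  · have h1 : JLA T lam g ⊆ ∅ := by
      rintro t ⟨_, s, b, hg, _⟩
      rw [h] at hg
      simp at hg
    exact (gf_mono h1).trans (by rw [h00]; exact zero_le)
  have hg : g = s ++ [b] := by rw [h, List.concat_eq_append]
  have hgl : g.length = s.length + 1 := by
    rw [hg, List.length_append]
    rfl
  have huniq : ∀ s' b', g = s' ++ [b'] → s' = s ∧ b' = b := by
    intro s' b' h2
    rw [hg] at h2
    have h3 := List.append_inj' h2 rfl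
    exact ⟨h3.1.symm, by simpa using h3.2.symm⟩
  by_cases hlam : g.length ≤ lam
  · rw [if_pos hlam]
    have h1 : JLA T lam g ⊆ ({s ++ [true]} ∪ {s ++ [false]}) ∪ ({s ++ [!b, b]} ∪
        {t | ∃ a ∈ ({s ++ [!b, !b]} : Set (List Bool)), ∃ q ∈ {q | ∃ r ∈ {r | r ∈ SSt (T - 1) ∧ LFold g r ∧
          g.length + r.length ≤ lam}, ∃ e ∈ {e : List Bool | e.length ≤ 1}, q = r ++ e}, t = a ++ q}) := by
      rintro t ⟨htl, s', b', h2, ht⟩
      obtain ⟨rfl, rfl⟩ := huniq s' b' h2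
      rcases ht with ⟨c, rfl⟩ | ⟨r, e, hr, he, hh, ht⟩
      · cases c
        · exact Or.inl (Or.inr rfl)
        · exact Or.inl (Or.inl rfl)
      · rcases ht with rfl | ⟨rfl, rfl⟩
        · right
          right
          refine ⟨_, rfl, r ++ e, ⟨r, ⟨hr, ?_, ?_⟩, e, he, rfl⟩, by simp⟩
          · unfold LFold
            rw [hg, JL_lst]
            exact hh
          · simp only [List.length_append, List.length_cons] at htl
            omega
        · exact Or.inr (Or.inl rfl)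
    have w1 : ∀ c, wE (s ++ [c]) = wE g := by
      intro c
      apply B2b_wE_length
      rw [hg]
      simp
    have w2 : ∀ c c', wE (s ++ [c, c']) ≤ wE g := by
      intro c c'
      have e1 : s ++ [c, c'] = (s ++ [c]) ++ [c'] := by simp
      rw [e1, wE_append, w1]
      exact mul_le_of_le_one_right' (B2b_wE_le_one _)
    have h3 : gf {t | ∃ a ∈ ({s ++ [!b, !b]} : Set (List Bool)), ∃ q ∈ {q | ∃ r ∈ {r | r ∈ SSt (T - 1) ∧ LFold g r ∧
          g.length + r.length ≤ lam}, ∃ e ∈ {e : List Bool | e.length ≤ 1}, q = r ++ e}, t = a ++ q} ≤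
        wE g * (GLl (T - 1) lam g * 3) := by
      refine (gf_le_mul (Q := {s ++ [!b, !b]}) (R := {q | ∃ r ∈ {r | r ∈ SSt (T - 1) ∧ LFold g r ∧
          g.length + r.length ≤ lam}, ∃ e ∈ {e : List Bool | e.length ≤ 1}, q = r ++ e}) (fun t ht => ht)).trans ?_
      rw [B2b_gf_singleton]
      apply mul_le_mul' (w2 _ _)
      refine (gf_le_mul (Q := {r | r ∈ SSt (T - 1) ∧ LFold g r ∧ g.length + r.length ≤ lam})
        (R := {e : List Bool | e.length ≤ 1}) (fun t ht => ht)).trans ?_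
      exact mul_le_mul' le_rfl B2b_gf_short
    calc gf (JLA T lam g) ≤ _ := gf_mono h1
      _ ≤ _ := gf_union_le _ _
      _ ≤ (wE g + wE g) + (wE g + wE g * (GLl (T - 1) lam g * 3)) := by
          apply add_le_add
          · refine (gf_union_le _ _).trans ?_
            rw [B2b_gf_singleton, B2b_gf_singleton, w1, w1]
          · refine (gf_union_le _ _).trans ?_
            rw [B2b_gf_singleton]
            exact add_le_add (w2 _ _) h3
      _ = wE g * (3 * 1 + 3 * GLl (T - 1) lam g) := by ring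
      _ ≤ wE g * (4 * 1 + 4 * GLl (T - 1) lam g) := by
          gcongr <;> norm_num
      _ = wE g * (4 * (1 + GLl (T - 1) lam g)) := by ring
  · have h1 : JLA T lam g ⊆ ∅ := by
      rintro t ⟨htl, s', b', h2, ht⟩
      obtain ⟨rfl, rfl⟩ := huniq s' b' h2
      exfalso
      apply hlam
      rcases ht with ⟨c, rfl⟩ | ⟨r, e, hr, he, hh, rfl | ⟨rfl, rfl⟩⟩
      · simp only [List.length_append, List.length_cons, List.length_nil] at htl
        omega
      · simp only [List.length_append, List.length_cons] at htl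
        omega
      · simp only [List.length_append, List.length_cons, List.length_nil] at htl
        omega
    exact (gf_mono h1).trans (by rw [h00]; exact zero_le)

theorem topL {P : Set (List Bool)} (hP : PrefC P) (hL : LastC P) {T : ℕ} (hT : 1 ≤ T) (lam : ℕ) :
    gf (HT T ∩ {t | t ∈ P ∧ t.length ≤ lam}) ≤ 4 * ∑' g : {g : List Bool // g ∈ Brd T ∧ g ∈ P},
      wE g.1 * ((if g.1.length ≤ lam then 1 else 0) + GLl (T - 1) lam g.1) := by
  have h1 : HT T ∩ {t | t ∈ P ∧ t.length ≤ lam} ⊆ ⋃ g : {g : List Bool // g ∈ Brd T ∧ g ∈ P}, JLA T lam g.1 := by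
    rintro t ⟨ht, htP, htl⟩
    obtain ⟨s, b, hs, hcase⟩ := HT_split hT ht
    have hsP : s ++ [b] ∈ P := by
      rcases hcase with ⟨c, rfl⟩ | ⟨r, e, _, _, _, h | ⟨_, h⟩⟩
      · exact hL _ _ _ htP
      · have e1 : t = (s ++ [!b]) ++ ((!b) :: (r ++ e)) := by rw [h]; simp
        rw [e1] at htP
        exact hL _ _ _ (hP _ _ htP)
      · have e1 : t = (s ++ [!b]) ++ [b] := by rw [h]; simp
        rw [e1] at htP
        exact hL _ _ _ (hP _ _ htP)
    rw [Set.mem_iUnion]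
    refine ⟨⟨s ++ [b], hs, hsP⟩, htl, s, b, rfl, ?_⟩
    rcases hcase with h | ⟨r, e, hr, he, hh, h⟩
    · exact Or.inl h
    · exact Or.inr ⟨r, e, hr, he, hh [] (Or.inl rfl), h⟩
  calc gf (HT T ∩ {t | t ∈ P ∧ t.length ≤ lam})
      ≤ gf (⋃ g : {g : List Bool // g ∈ Brd T ∧ g ∈ P}, JLA T lam g.1) := gf_mono h1
    _ ≤ ∑' g : {g : List Bool // g ∈ Brd T ∧ g ∈ P}, gf (JLA T lam g.1) := ENNReal.tsum_iUnion_le_tsum wE _
    _ ≤ ∑' g : {g : List Bool // g ∈ Brd T ∧ g ∈ P},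
        wE g.1 * (4 * ((if g.1.length ≤ lam then 1 else 0) + GLl (T - 1) lam g.1)) :=
        ENNReal.tsum_le_tsum (fun g => JL_gf T lam g.1)
    _ = _ := by
        rw [← ENNReal.tsum_mul_left]
        exact tsum_congr fun g => by ring

/-- sharp form: the term 1 only for leaves with at most lam letters -/
theorem EFl_le' : ∃ K : ℝ, 1 ≤ K ∧ ∀ (D N lam : ℕ), 1 ≤ D → D ≤ N → ∀ t : List Bool,
    EFl D N lam t ≤ ENNReal.ofReal K * Rec8.sw {g | g ∈ BrR D N ∧ RT D LFold t g}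
      (fun g => (if g.length ≤ lam then 1 else 0) + GLl (hgt g - 1) lam g) := by
  refine ⟨6, by norm_num, fun D N lam hD hDN t => ?_⟩
  obtain ⟨P, hPd⟩ : ∃ P : Set (List Bool), P = {W | RT D LFold t W} := ⟨_, rfl⟩
  have hP : PrefC P := hPd ▸ Jo_PrefC D t
  have hL : LastC P := hPd ▸ Jo_LastC D t
  have hset : {g | g ∈ BrR D N ∧ RT D LFold t g} = {g | g ∈ BrR D N ∧ g ∈ P} := by
    rw [hPd]
    rfl
  rw [hset]
  obtain ⟨Q, hQ⟩ : ∃ Q : Set (List Bool), Q = {g | g ∈ P ∧ g.length ≤ lam} := ⟨_, rfl⟩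
  have hadd : ∀ (c : Bool) (T : ℕ), gf ({t | ∃ g ∈ Brd T ∩ Q, t = g ++ [c]}) ≤ gf (Brd T ∩ Q) := by
    intro c T
    have h1 := gf_le_mul (P := {t | ∃ g ∈ Brd T ∩ Q, t = g ++ [c]}) (Q := Brd T ∩ Q) (R := {[c]}) (by
      rintro t ⟨g, hg, rfl⟩
      exact ⟨g, hg, [c], rfl, rfl⟩)
    refine h1.trans ?_
    have h2 : gf ({[c]} : Set (List Bool)) ≤ 1 := by
      rw [B2b_gf_singleton]
      exact B2b_wE_le_one _
    calc gf (Brd T ∩ Q) * gf {[c]} ≤ gf (Brd T ∩ Q) * 1 := by gcongr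
      _ = gf (Brd T ∩ Q) := mul_one _
  have hsub : {W | W ∈ SSt N ∧ W ∉ SSt D ∧ RT D LFold t W ∧ W.length ≤ lam} ⊆
      (⋃ T ∈ Finset.Icc D N, HT (T : ℕ) ∩ {W | W ∈ P ∧ W.length ≤ lam}) ∪
      ((⋃ T ∈ Finset.Icc D N, {t | ∃ g ∈ Brd T ∩ Q, t = g ++ [true]}) ∪
       (⋃ T ∈ Finset.Icc D N, {t | ∃ g ∈ Brd T ∩ Q, t = g ++ [false]})) := by
    rintro W ⟨hW, hWD, hWP, hWl⟩
    have hWP' : W ∈ P := by
      rw [hPd]
      exact hWP
    rcases SSt_cases hW with ⟨T, hT, h⟩ | ⟨T, hT, g, hg, c, rfl⟩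
    · left
      rw [Set.mem_iUnion₂]
      have hDT : D ≤ T := by
        by_contra hcon
        exact hWD (Jo_SSt_mono (by omega) h.1)
      exact ⟨T, Finset.mem_Icc.2 ⟨hDT, hT⟩, h, hWP', hWl⟩
    · right
      have hgP : g ∈ P := hP g [c] hWP'
      have hgQ : g ∈ Q := by
        rw [hQ]
        refine ⟨hgP, ?_⟩
        rw [List.length_append] at hWl
        omega
      have hDT : D ≤ T := by
        by_contra hcon
        refine hWD ⟨fun i h1 h2 => ?_, hW.inj⟩
        rw [mem_St]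
        have h3 := (mem_St.1 (hW.mem i h1 h2)).1
        rw [List.length_append, List.length_singleton] at h2
        rcases Nat.lt_or_ge g.length i with h4 | h4
        · have h5 : i = g.length + 1 := by omega
          have h6 : lev (g ++ [c]) i = lev g (g.length + 1) := by
            unfold lev
            rw [h5, vx_append le_rfl]
          have h7 := lev_succ g g.length
          rw [(mem_Brd.1 hg).2.2.1, (mem_Brd.1 hg).2.2.2] at h7
          have h8 : ip up up = 2 := by decide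
          rw [h8] at h7
          rw [h6, h7]
          omega
        · have h6 : lev (g ++ [c]) i = lev g i := by
            unfold lev
            rw [vx_append (by omega)]
          have h7 := (mem_Brd.1 hg).1 i h1 h4
          rw [h6]
          omega
      cases c
      · right
        rw [Set.mem_iUnion₂]
        exact ⟨T, Finset.mem_Icc.2 ⟨hDT, hT.le⟩, g, ⟨hg, hgQ⟩, rfl⟩
      · left
        rw [Set.mem_iUnion₂]
        exact ⟨T, Finset.mem_Icc.2 ⟨hDT, hT.le⟩, g, ⟨hg, hgQ⟩, rfl⟩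
  have hun : ∀ (I : Finset ℕ) (Q : ℕ → Set (List Bool)), gf (⋃ T ∈ I, Q T) ≤ ∑ T ∈ I, gf (Q T) := by
    classical
    intro I Q
    induction I using Finset.induction_on with
    | empty =>
      simp [gf]
    | insert a s ha ih =>
      rw [Finset.set_biUnion_insert, Finset.sum_insert ha]
      exact (gf_union_le _ _).trans (add_le_add le_rfl ih)
  obtain ⟨F, hF⟩ : ∃ F : List Bool → ℝ≥0∞, F = fun g => (if g.length ≤ lam then 1 else 0) + GLl (hgt g - 1) lam g :=
    ⟨_, rfl⟩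
  rw [← hF]
  obtain ⟨X, hX⟩ : ∃ X : ℝ≥0∞, X = Rec8.sw {g | g ∈ BrR D N ∧ g ∈ P} F := ⟨_, rfl⟩
  rw [← hX]
  have h4 : ∑ T ∈ Finset.Icc D N, gf (HT T ∩ {W | W ∈ P ∧ W.length ≤ lam}) ≤ 4 * X := by
    have h1 : ∀ T ∈ Finset.Icc D N, gf (HT T ∩ {W | W ∈ P ∧ W.length ≤ lam}) ≤
        4 * ∑' g : {g : List Bool // g ∈ Brd T ∧ g ∈ P}, wE g.1 * F g.1 := by
      intro T hT
      rw [Finset.mem_Icc] at hT
      refine (topL hP hL (by omega) lam).trans (le_of_eq ?_)
      congr 1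
      refine tsum_congr fun g => ?_
      rw [hF]
      show _ = wE g.1 * ((if g.1.length ≤ lam then 1 else 0) + GLl (hgt g.1 - 1) lam g.1)
      rw [hgt_eq g.2.1]
    refine (Finset.sum_le_sum h1).trans ?_
    rw [← Finset.mul_sum, hX]
    gcongr
    exact Jo_BrR P F
  have h5 : ∑ T ∈ Finset.Icc D N, gf (Brd T ∩ Q) ≤ X := by
    classical
    have h1 : ∀ T ∈ Finset.Icc D N, gf (Brd T ∩ Q) ≤
        ∑' g : {g : List Bool // g ∈ Brd T ∧ g ∈ P}, wE g.1 * F g.1 := by
      intro T hT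
      have h2 : (∑' g : {g : List Bool // g ∈ Brd T ∧ g ∈ P}, wE g.1 * F g.1) =
          ∑' g : List Bool, ({g | g ∈ Brd T ∧ g ∈ P} : Set (List Bool)).indicator (fun g => wE g * F g) g :=
        _root_.tsum_subtype ({g | g ∈ Brd T ∧ g ∈ P} : Set (List Bool)) (fun g => wE g * F g)
      have h3 : gf (Brd T ∩ Q) = ∑' g : List Bool, (Brd T ∩ Q).indicator wE g := _root_.tsum_subtype (Brd T ∩ Q) wE
      rw [h2, h3]
      refine ENNReal.tsum_le_tsum fun g => ?_
      by_cases hg : g ∈ Brd T ∩ Q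
      · have hg2 := hg.2
        rw [hQ] at hg2
        rw [Set.indicator_of_mem hg, Set.indicator_of_mem (show g ∈ {g | g ∈ Brd T ∧ g ∈ P} from ⟨hg.1, hg2.1⟩), hF]
        calc wE g = wE g * 1 := (mul_one _).symm
          _ ≤ wE g * ((if g.length ≤ lam then 1 else 0) + GLl (hgt g - 1) lam g) := by
              rw [if_pos hg2.2]
              gcongr
              exact le_self_add
      · rw [Set.indicator_of_notMem hg]
        exact zero_le
    refine (Finset.sum_le_sum h1).trans ?_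
    rw [hX]
    exact Jo_BrR P F
  have h6 : EFl D N lam t ≤ 4 * X + (X + X) := by
    unfold EFl
    refine (gf_mono hsub).trans ((gf_union_le _ _).trans (add_le_add ((hun _ _).trans h4)
      ((gf_union_le _ _).trans (add_le_add ?_ ?_))))
    · exact ((hun _ _).trans (Finset.sum_le_sum (fun T _ => hadd true T))).trans h5
    · exact ((hun _ _).trans (Finset.sum_le_sum (fun T _ => hadd false T))).trans h5
  refine h6.trans (le_of_eq ?_)
  have h7 : ENNReal.ofReal (6 : ℝ) = 6 := by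
    rw [show (6 : ℝ) = ((6 : ℕ) : ℝ) by norm_num, ENNReal.ofReal_natCast]
    norm_num
  rw [h7]
  ring

theorem GLl_mono {m m' lam lam' : ℕ} (hm : m ≤ m') (hl : lam ≤ lam') (g : List Bool) : GLl m lam g ≤ GLl m' lam' g :=
  gf_mono fun _ h => ⟨Jo_SSt_mono hm h.1, h.2.1, h.2.2.trans hl⟩

/-- 9A with a time bound -/
theorem EFl_le : ∃ K : ℝ, 1 ≤ K ∧ ∀ (D N lam : ℕ), 1 ≤ D → D ≤ N → ∀ t : List Bool,
    EFl D N lam t ≤ ENNReal.ofReal K * Rec8.sw {g | g ∈ BrR D N ∧ RT D LFold t g}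
      (fun g => 1 + GLl (hgt g - 1) (lam + 10) g) := by
  obtain ⟨K, hK, h⟩ := EFl_le'
  refine ⟨K, hK, fun D N lam hD hDN t => (h D N lam hD hDN t).trans (mul_le_mul_right (Rec8.sw_mono' fun g _ => ?_) _)⟩
  refine add_le_add ?_ (GLl_mono le_rfl (by omega) g)
  split_ifs
  · exact le_rfl
  · exact zero_le

/-- the sum over the first leaf and the hanging word -/
theorem sumZl : ∃ K : ℝ, 1 ≤ K ∧ ∀ N lam : ℕ,
    Rec8.sw (BrR 1 N) (fun g => GLl (hgt g - 1) lam g) ≤ ENNReal.ofReal K * HHl N (lam + 1) := by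
  have hx := xc_pos
  have hx1 := B2b_xc_le_one
  refine ⟨xc⁻¹, (one_le_inv₀ hx).2 hx1, fun N lam => ?_⟩
  let T : Type := Σ g : {g : List Bool // g ∈ BrR 1 N},
    {W : List Bool // W ∈ {W | W ∈ SSt (hgt g.1 - 1) ∧ LFold g.1 W ∧ g.1.length + W.length ≤ lam}}
  have e1 : Rec8.sw (BrR 1 N) (fun g => GLl (hgt g - 1) lam g) = ∑' x : T, wE x.1.1 * wE x.2.1 := by
    rw [ENNReal.tsum_sigma']
    unfold Rec8.sw
    refine tsum_congr fun g => ?_
    show wE g.1 * GLl (hgt g.1 - 1) lam g.1 = ∑' b : {W : List Bool // W ∈ {W | W ∈ SSt (hgt g.1 - 1) ∧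
      LFold g.1 W ∧ g.1.length + W.length ≤ lam}}, wE g.1 * wE b.1
    rw [ENNReal.tsum_mul_left]
    rfl
  have hdat : ∀ g ∈ BrR 1 N, ∃ k, 1 ≤ k ∧ k ≤ N ∧ g ∈ Brd k ∧ hgt g = k := by
    rintro g ⟨k, h1, h2, h3⟩
    exact ⟨k, h1, h2, h3, hgt_eq h3⟩
  have hmem : ∀ x : T, joi x.1.1 x.2.1 ∈ {W | W ∈ SSt N ∧ W.length ≤ lam + 1} := by
    rintro ⟨⟨g, hg⟩, ⟨W, hW, hR, hl⟩⟩
    obtain ⟨k, h1, h2, h3, h4⟩ := hdat g hg
    dsimp only at hW hR hl ⊢
    rw [h4] at hW
    refine ⟨Jo_SSt_mono h2 (joi_mem h3 h1 hW hR), ?_⟩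
    rw [joi_length h3 h1]
    omega
  let ψ : T → {t : List Bool // t ∈ {W | W ∈ SSt N ∧ W.length ≤ lam + 1}} := fun x => ⟨joi x.1.1 x.2.1, hmem x⟩
  have hψ : Function.Injective ψ := by
    rintro ⟨⟨g, hg⟩, ⟨W, hW, hR, hl⟩⟩ ⟨⟨g', hg'⟩, ⟨W', hW', hR', hl'⟩⟩ he
    have he' : joi g W = joi g' W' := congrArg Subtype.val he
    obtain ⟨k, h1, h2, h3, h4⟩ := hdat g hg
    obtain ⟨k', h1', h2', h3', h4'⟩ := hdat g' hg'
    rw [h4] at hW
    rw [h4'] at hW'
    obtain ⟨a, b⟩ := joi_inj h3 h3' h1 h1' hW hW' he'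
    subst a
    subst b
    rfl
  have e2 : ENNReal.ofReal xc * ∑' x : T, wE x.1.1 * wE x.2.1 ≤ HHl N (lam + 1) := by
    rw [← ENNReal.tsum_mul_left]
    calc ∑' x : T, ENNReal.ofReal xc * (wE x.1.1 * wE x.2.1) = ∑' x : T, wE (ψ x).1 := by
          refine tsum_congr fun x => ?_
          obtain ⟨k, h1, h2, h3, h4⟩ := hdat x.1.1 x.1.2
          show _ = wE (joi x.1.1 x.2.1)
          rw [Jo_wE h3 h1, mul_comm]
      _ ≤ _ := ENNReal.tsum_comp_le_tsum_of_injective hψ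
          (fun w : {w // w ∈ {W | W ∈ SSt N ∧ W.length ≤ lam + 1}} => wE w.1)
  have hx0 : ENNReal.ofReal xc ≠ 0 := by
    rw [Ne, ENNReal.ofReal_eq_zero, not_le]
    exact hx
  rw [e1, ENNReal.ofReal_inv_of_pos hx, ← ENNReal.div_eq_inv_mul,
    ENNReal.le_div_iff_mul_le (Or.inl hx0) (Or.inl ENNReal.ofReal_ne_top), mul_comm]
  exact e2

end NTW

end HexObs
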