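import Pool.Agent.NTW.DomE
import Pool.Agent.NTW.HSumL
import Pool.Agent.NTW.JoinL
import Pool.Agent.NTW.Close

/-!
NTW, block (A) closed: the norm of the free ends (END with a time bound) and the whole end functional as a dominated
functional.
-/

set_option autoImplicit false

namespace HexObs

namespace NTW

open Finset TS SDN

open scoped ENNReal

/-- **END with a time bound** -/
theorem endL : EndL := by
  obtain ⟨C, δ, h⟩ := inp_exists
  exact ENDl_of h hsuml EFl_le sumZl close1

/-- functionals with a finite norm are dominated -/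
theorem dom_xT : ∃ K : ℝ, 1 ≤ K ∧ ∀ (D1 k1 k : ℕ) (Φ : List Bool → ℝ≥0∞), Hered Φ → 2 ^ (k1 + 4) ≤ D1 →
    k1 ≤ k → Dom k (ENNReal.ofReal K * xT D1 k1 Φ) Φ := by
  obtain ⟨C, δ, h⟩ := inp_exists
  exact Dom_xT h

/-- **the whole end functional is dominated by the number bl** -/
theorem dom_end : ∃ K : ℝ, 1 ≤ K ∧ ∀ j N lam lam' : ℕ, 5 ≤ j → 2 ^ j < N → N ≤ 2 ^ (j + 2) → QL j lam' →
    Dom (j - 4) (ENNReal.ofReal K * bl (lam + lam' + 12) (j + 2)) (fun t => 1 + ENl (2 ^ j) N lam t) := by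
  obtain ⟨C, δ, h⟩ := inp_exists
  exact Dom_end_of h endL sumZl

end NTW

end HexObs
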