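import Pool.Agent.NTW.CrdB
import Pool.Agent.NTW.EventDefs
import Pool.Agent.NTW.Ext
import Pool.Agent.NTW.EndF
import Pool.Agent.NTW.FoldCl
import Pool.Agent.SDN.Peierls1M
import Pool.Agent.SDN.WordNb

/-!
NTW, crowding with two free ends, part C: the words, and the crowd theorem Crowd2.
-/

set_option autoImplicit false

namespace HexObs

namespace NTW

open Finset TS SDN

open scoped ENNReal

namespace CrC

lemma QL_anti {i j lam : ℕ} (h : i ≤ j) (hQ : QL j lam) : QL i lam := fun a ha => hQ a (ha.trans h)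

/-- the number of doublings of a chain in a box -/
lemma dbl_box {D N : ℕ} (hD : 1 ≤ D) : ∀ gs : List (List Bool), (∀ g ∈ gs, g ∈ BrR D N) →
    dbl D gs ≤ gs.length * Nat.log 2 (N / D)
  | [], _ => by
    unfold dbl
    simp
  | g :: gs, h => by
    have h1 := dbl_box hD gs (fun u hu => h u (List.mem_cons_of_mem _ hu))
    obtain ⟨n, h2, h3, h4⟩ := h g List.mem_cons_self
    have h5 : Nat.log 2 (hgt g / D) ≤ Nat.log 2 (N / D) := by
      rw [hgt_eq h4]
      exact Nat.log_mono_right (Nat.div_le_div_right h3)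
    unfold dbl at h1 ⊢
    rw [List.map_cons, List.sum_cons, List.length_cons, add_mul, one_mul]
    omega

lemma log_box (k J : ℕ) : Nat.log 2 (2 ^ (k + J + 2) / 2 ^ (k + 4)) ≤ J := by
  have h1 : 2 ^ (k + J + 2) / 2 ^ (k + 4) ≤ 2 ^ J := by
    apply Nat.div_le_of_le_mul
    rw [← pow_add]
    exact Nat.pow_le_pow_right (by norm_num) (by omega)
  calc Nat.log 2 (2 ^ (k + J + 2) / 2 ^ (k + 4)) ≤ Nat.log 2 (2 ^ J) := Nat.log_mono_right h1
    _ = J := Nat.log_pow (by norm_num) J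

end CrC

open CrC in
/-- a walk with m leaves of the scale k + 5 and few cells: the chain of its leaves is in CS -/
theorem crowd_rep : ∃ Cc : ℕ, 1 ≤ Cc ∧ ∀ (L k w0 m n u : ℕ) (t : List Bool)
    (e : ℕ → ℕ) (gs : List (List Bool)), t ∈ WL L → w0 ≤ k → k ≤ L → Fd (k + 5) t m u e → RepG t m u e gs → 6 ≤ m →
    Cc * 2 ^ w0 * nb (k + 5) t ≤ n → gs ∈ CS (2 ^ (k + 4)) (2 ^ (L + 2)) (k + 2) (2 ^ (k - w0)) n m := by
  obtain ⟨C, hC⟩ := caps_card
  refine ⟨16 * C + 1, by omega, fun L k w0 m n u t e gs ht hw0 hkL h hR hm hn => ?_⟩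
  obtain ⟨e', he', hlf⟩ := fd_lf h
  obtain ⟨J, hJ⟩ : ∃ J, J = 2 * ((m - 4) / 2) := ⟨_, rfl⟩
  have hJm : 1 + J + 1 ≤ m := by omega
  have hJ1 : 1 ≤ J := by omega
  -- the heights
  have hBr : ∀ g ∈ gs, g ∈ BrR (2 ^ (k + 4)) (2 ^ (L + 2)) := by
    intro g hg
    obtain ⟨l, hl, rfl⟩ := List.mem_iff_getElem.1 hg
    obtain ⟨x, x1, x2⟩ := hR.brd _ hg
    have hlm : l < m := by
      rw [← hR.len]
      exact hl
    obtain ⟨-, y1, y2⟩ := fd_cl h hlm (hR.pos l hl) x2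
    refine ⟨x, ?_, ?_, x2⟩
    · have h1 : 2 ^ (k + 5) = 2 * 2 ^ (k + 4) := by ring
      have h2 := Nat.one_le_two_pow (n := k + 4)
      omega
    · have hle : ∀ i, i ≤ m → e i ≤ t.length := by
        intro i hi
        have h5 : ∀ d, i + d ≤ m → e i ≤ e (i + d) := by
          intro d
          induction d with
          | zero => intro _; exact le_rfl
          | succ d ih => intro hd; exact (ih (by omega)).trans (h.2.1.lt (i + d) (by omega)).le
        have h6 := h5 (m - i) (by omega)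
        rw [Nat.add_sub_cancel' hi] at h6
        exact h6.trans h.2.1.le
      have h3 := Crs.lvl_diff (dir := false) ht (hle (l + 1) (by omega)) (hle l (by omega))
      have h3' : |lev t (e (l + 1)) - lev t (e l)| ≤ 3 * 2 ^ (L + 1) + 2 := h3
      have h4 := (abs_le.1 y2).2
      have h5 : (3 : ℤ) * x ≤ 3 * 2 ^ (L + 1) + 8 := by linarith
      have h6 : (2 : ℤ) ^ (L + 2) = 2 * 2 ^ (L + 1) := by ring
      have h7 : (4 : ℤ) ≤ 2 ^ (L + 1) ∨ L = 0 := by
        rcases Nat.eq_zero_or_pos L with h0 | h0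
        · exact Or.inr h0
        · left
          calc (4 : ℤ) = 2 ^ (1 + 1) := by norm_num
            _ ≤ 2 ^ (L + 1) := pow_le_pow_right₀ (by norm_num) (by omega)
      have h8 : (x : ℤ) ≤ ((2 ^ (L + 2) : ℕ) : ℤ) := by
        push_cast
        rw [h6]
        rcases h7 with h7 | h7
        · omega
        · subst h7
          norm_num at h5 ⊢
          omega
      exact_mod_cast h8
  -- the leaves in the middle
  have hmid : (gs.drop 1).take J = lws t e' 1 J := by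
    apply List.ext_getElem
    · rw [PE.lws_length, List.length_take, List.length_drop, hR.len]
      omega
    · intro i h1 h2
      rw [PE.lws_length] at h2
      rw [List.getElem_take, List.getElem_drop, hR.mid (1 + i) (by rw [hR.len]; omega) (by omega) (by omega)]
      unfold lws
      rw [List.getElem_map, List.getElem_range, he' (1 + i) (by omega), he' (1 + i + 1) (by omega)]
  obtain ⟨w1, w2, w3⟩ := lws_word ht.1 (by omega : 1 ≤ k + 5) hlf (le_refl 1) hJ1 hJm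
  have hle1 := PE.e_le hlf 1 (by omega)
  have hlt1 : e' 1 < e' 2 := hlf.lt 1 (by omega)
  have hle2 := PE.e_le hlf 2 (by omega)
  have htk : (t.take (e' 1 + 1)).length = e' 1 + 1 := by
    rw [List.length_take]
    omega
  obtain ⟨q, hq⟩ : ∃ q, q = t.drop (e' 1 + 1) := ⟨_, rfl⟩
  have hq2 : q = (unf (lws t e' 1 J)).dropLast ++ t.drop (e' (1 + J) - 1) := by
    rw [hq]
    conv_lhs => rw [w1]
    rw [List.drop_left' htk]
  have hqs : q ∈ SA := by
    rw [hq]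
    exact SA_drop ht.1 _
  have hHB : ∀ g ∈ lws t e' 1 J, g ∈ HB (2 ^ (k + 4)) := by
    intro g hg
    rw [← hmid] at hg
    obtain ⟨x, x1, _, x3⟩ := hBr g (List.mem_of_mem_drop (List.mem_of_mem_take hg))
    exact ⟨x, x1, x3⟩
  obtain ⟨c1, c2⟩ := caps_nc (k := k) (w := 2 ^ (k - w0)) Nat.one_le_two_pow hqs hq2 hHB
    (by rw [PE.lws_length, hJ]; exact ⟨(m - 4) / 2, by ring⟩)
  have hcard := hC k (k - w0) q (caps (k + 2) (2 ^ (k - w0)) 0 0 (lws t e' 1 J)).toFinset (by omega) c1 (by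
    intro x hx
    rw [List.mem_toFinset] at hx
    obtain ⟨i, j, hij, hj, l1, l2, l3, l4⟩ := c2 x hx
    refine ⟨i, j, by omega, hj, l1, l2, l3, ?_⟩
    rw [l4]
    push_cast
    rfl)
  refine ⟨hR.len, hR.ch, hBr, ?_, ?_⟩
  · rw [← hJ, hmid]
    exact c1
  · rw [← hJ, hmid]
    refine hcard.trans (le_trans ?_ hn)
    have h1 : nb (k + 5) q ≤ 16 * nb (k + 5) t := by
      rw [hq]
      exact nb_drop _ _
    have h2 : k - (k - w0) = w0 := by omega
    rw [h2]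
    calc C * 2 ^ w0 * nb (k + 5) q ≤ C * 2 ^ w0 * (16 * nb (k + 5) t) := by gcongr
      _ = 16 * C * 2 ^ w0 * nb (k + 5) t := by ring
      _ ≤ (16 * C + 1) * 2 ^ w0 * nb (k + 5) t := by gcongr; omega

open CrC EX in
/-- **the crowd theorem with two free ends** -/
theorem crowd2_of (hA : SsA) (h3 : Ss3) (hD : SsD) (hC : CoverTwo) : Crowd2 := by
  intro J hJ
  obtain ⟨k0, w0, Q, C0, hwk, hQ2, hC0, hch⟩ := crowd2_chain hA h3 hD J
  obtain ⟨Cc, hCc1, hrep⟩ := crowd_rep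
  obtain ⟨KC, hKC, hcov⟩ := hC
  obtain ⟨KE, hKE, hend⟩ := dom_end
  obtain ⟨A, hAe⟩ : ∃ A : ℕ, A = 6 + (Cc * 2 ^ w0 + 1) * (2 * Q) := ⟨_, rfl⟩
  refine ⟨A, KC * C0 * KE ^ 2, k0 + 1, ?_, by positivity, fun k m lam lam' hk hQ => ?_⟩
  · rw [hAe]
    exact_mod_cast (by omega : 1 ≤ 6 + (Cc * 2 ^ w0 + 1) * (2 * Q))
  obtain ⟨S, hS⟩ : ∃ S : Set (List Bool), S = {t | t ∈ SAL lam ∧ t ∈ WL (k + J) ∧ ∃ (u : ℕ) (e : ℕ → ℕ),
    Fd (k + 5) t m u e ∧ (A : ℝ) * nb (k + 5) t ≤ m} := ⟨_, rfl⟩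
  rw [← hS]
  obtain ⟨n, hn⟩ : ∃ n, n = m / (2 * Q) - 1 := ⟨_, rfl⟩
  obtain ⟨D, hDe⟩ : ∃ D, D = 2 ^ (k + 4) := ⟨_, rfl⟩
  have hD1 : 1 ≤ D := by
    rw [hDe]
    exact Nat.one_le_two_pow
  obtain ⟨N, hN⟩ : ∃ N, N = 2 ^ (k + J + 2) := ⟨_, rfl⟩
  -- the numbers of one word
  have hnum : ∀ t ∈ S, 6 ≤ m ∧ 2 * Q * (n + 1) ≤ m ∧ Cc * 2 ^ w0 * nb (k + 5) t ≤ n := by
    intro t ht
    rw [hS] at ht
    obtain ⟨_, _, u, e, _, h2⟩ := ht
    have h4 : A * nb (k + 5) t ≤ m := by exact_mod_cast h2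
    have h5 := nb_pos (k + 5) t
    have h6 : A ≤ A * nb (k + 5) t := Nat.le_mul_of_pos_right _ h5
    have h7 : (Cc * 2 ^ w0 * nb (k + 5) t + 1) * (2 * Q) ≤ m := by
      refine le_trans ?_ h4
      rw [hAe]
      calc (Cc * 2 ^ w0 * nb (k + 5) t + 1) * (2 * Q) ≤ (Cc * 2 ^ w0 * nb (k + 5) t + nb (k + 5) t) * (2 * Q) := by
            gcongr
        _ = (Cc * 2 ^ w0 + 1) * (2 * Q) * nb (k + 5) t := by ring
        _ ≤ (6 + (Cc * 2 ^ w0 + 1) * (2 * Q)) * nb (k + 5) t := by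
            gcongr
            omega
    have h8 : Cc * 2 ^ w0 * nb (k + 5) t + 1 ≤ m / (2 * Q) := by
      rw [Nat.le_div_iff_mul_le (by omega)]
      exact h7
    have h9 : 2 * Q * (m / (2 * Q)) ≤ m := Nat.mul_div_le _ _
    refine ⟨by omega, ?_, by omega⟩
    rw [hn, show m / (2 * Q) - 1 + 1 = m / (2 * Q) by omega]
    exact h9
  rcases Set.eq_empty_or_nonempty S with hSe | ⟨t0, ht0⟩
  · rw [hSe]
    have : gf (∅ : Set (List Bool)) = 0 := by
      unfold gf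
      simp
    rw [this]
    exact zero_le
  obtain ⟨hm6, hnm, -⟩ := hnum t0 ht0
  obtain ⟨P, hP⟩ : ∃ P : Set (List (List Bool)), P = {gs | gs ∈ CS D N (k + 2) (2 ^ (k - w0)) n m ∧
    dbl D gs ≤ J * m} := ⟨_, rfl⟩
  have h2b : ((2 : ℤ) ^ (k + 5)) = ((2 ^ (k + 5) : ℕ) : ℤ) := by push_cast; rfl
  have h1 := hcov S (2 ^ (k + 5)) (2 ^ (k + 5)) lam (fun gs => gs ∈ P) (by
    intro t ht
    obtain ⟨_, _, hnt⟩ := hnum t ht
    rw [hS] at ht
    obtain ⟨hSAL, hWL, u, e, hFd, hnb⟩ := ht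
    refine ⟨hSAL, m, u, e, hFd.1, hFd.2.1, ?_, ?_, ?_⟩
    · intro i hi
      have a1 := hFd.2.2.2.2.1 i (e 0) hi.le le_rfl
      have a2 := hFd.2.2.2.2.1 (e 0) i le_rfl hi.le
      unfold RR at a1 a2
      rw [← sg_sub]
      have a3 : |Tight.sg u (lev t i - lev t (e 0))| ≤ 3 * 2 ^ (k + 5) := by
        rw [sg_abs, abs_le]
        constructor <;> linarith
      push_cast
      exact (le_abs_self _).trans a3
    · intro i hi hil
      have a1 := hFd.2.2.2.2.2 i (e m) hi.le hil le_rfl hFd.2.1.le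
      have a2 := hFd.2.2.2.2.2 (e m) i le_rfl hFd.2.1.le hi.le hil
      unfold RR at a1 a2
      rw [← sg_sub]
      have a3 : |Tight.sg (u + (m - 1)) (lev t (e m) - lev t i)| ≤ 3 * 2 ^ (k + 5) := by
        rw [sg_abs, abs_le]
        constructor <;> linarith
      push_cast
      exact (le_abs_self _).trans a3
    · intro gs hR
      have b1 := hrep (k + J) k w0 m n u t e gs hWL (by omega) (by omega) hFd hR hm6 hnt
      rw [← hDe, ← hN] at b1
      rw [hP]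
      refine ⟨b1, ?_⟩
      have b2 := dbl_box hD1 gs b1.2.2.1
      have b3 := log_box k J
      rw [← hDe, ← hN] at b3
      rw [hR.len] at b2
      calc dbl D gs ≤ m * Nat.log 2 (N / D) := b2
        _ ≤ m * J := Nat.mul_le_mul_left _ b3
        _ = J * m := mul_comm _ _)
  refine h1.trans ?_
  obtain ⟨Ψ, hΨ⟩ : ∃ Ψ : List Bool → ℝ≥0∞, Ψ = fun t => 1 + ENl D (2 ^ (k + 5)) (lam + 20) t := ⟨_, rfl⟩
  have hQ' : QL (k + 4) lam' := QL_anti (by omega) hQ
  have hdomΨ := hend (k + 4) (2 ^ (k + 5)) (lam + 20) lam' (by omega)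
    (Nat.pow_lt_pow_right (by norm_num) (by omega)) (Nat.pow_le_pow_right (by norm_num) (by omega)) hQ'
  rw [Nat.add_sub_cancel, ← hDe, ← hΨ] at hdomΨ
  obtain ⟨x, hx⟩ : ∃ x, x = ENNReal.ofReal KE * bl (lam + lam' + 40) (k + 6) := ⟨_, rfl⟩
  have hdomx : Dom k x Ψ := by
    refine hdomΨ.mono ?_
    rw [hx]
    refine mul_le_mul_right ?_ _
    exact bl_mono_lam (by omega) _
  have h2 := hch k N m n x x Ψ Ψ (by omega) (by omega) hnm hdomx hdomx
  rw [← hDe] at h2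
  classical
  have h4 : ∑' gs : List (List Bool), (if gs ≠ [] ∧ gs.IsChain LFold ∧ (∀ g ∈ gs, ∃ k : ℕ, 1 ≤ k ∧ g ∈ Brd k) ∧
      gs ∈ P then SDN.wl gs * (EE0 (2 ^ (k + 5)) lam (rev (gs.headD [])) * EE0 (2 ^ (k + 5)) lam (gs.getLastD []))
        else 0) ≤ ∑' gs : {gs // gs ∈ CS D N (k + 2) (2 ^ (k - w0)) n m ∧ dbl D gs ≤ J * m},
      SDN.wl gs.1 * (Ψ (rev (gs.1.headD [])) * Ψ (gs.1.getLastD [])) := by
    have e1 : ∑' gs : {gs // gs ∈ CS D N (k + 2) (2 ^ (k - w0)) n m ∧ dbl D gs ≤ J * m},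
        SDN.wl gs.1 * (Ψ (rev (gs.1.headD [])) * Ψ (gs.1.getLastD [])) =
        ∑' gs : List (List Bool), (P.indicator (fun gs => SDN.wl gs *
          (Ψ (rev (gs.headD [])) * Ψ (gs.getLastD []))) gs) := by
      rw [hP]
      exact tsum_subtype {gs | gs ∈ CS D N (k + 2) (2 ^ (k - w0)) n m ∧ dbl D gs ≤ J * m}
        (fun gs => SDN.wl gs * (Ψ (rev (gs.headD [])) * Ψ (gs.getLastD [])))
    rw [e1]
    refine ENNReal.tsum_le_tsum fun gs => ?_
    split_ifs with hc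
    · obtain ⟨hne, _, _, hgP⟩ := hc
      rw [Set.indicator_of_mem hgP]
      rw [hP] at hgP
      have hbr := hgP.1.2.2.1
      obtain ⟨g, gs', rfl⟩ := List.exists_cons_of_ne_nil hne
      have hlast : (g :: gs').getLastD [] ∈ g :: gs' := by
        rw [List.getLastD_cons, List.getLastD_eq_getLast?, ← List.getLastD_eq_getLast?]
        rcases List.eq_nil_or_concat gs' with h0 | ⟨l, a, h0⟩
        · rw [h0]
          simp
        · rw [h0]
          simp
      have f1 : EE0 (2 ^ (k + 5)) lam (rev ((g :: gs').headD [])) ≤ Ψ (rev ((g :: gs').headD [])) := by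
        rw [hΨ, List.headD_cons]
        exact EE0_le (Brd_HB le_rfl (hbr g List.mem_cons_self)).2
      have f2 : EE0 (2 ^ (k + 5)) lam ((g :: gs').getLastD []) ≤ Ψ ((g :: gs').getLastD []) := by
        rw [hΨ]
        exact EE0_le (Brd_HB le_rfl (hbr _ hlast)).1
      gcongr
    · exact zero_le
  have hUk := (Ub_pos k).le
  calc ENNReal.ofReal KC * ∑' gs : List (List Bool), (if gs ≠ [] ∧ gs.IsChain LFold ∧
        (∀ g ∈ gs, ∃ k : ℕ, 1 ≤ k ∧ g ∈ Brd k) ∧ gs ∈ P then SDN.wl gs *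
          (EE0 (2 ^ (k + 5)) lam (rev (gs.headD [])) * EE0 (2 ^ (k + 5)) lam (gs.getLastD [])) else 0)
      ≤ ENNReal.ofReal KC * (ENNReal.ofReal (C0 * Ub k / 4 ^ m) * (x * x)) := mul_le_mul_right (h4.trans h2) _
    _ = ENNReal.ofReal (KC * C0 * KE ^ 2 * Ub k / 4 ^ m) * (bl (lam + lam' + 40) (k + 6)) ^ 2 := by
        rw [hx]
        have e2 : KC * C0 * KE ^ 2 * Ub k / 4 ^ m = KC * ((C0 * Ub k / 4 ^ m) * (KE * KE)) := by ring
        rw [e2, ENNReal.ofReal_mul (p := KC) (by linarith), ENNReal.ofReal_mul (p := C0 * Ub k / 4 ^ m) (by positivity),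
          ENNReal.ofReal_mul (p := KE) (by linarith)]
        ring

end NTW

end HexObs
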