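import Pool.Agent.NT.TallC

/-!
NTW: chains of leaves of a class A with the weights ω, an end functional Φ0 at the last leaf and a start functional Ψ at
the reversed first leaf (the generalisation of NT/TallC and NT/TallW to two free ends). The class of the admissible
functionals is an abstract predicate Dm x Φ (the functional Φ is controlled by the number x).
-/

set_option autoImplicit false

namespace HexObs

namespace NTW

open Finset TS SDN SDN.CN

open scoped ENNReal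

namespace TG

/-- the sum over the next n leaves, then the functional Φ0 of the last leaf -/
noncomputable def FF (A : Set (List Bool)) (ω Φ0 : List Bool → ℝ≥0∞) (k s : ℕ) : ℕ → List Bool → ℝ≥0∞
  | 0 => Φ0
  | n + 1 => fun t => ∑' j : ℕ, 2 ^ (j + 1) * vA (2 ^ (k + 4)) (NTm.TV.Cj A k s j) (fun g => ω g * FF A ω Φ0 k s n g) t

/-- weight of one leaf -/
noncomputable def w1 (ω : List Bool → ℝ≥0∞) (k s : ℕ) (g : List Bool) : ℝ≥0∞ := wE g * (2 ^ (hgt g / 2 ^ (k + s) + 1) * ω g)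

/-- weight of a chain -/
noncomputable def wv (ω : List Bool → ℝ≥0∞) (k s : ℕ) (gs : List (List Bool)) : ℝ≥0∞ := (gs.map (w1 ω k s)).prod

variable {A : Set (List Bool)} {ω Ψ Φ0 : List Bool → ℝ≥0∞} {Dm : ℝ≥0∞ → (List Bool → ℝ≥0∞) → Prop} {y : ℝ≥0∞}

lemma FF_her (k s n : ℕ) : HerD (2 ^ (k + 4)) (FF A ω Φ0 k s (n + 1)) := by
  constructor
  · intro a ha t
    exact ENNReal.tsum_le_tsum fun j => mul_le_mul_right (CN.hered_vA _ _ _ a ha t) _
  · intro a t ht _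
    exact ENNReal.tsum_le_tsum fun j => mul_le_mul_right (CCh.vA_suf (Nat.one_le_two_pow) _ _ ht) _

/-- the class has small norm -/
structure SmG (A : Set (List Bool)) (ω Ψ : List Bool → ℝ≥0∞) (y : ℝ≥0∞) (Dm : ℝ≥0∞ → (List Bool → ℝ≥0∞) → Prop)
    (k s : ℕ) (ν : ℕ → ℝ≥0∞) : Prop where
  dm : ∀ Φ : List Bool → ℝ≥0∞, HerD (2 ^ (k + 4)) Φ → Dm (xT (2 ^ (k + 4)) k Φ) Φ
  near : ∀ (j : ℕ) (x : ℝ≥0∞) (Φ : List Bool → ℝ≥0∞), Dm x Φ →
    xT (2 ^ (k + 4)) k (vA (2 ^ (k + 4)) (NTm.TV.Cj A k s j) (fun g => ω g * Φ g)) ≤ ν j * x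
  free : ∀ (j : ℕ) (x : ℝ≥0∞) (Φ : List Bool → ℝ≥0∞), Dm x Φ →
    Rec8.sw (NTm.TV.Cj A k s j) (fun g => ω g * (Ψ (rev g) * Φ g)) ≤ ν j * ENNReal.ofReal (Ub k) * (y * x)
  sum : ∑' j : ℕ, 2 ^ (j + 1) * ν j ≤ ENNReal.ofReal (1 / 4)

/-- one step -/
lemma step {k s : ℕ} {ν : ℕ → ℝ≥0∞} (h : SmG A ω Ψ y Dm k s ν) (n : ℕ) {x : ℝ≥0∞} (hx : Dm x (FF A ω Φ0 k s n)) :
    xT (2 ^ (k + 4)) k (FF A ω Φ0 k s (n + 1)) ≤ ENNReal.ofReal (1 / 4) * x := by
  have h1 : xT (2 ^ (k + 4)) k (FF A ω Φ0 k s (n + 1)) ≤ ∑' j : ℕ, (2 : ℝ≥0∞) ^ (j + 1) * ν j * x := by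
    refine (xT_tsum _ _ _).trans (ENNReal.tsum_le_tsum fun j => ?_)
    refine (xT_smul _ _ _ _).trans ?_
    rw [mul_assoc]
    exact mul_le_mul_right (h.near j x _ hx) _
  refine h1.trans ?_
  rw [ENNReal.tsum_mul_right]
  exact mul_le_mul_left h.sum _

lemma Dm_FF {k s : ℕ} {ν : ℕ → ℝ≥0∞} (h : SmG A ω Ψ y Dm k s ν) {x : ℝ≥0∞} (hx : Dm x Φ0) (n : ℕ) :
    ∃ x' : ℝ≥0∞, x' ≤ ENNReal.ofReal ((1 / 4) ^ n) * x ∧ Dm x' (FF A ω Φ0 k s n) := by
  induction n with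
  | zero =>
    refine ⟨x, ?_, hx⟩
    rw [pow_zero, ENNReal.ofReal_one, one_mul]
  | succ n ih =>
    obtain ⟨x', h1, h2⟩ := ih
    refine ⟨xT (2 ^ (k + 4)) k (FF A ω Φ0 k s (n + 1)), ?_, h.dm _ (FF_her k s n)⟩
    refine (step h n h2).trans ((mul_le_mul_right h1 _).trans ?_)
    rw [← mul_assoc, ← ENNReal.ofReal_mul (by norm_num), pow_succ, mul_comm ((1 / 4 : ℝ) ^ n)]

/-- the sum over the leaves of the class, by the heights -/
lemma sum_leaf (k s : ℕ) (R : List Bool → Prop) (Φ : List Bool → ℝ≥0∞) (F : ℕ → ℝ≥0∞)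
    (hF : ∀ j, Rec8.sw {g | g ∈ NTm.TV.Cj A k s j ∧ R g} Φ ≤ F j) :
    Rec8.sw {g | g ∈ NTm.TV.Sa A k ∧ R g} (fun g => 2 ^ (hgt g / 2 ^ (k + s) + 1) * Φ g) ≤ ∑' j : ℕ, 2 ^ (j + 1) * F j :=
  NTm.TV.sum_leaf k s R Φ F hF

open Classical in
/-- chains behind the leaf g -/
noncomputable def Tc (A : Set (List Bool)) (ω Φ0 : List Bool → ℝ≥0∞) (k s n : ℕ) (g : List Bool) : ℝ≥0∞ :=
  ∑' gs : List (List Bool), if gs.length = n ∧ (g :: gs).IsChain LFold ∧ ∀ u ∈ gs, u ∈ NTm.TV.Sa A k then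
    wv ω k s gs * Φ0 (gs.getLastD g) else 0

lemma Tc_zero (k s : ℕ) (g : List Bool) : Tc A ω Φ0 k s 0 g ≤ Φ0 g := by
  classical
  unfold Tc
  rw [tsum_eq_single []]
  · split_ifs
    · simp [wv]
    · exact zero_le
  · intro gs hgs
    rw [if_neg]
    rintro ⟨h, -⟩
    exact hgs (List.length_eq_zero_iff.1 h)

lemma Tc_le (k s n : ℕ) : ∀ g ∈ HB (2 ^ (k + 4)), Tc A ω Φ0 k s n g ≤ FF A ω Φ0 k s n g := by
  classical
  induction n with
  | zero =>
    intro g _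
    exact Tc_zero k s g
  | succ n ih =>
    intro g hg
    have h1 : Tc A ω Φ0 k s (n + 1) g ≤ Rec8.sw {g' | g' ∈ NTm.TV.Sa A k ∧ RT (2 ^ (k + 4)) LFold g g'}
        (fun g' => 2 ^ (hgt g' / 2 ^ (k + s) + 1) * (ω g' * FF A ω Φ0 k s n g')) := by
      unfold Tc
      refine (CCh.tsum_list _ ?_).trans ?_
      · rw [if_neg]
        rintro ⟨h, -⟩
        simp at h
      · rw [Rec8.sw_ind]
        refine ENNReal.tsum_le_tsum fun g' => ?_
        by_cases h2 : g' ∈ NTm.TV.Sa A k ∧ LFold g g'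
        · have h3 : g' ∈ {g' | g' ∈ NTm.TV.Sa A k ∧ RT (2 ^ (k + 4)) LFold g g'} := ⟨h2.1, RT_of hg h2.2⟩
          rw [if_pos h3]
          have h4 : wE g' * (2 ^ (hgt g' / 2 ^ (k + s) + 1) * (ω g' * FF A ω Φ0 k s n g')) =
              w1 ω k s g' * FF A ω Φ0 k s n g' := by
            unfold w1
            ring
          rw [h4]
          refine le_trans ?_ (mul_le_mul_right (ih g' h2.1.1.2) _)
          unfold Tc
          rw [← ENNReal.tsum_mul_left]
          refine ENNReal.tsum_le_tsum fun gs => ?_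
          by_cases h5 : (g' :: gs).length = n + 1 ∧ (g :: g' :: gs).IsChain LFold ∧
              ∀ u ∈ g' :: gs, u ∈ NTm.TV.Sa A k
          · rw [if_pos h5, if_pos]
            · rw [List.getLastD_cons]
              unfold wv
              rw [List.map_cons, List.prod_cons, mul_assoc]
            · refine ⟨?_, ?_, ?_⟩
              · have := h5.1
                rw [List.length_cons] at this
                omega
              · exact (List.isChain_cons_cons.1 h5.2.1).2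
              · exact fun u hu => h5.2.2 u (List.mem_cons_of_mem _ hu)
          · rw [if_neg h5]
            exact zero_le
        · have h3 : ∀ gs : List (List Bool), (if (g' :: gs).length = n + 1 ∧ (g :: g' :: gs).IsChain LFold ∧
              ∀ u ∈ g' :: gs, u ∈ NTm.TV.Sa A k then wv ω k s (g' :: gs) * Φ0 ((g' :: gs).getLastD g) else 0) = 0 := by
            intro gs
            rw [if_neg]
            rintro ⟨-, h4, h5⟩
            exact h2 ⟨h5 g' List.mem_cons_self, (List.isChain_cons_cons.1 h4).1⟩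
          rw [tsum_congr h3, tsum_zero]
          exact zero_le
    refine h1.trans ?_
    exact sum_leaf k s (fun g' => RT (2 ^ (k + 4)) LFold g g') (fun g' => ω g' * FF A ω Φ0 k s n g')
      (fun j => vA (2 ^ (k + 4)) (NTm.TV.Cj A k s j) (fun g' => ω g' * FF A ω Φ0 k s n g') g) (fun j => le_rfl)

/-- all chains -/
lemma all_chains {k s : ℕ} {ν : ℕ → ℝ≥0∞} (h : SmG A ω Ψ y Dm k s ν) {x : ℝ≥0∞} (hx : Dm x Φ0) (n : ℕ) :
    Rec8.sw (NTm.TV.Sa A k) (fun g => 2 ^ (hgt g / 2 ^ (k + s) + 1) * (ω g * (Ψ (rev g) * Tc A ω Φ0 k s n g))) ≤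
      ENNReal.ofReal (Ub k * (1 / 4) ^ (n + 1)) * (y * x) := by
  have hUk : 0 < Ub k := Ub_pos k
  obtain ⟨x', hx1, hx2⟩ := Dm_FF h hx n
  have h1 : Rec8.sw (NTm.TV.Sa A k) (fun g => 2 ^ (hgt g / 2 ^ (k + s) + 1) * (ω g * (Ψ (rev g) * Tc A ω Φ0 k s n g))) ≤
      Rec8.sw {g | g ∈ NTm.TV.Sa A k ∧ True}
        (fun g => 2 ^ (hgt g / 2 ^ (k + s) + 1) * (ω g * (Ψ (rev g) * FF A ω Φ0 k s n g))) :=
    Rec8.sw_mono (fun g hg => ⟨hg, trivial⟩) fun g hg =>
      mul_le_mul_right (mul_le_mul_right (mul_le_mul_right (Tc_le k s n g hg.1.2) _) _) _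
  refine h1.trans ?_
  have h2 := sum_leaf (A := A) k s (fun _ => True) (fun g => ω g * (Ψ (rev g) * FF A ω Φ0 k s n g))
      (fun j => ν j * ENNReal.ofReal (Ub k) * (y * x')) (fun j =>
        (Rec8.sw_mono (fun g hg => hg.1) fun _ _ => le_rfl).trans (h.free j x' _ hx2))
  refine h2.trans ?_
  have h3 : ∀ j : ℕ, (2 : ℝ≥0∞) ^ (j + 1) * (ν j * ENNReal.ofReal (Ub k) * (y * x')) =
      (2 : ℝ≥0∞) ^ (j + 1) * ν j * (ENNReal.ofReal (Ub k) * (y * x')) := fun j => by ring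
  rw [tsum_congr h3, ENNReal.tsum_mul_right]
  refine (mul_le_mul' h.sum (mul_le_mul_right (mul_le_mul_right hx1 y) _)).trans (le_of_eq ?_)
  rw [show y * (ENNReal.ofReal ((1 / 4) ^ n) * x) = ENNReal.ofReal ((1 / 4) ^ n) * (y * x) by ring, ← mul_assoc,
    ← mul_assoc, ← ENNReal.ofReal_mul (by norm_num), ← ENNReal.ofReal_mul (by positivity)]
  congr 2
  rw [pow_succ]
  ring

open Classical in
/-- the chains of n + 1 leaves with the two end functionals and the exponential moment of the heights -/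
theorem chain_G {k s : ℕ} {ν : ℕ → ℝ≥0∞} (h : SmG A ω Ψ y Dm k s ν) {x : ℝ≥0∞} (hx : Dm x Φ0) (n : ℕ) :
    ∑' gs : List (List Bool), (if gs.length = n + 1 ∧ gs.IsChain LFold ∧ ∀ u ∈ gs, u ∈ NTm.TV.Sa A k then
      wv ω k s gs * (Ψ (rev (gs.headD [])) * Φ0 (gs.getLastD [])) else 0) ≤
      ENNReal.ofReal (Ub k * (1 / 4) ^ (n + 1)) * (y * x) := by
  refine le_trans ?_ (all_chains h hx n)
  refine (CCh.tsum_list _ ?_).trans ?_
  · rw [if_neg]
    rintro ⟨h, -⟩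
    simp at h
  · rw [Rec8.sw_ind]
    refine ENNReal.tsum_le_tsum fun g => ?_
    by_cases hg : g ∈ NTm.TV.Sa A k
    · rw [if_pos hg]
      have h4 : wE g * (2 ^ (hgt g / 2 ^ (k + s) + 1) * (ω g * (Ψ (rev g) * Tc A ω Φ0 k s n g))) =
          w1 ω k s g * (Ψ (rev g) * Tc A ω Φ0 k s n g) := by
        unfold w1
        ring
      rw [h4]
      unfold Tc
      rw [← ENNReal.tsum_mul_left, ← ENNReal.tsum_mul_left]
      refine ENNReal.tsum_le_tsum fun gs => ?_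
      by_cases h5 : (g :: gs).length = n + 1 ∧ (g :: gs).IsChain LFold ∧ ∀ u ∈ g :: gs, u ∈ NTm.TV.Sa A k
      · rw [if_pos h5, if_pos]
        · rw [List.getLastD_cons]
          unfold wv
          rw [List.map_cons, List.prod_cons]
          show w1 ω k s g * (gs.map (w1 ω k s)).prod * (Ψ (rev g) * Φ0 (gs.getLastD g)) ≤ _
          exact le_of_eq (by ring)
        · refine ⟨?_, h5.2.1, fun u hu => h5.2.2 u (List.mem_cons_of_mem _ hu)⟩
          have := h5.1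
          rw [List.length_cons] at this
          omega
      · rw [if_neg h5]
        exact zero_le
    · rw [if_neg hg]
      have h5 : ∀ gs : List (List Bool), (if (g :: gs).length = n + 1 ∧ (g :: gs).IsChain LFold ∧
          ∀ u ∈ g :: gs, u ∈ NTm.TV.Sa A k then
            wv ω k s (g :: gs) * (Ψ (rev ((g :: gs).headD [])) * Φ0 ((g :: gs).getLastD [])) else 0) = 0 := by
        intro gs
        rw [if_neg]
        rintro ⟨-, -, h6⟩
        exact hg (h6 g List.mem_cons_self)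
      rw [tsum_congr h5, tsum_zero]

open Classical in
/-- the chains of n + 1 leaves with the total height V -/
theorem chain_GV {k s : ℕ} {ν : ℕ → ℝ≥0∞} (h : SmG A ω Ψ y Dm k s ν) {x : ℝ≥0∞} (hx : Dm x Φ0) (n V : ℕ) :
    ∑' gs : List (List Bool), (if gs.length = n + 1 ∧ gs.IsChain LFold ∧ (∀ u ∈ gs, u ∈ NTm.TV.Sa A k) ∧
      V ≤ (gs.map fun g => hgt g / 2 ^ (k + s) + 1).sum then
        SDN.wl gs * (gs.map ω).prod * (Ψ (rev (gs.headD [])) * Φ0 (gs.getLastD [])) else 0) ≤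
      ENNReal.ofReal (Ub k * (1 / 4) ^ (n + 1) / 2 ^ V) * (y * x) := by
  have hU := Ub_pos k
  have hall := chain_G h hx n
  have hwv : ∀ gs : List (List Bool), wv ω k s gs =
      SDN.wl gs * (gs.map ω).prod * 2 ^ ((gs.map fun g => hgt g / 2 ^ (k + s) + 1).sum) := by
    intro gs
    induction gs with
    | nil => simp [wv, SDN.wl]
    | cons g gs ih =>
      unfold wv SDN.wl at ih ⊢
      rw [List.map_cons, List.prod_cons, List.map_cons, List.prod_cons, List.map_cons, List.prod_cons, List.map_cons,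
        List.sum_cons, ih, pow_add _ (hgt g / 2 ^ (k + s) + 1)]
      unfold w1
      ring
  have h2V : (2 : ℝ≥0∞) ^ V ≠ 0 := by positivity
  have h2V' : (2 : ℝ≥0∞) ^ V ≠ ∞ := ENNReal.pow_ne_top (by norm_num)
  have h1 : 2 ^ V * ∑' gs : List (List Bool), (if gs.length = n + 1 ∧ gs.IsChain LFold ∧
      (∀ u ∈ gs, u ∈ NTm.TV.Sa A k) ∧ V ≤ (gs.map fun g => hgt g / 2 ^ (k + s) + 1).sum then
        SDN.wl gs * (gs.map ω).prod * (Ψ (rev (gs.headD [])) * Φ0 (gs.getLastD [])) else 0) ≤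
      ENNReal.ofReal (Ub k * (1 / 4) ^ (n + 1)) * (y * x) := by
    refine le_trans ?_ hall
    rw [← ENNReal.tsum_mul_left]
    refine ENNReal.tsum_le_tsum fun gs => ?_
    by_cases hg : gs.length = n + 1 ∧ gs.IsChain LFold ∧ (∀ u ∈ gs, u ∈ NTm.TV.Sa A k) ∧
      V ≤ (gs.map fun g => hgt g / 2 ^ (k + s) + 1).sum
    · rw [if_pos hg, if_pos ⟨hg.1, hg.2.1, hg.2.2.1⟩, hwv]
      have h3 : (2 : ℝ≥0∞) ^ V ≤ 2 ^ ((gs.map fun g => hgt g / 2 ^ (k + s) + 1).sum) :=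
        pow_le_pow_right₀ (by norm_num) hg.2.2.2
      calc (2 : ℝ≥0∞) ^ V * (SDN.wl gs * (gs.map ω).prod * (Ψ (rev (gs.headD [])) * Φ0 (gs.getLastD [])))
          ≤ 2 ^ ((gs.map fun g => hgt g / 2 ^ (k + s) + 1).sum) *
            (SDN.wl gs * (gs.map ω).prod * (Ψ (rev (gs.headD [])) * Φ0 (gs.getLastD []))) := mul_le_mul_left h3 _
        _ = _ := by ring
    · rw [if_neg hg, mul_zero]
      exact zero_le
  have h6 : ENNReal.ofReal (Ub k * (1 / 4) ^ (n + 1) / 2 ^ V) =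
      ENNReal.ofReal (Ub k * (1 / 4) ^ (n + 1)) / 2 ^ V := by
    rw [ENNReal.ofReal_div_of_pos (by positivity)]
    congr 1
    rw [ENNReal.ofReal_pow (by norm_num)]
    congr 1
    norm_num
  rw [h6, ENNReal.mul_comm_div, ← mul_div_assoc, ENNReal.le_div_iff_mul_le (Or.inl h2V) (Or.inl h2V'), mul_comm]
  exact h1

end TG

end NTW

end HexObs
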