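import Pool.Agent.NTW.KernJ
import Pool.Agent.NTW.EndF

/-!
NTW: functionals dominated at every window up to k, the bound with the parts up to the window only.
-/

set_option autoImplicit false

namespace HexObs

namespace NTW

open Finset TS SDN

open scoped ENNReal

open Rec8 (mb)

variable {C δ : ℝ}

/-- the functional Φ is dominated by the number x at all windows up to k -/
structure DomJ (k : ℕ) (x : ℝ≥0∞) (Φ : List Bool → ℝ≥0∞) : Prop where
  her : Hered Φ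
  bdj : ∀ j ≤ k, ∀ (r : ℕ) (P : List Bool), P ∈ Irr r →
    Rec8.sw {M | ∃ m, m < 2 ^ (j + 1) ∧ M ∈ Brd m} (fun M => Φ (P ++ M)) ≤ x * SJ k j P

lemma DomJ.dom {k : ℕ} {x : ℝ≥0∞} {Φ : List Bool → ℝ≥0∞} (h : DomJ k x Φ) : Dom k x Φ :=
  ⟨h.her, fun r P hP => by
    have := h.bdj k le_rfl r P hP
    rwa [SJ_self] at this⟩

lemma DomJ.mono {k : ℕ} {x y : ℝ≥0∞} {Φ : List Bool → ℝ≥0∞} (h : DomJ k x Φ) (hxy : x ≤ y) : DomJ k y Φ :=
  ⟨h.her, fun j hj r P hP => (h.bdj j hj r P hP).trans (mul_le_mul' hxy le_rfl)⟩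

lemma DomJ.add {k : ℕ} {x y : ℝ≥0∞} {Φ Ψ : List Bool → ℝ≥0∞} (h : DomJ k x Φ) (h' : DomJ k y Ψ) :
    DomJ k (x + y) (fun t => Φ t + Ψ t) := by
  refine ⟨fun s hs t => add_le_add (h.her s hs t) (h'.her s hs t), fun j hj r P hP => ?_⟩
  rw [Rec8.sw_add, add_mul]
  exact add_le_add (h.bdj j hj r P hP) (h'.bdj j hj r P hP)

lemma DomJ.smul {k : ℕ} {x : ℝ≥0∞} {Φ : List Bool → ℝ≥0∞} (c : ℝ≥0∞) (h : DomJ k x Φ) :
    DomJ k (c * x) (fun t => c * Φ t) := by
  refine ⟨fun s hs t => mul_le_mul_right (h.her s hs t) _, fun j hj r P hP => ?_⟩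
  rw [Rec8.sw_mul_left, mul_assoc]
  exact mul_le_mul_right (h.bdj j hj r P hP) _

lemma DomJ.le {k : ℕ} {x : ℝ≥0∞} {Φ Ψ : List Bool → ℝ≥0∞} (h : DomJ k x Φ) (hΨ : Hered Ψ) (hle : ∀ t, Ψ t ≤ Φ t) :
    DomJ k x Ψ :=
  ⟨hΨ, fun j hj r P hP => (Rec8.sw_mono' fun _ _ => hle _).trans (h.bdj j hj r P hP)⟩

namespace DJ

open DE LW

lemma Sw_le_SJ {i k j : ℕ} (h : i ≤ k) (P : List Bool) :
    ∑ b ∈ range (min i j + 1), Sw (2 ^ (i + 4)) i b P ≤ SJ k j P := by
  unfold SJ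
  exact Finset.single_le_sum (f := fun i => ∑ b ∈ range (min i j + 1), Sw (2 ^ (i + 4)) i b P)
    (fun _ _ => zero_le) (Finset.mem_range.2 (by omega))

lemma Ub_le_SJ {k j : ℕ} (h : j ≤ k) (P : List Bool) : ENNReal.ofReal (Ub j) ≤ SJ k j P := by
  refine le_trans ?_ (Sw_le_SJ h P)
  rw [min_self]
  refine le_trans ?_ (Finset.single_le_sum (f := fun b => Sw (2 ^ (j + 4)) j b P)
    (fun _ _ => zero_le) (Finset.mem_range.2 (Nat.lt_succ_self j)))
  unfold Sw
  refine le_trans (le_of_eq ?_) le_self_add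
  rw [sub_self, mul_zero, Real.rpow_zero, one_mul]

/-- the parts lower than 2^(q + 1) behind a piece -/
lemma lowJ (h : Inp C δ) : ∃ K : ℝ, 1 ≤ K ∧ ∀ (D1 k1 q r : ℕ) (Φ : List Bool → ℝ≥0∞) (P : List Bool), Hered Φ →
    2 ^ (k1 + 4) ≤ D1 → P ∈ Irr r →
    Rec8.sw {M | ∃ m, m < 2 ^ (q + 1) ∧ M ∈ Brd m} (fun M => Φ (P ++ M)) ≤
      xT D1 k1 Φ * (∑ b ∈ range (min k1 q + 1), Sw D1 k1 b P + (if k1 < q then ENNReal.ofReal (K * Ub q) else 0)) := by
  obtain ⟨K, hK1, hK⟩ := restLow h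
  refine ⟨2 * K, by linarith, fun D1 k1 q r Φ P hΦ hD hP => ?_⟩
  by_cases hq : k1 < q
  · refine (hK D1 k1 (2 ^ (q + 1)) r Φ P hΦ hD hP).trans ?_
    rw [if_pos hq, min_eq_left hq.le]
    refine mul_le_mul_right (add_le_add le_rfl (ENNReal.ofReal_le_ofReal ?_)) _
    have := UU_two q
    nlinarith
  · rw [if_neg hq, add_zero, min_eq_right (by omega)]
    refine (low_blocks q _).trans ?_
    rw [Finset.mul_sum]
    refine Finset.sum_le_sum fun b hb => ?_
    rw [Finset.mem_range] at hb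
    exact xT_use (by omega) ⟨r, hP⟩ Φ

end DJ

open DE DJ in
/-- constants -/
theorem DomJ_const (k : ℕ) (c : ℝ≥0∞) : DomJ k (2 * c) (fun _ => c) := by
  refine ⟨fun _ _ _ => le_rfl, fun j hj r P _ => ?_⟩
  have h1 : Rec8.sw {M | ∃ m, m < 2 ^ (j + 1) ∧ M ∈ Brd m} (fun _ => c) ≤ c * ENNReal.ofReal (UU (2 ^ (j + 1))) := by
    have e : Rec8.sw {M | ∃ m, m < 2 ^ (j + 1) ∧ M ∈ Brd m} (fun _ => c) =
        c * gf {M | ∃ m, m < 2 ^ (j + 1) ∧ M ∈ Brd m} := by
      rw [← Rec8.sw_one, ← Rec8.sw_mul_left]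
      exact Rec8.sw_congr fun _ _ => (mul_one c).symm
    rw [e]
    refine mul_le_mul_right (le_trans (gf_mono ?_) (gf_BU_le _)) _
    rintro t ⟨m, h1, h2⟩
    exact ⟨m, h1.le, h2⟩
  refine h1.trans ?_
  calc c * ENNReal.ofReal (UU (2 ^ (j + 1))) ≤ c * ENNReal.ofReal (2 * Ub j) :=
        mul_le_mul_right (ENNReal.ofReal_le_ofReal (UU_two j)) _
    _ = 2 * c * ENNReal.ofReal (Ub j) := by
        rw [ENNReal.ofReal_mul (by norm_num)]
        simp only [ENNReal.ofReal_ofNat]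
        ring
    _ ≤ _ := mul_le_mul_right (Ub_le_SJ hj P) _

open DE DJ in
/-- functionals with a finite norm -/
theorem DomJ_xT (h : Inp C δ) : ∃ K : ℝ, 1 ≤ K ∧ ∀ (D1 k1 k : ℕ) (Φ : List Bool → ℝ≥0∞), Hered Φ → 2 ^ (k1 + 4) ≤ D1 →
    k1 ≤ k → DomJ k (ENNReal.ofReal K * xT D1 k1 Φ) Φ := by
  obtain ⟨K, hK1, hK⟩ := lowJ h
  refine ⟨1 + K, by linarith, fun D1 k1 k Φ hΦ hD hk => ⟨hΦ, fun q hq r P hP => ?_⟩⟩
  refine (hK D1 k1 q r Φ P hΦ hD hP).trans ?_
  have h1 : ∑ b ∈ range (min k1 q + 1), Sw D1 k1 b P ≤ SJ k q P :=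
    (Finset.sum_le_sum fun b _ => Sw_anti hD k1 b P).trans (Sw_le_SJ hk P)
  have h2 : (if k1 < q then ENNReal.ofReal (K * Ub q) else 0) ≤ ENNReal.ofReal K * SJ k q P := by
    split_ifs
    · rw [ENNReal.ofReal_mul (by linarith)]
      exact mul_le_mul_right (Ub_le_SJ hq P) _
    · exact zero_le
  calc xT D1 k1 Φ * (∑ b ∈ range (min k1 q + 1), Sw D1 k1 b P + (if k1 < q then ENNReal.ofReal (K * Ub q) else 0))
      ≤ xT D1 k1 Φ * (SJ k q P + ENNReal.ofReal K * SJ k q P) := mul_le_mul_right (add_le_add h1 h2) _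
    _ = _ := by
        rw [ENNReal.ofReal_add (by norm_num) (by linarith), ENNReal.ofReal_one]
        ring

open LW DJ in
/-- functionals are dominated by their norm -/
theorem DomJ_self {k : ℕ} {Φ : List Bool → ℝ≥0∞} (hΦ : Hered Φ) : DomJ k (xT (2 ^ (k + 4)) k Φ) Φ := by
  refine ⟨hΦ, fun j hj r P hP => ?_⟩
  refine (low_blocks j _).trans ?_
  calc ∑ b ∈ range (j + 1), Rec8.sw (Fld.BrB b) (fun M => Φ (P ++ M))
      ≤ ∑ b ∈ range (j + 1), xT (2 ^ (k + 4)) k Φ * Sw (2 ^ (k + 4)) k b P := by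
        refine Finset.sum_le_sum fun b hb => ?_
        rw [Finset.mem_range] at hb
        exact xT_use (by omega) ⟨r, hP⟩ Φ
    _ = xT (2 ^ (k + 4)) k Φ * ∑ b ∈ range (min k j + 1), Sw (2 ^ (k + 4)) k b P := by
        rw [← Finset.mul_sum, min_eq_right hj]
    _ ≤ _ := mul_le_mul_right (Sw_le_SJ le_rfl P) _

open DE LW DO DJ in
/-- **the whole end functional is dominated by the number bl at all windows** -/
theorem DomJ_end_of (h : Inp C δ) (hE : EndL) (hZ : SumZl) : ∃ K : ℝ, 1 ≤ K ∧ ∀ j N lam lam' : ℕ, 5 ≤ j → 2 ^ j < N →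
    N ≤ 2 ^ (j + 2) → QL j lam' →
    DomJ (j - 4) (ENNReal.ofReal K * bl (lam + lam' + 12) (j + 2)) (fun t => 1 + ENl (2 ^ j) N lam t) := by
  obtain ⟨Kr, hKr, hrest⟩ := lowJ h
  obtain ⟨C1, hC1, hE⟩ := hE
  obtain ⟨KZ, hKZ, hZ⟩ := hZ
  obtain ⟨KU, hKU, hU⟩ := geo_Ub (η := 0) kap0_pos
  obtain ⟨H5, hH50, hH5⟩ : ∃ H5 : ℝ, 0 ≤ H5 ∧ 1 + BAR.HH (2 ^ 5) = ENNReal.ofReal H5 := by
    refine ⟨(1 + BAR.HH (2 ^ 5)).toReal, ENNReal.toReal_nonneg, (ENNReal.ofReal_toReal ?_).symm⟩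
    exact ENNReal.add_ne_top.2 ⟨ENNReal.one_ne_top, PLW.gf_SSt_fin _⟩
  have hKr0 : 0 < Kr := by linarith
  have hC10 : 0 < C1 := by linarith
  have hKU0 : 0 < KU := by linarith
  have hKZ0 : 0 < KZ := by linarith
  refine ⟨4 * H5 + (2 * KZ + (C1 + C1 * (Kr * (KU * 32)) + C1)), ?_,
    fun j N lam lam' hj hjN hN hQ => ⟨?_, fun q hq r P hP => ?_⟩⟩
  · have h1 : 0 < C1 * (Kr * (KU * 32)) := by positivity
    linarith
  · intro s hs t
    exact add_le_add le_rfl (Hered_ENl _ _ _ s hs t)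
  obtain ⟨k, hk⟩ : ∃ k, k = j - 4 := ⟨_, rfl⟩
  have hjk : j = k + 4 := by omega
  rw [← hk] at hq ⊢
  obtain ⟨B, hB⟩ : ∃ B, B = bl (lam + lam' + 12) (j + 2) := ⟨_, rfl⟩
  obtain ⟨S, hS⟩ : ∃ S, S = SJ k q P := ⟨_, rfl⟩
  have hUq := Ub_pos q
  have hUS : ENNReal.ofReal (Ub q) ≤ S := by rw [hS]; exact Ub_le_SJ hq P
  -- 1 ≤ 2 bl
  have hone : 1 ≤ 2 * B := by
    have h0 := hQ 0 (by omega)
    have h1 : gf {X | (∃ n, n ≤ 2 ^ 0 ∧ X ∈ Brd n) ∧ X.length ≤ lam'} ≤ HHl (2 ^ 0) (lam + lam' + 12) := by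
      refine gf_mono fun W hW => ?_
      obtain ⟨⟨n, hn, hW1⟩, hW2⟩ := hW
      exact ⟨SSt_mo hn (BAR.Brd_SSt hW1), by omega⟩
    have hU0 : 0 < UU (2 ^ 0) := Num2Aux.UU_pos _
    have h2 : HHl (2 ^ 0) (lam + lam' + 12) / ENNReal.ofReal (UU (2 ^ 0)) ≤ B := by
      rw [hB]
      exact le_bl _ (by omega)
    have h3 : ENNReal.ofReal (UU (2 ^ 0)) ≤ 2 * HHl (2 ^ 0) (lam + lam' + 12) := h0.trans (mul_le_mul_right h1 _)
    have hne : ENNReal.ofReal (UU (2 ^ 0)) ≠ 0 := (ENNReal.ofReal_pos.2 hU0).ne'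
    calc (1 : ℝ≥0∞) = ENNReal.ofReal (UU (2 ^ 0)) / ENNReal.ofReal (UU (2 ^ 0)) :=
          (ENNReal.div_self hne ENNReal.ofReal_ne_top).symm
      _ ≤ 2 * HHl (2 ^ 0) (lam + lam' + 12) / ENNReal.ofReal (UU (2 ^ 0)) := ENNReal.div_le_div_right h3 _
      _ = 2 * (HHl (2 ^ 0) (lam + lam' + 12) / ENNReal.ofReal (UU (2 ^ 0))) := by
          rw [mul_div_assoc]
      _ ≤ 2 * B := mul_le_mul_right h2 _
  have hz : ∀ i, 5 ≤ i → i < j → zl lam i ≤ ENNReal.ofReal C1 * B := by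
    intro i hi hij
    have h1 := hE i (2 ^ (i + 1)) lam lam' hi (Nat.pow_lt_pow_right (by norm_num) (by omega))
      (Nat.pow_le_pow_right (by norm_num) (by omega)) (fun a ha => hQ a (by omega))
    refine h1.trans (mul_le_mul_right ?_ _)
    rw [hB]
    exact bl_mono _ (by omega)
  have hzN : zNl lam j N ≤ ENNReal.ofReal C1 * B := by
    rw [hB]
    exact hE j N lam lam' hj hjN hN hQ
  -- pointwise decomposition
  obtain ⟨c5, hc5⟩ : ∃ c5, c5 = 1 + BAR.HH (2 ^ 5) := ⟨_, rfl⟩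
  classical
  have hpt : ∀ M ∈ {M | ∃ m, m < 2 ^ (q + 1) ∧ M ∈ Brd m}, 1 + ENl (2 ^ j) N lam (P ++ M) ≤
      c5 + ((if M ∈ BrR 1 (2 ^ (q + 1)) then GLl (hgt M - 1) lam M else 0) +
      (∑ i ∈ Ico 5 j, (if M ∈ {M | ∃ m, m < 2 ^ (i + 2) ∧ M ∈ Brd m} then EFl (2 ^ i) (2 ^ (i + 1)) lam (P ++ M) else 0) +
        EFl (2 ^ j) N lam (P ++ M))) := by
    rintro M ⟨m, hm, hM⟩
    have h1 := ENl_blocks (lam := lam) (N := N) (P := P) hj hM
    rw [hc5]
    refine (add_le_add_right h1 1).trans ?_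
    rw [add_assoc, ← add_assoc 1]
    refine add_le_add le_rfl (add_le_add ?_ (add_le_add (Finset.sum_le_sum fun i _ => ?_) le_rfl))
    · split_ifs with a1 a2 a2
      · rw [hgt_eq hM]
      · exact absurd ⟨m, a1, hm.le, hM⟩ a2
      · exact zero_le
      · exact le_rfl
    · split_ifs with a1 a2 a2
      · exact le_rfl
      · exact absurd ⟨m, a1, hM⟩ a2
      · exact zero_le
      · exact le_rfl
  refine (Rec8.sw_mono' hpt).trans ?_
  rw [Rec8.sw_add, Rec8.sw_add, Rec8.sw_add, Rec8.sw_sum]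
  -- the four sums
  have s1 : Rec8.sw {M | ∃ m, m < 2 ^ (q + 1) ∧ M ∈ Brd m} (fun _ => c5) ≤ ENNReal.ofReal (4 * H5) * (B * S) := by
    have h1 := (DomJ_const k c5).bdj q hq r P hP
    rw [← hS] at h1
    refine h1.trans ?_
    rw [hc5, hH5]
    calc 2 * ENNReal.ofReal H5 * S = 2 * ENNReal.ofReal H5 * (1 * S) := by rw [one_mul]
      _ ≤ 2 * ENNReal.ofReal H5 * (2 * B * S) := by gcongr
      _ = ENNReal.ofReal (4 * H5) * (B * S) := by
          rw [show (4 : ℝ) * H5 = 2 * 2 * H5 by ring, ENNReal.ofReal_mul (by norm_num), ENNReal.ofReal_mul (by norm_num)]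
          simp only [ENNReal.ofReal_ofNat]
          ring
  have s2 : Rec8.sw {M | ∃ m, m < 2 ^ (q + 1) ∧ M ∈ Brd m}
      (fun M => if M ∈ BrR 1 (2 ^ (q + 1)) then GLl (hgt M - 1) lam M else 0) ≤ ENNReal.ofReal (2 * KZ) * (B * S) := by
    have h1 : Rec8.sw {M | ∃ m, m < 2 ^ (q + 1) ∧ M ∈ Brd m}
        (fun M => if M ∈ BrR 1 (2 ^ (q + 1)) then GLl (hgt M - 1) lam M else 0) ≤
        Rec8.sw (BrR 1 (2 ^ (q + 1))) (fun g => GLl (hgt g - 1) lam g) := by
      simp only [Rec8.sw_ind]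
      refine ENNReal.tsum_le_tsum fun t => ?_
      split_ifs with a1 a2 a3
      · exact le_rfl
      · rw [mul_zero]
      · exact zero_le
      · exact le_rfl
    refine (h1.trans (hZ _ _)).trans ?_
    have hU2 : 0 < UU (2 ^ (q + 1)) := Num2Aux.UU_pos _
    have h2 : HHl (2 ^ (q + 1)) (lam + 1) ≤ ENNReal.ofReal (2 * Ub q) * B := by
      have h3 : HHl (2 ^ (q + 1)) (lam + lam' + 12) / ENNReal.ofReal (UU (2 ^ (q + 1))) ≤ B := by
        rw [hB]
        exact le_bl _ (by omega)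
      have h4 : HHl (2 ^ (q + 1)) (lam + lam' + 12) ≤ B * ENNReal.ofReal (UU (2 ^ (q + 1))) := by
        rwa [ENNReal.div_le_iff (ENNReal.ofReal_pos.2 hU2).ne' ENNReal.ofReal_ne_top] at h3
      refine ((HHl_mono le_rfl (by omega)).trans h4).trans ?_
      rw [mul_comm]
      exact mul_le_mul_left (ENNReal.ofReal_le_ofReal (UU_two q)) _
    calc ENNReal.ofReal KZ * HHl (2 ^ (q + 1)) (lam + 1) ≤ ENNReal.ofReal KZ * (ENNReal.ofReal (2 * Ub q) * B) :=
          mul_le_mul_right h2 _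
      _ = ENNReal.ofReal (2 * KZ) * (B * ENNReal.ofReal (Ub q)) := by
          rw [ENNReal.ofReal_mul (p := 2) (q := Ub q) (by norm_num), ENNReal.ofReal_mul (p := 2) (q := KZ) (by norm_num)]
          ring
      _ ≤ ENNReal.ofReal (2 * KZ) * (B * S) := mul_le_mul_right (mul_le_mul_right hUS _) _
  have s3 : ∑ i ∈ Ico 5 j, Rec8.sw {M | ∃ m, m < 2 ^ (q + 1) ∧ M ∈ Brd m} (fun M =>
      if M ∈ {M | ∃ m, m < 2 ^ (i + 2) ∧ M ∈ Brd m} then EFl (2 ^ i) (2 ^ (i + 1)) lam (P ++ M) else 0) ≤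
      ENNReal.ofReal (C1 + C1 * (Kr * (KU * 32))) * (B * S) := by
    have h1 : ∀ i ∈ Ico 5 j, Rec8.sw {M | ∃ m, m < 2 ^ (q + 1) ∧ M ∈ Brd m} (fun M =>
      if M ∈ {M | ∃ m, m < 2 ^ (i + 2) ∧ M ∈ Brd m} then EFl (2 ^ i) (2 ^ (i + 1)) lam (P ++ M) else 0) ≤
        ENNReal.ofReal C1 * B * (∑ b ∈ range (min (i - 4) q + 1), Sw (2 ^ (i - 4 + 4)) (i - 4) b P +
          (if i - 4 < q then ENNReal.ofReal (Kr * (32 * Ub (i - 4))) else 0)) := by
      intro i hi
      rw [Finset.mem_Ico] at hi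
      have e4 : i - 4 + 4 = i := by omega
      obtain ⟨p, hp⟩ : ∃ p, p = min (i + 1) q := ⟨_, rfl⟩
      have h2 := hrest (2 ^ i) (i - 4) p r (EFl (2 ^ i) (2 ^ (i + 1)) lam) P (Hered_EFl _ _ _)
        (by rw [e4]) hP
      rw [e4]
      have h3 : min (i - 4) p = min (i - 4) q := by omega
      rw [h3] at h2
      refine le_trans ?_ ((h2.trans (mul_le_mul_left (hz i hi.1 hi.2) _)).trans
        (mul_le_mul_right (add_le_add le_rfl ?_) _))
      · simp only [Rec8.sw_ind]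
        refine ENNReal.tsum_le_tsum fun t => ?_
        split_ifs with a1 a2 a3
        · exact le_rfl
        · exfalso
          obtain ⟨m, hm, hmt⟩ := a1
          obtain ⟨m', hm', hmt'⟩ := a2
          have e := Brd_height hmt hmt'
          subst e
          refine a3 ⟨m, ?_, hmt⟩
          rw [hp]
          rcases Nat.le_total (i + 1) q with hc | hc
          · rw [min_eq_left hc]
            exact hm'
          · rw [min_eq_right hc]
            exact hm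
        · rw [mul_zero]
          exact zero_le
        · rw [mul_zero]
        · exact zero_le
        · exact le_rfl
      · split_ifs with a1 a2 a2
        · refine ENNReal.ofReal_le_ofReal (mul_le_mul_of_nonneg_left ?_ hKr0.le)
          have h5 := Ub_add (i - 4) 5
          have h6 : Ub p ≤ Ub (i - 4 + 5) := Ub_mono (by omega)
          norm_num at h5
          linarith
        · exfalso
          omega
        · exact zero_le
        · exact le_rfl
    refine (Finset.sum_le_sum h1).trans ?_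
    rw [← Finset.mul_sum, Finset.sum_add_distrib]
    have h3 : ∑ i ∈ Ico 5 j, ∑ b ∈ range (min (i - 4) q + 1), Sw (2 ^ (i - 4 + 4)) (i - 4) b P ≤ S := by
      rw [hS]
      unfold SJ
      calc ∑ i ∈ Ico 5 j, ∑ b ∈ range (min (i - 4) q + 1), Sw (2 ^ (i - 4 + 4)) (i - 4) b P
          = ∑ i ∈ (Ico 5 j).image (fun i => i - 4), ∑ b ∈ range (min i q + 1), Sw (2 ^ (i + 4)) i b P := by
            rw [Finset.sum_image]
            intro x hx y hy hxy
            rw [Finset.mem_coe, Finset.mem_Ico] at hx hy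
            simp only at hxy
            omega
        _ ≤ _ := by
            refine Finset.sum_le_sum_of_subset ?_
            intro x hx
            rw [Finset.mem_image] at hx
            obtain ⟨y, hy, rfl⟩ := hx
            rw [Finset.mem_Ico] at hy
            rw [Finset.mem_range]
            omega
    have h4 : ∑ i ∈ Ico 5 j, (if i - 4 < q then ENNReal.ofReal (Kr * (32 * Ub (i - 4))) else 0) ≤
        ENNReal.ofReal (Kr * (KU * 32)) * S := by
      have h5 : ∑ i ∈ (Ico 5 j).filter (fun i => i - 4 < q), Ub (i - 4) ≤ KU * Ub q := by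
        calc ∑ i ∈ (Ico 5 j).filter (fun i => i - 4 < q), Ub (i - 4) =
              ∑ i ∈ ((Ico 5 j).filter (fun i => i - 4 < q)).image (fun i => i - 4), Ub i := by
              rw [Finset.sum_image]
              intro x hx y hy hxy
              rw [Finset.mem_coe, Finset.mem_filter, Finset.mem_Ico] at hx hy
              simp only at hxy
              omega
          _ ≤ ∑ i ∈ range (q + 1), Ub i := by
              refine Finset.sum_le_sum_of_subset_of_nonneg ?_ fun i _ _ => (Ub_pos i).le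
              intro x hx
              rw [Finset.mem_image] at hx
              obtain ⟨y, hy, rfl⟩ := hx
              rw [Finset.mem_filter] at hy
              rw [Finset.mem_range]
              omega
          _ ≤ KU * Ub q := by
              refine le_trans (Finset.sum_le_sum fun i _ => ?_) (hU q)
              rw [zero_mul, Real.rpow_zero, one_mul]
      rw [← Finset.sum_filter, ← ENNReal.ofReal_sum_of_nonneg (fun i _ => by have := Ub_pos (i - 4); positivity)]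
      refine le_trans (ENNReal.ofReal_le_ofReal (q := Kr * (KU * 32) * Ub q) ?_) ?_
      · rw [← Finset.mul_sum, ← Finset.mul_sum]
        calc Kr * (32 * ∑ i ∈ (Ico 5 j).filter (fun i => i - 4 < q), Ub (i - 4)) ≤ Kr * (32 * (KU * Ub q)) := by gcongr
          _ = _ := by ring
      · rw [ENNReal.ofReal_mul (by positivity)]
        exact mul_le_mul_right hUS _
    calc ENNReal.ofReal C1 * B * (∑ i ∈ Ico 5 j, ∑ b ∈ range (min (i - 4) q + 1), Sw (2 ^ (i - 4 + 4)) (i - 4) b P +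
          ∑ i ∈ Ico 5 j, (if i - 4 < q then ENNReal.ofReal (Kr * (32 * Ub (i - 4))) else 0))
        ≤ ENNReal.ofReal C1 * B * (S + ENNReal.ofReal (Kr * (KU * 32)) * S) := by gcongr
      _ = ENNReal.ofReal (C1 + C1 * (Kr * (KU * 32))) * (B * S) := by
          rw [ENNReal.ofReal_add (by linarith) (by positivity), ENNReal.ofReal_mul (p := C1) (by linarith)]
          ring
  have s4 : Rec8.sw {M | ∃ m, m < 2 ^ (q + 1) ∧ M ∈ Brd m} (fun M => EFl (2 ^ j) N lam (P ++ M)) ≤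
      ENNReal.ofReal C1 * (B * S) := by
    have h2 := hrest (2 ^ j) k q r (EFl (2 ^ j) N lam) P (Hered_EFl _ _ _)
        (by rw [hjk]) hP
    have h3 : xT (2 ^ j) k (EFl (2 ^ j) N lam) ≤ ENNReal.ofReal C1 * B := by
      rw [hk]
      exact hzN
    rw [if_neg (by omega), add_zero] at h2
    refine h2.trans ((mul_le_mul_left h3 _).trans ?_)
    have h4 : ∑ b ∈ range (min k q + 1), Sw (2 ^ j) k b P ≤ S := by
      rw [hS, hjk]
      exact Sw_le_SJ le_rfl P
    rw [mul_assoc]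
    exact mul_le_mul_right (mul_le_mul_right h4 _) _
  refine (add_le_add s1 (add_le_add s2 (add_le_add s3 s4))).trans (le_of_eq ?_)
  rw [← add_mul, ← add_mul, ← add_mul, ← ENNReal.ofReal_add (by positivity) (by positivity),
    ← ENNReal.ofReal_add (by positivity) (by positivity), ← ENNReal.ofReal_add (by positivity) (by positivity)]
  rw [← hB, ← hS, ← mul_assoc]

/-- **the whole end functional is dominated by the number bl at all windows** -/
theorem domJ_end : ∃ K : ℝ, 1 ≤ K ∧ ∀ j N lam lam' : ℕ, 5 ≤ j → 2 ^ j < N → N ≤ 2 ^ (j + 2) → QL j lam' →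
    DomJ (j - 4) (ENNReal.ofReal K * bl (lam + lam' + 12) (j + 2)) (fun t => 1 + ENl (2 ^ j) N lam t) := by
  obtain ⟨C, δ, h⟩ := inp_exists
  exact DomJ_end_of h endL sumZl

/-- functionals with a finite norm are dominated at all windows -/
theorem domJ_xT : ∃ K : ℝ, 1 ≤ K ∧ ∀ (D1 k1 k : ℕ) (Φ : List Bool → ℝ≥0∞), Hered Φ → 2 ^ (k1 + 4) ≤ D1 →
    k1 ≤ k → DomJ k (ENNReal.ofReal K * xT D1 k1 Φ) Φ := by
  obtain ⟨C, δ, h⟩ := inp_exists
  exact DomJ_xT h

end NTW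

end HexObs
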