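import Pool.Agent.NTW.GNormX
import Pool.Agent.NTW.DomE
import Pool.Agent.NTW.DomT

/-!
NTW: the end functional at the start of a chain satisfies the conditions QX of the two ended class theorems.
-/

set_option autoImplicit false

namespace HexObs

namespace NTW

open Finset TS SDN SDN.CN NTm

open scoped ENNReal

/-- the value does not decrease when the front is removed and the first letter is turned -/
def Flp (D : ℕ) (Ψ : List Bool → ℝ≥0∞) : Prop :=
  ∀ (s t : List Bool) (c : Bool), c :: t ∈ HB D → s ++ (!c) :: t ∈ HB D → Ψ (s ++ (!c) :: t) ≤ Ψ (c :: t)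

lemma rev_cons' (c : Bool) (t : List Bool) : rev (c :: t) = rev t ++ [!c] := by
  have h := rev_append [c] t
  rw [List.singleton_append] at h
  rw [h]
  rfl

lemma rev_concat' (c : Bool) (t : List Bool) : rev (t ++ [c]) = (!c) :: rev t := by
  rw [rev_append]
  rfl

/-- the fold relation after the removal of the front, first letter turned -/
theorem LFold_flip {D : ℕ} {s t W : List Bool} {c : Bool} (ht : c :: t ∈ HB D) (hD : 1 ≤ D)
    (h : LFold (s ++ (!c) :: t) W) : LFold (c :: t) W := by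
  have hne : t ≠ [] := by
    rintro rfl
    obtain ⟨n, hn, hB⟩ := ht
    have h1 := (mem_Brd.1 hB).2.2.2
    have h2 : lev [c] [c].length ≤ 2 := by
      cases c <;> decide
    omega
  have hl1 : lst (s ++ (!c) :: t) = lst t := by
    unfold lst
    rw [List.getLastD_eq_getLast?, List.getLastD_eq_getLast?, List.getLast?_append_of_ne_nil _ (by simp),
      List.getLast?_cons_of_ne_nil hne]
  have hl2 : lst (c :: t) = lst t := by
    unfold lst
    rw [List.getLastD_eq_getLast?, List.getLastD_eq_getLast?, List.getLast?_cons_of_ne_nil hne]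
  unfold LFold at h ⊢
  rw [hl1] at h
  rw [hl2]
  unfold Hang at h ⊢
  rw [rev_append, rev_cons'] at h
  rw [rev_cons']
  split_ifs at h ⊢ with hb
  · exact HangA.Dj_last_right _ _ (HangA.Dj_pref_right h)
  · exact HangA.Dj_last_left _ _ (HangA.Dj_pref_left h)

theorem flp_ENl {D : ℕ} (hD : 1 ≤ D) (N lam : ℕ) : Flp D (ENl D N lam) := by
  intro s t c hc _
  refine gf_mono fun W hW => ⟨hW.1, ?_, ?_⟩
  · obtain ⟨Z, h1, h2, h3⟩ := hW.2.1
    rw [← List.append_assoc] at h3
    exact RT_of hc (LFold_flip hc hD h3)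
  · have := hW.2.2
    rw [List.length_append, List.length_cons] at this
    rw [List.length_cons]
    omega

theorem flp_one {D : ℕ} (hD : 1 ≤ D) (N lam : ℕ) : Flp D (fun t => 1 + ENl D N lam t) := fun s t c h1 h2 =>
  add_le_add le_rfl (flp_ENl hD N lam s t c h1 h2)

theorem suf_ENl {D : ℕ} (hD : 1 ≤ D) (N lam : ℕ) {s t : List Bool} (ht : t ∈ HB D) :
    ENl D N lam (s ++ t) ≤ ENl D N lam t := by
  refine gf_mono fun W hW => ⟨hW.1, ?_, ?_⟩
  · obtain ⟨Z, h1, h2, h3⟩ := hW.2.1
    rw [← List.append_assoc] at h2 h3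
    exact RT_of ht (LFold_suf ht h2 hD h3)
  · have := hW.2.2
    rw [List.length_append] at this
    omega

/-- the end functional is hereditary -/
theorem herD_one {D : ℕ} (hD : 1 ≤ D) (N lam : ℕ) : HerD D (fun t => 1 + ENl D N lam t) :=
  ⟨fun s hs t => add_le_add le_rfl (Hered_ENl D N lam s hs t), fun _ _ ht _ => add_le_add le_rfl (suf_ENl hD N lam ht)⟩

/-- **the conditions QX for a dominated start functional** -/
theorem qx_of {C δ : ℝ} (h : Inp C δ) (hA : SsA) (hD : SsD) : ∃ K : ℝ, 1 ≤ K ∧ ∀ (k D : ℕ) (y : ℝ≥0∞) (Ψ : List Bool → ℝ≥0∞),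
    Dom k y Ψ → Flp D Ψ → 2 ^ (k + 4) ≤ D → GX.QX K D (fun g => Ψ (rev g)) y := by
  obtain ⟨K1, hK1, hd⟩ := Dom_xT h
  obtain ⟨K2, hK2, h2⟩ := two2_of hA hD
  refine ⟨K2 * K1, by nlinarith, fun k D y Ψ hΨ hf hk => ⟨?_, ?_, ?_⟩⟩
  · intro x _ z hz
    show Ψ (rev (x ++ z)) ≤ Ψ (rev x)
    rw [rev_append]
    obtain ⟨n, hn⟩ := hz
    exact hΨ.her _ ⟨n, Brd_rev hn⟩ _
  · intro x hx z w hg
    show Ψ (rev (unf [x, z, w])) ≤ Ψ (rev x)
    have hD1 : 1 ≤ D := le_trans Nat.one_le_two_pow hk
    have hne : x ≠ [] := by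
      rintro rfl
      obtain ⟨n, hn, hB⟩ := hx
      have := Brd_height hB nil_mem_Brd
      omega
    obtain ⟨x', hx'⟩ : ∃ x', x' = x.dropLast := ⟨_, rfl⟩
    have hx2 : x = x' ++ [lst x] := by
      have h5 : lst x = x.getLast hne := by
        unfold lst
        rw [List.getLastD_eq_getLast?, List.getLast?_eq_some_getLast hne]
        rfl
      rw [h5, hx']
      exact (List.dropLast_append_getLast hne).symm
    obtain ⟨c, hc⟩ : ∃ c, c = !lst x := ⟨_, rfl⟩
    have h3 : rev x = c :: rev x' := by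
      conv_lhs => rw [hx2]
      rw [rev_concat', ← hc]
    have h4 : ∃ s, rev (unf [x, z, w]) = s ++ (!c) :: rev x' := by
      refine ⟨rev ((!lst x) :: unf [z, w]), ?_⟩
      have h5 : unf [x, z, w] = (x' ++ [!lst x]) ++ ((!lst x) :: unf [z, w]) := by
        rw [List.append_assoc, List.singleton_append, hx']
        rfl
      rw [h5, rev_append, rev_concat', hc]
    obtain ⟨s, hs⟩ := h4
    rw [hs, h3]
    refine hf s (rev x') c ?_ ?_
    · rw [← h3]
      obtain ⟨n, hn, hB⟩ := hx
      exact ⟨n, hn, Brd_rev hB⟩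
    · rw [← hs]
      obtain ⟨n, hn, hB⟩ := hg
      exact ⟨n, hn, Brd_rev hB⟩
  · intro D1 k1 N F hF h1 h3
    rcases Nat.lt_or_ge N D with hN | hN
    · have e : Rec8.sw (BrR D N) (fun g => Ψ (rev g) * F g) = 0 := by
        have : BrR D N = ∅ := by
          ext g
          simp only [Set.mem_empty_iff_false, iff_false]
          rintro ⟨u, u1, u2, -⟩
          omega
        rw [this]
        unfold Rec8.sw
        simp
      rw [e]
      exact zero_le
    · have h5 := h2 k k1 D N y _ Ψ F hΨ (hd D1 k1 k1 F hF h1 le_rfl) hk (h1.trans h3) hN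
      refine h5.trans (le_of_eq ?_)
      rw [mul_comm (ENNReal.ofReal K1), ← mul_assoc y, mul_comm (y * _), ← mul_assoc,
        ← ENNReal.ofReal_mul (by have := (Num2Aux.UU_pos N).le; positivity)]
      congr 2
      ring

end NTW

end HexObs
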