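import Pool.Agent.NTW.CleanXY
import Pool.Agent.NTW.QXEnd
import Pool.Agent.NTW.ChainS
import Pool.Agent.NTW.ChainG
import Pool.Agent.NTW.DomJ

/-!
NTW: the predicate DmJ k x Φ of the chain theorems (the functional Φ is controlled by the number x, all windows), and what
follows from it: DX, QX, AllG.
-/

set_option autoImplicit false

namespace HexObs

namespace NTW

open Finset TS SDN SDN.CN NTm

open scoped ENNReal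

/-- the functional Φ is controlled by the number x at the scales up to k -/
def DmJ (k : ℕ) (x : ℝ≥0∞) (Φ : List Bool → ℝ≥0∞) : Prop := HerD (2 ^ (k + 4)) Φ ∧ DomJ k x Φ

lemma DmJ.dom {k : ℕ} {x : ℝ≥0∞} {Φ : List Bool → ℝ≥0∞} (h : DmJ k x Φ) : Dom k x Φ := h.2.dom

lemma DmJ.mono {k : ℕ} {x y : ℝ≥0∞} {Φ : List Bool → ℝ≥0∞} (h : DmJ k x Φ) (hxy : x ≤ y) : DmJ k y Φ :=
  ⟨h.1, h.2.mono hxy⟩

/-- hereditary functionals with a finite norm -/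
theorem DmJ_dm (k : ℕ) (Φ : List Bool → ℝ≥0∞) (h : HerD (2 ^ (k + 4)) Φ) : DmJ k (xT (2 ^ (k + 4)) k Φ) Φ := by
  refine ⟨h, h.her, fun j hj r P hP => ?_⟩
  refine (Fl.QQ_le (D := 2 ^ (k + 4)) hj hP Φ).trans ?_
  rw [← Finset.mul_sum]
  refine mul_le_mul_right ?_ _
  unfold SJ
  refine le_trans (le_of_eq ?_) (Finset.single_le_sum
    (f := fun i => ∑ b ∈ range (min i j + 1), Sw (2 ^ (i + 4)) i b P) (fun _ _ => zero_le)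
    (Finset.mem_range.2 (Nat.lt_succ_self k)))
  show _ = ∑ b ∈ range (min k j + 1), Sw (2 ^ (k + 4)) k b P
  rw [min_eq_right hj]

lemma DX.le {K0 K1 K0' K1' : ℝ} {D : ℕ} {Φ : List Bool → ℝ≥0∞} {x : ℝ≥0∞} (h : DX K0 K1 D Φ x) (h0 : K0 ≤ K0')
    (h1 : K1 ≤ K1') : DX K0' K1' D Φ x :=
  ⟨h.her, fun N => (h.tot N).trans (mul_le_mul_left (ENNReal.ofReal_le_ofReal
    (mul_le_mul_of_nonneg_right h0 (Num2Aux.UU_pos N).le)) _), fun i E N a1 a2 a3 => (h.two i E N a1 a2 a3).trans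
      (mul_le_mul_left (ENNReal.ofReal_le_ofReal (mul_le_mul_of_nonneg_right h1
        (div_nonneg (Num2Aux.UU_pos N).le (Ub_pos i).le))) _)⟩

lemma QX_le {K0 K1 : ℝ} {D : ℕ} {q : List Bool → ℝ≥0∞} {y : ℝ≥0∞} (h : GX.QX K0 D q y) (h0 : K0 ≤ K1) :
    GX.QX K1 D q y :=
  ⟨h.cut, h.zig, fun D1 k1 N F a1 a2 a3 => (h.tot D1 k1 N F a1 a2 a3).trans (mul_le_mul_left
    (ENNReal.ofReal_le_ofReal (mul_le_mul_of_nonneg_right h0 (Num2Aux.UU_pos N).le)) _)⟩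

/-- the class theorems for dominated functionals: DX -/
theorem DmJ_dx {C δ : ℝ} (h : Inp C δ) (hA : SsA) (h3 : Ss3) : ∃ K : ℝ, 1 ≤ K ∧ ∀ (k : ℕ) (x : ℝ≥0∞)
    (Φ : List Bool → ℝ≥0∞), DmJ k x Φ → DX K K (2 ^ (k + 4)) Φ x := by
  obtain ⟨K1, hK1, h1⟩ := totD_of hA
  obtain ⟨K2, hK2, h2⟩ := nextD_of h hA h3
  refine ⟨K1 + K2, by linarith, fun k x Φ hΦ => ?_⟩
  have h4 : DX K1 K2 (2 ^ (k + 4)) Φ x := by
    refine ⟨hΦ.1, fun N => h1 (2 ^ (k + 4)) N k x Φ hΦ.dom (Nat.pow_le_pow_right (by norm_num) (by omega)),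
      fun i E N a1 a2 a3 => ?_⟩
    exact h2 (2 ^ (i + 4)) i k E N x Φ hΦ.dom le_rfl (a1.trans a2) a2 a3
  exact h4.le (by linarith) (by linarith)

/-- two ends, all leaves -/
theorem DmJ_pair (hA : SsA) (hD : SsD) : ∃ K : ℝ, 1 ≤ K ∧ ∀ (k : ℕ) (x y : ℝ≥0∞) (Ψ Φ : List Bool → ℝ≥0∞),
    DmJ k y Ψ → DmJ k x Φ → ∀ N : ℕ, Rec8.sw (BrR (2 ^ (k + 4)) N) (fun g => Ψ (rev g) * Φ g) ≤
      ENNReal.ofReal (K * UU N) * (y * x) := by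
  obtain ⟨K, hK, h2⟩ := two2_of hA hD
  refine ⟨K, hK, fun k x y Ψ Φ hΨ hΦ N => ?_⟩
  rcases Nat.lt_or_ge N (2 ^ (k + 4)) with hN | hN
  · have : BrR (2 ^ (k + 4)) N = ∅ := by
      ext g
      simp only [Set.mem_empty_iff_false, iff_false]
      rintro ⟨u, u1, u2, -⟩
      omega
    rw [this]
    unfold Rec8.sw
    simp
  · exact h2 k k (2 ^ (k + 4)) N y x Ψ Φ hΨ.dom hΦ.dom le_rfl le_rfl hN

/-- all leaves of a height in [2^(k+4), N] -/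
theorem DmJ_allG {C δ : ℝ} (h : Inp C δ) (hA : SsA) (h3 : Ss3) (hD : SsD) : ∃ K : ℝ, 1 ≤ K ∧
    ∀ (k N : ℕ) (y : ℝ≥0∞) (Ψ : List Bool → ℝ≥0∞), DmJ k y Ψ → 2 ^ (k + 4) ≤ N →
      TS2.AllG Ψ y (DmJ k) k N (K * (UU N / Ub k)) := by
  obtain ⟨K1, hK1, h1⟩ := DmJ_dx h hA h3
  obtain ⟨K2, hK2, h2⟩ := DmJ_pair hA hD
  refine ⟨K1 + K2, by linarith, fun k N y Ψ hΨ hN => ?_⟩
  have hU := Ub_pos k
  have hUN := Num2Aux.UU_pos N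
  refine ⟨fun Φ hΦ => DmJ_dm k Φ hΦ, fun x Φ hΦ => ?_, fun x Φ hΦ => ?_⟩
  · refine ((h1 k x Φ hΦ).two k (2 ^ (k + 4)) N le_rfl le_rfl hN).trans
      (mul_le_mul_left (ENNReal.ofReal_le_ofReal ?_) _)
    exact mul_le_mul_of_nonneg_right (by linarith) (by positivity)
  · refine (h2 k x y Ψ Φ hΨ hΦ N).trans (mul_le_mul_left (ENNReal.ofReal_le_ofReal ?_) _)
    rw [mul_assoc, div_mul_cancel₀ _ hU.ne']
    exact mul_le_mul_of_nonneg_right (by linarith) hUN.le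

/-- the conditions QX -/
theorem DmJ_qx {C δ : ℝ} (h : Inp C δ) (hA : SsA) (hD : SsD) : ∃ K : ℝ, 1 ≤ K ∧ ∀ (k : ℕ) (y : ℝ≥0∞)
    (Ψ : List Bool → ℝ≥0∞), DmJ k y Ψ → Flp (2 ^ (k + 4)) Ψ → GX.QX K (2 ^ (k + 4)) (fun g => Ψ (rev g)) y := by
  obtain ⟨K, hK, h1⟩ := qx_of h hA hD
  exact ⟨K, hK, fun k y Ψ hΨ hf => h1 k (2 ^ (k + 4)) y Ψ hΨ.dom hf le_rfl⟩

end NTW

end HexObs
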