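import Pool.Agent.NTW.RepDefs
import Pool.Agent.SDN.Hyst
import Pool.Agent.NT.Rep

/-!
NTW: existence of the pivot leaf and of the folds of the scale b of a self-avoiding word with two free ends; the leaves of
a chain of folds have no large backtracks.
-/

set_option autoImplicit false

namespace HexObs

namespace NTW

open Finset TS SDN

namespace FoldA

lemma first_min (g : ℕ → ℤ) (n : ℕ) : ∃ a, a ≤ n ∧ (∀ i, i ≤ n → g a ≤ g i) ∧ ∀ i, i < a → g a < g i := by
  induction n with
  | zero => exact ⟨0, le_refl _, fun i hi => by rw [Nat.le_zero.1 hi], fun i h1 => by omega⟩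
  | succ n ih =>
    obtain ⟨a, h1, h2, h3⟩ := ih
    by_cases h : g (n + 1) < g a
    · refine ⟨n + 1, le_refl _, fun i hi => ?_, fun i h4 => ?_⟩
      · rcases Nat.lt_or_ge i (n + 1) with h4 | h4
        · exact h.le.trans (h2 i (by omega))
        · have h5 : i = n + 1 := by omega
          rw [h5]
      · exact lt_of_lt_of_le h (h2 i (by omega))
    · refine ⟨a, by omega, fun i hi => ?_, fun i h4 => h3 i h4⟩
      rcases Nat.lt_or_ge i (n + 1) with h4 | h4
      · exact h2 i (by omega)
      · have h5 : i = n + 1 := by omega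
        rw [h5]
        omega

lemma last_max (g : ℕ → ℤ) (n : ℕ) : ∃ a, a ≤ n ∧ (∀ i, i ≤ n → g i ≤ g a) ∧ ∀ i, a < i → i ≤ n → g i < g a := by
  obtain ⟨a, h1, h2, h3⟩ := Crs.last_min (fun i => - g i) n
  refine ⟨a, h1, fun i hi => ?_, fun i h4 h5 => ?_⟩
  · have := h2 i hi
    omega
  · have := h3 i h4 h5
    omega

/-- the pivot from the first minimum and the last maximum -/
lemma pivot_of {t : List Bool} {u a b : ℕ} (hab : a < b) (hb : b ≤ t.length)
    (h1 : ∀ i, i ≤ t.length → Tight.sg u (lev t a) ≤ Tight.sg u (lev t i))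
    (h2 : ∀ i, i < a → Tight.sg u (lev t a) < Tight.sg u (lev t i))
    (h3 : ∀ i, i ≤ t.length → Tight.sg u (lev t i) ≤ Tight.sg u (lev t b))
    (h4 : ∀ i, b < i → i ≤ t.length → Tight.sg u (lev t i) < Tight.sg u (lev t b))
    (h5 : 4 ≤ Tight.sg u (lev t b) - Tight.sg u (lev t a)) :
    ∃ u e, FoldG t 1 u e ∧ (∀ i, i ≤ t.length → Tight.sg u (lev t (e 0)) ≤ Tight.sg u (lev t i) ∧
      Tight.sg u (lev t i) ≤ Tight.sg u (lev t (e 1))) := by
  refine ⟨u, fun j => if j = 0 then a else b, ⟨?_, ?_, ?_, ?_, ?_, ?_, ?_, ?_⟩, ?_⟩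
  · intro j hj
    obtain rfl : j = 0 := by omega
    exact hab
  · exact hb
  · intro i _ i2
    have i2' : i ≤ b := i2
    exact h1 i (by omega)
  · intro j j1 j2
    omega
  · intro j hj i _ i2
    obtain rfl : j = 0 := by omega
    have i2' : i ≤ b := i2
    exact h3 i (by omega)
  · intro j hj
    obtain rfl : j = 0 := by omega
    exact h5
  · exact h2
  · exact h4
  · exact fun i hi => ⟨h1 i hi, h3 i hi⟩

end FoldA

open FoldA

/-- **the pivot leaf** -/
theorem pivot_ex {t : List Bool} (_ht : t ∈ SA)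
    (hr : ∃ i i', i ≤ t.length ∧ i' ≤ t.length ∧ 4 ≤ lev t i - lev t i') :
    ∃ u e, FoldG t 1 u e ∧ (∀ i, i ≤ t.length → Tight.sg u (lev t (e 0)) ≤ Tight.sg u (lev t i) ∧
      Tight.sg u (lev t i) ≤ Tight.sg u (lev t (e 1))) := by
  obtain ⟨i, i', hi, hi', h4⟩ := hr
  obtain ⟨a, a1, a2, a3⟩ := first_min (lev t) t.length
  obtain ⟨b, b1, b2, b3⟩ := last_max (lev t) t.length
  have hai := a2 i' hi'
  have hbi := b2 i hi
  rcases Nat.lt_or_ge a b with hab | hab
  · refine pivot_of (u := 1) hab b1 ?_ ?_ ?_ ?_ ?_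
    · intro x hx
      rw [Tight.sg_one, Tight.sg_one]
      exact a2 x hx
    · intro x hx
      rw [Tight.sg_one, Tight.sg_one]
      exact a3 x hx
    · intro x hx
      rw [Tight.sg_one, Tight.sg_one]
      exact b2 x hx
    · intro x hx hx'
      rw [Tight.sg_one, Tight.sg_one]
      exact b3 x hx hx'
    · rw [Tight.sg_one, Tight.sg_one]
      omega
  · have hne : a ≠ b := by
      rintro rfl
      omega
    obtain ⟨a', c1, c2, c3⟩ := first_min (fun i => - lev t i) t.length
    obtain ⟨b', d1, d2, d3⟩ := Crs.last_min (lev t) t.length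
    -- the first maximum is before the last one, the last minimum is after the first one
    have e1 : a' ≤ b := by
      by_contra hc
      have h1 := c3 b (by omega)
      have h2 := b2 a' c1
      omega
    have e2 : a ≤ b' := by
      by_contra hc
      have h1 := a3 b' (by omega)
      have h2 := d2 a a1
      omega
    refine pivot_of (u := 0) (a := a') (b := b') (by omega) d1 ?_ ?_ ?_ ?_ ?_
    · intro x hx
      rw [Tight.sg_zero, Tight.sg_zero]
      exact c2 x hx
    · intro x hx
      rw [Tight.sg_zero, Tight.sg_zero]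
      exact c3 x hx
    · intro x hx
      rw [Tight.sg_zero, Tight.sg_zero]
      have := d2 x hx
      omega
    · intro x hx hx'
      rw [Tight.sg_zero, Tight.sg_zero]
      have := d3 x hx hx'
      omega
    · rw [Tight.sg_zero, Tight.sg_zero]
      have h1 := c2 b b1
      have h2 := d2 a a1
      omega

namespace FoldA

/-- the induction of SDN/Hyst with the state at the end -/
lemma ready_or (f : ℕ → ℤ) (n : ℕ) {R : ℤ} (hR : 1 ≤ R) :
    (∀ i i', i ≤ n → i' ≤ n → f i - f i' < R) ∨ Crs.Ready f n R := by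
  induction n with
  | zero =>
    left
    intro i i' h1 h2
    rw [Nat.le_zero.1 h1, Nat.le_zero.1 h2]
    omega
  | succ n ih =>
    rcases ih with hA | hB
    · by_cases h1 : ∃ i, i ≤ n ∧ R ≤ f (n + 1) - f i
      · right
        obtain ⟨i, h2, h3⟩ := h1
        exact Crs.ready_first hR hA (u := 1) h2 (by rw [Tight.sg_one, Tight.sg_one]; exact h3)
      · by_cases h2 : ∃ i, i ≤ n ∧ R ≤ f i - f (n + 1)
        · right
          obtain ⟨i, h3, h4⟩ := h2
          exact Crs.ready_first hR hA (u := 0) h3 (by rw [Tight.sg_zero, Tight.sg_zero]; omega)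
        · left
          intro i i' h3 h4
          rcases Nat.lt_or_ge i (n + 1) with h5 | h5
          · rcases Nat.lt_or_ge i' (n + 1) with h6 | h6
            · exact hA i i' (by omega) (by omega)
            · have h7 : i' = n + 1 := by omega
              rw [h7]
              by_contra h8
              exact h2 ⟨i, by omega, by omega⟩
          · have h7 : i = n + 1 := by omega
            rw [h7]
            rcases Nat.lt_or_ge i' (n + 1) with h6 | h6
            · by_contra h8
              exact h1 ⟨i', by omega, by omega⟩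
            · have h8 : i' = n + 1 := by omega
              rw [h8]
              omega
    · exact Or.inr (Crs.ready_step hR hB)

end FoldA

/-- **existence of the folds of the scale b** -/
theorem fd_exists {b : ℕ} (hb : 1 ≤ b) {t : List Bool} (_ht : t ∈ SA) :
    (∀ i i', i ≤ t.length → i' ≤ t.length → lev t i - lev t i' < RR b) ∨ ∃ m u e, Fd b t m u e := by
  have hR := RR_ge hb
  rcases ready_or (lev t) t.length (R := RR b) (by omega) with h | ⟨m, u, e, hy, hl⟩
  · exact Or.inl h
  right
  obtain ⟨a, a1, a2, a3⟩ := first_min (fun i => Tight.sg u (lev t i)) (e 0)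
  have hlt0 := hy.lt 0 (by omega)
  have hst : ∀ i i', i ≤ e 0 → i' ≤ e 0 → Tight.sg u (lev t i) - Tight.sg u (lev t i') < RR b := fun i i' h1 h2 =>
    Crs.sg_range (hy.start i i' h1 h2) (hy.start i' i h2 h1)
  have hbig0 := hy.big 0 (by omega)
  simp only [Nat.add_zero, Nat.zero_add] at hbig0
  have hlo0 := hy.lo 0 (by omega)
  simp only [Nat.add_zero, Nat.zero_add] at hlo0
  have hhi0 := hy.hi 0 (by omega)
  simp only [Nat.add_zero, Nat.zero_add] at hhi0
  have hsm0 := hy.small 0 (by omega)
  simp only [Nat.add_zero, Nat.zero_add] at hsm0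
  have ha0 := a2 (e 0) le_rfl
  have hE : ∀ j, 1 ≤ j → Function.update e 0 a j = e j := fun j hj => Function.update_of_ne (by omega) _ _
  have hE0 : Function.update e 0 a 0 = a := Function.update_self _ _ _
  have hlt0' : e 0 < e 1 := hlt0
  refine ⟨m + 1, u, Function.update e 0 a, by omega, ⟨?_, ?_, ?_, ?_, ?_, ?_, ?_, ?_⟩, ?_, ?_, ?_, ?_⟩
  · intro j hj
    rcases Nat.eq_zero_or_pos j with rfl | h0
    · rw [hE0, Nat.zero_add, hE 1 le_rfl]
      omega
    · rw [hE j h0, hE (j + 1) (by omega)]
      exact hy.lt j (by omega)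
  · rw [hE (m + 1) (by omega)]
    exact hy.le
  · intro i i1 i2
    rw [hE0] at i1 ⊢
    rw [hE 1 le_rfl] at i2
    rcases Nat.lt_or_ge (e 0) i with h1 | h1
    · have := hlo0 i h1 i2
      omega
    · exact a2 i h1
  · intro j j1 j2 i i1 i2
    rw [hE j j1] at i1 ⊢
    rw [hE (j + 1) (by omega)] at i2
    exact hy.lo j (by omega) i i1 i2
  · intro j hj i i1 i2
    rcases Nat.eq_zero_or_pos j with rfl | h0
    · rw [hE0] at i1
      rw [Nat.zero_add, hE 1 le_rfl] at i2
      rw [Nat.add_zero, Nat.zero_add, hE 1 le_rfl]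
      rcases Nat.lt_or_ge (e 0) i with h1 | h1
      · exact hhi0 i h1.le i2
      · have := hst i (e 0) h1 le_rfl
        omega
    · rw [hE j h0] at i1
      rw [hE (j + 1) (by omega)] at i2 ⊢
      exact hy.hi j (by omega) i i1 i2
  · intro j hj
    rcases Nat.eq_zero_or_pos j with rfl | h0
    · rw [hE0, Nat.add_zero, Nat.zero_add, hE 1 le_rfl]
      omega
    · rw [hE j h0, hE (j + 1) (by omega)]
      have := hy.big j (by omega)
      omega
  · intro i hi
    rw [hE0] at hi ⊢
    exact a3 i hi
  · intro i i1 i2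
    rw [hE (m + 1) (by omega)] at i1 ⊢
    exact hl i i1 i2
  · intro j hj
    rcases Nat.eq_zero_or_pos j with rfl | h0
    · rw [hE0, Nat.add_zero, Nat.zero_add, hE 1 le_rfl]
      omega
    · rw [hE j h0, hE (j + 1) (by omega)]
      exact hy.big j (by omega)
  · intro j hj i i' i1 i2 i3
    rcases Nat.eq_zero_or_pos j with rfl | h0
    · rw [hE0] at i1
      rw [Nat.zero_add, hE 1 le_rfl] at i3
      rw [Nat.add_zero]
      rcases Nat.lt_or_ge (e 0) i' with h1 | h1
      · rcases Nat.lt_or_ge (e 0) i with h2 | h2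
        · exact hsm0 i i' h2.le i2 i3
        · have h3 := hlo0 i' h1 i3
          have h4 := hst i (e 0) h2 le_rfl
          omega
      · exact hst i i' (by omega) h1
    · rw [hE j h0] at i1
      rw [hE (j + 1) (by omega)] at i3
      exact hy.small j (by omega) i i' i1 i2 i3
  · intro i i' i1 i2
    rw [hE0] at i1 i2
    exact hy.start i i' (by omega) (by omega)
  · intro i i' i1 i2 i3 i4
    rw [hE (m + 1) (by omega)] at i1 i3
    exact hy.fin i i' i1 i2 i3 i4

end NTW

end HexObs
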