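import Pool.Agent.SDN.TwoK

/-!
NTW, block (A), kernel bounds: giants of two scales with a gain in the distance of the scales; truncated sums.
-/

set_option autoImplicit false

namespace HexObs

namespace NTW

open Finset TS SDN

open scoped ENNReal

open Rec8 (sw mb)

variable {C δ : ℝ}

namespace KG

open SDN.TK

/-- the gain of two scales -/
noncomputable def gnk (k e : ℕ) : ℝ := (2 : ℝ) ^ (-(kap0 / 2 * ((e : ℝ) - k)))

lemma gnk_pos (k e : ℕ) : 0 < gnk k e := Real.rpow_pos_of_pos two_pos _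

lemma ratio0 {k e : ℕ} (h : k ≤ e) : Ub k / Ub e ≤ 2 * (2 : ℝ) ^ (-(kap0 * ((e : ℝ) - k))) := by
  have h1 := Ub_growth h
  have hUe := Ub_pos e
  have h3 : (0 : ℝ) < (2 : ℝ) ^ (kap0 * ((e : ℝ) - k)) := p_pos _
  rw [div_le_iff₀ hUe, Real.rpow_neg (by norm_num), mul_assoc, mul_comm, mul_assoc, mul_comm (Ub e) 2, inv_mul_eq_div,
    le_div_iff₀ h3]
  exact h1

lemma ratioG {k e : ℕ} (h : k ≤ e) : (2 : ℝ) ^ (kap0 / 8 * ((e : ℝ) - k)) * (Ub k / Ub e) ≤ 2 * gnk k e := by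
  have hk := kap0_pos
  have hke : (k : ℝ) ≤ e := by exact_mod_cast h
  calc (2 : ℝ) ^ (kap0 / 8 * ((e : ℝ) - k)) * (Ub k / Ub e) ≤
      (2 : ℝ) ^ (kap0 / 8 * ((e : ℝ) - k)) * (2 * (2 : ℝ) ^ (-(kap0 * ((e : ℝ) - k)))) := by
        have := p_pos (kap0 / 8 * ((e : ℝ) - k))
        gcongr
        exact ratio0 h
    _ = 2 * ((2 : ℝ) ^ (kap0 / 8 * ((e : ℝ) - k)) * (2 : ℝ) ^ (-(kap0 * ((e : ℝ) - k)))) := by ring
    _ ≤ 2 * gnk k e := by
        gcongr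
        unfold gnk
        rw [← Real.rpow_add two_pos]
        apply p_mono
        nlinarith

lemma ratioH {k e : ℕ} (h : k ≤ e) : Ub k / Ub e ≤ 2 * gnk k e := by
  have hk := kap0_pos
  have hke : (k : ℝ) ≤ e := by exact_mod_cast h
  refine (ratio0 h).trans ?_
  gcongr
  unfold gnk
  apply p_mono
  nlinarith

/-- the sum over the ends of the second gain -/
lemma S2G (hδ : 0 < δ) : ∃ K : ℝ, 1 ≤ K ∧ ∀ k e : ℕ, k ≤ e →
    ∑ b2 ∈ range (k + 1), ∑ a2 ∈ Icc b2 (k + 1), (2 : ℝ) ^ (kap0 / 4 * ((k : ℝ) + 1 - a2)) * (Ub a2 / Ub e) *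
      (2 : ℝ) ^ (kap0 / 8 * ((e - a2 : ℕ) : ℝ)) * (2 : ℝ) ^ (-(δ / 2 * ((min a2 e - b2 : ℕ) : ℝ))) ≤
        K * gnk k e := by
  have hk := kap0_pos
  obtain ⟨K1, hK1, h1⟩ := geo_Ub (η := kap0 / 4 + kap0 / 8) (by linarith)
  obtain ⟨K2, hK2, h2⟩ := geo_low (c := δ / 2) (by linarith)
  refine ⟨4 * K1 * K2, by nlinarith, fun k e hke => ?_⟩
  have hke' : (k : ℝ) ≤ e := by exact_mod_cast hke
  have hUk := Ub_pos k
  have hUe := Ub_pos e
  rw [Finset.sum_comm' (s' := fun a2 => range (min a2 k + 1)) (t' := range (k + 2)) (by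
    intro x y
    simp only [Finset.mem_range, Finset.mem_Icc]
    omega)]
  calc ∑ a2 ∈ range (k + 2), ∑ b2 ∈ range (min a2 k + 1), (2 : ℝ) ^ (kap0 / 4 * ((k : ℝ) + 1 - a2)) * (Ub a2 / Ub e) *
      (2 : ℝ) ^ (kap0 / 8 * ((e - a2 : ℕ) : ℝ)) * (2 : ℝ) ^ (-(δ / 2 * ((min a2 e - b2 : ℕ) : ℝ)))
      = ∑ a2 ∈ range (k + 2), (2 : ℝ) ^ (kap0 / 4 * ((k : ℝ) + 1 - a2)) * (Ub a2 / Ub e) *
      (2 : ℝ) ^ (kap0 / 8 * ((e - a2 : ℕ) : ℝ)) * ∑ b2 ∈ range (min a2 k + 1),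
        (2 : ℝ) ^ (-(δ / 2 * ((min a2 e - b2 : ℕ) : ℝ))) := by
        refine Finset.sum_congr rfl fun a2 _ => ?_
        rw [Finset.mul_sum]
    _ ≤ ∑ a2 ∈ range (k + 2), ((2 : ℝ) ^ ((kap0 / 4 + kap0 / 8) * (((k + 1 : ℕ) : ℝ) - a2)) * Ub a2) *
          ((2 : ℝ) ^ (kap0 / 8 * ((e : ℝ) - k)) * (K2 / Ub e)) := by
        refine Finset.sum_le_sum fun a2 ha2 => ?_
        rw [Finset.mem_range] at ha2
        have e1 : (2 : ℝ) ^ (kap0 / 4 * ((k : ℝ) + 1 - a2)) * (2 : ℝ) ^ (kap0 / 8 * ((e - a2 : ℕ) : ℝ)) ≤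
            (2 : ℝ) ^ ((kap0 / 4 + kap0 / 8) * (((k + 1 : ℕ) : ℝ) - a2)) * (2 : ℝ) ^ (kap0 / 8 * ((e : ℝ) - k)) := by
          rw [← Real.rpow_add two_pos, ← Real.rpow_add two_pos]
          apply p_mono
          have h3 : ((e - a2 : ℕ) : ℝ) ≤ ((k : ℝ) + 1 - a2) + ((e : ℝ) - k) := by
            rcases Nat.lt_or_ge e a2 with h4 | h4
            · rw [Nat.sub_eq_zero_of_le h4.le]
              have : (a2 : ℝ) ≤ (k : ℝ) + 1 := by exact_mod_cast (show a2 ≤ k + 1 by omega)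
              push_cast
              linarith
            · rw [Nat.cast_sub h4]
              linarith
          push_cast
          nlinarith
        have hUa := Ub_pos a2
        have e2 : ∑ b2 ∈ range (min a2 k + 1), (2 : ℝ) ^ (-(δ / 2 * ((min a2 e - b2 : ℕ) : ℝ))) ≤ K2 := by
          refine le_trans (Finset.sum_le_sum fun b2 hb2 => ?_) (h2 (min a2 k))
          apply p_mono
          have h3 : ((min a2 k - b2 : ℕ) : ℝ) ≤ ((min a2 e - b2 : ℕ) : ℝ) := by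
            exact_mod_cast (show min a2 k - b2 ≤ min a2 e - b2 by omega)
          nlinarith
        have e3 : 0 ≤ ∑ b2 ∈ range (min a2 k + 1), (2 : ℝ) ^ (-(δ / 2 * ((min a2 e - b2 : ℕ) : ℝ))) :=
          Finset.sum_nonneg fun b2 _ => (p_pos _).le
        calc (2 : ℝ) ^ (kap0 / 4 * ((k : ℝ) + 1 - a2)) * (Ub a2 / Ub e) *
              (2 : ℝ) ^ (kap0 / 8 * ((e - a2 : ℕ) : ℝ)) * ∑ b2 ∈ range (min a2 k + 1),
                (2 : ℝ) ^ (-(δ / 2 * ((min a2 e - b2 : ℕ) : ℝ)))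
            = ((2 : ℝ) ^ (kap0 / 4 * ((k : ℝ) + 1 - a2)) * (2 : ℝ) ^ (kap0 / 8 * ((e - a2 : ℕ) : ℝ))) *
                (Ub a2 / Ub e) * ∑ b2 ∈ range (min a2 k + 1),
                (2 : ℝ) ^ (-(δ / 2 * ((min a2 e - b2 : ℕ) : ℝ))) := by ring
          _ ≤ ((2 : ℝ) ^ ((kap0 / 4 + kap0 / 8) * (((k + 1 : ℕ) : ℝ) - a2)) * (2 : ℝ) ^ (kap0 / 8 * ((e : ℝ) - k))) *
                (Ub a2 / Ub e) * K2 := by gcongr
          _ = _ := by ring
    _ = (∑ a2 ∈ range (k + 1 + 1), ((2 : ℝ) ^ ((kap0 / 4 + kap0 / 8) * (((k + 1 : ℕ) : ℝ) - a2)) * Ub a2)) *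
          ((2 : ℝ) ^ (kap0 / 8 * ((e : ℝ) - k)) * (K2 / Ub e)) := by rw [Finset.sum_mul]
    _ ≤ (K1 * Ub (k + 1)) * ((2 : ℝ) ^ (kap0 / 8 * ((e : ℝ) - k)) * (K2 / Ub e)) := by
        gcongr
        exact h1 (k + 1)
    _ ≤ (K1 * (2 * Ub k)) * ((2 : ℝ) ^ (kap0 / 8 * ((e : ℝ) - k)) * (K2 / Ub e)) := by
        gcongr
        exact Ub_succ k
    _ = 2 * K1 * K2 * ((2 : ℝ) ^ (kap0 / 8 * ((e : ℝ) - k)) * (Ub k / Ub e)) := by ring
    _ ≤ 2 * K1 * K2 * (2 * gnk k e) :=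
        mul_le_mul_of_nonneg_left (ratioG hke) (by nlinarith)
    _ = 4 * K1 * K2 * gnk k e := by ring

/-- the giants of the far scale -/
lemma farG (h : Inp C δ) : ∃ K : ℝ, 1 ≤ K ∧ ∀ D1 k1 e : ℕ, 2 ^ (k1 + 4) ≤ D1 → k1 ≤ e →
    ∑ b2 ∈ range (k1 + 1), (∑' r : ℕ, (if 2 ^ e < r then sw (Irr r) (fun P => (fun _ => 1) P * Sw D1 k1 b2 P) else 0)) ≤
      ENNReal.ofReal (K * gnk k1 e) := by
  have hk := kap0_pos
  have hδ := h.pos
  obtain ⟨K1, hK1, h1⟩ := far1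
  obtain ⟨K2, hK2, h2⟩ := giants
  obtain ⟨K3, hK3, h3⟩ := giant1 h
  obtain ⟨K4, hK4, h4⟩ := S2G h.pos
  refine ⟨2 * (K1 * K2) + K3 * K4, by nlinarith [mul_nonneg (by linarith : (0:ℝ) ≤ K3) (by linarith : (0:ℝ) ≤ K4)],
    fun D1 k1 e hD hke => ?_⟩
  have hUe := Ub_pos e
  have hUk := Ub_pos k1
  simp only [exp_Sw]
  have hgg := gnk_pos k1 e
  rw [Finset.sum_add_distrib, ← Finset.sum_mul, add_mul (2 * (K1 * K2)), ENNReal.ofReal_add (by positivity) (by positivity)]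
  refine add_le_add ?_ ?_
  · have e1 : (∑' r : ℕ, (if 2 ^ e < r then sw (Irr r) (fun _ => 1) else 0)) ≤ ENNReal.ofReal (K2 / Ub e) := by
      have h5 := h2 (e + 1)
      rw [Nat.add_sub_cancel] at h5
      have e2 : (∑' r : ℕ, (if 2 ^ e < r then sw (Irr r) (fun _ => 1) else 0)) =
          ∑' r : ℕ, (if 2 ^ e < r then kap' r else 0) := by
        refine tsum_congr fun r => ?_
        rw [Rec8.sw_one]
        rfl
      rw [e2]
      refine h5.trans (ENNReal.ofReal_le_ofReal ?_)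
      have h6 : Ub e ≤ Ub (e + 1) := Ub_mono (Nat.le_succ e)
      gcongr
    refine (mul_le_mul' (h1 k1) e1).trans ?_
    rw [← ENNReal.ofReal_mul (by positivity)]
    apply ENNReal.ofReal_le_ofReal
    have h6 : Ub k1 / Ub e ≤ 2 * gnk k1 e := ratioH hke
    calc K1 * Ub k1 * (K2 / Ub e) = K1 * K2 * (Ub k1 / Ub e) := by ring
      _ ≤ K1 * K2 * (2 * gnk k1 e) := by gcongr
      _ = 2 * (K1 * K2) * gnk k1 e := by ring
  · calc ∑ b2 ∈ range (k1 + 1), ∑ a2 ∈ Icc b2 (k1 + 1), ENNReal.ofReal ((2 : ℝ) ^ (kap0 / 4 * ((k1 : ℝ) + 1 - a2))) *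
          (∑' r : ℕ, (if 2 ^ e < r then sw (Irr r) (fun P => (fun _ => (1 : ℝ≥0∞)) P * EE D1 b2 a2 (rev P)) else 0))
        ≤ ∑ b2 ∈ range (k1 + 1), ∑ a2 ∈ Icc b2 (k1 + 1), ENNReal.ofReal (K3 * ((2 : ℝ) ^ (kap0 / 4 * ((k1 : ℝ) + 1 - a2)) *
          (Ub a2 / Ub e) * (2 : ℝ) ^ (kap0 / 8 * ((e - a2 : ℕ) : ℝ)) *
            (2 : ℝ) ^ (-(δ / 2 * ((min a2 e - b2 : ℕ) : ℝ))))) := by
          refine Finset.sum_le_sum fun b2 hb2 => Finset.sum_le_sum fun a2 ha2 => ?_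
          rw [Finset.mem_range] at hb2
          rw [Finset.mem_Icc] at ha2
          have hD2 : 2 ^ (a2 + 3) ≤ D1 := (Nat.pow_le_pow_right (by norm_num) (by omega)).trans hD
          have h5 := (h3 D1 e a2 b2 ha2.1 hD2).2
          have e2 : (fun P => (fun _ => (1 : ℝ≥0∞)) P * EE D1 b2 a2 (rev P)) = fun P => EE D1 b2 a2 (rev P) := by
            funext P
            simp
          rw [e2]
          refine (mul_le_mul' le_rfl h5).trans ?_
          rw [← ENNReal.ofReal_mul (p_pos _).le]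
          apply ENNReal.ofReal_le_ofReal
          unfold TT
          have hUa := Ub_pos a2
          have e3 : (2 : ℝ) ^ (-(δ * ((min a2 e - b2 : ℕ) : ℝ))) ≤ (2 : ℝ) ^ (-(δ / 2 * ((min a2 e - b2 : ℕ) : ℝ))) := by
            apply p_mono
            have : (0 : ℝ) ≤ ((min a2 e - b2 : ℕ) : ℝ) := Nat.cast_nonneg _
            nlinarith
          have q1 := p_pos (kap0 / 4 * ((k1 : ℝ) + 1 - a2))
          have q2 := p_pos (kap0 / 8 * ((e - a2 : ℕ) : ℝ))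
          calc (2 : ℝ) ^ (kap0 / 4 * ((k1 : ℝ) + 1 - a2)) * (K3 * (Ub a2 / Ub e *
                (2 : ℝ) ^ (kap0 / 8 * ((e - a2 : ℕ) : ℝ)) * (2 : ℝ) ^ (-(δ * ((min a2 e - b2 : ℕ) : ℝ))))) ≤
              (2 : ℝ) ^ (kap0 / 4 * ((k1 : ℝ) + 1 - a2)) * (K3 * (Ub a2 / Ub e *
                (2 : ℝ) ^ (kap0 / 8 * ((e - a2 : ℕ) : ℝ)) * (2 : ℝ) ^ (-(δ / 2 * ((min a2 e - b2 : ℕ) : ℝ))))) := by
                gcongr
            _ = _ := by ring
      _ = ENNReal.ofReal (K3 * ∑ b2 ∈ range (k1 + 1), ∑ a2 ∈ Icc b2 (k1 + 1), ((2 : ℝ) ^ (kap0 / 4 * ((k1 : ℝ) + 1 - a2)) *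
          (Ub a2 / Ub e) * (2 : ℝ) ^ (kap0 / 8 * ((e - a2 : ℕ) : ℝ)) *
            (2 : ℝ) ^ (-(δ / 2 * ((min a2 e - b2 : ℕ) : ℝ))))) := by
          have hnn : ∀ b2 a2 : ℕ, 0 ≤ K3 * ((2 : ℝ) ^ (kap0 / 4 * ((k1 : ℝ) + 1 - a2)) *
            (Ub a2 / Ub e) * (2 : ℝ) ^ (kap0 / 8 * ((e - a2 : ℕ) : ℝ)) *
            (2 : ℝ) ^ (-(δ / 2 * ((min a2 e - b2 : ℕ) : ℝ)))) := by
            intro b2 a2
            have hUa := Ub_pos a2
            positivity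
          rw [Finset.mul_sum, ENNReal.ofReal_sum_of_nonneg]
          · refine Finset.sum_congr rfl fun b2 _ => ?_
            rw [Finset.mul_sum, ENNReal.ofReal_sum_of_nonneg]
            exact fun a2 _ => hnn b2 a2
          · intro b2 _
            rw [Finset.mul_sum]
            exact Finset.sum_nonneg fun a2 _ => hnn b2 a2
      _ ≤ _ := by
          apply ENNReal.ofReal_le_ofReal
          rw [mul_assoc]
          gcongr
          exact h4 k1 e hke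

/-- one value a ≤ b: the giant P is used at both ends -/
lemma loG (h : Inp C δ) : ∃ K : ℝ, 1 ≤ K ∧ ∀ D0 k0 D1 k1 e b a : ℕ, 2 ^ (k0 + 4) ≤ D0 → 2 ^ (k1 + 4) ≤ D1 → k0 ≤ e →
    k1 ≤ e → b ≤ k0 → a ≤ b →
    ∑ b2 ∈ range (k1 + 1), (∑' r : ℕ, (if 2 ^ e < r then sw (Irr r) (fun P => EE D0 a b P * Sw D1 k1 b2 P) else 0)) ≤
      ENNReal.ofReal (K * (Ub b * (2 : ℝ) ^ (kap0 / 8 * ((e : ℝ) - b)) * (2 : ℝ) ^ (-(δ / 2 * ((b - a : ℕ) : ℝ)))) *
        gnk k1 e) := by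
  have hk := kap0_pos
  have hδ := h.pos
  obtain ⟨K1, hK1, h1⟩ := far1
  obtain ⟨K3, hK3, h3⟩ := giant1 h
  obtain ⟨K2, hK2, h2⟩ := giant2 h
  obtain ⟨K4, hK4, h4⟩ := S2G h.pos
  refine ⟨2 * (K1 * K3) + K2 * K4, by nlinarith [mul_nonneg (by linarith : (0:ℝ) ≤ K2) (by linarith : (0:ℝ) ≤ K4)],
    fun D0 k0 D1 k1 e b a hD0 hD1 hk0 hk1 hb ha => ?_⟩
  have hUe := Ub_pos e
  have hUk := Ub_pos k1
  have hUb := Ub_pos b
  have hbe : b ≤ e := hb.trans hk0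
  have hbe' : (b : ℝ) ≤ e := by exact_mod_cast hbe
  have hDb : 2 ^ (b + 3) ≤ D0 := (Nat.pow_le_pow_right (by norm_num) (by omega)).trans hD0
  have hP := p_pos (kap0 / 8 * ((e : ℝ) - b))
  have hQ := p_pos (-(δ / 2 * ((b - a : ℕ) : ℝ)))
  simp only [exp_Sw]
  have hgg := gnk_pos k1 e
  rw [Finset.sum_add_distrib, ← Finset.sum_mul, add_mul (2 * (K1 * K3)), add_mul (2 * (K1 * K3) * _), ENNReal.ofReal_add (by positivity) (by positivity)]
  refine add_le_add ?_ ?_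
  · refine (mul_le_mul' (h1 k1) (h3 D0 e b a ha hDb).1).trans ?_
    rw [← ENNReal.ofReal_mul (by positivity)]
    apply ENNReal.ofReal_le_ofReal
    unfold TT
    rw [min_eq_left hbe, Nat.cast_sub hbe]
    have h6 : Ub k1 / Ub e ≤ 2 * gnk k1 e := ratioH hk1
    have e3 : (2 : ℝ) ^ (-(δ * ((b - a : ℕ) : ℝ))) ≤ (2 : ℝ) ^ (-(δ / 2 * ((b - a : ℕ) : ℝ))) := by
      apply p_mono
      have : (0 : ℝ) ≤ ((b - a : ℕ) : ℝ) := Nat.cast_nonneg _
      nlinarith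
    calc K1 * Ub k1 * (K3 * (Ub b / Ub e * (2 : ℝ) ^ (kap0 / 8 * ((e : ℝ) - b)) *
          (2 : ℝ) ^ (-(δ * ((b - a : ℕ) : ℝ))))) ≤
        K1 * Ub k1 * (K3 * (Ub b / Ub e * (2 : ℝ) ^ (kap0 / 8 * ((e : ℝ) - b)) *
          (2 : ℝ) ^ (-(δ / 2 * ((b - a : ℕ) : ℝ))))) := by gcongr
      _ = (K1 * K3 * (Ub b * (2 : ℝ) ^ (kap0 / 8 * ((e : ℝ) - b)) * (2 : ℝ) ^ (-(δ / 2 * ((b - a : ℕ) : ℝ))))) *
          (Ub k1 / Ub e) := by ring
      _ ≤ (K1 * K3 * (Ub b * (2 : ℝ) ^ (kap0 / 8 * ((e : ℝ) - b)) * (2 : ℝ) ^ (-(δ / 2 * ((b - a : ℕ) : ℝ))))) *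
          (2 * gnk k1 e) := by
          gcongr
      _ = _ := by ring
  · obtain ⟨W, hW⟩ : ∃ W, W = Ub b * (2 : ℝ) ^ (kap0 / 8 * ((e : ℝ) - b)) * (2 : ℝ) ^ (-(δ / 2 * ((b - a : ℕ) : ℝ))) :=
      ⟨_, rfl⟩
    have hW0 : 0 < W := by
      rw [hW]
      positivity
    rw [← hW]
    calc ∑ b2 ∈ range (k1 + 1), ∑ a2 ∈ Icc b2 (k1 + 1), ENNReal.ofReal ((2 : ℝ) ^ (kap0 / 4 * ((k1 : ℝ) + 1 - a2))) *
          (∑' r : ℕ, (if 2 ^ e < r then sw (Irr r) (fun P => EE D0 a b P * EE D1 b2 a2 (rev P)) else 0))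
        ≤ ∑ b2 ∈ range (k1 + 1), ∑ a2 ∈ Icc b2 (k1 + 1), ENNReal.ofReal (K2 * W *
          ((2 : ℝ) ^ (kap0 / 4 * ((k1 : ℝ) + 1 - a2)) *
          (Ub a2 / Ub e) * (2 : ℝ) ^ (kap0 / 8 * ((e - a2 : ℕ) : ℝ)) *
            (2 : ℝ) ^ (-(δ / 2 * ((min a2 e - b2 : ℕ) : ℝ))))) := by
          refine Finset.sum_le_sum fun b2 hb2 => Finset.sum_le_sum fun a2 ha2 => ?_
          rw [Finset.mem_range] at hb2
          rw [Finset.mem_Icc] at ha2
          have hD2 : 2 ^ (a2 + 3) ≤ D1 := (Nat.pow_le_pow_right (by norm_num) (by omega)).trans hD1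
          have h5 := h2 D0 D1 e b a a2 b2 ha ha2.1 hDb hD2
          refine (mul_le_mul' le_rfl h5).trans ?_
          rw [← ENNReal.ofReal_mul (p_pos _).le]
          apply ENNReal.ofReal_le_ofReal
          rw [sqrt_val, min_eq_left hbe, Nat.cast_sub hbe]
          have hUa := Ub_pos a2
          have q1 := p_pos (kap0 / 4 * ((k1 : ℝ) + 1 - a2))
          have q2 := p_pos (kap0 / 8 * ((e - a2 : ℕ) : ℝ))
          have q3 := p_pos (-(δ / 2 * ((min a2 e - b2 : ℕ) : ℝ)))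
          have r1 : (2 : ℝ) ^ (kap0 / 16 * ((e : ℝ) - b)) ≤ (2 : ℝ) ^ (kap0 / 8 * ((e : ℝ) - b)) := by
            apply p_mono
            nlinarith
          have r2 : (2 : ℝ) ^ (kap0 / 16 * ((e - a2 : ℕ) : ℝ)) ≤ (2 : ℝ) ^ (kap0 / 8 * ((e - a2 : ℕ) : ℝ)) := by
            apply p_mono
            have : (0 : ℝ) ≤ ((e - a2 : ℕ) : ℝ) := Nat.cast_nonneg _
            nlinarith
          rw [hW]
          calc (2 : ℝ) ^ (kap0 / 4 * ((k1 : ℝ) + 1 - a2)) * (K2 * (Ub b * (Ub a2 / Ub e) *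
                ((2 : ℝ) ^ (kap0 / 16 * ((e : ℝ) - b)) * (2 : ℝ) ^ (kap0 / 16 * ((e - a2 : ℕ) : ℝ))) *
                ((2 : ℝ) ^ (-(δ / 2 * ((b - a : ℕ) : ℝ))) * (2 : ℝ) ^ (-(δ / 2 * ((min a2 e - b2 : ℕ) : ℝ)))))) ≤
              (2 : ℝ) ^ (kap0 / 4 * ((k1 : ℝ) + 1 - a2)) * (K2 * (Ub b * (Ub a2 / Ub e) *
                ((2 : ℝ) ^ (kap0 / 8 * ((e : ℝ) - b)) * (2 : ℝ) ^ (kap0 / 8 * ((e - a2 : ℕ) : ℝ))) *
                ((2 : ℝ) ^ (-(δ / 2 * ((b - a : ℕ) : ℝ))) * (2 : ℝ) ^ (-(δ / 2 * ((min a2 e - b2 : ℕ) : ℝ)))))) := by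
                gcongr
            _ = _ := by ring
      _ = ENNReal.ofReal (K2 * W * ∑ b2 ∈ range (k1 + 1), ∑ a2 ∈ Icc b2 (k1 + 1),
          ((2 : ℝ) ^ (kap0 / 4 * ((k1 : ℝ) + 1 - a2)) *
          (Ub a2 / Ub e) * (2 : ℝ) ^ (kap0 / 8 * ((e - a2 : ℕ) : ℝ)) *
            (2 : ℝ) ^ (-(δ / 2 * ((min a2 e - b2 : ℕ) : ℝ))))) := by
          have hnn : ∀ b2 a2 : ℕ, 0 ≤ K2 * W * ((2 : ℝ) ^ (kap0 / 4 * ((k1 : ℝ) + 1 - a2)) *
            (Ub a2 / Ub e) * (2 : ℝ) ^ (kap0 / 8 * ((e - a2 : ℕ) : ℝ)) *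
            (2 : ℝ) ^ (-(δ / 2 * ((min a2 e - b2 : ℕ) : ℝ)))) := by
            intro b2 a2
            have hUa := Ub_pos a2
            positivity
          rw [Finset.mul_sum, ENNReal.ofReal_sum_of_nonneg]
          · refine Finset.sum_congr rfl fun b2 _ => ?_
            rw [Finset.mul_sum, ENNReal.ofReal_sum_of_nonneg]
            exact fun a2 _ => hnn b2 a2
          · intro b2 _
            rw [Finset.mul_sum]
            exact Finset.sum_nonneg fun a2 _ => hnn b2 a2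
      _ ≤ ENNReal.ofReal (K2 * W * (K4 * gnk k1 e)) := by
          apply ENNReal.ofReal_le_ofReal
          gcongr
          exact h4 k1 e hk1
      _ = _ := by
          congr 1
          ring

lemma geo_tr {c : ℝ} (h : 0 < c) : ∃ K : ℝ, 1 ≤ K ∧ ∀ b m : ℕ,
    ∑ a ∈ range (min b m + 1), (2 : ℝ) ^ (-(c * ((b - a : ℕ) : ℝ))) ≤ K * (2 : ℝ) ^ (-(c * ((b - m : ℕ) : ℝ))) := by
  obtain ⟨K, hK, h1⟩ := geo_low h
  refine ⟨K, hK, fun b m => ?_⟩
  calc ∑ a ∈ range (min b m + 1), (2 : ℝ) ^ (-(c * ((b - a : ℕ) : ℝ)))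
      = ∑ a ∈ range (min b m + 1), (2 : ℝ) ^ (-(c * ((min b m - a : ℕ) : ℝ))) * (2 : ℝ) ^ (-(c * ((b - m : ℕ) : ℝ))) := by
        refine Finset.sum_congr rfl fun a ha => ?_
        rw [Finset.mem_range] at ha
        rw [← Real.rpow_add two_pos]
        congr 1
        have e : ((b - a : ℕ) : ℝ) = ((min b m - a : ℕ) : ℝ) + ((b - m : ℕ) : ℝ) := by
          exact_mod_cast (by omega : b - a = (min b m - a) + (b - m))
        rw [e]
        ring
    _ = (∑ a ∈ range (min b m + 1), (2 : ℝ) ^ (-(c * ((min b m - a : ℕ) : ℝ)))) * (2 : ℝ) ^ (-(c * ((b - m : ℕ) : ℝ))) := by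
        rw [Finset.sum_mul]
    _ ≤ _ := mul_le_mul_of_nonneg_right (h1 _) (p_pos _).le

end KG

open KG in
open SDN.TK in
/-- giants of two scales: the parts up to the block a1 + 1 next to the fold, gains in k - a1 and in k - k1 -/
theorem k3J (h : Inp C δ) : ∃ K c : ℝ, 1 ≤ K ∧ 0 < c ∧ ∀ (D0 k D1 k1 a1 b : ℕ) (I : List Bool), 2 ^ (k + 4) ≤ D0 →
    2 ^ (k1 + 4) ≤ D1 → k1 ≤ k → a1 ≤ k → b ≤ k →
    ∑ a ∈ range (a1 + 2), ∑ b2 ∈ range (k1 + 1), ∑' r : ℕ, (if 2 ^ k < r then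
      sw (Irr r) (fun P => KT D0 b I a P * Sw D1 k1 b2 P) else 0) ≤
      ENNReal.ofReal (K * (2 : ℝ) ^ (-(c * ((k : ℝ) - a1))) * (2 : ℝ) ^ (-(c * ((k : ℝ) - k1)))) * Sw D0 k b I := by
  have hk := kap0_pos
  have hδ := h.pos
  obtain ⟨K1, hK1, h1⟩ := farG h
  obtain ⟨K2, hK2, h2⟩ := loG h
  obtain ⟨K3, hK3, h3⟩ := geo_tr (c := δ / 2) (by linarith)
  obtain ⟨c, hc⟩ : ∃ c, c = min (kap0 / 8) (δ / 2) := ⟨_, rfl⟩
  have hc0 : 0 < c := by
    rw [hc]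
    exact lt_min (by linarith) (by linarith)
  have hc1 : c ≤ kap0 / 8 := by
    rw [hc]
    exact min_le_left _ _
  have hc2 : c ≤ δ / 2 := by
    rw [hc]
    exact min_le_right _ _
  refine ⟨2 ^ c * (K2 * K3) + K1, c, by
    have : 0 ≤ 2 ^ c * (K2 * K3) := by
      have := p_pos c
      have : 0 ≤ K2 * K3 := by nlinarith
      positivity
    linarith, hc0, fun D0 k D1 k1 a1 b I hD0 hD1 hk1 ha1 hb => ?_⟩
  have hUb := Ub_pos b
  have hbk' : (b : ℝ) ≤ k := by exact_mod_cast hb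
  have hak' : (a1 : ℝ) ≤ k := by exact_mod_cast ha1
  have hkk' : (k1 : ℝ) ≤ k := by exact_mod_cast hk1
  have hgg := gnk_pos k1 k
  have hgg2 : gnk k1 k ≤ (2 : ℝ) ^ (-(c * ((k : ℝ) - k1))) := by
    unfold gnk
    apply p_mono
    nlinarith
  have hsplit : range (a1 + 2) = range (min b (a1 + 1) + 1) ∪ Icc (b + 1) (a1 + 1) := by
    ext a
    simp only [Finset.mem_union, Finset.mem_range, Finset.mem_Icc]
    omega
  have hdisj : Disjoint (range (min b (a1 + 1) + 1)) (Icc (b + 1) (a1 + 1)) := by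
    rw [Finset.disjoint_left]
    intro a ha ha'
    rw [Finset.mem_range] at ha
    rw [Finset.mem_Icc] at ha'
    omega
  rw [hsplit, Finset.sum_union hdisj]
  obtain ⟨G, hG⟩ : ∃ G, G = (2 : ℝ) ^ (-(c * ((k : ℝ) - a1))) * (2 : ℝ) ^ (-(c * ((k : ℝ) - k1))) := ⟨_, rfl⟩
  have hG0 : 0 < G := by
    rw [hG]
    exact mul_pos (p_pos _) (p_pos _)
  have e1 : ∑ a ∈ range (min b (a1 + 1) + 1), ∑ b2 ∈ range (k1 + 1), ∑' r : ℕ, (if 2 ^ k < r then
      sw (Irr r) (fun P => KT D0 b I a P * Sw D1 k1 b2 P) else 0) ≤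
      ENNReal.ofReal (2 ^ c * (K2 * K3) * G) * ENNReal.ofReal ((2 : ℝ) ^ (kap0 / 4 * ((k : ℝ) - b)) * Ub b) := by
    calc ∑ a ∈ range (min b (a1 + 1) + 1), ∑ b2 ∈ range (k1 + 1), ∑' r : ℕ, (if 2 ^ k < r then
          sw (Irr r) (fun P => KT D0 b I a P * Sw D1 k1 b2 P) else 0)
        ≤ ∑ a ∈ range (min b (a1 + 1) + 1), ENNReal.ofReal (K2 * (Ub b * (2 : ℝ) ^ (kap0 / 8 * ((k : ℝ) - b)) *
            (2 : ℝ) ^ (-(δ / 2 * ((b - a : ℕ) : ℝ)))) * gnk k1 k) := by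
          refine Finset.sum_le_sum fun a ha => ?_
          rw [Finset.mem_range] at ha
          refine le_trans (Finset.sum_le_sum fun b2 _ => ENNReal.tsum_le_tsum fun r => ?_)
            (h2 D0 k D1 k1 k b a hD0 hD1 le_rfl hk1 hb (by omega))
          split_ifs
          · exact Rec8.sw_mono' fun P _ => mul_le_mul' (KT_le_right D0 b I a P) le_rfl
          · exact le_rfl
      _ = ENNReal.ofReal (∑ a ∈ range (min b (a1 + 1) + 1), K2 * (Ub b * (2 : ℝ) ^ (kap0 / 8 * ((k : ℝ) - b)) *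
            (2 : ℝ) ^ (-(δ / 2 * ((b - a : ℕ) : ℝ)))) * gnk k1 k) := by
          rw [ENNReal.ofReal_sum_of_nonneg]
          intro a _
          positivity
      _ ≤ _ := by
          rw [← ENNReal.ofReal_mul (by positivity)]
          apply ENNReal.ofReal_le_ofReal
          have g1 := h3 b (a1 + 1)
          have g8 : ∑ a ∈ range (min b (a1 + 1) + 1), K2 * (Ub b * (2 : ℝ) ^ (kap0 / 8 * ((k : ℝ) - b)) *
            (2 : ℝ) ^ (-(δ / 2 * ((b - a : ℕ) : ℝ)))) * gnk k1 k = K2 * (Ub b * (2 : ℝ) ^ (kap0 / 8 * ((k : ℝ) - b)) *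
            ∑ a ∈ range (min b (a1 + 1) + 1), (2 : ℝ) ^ (-(δ / 2 * ((b - a : ℕ) : ℝ)))) * gnk k1 k := by
            rw [Finset.mul_sum, Finset.mul_sum, Finset.sum_mul]
          have g9 : (2 : ℝ) ^ (kap0 / 8 * ((k : ℝ) - b)) * (2 : ℝ) ^ (-(δ / 2 * ((b - (a1 + 1) : ℕ) : ℝ))) ≤
              (2 : ℝ) ^ (kap0 / 4 * ((k : ℝ) - b)) * (2 ^ c * (2 : ℝ) ^ (-(c * ((k : ℝ) - a1)))) := by
            rw [← Real.rpow_add two_pos, ← Real.rpow_add two_pos, ← Real.rpow_add two_pos]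
            apply p_mono
            have g10 : (b : ℝ) ≤ ((b - (a1 + 1) : ℕ) : ℝ) + (a1 + 1) := by
              exact_mod_cast (by omega : b ≤ (b - (a1 + 1)) + (a1 + 1))
            have g11 : (0 : ℝ) ≤ ((b - (a1 + 1) : ℕ) : ℝ) := Nat.cast_nonneg _
            nlinarith
          rw [g8]
          calc K2 * (Ub b * (2 : ℝ) ^ (kap0 / 8 * ((k : ℝ) - b)) *
                ∑ a ∈ range (min b (a1 + 1) + 1), (2 : ℝ) ^ (-(δ / 2 * ((b - a : ℕ) : ℝ)))) * gnk k1 k ≤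
              K2 * (Ub b * (2 : ℝ) ^ (kap0 / 8 * ((k : ℝ) - b)) *
                (K3 * (2 : ℝ) ^ (-(δ / 2 * ((b - (a1 + 1) : ℕ) : ℝ))))) * gnk k1 k := by gcongr
            _ = K2 * K3 * Ub b * ((2 : ℝ) ^ (kap0 / 8 * ((k : ℝ) - b)) *
                (2 : ℝ) ^ (-(δ / 2 * ((b - (a1 + 1) : ℕ) : ℝ)))) * gnk k1 k := by ring
            _ ≤ K2 * K3 * Ub b * ((2 : ℝ) ^ (kap0 / 4 * ((k : ℝ) - b)) * (2 ^ c * (2 : ℝ) ^ (-(c * ((k : ℝ) - a1))))) *
                (2 : ℝ) ^ (-(c * ((k : ℝ) - k1))) := by gcongr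
            _ = _ := by
                rw [hG]
                ring
  have e2 : ∑ a ∈ Icc (b + 1) (a1 + 1), ∑ b2 ∈ range (k1 + 1), ∑' r : ℕ, (if 2 ^ k < r then
      sw (Irr r) (fun P => KT D0 b I a P * Sw D1 k1 b2 P) else 0) ≤
      ENNReal.ofReal (K1 * G) *
        ∑ a ∈ Icc b (k + 1), ENNReal.ofReal ((2 : ℝ) ^ (kap0 / 4 * ((k : ℝ) + 1 - a))) * EE D0 b a (rev I) := by
    calc ∑ a ∈ Icc (b + 1) (a1 + 1), ∑ b2 ∈ range (k1 + 1), ∑' r : ℕ, (if 2 ^ k < r then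
          sw (Irr r) (fun P => KT D0 b I a P * Sw D1 k1 b2 P) else 0)
        ≤ ∑ a ∈ Icc (b + 1) (a1 + 1), ENNReal.ofReal (K1 * G) *
          (ENNReal.ofReal ((2 : ℝ) ^ (kap0 / 4 * ((k : ℝ) + 1 - a))) * EE D0 b a (rev I)) := by
          refine Finset.sum_le_sum fun a ha => ?_
          rw [Finset.mem_Icc] at ha
          have f1 : ∑ b2 ∈ range (k1 + 1), ∑' r : ℕ, (if 2 ^ k < r then
              sw (Irr r) (fun P => KT D0 b I a P * Sw D1 k1 b2 P) else 0) ≤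
              EE D0 b a (rev I) * ∑ b2 ∈ range (k1 + 1), (∑' r : ℕ, (if 2 ^ k < r then
                sw (Irr r) (fun P => (fun _ => 1) P * Sw D1 k1 b2 P) else 0)) := by
            rw [Finset.mul_sum]
            refine Finset.sum_le_sum fun b2 _ => ?_
            rw [← ENNReal.tsum_mul_left]
            refine ENNReal.tsum_le_tsum fun r => ?_
            split_ifs
            · rw [← Rec8.sw_mul_left]
              refine Rec8.sw_mono' fun P _ => ?_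
              rw [one_mul]
              exact mul_le_mul' (KT_le_left D0 b I a P) le_rfl
            · rw [mul_zero]
          refine f1.trans ((mul_le_mul' le_rfl (h1 D1 k1 k hD1 hk1)).trans ?_)
          rw [mul_comm, ← mul_assoc]
          refine mul_le_mul' ?_ le_rfl
          rw [← ENNReal.ofReal_mul (by positivity)]
          apply ENNReal.ofReal_le_ofReal
          have ha2 : (a : ℝ) ≤ a1 + 1 := by exact_mod_cast ha.2
          have f2 : 1 ≤ (2 : ℝ) ^ (-(c * ((k : ℝ) - a1))) * (2 : ℝ) ^ (kap0 / 4 * ((k : ℝ) + 1 - a)) := by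
            rw [← Real.rpow_add two_pos]
            apply p_one
            nlinarith
          calc K1 * gnk k1 k ≤ K1 * (2 : ℝ) ^ (-(c * ((k : ℝ) - k1))) * 1 := by
                rw [mul_one]
                gcongr
            _ ≤ K1 * (2 : ℝ) ^ (-(c * ((k : ℝ) - k1))) *
                ((2 : ℝ) ^ (-(c * ((k : ℝ) - a1))) * (2 : ℝ) ^ (kap0 / 4 * ((k : ℝ) + 1 - a))) := by
                have := p_pos (-(c * ((k : ℝ) - k1)))
                gcongr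
            _ = _ := by
                rw [hG]
                ring
      _ = ENNReal.ofReal (K1 * G) * ∑ a ∈ Icc (b + 1) (a1 + 1),
          (ENNReal.ofReal ((2 : ℝ) ^ (kap0 / 4 * ((k : ℝ) + 1 - a))) * EE D0 b a (rev I)) := by
          rw [Finset.mul_sum]
      _ ≤ _ := by
          refine mul_le_mul' le_rfl ?_
          apply Finset.sum_le_sum_of_subset
          apply Finset.Icc_subset_Icc
          · omega
          · omega
  refine (add_le_add e1 e2).trans ?_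
  have e3 : (2 ^ c * (K2 * K3) + K1) * (2 : ℝ) ^ (-(c * ((k : ℝ) - a1))) * (2 : ℝ) ^ (-(c * ((k : ℝ) - k1))) =
      2 ^ c * (K2 * K3) * G + K1 * G := by
    rw [hG]
    ring
  rw [e3, ENNReal.ofReal_add (by positivity) (by positivity)]
  unfold Sw
  rw [add_mul]
  refine add_le_add ?_ ?_
  · exact mul_le_mul' le_rfl le_self_add
  · exact mul_le_mul' le_rfl le_add_self

open KG in
open SDN.TK in
/-- sum over the pieces over a level of the window j, the parts up to the block a1 + 1 next to the fold -/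
theorem k2J (h : Inp C δ) : ∃ K c : ℝ, 1 ≤ K ∧ 0 < c ∧ ∀ (D k j a1 b : ℕ) (I : List Bool), 2 ^ (k + 4) ≤ D → j ≤ k →
    a1 + 3 ≤ j → b ≤ k → ∑ a ∈ range (a1 + 2), pm j a (fun P => KT D b I a P) ≤
      ENNReal.ofReal (K / Ub j * (2 : ℝ) ^ (-(c * ((j : ℝ) - a1)))) * Sw D k b I := by
  have hk := kap0_pos
  have hδ := h.pos
  obtain ⟨K1, hK1, h1⟩ := pm_one
  obtain ⟨K2, hK2, h2⟩ := pm_EE h
  obtain ⟨K3, hK3, h3⟩ := geo_tr (c := δ) hδ
  obtain ⟨c, hc⟩ : ∃ c, c = min (kap0 / 8) δ := ⟨_, rfl⟩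
  have hc0 : 0 < c := by
    rw [hc]
    exact lt_min (by linarith) (by linarith)
  have hc1 : c ≤ kap0 / 8 := by
    rw [hc]
    exact min_le_left _ _
  have hc2 : c ≤ δ := by
    rw [hc]
    exact min_le_right _ _
  refine ⟨2 ^ c * (K2 * K3) + K1, c, by
    have : 0 ≤ 2 ^ c * (K2 * K3) := by
      have := p_pos c
      have : 0 ≤ K2 * K3 := by nlinarith
      positivity
    linarith, hc0, fun D k j a1 b I hD hjk ha1 hb => ?_⟩
  have hUb := Ub_pos b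
  have hUj := Ub_pos j
  have hbk' : (b : ℝ) ≤ k := by exact_mod_cast hb
  have hjk' : (j : ℝ) ≤ k := by exact_mod_cast hjk
  have haj' : (a1 : ℝ) + 3 ≤ j := by exact_mod_cast ha1
  have hsplit : range (a1 + 2) = range (min b (a1 + 1) + 1) ∪ Icc (b + 1) (a1 + 1) := by
    ext a
    simp only [Finset.mem_union, Finset.mem_range, Finset.mem_Icc]
    omega
  have hdisj : Disjoint (range (min b (a1 + 1) + 1)) (Icc (b + 1) (a1 + 1)) := by
    rw [Finset.disjoint_left]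
    intro a ha ha'
    rw [Finset.mem_range] at ha
    rw [Finset.mem_Icc] at ha'
    omega
  rw [hsplit, Finset.sum_union hdisj]
  obtain ⟨G, hG⟩ : ∃ G, G = (2 : ℝ) ^ (-(c * ((j : ℝ) - a1))) := ⟨_, rfl⟩
  have hG0 : 0 < G := by
    rw [hG]
    exact p_pos _
  have e1 : ∑ a ∈ range (min b (a1 + 1) + 1), pm j a (fun P => KT D b I a P) ≤
      ENNReal.ofReal (2 ^ c * (K2 * K3) / Ub j * G) * ENNReal.ofReal ((2 : ℝ) ^ (kap0 / 4 * ((k : ℝ) - b)) * Ub b) := by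
    calc ∑ a ∈ range (min b (a1 + 1) + 1), pm j a (fun P => KT D b I a P)
        ≤ ∑ a ∈ range (min b (a1 + 1) + 1), ENNReal.ofReal (K2 * TT (kap0 / 8) δ j b a) := by
          refine Finset.sum_le_sum fun a ha => ?_
          rw [Finset.mem_range] at ha
          refine (pm_mono (fun P => KT_le_right D b I a P)).trans ?_
          have hDb : 2 ^ (b + 3) ≤ D := (Nat.pow_le_pow_right (by norm_num) (by omega)).trans hD
          have f1 := h2 D b a j a (by omega) hDb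
          rw [if_neg (by omega), add_zero] at f1
          exact f1
      _ = ENNReal.ofReal (∑ a ∈ range (min b (a1 + 1) + 1), K2 * TT (kap0 / 8) δ j b a) := by
          rw [ENNReal.ofReal_sum_of_nonneg]
          intro a _
          exact mul_nonneg (by linarith) (TT_nonneg _ _ _ _ _)
      _ ≤ _ := by
          rw [← ENNReal.ofReal_mul (by positivity)]
          apply ENNReal.ofReal_le_ofReal
          have g1 := h3 (min b j) (a1 + 1)
          have g2 : min (min b j) (a1 + 1) = min b (a1 + 1) := by omega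
          rw [g2] at g1
          unfold TT
          have g8 : ∑ a ∈ range (min b (a1 + 1) + 1), K2 * (Ub b / Ub j * (2 : ℝ) ^ (kap0 / 8 * ((j - b : ℕ) : ℝ)) *
            (2 : ℝ) ^ (-(δ * ((min b j - a : ℕ) : ℝ)))) = K2 * (Ub b / Ub j * (2 : ℝ) ^ (kap0 / 8 * ((j - b : ℕ) : ℝ)) *
            ∑ a ∈ range (min b (a1 + 1) + 1), (2 : ℝ) ^ (-(δ * ((min b j - a : ℕ) : ℝ)))) := by
            rw [Finset.mul_sum, Finset.mul_sum]
          have g9 : (2 : ℝ) ^ (kap0 / 8 * ((j - b : ℕ) : ℝ)) * (2 : ℝ) ^ (-(δ * ((min b j - (a1 + 1) : ℕ) : ℝ))) ≤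
              (2 : ℝ) ^ (kap0 / 4 * ((k : ℝ) - b)) * (2 ^ c * (2 : ℝ) ^ (-(c * ((j : ℝ) - a1)))) := by
            rw [← Real.rpow_add two_pos, ← Real.rpow_add two_pos, ← Real.rpow_add two_pos]
            apply p_mono
            obtain ⟨u, hu⟩ : ∃ u, u = j - b := ⟨_, rfl⟩
            obtain ⟨v, hv⟩ : ∃ v, v = min b j - (a1 + 1) := ⟨_, rfl⟩
            rw [← hu, ← hv]
            have g10 : (j : ℝ) ≤ (u : ℝ) + v + (a1 + 1) := by
              exact_mod_cast (by omega : j ≤ u + v + (a1 + 1))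
            have g11 : (u : ℝ) ≤ (k : ℝ) - b := by
              have : (u : ℝ) + b ≤ k := by exact_mod_cast (by omega : u + b ≤ k)
              linarith
            have g12 : (0 : ℝ) ≤ u := Nat.cast_nonneg _
            have g13 : (0 : ℝ) ≤ v := Nat.cast_nonneg _
            nlinarith
          rw [g8]
          have p1 := p_pos (kap0 / 8 * ((j - b : ℕ) : ℝ))
          calc K2 * (Ub b / Ub j * (2 : ℝ) ^ (kap0 / 8 * ((j - b : ℕ) : ℝ)) *
                ∑ a ∈ range (min b (a1 + 1) + 1), (2 : ℝ) ^ (-(δ * ((min b j - a : ℕ) : ℝ)))) ≤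
              K2 * (Ub b / Ub j * (2 : ℝ) ^ (kap0 / 8 * ((j - b : ℕ) : ℝ)) *
                (K3 * (2 : ℝ) ^ (-(δ * ((min b j - (a1 + 1) : ℕ) : ℝ))))) := by gcongr
            _ = K2 * K3 * (Ub b / Ub j) * ((2 : ℝ) ^ (kap0 / 8 * ((j - b : ℕ) : ℝ)) *
                (2 : ℝ) ^ (-(δ * ((min b j - (a1 + 1) : ℕ) : ℝ)))) := by ring
            _ ≤ K2 * K3 * (Ub b / Ub j) * ((2 : ℝ) ^ (kap0 / 4 * ((k : ℝ) - b)) *
                (2 ^ c * (2 : ℝ) ^ (-(c * ((j : ℝ) - a1))))) := by gcongr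
            _ = _ := by
                rw [hG]
                ring
  have e2 : ∑ a ∈ Icc (b + 1) (a1 + 1), pm j a (fun P => KT D b I a P) ≤
      ENNReal.ofReal (K1 / Ub j * G) *
        ∑ a ∈ Icc b (k + 1), ENNReal.ofReal ((2 : ℝ) ^ (kap0 / 4 * ((k : ℝ) + 1 - a))) * EE D b a (rev I) := by
    calc ∑ a ∈ Icc (b + 1) (a1 + 1), pm j a (fun P => KT D b I a P)
        ≤ ∑ a ∈ Icc (b + 1) (a1 + 1), ENNReal.ofReal (K1 / Ub j * G) *
          (ENNReal.ofReal ((2 : ℝ) ^ (kap0 / 4 * ((k : ℝ) + 1 - a))) * EE D b a (rev I)) := by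
          refine Finset.sum_le_sum fun a ha => ?_
          rw [Finset.mem_Icc] at ha
          refine (pm_mono (fun P => KT_le_left D b I a P)).trans ?_
          refine (h1 j a (EE D b a (rev I))).trans ?_
          rw [← mul_assoc]
          refine mul_le_mul' ?_ le_rfl
          rw [← ENNReal.ofReal_mul (by positivity)]
          apply ENNReal.ofReal_le_ofReal
          have ha2 : (a : ℝ) ≤ a1 + 1 := by exact_mod_cast ha.2
          have f2 : 1 ≤ G * (2 : ℝ) ^ (kap0 / 4 * ((k : ℝ) + 1 - a)) := by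
            rw [hG, ← Real.rpow_add two_pos]
            apply p_one
            nlinarith
          calc K1 / Ub j = K1 / Ub j * 1 := by rw [mul_one]
            _ ≤ K1 / Ub j * (G * (2 : ℝ) ^ (kap0 / 4 * ((k : ℝ) + 1 - a))) := by gcongr
            _ = _ := by ring
      _ = ENNReal.ofReal (K1 / Ub j * G) * ∑ a ∈ Icc (b + 1) (a1 + 1),
          (ENNReal.ofReal ((2 : ℝ) ^ (kap0 / 4 * ((k : ℝ) + 1 - a))) * EE D b a (rev I)) := by
          rw [Finset.mul_sum]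
      _ ≤ _ := by
          refine mul_le_mul' le_rfl ?_
          apply Finset.sum_le_sum_of_subset
          apply Finset.Icc_subset_Icc
          · omega
          · omega
  refine (add_le_add e1 e2).trans ?_
  have e3 : (2 ^ c * (K2 * K3) + K1) / Ub j * (2 : ℝ) ^ (-(c * ((j : ℝ) - a1))) =
      2 ^ c * (K2 * K3) / Ub j * G + K1 / Ub j * G := by
    rw [hG]
    ring
  rw [e3, ENNReal.ofReal_add (by positivity) (by positivity)]
  unfold Sw
  rw [add_mul]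
  refine add_le_add ?_ ?_
  · exact mul_le_mul' le_rfl le_self_add
  · exact mul_le_mul' le_rfl le_add_self

end NTW

end HexObs
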