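import Pool.Agent.SDN.TwoScale
import Pool.Agent.SDN.TwoK

/-!
NTW, block D: the two sided norm. The sum over a leaf of a functional of its head and a functional of its tail.
-/

set_option autoImplicit false

namespace HexObs

namespace NTW

open Finset TS SDN SDN.T2 SDN.TK

open scoped ENNReal

open Rec8 (mb)

variable {C δ : ℝ}

namespace TW

lemma sw_rev (A : Set (List Bool)) (hA : ∀ t ∈ A, rev t ∈ A) (F : List Bool → ℝ≥0∞) :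
    Rec8.sw A (fun t => F (rev t)) = Rec8.sw A F := by
  unfold Rec8.sw
  have e : ∀ t : {t : List Bool // t ∈ A}, wE t.1 * F (rev t.1) =
      (fun s : {t : List Bool // t ∈ A} => wE s.1 * F s.1) ⟨rev t.1, hA t.1 t.2⟩ := by
    intro t
    show _ = wE (rev t.1) * F (rev t.1)
    rw [wE_rev]
  rw [tsum_congr e]
  have hinv : Function.Involutive (fun t : {t : List Bool // t ∈ A} =>
      (⟨rev t.1, hA t.1 t.2⟩ : {t : List Bool // t ∈ A})) := by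
    intro t
    apply Subtype.ext
    exact rev_rev t.1
  exact (Equiv.ofBijective _ hinv.bijective).tsum_eq (fun s : {t : List Bool // t ∈ A} => wE s.1 * F s.1)

lemma tsum_pull (S : Set (List Bool)) (c : ℕ → ℝ≥0∞) (x : ℝ≥0∞) (W : List Bool → ℝ≥0∞) (G : ℕ → List Bool → ℝ≥0∞) :
    ∑' n : ℕ, c n * Rec8.sw S (fun P => x * (W P * G n P)) =
      Rec8.sw S (fun P => x * (W P * ∑' n : ℕ, c n * G n P)) := by
  simp only [← Rec8.sw_mul_left]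
  rw [← NX_sw_tsum]
  refine Rec8.sw_congr fun P _ => ?_
  rw [← ENNReal.tsum_mul_left, ← ENNReal.tsum_mul_left]
  refine tsum_congr fun n => ?_
  ring

lemma sum_pull (S : Set (List Bool)) (x y : ℝ≥0∞) (n m : ℕ) (f g : ℕ → List Bool → ℝ≥0∞) :
    Rec8.sw S (fun P => x * ((∑ b ∈ range n, g b P) * (y * ∑ a ∈ range m, f a P))) =
      x * (y * ∑ b ∈ range n, ∑ a ∈ range m, Rec8.sw S (fun P => f a P * g b P)) := by
  have e1 : ∀ P : List Bool, x * ((∑ b ∈ range n, g b P) * (y * ∑ a ∈ range m, f a P)) =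
      x * (y * ∑ b ∈ range n, ∑ a ∈ range m, f a P * g b P) := by
    intro P
    have e2 : ∑ b ∈ range n, ∑ a ∈ range m, f a P * g b P = (∑ b ∈ range n, g b P) * ∑ a ∈ range m, f a P := by
      rw [Finset.sum_mul]
      refine Finset.sum_congr rfl fun b _ => ?_
      rw [Finset.mul_sum]
      exact Finset.sum_congr rfl fun a _ => mul_comm _ _
    rw [e2]
    ring
  simp only [e1]
  rw [Rec8.sw_mul_left, Rec8.sw_mul_left, Rec8.sw_sum]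
  congr 2
  exact Finset.sum_congr rfl fun b _ => Rec8.sw_sum _ _ _

/-- one factor of the second gain -/
noncomputable def X1 (δ : ℝ) (k e b a : ℕ) : ℝ := (2 : ℝ) ^ (kap0 / 4 * ((k : ℝ) + 1 - a)) * (Ub a / Ub e) *
  (2 : ℝ) ^ (kap0 / 8 * ((e - a : ℕ) : ℝ)) * (2 : ℝ) ^ (-(δ / 2 * ((min a e - b : ℕ) : ℝ)))

lemma X1_nonneg (δ : ℝ) (k e b a : ℕ) : 0 ≤ X1 δ k e b a := by
  unfold X1
  have := Ub_pos a
  have := Ub_pos e
  have := p_pos (kap0 / 4 * ((k : ℝ) + 1 - a))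
  have := p_pos (kap0 / 8 * ((e - a : ℕ) : ℝ))
  have := p_pos (-(δ / 2 * ((min a e - b : ℕ) : ℝ)))
  positivity

/-- the product of the two gains -/
lemma gain_prod (hδ : 0 < δ) (k0 k1 e a b a2 b2 : ℕ) :
    (2 : ℝ) ^ (kap0 / 4 * ((k0 : ℝ) + 1 - a)) * ((2 : ℝ) ^ (kap0 / 4 * ((k1 : ℝ) + 1 - a2)) *
      (Real.sqrt (TT (kap0 / 8) δ e a b * TT (kap0 / 8) δ e a2 b2) * Real.sqrt (Ub a * Ub a2))) ≤
      Ub e * (X1 δ k0 e b a * X1 δ k1 e b2 a2) := by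
  have hk := kap0_pos
  have hUe := Ub_pos e
  have hUa := Ub_pos a
  have hUa2 := Ub_pos a2
  rw [sqrt_val]
  unfold X1
  have q1 := p_pos (kap0 / 4 * ((k0 : ℝ) + 1 - a))
  have q2 := p_pos (kap0 / 4 * ((k1 : ℝ) + 1 - a2))
  have q3 := p_pos (-(δ / 2 * ((min a e - b : ℕ) : ℝ)))
  have q4 := p_pos (-(δ / 2 * ((min a2 e - b2 : ℕ) : ℝ)))
  have r1 : (2 : ℝ) ^ (kap0 / 16 * ((e - a : ℕ) : ℝ)) ≤ (2 : ℝ) ^ (kap0 / 8 * ((e - a : ℕ) : ℝ)) := by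
    apply p_mono
    have : (0 : ℝ) ≤ ((e - a : ℕ) : ℝ) := Nat.cast_nonneg _
    nlinarith
  have r2 : (2 : ℝ) ^ (kap0 / 16 * ((e - a2 : ℕ) : ℝ)) ≤ (2 : ℝ) ^ (kap0 / 8 * ((e - a2 : ℕ) : ℝ)) := by
    apply p_mono
    have : (0 : ℝ) ≤ ((e - a2 : ℕ) : ℝ) := Nat.cast_nonneg _
    nlinarith
  have p1 := p_pos (kap0 / 16 * ((e - a : ℕ) : ℝ))
  have p2 := p_pos (kap0 / 16 * ((e - a2 : ℕ) : ℝ))
  calc (2 : ℝ) ^ (kap0 / 4 * ((k0 : ℝ) + 1 - a)) * ((2 : ℝ) ^ (kap0 / 4 * ((k1 : ℝ) + 1 - a2)) *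
      (Ub a * (Ub a2 / Ub e) * ((2 : ℝ) ^ (kap0 / 16 * ((e - a : ℕ) : ℝ)) * (2 : ℝ) ^ (kap0 / 16 * ((e - a2 : ℕ) : ℝ))) *
        ((2 : ℝ) ^ (-(δ / 2 * ((min a e - b : ℕ) : ℝ))) * (2 : ℝ) ^ (-(δ / 2 * ((min a2 e - b2 : ℕ) : ℝ))))))
      ≤ (2 : ℝ) ^ (kap0 / 4 * ((k0 : ℝ) + 1 - a)) * ((2 : ℝ) ^ (kap0 / 4 * ((k1 : ℝ) + 1 - a2)) *
      (Ub a * (Ub a2 / Ub e) * ((2 : ℝ) ^ (kap0 / 8 * ((e - a : ℕ) : ℝ)) * (2 : ℝ) ^ (kap0 / 8 * ((e - a2 : ℕ) : ℝ))) *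
        ((2 : ℝ) ^ (-(δ / 2 * ((min a e - b : ℕ) : ℝ))) * (2 : ℝ) ^ (-(δ / 2 * ((min a2 e - b2 : ℕ) : ℝ)))))) := by
        gcongr
    _ = _ := by
        field_simp

/-- the second part of the far weight, one gain -/
lemma far2 (h : Inp C δ) : ∃ K : ℝ, 1 ≤ K ∧ ∀ D1 k1 e : ℕ, 2 ^ (k1 + 4) ≤ D1 → k1 ≤ e →
    ∑ b2 ∈ range (k1 + 1), ∑ a2 ∈ Icc b2 (k1 + 1), ENNReal.ofReal ((2 : ℝ) ^ (kap0 / 4 * ((k1 : ℝ) + 1 - a2))) *
      (∑' r : ℕ, (if 2 ^ e < r then Rec8.sw (Irr r) (fun P => EE D1 b2 a2 P) else 0)) ≤ ENNReal.ofReal K := by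
  have hk := kap0_pos
  have hδ := h.pos
  obtain ⟨K3, hK3, h3⟩ := giant1 h
  obtain ⟨K4, hK4, h4⟩ := S2T h.pos
  refine ⟨K3 * K4, one_le_mul_of_one_le_of_one_le hK3 hK4, fun D1 k1 e hD hke => ?_⟩
  calc ∑ b2 ∈ range (k1 + 1), ∑ a2 ∈ Icc b2 (k1 + 1), ENNReal.ofReal ((2 : ℝ) ^ (kap0 / 4 * ((k1 : ℝ) + 1 - a2))) *
        (∑' r : ℕ, (if 2 ^ e < r then Rec8.sw (Irr r) (fun P => EE D1 b2 a2 P) else 0))
      ≤ ∑ b2 ∈ range (k1 + 1), ∑ a2 ∈ Icc b2 (k1 + 1), ENNReal.ofReal (K3 * X1 δ k1 e b2 a2) := by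
        refine Finset.sum_le_sum fun b2 hb2 => Finset.sum_le_sum fun a2 ha2 => ?_
        rw [Finset.mem_range] at hb2
        rw [Finset.mem_Icc] at ha2
        have hD2 : 2 ^ (a2 + 3) ≤ D1 := (Nat.pow_le_pow_right (by norm_num) (by omega)).trans hD
        refine (mul_le_mul' le_rfl (h3 D1 e a2 b2 ha2.1 hD2).1).trans ?_
        rw [← ENNReal.ofReal_mul (p_pos _).le]
        apply ENNReal.ofReal_le_ofReal
        unfold TT X1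
        have hUa := Ub_pos a2
        have hUe := Ub_pos e
        have e3 : (2 : ℝ) ^ (-(δ * ((min a2 e - b2 : ℕ) : ℝ))) ≤ (2 : ℝ) ^ (-(δ / 2 * ((min a2 e - b2 : ℕ) : ℝ))) := by
          apply p_mono
          have : (0 : ℝ) ≤ ((min a2 e - b2 : ℕ) : ℝ) := Nat.cast_nonneg _
          nlinarith
        have q1 := p_pos (kap0 / 4 * ((k1 : ℝ) + 1 - a2))
        have q2 := p_pos (kap0 / 8 * ((e - a2 : ℕ) : ℝ))
        calc (2 : ℝ) ^ (kap0 / 4 * ((k1 : ℝ) + 1 - a2)) * (K3 * (Ub a2 / Ub e *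
              (2 : ℝ) ^ (kap0 / 8 * ((e - a2 : ℕ) : ℝ)) * (2 : ℝ) ^ (-(δ * ((min a2 e - b2 : ℕ) : ℝ))))) ≤
            (2 : ℝ) ^ (kap0 / 4 * ((k1 : ℝ) + 1 - a2)) * (K3 * (Ub a2 / Ub e *
              (2 : ℝ) ^ (kap0 / 8 * ((e - a2 : ℕ) : ℝ)) * (2 : ℝ) ^ (-(δ / 2 * ((min a2 e - b2 : ℕ) : ℝ))))) := by
              gcongr
          _ = _ := by ring
    _ = ENNReal.ofReal (K3 * ∑ b2 ∈ range (k1 + 1), ∑ a2 ∈ Icc b2 (k1 + 1), X1 δ k1 e b2 a2) := by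
        have hnn : ∀ b2 a2 : ℕ, 0 ≤ K3 * X1 δ k1 e b2 a2 := fun b2 a2 => mul_nonneg (by linarith) (X1_nonneg _ _ _ _ _)
        rw [Finset.mul_sum, ENNReal.ofReal_sum_of_nonneg]
        · refine Finset.sum_congr rfl fun b2 _ => ?_
          rw [Finset.mul_sum, ENNReal.ofReal_sum_of_nonneg]
          exact fun a2 _ => hnn b2 a2
        · intro b2 _
          rw [Finset.mul_sum]
          exact Finset.sum_nonneg fun a2 _ => hnn b2 a2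
    _ ≤ _ := by
        apply ENNReal.ofReal_le_ofReal
        exact mul_le_mul_of_nonneg_left (h4 k1 e hke) (by linarith)

/-- the product of the second parts, two gains -/
lemma far22 (h : Inp C δ) : ∃ K : ℝ, 1 ≤ K ∧ ∀ D0 k0 D1 k1 e : ℕ, 2 ^ (k0 + 4) ≤ D0 → 2 ^ (k1 + 4) ≤ D1 → k0 ≤ e →
    k1 ≤ e → ∑ b2 ∈ range (k1 + 1), ∑ a2 ∈ Icc b2 (k1 + 1), ∑ b ∈ range (k0 + 1), ∑ a ∈ Icc b (k0 + 1),
      ENNReal.ofReal ((2 : ℝ) ^ (kap0 / 4 * ((k1 : ℝ) + 1 - a2))) *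
        (ENNReal.ofReal ((2 : ℝ) ^ (kap0 / 4 * ((k0 : ℝ) + 1 - a))) *
      (∑' r : ℕ, (if 2 ^ e < r then Rec8.sw (Irr r) (fun P => EE D1 b2 a2 P * EE D0 b a (rev P)) else 0))) ≤
      ENNReal.ofReal (K * Ub e) := by
  have hk := kap0_pos
  have hδ := h.pos
  obtain ⟨K2, hK2, h2⟩ := giant2 h
  obtain ⟨K4, hK4, h4⟩ := S2T h.pos
  refine ⟨K2 * (K4 * K4), one_le_mul_of_one_le_of_one_le hK2 (one_le_mul_of_one_le_of_one_le hK4 hK4),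
    fun D0 k0 D1 k1 e hD0 hD1 h0e h1e => ?_⟩
  have hUe := Ub_pos e
  have hnn : ∀ b2 a2 b a : ℕ, 0 ≤ K2 * (Ub e * (X1 δ k1 e b2 a2 * X1 δ k0 e b a)) := fun b2 a2 b a => by
    have := X1_nonneg δ k1 e b2 a2
    have := X1_nonneg δ k0 e b a
    positivity
  calc ∑ b2 ∈ range (k1 + 1), ∑ a2 ∈ Icc b2 (k1 + 1), ∑ b ∈ range (k0 + 1), ∑ a ∈ Icc b (k0 + 1),
      ENNReal.ofReal ((2 : ℝ) ^ (kap0 / 4 * ((k1 : ℝ) + 1 - a2))) *
        (ENNReal.ofReal ((2 : ℝ) ^ (kap0 / 4 * ((k0 : ℝ) + 1 - a))) *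
      (∑' r : ℕ, (if 2 ^ e < r then Rec8.sw (Irr r) (fun P => EE D1 b2 a2 P * EE D0 b a (rev P)) else 0)))
      ≤ ∑ b2 ∈ range (k1 + 1), ∑ a2 ∈ Icc b2 (k1 + 1), ∑ b ∈ range (k0 + 1), ∑ a ∈ Icc b (k0 + 1),
        ENNReal.ofReal (K2 * (Ub e * (X1 δ k1 e b2 a2 * X1 δ k0 e b a))) := by
        refine Finset.sum_le_sum fun b2 hb2 => Finset.sum_le_sum fun a2 ha2 =>
          Finset.sum_le_sum fun b hb => Finset.sum_le_sum fun a ha => ?_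
        rw [Finset.mem_range] at hb2 hb
        rw [Finset.mem_Icc] at ha2 ha
        have hE2 : 2 ^ (a2 + 3) ≤ D1 := (Nat.pow_le_pow_right (by norm_num) (by omega)).trans hD1
        have hE1 : 2 ^ (a + 3) ≤ D0 := (Nat.pow_le_pow_right (by norm_num) (by omega)).trans hD0
        refine (mul_le_mul' le_rfl (mul_le_mul' le_rfl (h2 D1 D0 e a2 b2 a b ha2.1 ha.1 hE2 hE1))).trans ?_
        rw [← ENNReal.ofReal_mul (p_pos _).le, ← ENNReal.ofReal_mul (p_pos _).le]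
        apply ENNReal.ofReal_le_ofReal
        have g := gain_prod hδ k1 k0 e a2 b2 a b
        calc (2 : ℝ) ^ (kap0 / 4 * ((k1 : ℝ) + 1 - a2)) * ((2 : ℝ) ^ (kap0 / 4 * ((k0 : ℝ) + 1 - a)) *
              (K2 * (Real.sqrt (TT (kap0 / 8) δ e a2 b2 * TT (kap0 / 8) δ e a b) * Real.sqrt (Ub a2 * Ub a))))
            = K2 * ((2 : ℝ) ^ (kap0 / 4 * ((k1 : ℝ) + 1 - a2)) * ((2 : ℝ) ^ (kap0 / 4 * ((k0 : ℝ) + 1 - a)) *
              (Real.sqrt (TT (kap0 / 8) δ e a2 b2 * TT (kap0 / 8) δ e a b) * Real.sqrt (Ub a2 * Ub a)))) := by ring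
          _ ≤ _ := mul_le_mul_of_nonneg_left g (by linarith)
    _ = ENNReal.ofReal (K2 * (Ub e * ((∑ b2 ∈ range (k1 + 1), ∑ a2 ∈ Icc b2 (k1 + 1), X1 δ k1 e b2 a2) *
          (∑ b ∈ range (k0 + 1), ∑ a ∈ Icc b (k0 + 1), X1 δ k0 e b a)))) := by
        have e1 : ∀ b2 a2 : ℕ, ∑ b ∈ range (k0 + 1), ∑ a ∈ Icc b (k0 + 1),
            ENNReal.ofReal (K2 * (Ub e * (X1 δ k1 e b2 a2 * X1 δ k0 e b a))) =
            ENNReal.ofReal (K2 * (Ub e * (X1 δ k1 e b2 a2 * ∑ b ∈ range (k0 + 1), ∑ a ∈ Icc b (k0 + 1), X1 δ k0 e b a))) := by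
          intro b2 a2
          have e2 : K2 * (Ub e * (X1 δ k1 e b2 a2 * ∑ b ∈ range (k0 + 1), ∑ a ∈ Icc b (k0 + 1), X1 δ k0 e b a)) =
              ∑ b ∈ range (k0 + 1), ∑ a ∈ Icc b (k0 + 1), K2 * (Ub e * (X1 δ k1 e b2 a2 * X1 δ k0 e b a)) := by
            simp only [Finset.mul_sum]
          rw [e2, ENNReal.ofReal_sum_of_nonneg (fun b _ => Finset.sum_nonneg fun a _ => hnn b2 a2 b a)]
          refine Finset.sum_congr rfl fun b _ => ?_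
          rw [ENNReal.ofReal_sum_of_nonneg (fun a _ => hnn b2 a2 b a)]
        simp only [e1]
        obtain ⟨Y, hY⟩ : ∃ Y, Y = ∑ b ∈ range (k0 + 1), ∑ a ∈ Icc b (k0 + 1), X1 δ k0 e b a := ⟨_, rfl⟩
        have hY0 : 0 ≤ Y := by
          rw [hY]
          exact Finset.sum_nonneg fun b _ => Finset.sum_nonneg fun a _ => X1_nonneg _ _ _ _ _
        rw [← hY]
        have e3 : K2 * (Ub e * ((∑ b2 ∈ range (k1 + 1), ∑ a2 ∈ Icc b2 (k1 + 1), X1 δ k1 e b2 a2) * Y)) =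
            ∑ b2 ∈ range (k1 + 1), ∑ a2 ∈ Icc b2 (k1 + 1), K2 * (Ub e * (X1 δ k1 e b2 a2 * Y)) := by
          simp only [Finset.sum_mul, Finset.mul_sum]
        have hnn2 : ∀ b2 a2 : ℕ, 0 ≤ K2 * (Ub e * (X1 δ k1 e b2 a2 * Y)) := fun b2 a2 => by
          have := X1_nonneg δ k1 e b2 a2
          positivity
        rw [e3, ENNReal.ofReal_sum_of_nonneg (fun b2 _ => Finset.sum_nonneg fun a2 _ => hnn2 b2 a2)]
        refine Finset.sum_congr rfl fun b2 _ => ?_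
        rw [ENNReal.ofReal_sum_of_nonneg (fun a2 _ => hnn2 b2 a2)]
    _ ≤ _ := by
        apply ENNReal.ofReal_le_ofReal
        have f1 := h4 k1 e h1e
        have f0 := h4 k0 e h0e
        have g1 : (∑ b2 ∈ range (k1 + 1), ∑ a2 ∈ Icc b2 (k1 + 1), X1 δ k1 e b2 a2) ≤ K4 := f1
        have g0 : (∑ b ∈ range (k0 + 1), ∑ a ∈ Icc b (k0 + 1), X1 δ k0 e b a) ≤ K4 := f0
        have n0 : 0 ≤ ∑ b ∈ range (k0 + 1), ∑ a ∈ Icc b (k0 + 1), X1 δ k0 e b a :=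
          Finset.sum_nonneg fun b _ => Finset.sum_nonneg fun a _ => X1_nonneg _ _ _ _ _
        calc K2 * (Ub e * ((∑ b2 ∈ range (k1 + 1), ∑ a2 ∈ Icc b2 (k1 + 1), X1 δ k1 e b2 a2) *
              (∑ b ∈ range (k0 + 1), ∑ a ∈ Icc b (k0 + 1), X1 δ k0 e b a))) ≤ K2 * (Ub e * (K4 * K4)) := by gcongr
          _ = _ := by ring

/-- the giants of two scales, seen from both sides -/
lemma kD (h : Inp C δ) : ∃ K : ℝ, 1 ≤ K ∧ ∀ D0 k0 D1 k1 e : ℕ, 2 ^ (k0 + 4) ≤ D0 → 2 ^ (k1 + 4) ≤ D1 → k0 ≤ e →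
    k1 ≤ e → ∑ b2 ∈ range (k1 + 1), ∑ a ∈ range (k0 + 1), ∑' r : ℕ, (if 2 ^ e < r then
      Rec8.sw (Irr r) (fun P => Sw D0 k0 a (rev P) * Sw D1 k1 b2 P) else 0) ≤ ENNReal.ofReal (K * Ub e) := by
  have hk := kap0_pos
  obtain ⟨Kf, hKf, hf⟩ := far h
  obtain ⟨K1, hK1, h1⟩ := far1
  obtain ⟨K2, hK2, h2⟩ := far2 h
  obtain ⟨K3, hK3, h3⟩ := far22 h
  refine ⟨K1 * Kf + (K1 * K2 + K3), by nlinarith [mul_nonneg (by linarith : (0:ℝ) ≤ K1) (by linarith : (0:ℝ) ≤ K2)],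
    fun D0 k0 D1 k1 e hD0 hD1 h0 h1e => ?_⟩
  have hUe := Ub_pos e
  have hU0 := Ub_pos k0
  have hU1 := Ub_pos k1
  have hUk0 : Ub k0 ≤ Ub e := Ub_mono h0
  have hUk1 : Ub k1 ≤ Ub e := Ub_mono h1e
  -- expansion of the far weight
  simp only [exp_Sw]
  simp only [Finset.sum_add_distrib]
  rw [add_mul, ENNReal.ofReal_add (by positivity) (by positivity)]
  refine add_le_add ?_ ?_
  · -- first part
    have e1 : ∀ a : ℕ, (∑' r : ℕ, (if 2 ^ e < r then Rec8.sw (Irr r) (fun P => Sw D0 k0 a (rev P)) else 0)) =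
        ∑' r : ℕ, (if 2 ^ e < r then Rec8.sw (Irr r) (fun P => (fun _ => (1 : ℝ≥0∞)) P * Sw D0 k0 a P) else 0) := by
      intro a
      refine tsum_congr fun r => ?_
      split_ifs
      · rw [sw_rev (Irr r) (fun t ht => Irr_rev ht) (fun P => Sw D0 k0 a P)]
        exact Rec8.sw_congr fun P _ => (one_mul _).symm
      · rfl
    simp only [e1]
    simp only [← Finset.mul_sum]
    rw [← Finset.sum_mul]
    refine (mul_le_mul' (h1 k1) (hf D0 k0 e hD0 h0)).trans ?_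
    rw [← ENNReal.ofReal_mul (by positivity)]
    apply ENNReal.ofReal_le_ofReal
    calc K1 * Ub k1 * Kf = K1 * Kf * Ub k1 := by ring
      _ ≤ K1 * Kf * Ub e := by gcongr
  · -- second part
    have e2 : ∀ (a b2 a2 : ℕ), (∑' r : ℕ, (if 2 ^ e < r then
        Rec8.sw (Irr r) (fun P => Sw D0 k0 a (rev P) * EE D1 b2 a2 (rev P)) else 0)) =
        ENNReal.ofReal ((2 : ℝ) ^ (kap0 / 4 * ((k0 : ℝ) - a)) * Ub a) *
          (∑' r : ℕ, (if 2 ^ e < r then Rec8.sw (Irr r) (fun P => EE D1 b2 a2 P) else 0)) +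
        ∑ a3 ∈ Icc a (k0 + 1), ENNReal.ofReal ((2 : ℝ) ^ (kap0 / 4 * ((k0 : ℝ) + 1 - a3))) *
        (∑' r : ℕ, (if 2 ^ e < r then Rec8.sw (Irr r) (fun P => EE D1 b2 a2 P * EE D0 a a3 (rev P)) else 0)) := by
      intro a b2 a2
      rw [← exp_Sw]
      refine tsum_congr fun r => ?_
      split_ifs
      · rw [sw_rev (Irr r) (fun t ht => Irr_rev ht) (fun P => Sw D0 k0 a P * EE D1 b2 a2 P)]
        exact Rec8.sw_congr fun P _ => mul_comm _ _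
      · rfl
    simp only [e2]
    obtain ⟨Y1, hY1⟩ : ∃ Y1 : ℕ → ℕ → ℝ≥0∞, Y1 = fun b2 a2 =>
      (∑' r : ℕ, (if 2 ^ e < r then Rec8.sw (Irr r) (fun P => EE D1 b2 a2 P) else 0)) := ⟨_, rfl⟩
    obtain ⟨Y2, hY2⟩ : ∃ Y2 : ℕ → ℕ → ℕ → ℕ → ℝ≥0∞, Y2 = fun b2 a2 a a3 =>
      (∑' r : ℕ, (if 2 ^ e < r then Rec8.sw (Irr r) (fun P => EE D1 b2 a2 P * EE D0 a a3 (rev P)) else 0)) := ⟨_, rfl⟩
    have f1 := h2 D1 k1 e hD1 h1e
    have f2 := h3 D0 k0 D1 k1 e hD0 hD1 h0 h1e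
    have g1 : ∑ b2 ∈ range (k1 + 1), ∑ a2 ∈ Icc b2 (k1 + 1),
        ENNReal.ofReal ((2 : ℝ) ^ (kap0 / 4 * ((k1 : ℝ) + 1 - a2))) * Y1 b2 a2 ≤ ENNReal.ofReal K2 := by
      rw [hY1]
      exact f1
    have g2 : ∑ b2 ∈ range (k1 + 1), ∑ a2 ∈ Icc b2 (k1 + 1), ∑ b ∈ range (k0 + 1), ∑ a ∈ Icc b (k0 + 1),
      ENNReal.ofReal ((2 : ℝ) ^ (kap0 / 4 * ((k1 : ℝ) + 1 - a2))) *
        (ENNReal.ofReal ((2 : ℝ) ^ (kap0 / 4 * ((k0 : ℝ) + 1 - a))) * Y2 b2 a2 b a) ≤ ENNReal.ofReal (K3 * Ub e) := by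
      rw [hY2]
      exact f2
    have g0 : ∑ b2 ∈ range (k1 + 1), ∑ a ∈ range (k0 + 1), ∑ a2 ∈ Icc b2 (k1 + 1),
        ENNReal.ofReal ((2 : ℝ) ^ (kap0 / 4 * ((k1 : ℝ) + 1 - a2))) *
          (ENNReal.ofReal ((2 : ℝ) ^ (kap0 / 4 * ((k0 : ℝ) - a)) * Ub a) * Y1 b2 a2 +
          ∑ a3 ∈ Icc a (k0 + 1), ENNReal.ofReal ((2 : ℝ) ^ (kap0 / 4 * ((k0 : ℝ) + 1 - a3))) * Y2 b2 a2 a a3) =
        (∑ a ∈ range (k0 + 1), ENNReal.ofReal ((2 : ℝ) ^ (kap0 / 4 * ((k0 : ℝ) - a)) * Ub a)) *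
          (∑ b2 ∈ range (k1 + 1), ∑ a2 ∈ Icc b2 (k1 + 1),
            ENNReal.ofReal ((2 : ℝ) ^ (kap0 / 4 * ((k1 : ℝ) + 1 - a2))) * Y1 b2 a2) +
        ∑ b2 ∈ range (k1 + 1), ∑ a2 ∈ Icc b2 (k1 + 1), ∑ b ∈ range (k0 + 1), ∑ a ∈ Icc b (k0 + 1),
          ENNReal.ofReal ((2 : ℝ) ^ (kap0 / 4 * ((k1 : ℝ) + 1 - a2))) *
            (ENNReal.ofReal ((2 : ℝ) ^ (kap0 / 4 * ((k0 : ℝ) + 1 - a))) * Y2 b2 a2 b a) := by
      rw [Finset.mul_sum, ← Finset.sum_add_distrib]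
      refine Finset.sum_congr rfl fun b2 _ => ?_
      rw [Finset.sum_comm, Finset.mul_sum, ← Finset.sum_add_distrib]
      refine Finset.sum_congr rfl fun a2 _ => ?_
      rw [Finset.sum_mul, ← Finset.sum_add_distrib]
      refine Finset.sum_congr rfl fun a _ => ?_
      rw [mul_add, Finset.mul_sum]
      congr 1
      ring
    have e4 : ∑ b2 ∈ range (k1 + 1), ∑ a ∈ range (k0 + 1), ∑ a2 ∈ Icc b2 (k1 + 1),
        ENNReal.ofReal ((2 : ℝ) ^ (kap0 / 4 * ((k1 : ℝ) + 1 - a2))) *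
          (ENNReal.ofReal ((2 : ℝ) ^ (kap0 / 4 * ((k0 : ℝ) - a)) * Ub a) * Y1 b2 a2 +
          ∑ a3 ∈ Icc a (k0 + 1), ENNReal.ofReal ((2 : ℝ) ^ (kap0 / 4 * ((k0 : ℝ) + 1 - a3))) * Y2 b2 a2 a a3) ≤
        ENNReal.ofReal ((K1 * K2 + K3) * Ub e) := by
      rw [g0]
      refine (add_le_add (mul_le_mul' (h1 k0) g1) g2).trans ?_
      rw [← ENNReal.ofReal_mul (by positivity), ← ENNReal.ofReal_add (by positivity) (by positivity)]
      apply ENNReal.ofReal_le_ofReal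
      have : K1 * Ub k0 * K2 ≤ K1 * K2 * Ub e := by
        calc K1 * Ub k0 * K2 = K1 * K2 * Ub k0 := by ring
          _ ≤ K1 * K2 * Ub e := by gcongr
      linarith
    rw [hY1, hY2] at e4
    exact e4

end TW

open TW in
/-- the sum over a leaf of a functional of its head and a functional of its tail -/
theorem two_sided (h : Inp C δ) : ∃ K : ℝ, 1 ≤ K ∧ ∀ (D0 k0 D1 k1 E N : ℕ) (Ψ Φ : List Bool → ℝ≥0∞), Hered Ψ →
    Hered Φ → 2 ^ (k0 + 4) ≤ D0 → 2 ^ (k1 + 4) ≤ D1 → D0 ≤ E → D1 ≤ E → E ≤ N →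
    Rec8.sw (BrR E N) (fun g => Ψ (rev g) * Φ g) ≤ ENNReal.ofReal (K * UU N) * (xT D0 k0 Ψ * xT D1 k1 Φ) := by
  obtain ⟨Kr, hKr, hrest⟩ := rest2 h
  obtain ⟨Ke, hKe, hends⟩ := endsH h
  obtain ⟨Kd, hKd, hd⟩ := kD h
  refine ⟨Kr * Ke + Kd, by nlinarith, fun D0 k0 D1 k1 E N Ψ Φ hΨ hΦ hD0 hD1 h0E h1E hEN => ?_⟩
  obtain ⟨e, he⟩ : ∃ e, e = max k0 k1 := ⟨_, rfl⟩
  have he0 : k0 ≤ e := by rw [he]; exact le_max_left _ _
  have he1 : k1 ≤ e := by rw [he]; exact le_max_right _ _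
  have heE : 2 ^ (e + 4) ≤ E := by
    rcases le_total k0 k1 with hc | hc
    · have : e = k1 := by rw [he]; exact max_eq_right hc
      rw [this]
      omega
    · have : e = k0 := by rw [he]; exact max_eq_left hc
      rw [this]
      omega
  have hp4 : 2 ^ (e + 4) = 8 * 2 ^ (e + 1) := by ring
  have hp1 : 2 ^ (e + 1) = 2 * 2 ^ e := by ring
  have hp0 : 1 ≤ 2 ^ e := Nat.one_le_two_pow
  have hk0e : 2 ^ (k0 + 1) ≤ 2 ^ (e + 1) := Nat.pow_le_pow_right (by norm_num) (by omega)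
  have hk1e : 2 ^ (k1 + 1) ≤ 2 ^ (e + 1) := Nat.pow_le_pow_right (by norm_num) (by omega)
  obtain ⟨x, hx⟩ : ∃ x, x = xT D1 k1 Φ := ⟨_, rfl⟩
  obtain ⟨y, hy⟩ : ∃ y, y = xT D0 k0 Ψ := ⟨_, rfl⟩
  obtain ⟨A, hA⟩ : ∃ A, A = ENNReal.ofReal (Kr * UU N) := ⟨_, rfl⟩
  -- the level near the bottom
  have s1 : Rec8.sw (BrR E N) (fun g => Ψ (rev g) * Φ g) ≤ ∑' n : ℕ, ∑' r : ℕ, mu k0 n r * Rec8.sw (Brd n) (fun X =>
      Rec8.sw (Irr r) (fun P => Ψ (rev P ++ rev X) *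
        (x * ((if 2 ^ e < r then ∑ b2 ∈ range (k1 + 1), Sw D1 k1 b2 P else 0) + A)))) := by
    refine (inR (j := k0) (D := E) (N := N) (by omega) _).trans ?_
    refine ENNReal.tsum_le_tsum fun n => ENNReal.tsum_le_tsum fun r => ?_
    by_cases hn : 2 ^ (k0 + 1) ≤ n
    · rw [mu_eq_zero hn, zero_mul, zero_mul]
    refine mul_le_mul_right (Rec8.sw_mono' fun X hX => Rec8.sw_mono' fun P hP => ?_) _
    have h1 := hrest D1 E N k1 n r Φ P hΦ hD1 h1E (by omega) hP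
    have h2 : Rec8.sw {Z | Z ∈ BU ∧ X ++ (P ++ Z) ∈ BrR E N} (fun Z => Ψ (rev (X ++ (P ++ Z))) * Φ (X ++ (P ++ Z))) ≤
        Ψ (rev P ++ rev X) * Rec8.sw {Z | Z ∈ BU ∧ ∃ Y ∈ Brd n, Y ++ (P ++ Z) ∈ BrR E N} (fun Z => Φ (P ++ Z)) := by
      rw [← Rec8.sw_mul_left]
      refine Rec8.sw_mono (fun Z hZ => ⟨hZ.1, X, hX, hZ.2⟩) fun Z hZ => ?_
      refine mul_le_mul' ?_ (hΦ X ⟨n, hX⟩ _)
      rw [rev_append, rev_append, List.append_assoc]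
      obtain ⟨z, hz⟩ := hZ.1
      exact hΨ (rev Z) ⟨z, Brd_rev hz⟩ _
    refine h2.trans (mul_le_mul_right (h1.trans ?_) _)
    rw [← hx, ← hA]
    refine mul_le_mul_right (add_le_add ?_ le_rfl) x
    by_cases h3 : E ≤ n + r + 2 ^ (k1 + 1)
    · rw [if_pos h3, if_pos (by omega)]
    · rw [if_neg h3]
      exact zero_le
  refine s1.trans ?_
  -- reversal of X and exchange of the sums
  have s2 : ∀ n r : ℕ, Rec8.sw (Brd n) (fun X => Rec8.sw (Irr r) (fun P => Ψ (rev P ++ rev X) *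
        (x * ((if 2 ^ e < r then ∑ b2 ∈ range (k1 + 1), Sw D1 k1 b2 P else 0) + A)))) =
      Rec8.sw (Irr r) (fun P => (x * ((if 2 ^ e < r then ∑ b2 ∈ range (k1 + 1), Sw D1 k1 b2 P else 0) + A)) *
        Rec8.sw (Brd n) (fun M => Ψ (rev P ++ M))) := by
    intro n r
    rw [Rec8.sw_comm]
    refine Rec8.sw_congr fun P _ => ?_
    rw [← Rec8.sw_mul_left, ← sw_rev (Brd n) (fun t ht => Brd_rev ht)
      (fun M => (x * ((if 2 ^ e < r then ∑ b2 ∈ range (k1 + 1), Sw D1 k1 b2 P else 0) + A)) * Ψ (rev P ++ M))]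
    exact Rec8.sw_congr fun X _ => mul_comm _ _
  simp only [s2]
  -- the two parts
  have s3 : ∀ r : ℕ, ∑' n : ℕ, mu k0 n r * Rec8.sw (Irr r) (fun P =>
      (x * ((if 2 ^ e < r then ∑ b2 ∈ range (k1 + 1), Sw D1 k1 b2 P else 0) + A)) *
        Rec8.sw (Brd n) (fun M => Ψ (rev P ++ M))) ≤
      x * (y * ∑ b2 ∈ range (k1 + 1), ∑ a ∈ range (k0 + 1), (if 2 ^ e < r then
        Rec8.sw (Irr r) (fun P => Sw D0 k0 a (rev P) * Sw D1 k1 b2 P) else 0)) +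
      x * (A * ∑' n : ℕ, mu k0 n r * Rec8.sw (Irr r) (fun P => Rec8.sw (Brd n) (fun M => Ψ (P ++ M)))) := by
    intro r
    have e1 : ∀ n : ℕ, Rec8.sw (Irr r) (fun P => (x * ((if 2 ^ e < r then ∑ b2 ∈ range (k1 + 1), Sw D1 k1 b2 P else 0) + A)) *
        Rec8.sw (Brd n) (fun M => Ψ (rev P ++ M))) =
        Rec8.sw (Irr r) (fun P => x * ((if 2 ^ e < r then ∑ b2 ∈ range (k1 + 1), Sw D1 k1 b2 P else 0) *
          Rec8.sw (Brd n) (fun M => Ψ (rev P ++ M)))) +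
        x * (A * Rec8.sw (Irr r) (fun P => Rec8.sw (Brd n) (fun M => Ψ (P ++ M)))) := by
      intro n
      rw [← sw_rev (Irr r) (fun t ht => Irr_rev ht) (fun P => Rec8.sw (Brd n) (fun M => Ψ (P ++ M))),
        ← Rec8.sw_mul_left, ← Rec8.sw_mul_left, ← Rec8.sw_add]
      refine Rec8.sw_congr fun P _ => ?_
      ring
    have e1' : ∀ n : ℕ, mu k0 n r * Rec8.sw (Irr r) (fun P => (x * ((if 2 ^ e < r then
        ∑ b2 ∈ range (k1 + 1), Sw D1 k1 b2 P else 0) + A)) * Rec8.sw (Brd n) (fun M => Ψ (rev P ++ M))) =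
        mu k0 n r * Rec8.sw (Irr r) (fun P => x * ((if 2 ^ e < r then ∑ b2 ∈ range (k1 + 1), Sw D1 k1 b2 P else 0) *
          Rec8.sw (Brd n) (fun M => Ψ (rev P ++ M)))) +
        mu k0 n r * (x * (A * Rec8.sw (Irr r) (fun P => Rec8.sw (Brd n) (fun M => Ψ (P ++ M))))) := fun n => by
      rw [e1 n, mul_add]
    rw [tsum_congr e1', ENNReal.tsum_add]
    refine add_le_add ?_ ?_
    · rw [tsum_pull (Irr r) (fun n => mu k0 n r) x (fun P => if 2 ^ e < r then ∑ b2 ∈ range (k1 + 1), Sw D1 k1 b2 P else 0)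
        (fun n P => Rec8.sw (Brd n) (fun M => Ψ (rev P ++ M)))]
      have e3 : Rec8.sw (Irr r) (fun P => x * ((if 2 ^ e < r then ∑ b2 ∈ range (k1 + 1), Sw D1 k1 b2 P else 0) *
            ∑' n : ℕ, mu k0 n r * Rec8.sw (Brd n) (fun M => Ψ (rev P ++ M)))) ≤
          Rec8.sw (Irr r) (fun P => x * ((if 2 ^ e < r then ∑ b2 ∈ range (k1 + 1), Sw D1 k1 b2 P else 0) *
            (y * ∑ a ∈ range (k0 + 1), Sw D0 k0 a (rev P)))) := by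
        refine Rec8.sw_mono' fun P hP => mul_le_mul_right (mul_le_mul_right ?_ _) _
        refine (endH (D := D0) (k := k0) le_rfl r (Irr_rev hP) Ψ).trans ?_
        rw [Finset.mul_sum]
        refine Finset.sum_le_sum fun a _ => ?_
        rw [← hy]
        calc mb k0 a r * (y * Sw D0 k0 a (rev P)) ≤ 1 * (y * Sw D0 k0 a (rev P)) :=
              mul_le_mul_left (mb_le_one _ _ _) _
          _ = _ := one_mul _
      refine e3.trans (le_of_eq ?_)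
      by_cases hr : 2 ^ e < r
      · simp only [if_pos hr]
        exact sum_pull (Irr r) x y (k1 + 1) (k0 + 1) (fun a P => Sw D0 k0 a (rev P)) (fun b2 P => Sw D1 k1 b2 P)
      · simp only [if_neg hr]
        simp [Rec8.sw_zero]
    · rw [← ENNReal.tsum_mul_left, ← ENNReal.tsum_mul_left]
      refine ENNReal.tsum_le_tsum fun n => le_of_eq ?_
      ring
  rw [ENNReal.tsum_comm]
  refine (ENNReal.tsum_le_tsum s3).trans ?_
  rw [ENNReal.tsum_add, ENNReal.tsum_mul_left, ENNReal.tsum_mul_left, ENNReal.tsum_mul_left, ENNReal.tsum_mul_left]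
  have t1 : ∑' r : ℕ, ∑ b2 ∈ range (k1 + 1), ∑ a ∈ range (k0 + 1), (if 2 ^ e < r then
        Rec8.sw (Irr r) (fun P => Sw D0 k0 a (rev P) * Sw D1 k1 b2 P) else 0) ≤ ENNReal.ofReal (Kd * Ub e) := by
    refine le_trans (le_of_eq ?_) (hd D0 k0 D1 k1 e hD0 hD1 he0 he1)
    rw [Summable.tsum_finsetSum (fun _ _ => ENNReal.summable)]
    refine Finset.sum_congr rfl fun b2 _ => ?_
    rw [Summable.tsum_finsetSum (fun _ _ => ENNReal.summable)]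
  have t2 : ∑' r : ℕ, ∑' n : ℕ, mu k0 n r * Rec8.sw (Irr r) (fun P => Rec8.sw (Brd n) (fun M => Ψ (P ++ M))) ≤
      ENNReal.ofReal Ke * y := by
    rw [ENNReal.tsum_comm, hy]
    exact hends D0 k0 Ψ hD0
  have hUe := Ub_pos e
  have hUN : 0 < UU N := Num2Aux.UU_pos N
  have hUeN : Ub e ≤ UU N := Num2Aux.UU_mono (by omega)
  calc x * (y * ∑' r : ℕ, ∑ b2 ∈ range (k1 + 1), ∑ a ∈ range (k0 + 1), (if 2 ^ e < r then
        Rec8.sw (Irr r) (fun P => Sw D0 k0 a (rev P) * Sw D1 k1 b2 P) else 0)) +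
      x * (A * ∑' r : ℕ, ∑' n : ℕ, mu k0 n r * Rec8.sw (Irr r) (fun P => Rec8.sw (Brd n) (fun M => Ψ (P ++ M))))
      ≤ x * (y * ENNReal.ofReal (Kd * Ub e)) + x * (A * (ENNReal.ofReal Ke * y)) := by gcongr
    _ = ENNReal.ofReal (Kr * Ke * UU N + Kd * Ub e) * (y * x) := by
        rw [hA, ENNReal.ofReal_add (by positivity) (by positivity), mul_assoc Kr, mul_comm Ke (UU N), ← mul_assoc Kr,
          ENNReal.ofReal_mul (p := Kr * UU N) (by positivity)]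
        ring
    _ ≤ ENNReal.ofReal ((Kr * Ke + Kd) * UU N) * (xT D0 k0 Ψ * xT D1 k1 Φ) := by
        rw [hx, hy]
        refine mul_le_mul_left (ENNReal.ofReal_le_ofReal ?_) _
        have : Kd * Ub e ≤ Kd * UU N := mul_le_mul_of_nonneg_left hUeN (by linarith)
        linarith

end NTW

end HexObs
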