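import Pool.Agent.NTW.DomO
import Pool.Agent.NTW.KernG
import Pool.Agent.NTW.TwoS

/-!
NTW, kernel bounds for the universal weight SS (all scales up to k together): ss3, ss3J, ssD, and ssA from the upper
bound UpG of the growth of the renewal function.
-/

set_option autoImplicit false

namespace HexObs

namespace NTW

open Finset TS SDN

open scoped ENNReal



variable {C δ : ℝ}

/-- upper bound of the growth of the renewal function -/
def UpG : Prop := ∃ K : ℝ, 1 ≤ K ∧ ∀ l k : ℕ, l ≤ k → Ub k ≤ K * (2 : ℝ) ^ (3 / 4 * ((k : ℝ) - l)) * Ub l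

namespace KS

open SDN.TK KG

/-- expansion of the universal weight -/
lemma exp_SS (k e : ℕ) (F : List Bool → ℝ≥0∞) :
    (∑' r : ℕ, (if 2 ^ e < r then Rec8.sw (Irr r) (fun P => F P * SS k P) else 0)) =
      ∑ j ∈ range (k + 1), ∑ b ∈ range (j + 1), ∑' r : ℕ, (if 2 ^ e < r then
        Rec8.sw (Irr r) (fun P => F P * Sw (2 ^ (j + 4)) j b P) else 0) := by
  have e1 : ∀ r : ℕ, (if 2 ^ e < r then Rec8.sw (Irr r) (fun P => F P * SS k P) else 0) =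
      ∑ j ∈ range (k + 1), ∑ b ∈ range (j + 1), (if 2 ^ e < r then
        Rec8.sw (Irr r) (fun P => F P * Sw (2 ^ (j + 4)) j b P) else 0) := by
    intro r
    by_cases hr : 2 ^ e < r
    · simp only [if_pos hr]
      unfold SS
      simp only [Finset.mul_sum]
      rw [Rec8.sw_sum]
      exact Finset.sum_congr rfl fun j _ => Rec8.sw_sum _ _ _
    · simp [hr]
  rw [tsum_congr e1, Summable.tsum_finsetSum (fun _ _ => ENNReal.summable)]
  exact Finset.sum_congr rfl fun j _ => Summable.tsum_finsetSum (fun _ _ => ENNReal.summable)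

lemma gnk_le_one {k e : ℕ} (h : k ≤ e) : gnk k e ≤ 1 := by
  have hk := kap0_pos
  have hke : (k : ℝ) ≤ e := by exact_mod_cast h
  unfold gnk
  rw [← Real.rpow_zero 2]
  apply p_mono
  nlinarith

/-- geometric sum of the gains -/
lemma sum_gnk : ∃ K : ℝ, 1 ≤ K ∧ ∀ (k e : ℕ) (A : ℝ) (X : ℕ → ℝ≥0∞), 0 ≤ A →
    (∀ j, j ≤ k → X j ≤ ENNReal.ofReal (A * gnk j e)) →
    ∑ j ∈ range (k + 1), X j ≤ ENNReal.ofReal (A * (K * gnk k e)) := by
  have hk := kap0_pos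
  obtain ⟨K, hK, hg⟩ := geo_low (c := kap0 / 2) (by linarith)
  refine ⟨K, hK, fun k e A X hA hX => ?_⟩
  calc ∑ j ∈ range (k + 1), X j ≤ ∑ j ∈ range (k + 1), ENNReal.ofReal (A * gnk j e) := by
        refine Finset.sum_le_sum fun j hj => hX j ?_
        rw [Finset.mem_range] at hj
        omega
    _ = ENNReal.ofReal (∑ j ∈ range (k + 1), A * gnk j e) := by
        rw [ENNReal.ofReal_sum_of_nonneg]
        exact fun j _ => mul_nonneg hA (gnk_pos j e).le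
    _ ≤ _ := by
        apply ENNReal.ofReal_le_ofReal
        rw [← Finset.mul_sum]
        refine mul_le_mul_of_nonneg_left ?_ hA
        calc ∑ j ∈ range (k + 1), gnk j e = (∑ j ∈ range (k + 1), (2 : ℝ) ^ (-(kap0 / 2 * ((k - j : ℕ) : ℝ)))) * gnk k e := by
              rw [Finset.sum_mul]
              refine Finset.sum_congr rfl fun j hj => ?_
              rw [Finset.mem_range] at hj
              unfold gnk
              rw [← Real.rpow_add two_pos, Nat.cast_sub (by omega)]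
              congr 1
              ring
          _ ≤ K * gnk k e := mul_le_mul_of_nonneg_right (hg k) (gnk_pos k e).le

/-- the giants of the universal weight -/
lemma farS (h : Inp C δ) : ∃ K : ℝ, 1 ≤ K ∧ ∀ k e : ℕ, k ≤ e →
    (∑' r : ℕ, (if 2 ^ e < r then Rec8.sw (Irr r) (fun P => (fun _ => 1) P * SS k P) else 0)) ≤
      ENNReal.ofReal (K * gnk k e) := by
  obtain ⟨K1, hK1, h1⟩ := farG h
  obtain ⟨K2, hK2, h2⟩ := sum_gnk
  refine ⟨K1 * K2, one_le_mul_of_one_le_of_one_le hK1 hK2, fun k e hke => ?_⟩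
  rw [exp_SS, mul_assoc]
  exact h2 k e K1 _ (by linarith) fun j hj => h1 (2 ^ (j + 4)) j e le_rfl (hj.trans hke)

/-- one value a ≤ b: the giant P is used at both ends -/
lemma loS (h : Inp C δ) : ∃ K : ℝ, 1 ≤ K ∧ ∀ D0 k0 k1 e b a : ℕ, 2 ^ (k0 + 4) ≤ D0 → k0 ≤ e →
    k1 ≤ e → b ≤ k0 → a ≤ b →
    (∑' r : ℕ, (if 2 ^ e < r then Rec8.sw (Irr r) (fun P => EE D0 a b P * SS k1 P) else 0)) ≤
      ENNReal.ofReal (K * (Ub b * (2 : ℝ) ^ (kap0 / 8 * ((e : ℝ) - b)) * (2 : ℝ) ^ (-(δ / 2 * ((b - a : ℕ) : ℝ)))) *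
        gnk k1 e) := by
  obtain ⟨K1, hK1, h1⟩ := loG h
  obtain ⟨K2, hK2, h2⟩ := sum_gnk
  refine ⟨K1 * K2, one_le_mul_of_one_le_of_one_le hK1 hK2, fun D0 k0 k1 e b a hD0 hk0 hk1 hb ha => ?_⟩
  rw [exp_SS]
  have hUb := Ub_pos b
  have hP := p_pos (kap0 / 8 * ((e : ℝ) - b))
  have hQ := p_pos (-(δ / 2 * ((b - a : ℕ) : ℝ)))
  have e1 : K1 * K2 * (Ub b * (2 : ℝ) ^ (kap0 / 8 * ((e : ℝ) - b)) * (2 : ℝ) ^ (-(δ / 2 * ((b - a : ℕ) : ℝ)))) *
      gnk k1 e = K1 * (Ub b * (2 : ℝ) ^ (kap0 / 8 * ((e : ℝ) - b)) * (2 : ℝ) ^ (-(δ / 2 * ((b - a : ℕ) : ℝ)))) *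
      (K2 * gnk k1 e) := by ring
  rw [e1]
  exact h2 k1 e _ _ (by positivity) fun j hj => h1 D0 k0 (2 ^ (j + 4)) j e b a hD0 le_rfl hk0 (hj.trans hk1) hb ha

end KS

open KS KG in
open SDN.TK in
/-- the giants next to a fold, universal weight -/
theorem ss3 (h : Inp C δ) : ∃ K : ℝ, 1 ≤ K ∧ ∀ (D0 k0 k1 e b : ℕ) (I : List Bool), 2 ^ (k0 + 4) ≤ D0 → k0 ≤ e →
    k1 ≤ e → b ≤ k0 →
    ∑ a ∈ range (k0 + 2), ∑' r : ℕ, (if 2 ^ e < r then Rec8.sw (Irr r) (fun P => KT D0 b I a P * SS k1 P) else 0) ≤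
      ENNReal.ofReal (K * (Ub e / Ub k0)) * Sw D0 k0 b I := by
  have hk := kap0_pos
  have hδ := h.pos
  obtain ⟨K1, hK1, h1⟩ := farS h
  obtain ⟨K2, hK2, h2⟩ := loS h
  obtain ⟨K3, hK3, h3⟩ := geo_low (c := δ / 2) (by linarith)
  refine ⟨2 * K2 * K3 + K1, by nlinarith, fun D0 k0 k1 e b I hD0 hk0 hk1 hb => ?_⟩
  have hUe := Ub_pos e
  have hUk := Ub_pos k0
  have hUb := Ub_pos b
  have hbk' : (b : ℝ) ≤ k0 := by exact_mod_cast hb
  have hke' : (k0 : ℝ) ≤ e := by exact_mod_cast hk0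
  have hR : 1 ≤ Ub e / Ub k0 := (one_le_div hUk).2 (Ub_mono hk0)
  have hgg := gnk_pos k1 e
  have hg1 := gnk_le_one hk1
  have hsplit : range (k0 + 2) = range (b + 1) ∪ Icc (b + 1) (k0 + 1) := by
    ext a
    simp only [Finset.mem_union, Finset.mem_range, Finset.mem_Icc]
    omega
  have hdisj : Disjoint (range (b + 1)) (Icc (b + 1) (k0 + 1)) := by
    rw [Finset.disjoint_left]
    intro a ha ha'
    rw [Finset.mem_range] at ha
    rw [Finset.mem_Icc] at ha'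
    omega
  rw [hsplit, Finset.sum_union hdisj]
  have e1 : ∑ a ∈ range (b + 1), ∑' r : ℕ, (if 2 ^ e < r then
      Rec8.sw (Irr r) (fun P => KT D0 b I a P * SS k1 P) else 0) ≤
      ENNReal.ofReal (2 * K2 * K3 * (Ub e / Ub k0)) * ENNReal.ofReal ((2 : ℝ) ^ (kap0 / 4 * ((k0 : ℝ) - b)) * Ub b) := by
    calc ∑ a ∈ range (b + 1), ∑' r : ℕ, (if 2 ^ e < r then
          Rec8.sw (Irr r) (fun P => KT D0 b I a P * SS k1 P) else 0)
        ≤ ∑ a ∈ range (b + 1), ENNReal.ofReal (K2 * (Ub b * (2 : ℝ) ^ (kap0 / 8 * ((e : ℝ) - b)) *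
            (2 : ℝ) ^ (-(δ / 2 * ((b - a : ℕ) : ℝ))))) := by
          refine Finset.sum_le_sum fun a ha => ?_
          rw [Finset.mem_range] at ha
          refine le_trans (ENNReal.tsum_le_tsum fun r => ?_)
            ((h2 D0 k0 k1 e b a hD0 hk0 hk1 hb (by omega)).trans (ENNReal.ofReal_le_ofReal
              (mul_le_of_le_one_right (by positivity) hg1)))
          split_ifs
          · exact Rec8.sw_mono' fun P _ => mul_le_mul' (KT_le_right D0 b I a P) le_rfl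
          · exact le_rfl
      _ = ENNReal.ofReal (∑ a ∈ range (b + 1), K2 * (Ub b * (2 : ℝ) ^ (kap0 / 8 * ((e : ℝ) - b)) *
            (2 : ℝ) ^ (-(δ / 2 * ((b - a : ℕ) : ℝ))))) := by
          rw [ENNReal.ofReal_sum_of_nonneg]
          intro a _
          positivity
      _ ≤ _ := by
          rw [← ENNReal.ofReal_mul (by positivity)]
          apply ENNReal.ofReal_le_ofReal
          have g1 := h3 b
          have g2 : (2 : ℝ) ^ (kap0 / 8 * ((e : ℝ) - b)) ≤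
              2 * (Ub e / Ub k0) * (2 : ℝ) ^ (kap0 / 4 * ((k0 : ℝ) - b)) := by
            have g3 : (2 : ℝ) ^ (kap0 / 8 * ((e : ℝ) - b)) =
                (2 : ℝ) ^ (kap0 / 8 * ((e : ℝ) - k0)) * (2 : ℝ) ^ (kap0 / 8 * ((k0 : ℝ) - b)) := by
              rw [← Real.rpow_add two_pos]
              congr 1
              ring
            have g4 : (2 : ℝ) ^ (kap0 / 8 * ((e : ℝ) - k0)) ≤ 2 * (Ub e / Ub k0) := by
              have g5 := ratio hk0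
              have g6 : (2 : ℝ) ^ (kap0 / 8 * ((e : ℝ) - k0)) =
                  ((2 : ℝ) ^ (kap0 / 8 * ((e : ℝ) - k0)) * (Ub k0 / Ub e)) * (Ub e / Ub k0) := by
                field_simp
              rw [g6]
              exact mul_le_mul_of_nonneg_right g5 (by positivity)
            have g7 : (2 : ℝ) ^ (kap0 / 8 * ((k0 : ℝ) - b)) ≤ (2 : ℝ) ^ (kap0 / 4 * ((k0 : ℝ) - b)) := by
              apply p_mono
              nlinarith
            rw [g3]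
            exact mul_le_mul g4 g7 (p_pos _).le (by positivity)
          have g8 : ∑ a ∈ range (b + 1), K2 * (Ub b * (2 : ℝ) ^ (kap0 / 8 * ((e : ℝ) - b)) *
            (2 : ℝ) ^ (-(δ / 2 * ((b - a : ℕ) : ℝ)))) = K2 * (Ub b * (2 : ℝ) ^ (kap0 / 8 * ((e : ℝ) - b)) *
            ∑ a ∈ range (b + 1), (2 : ℝ) ^ (-(δ / 2 * ((b - a : ℕ) : ℝ)))) := by
            rw [Finset.mul_sum, Finset.mul_sum]
          rw [g8]
          calc K2 * (Ub b * (2 : ℝ) ^ (kap0 / 8 * ((e : ℝ) - b)) *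
                ∑ a ∈ range (b + 1), (2 : ℝ) ^ (-(δ / 2 * ((b - a : ℕ) : ℝ)))) ≤
              K2 * (Ub b * (2 * (Ub e / Ub k0) * (2 : ℝ) ^ (kap0 / 4 * ((k0 : ℝ) - b))) * K3) := by gcongr
            _ = _ := by ring
  have e2 : ∑ a ∈ Icc (b + 1) (k0 + 1), ∑' r : ℕ, (if 2 ^ e < r then
      Rec8.sw (Irr r) (fun P => KT D0 b I a P * SS k1 P) else 0) ≤
      ENNReal.ofReal (K1 * (Ub e / Ub k0)) *
        ∑ a ∈ Icc b (k0 + 1), ENNReal.ofReal ((2 : ℝ) ^ (kap0 / 4 * ((k0 : ℝ) + 1 - a))) * EE D0 b a (rev I) := by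
    calc ∑ a ∈ Icc (b + 1) (k0 + 1), ∑' r : ℕ, (if 2 ^ e < r then
          Rec8.sw (Irr r) (fun P => KT D0 b I a P * SS k1 P) else 0)
        ≤ ∑ a ∈ Icc (b + 1) (k0 + 1), ENNReal.ofReal K1 *
          (ENNReal.ofReal ((2 : ℝ) ^ (kap0 / 4 * ((k0 : ℝ) + 1 - a))) * EE D0 b a (rev I)) := by
          refine Finset.sum_le_sum fun a ha => ?_
          rw [Finset.mem_Icc] at ha
          have f1 : ∑' r : ℕ, (if 2 ^ e < r then
              Rec8.sw (Irr r) (fun P => KT D0 b I a P * SS k1 P) else 0) ≤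
              EE D0 b a (rev I) * (∑' r : ℕ, (if 2 ^ e < r then
                Rec8.sw (Irr r) (fun P => (fun _ => 1) P * SS k1 P) else 0)) := by
            rw [← ENNReal.tsum_mul_left]
            refine ENNReal.tsum_le_tsum fun r => ?_
            split_ifs
            · rw [← Rec8.sw_mul_left]
              refine Rec8.sw_mono' fun P _ => ?_
              rw [one_mul]
              exact mul_le_mul' (KT_le_left D0 b I a P) le_rfl
            · rw [mul_zero]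
          have f2 : ENNReal.ofReal (K1 * gnk k1 e) ≤ ENNReal.ofReal K1 :=
            ENNReal.ofReal_le_ofReal (mul_le_of_le_one_right (by linarith) hg1)
          refine f1.trans ((mul_le_mul' le_rfl ((h1 k1 e hk1).trans f2)).trans ?_)
          rw [mul_comm]
          refine mul_le_mul' le_rfl ?_
          have : (1 : ℝ≥0∞) ≤ ENNReal.ofReal ((2 : ℝ) ^ (kap0 / 4 * ((k0 : ℝ) + 1 - a))) := by
            rw [ENNReal.one_le_ofReal]
            apply p_one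
            have : (a : ℝ) ≤ (k0 : ℝ) + 1 := by exact_mod_cast ha.2
            have : 0 ≤ kap0 / 4 := by linarith
            apply mul_nonneg this
            linarith
          calc EE D0 b a (rev I) = 1 * EE D0 b a (rev I) := (one_mul _).symm
            _ ≤ _ := mul_le_mul' this le_rfl
      _ = ENNReal.ofReal K1 * ∑ a ∈ Icc (b + 1) (k0 + 1),
          (ENNReal.ofReal ((2 : ℝ) ^ (kap0 / 4 * ((k0 : ℝ) + 1 - a))) * EE D0 b a (rev I)) := by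
          rw [Finset.mul_sum]
      _ ≤ _ := by
          refine mul_le_mul' (ENNReal.ofReal_le_ofReal (le_mul_of_one_le_right (by linarith) hR)) ?_
          apply Finset.sum_le_sum_of_subset
          apply Finset.Icc_subset_Icc_left
          omega
  refine (add_le_add e1 e2).trans ?_
  unfold Sw
  rw [add_mul (2 * K2 * K3), ENNReal.ofReal_add (by positivity) (by positivity), add_mul]
  refine add_le_add ?_ ?_
  · exact mul_le_mul' le_rfl le_self_add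
  · exact mul_le_mul' le_rfl le_add_self

open KS KG in
open SDN.TK in
/-- the giants next to a fold, universal weight, the parts up to the block a1 + 1 next to the fold -/
theorem ss3J (h : Inp C δ) : ∃ K c : ℝ, 1 ≤ K ∧ 0 < c ∧ ∀ (D0 k a1 b : ℕ) (I : List Bool), 2 ^ (k + 4) ≤ D0 → a1 ≤ k →
    b ≤ k → ∑ a ∈ range (a1 + 2), ∑' r : ℕ, (if 2 ^ k < r then
      Rec8.sw (Irr r) (fun P => KT D0 b I a P * SS k P) else 0) ≤
      ENNReal.ofReal (K * (2 : ℝ) ^ (-(c * ((k : ℝ) - a1)))) * Sw D0 k b I := by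
  obtain ⟨K1, c, hK1, hc, h1⟩ := k3J h
  obtain ⟨K2, hK2, h2⟩ := geo_low hc
  refine ⟨K1 * K2, c, one_le_mul_of_one_le_of_one_le hK1 hK2, hc, fun D0 k a1 b I hD0 ha hb => ?_⟩
  simp only [exp_SS]
  rw [Finset.sum_comm]
  have hp := p_pos (-(c * ((k : ℝ) - a1)))
  calc ∑ j ∈ range (k + 1), ∑ a ∈ range (a1 + 2), ∑ b2 ∈ range (j + 1), ∑' r : ℕ, (if 2 ^ k < r then
        Rec8.sw (Irr r) (fun P => KT D0 b I a P * Sw (2 ^ (j + 4)) j b2 P) else 0)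
      ≤ ∑ j ∈ range (k + 1), ENNReal.ofReal (K1 * (2 : ℝ) ^ (-(c * ((k : ℝ) - a1))) * (2 : ℝ) ^ (-(c * ((k : ℝ) - j)))) *
          Sw D0 k b I := by
        refine Finset.sum_le_sum fun j hj => ?_
        rw [Finset.mem_range] at hj
        exact h1 D0 k (2 ^ (j + 4)) j a1 b I hD0 le_rfl (by omega) ha hb
    _ = ENNReal.ofReal (∑ j ∈ range (k + 1), K1 * (2 : ℝ) ^ (-(c * ((k : ℝ) - a1))) * (2 : ℝ) ^ (-(c * ((k : ℝ) - j)))) *
          Sw D0 k b I := by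
        rw [← Finset.sum_mul, ENNReal.ofReal_sum_of_nonneg]
        intro j _
        have := p_pos (-(c * ((k : ℝ) - j)))
        positivity
    _ ≤ _ := by
        refine mul_le_mul' (ENNReal.ofReal_le_ofReal ?_) le_rfl
        rw [← Finset.mul_sum]
        have e1 : ∑ j ∈ range (k + 1), (2 : ℝ) ^ (-(c * ((k : ℝ) - j))) ≤ K2 := by
          refine le_trans (le_of_eq (Finset.sum_congr rfl fun j hj => ?_)) (h2 k)
          rw [Finset.mem_range] at hj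
          rw [Nat.cast_sub (by omega)]
        calc K1 * (2 : ℝ) ^ (-(c * ((k : ℝ) - a1))) * ∑ j ∈ range (k + 1), (2 : ℝ) ^ (-(c * ((k : ℝ) - j))) ≤
            K1 * (2 : ℝ) ^ (-(c * ((k : ℝ) - a1))) * K2 := by gcongr
          _ = _ := by ring

namespace KS

open SDN.TK KG NTW.TW

/-- the second part of the far weight, one gain -/
lemma far2G (h : Inp C δ) : ∃ K : ℝ, 1 ≤ K ∧ ∀ D1 k1 e : ℕ, 2 ^ (k1 + 4) ≤ D1 → k1 ≤ e →
    ∑ b2 ∈ range (k1 + 1), ∑ a2 ∈ Icc b2 (k1 + 1), ENNReal.ofReal ((2 : ℝ) ^ (kap0 / 4 * ((k1 : ℝ) + 1 - a2))) *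
      (∑' r : ℕ, (if 2 ^ e < r then Rec8.sw (Irr r) (fun P => EE D1 b2 a2 P) else 0)) ≤
      ENNReal.ofReal (K * gnk k1 e) := by
  have hk := kap0_pos
  have hδ := h.pos
  obtain ⟨K3, hK3, h3⟩ := giant1 h
  obtain ⟨K4, hK4, h4⟩ := S2G h.pos
  refine ⟨K3 * K4, one_le_mul_of_one_le_of_one_le hK3 hK4, fun D1 k1 e hD hke => ?_⟩
  calc ∑ b2 ∈ range (k1 + 1), ∑ a2 ∈ Icc b2 (k1 + 1), ENNReal.ofReal ((2 : ℝ) ^ (kap0 / 4 * ((k1 : ℝ) + 1 - a2))) *
        (∑' r : ℕ, (if 2 ^ e < r then Rec8.sw (Irr r) (fun P => EE D1 b2 a2 P) else 0))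
      ≤ ∑ b2 ∈ range (k1 + 1), ∑ a2 ∈ Icc b2 (k1 + 1), ENNReal.ofReal (K3 * X1 δ k1 e b2 a2) := by
        refine Finset.sum_le_sum fun b2 hb2 => Finset.sum_le_sum fun a2 ha2 => ?_
        rw [Finset.mem_range] at hb2
        rw [Finset.mem_Icc] at ha2
        have hD2 : 2 ^ (a2 + 3) ≤ D1 := (Nat.pow_le_pow_right (by norm_num) (by omega)).trans hD
        refine (mul_le_mul' le_rfl (h3 D1 e a2 b2 ha2.1 hD2).1).trans ?_
        rw [← ENNReal.ofReal_mul (p_pos _).le]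
        apply ENNReal.ofReal_le_ofReal
        unfold TT X1
        have hUa := Ub_pos a2
        have hUe := Ub_pos e
        have e3 : (2 : ℝ) ^ (-(δ * ((min a2 e - b2 : ℕ) : ℝ))) ≤ (2 : ℝ) ^ (-(δ / 2 * ((min a2 e - b2 : ℕ) : ℝ))) := by
          apply p_mono
          have : (0 : ℝ) ≤ ((min a2 e - b2 : ℕ) : ℝ) := Nat.cast_nonneg _
          nlinarith
        have q1 := p_pos (kap0 / 4 * ((k1 : ℝ) + 1 - a2))
        have q2 := p_pos (kap0 / 8 * ((e - a2 : ℕ) : ℝ))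
        calc (2 : ℝ) ^ (kap0 / 4 * ((k1 : ℝ) + 1 - a2)) * (K3 * (Ub a2 / Ub e *
              (2 : ℝ) ^ (kap0 / 8 * ((e - a2 : ℕ) : ℝ)) * (2 : ℝ) ^ (-(δ * ((min a2 e - b2 : ℕ) : ℝ))))) ≤
            (2 : ℝ) ^ (kap0 / 4 * ((k1 : ℝ) + 1 - a2)) * (K3 * (Ub a2 / Ub e *
              (2 : ℝ) ^ (kap0 / 8 * ((e - a2 : ℕ) : ℝ)) * (2 : ℝ) ^ (-(δ / 2 * ((min a2 e - b2 : ℕ) : ℝ))))) := by
              gcongr
          _ = _ := by ring
    _ = ENNReal.ofReal (K3 * ∑ b2 ∈ range (k1 + 1), ∑ a2 ∈ Icc b2 (k1 + 1), X1 δ k1 e b2 a2) := by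
        have hnn : ∀ b2 a2 : ℕ, 0 ≤ K3 * X1 δ k1 e b2 a2 := fun b2 a2 => mul_nonneg (by linarith) (X1_nonneg _ _ _ _ _)
        rw [Finset.mul_sum, ENNReal.ofReal_sum_of_nonneg]
        · refine Finset.sum_congr rfl fun b2 _ => ?_
          rw [Finset.mul_sum, ENNReal.ofReal_sum_of_nonneg]
          exact fun a2 _ => hnn b2 a2
        · intro b2 _
          rw [Finset.mul_sum]
          exact Finset.sum_nonneg fun a2 _ => hnn b2 a2
    _ ≤ _ := by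
        apply ENNReal.ofReal_le_ofReal
        rw [mul_assoc]
        exact mul_le_mul_of_nonneg_left (h4 k1 e hke) (by linarith)

/-- the product of the second parts, two gains -/
lemma far22G (h : Inp C δ) : ∃ K : ℝ, 1 ≤ K ∧ ∀ D0 k0 D1 k1 e : ℕ, 2 ^ (k0 + 4) ≤ D0 → 2 ^ (k1 + 4) ≤ D1 → k0 ≤ e →
    k1 ≤ e → ∑ b2 ∈ range (k1 + 1), ∑ a2 ∈ Icc b2 (k1 + 1), ∑ b ∈ range (k0 + 1), ∑ a ∈ Icc b (k0 + 1),
      ENNReal.ofReal ((2 : ℝ) ^ (kap0 / 4 * ((k1 : ℝ) + 1 - a2))) *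
        (ENNReal.ofReal ((2 : ℝ) ^ (kap0 / 4 * ((k0 : ℝ) + 1 - a))) *
      (∑' r : ℕ, (if 2 ^ e < r then Rec8.sw (Irr r) (fun P => EE D1 b2 a2 P * EE D0 b a (rev P)) else 0))) ≤
      ENNReal.ofReal (K * (Ub e * (gnk k1 e * gnk k0 e))) := by
  have hk := kap0_pos
  have hδ := h.pos
  obtain ⟨K2, hK2, h2⟩ := giant2 h
  obtain ⟨K4, hK4, h4⟩ := S2G h.pos
  refine ⟨K2 * (K4 * K4), one_le_mul_of_one_le_of_one_le hK2 (one_le_mul_of_one_le_of_one_le hK4 hK4),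
    fun D0 k0 D1 k1 e hD0 hD1 h0e h1e => ?_⟩
  have hUe := Ub_pos e
  have hnn : ∀ b2 a2 b a : ℕ, 0 ≤ K2 * (Ub e * (X1 δ k1 e b2 a2 * X1 δ k0 e b a)) := fun b2 a2 b a => by
    have := X1_nonneg δ k1 e b2 a2
    have := X1_nonneg δ k0 e b a
    positivity
  calc ∑ b2 ∈ range (k1 + 1), ∑ a2 ∈ Icc b2 (k1 + 1), ∑ b ∈ range (k0 + 1), ∑ a ∈ Icc b (k0 + 1),
      ENNReal.ofReal ((2 : ℝ) ^ (kap0 / 4 * ((k1 : ℝ) + 1 - a2))) *
        (ENNReal.ofReal ((2 : ℝ) ^ (kap0 / 4 * ((k0 : ℝ) + 1 - a))) *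
      (∑' r : ℕ, (if 2 ^ e < r then Rec8.sw (Irr r) (fun P => EE D1 b2 a2 P * EE D0 b a (rev P)) else 0)))
      ≤ ∑ b2 ∈ range (k1 + 1), ∑ a2 ∈ Icc b2 (k1 + 1), ∑ b ∈ range (k0 + 1), ∑ a ∈ Icc b (k0 + 1),
        ENNReal.ofReal (K2 * (Ub e * (X1 δ k1 e b2 a2 * X1 δ k0 e b a))) := by
        refine Finset.sum_le_sum fun b2 hb2 => Finset.sum_le_sum fun a2 ha2 =>
          Finset.sum_le_sum fun b hb => Finset.sum_le_sum fun a ha => ?_
        rw [Finset.mem_range] at hb2 hb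
        rw [Finset.mem_Icc] at ha2 ha
        have hE2 : 2 ^ (a2 + 3) ≤ D1 := (Nat.pow_le_pow_right (by norm_num) (by omega)).trans hD1
        have hE1 : 2 ^ (a + 3) ≤ D0 := (Nat.pow_le_pow_right (by norm_num) (by omega)).trans hD0
        refine (mul_le_mul' le_rfl (mul_le_mul' le_rfl (h2 D1 D0 e a2 b2 a b ha2.1 ha.1 hE2 hE1))).trans ?_
        rw [← ENNReal.ofReal_mul (p_pos _).le, ← ENNReal.ofReal_mul (p_pos _).le]
        apply ENNReal.ofReal_le_ofReal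
        have g := gain_prod hδ k1 k0 e a2 b2 a b
        calc (2 : ℝ) ^ (kap0 / 4 * ((k1 : ℝ) + 1 - a2)) * ((2 : ℝ) ^ (kap0 / 4 * ((k0 : ℝ) + 1 - a)) *
              (K2 * (Real.sqrt (TT (kap0 / 8) δ e a2 b2 * TT (kap0 / 8) δ e a b) * Real.sqrt (Ub a2 * Ub a))))
            = K2 * ((2 : ℝ) ^ (kap0 / 4 * ((k1 : ℝ) + 1 - a2)) * ((2 : ℝ) ^ (kap0 / 4 * ((k0 : ℝ) + 1 - a)) *
              (Real.sqrt (TT (kap0 / 8) δ e a2 b2 * TT (kap0 / 8) δ e a b) * Real.sqrt (Ub a2 * Ub a)))) := by ring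
          _ ≤ _ := mul_le_mul_of_nonneg_left g (by linarith)
    _ = ENNReal.ofReal (K2 * (Ub e * ((∑ b2 ∈ range (k1 + 1), ∑ a2 ∈ Icc b2 (k1 + 1), X1 δ k1 e b2 a2) *
          (∑ b ∈ range (k0 + 1), ∑ a ∈ Icc b (k0 + 1), X1 δ k0 e b a)))) := by
        have e1 : ∀ b2 a2 : ℕ, ∑ b ∈ range (k0 + 1), ∑ a ∈ Icc b (k0 + 1),
            ENNReal.ofReal (K2 * (Ub e * (X1 δ k1 e b2 a2 * X1 δ k0 e b a))) =
            ENNReal.ofReal (K2 * (Ub e * (X1 δ k1 e b2 a2 * ∑ b ∈ range (k0 + 1), ∑ a ∈ Icc b (k0 + 1), X1 δ k0 e b a))) := by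
          intro b2 a2
          have e2 : K2 * (Ub e * (X1 δ k1 e b2 a2 * ∑ b ∈ range (k0 + 1), ∑ a ∈ Icc b (k0 + 1), X1 δ k0 e b a)) =
              ∑ b ∈ range (k0 + 1), ∑ a ∈ Icc b (k0 + 1), K2 * (Ub e * (X1 δ k1 e b2 a2 * X1 δ k0 e b a)) := by
            simp only [Finset.mul_sum]
          rw [e2, ENNReal.ofReal_sum_of_nonneg (fun b _ => Finset.sum_nonneg fun a _ => hnn b2 a2 b a)]
          refine Finset.sum_congr rfl fun b _ => ?_
          rw [ENNReal.ofReal_sum_of_nonneg (fun a _ => hnn b2 a2 b a)]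
        simp only [e1]
        obtain ⟨Y, hY⟩ : ∃ Y, Y = ∑ b ∈ range (k0 + 1), ∑ a ∈ Icc b (k0 + 1), X1 δ k0 e b a := ⟨_, rfl⟩
        have hY0 : 0 ≤ Y := by
          rw [hY]
          exact Finset.sum_nonneg fun b _ => Finset.sum_nonneg fun a _ => X1_nonneg _ _ _ _ _
        rw [← hY]
        have e3 : K2 * (Ub e * ((∑ b2 ∈ range (k1 + 1), ∑ a2 ∈ Icc b2 (k1 + 1), X1 δ k1 e b2 a2) * Y)) =
            ∑ b2 ∈ range (k1 + 1), ∑ a2 ∈ Icc b2 (k1 + 1), K2 * (Ub e * (X1 δ k1 e b2 a2 * Y)) := by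
          simp only [Finset.sum_mul, Finset.mul_sum]
        have hnn2 : ∀ b2 a2 : ℕ, 0 ≤ K2 * (Ub e * (X1 δ k1 e b2 a2 * Y)) := fun b2 a2 => by
          have := X1_nonneg δ k1 e b2 a2
          positivity
        rw [e3, ENNReal.ofReal_sum_of_nonneg (fun b2 _ => Finset.sum_nonneg fun a2 _ => hnn2 b2 a2)]
        refine Finset.sum_congr rfl fun b2 _ => ?_
        rw [ENNReal.ofReal_sum_of_nonneg (fun a2 _ => hnn2 b2 a2)]
    _ ≤ _ := by
        apply ENNReal.ofReal_le_ofReal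
        have f1 := h4 k1 e h1e
        have f0 := h4 k0 e h0e
        have g1 : (∑ b2 ∈ range (k1 + 1), ∑ a2 ∈ Icc b2 (k1 + 1), X1 δ k1 e b2 a2) ≤ K4 * gnk k1 e := f1
        have g0 : (∑ b ∈ range (k0 + 1), ∑ a ∈ Icc b (k0 + 1), X1 δ k0 e b a) ≤ K4 * gnk k0 e := f0
        have n0 : 0 ≤ ∑ b ∈ range (k0 + 1), ∑ a ∈ Icc b (k0 + 1), X1 δ k0 e b a :=
          Finset.sum_nonneg fun b _ => Finset.sum_nonneg fun a _ => X1_nonneg _ _ _ _ _
        have hg1 := gnk_pos k1 e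
        have hg0 := gnk_pos k0 e
        calc K2 * (Ub e * ((∑ b2 ∈ range (k1 + 1), ∑ a2 ∈ Icc b2 (k1 + 1), X1 δ k1 e b2 a2) *
              (∑ b ∈ range (k0 + 1), ∑ a ∈ Icc b (k0 + 1), X1 δ k0 e b a))) ≤
              K2 * (Ub e * ((K4 * gnk k1 e) * (K4 * gnk k0 e))) := by gcongr
          _ = _ := by ring

/-- the giants of two scales, seen from both sides, with the two gains -/
lemma kDG (h : Inp C δ) : ∃ K : ℝ, 1 ≤ K ∧ ∀ D0 k0 D1 k1 e : ℕ, 2 ^ (k0 + 4) ≤ D0 → 2 ^ (k1 + 4) ≤ D1 → k0 ≤ e →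
    k1 ≤ e → ∑ b2 ∈ range (k1 + 1), ∑ a ∈ range (k0 + 1), ∑' r : ℕ, (if 2 ^ e < r then
      Rec8.sw (Irr r) (fun P => Sw D0 k0 a (rev P) * Sw D1 k1 b2 P) else 0) ≤
      ENNReal.ofReal (K * (Ub e * (gnk k1 e * gnk k0 e))) := by
  have hk := kap0_pos
  obtain ⟨Kf, hKf, hf⟩ := farG h
  obtain ⟨K1, hK1, h1⟩ := far1
  obtain ⟨K2, hK2, h2⟩ := far2G h
  obtain ⟨K3, hK3, h3⟩ := far22G h
  refine ⟨2 * K1 * Kf + (2 * K1 * K2 + K3), by
    nlinarith [mul_nonneg (by linarith : (0:ℝ) ≤ K1) (by linarith : (0:ℝ) ≤ K2)],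
    fun D0 k0 D1 k1 e hD0 hD1 h0 h1e => ?_⟩
  have hUe := Ub_pos e
  have hU0 := Ub_pos k0
  have hU1 := Ub_pos k1
  have hg1 := gnk_pos k1 e
  have hg0 := gnk_pos k0 e
  have hUk0 : Ub k0 ≤ 2 * Ub e * gnk k0 e := by
    have := ratioH h0
    rw [div_le_iff₀ hUe] at this
    linarith
  have hUk1 : Ub k1 ≤ 2 * Ub e * gnk k1 e := by
    have := ratioH h1e
    rw [div_le_iff₀ hUe] at this
    linarith
  -- expansion of the far weight
  simp only [exp_Sw]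
  simp only [Finset.sum_add_distrib]
  rw [add_mul (2 * K1 * Kf), ENNReal.ofReal_add (by positivity) (by positivity)]
  refine add_le_add ?_ ?_
  · -- first part
    have e1 : ∀ a : ℕ, (∑' r : ℕ, (if 2 ^ e < r then Rec8.sw (Irr r) (fun P => Sw D0 k0 a (rev P)) else 0)) =
        ∑' r : ℕ, (if 2 ^ e < r then Rec8.sw (Irr r) (fun P => (fun _ => (1 : ℝ≥0∞)) P * Sw D0 k0 a P) else 0) := by
      intro a
      refine tsum_congr fun r => ?_
      split_ifs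
      · rw [sw_rev (Irr r) (fun t ht => Irr_rev ht) (fun P => Sw D0 k0 a P)]
        exact Rec8.sw_congr fun P _ => (one_mul _).symm
      · rfl
    simp only [e1]
    simp only [← Finset.mul_sum]
    rw [← Finset.sum_mul]
    refine (mul_le_mul' (h1 k1) (hf D0 k0 e hD0 h0)).trans ?_
    rw [← ENNReal.ofReal_mul (by positivity)]
    apply ENNReal.ofReal_le_ofReal
    calc K1 * Ub k1 * (Kf * gnk k0 e) = K1 * Kf * gnk k0 e * Ub k1 := by ring
      _ ≤ K1 * Kf * gnk k0 e * (2 * Ub e * gnk k1 e) := by gcongr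
      _ = _ := by ring
  · -- second part
    have e2 : ∀ (a b2 a2 : ℕ), (∑' r : ℕ, (if 2 ^ e < r then
        Rec8.sw (Irr r) (fun P => Sw D0 k0 a (rev P) * EE D1 b2 a2 (rev P)) else 0)) =
        ENNReal.ofReal ((2 : ℝ) ^ (kap0 / 4 * ((k0 : ℝ) - a)) * Ub a) *
          (∑' r : ℕ, (if 2 ^ e < r then Rec8.sw (Irr r) (fun P => EE D1 b2 a2 P) else 0)) +
        ∑ a3 ∈ Icc a (k0 + 1), ENNReal.ofReal ((2 : ℝ) ^ (kap0 / 4 * ((k0 : ℝ) + 1 - a3))) *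
        (∑' r : ℕ, (if 2 ^ e < r then Rec8.sw (Irr r) (fun P => EE D1 b2 a2 P * EE D0 a a3 (rev P)) else 0)) := by
      intro a b2 a2
      rw [← exp_Sw]
      refine tsum_congr fun r => ?_
      split_ifs
      · rw [sw_rev (Irr r) (fun t ht => Irr_rev ht) (fun P => Sw D0 k0 a P * EE D1 b2 a2 P)]
        exact Rec8.sw_congr fun P _ => mul_comm _ _
      · rfl
    simp only [e2]
    obtain ⟨Y1, hY1⟩ : ∃ Y1 : ℕ → ℕ → ℝ≥0∞, Y1 = fun b2 a2 =>
      (∑' r : ℕ, (if 2 ^ e < r then Rec8.sw (Irr r) (fun P => EE D1 b2 a2 P) else 0)) := ⟨_, rfl⟩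
    obtain ⟨Y2, hY2⟩ : ∃ Y2 : ℕ → ℕ → ℕ → ℕ → ℝ≥0∞, Y2 = fun b2 a2 a a3 =>
      (∑' r : ℕ, (if 2 ^ e < r then Rec8.sw (Irr r) (fun P => EE D1 b2 a2 P * EE D0 a a3 (rev P)) else 0)) := ⟨_, rfl⟩
    have f1 := h2 D1 k1 e hD1 h1e
    have f2 := h3 D0 k0 D1 k1 e hD0 hD1 h0 h1e
    have g1 : ∑ b2 ∈ range (k1 + 1), ∑ a2 ∈ Icc b2 (k1 + 1),
        ENNReal.ofReal ((2 : ℝ) ^ (kap0 / 4 * ((k1 : ℝ) + 1 - a2))) * Y1 b2 a2 ≤ ENNReal.ofReal (K2 * gnk k1 e) := by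
      rw [hY1]
      exact f1
    have g2 : ∑ b2 ∈ range (k1 + 1), ∑ a2 ∈ Icc b2 (k1 + 1), ∑ b ∈ range (k0 + 1), ∑ a ∈ Icc b (k0 + 1),
      ENNReal.ofReal ((2 : ℝ) ^ (kap0 / 4 * ((k1 : ℝ) + 1 - a2))) *
        (ENNReal.ofReal ((2 : ℝ) ^ (kap0 / 4 * ((k0 : ℝ) + 1 - a))) * Y2 b2 a2 b a) ≤
          ENNReal.ofReal (K3 * (Ub e * (gnk k1 e * gnk k0 e))) := by
      rw [hY2]
      exact f2
    have g0 : ∑ b2 ∈ range (k1 + 1), ∑ a ∈ range (k0 + 1), ∑ a2 ∈ Icc b2 (k1 + 1),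
        ENNReal.ofReal ((2 : ℝ) ^ (kap0 / 4 * ((k1 : ℝ) + 1 - a2))) *
          (ENNReal.ofReal ((2 : ℝ) ^ (kap0 / 4 * ((k0 : ℝ) - a)) * Ub a) * Y1 b2 a2 +
          ∑ a3 ∈ Icc a (k0 + 1), ENNReal.ofReal ((2 : ℝ) ^ (kap0 / 4 * ((k0 : ℝ) + 1 - a3))) * Y2 b2 a2 a a3) =
        (∑ a ∈ range (k0 + 1), ENNReal.ofReal ((2 : ℝ) ^ (kap0 / 4 * ((k0 : ℝ) - a)) * Ub a)) *
          (∑ b2 ∈ range (k1 + 1), ∑ a2 ∈ Icc b2 (k1 + 1),
            ENNReal.ofReal ((2 : ℝ) ^ (kap0 / 4 * ((k1 : ℝ) + 1 - a2))) * Y1 b2 a2) +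
        ∑ b2 ∈ range (k1 + 1), ∑ a2 ∈ Icc b2 (k1 + 1), ∑ b ∈ range (k0 + 1), ∑ a ∈ Icc b (k0 + 1),
          ENNReal.ofReal ((2 : ℝ) ^ (kap0 / 4 * ((k1 : ℝ) + 1 - a2))) *
            (ENNReal.ofReal ((2 : ℝ) ^ (kap0 / 4 * ((k0 : ℝ) + 1 - a))) * Y2 b2 a2 b a) := by
      rw [Finset.mul_sum, ← Finset.sum_add_distrib]
      refine Finset.sum_congr rfl fun b2 _ => ?_
      rw [Finset.sum_comm, Finset.mul_sum, ← Finset.sum_add_distrib]
      refine Finset.sum_congr rfl fun a2 _ => ?_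
      rw [Finset.sum_mul, ← Finset.sum_add_distrib]
      refine Finset.sum_congr rfl fun a _ => ?_
      rw [mul_add, Finset.mul_sum]
      congr 1
      ring
    have e4 : ∑ b2 ∈ range (k1 + 1), ∑ a ∈ range (k0 + 1), ∑ a2 ∈ Icc b2 (k1 + 1),
        ENNReal.ofReal ((2 : ℝ) ^ (kap0 / 4 * ((k1 : ℝ) + 1 - a2))) *
          (ENNReal.ofReal ((2 : ℝ) ^ (kap0 / 4 * ((k0 : ℝ) - a)) * Ub a) * Y1 b2 a2 +
          ∑ a3 ∈ Icc a (k0 + 1), ENNReal.ofReal ((2 : ℝ) ^ (kap0 / 4 * ((k0 : ℝ) + 1 - a3))) * Y2 b2 a2 a a3) ≤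
        ENNReal.ofReal ((2 * K1 * K2 + K3) * (Ub e * (gnk k1 e * gnk k0 e))) := by
      rw [g0]
      refine (add_le_add (mul_le_mul' (h1 k0) g1) g2).trans ?_
      rw [← ENNReal.ofReal_mul (by positivity), ← ENNReal.ofReal_add (by positivity) (by positivity)]
      apply ENNReal.ofReal_le_ofReal
      have : K1 * Ub k0 * (K2 * gnk k1 e) ≤ 2 * K1 * K2 * (Ub e * (gnk k1 e * gnk k0 e)) := by
        calc K1 * Ub k0 * (K2 * gnk k1 e) = K1 * K2 * gnk k1 e * Ub k0 := by ring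
          _ ≤ K1 * K2 * gnk k1 e * (2 * Ub e * gnk k0 e) := by gcongr
          _ = _ := by ring
      linarith
    rw [hY1, hY2] at e4
    exact e4

end KS

open KS KG in
/-- the giants used at both ends, universal weight -/
theorem ssD (h : Inp C δ) : ∃ K : ℝ, 1 ≤ K ∧ ∀ k0 k1 e : ℕ, k0 ≤ e → k1 ≤ e →
    ∑' r : ℕ, (if 2 ^ e < r then Rec8.sw (Irr r) (fun P => SS k0 (rev P) * SS k1 P) else 0) ≤
      ENNReal.ofReal (K * Ub e) := by
  obtain ⟨K1, hK1, h1⟩ := kDG h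
  obtain ⟨K2, hK2, h2⟩ := sum_gnk
  refine ⟨K1 * K2 * K2, one_le_mul_of_one_le_of_one_le (one_le_mul_of_one_le_of_one_le hK1 hK2) hK2,
    fun k0 k1 e h0 h1e => ?_⟩
  have hUe := Ub_pos e
  have e1 : ∀ j1 b2 : ℕ, (∑' r : ℕ, (if 2 ^ e < r then Rec8.sw (Irr r) (fun P =>
      SS k0 (rev P) * Sw (2 ^ (j1 + 4)) j1 b2 P) else 0)) = ∑ j ∈ range (k0 + 1), ∑ a ∈ range (j + 1),
      ∑' r : ℕ, (if 2 ^ e < r then Rec8.sw (Irr r) (fun P =>
        Sw (2 ^ (j + 4)) j a (rev P) * Sw (2 ^ (j1 + 4)) j1 b2 P) else 0) := by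
    intro j1 b2
    have e2 : ∀ r : ℕ, (if 2 ^ e < r then Rec8.sw (Irr r) (fun P => SS k0 (rev P) * Sw (2 ^ (j1 + 4)) j1 b2 P) else 0) =
        ∑ j ∈ range (k0 + 1), ∑ a ∈ range (j + 1), (if 2 ^ e < r then
          Rec8.sw (Irr r) (fun P => Sw (2 ^ (j + 4)) j a (rev P) * Sw (2 ^ (j1 + 4)) j1 b2 P) else 0) := by
      intro r
      by_cases hr : 2 ^ e < r
      · simp only [if_pos hr]
        unfold SS
        simp only [Finset.sum_mul]
        rw [Rec8.sw_sum]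
        exact Finset.sum_congr rfl fun j _ => Rec8.sw_sum _ _ _
      · simp [hr]
    rw [tsum_congr e2, Summable.tsum_finsetSum (fun _ _ => ENNReal.summable)]
    exact Finset.sum_congr rfl fun j _ => Summable.tsum_finsetSum (fun _ _ => ENNReal.summable)
  rw [exp_SS]
  simp only [e1]
  have e3 : ∀ j1, j1 ≤ k1 → ∑ b2 ∈ range (j1 + 1), ∑ j ∈ range (k0 + 1), ∑ a ∈ range (j + 1),
      ∑' r : ℕ, (if 2 ^ e < r then Rec8.sw (Irr r) (fun P =>
        Sw (2 ^ (j + 4)) j a (rev P) * Sw (2 ^ (j1 + 4)) j1 b2 P) else 0) ≤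
      ENNReal.ofReal (K1 * K2 * Ub e * gnk j1 e) := by
    intro j1 hj1
    rw [Finset.sum_comm]
    have hg := gnk_pos j1 e
    refine (h2 k0 e (K1 * (Ub e * gnk j1 e)) _ (by positivity) fun j hj => ?_).trans ?_
    · refine (h1 (2 ^ (j + 4)) j (2 ^ (j1 + 4)) j1 e le_rfl le_rfl (hj.trans h0) (hj1.trans h1e)).trans (le_of_eq ?_)
      congr 1
      ring
    · apply ENNReal.ofReal_le_ofReal
      have := gnk_le_one h0
      calc K1 * (Ub e * gnk j1 e) * (K2 * gnk k0 e) = K1 * K2 * Ub e * gnk j1 e * gnk k0 e := by ring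
        _ ≤ K1 * K2 * Ub e * gnk j1 e := mul_le_of_le_one_right (by positivity) this
  refine (h2 k1 e (K1 * K2 * Ub e) _ (by positivity) e3).trans ?_
  apply ENNReal.ofReal_le_ofReal
  have := gnk_le_one h1e
  calc K1 * K2 * Ub e * (K2 * gnk k1 e) = K1 * K2 * K2 * Ub e * gnk k1 e := by ring
    _ ≤ K1 * K2 * K2 * Ub e := mul_le_of_le_one_right (by positivity) this

end NTW

end HexObs
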