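import Pool.Agent.NTW.Event2
import Pool.Agent.NTW.CrdC
import Pool.Agent.NTW.DmJ
import Pool.Agent.NTW.KernS
import Pool.Agent.NTW.Cover
import Pool.Agent.NTW.FoldEx

/-!
NTW: the hypotheses of the event theorem plugged in (only SsA and the representation RepTwo remain).
-/

set_option autoImplicit false

namespace HexObs

namespace NTW

open Finset TS SDN

open scoped ENNReal

/-- the predicate DmJ is admissible -/
theorem dmP : DmP DmJ := by
  refine ⟨fun k x Φ h => h.dom, fun k x Φ h => h.1, DmJ_dm, ?_⟩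
  obtain ⟨K, hK, h⟩ := domJ_end
  refine ⟨K, hK, fun j N lam lam' hj h1 h2 hQ => ⟨?_, h j N lam lam' hj h1 h2 hQ⟩⟩
  rw [show j - 4 + 4 = j by omega]
  exact herD_one Nat.one_le_two_pow N lam

theorem ss3P : Ss3 := by
  obtain ⟨C, δ, h⟩ := inp_exists
  exact ss3 h

theorem ssDP : SsD := by
  obtain ⟨C, δ, h⟩ := inp_exists
  exact ssD h

theorem coverTwo (hR : RepTwo) : CoverTwo := cover_two hR

theorem pivotEx : PivotEx := fun _ ht hr => pivot_ex ht hr

theorem crowd2 (hA : SsA) (hR : RepTwo) : Crowd2 := crowd2_of hA ss3P ssDP (coverTwo hR)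

/-- **the event theorem** -/
theorem event2J (hA : SsA) (hR : RepTwo) : Event2 DmJ :=
  event2_of dmP (coverTwo hR) (crowd2 hA hR) hA ss3P ssDP

end NTW

end HexObs
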