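import Pool.Agent.NTQ.GeoA
import Pool.Agent.NTW.FoldEx

/-!
NTW: the monotone chain of extrema around a leaf, both ends free (the part about integer sequences).
-/

set_option autoImplicit false

namespace HexObs

namespace NTW

open Finset TS SDN SDN.ZZ NTm

namespace GM

/-- the sign by the parity -/
lemma sgu (u k : ℕ) (z : ℤ) : Tight.sg (u + k) z = Tight.sg (k + 1) (Tight.sg u z) := by
  rcases Nat.even_or_odd u with hu | hu
  · rw [Tight.sg_even hu]
    rcases Nat.even_or_odd k with hk | hk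
    · rw [Tight.sg_even (hu.add hk), Tight.sg_odd (by rw [Nat.even_add_one]; exact fun h => h hk)]
    · have h1 : ¬ Even (u + k) := by
        rw [Nat.even_add]
        intro h
        exact (Nat.not_even_iff_odd.2 hk) (h.1 hu)
      have h2 : Even (k + 1) := by
        rw [Nat.even_add_one]
        exact Nat.not_even_iff_odd.2 hk
      rw [Tight.sg_odd h1, Tight.sg_even h2, neg_neg]
  · have hu' := Nat.not_even_iff_odd.2 hu
    rw [Tight.sg_odd hu']
    refine sg_par ?_ z
    rw [Nat.even_add, Nat.even_add_one]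
    tauto

/-- two global extrema in the order first one, last one -/
lemma two_ext (g : ℕ → ℤ) (n : ℕ) (h : ∃ i j, i ≤ n ∧ j ≤ n ∧ g i ≠ g j) : ∃ s F L : ℕ, F < L ∧ L ≤ n ∧
    (∀ j, j ≤ n → Tight.sg (s + 1) (g F) ≤ Tight.sg (s + 1) (g j)) ∧
    (∀ j, j < F → Tight.sg (s + 1) (g F) < Tight.sg (s + 1) (g j)) ∧
    (∀ j, j ≤ n → Tight.sg (s + 1) (g j) ≤ Tight.sg (s + 1) (g L)) ∧
    (∀ j, L < j → j ≤ n → Tight.sg (s + 1) (g j) < Tight.sg (s + 1) (g L)) := by
  obtain ⟨F0, a1, a2, a3⟩ := FoldA.first_min g n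
  obtain ⟨L0, b1, b2, b3⟩ := FoldA.last_max g n
  rcases Nat.lt_or_ge F0 L0 with hlt | hge
  · refine ⟨0, F0, L0, hlt, b1, ?_⟩
    simp only [zero_add, Tight.sg_one]
    exact ⟨a2, a3, b2, b3⟩
  · obtain ⟨F1, c1, c2, c3⟩ := FoldA.first_min (fun i => - g i) n
    obtain ⟨L1, d1, d2, d3⟩ := FoldA.last_max (fun i => - g i) n
    have hne : F0 ≠ L0 := by
      intro he
      obtain ⟨i, j, hi, hj, hij⟩ := h
      have e1 := a2 i hi
      have e2 := a2 j hj
      have e3 := b2 i hi
      have e4 := b2 j hj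
      rw [← he] at e3 e4
      exact hij (by omega)
    have h1 : F1 ≤ L0 := by
      by_contra hc
      have e1 := c3 L0 (by omega)
      have e2 := b2 F1 c1
      omega
    have h2 : F0 ≤ L1 := by
      by_contra hc
      have e1 := d3 F0 (by omega) a1
      have e2 := a2 L1 d1
      omega
    have hev : Even (1 + 1) := by decide
    refine ⟨1, F1, L1, by omega, d1, ?_⟩
    simp only [Tight.sg_even hev]
    exact ⟨c2, c3, d2, d3⟩

variable {y : ℕ → ℤ} {m : ℕ}

/-- parity of a minimum -/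
lemma par_min (hA : Alt y m) {s F : ℕ} (hF : F < m) (h : Tight.sg (s + 1) (y F) ≤ Tight.sg (s + 1) (y (F + 1))) :
    Even F ↔ Even s := by
  by_contra hc
  have h1 : ∀ x, Tight.sg (F + 1) x = - Tight.sg (s + 1) x := by
    intro x
    rw [← Tight.sg_succ]
    refine sg_par ?_ x
    rw [Nat.even_add_one, Nat.even_add_one (n := s + 1), Nat.even_add_one]
    tauto
  have h2 := hA F hF
  rw [h1, h1] at h2
  omega

/-- parity of a maximum -/
lemma par_max (hA : Alt y m) {s L : ℕ} (hL : L < m) (h : Tight.sg (s + 1) (y L) ≤ Tight.sg (s + 1) (y (L + 1))) :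
    Even (L + 1) ↔ ¬ Even s := by
  rw [Nat.even_add_one, par_min hA hL h]

/-- THE RIGHT PART: from a to b, increasing ranges, the last piece has the full range -/
lemma hw_right2 (hA : Alt y m) {a : ℕ} : ∀ d b, a + d = b → b ≤ m →
    (∀ j, a ≤ j → j ≤ b → Tight.sg b (y j) ≤ Tight.sg b (y b)) →
    ∃ (p : ℕ) (i : ℕ → ℕ), Hw y a b p i ∧ (∀ q, q + 1 < p → rg y (i q) (i (q + 1)) ≤ rg y (i (q + 1)) (i (q + 2))) ∧
      (∀ q, q ≤ p → a ≤ i q) ∧ (1 ≤ d → 1 ≤ p ∧ ∀ j, a ≤ j → j ≤ b → Tight.sg b (y (i (p - 1))) ≤ Tight.sg b (y j)) := by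
  intro d b had hbm hhi
  rcases Nat.eq_zero_or_pos d with h0 | h0
  · exact ⟨0, fun _ => a, ⟨rfl, by omega, fun q hq => absurd hq (by omega)⟩, fun q hq => absurd hq (by omega),
      fun q _ => le_rfl, fun h => absurd h (by omega)⟩
  · -- c = the last maximum of - sg b y on [a, b]
    obtain ⟨c, c1, c2, c3, c4⟩ := exists_last_max (fun j => Tight.sg (b + 1) (y j)) (a := a) (n := b) (by omega)
    have hb1 : ∀ x, Tight.sg (b + 1) x = -Tight.sg b x := fun x => Tight.sg_succ _ _
    obtain ⟨b', hb'⟩ : ∃ b', b = b' + 1 := ⟨b - 1, by omega⟩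
    have hlast := hA b' (by omega)
    rw [← hb'] at hlast
    have c5 : c < b := by
      rcases Nat.lt_or_ge c b with h | h
      · exact h
      · exfalso
        have hcb : c = b := by omega
        have := c3 b' (by omega) (by omega)
        rw [hcb, hb1, hb1] at this
        omega
    have c6 : Even c ↔ ¬ Even b := by
      by_contra hc
      have hcb : Even c ↔ Even b := by tauto
      have h2 := hA c (by omega)
      have h3 := c3 (c + 1) (by omega) (by omega)
      have hcb1 : Even (c + 1) ↔ Even (b + 1) := by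
        rw [Nat.even_add_one, Nat.even_add_one]
        tauto
      rw [sg_par hcb1, sg_par hcb1] at h2
      omega
    have hs : ∀ x, Tight.sg c x = -Tight.sg b x := by
      intro x
      rw [← hb1]
      exact sg_par (by rw [Nat.even_add_one]; exact c6) x
    have hs1 : ∀ x, Tight.sg (c + 1) x = Tight.sg b x := by
      intro x
      rw [Tight.sg_succ, hs, neg_neg]
    obtain ⟨p, i, hi, hm, hr⟩ := hw_right hA (a := a) (c - a) c (by omega) (by omega) (by
      intro j j1 j2
      have := c3 j j1 (by omega)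
      rw [hb1, hb1] at this
      rw [hs, hs]
      exact this)
    have hsegc : Seg y c b := by
      refine ⟨c5, ?_, ?_, by tauto⟩
      · intro j j1 j2
        have := c4 j j1 j2
        rw [hb1, hb1] at this
        rw [hs1, hs1]
        omega
      · intro j j1 j2
        rw [hs1, hs1]
        exact hhi j (by omega) j2
    refine ⟨p + 1, fun q => if q ≤ p then i q else b, ⟨?_, ?_, ?_⟩, ?_, ?_, fun _ => ⟨by omega, ?_⟩⟩
    · simp only [if_pos (Nat.zero_le p)]
      exact hi.zero
    · simp only [if_neg (show ¬ p + 1 ≤ p by omega)]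
    · intro q hq
      rcases Nat.lt_or_ge q p with hqp | hqp
      · simp only [if_pos (show q ≤ p by omega), if_pos (show q + 1 ≤ p by omega)]
        exact hi.seg q hqp
      · have : q = p := by omega
        subst this
        simp only [if_pos le_rfl, if_neg (show ¬ q + 1 ≤ q by omega), hi.last]
        exact hsegc
    · intro q hq
      rcases Nat.lt_or_ge (q + 1) p with hqp | hqp
      · simp only [if_pos (show q ≤ p by omega), if_pos (show q + 1 ≤ p by omega), if_pos (show q + 2 ≤ p by omega)]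
        exact hm q hqp
      · have hqp' : q + 1 = p := by omega
        simp only [if_pos (show q ≤ p by omega), if_pos (show q + 1 ≤ p by omega), if_neg (show ¬ q + 2 ≤ p by omega)]
        have hsg := hi.seg q (by omega)
        rw [hqp', hi.last] at hsg ⊢
        have hpar := hsg.par
        have hq1 : ∀ x, Tight.sg (i q + 1) x = -Tight.sg b x := by
          intro x
          rw [← hs]
          exact sg_par (by rw [Nat.even_add_one]; exact hpar.symm) x
        unfold rg
        rw [hq1, hq1, hs1, hs1]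
        have h5 := hhi (i q) (hr q (by omega)) (by have := hsg.lt; omega)
        omega
    · intro q hq
      rcases Nat.lt_or_ge p q with hqp | hqp
      · simp only [if_neg (show ¬ q ≤ p by omega)]
        omega
      · simp only [if_pos hqp]
        exact hr q hqp
    · intro j j1 j2
      simp only [Nat.add_sub_cancel, if_pos le_rfl, hi.last]
      have := c3 j j1 j2
      rw [hb1, hb1] at this
      omega

/-- the index sequence from the first extremum over [0, l] to l: first piece F, L, then decreasing ranges -/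
lemma left_seq (hA : Alt y m) {l : ℕ} (h1 : 1 ≤ l) (hl : l ≤ m) : ∃ (F L p : ℕ) (i : ℕ → ℕ), F < L ∧ L ≤ l ∧
    (Even L ↔ ¬ Even F) ∧
    (∀ j, j ≤ l → Tight.sg (F + 1) (y F) ≤ Tight.sg (F + 1) (y j)) ∧
    (∀ j, j < F → Tight.sg (F + 1) (y F) < Tight.sg (F + 1) (y j)) ∧
    (∀ j, j ≤ l → Tight.sg (F + 1) (y j) ≤ Tight.sg (F + 1) (y L)) ∧
    Hw y L l p i ∧ (∀ q, q + 1 < p → rg y (i (q + 1)) (i (q + 2)) ≤ rg y (i q) (i (q + 1))) ∧
    ∀ q, q ≤ p → i q ≤ l := by
  obtain ⟨s, F, L, a1, a2, a3, a4, a5, a6⟩ := two_ext y l ⟨0, 1, by omega, h1, by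
    have := hA 0 (by omega)
    rw [zero_add, Tight.sg_one, Tight.sg_one] at this
    omega⟩
  have hF : Even F ↔ Even s := par_min hA (by omega) (a3 (F + 1) (by omega))
  obtain ⟨L', rfl⟩ : ∃ L', L = L' + 1 := ⟨L - 1, by omega⟩
  have hL : Even (L' + 1) ↔ ¬ Even s := par_max hA (by omega) (a5 L' (by omega))
  have hsF : ∀ x, Tight.sg (s + 1) x = Tight.sg (F + 1) x := fun x => sg_par (by
    rw [Nat.even_add_one, Nat.even_add_one, hF]) x
  have hsL : ∀ x, Tight.sg (L' + 1 + 1) x = - Tight.sg (F + 1) x := by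
    intro x
    rw [← Tight.sg_succ]
    exact sg_par (by rw [Nat.even_add_one (n := L' + 1), Nat.even_add_one (n := F + 1), Nat.even_add_one (n := F), hL, hF]) x
  simp only [hsF] at a3 a4 a5 a6
  obtain ⟨p, i, b1, b2, b3⟩ := hw_left hA hl (l - (L' + 1)) (L' + 1) (by omega) (fun j j1 j2 => by
    rw [hsL, hsL]
    have := a6 j j1 j2
    omega)
  exact ⟨F, L' + 1, p, i, a1, a2, by rw [hL, hF], a3, a4, a5, b1, b2, b3⟩

/-- the index sequence from a to the last extremum over [a, m]: increasing ranges, the last piece has the full range -/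
lemma right_seq (hA : Alt y m) {a : ℕ} (ha : a < m) : ∃ (b p : ℕ) (i : ℕ → ℕ), a < b ∧ b ≤ m ∧ 1 ≤ p ∧
    Hw y a b p i ∧ (∀ q, q + 1 < p → rg y (i q) (i (q + 1)) ≤ rg y (i (q + 1)) (i (q + 2))) ∧
    (∀ q, q ≤ p → a ≤ i q) ∧
    (∀ j, a ≤ j → j ≤ m → Tight.sg b (y j) ≤ Tight.sg b (y b)) ∧
    (∀ j, b < j → j ≤ m → Tight.sg b (y j) < Tight.sg b (y b)) ∧
    (∀ j, a ≤ j → j ≤ m → Tight.sg b (y (i (p - 1))) ≤ Tight.sg b (y j)) := by
  obtain ⟨s, F, L, a1, a2, a3, a4, a5, a6⟩ := two_ext (fun j => y (a + j)) (m - a) ⟨0, 1, by omega, by omega, by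
    have := hA a ha
    intro he
    simp only [add_zero] at he
    rw [he] at this
    omega⟩
  obtain ⟨b', hb'⟩ : ∃ b', a + L = b' + 1 := ⟨a + L - 1, by omega⟩
  have hL : Even (b' + 1) ↔ ¬ Even s := par_max hA (by omega) (by
    have := a5 (L - 1) (by omega)
    rw [show a + (L - 1) = b' by omega, hb'] at this
    exact this)
  have hsb : ∀ x, Tight.sg (s + 1) x = Tight.sg (a + L) x := fun x => sg_par (by
    rw [hb', hL, Nat.even_add_one]) x
  simp only [hsb] at a3 a4 a5 a6
  have b5 : ∀ j, a ≤ j → j ≤ m → Tight.sg (a + L) (y j) ≤ Tight.sg (a + L) (y (a + L)) := by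
    intro j j1 j2
    have := a5 (j - a) (by omega)
    rwa [show a + (j - a) = j by omega] at this
  obtain ⟨p, i, c1, c2, c3, c4⟩ := hw_right2 hA (a := a) L (a + L) rfl (by omega) (fun j j1 j2 => b5 j j1 (by omega))
  obtain ⟨c5, c6⟩ := c4 (by omega)
  refine ⟨a + L, p, i, by omega, by omega, c5, c1, c2, c3, b5, ?_, ?_⟩
  · intro j j1 j2
    have := a6 (j - a) (by omega) (by omega)
    rwa [show a + (j - a) = j by omega] at this
  · intro j j1 j2
    have h7 := a3 (j - a) (by omega)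
    rw [show a + (j - a) = j by omega] at h7
    exact (c6 (a + F) (by omega) (by omega)).trans h7

/-- folds of an integer function with steps of a size at least R -/
structure FG (f : ℕ → ℤ) (n m : ℕ) (e : ℕ → ℕ) (R : ℤ) : Prop where
  pos : 1 ≤ m
  Rpos : 0 < R
  lt : ∀ j, j < m → e j < e (j + 1)
  le : e m ≤ n
  lo0 : ∀ i, e 0 ≤ i → i ≤ e 1 → f (e 0) ≤ f i
  lo : ∀ j, 1 ≤ j → j < m → ∀ i, e j < i → i ≤ e (j + 1) → Tight.sg (j + 1) (f (e j)) < Tight.sg (j + 1) (f i)
  hi : ∀ j, j < m → ∀ i, e j ≤ i → i ≤ e (j + 1) → Tight.sg (j + 1) (f i) ≤ Tight.sg (j + 1) (f (e (j + 1)))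
  big : ∀ j, j < m → R ≤ Tight.sg (j + 1) (f (e (j + 1))) - Tight.sg (j + 1) (f (e j))
  beg : ∀ i, i < e 0 → f (e 0) < f i ∧ f i < f (e 0) + R
  fin : ∀ i, e m < i → i ≤ n → Tight.sg m (f i) < Tight.sg m (f (e m)) ∧ Tight.sg m (f (e m)) < Tight.sg m (f i) + R

section

variable {f : ℕ → ℤ} {n : ℕ} {e : ℕ → ℕ} {R : ℤ}

lemma FG.alt (H : FG f n m e R) : Alt (fun j => f (e j)) m := by
  intro j hj
  have h1 := H.big j hj
  have h2 := H.Rpos
  show Tight.sg (j + 1) (f (e j)) < Tight.sg (j + 1) (f (e (j + 1)))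
  omega

lemma FG.mono (H : FG f n m e R) {a b : ℕ} (hab : a ≤ b) (hb : b ≤ m) : e a ≤ e b := by
  obtain ⟨d, rfl⟩ := Nat.exists_eq_add_of_le hab
  have : ∀ d', d' ≤ d → e a ≤ e (a + d') := by
    intro d'
    induction d' with
    | zero => intro _; exact le_rfl
    | succ d' ih =>
      intro hd'
      have a1 := ih (by omega)
      have a2 := H.lt (a + d') (by omega)
      rw [← add_assoc]
      omega
  exact this d le_rfl

lemma FG.smono (H : FG f n m e R) {a b : ℕ} (hab : a < b) (hb : b ≤ m) : e a < e b := by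
  have h1 := H.lt a (by omega)
  have h2 := H.mono (a := a + 1) (b := b) (by omega) hb
  omega

/-- in a piece -/
lemma FG.piece (H : FG f n m e R) {j : ℕ} (hj : j < m) {x : ℕ} (h1 : e j ≤ x) (h2 : x ≤ e (j + 1)) (k : ℕ) :
    Tight.sg k (f (e j)) ≤ Tight.sg k (f x) ∨ Tight.sg k (f (e (j + 1))) ≤ Tight.sg k (f x) := by
  have hlo : Tight.sg (j + 1) (f (e j)) ≤ Tight.sg (j + 1) (f x) := by
    rcases Nat.eq_zero_or_pos j with h0 | h0
    · subst h0
      rw [zero_add, Tight.sg_one, Tight.sg_one]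
      exact H.lo0 x h1 h2
    · rcases Nat.eq_or_lt_of_le h1 with h3 | h3
      · rw [h3]
      · exact (H.lo j h0 hj x h3 h2).le
  have hhi := H.hi j hj x h1 h2
  by_cases hp : Even k ↔ Even (j + 1)
  · left
    rw [sg_par hp, sg_par hp]
    exact hlo
  · right
    have hneg : ∀ z, Tight.sg k z = - Tight.sg (j + 1) z := by
      intro z
      rw [← Tight.sg_succ]
      exact sg_par (by rw [Nat.even_add_one (n := j + 1)]; tauto) z
    rw [hneg, hneg]
    omega

lemma find_leaf' {E : ℕ → ℕ} {x a : ℕ} : ∀ d, E a < x → x ≤ E (a + d) → ∃ j, a ≤ j ∧ j < a + d ∧ E j < x ∧ x ≤ E (j + 1) := by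
  intro d
  induction d with
  | zero =>
    intro h1 h2
    rw [add_zero] at h2
    omega
  | succ d ih =>
    intro h1 h2
    rcases Nat.lt_or_ge (E (a + d)) x with h3 | h3
    · exact ⟨a + d, by omega, by omega, h3, by rw [add_assoc]; exact h2⟩
    · obtain ⟨j, j1, j2, j3, j4⟩ := ih h1 h3
      exact ⟨j, j1, by omega, j3, j4⟩

/-- lower bounds at the times between two folds -/
lemma FG.btw (H : FG f n m e R) {a c : ℕ} (hac : a ≤ c) (hc : c ≤ m) {x : ℕ} (h1 : e a ≤ x) (h2 : x ≤ e c) (k : ℕ) {A : ℤ}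
    (hA : ∀ j, a ≤ j → j ≤ c → A ≤ Tight.sg k (f (e j))) : A ≤ Tight.sg k (f x) := by
  rcases Nat.eq_or_lt_of_le h1 with h3 | h3
  · rw [← h3]
    exact hA a le_rfl hac
  · obtain ⟨j, j1, j2, j3, j4⟩ := find_leaf' (c - a) h3 (by rw [show a + (c - a) = c by omega]; exact h2)
    rcases H.piece (j := j) (by omega) j3.le j4 k with h | h
    · exact (hA j j1 (by omega)).trans h
    · exact (hA (j + 1) (by omega) (by omega)).trans h

/-- strict lower bounds behind the last extremum -/
lemma FG.sbtw (H : FG f n m e R) {a c : ℕ} (ha : 1 ≤ a) (hac : a ≤ c) (hc : c ≤ m) {x : ℕ} (h1 : e a < x) (h2 : x ≤ e c)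
    (k : ℕ) (hA : ∀ j, a < j → j ≤ c → Tight.sg k (f (e a)) < Tight.sg k (f (e j))) :
    Tight.sg k (f (e a)) < Tight.sg k (f x) := by
  obtain ⟨j, j1, j2, j3, j4⟩ := find_leaf' (c - a) h1 (by rw [show a + (c - a) = c by omega]; exact h2)
  rcases Nat.eq_or_lt_of_le j1 with h | h
  · subst h
    by_cases hp : Even k ↔ Even (a + 1)
    · rw [sg_par hp, sg_par hp]
      exact H.lo a ha (by omega) x j3 j4
    · exfalso
      have hneg : ∀ z, Tight.sg k z = - Tight.sg (a + 1) z := by
        intro z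
        rw [← Tight.sg_succ]
        exact sg_par (by rw [Nat.even_add_one (n := a + 1)]; tauto) z
      have h3 := hA (a + 1) (by omega) (by omega)
      have h4 := H.big a (by omega)
      have h5 := H.Rpos
      rw [hneg, hneg] at h3
      omega
  · rcases H.piece (j := j) (by omega) j3.le j4 k with h3 | h3
    · exact lt_of_lt_of_le (hA j h (by omega)) h3
    · exact lt_of_lt_of_le (hA (j + 1) (by omega) (by omega)) h3

/-- lower bounds from the beginning -/
lemma FG.ini (H : FG f n m e R) {l : ℕ} (h1 : 1 ≤ l) (hl : l ≤ m) {x : ℕ} (h2 : x ≤ e l) (k : ℕ) {A : ℤ}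
    (hA : ∀ j, j ≤ l → A ≤ Tight.sg k (f (e j))) : A ≤ Tight.sg k (f x) := by
  rcases Nat.lt_or_ge x (e 0) with h3 | h3
  · obtain ⟨b1, b2⟩ := H.beg x h3
    have b3 := H.big 0 (by omega)
    rw [zero_add, Tight.sg_one, Tight.sg_one] at b3
    have c0 := hA 0 (by omega)
    have c1 := hA 1 h1
    rcases Nat.even_or_odd k with hk | hk
    · rw [Tight.sg_even hk] at c1 ⊢
      omega
    · rw [Tight.sg_odd (Nat.not_even_iff_odd.2 hk)] at c0 ⊢
      omega
  · exact H.btw (Nat.zero_le l) hl h3 h2 k fun j _ j2 => hA j j2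

/-- the last part, strictly inside -/
lemma FG.lastp (H : FG f n m e R) {x : ℕ} (h1 : e m < x) (h2 : x ≤ n) (k : ℕ) {A : ℤ}
    (hA : A ≤ Tight.sg k (f (e m))) (hA' : A ≤ Tight.sg k (f (e (m - 1)))) : A < Tight.sg k (f x) := by
  obtain ⟨b1, b2⟩ := H.fin x h1 h2
  have hm := H.pos
  have b3 := H.big (m - 1) (by omega)
  rw [show m - 1 + 1 = m by omega] at b3
  by_cases hp : Even k ↔ Even m
  · rw [sg_par hp] at hA' ⊢
    omega
  · have hneg : ∀ z, Tight.sg k z = - Tight.sg m z := by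
      intro z
      rw [← Tight.sg_succ]
      exact sg_par (by rw [Nat.even_add_one]; tauto) z
    rw [hneg] at hA ⊢
    omega

/-- lower bounds to the end -/
lemma FG.endb (H : FG f n m e R) {a : ℕ} (ha : a < m) {x : ℕ} (h1 : e a ≤ x) (h2 : x ≤ n) (k : ℕ) {A : ℤ}
    (hA : ∀ j, a ≤ j → j ≤ m → A ≤ Tight.sg k (f (e j))) : A ≤ Tight.sg k (f x) := by
  rcases Nat.lt_or_ge (e m) x with h3 | h3
  · exact (H.lastp h3 h2 k (hA m (by omega) le_rfl) (hA (m - 1) (by omega) (by omega))).le
  · exact H.btw ha.le le_rfl h1 h3 k hA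

/-- strict lower bounds to the end -/
lemma FG.sendb (H : FG f n m e R) {b : ℕ} (hb : 1 ≤ b) (hbm : b ≤ m) {x : ℕ} (h1 : e b < x) (h2 : x ≤ n)
    (hA : ∀ j, b < j → j ≤ m → Tight.sg (b + 1) (f (e b)) < Tight.sg (b + 1) (f (e j))) :
    Tight.sg (b + 1) (f (e b)) < Tight.sg (b + 1) (f x) := by
  rcases Nat.lt_or_ge (e m) x with h3 | h3
  · rcases Nat.eq_or_lt_of_le hbm with h4 | h4
    · subst h4
      rw [Tight.sg_succ, Tight.sg_succ]
      have := (H.fin x h3 h2).1
      omega
    · refine H.lastp h3 h2 _ (hA m h4 le_rfl).le ?_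
      rcases Nat.eq_or_lt_of_le (show b ≤ m - 1 by omega) with h5 | h5
      · rw [← h5]
      · exact (hA (m - 1) h5 (by omega)).le
  · exact H.sbtw hb hbm le_rfl h1 h3 _ hA

/-- the times of a segment that does not start at the first fold -/
lemma FG.seg (H : FG f n m e R) {a c : ℕ} (hs : Seg (fun j => f (e j)) a c) (ha : 1 ≤ a) (hc : c ≤ m) :
    (∀ x, e a < x → x ≤ e c → Tight.sg (a + 1) (f (e a)) < Tight.sg (a + 1) (f x)) ∧
    (∀ x, e a ≤ x → x ≤ e c → Tight.sg (a + 1) (f x) ≤ Tight.sg (a + 1) (f (e c))) ∧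
    R ≤ Tight.sg (a + 1) (f (e c)) - Tight.sg (a + 1) (f (e a)) := by
  have hac := hs.lt
  refine ⟨fun x x1 x2 => H.sbtw ha hac.le hc x1 x2 _ fun j j1 j2 => hs.lo j j1 j2, fun x x1 x2 => ?_, ?_⟩
  · have e2 : ∀ z, Tight.sg (a + 1 + 1) z = - Tight.sg (a + 1) z := fun z => Tight.sg_succ _ _
    have := H.btw hac.le hc x1 x2 (a + 1 + 1) (A := - Tight.sg (a + 1) (f (e c))) (fun j j1 j2 => by
      rw [e2]
      have := hs.hi j j1 j2
      omega)
    rw [e2] at this
    omega
  · have b1 := H.big a (by omega)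
    have b2 := hs.hi (a + 1) (by omega) (by omega)
    omega

/-- THE LEFT PART, times -/
lemma left_time (H : FG f n m e R) {l : ℕ} (hl : l < m) : ∃ (F p : ℕ) (E : ℕ → ℕ), E p = e l ∧ (Even (F + p) ↔ Even l) ∧
    (p = 0 → l = 0) ∧ (l = 0 → p = 0) ∧ (∀ q, q < p → E q < E (q + 1)) ∧
    (1 ≤ p → ∀ i, E 0 ≤ i → i ≤ E 1 → Tight.sg (F + 1) (f (E 0)) ≤ Tight.sg (F + 1) (f i)) ∧
    (∀ q, 1 ≤ q → q < p → ∀ i, E q < i → i ≤ E (q + 1) → Tight.sg (F + q + 1) (f (E q)) < Tight.sg (F + q + 1) (f i)) ∧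
    (∀ q, q < p → ∀ i, E q ≤ i → i ≤ E (q + 1) → Tight.sg (F + q + 1) (f i) ≤ Tight.sg (F + q + 1) (f (E (q + 1)))) ∧
    (∀ q, q < p → R ≤ Tight.sg (F + q + 1) (f (E (q + 1))) - Tight.sg (F + q + 1) (f (E q))) ∧
    (∀ q, q + 1 < p → Tight.sg (F + (q + 1) + 1) (f (E (q + 2))) - Tight.sg (F + (q + 1) + 1) (f (E (q + 1))) ≤
      Tight.sg (F + q + 1) (f (E (q + 1))) - Tight.sg (F + q + 1) (f (E q))) ∧
    (∀ i, i < E 0 → Tight.sg (F + 1) (f (E 0)) < Tight.sg (F + 1) (f i)) ∧
    (∀ i, i < E 0 → Tight.sg (F + 1) (f i) - Tight.sg (F + 1) (f (E 0)) ≤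
      if p = 0 then R else Tight.sg (F + 1) (f (E 1)) - Tight.sg (F + 1) (f (E 0))) := by
  rcases Nat.eq_zero_or_pos l with h0 | h0
  · subst h0
    refine ⟨0, 0, e, rfl, Iff.rfl, fun _ => rfl, fun _ => rfl, fun q hq => absurd hq (by omega),
      fun h => absurd h (by omega), fun q _ hq => absurd hq (by omega), fun q hq => absurd hq (by omega),
      fun q hq => absurd hq (by omega), fun q hq => absurd hq (by omega), ?_, ?_⟩
    · intro i hi
      rw [zero_add, Tight.sg_one, Tight.sg_one]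
      exact (H.beg i hi).1
    · intro i hi
      rw [if_pos rfl, zero_add, Tight.sg_one, Tight.sg_one]
      have := (H.beg i hi).2
      omega
  · obtain ⟨F, L, p, i, a1, a2, a3, a4, a5, a6, a7, a8, a9⟩ := left_seq H.alt (l := l) h0 hl.le
    have e2 : ∀ z, Tight.sg (F + 1 + 1) z = - Tight.sg (F + 1) z := fun z => Tight.sg_succ _ _
    -- the first time
    have hex : ∃ x, f x = f (e F) := ⟨e F, rfl⟩
    classical
    obtain ⟨E0, hE0⟩ : ∃ E0, E0 = Nat.find hex := ⟨_, rfl⟩
    have hE1 : f E0 = f (e F) := by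
      rw [hE0]
      exact Nat.find_spec hex
    have hE2 : E0 ≤ e F := by
      rw [hE0]
      exact Nat.find_min' hex rfl
    have hE3 : ∀ x, x < E0 → f x ≠ f (e F) := by
      intro x hx
      rw [hE0] at hx
      exact Nat.find_min hex hx
    have heL : e F < e L := H.smono a1 (by omega)
    have heLl : e L ≤ e l := H.mono a2 hl.le
    -- the bounds
    have lob : ∀ x, x ≤ e l → Tight.sg (F + 1) (f (e F)) ≤ Tight.sg (F + 1) (f x) := fun x hx =>
      H.ini h0 hl.le hx _ fun j hj => a4 j hj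
    have hib : ∀ x, x ≤ e l → Tight.sg (F + 1) (f x) ≤ Tight.sg (F + 1) (f (e L)) := by
      intro x hx
      have := H.ini h0 hl.le hx (F + 1 + 1) (A := - Tight.sg (F + 1) (f (e L))) (fun j hj => by
        rw [e2]
        have := a6 j hj
        omega)
      rw [e2] at this
      omega
    have hpar : ∀ q, q ≤ p → (Even (i q) ↔ Even (F + (q + 1))) := by
      intro q hq
      rw [hw_par a7 q hq, Nat.even_add, a3, ← add_assoc, Nat.even_add_one, Nat.even_add (m := F)]
      tauto
    have hsgq : ∀ q, q ≤ p → ∀ x, Tight.sg (F + (q + 1) + 1) x = Tight.sg (i q + 1) x := by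
      intro q hq x
      exact sg_par (by rw [Nat.even_add_one, Nat.even_add_one, hpar q hq]) x
    have hi1 : ∀ q, q ≤ p → 1 ≤ i q := by
      intro q hq
      have h1 := hw_mono a7 (q := 0) (q' := q) (Nat.zero_le q) hq
      rw [a7.zero] at h1
      omega
    have hseg : ∀ q, q < p → _ := fun q hq => H.seg (a7.seg q hq) (hi1 q hq.le) ((a9 (q + 1) (by omega)).trans hl.le)
    refine ⟨F, p + 1, fun q => if q = 0 then E0 else e (i (q - 1)), ?_, ?_, fun h => absurd h (by omega),
      fun h => absurd h (by omega), ?_, ?_, ?_, ?_, ?_, ?_, ?_, ?_⟩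
    · simp only [if_neg (Nat.succ_ne_zero p), Nat.add_sub_cancel, a7.last]
    · rw [← hpar p le_rfl, a7.last]
    · intro q hq
      rcases Nat.eq_zero_or_pos q with hq0 | hq0
      · subst hq0
        simp only [if_true, zero_add, if_neg one_ne_zero, Nat.sub_self, a7.zero]
        omega
      · simp only [if_neg (show q ≠ 0 by omega), if_neg (show q + 1 ≠ 0 by omega), Nat.add_sub_cancel]
        have h1 := (a7.seg (q - 1) (by omega)).lt
        rw [show q - 1 + 1 = q by omega] at h1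
        exact H.smono h1 ((a9 q (by omega)).trans hl.le)
    · intro _ x x1 x2
      simp only [if_true, if_neg one_ne_zero, Nat.sub_self, a7.zero] at x1 x2 ⊢
      rw [hE1]
      exact lob x (by omega)
    · intro q q1 q2 x x1 x2
      simp only [if_neg (show q ≠ 0 by omega), if_neg (show q + 1 ≠ 0 by omega), Nat.add_sub_cancel] at x1 x2 ⊢
      obtain ⟨q', rfl⟩ : ∃ q', q = q' + 1 := ⟨q - 1, by omega⟩
      rw [Nat.add_sub_cancel] at x1 ⊢
      rw [hsgq q' (by omega), hsgq q' (by omega)]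
      exact (hseg q' (by omega)).1 x x1 x2
    · intro q hq x x1 x2
      rcases Nat.eq_zero_or_pos q with hq0 | hq0
      · subst hq0
        simp only [if_true, zero_add, if_neg one_ne_zero, Nat.sub_self, a7.zero, add_zero] at x1 x2 ⊢
        exact hib x (by omega)
      · simp only [if_neg (show q ≠ 0 by omega), if_neg (show q + 1 ≠ 0 by omega), Nat.add_sub_cancel] at x1 x2 ⊢
        obtain ⟨q', rfl⟩ : ∃ q', q = q' + 1 := ⟨q - 1, by omega⟩
        rw [Nat.add_sub_cancel] at x1
        rw [hsgq q' (by omega), hsgq q' (by omega)]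
        exact (hseg q' (by omega)).2.1 x x1 x2
    · intro q hq
      rcases Nat.eq_zero_or_pos q with hq0 | hq0
      · subst hq0
        simp only [if_true, zero_add, if_neg one_ne_zero, Nat.sub_self, a7.zero, add_zero]
        rw [hE1]
        have b1 := H.big F (by omega)
        have b2 := a6 (F + 1) (by omega)
        omega
      · simp only [if_neg (show q ≠ 0 by omega), if_neg (show q + 1 ≠ 0 by omega), Nat.add_sub_cancel]
        obtain ⟨q', rfl⟩ : ∃ q', q = q' + 1 := ⟨q - 1, by omega⟩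
        rw [Nat.add_sub_cancel, hsgq q' (by omega), hsgq q' (by omega)]
        exact (hseg q' (by omega)).2.2
    · intro q hq
      rcases Nat.eq_zero_or_pos q with hq0 | hq0
      · subst hq0
        simp only [if_true, zero_add, if_neg one_ne_zero, Nat.sub_self, a7.zero, add_zero,
          if_neg (show (2 : ℕ) ≠ 0 by omega), show 2 - 1 = 1 from rfl]
        rw [hE1, e2, e2]
        have b1 := a4 (i 1) (a9 1 (by omega))
        omega
      · simp only [if_neg (show q ≠ 0 by omega), if_neg (show q + 1 ≠ 0 by omega), if_neg (show q + 2 ≠ 0 by omega),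
          Nat.add_sub_cancel, show q + 2 - 1 = q + 1 by omega]
        obtain ⟨q', rfl⟩ : ∃ q', q = q' + 1 := ⟨q - 1, by omega⟩
        rw [Nat.add_sub_cancel, hsgq q' (by omega), hsgq q' (by omega), hsgq (q' + 1) (by omega), hsgq (q' + 1) (by omega)]
        exact a8 q' (by omega)
    · intro x hx
      simp only [if_true] at hx ⊢
      have h1 := lob x (by omega)
      have h2 := hE3 x hx
      rw [hE1]
      refine lt_of_le_of_ne h1 fun he => h2 ?_
      unfold Tight.sg at he
      split_ifs at he <;> omega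
    · intro x hx
      simp only [if_true, if_neg one_ne_zero, Nat.sub_self, a7.zero, if_neg (Nat.succ_ne_zero p)] at hx ⊢
      have h1 := hib x (by omega)
      rw [hE1]
      omega

/-- THE RIGHT PART, times -/
lemma right_time (H : FG f n m e R) {l : ℕ} (hl : l < m) : ∃ (s : ℕ) (E : ℕ → ℕ), E 0 = e (l + 1) ∧ E s ≤ n ∧
    (∀ q, q < s → E q < E (q + 1)) ∧
    (∀ q, q < s → ∀ i, E q < i → i ≤ E (q + 1) →
      Tight.sg (l + 1 + q + 1) (f (E q)) < Tight.sg (l + 1 + q + 1) (f i)) ∧
    (∀ q, q < s → ∀ i, E q ≤ i → i ≤ E (q + 1) →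
      Tight.sg (l + 1 + q + 1) (f i) ≤ Tight.sg (l + 1 + q + 1) (f (E (q + 1)))) ∧
    (∀ q, q < s → R ≤ Tight.sg (l + 1 + q + 1) (f (E (q + 1))) - Tight.sg (l + 1 + q + 1) (f (E q))) ∧
    (∀ q, q + 1 < s → Tight.sg (l + 1 + q + 1) (f (E (q + 1))) - Tight.sg (l + 1 + q + 1) (f (E q)) ≤
      Tight.sg (l + 1 + (q + 1) + 1) (f (E (q + 2))) - Tight.sg (l + 1 + (q + 1) + 1) (f (E (q + 1)))) ∧
    (∀ i, E s < i → i ≤ n → Tight.sg (l + 1 + s) (f i) < Tight.sg (l + 1 + s) (f (E s))) ∧
    (∀ i, E s < i → i ≤ n → Tight.sg (l + 1 + s) (f (E s)) - Tight.sg (l + 1 + s) (f i) ≤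
      if s = 0 then R else Tight.sg (l + 1 + s) (f (E s)) - Tight.sg (l + 1 + s) (f (E (s - 1)))) := by
  rcases Nat.eq_or_lt_of_le (show l + 1 ≤ m from hl) with h0 | h0
  · refine ⟨0, fun _ => e (l + 1), rfl, by rw [h0]; exact H.le, fun q hq => absurd hq (by omega),
      fun q hq => absurd hq (by omega), fun q hq => absurd hq (by omega), fun q hq => absurd hq (by omega),
      fun q hq => absurd hq (by omega), ?_, ?_⟩
    · intro i i1 i2
      have i3 : e m < i := by rw [← h0]; exact i1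
      show Tight.sg (l + 1) (f i) < Tight.sg (l + 1) (f (e (l + 1)))
      rw [h0]
      exact (H.fin i i3 i2).1
    · intro i i1 i2
      have i3 : e m < i := by rw [← h0]; exact i1
      rw [if_pos rfl]
      show Tight.sg (l + 1) (f (e (l + 1))) - Tight.sg (l + 1) (f i) ≤ R
      rw [h0]
      have := (H.fin i i3 i2).2
      omega
  · obtain ⟨b, p, i, a1, a2, a3, a4, a5, a6, a7, a8, a9⟩ := right_seq H.alt (a := l + 1) h0
    have hpar : ∀ q, q ≤ p → (Even (i q) ↔ Even (l + 1 + q)) := fun q hq => hw_par a4 q hq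
    have hsgq : ∀ q, q ≤ p → ∀ x, Tight.sg (l + 1 + q + 1) x = Tight.sg (i q + 1) x := by
      intro q hq x
      exact sg_par (by rw [Nat.even_add_one, Nat.even_add_one, hpar q hq]) x
    have hsb : ∀ x, Tight.sg (l + 1 + p) x = Tight.sg b x := fun x => sg_par (by rw [← hpar p le_rfl, a4.last]) x
    have hib : ∀ q, q ≤ p → i q ≤ m := by
      intro q hq
      have h1 := hw_mono a4 (q := q) (q' := p) hq le_rfl
      rw [a4.last] at h1
      omega
    have hseg : ∀ q, q < p → _ := fun q hq => H.seg (a4.seg q hq) (by have := a6 q hq.le; omega) (hib (q + 1) (by omega))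
    refine ⟨p, fun q => e (i q), ?_, ?_, ?_, ?_, ?_, ?_, ?_, ?_, ?_⟩
    · show e (i 0) = _
      rw [a4.zero]
    · show e (i p) ≤ n
      exact (H.mono (hib p le_rfl) le_rfl).trans H.le
    · intro q hq
      exact H.smono (a4.seg q hq).lt (hib (q + 1) (by omega))
    · intro q hq x x1 x2
      rw [hsgq q hq.le, hsgq q hq.le]
      exact (hseg q hq).1 x x1 x2
    · intro q hq x x1 x2
      rw [hsgq q hq.le, hsgq q hq.le]
      exact (hseg q hq).2.1 x x1 x2
    · intro q hq
      rw [hsgq q hq.le, hsgq q hq.le]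
      exact (hseg q hq).2.2
    · intro q hq
      rw [hsgq q (by omega), hsgq q (by omega), hsgq (q + 1) (by omega), hsgq (q + 1) (by omega)]
      exact a5 q hq
    · intro x x1 x2
      simp only [a4.last] at x1 ⊢
      rw [hsb, hsb]
      have := H.sendb (b := b) (by omega) a2 x1 x2 (fun j j1 j2 => by
        rw [Tight.sg_succ, Tight.sg_succ]
        have := a8 j j1 j2
        omega)
      rw [Tight.sg_succ, Tight.sg_succ] at this
      omega
    · intro x x1 x2
      simp only [a4.last, if_neg (show p ≠ 0 by omega)] at x1 ⊢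
      rw [hsb, hsb, hsb]
      have := H.endb h0 (x := x) ((H.mono a1.le a2).trans x1.le) x2 b (A := Tight.sg b (f (e (i (p - 1)))))
        (fun j j1 j2 => a9 j j1 j2)
      omega

end

end GM

end NTW

end HexObs
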