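import Pool.Agent.NTW.QDefs
import Pool.Agent.NTW.GeoM

/-!
NTW: the monotone chain of leaves through a marked leaf (two free ends).
-/

set_option autoImplicit false

namespace HexObs

namespace NTW

open Finset TS SDN SDN.ZZ NTm GM

/-- the folds of a walk as the folds of an integer function -/
lemma fg_of {b m u : ℕ} {t : List Bool} {e : ℕ → ℕ} (hb : 1 ≤ b) (h : Fd b t m u e) :
    FG (fun i => Tight.sg u (lev t i)) t.length m e (RR b) := by
  obtain ⟨h1, hG, h2, h3, h4, h5⟩ := h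
  have hR := RR_ge hb
  have hm : ∀ z : ℤ, Tight.sg m (Tight.sg u z) = Tight.sg (u + (m - 1)) z := by
    intro z
    rw [sgu, Nat.sub_add_cancel h1]
  refine ⟨h1, by omega, hG.lt, hG.le, hG.lo0, ?_, ?_, ?_, ?_, ?_⟩
  · intro j j1 j2 i i1 i2
    have := hG.lo j j1 j2 i i1 i2
    rw [sgu u j, sgu u j] at this
    exact this
  · intro j j1 i i1 i2
    have := hG.hi j j1 i i1 i2
    rw [sgu u j, sgu u j] at this
    exact this
  · intro j j1
    have := h2 j j1
    rw [sgu u j, sgu u j] at this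
    exact this
  · intro i hi
    refine ⟨hG.beg i hi, ?_⟩
    have a1 := h4 i (e 0) hi.le le_rfl
    have a2 := h4 (e 0) i le_rfl hi.le
    show Tight.sg u (lev t i) < Tight.sg u (lev t (e 0)) + RR b
    unfold Tight.sg
    split_ifs <;> omega
  · intro i i1 i2
    have a0 := hG.fin i i1 i2
    have a1 := h5 i (e m) i1.le i2 le_rfl hG.le
    have a2 := h5 (e m) i le_rfl hG.le i1.le i2
    simp only [hm]
    refine ⟨a0, ?_⟩
    clear a0
    unfold Tight.sg
    split_ifs <;> omega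

theorem geoMono2 : GeoMono2 := by
  intro b m u t e hb _ht hFd l hl
  have H := fg_of hb hFd
  obtain ⟨f, hf⟩ : ∃ f : ℕ → ℤ, f = fun i => Tight.sg u (lev t i) := ⟨_, rfl⟩
  rw [← hf] at H
  have hR := RR_ge hb
  obtain ⟨F, p, EL, a1, a2, a3, a3', a4, a5, a6, a7, a8, a9, a10, a11⟩ := left_time H hl
  obtain ⟨s, ER, b1, b2, b3, b4, b5, b6, b7, b8, b9⟩ := right_time H hl
  -- signs
  have hsg : ∀ q i, Tight.sg (u + F + q) (lev t i) = Tight.sg (F + q + 1) (f i) := by
    intro q i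
    rw [add_assoc, sgu, hf]
  have hpl : ∀ q z, Tight.sg (F + (p + 1 + q) + 1) z = Tight.sg (l + 1 + q + 1) z := by
    intro q z
    refine NTm.sg_par ?_ z
    rw [show F + (p + 1 + q) + 1 = (F + p) + (q + 2) by ring, show l + 1 + q + 1 = l + (q + 2) by ring, Nat.even_add,
      Nat.even_add (m := l), a2]
  have hpp : ∀ z, Tight.sg (F + p + 1) z = Tight.sg (l + 1) z := by
    intro z
    exact NTm.sg_par (by rw [Nat.even_add_one, Nat.even_add_one, a2]) z
  obtain ⟨E, hE⟩ : ∃ E : ℕ → ℕ, E = fun q => if q ≤ p then EL q else ER (q - (p + 1)) := ⟨_, rfl⟩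
  have E1 : ∀ q, q ≤ p → E q = EL q := fun q hq => by
    rw [hE]
    exact if_pos hq
  have E2 : ∀ q, E (p + 1 + q) = ER q := by
    intro q
    rw [hE]
    show (if p + 1 + q ≤ p then EL (p + 1 + q) else ER (p + 1 + q - (p + 1))) = ER q
    rw [if_neg (by omega), show p + 1 + q - (p + 1) = q by omega]
  have E3 : E p = e l := by rw [E1 p le_rfl, a1]
  have E4 : E (p + 1) = e (l + 1) := by
    have := E2 0
    rw [add_zero] at this
    rw [this, b1]
  -- the three cases
  have key : ∀ q, q < p + 1 + s → E q < E (q + 1) ∧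
      (∀ i, E q ≤ i → i ≤ E (q + 1) → Tight.sg (F + q + 1) (f (E q)) ≤ Tight.sg (F + q + 1) (f i)) ∧
      (1 ≤ q → ∀ i, E q < i → i ≤ E (q + 1) → Tight.sg (F + q + 1) (f (E q)) < Tight.sg (F + q + 1) (f i)) ∧
      (∀ i, E q ≤ i → i ≤ E (q + 1) → Tight.sg (F + q + 1) (f i) ≤ Tight.sg (F + q + 1) (f (E (q + 1)))) ∧
      RR b ≤ Tight.sg (F + q + 1) (f (E (q + 1))) - Tight.sg (F + q + 1) (f (E q)) := by
    intro q hq
    have hw : ∀ {A : ℕ → Prop}, (∀ i, E q < i → A i) → A (E q) → ∀ i, E q ≤ i → A i := by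
      intro A h1 h2 i hi
      rcases Nat.eq_or_lt_of_le hi with h | h
      · rw [← h]
        exact h2
      · exact h1 i h
    rcases Nat.lt_trichotomy q p with h | h | h
    · rw [E1 q h.le, E1 (q + 1) (by omega)]
      refine ⟨a4 q h, ?_, fun h1 => a6 q h1 h, a7 q h, a8 q h⟩
      rcases Nat.eq_zero_or_pos q with h0 | h0
      · subst h0
        exact a5 (by omega)
      · intro i i1 i2
        rcases Nat.eq_or_lt_of_le i1 with h2 | h2
        · rw [h2]
        · exact (a6 q h0 h i h2 i2).le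
    · subst h
      rw [E3, E4]
      simp only [hpp]
      refine ⟨H.lt l hl, ?_, ?_, H.hi l hl, H.big l hl⟩
      · intro i i1 i2
        rcases Nat.eq_zero_or_pos l with h0 | h0
        · subst h0
          rw [zero_add, Tight.sg_one, Tight.sg_one]
          exact H.lo0 i i1 i2
        · rcases Nat.eq_or_lt_of_le i1 with h2 | h2
          · rw [h2]
          · exact (H.lo l h0 hl i h2 i2).le
      · intro h1 i i1 i2
        exact H.lo l (Nat.pos_of_ne_zero fun h0 => by
          have := a3' h0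
          omega) hl i i1 i2
    · obtain ⟨q', rfl⟩ : ∃ q', q = p + 1 + q' := ⟨q - (p + 1), by omega⟩
      rw [E2, show p + 1 + q' + 1 = p + 1 + (q' + 1) by ring, E2]
      simp only [hpl]
      refine ⟨b3 q' (by omega), ?_, fun _ => b4 q' (by omega), b5 q' (by omega), b6 q' (by omega)⟩
      intro i i1 i2
      rcases Nat.eq_or_lt_of_le i1 with h2 | h2
      · rw [h2]
      · exact (b4 q' (by omega) i h2 i2).le
  have hsr : ∀ z, Tight.sg (F + (p + s) + 1) z = Tight.sg (l + 1 + s) z := by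
    intro z
    refine NTm.sg_par ?_ z
    rw [show F + (p + s) + 1 = (F + p) + (s + 1) by ring, show l + 1 + s = l + (s + 1) by ring, Nat.even_add,
      Nat.even_add (m := l), a2]
  refine ⟨p + 1 + s, u + F, p, E, by omega, ⟨?_, ?_, ?_, ?_, ?_, ?_, ?_, ?_⟩, ?_, ?_, ?_, ?_, ?_, ?_⟩
  · exact fun q hq => (key q hq).1
  · rw [E2]
    exact b2
  · intro i i1 i2
    have := (key 0 (by omega)).2.1 i i1 i2
    have e0 : ∀ i, Tight.sg (u + F) (lev t i) = Tight.sg (F + 0 + 1) (f i) := fun i => hsg 0 i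
    rw [e0, e0]
    exact this
  · intro q q1 q2 i i1 i2
    rw [hsg, hsg]
    exact (key q q2).2.2.1 q1 i i1 i2
  · intro q q2 i i1 i2
    rw [hsg, hsg]
    exact (key q q2).2.2.2.1 i i1 i2
  · intro q q2
    rw [hsg, hsg]
    exact hR.trans (key q q2).2.2.2.2
  · intro i hi
    have e0 : ∀ i, Tight.sg (u + F) (lev t i) = Tight.sg (F + 0 + 1) (f i) := fun i => hsg 0 i
    rw [e0, e0]
    rw [E1 0 (Nat.zero_le _)] at hi ⊢
    exact a10 i hi
  · intro i i1 i2
    rw [show p + 1 + s - 1 = p + s by omega, hsg, hsg, hsr, hsr]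
    rw [E2] at i1 ⊢
    exact b8 i i1 i2
  · -- the leaf
    rintro g ⟨x, x1, x2, x3, x4, x5⟩
    rw [E3] at x1 x2
    rw [E4] at x3 x4
    refine ⟨x, x1, x2, x3, x4, fun i i1 i2 => ?_⟩
    rw [x5 i i1 i2]
    refine NTm.sg_par ?_ _
    rw [add_assoc, Nat.even_add, Nat.even_add (m := u), a2]
  · intro q q2
    unfold RG
    rw [hsg, hsg]
    exact (key q q2).2.2.2.2
  · intro q hq
    unfold RG
    rw [hsg, hsg, hsg, hsg, E1 q (by omega), E1 (q + 1) (by omega), show q + 1 + 1 = q + 2 from rfl,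
      E1 (q + 2) (by omega)]
    exact a9 q hq
  · intro q q1 q2
    obtain ⟨q', rfl⟩ : ∃ q', q = p + 1 + q' := ⟨q - (p + 1), by omega⟩
    unfold RG
    rw [hsg, hsg, hsg, hsg, show p + 1 + q' + 1 = p + 1 + (q' + 1) by ring,
      show p + 1 + (q' + 1) + 1 = p + 1 + (q' + 2) by ring, E2, E2, E2]
    simp only [hpl]
    exact b7 q' (by omega)
  · intro i hi
    have e0 : ∀ i, Tight.sg (u + F) (lev t i) = Tight.sg (F + 0 + 1) (f i) := fun i => hsg 0 i
    rw [e0, e0]
    rw [E1 0 (Nat.zero_le _)] at hi ⊢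
    have h1 := a11 i hi
    rw [show F + 0 + 1 = F + 1 from rfl]
    refine h1.trans (le_of_eq ?_)
    split_ifs with h0
    · rfl
    · unfold RG
      rw [hsg, hsg, E1 0 (Nat.zero_le _), zero_add, E1 1 (by omega)]
  · intro i i1 i2
    rw [show p + 1 + s - 1 = p + s by omega, hsg, hsg, hsr, hsr]
    rw [E2] at i1 ⊢
    refine (b9 i i1 i2).trans (le_of_eq ?_)
    rcases Nat.eq_zero_or_pos s with h0 | h0
    · rw [if_pos h0, if_pos (by omega)]
    · rw [if_neg (by omega), if_neg (by omega)]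
      unfold RG
      obtain ⟨s', rfl⟩ : ∃ s', s = s' + 1 := ⟨s - 1, by omega⟩
      rw [Nat.add_sub_cancel, hsg, hsg, show p + (s' + 1) + 1 = p + 1 + (s' + 1) by ring, E2,
        show p + (s' + 1) = p + 1 + s' by ring, E2, hpl, hpl]
      rfl

end NTW

end HexObs
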