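import Pool.Agent.NTW.RepB

/-!
NTW, two ended representation, part E: the last leaf and the free end behind it.
-/

set_option autoImplicit false

namespace HexObs

namespace NTW

open Finset TS SDN

namespace Rp

/-- a word that starts downwards -/
lemma vx_neg' (u : List Bool) (i : ℕ) : vx oo (-up) u i = -vx oo up u i ∧ dx (-up) u i = -dx up u i := by
  induction i with
  | zero => exact ⟨neg_zero.symm, rfl⟩
  | succ i ih =>
    constructor
    · rw [vx_succ, vx_succ, ih.1, ih.2, neg_add]
    · rw [dx_succ, dx_succ, ih.2]
      cases tf u i <;> simp only [turn, rotL, rotR] <;> ext <;> simp <;> ring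

lemma vx_tr (P d : Pt) (w : List Bool) (i : ℕ) : vx P d w i = P + vx oo d w i := by
  induction i with
  | zero => exact (add_zero P).symm
  | succ i ih => rw [vx_succ, ih, vx_succ, add_assoc]

lemma vx_down {q : List Bool} {p : ℕ} (hd : dx up q p = -up) (j : ℕ) :
    vx oo up (q.drop p) j = vx oo up q p - vx oo up q (p + j) := by
  rw [vx_drop q p j, hd, vx_tr (vx oo up q p) (-up), (vx_neg' _ _).1]
  abel

lemma SSt_of {m : ℕ} {w : List Bool} (h1 : ∀ i, 1 ≤ i → i ≤ w.length → 0 < lev w i ∧ lev w i < 3 * m + 2)
    (h2 : ∀ i k, i < k → k ≤ w.length → vx oo up w i ≠ vx oo up w k) : w ∈ SSt m :=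
  ⟨fun i i1 i2 => mem_St.2 (h1 i i1 i2), h2⟩

lemma concat_last {q : List Bool} {n : ℕ} (h : n + 1 = q.length) : q = q.take n ++ [tf q n] := by
  have h1 : q.drop n = [tf q n] := by
    rw [List.drop_eq_getElem_cons (by omega)]
    have h2 : q.drop (n + 1) = [] := List.drop_eq_nil_of_le (by omega)
    rw [h2]
    unfold tf
    rw [List.getD_eq_getElem?_getD, List.getElem?_eq_getElem (by omega)]
    rfl
  conv_lhs => rw [← List.take_append_drop n q, h1]

lemma drop_cons {q : List Bool} {n : ℕ} (h : n < q.length) : q.drop n = tf q n :: q.drop (n + 1) := by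
  rw [List.drop_eq_getElem_cons h]
  congr 1
  unfold tf
  rw [List.getD_eq_getElem?_getD, List.getElem?_eq_getElem h]
  rfl

lemma lst_concat (w : List Bool) (c : Bool) : lst (w ++ [c]) = c := by
  unfold lst
  rw [List.getLastD_eq_getLast?, List.getLast?_concat]
  rfl

lemma endF_zero (x : Bool) (w : List Bool) : endF x 0 none w = w.dropLast ++ [x] := rfl

lemma endF_one (x : Bool) (w : List Bool) : endF x 1 none w = w ++ [x] := rfl

lemma endF_two (x : Bool) (w : List Bool) : endF x 2 none w = w.dropLast ++ [!lst w, x] := rfl

/-- **the last leaf and the free end** -/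
theorem end_q {q : List Bool} {E N1 : ℕ} (hE : 1 ≤ E) (hEq : E ≤ q.length)
    (hinj : ∀ i k, 1 ≤ i → i < k → k ≤ q.length → vx oo up q i ≠ vx oo up q k)
    (h1 : ∀ j, 1 ≤ j → j ≤ E → 0 < lev q j ∧ lev q j ≤ lev q E) (h3 : 3 ≤ lev q E)
    (hfin : ∀ i, E < i → i ≤ q.length → lev q i < lev q E ∧ lev q E - lev q i ≤ 3 * N1) :
    ∃ (g : List Bool) (M : ℕ) (o' : Option (List Bool)) (x : Bool) (y : Fin 3), 1 ≤ M ∧ g ∈ Brd M ∧
      |lev q E - 3 * M| ≤ 2 ∧ g.length ≤ E ∧ E ≤ g.length + 1 ∧ (∀ i, i ≤ g.length → vx oo up g i = vx oo up q i) ∧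
      q = endF x y o' g ∧ (∀ W ∈ o', W ∈ SSt N1 ∧ LFold g W) ∧ |lev q q.length - lev q E + lvW o'| ≤ 4 ∧
      q.length ≤ g.length + (o'.getD []).length + 3 ∧ g.length + (o'.getD []).length ≤ q.length + 3 := by
  have hinjE : ∀ i k, 1 ≤ i → i < k → k ≤ E → vx oo up q i ≠ vx oo up q k := fun i k i1 i2 i3 =>
    hinj i k i1 i2 (i3.trans hEq)
  obtain ⟨m, hm⟩ : ∃ m, E = m + 1 := ⟨E - 1, by omega⟩
  rcases Nat.eq_or_lt_of_le hEq with hEl | hEl
  · by_cases hev : Even E
    · -- even end
      obtain ⟨c, M, hM1, hM, hc, hB, hgl, hvg⟩ := leaf_even hE hEq hinjE h1 hev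
      refine ⟨q.take (E - 1) ++ [!c], M, none, tf q m, 0, hM1, hB, ?_, by rw [hgl], by rw [hgl]; omega, ?_, ?_, ?_, ?_, ?_, ?_⟩
      · rw [hM]
        simp
      · intro i hi
        rw [hgl] at hi
        exact hvg i hi
      · rw [endF_zero, List.dropLast_concat, show E - 1 = m by omega]
        exact concat_last (by omega)
      · intro W hW
        exact absurd hW (by simp)
      · rw [← hEl]
        show |lev q E - lev q E + 0| ≤ 4
        simp
      · rw [hgl]
        show q.length ≤ E + 0 + 3
        omega
      · rw [hgl]
        show E + 0 ≤ q.length + 3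
        omega
    · -- odd end
      have h4 : 4 ≤ lev q E := by
        have := lev_mod q E
        rw [if_neg hev] at this
        omega
      obtain ⟨M, hM1, hM, -, hB, hgl⟩ := leaf_odd hEq h4 hinjE h1 hev
      refine ⟨q.take (E - 1), M, none, tf q m, 1, hM1, hB, ?_, by rw [hgl]; omega, by rw [hgl]; omega, ?_, ?_, ?_, ?_, ?_, ?_⟩
      · rw [hM, show (3 * (M : ℤ) + 2 - 3 * M) = 2 by ring]
        norm_num
      · intro i hi
        rw [hgl] at hi
        exact take_vx' (by omega) (by omega)
      · rw [endF_one, show E - 1 = m by omega]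
        exact concat_last (by omega)
      · intro W hW
        exact absurd hW (by simp)
      · rw [← hEl]
        show |lev q E - lev q E + 0| ≤ 4
        simp
      · rw [hgl]
        show q.length ≤ E - 1 + 0 + 3
        omega
      · rw [hgl]
        show E - 1 + 0 ≤ q.length + 3
        omega
  · -- a fold
    have hev : Even E := even_top hE h1 (hfin (E + 1) (by omega) (by omega)).1
    obtain ⟨c, M, hM1, hM, hc, hB, hgl, hvg⟩ := leaf_even hE hEq hinjE h1 hev
    rw [hm] at hM
    rw [show E - 1 = m by omega] at hc hB hgl hvg
    have hf1 := (hfin (E + 1) (by omega) (by omega)).1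
    rw [show E + 1 = m + 2 by omega, hm] at hf1
    obtain ⟨l1, l2, l3, l4⟩ := fold_letters hM hc hf1
    rcases Nat.eq_or_lt_of_le (show E + 1 ≤ q.length by omega) with hq1 | hq1
    · -- one vertex behind the fold
      refine ⟨q.take m ++ [!c], M, none, tf q (m + 1), 2, hM1, hB, ?_, by rw [hgl], by rw [hgl]; omega, ?_, ?_, ?_, ?_, ?_, ?_⟩
      · rw [hm, hM]
        simp
      · intro i hi
        rw [hgl] at hi
        exact hvg i hi
      · rw [endF_two, List.dropLast_concat, lst_concat, Bool.not_not]
        conv_lhs => rw [← List.take_append_drop m q]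
        rw [drop_cons (show m < q.length by omega), drop_cons (show m + 1 < q.length by omega), l1,
          List.drop_eq_nil_of_le (show q.length ≤ m + 1 + 1 by omega)]
      · intro W hW
        exact absurd hW (by simp)
      · rw [← hq1, show E + 1 = m + 2 by omega, hm, l3, hM]
        show |(3 * (M : ℤ) - 1 - 3 * M + 0)| ≤ 4
        rw [show (3 * (M : ℤ) - 1 - 3 * M + 0) = -1 by ring]
        norm_num
      · rw [hgl]
        show q.length ≤ E + 0 + 3
        omega
      · rw [hgl]
        show E + 0 ≤ q.length + 3
        omega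
    · -- a free end
      have hf2 := (hfin (E + 2) (by omega) (by omega)).1
      rw [show E + 2 = m + 3 by omega, hm] at hf2
      obtain ⟨l5, l6⟩ := l4 hf2
      obtain ⟨r, hr⟩ : ∃ r, r = q.drop (m + 2) := ⟨_, rfl⟩
      have hrl : r.length + (m + 2) = q.length := by
        rw [hr, List.length_drop]
        omega
      have hrne : r ≠ [] := by
        intro h
        rw [h] at hrl
        simp at hrl
        omega
      obtain ⟨W, hW⟩ : ∃ W, W = r.dropLast := ⟨_, rfl⟩
      have hWl : W.length + 1 = r.length := by
        rw [hW, List.length_dropLast]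
        have : 1 ≤ r.length := List.length_pos_iff.2 hrne
        omega
      have hrW : r = W ++ [lst r] := by
        have h5 : lst r = r.getLast hrne := by
          unfold lst
          rw [List.getLastD_eq_getLast?, List.getLast?_eq_some_getLast hrne]
          rfl
        rw [h5, hW]
        exact (List.dropLast_append_getLast hrne).symm
      -- vertices of W
      have hvW : ∀ j, j ≤ W.length + 1 → vx oo up W j = vx oo up q (m + 2) - vx oo up q (m + 2 + j) := by
        intro j hj
        have e1 : vx oo up r j = vx oo up q (m + 2) - vx oo up q (m + 2 + j) := by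
          rw [hr]
          exact vx_down l6 j
        rw [← e1, hrW]
        exact (vx_append hj).symm
      have hlW : ∀ j, j ≤ W.length + 1 → lev W j = 3 * M - 1 - lev q (m + 2 + j) := by
        intro j hj
        have e1 : lev W j = lev q (m + 2) - lev q (m + 2 + j) := by
          have e2 := congrArg (fun p => ip p up) (hvW j hj)
          have e3 : ip (vx oo up q (m + 2) - vx oo up q (m + 2 + j)) up =
              ip (vx oo up q (m + 2)) up - ip (vx oo up q (m + 2 + j)) up := by
            simp only [ip, Prod.fst_sub, Prod.snd_sub]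
            ring
          simp only [e3] at e2
          exact e2
        rw [e1, l3]
      have hnn : ∀ j, j ≤ W.length + 1 → 0 ≤ lev W j := by
        intro j hj
        rw [hlW j hj]
        rcases Nat.eq_zero_or_pos j with h0 | h0
        · rw [h0, add_zero, l3]
          simp
        · have := (hfin (m + 2 + j) (by omega) (by omega)).1
          rw [hm, hM] at this
          omega
      have hupp : ∀ j, j ≤ W.length → lev W j ≤ 3 * N1 := by
        intro j hj
        rw [hlW j (by omega)]
        have := (hfin (m + 2 + j) (by omega) (by omega)).2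
        rw [hm, hM] at this
        omega
      refine ⟨q.take m ++ [!c], M, some W, lst r, 0, hM1, hB, ?_, by rw [hgl], by rw [hgl]; omega, ?_, ?_, ?_, ?_, ?_, ?_⟩
      · rw [hm, hM]
        simp
      · intro i hi
        rw [hgl] at hi
        exact hvg i hi
      · show q = (q.take m ++ [!c]).dropLast ++ (!lst (q.take m ++ [!c])) :: (!lst (q.take m ++ [!c])) :: (W ++ [lst r])
        rw [List.dropLast_concat, lst_concat, Bool.not_not, ← hrW]
        conv_lhs => rw [← List.take_append_drop m q]
        rw [drop_cons (show m < q.length by omega), drop_cons (show m + 1 < q.length by omega), l1, l5, hr]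
      · intro W' hW'
        have e1 : W' = W := by
          have := Option.mem_def.1 hW'
          exact (Option.some.inj this).symm
        rw [e1]
        refine ⟨SSt_of ?_ ?_, ?_⟩
        · intro i i1 i2
          refine ⟨pos_of_nonneg i1 fun j hj => hnn j (by omega), ?_⟩
          have := hupp i i2
          omega
        · intro i k hik hk heq
          rw [hvW i (by omega), hvW k (by omega)] at heq
          refine hinj (m + 2 + i) (m + 2 + k) (by omega) (by omega) (by omega) ?_
          exact sub_right_injective heq
        · show Hang (q.take m ++ [!c]) (lst (q.take m ++ [!c])) W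
          rw [lst_concat]
          refine hang_fold' (M := M) ?_ hinj (by omega) hM hc l2 ?_
          · intro k k1 k2
            rw [← hM, ← hm]
            exact (h1 k k1 (by omega)).2
          · intro k hk
            exact ⟨by omega, hvW k (by omega)⟩
      · show |lev q q.length - lev q E + lev W W.length| ≤ 4
        rw [hlW W.length (by omega), hm, hM]
        have e1 : q.length = m + 2 + W.length + 1 := by omega
        have e2 := lev_succ q (m + 2 + W.length)
        have e3 : ∀ d ∈ dirs, |ip d up| ≤ 2 := by decide
        have e4 := e3 _ (dx_mem upd q (m + 2 + W.length))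
        rw [e1, e2]
        rw [abs_le] at e4 ⊢
        constructor
        · linarith [e4.1]
        · linarith [e4.2]
      · rw [hgl]
        show q.length ≤ E + W.length + 3
        omega
      · rw [hgl]
        show E + W.length ≤ q.length + 3
        omega

end Rp

end NTW

end HexObs
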