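import Pool.Agent.NTW.RepB

/-!
NTW, two ended representation: the start. Before the first fold the walk is a reversed half plane word that hangs at
the start of the first leaf.
-/

set_option autoImplicit false

namespace HexObs

namespace NTW

open Finset TS SDN

namespace Rp

lemma sgP_turn (k : ℕ) (b : Bool) (d : Pt) : turn b (sgP k d) = sgP k (turn b d) := by
  unfold sgP
  split_ifs
  · exact turn_neg b d
  · rfl

/-- a walk in the frame of the piece number k -/
lemma vx_frame (k : ℕ) (P v d : Pt) (W : List Bool) (i : ℕ) :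
    vx (P + sgP k v) (sgP k d) W i = P + sgP k (vx v d W i) ∧ dx (sgP k d) W i = sgP k (dx d W i) := by
  induction i with
  | zero => exact ⟨rfl, rfl⟩
  | succ i ih =>
    obtain ⟨h1, h2⟩ := ih
    refine ⟨?_, ?_⟩
    · rw [vx_succ, vx_succ, h1, h2, sgP_add]
      abel
    · rw [dx_succ, dx_succ, h2, sgP_turn]

lemma sgP_zero (k : ℕ) : sgP k oo = oo := by
  unfold sgP
  split_ifs
  · decide
  · rfl

lemma vx_frame0 (k : ℕ) (P : Pt) (W : List Bool) (i : ℕ) :
    vx P (sgP k up) W i = P + sgP k (vx oo up W i) := by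
  have h := (vx_frame k P oo up W i).1
  rw [sgP_zero] at h
  have e : P + oo = P := add_zero P
  rwa [e] at h

lemma sgP_mem (k : ℕ) : sgP k up ∈ dirs := dD_mem false k

lemma turn_aux1 : ∀ D ∈ dirs, ∀ b c c0 : Bool, turn c0 D = turn b (turn c (turn c D)) → c = c0 ∧ b = !c0 := by
  decide

lemma turn_aux2 : ∀ D ∈ dirs, ∀ b c : Bool, turn c (turn c D) = turn b (-D) → b = !c := by
  decide

/-- the three steps before and behind the first fold -/
lemma start_steps {D : Pt} (hD : D ∈ dirs) {t : List Bool} {f : ℕ}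
    (h01 : xD D t 1 = xD D t 0 + 2 ∨ xD D t 1 = xD D t 0 - 2)
    (hf : 1 ≤ f) (hbeg : ∀ i, i < f → xD D t f < xD D t i) (hlo : xD D t f ≤ xD D t (f + 1)) :
    ∃ (c0 : Bool) (l : ℕ), f = l + 2 ∧ dx up t (l + 2) = turn c0 D ∧ dx up t (l + 1) = turn c0 (turn c0 D) ∧
      dx up t l = -D ∧ tf t (l + 1) = !c0 ∧ tf t l = !c0 ∧ xD D t (l + 1) = xD D t (l + 2) + 1 := by
  obtain ⟨l, rfl⟩ : ∃ l, f = l + 1 := ⟨f - 1, by omega⟩
  have hb1 := hbeg l (by omega)
  have hcs := cl_step t l
  have hds := dx_succ up t l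
  rcases cl_cases hD t (l + 1) with hc | hc
  · exfalso
    rcases step_pos hD hc with ⟨a1, -⟩ | a2
    · rw [hc] at hcs
      have hc' : cl (dx up t l) = -cl D := by
        rw [hcs, neg_neg]
      rcases step_neg hD hc' with ⟨b1, -⟩ | b2
      · rw [a1, b1] at hds
        have h4 := SDN.turn_ne_neg (tf t l) (dirs_neg hD)
        rw [neg_neg] at h4
        exact h4 hds.symm
      · omega
    · omega
  · have hc' : cl (dx up t l) = cl D := by
      rw [hc] at hcs
      exact (neg_injective hcs).symm
    obtain ⟨c0, hc0⟩ : ∃ c0 : Bool, dx up t (l + 1) = turn c0 D := by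
      rcases step_check' D hD _ (dx_mem upd t (l + 1)) hc with ⟨h1, h2⟩ | ⟨h1, h2⟩ | ⟨h1, h2⟩
      · exfalso
        have h3 := xD_succ D t (l + 1)
        rw [h2] at h3
        omega
      · exact ⟨true, h1⟩
      · exact ⟨false, h1⟩
    obtain ⟨c, hc1, hL⟩ : ∃ c : Bool, dx up t l = turn c (turn c D) ∧ xD D t (l + 1) = xD D t l - 1 := by
      rcases step_check D hD _ (dx_mem upd t l) hc' with ⟨h1, h2⟩ | ⟨h1, h2⟩ | ⟨h1, h2⟩
      · exfalso
        have h3 := xD_succ D t l
        rw [h2] at h3
        omega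
      · exact ⟨true, h1, by rw [xD_succ, h2]; ring⟩
      · exact ⟨false, h1, by rw [xD_succ, h2]; ring⟩
    rw [hc0, hc1] at hds
    obtain ⟨e1, e2⟩ := turn_aux1 D hD _ _ _ hds
    subst e1
    have hl0 : l ≠ 0 := by
      rintro rfl
      rw [zero_add] at hL
      omega
    obtain ⟨k, rfl⟩ : ∃ k, l = k + 1 := ⟨l - 1, by omega⟩
    have hcs2 := cl_step t k
    have hds2 := dx_succ up t k
    rw [hc'] at hcs2
    have hc2 : cl (dx up t k) = -cl D := by
      rw [hcs2, neg_neg]
    rcases step_neg hD hc2 with ⟨b1, -⟩ | b2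
    · rw [hc1, b1] at hds2
      exact ⟨c, k, rfl, hc0, hc1, b1, e2, turn_aux2 D hD _ _ hds2, by
        have e : xD D t (k + 2) = xD D t (k + 1 + 1) := rfl
        rw [e, hL]
        ring⟩
    · exfalso
      have := hbeg k (by omega)
      omega

lemma drop_two {t : List Bool} {l : ℕ} (h : l + 2 ≤ t.length) :
    t.drop l = tf t l :: tf t (l + 1) :: t.drop (l + 2) := by
  have h1 : tf t l = t[l]'(by omega) := by
    unfold tf
    rw [List.getD_eq_getElem _ _ (by omega)]
  have h2 : tf t (l + 1) = t[l + 1]'(by omega) := by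
    unfold tf
    rw [List.getD_eq_getElem _ _ (by omega)]
  rw [h1, h2, List.drop_eq_getElem_cons (show l < t.length by omega),
    List.drop_eq_getElem_cons (show l + 1 < t.length by omega)]

lemma sg_sg (k : ℕ) (x : ℤ) : Tight.sg k (Tight.sg k x) = x := by
  unfold Tight.sg
  split_ifs
  · ring
  · rfl

/-- the walk of the reversed beginning -/
lemma start_vx {t : List Bool} {u l : ℕ} (hl : l ≤ t.length) (hd : dx up t l = -(sgP u up)) {k : ℕ} (hk : k ≤ l + 1) :
    vx oo up t (l + 1 - k) = vx oo up t (l + 1) + sgP u (vx oo up (rev (t.take l)) k) := by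
  have hal : (t.take l).length = l := by
    rw [List.length_take]
    omega
  have h := vx_rev oo up (t.take l) k (by rw [hal]; exact hk)
  have e1 : tip oo up (t.take l) = vx oo up t (l + 1) := by
    unfold tip
    rw [hal, take_vx' hl le_rfl]
  have e2 : dx up (t.take l) (t.take l).length = -(sgP u up) := by
    rw [hal, take_dx' hl le_rfl, hd]
  rw [e1, e2, neg_neg, hal, take_vx' hl (by omega), vx_frame0] at h
  exact h.symm

lemma start_lev {t : List Bool} {u l : ℕ} (hl : l ≤ t.length) (hd : dx up t l = -(sgP u up)) {k : ℕ} (hk : k ≤ l + 1) :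
    lev (rev (t.take l)) k = Tight.sg u (lev t (l + 1 - k)) - Tight.sg u (lev t (l + 1)) := by
  have h := congrArg (fun p => ip p up) (start_vx hl hd hk)
  simp only [ip_add_left, ip_sgP] at h
  have h' : lev t (l + 1 - k) = lev t (l + 1) + Tight.sg u (lev (rev (t.take l)) k) := h
  rw [h', sg_add, sg_sg]
  ring

/-- the start of the first leaf hangs at the reversed beginning -/
lemma start_hang {t : List Bool} {u l : ℕ} {c0 : Bool} (ht : t ∈ SA) (hl : l + 2 ≤ t.length)
    (hd : dx up t l = -(sgP u up)) (hd1 : dx up t (l + 1) = turn c0 (turn c0 (sgP u up))) {g : List Bool} {k : ℕ}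
    (hg : g ∈ Brd k) (hk : 1 ≤ k) (hgl : l + 1 + g.length ≤ t.length)
    (hv : ∀ i, 1 ≤ i → i ≤ g.length → vx oo up t (l + 1 + i) = (vx oo up t (l + 2) - sgP u up) + sgP u (vx oo up g i))
    (hc : tf g 0 = c0) : LFold (rev g) (rev (t.take l)) := by
  obtain ⟨g1, g2, g3, g4⟩ := mem_Brd.1 hg
  have hgr := Brd_rev hg
  have hgr3 := (mem_Brd.1 hgr).2.2.1
  have hlen1 : 2 ≤ g.length := by
    by_contra hcon
    have h5 : g.length = 0 ∨ g.length = 1 := by omega
    rcases h5 with h5 | h5
    · rw [h5, lev_zero] at g4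
      omega
    · rw [h5, lev_one] at g4
      omega
  have hlst : lst (rev g) = !c0 := by
    have h5 : tf (rev g) (g.length - 1) = !c0 := by
      rw [tf_rev (by omega), show g.length - 1 - (g.length - 1) = 0 by omega, hc]
    rw [← h5]
    unfold lst tf
    rw [List.getLastD_eq_getLast?, List.getLast?_eq_getElem?, rev_length, List.getD_eq_getElem?_getD]
  -- the vertex before the leaf, in the frame of the leaf
  have hv0 : vx oo up t (l + 1) = (vx oo up t (l + 2) - sgP u up) + sgP u (up + turn (!c0) up) := by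
    have e1 : vx oo up t (l + 2) = vx oo up t (l + 1) + turn c0 (turn c0 (sgP u up)) := by
      rw [show l + 2 = l + 1 + 1 from rfl, vx_succ, hd1]
    have e2 : turn c0 (turn c0 (sgP u up)) = -sgP u (turn (!c0) up) := by
      rw [sgP_turn, sgP_turn, ← sgP_neg]
      congr 1
      cases c0 <;> decide
    rw [e1, e2, sgP_add]
    abel
  unfold LFold
  rw [hlst]
  have hrv : ∀ j, 1 ≤ j → j ≤ (rev g).length → ∃ i, 1 ≤ i ∧ i ≤ g.length ∧
      vx oo up (rev g) j = vx oo up g g.length + up - vx oo up g i := by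
    intro j h1 h2
    rw [rev_length] at h2
    exact ⟨g.length + 1 - j, by omega, by omega, vx_rev_turned g3 (by omega)⟩
  have hend : vx oo up (rev g) (rev g).length = vx oo up g g.length := by
    have h5 := vx_rev_turned g3 (i := g.length) (by omega)
    rw [rev_length, h5, show g.length + 1 - g.length = 1 by omega, vx_one]
    abel
  apply hang_of hgr3
  · intro j h1 h2 heq
    obtain ⟨i, hi1, hi2, hi3⟩ := hrv j h1 h2
    rw [hi3, hend, Bool.not_not] at heq
    -- the vertex number i of g is the neighbour of the foot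
    have hx : vx oo up g i = turn (!c0) up + turn (!c0) up := by
      have e : vx oo up g i = up - turn c0 up - turn c0 (turn c0 up) := by
        linear_combination (-1 : Pt) * heq
      rw [e]
      cases c0 <;> decide
    have hlev : lev g i = 2 := by
      unfold lev
      rw [hx]
      cases c0 <;> decide
    have hi4 : i ≠ g.length := by
      rintro rfl
      rw [hlev] at g4
      omega
    have hodd : ¬ Even i := by
      intro he
      have h6 := lev_mod g i
      rw [if_pos he, hlev] at h6
      omega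
    obtain ⟨a, rfl⟩ : ∃ a, i = a + 1 := ⟨i - 1, by omega⟩
    have hea : Even a := by
      by_contra hh
      exact hodd (Nat.even_add_one.2 hh)
    have ha0 : a ≠ 0 := by
      rintro rfl
      rw [zero_add, vx_one] at hx
      revert hx
      cases c0 <;> decide
    have s1 := lev_succ g a
    have s2 := lev_succ g (a + 1)
    have p1 := vx_succ oo up g a
    have p2 := vx_succ oo up g (a + 1)
    have b1 := (g1 a (by omega) (by omega)).1
    have b2 := (g1 (a + 2) (by omega) (by omega)).1
    have c1 : dx up g a = -rotR up ∨ dx up g a = -rotL up := by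
      rcases step_even upd g hea with ⟨h, hip⟩ | ⟨h, hip⟩ | ⟨h, hip⟩
      · exfalso
        rw [hip, hlev] at s1
        omega
      · left
        rw [h]
        decide
      · right
        rw [h]
        decide
    have c2 : dx up g (a + 1) = rotL up ∨ dx up g (a + 1) = rotR up := by
      rcases step_odd upd g hodd with ⟨h, hip⟩ | ⟨h, hip⟩ | ⟨h, hip⟩
      · exfalso
        rw [hip, hlev] at s2
        have : lev g (a + 2) = lev g (a + 1 + 1) := rfl
        omega
      · exact Or.inl h
      · exact Or.inr h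
    -- none of the neighbours is the vertex before the leaf
    have n0 : ∀ i', 1 ≤ i' → i' ≤ g.length → vx oo up g i' ≠ up + turn (!c0) up := by
      intro i' h1' h2' heq'
      have h7 := hv i' h1' h2'
      rw [heq', ← hv0] at h7
      exact ht.inj (l + 1) (l + 1 + i') (by omega) (by omega) h7.symm
    have n1 := n0 a (by omega) (by omega)
    have n2 := n0 (a + 2) (by omega) (by omega)
    have n3 := g2 a (a + 2) (by omega) (by omega)
    rw [hx] at p1 p2
    have e1 : vx oo up g a = turn (!c0) up + turn (!c0) up - dx up g a := by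
      linear_combination (-1 : Pt) * p1
    have e2 : vx oo up g (a + 2) = turn (!c0) up + turn (!c0) up + dx up g (a + 1) := p2
    rw [e1] at n1 n3
    rw [e2] at n2 n3
    rcases c1 with c1 | c1 <;> rcases c2 with c2 | c2 <;> rw [c1] at n1 n3 <;> rw [c2] at n2 n3 <;>
      revert n1 n2 n3 <;> cases c0 <;> decide
  · intro j h1 h2 k' hk' heq
    obtain ⟨i, hi1, hi2, hi3⟩ := hrv j h1 h2
    have hal : (t.take l).length = l := by
      rw [List.length_take]
      omega
    rw [rev_length, hal] at hk'
    rw [hi3, hend, Bool.not_not] at heq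
    have hx : vx oo up g i = up + turn (!c0) up + vx oo up (rev (t.take l)) k' := by
      have e : vx oo up g i = up - turn c0 (turn c0 up) + vx oo up (rev (t.take l)) k' := by
        linear_combination (-1 : Pt) * heq
      rw [e]
      congr 1
      cases c0 <;> decide
    have h7 := hv i hi1 hi2
    have h8 := start_vx (t := t) (u := u) (l := l) (by omega) hd (k := k') (by omega)
    rw [hx, sgP_add, ← add_assoc, ← hv0, ← h8] at h7
    exact ht.inj (l + 1 - k') (l + 1 + i) (by omega) (by omega) h7.symm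

/-- **the start** -/
theorem start_rep {t : List Bool} {m u : ℕ} {e : ℕ → ℕ} {N0 : ℕ} (ht : t ∈ SA) (hm : 1 ≤ m) (h : FoldG t m u e)
    (h0 : ∀ i, i < e 0 → Tight.sg u (lev t i) - Tight.sg u (lev t (e 0)) ≤ 3 * N0) (he : 1 ≤ e 0) :
    ∃ (c0 : Bool) (W0 : List Bool), t = rev W0 ++ (!c0) :: (!c0) :: t.drop (e 0) ∧ W0.length + 2 = e 0 ∧
      Fr t u (e 0 - 1) (c0 :: t.drop (e 0)) ∧ W0 ∈ SSt N0 ∧
      |Tight.sg u (lev t 0) - Tight.sg u (lev t (e 0)) - lev W0 W0.length| ≤ 6 ∧
      ∀ (g : List Bool) (k : ℕ), g ∈ Brd k → 1 ≤ k → e 0 - 1 + g.length ≤ t.length →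
        (∀ i, i ≤ g.length → vx oo up g i = vx oo up (c0 :: t.drop (e 0)) i) → LFold (rev g) W0 := by
  have hD := sgP_mem u
  have hx : ∀ i, xD (sgP u up) t i = Tight.sg u (lev t i) := fun i => xD_false u t i
  have hlt := h.lt 0 (by omega)
  rw [zero_add] at hlt
  have hle : ∀ j, 1 ≤ j → j ≤ m → e 1 ≤ e j := by
    intro j h1 h2
    induction j with
    | zero => omega
    | succ j ih =>
      rcases Nat.eq_zero_or_pos j with hj | hj
      · rw [hj]
      · exact (ih hj (by omega)).trans (h.lt j (by omega)).le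
  have het : e 1 ≤ t.length := (hle m hm le_rfl).trans h.le
  have h01 : xD (sgP u up) t 1 = xD (sgP u up) t 0 + 2 ∨ xD (sgP u up) t 1 = xD (sgP u up) t 0 - 2 := by
    rw [hx, hx, lev_zero, lev_one]
    unfold Tight.sg
    split_ifs
    · right
      norm_num
    · left
      norm_num
  obtain ⟨c0, l, hf, d2, d1, d0, l1, l0, hlv⟩ := start_steps hD h01 he
    (fun i hi => by rw [hx, hx]; exact h.beg i hi) (by rw [hx, hx]; exact h.lo0 _ (by omega) (by omega))
  have hbeg := h.beg
  rw [hx, hx] at hlv
  rw [hf] at h0 hbeg hlt ⊢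
  have hl2 : l + 2 ≤ t.length := by omega
  have hal : (t.take l).length = l := by
    rw [List.length_take]
    omega
  have hwl : (rev (t.take l)).length = l := by rw [rev_length, hal]
  have hlev : ∀ k, k ≤ l + 1 → lev (rev (t.take l)) k = Tight.sg u (lev t (l + 1 - k)) -
      Tight.sg u (lev t (l + 1)) := fun k hk => start_lev (by omega) d0 hk
  have hFr : ∀ i, 1 ≤ i → vx oo up t (l + 1 + i) = (vx oo up t (l + 2) - sgP u up) +
      sgP u (vx oo up (c0 :: t.drop (l + 2)) i) := by
    intro i hi
    obtain ⟨j, rfl⟩ : ∃ j, i = j + 1 := ⟨i - 1, by omega⟩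
    have e1 : l + 1 + (j + 1) = l + 2 + j := by omega
    rw [e1, vx_drop, d2]
    have e2 := vx_drop (c0 :: t.drop (l + 2)) 1 j
    have e3 : (c0 :: t.drop (l + 2)).drop 1 = t.drop (l + 2) := rfl
    have e4 : dx up (c0 :: t.drop (l + 2)) 1 = turn c0 up := rfl
    rw [e3, e4, vx_one] at e2
    rw [add_comm j 1, e2, ← (vx_frame u _ _ _ _ _).1, sgP_turn, sub_add_cancel]
  refine ⟨c0, rev (t.take l), ?_, by rw [hwl], ⟨?_, vx oo up t (l + 2) - sgP u up, ?_⟩, ⟨?_, ?_⟩, ?_, ?_⟩
  · rw [rev_rev, ← l0]
    have e5 : (!c0) = tf t l := l0.symm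
    conv_rhs => rw [l0, e5]
    have e6 := drop_two hl2
    rw [l0] at e6
    rw [l1] at e6
    calc t = t.take l ++ t.drop l := (List.take_append_drop l t).symm
      _ = _ := by rw [e6, ← l0]
  · rw [List.length_cons, List.length_drop]
    omega
  · intro i hi1 hi2
    rw [show l + 2 - 1 = l + 1 from rfl]
    exact hFr i hi1
  · intro k k1 k2
    rw [hwl] at k2
    rw [mem_St]
    refine ⟨pos_of_nonneg k1 fun j hj => ?_, ?_⟩
    · rw [hlev j (by omega)]
      have := hbeg (l + 1 - j) (by omega)
      omega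
    · rw [hlev k (by omega)]
      have := h0 (l + 1 - k) (by omega)
      omega
  · intro a b hab hb heq
    rw [hwl] at hb
    have e1 := start_vx (t := t) (u := u) (l := l) (by omega) d0 (k := a) (by omega)
    have e2 := start_vx (t := t) (u := u) (l := l) (by omega) d0 (k := b) (by omega)
    rw [heq, ← e2] at e1
    exact ht.inj (l + 1 - b) (l + 1 - a) (by omega) (by omega) e1.symm
  · rw [hwl, hlev l (by omega), show l + 1 - l = 1 by omega]
    have h5 : Tight.sg u (lev t 1) = Tight.sg u (lev t 0) + 2 ∨ Tight.sg u (lev t 1) = Tight.sg u (lev t 0) - 2 := by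
      rw [← hx, ← hx]
      exact h01
    rw [abs_le]
    constructor <;> rcases h5 with h5 | h5 <;> omega
  · intro g k hg hk hgl hv
    rw [show l + 2 - 1 = l + 1 from rfl] at hgl
    obtain ⟨g1, g2, g3, g4⟩ := mem_Brd.1 hg
    have hlen1 : 2 ≤ g.length := by
      by_contra hcon
      have h5 : g.length = 0 ∨ g.length = 1 := by omega
      rcases h5 with h5 | h5
      · rw [h5, lev_zero] at g4
        omega
      · rw [h5, lev_one] at g4
        omega
    have htf : tf g 0 = c0 := by
      have h6 := hv 2 hlen1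
      have e1 : vx oo up g 2 = up + turn (tf g 0) up := by
        rw [show (2 : ℕ) = 1 + 1 from rfl, vx_succ, vx_one]
        rfl
      have e2 : vx oo up (c0 :: t.drop (l + 2)) 2 = up + turn c0 up := by
        rw [show (2 : ℕ) = 1 + 1 from rfl, vx_succ, vx_one]
        rfl
      rw [e1, e2] at h6
      have h7 := add_left_cancel h6
      revert h7
      cases tf g 0 <;> cases c0 <;> decide
    refine start_hang ht hl2 d0 d1 hg hk hgl (fun i hi1 hi2 => ?_) htf
    rw [hv i hi2]
    exact hFr i hi1

end Rp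

end NTW

end HexObs
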