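import Pool.Agent.NTW.RepU
import Pool.Agent.NTW.RepS
import Pool.Agent.NTW.RepE

/-!
NTW: every self-avoiding word with folds is two free ends and a chain of leaves.
-/

set_option autoImplicit false

namespace HexObs

namespace NTW

/-- the two ended representation -/
theorem rep_two : RepTwo :=
  Rp.rep_two_of (fun ht hm h h0 he => Rp.start_rep ht hm h h0 he)
    (fun hE hEq hinj h1 h3 hfin => Rp.end_q hE hEq hinj h1 h3 hfin)

end NTW

end HexObs
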