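import Pool.Agent.NTW.EqEvent
import Pool.Agent.NTW.GeoMono
import Pool.Agent.NTW.CoverV
import Pool.Agent.NTW.EventJ
import Pool.Agent.NTW.Rep2

/-!
NTW: the representation rep_two and the geometry plugged into the cover theorems and the event theorems (only the kernel
bound SsA remains as a hypothesis).
-/

set_option autoImplicit false

namespace HexObs

namespace NTW

open Finset TS SDN

open scoped ENNReal

theorem coverTwoR : CoverTwo := coverTwo rep_two

theorem coverVR : CoverV := coverV coverTwoR

/-- **the quantitative event theorem** -/
theorem eventQ2J (hA : SsA) : EventQ2 DmJ := eventQ2_of dmP geoMono2 coverVR hA ss3P ssDP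

end NTW

end HexObs
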