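import Pool.Agent.NTW.DomO
import Pool.Agent.NTW.WinK

/-!
NTW, block A with an end functional dominated by a number x (Dom): the rest of a leaf, windows, the operators of one more
leaf, its good and its bad part. The inputs of the giants (SsA, Ss3J) and of the end (EndsP) are hypotheses.
-/

set_option autoImplicit false

namespace HexObs

namespace NTW

open Finset TS SDN SDN.T2

open scoped ENNReal

open Rec8 (mb)

variable {C δ : ℝ}

/-- the sum over the last piece and the end, end functional dominated by x -/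
def EndsP : Prop := ∃ K : ℝ, 1 ≤ K ∧ ∀ (k : ℕ) (x : ℝ≥0∞) (Φ : List Bool → ℝ≥0∞), Dom k x Φ →
  ∑' m : ℕ, ∑' r : ℕ, mu k m r * Rec8.sw (Irr r) (fun P => Rec8.sw (Brd m) (fun M => Φ (P ++ M))) ≤ ENNReal.ofReal K * x

/-- the ends from the mean of the universal weight -/
lemma endsP_of (hA : SsA) : EndsP := endsD_of hA

/-- the giants next to a fold, parts up to the block a1 + 1, universal weight on the other side -/
def Ss3J : Prop := ∃ K c : ℝ, 1 ≤ K ∧ 0 < c ∧ ∀ (D0 k a1 b : ℕ) (I : List Bool), 2 ^ (k + 4) ≤ D0 → a1 ≤ k → b ≤ k →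
  ∑ a ∈ range (a1 + 2), ∑' r : ℕ, (if 2 ^ k < r then Rec8.sw (Irr r) (fun P => KT D0 b I a P * SS k P) else 0) ≤
    ENNReal.ofReal (K * (2 : ℝ) ^ (-(c * ((k : ℝ) - a1)))) * Sw D0 k b I

namespace DW

lemma sum_low (k r : ℕ) (F : List Bool → ℝ≥0∞) : ∑' m : ℕ, mu k m r * Rec8.sw (Brd m) F ≤
    min 1 ((r : ℝ≥0∞) / 2 ^ k) * Rec8.sw {M | ∃ m, m < 2 ^ (k + 1) ∧ M ∈ Brd m} F := by
  classical
  have h1 : ∑' m : ℕ, mu k m r * Rec8.sw (Brd m) F = ∑' m : ℕ, Rec8.sw (Brd m) ((fun m M => mu k m r * F M) m) := by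
    refine tsum_congr fun m => ?_
    exact (Rec8.sw_mul_left _ _ _).symm
  rw [h1, ← sB_BU (fun m M => mu k m r * F M)]
  have h2 : sB BU (fun X => wE X * (fun m M => mu k m r * F M) (hgt X) X) =
      Rec8.sw BU (fun X => mu k (hgt X) r * F X) := rfl
  rw [h2, ← Rec8.sw_mul_left]
  have h3 : Rec8.sw BU (fun X => mu k (hgt X) r * F X) ≤
      Rec8.sw BU (fun X => if hgt X < 2 ^ (k + 1) then min 1 ((r : ℝ≥0∞) / 2 ^ k) * F X else 0) := by
    refine Rec8.sw_mono' fun X _ => ?_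
    split_ifs with h
    · exact mul_le_mul' (mu_le_min _ _ _) le_rfl
    · rw [mu_eq_zero (not_lt.mp h), zero_mul]
  have h4 := Rec8.sw_and BU (fun X => hgt X < 2 ^ (k + 1)) (fun X => min 1 ((r : ℝ≥0∞) / 2 ^ k) * F X)
  have h5 : Rec8.sw BU (fun X => if hgt X < 2 ^ (k + 1) then min 1 ((r : ℝ≥0∞) / 2 ^ k) * F X else 0) =
      Rec8.sw {X | X ∈ BU ∧ hgt X < 2 ^ (k + 1)} (fun X => min 1 ((r : ℝ≥0∞) / 2 ^ k) * F X) := by
    rw [h4]
    refine Rec8.sw_congr fun X _ => ?_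
    by_cases h : hgt X < 2 ^ (k + 1)
    · rw [if_pos h, if_pos h]
    · rw [if_neg h, if_neg h]
  refine h3.trans ((le_of_eq h5).trans ?_)
  refine Rec8.sw_mono (fun X hX => ?_) fun _ _ => le_rfl
  obtain ⟨⟨m, hm⟩, hX2⟩ := hX
  rw [hgt_eq hm] at hX2
  exact ⟨m, hX2, hm⟩

lemma sum_low1 (k r : ℕ) (F : List Bool → ℝ≥0∞) : ∑' m : ℕ, mu k m r * Rec8.sw (Brd m) F ≤
    Rec8.sw {M | ∃ m, m < 2 ^ (k + 1) ∧ M ∈ Brd m} F :=
  (sum_low k r F).trans ((mul_le_mul' (min_le_left _ _) le_rfl).trans (le_of_eq (one_mul _)))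

/-- the rest of the leaf behind the piece P, functional of the height and the tail -/
theorem rest_dom (hE : EndsP) : ∃ K : ℝ, 1 ≤ K ∧ ∀ (E N k1 n r : ℕ) (κ x : ℝ≥0∞) (Φ : List Bool → ℝ≥0∞)
    (G : ℕ → List Bool → ℝ≥0∞) (P : List Bool), Dom k1 x Φ → (∀ h, Hered (G h)) → (∀ h t, G h t ≤ Φ t) →
    (∀ c t, ∑ v ∈ range (N + 1), gf (Brd v) * G (c + v) t ≤ κ * Φ t) → n + 2 ^ (k1 + 1) ≤ E → P ∈ Irr r →
    Rec8.sw {Z | Z ∈ BU ∧ ∃ Y ∈ Brd n, Y ++ (P ++ Z) ∈ BrR E N} (fun Z => G (n + r + hgt Z) (P ++ Z)) ≤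
      x * ((if E ≤ n + r + 2 ^ (k1 + 1) then SS k1 P else 0) + κ * ENNReal.ofReal K) := by
  obtain ⟨K, hK1, hK⟩ := hE
  refine ⟨K, hK1, fun E N k1 n r κ x Φ G P hΦ hG hGΦ hκ hn hP => ?_⟩
  refine (outR hn hP (fun Z => G (n + r + hgt Z) (P ++ Z))).trans ?_
  rw [mul_add]
  refine add_le_add ?_ ?_
  · split_ifs with hE
    · have h2 : ∑' m : ℕ, mu k1 m r * Rec8.sw {M | M ∈ Brd m ∧ ∃ Y ∈ Brd n, Y ++ (P ++ M) ∈ BrR E N}
          (fun Z => G (n + r + hgt Z) (P ++ Z)) ≤ ∑' m : ℕ, mu k1 m r * Rec8.sw (Brd m) (fun M => Φ (P ++ M)) := by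
        refine ENNReal.tsum_le_tsum fun m => ?_
        gcongr
        exact Rec8.sw_mono (fun t ht => ht.1) (fun t _ => hGΦ _ _)
      exact h2.trans ((sum_low1 k1 r _).trans (hΦ.bd r P hP))
    · rw [mul_zero, nonpos_iff_eq_zero, ENNReal.tsum_eq_zero]
      intro m
      rcases Nat.lt_or_ge m (2 ^ (k1 + 1)) with hm | hm
      · have e : {M : List Bool | M ∈ Brd m ∧ ∃ Y ∈ Brd n, Y ++ (P ++ M) ∈ BrR E N} = ∅ := by
          rw [Set.eq_empty_iff_forall_notMem]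
          rintro M ⟨hM, Y, hY, H, h1, -, h3⟩
          have := Brd_height h3 (Brd_append hY (Brd_append hP.1 hM))
          omega
        rw [e]
        unfold Rec8.sw
        rw [tsum_empty, mul_zero]
      · rw [mu_eq_zero hm, zero_mul]
  · have hPb : P ∈ Brd r := hP.1
    have h3 : ∀ m r' : ℕ, mu k1 m r' * Rec8.sw {Z | ∃ h, h ≤ N ∧ Z ∈ Brd h} (fun Z => Rec8.sw (Irr r') (fun P' =>
        Rec8.sw {M | M ∈ Brd m ∧ ∃ Y ∈ Brd n, Y ++ (P ++ (Z ++ (P' ++ M))) ∈ BrR E N}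
          (fun M => G (n + r + hgt (Z ++ (P' ++ M))) (P ++ (Z ++ (P' ++ M)))))) ≤
        κ * (mu k1 m r' * Rec8.sw (Irr r') (fun P' => Rec8.sw (Brd m) (fun M => Φ (P' ++ M)))) := by
      intro m r'
      rw [mul_left_comm]
      refine mul_le_mul_right ?_ _
      have e1 : Rec8.sw {Z | ∃ h, h ≤ N ∧ Z ∈ Brd h} (fun Z => Rec8.sw (Irr r') (fun P' =>
          Rec8.sw {M | M ∈ Brd m ∧ ∃ Y ∈ Brd n, Y ++ (P ++ (Z ++ (P' ++ M))) ∈ BrR E N}
            (fun M => G (n + r + hgt (Z ++ (P' ++ M))) (P ++ (Z ++ (P' ++ M)))))) ≤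
          Rec8.sw {Z | ∃ h, h ≤ N ∧ Z ∈ Brd h} (fun Z => (fun v => Rec8.sw (Irr r') (fun P' =>
            Rec8.sw (Brd m) (fun M => G ((n + r + r' + m) + v) (P' ++ M)))) (hgt Z)) := by
        refine Rec8.sw_mono' fun Z hZ => ?_
        obtain ⟨z, -, hZ⟩ := hZ
        refine Rec8.sw_mono' fun P' hP' => ?_
        refine Rec8.sw_mono (fun t ht => ht.1) fun M hM => ?_
        have e2 : hgt (Z ++ (P' ++ M)) = z + (r' + m) := hgt_eq (Brd_append hZ (Brd_append hP'.1 hM.1))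
        have e3 : n + r + hgt (Z ++ (P' ++ M)) = (n + r + r' + m) + hgt Z := by
          rw [e2, hgt_eq hZ]
          omega
        rw [e3, ← List.append_assoc]
        exact hG _ _ ⟨_, Brd_append hPb hZ⟩ _
      refine e1.trans ((WN.sw_le_range N (fun v => Rec8.sw (Irr r') (fun P' =>
            Rec8.sw (Brd m) (fun M => G ((n + r + r' + m) + v) (P' ++ M))))).trans ?_)
      have e4 : ∑ v ∈ range (N + 1), gf (Brd v) * Rec8.sw (Irr r') (fun P' =>
            Rec8.sw (Brd m) (fun M => G ((n + r + r' + m) + v) (P' ++ M))) =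
          Rec8.sw (Irr r') (fun P' => Rec8.sw (Brd m) (fun M =>
            ∑ v ∈ range (N + 1), gf (Brd v) * G ((n + r + r' + m) + v) (P' ++ M))) := by
        have e5 : ∀ P' : List Bool, Rec8.sw (Brd m) (fun M =>
            ∑ v ∈ range (N + 1), gf (Brd v) * G ((n + r + r' + m) + v) (P' ++ M)) =
            ∑ v ∈ range (N + 1), gf (Brd v) * Rec8.sw (Brd m) (fun M => G ((n + r + r' + m) + v) (P' ++ M)) := by
          intro P'
          rw [Rec8.sw_sum]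
          exact Finset.sum_congr rfl fun v _ => Rec8.sw_mul_left _ _ _
        simp only [e5]
        rw [Rec8.sw_sum]
        exact Finset.sum_congr rfl fun v _ => (Rec8.sw_mul_left _ _ _).symm
      rw [e4]
      calc Rec8.sw (Irr r') (fun P' => Rec8.sw (Brd m) (fun M =>
            ∑ v ∈ range (N + 1), gf (Brd v) * G ((n + r + r' + m) + v) (P' ++ M)))
          ≤ Rec8.sw (Irr r') (fun P' => Rec8.sw (Brd m) (fun M => κ * Φ (P' ++ M))) :=
            Rec8.sw_mono' fun P' _ => Rec8.sw_mono' fun M _ => hκ _ _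
        _ = κ * Rec8.sw (Irr r') (fun P' => Rec8.sw (Brd m) (fun M => Φ (P' ++ M))) := by
            rw [← Rec8.sw_mul_left]
            exact Rec8.sw_congr fun P' _ => Rec8.sw_mul_left _ _ _
    refine (ENNReal.tsum_le_tsum fun m => ENNReal.tsum_le_tsum fun r' => h3 m r').trans ?_
    simp only [ENNReal.tsum_mul_left]
    calc κ * ∑' m : ℕ, ∑' r' : ℕ, mu k1 m r' * Rec8.sw (Irr r') (fun P' => Rec8.sw (Brd m) (fun M => Φ (P' ++ M)))
        ≤ κ * (ENNReal.ofReal K * x) := mul_le_mul_right (hK k1 x Φ hΦ) _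
      _ = x * (κ * ENNReal.ofReal K) := by ring

/-- the mass of the bridges of height at most N -/
lemma sum_gf (N : ℕ) : ∑ v ∈ range (N + 1), gf (Brd v) ≤ ENNReal.ofReal (UU N) := by
  rw [Finset.sum_congr rfl fun v _ => NO_gf v,
    ← ENNReal.ofReal_sum_of_nonneg (f := uu) (fun s _ => ENNReal.toReal_nonneg)]
  exact ENNReal.ofReal_le_ofReal le_rfl

/-- the rest of the leaf behind the piece P -/
theorem rest_domN (hE : EndsP) : ∃ K : ℝ, 1 ≤ K ∧ ∀ (E N k1 n r : ℕ) (x : ℝ≥0∞) (Φ : List Bool → ℝ≥0∞)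
    (P : List Bool), Dom k1 x Φ → n + 2 ^ (k1 + 1) ≤ E → P ∈ Irr r →
    Rec8.sw {Z | Z ∈ BU ∧ ∃ Y ∈ Brd n, Y ++ (P ++ Z) ∈ BrR E N} (fun Z => Φ (P ++ Z)) ≤
      x * ((if E ≤ n + r + 2 ^ (k1 + 1) then SS k1 P else 0) + ENNReal.ofReal (K * UU N)) := by
  obtain ⟨K, hK, h1⟩ := rest_dom hE
  refine ⟨K, hK, fun E N k1 n r x Φ P hΦ hn hP => ?_⟩
  have h2 := h1 E N k1 n r (ENNReal.ofReal (UU N)) x Φ (fun _ => Φ) P hΦ (fun _ => hΦ.her) (fun _ _ => le_rfl)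
    (fun c t => by
      rw [← Finset.sum_mul]
      exact mul_le_mul' (sum_gf N) le_rfl) hn hP
  refine h2.trans (le_of_eq ?_)
  rw [ENNReal.ofReal_mul (by linarith), mul_comm (ENNReal.ofReal K)]

/-- one scale, n ≤ 2 ^ (k + 1) -/
lemma rest_one {K : ℝ} (h1 : ∀ (E N k1 n r : ℕ) (x : ℝ≥0∞) (Φ : List Bool → ℝ≥0∞)
    (P : List Bool), Dom k1 x Φ → n + 2 ^ (k1 + 1) ≤ E → P ∈ Irr r →
    Rec8.sw {Z | Z ∈ BU ∧ ∃ Y ∈ Brd n, Y ++ (P ++ Z) ∈ BrR E N} (fun Z => Φ (P ++ Z)) ≤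
      x * ((if E ≤ n + r + 2 ^ (k1 + 1) then SS k1 P else 0) + ENNReal.ofReal (K * UU N)))
    {D N k n r : ℕ} {x : ℝ≥0∞} {Φ : List Bool → ℝ≥0∞} {P : List Bool} (hΦ : Dom k x Φ) (hD : 2 ^ (k + 4) ≤ D)
    (hn : n ≤ 2 ^ (k + 1)) (hP : P ∈ Irr r) :
    Rec8.sw {Z | Z ∈ BU ∧ ∃ Y ∈ Brd n, Y ++ (P ++ Z) ∈ BrR D N} (fun Z => Φ (P ++ Z)) ≤
      x * ((if 2 ^ k < r then SS k P else 0) + ENNReal.ofReal (K * UU N)) := by
  have hp4 : 2 ^ (k + 4) = 8 * 2 ^ (k + 1) := by ring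
  have hp1 : 2 ^ (k + 1) = 2 * 2 ^ k := by ring
  have hp0 : 1 ≤ 2 ^ k := Nat.one_le_two_pow
  refine (h1 D N k n r x Φ P hΦ (by omega) hP).trans ?_
  refine mul_le_mul_right (add_le_add ?_ le_rfl) x
  by_cases h : D ≤ n + r + 2 ^ (k + 1)
  · rw [if_pos h, if_pos (by omega)]
  · rw [if_neg h]
    exact zero_le

/-- tail of a leaf from the piece over a level of the window k on, starting anywhere -/
theorem tail_dom (hA : SsA) : ∃ K : ℝ, 1 ≤ K ∧ ∀ (D N k n : ℕ) (R : ℝ) (x : ℝ≥0∞)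
    (Φ : List Bool → ℝ≥0∞), Dom k x Φ → 2 ^ (k + 4) ≤ D → 1 ≤ R → UU N ≤ R * Ub k →
    ∑' r : ℕ, mu k n r * Rec8.sw (Irr r) (fun P => Rec8.sw {Z | Z ∈ BU ∧ ∃ Y ∈ Brd n, Y ++ (P ++ Z) ∈ BrR D N}
      (fun Z => Φ (P ++ Z))) ≤ ENNReal.ofReal (K * R) * x := by
  obtain ⟨K1, hK1, hrest⟩ := rest_domN (endsP_of hA)
  obtain ⟨K2, hK2, hn2⟩ := hA
  obtain ⟨K3, hK3, havg⟩ := avg_mass
  refine ⟨K2 + K1 * K3, by nlinarith, fun D N k n R x Φ hΦ hD hR hU => ?_⟩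
  rcases le_or_gt (2 ^ (k + 1)) n with hn | hn
  · have h0 : ∀ r : ℕ, mu k n r = 0 := fun r => mu_eq_zero hn
    simp only [h0, zero_mul, tsum_zero]
    exact zero_le
  · have hUb : 0 < Ub k := Ub_pos k
    have h1 : ∀ r : ℕ, mu k n r * Rec8.sw (Irr r) (fun P => Rec8.sw {Z | Z ∈ BU ∧ ∃ Y ∈ Brd n, Y ++ (P ++ Z) ∈ BrR D N}
        (fun Z => Φ (P ++ Z))) ≤
        x * (min 1 ((r : ℝ≥0∞) / 2 ^ k) * Rec8.sw (Irr r) (fun P => SS k P)) +
          x * (ENNReal.ofReal (K1 * UU N) * (min 1 ((r : ℝ≥0∞) / 2 ^ k) * kap' r)) := by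
      intro r
      have h2 : Rec8.sw (Irr r) (fun P => Rec8.sw {Z | Z ∈ BU ∧ ∃ Y ∈ Brd n, Y ++ (P ++ Z) ∈ BrR D N}
          (fun Z => Φ (P ++ Z))) ≤
          x * Rec8.sw (Irr r) (fun P => SS k P) + x * (ENNReal.ofReal (K1 * UU N) * kap' r) := by
        refine (Rec8.sw_mono' (Ψ := fun P => x * (SS k P + ENNReal.ofReal (K1 * UU N))) fun P hP =>
          (rest_one hrest hΦ hD hn.le hP).trans (mul_le_mul_right (add_le_add ?_ le_rfl) x)).trans (le_of_eq ?_)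
        · split_ifs
          · exact le_rfl
          · exact zero_le
        · rw [Rec8.sw_mul_left, Rec8.sw_add, mul_add, NX_const]
          congr 2
          unfold kap'
          ring
      have hmu : mu k n r ≤ min 1 ((r : ℝ≥0∞) / 2 ^ k) := mu_le_min k n r
      calc mu k n r * Rec8.sw (Irr r) (fun P => Rec8.sw {Z | Z ∈ BU ∧ ∃ Y ∈ Brd n, Y ++ (P ++ Z) ∈ BrR D N}
            (fun Z => Φ (P ++ Z)))
          ≤ min 1 ((r : ℝ≥0∞) / 2 ^ k) * (x * Rec8.sw (Irr r) (fun P => SS k P) +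
            x * (ENNReal.ofReal (K1 * UU N) * kap' r)) := mul_le_mul' hmu h2
        _ = _ := by ring
    refine (ENNReal.tsum_le_tsum h1).trans ?_
    rw [ENNReal.tsum_add, ENNReal.tsum_mul_left, ENNReal.tsum_mul_left, ENNReal.tsum_mul_left]
    calc x * ∑' r : ℕ, min 1 ((r : ℝ≥0∞) / 2 ^ k) * Rec8.sw (Irr r) (fun P => SS k P) +
          x * (ENNReal.ofReal (K1 * UU N) * ∑' r : ℕ, min 1 ((r : ℝ≥0∞) / 2 ^ k) * kap' r)
        ≤ x * ENNReal.ofReal K2 + x * (ENNReal.ofReal (K1 * UU N) * ENNReal.ofReal (K3 / Ub k)) := by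
          gcongr
          · exact hn2 k
          · exact havg k
      _ ≤ x * ENNReal.ofReal (K2 * R) + x * ENNReal.ofReal (K1 * K3 * R) := by
          gcongr
          · nlinarith
          · rw [← ENNReal.ofReal_mul' (by positivity)]
            refine ENNReal.ofReal_le_ofReal ?_
            have h5 : K1 * UU N * (K3 / Ub k) = K1 * K3 * (UU N / Ub k) := by ring
            rw [h5]
            have h6 : UU N / Ub k ≤ R := (div_le_iff₀ hUb).2 hU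
            exact mul_le_mul_of_nonneg_left h6 (by positivity)
      _ = ENNReal.ofReal ((K2 + K1 * K3) * R) * x := by
          rw [← mul_add, ← ENNReal.ofReal_add (by positivity) (by positivity), mul_comm, add_mul]

/-- the sum of the terms of the giants and of the free rest -/
lemma sumS (D0 j b : ℕ) (I : List Bool) (x A : ℝ≥0∞) (e k1 : ℕ) (wt : ℕ → ℕ → ℝ≥0∞) (hwt : ∀ a r, wt a r ≤ 1) :
    ∑ a ∈ range (j + 2), ∑' r : ℕ, wt a r * Rec8.sw (Irr r) (fun P => KT D0 b I a P *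
      (x * ((if 2 ^ e < r then SS k1 P else 0) + A))) ≤
    x * (∑ a ∈ range (j + 2), ∑' r : ℕ, (if 2 ^ e < r then
      Rec8.sw (Irr r) (fun P => KT D0 b I a P * SS k1 P) else 0) +
      A * ∑ a ∈ range (j + 2), ∑' r : ℕ, wt a r * Rec8.sw (Irr r) (fun P => KT D0 b I a P)) := by
  rw [Finset.mul_sum, ← Finset.sum_add_distrib, Finset.mul_sum]
  refine Finset.sum_le_sum fun a _ => ?_
  rw [← ENNReal.tsum_mul_left, ← ENNReal.tsum_add, ← ENNReal.tsum_mul_left]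
  refine ENNReal.tsum_le_tsum fun r => ?_
  have e1 : Rec8.sw (Irr r) (fun P => KT D0 b I a P * (x * ((if 2 ^ e < r then SS k1 P else 0) + A))) =
      x * ((if 2 ^ e < r then Rec8.sw (Irr r) (fun P => KT D0 b I a P * SS k1 P) else 0) +
        A * Rec8.sw (Irr r) (fun P => KT D0 b I a P)) := by
    have e2 : Rec8.sw (Irr r) (fun P => KT D0 b I a P * (x * ((if 2 ^ e < r then SS k1 P else 0) + A))) =
        Rec8.sw (Irr r) (fun P => x * ((if 2 ^ e < r then KT D0 b I a P * SS k1 P else 0) + A * KT D0 b I a P)) := by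
      refine Rec8.sw_congr fun P _ => ?_
      split_ifs
      · ring
      · ring
    rw [e2, Rec8.sw_mul_left, Rec8.sw_add, Rec8.sw_mul_left]
    congr 2
    split_ifs
    · rfl
    · exact Rec8.sw_zero _
  rw [e1, mul_left_comm]
  refine mul_le_mul_right ?_ x
  rw [mul_add]
  refine add_le_add ?_ ?_
  · split_ifs
    · exact (mul_le_mul' (hwt a r) le_rfl).trans (le_of_eq (one_mul _))
    · rw [mul_zero]
  · rw [mul_left_comm]

end DW

open DW in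
/-- one more leaf, two scales, with a functional of the height and the tail -/
theorem win2D_of (h : Inp C δ) (hA' : SsA) (hJ : Ss3J) :
    ∃ K c : ℝ, 1 ≤ K ∧ 0 < c ∧ ∀ (D0 k k1 E N j1 : ℕ) (A : ℝ) (x : ℝ≥0∞) (Φ : List Bool → ℝ≥0∞)
    (S : ℕ → List Bool → ℝ≥0∞), Dom k1 x Φ → (∀ n, Hered (S n)) → (∀ n t, S n t ≤ Φ t) → 0 ≤ A →
    (∀ (n : ℕ) (t : List Bool), ∑' v : ℕ, gf (Brd v) * S (n + v) t ≤ ENNReal.ofReal A * Φ t) →
    2 ^ (k + 4) ≤ D0 → k1 ≤ k → D0 ≤ E → E ≤ N → j1 + 3 ≤ k →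
    xT D0 k (fun t => Rec8.sw {g | g ∈ BrR E N ∧ RT D0 LFold t g} (fun g => S (hgt g) g)) ≤
      ENNReal.ofReal (K * (UU N / Ub k) * ((2 : ℝ) ^ (-(c * ((k : ℝ) - j1))) + A / Ub j1)) * x := by
  obtain ⟨K3, c, hK3, hc, k3h⟩ := hJ
  obtain ⟨K1, hK1, k1h⟩ := k1 h
  obtain ⟨Kr, hKr, hrest⟩ := rest_dom (endsP_of hA')
  refine ⟨16 * (K3 + Kr * K1), c, by nlinarith, hc,
    fun D0 k k1 E N j A x Φ G hΦ hG hGΦ hA hκ hD0 hk1 h0E hEN hj => ?_⟩
  refine xT_le fun b I hb hI => ?_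
  obtain ⟨i, hIi⟩ := hI
  have hκ' : ∀ c t, ∑ v ∈ range (N + 1), gf (Brd v) * G (c + v) t ≤ ENNReal.ofReal A * Φ t := fun c t =>
    (ENNReal.sum_le_tsum _).trans (hκ c t)
  have heE : 2 ^ (k + 4) ≤ E := hD0.trans h0E
  have hp4 : 2 ^ (k + 4) = 8 * 2 ^ (k + 1) := by ring
  have hp1 : 2 ^ (k + 1) = 2 * 2 ^ k := by ring
  have hp0 : 1 ≤ 2 ^ k := Nat.one_le_two_pow
  have hk0e : 2 ^ (j + 1) ≤ 2 ^ (k + 1) := Nat.pow_le_pow_right (by norm_num) (by omega)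
  have hk1e : 2 ^ (k1 + 1) ≤ 2 ^ (k + 1) := Nat.pow_le_pow_right (by norm_num) (by omega)
  let Θ : ℕ → List Bool → ℝ≥0∞ := fun r P =>
    x * ((if 2 ^ k < r then SS k P else 0) + ENNReal.ofReal A * ENNReal.ofReal Kr)
  have s1 : Rec8.sw (Fld.BrB b) (fun M => vA D0 (BrR E N) (fun g => G (hgt g) g) (I ++ M)) ≤
      Rec8.sw (Fld.BrB b) (fun M => ∑' n : ℕ, ∑' r : ℕ, mu j n r * Rec8.sw (Brd n) (fun X =>
        Rec8.sw {P | P ∈ Irr r ∧ ∃ c : Bool, KRel D0 I P M ((!c) :: c :: X)} (fun P => Θ r P))) := by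
    refine Rec8.sw_mono' fun M hM => ?_
    obtain ⟨m, -, hMm⟩ := hM
    refine WN.next_win hG (by omega) h0E (fun _ r P => Θ r P) (fun n r P hn hP => ?_) hIi.1 hMm
    refine (hrest E N k1 n r (ENNReal.ofReal A) x Φ G P hΦ hG hGΦ hκ' (by omega) hP).trans ?_
    refine mul_le_mul_right (add_le_add ?_ le_rfl) x
    by_cases h1 : E ≤ n + r + 2 ^ (k1 + 1)
    · rw [if_pos h1, if_pos (by omega)]
      exact SS_mono hk1 P
    · rw [if_neg h1]
      exact zero_le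
  have s2 := fold_sum D0 b j I (mu j) (mb j) (fun a n r => mu_le_mb) (fun n r => mu_eq_zero)
    (fun a r => mb_mono (Nat.le_succ a) r) Θ
  refine s1.trans (s2.trans ?_)
  have s4 := sumS D0 j b I x (ENNReal.ofReal A * ENNReal.ofReal Kr) k k (mb j) (fun a r => mb_le_one _ _ _)
  have t1 := k3h D0 k j b I hD0 (by omega) hb
  have t2 := k1h D0 k j b I hD0 (by omega) hb
  have hUk := Ub_pos k
  have hUj := Ub_pos j
  have hUN : 0 < UU N := Num2Aux.UU_pos N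
  have hUeN : Ub k ≤ UU N := Num2Aux.UU_mono (by omega)
  have hone : 1 ≤ UU N / Ub k := (one_le_div hUk).2 hUeN
  obtain ⟨q, hq⟩ : ∃ q : ℝ, q = (2 : ℝ) ^ (-(c * ((k : ℝ) - j))) := ⟨_, rfl⟩
  have hq0 : 0 < q := by
    rw [hq]
    exact Real.rpow_pos_of_pos two_pos _
  rw [← hq] at t1 ⊢
  have hAj : 0 ≤ A / Ub j := div_nonneg hA hUj.le
  calc 16 * ∑ a ∈ range (j + 2), ∑' r : ℕ, mb j a r * Rec8.sw (Irr r) (fun P => KT D0 b I a P * Θ r P)
      ≤ 16 * (x * (ENNReal.ofReal (K3 * q) * Sw D0 k b I +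
          ENNReal.ofReal A * ENNReal.ofReal Kr * (ENNReal.ofReal (K1 / Ub j) * Sw D0 k b I))) := by
        refine mul_le_mul_right (s4.trans ?_) _
        refine mul_le_mul_right (add_le_add t1 (mul_le_mul_right t2 _)) x
    _ = ENNReal.ofReal (16 * K3 * q + 16 * (Kr * K1) * (A / Ub j)) * x * Sw D0 k b I := by
        have e16 : ENNReal.ofReal 16 = 16 := by simp
        have e1 : ENNReal.ofReal (16 * K3 * q) = 16 * ENNReal.ofReal (K3 * q) := by
          rw [← e16, ← ENNReal.ofReal_mul (by norm_num)]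
          congr 1
          ring
        have e2 : ENNReal.ofReal (16 * (Kr * K1) * (A / Ub j)) =
            16 * (ENNReal.ofReal A * ENNReal.ofReal Kr * ENNReal.ofReal (K1 / Ub j)) := by
          rw [← e16, ← ENNReal.ofReal_mul hA, ← ENNReal.ofReal_mul (by positivity), ← ENNReal.ofReal_mul (by norm_num)]
          congr 1
          ring
        rw [ENNReal.ofReal_add (by positivity) (by positivity), e1, e2]
        ring
    _ ≤ ENNReal.ofReal (16 * (K3 + Kr * K1) * (UU N / Ub k) * (q + A / Ub j)) * x * Sw D0 k b I := by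
        refine mul_le_mul_left (mul_le_mul_left (ENNReal.ofReal_le_ofReal ?_) _) _
        have h8 : 16 * K3 * q + 16 * (Kr * K1) * (A / Ub j) ≤ 16 * (K3 + Kr * K1) * (q + A / Ub j) := by
          have h9 : 0 ≤ Kr * K1 * q := by positivity
          have h10 : 0 ≤ K3 * (A / Ub j) := by positivity
          nlinarith
        refine h8.trans ?_
        have h11 : 0 ≤ 16 * (K3 + Kr * K1) * (q + A / Ub j) := by positivity
        calc 16 * (K3 + Kr * K1) * (q + A / Ub j) = 16 * (K3 + Kr * K1) * (q + A / Ub j) * 1 := by ring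
          _ ≤ 16 * (K3 + Kr * K1) * (q + A / Ub j) * (UU N / Ub k) := mul_le_mul_of_nonneg_left hone h11
          _ = _ := by ring

end NTW

end HexObs
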