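import Pool.Agent.NTW.HSum
import Pool.Agent.NTW.Join

/-!
NTW, block (A), module HSum, final form.
-/

set_option autoImplicit false

namespace HexObs

namespace NTW

open Finset TS SDN

open scoped ENNReal

lemma joiMem : JoiMem := fun hg hh hW hR => joi_mem hg hh hW hR

theorem hsum : ∃ K : ℝ, 1 ≤ K ∧ ∀ (E N R : ℕ), ENNReal.ofReal (UU R) * ∑' r : ℕ, (r : ℝ≥0∞) *
    Rec8.sw (Irr r) (fun P => Rec8.sw {Z | Z ∈ BU ∧ P ++ Z ∈ BrR E N}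
      (fun Z => 1 + GLf (hgt (P ++ Z) - 1) (P ++ Z))) ≤ ENNReal.ofReal (K * N) * BAR.HH (N + R) :=
  hsum_of joiMem

theorem hsum_min : ∃ K : ℝ, 1 ≤ K ∧ ∀ (E N j : ℕ), ∑' r : ℕ, min 1 ((r : ℝ≥0∞) / 2 ^ j) *
    Rec8.sw (Irr r) (fun P => Rec8.sw {Z | Z ∈ BU ∧ P ++ Z ∈ BrR E N}
      (fun Z => 1 + GLf (hgt (P ++ Z) - 1) (P ++ Z))) ≤ ENNReal.ofReal (K / Ub j) * BAR.HH (N + 2 ^ j) :=
  hsum_min_of joiMem

end NTW

end HexObs
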