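import Pool.Agent.SDN.TwoScale
import Pool.Agent.SDN.TwoK

/-!
NTW, block (A), kernel bounds: the rest of the leaf behind a piece, the end of a leaf with a window.
-/

set_option autoImplicit false

namespace HexObs

namespace NTW

open Finset TS SDN

open scoped ENNReal

open Rec8 (mb)

variable {C δ : ℝ}

/-- the rest of the leaf behind the piece P, out-level at the scale k1, rest of height at most H -/
theorem rest3 (h : Inp C δ) : ∃ K : ℝ, 1 ≤ K ∧ ∀ (D1 E N H k1 r : ℕ) (Φ : List Bool → ℝ≥0∞) (P : List Bool),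
    Hered Φ → 2 ^ (k1 + 4) ≤ D1 → 2 ^ (k1 + 1) ≤ E → P ∈ Irr r →
    Rec8.sw {Z | (∃ z, z ≤ H ∧ Z ∈ Brd z) ∧ P ++ Z ∈ BrR E N} (fun Z => Φ (P ++ Z)) ≤
      xT D1 k1 Φ * ((if E ≤ r + 2 ^ (k1 + 1) then ∑ b ∈ range (k1 + 1), Sw D1 k1 b P else 0) +
        ENNReal.ofReal (K * UU H)) := by
  classical
  obtain ⟨K, hK1, hK⟩ := endsH h
  refine ⟨K, hK1, fun D1 E N H k1 r Φ P hΦ hD hE hP => ?_⟩
  set G : List Bool → ℝ≥0∞ := fun Z => if ∃ z, z ≤ H ∧ Z ∈ Brd z then Φ (P ++ Z) else 0 with hG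
  have hn : 0 + 2 ^ (k1 + 1) ≤ E := by omega
  have h0 : ([] : List Bool) ∈ Brd 0 := by
    rw [Brd_zero]
    exact Set.mem_singleton _
  have s0 : Rec8.sw {Z | (∃ z, z ≤ H ∧ Z ∈ Brd z) ∧ P ++ Z ∈ BrR E N} (fun Z => Φ (P ++ Z)) ≤
      Rec8.sw {Z | Z ∈ BU ∧ ∃ Y ∈ Brd 0, Y ++ (P ++ Z) ∈ BrR E N} G := by
    refine Rec8.sw_mono ?_ ?_
    · rintro Z ⟨⟨z, -, hz⟩, h2⟩
      exact ⟨⟨z, hz⟩, [], h0, h2⟩
    · rintro Z ⟨h1, h2⟩
      rw [hG]
      simp only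
      rw [if_pos h1]
  refine (s0.trans (outR hn hP G)).trans ?_
  rw [mul_add]
  refine add_le_add ?_ ?_
  · split_ifs with hE2
    · have h1 := endH (D := D1) (k := k1) le_rfl r hP Φ
      have h2 : ∑' m : ℕ, mu k1 m r * Rec8.sw {M | M ∈ Brd m ∧ ∃ Y ∈ Brd 0, Y ++ (P ++ M) ∈ BrR E N} G ≤
          ∑' m : ℕ, mu k1 m r * Rec8.sw (Brd m) (fun M => Φ (P ++ M)) := by
        refine ENNReal.tsum_le_tsum fun m => ?_
        gcongr
        refine Rec8.sw_mono (fun t ht => ht.1) (fun t _ => ?_)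
        rw [hG]
        simp only
        split_ifs
        · exact le_rfl
        · exact zero_le
      refine (h2.trans h1).trans ?_
      rw [Finset.mul_sum]
      refine Finset.sum_le_sum fun b _ => ?_
      calc mb k1 b r * (xT D1 k1 Φ * Sw D1 k1 b P) ≤ 1 * (xT D1 k1 Φ * Sw D1 k1 b P) :=
            mul_le_mul_left (T2.mb_le_one _ _ _) _
        _ = _ := one_mul _
    · rw [mul_zero, nonpos_iff_eq_zero, ENNReal.tsum_eq_zero]
      intro m
      rcases Nat.lt_or_ge m (2 ^ (k1 + 1)) with hm | hm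
      · have e : {M : List Bool | M ∈ Brd m ∧ ∃ Y ∈ Brd 0, Y ++ (P ++ M) ∈ BrR E N} = ∅ := by
          rw [Set.eq_empty_iff_forall_notMem]
          rintro M ⟨hM, Y, hY, H', h1, -, h3⟩
          have := Brd_height h3 (Brd_append hY (Brd_append hP.1 hM))
          omega
        rw [e]
        unfold Rec8.sw
        rw [tsum_empty, mul_zero]
      · rw [mu_eq_zero hm, zero_mul]
  · have hPb : P ∈ Brd r := hP.1
    have h3 : ∀ m r' : ℕ, mu k1 m r' * Rec8.sw {Z | ∃ h, h ≤ N ∧ Z ∈ Brd h} (fun Z => Rec8.sw (Irr r') (fun P' =>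
        Rec8.sw {M | M ∈ Brd m ∧ ∃ Y ∈ Brd 0, Y ++ (P ++ (Z ++ (P' ++ M))) ∈ BrR E N}
          (fun M => G (Z ++ (P' ++ M))))) ≤
        gf {Z | ∃ h, h ≤ H ∧ Z ∈ Brd h} *
          (mu k1 m r' * Rec8.sw (Irr r') (fun P' => Rec8.sw (Brd m) (fun M => Φ (P' ++ M)))) := by
      intro m r'
      rw [mul_left_comm, ← NX_const]
      gcongr
      have e1 : Rec8.sw {Z | ∃ h, h ≤ N ∧ Z ∈ Brd h} (fun Z => Rec8.sw (Irr r') (fun P' =>
          Rec8.sw {M | M ∈ Brd m ∧ ∃ Y ∈ Brd 0, Y ++ (P ++ (Z ++ (P' ++ M))) ∈ BrR E N}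
          (fun M => G (Z ++ (P' ++ M))))) ≤ Rec8.sw {Z | ∃ h, h ≤ N ∧ Z ∈ Brd h} (fun Z =>
            if ∃ h, h ≤ H ∧ Z ∈ Brd h then Rec8.sw (Irr r') (fun P' => Rec8.sw (Brd m) (fun M => Φ (P' ++ M))) else 0) := by
        refine Rec8.sw_mono' fun Z hZ => ?_
        obtain ⟨h', _, hZ⟩ := hZ
        by_cases hH : ∃ h, h ≤ H ∧ Z ∈ Brd h
        · rw [if_pos hH]
          refine Rec8.sw_mono' fun P' hP' => ?_
          refine Rec8.sw_mono (fun t ht => ht.1) fun M hM => ?_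
          rw [hG]
          simp only
          split_ifs
          · rw [← List.append_assoc]
            exact hΦ _ ⟨_, Brd_append hPb hZ⟩ _
          · exact zero_le
        · rw [if_neg hH]
          refine le_of_eq ?_
          have e2 : ∀ P' ∈ Irr r', Rec8.sw {M | M ∈ Brd m ∧ ∃ Y ∈ Brd 0, Y ++ (P ++ (Z ++ (P' ++ M))) ∈ BrR E N}
              (fun M => G (Z ++ (P' ++ M))) = 0 := by
            intro P' hP'
            have e3 : Rec8.sw {M | M ∈ Brd m ∧ ∃ Y ∈ Brd 0, Y ++ (P ++ (Z ++ (P' ++ M))) ∈ BrR E N}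
              (fun M => G (Z ++ (P' ++ M))) = Rec8.sw {M | M ∈ Brd m ∧ ∃ Y ∈ Brd 0, Y ++ (P ++ (Z ++ (P' ++ M))) ∈ BrR E N}
              (fun _ => 0) := by
              refine Rec8.sw_congr fun M hM => ?_
              rw [hG]
              simp only
              rw [if_neg]
              rintro ⟨z, hz, hz2⟩
              have := Brd_height hz2 (Brd_append hZ (Brd_append hP'.1 hM.1))
              exact hH ⟨h', by omega, hZ⟩
            rw [e3, Rec8.sw_zero]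
          rw [Rec8.sw_congr e2, Rec8.sw_zero]
      refine e1.trans ?_
      have e4 := Rec8.sw_and {Z | ∃ h, h ≤ N ∧ Z ∈ Brd h} (fun Z => ∃ h, h ≤ H ∧ Z ∈ Brd h)
        (fun _ => Rec8.sw (Irr r') (fun P' => Rec8.sw (Brd m) (fun M => Φ (P' ++ M))))
      have e5 : Rec8.sw {t | t ∈ {Z | ∃ h, h ≤ N ∧ Z ∈ Brd h} ∧ ∃ h, h ≤ H ∧ t ∈ Brd h}
          (fun _ => Rec8.sw (Irr r') (fun P' => Rec8.sw (Brd m) (fun M => Φ (P' ++ M)))) ≤
          Rec8.sw {Z | ∃ h, h ≤ H ∧ Z ∈ Brd h}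
          (fun _ => Rec8.sw (Irr r') (fun P' => Rec8.sw (Brd m) (fun M => Φ (P' ++ M)))) :=
        Rec8.sw_mono (fun Z hZ => hZ.2) fun _ _ => le_rfl
      refine le_trans (le_of_eq ?_) (e4.symm.le.trans e5)
      refine Rec8.sw_congr fun Z _ => ?_
      split_ifs <;> rfl
    refine (ENNReal.tsum_le_tsum fun m => ENNReal.tsum_le_tsum fun r' => h3 m r').trans ?_
    simp only [ENNReal.tsum_mul_left]
    calc gf {Z | ∃ h, h ≤ H ∧ Z ∈ Brd h} *
          ∑' m : ℕ, ∑' r' : ℕ, mu k1 m r' * Rec8.sw (Irr r') (fun P' => Rec8.sw (Brd m) (fun M => Φ (P' ++ M)))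
        ≤ ENNReal.ofReal (UU H) * (ENNReal.ofReal K * xT D1 k1 Φ) := mul_le_mul' (gf_BU_le H) (hK D1 k1 Φ hD)
      _ = xT D1 k1 Φ * ENNReal.ofReal (K * UU H) := by
        rw [ENNReal.ofReal_mul (by linarith : (0 : ℝ) ≤ K)]
        ring

/-- the end of a leaf of height in [E, N], total weight, the height of the leaf in a window: A = sum over the window -/
theorem totW (h : Inp C δ) : ∃ K : ℝ, 1 ≤ K ∧ ∀ (D1 E N k1 : ℕ) (A : ℝ) (Φ : List Bool → ℝ≥0∞)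
    (S : ℕ → List Bool → ℝ≥0∞), (∀ n, Hered (S n)) → 0 ≤ A →
    (∀ (n : ℕ) (t : List Bool), ∑' v : ℕ, gf (Brd v) * S (n + v) t ≤ ENNReal.ofReal A * Φ t) →
    2 ^ (k1 + 4) ≤ D1 → D1 ≤ E →
    Rec8.sw (BrR E N) (fun g => S (hgt g) g) ≤ ENNReal.ofReal (K * A) * xT D1 k1 Φ := by
  obtain ⟨K, hK1, hK⟩ := endsH h
  refine ⟨K, hK1, fun D1 E N k1 A Φ S hS hA hw hD hE => ?_⟩
  have hD2 : 2 ^ (k1 + 1) ≤ E := (Nat.pow_le_pow_right (by norm_num) (by omega)).trans (hD.trans hE)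
  refine (endR hD2 _).trans ?_
  have hpt : ∀ m r : ℕ, Rec8.sw {Z | ∃ h, h ≤ N ∧ Z ∈ Brd h} (fun Z => Rec8.sw (Irr r) (fun P =>
      Rec8.sw {M | M ∈ Brd m ∧ Z ++ (P ++ M) ∈ BrR E N} (fun M => S (hgt (Z ++ (P ++ M))) (Z ++ (P ++ M))))) ≤
      ENNReal.ofReal A * Rec8.sw (Irr r) (fun P => Rec8.sw (Brd m) (fun M => Φ (P ++ M))) := by
    intro m r
    calc Rec8.sw {Z | ∃ h, h ≤ N ∧ Z ∈ Brd h} (fun Z => Rec8.sw (Irr r) (fun P =>
      Rec8.sw {M | M ∈ Brd m ∧ Z ++ (P ++ M) ∈ BrR E N} (fun M => S (hgt (Z ++ (P ++ M))) (Z ++ (P ++ M)))))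
        ≤ Rec8.sw BU (fun Z => Rec8.sw (Irr r) (fun P =>
          Rec8.sw (Brd m) (fun M => S (hgt Z + r + m) (P ++ M)))) := by
          refine Rec8.sw_mono (fun Z hZ => ?_) fun Z hZ => ?_
          · obtain ⟨h0, -, hh⟩ := hZ
            exact ⟨h0, hh⟩
          · obtain ⟨h0, -, hh⟩ := hZ
            refine Rec8.sw_mono' fun P hP => ?_
            refine Rec8.sw_mono (fun M hM => hM.1) fun M hM => ?_
            have e1 : hgt (Z ++ (P ++ M)) = hgt Z + r + m := by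
              rw [hgt_eq hh, hgt_eq (Brd_append hh (Brd_append hP.1 hM.1))]
              omega
            rw [e1]
            exact hS _ Z ⟨h0, hh⟩ _
      _ = ∑' v : ℕ, Rec8.sw (Brd v) (fun _ => Rec8.sw (Irr r) (fun P =>
          Rec8.sw (Brd m) (fun M => S (v + r + m) (P ++ M)))) :=
          sB_BU (fun v _ => Rec8.sw (Irr r) (fun P => Rec8.sw (Brd m) (fun M => S (v + r + m) (P ++ M))))
      _ = Rec8.sw (Irr r) (fun P => Rec8.sw (Brd m) (fun M => ∑' v : ℕ, gf (Brd v) * S ((r + m) + v) (P ++ M))) := by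
          simp only [NX_sw_tsum]
          refine tsum_congr fun v => ?_
          rw [NX_const, ← Rec8.sw_mul_left]
          refine Rec8.sw_congr fun P _ => ?_
          rw [← Rec8.sw_mul_left]
          refine Rec8.sw_congr fun M _ => ?_
          have e : v + r + m = r + m + v := by omega
          rw [e]
      _ ≤ Rec8.sw (Irr r) (fun P => Rec8.sw (Brd m) (fun M => ENNReal.ofReal A * Φ (P ++ M))) :=
          Rec8.sw_mono' fun P _ => Rec8.sw_mono' fun M _ => hw _ _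
      _ = _ := by
          simp only [Rec8.sw_mul_left]
  calc _ ≤ ∑' m : ℕ, ∑' r : ℕ, mu k1 m r * (ENNReal.ofReal A *
        Rec8.sw (Irr r) (fun P => Rec8.sw (Brd m) (fun M => Φ (P ++ M)))) :=
        ENNReal.tsum_le_tsum fun m => ENNReal.tsum_le_tsum fun r => mul_le_mul_right (hpt m r) _
    _ = ENNReal.ofReal A * ∑' m : ℕ, ∑' r : ℕ, mu k1 m r *
        Rec8.sw (Irr r) (fun P => Rec8.sw (Brd m) (fun M => Φ (P ++ M))) := by
        rw [← ENNReal.tsum_mul_left]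
        refine tsum_congr fun m => ?_
        rw [← ENNReal.tsum_mul_left]
        exact tsum_congr fun r => by ring
    _ ≤ ENNReal.ofReal A * (ENNReal.ofReal K * xT D1 k1 Φ) := mul_le_mul_right (hK D1 k1 Φ hD) _
    _ = ENNReal.ofReal (K * A) * xT D1 k1 Φ := by
        rw [ENNReal.ofReal_mul (by linarith)]
        ring

/-- sum over the piece over a level of the window k and the rest of the leaf -/
theorem tailW (h : Inp C δ) : ∃ K : ℝ, 1 ≤ K ∧ ∀ (D1 E N k k1 : ℕ) (Φ : List Bool → ℝ≥0∞), Hered Φ →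
    2 ^ (k1 + 4) ≤ D1 → k1 ≤ k → 2 ^ (k + 2) ≤ E → E ≤ N →
    ∑' r : ℕ, min 1 ((r : ℝ≥0∞) / 2 ^ k) * Rec8.sw (Irr r) (fun P =>
      Rec8.sw {Z | Z ∈ BU ∧ P ++ Z ∈ BrR E N} (fun Z => Φ (P ++ Z))) ≤
      ENNReal.ofReal (K * (UU N / Ub k)) * xT D1 k1 Φ := by
  obtain ⟨K1, hK1, h1⟩ := rest3 h
  obtain ⟨K2, hK2, h2⟩ := TK.far h
  obtain ⟨K3, hK3, h3⟩ := avg_mass
  refine ⟨K2 + K1 * K3, by nlinarith, fun D1 E N k k1 Φ hΦ hD hk hE hEN => ?_⟩
  obtain ⟨x, hx⟩ : ∃ x, x = xT D1 k1 Φ := ⟨_, rfl⟩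
  have hUk := Ub_pos k
  have hUN : 0 < UU N := Num2Aux.UU_pos N
  have hp : 2 ^ (k1 + 1) ≤ 2 ^ (k + 1) := Nat.pow_le_pow_right (by norm_num) (by omega)
  have hp2 : 2 ^ (k + 2) = 2 * 2 ^ (k + 1) := by ring
  have hp3 : 2 ^ (k + 1) = 2 * 2 ^ k := by ring
  have hp0 : 1 ≤ 2 ^ k := Nat.one_le_two_pow
  have hUkN : Ub k ≤ UU N := Num2Aux.UU_mono (by omega)
  have hterm : ∀ r : ℕ, min 1 ((r : ℝ≥0∞) / 2 ^ k) * Rec8.sw (Irr r) (fun P =>
      Rec8.sw {Z | Z ∈ BU ∧ P ++ Z ∈ BrR E N} (fun Z => Φ (P ++ Z))) ≤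
      x * ((∑ b ∈ range (k1 + 1), if 2 ^ k < r then Rec8.sw (Irr r) (fun P => (fun _ => 1) P * Sw D1 k1 b P) else 0) +
        ENNReal.ofReal (K1 * UU N) * (min 1 ((r : ℝ≥0∞) / 2 ^ k) * kap' r)) := by
    intro r
    have s1 : Rec8.sw (Irr r) (fun P => Rec8.sw {Z | Z ∈ BU ∧ P ++ Z ∈ BrR E N} (fun Z => Φ (P ++ Z))) ≤
        Rec8.sw (Irr r) (fun P => x * ((if 2 ^ k < r then ∑ b ∈ range (k1 + 1), Sw D1 k1 b P else 0) +
          ENNReal.ofReal (K1 * UU N))) := by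
      refine Rec8.sw_mono' fun P hP => ?_
      refine (le_trans (Rec8.sw_mono ?_ fun _ _ => le_rfl) (h1 D1 E N N k1 r Φ P hΦ hD (by omega) hP)).trans ?_
      · rintro Z ⟨⟨z, hz⟩, hZ⟩
        refine ⟨⟨z, ?_, hz⟩, hZ⟩
        obtain ⟨H', -, h4, h5⟩ := hZ
        have := Brd_height h5 (Brd_append hP.1 hz)
        omega
      · rw [← hx]
        refine mul_le_mul_right (add_le_add ?_ le_rfl) x
        by_cases h4 : E ≤ r + 2 ^ (k1 + 1)
        · rw [if_pos h4, if_pos (by omega)]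
        · rw [if_neg h4]
          exact zero_le
    refine (mul_le_mul_right s1 _).trans ?_
    rw [Rec8.sw_mul_left, Rec8.sw_add, NX_const, mul_left_comm, mul_add]
    refine mul_le_mul_right (add_le_add ?_ (le_of_eq ?_)) x
    · split_ifs with h5
      · rw [Rec8.sw_sum]
        simp only [one_mul]
        calc _ ≤ 1 * ∑ b ∈ range (k1 + 1), Rec8.sw (Irr r) (fun P => Sw D1 k1 b P) :=
              mul_le_mul_left (min_le_left _ _) _
          _ = _ := one_mul _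
      · rw [Rec8.sw_zero, mul_zero]
        exact zero_le
    · have e1 : gf (Irr r) = kap' r := rfl
      rw [e1]
      ring
  refine (ENNReal.tsum_le_tsum hterm).trans ?_
  rw [ENNReal.tsum_mul_left, ENNReal.tsum_add, Summable.tsum_finsetSum (fun _ _ => ENNReal.summable),
    ENNReal.tsum_mul_left, ← hx, mul_comm]
  refine mul_le_mul_left ?_ x
  refine (add_le_add (h2 D1 k1 k hD hk) (mul_le_mul_right (h3 k) _)).trans ?_
  rw [← ENNReal.ofReal_mul (by positivity), ← ENNReal.ofReal_add (by linarith) (by positivity)]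
  refine ENNReal.ofReal_le_ofReal ?_
  have e2 : 1 ≤ UU N / Ub k := (one_le_div hUk).2 hUkN
  have e3 : K1 * UU N * (K3 / Ub k) = K1 * K3 * (UU N / Ub k) := by ring
  rw [e3]
  nlinarith

end NTW

end HexObs
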