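import Pool.Agent.NTW.EndsD
import Pool.Agent.NTW.HSumF
import Pool.Agent.NTW.Kern
import Pool.Agent.PLW.Strip

/-!
NTW, block (A): growth of the half plane weights, one step.
-/

set_option autoImplicit false

namespace HexObs

namespace NTW

open Finset TS SDN

open scoped ENNReal

open Rec8 (mb)

variable {C δ : ℝ}

/-! ### 1. The sum over the first leaf and the rest -/

theorem sumZ : ∃ K : ℝ, 1 ≤ K ∧ ∀ N : ℕ,
    Rec8.sw (BrR 1 N) (fun g => GLf (hgt g - 1) g) ≤ ENNReal.ofReal K * BAR.HH N := by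
  have hx := xc_pos
  have hx1 := B2b_xc_le_one
  refine ⟨xc⁻¹, (one_le_inv₀ hx).2 hx1, fun N => ?_⟩
  let T : Type := Σ g : {g : List Bool // g ∈ BrR 1 N}, {W : List Bool // W ∈ {W | W ∈ SSt (hgt g.1 - 1) ∧ LFold g.1 W}}
  have e1 : Rec8.sw (BrR 1 N) (fun g => GLf (hgt g - 1) g) = ∑' x : T, wE x.1.1 * wE x.2.1 := by
    rw [ENNReal.tsum_sigma']
    unfold Rec8.sw
    refine tsum_congr fun g => ?_
    show wE g.1 * GLf (hgt g.1 - 1) g.1 =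
      ∑' b : {W : List Bool // W ∈ {W | W ∈ SSt (hgt g.1 - 1) ∧ LFold g.1 W}}, wE g.1 * wE b.1
    rw [ENNReal.tsum_mul_left]
    rfl
  have hdat : ∀ g ∈ BrR 1 N, ∃ k, 1 ≤ k ∧ k ≤ N ∧ g ∈ Brd k ∧ hgt g = k := by
    rintro g ⟨k, h1, h2, h3⟩
    exact ⟨k, h1, h2, h3, hgt_eq h3⟩
  have hmem : ∀ x : T, joi x.1.1 x.2.1 ∈ SSt N := by
    rintro ⟨⟨g, hg⟩, ⟨W, hW, hR⟩⟩
    obtain ⟨k, h1, h2, h3, h4⟩ := hdat g hg
    dsimp only at hW hR ⊢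
    rw [h4] at hW
    exact SSt_mo h2 (joi_mem h3 h1 hW hR)
  let ψ : T → {t : List Bool // t ∈ SSt N} := fun x => ⟨joi x.1.1 x.2.1, hmem x⟩
  have hψ : Function.Injective ψ := by
    rintro ⟨⟨g, hg⟩, ⟨W, hW, hR⟩⟩ ⟨⟨g', hg'⟩, ⟨W', hW', hR'⟩⟩ he
    have he' : joi g W = joi g' W' := congrArg Subtype.val he
    obtain ⟨k, h1, h2, h3, h4⟩ := hdat g hg
    obtain ⟨k', h1', h2', h3', h4'⟩ := hdat g' hg'
    rw [h4] at hW
    rw [h4'] at hW'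
    obtain ⟨a, b⟩ := joi_inj h3 h3' h1 h1' hW hW' he'
    subst a
    subst b
    rfl
  have e2 : ENNReal.ofReal xc * ∑' x : T, wE x.1.1 * wE x.2.1 ≤ BAR.HH N := by
    rw [← ENNReal.tsum_mul_left]
    calc ∑' x : T, ENNReal.ofReal xc * (wE x.1.1 * wE x.2.1) = ∑' x : T, wE (ψ x).1 := by
          refine tsum_congr fun x => ?_
          obtain ⟨k, h1, h2, h3, h4⟩ := hdat x.1.1 x.1.2
          show _ = wE (joi x.1.1 x.2.1)
          rw [Jo_wE h3 h1, mul_comm]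
      _ ≤ _ := ENNReal.tsum_comp_le_tsum_of_injective hψ (fun w : {w // w ∈ SSt N} => wE w.1)
  have hx0 : ENNReal.ofReal xc ≠ 0 := by
    rw [Ne, ENNReal.ofReal_eq_zero, not_le]
    exact hx
  rw [e1, ENNReal.ofReal_inv_of_pos hx, ← ENNReal.div_eq_inv_mul,
    ENNReal.le_div_iff_mul_le (Or.inl hx0) (Or.inl ENNReal.ofReal_ne_top), mul_comm]
  exact e2

/-! ### 2. The walks that stay below the top of the leaf -/

lemma Gr_front (j : ℕ) (T : ℕ → ℝ≥0∞) :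
    ∑' n : ℕ, ∑' r : ℕ, mu j n r * (gf (Brd n) * T r) ≤
      ENNReal.ofReal (UU (2 ^ (j + 1)) / 2 ^ j) * ∑' r : ℕ, (r : ℝ≥0∞) * T r := by
  have h2 : (0 : ℝ) < 2 ^ j := by positivity
  have h3 : ENNReal.ofReal (UU (2 ^ (j + 1)) / 2 ^ j) = ENNReal.ofReal (UU (2 ^ (j + 1))) / 2 ^ j := by
    rw [ENNReal.ofReal_div_of_pos h2, ENNReal.ofReal_pow (by norm_num)]
    norm_num
  have h4 : ∀ n r : ℕ, mu j n r * (gf (Brd n) * T r) ≤
      (if n < 2 ^ (j + 1) then gf (Brd n) else 0) * ((r : ℝ≥0∞) / 2 ^ j * T r) := by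
    intro n r
    by_cases hn : n < 2 ^ (j + 1)
    · rw [if_pos hn]
      calc mu j n r * (gf (Brd n) * T r) ≤ (r : ℝ≥0∞) / 2 ^ j * (gf (Brd n) * T r) :=
            mul_le_mul_left ((mu_le_min j n r).trans (min_le_right _ _)) _
        _ = _ := by ring
    · rw [mu_eq_zero (by omega), zero_mul]
      exact zero_le
  refine (ENNReal.tsum_le_tsum fun n => ENNReal.tsum_le_tsum fun r => h4 n r).trans ?_
  simp only [ENNReal.tsum_mul_left]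
  rw [ENNReal.tsum_mul_right]
  have h5 : (∑' n : ℕ, if n < 2 ^ (j + 1) then gf (Brd n) else 0) ≤ ENNReal.ofReal (UU (2 ^ (j + 1))) :=
    sumwin (V := fun n => n < 2 ^ (j + 1)) (a := 0) (w := 2 ^ (j + 1)) fun v hv => ⟨Nat.zero_le _, by omega⟩
  refine (mul_le_mul_left h5 _).trans (le_of_eq ?_)
  have h6 : ∑' r : ℕ, (r : ℝ≥0∞) / 2 ^ j * T r = (2 ^ j)⁻¹ * ∑' r : ℕ, (r : ℝ≥0∞) * T r := by
    rw [← ENNReal.tsum_mul_left]
    refine tsum_congr fun r => ?_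
    rw [ENNReal.div_eq_inv_mul]
    ring
  rw [h3, h6, ENNReal.div_eq_inv_mul]
  ring

theorem Gr_lo : ∃ K : ℝ, 1 ≤ K ∧ ∀ (E N R j w : ℕ), 2 ^ (j + 1) ≤ E → 2 ^ (j + 1) ≤ w →
    Rec8.sw (BrR E N) (fun g => GLf (hgt g - w) g) ≤
      ENNReal.ofReal (K * (UU (2 ^ (j + 1)) / 2 ^ j * N / UU R)) * BAR.HH (N + R) := by
  obtain ⟨K, hK, hs⟩ := hsum
  refine ⟨K, hK, fun E N R j w hE hw => ?_⟩
  obtain ⟨T, hT⟩ : ∃ T : ℕ → ℝ≥0∞, T = fun r => Rec8.sw (Irr r) (fun P => Rec8.sw {Z | Z ∈ BU ∧ P ++ Z ∈ BrR 0 N}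
      (fun Z => 1 + GLf (hgt (P ++ Z) - 1) (P ++ Z))) := ⟨_, rfl⟩
  have h1 := hs 0 N R
  have h1' : ENNReal.ofReal (UU R) * ∑' r : ℕ, (r : ℝ≥0∞) * T r ≤ ENNReal.ofReal (K * N) * BAR.HH (N + R) := by
    rw [hT]
    exact h1
  have hin := inR (D := E) (N := N) (j := j) hE (fun g => GLf (hgt g - w) g)
  refine hin.trans ?_
  have h2 : ∀ n r : ℕ, mu j n r * Rec8.sw (Brd n) (fun X => Rec8.sw (Irr r) (fun P =>
      Rec8.sw {Z | Z ∈ BU ∧ X ++ (P ++ Z) ∈ BrR E N} (fun Z => GLf (hgt (X ++ (P ++ Z)) - w) (X ++ (P ++ Z))))) ≤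
      mu j n r * (gf (Brd n) * T r) := by
    intro n r
    by_cases hn : n < 2 ^ (j + 1)
    · refine mul_le_mul_right ?_ _
      rw [← NX_const]
      refine Rec8.sw_mono' fun X hX => ?_
      rw [hT]
      refine Rec8.sw_mono' fun P hP => ?_
      refine Rec8.sw_mono ?_ ?_
      · rintro Z ⟨⟨z, hz⟩, hZ⟩
        refine ⟨⟨z, hz⟩, r + z, Nat.zero_le _, ?_, Brd_append hP.1 hz⟩
        obtain ⟨k, -, h3, h4⟩ := hZ
        have := Brd_height h4 (Brd_append hX (Brd_append hP.1 hz))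
        omega
      · rintro Z ⟨⟨z, hz⟩, hZ⟩
        refine le_trans ?_ le_add_self
        have h5 : hgt (X ++ (P ++ Z)) = n + (r + z) := hgt_eq (Brd_append hX (Brd_append hP.1 hz))
        have h6 : hgt (P ++ Z) = r + z := hgt_eq (Brd_append hP.1 hz)
        rw [h5, h6]
        have hne : P ++ Z ≠ [] := by
          intro hc
          exact hP.2.1 (List.append_eq_nil_iff.1 hc).1
        refine gf_mono ?_
        rintro W ⟨h7, h8⟩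
        exact ⟨SSt_mo (by omega) h7, LF_drop hne h8⟩
    · rw [mu_eq_zero (by omega), zero_mul, zero_mul]
  refine ((ENNReal.tsum_le_tsum fun n => ENNReal.tsum_le_tsum fun r => h2 n r).trans (Gr_front j T)).trans ?_
  have hU : 0 < UU R := Num2Aux.UU_pos R
  have hU0 : ENNReal.ofReal (UU R) ≠ 0 := by
    rw [Ne, ENNReal.ofReal_eq_zero, not_le]
    exact hU
  have h7 : ∑' r : ℕ, (r : ℝ≥0∞) * T r ≤ ENNReal.ofReal (K * N / UU R) * BAR.HH (N + R) := by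
    rw [ENNReal.ofReal_div_of_pos hU, ENNReal.mul_comm_div, ← mul_div_assoc,
      ENNReal.le_div_iff_mul_le (Or.inl hU0) (Or.inl ENNReal.ofReal_ne_top), mul_comm]
    exact h1'
  refine (mul_le_mul_right h7 _).trans (le_of_eq ?_)
  have hp : (0 : ℝ) ≤ UU (2 ^ (j + 1)) / 2 ^ j := by
    have := (Num2Aux.UU_pos (2 ^ (j + 1))).le
    positivity
  rw [← mul_assoc, ← ENNReal.ofReal_mul hp]
  congr 2
  ring

/-! ### 3. The walks that come close to the top of the leaf -/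

theorem Gr_hi (h : Inp C δ) : ∃ K : ℝ, 1 ≤ K ∧ ∀ (E N w i : ℕ), 4 ≤ i →
    Rec8.sw (BrR E N) (fun g => gf {W | (W ∈ SSt (2 ^ (i + 1)) ∧ W ∉ SSt (2 ^ i)) ∧
      (W ∈ SSt (hgt g - 1) ∧ W ∉ SSt (hgt g - w)) ∧ LFold g W}) ≤ ENNReal.ofReal (K * UU w) * zz i := by
  classical
  obtain ⟨K, hK, ht⟩ := totW h
  refine ⟨K * 2, by linarith, fun E N w i hi => ?_⟩
  have h1 := ht (2 ^ i) (2 ^ i) N (i - 4) (2 * UU w) (EF (2 ^ i) (2 ^ (i + 1)))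
    (fun n t => Sf i (2 ^ (i + 1)) (N + w) w n t) (fun n => Hered_Sf _ _ _ _ n)
    (by have := (Num2Aux.UU_pos w).le; linarith) (fun n t => Sf_win n t)
    (by rw [Nat.sub_add_cancel hi]) le_rfl
  rw [mul_assoc]
  refine le_trans ?_ h1
  rw [Rec8.sw_ind, Rec8.sw_ind]
  refine ENNReal.tsum_le_tsum fun g => ?_
  by_cases hg : g ∈ BrR E N
  · rw [if_pos hg]
    obtain ⟨k, hk1, hk2, hk3⟩ := hg
    have hk := hgt_eq hk3
    by_cases hki : 2 ^ i ≤ k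
    · have hg2 : g ∈ BrR (2 ^ i) N := ⟨k, hki, hk2, hk3⟩
      rw [if_pos hg2]
      refine mul_le_mul_right ?_ _
      unfold Sf
      rw [hk, if_pos (by omega), if_neg (by omega)]
      refine gf_mono ?_
      rintro W ⟨h2, ⟨h3, h4⟩, h5⟩
      exact ⟨⟨h2, RT_of ⟨k, hki, hk3⟩ h5⟩, SSt_mo (by omega) h3, h4⟩
    · have he : {W | (W ∈ SSt (2 ^ (i + 1)) ∧ W ∉ SSt (2 ^ i)) ∧
          (W ∈ SSt (hgt g - 1) ∧ W ∉ SSt (hgt g - w)) ∧ LFold g W} = ∅ := by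
        rw [Set.eq_empty_iff_forall_notMem]
        rintro W ⟨⟨-, h2⟩, ⟨h3, -⟩, -⟩
        rw [hk] at h3
        exact h2 (SSt_mo (by omega) h3)
      rw [he]
      have h0 : gf (∅ : Set (List Bool)) = 0 := by
        unfold gf
        rw [_root_.tsum_subtype]
        simp
      rw [h0, mul_zero]
      exact zero_le
  · rw [if_neg hg]
    exact zero_le

/-- blocks -/
lemma Gr_blocks {a b n w : ℕ} (hab : a ≤ b) (h1 : 2 ^ a ≤ n - w) (h2 : n ≤ 2 ^ b) (g : List Bool) :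
    GLf (n - 1) g ≤ GLf (n - w) g + ∑ i ∈ Ico a b, gf {W | (W ∈ SSt (2 ^ (i + 1)) ∧ W ∉ SSt (2 ^ i)) ∧
      (W ∈ SSt (n - 1) ∧ W ∉ SSt (n - w)) ∧ LFold g W} := by
  classical
  have hsub : {W | W ∈ SSt (n - 1) ∧ LFold g W} ⊆ {W | W ∈ SSt (n - w) ∧ LFold g W} ∪
      (⋃ i ∈ Ico a b, {W | (W ∈ SSt (2 ^ (i + 1)) ∧ W ∉ SSt (2 ^ i)) ∧
        (W ∈ SSt (n - 1) ∧ W ∉ SSt (n - w)) ∧ LFold g W}) := by
    rintro W ⟨h3, h4⟩
    by_cases h5 : W ∈ SSt (n - w)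
    · exact Or.inl ⟨h5, h4⟩
    right
    have hex : ∃ i, W ∈ SSt (2 ^ (a + i)) := ⟨b - a, SSt_mo (by rw [Nat.add_sub_cancel' hab]; omega) h3⟩
    obtain ⟨i, hi1, hi2⟩ : ∃ i, W ∈ SSt (2 ^ (a + i)) ∧ ∀ i' < i, W ∉ SSt (2 ^ (a + i')) :=
      ⟨Nat.find hex, Nat.find_spec hex, fun i' hi' => Nat.find_min hex hi'⟩
    have hi0 : i ≠ 0 := by
      rintro rfl
      exact h5 (SSt_mo h1 hi1)
    obtain ⟨i', rfl⟩ : ∃ i', i = i' + 1 := ⟨i - 1, by omega⟩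
    have hij : a + (i' + 1) ≤ b := by
      by_contra hc
      exact hi2 (b - a) (by omega) (SSt_mo (by rw [Nat.add_sub_cancel' hab]; omega) h3)
    rw [Set.mem_iUnion₂]
    refine ⟨a + i', Finset.mem_Ico.2 ⟨by omega, by omega⟩, ⟨?_, hi2 i' (by omega)⟩, ⟨h3, h5⟩, h4⟩
    rw [add_assoc]
    exact hi1
  unfold GLf
  exact (gf_mono hsub).trans ((gf_union_le _ _).trans (add_le_add le_rfl (JumpVaux.gf_biUnion_le _ _)))

/-- numbers -/
lemma Gr_num {a b c : ℝ} {x : ℝ≥0∞} (hb : 0 < b) (h : a ≤ c * b) : ENNReal.ofReal a * x ≤ ENNReal.ofReal c * (ENNReal.ofReal b * x) := by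
  rw [← mul_assoc, ← ENNReal.ofReal_mul' hb.le]
  exact mul_le_mul_left (ENNReal.ofReal_le_ofReal h) _

lemma Gr_kap : 0 < kap0 := by
  unfold kap0
  have := Num2Aux.CW_pos
  positivity

lemma Gr_U0 : UU 0 = 1 := by
  unfold UU
  rw [Finset.sum_range_one]
  have h1 := NO_gf 0
  have h2 : gf (Brd 0) = 1 := by
    rw [Brd_zero, B2b_gf_singleton]
    unfold wE
    simp
  rw [h2] at h1
  have h3 := congrArg ENNReal.toReal h1
  rw [ENNReal.toReal_ofReal (uu_pos 0).le, ENNReal.toReal_one] at h3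
  exact h3.symm

lemma Gr_gr {a b : ℕ} {x : ℝ} (h : Ub a * (2 : ℝ) ^ (kap0 * ((b : ℝ) - a)) ≤ 2 * Ub b) (hx : (b : ℝ) - a = x) :
    UU (2 ^ a) ≤ 2 * (2 : ℝ) ^ (-(kap0 * x)) * UU (2 ^ b) := by
  rw [hx] at h
  have h1 : (0 : ℝ) < (2 : ℝ) ^ (kap0 * x) := by positivity
  have h2 : (2 : ℝ) ^ (-(kap0 * x)) * (2 : ℝ) ^ (kap0 * x) = 1 := by
    rw [← Real.rpow_add (by norm_num)]
    simp
  have h3 : UU (2 ^ a) * (2 : ℝ) ^ (kap0 * x) ≤ 2 * (2 : ℝ) ^ (-(kap0 * x)) * UU (2 ^ b) * (2 : ℝ) ^ (kap0 * x) := by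
    have e : 2 * (2 : ℝ) ^ (-(kap0 * x)) * UU (2 ^ b) * (2 : ℝ) ^ (kap0 * x) = 2 * UU (2 ^ b) := by
      calc _ = 2 * ((2 : ℝ) ^ (-(kap0 * x)) * (2 : ℝ) ^ (kap0 * x)) * UU (2 ^ b) := by ring
        _ = _ := by rw [h2, mul_one]
    rw [e]
    exact h
  exact le_of_mul_le_mul_right h3 h1

lemma Gr_pow (K : ℝ) (ε : ℝ) (hε : 0 < ε) : ∃ m : ℕ, K * (2 : ℝ) ^ (-(kap0 * (m : ℝ))) ≤ ε := by
  have hk := Gr_kap
  have h1 : Filter.Tendsto (fun m : ℕ => K * (2 : ℝ) ^ (-(kap0 * (m : ℝ)))) Filter.atTop (nhds (K * 0)) := by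
    refine Filter.Tendsto.const_mul K ?_
    have h2 : (fun m : ℕ => (2 : ℝ) ^ (-(kap0 * (m : ℝ)))) = fun m : ℕ => ((2 : ℝ) ^ (-kap0)) ^ m := by
      funext m
      rw [← Real.rpow_natCast, ← Real.rpow_mul (by norm_num)]
      congr 1
      ring
    rw [h2]
    exact tendsto_pow_atTop_nhds_zero_of_lt_one (by positivity)
      (Real.rpow_lt_one_of_one_lt_of_neg (by norm_num) (by linarith))
  rw [mul_zero] at h1
  obtain ⟨m, hm⟩ := (h1.eventually (gt_mem_nhds hε)).exists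
  exact ⟨m, hm.le⟩

theorem grow1 (h : Inp C δ) : ∀ ε : ℝ, 0 < ε → ∃ C1 : ℝ, 1 ≤ C1 ∧ ∀ (i N : ℕ) (M : ℝ≥0∞), 2 ^ (i + 1) ≤ N →
    (∀ i', 5 ≤ i' → i' ≤ i → zz i' ≤ M) →
    (∀ i', i' ≤ i → BAR.HH (2 ^ (i' + 1)) ≤ ENNReal.ofReal (UU (2 ^ (i' + 1))) * M) →
    BAR.HH (2 ^ (i + 1)) ≤ ENNReal.ofReal (C1 * UU (2 ^ (i + 1)) / UU N) * BAR.HH N +
      ENNReal.ofReal (ε * UU (2 ^ (i + 1))) * M := by
  intro ε hε
  obtain ⟨KH, hKH, hH⟩ := HH_le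
  obtain ⟨KZ, hKZ, hZ⟩ := sumZ
  obtain ⟨KL, hKL, hL⟩ := Gr_lo
  obtain ⟨KT, hKT, hT⟩ := Gr_hi h
  obtain ⟨m, hm⟩ := Gr_pow (KH * (1 + KZ) * 2) (ε / 2) (by linarith)
  obtain ⟨s0, hs0⟩ := Gr_pow (KH * ((m + 1) * KT) * 2) (ε / 2) (by linarith)
  obtain ⟨s, hs⟩ : ∃ s, s = s0 + m + 1 := ⟨_, rfl⟩
  obtain ⟨i0, hi0⟩ : ∃ i0, i0 = s + m + 5 := ⟨_, rfl⟩
  obtain ⟨A, hA⟩ : ∃ A : ℝ, A = (BAR.HH (2 ^ i0)).toReal := ⟨_, rfl⟩
  have hA0 : 0 ≤ A := hA ▸ ENNReal.toReal_nonneg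
  have hAe : BAR.HH (2 ^ i0) = ENNReal.ofReal A := by
    rw [hA]
    exact (ENNReal.ofReal_toReal (show BAR.HH (2 ^ i0) ≠ ∞ from PLW.gf_SSt_fin _)).symm
  have hKLs : 0 ≤ KL * 2 ^ (s + 2) := by positivity
  refine ⟨2 + A + KH * (2 + KL * 2 ^ (s + 2)), ?_, fun i N M hN hz hb => ?_⟩
  · have : 0 ≤ KH * (2 + KL * 2 ^ (s + 2)) := by positivity
    linarith
  have hUp : ∀ n, 0 < UU n := Num2Aux.UU_pos
  have hUm : ∀ {a b : ℕ}, a ≤ b → UU a ≤ UU b := fun h => Num2Aux.UU_mono h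
  obtain ⟨a, ha⟩ : ∃ a : ℝ, a = UU (2 ^ (i + 1)) / UU N := ⟨_, rfl⟩
  have ha0 : 0 < a := by
    rw [ha]
    exact div_pos (hUp _) (hUp _)
  have haN : a * UU N = UU (2 ^ (i + 1)) := by
    rw [ha]
    exact div_mul_cancel₀ _ (hUp N).ne'
  have hU1 : 1 ≤ UU (2 ^ (i + 1)) := by
    have h1 := hUm (Nat.zero_le (2 ^ (i + 1)))
    have h2 : UU 0 = 1 := Gr_U0
    linarith
  obtain ⟨H, hHd⟩ : ∃ H : ℝ≥0∞, H = BAR.HH N := ⟨_, rfl⟩
  have hUH : ENNReal.ofReal (UU (2 ^ (i + 1))) ≤ ENNReal.ofReal a * H := by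
    rw [← haN, ENNReal.ofReal_mul ha0.le, hHd]
    exact mul_le_mul_right (BAR.UU_le_HH N) _
  have h1H : 1 ≤ ENNReal.ofReal a * H := by
    refine le_trans ?_ hUH
    rw [← ENNReal.ofReal_one]
    exact ENNReal.ofReal_le_ofReal hU1
  have hC : ENNReal.ofReal ((2 + A + KH * (2 + KL * 2 ^ (s + 2))) * UU (2 ^ (i + 1)) / UU N) * BAR.HH N =
      ENNReal.ofReal (2 + A + KH * (2 + KL * 2 ^ (s + 2))) * (ENNReal.ofReal a * H) := by
    rw [← hHd, ← mul_assoc, ← ENNReal.ofReal_mul (by positivity), ha, mul_div_assoc]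
  rw [hC]
  obtain ⟨Y, hY⟩ : ∃ Y : ℝ≥0∞, Y = ENNReal.ofReal a * H := ⟨_, rfl⟩
  rw [← hY] at hUH h1H ⊢
  have hKp : 0 ≤ KH * (2 + KL * 2 ^ (s + 2)) := by positivity
  -- small scales
  rcases Nat.lt_or_ge i i0 with hi | hi
  · refine le_trans ?_ le_self_add
    calc BAR.HH (2 ^ (i + 1)) ≤ BAR.HH (2 ^ i0) := BAR.HH_mono (Nat.pow_le_pow_right (by norm_num) (by omega))
      _ = ENNReal.ofReal A * 1 := by rw [hAe, mul_one]
      _ ≤ ENNReal.ofReal (2 + A + KH * (2 + KL * 2 ^ (s + 2))) * Y :=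
          mul_le_mul' (ENNReal.ofReal_le_ofReal (by linarith)) h1H
  -- N is close
  rcases Nat.lt_or_ge N (2 * 2 ^ (i + 1)) with hN2 | hN2
  · refine le_trans ?_ le_self_add
    have h3 : UU N ≤ 2 * UU (2 ^ (i + 1)) := (hUm hN2.le).trans (UU_double _)
    have h4 : 1 ≤ 2 * a := by
      rw [ha, ← mul_div_assoc, one_le_div (hUp N)]
      exact h3
    calc BAR.HH (2 ^ (i + 1)) ≤ BAR.HH N := BAR.HH_mono hN
      _ = ENNReal.ofReal 1 * H := by rw [ENNReal.ofReal_one, one_mul, hHd]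
      _ ≤ ENNReal.ofReal 2 * (ENNReal.ofReal a * H) := Gr_num ha0 h4
      _ ≤ ENNReal.ofReal (2 + A + KH * (2 + KL * 2 ^ (s + 2))) * Y := by
          rw [hY]
          exact mul_le_mul_left (ENNReal.ofReal_le_ofReal (by linarith)) _
  -- main case
  obtain ⟨R, hR⟩ : ∃ R, N = 2 ^ (i + 1) + R := ⟨N - 2 ^ (i + 1), by omega⟩
  have hRN : UU N ≤ 2 * UU R := (hUm (by omega)).trans (UU_double R)
  obtain ⟨j, hj⟩ : ∃ j, i = j + s := ⟨i - s, by omega⟩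
  obtain ⟨l, hl⟩ : ∃ l, i = l + m := ⟨i - m, by omega⟩
  have hE1 : 2 ^ (j + 1) ≤ 2 ^ (l + 1) := Nat.pow_le_pow_right (by norm_num) (by omega)
  have hE2 : 2 ^ (j + 1) ≤ 2 ^ l := Nat.pow_le_pow_right (by norm_num) (by omega)
  have hE3 : 2 ^ (l + 1) = 2 * 2 ^ l := by ring
  have hEN : 2 ^ (l + 1) ≤ 2 ^ (i + 1) := Nat.pow_le_pow_right (by norm_num) (by omega)
  have hsplit : BrR 1 (2 ^ (i + 1)) ⊆ BrR 1 (2 ^ (l + 1)) ∪ BrR (2 ^ (l + 1)) (2 ^ (i + 1)) := by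
    rintro g ⟨k, h1, h2, h3⟩
    rcases Nat.lt_or_ge k (2 ^ (l + 1)) with h4 | h4
    · exact Or.inl ⟨k, h1, h4.le, h3⟩
    · exact Or.inr ⟨k, h4, h2, h3⟩
  have hgfU : ∀ E n : ℕ, gf (BrR E n) ≤ ENNReal.ofReal (UU n) := by
    intro E n
    refine (gf_mono ?_).trans (gf_BU_le n)
    rintro g ⟨k, h1, h2, h3⟩
    exact ⟨k, h2, h3⟩
  have hX1 : Rec8.sw (BrR 1 (2 ^ (l + 1))) (fun g => 1 + GLf (hgt g - 1) g) ≤
      ENNReal.ofReal (1 + KZ) * (ENNReal.ofReal (UU (2 ^ (l + 1))) * M) := by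
    rw [Rec8.sw_add, Rec8.sw_one]
    have h5 := hb l (by omega)
    calc gf (BrR 1 (2 ^ (l + 1))) + Rec8.sw (BrR 1 (2 ^ (l + 1))) (fun g => GLf (hgt g - 1) g)
        ≤ BAR.HH (2 ^ (l + 1)) + ENNReal.ofReal KZ * BAR.HH (2 ^ (l + 1)) :=
          add_le_add ((hgfU _ _).trans (BAR.UU_le_HH _)) (hZ _)
      _ = ENNReal.ofReal (1 + KZ) * BAR.HH (2 ^ (l + 1)) := by
          rw [ENNReal.ofReal_add zero_le_one (by linarith), ENNReal.ofReal_one]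
          ring
      _ ≤ _ := mul_le_mul_right h5 _
  have hlo : Rec8.sw (BrR (2 ^ (l + 1)) (2 ^ (i + 1))) (fun g => GLf (hgt g - 2 ^ (j + 1)) g) ≤
      ENNReal.ofReal (KL * 2 ^ (s + 2)) * Y := by
    refine (hL (2 ^ (l + 1)) (2 ^ (i + 1)) R j (2 ^ (j + 1)) hE1 le_rfl).trans ?_
    rw [← hR, ← hHd, hY]
    refine Gr_num ha0 ?_
    have h6 : UU (2 ^ (j + 1)) ≤ UU (2 ^ (i + 1)) := hUm (Nat.pow_le_pow_right (by norm_num) (by omega))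
    have h7 : (((2 ^ (i + 1) : ℕ) : ℝ)) = 2 ^ j * 2 ^ (s + 1) := by
      rw [hj]
      push_cast
      rw [← pow_add]
      congr 1
    have h2j : (0 : ℝ) < 2 ^ j := by positivity
    have h8 : UU (2 ^ (j + 1)) / 2 ^ j * ((2 ^ (i + 1) : ℕ) : ℝ) / UU R = UU (2 ^ (j + 1)) * 2 ^ (s + 1) * (1 / UU R) := by
      rw [h7]
      field_simp
    have h9 : 1 / UU R ≤ 2 / UU N := by
      rw [div_le_div_iff₀ (hUp R) (hUp N)]
      linarith
    rw [h8]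
    calc KL * (UU (2 ^ (j + 1)) * 2 ^ (s + 1) * (1 / UU R)) ≤ KL * (UU (2 ^ (i + 1)) * 2 ^ (s + 1) * (2 / UU N)) := by
          have hn := (hUp (2 ^ (j + 1))).le
          have hn2 := (hUp (2 ^ (i + 1))).le
          have hn3 := (hUp R).le
          gcongr
      _ = KL * 2 ^ (s + 2) * a := by
          rw [ha]
          ring
  have hhi : ∑ i' ∈ Ico l (i + 1), Rec8.sw (BrR (2 ^ (l + 1)) (2 ^ (i + 1))) (fun g =>
      gf {W | (W ∈ SSt (2 ^ (i' + 1)) ∧ W ∉ SSt (2 ^ i')) ∧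
      (W ∈ SSt (hgt g - 1) ∧ W ∉ SSt (hgt g - 2 ^ (j + 1))) ∧ LFold g W}) ≤
      ENNReal.ofReal ((m + 1) * KT) * (ENNReal.ofReal (UU (2 ^ (j + 1))) * M) := by
    have h10 : ∀ i' ∈ Ico l (i + 1), Rec8.sw (BrR (2 ^ (l + 1)) (2 ^ (i + 1))) (fun g =>
      gf {W | (W ∈ SSt (2 ^ (i' + 1)) ∧ W ∉ SSt (2 ^ i')) ∧
      (W ∈ SSt (hgt g - 1) ∧ W ∉ SSt (hgt g - 2 ^ (j + 1))) ∧ LFold g W}) ≤
      ENNReal.ofReal KT * (ENNReal.ofReal (UU (2 ^ (j + 1))) * M) := by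
      intro i' hi'
      rw [Finset.mem_Ico] at hi'
      refine (hT _ _ _ i' (by omega)).trans ?_
      rw [ENNReal.ofReal_mul (by linarith), mul_assoc]
      exact mul_le_mul_right (mul_le_mul_right (hz i' (by omega) (by omega)) _) _
    refine (Finset.sum_le_card_nsmul _ _ _ h10).trans (le_of_eq ?_)
    rw [Nat.card_Ico, nsmul_eq_mul, ENNReal.ofReal_mul (by positivity), mul_assoc]
    congr 1
    rw [show i + 1 - l = m + 1 by omega, ← ENNReal.ofReal_natCast]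
    push_cast
    rfl
  have hX2 : Rec8.sw (BrR (2 ^ (l + 1)) (2 ^ (i + 1))) (fun g => 1 + GLf (hgt g - 1) g) ≤
      Y + (ENNReal.ofReal (KL * 2 ^ (s + 2)) * Y +
        ENNReal.ofReal ((m + 1) * KT) * (ENNReal.ofReal (UU (2 ^ (j + 1))) * M)) := by
    rw [Rec8.sw_add, Rec8.sw_one]
    refine add_le_add ((hgfU _ _).trans hUH) ?_
    refine le_trans (Rec8.sw_mono' fun g hg => ?_) ((Rec8.sw_add _ _ _).le.trans
      (add_le_add hlo ((Rec8.sw_sum _ _ _).le.trans hhi)))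
    obtain ⟨k, h1, h2, h3⟩ := hg
    have hk := hgt_eq h3
    rw [hk]
    exact Gr_blocks (by omega) (by omega) h2 g
  -- numbers
  have hg1 : UU (2 ^ (l + 1)) ≤ 2 * (2 : ℝ) ^ (-(kap0 * (m : ℝ))) * UU (2 ^ (i + 1)) := by
    have h11 := Ub_growth (a := l + 1) (b := i + 1) (by omega)
    exact Gr_gr h11 (by rw [hl]; push_cast; ring)
  have hg2 : UU (2 ^ (j + 1)) ≤ 2 * (2 : ℝ) ^ (-(kap0 * (s0 : ℝ))) * UU (2 ^ (i + 1)) := by
    have h11 := Ub_growth (a := j + 1) (b := i + 1) (by omega)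
    have h12 := Gr_gr (x := (s : ℝ)) h11 (by rw [hj]; push_cast; ring)
    refine h12.trans ?_
    have h13 : (2 : ℝ) ^ (-(kap0 * (s : ℝ))) ≤ (2 : ℝ) ^ (-(kap0 * (s0 : ℝ))) := by
      refine Real.rpow_le_rpow_of_exponent_le (by norm_num) ?_
      have h14 : (s0 : ℝ) ≤ s := by
        rw [hs]
        push_cast
        linarith
      have := mul_le_mul_of_nonneg_left h14 Gr_kap.le
      linarith
    have := (hUp (2 ^ (i + 1))).le
    gcongr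
  have hq1 : ENNReal.ofReal KH * (ENNReal.ofReal (1 + KZ) * (ENNReal.ofReal (UU (2 ^ (l + 1))) * M)) ≤
      ENNReal.ofReal (ε / 2 * UU (2 ^ (i + 1))) * M := by
    rw [← mul_assoc, ← mul_assoc, ← ENNReal.ofReal_mul (by linarith), ← ENNReal.ofReal_mul (by positivity)]
    refine mul_le_mul_left (ENNReal.ofReal_le_ofReal ?_) _
    calc KH * (1 + KZ) * UU (2 ^ (l + 1)) ≤ KH * (1 + KZ) * (2 * (2 : ℝ) ^ (-(kap0 * (m : ℝ))) * UU (2 ^ (i + 1))) := by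
          have : 0 ≤ KH * (1 + KZ) := by positivity
          exact mul_le_mul_of_nonneg_left hg1 this
      _ = KH * (1 + KZ) * 2 * (2 : ℝ) ^ (-(kap0 * (m : ℝ))) * UU (2 ^ (i + 1)) := by ring
      _ ≤ _ := mul_le_mul_of_nonneg_right hm (hUp _).le
  have hq2 : ENNReal.ofReal KH * (ENNReal.ofReal ((m + 1) * KT) * (ENNReal.ofReal (UU (2 ^ (j + 1))) * M)) ≤
      ENNReal.ofReal (ε / 2 * UU (2 ^ (i + 1))) * M := by
    rw [← mul_assoc, ← mul_assoc, ← ENNReal.ofReal_mul (by linarith), ← ENNReal.ofReal_mul (by positivity)]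
    refine mul_le_mul_left (ENNReal.ofReal_le_ofReal ?_) _
    calc KH * ((m + 1) * KT) * UU (2 ^ (j + 1)) ≤
          KH * ((m + 1) * KT) * (2 * (2 : ℝ) ^ (-(kap0 * (s0 : ℝ))) * UU (2 ^ (i + 1))) := by
          have : 0 ≤ KH * ((m + 1) * KT) := by positivity
          exact mul_le_mul_of_nonneg_left hg2 this
      _ = KH * ((m + 1) * KT) * 2 * (2 : ℝ) ^ (-(kap0 * (s0 : ℝ))) * UU (2 ^ (i + 1)) := by ring
      _ ≤ _ := mul_le_mul_of_nonneg_right hs0 (hUp _).le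
  have hfin := hH (2 ^ (i + 1))
  have hX := (TN5b_sw_union hsplit (fun g => 1 + GLf (hgt g - 1) g)).trans (add_le_add hX1 hX2)
  calc BAR.HH (2 ^ (i + 1)) ≤ ENNReal.ofReal KH * (Y + (ENNReal.ofReal (1 + KZ) * (ENNReal.ofReal (UU (2 ^ (l + 1))) * M) +
        (Y + (ENNReal.ofReal (KL * 2 ^ (s + 2)) * Y +
        ENNReal.ofReal ((m + 1) * KT) * (ENNReal.ofReal (UU (2 ^ (j + 1))) * M))))) :=
        hfin.trans (mul_le_mul_right (add_le_add h1H hX) _)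
    _ = ENNReal.ofReal (KH * (2 + KL * 2 ^ (s + 2))) * Y +
        (ENNReal.ofReal KH * (ENNReal.ofReal (1 + KZ) * (ENNReal.ofReal (UU (2 ^ (l + 1))) * M)) +
        ENNReal.ofReal KH * (ENNReal.ofReal ((m + 1) * KT) * (ENNReal.ofReal (UU (2 ^ (j + 1))) * M))) := by
        rw [ENNReal.ofReal_mul (by linarith : (0 : ℝ) ≤ KH), ENNReal.ofReal_add (by norm_num) hKLs, ENNReal.ofReal_ofNat]
        ring
    _ ≤ ENNReal.ofReal (2 + A + KH * (2 + KL * 2 ^ (s + 2))) * Y +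
        (ENNReal.ofReal (ε / 2 * UU (2 ^ (i + 1))) * M + ENNReal.ofReal (ε / 2 * UU (2 ^ (i + 1))) * M) :=
        add_le_add (mul_le_mul_left (ENNReal.ofReal_le_ofReal (by linarith)) _) (add_le_add hq1 hq2)
    _ = _ := by
        have h15 : 0 ≤ ε / 2 * UU (2 ^ (i + 1)) := by
          have := (hUp (2 ^ (i + 1))).le
          positivity
        rw [← add_mul, ← ENNReal.ofReal_add h15 h15]
        congr 3
        ring

end NTW

end HexObs
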