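import Pool.Agent.NTW.JoinL
import Pool.Agent.NTW.HSumL
import Pool.Agent.NTW.EndL
import Pool.Agent.NTW.Close
import Pool.Agent.NTW.Kern
import Pool.Agent.NTW.Grow

/-!
NTW, block (A) with a time bound: growth of the half plane weights with a bound of the number of letters.
-/

set_option autoImplicit false

namespace HexObs

namespace NTW

open Finset TS SDN

open scoped ENNReal

open Rec8 (mb)

variable {C δ : ℝ}

/-! ### 1. Half plane words with at most lam letters and their first leaf -/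

theorem HHl_le : ∃ K : ℝ, 1 ≤ K ∧ ∀ N lam : ℕ, HHl N lam ≤ ENNReal.ofReal K *
    (1 + Rec8.sw (BrR 1 N) (fun g => (if g.length ≤ lam then 1 else 0) + GLl (hgt g - 1) lam g)) := by
  refine ⟨6, by norm_num, fun N lam => ?_⟩
  obtain ⟨P, hPd⟩ : ∃ P : Set (List Bool), P = Set.univ := ⟨_, rfl⟩
  have hmP : ∀ g : List Bool, g ∈ P := fun g => hPd ▸ Set.mem_univ g
  have hP : PrefC P := fun _ _ _ => hmP _
  have hL : LastC P := fun _ _ _ _ => hmP _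
  have hset : BrR 1 N = {g | g ∈ BrR 1 N ∧ g ∈ P} := by
    ext g
    exact ⟨fun h => ⟨h, hmP g⟩, fun h => h.1⟩
  obtain ⟨F, hF⟩ : ∃ F : List Bool → ℝ≥0∞, F = fun g => (if g.length ≤ lam then 1 else 0) + GLl (hgt g - 1) lam g :=
    ⟨_, rfl⟩
  rw [← hF]
  obtain ⟨X, hX⟩ : ∃ X : ℝ≥0∞, X = Rec8.sw (BrR 1 N) F := ⟨_, rfl⟩
  rw [← hX]
  rw [hset] at hX
  obtain ⟨Q, hQ⟩ : ∃ Q : Set (List Bool), Q = {g | g ∈ P ∧ g.length ≤ lam} := ⟨_, rfl⟩
  have hadd : ∀ (c : Bool) (T : ℕ), gf ({t | ∃ g ∈ Brd T ∩ Q, t = g ++ [c]}) ≤ gf (Brd T ∩ Q) := by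
    intro c T
    have h1 := gf_le_mul (P := {t | ∃ g ∈ Brd T ∩ Q, t = g ++ [c]}) (Q := Brd T ∩ Q) (R := {[c]}) (by
      rintro t ⟨g, hg, rfl⟩
      exact ⟨g, hg, [c], rfl, rfl⟩)
    refine h1.trans ?_
    have h2 : gf ({[c]} : Set (List Bool)) ≤ 1 := by
      rw [B2b_gf_singleton]
      exact B2b_wE_le_one _
    calc gf (Brd T ∩ Q) * gf {[c]} ≤ gf (Brd T ∩ Q) * 1 := by gcongr
      _ = gf (Brd T ∩ Q) := mul_one _
  have hsub : {W | W ∈ SSt N ∧ W.length ≤ lam} ⊆ {e : List Bool | e.length ≤ 1} ∪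
      ((⋃ T ∈ Finset.Icc 1 N, HT (T : ℕ) ∩ {W | W ∈ P ∧ W.length ≤ lam}) ∪
      ((⋃ T ∈ Finset.Icc 1 N, {t | ∃ g ∈ Brd T ∩ Q, t = g ++ [true]}) ∪
       (⋃ T ∈ Finset.Icc 1 N, {t | ∃ g ∈ Brd T ∩ Q, t = g ++ [false]}))) := by
    rintro W ⟨hW, hWl⟩
    rcases SSt_cases hW with ⟨T, hT, h⟩ | ⟨T, hT, g, hg, c, rfl⟩
    · rcases Nat.eq_zero_or_pos T with h0 | h0
      · left
        rw [h0, HT_zero] at h
        have h1 : W = [] := h
        rw [h1]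
        show ([] : List Bool).length ≤ 1
        simp
      · right
        left
        rw [Set.mem_iUnion₂]
        exact ⟨T, Finset.mem_Icc.2 ⟨h0, hT⟩, h, hmP _, hWl⟩
    · rcases Nat.eq_zero_or_pos T with h0 | h0
      · left
        rw [h0, Brd_zero] at hg
        have h1 : g = [] := hg
        rw [h1]
        show ([] ++ [c] : List Bool).length ≤ 1
        simp
      · right
        right
        have hgQ : g ∈ Q := by
          rw [hQ]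
          refine ⟨hmP _, ?_⟩
          rw [List.length_append] at hWl
          omega
        cases c
        · right
          rw [Set.mem_iUnion₂]
          exact ⟨T, Finset.mem_Icc.2 ⟨h0, hT.le⟩, g, ⟨hg, hgQ⟩, rfl⟩
        · left
          rw [Set.mem_iUnion₂]
          exact ⟨T, Finset.mem_Icc.2 ⟨h0, hT.le⟩, g, ⟨hg, hgQ⟩, rfl⟩
  have hun : ∀ (I : Finset ℕ) (Q : ℕ → Set (List Bool)), gf (⋃ T ∈ I, Q T) ≤ ∑ T ∈ I, gf (Q T) := by
    classical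
    intro I Q
    induction I using Finset.induction_on with
    | empty =>
      simp [gf]
    | insert a s ha ih =>
      rw [Finset.set_biUnion_insert, Finset.sum_insert ha]
      exact (gf_union_le _ _).trans (add_le_add le_rfl ih)
  have h4 : ∑ T ∈ Finset.Icc 1 N, gf (HT T ∩ {W | W ∈ P ∧ W.length ≤ lam}) ≤ 4 * X := by
    have h1 : ∀ T ∈ Finset.Icc 1 N, gf (HT T ∩ {W | W ∈ P ∧ W.length ≤ lam}) ≤
        4 * ∑' g : {g : List Bool // g ∈ Brd T ∧ g ∈ P}, wE g.1 * F g.1 := by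
      intro T hT
      rw [Finset.mem_Icc] at hT
      refine (topL hP hL (by omega) lam).trans (le_of_eq ?_)
      congr 1
      refine tsum_congr fun g => ?_
      rw [hF]
      show _ = wE g.1 * ((if g.1.length ≤ lam then 1 else 0) + GLl (hgt g.1 - 1) lam g.1)
      rw [hgt_eq g.2.1]
    refine (Finset.sum_le_sum h1).trans ?_
    rw [← Finset.mul_sum, hX]
    gcongr
    exact Jo_BrR P F
  have h5 : ∑ T ∈ Finset.Icc 1 N, gf (Brd T ∩ Q) ≤ X := by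
    classical
    have h1 : ∀ T ∈ Finset.Icc 1 N, gf (Brd T ∩ Q) ≤
        ∑' g : {g : List Bool // g ∈ Brd T ∧ g ∈ P}, wE g.1 * F g.1 := by
      intro T hT
      have h2 : (∑' g : {g : List Bool // g ∈ Brd T ∧ g ∈ P}, wE g.1 * F g.1) =
          ∑' g : List Bool, ({g | g ∈ Brd T ∧ g ∈ P} : Set (List Bool)).indicator (fun g => wE g * F g) g :=
        _root_.tsum_subtype ({g | g ∈ Brd T ∧ g ∈ P} : Set (List Bool)) (fun g => wE g * F g)
      have h3 : gf (Brd T ∩ Q) = ∑' g : List Bool, (Brd T ∩ Q).indicator wE g := _root_.tsum_subtype (Brd T ∩ Q) wE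
      rw [h2, h3]
      refine ENNReal.tsum_le_tsum fun g => ?_
      by_cases hg : g ∈ Brd T ∩ Q
      · have hg2 := hg.2
        rw [hQ] at hg2
        rw [Set.indicator_of_mem hg, Set.indicator_of_mem (show g ∈ {g | g ∈ Brd T ∧ g ∈ P} from ⟨hg.1, hg2.1⟩), hF]
        calc wE g = wE g * 1 := (mul_one _).symm
          _ ≤ wE g * ((if g.length ≤ lam then 1 else 0) + GLl (hgt g - 1) lam g) := by
              rw [if_pos hg2.2]
              gcongr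
              exact le_self_add
      · rw [Set.indicator_of_notMem hg]
        exact zero_le
    refine (Finset.sum_le_sum h1).trans ?_
    rw [hX]
    exact Jo_BrR P F
  have h6 : HHl N lam ≤ 3 + (4 * X + (X + X)) := by
    unfold HHl
    refine (gf_mono hsub).trans ((gf_union_le _ _).trans (add_le_add B2b_gf_short ((gf_union_le _ _).trans
      (add_le_add ((hun _ _).trans h4) ((gf_union_le _ _).trans (add_le_add ?_ ?_))))))
    · exact ((hun _ _).trans (Finset.sum_le_sum (fun T _ => hadd true T))).trans h5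
    · exact ((hun _ _).trans (Finset.sum_le_sum (fun T _ => hadd false T))).trans h5
  refine h6.trans ?_
  have h7 : ENNReal.ofReal (6 : ℝ) = 6 := by
    rw [show (6 : ℝ) = ((6 : ℕ) : ℝ) by norm_num, ENNReal.ofReal_natCast]
    norm_num
  rw [h7]
  calc 3 + (4 * X + (X + X)) = 3 + 6 * X := by ring
    _ ≤ 6 + 6 * X := by gcongr; norm_num
    _ = 6 * (1 + X) := by ring

/-! ### 2. The sum with the weight r -/

theorem hsuml_id : ∃ K : ℝ, 1 ≤ K ∧ ∀ (E N j lam lam' : ℕ), QL j lam' → ∑' r : ℕ, (r : ℝ≥0∞) *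
    Rec8.sw (Irr r) (fun P => Rec8.sw {Z | Z ∈ BU ∧ P ++ Z ∈ BrR E N}
      (fun Z => GLl (hgt (P ++ Z) - 1) lam (P ++ Z))) ≤
        ENNReal.ofReal (K * N / Ub j) * HHl (N + 2 ^ j) (lam + lam' + 1) := by
  classical
  have hx : 0 < xc := xc_pos
  refine ⟨max 1 (2 / xc), le_max_left _ _, fun E N j lam lam' hQ => ?_⟩
  have hU : 0 < Ub j := Ub_pos j
  obtain ⟨S0, hS0⟩ : ∃ S0, S0 = ∑' r : ℕ, (r : ℝ≥0∞) *
    Rec8.sw (Irr r) (fun P => Rec8.sw {Z | Z ∈ BU ∧ P ++ Z ∈ BrR E N}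
      (fun Z => GLl (hgt (P ++ Z) - 1) lam (P ++ Z))) := ⟨_, rfl⟩
  rw [← hS0]
  have h0 := prod_formL (2 ^ j + 1) (fun r => (r : ℝ≥0∞)) (N : ℝ≥0∞) (BS lam') (WJl E N lam)
    (WJlb E N lam lam') {W | W ∈ SSt (N + 2 ^ j) ∧ W.length ≤ lam + lam' + 1} (fun h r => gf_WJlb E N lam lam' h r)
    (fun h hh r t ht => ⟨SSt_mo (by omega) (WJlb_mem ht).1, (WJlb_mem ht).2⟩)
    (fun t => count_id (WJlb E N lam lam') t N (2 ^ j + 1) fun h r ht => by
      obtain ⟨T, H, h5⟩ := WJb_key (WJlb_sub _ _ _ _ _ _ ht)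
      exact ⟨T, H, fun h' r' ht' => h5 h' r' (WJlb_sub _ _ _ _ _ _ ht')⟩)
  have h1 : ENNReal.ofReal (Ub j) * (ENNReal.ofReal xc * S0) ≤ 2 * (N : ℝ≥0∞) * HHl (N + 2 ^ j) (lam + lam' + 1) := by
    have h2 : ENNReal.ofReal (Ub j) ≤ 2 * ∑ h ∈ range (2 ^ j + 1), gf (BS lam' h) :=
      (hQ j le_rfl).trans (mul_le_mul_right (fronts j lam') _)
    have h3 : ENNReal.ofReal xc * S0 ≤ ∑' r : ℕ, (r : ℝ≥0∞) * gf (WJl E N lam r) := by
      rw [hS0, ← ENNReal.tsum_mul_left]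
      refine ENNReal.tsum_le_tsum fun r => ?_
      rw [mul_left_comm]
      exact mul_le_mul_right (sw_le_WJl E N lam r) _
    calc ENNReal.ofReal (Ub j) * (ENNReal.ofReal xc * S0)
        ≤ (2 * ∑ h ∈ range (2 ^ j + 1), gf (BS lam' h)) *
          ∑' r : ℕ, (r : ℝ≥0∞) * gf (WJl E N lam r) := mul_le_mul' h2 h3
      _ = 2 * ((∑ h ∈ range (2 ^ j + 1), gf (BS lam' h)) *
          ∑' r : ℕ, (r : ℝ≥0∞) * gf (WJl E N lam r)) := by ring
      _ ≤ 2 * ((N : ℝ≥0∞) * gf {W | W ∈ SSt (N + 2 ^ j) ∧ W.length ≤ lam + lam' + 1}) := mul_le_mul_right h0 _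
      _ = 2 * (N : ℝ≥0∞) * HHl (N + 2 ^ j) (lam + lam' + 1) := by
          unfold HHl
          ring
  have hU0 : ENNReal.ofReal (Ub j) ≠ 0 := by
    rw [Ne, ENNReal.ofReal_eq_zero, not_le]
    exact hU
  have hx0 : ENNReal.ofReal xc ≠ 0 := by
    rw [Ne, ENNReal.ofReal_eq_zero, not_le]
    exact hx
  have h4 : S0 ≤ 2 * (N : ℝ≥0∞) / (ENNReal.ofReal (Ub j) * ENNReal.ofReal xc) * HHl (N + 2 ^ j) (lam + lam' + 1) := by
    rw [← mul_assoc] at h1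
    have e1 : ENNReal.ofReal (Ub j) * ENNReal.ofReal xc ≠ 0 := mul_ne_zero hU0 hx0
    have e2 : ENNReal.ofReal (Ub j) * ENNReal.ofReal xc ≠ ∞ :=
      ENNReal.mul_ne_top ENNReal.ofReal_ne_top ENNReal.ofReal_ne_top
    rw [ENNReal.mul_comm_div, ← mul_div_assoc, ENNReal.le_div_iff_mul_le (Or.inl e1) (Or.inl e2), mul_comm]
    exact h1
  refine h4.trans (mul_le_mul_left ?_ _)
  rw [← ENNReal.ofReal_mul hU.le, show (2 : ℝ≥0∞) * (N : ℝ≥0∞) = ENNReal.ofReal (2 * N) by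
      rw [ENNReal.ofReal_mul (by norm_num), ENNReal.ofReal_natCast]; norm_num,
    ← ENNReal.ofReal_div_of_pos (by positivity)]
  apply ENNReal.ofReal_le_ofReal
  rw [show 2 * (N : ℝ) / (Ub j * xc) = (2 / xc) * N / Ub j by field_simp]
  gcongr
  exact le_max_right _ _

/-! ### 3. The norm of the free ends of one block -/

theorem ENDz (h : Inp C δ) : ∃ C1 : ℝ, 1 ≤ C1 ∧ ∀ j lam lam' : ℕ, 5 ≤ j → QL j lam' →
    zl lam j ≤ ENNReal.ofReal C1 * bl (lam + lam' + 12) (j + 1) := by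
  obtain ⟨K, c, hK, hc, hst⟩ := step1l_of h (fun h => clsA h) hsuml EFl_le sumZl
  obtain ⟨c0, ε, hc0, hε, hcl⟩ := close1 K c hK hc
  obtain ⟨C1, hC1, hst⟩ := hst c0 ε hc0 hε
  refine ⟨2 * C1, by linarith, fun j lam lam' hj hQ => ?_⟩
  refine hcl C1 (fun i => zl lam i) (fun i => bl (lam + lam' + 12) (i + 1)) j hC1
    (fun i _ _ => zNl_ne_top lam i (2 ^ (i + 1))) (fun a b hab => bl_mono _ (by omega)) ?_ j hj le_rfl
  intro i hi hij
  have h3 : 2 ^ i < 2 ^ (i + 1) := Nat.pow_lt_pow_right (by norm_num) (by omega)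
  have h4 : 2 ^ (i + 1) ≤ 2 ^ (i + 2) := Nat.pow_le_pow_right (by norm_num) (by omega)
  have h5 : zNl lam i (2 ^ (i + 1)) = zl lam i := rfl
  have h6 := hst i (2 ^ (i + 1)) lam lam' hi h3 h4 (fun a ha => hQ a (by omega))
  rw [h5] at h6
  refine h6.trans (add_le_add (add_le_add ?_ le_rfl) le_rfl)
  have hU : 0 < UU (2 ^ (i + 1)) := Num2Aux.UU_pos _
  calc ENNReal.ofReal (C1 / UU (2 ^ (i + 1))) * HHl (2 ^ (i + 1)) (lam + lam' + 12) =
      ENNReal.ofReal C1 * (HHl (2 ^ (i + 1)) (lam + lam' + 12) / ENNReal.ofReal (UU (2 ^ (i + 1)))) := by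
        rw [ENNReal.ofReal_div_of_pos hU, ENNReal.mul_comm_div]
    _ ≤ _ := mul_le_mul_right (le_bl _ le_rfl) _

/-! ### 4. The walks below the top of the leaf -/

theorem GL_lo : ∃ K : ℝ, 1 ≤ K ∧ ∀ (E N q j w lam lam' : ℕ), QL q lam' → 2 ^ (j + 1) ≤ E → 2 ^ (j + 1) ≤ w →
    Rec8.sw (BrR E N) (fun g => GLl (hgt g - w) lam g) ≤
      ENNReal.ofReal (K * (UU (2 ^ (j + 1)) / 2 ^ j * N / Ub q)) * HHl (N + 2 ^ q) (lam + lam' + 1) := by
  obtain ⟨K, hK, hs⟩ := hsuml_id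
  refine ⟨K, hK, fun E N q j w lam lam' hQ hE hw => ?_⟩
  obtain ⟨T, hT⟩ : ∃ T : ℕ → ℝ≥0∞, T = fun r => Rec8.sw (Irr r) (fun P => Rec8.sw {Z | Z ∈ BU ∧ P ++ Z ∈ BrR 0 N}
      (fun Z => GLl (hgt (P ++ Z) - 1) lam (P ++ Z))) := ⟨_, rfl⟩
  have h1 : ∑' r : ℕ, (r : ℝ≥0∞) * T r ≤ ENNReal.ofReal (K * N / Ub q) * HHl (N + 2 ^ q) (lam + lam' + 1) := by
    rw [hT]
    exact hs 0 N q lam lam' hQ
  have hin := inR (D := E) (N := N) (j := j) hE (fun g => GLl (hgt g - w) lam g)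
  refine hin.trans ?_
  have h2 : ∀ n r : ℕ, mu j n r * Rec8.sw (Brd n) (fun X => Rec8.sw (Irr r) (fun P =>
      Rec8.sw {Z | Z ∈ BU ∧ X ++ (P ++ Z) ∈ BrR E N} (fun Z => GLl (hgt (X ++ (P ++ Z)) - w) lam (X ++ (P ++ Z))))) ≤
      mu j n r * (gf (Brd n) * T r) := by
    intro n r
    by_cases hn : n < 2 ^ (j + 1)
    · refine mul_le_mul_right ?_ _
      rw [← NX_const]
      refine Rec8.sw_mono' fun X hX => ?_
      rw [hT]
      refine Rec8.sw_mono' fun P hP => ?_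
      refine Rec8.sw_mono ?_ ?_
      · rintro Z ⟨⟨z, hz⟩, hZ⟩
        refine ⟨⟨z, hz⟩, r + z, Nat.zero_le _, ?_, Brd_append hP.1 hz⟩
        obtain ⟨k, -, h3, h4⟩ := hZ
        have := Brd_height h4 (Brd_append hX (Brd_append hP.1 hz))
        omega
      · rintro Z ⟨⟨z, hz⟩, hZ⟩
        have h5 : hgt (X ++ (P ++ Z)) = n + (r + z) := hgt_eq (Brd_append hX (Brd_append hP.1 hz))
        have h6 : hgt (P ++ Z) = r + z := hgt_eq (Brd_append hP.1 hz)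
        rw [h5, h6]
        have hne : P ++ Z ≠ [] := by
          intro hc
          exact hP.2.1 (List.append_eq_nil_iff.1 hc).1
        refine gf_mono ?_
        rintro W ⟨h7, h8, h9⟩
        refine ⟨SSt_mo (by omega) h7, LF_drop hne h8, ?_⟩
        rw [List.length_append] at h9
        omega
    · rw [mu_eq_zero (by omega), zero_mul, zero_mul]
  refine ((ENNReal.tsum_le_tsum fun n => ENNReal.tsum_le_tsum fun r => h2 n r).trans (Gr_front j T)).trans ?_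
  refine (mul_le_mul_right h1 _).trans (le_of_eq ?_)
  have hp : (0 : ℝ) ≤ UU (2 ^ (j + 1)) / 2 ^ j := by
    have := (Num2Aux.UU_pos (2 ^ (j + 1))).le
    positivity
  rw [← mul_assoc, ← ENNReal.ofReal_mul hp]
  congr 2
  ring

/-! ### 5. The walks that come close to the top of the leaf -/

theorem GL_hi (h : Inp C δ) : ∃ K : ℝ, 1 ≤ K ∧ ∀ (E N w i lam : ℕ), 4 ≤ i →
    Rec8.sw (BrR E N) (fun g => gf {W | (W ∈ SSt (2 ^ (i + 1)) ∧ W ∉ SSt (2 ^ i)) ∧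
      (W ∈ SSt (hgt g - 1) ∧ W ∉ SSt (hgt g - w)) ∧ LFold g W ∧ g.length + W.length ≤ lam}) ≤
        ENNReal.ofReal (K * UU w) * zl lam i := by
  classical
  obtain ⟨K, hK, ht⟩ := totW h
  refine ⟨K * 2, by linarith, fun E N w i lam hi => ?_⟩
  have h1 := ht (2 ^ i) (2 ^ i) N (i - 4) (2 * UU w) (EFl (2 ^ i) (2 ^ (i + 1)) lam)
    (fun n t => Sfl i (2 ^ (i + 1)) (N + w) w lam n t) (fun n => Hered_Sfl _ _ _ _ _ n)
    (by have := (Num2Aux.UU_pos w).le; linarith) (fun n t => Sfl_win n t)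
    (by rw [Nat.sub_add_cancel hi]) le_rfl
  rw [mul_assoc]
  refine le_trans ?_ h1
  rw [Rec8.sw_ind, Rec8.sw_ind]
  refine ENNReal.tsum_le_tsum fun g => ?_
  by_cases hg : g ∈ BrR E N
  · rw [if_pos hg]
    obtain ⟨k, hk1, hk2, hk3⟩ := hg
    have hk := hgt_eq hk3
    by_cases hki : 2 ^ i ≤ k
    · have hg2 : g ∈ BrR (2 ^ i) N := ⟨k, hki, hk2, hk3⟩
      rw [if_pos hg2]
      refine mul_le_mul_right ?_ _
      unfold Sfl
      rw [hk, if_pos (by omega), if_neg (by omega)]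
      refine gf_mono ?_
      rintro W ⟨h2, ⟨h3, h4⟩, h5, h6⟩
      exact ⟨⟨h2, RT_of ⟨k, hki, hk3⟩ h5, by omega⟩, SSt_mo (by omega) h3, h4⟩
    · have he : {W | (W ∈ SSt (2 ^ (i + 1)) ∧ W ∉ SSt (2 ^ i)) ∧
          (W ∈ SSt (hgt g - 1) ∧ W ∉ SSt (hgt g - w)) ∧ LFold g W ∧ g.length + W.length ≤ lam} = ∅ := by
        rw [Set.eq_empty_iff_forall_notMem]
        rintro W ⟨⟨-, h2⟩, ⟨h3, -⟩, -⟩
        rw [hk] at h3
        exact h2 (SSt_mo (by omega) h3)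
      rw [he]
      have h0 : gf (∅ : Set (List Bool)) = 0 := by
        unfold gf
        rw [_root_.tsum_subtype]
        simp
      rw [h0, mul_zero]
      exact zero_le
  · rw [if_neg hg]
    exact zero_le

lemma GL_blocks {a b n w lam : ℕ} (hab : a ≤ b) (h1 : 2 ^ a ≤ n - w) (h2 : n ≤ 2 ^ b) (g : List Bool) :
    GLl (n - 1) lam g ≤ GLl (n - w) lam g + ∑ i ∈ Ico a b, gf {W | (W ∈ SSt (2 ^ (i + 1)) ∧ W ∉ SSt (2 ^ i)) ∧
      (W ∈ SSt (n - 1) ∧ W ∉ SSt (n - w)) ∧ LFold g W ∧ g.length + W.length ≤ lam} := by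
  classical
  have hsub : {W | W ∈ SSt (n - 1) ∧ LFold g W ∧ g.length + W.length ≤ lam} ⊆
      {W | W ∈ SSt (n - w) ∧ LFold g W ∧ g.length + W.length ≤ lam} ∪
      (⋃ i ∈ Ico a b, {W | (W ∈ SSt (2 ^ (i + 1)) ∧ W ∉ SSt (2 ^ i)) ∧
        (W ∈ SSt (n - 1) ∧ W ∉ SSt (n - w)) ∧ LFold g W ∧ g.length + W.length ≤ lam}) := by
    rintro W ⟨h3, h4⟩
    by_cases h5 : W ∈ SSt (n - w)
    · exact Or.inl ⟨h5, h4⟩
    right
    have hex : ∃ i, W ∈ SSt (2 ^ (a + i)) := ⟨b - a, SSt_mo (by rw [Nat.add_sub_cancel' hab]; omega) h3⟩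
    obtain ⟨i, hi1, hi2⟩ : ∃ i, W ∈ SSt (2 ^ (a + i)) ∧ ∀ i' < i, W ∉ SSt (2 ^ (a + i')) :=
      ⟨Nat.find hex, Nat.find_spec hex, fun i' hi' => Nat.find_min hex hi'⟩
    have hi0 : i ≠ 0 := by
      rintro rfl
      exact h5 (SSt_mo h1 hi1)
    obtain ⟨i', rfl⟩ : ∃ i', i = i' + 1 := ⟨i - 1, by omega⟩
    have hij : a + (i' + 1) ≤ b := by
      by_contra hc
      exact hi2 (b - a) (by omega) (SSt_mo (by rw [Nat.add_sub_cancel' hab]; omega) h3)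
    rw [Set.mem_iUnion₂]
    refine ⟨a + i', Finset.mem_Ico.2 ⟨by omega, by omega⟩, ⟨?_, hi2 i' (by omega)⟩, ⟨h3, h5⟩, h4⟩
    rw [add_assoc]
    exact hi1
  unfold GLl
  exact (gf_mono hsub).trans ((gf_union_le _ _).trans (add_le_add le_rfl (JumpVaux.gf_biUnion_le _ _)))

/-! ### 6. Growth -/

/-- **growth of the half plane weights with a bound of the number of letters** -/
theorem growL (h : Inp C δ) : ∀ ε : ℝ, 0 < ε → ∃ C1 : ℝ, 1 ≤ C1 ∧ ∀ i L lam lam' : ℕ, QL L lam' → i ≤ L →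
    HHl (2 ^ i) lam / ENNReal.ofReal (UU (2 ^ i)) ≤
      ENNReal.ofReal C1 * (HHl (2 ^ L) (lam + lam' + 12) / ENNReal.ofReal (UU (2 ^ L))) +
        ENNReal.ofReal ε * bl (lam + lam' + 12) L := by
  intro ε hε
  obtain ⟨KH, hKH, hH⟩ := HHl_le
  obtain ⟨KZ, hKZ, hZ⟩ := sumZl
  obtain ⟨KL, hKL, hL⟩ := GL_lo
  obtain ⟨KT, hKT, hT⟩ := GL_hi h
  obtain ⟨KE, hKE, hE⟩ := ENDz h
  obtain ⟨m, hm⟩ := Gr_pow (KH * (2 + KZ) * 2) (ε / 2) (by linarith)
  obtain ⟨s0, hs0⟩ := Gr_pow (KH * ((m + 1) * (KT * KE)) * 2) (ε / 2) (by linarith)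
  obtain ⟨s, hs⟩ : ∃ s, s = s0 + m + 1 := ⟨_, rfl⟩
  obtain ⟨i0, hi0⟩ : ∃ i0, i0 = s + m + 5 := ⟨_, rfl⟩
  obtain ⟨A, hA⟩ : ∃ A : ℝ, A = (BAR.HH (2 ^ i0)).toReal := ⟨_, rfl⟩
  have hA0 : 0 ≤ A := hA ▸ ENNReal.toReal_nonneg
  have hAe : BAR.HH (2 ^ i0) = ENNReal.ofReal A := by
    rw [hA]
    exact (ENNReal.ofReal_toReal (show BAR.HH (2 ^ i0) ≠ ∞ from PLW.gf_SSt_fin _)).symm
  have hKLs : 0 ≤ KL * 2 ^ (s + 2) := by positivity
  obtain ⟨C1, hC1⟩ : ∃ C1 : ℝ, C1 = 1 + 2 * A + KH * (4 + KL * 2 ^ (s + 2)) := ⟨_, rfl⟩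
  have hKp : 0 ≤ KH * (4 + KL * 2 ^ (s + 2)) := by positivity
  refine ⟨C1, by rw [hC1]; linarith, fun i L lam lam' hQ hiL => ?_⟩
  have hUp : ∀ n, 0 < UU n := Num2Aux.UU_pos
  have hUm : ∀ {a b : ℕ}, a ≤ b → UU a ≤ UU b := fun h => Num2Aux.UU_mono h
  obtain ⟨M, hM⟩ : ∃ M : ℝ≥0∞, M = bl (lam + lam' + 12) L := ⟨_, rfl⟩
  obtain ⟨H, hHd⟩ : ∃ H : ℝ≥0∞, H = HHl (2 ^ L) (lam + lam' + 12) := ⟨_, rfl⟩
  rw [← hM, ← hHd]
  obtain ⟨a, ha⟩ : ∃ a : ℝ, a = UU (2 ^ i) / UU (2 ^ L) := ⟨_, rfl⟩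
  have ha0 : 0 < a := by
    rw [ha]
    exact div_pos (hUp _) (hUp _)
  have haN : a * UU (2 ^ L) = UU (2 ^ i) := by
    rw [ha]
    exact div_mul_cancel₀ _ (hUp _).ne'
  obtain ⟨Y, hY⟩ : ∃ Y : ℝ≥0∞, Y = ENNReal.ofReal a * H := ⟨_, rfl⟩
  have hUi0 : ENNReal.ofReal (UU (2 ^ i)) ≠ 0 := by
    rw [Ne, ENNReal.ofReal_eq_zero, not_le]
    exact hUp _
  -- without the quotients
  suffices hmain : HHl (2 ^ i) lam ≤ ENNReal.ofReal C1 * Y + ENNReal.ofReal (ε * UU (2 ^ i)) * M by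
    rw [ENNReal.div_le_iff_le_mul (Or.inl hUi0) (Or.inl ENNReal.ofReal_ne_top)]
    refine hmain.trans (le_of_eq ?_)
    have e1 : ENNReal.ofReal a = ENNReal.ofReal (UU (2 ^ i)) / ENNReal.ofReal (UU (2 ^ L)) := by
      rw [ha, ENNReal.ofReal_div_of_pos (hUp _)]
    rw [hY, e1, ENNReal.ofReal_mul hε.le, add_mul, ENNReal.div_eq_inv_mul, ENNReal.div_eq_inv_mul]
    ring
  -- the bridges are short
  have hQH : ∀ q ≤ L, ∀ x : ℕ, lam' ≤ x → ENNReal.ofReal (UU (2 ^ q)) ≤ 2 * HHl (2 ^ q) x := by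
    intro q hq x hx
    refine (hQ q hq).trans (mul_le_mul_right ?_ _)
    refine gf_mono fun W hW => ?_
    obtain ⟨⟨n, hn, hW1⟩, hW2⟩ := hW
    exact ⟨SSt_mo hn (BAR.Brd_SSt hW1), by omega⟩
  have hMq : ∀ q ≤ L, ∀ x : ℕ, x ≤ lam + lam' + 12 → HHl (2 ^ q) x ≤ ENNReal.ofReal (UU (2 ^ q)) * M := by
    intro q hq x hx
    have hU0 : ENNReal.ofReal (UU (2 ^ q)) ≠ 0 := by
      rw [Ne, ENNReal.ofReal_eq_zero, not_le]
      exact hUp _
    have h1 : HHl (2 ^ q) (lam + lam' + 12) / ENNReal.ofReal (UU (2 ^ q)) ≤ M := by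
      rw [hM]
      exact le_bl _ hq
    rw [ENNReal.div_le_iff_le_mul (Or.inl hU0) (Or.inl ENNReal.ofReal_ne_top), mul_comm] at h1
    exact (HHl_mono le_rfl hx).trans h1
  have hUH : ENNReal.ofReal (UU (2 ^ i)) ≤ 2 * Y := by
    rw [← haN, ENNReal.ofReal_mul ha0.le, hY, hHd]
    calc ENNReal.ofReal a * ENNReal.ofReal (UU (2 ^ L)) ≤ ENNReal.ofReal a * (2 * HHl (2 ^ L) (lam + lam' + 12)) :=
          mul_le_mul_right (hQH L le_rfl _ (by omega)) _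
      _ = _ := by ring
  have hU1 : 1 ≤ UU (2 ^ i) := by
    have h1 := hUm (Nat.zero_le (2 ^ i))
    have h2 : UU 0 = 1 := Gr_U0
    linarith
  have h1H : 1 ≤ 2 * Y := by
    refine le_trans ?_ hUH
    rw [← ENNReal.ofReal_one]
    exact ENNReal.ofReal_le_ofReal hU1
  -- the same scale
  rcases Nat.eq_or_lt_of_le hiL with hiL2 | hiL2
  · refine le_trans ?_ le_self_add
    have h4 : a = 1 := by
      rw [ha, hiL2]
      exact div_self (hUp _).ne'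
    rw [hY, h4, ENNReal.ofReal_one, one_mul, hHd, hiL2]
    calc HHl (2 ^ L) lam ≤ HHl (2 ^ L) (lam + lam' + 12) := HHl_mono le_rfl (by omega)
      _ = ENNReal.ofReal 1 * HHl (2 ^ L) (lam + lam' + 12) := by rw [ENNReal.ofReal_one, one_mul]
      _ ≤ _ := mul_le_mul_left (ENNReal.ofReal_le_ofReal (by rw [hC1]; linarith)) _
  -- small scales
  rcases Nat.lt_or_ge i i0 with hi | hi
  · refine le_trans ?_ le_self_add
    calc HHl (2 ^ i) lam ≤ BAR.HH (2 ^ i) := gf_mono fun W hW => hW.1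
      _ ≤ BAR.HH (2 ^ i0) := BAR.HH_mono (Nat.pow_le_pow_right (by norm_num) (by omega))
      _ = ENNReal.ofReal A * 1 := by rw [hAe, mul_one]
      _ ≤ ENNReal.ofReal A * (2 * Y) := mul_le_mul_right h1H _
      _ = ENNReal.ofReal (2 * A) * Y := by
          rw [ENNReal.ofReal_mul (by norm_num : (0 : ℝ) ≤ 2), ENNReal.ofReal_ofNat]
          ring
      _ ≤ _ := mul_le_mul_left (ENNReal.ofReal_le_ofReal (by rw [hC1]; linarith)) _
  -- main case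
  obtain ⟨q, hq⟩ : ∃ q, L = q + 1 := ⟨L - 1, by omega⟩
  have hqL : 2 ^ i + 2 ^ q ≤ 2 ^ L := by
    have h1 : 2 ^ i ≤ 2 ^ q := Nat.pow_le_pow_right (by norm_num) (by omega)
    have h2 : 2 ^ L = 2 * 2 ^ q := by rw [hq]; ring
    omega
  have hUq : UU (2 ^ L) ≤ 2 * Ub q := by
    have h1 := UU_double (2 ^ q)
    have h2 : 2 * 2 ^ q = 2 ^ L := by rw [hq]; ring
    rw [h2] at h1
    exact h1
  obtain ⟨j, hj⟩ : ∃ j, i = j + 1 + s := ⟨i - 1 - s, by omega⟩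
  obtain ⟨l, hl⟩ : ∃ l, i = l + m := ⟨i - m, by omega⟩
  have hE1 : 2 ^ (j + 1) ≤ 2 ^ l := Nat.pow_le_pow_right (by norm_num) (by omega)
  have hE2 : 2 ^ (j + 1) ≤ 2 ^ (l - 1) := Nat.pow_le_pow_right (by norm_num) (by omega)
  have hE3 : 2 ^ l = 2 * 2 ^ (l - 1) := by
    rw [← pow_succ']
    congr 1
    omega
  have hEN : 2 ^ l ≤ 2 ^ i := Nat.pow_le_pow_right (by norm_num) (by omega)
  have hsplit : BrR 1 (2 ^ i) ⊆ BrR 1 (2 ^ l) ∪ BrR (2 ^ l) (2 ^ i) := by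
    rintro g ⟨k, h1, h2, h3⟩
    rcases Nat.lt_or_ge k (2 ^ l) with h4 | h4
    · exact Or.inl ⟨k, h1, h4.le, h3⟩
    · exact Or.inr ⟨k, h4, h2, h3⟩
  have hgfU : ∀ E n : ℕ, gf (BrR E n) ≤ ENNReal.ofReal (UU n) := by
    intro E n
    refine (gf_mono ?_).trans (gf_BU_le n)
    rintro g ⟨k, h1, h2, h3⟩
    exact ⟨k, h2, h3⟩
  have hX1 : Rec8.sw (BrR 1 (2 ^ l)) (fun g => 1 + GLl (hgt g - 1) lam g) ≤
      ENNReal.ofReal (2 + KZ) * (ENNReal.ofReal (UU (2 ^ l)) * M) := by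
    rw [Rec8.sw_add, Rec8.sw_one]
    have h5 := hMq l (by omega) (lam + 1) (by omega)
    have h6 := hMq l (by omega) lam' (by omega)
    calc gf (BrR 1 (2 ^ l)) + Rec8.sw (BrR 1 (2 ^ l)) (fun g => GLl (hgt g - 1) lam g)
        ≤ 2 * HHl (2 ^ l) lam' + ENNReal.ofReal KZ * HHl (2 ^ l) (lam + 1) :=
          add_le_add ((hgfU _ _).trans (hQH l (by omega) _ le_rfl)) (hZ _ _)
      _ ≤ 2 * (ENNReal.ofReal (UU (2 ^ l)) * M) + ENNReal.ofReal KZ * (ENNReal.ofReal (UU (2 ^ l)) * M) :=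
          add_le_add (mul_le_mul_right h6 _) (mul_le_mul_right h5 _)
      _ = _ := by
          rw [ENNReal.ofReal_add (by norm_num) (by linarith), ENNReal.ofReal_ofNat]
          ring
  have hlo : Rec8.sw (BrR (2 ^ l) (2 ^ i)) (fun g => GLl (hgt g - 2 ^ (j + 1)) lam g) ≤
      ENNReal.ofReal (KL * 2 ^ (s + 2)) * Y := by
    have hq' : QL q lam' := fun x hx => hQ x (by omega)
    have hfin : HHl (2 ^ i + 2 ^ q) (lam + lam' + 1) ≤ H := by
      rw [hHd]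
      exact HHl_mono hqL (by omega)
    refine (hL (2 ^ l) (2 ^ i) q j (2 ^ (j + 1)) lam lam' hq' hE1 le_rfl).trans ((mul_le_mul_right hfin _).trans ?_)
    rw [hY]
    refine Gr_num ha0 ?_
    have h6 : UU (2 ^ (j + 1)) ≤ UU (2 ^ i) := hUm (Nat.pow_le_pow_right (by norm_num) (by omega))
    have h7 : (((2 ^ i : ℕ) : ℝ)) = 2 ^ j * 2 ^ (s + 1) := by
      rw [hj]
      push_cast
      rw [← pow_add]
      congr 1
      omega
    have h2j : (0 : ℝ) < 2 ^ j := by positivity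
    have hUb : 0 < Ub q := Ub_pos q
    have h8 : UU (2 ^ (j + 1)) / 2 ^ j * ((2 ^ i : ℕ) : ℝ) / Ub q = UU (2 ^ (j + 1)) * 2 ^ (s + 1) * (1 / Ub q) := by
      rw [h7]
      field_simp
    have h9 : 1 / Ub q ≤ 2 / UU (2 ^ L) := by
      rw [div_le_div_iff₀ hUb (hUp _)]
      linarith
    rw [h8]
    calc KL * (UU (2 ^ (j + 1)) * 2 ^ (s + 1) * (1 / Ub q)) ≤ KL * (UU (2 ^ i) * 2 ^ (s + 1) * (2 / UU (2 ^ L))) := by
          have hn := (hUp (2 ^ (j + 1))).le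
          have hn2 := (hUp (2 ^ i)).le
          gcongr
      _ = KL * 2 ^ (s + 2) * a := by
          rw [ha]
          ring
  have hhi : ∑ i' ∈ Ico (l - 1) i, Rec8.sw (BrR (2 ^ l) (2 ^ i)) (fun g =>
      gf {W | (W ∈ SSt (2 ^ (i' + 1)) ∧ W ∉ SSt (2 ^ i')) ∧
      (W ∈ SSt (hgt g - 1) ∧ W ∉ SSt (hgt g - 2 ^ (j + 1))) ∧ LFold g W ∧ g.length + W.length ≤ lam}) ≤
      ENNReal.ofReal ((m + 1) * (KT * KE)) * (ENNReal.ofReal (UU (2 ^ (j + 1))) * M) := by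
    have h10 : ∀ i' ∈ Ico (l - 1) i, Rec8.sw (BrR (2 ^ l) (2 ^ i)) (fun g =>
      gf {W | (W ∈ SSt (2 ^ (i' + 1)) ∧ W ∉ SSt (2 ^ i')) ∧
      (W ∈ SSt (hgt g - 1) ∧ W ∉ SSt (hgt g - 2 ^ (j + 1))) ∧ LFold g W ∧ g.length + W.length ≤ lam}) ≤
      ENNReal.ofReal (KT * KE) * (ENNReal.ofReal (UU (2 ^ (j + 1))) * M) := by
      intro i' hi'
      rw [Finset.mem_Ico] at hi'
      have hz : zl lam i' ≤ ENNReal.ofReal KE * M := by
        refine (hE i' lam lam' (by omega) (fun x hx => hQ x (by omega))).trans (mul_le_mul_right ?_ _)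
        rw [hM]
        exact bl_mono _ (by omega)
      refine (hT _ _ _ i' lam (by omega)).trans ((mul_le_mul_right hz _).trans (le_of_eq ?_))
      rw [ENNReal.ofReal_mul (by linarith), ENNReal.ofReal_mul (by linarith)]
      ring
    refine (Finset.sum_le_card_nsmul _ _ _ h10).trans (le_of_eq ?_)
    rw [Nat.card_Ico, nsmul_eq_mul, ENNReal.ofReal_mul (p := (m : ℝ) + 1) (by positivity),
      mul_assoc (ENNReal.ofReal ((m : ℝ) + 1))]
    congr 1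
    rw [show i - (l - 1) = m + 1 by omega, ← ENNReal.ofReal_natCast]
    push_cast
    rfl
  have hX2 : Rec8.sw (BrR (2 ^ l) (2 ^ i)) (fun g => 1 + GLl (hgt g - 1) lam g) ≤
      2 * Y + (ENNReal.ofReal (KL * 2 ^ (s + 2)) * Y +
        ENNReal.ofReal ((m + 1) * (KT * KE)) * (ENNReal.ofReal (UU (2 ^ (j + 1))) * M)) := by
    rw [Rec8.sw_add, Rec8.sw_one]
    refine add_le_add ((hgfU _ _).trans hUH) ?_
    refine le_trans (Rec8.sw_mono' fun g hg => ?_) ((Rec8.sw_add _ _ _).le.trans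
      (add_le_add hlo ((Rec8.sw_sum _ _ _).le.trans hhi)))
    obtain ⟨k, h1, h2, h3⟩ := hg
    have hk := hgt_eq h3
    rw [hk]
    exact GL_blocks (by omega) (by omega) h2 g
  -- numbers
  have hg1 : UU (2 ^ l) ≤ 2 * (2 : ℝ) ^ (-(kap0 * (m : ℝ))) * UU (2 ^ i) := by
    have h11 := Ub_growth (a := l) (b := i) (by omega)
    exact Gr_gr h11 (by rw [hl]; push_cast; ring)
  have hg2 : UU (2 ^ (j + 1)) ≤ 2 * (2 : ℝ) ^ (-(kap0 * (s0 : ℝ))) * UU (2 ^ i) := by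
    have h11 := Ub_growth (a := j + 1) (b := i) (by omega)
    have h12 := Gr_gr (x := (s : ℝ)) h11 (by rw [hj]; push_cast; ring)
    refine h12.trans ?_
    have h13 : (2 : ℝ) ^ (-(kap0 * (s : ℝ))) ≤ (2 : ℝ) ^ (-(kap0 * (s0 : ℝ))) := by
      refine Real.rpow_le_rpow_of_exponent_le (by norm_num) ?_
      have h14 : (s0 : ℝ) ≤ s := by
        rw [hs]
        push_cast
        linarith
      have := mul_le_mul_of_nonneg_left h14 Gr_kap.le
      linarith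
    have := (hUp (2 ^ i)).le
    gcongr
  have hq1 : ENNReal.ofReal KH * (ENNReal.ofReal (2 + KZ) * (ENNReal.ofReal (UU (2 ^ l)) * M)) ≤
      ENNReal.ofReal (ε / 2 * UU (2 ^ i)) * M := by
    rw [← mul_assoc, ← mul_assoc, ← ENNReal.ofReal_mul (by linarith), ← ENNReal.ofReal_mul (by positivity)]
    refine mul_le_mul_left (ENNReal.ofReal_le_ofReal ?_) _
    calc KH * (2 + KZ) * UU (2 ^ l) ≤ KH * (2 + KZ) * (2 * (2 : ℝ) ^ (-(kap0 * (m : ℝ))) * UU (2 ^ i)) := by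
          have : 0 ≤ KH * (2 + KZ) := by positivity
          exact mul_le_mul_of_nonneg_left hg1 this
      _ = KH * (2 + KZ) * 2 * (2 : ℝ) ^ (-(kap0 * (m : ℝ))) * UU (2 ^ i) := by ring
      _ ≤ _ := mul_le_mul_of_nonneg_right hm (hUp _).le
  have hq2 : ENNReal.ofReal KH * (ENNReal.ofReal ((m + 1) * (KT * KE)) * (ENNReal.ofReal (UU (2 ^ (j + 1))) * M)) ≤
      ENNReal.ofReal (ε / 2 * UU (2 ^ i)) * M := by
    rw [← mul_assoc, ← mul_assoc, ← ENNReal.ofReal_mul (by linarith), ← ENNReal.ofReal_mul (by positivity)]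
    refine mul_le_mul_left (ENNReal.ofReal_le_ofReal ?_) _
    calc KH * ((m + 1) * (KT * KE)) * UU (2 ^ (j + 1)) ≤
          KH * ((m + 1) * (KT * KE)) * (2 * (2 : ℝ) ^ (-(kap0 * (s0 : ℝ))) * UU (2 ^ i)) := by
          have : 0 ≤ KH * ((m + 1) * (KT * KE)) := by positivity
          exact mul_le_mul_of_nonneg_left hg2 this
      _ = KH * ((m + 1) * (KT * KE)) * 2 * (2 : ℝ) ^ (-(kap0 * (s0 : ℝ))) * UU (2 ^ i) := by ring
      _ ≤ _ := mul_le_mul_of_nonneg_right hs0 (hUp _).le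
  have hfin := hH (2 ^ i) lam
  have hX := (TN5b_sw_union hsplit (fun g => 1 + GLl (hgt g - 1) lam g)).trans (add_le_add hX1 hX2)
  have hpt : Rec8.sw (BrR 1 (2 ^ i)) (fun g => (if g.length ≤ lam then 1 else 0) + GLl (hgt g - 1) lam g) ≤
      Rec8.sw (BrR 1 (2 ^ i)) (fun g => 1 + GLl (hgt g - 1) lam g) := by
    refine Rec8.sw_mono' fun g _ => add_le_add ?_ le_rfl
    split_ifs
    · exact le_rfl
    · exact zero_le
  calc HHl (2 ^ i) lam ≤ ENNReal.ofReal KH * (2 * Y + (ENNReal.ofReal (2 + KZ) * (ENNReal.ofReal (UU (2 ^ l)) * M) +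
        (2 * Y + (ENNReal.ofReal (KL * 2 ^ (s + 2)) * Y +
        ENNReal.ofReal ((m + 1) * (KT * KE)) * (ENNReal.ofReal (UU (2 ^ (j + 1))) * M))))) :=
        hfin.trans (mul_le_mul_right (add_le_add h1H (hpt.trans hX)) _)
    _ = ENNReal.ofReal (KH * (4 + KL * 2 ^ (s + 2))) * Y +
        (ENNReal.ofReal KH * (ENNReal.ofReal (2 + KZ) * (ENNReal.ofReal (UU (2 ^ l)) * M)) +
        ENNReal.ofReal KH * (ENNReal.ofReal ((m + 1) * (KT * KE)) * (ENNReal.ofReal (UU (2 ^ (j + 1))) * M))) := by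
        rw [ENNReal.ofReal_mul (by linarith : (0 : ℝ) ≤ KH), ENNReal.ofReal_add (by norm_num) hKLs, ENNReal.ofReal_ofNat]
        ring
    _ ≤ ENNReal.ofReal C1 * Y +
        (ENNReal.ofReal (ε / 2 * UU (2 ^ i)) * M + ENNReal.ofReal (ε / 2 * UU (2 ^ i)) * M) :=
        add_le_add (mul_le_mul_left (ENNReal.ofReal_le_ofReal (by rw [hC1]; linarith)) _) (add_le_add hq1 hq2)
    _ = _ := by
        have h15 : 0 ≤ ε / 2 * UU (2 ^ i) := by
          have := (hUp (2 ^ i)).le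
          positivity
        rw [← add_mul, ← ENNReal.ofReal_add h15 h15]
        congr 3
        ring

end NTW

end HexObs
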