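import Pool.Agent.NTW.KernA
import Pool.Agent.EXP.CutFinal
import Pool.Agent.EXL.FinalPre
import Pool.Agent.EXL.GlFin
import Pool.Agent.Ex.P2Main

/-!
NTW: the upper bound UpG of the growth of the renewal function, from the order of the bridge weights.
-/

set_option autoImplicit false

namespace HexObs

namespace NTW

open TS

/-- UpG from the order of the bridge weights -/
theorem upG_of (hB : ∃ C : ℝ, 0 < C ∧ ∀ T : ℕ, 1 ≤ T →
      (T : ℝ) ^ (-(1 / 4 : ℝ)) / C ≤ bT T ∧ bT T ≤ C * (T : ℝ) ^ (-(1 / 4 : ℝ))) : UpG := by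
  obtain ⟨C0, hC0, h0⟩ := hB
  obtain ⟨C, hC⟩ : ∃ C, C = max C0 1 := ⟨_, rfl⟩
  have hC1 : 1 ≤ C := by rw [hC]; exact le_max_right _ _
  have hCC : C0 ≤ C := by rw [hC]; exact le_max_left _ _
  have hCp : 0 < C := by linarith
  have h1 : ∀ T : ℕ, 1 ≤ T →
      (T : ℝ) ^ (-(1 / 4 : ℝ)) / C ≤ bT T ∧ bT T ≤ C * (T : ℝ) ^ (-(1 / 4 : ℝ)) := by
    intro T hT
    obtain ⟨h2, h3⟩ := h0 T hT
    constructor
    · exact (div_le_div_of_nonneg_left (by positivity) hC0 hCC).trans h2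
    · exact h3.trans (mul_le_mul_of_nonneg_right hCC (by positivity))
  have hb : CutR.PB uu (3 / 4) C := PB_uu h1
  refine ⟨(1 + C / (3 / 4)) * C, by
    have : 0 < C / (3 / 4) := by positivity
    nlinarith, fun l k hlk => ?_⟩
  have e1 : Ub k ≤ (1 + C / (3 / 4)) * (((2 ^ k : ℕ) : ℝ)) ^ (3 / 4 : ℝ) :=
    CutR.US_upper RS_uu (by norm_num) (by norm_num) hC1 hb Nat.one_le_two_pow
  have e2 : (((2 ^ l : ℕ) : ℝ)) ^ (3 / 4 : ℝ) / C ≤ Ub l := CutR.US_lower RS_uu hC1 hb Nat.one_le_two_pow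
  have e3 : (((2 ^ k : ℕ) : ℝ)) ^ (3 / 4 : ℝ) = (2 : ℝ) ^ (3 / 4 * ((k : ℝ) - l)) * (((2 ^ l : ℕ) : ℝ)) ^ (3 / 4 : ℝ) := by
    push_cast
    rw [← Real.rpow_natCast, ← Real.rpow_natCast, ← Real.rpow_mul (by norm_num), ← Real.rpow_mul (by norm_num),
      ← Real.rpow_add two_pos]
    congr 1
    ring
  rw [div_le_iff₀ hCp] at e2
  have hp : 0 < (2 : ℝ) ^ (3 / 4 * ((k : ℝ) - l)) := Real.rpow_pos_of_pos two_pos _
  rw [e3] at e1
  have h4 : 0 < 1 + C / (3 / 4) := by positivity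
  calc Ub k ≤ (1 + C / (3 / 4)) * ((2 : ℝ) ^ (3 / 4 * ((k : ℝ) - l)) * (((2 ^ l : ℕ) : ℝ)) ^ (3 / 4 : ℝ)) := e1
    _ ≤ (1 + C / (3 / 4)) * ((2 : ℝ) ^ (3 / 4 * ((k : ℝ) - l)) * (Ub l * C)) := by gcongr
    _ = _ := by ring

/-- upper bound of the growth of the renewal function -/
theorem upG : UpG := upG_of (Ex.P2.main (fun n => HexObs.bT_nonneg n) (fun _ _ h => Pool.Agent.EXL.bT_anti h)
    (fun _ => rfl) Pool.Agent.EXL.Glue.relE_bT)

/-- the ends, universal weight -/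
theorem ssA {C δ : ℝ} (h : Inp C δ) : SsA := ssA_of upG h

/-- the giants next to a fold, universal weight -/
theorem ssThree {C δ : ℝ} (h : Inp C δ) : Ss3 := ss3 h

/-- the giants used at both ends, universal weight -/
theorem ssBoth {C δ : ℝ} (h : Inp C δ) : SsD := ssD h

end NTW

end HexObs
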