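import Pool.Agent.NTW.EndF
import Pool.Agent.NTW.GrowL
import Pool.Agent.NTW.DomT
import Pool.Agent.NTW.DomW
import Pool.Agent.NTW.KernS
import Pool.Agent.NTW.KernU
import Pool.Agent.NTW.EventJ
import Pool.Agent.HexLim.Touch

/-!
NTW: doubling of the height for the half plane weights: the weight of the half plane words of height 2 ^ (j + 1), divided
by UU, is at most a constant times the largest value up to the scale j.
-/

set_option autoImplicit false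

namespace HexObs

namespace NTW

open Finset TS SDN

open scoped ENNReal

variable {C δ : ℝ}

namespace HD

/-- the end functional, heights in (N0, N] -/
theorem EF_win : ∃ K : ℝ, 1 ≤ K ∧ ∀ (D N0 N lam : ℕ), 1 ≤ N0 → N0 ≤ N → ∀ t : List Bool,
    gf {W | W ∈ SSt N ∧ W ∉ SSt N0 ∧ RT D LFold t W ∧ W.length ≤ lam} ≤
      ENNReal.ofReal K * Rec8.sw {g | g ∈ BrR N0 N ∧ RT D LFold t g}
      (fun g => (if g.length ≤ lam then 1 else 0) + GLl (hgt g - 1) lam g) := by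
  refine ⟨6, by norm_num, fun D N0 N lam hD hDN t => ?_⟩
  obtain ⟨P, hPd⟩ : ∃ P : Set (List Bool), P = {W | RT D LFold t W} := ⟨_, rfl⟩
  have hP : PrefC P := hPd ▸ Jo_PrefC D t
  have hL : LastC P := hPd ▸ Jo_LastC D t
  have hset : {g | g ∈ BrR N0 N ∧ RT D LFold t g} = {g | g ∈ BrR N0 N ∧ g ∈ P} := by
    rw [hPd]
    rfl
  rw [hset]
  obtain ⟨Q, hQ⟩ : ∃ Q : Set (List Bool), Q = {g | g ∈ P ∧ g.length ≤ lam} := ⟨_, rfl⟩
  have hadd : ∀ (c : Bool) (T : ℕ), gf ({t | ∃ g ∈ Brd T ∩ Q, t = g ++ [c]}) ≤ gf (Brd T ∩ Q) := by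
    intro c T
    have h1 := gf_le_mul (P := {t | ∃ g ∈ Brd T ∩ Q, t = g ++ [c]}) (Q := Brd T ∩ Q) (R := {[c]}) (by
      rintro t ⟨g, hg, rfl⟩
      exact ⟨g, hg, [c], rfl, rfl⟩)
    refine h1.trans ?_
    have h2 : gf ({[c]} : Set (List Bool)) ≤ 1 := by
      rw [B2b_gf_singleton]
      exact B2b_wE_le_one _
    calc gf (Brd T ∩ Q) * gf {[c]} ≤ gf (Brd T ∩ Q) * 1 := by gcongr
      _ = gf (Brd T ∩ Q) := mul_one _
  have hsub : {W | W ∈ SSt N ∧ W ∉ SSt N0 ∧ RT D LFold t W ∧ W.length ≤ lam} ⊆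
      (⋃ T ∈ Finset.Icc N0 N, HT (T : ℕ) ∩ {W | W ∈ P ∧ W.length ≤ lam}) ∪
      ((⋃ T ∈ Finset.Icc N0 N, {t | ∃ g ∈ Brd T ∩ Q, t = g ++ [true]}) ∪
       (⋃ T ∈ Finset.Icc N0 N, {t | ∃ g ∈ Brd T ∩ Q, t = g ++ [false]})) := by
    rintro W ⟨hW, hWD, hWP, hWl⟩
    have hWP' : W ∈ P := by
      rw [hPd]
      exact hWP
    rcases SSt_cases hW with ⟨T, hT, h⟩ | ⟨T, hT, g, hg, c, rfl⟩
    · left
      rw [Set.mem_iUnion₂]
      have hDT : N0 ≤ T := by
        by_contra hcon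
        exact hWD (Jo_SSt_mono (by omega) h.1)
      exact ⟨T, Finset.mem_Icc.2 ⟨hDT, hT⟩, h, hWP', hWl⟩
    · right
      have hgP : g ∈ P := hP g [c] hWP'
      have hgQ : g ∈ Q := by
        rw [hQ]
        refine ⟨hgP, ?_⟩
        rw [List.length_append] at hWl
        omega
      have hDT : N0 ≤ T := by
        by_contra hcon
        refine hWD ⟨fun i h1 h2 => ?_, hW.inj⟩
        rw [mem_St]
        have h3 := (mem_St.1 (hW.mem i h1 h2)).1
        rw [List.length_append, List.length_singleton] at h2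
        rcases Nat.lt_or_ge g.length i with h4 | h4
        · have h5 : i = g.length + 1 := by omega
          have h6 : lev (g ++ [c]) i = lev g (g.length + 1) := by
            unfold lev
            rw [h5, vx_append le_rfl]
          have h7 := lev_succ g g.length
          rw [(mem_Brd.1 hg).2.2.1, (mem_Brd.1 hg).2.2.2] at h7
          have h8 : ip up up = 2 := by decide
          rw [h8] at h7
          rw [h6, h7]
          omega
        · have h6 : lev (g ++ [c]) i = lev g i := by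
            unfold lev
            rw [vx_append (by omega)]
          have h7 := (mem_Brd.1 hg).1 i h1 h4
          rw [h6]
          omega
      cases c
      · right
        rw [Set.mem_iUnion₂]
        exact ⟨T, Finset.mem_Icc.2 ⟨hDT, hT.le⟩, g, ⟨hg, hgQ⟩, rfl⟩
      · left
        rw [Set.mem_iUnion₂]
        exact ⟨T, Finset.mem_Icc.2 ⟨hDT, hT.le⟩, g, ⟨hg, hgQ⟩, rfl⟩
  have hun : ∀ (I : Finset ℕ) (Q : ℕ → Set (List Bool)), gf (⋃ T ∈ I, Q T) ≤ ∑ T ∈ I, gf (Q T) := by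
    classical
    intro I Q
    induction I using Finset.induction_on with
    | empty =>
      simp [gf]
    | insert a s ha ih =>
      rw [Finset.set_biUnion_insert, Finset.sum_insert ha]
      exact (gf_union_le _ _).trans (add_le_add le_rfl ih)
  obtain ⟨F, hF⟩ : ∃ F : List Bool → ℝ≥0∞, F = fun g => (if g.length ≤ lam then 1 else 0) + GLl (hgt g - 1) lam g :=
    ⟨_, rfl⟩
  rw [← hF]
  obtain ⟨X, hX⟩ : ∃ X : ℝ≥0∞, X = Rec8.sw {g | g ∈ BrR N0 N ∧ g ∈ P} F := ⟨_, rfl⟩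
  rw [← hX]
  have h4 : ∑ T ∈ Finset.Icc N0 N, gf (HT T ∩ {W | W ∈ P ∧ W.length ≤ lam}) ≤ 4 * X := by
    have h1 : ∀ T ∈ Finset.Icc N0 N, gf (HT T ∩ {W | W ∈ P ∧ W.length ≤ lam}) ≤
        4 * ∑' g : {g : List Bool // g ∈ Brd T ∧ g ∈ P}, wE g.1 * F g.1 := by
      intro T hT
      rw [Finset.mem_Icc] at hT
      refine (topL hP hL (by omega) lam).trans (le_of_eq ?_)
      congr 1
      refine tsum_congr fun g => ?_
      rw [hF]
      show _ = wE g.1 * ((if g.1.length ≤ lam then 1 else 0) + GLl (hgt g.1 - 1) lam g.1)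
      rw [hgt_eq g.2.1]
    refine (Finset.sum_le_sum h1).trans ?_
    rw [← Finset.mul_sum, hX]
    gcongr
    exact Jo_BrR P F
  have h5 : ∑ T ∈ Finset.Icc N0 N, gf (Brd T ∩ Q) ≤ X := by
    classical
    have h1 : ∀ T ∈ Finset.Icc N0 N, gf (Brd T ∩ Q) ≤
        ∑' g : {g : List Bool // g ∈ Brd T ∧ g ∈ P}, wE g.1 * F g.1 := by
      intro T hT
      have h2 : (∑' g : {g : List Bool // g ∈ Brd T ∧ g ∈ P}, wE g.1 * F g.1) =
          ∑' g : List Bool, ({g | g ∈ Brd T ∧ g ∈ P} : Set (List Bool)).indicator (fun g => wE g * F g) g :=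
        _root_.tsum_subtype ({g | g ∈ Brd T ∧ g ∈ P} : Set (List Bool)) (fun g => wE g * F g)
      have h3 : gf (Brd T ∩ Q) = ∑' g : List Bool, (Brd T ∩ Q).indicator wE g := _root_.tsum_subtype (Brd T ∩ Q) wE
      rw [h2, h3]
      refine ENNReal.tsum_le_tsum fun g => ?_
      by_cases hg : g ∈ Brd T ∩ Q
      · have hg2 := hg.2
        rw [hQ] at hg2
        rw [Set.indicator_of_mem hg, Set.indicator_of_mem (show g ∈ {g | g ∈ Brd T ∧ g ∈ P} from ⟨hg.1, hg2.1⟩), hF]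
        calc wE g = wE g * 1 := (mul_one _).symm
          _ ≤ wE g * ((if g.length ≤ lam then 1 else 0) + GLl (hgt g - 1) lam g) := by
              rw [if_pos hg2.2]
              gcongr
              exact le_self_add
      · rw [Set.indicator_of_notMem hg]
        exact zero_le
    refine (Finset.sum_le_sum h1).trans ?_
    rw [hX]
    exact Jo_BrR P F
  have h6 : gf {W | W ∈ SSt N ∧ W ∉ SSt N0 ∧ RT D LFold t W ∧ W.length ≤ lam} ≤ 4 * X + (X + X) := by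
    refine (gf_mono hsub).trans ((gf_union_le _ _).trans (add_le_add ((hun _ _).trans h4)
      ((gf_union_le _ _).trans (add_le_add ?_ ?_))))
    · exact ((hun _ _).trans (Finset.sum_le_sum (fun T _ => hadd true T))).trans h5
    · exact ((hun _ _).trans (Finset.sum_le_sum (fun T _ => hadd false T))).trans h5
  refine h6.trans (le_of_eq ?_)
  have h7 : ENNReal.ofReal (6 : ℝ) = 6 := by
    rw [show (6 : ℝ) = ((6 : ℕ) : ℝ) by norm_num, ENNReal.ofReal_natCast]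
    norm_num
  rw [h7]
  ring

/-- the sum over the leaves of a height in [N, N'] that follow t -/
noncomputable def VW (D N N' : ℕ) (Φ : List Bool → ℝ≥0∞) (t : List Bool) : ℝ≥0∞ :=
  Rec8.sw {g | g ∈ BrR N N' ∧ RT D LFold t g} Φ

lemma VW_her (D N N' : ℕ) (Φ : List Bool → ℝ≥0∞) : Hered (VW D N N' Φ) := by
  intro s hs t
  unfold VW
  exact Rec8.sw_mono (fun g hg => ⟨hg.1, RT_her hs hg.2⟩) fun _ _ => le_rfl

/-- the whole end functional -/
noncomputable def FN (D N lam : ℕ) (t : List Bool) : ℝ≥0∞ := 1 + ENl D N lam t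

lemma FN_her (D N lam : ℕ) : Hered (FN D N lam) := fun s hs t => add_le_add le_rfl (Hered_ENl _ _ _ s hs t)

/-- the step from N to N' -/
lemma FN_step : ∃ K : ℝ, 1 ≤ K ∧ ∀ (D N N' lam : ℕ), 1 ≤ D → D ≤ N → N ≤ N' → ∀ t : List Bool,
    FN D N' lam t ≤ FN D N lam t + ENNReal.ofReal K * VW D N N' (FN D N' lam) t := by
  obtain ⟨K, hK, h⟩ := EF_win
  refine ⟨K, hK, fun D N N' lam hD hDN hNN t => ?_⟩
  unfold FN
  rw [add_assoc]
  refine add_le_add le_rfl ?_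
  have hsub : {W | W ∈ SSt N' ∧ RT D LFold t W ∧ t.length + W.length ≤ lam} ⊆
      {W | W ∈ SSt N ∧ RT D LFold t W ∧ t.length + W.length ≤ lam} ∪
      {W | W ∈ SSt N' ∧ W ∉ SSt N ∧ RT D LFold t W ∧ W.length ≤ lam} := by
    rintro W ⟨h1, h2, h3⟩
    by_cases h4 : W ∈ SSt N
    · exact Or.inl ⟨h4, h2, h3⟩
    · exact Or.inr ⟨h1, h4, h2, by omega⟩
  refine (gf_mono hsub).trans ((gf_union_le _ _).trans (add_le_add le_rfl ?_))
  refine (h D N N' lam (by omega) hNN t).trans (mul_le_mul_right ?_ _)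
  unfold VW
  refine Rec8.sw_mono' fun g hg => ?_
  obtain ⟨⟨T, hT1, hT2, hT⟩, -⟩ := hg
  refine add_le_add ?_ ?_
  · split_ifs
    · exact le_rfl
    · exact zero_le
  · rw [hgt_eq hT]
    exact GLl_le_ENl (by omega) ⟨T, by omega, hT⟩

/-- the mass of a window of heights -/
lemma win_mass (N w n : ℕ) (c : ℝ≥0∞) :
    ∑' v : ℕ, gf (Brd v) * (if N ≤ n + v ∧ n + v ≤ N + w then c else 0) ≤ ENNReal.ofReal (UU w) * c := by
  have h1 : ∀ v ∉ Finset.Ico (N - n) (N - n + (w + 1)),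
      gf (Brd v) * (if N ≤ n + v ∧ n + v ≤ N + w then c else 0) = 0 := by
    intro v hv
    rw [Finset.mem_Ico] at hv
    rw [if_neg, mul_zero]
    omega
  rw [tsum_eq_sum h1, Finset.sum_Ico_eq_sum_range, Nat.add_sub_cancel_left]
  have h2 : ∀ v ∈ range (w + 1), gf (Brd (N - n + v)) *
      (if N ≤ n + (N - n + v) ∧ n + (N - n + v) ≤ N + w then c else 0) ≤ ENNReal.ofReal (uu v) * c := by
    intro v _
    rw [NO_gf]
    refine mul_le_mul' (ENNReal.ofReal_le_ofReal (uu_anti (by omega))) ?_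
    split_ifs
    · exact le_rfl
    · exact zero_le
  refine (Finset.sum_le_sum h2).trans ?_
  rw [← Finset.sum_mul, ← ENNReal.ofReal_sum_of_nonneg (f := uu) (fun s _ => ENNReal.toReal_nonneg)]
  exact le_rfl

lemma pow_small (K : ℝ) {c ε : ℝ} (hc : 0 < c) (hε : 0 < ε) : ∃ m : ℕ, K * (2 : ℝ) ^ (-(c * (m : ℝ))) ≤ ε := by
  have hx1 : (2 : ℝ) ^ (-c) < 1 := Real.rpow_lt_one_of_one_lt_of_neg (by norm_num) (by linarith)
  have hK : 0 < |K| + 1 := by positivity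
  obtain ⟨m, hm⟩ := exists_pow_lt_of_lt_one (show 0 < ε / (|K| + 1) by positivity) hx1
  refine ⟨m, ?_⟩
  have h1 : (2 : ℝ) ^ (-(c * (m : ℝ))) = ((2 : ℝ) ^ (-c)) ^ m := by
    rw [← Real.rpow_natCast, ← Real.rpow_mul (by norm_num)]
    congr 1
    ring
  rw [h1]
  have h2 : 0 < ((2 : ℝ) ^ (-c)) ^ m := by positivity
  rw [lt_div_iff₀ hK] at hm
  have h3 := le_abs_self K
  nlinarith

/-- the window operator has a small norm -/
theorem VW_norm (h : Inp C δ) {η : ℝ} (hη : 0 < η) : ∃ s : ℕ, 6 ≤ s ∧ ∀ (k N : ℕ) (x : ℝ≥0∞)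
    (Φ : List Bool → ℝ≥0∞), s ≤ k → Dom k x Φ → 2 ^ (k + 4) ≤ N → N + 2 ^ (k - s) ≤ 2 ^ (k + 7) →
    xT (2 ^ (k + 4)) k (VW (2 ^ (k + 4)) N (N + 2 ^ (k - s)) Φ) ≤ ENNReal.ofReal η * x := by
  obtain ⟨K, c, hK, hc, hw⟩ := win2D_of h (ssA h) (ss3J h)
  obtain ⟨q0, hq0⟩ := pow_small (K * 128) hc (show 0 < η / 2 by positivity)
  obtain ⟨p0, hp0⟩ := pow_small (K * 128 * 2) kap0_pos (show 0 < η / 2 by positivity)
  obtain ⟨q, hq⟩ : ∃ q, q = q0 + 6 := ⟨_, rfl⟩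
  refine ⟨q + p0, by omega, fun k N x Φ hk hΦ hN hN' => ?_⟩
  obtain ⟨w, hwd⟩ : ∃ w, w = 2 ^ (k - (q + p0)) := ⟨_, rfl⟩
  rw [← hwd] at hN' ⊢
  classical
  have h1 := hw (2 ^ (k + 4)) k k N (N + w) (k - q) (UU w) x Φ (fun h t => if N ≤ h ∧ h ≤ N + w then Φ t else 0) hΦ
    (by
      intro n s hs t
      show (if N ≤ n ∧ n ≤ N + w then Φ (s ++ t) else 0) ≤ (if N ≤ n ∧ n ≤ N + w then Φ t else 0)
      split_ifs
      · exact hΦ.her s hs t
      · exact le_rfl)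
    (by
      intro n t
      show (if N ≤ n ∧ n ≤ N + w then Φ t else 0) ≤ Φ t
      split_ifs
      · exact le_rfl
      · exact zero_le)
    (Num2Aux.UU_pos w).le (fun n t => win_mass N w n (Φ t)) le_rfl le_rfl hN (by omega) (by omega)
  have e1 : VW (2 ^ (k + 4)) N (N + w) Φ = fun t => Rec8.sw {g | g ∈ BrR N (N + w) ∧ RT (2 ^ (k + 4)) LFold t g}
      (fun g => (fun h t => if N ≤ h ∧ h ≤ N + w then Φ t else 0) (hgt g) g) := by
    funext t
    unfold VW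
    refine Rec8.sw_congr fun g hg => ?_
    obtain ⟨⟨T, hT1, hT2, hT⟩, -⟩ := hg
    show Φ g = if N ≤ hgt g ∧ hgt g ≤ N + w then Φ g else 0
    rw [hgt_eq hT, if_pos ⟨hT1, hT2⟩]
  rw [e1]
  refine h1.trans (mul_le_mul_left (ENNReal.ofReal_le_ofReal ?_) _)
  have hUk := Ub_pos k
  have hUq := Ub_pos (k - q)
  have a1 : UU (N + w) / Ub k ≤ 128 := by
    rw [div_le_iff₀ hUk]
    have b1 : UU (N + w) ≤ Ub (k + 7) := Num2Aux.UU_mono hN'
    have b2 := SDN.Ub_add k 7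
    norm_num at b2
    linarith
  have a2 : (k : ℝ) - ((k - q : ℕ) : ℝ) = q := by
    rw [Nat.cast_sub (by omega)]
    ring
  have a3 : K * 128 * (2 : ℝ) ^ (-(c * (q : ℝ))) ≤ η / 2 := by
    refine le_trans ?_ hq0
    have : (2 : ℝ) ^ (-(c * (q : ℝ))) ≤ (2 : ℝ) ^ (-(c * (q0 : ℝ))) := by
      refine Real.rpow_le_rpow_of_exponent_le (by norm_num) ?_
      have : (q0 : ℝ) ≤ q := by
        rw [hq]
        push_cast
        linarith
      nlinarith
    exact mul_le_mul_of_nonneg_left this (by linarith)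
  have a4 : UU w / Ub (k - q) ≤ 2 * (2 : ℝ) ^ (-(kap0 * (p0 : ℝ))) := by
    rw [div_le_iff₀ hUq]
    have b1 := Ub_growth (a := k - (q + p0)) (b := k - q) (by omega)
    have b2 : ((k - q : ℕ) : ℝ) - ((k - (q + p0) : ℕ) : ℝ) = p0 := by
      rw [Nat.cast_sub (by omega), Nat.cast_sub (by omega)]
      push_cast
      ring
    rw [b2] at b1
    have b3 : (2 : ℝ) ^ (kap0 * (p0 : ℝ)) * (2 : ℝ) ^ (-(kap0 * (p0 : ℝ))) = 1 := by
      rw [← Real.rpow_add (by norm_num), add_neg_cancel, Real.rpow_zero]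
    have b4 : (0 : ℝ) < (2 : ℝ) ^ (-(kap0 * (p0 : ℝ))) := Real.rpow_pos_of_pos two_pos _
    have b5 : UU w = Ub (k - (q + p0)) := by
      rw [hwd]
      rfl
    rw [b5]
    calc Ub (k - (q + p0)) = Ub (k - (q + p0)) * ((2 : ℝ) ^ (kap0 * (p0 : ℝ)) * (2 : ℝ) ^ (-(kap0 * (p0 : ℝ)))) := by
          rw [b3, mul_one]
      _ = Ub (k - (q + p0)) * (2 : ℝ) ^ (kap0 * (p0 : ℝ)) * (2 : ℝ) ^ (-(kap0 * (p0 : ℝ))) := by ring
      _ ≤ 2 * Ub (k - q) * (2 : ℝ) ^ (-(kap0 * (p0 : ℝ))) := mul_le_mul_of_nonneg_right b1 b4.le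
      _ = _ := by ring
  rw [a2]
  have hQ0 : (0 : ℝ) < (2 : ℝ) ^ (-(c * (q : ℝ))) := Real.rpow_pos_of_pos two_pos _
  have hA0 : 0 ≤ UU w / Ub (k - q) := div_nonneg (Num2Aux.UU_pos w).le hUq.le
  have hP0 : (0 : ℝ) < (2 : ℝ) ^ (-(kap0 * (p0 : ℝ))) := Real.rpow_pos_of_pos two_pos _
  calc K * (UU (N + w) / Ub k) * ((2 : ℝ) ^ (-(c * (q : ℝ))) + UU w / Ub (k - q))
      ≤ K * 128 * ((2 : ℝ) ^ (-(c * (q : ℝ))) + 2 * (2 : ℝ) ^ (-(kap0 * (p0 : ℝ)))) := by gcongr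
    _ = K * 128 * (2 : ℝ) ^ (-(c * (q : ℝ))) + K * 128 * 2 * (2 : ℝ) ^ (-(kap0 * (p0 : ℝ))) := by ring
    _ ≤ η := by linarith

lemma SS_ne_top (k : ℕ) (P : List Bool) : SS k P ≠ ⊤ := by
  unfold SS
  exact ENNReal.sum_ne_top.2 fun j _ => ENNReal.sum_ne_top.2 fun b _ => Sw_ne_top _ _ _ _

/-- a contraction for the constants -/
lemma Dom_fix {k : ℕ} {x X0 : ℝ≥0∞} {Φ : List Bool → ℝ≥0∞} (hX : X0 ≠ ⊤) (h0 : Dom k X0 Φ)
    (h : ∀ y, Dom k y Φ → Dom k (x + ENNReal.ofReal (1 / 2) * y) Φ) : Dom k (2 * x) Φ := by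
  have hh : ENNReal.ofReal (1 / 2) * 2 = 1 := by
    rw [← ENNReal.ofReal_ofNat 2, ← ENNReal.ofReal_mul (by norm_num)]
    norm_num
  have h1 : ∀ i : ℕ, Dom k (2 * x + ENNReal.ofReal (1 / 2) ^ i * X0) Φ := by
    intro i
    induction i with
    | zero =>
      rw [pow_zero, one_mul]
      exact h0.mono le_add_self
    | succ i ih =>
      refine (h _ ih).mono (le_of_eq ?_)
      rw [mul_add, ← mul_assoc, hh, one_mul, ← mul_assoc, ← pow_succ', two_mul, add_assoc]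
  refine ⟨h0.her, fun r P hP => ?_⟩
  have hS := SS_ne_top k P
  have ht : Filter.Tendsto (fun i : ℕ => (2 * x + ENNReal.ofReal (1 / 2) ^ i * X0) * SS k P) Filter.atTop
      (nhds ((2 * x + 0 * X0) * SS k P)) := by
    refine ENNReal.Tendsto.mul_const (Filter.Tendsto.add tendsto_const_nhds ?_) (Or.inr hS)
    refine ENNReal.Tendsto.mul_const (ENNReal.tendsto_pow_atTop_nhds_zero_of_lt_one ?_) (Or.inr hX)
    rw [← ENNReal.ofReal_one]
    exact (ENNReal.ofReal_lt_ofReal_iff one_pos).2 (by norm_num)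
  rw [zero_mul, add_zero] at ht
  exact ge_of_tendsto' ht fun i => (h1 i).bd r P hP

/-- one window -/
theorem FN_dom (h : Inp C δ) : ∃ s : ℕ, 6 ≤ s ∧ ∀ (k N lam : ℕ) (x : ℝ≥0∞), s ≤ k → 2 ^ (k + 4) ≤ N →
    N + 2 ^ (k - s) ≤ 2 ^ (k + 7) → Dom k x (FN (2 ^ (k + 4)) N lam) →
    Dom k (2 * x) (FN (2 ^ (k + 4)) (N + 2 ^ (k - s)) lam) := by
  obtain ⟨Ks, hKs, hs⟩ := FN_step
  obtain ⟨Kd, hKd, hd⟩ := dom_xT
  obtain ⟨s, hs6, hw⟩ := VW_norm h (η := 1 / (2 * (Ks * Kd))) (by positivity)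
  refine ⟨s, hs6, fun k N lam x hk hN hN' hx => ?_⟩
  obtain ⟨w, hwd⟩ : ∃ w, w = 2 ^ (k - s) := ⟨_, rfl⟩
  have hw' := hw k N
  rw [← hwd] at hw' hN' ⊢
  obtain ⟨D, hD⟩ : ∃ D, D = 2 ^ (k + 4) := ⟨_, rfl⟩
  rw [← hD] at hw' hN hx ⊢
  have hD1 : 1 ≤ D := by
    rw [hD]
    exact Nat.one_le_two_pow
  have hc : Dom k (2 * (1 + gf (SSt (N + w)))) (FN D (N + w) lam) :=
    (Dom_const k (1 + gf (SSt (N + w)))).le (FN_her _ _ _) fun t =>
      add_le_add le_rfl (gf_mono fun W hW => hW.1)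
  refine Dom_fix (ENNReal.mul_ne_top (by norm_num) (ENNReal.add_ne_top.2 ⟨ENNReal.one_ne_top, PLW.gf_SSt_fin _⟩))
    hc fun y hy => ?_
  have h1 := hw' y (FN D (N + w) lam) hk hy hN hN'
  have h2 := hd D k k (VW D N (N + w) (FN D (N + w) lam)) (VW_her _ _ _ _) (by rw [hD]) le_rfl
  have h3 := (hx.add (h2.smul (ENNReal.ofReal Ks))).le (FN_her D (N + w) lam) (hs D N (N + w) lam hD1 hN (by omega))
  refine h3.mono (add_le_add le_rfl ?_)
  calc ENNReal.ofReal Ks * (ENNReal.ofReal Kd * xT D k (VW D N (N + w) (FN D (N + w) lam)))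
      ≤ ENNReal.ofReal Ks * (ENNReal.ofReal Kd * (ENNReal.ofReal (1 / (2 * (Ks * Kd))) * y)) := by gcongr
    _ = ENNReal.ofReal (1 / 2) * y := by
        rw [← mul_assoc, ← mul_assoc, ← ENNReal.ofReal_mul (by linarith), ← ENNReal.ofReal_mul (by positivity)]
        congr 2
        field_simp

/-- from the height 2 ^ j to the height 2 ^ (j + 1) -/
theorem FN_dbl (h : Inp C δ) : ∃ (K : ℝ) (k0 : ℕ), 1 ≤ K ∧ ∀ (k lam : ℕ) (x : ℝ≥0∞), k0 ≤ k →
    Dom k x (FN (2 ^ (k + 4)) (2 ^ (k + 6)) lam) →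
    Dom k (ENNReal.ofReal K * x) (FN (2 ^ (k + 4)) (2 ^ (k + 7)) lam) := by
  obtain ⟨s, hs6, hs⟩ := FN_dom h
  refine ⟨2 ^ (2 ^ (s + 6)), s, one_le_pow₀ (by norm_num), fun k lam x hk hx => ?_⟩
  have key : ∀ i : ℕ, i ≤ 2 ^ (s + 6) → Dom k (2 ^ i * x) (FN (2 ^ (k + 4)) (2 ^ (k + 6) + i * 2 ^ (k - s)) lam) := by
    intro i
    induction i with
    | zero =>
      intro _
      rw [pow_zero, one_mul, zero_mul, add_zero]
      exact hx
    | succ i ih =>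
      intro hi
      have e0 : 2 ^ (s + 6) * 2 ^ (k - s) = 2 ^ (k + 6) := by
        rw [← pow_add]
        congr 1
        omega
      have e1 : (i + 1) * 2 ^ (k - s) ≤ 2 ^ (k + 6) := by
        rw [← e0]
        exact Nat.mul_le_mul_right _ hi
      have e2 : 2 ^ (k + 7) = 2 * 2 ^ (k + 6) := by ring
      have e3 : (i + 1) * 2 ^ (k - s) = i * 2 ^ (k - s) + 2 ^ (k - s) := by ring
      have e4 : 2 ^ (k + 4) ≤ 2 ^ (k + 6) := Nat.pow_le_pow_right (by norm_num) (by omega)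
      have h1 := hs k (2 ^ (k + 6) + i * 2 ^ (k - s)) lam (2 ^ i * x) hk (by omega) (by omega) (ih (by omega))
      rw [e3, ← add_assoc, pow_succ']
      rw [← mul_assoc] at h1
      exact h1
  have h2 := key (2 ^ (s + 6)) le_rfl
  have e0 : 2 ^ (s + 6) * 2 ^ (k - s) = 2 ^ (k + 6) := by
    rw [← pow_add]
    congr 1
    omega
  have e2 : 2 ^ (k + 6) + 2 ^ (k + 6) = 2 ^ (k + 7) := by ring
  rw [e0, e2] at h2
  refine h2.mono (le_of_eq ?_)
  congr 1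
  rw [← ENNReal.ofReal_ofNat 2, ← ENNReal.ofReal_pow (by norm_num)]

/-- the largest value is at least 1 / 2 -/
lemma one_le_bl {j lam lam' : ℕ} (hQ : QL j lam') (h : lam' ≤ lam) : 1 ≤ 2 * bl lam j := by
  have h0 := hQ 0 (by omega)
  have h1 : gf {X | (∃ n, n ≤ 2 ^ 0 ∧ X ∈ Brd n) ∧ X.length ≤ lam'} ≤ HHl (2 ^ 0) lam := by
    refine gf_mono fun W hW => ?_
    obtain ⟨⟨n, hn, hW1⟩, hW2⟩ := hW
    exact ⟨SSt_mo hn (BAR.Brd_SSt hW1), by omega⟩
  have hU0 : 0 < UU (2 ^ 0) := Num2Aux.UU_pos _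
  have h2 : HHl (2 ^ 0) lam / ENNReal.ofReal (UU (2 ^ 0)) ≤ bl lam j := le_bl _ (by omega)
  have h3 : ENNReal.ofReal (UU (2 ^ 0)) ≤ 2 * HHl (2 ^ 0) lam := h0.trans (mul_le_mul_right h1 _)
  have hne : ENNReal.ofReal (UU (2 ^ 0)) ≠ 0 := (ENNReal.ofReal_pos.2 hU0).ne'
  calc (1 : ℝ≥0∞) = ENNReal.ofReal (UU (2 ^ 0)) / ENNReal.ofReal (UU (2 ^ 0)) :=
        (ENNReal.div_self hne ENNReal.ofReal_ne_top).symm
    _ ≤ 2 * HHl (2 ^ 0) lam / ENNReal.ofReal (UU (2 ^ 0)) := ENNReal.div_le_div_right h3 _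
    _ = 2 * (HHl (2 ^ 0) lam / ENNReal.ofReal (UU (2 ^ 0))) := by rw [mul_div_assoc]
    _ ≤ 2 * bl lam j := mul_le_mul_right h2 _

lemma one_le_UU (N : ℕ) : 1 ≤ UU N := by
  rw [← Gr_U0]
  exact Num2Aux.UU_mono (Nat.zero_le _)

lemma BrR_BU_gf (a N : ℕ) : gf (BrR a N) ≤ ENNReal.ofReal (UU N) := by
  refine le_trans (gf_mono ?_) (gf_BU_le _)
  rintro t ⟨m, -, h1, h2⟩
  exact ⟨m, h1, h2⟩

/-- the weight of the height 2 ^ (k + 7) -/
theorem HHl_dbl (h : Inp C δ) : ∃ (K : ℝ) (k0 : ℕ), 1 ≤ K ∧ ∀ (k lam lam' : ℕ), k0 ≤ k → QL (k + 6) lam' →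
    HHl (2 ^ (k + 7)) lam ≤ ENNReal.ofReal (K * UU (2 ^ (k + 7))) * bl (lam + lam' + 12) (k + 6) := by
  obtain ⟨K1, hK1, h1⟩ := dom_end
  obtain ⟨K2, k0, hK2, h2⟩ := FN_dbl h
  obtain ⟨K3, hK3, h3⟩ := two2_of (ssA h) ssDP
  obtain ⟨KZ, hKZ, hZ⟩ := sumZl
  obtain ⟨KH, hKH, hH⟩ := HHl_le
  refine ⟨KH * (4 + KZ + 2 * K3 * K2 * K1), k0 + 1, ?_, fun k lam lam' hk hQ => ?_⟩
  · have : 0 ≤ KZ + 2 * K3 * K2 * K1 := by positivity
    nlinarith
  obtain ⟨B, hB⟩ : ∃ B, B = bl (lam + lam' + 12) (k + 6) := ⟨_, rfl⟩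
  obtain ⟨U, hU⟩ : ∃ U, U = UU (2 ^ (k + 7)) := ⟨_, rfl⟩
  have hU1 : 1 ≤ U := by
    rw [hU]
    exact one_le_UU _
  have hUm : UU (2 ^ (k + 6)) ≤ U := by
    rw [hU]
    exact Num2Aux.UU_mono (Nat.pow_le_pow_right (by norm_num) (by omega))
  have hone : 1 ≤ 2 * B := by
    rw [hB]
    exact one_le_bl hQ (by omega)
  have a1 : Dom k (ENNReal.ofReal K1 * B) (FN (2 ^ (k + 4)) (2 ^ (k + 6)) lam) := by
    have b1 := h1 (k + 4) (2 ^ (k + 6)) lam lam' (by omega) (Nat.pow_lt_pow_right (by norm_num) (by omega)) le_rfl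
      (fun i hi => hQ i (by omega))
    rw [hB]
    exact b1
  have a2 := h2 k lam _ (by omega) a1
  have a3 := h3 k k (2 ^ (k + 6)) (2 ^ (k + 7)) (2 * 1) _ (fun _ => 1) (FN (2 ^ (k + 4)) (2 ^ (k + 7)) lam)
    (Dom_const k 1) a2 (Nat.pow_le_pow_right (by norm_num) (by omega)) (Nat.pow_le_pow_right (by norm_num) (by omega))
    (Nat.pow_le_pow_right (by norm_num) (by omega))
  obtain ⟨G, hG⟩ : ∃ G : List Bool → ℝ≥0∞, G = fun g => (if g.length ≤ lam then 1 else 0) + GLl (hgt g - 1) lam g :=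
    ⟨_, rfl⟩
  have hsplit : BrR 1 (2 ^ (k + 7)) ⊆ BrR 1 (2 ^ (k + 6)) ∪ BrR (2 ^ (k + 6)) (2 ^ (k + 7)) := by
    rintro t ⟨m, m1, m2, m3⟩
    rcases le_total m (2 ^ (k + 6)) with h5 | h5
    · exact Or.inl ⟨m, m1, h5, m3⟩
    · exact Or.inr ⟨m, h5, m2, m3⟩
  have a4 : Rec8.sw (BrR 1 (2 ^ (k + 6))) G ≤ ENNReal.ofReal ((2 + KZ) * U) * B := by
    have b1 : Rec8.sw (BrR 1 (2 ^ (k + 6))) G ≤ Rec8.sw (BrR 1 (2 ^ (k + 6))) (fun g => 1 + GLl (hgt g - 1) lam g) := by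
      rw [hG]
      refine Rec8.sw_mono' fun g _ => add_le_add ?_ le_rfl
      split_ifs
      · exact le_rfl
      · exact zero_le
    refine b1.trans ?_
    rw [Rec8.sw_add, Rec8.sw_one]
    have b2 : gf (BrR 1 (2 ^ (k + 6))) ≤ ENNReal.ofReal (2 * U) * B := by
      refine (BrR_BU_gf _ _).trans ((ENNReal.ofReal_le_ofReal hUm).trans ?_)
      calc ENNReal.ofReal U = ENNReal.ofReal U * 1 := (mul_one _).symm
        _ ≤ ENNReal.ofReal U * (2 * B) := mul_le_mul_right hone _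
        _ = ENNReal.ofReal (2 * U) * B := by
            rw [ENNReal.ofReal_mul (by norm_num), ENNReal.ofReal_ofNat]
            ring
    have b3 : Rec8.sw (BrR 1 (2 ^ (k + 6))) (fun g => GLl (hgt g - 1) lam g) ≤ ENNReal.ofReal (KZ * U) * B := by
      refine (hZ _ _).trans ?_
      have hU2 : 0 < UU (2 ^ (k + 6)) := Num2Aux.UU_pos _
      have c3 : HHl (2 ^ (k + 6)) (lam + lam' + 12) / ENNReal.ofReal (UU (2 ^ (k + 6))) ≤ B := by
        rw [hB]
        exact le_bl _ le_rfl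
      have c4 : HHl (2 ^ (k + 6)) (lam + lam' + 12) ≤ B * ENNReal.ofReal (UU (2 ^ (k + 6))) := by
        rwa [ENNReal.div_le_iff (ENNReal.ofReal_pos.2 hU2).ne' ENNReal.ofReal_ne_top] at c3
      have c5 : HHl (2 ^ (k + 6)) (lam + 1) ≤ ENNReal.ofReal U * B := by
        refine ((HHl_mono le_rfl (by omega)).trans c4).trans ?_
        rw [mul_comm]
        exact mul_le_mul_left (ENNReal.ofReal_le_ofReal hUm) _
      calc ENNReal.ofReal KZ * HHl (2 ^ (k + 6)) (lam + 1) ≤ ENNReal.ofReal KZ * (ENNReal.ofReal U * B) :=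
            mul_le_mul_right c5 _
        _ = _ := by rw [ENNReal.ofReal_mul (by linarith), mul_assoc]
    refine (add_le_add b2 b3).trans (le_of_eq ?_)
    rw [← add_mul, ← ENNReal.ofReal_add (by positivity) (by positivity)]
    congr 2
    ring
  have a5 : Rec8.sw (BrR (2 ^ (k + 6)) (2 ^ (k + 7))) G ≤ ENNReal.ofReal (2 * K3 * K2 * K1 * U) * B := by
    have b1 : Rec8.sw (BrR (2 ^ (k + 6)) (2 ^ (k + 7))) G ≤ Rec8.sw (BrR (2 ^ (k + 6)) (2 ^ (k + 7)))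
        (fun g => (fun _ => 1) (rev g) * FN (2 ^ (k + 4)) (2 ^ (k + 7)) lam g) := by
      rw [hG]
      refine Rec8.sw_mono' fun g hg => ?_
      obtain ⟨T, hT1, hT2, hT⟩ := hg
      rw [one_mul]
      refine add_le_add ?_ ?_
      · split_ifs
        · exact le_rfl
        · exact zero_le
      · rw [hgt_eq hT]
        exact GLl_le_ENl (by omega) ⟨T, (Nat.pow_le_pow_right (by norm_num) (by omega)).trans hT1, hT⟩
    refine b1.trans (a3.trans (le_of_eq ?_))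
    rw [← hU, ENNReal.ofReal_mul (by linarith), mul_one]
    rw [ENNReal.ofReal_mul (q := U) (by positivity), ENNReal.ofReal_mul (q := K1) (by positivity),
      ENNReal.ofReal_mul (q := K2) (by positivity), ENNReal.ofReal_mul (p := 2) (q := K3) (by norm_num),
      ENNReal.ofReal_ofNat]
    ring
  have a6 := (hH (2 ^ (k + 7)) lam).trans (mul_le_mul_right (add_le_add le_rfl (hG ▸
    ((TN5b_sw_union hsplit G).trans (add_le_add a4 a5)))) _)
  refine a6.trans ?_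
  have hone' : (1 : ℝ≥0∞) ≤ ENNReal.ofReal (2 * U) * B := by
    calc (1 : ℝ≥0∞) ≤ 2 * B := hone
      _ = ENNReal.ofReal (2 * 1) * B := by
          rw [mul_one, ENNReal.ofReal_ofNat]
      _ ≤ _ := mul_le_mul_left (ENNReal.ofReal_le_ofReal (by linarith)) _
  calc ENNReal.ofReal KH * (1 + (ENNReal.ofReal ((2 + KZ) * U) * B + ENNReal.ofReal (2 * K3 * K2 * K1 * U) * B))
      ≤ ENNReal.ofReal KH * (ENNReal.ofReal (2 * U) * B + (ENNReal.ofReal ((2 + KZ) * U) * B +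
          ENNReal.ofReal (2 * K3 * K2 * K1 * U) * B)) := by gcongr
    _ = _ := by
        rw [← add_mul, ← add_mul, ← ENNReal.ofReal_add (by positivity) (by positivity),
          ← ENNReal.ofReal_add (by positivity) (by positivity), ← mul_assoc, ← ENNReal.ofReal_mul (by linarith), hB, ← hU]
        congr 2
        ring

end HD

open HD in
/-- **doubling of the height for the half plane weights** -/
theorem hgt_dbl : ∃ D : ℝ, 1 ≤ D ∧ ∀ j lam lam' : ℕ, QL j lam' →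
    bl lam (j + 1) ≤ ENNReal.ofReal D * bl (lam + lam' + 12) j := by
  obtain ⟨C, δ, h⟩ := inp_exists
  obtain ⟨K, k0, hK, hk⟩ := HHl_dbl h
  obtain ⟨H, hH0, hH⟩ : ∃ H : ℝ, 0 ≤ H ∧ gf (SSt (2 ^ (k0 + 7))) = ENNReal.ofReal H :=
    ⟨(gf (SSt (2 ^ (k0 + 7)))).toReal, ENNReal.toReal_nonneg, (ENNReal.ofReal_toReal (PLW.gf_SSt_fin _)).symm⟩
  refine ⟨K + 2 * H, by linarith, fun j lam lam' hQ => ?_⟩
  obtain ⟨B, hB⟩ : ∃ B, B = bl (lam + lam' + 12) j := ⟨_, rfl⟩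
  have hone : 1 ≤ 2 * B := by
    rw [hB]
    exact one_le_bl hQ (by omega)
  rw [← hB]
  have key : HHl (2 ^ (j + 1)) lam / ENNReal.ofReal (UU (2 ^ (j + 1))) ≤ ENNReal.ofReal (K + 2 * H) * B := by
    have hU : 0 < UU (2 ^ (j + 1)) := Num2Aux.UU_pos _
    have hU0 : ENNReal.ofReal (UU (2 ^ (j + 1))) ≠ 0 := (ENNReal.ofReal_pos.2 hU).ne'
    rw [ENNReal.div_le_iff hU0 ENNReal.ofReal_ne_top]
    rcases Nat.lt_or_ge j (k0 + 6) with hj | hj
    · have b1 : HHl (2 ^ (j + 1)) lam ≤ ENNReal.ofReal H := by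
        rw [← hH]
        exact gf_mono fun W hW => SSt_mo (Nat.pow_le_pow_right (by norm_num) (by omega)) hW.1
      refine b1.trans ?_
      calc ENNReal.ofReal H = ENNReal.ofReal H * 1 * ENNReal.ofReal 1 := by
            rw [ENNReal.ofReal_one, mul_one, mul_one]
        _ ≤ ENNReal.ofReal H * (2 * B) * ENNReal.ofReal (UU (2 ^ (j + 1))) := by
            gcongr
            exact one_le_UU _
        _ = ENNReal.ofReal (2 * H) * B * ENNReal.ofReal (UU (2 ^ (j + 1))) := by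
            rw [ENNReal.ofReal_mul (by norm_num), ENNReal.ofReal_ofNat]
            ring
        _ ≤ _ := by
            gcongr
            linarith
    · obtain ⟨k, rfl⟩ : ∃ k, j = k + 6 := ⟨j - 6, by omega⟩
      have b1 := hk k lam lam' (by omega) hQ
      rw [← hB, ENNReal.ofReal_mul (by linarith)] at b1
      refine b1.trans ?_
      rw [mul_right_comm]
      gcongr
      linarith
  unfold bl
  refine iSup_le fun i => ?_
  rcases Nat.lt_or_ge i.1 (j + 1) with hi | hi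
  · have b1 : HHl (2 ^ i.1) lam / ENNReal.ofReal (UU (2 ^ i.1)) ≤ B := by
      rw [hB]
      exact (le_bl lam (by omega : i.1 ≤ j)).trans (bl_mono_lam (by omega) j)
    refine b1.trans ?_
    calc B = ENNReal.ofReal 1 * B := by rw [ENNReal.ofReal_one, one_mul]
      _ ≤ _ := mul_le_mul_left (ENNReal.ofReal_le_ofReal (by linarith)) _
  · have e1 : i.1 = j + 1 := by omega
    rw [e1]
    exact key

end NTW

end HexObs
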