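import Pool.Agent.NTW.DefsL
import Pool.Agent.NT.Pick

/-!
NTW: the time bound of the typical bridges along a sequence of quantiles.
-/

set_option autoImplicit false

namespace HexObs

namespace NTW

open Finset TS SDN

open scoped ENNReal

lemma QL_mono {j lam lam' : ℕ} (h : lam ≤ lam') (hQ : QL j lam) : QL j lam' := by
  intro i hi
  refine (hQ i hi).trans (mul_le_mul_right (gf_mono ?_) _)
  rintro X ⟨h1, h2⟩
  exact ⟨h1, h2.trans h⟩

lemma QL_anti {j j' lam : ℕ} (h : j' ≤ j) (hQ : QL j lam) : QL j' lam := fun i hi => hQ i (hi.trans h)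

/-- half of the weight of the bridges of height at most 2 ^ j has at most l j letters -/
theorem QL_seq {θ : ℝ} {l : ℕ → ℕ} (hl : NTm.Seq θ l) (hθ : θ ≤ 1 / 2) (j : ℕ) : QL j (l j) := by
  intro i hi
  have hU : 0 < UU (2 ^ i) := Num2Aux.UU_pos _
  have h1 := NTm.TL_TS (2 ^ i) ((l i : ℝ) + 1)
  have h2 : NTm.TL (2 ^ i) ((l i : ℝ) + 1) ≤ ENNReal.ofReal (UU (2 ^ i) / 2) := by
    refine (hl.tail i).trans (ENNReal.ofReal_le_ofReal ?_)
    have e : Ub i = UU (2 ^ i) := rfl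
    rw [e]
    nlinarith
  have h3 : NTm.TS' (2 ^ i) ((l i : ℝ) + 1) ≤ gf {X | (∃ n, n ≤ 2 ^ i ∧ X ∈ Brd n) ∧ X.length ≤ l j} := by
    unfold NTm.TS'
    have h6 : ∀ h ∈ range (2 ^ i + 1), gf {Z | Z ∈ Brd h ∧ (Z.length : ℝ) < (l i : ℝ) + 1} ≤
        gf {t | t ∈ Brd h ∧ t ∈ {X | (∃ n, n ≤ 2 ^ i ∧ X ∈ Brd n) ∧ X.length ≤ l j}} := by
      intro h hh
      rw [Finset.mem_range] at hh
      refine gf_mono ?_
      rintro Z ⟨h7, h8⟩
      have h9 : Z.length < l i + 1 := by exact_mod_cast h8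
      exact ⟨h7, ⟨h, by omega, h7⟩, (Nat.lt_succ_iff.1 h9).trans (hl.mono hi)⟩
    refine (Finset.sum_le_sum h6).trans ((NTm.PickA.sum_Brd_le (2 ^ i) _).trans (gf_mono ?_))
    rintro t ⟨-, ht⟩
    exact ht
  have h4 : ENNReal.ofReal (UU (2 ^ i) / 2) + ENNReal.ofReal (UU (2 ^ i) / 2) ≤
      ENNReal.ofReal (UU (2 ^ i) / 2) + NTm.TS' (2 ^ i) ((l i : ℝ) + 1) := by
    rw [← ENNReal.ofReal_add (by positivity) (by positivity), add_halves]
    exact h1.trans (add_le_add h2 le_rfl)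
  have h5 : ENNReal.ofReal (UU (2 ^ i) / 2) ≤ NTm.TS' (2 ^ i) ((l i : ℝ) + 1) :=
    (ENNReal.add_le_add_iff_left ENNReal.ofReal_ne_top).1 h4
  calc ENNReal.ofReal (UU (2 ^ i)) = 2 * ENNReal.ofReal (UU (2 ^ i) / 2) := by
        have e2 : (2 : ℝ≥0∞) = ENNReal.ofReal 2 := by norm_num
        rw [e2, ← ENNReal.ofReal_mul (by norm_num)]
        congr 1
        ring
    _ ≤ _ := mul_le_mul_right (h5.trans h3) _

end NTW

end HexObs
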