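import Pool.Agent.NTS.DirDefs
import Pool.Agent.SDN.CoarseW
import Pool.Agent.BAR.PubD

/-!
NTW: reduction of the second height direction to the first one.
-/

set_option autoImplicit false

namespace HexObs

namespace NTW

open Finset SDN

open scoped ENNReal

namespace DirA

/-! ### 1. The initial zigzag -/

/-- the steps that are vertical in the second direction -/
def vert (d : Pt) : Prop := d = (-1, 0) ∨ d = (1, 0)

/-- directions before the first vertical step -/
lemma zz_dir {t : List Bool} {q : ℕ} (h : ∀ i, i < q → ¬ vert (dx up t i)) :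
    ∀ i, i < q → dx up t i = if Even i then up else (-1, 1) := by
  intro i
  induction i with
  | zero =>
    intro _
    rfl
  | succ i ih =>
    intro hi
    have h1 := ih (by omega)
    have h2 := h (i + 1) hi
    rw [dx_succ, h1] at h2 ⊢
    by_cases he : Even i
    · rw [if_pos he] at h2 ⊢
      rw [if_neg (by rw [Nat.even_add_one]; simpa using he)]
      cases hb : tf t i
      · rw [hb] at h2
        exact absurd (by right; decide) h2
      · decide
    · rw [if_neg he] at h2 ⊢
      rw [if_pos (Nat.even_add_one.2 he)]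
      cases hb : tf t i
      · decide
      · rw [hb] at h2
        exact absurd (by left; decide) h2

lemma zz_tf {t : List Bool} {q : ℕ} (h : ∀ i, i < q → ¬ vert (dx up t i)) {i : ℕ} (hi : i + 1 < q) :
    tf t i = decide (Even i) := by
  have h1 := zz_dir h i (by omega)
  have h2 := zz_dir h (i + 1) hi
  rw [dx_succ, h1] at h2
  by_cases he : Even i
  · rw [if_pos he, if_neg (by rw [Nat.even_add_one]; simpa using he)] at h2
    rw [decide_eq_true he]
    cases hb : tf t i
    · rw [hb] at h2
      exact absurd h2 (by decide)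
    · rfl
  · rw [if_neg he, if_pos (Nat.even_add_one.2 he)] at h2
    rw [decide_eq_false he]
    cases hb : tf t i
    · rfl
    · rw [hb] at h2
      exact absurd h2 (by decide)

lemma zz_last {t : List Bool} {q : ℕ} (h : ∀ i, i < q + 1 → ¬ vert (dx up t i)) (hv : vert (dx up t (q + 1))) :
    tf t q = !decide (Even q) := by
  have h1 := zz_dir h q (by omega)
  rw [dx_succ, h1] at hv
  by_cases he : Even q
  · rw [if_pos he] at hv
    rw [decide_eq_true he]
    cases hb : tf t q
    · rfl
    · rw [hb] at hv
      rcases hv with h2 | h2 <;> exact absurd h2 (by decide)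
  · rw [if_neg he] at hv
    rw [decide_eq_false he]
    cases hb : tf t q
    · rw [hb] at hv
      rcases hv with h2 | h2 <;> exact absurd h2 (by decide)
    · rfl

/-- level in the second direction before the first vertical step -/
lemma zz_lvl {t : List Bool} {q : ℕ} (h : ∀ i, i < q → ¬ vert (dx up t i)) :
    ∀ i, i ≤ q → lvl true (vx oo up t i) = if Even i then 0 else -1 := by
  intro i
  induction i with
  | zero =>
    intro _
    rw [if_pos (by decide)]
    show lvl true oo = 0
    decide
  | succ i ih =>
    intro hi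
    have h1 := ih (by omega)
    have h2 := zz_dir h i (by omega)
    rw [vx_succ, lvl_add, h1, h2]
    by_cases he : Even i
    · rw [if_pos he, if_pos he, if_neg (by rw [Nat.even_add_one]; simpa using he)]
      decide
    · rw [if_neg he, if_neg he, if_pos (Nat.even_add_one.2 he)]
      decide

/-- the initial zigzag with q letters; the last letter makes the next step vertical -/
def Qz (q : ℕ) : List Bool := (List.range q).map fun i => if i + 1 < q then decide (Even i) else !decide (Even i)

lemma Qz_length (q : ℕ) : (Qz q).length = q := by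
  unfold Qz
  rw [List.length_map, List.length_range]

lemma take_eq {t : List Bool} {q : ℕ} (hq : q ≤ t.length) (h : ∀ i, i < q → ¬ vert (dx up t i))
    (hv : vert (dx up t q)) : t.take q = Qz q := by
  apply List.ext_getElem
  · rw [List.length_take, Qz_length]
    omega
  · intro i h1 h2
    rw [List.length_take] at h1
    have hi : i < t.length := by omega
    have e1 : (t.take q)[i] = tf t i := by
      rw [List.getElem_take]
      unfold tf
      rw [List.getD_eq_getElem _ _ hi]
    have e2 : (Qz q)[i] = if i + 1 < q then decide (Even i) else !decide (Even i) := by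
      simp only [Qz, List.getElem_map, List.getElem_range]
    rw [e1, e2]
    split_ifs with h3
    · exact zz_tf h h3
    · have h4 : q = i + 1 := by omega
      rw [h4] at h hv
      exact zz_last h hv

/-- the part behind a vertical step, in its own frame -/
lemma lvl_drop {t : List Bool} {q : ℕ} (hq : q ≤ t.length) (hv : vert (dx up t q)) :
    ∃ σ : ℤ, (σ = 1 ∨ σ = -1) ∧ (∀ j, lvl true (vx oo up t (q + j)) = lvl true (vx oo up t q) + σ * lev (t.drop q) j) ∧
      ∀ i j, vx oo up (t.drop q) i = vx oo up (t.drop q) j → vx oo up t (q + i) = vx oo up t (q + j) := by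
  obtain ⟨s, hs⟩ : ∃ s, s = t.take q := ⟨_, rfl⟩
  obtain ⟨r, hr⟩ : ∃ r, r = t.drop q := ⟨_, rfl⟩
  have ht : t = s ++ r := by
    rw [hs, hr, List.take_append_drop]
  have hl : s.length = q := by
    rw [hs, List.length_take]
    omega
  have h1 : ∀ j, vx oo up t (q + j) = vx (vx oo up t q) (dx up t q) r j := by
    intro j
    rw [ht, ← hl]
    unfold vx dx
    rw [vs_shift]
    apply vs_congr
    intro k _
    exact tf_append_right k
  rw [← hr]
  obtain ⟨u, σ, hσ, hu, hip⟩ : ∃ (u : Pt) (σ : ℤ), (σ = 1 ∨ σ = -1) ∧ mulE u up = dx up t q ∧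
      ∀ p, lvl true (mulE u p) = σ * ip p up := by
    rcases hv with h | h
    · refine ⟨(-1, 1), 1, Or.inl rfl, ?_, ?_⟩
      · rw [h]
        decide
      · intro p
        simp only [lvl, hd, mulE, ip, up, if_true]
        ring
    · refine ⟨(1, -1), -1, Or.inr rfl, ?_, ?_⟩
      · rw [h]
        decide
      · intro p
        simp only [lvl, hd, mulE, ip, up, if_true]
        ring
  have h2 : ∀ j, vx oo up t (q + j) = vx oo up t q + mulE u (vx oo up r j) := by
    intro j
    rw [h1, ← hu, vx_mulE u oo]
    congr 2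
    exact sub_zero _
  refine ⟨σ, hσ, ?_, ?_⟩
  · intro j
    rw [h2, lvl_add, hip]
    rfl
  · intro i j h
    rw [h2, h2, h]

/-- the zigzag with q letters that goes on -/
def Pz (q : ℕ) : List Bool := (List.range q).map fun i => decide (Even i)

lemma Pz_length (q : ℕ) : (Pz q).length = q := by
  unfold Pz
  rw [List.length_map, List.length_range]

lemma all_eq {t : List Bool} (h : ∀ i, i < t.length + 1 → ¬ vert (dx up t i)) : t = Pz t.length := by
  apply List.ext_getElem
  · rw [Pz_length]
  · intro i h1 h2
    have e1 : t[i] = tf t i := by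
      unfold tf
      rw [List.getD_eq_getElem _ _ h1]
    have e2 : (Pz t.length)[i] = decide (Even i) := by
      simp only [Pz, List.getElem_map, List.getElem_range]
    rw [e1, e2]
    exact zz_tf h (by omega)

/-! ### 2. Weights -/

lemma xc_lt : xc < 1 := by
  have := BAR.xc_le
  linarith

/-- the constant of the zigzag -/
noncomputable def CD : ℝ := 1 / (1 - xc)

lemma CD_ge : 1 ≤ CD := by
  have h1 := xc_lt
  have h2 := xc_pos
  unfold CD
  rw [le_div_iff₀ (by linarith)]
  linarith

lemma tsum_xc : ∑' q : ℕ, ENNReal.ofReal (xc ^ q) = ENNReal.ofReal CD := by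
  have h4 := xc_pos
  have h5 := xc_lt
  rw [← ENNReal.ofReal_tsum_of_nonneg (fun q => by positivity) (summable_geometric_of_lt_one h4.le h5),
    tsum_geometric_of_lt_one h4.le h5]
  unfold CD
  rw [one_div]

/-- words with an initial zigzag -/
theorem gf_zz (E : Set (List Bool)) : gf {t | ∃ q, ∃ s ∈ E, t = Qz q ++ s} ≤ ENNReal.ofReal CD * gf E := by
  have h1 : {t | ∃ q, ∃ s ∈ E, t = Qz q ++ s} = ⋃ q : ℕ, {t | ∃ s ∈ E, t = Qz q ++ s} := by
    ext t
    simp only [Set.mem_ofPred_eq, Set.mem_iUnion]
  rw [h1]
  refine (ENNReal.tsum_iUnion_le_tsum wE _).trans ?_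
  have h2 : ∀ q : ℕ, gf {t | ∃ s ∈ E, t = Qz q ++ s} ≤ ENNReal.ofReal (xc ^ q) * gf E := by
    intro q
    have h3 : gf ({Qz q} : Set (List Bool)) = ENNReal.ofReal (xc ^ q) := by
      have := gf_finset {Qz q}
      rw [Finset.coe_singleton, Finset.sum_singleton, Qz_length] at this
      exact this
    rw [← h3]
    refine gf_le_mul fun t ht => ?_
    obtain ⟨s, hs, h4⟩ := ht
    exact ⟨Qz q, rfl, s, hs, h4⟩
  refine (ENNReal.tsum_le_tsum h2).trans ?_
  rw [ENNReal.tsum_mul_right]
  exact mul_le_mul_left (le_of_eq tsum_xc) _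

end DirA

open DirA

/-! ### 3. The reduction -/

/-- **the reduction of the second height direction to the first one** -/
theorem dirRed : DirRed := by
  classical
  have hCD := CD_ge
  refine ⟨2 * CD, by linarith, fun N E F h => ?_⟩
  obtain ⟨F', hF'⟩ : ∃ F', F' = {t | t ∈ SAL N ∧ t ∈ F} := ⟨_, rfl⟩
  rw [← hF']
  -- the two parts
  have hsub : {t | t ∈ SAL N ∧ t ∈ E} ⊆ {t | ∃ q, ∃ s ∈ F', t = Qz q ++ s} ∪
      {t | ∃ q, ∃ s ∈ F', s = [] ∧ t = Pz q ++ s} := by
    rintro t ⟨⟨ht, htl⟩, hE⟩
    by_cases hex : ∃ q, q ≤ t.length ∧ vert (dx up t q)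
    · left
      obtain ⟨hq, hv⟩ := Nat.find_spec hex
      have hmin : ∀ i, i < Nat.find hex → ¬ vert (dx up t i) := fun i hi h => Nat.find_min hex hi ⟨by omega, h⟩
      set q := Nat.find hex
      obtain ⟨σ, hσ, hlv, hin⟩ := lvl_drop hq hv
      refine ⟨q, t.drop q, ?_, by rw [← take_eq hq hmin hv, List.take_append_drop]⟩
      rw [hF']
      refine ⟨⟨⟨fun _ _ _ => Set.mem_univ _, ?_⟩, by rw [List.length_drop]; omega⟩, ?_⟩
      · intro i k hik hk heq
        rw [List.length_drop] at hk
        exact ht.inj (q + i) (q + k) (by omega) (by omega) (hin i k heq)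
      · refine h q t σ ht hq hσ ?_ ?_ hE
        · intro i hi
          rw [zz_lvl hmin i hi, zz_lvl hmin q le_rfl, abs_le]
          split_ifs <;> constructor <;> omega
        · intro i _
          rw [hlv i]
          show _ = σ * lev (t.drop q) i
          ring
    · right
      push Not at hex
      have hall : ∀ i, i < t.length + 1 → ¬ vert (dx up t i) := fun i hi => hex i (by omega)
      refine ⟨t.length, [], ?_, rfl, by rw [List.append_nil]; exact all_eq hall⟩
      rw [hF']
      refine ⟨⟨⟨fun _ _ _ => Set.mem_univ _, ?_⟩, Nat.zero_le _⟩, ?_⟩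
      · intro i k hik hk
        rw [List.length_nil] at hk
        omega
      · have h1 := h t.length t 1 ht le_rfl (Or.inl rfl) ?_ ?_ hE
        · rw [List.drop_length] at h1
          exact h1
        · intro i hi
          rw [zz_lvl hall i (by omega), zz_lvl hall t.length (by omega), abs_le]
          split_ifs <;> constructor <;> omega
        · intro i hi
          have h0 : i = 0 := by omega
          rw [h0, add_zero, sub_self]
          show (0 : ℤ) = 1 * lvl false oo
          decide
  have hP : gf {t | ∃ q, ∃ s ∈ F', s = [] ∧ t = Pz q ++ s} ≤ ENNReal.ofReal CD * gf F' := by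
    have h1 : {t | ∃ q, ∃ s ∈ F', s = [] ∧ t = Pz q ++ s} = ⋃ q : ℕ, {t | ∃ s ∈ F', t = Pz q ++ s ∧ s = []} := by
      ext t
      simp only [Set.mem_ofPred_eq, Set.mem_iUnion]
      constructor
      · rintro ⟨q, s, h1, h2, h3⟩
        exact ⟨q, s, h1, h3, h2⟩
      · rintro ⟨q, s, h1, h2, h3⟩
        exact ⟨q, s, h1, h3, h2⟩
    rw [h1]
    refine (ENNReal.tsum_iUnion_le_tsum wE _).trans ?_
    have h2 : ∀ q : ℕ, gf {t | ∃ s ∈ F', t = Pz q ++ s ∧ s = []} ≤ ENNReal.ofReal (xc ^ q) * gf F' := by
      intro q
      have h3 : gf ({Pz q} : Set (List Bool)) = ENNReal.ofReal (xc ^ q) := by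
        have := gf_finset {Pz q}
        rw [Finset.coe_singleton, Finset.sum_singleton, Pz_length] at this
        exact this
      rw [← h3]
      refine gf_le_mul fun t ht => ?_
      obtain ⟨s, hs, h4, -⟩ := ht
      exact ⟨Pz q, rfl, s, hs, h4⟩
    refine (ENNReal.tsum_le_tsum h2).trans ?_
    rw [ENNReal.tsum_mul_right]
    exact mul_le_mul_left (le_of_eq tsum_xc) _
  refine (gf_mono hsub).trans ((gf_union_le _ _).trans ((add_le_add (gf_zz F') hP).trans (le_of_eq ?_)))
  rw [← two_mul, ← mul_assoc, ENNReal.ofReal_mul (by norm_num), show ENNReal.ofReal 2 = 2 by norm_num]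

end NTW

end HexObs
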