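import Pool.Agent.NTW.Dir
import Pool.Agent.NTW.EndL
import Pool.Agent.NT.Assemble

/-!
NTW: the facts in the direction 0 from the estimates of the chain side.
-/

set_option autoImplicit false

namespace HexObs

namespace NTW

open Finset TS SDN

open scoped ENNReal

/-- square of the size of the end norms at the scale L + q -/
noncomputable def BB (l : ℕ → ℕ) (L q : ℕ) : ℝ≥0∞ := (bl (2 * l (L + q)) (L + q)) ^ 2

/-- tail of the range -/
def TailP (l : ℕ → ℕ) : Prop := ∃ (K : ℝ) (q L0 : ℕ), 0 < K ∧ ∀ L, L0 ≤ L → ∀ i : ℕ,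
  gf {t | t ∈ SAL (l L) ∧ ∃ n, n ≤ t.length ∧ (2 : ℝ) ^ i * 2 ^ L ≤ |((lev t n : ℤ) : ℝ)|} ≤
    ENNReal.ofReal (K / 2 ^ (12 * i) * Ub L) * BB l L q

/-- words of small range -/
def ExtP (l : ℕ → ℕ) : Prop := ∃ (K : ℝ) (q L0 : ℕ), 0 < K ∧ ∀ L J, L0 + J ≤ L →
  gf {t | t ∈ SAL (l L) ∧ ∀ i i', i ≤ t.length → i' ≤ t.length → lev t i - lev t i' ≤ 3 * 2 ^ (L - J)} ≤
    ENNReal.ofReal (K * Ub (L - J)) * BB l L q

/-- the last vertex is not close to the row of the first one -/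
def LowP (l : ℕ → ℕ) : Prop := ∀ J J' : ℕ, ∃ q : ℕ, ∀ η : ℝ, 0 < η → ∃ (κ : ℝ) (L0 : ℕ), 0 < κ ∧ ∀ L, L0 ≤ L →
  gf {t | t ∈ SAL (l L) ∧ (∃ i i', i ≤ t.length ∧ i' ≤ t.length ∧ 3 * 2 ^ (L - J) < lev t i - lev t i') ∧
    (∀ n, n ≤ t.length → |((lev t n : ℤ) : ℝ)| ≤ 2 ^ J' * 2 ^ L) ∧ |((lev t t.length : ℤ) : ℝ)| ≤ κ * 2 ^ L} ≤
    ENNReal.ofReal (η * Ub L) * BB l L q

/-- modulus in the box -/
def ModuP (l : ℕ → ℕ) (G : Set ℕ) : Prop := ∀ (J' : ℕ) (r : ℝ), 0 < r → ∃ q : ℕ, ∀ η : ℝ, 0 < η →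
  ∃ (ρ : ℝ) (L0 : ℕ), 0 < ρ ∧ ∀ L ∈ G, L0 ≤ L →
  gf {t | t ∈ SAL (l L) ∧ t ∈ WL (L + J') ∧ ∃ i j : ℕ, i ≤ j ∧ j ≤ t.length ∧ (j : ℝ) - i ≤ ρ * l L ∧
    r * 2 ^ L ≤ |((lev t j - lev t i : ℤ) : ℝ)|} ≤ ENNReal.ofReal (η * Ub L) * BB l L q

/-- the scales of G are typical -/
def ScaleP (l : ℕ → ℕ) (G : Set ℕ) : Prop := ∀ q : ℕ, ∃ (C : ℝ) (L0 : ℕ), 0 < C ∧ ∀ L ∈ G, L0 ≤ L →
  ENNReal.ofReal (Ub L) * BB l L q ≤ ENNReal.ofReal C * gf (SAL (l L))

lemma BB_mono {l : ℕ → ℕ} (hl : Monotone l) {L L' q q' : ℕ} (h : L + q ≤ L' + q') : BB l L q ≤ BB l L' q' := by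
  unfold BB
  have h1 : bl (2 * l (L + q)) (L + q) ≤ bl (2 * l (L' + q')) (L' + q') :=
    (bl_mono _ h).trans (bl_mono_lam (Nat.mul_le_mul_left 2 (hl h)) _)
  gcongr

/-- the estimate at a typical scale -/
lemma at_scale {l : ℕ → ℕ} {L q : ℕ} {C a : ℝ} {S : Set (List Bool)} (ha : 0 ≤ a)
    (h : ENNReal.ofReal (Ub L) * BB l L q ≤ ENNReal.ofReal C * gf (SAL (l L)))
    (hS : gf S ≤ ENNReal.ofReal (a * Ub L) * BB l L q) : gf S ≤ ENNReal.ofReal (a * C) * gf (SAL (l L)) := by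
  refine hS.trans ?_
  rw [ENNReal.ofReal_mul ha, mul_assoc, ENNReal.ofReal_mul ha, mul_assoc]
  exact mul_le_mul_right h _

/-- Ub (L - J) is small against Ub L -/
lemma Ub_small {ε : ℝ} (hε : 0 < ε) : ∃ J : ℕ, ∀ L, J ≤ L → Ub (L - J) ≤ ε * Ub L := by
  have hk := kap0_pos
  have hx1 : (2 : ℝ) ^ (-kap0) < 1 := Real.rpow_lt_one_of_one_lt_of_neg (by norm_num) (by linarith)
  obtain ⟨J, hJ⟩ := exists_pow_lt_of_lt_one (show 0 < ε / 2 by positivity) hx1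
  refine ⟨J, fun L hL => ?_⟩
  have h1 := Ub_growth (show L - J ≤ L by omega)
  have h2 : ((L : ℝ) - ((L - J : ℕ) : ℝ)) = J := by
    rw [Nat.cast_sub hL]
    ring
  rw [h2] at h1
  have h3 : (2 : ℝ) ^ (kap0 * (J : ℝ)) * ((2 : ℝ) ^ (-kap0)) ^ J = 1 := by
    rw [← Real.rpow_natCast, ← Real.rpow_mul (by norm_num), ← Real.rpow_add (by norm_num)]
    rw [show kap0 * (J : ℝ) + -kap0 * (J : ℝ) = 0 by ring, Real.rpow_zero]
  have h4 : 0 < Ub L := Ub_pos L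
  have h5 : (0 : ℝ) < ((2 : ℝ) ^ (-kap0)) ^ J := by positivity
  calc Ub (L - J) = Ub (L - J) * ((2 : ℝ) ^ (kap0 * (J : ℝ)) * ((2 : ℝ) ^ (-kap0)) ^ J) := by rw [h3, mul_one]
    _ = Ub (L - J) * (2 : ℝ) ^ (kap0 * (J : ℝ)) * ((2 : ℝ) ^ (-kap0)) ^ J := by ring
    _ ≤ 2 * Ub L * ((2 : ℝ) ^ (-kap0)) ^ J := by gcongr
    _ ≤ 2 * Ub L * (ε / 2) := by gcongr
    _ = ε * Ub L := by ring

/-- total mass -/
lemma tot_le {l : ℕ → ℕ} (hl : Monotone l) (hT : TailP l) (hE : ExtP l) : ∃ (K : ℝ) (q L0 : ℕ), 0 < K ∧ ∀ L, L0 ≤ L →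
    gf (SAL (l L)) ≤ ENNReal.ofReal (K * Ub L) * BB l L q := by
  obtain ⟨K1, q1, L1, hK1, h1⟩ := hT
  obtain ⟨K2, q2, L2, hK2, h2⟩ := hE
  refine ⟨K1 + K2, max q1 q2, max L1 L2, by positivity, fun L hL => ?_⟩
  have hU := Ub_pos L
  have a1 := h1 L (le_trans (le_max_left _ _) hL) 0
  have a2 := h2 L 0 (by have := le_max_right L1 L2; omega)
  rw [Nat.sub_zero] at a2
  have hsub : SAL (l L) ⊆ {t | t ∈ SAL (l L) ∧ ∃ n, n ≤ t.length ∧ (2 : ℝ) ^ 0 * 2 ^ L ≤ |((lev t n : ℤ) : ℝ)|} ∪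
      {t | t ∈ SAL (l L) ∧ ∀ i i', i ≤ t.length → i' ≤ t.length → lev t i - lev t i' ≤ 3 * 2 ^ L} := by
    intro t ht
    by_cases hc : ∃ n, n ≤ t.length ∧ (2 : ℝ) ^ 0 * 2 ^ L ≤ |((lev t n : ℤ) : ℝ)|
    · exact Or.inl ⟨ht, hc⟩
    · right
      refine ⟨ht, fun i i' hi hi' => ?_⟩
      push Not at hc
      have b1 := hc i hi
      have b2 := hc i' hi'
      rw [pow_zero, one_mul, abs_lt] at b1 b2
      have b3 : ((lev t i - lev t i' : ℤ) : ℝ) ≤ ((3 * 2 ^ L : ℤ) : ℝ) := by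
        push_cast
        have : (0 : ℝ) < 2 ^ L := by positivity
        linarith [b1.2, b2.1]
      exact_mod_cast b3
  refine (gf_mono hsub).trans ((gf_union_le _ _).trans ((add_le_add a1 a2).trans ?_))
  have c1 : BB l L q1 ≤ BB l L (max q1 q2) := BB_mono hl (by have := le_max_left q1 q2; omega)
  have c2 : BB l L q2 ≤ BB l L (max q1 q2) := BB_mono hl (by have := le_max_right q1 q2; omega)
  calc ENNReal.ofReal (K1 / 2 ^ (12 * 0) * Ub L) * BB l L q1 + ENNReal.ofReal (K2 * Ub L) * BB l L q2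
      ≤ ENNReal.ofReal (K1 * Ub L) * BB l L (max q1 q2) + ENNReal.ofReal (K2 * Ub L) * BB l L (max q1 q2) := by
        have : K1 / 2 ^ (12 * 0) * Ub L = K1 * Ub L := by norm_num
        rw [this]
        gcongr
    _ = ENNReal.ofReal ((K1 + K2) * Ub L) * BB l L (max q1 q2) := by
        rw [← add_mul, ← ENNReal.ofReal_add (by positivity) (by positivity), add_mul]

theorem factsF_of {θ : ℝ} {l : ℕ → ℕ} (hl : NTm.Seq θ l) (hT : TailP l) (hE : ExtP l) (hLow : LowP l) {G : Set ℕ}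
    (hM : ModuP l G) (hS : ScaleP l G) (hG : NTm.Good l G) : FactsF l G := by
  have hmono := hl.mono
  obtain ⟨K1, q1, L1, hK1, h1⟩ := hT
  obtain ⟨K2, q2, L2, hK2, h2⟩ := hE
  obtain ⟨K3, q3, L3, hK3, h3⟩ := tot_le hmono ⟨K1, q1, L1, hK1, h1⟩ ⟨K2, q2, L2, hK2, h2⟩
  obtain ⟨C1, M1, hC1, hS1⟩ := hS q1
  obtain ⟨C2, M2, hC2, hS2⟩ := hS q2
  obtain ⟨C3, M3, hC3, hS3⟩ := hS q3
  -- the tail is small
  have htail : ∀ ε : ℝ, 0 < ε → ∃ i : ℕ, ∀ L ∈ G, max L1 M1 ≤ L →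
      gf {t | t ∈ SAL (l L) ∧ ∃ n, n ≤ t.length ∧ (2 : ℝ) ^ i * 2 ^ L ≤ |((lev t n : ℤ) : ℝ)|} ≤
        ENNReal.ofReal ε * gf (SAL (l L)) := by
    intro ε hε
    obtain ⟨i, hi⟩ := exists_pow_lt_of_lt_one (show 0 < ε / (K1 * C1) by positivity) (show (1 / 2 : ℝ) < 1 by norm_num)
    refine ⟨i, fun L hLG hL => ?_⟩
    refine (at_scale (by positivity) (hS1 L hLG (le_trans (le_max_right _ _) hL))
      (h1 L (le_trans (le_max_left _ _) hL) i)).trans (mul_le_mul_left (ENNReal.ofReal_le_ofReal ?_) _)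
    have e1 : (1 : ℝ) / 2 ^ (12 * i) ≤ (1 / 2) ^ i := by
      rw [div_pow, one_pow]
      apply one_div_le_one_div_of_le (by positivity)
      exact pow_le_pow_right₀ (by norm_num) (by omega)
    calc K1 / 2 ^ (12 * i) * C1 = (K1 * C1) * (1 / 2 ^ (12 * i)) := by ring
      _ ≤ (K1 * C1) * (1 / 2) ^ i := by gcongr
      _ ≤ (K1 * C1) * (ε / (K1 * C1)) := by gcongr
      _ = ε := by field_simp
  refine ⟨?_, ?_, ?_, ?_⟩
  · -- modulus
    intro r ε hr hε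
    obtain ⟨CD, hCD, hdir⟩ := dirRed
    obtain ⟨i0, hi0⟩ := htail (ε / (4 * CD)) (by positivity)
    obtain ⟨q, hq⟩ := hM i0 r hr
    obtain ⟨C, M, hC, hSq⟩ := hS q
    obtain ⟨ρ, L0, hρ, hh⟩ := hq (ε / (2 * C)) (by positivity)
    refine ⟨ρ, max (max (max L0 M) (max L1 M1)) 1, hρ, fun L hLG hL' => ?_⟩
    have hL : max (max L0 M) (max L1 M1) ≤ L := le_trans (le_max_left _ _) hL'
    have hL1' : 1 ≤ L := le_trans (le_max_right _ _) hL'
    have hL0 : L0 ≤ L := le_trans (le_trans (le_max_left _ _) (le_max_left _ _)) hL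
    have hLM : M ≤ L := le_trans (le_trans (le_max_right _ _) (le_max_left _ _)) hL
    have hL1 : max L1 M1 ≤ L := le_trans (le_max_right _ _) hL
    have a1 := at_scale (by positivity) (hSq L hLG hLM) (hh L hLG hL0)
    have a2 := hi0 L hLG hL1
    have hp : (2 : ℝ) ≤ 2 ^ i0 * 2 ^ L := by
      have b1 : (1 : ℝ) ≤ 2 ^ i0 := one_le_pow₀ (by norm_num)
      have b2 : (2 : ℝ) ^ 1 ≤ 2 ^ L := pow_le_pow_right₀ (by norm_num) hL1'
      rw [pow_one] at b2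
      nlinarith
    have a3 := hdir (l L) {t | ∃ i, i ≤ t.length ∧ 3 * ((2 : ℝ) ^ i0 * 2 ^ L) ≤ |((lvl true (vx oo up t i) : ℤ) : ℝ)|}
      {t | ∃ n, n ≤ t.length ∧ (2 : ℝ) ^ i0 * 2 ^ L ≤ |((lev t n : ℤ) : ℝ)|} (by
      rintro q t sg _ hq hsg h1 h2 ⟨i, hi, hi3⟩
      have c2 : lvl true (vx oo up t 0) = 0 := by
        show ip oo (hd true) = 0
        decide
      have c3 := h1 0 (Nat.zero_le _)
      rw [c2, zero_sub, abs_neg] at c3
      have c3' : |((lvl true (vx oo up t q) : ℤ) : ℝ)| ≤ 2 := by exact_mod_cast c3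
      rcases Nat.lt_or_ge i q with hiq | hiq
      · exfalso
        have c4 := h1 i hiq.le
        have c4' : |((lvl true (vx oo up t i) : ℤ) : ℝ) - ((lvl true (vx oo up t q) : ℤ) : ℝ)| ≤ 2 := by exact_mod_cast c4
        have c5 : |((lvl true (vx oo up t i) : ℤ) : ℝ)| ≤ 4 := by
          calc |((lvl true (vx oo up t i) : ℤ) : ℝ)| = |(((lvl true (vx oo up t i) : ℤ) : ℝ) - ((lvl true (vx oo up t q) : ℤ) : ℝ)) +
                ((lvl true (vx oo up t q) : ℤ) : ℝ)| := by ring_nf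
            _ ≤ _ := abs_add_le _ _
            _ ≤ 2 + 2 := add_le_add c4' c3'
            _ = 4 := by norm_num
        linarith
      · obtain ⟨i', rfl⟩ := Nat.exists_eq_add_of_le hiq
        have c4 := h2 i' hi
        refine ⟨i', by rw [List.length_drop]; omega, ?_⟩
        have c5 : |lvl true (vx oo up t (q + i')) - lvl true (vx oo up t q)| = |lev (t.drop q) i'| := by
          rw [c4, abs_mul]
          rcases hsg with rfl | rfl
          · rw [abs_one, one_mul]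
            rfl
          · rw [abs_neg, abs_one, one_mul]
            rfl
        have c6 : |((lvl true (vx oo up t (q + i')) : ℤ) : ℝ) - ((lvl true (vx oo up t q) : ℤ) : ℝ)| =
            |((lev (t.drop q) i' : ℤ) : ℝ)| := by
          have := congrArg (fun z : ℤ => (z : ℝ)) c5
          simpa [Int.cast_abs] using this
        rw [← c6]
        have c7 : |((lvl true (vx oo up t (q + i')) : ℤ) : ℝ)| ≤
            |((lvl true (vx oo up t (q + i')) : ℤ) : ℝ) - ((lvl true (vx oo up t q) : ℤ) : ℝ)| +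
              |((lvl true (vx oo up t q) : ℤ) : ℝ)| := by
          calc |((lvl true (vx oo up t (q + i')) : ℤ) : ℝ)| = |(((lvl true (vx oo up t (q + i')) : ℤ) : ℝ) -
                ((lvl true (vx oo up t q) : ℤ) : ℝ)) + ((lvl true (vx oo up t q) : ℤ) : ℝ)| := by ring_nf
            _ ≤ _ := abs_add_le _ _
        linarith)
    have hsub : {t | t ∈ SAL (l L) ∧ ∃ i j : ℕ, i ≤ j ∧ j ≤ t.length ∧ (j : ℝ) - i ≤ ρ * l L ∧
        r * 2 ^ L ≤ |((lev t j - lev t i : ℤ) : ℝ)|} ⊆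
        ({t | t ∈ SAL (l L) ∧ t ∈ WL (L + i0) ∧ ∃ i j : ℕ, i ≤ j ∧ j ≤ t.length ∧ (j : ℝ) - i ≤ ρ * l L ∧
          r * 2 ^ L ≤ |((lev t j - lev t i : ℤ) : ℝ)|} ∪
        {t | t ∈ SAL (l L) ∧ ∃ n, n ≤ t.length ∧ (2 : ℝ) ^ i0 * 2 ^ L ≤ |((lev t n : ℤ) : ℝ)|}) ∪
        {t | t ∈ SAL (l L) ∧ t ∈ {t | ∃ i, i ≤ t.length ∧
          3 * ((2 : ℝ) ^ i0 * 2 ^ L) ≤ |((lvl true (vx oo up t i) : ℤ) : ℝ)|}} := by
      rintro t ⟨ht, hev⟩
      by_cases hw : t ∈ WL (L + i0)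
      · exact Or.inl (Or.inl ⟨ht, hw, hev⟩)
      · have hw' : ∃ i, i ≤ t.length ∧ ∃ dir, 2 ^ (L + i0) < |row dir (vx oo up t i)| := by
          by_contra hc
          push Not at hc
          exact hw ⟨ht.1, hc⟩
        obtain ⟨i, hi, dir, hd⟩ := hw'
        have hlv : 3 * (2 : ℤ) ^ (L + i0) ≤ |lvl dir (vx oo up t i)| := by
          unfold row at hd
          rcases lt_abs.1 hd with h | h
          · have : 3 * (2 : ℤ) ^ (L + i0) ≤ lvl dir (vx oo up t i) := by omega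
            exact this.trans (le_abs_self _)
          · have : 3 * (2 : ℤ) ^ (L + i0) ≤ -lvl dir (vx oo up t i) := by omega
            exact this.trans (neg_le_abs _)
        have hlv' : 3 * ((2 : ℝ) ^ i0 * 2 ^ L) ≤ |((lvl dir (vx oo up t i) : ℤ) : ℝ)| := by
          have c1 : ((3 * (2 : ℤ) ^ (L + i0) : ℤ) : ℝ) ≤ ((|lvl dir (vx oo up t i)| : ℤ) : ℝ) := by exact_mod_cast hlv
          rw [Int.cast_abs] at c1
          push_cast at c1
          rw [pow_add] at c1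
          rw [mul_comm ((2 : ℝ) ^ i0)]
          exact c1
        cases dir with
        | false =>
          left; right
          refine ⟨ht, i, hi, ?_⟩
          have : lvl false (vx oo up t i) = lev t i := rfl
          rw [this] at hlv'
          linarith
        | true =>
          right
          exact ⟨ht, i, hi, hlv'⟩
    refine (gf_mono hsub).trans ((gf_union_le _ _).trans ((add_le_add ((gf_union_le _ _).trans (add_le_add a1 a2))
      (a3.trans (mul_le_mul_right a2 _))).trans ?_))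
    rw [← mul_assoc, ← ENNReal.ofReal_mul (by linarith), ← add_mul, ← add_mul, ← ENNReal.ofReal_add (by positivity) (by positivity),
      ← ENNReal.ofReal_add (by positivity) (by positivity)]
    refine mul_le_mul_left (ENNReal.ofReal_le_ofReal ?_) _
    have d1 : ε / (2 * C) * C = ε / 2 := by field_simp
    have d2 : CD * (ε / (4 * CD)) = ε / 4 := by field_simp
    have d3 : ε / (4 * CD) ≤ ε / 4 := by
      apply div_le_div_of_nonneg_left hε.le (by norm_num)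
      linarith
    rw [d1, d2]
    linarith
  · -- few letters
    intro ε hε
    obtain ⟨J, hJ⟩ := Ub_small (show 0 < ε / (K3 * C3) by positivity)
    obtain ⟨c, hc, hGc⟩ := hG
    refine ⟨c J, max (L3 + J) M3, hc J, fun L hLG hL => ?_⟩
    have hLJ : L3 + J ≤ L := le_trans (le_max_left _ _) hL
    have hLM : M3 ≤ L := le_trans (le_max_right _ _) hL
    have hsub : {t | t ∈ SAL (l L) ∧ (t.length : ℝ) ≤ c J * l L} ⊆ SAL (l (L - J)) := by
      rintro t ⟨ht, hlen⟩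
      refine ⟨ht.1, ?_⟩
      have := hlen.trans (hGc L hLG J (by omega))
      exact_mod_cast this
    have a1 := h3 (L - J) (by omega)
    have a2 : BB l (L - J) q3 ≤ BB l L q3 := BB_mono hmono (by omega)
    have a3 : gf {t | t ∈ SAL (l L) ∧ (t.length : ℝ) ≤ c J * l L} ≤ ENNReal.ofReal (ε / C3 * Ub L) * BB l L q3 := by
      refine (gf_mono hsub).trans (a1.trans (mul_le_mul' (ENNReal.ofReal_le_ofReal ?_) a2))
      calc K3 * Ub (L - J) ≤ K3 * (ε / (K3 * C3) * Ub L) := by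
            have := hJ L (by omega)
            gcongr
        _ = ε / C3 * Ub L := by field_simp
    refine (at_scale (by positivity) (hS3 L hLG hLM) a3).trans (mul_le_mul_left (ENNReal.ofReal_le_ofReal (le_of_eq ?_)) _)
    field_simp
  · -- the end
    intro ε hε
    obtain ⟨i0, hi0⟩ := htail (ε / 3) (by positivity)
    obtain ⟨J, hJ⟩ := Ub_small (show 0 < ε / (3 * (K2 * C2)) by positivity)
    obtain ⟨q, hq⟩ := hLow J i0
    obtain ⟨C, M, hC, hSq⟩ := hS q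
    obtain ⟨κ, L0, hκ, hh⟩ := hq (ε / (3 * C)) (by positivity)
    refine ⟨κ, max (max (max L0 M) (max L1 M1)) (max (L2 + J) M2), hκ, fun L hLG hL => ?_⟩
    have hL0 : L0 ≤ L := le_trans (le_trans (le_trans (le_max_left _ _) (le_max_left _ _)) (le_max_left _ _)) hL
    have hLM : M ≤ L := le_trans (le_trans (le_trans (le_max_right _ _) (le_max_left _ _)) (le_max_left _ _)) hL
    have hL1 : max L1 M1 ≤ L := le_trans (le_trans (le_max_right _ _) (le_max_left _ _)) hL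
    have hL2 : L2 + J ≤ L := le_trans (le_trans (le_max_left _ _) (le_max_right _ _)) hL
    have hLM2 : M2 ≤ L := le_trans (le_trans (le_max_right _ _) (le_max_right _ _)) hL
    have a1 := at_scale (by positivity) (hSq L hLG hLM) (hh L hL0)
    have a2 := hi0 L hLG hL1
    have a3 := h2 L J hL2
    have a3' : gf {t | t ∈ SAL (l L) ∧ ∀ i i', i ≤ t.length → i' ≤ t.length → lev t i - lev t i' ≤ 3 * 2 ^ (L - J)} ≤
        ENNReal.ofReal (ε / (3 * C2) * Ub L) * BB l L q2 := by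
      refine a3.trans (mul_le_mul_left (ENNReal.ofReal_le_ofReal ?_) _)
      calc K2 * Ub (L - J) ≤ K2 * (ε / (3 * (K2 * C2)) * Ub L) := by
            have := hJ L (by omega)
            gcongr
        _ = ε / (3 * C2) * Ub L := by field_simp
    have a4 := at_scale (by positivity) (hS2 L hLG hLM2) a3'
    have hsub : {t | t ∈ SAL (l L) ∧ |((lev t t.length : ℤ) : ℝ)| ≤ κ * 2 ^ L} ⊆
        ({t | t ∈ SAL (l L) ∧ (∃ i i', i ≤ t.length ∧ i' ≤ t.length ∧ 3 * 2 ^ (L - J) < lev t i - lev t i') ∧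
          (∀ n, n ≤ t.length → |((lev t n : ℤ) : ℝ)| ≤ 2 ^ i0 * 2 ^ L) ∧ |((lev t t.length : ℤ) : ℝ)| ≤ κ * 2 ^ L} ∪
        {t | t ∈ SAL (l L) ∧ ∃ n, n ≤ t.length ∧ (2 : ℝ) ^ i0 * 2 ^ L ≤ |((lev t n : ℤ) : ℝ)|}) ∪
        {t | t ∈ SAL (l L) ∧ ∀ i i', i ≤ t.length → i' ≤ t.length → lev t i - lev t i' ≤ 3 * 2 ^ (L - J)} := by
      rintro t ⟨ht, hev⟩
      by_cases h4 : ∀ i i', i ≤ t.length → i' ≤ t.length → lev t i - lev t i' ≤ 3 * 2 ^ (L - J)
      · exact Or.inr ⟨ht, h4⟩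
      by_cases h5 : ∃ n, n ≤ t.length ∧ (2 : ℝ) ^ i0 * 2 ^ L ≤ |((lev t n : ℤ) : ℝ)|
      · exact Or.inl (Or.inr ⟨ht, h5⟩)
      left; left
      push Not at h4 h5
      obtain ⟨i, i', b1, b2, b3⟩ := h4
      exact ⟨ht, ⟨i, i', b1, b2, b3⟩, fun n hn => (h5 n hn).le, hev⟩
    refine (gf_mono hsub).trans ((gf_union_le _ _).trans ((add_le_add ((gf_union_le _ _).trans (add_le_add a1 a2))
      a4).trans ?_))
    rw [← add_mul, ← add_mul, ← ENNReal.ofReal_add (by positivity) (by positivity),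
      ← ENNReal.ofReal_add (by positivity) (by positivity)]
    refine mul_le_mul_left (ENNReal.ofReal_le_ofReal (le_of_eq ?_)) _
    field_simp
    ring
  · -- tail
    refine ⟨K1 * C1, max L1 M1, by positivity, fun L hLG hL i => ?_⟩
    have hsub : {t | t ∈ SAL (l L) ∧ (2 : ℝ) ^ i * 2 ^ L ≤ |((lev t t.length : ℤ) : ℝ)|} ⊆
        {t | t ∈ SAL (l L) ∧ ∃ n, n ≤ t.length ∧ (2 : ℝ) ^ i * 2 ^ L ≤ |((lev t n : ℤ) : ℝ)|} :=
      fun t ht => ⟨ht.1, t.length, le_rfl, ht.2⟩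
    refine (gf_mono hsub).trans ((at_scale (by positivity) (hS1 L hLG (le_trans (le_max_right _ _) hL))
      (h1 L (le_trans (le_max_left _ _) hL) i)).trans (mul_le_mul_left (ENNReal.ofReal_le_ofReal (le_of_eq ?_)) _))
    ring

end NTW

end HexObs
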