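import Pool.Agent.NTW.VNormX
import Pool.Agent.NT.GNorm

/-!
NTW: the tall bridges without small backtracks in a window of rows have small norm at the coarse scale; with a number x
in place of the norm of the end functional, and with a start functional q in the free part.
-/

set_option autoImplicit false

namespace HexObs

namespace NTW

open Finset TS SDN SDN.CN NTm

open scoped ENNReal

namespace GX

open Classical in
/-- one level, with a weight q of the word that does not decrease when the end is dropped -/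
theorem step_a {k A1 A2 D a : ℕ} {G X W : Set (List Bool)} (h : Stp k A1 A2 D G X W) {Φ : List Bool → ℝ≥0∞} (hΦ : HerD D Φ)
    (ha1 : A1 ≤ a) (ha2 : a < A2) {q : List Bool → ℝ≥0∞} (hq1 : ∀ x ∈ X, ∀ y ∈ W, x ++ y ∈ G → q (x ++ y) ≤ q x)
    (hq2 : ∀ x ∈ X, ∀ y z, unf [x, y, z] ∈ G → q (unf [x, y, z]) ≤ q x) :
    Rec8.sw G (fun g => q g * Φ g) ≤
      Rec8.sw X (fun x => q x * ((if hgt x = a then 1 else 0) * Rec8.sw W Φ)) +
      Rec8.sw X (fun x => q x * Rec8.sw {y | y ∈ SBr (k + 5) ∧ LFold x y}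
        (fun y => (if a ≤ hgt x ∧ hgt x ≤ a + hgt y then 1 else 0) * Rec8.sw {z | z ∈ W ∧ LFold y z} Φ)) := by
  refine (TN5b_sw_union (B := {g | g ∈ G ∧ ∃ t1 ∈ Brd a, t1 ∈ X ∧ ∃ t2 ∈ W, g = t1 ++ t2})
    (C := {g | g ∈ G ∧ ∃ G1 D G3, G1 ∈ X ∧ D ∈ SBr (k + 5) ∧ G3 ∈ W ∧ unf [G1, D, G3] = g ∧ LFold G1 D ∧
      LFold D G3 ∧ a ≤ hgt G1 ∧ hgt G1 ≤ a + hgt D}) ?_ (fun g => q g * Φ g)).trans ?_
  · intro g hg
    rcases h.dec g hg a ha1 ha2 with h1 | h1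
    · exact Or.inl ⟨hg, h1⟩
    · exact Or.inr ⟨hg, h1⟩
  · refine add_le_add ?_ ?_
    · -- cut
      have e1 : Rec8.sw X (fun x => q x * ((if hgt x = a then 1 else 0) * Rec8.sw W Φ)) =
          Rec8.sw X (fun x => Rec8.sw W (fun y => q x * ((if hgt x = a then 1 else 0) * Φ y))) :=
        Rec8.sw_congr fun x _ => by rw [Rec8.sw_mul_left, Rec8.sw_mul_left]
      rw [e1, sw2]
      refine Rec8.sw_cover _ _ _ (fun p : List Bool × List Bool => p.1 ++ p.2) ?_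
      rintro g ⟨hgW, t1, ht1, ht1X, t2, ht2, rfl⟩
      refine ⟨(t1, t2), rfl, ?_⟩
      rw [if_pos (⟨ht1X, ht2⟩ : _ ∧ _), wE_append]
      show wE t1 * wE t2 * (q (t1 ++ t2) * Φ (t1 ++ t2)) ≤ wE t1 * (wE t2 * (q t1 * ((if hgt t1 = a then 1 else 0) * Φ t2)))
      rw [if_pos (hgt_eq ht1), one_mul, mul_assoc]
      have hq := hq1 t1 ht1X t2 ht2 hgW
      gcongr
      exact hΦ.her t1 ⟨a, ht1⟩ t2
    · -- zig-zag
      have e1 : Rec8.sw X (fun x => q x * Rec8.sw {y | y ∈ SBr (k + 5) ∧ LFold x y}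
          (fun y => (if a ≤ hgt x ∧ hgt x ≤ a + hgt y then 1 else 0) * Rec8.sw {z | z ∈ W ∧ LFold y z} Φ)) =
          Rec8.sw X (fun x => Rec8.sw {y | y ∈ SBr (k + 5) ∧ LFold x y}
          (fun y => (q x * (if a ≤ hgt x ∧ hgt x ≤ a + hgt y then 1 else 0)) * Rec8.sw {z | z ∈ W ∧ LFold y z} Φ)) :=
        Rec8.sw_congr fun x _ => by
          rw [← Rec8.sw_mul_left]
          exact Rec8.sw_congr fun y _ => by rw [mul_assoc]
      rw [e1, sw3]
      refine Rec8.sw_cover _ _ _ (fun p : List Bool × (List Bool × List Bool) => unf [p.1, p.2.1, p.2.2]) ?_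
      rintro g ⟨hgW, G1, D1, G3, hG1, hD, hG3, hunf, f1, f2, i1, i2⟩
      refine ⟨(G1, (D1, G3)), hunf, ?_⟩
      have n1 : G1 ≠ [] := by
        obtain ⟨u, u1, u3⟩ := h.hX hG1
        have : 1 ≤ 2 ^ (k + 5) := Nat.one_le_two_pow
        exact Brd_ne_nil u3 (by omega)
      have n2 : D1 ≠ [] := by
        obtain ⟨u, u1, u2, u3⟩ := hD
        exact Brd_ne_nil u3 u1
      have n3 : G3 ≠ [] := by
        obtain ⟨u, u1, u3⟩ := h.hW hG3
        have := h.hD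
        exact Brd_ne_nil u3 (by omega)
      rw [if_pos (⟨hG1, ⟨hD, f1⟩, hG3, f2⟩ : _ ∧ _ ∧ _)]
      show wE g * (q g * Φ g) ≤ wE G1 * (wE D1 * ((q G1 * (if a ≤ hgt G1 ∧ hgt G1 ≤ a + hgt D1 then 1 else 0)) *
        (wE G3 * Φ G3)))
      rw [if_pos ⟨i1, i2⟩, mul_one]
      have h1 : wE g ≤ wE G1 * (wE D1 * wE G3) := by
        rw [← hunf]
        exact wE_unf3 n1 n2 n3
      have hq : q g ≤ q G1 := by
        have := hq2 G1 hG1 D1 G3 (by rw [hunf]; exact hgW)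
        rw [hunf] at this
        exact this
      have h2 : Φ g ≤ Φ G3 := by
        obtain ⟨s', hs'⟩ : ∃ s', g = s' ++ G3 := by
          refine ⟨G1.dropLast ++ (!lst G1) :: (!lst G1) :: (D1.dropLast ++ [(!lst D1), (!lst D1)]), ?_⟩
          rw [← hunf]
          show G1.dropLast ++ (!lst G1) :: (!lst G1) :: (D1.dropLast ++ (!lst D1) :: (!lst D1) :: G3) = _
          simp [List.append_assoc]
        rw [hs']
        refine hΦ.suf s' G3 (h.hW hG3) ?_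
        rw [← hs']
        exact h.hG hgW
      calc wE g * (q g * Φ g) ≤ (wE G1 * (wE D1 * wE G3)) * (q G1 * Φ G3) := by gcongr
        _ = _ := by ring

open Classical in
/-- average over the levels of the window [A1, A2) -/
theorem step_avg {k A1 A2 D : ℕ} {G X W : Set (List Bool)} (h : Stp k A1 A2 D G X W) {Φ : List Bool → ℝ≥0∞} (hΦ : HerD D Φ)
    {q : List Bool → ℝ≥0∞} (hq1 : ∀ x ∈ X, ∀ y ∈ W, x ++ y ∈ G → q (x ++ y) ≤ q x)
    (hq2 : ∀ x ∈ X, ∀ y z, unf [x, y, z] ∈ G → q (unf [x, y, z]) ≤ q x) :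
    ((A2 - A1 : ℕ) : ℝ≥0∞) * Rec8.sw G (fun g => q g * Φ g) ≤
      Rec8.sw X (fun x => q x * (257 * Rec8.sw W Φ)) +
      ∑ j ∈ Ico 4 (k + 5), 2 ^ (j + 1) * Rec8.sw X (fun x => q x * ZZ j W Φ x) := by
  have h1 : ∀ a ∈ Ico A1 A2, Rec8.sw G (fun g => q g * Φ g) ≤
      Rec8.sw X (fun x => q x * ((if hgt x = a then 1 else 0) * Rec8.sw W Φ)) +
      Rec8.sw X (fun x => q x * Rec8.sw {y | y ∈ SBr (k + 5) ∧ LFold x y}
        (fun y => (if a ≤ hgt x ∧ hgt x ≤ a + hgt y then 1 else 0) * Rec8.sw {z | z ∈ W ∧ LFold y z} Φ)) := by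
    intro a ha
    rw [Finset.mem_Ico] at ha
    exact step_a h hΦ ha.1 ha.2 hq1 hq2
  have h2 := Finset.sum_le_sum h1
  rw [Finset.sum_const, nsmul_eq_mul, Nat.card_Ico, Finset.sum_add_distrib, ← Rec8.sw_sum, ← Rec8.sw_sum] at h2
  refine h2.trans ?_
  have h3 : Rec8.sw X (fun x => ∑ a ∈ Ico A1 A2, q x * ((if hgt x = a then 1 else 0) * Rec8.sw W Φ)) ≤
      Rec8.sw X (fun x => q x * Rec8.sw W Φ) := by
    refine Rec8.sw_mono' fun x _ => ?_
    rw [← Finset.mul_sum, ← Finset.sum_mul]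
    have h4 : ∑ a ∈ Ico A1 A2, (if hgt x = a then (1 : ℝ≥0∞) else 0) ≤ 1 := by
      rw [Finset.sum_ite_eq]
      split_ifs
      · exact le_rfl
      · exact zero_le
    refine mul_le_mul_right ?_ _
    calc (∑ a ∈ Ico A1 A2, (if hgt x = a then (1 : ℝ≥0∞) else 0)) * Rec8.sw W Φ ≤
          1 * Rec8.sw W Φ := mul_le_mul_left h4 _
      _ = _ := one_mul _
  have h5 : Rec8.sw X (fun x => ∑ a ∈ Ico A1 A2, q x * Rec8.sw {y | y ∈ SBr (k + 5) ∧ LFold x y}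
        (fun y => (if a ≤ hgt x ∧ hgt x ≤ a + hgt y then 1 else 0) * Rec8.sw {z | z ∈ W ∧ LFold y z} Φ)) ≤
      Rec8.sw X (fun x => q x * (256 * Rec8.sw W Φ) + ∑ j ∈ Ico 4 (k + 5), 2 ^ (j + 1) * (q x * ZZ j W Φ x)) := by
    refine Rec8.sw_mono' fun x hx => ?_
    rw [← Finset.mul_sum, ← Rec8.sw_sum]
    have hxH : x ∈ HB (2 ^ (k + 5)) := h.hX hx
    have h8 : Rec8.sw {y | y ∈ SBr (k + 5) ∧ LFold x y} (fun y => ∑ a ∈ Ico A1 A2,
        (if a ≤ hgt x ∧ hgt x ≤ a + hgt y then 1 else 0) * Rec8.sw {z | z ∈ W ∧ LFold y z} Φ) ≤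
        256 * Rec8.sw W Φ + ∑ j ∈ Ico 4 (k + 5), 2 ^ (j + 1) * ZZ j W Φ x := by
      refine le_trans (Rec8.sw_mono' fun y _ => ?_) (dyadic hxH)
      rw [← Finset.sum_mul]
      gcongr
      rw [← Finset.sum_filter, Finset.sum_const, nsmul_eq_mul, mul_one]
      have := card_win A1 A2 (hgt x) (hgt y)
      have h6 : (((Ico A1 A2).filter (fun a => a ≤ hgt x ∧ hgt x ≤ a + hgt y)).card : ℝ≥0∞) ≤
          ((hgt y + 1 : ℕ) : ℝ≥0∞) := by exact_mod_cast this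
      push_cast at h6
      exact h6
    refine (mul_le_mul_right h8 _).trans (le_of_eq ?_)
    rw [mul_add, Finset.mul_sum]
    congr 1
    exact Finset.sum_congr rfl fun j _ => by ring
  refine (add_le_add h3 h5).trans (le_of_eq ?_)
  rw [Rec8.sw_add, Rec8.sw_sum, ← add_assoc]
  congr 1
  · rw [← Rec8.sw_add]
    refine Rec8.sw_congr fun x _ => ?_
    have : (257 : ℝ≥0∞) = 1 + 256 := by norm_num
    rw [this, add_mul, one_mul, mul_add]
  · exact Finset.sum_congr rfl fun j _ => Rec8.sw_mul_left _ _ _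

/-- what the free part uses of the start weight q: the number y -/
structure QX (K0 : ℝ) (D : ℕ) (q : List Bool → ℝ≥0∞) (y : ℝ≥0∞) : Prop where
  cut : ∀ x ∈ HB D, ∀ z ∈ BU, q (x ++ z) ≤ q x
  zig : ∀ x ∈ HB D, ∀ z w, unf [x, z, w] ∈ HB D → q (unf [x, z, w]) ≤ q x
  tot : ∀ (D1 k1 N : ℕ) (F : List Bool → ℝ≥0∞), Hered F → 2 ^ (k1 + 4) ≤ D1 → D1 ≤ D →
    Rec8.sw (BrR D N) (fun g => q g * F g) ≤ ENNReal.ofReal (K0 * UU N) * (y * xT D1 k1 F)

/-- the norm of one window -/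
theorem norm_GW : ∃ Ka : ℝ, 1 ≤ Ka ∧ ∀ K : ℝ, Ka ≤ K → ∃ s : ℕ, 6 ≤ s ∧
    ∀ (kc J n k z : ℕ) (Φ q : List Bool → ℝ≥0∞) (x y : ℝ≥0∞), DX K K (2 ^ (kc + 4)) Φ x → QX K (2 ^ (kc + 4)) q y →
    k + 5 ≤ kc → n * 2 ^ (k + s) ≤ 2 ^ kc → k + s ≤ kc → 2 ≤ J → 15 ≤ z →
    xT (2 ^ (kc + 4)) kc (vA (2 ^ (kc + 4)) (GW k kc (2 ^ (kc + J)) z) Φ) ≤
      ENNReal.ofReal ((K + K) * 4 ^ J / 4 ^ n) * x ∧
    Rec8.sw (GW k kc (2 ^ (kc + J)) z) (fun g => q g * Φ g) ≤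
      ENNReal.ofReal ((K + K) * 4 ^ J / 4 ^ n * Ub kc) * (y * x) := by
  obtain ⟨C, δ, hInp⟩ := inp_exists
  obtain ⟨Ka, hKa, htot0⟩ := totH hInp
  obtain ⟨Kb, hKb, htwo0⟩ := two_scale
  obtain ⟨K2, hK2, hnA⟩ := nA hInp
  refine ⟨Ka + Kb, by linarith, fun K0 hKK => ?_⟩
  have hK0 : 1 ≤ K0 := by linarith
  obtain ⟨K1, hK10⟩ : ∃ K1, K1 = K0 := ⟨_, rfl⟩
  have hK1 : 1 ≤ K1 := by rw [hK10]; exact hK0
  have htot : ∀ (D N k : ℕ) (Φ : List Bool → ℝ≥0∞), Hered Φ → 2 ^ (k + 4) ≤ D →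
      Rec8.sw (BrR D N) Φ ≤ ENNReal.ofReal (K0 * UU N) * xT D k Φ := fun D N k Φ h1 h2 =>
    (htot0 D N k Φ h1 h2).trans (mul_le_mul_left (ENNReal.ofReal_le_ofReal
      (mul_le_mul_of_nonneg_right (by linarith) (Num2Aux.UU_pos N).le)) _)
  have htwo : ∀ (D0 k0 D1 k1 E N : ℕ) (Φ : List Bool → ℝ≥0∞), Hered Φ → 2 ^ (k0 + 4) ≤ D0 →
      2 ^ (k1 + 4) ≤ D1 → D0 ≤ E → D1 ≤ E → E ≤ N →
      xT D0 k0 (vA D0 (BrR E N) Φ) ≤ ENNReal.ofReal (K1 * (UU N / Ub k0)) * xT D1 k1 Φ :=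
    fun D0 k0 D1 k1 E N Φ h1 h2 h3 h4 h5 h6 =>
    (htwo0 D0 k0 D1 k1 E N Φ h1 h2 h3 h4 h5 h6).trans (mul_le_mul_left (ENNReal.ofReal_le_ofReal
      (mul_le_mul_of_nonneg_right (by rw [hK10]; linarith) (div_nonneg (Num2Aux.UU_pos N).le (Ub_pos k0).le))) _)
  obtain ⟨s, hs, hnum⟩ := link_num (K0 + K1) K2 (by linarith) hK2
  refine ⟨s, hs, ?_⟩
  intro kc J n k z Φ q x y hΦX hq hk hn hks hJ hz
  have hΦ : HerD (2 ^ (kc + 4)) Φ := hΦX.her
  rw [show K0 + K0 = K0 + K1 by rw [hK10]]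
  have hΦX' : DX K0 K1 (2 ^ (kc + 4)) Φ x := by
    rw [hK10]
    exact hΦX
  obtain ⟨N, hN⟩ : ∃ N, N = 2 ^ (kc + J) := ⟨_, rfl⟩
  obtain ⟨D, hD⟩ : ∃ D, D = 2 ^ (kc + 4) := ⟨_, rfl⟩
  obtain ⟨c, hc⟩ : ∃ c, c = 2 ^ kc := ⟨_, rfl⟩
  have hD16 : D = 16 * c := by
    rw [hD, hc, pow_add]
    ring
  have hc1 : 1 ≤ c := by
    rw [hc]
    exact Nat.one_le_two_pow
  rw [← hN, ← hD]
  rw [← hD] at hΦ hq hΦX hΦX'
  rcases Nat.lt_or_ge N ((z + 19) * c) with hzN | hzN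
  · -- the set is empty
    have h0 : GW k kc N z = ∅ := by
      ext g
      constructor
      · rintro ⟨h, h1, h2, -⟩
        rw [← hc] at h1
        omega
      · intro h
        exact h.elim
    have h1 : ∀ t, vA D (GW k kc N z) Φ t = 0 := by
      intro t
      unfold vA
      rw [Rec8.sw_ind, ENNReal.tsum_eq_zero]
      intro g
      rw [if_neg]
      rintro ⟨h, -⟩
      rw [h0] at h
      exact h
    constructor
    · refine xT_le fun b I _ _ => ?_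
      simp only [h1]
      rw [Rec8.sw_zero]
      exact zero_le
    · rw [h0, Rec8.sw_ind]
      simp
  -- numbers
  have z19 : (z + 19) * c = z * c + 19 * c := by ring
  have z1 : (z + 1) * c = z * c + c := by ring
  have z3 : (z + 3) * c = z * c + 3 * c := by ring
  have hzc : 15 * c ≤ z * c := Nat.mul_le_mul_right _ hz
  have hUk := Ub_pos kc
  have hUN : 0 < UU N := Num2Aux.UU_pos _
  have hnA' : ∀ (i : ℕ) (Ψ : List Bool → ℝ≥0∞), Hered Ψ → xT (2 ^ (i + 4)) i (vA (2 ^ (i + 4)) (BrR (2 ^ (i + 4)) (2 ^ (i + 4 + 1))) Ψ) ≤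
      ENNReal.ofReal (32 * K2) * xT (2 ^ (i + 4)) i Ψ := by
    intro i Ψ hΨ
    have h1 := hnA (2 ^ (i + 4)) (2 ^ (i + 4 + 1)) i LFold 32 Ψ hΨ RNb_LFold le_rfl (by norm_num) (by
      have h2 := UU_ratio_up i 5
      have e : (32 : ℝ) = 2 ^ 5 := by norm_num
      rw [e]
      exact h2)
    rw [mul_comm K2 32] at h1
    exact h1
  have hlk : 0 ≤ lk k K2 := lk_nonneg k hK2
  have hnum1 : (K0 + K1) * UU (4 * 2 ^ (k + s)) * (64 * lk k K2) ≤ 2 ^ (k + s) := by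
    refine le_trans ?_ (hnum k)
    have hU4 : 0 < UU (4 * 2 ^ (k + s)) := Num2Aux.UU_pos _
    apply mul_le_mul_of_nonneg_left _ (by positivity)
    show 64 * lk k K2 ≤ 84 * lk k K2
    linarith
  have hPV := PVX_all hK0 hK1 hK2 htot htwo hnA' (k := k) (s := s) (E := D) (N := N) (D := D) hs
    (by rw [hD]; exact Nat.pow_le_pow_right (by norm_num) (by omega)) le_rfl (by omega) hnum1 hΦX'
    (M := 64 * ((K0 + K1) * UU N)) le_rfl n
  have hstp := stp_GW (s := s) (N := N) (z := z) hk hn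
  rw [← hD, ← hc] at hstp
  obtain ⟨W, hW⟩ : ∃ W, W = VW k s D N n := ⟨_, rfl⟩
  obtain ⟨X, hX⟩ : ∃ X, X = BrR ((z + 1) * c) ((z + 3) * c) := ⟨_, rfl⟩
  rw [← hW, ← hX] at hstp
  obtain ⟨m, hm⟩ : ∃ m, m = 64 * ((K0 + K1) * UU N) / 4 ^ n := ⟨_, rfl⟩
  have hm0 : 0 ≤ m := by rw [hm]; positivity
  have hcard : (((z + 2) * c - (z + 1) * c : ℕ) : ℝ≥0∞) = 2 ^ kc := by
    have : (z + 2) * c - (z + 1) * c = 2 ^ kc := by
      have z2 : (z + 2) * c = z * c + 2 * c := by ring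
      omega
    rw [this]
    push_cast
    rfl
  have ih1 : ∀ i, i ≤ k → xT (2 ^ (i + 4)) i (vA (2 ^ (i + 4)) W Φ) ≤ ENNReal.ofReal (m / Ub i) * x := by
    intro i hi
    rw [hW, hm]
    exact hPV.near i hi
  have ih2 : Rec8.sw W Φ ≤ ENNReal.ofReal m * x := by
    rw [hW, hm]
    exact hPV.free
  have hK : 0 ≤ (K0 + K1) * UU N := by positivity
  have hi4 : ∀ i, i ≤ k → 2 ^ (i + 4) ≤ D := fun i hi => by
    rw [hD]
    exact Nat.pow_le_pow_right (by norm_num) (by omega)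
  have hU3 : UU ((z + 3) * c) ≤ UU N := UU_mono (by omega)
  have hU30 : 0 < UU ((z + 3) * c) := Num2Aux.UU_pos _
  -- the final number
  have hfin : (K0 + K1) * UU N * lk k K2 * m ≤ 2 ^ kc * ((K0 + K1) * 4 ^ J / 4 ^ n * Ub kc) := by
    obtain ⟨q, hq⟩ : ∃ q, kc + J = k + s + 2 + q := ⟨kc + J - (k + s + 2), by omega⟩
    have h1 : UU N ≤ 2 ^ q * UU (4 * 2 ^ (k + s)) := by
      have h2 := UU_ratio_up (k + s + 2) q
      have e : 4 * 2 ^ (k + s) = 2 ^ (k + s + 2) := by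
        rw [pow_add _ (k + s) 2]
        ring
      rw [e, hN, hq]
      exact h2
    have h2 : UU N ≤ 2 ^ J * Ub kc := by
      rw [hN]
      exact UU_ratio_up kc J
    have h3 : (K0 + K1) * UU N * (64 * lk k K2) ≤ 2 ^ q * 2 ^ (k + s) := by
      calc (K0 + K1) * UU N * (64 * lk k K2) ≤ (K0 + K1) * (2 ^ q * UU (4 * 2 ^ (k + s))) * (64 * lk k K2) := by gcongr
        _ = 2 ^ q * ((K0 + K1) * UU (4 * 2 ^ (k + s)) * (64 * lk k K2)) := by ring
        _ ≤ _ := by gcongr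
    have h4 : (2 : ℝ) ^ q * 2 ^ (k + s) ≤ 2 ^ kc * 2 ^ J := by
      rw [← pow_add, ← pow_add, hq]
      exact pow_le_pow_right₀ (by norm_num) (by omega)
    calc (K0 + K1) * UU N * lk k K2 * m = ((K0 + K1) * UU N * (64 * lk k K2)) * ((K0 + K1) * UU N / 4 ^ n) := by
          rw [hm]
          ring
      _ ≤ (2 ^ kc * 2 ^ J) * ((K0 + K1) * (2 ^ J * Ub kc) / 4 ^ n) := by
          refine mul_le_mul (h3.trans h4) ?_ (by positivity) (by positivity)
          gcongr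
      _ = _ := by
          have e : (4 : ℝ) ^ J = 2 ^ J * 2 ^ J := by
            rw [← mul_pow]
            norm_num
          rw [e]
          ring
  have hc0 : (2 : ℝ≥0∞) ^ kc ≠ 0 := by positivity
  have hct : (2 : ℝ≥0∞) ^ kc ≠ ⊤ := ENNReal.pow_ne_top (by norm_num)
  constructor
  · have hstep : ∀ t, 2 ^ kc * vA D (GW k kc N z) Φ t ≤
        vA D X (fun _ => 257 * Rec8.sw W Φ) t + ∑ j ∈ Ico 4 (k + 5), 2 ^ (j + 1) * vA D X (ZZ j W Φ) t := by
      intro t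
      have h0 := NTm.step_avg hstp hΦ (fun g => RT D LFold t g)
        (fun x y ⟨Z, z1, z2, z3⟩ => ⟨Z, z1, z2, LFold_pre z3⟩)
        (fun x y z hx ⟨Z, z1, z2, z3⟩ => ⟨Z, z1, z2, LFold_fst hx z3⟩)
      rw [hcard] at h0
      exact h0
    have h1 : 2 ^ kc * xT D kc (vA D (GW k kc N z) Φ) ≤
        xT D kc (vA D X (fun _ => 257 * Rec8.sw W Φ)) +
        ∑ j ∈ Ico 4 (k + 5), 2 ^ (j + 1) * xT D kc (vA D X (ZZ j W Φ)) := by
      have h2 : vA D (GW k kc N z) Φ = fun t => (2 ^ kc)⁻¹ * (2 ^ kc * vA D (GW k kc N z) Φ t) := by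
        funext t
        rw [← mul_assoc, ENNReal.inv_mul_cancel hc0 hct, one_mul]
      have h3 : xT D kc (vA D (GW k kc N z) Φ) ≤ (2 ^ kc)⁻¹ *
          xT D kc (fun t => 2 ^ kc * vA D (GW k kc N z) Φ t) := by
        conv_lhs => rw [h2]
        exact xT_smul _ _ _ _
      calc 2 ^ kc * xT D kc (vA D (GW k kc N z) Φ) ≤
            2 ^ kc * ((2 ^ kc)⁻¹ * xT D kc (fun t => 2 ^ kc * vA D (GW k kc N z) Φ t)) := by
            gcongr
        _ = xT D kc (fun t => 2 ^ kc * vA D (GW k kc N z) Φ t) := by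
            rw [← mul_assoc, ENNReal.mul_inv_cancel hc0 hct, one_mul]
        _ ≤ _ := by
            refine (xT_mono hstep).trans ((xT_add _ _ _ _).trans (add_le_add le_rfl ?_))
            refine (xT_sum _ _ _ _).trans (Finset.sum_le_sum fun j _ => ?_)
            exact xT_smul _ _ _ _
    apply le_of_mul (k := kc) (s := 0)
    refine h1.trans ?_
    have h5 := link (k := k) (W := W) (Φ := Φ) (x := x) (m := m) (K1 := (K0 + K1) * UU N) (K2 := K2)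
      (κ := 1 / Ub kc) hm0 hK hK2 (by positivity) ih1 ih2 hnA'
      (X := xT D kc (vA D X (fun _ => 257 * Rec8.sw W Φ)))
      (Z := fun j => xT D kc (vA D X (ZZ j W Φ))) ?_ ?_
    · refine h5.trans (fin_link ?_)
      have h6 : (K0 + K1) * UU N * lk k K2 * (m * (1 / Ub kc)) = (K0 + K1) * UU N * lk k K2 * m / Ub kc := by ring
      rw [h6, div_le_iff₀ hUk]
      refine hfin.trans (le_of_eq ?_)
      rw [add_zero]
      ring
    · rw [hX]
      refine (htwo D kc D kc ((z + 1) * c) ((z + 3) * c) _ (fun _ _ _ => le_rfl) (by rw [hD]) (by rw [hD])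
        (by omega) (by omega) (by omega)).trans ?_
      refine mul_le_mul' (ENNReal.ofReal_le_ofReal ?_) (xT_const _ _ _)
      rw [mul_div_assoc', mul_one_div]
      apply div_le_div_of_nonneg_right _ hUk.le
      exact mul_le_mul (by linarith) hU3 hU30.le (by positivity)
    · intro j hj
      rw [hX]
      refine (htwo D kc (2 ^ (j + 4)) j ((z + 1) * c) ((z + 3) * c) _ (hered_vA _ _ _) (by rw [hD]) le_rfl
        (by omega) (by have := hi4 j hj; omega) (by omega)).trans ?_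
      refine mul_le_mul_left (ENNReal.ofReal_le_ofReal ?_) _
      rw [mul_div_assoc', mul_one_div]
      apply div_le_div_of_nonneg_right _ hUk.le
      exact mul_le_mul (by linarith) hU3 hU30.le (by positivity)
  · have hXD : X ⊆ BrR D N := by
      intro u hu
      rw [hX] at hu
      obtain ⟨v, v1, v2, v3⟩ := hu
      exact ⟨v, by omega, by omega, v3⟩
    have hXB : X ⊆ HB D := fun u hu => by
      obtain ⟨v, v1, v2, v3⟩ := hXD hu
      exact ⟨v, v1, v3⟩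
    have hGB : GW k kc N z ⊆ HB D := fun u hu => by
      obtain ⟨v, v1, v2, v3, -⟩ := hu
      rw [← hc] at v1
      exact ⟨v, by omega, v3⟩
    have h1 := GX.step_avg hstp hΦ (q := q) (fun u hu v hv _ => hq.cut u (hXB hu) v (by
      obtain ⟨w, w1, w3⟩ := hstp.hW hv
      exact ⟨w, w3⟩)) (fun u hu v w huw => hq.zig u (hXB hu) v w (hGB huw))
    rw [hcard] at h1
    apply le_of_mul (k := kc) (s := 0)
    refine h1.trans ?_
    have h5 := link (k := k) (W := W) (Φ := Φ) (x := x) (m := m) (K1 := (K0 + K1) * UU N) (K2 := K2)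
      (κ := 1) hm0 hK hK2 (by norm_num) ih1 ih2 hnA'
      (X := ENNReal.ofReal ((K0 + K1) * UU N * 1) * (2 * (257 * Rec8.sw W Φ)))
      (Z := fun j => ENNReal.ofReal ((K0 + K1) * UU N * 1) * xT (2 ^ j) (j - 4) (ZZ j W Φ)) le_rfl
      (fun i _ => by rw [Nat.add_sub_cancel])
    have hXq : Rec8.sw X (fun x => q x * (257 * Rec8.sw W Φ)) ≤
        y * (ENNReal.ofReal ((K0 + K1) * UU N * 1) * (2 * (257 * Rec8.sw W Φ))) := by
      refine (Rec8.sw_mono hXD fun _ _ => le_rfl).trans ?_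
      refine (hq.tot D kc N (fun _ => 257 * Rec8.sw W Φ) (fun _ _ _ => le_rfl) (by rw [hD]) le_rfl).trans ?_
      rw [mul_left_comm]
      refine mul_le_mul_right (mul_le_mul' (ENNReal.ofReal_le_ofReal ?_) (xT_const _ _ _)) _
      rw [mul_one]
      exact mul_le_mul_of_nonneg_right (by linarith) hUN.le
    have hZq : ∀ j ∈ Ico 4 (k + 5), Rec8.sw X (fun x => q x * ZZ j W Φ x) ≤
        y * (ENNReal.ofReal ((K0 + K1) * UU N * 1) * xT (2 ^ j) (j - 4) (ZZ j W Φ)) := by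
      intro j hj
      rw [Finset.mem_Ico] at hj
      obtain ⟨i, rfl⟩ : ∃ i, j = i + 4 := ⟨j - 4, by omega⟩
      rw [Nat.add_sub_cancel]
      refine (Rec8.sw_mono hXD fun _ _ => le_rfl).trans ?_
      refine (hq.tot (2 ^ (i + 4)) i N (ZZ (i + 4) W Φ) (hered_vA _ _ _) le_rfl (hi4 i (by omega))).trans ?_
      rw [mul_left_comm]
      refine mul_le_mul_right (mul_le_mul' (ENNReal.ofReal_le_ofReal ?_) le_rfl) _
      rw [mul_one]
      exact mul_le_mul_of_nonneg_right (by linarith) hUN.le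
    calc Rec8.sw X (fun x => q x * (257 * Rec8.sw W Φ)) +
          ∑ j ∈ Ico 4 (k + 5), 2 ^ (j + 1) * Rec8.sw X (fun x => q x * ZZ j W Φ x)
        ≤ y * (ENNReal.ofReal ((K0 + K1) * UU N * 1) * (2 * (257 * Rec8.sw W Φ))) +
          ∑ j ∈ Ico 4 (k + 5), 2 ^ (j + 1) *
            (y * (ENNReal.ofReal ((K0 + K1) * UU N * 1) * xT (2 ^ j) (j - 4) (ZZ j W Φ))) :=
          add_le_add hXq (Finset.sum_le_sum fun j hj => mul_le_mul_right (hZq j hj) _)
      _ = y * (ENNReal.ofReal ((K0 + K1) * UU N * 1) * (2 * (257 * Rec8.sw W Φ)) +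
          ∑ j ∈ Ico 4 (k + 5), 2 ^ (j + 1) *
            (ENNReal.ofReal ((K0 + K1) * UU N * 1) * xT (2 ^ j) (j - 4) (ZZ j W Φ))) := by
          rw [mul_add, Finset.mul_sum]
          congr 1
          exact Finset.sum_congr rfl fun j _ => by ring
      _ ≤ y * (ENNReal.ofReal ((K0 + K1) * UU N * lk k K2 * (m * 1)) * x) := mul_le_mul_right h5 _
      _ = ENNReal.ofReal ((K0 + K1) * UU N * lk k K2 * (m * 1)) * (y * x) := mul_left_comm _ _ _
      _ ≤ _ := by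
          refine fin_link ?_
          rw [mul_one, add_zero]
          exact hfin

/-- the norm of all windows -/
theorem norm_GU : ∃ Ka : ℝ, 1 ≤ Ka ∧ ∀ K : ℝ, Ka ≤ K → ∃ s : ℕ, 6 ≤ s ∧
    ∀ (kc J n k : ℕ) (Φ q : List Bool → ℝ≥0∞) (x y : ℝ≥0∞), DX K K (2 ^ (kc + 4)) Φ x → QX K (2 ^ (kc + 4)) q y →
    k + 5 ≤ kc → n * 2 ^ (k + s) ≤ 2 ^ kc → k + s ≤ kc → 2 ≤ J →
    xT (2 ^ (kc + 4)) kc (vA (2 ^ (kc + 4)) (GU k kc (2 ^ (kc + J))) Φ) ≤
      ENNReal.ofReal ((K + K) * 8 ^ J / 4 ^ n) * x ∧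
    Rec8.sw (GU k kc (2 ^ (kc + J))) (fun g => q g * Φ g) ≤
      ENNReal.ofReal ((K + K) * 8 ^ J / 4 ^ n * Ub kc) * (y * x) := by
  obtain ⟨Ka, hKa, h'⟩ := norm_GW
  refine ⟨Ka, hKa, fun K0 hK0 => ?_⟩
  obtain ⟨s, hs, h⟩ := h' K0 hK0
  refine ⟨s, hs, ?_⟩
  intro kc J n k Φ q x y hΦ hq h1 h2 h3 h4
  obtain ⟨K, hKK⟩ : ∃ K, K = K0 + K0 := ⟨_, rfl⟩
  have hK : 1 ≤ K := by linarith
  rw [← hKK]
  have hU := Ub_pos kc
  have hcard : (((range (2 ^ J)).filter (fun z => 15 ≤ z)).card : ℝ) ≤ 2 ^ J := by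
    have := Finset.card_filter_le (range (2 ^ J)) (fun z => 15 ≤ z)
    rw [Finset.card_range] at this
    exact_mod_cast this
  have h8 : (8 : ℝ) ^ J = 2 ^ J * 4 ^ J := by
    rw [← mul_pow]
    norm_num
  constructor
  · have hstep : ∀ t, vA (2 ^ (kc + 4)) (GU k kc (2 ^ (kc + J))) Φ t ≤
        ∑ z ∈ (range (2 ^ J)).filter (fun z => 15 ≤ z), vA (2 ^ (kc + 4)) (GW k kc (2 ^ (kc + J)) z) Φ t := fun t =>
      GU_sw _ Φ
    refine (xT_mono hstep).trans ((xT_sum _ _ _ _).trans ?_)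
    calc ∑ z ∈ (range (2 ^ J)).filter (fun z => 15 ≤ z), xT (2 ^ (kc + 4)) kc (fun t => vA (2 ^ (kc + 4)) (GW k kc (2 ^ (kc + J)) z) Φ t)
        ≤ ∑ z ∈ (range (2 ^ J)).filter (fun z => 15 ≤ z), ENNReal.ofReal (K * 4 ^ J / 4 ^ n) * x := by
          refine Finset.sum_le_sum fun z hz => ?_
          rw [hKK]
          exact (h kc J n k z Φ q x y hΦ hq h1 h2 h3 h4 (Finset.mem_filter.1 hz).2).1
      _ = ENNReal.ofReal ((((range (2 ^ J)).filter (fun z => 15 ≤ z)).card : ℝ) * (K * 4 ^ J / 4 ^ n)) *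
          x := by
          rw [Finset.sum_const, nsmul_eq_mul, ENNReal.ofReal_mul (Nat.cast_nonneg _), ENNReal.ofReal_natCast, mul_assoc]
      _ ≤ _ := by
          refine mul_le_mul_left (ENNReal.ofReal_le_ofReal ?_) _
          rw [h8]
          calc (((range (2 ^ J)).filter (fun z => 15 ≤ z)).card : ℝ) * (K * 4 ^ J / 4 ^ n) ≤
                2 ^ J * (K * 4 ^ J / 4 ^ n) := by gcongr
            _ = _ := by ring
  · have e1 : Rec8.sw (GU k kc (2 ^ (kc + J))) (fun g => q g * Φ g) = Rec8.sw {g | g ∈ GU k kc (2 ^ (kc + J)) ∧ True} (fun g => q g * Φ g) := by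
      congr 1
      ext g
      simp
    have e2 : ∀ z, Rec8.sw {g | g ∈ GW k kc (2 ^ (kc + J)) z ∧ True} (fun g => q g * Φ g) = Rec8.sw (GW k kc (2 ^ (kc + J)) z) (fun g => q g * Φ g) := by
      intro z
      congr 1
      ext g
      simp
    rw [e1]
    refine (GU_sw _ (fun g => q g * Φ g)).trans ?_
    simp only [e2]
    calc ∑ z ∈ (range (2 ^ J)).filter (fun z => 15 ≤ z), Rec8.sw (GW k kc (2 ^ (kc + J)) z) (fun g => q g * Φ g)
        ≤ ∑ z ∈ (range (2 ^ J)).filter (fun z => 15 ≤ z), ENNReal.ofReal (K * 4 ^ J / 4 ^ n * Ub kc) * (y * x) := by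
          refine Finset.sum_le_sum fun z hz => ?_
          rw [hKK]
          exact (h kc J n k z Φ q x y hΦ hq h1 h2 h3 h4 (Finset.mem_filter.1 hz).2).2
      _ = ENNReal.ofReal ((((range (2 ^ J)).filter (fun z => 15 ≤ z)).card : ℝ) * (K * 4 ^ J / 4 ^ n * Ub kc)) *
          (y * x) := by
          rw [Finset.sum_const, nsmul_eq_mul, ENNReal.ofReal_mul (Nat.cast_nonneg _), ENNReal.ofReal_natCast, mul_assoc]
      _ ≤ _ := by
          refine mul_le_mul_left (ENNReal.ofReal_le_ofReal ?_) _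
          rw [h8]
          calc (((range (2 ^ J)).filter (fun z => 15 ≤ z)).card : ℝ) * (K * 4 ^ J / 4 ^ n * Ub kc) ≤
                2 ^ J * (K * 4 ^ J / 4 ^ n * Ub kc) := by gcongr
            _ = _ := by ring

end GX

end NTW

end HexObs
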