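import Pool.Agent.NTW.FoldCl
import Pool.Agent.NT.Geo

/-!
NTW: a large displacement of a self-avoiding word contains a full leaf of one of two scales, or it lies in a leaf without
small backtracks in a window (port of NT/Geo).
-/

set_option autoImplicit false

namespace HexObs

namespace NTW

open Finset TS SDN FoldA

variable {b m u : ℕ} {t : List Bool} {e : ℕ → ℕ}

namespace GeoA

lemma FoldG_mono (h : FoldG t m u e) {i j : ℕ} (hij : i ≤ j) (hj : j ≤ m) : e i ≤ e j := by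
  induction j, hij using Nat.le_induction with
  | base => exact le_refl _
  | succ j hij ih => exact le_trans (ih (by omega)) (le_of_lt (h.lt j (by omega)))

/-- a time interval contains a full leaf, or it has at most one fold -/
lemma split2 (h : FoldG t m u e) (hm : 1 ≤ m) {i j : ℕ} (hij : i ≤ j) :
    (∃ l, l < m ∧ i ≤ e l ∧ e (l + 1) ≤ j) ∨
    ∃ r, i ≤ r ∧ r ≤ j ∧ (r ≤ e 0 ∨ e m ≤ i ∨ ∃ l, l < m ∧ e l ≤ i ∧ r ≤ e (l + 1)) ∧
      (j ≤ e 0 ∨ e m ≤ r ∨ ∃ l, l < m ∧ e l ≤ r ∧ j ≤ e (l + 1)) := by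
  classical
  rcases Nat.lt_or_ge i (e 0) with h0 | h0
  · -- starts before the first fold
    rcases Nat.lt_or_ge j (e 0) with h1 | h1
    · exact Or.inr ⟨j, hij, le_rfl, Or.inl h1.le, Or.inl h1.le⟩
    · rcases Nat.lt_or_ge (e 1) j with h2 | h2
      · exact Or.inl ⟨0, by omega, h0.le, h2.le⟩
      · exact Or.inr ⟨e 0, h0.le, h1, Or.inl le_rfl, Or.inr (Or.inr ⟨0, by omega, le_rfl, h2⟩)⟩
  rcases Nat.lt_or_ge i (e m) with h1 | h1
  swap
  · exact Or.inr ⟨j, hij, le_rfl, Or.inr (Or.inl h1), Or.inr (Or.inl (h1.trans hij))⟩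
  have hP : ∃ l, i < e (l + 1) ∧ l < m := ⟨m - 1, by rw [show m - 1 + 1 = m by omega]; exact h1, by omega⟩
  obtain ⟨l, ⟨hl, hlm⟩, hmin⟩ : ∃ l, (i < e (l + 1) ∧ l < m) ∧ ∀ l', l' < l → ¬ (i < e (l' + 1) ∧ l' < m) :=
    ⟨Nat.find hP, Nat.find_spec hP, fun l' h => Nat.find_min hP h⟩
  have hli : e l ≤ i := by
    rcases Nat.eq_zero_or_pos l with h2 | h2
    · rw [h2]
      exact h0
    · have h3 := hmin (l - 1) (by omega)
      rw [show l - 1 + 1 = l by omega] at h3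
      by_contra hc
      exact h3 ⟨by omega, by omega⟩
  rcases Nat.lt_or_ge (e (l + 1)) j with h2 | h2
  · rcases Nat.lt_or_ge (l + 1) m with h3 | h3
    · rcases Nat.lt_or_ge (e (l + 1 + 1)) j with h4 | h4
      · exact Or.inl ⟨l + 1, h3, hl.le, h4.le⟩
      · exact Or.inr ⟨e (l + 1), hl.le, h2.le, Or.inr (Or.inr ⟨l, hlm, hli, le_rfl⟩), Or.inr (Or.inr ⟨l + 1, h3, le_rfl, h4⟩)⟩
    · have h4 : l + 1 = m := by omega
      exact Or.inr ⟨e (l + 1), hl.le, h2.le, Or.inr (Or.inr ⟨l, hlm, hli, le_rfl⟩), Or.inr (Or.inl (by rw [h4]))⟩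
  · exact Or.inr ⟨j, hij, le_rfl, Or.inr (Or.inr ⟨l, hlm, hli, h2⟩), Or.inr (Or.inr ⟨l, hlm, hli.trans hij, h2⟩)⟩

/-- the same with a displacement -/
lemma split_disp2 (h : Fd b t m u e) {i j : ℕ} (hij : i ≤ j) (hj : j ≤ t.length) {Y : ℤ} (hR : RR b ≤ Y)
    (hY : 2 * Y ≤ |lev t j - lev t i|) :
    (∃ l, l < m ∧ i ≤ e l ∧ e (l + 1) ≤ j) ∨
    ∃ i' j', i ≤ i' ∧ i' ≤ j' ∧ j' ≤ j ∧ Y ≤ |lev t j' - lev t i'| ∧ ∃ l, l < m ∧ e l ≤ i' ∧ j' ≤ e (l + 1) := by
  obtain ⟨hm, hG, hbig, hsm, hst, hfin⟩ := h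
  have hpiece : ∀ x y, x ≤ y → y ≤ t.length → (y ≤ e 0 ∨ e m ≤ x ∨ ∃ l, l < m ∧ e l ≤ x ∧ y ≤ e (l + 1)) →
      Y ≤ |lev t y - lev t x| → ∃ l, l < m ∧ e l ≤ x ∧ y ≤ e (l + 1) := by
    intro x y hxy hy h1 h2
    rcases h1 with h1 | h1 | h1
    · exfalso
      have h3 := hst x y (by omega) h1
      have h4 := hst y x h1 (by omega)
      rw [le_abs] at h2
      omega
    · exfalso
      have h3 := hfin x y h1 (by omega) (by omega) hy
      have h4 := hfin y x (by omega) hy h1 (by omega)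
      rw [le_abs] at h2
      omega
    · exact h1
  rcases split2 hG hm hij with h1 | ⟨r, r1, r2, r3, r4⟩
  · exact Or.inl h1
  right
  have h3 : |lev t j - lev t i| ≤ |lev t j - lev t r| + |lev t r - lev t i| := by
    have h4 : lev t j - lev t i = (lev t j - lev t r) + (lev t r - lev t i) := by ring
    rw [h4]
    exact abs_add_le _ _
  rcases le_or_gt Y |lev t r - lev t i| with h4 | h4
  · exact ⟨i, r, le_rfl, r1, r2, h4, hpiece i r r1 (by omega) r3 h4⟩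
  · have h5 : Y ≤ |lev t j - lev t r| := by omega
    exact ⟨r, j, r1, r2, le_rfl, h5, hpiece r j r2 hj r4 h5⟩

/-- a crossing without small backtracks of a bridge without large backtracks gives a window (sharper than NT) -/
lemma window2 {kc k h : ℕ} {g : List Bool} (hg : g ∈ Brd h) (hc : g ∈ CL (kc + 5)) {p p' : ℕ} (hp : p ≤ p')
    (hp' : p' ≤ g.length) (hd : 204 * (2 : ℤ) ^ kc - 4 ≤ lev g p' - lev g p)
    (hs : ∀ i i', p ≤ i → i ≤ i' → i' ≤ p' → lev g i - lev g i' < RR (k + 5)) :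
    ∃ z, 15 ≤ z ∧ (z + 19) * 2 ^ kc ≤ h ∧ NTm.Win (k + 5) (z * 2 ^ kc) ((z + 3) * 2 ^ kc) g := by
  obtain ⟨c, hcdef⟩ : ∃ c : ℕ, c = 2 ^ kc := ⟨_, rfl⟩
  have hc1 : 1 ≤ c := by
    rw [hcdef]
    exact Nat.one_le_two_pow
  have hcz : (2 : ℤ) ^ kc = c := by
    rw [hcdef]
    push_cast
    rfl
  have hR : RR (kc + 5) = 96 * c - 2 := by
    unfold RR
    rw [pow_add, hcz]
    ring
  rw [hcz] at hd
  rw [← hcdef]
  have hy0 := (lev_range hg (i := p) (by omega)).1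
  have hyh := (lev_range hg (i := p') hp').2.1
  obtain ⟨y, hy⟩ : ∃ y : ℕ, lev g p = y := ⟨(lev g p).toNat, by omega⟩
  obtain ⟨z, hz⟩ : ∃ z : ℕ, z = (y + 96 * c - 3) / (3 * c) + 1 := ⟨_, rfl⟩
  have hz1 : y + 96 * c - 3 < 3 * (z * c) := by
    have h1 := Nat.lt_div_mul_add (a := y + 96 * c - 3) (b := 3 * c) (by omega)
    have h2 : 3 * (z * c) = (y + 96 * c - 3) / (3 * c) * (3 * c) + 3 * c := by
      rw [hz]
      ring
    omega
  have hz2 : 3 * (z * c) ≤ y + 96 * c - 3 + 3 * c := by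
    have h1 := Nat.div_mul_le_self (y + 96 * c - 3) (3 * c)
    have h2 : 3 * (z * c) = (y + 96 * c - 3) / (3 * c) * (3 * c) + 3 * c := by
      rw [hz]
      ring
    omega
  have hz3 : (z + 3) * c = z * c + 3 * c := by ring
  have hz4 : (z + 19) * c = z * c + 19 * c := by ring
  have a1 : (3 * (z * c) : ℤ) > y + 96 * c - 3 := by
    have h1 : y + 96 * c < 3 * (z * c) + 3 := by omega
    have h2 : ((y + 96 * c : ℕ) : ℤ) < ((3 * (z * c) + 3 : ℕ) : ℤ) := by exact_mod_cast h1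
    push_cast at h2
    omega
  have a2 : (3 * (z * c) : ℤ) ≤ y + 96 * c - 3 + 3 * c := by
    have h1 : 3 * (z * c) + 3 ≤ y + 96 * c + 3 * c := by omega
    have h2 : ((3 * (z * c) + 3 : ℕ) : ℤ) ≤ ((y + 96 * c + 3 * c : ℕ) : ℤ) := by exact_mod_cast h1
    push_cast at h2
    omega
  refine ⟨z, ?_, ?_, ?_⟩
  · by_contra hcon
    have h1 : z ≤ 14 := by omega
    have h2 : z * c ≤ 14 * c := Nat.mul_le_mul_right _ h1
    omega
  · rw [hz4]
    have h1 : (3 * (z * c + 19 * c) : ℤ) ≤ 3 * h := by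
      omega
    have h2 : ((z * c + 19 * c : ℕ) : ℤ) ≤ h := by
      push_cast
      omega
    exact_mod_cast h2
  · intro i i' i1 i2 i3 i4
    push_cast at i3 i4
    have i4' : lev g i' ≤ 3 * (z * c) + 9 * c := by
      refine i4.trans (le_of_eq ?_)
      ring
    have hpi : p ≤ i' := by
      by_contra hcon
      have := hc i' p (by omega) (by omega)
      rw [hR] at this
      omega
    have hpi' : i' ≤ p' := by
      by_contra hcon
      have := hc p' i' (by omega) i2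
      rw [hR] at this
      omega
    rcases Nat.lt_or_ge i p with h3 | h3
    · have h4 := hc i p h3.le (by omega)
      rw [hR] at h4
      have h6 : (1 : ℤ) ≤ (2 : ℤ) ^ (k + 5) := one_le_pow₀ (by norm_num)
      unfold RR
      omega
    · exact hs i i' h3 i1 hpi'

end GeoA

open GeoA

/-- **THE GEOMETRY: a large displacement** -/
theorem geo2 {kc k : ℕ} (hk : k ≤ kc) (h : Fd (kc + 5) t m u e) {m1 u1 : ℕ} {e1 : ℕ → ℕ} (h1 : Fd (k + 5) t m1 u1 e1)
    {i j : ℕ} (hij : i ≤ j) (hj : j ≤ t.length) (hd : 824 * (2 : ℤ) ^ kc ≤ |lev t j - lev t i|) :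
    (∃ l, l < m ∧ i ≤ e l ∧ e (l + 1) ≤ j) ∨ (∃ l, l < m1 ∧ i ≤ e1 l ∧ e1 (l + 1) ≤ j) ∨
    ∃ l, l < m ∧ ∀ g, PosL t u e l g → ∀ h, g ∈ Brd h → ∃ z, 15 ≤ z ∧ (z + 19) * 2 ^ kc ≤ h ∧
      NTm.Win (k + 5) (z * 2 ^ kc) ((z + 3) * 2 ^ kc) g := by
  have hc1 : (1 : ℤ) ≤ 2 ^ kc := one_le_pow₀ (by norm_num)
  have hR : RR (kc + 5) = 96 * 2 ^ kc - 2 := by
    unfold RR
    rw [pow_add]
    ring
  have hR1 : RR (k + 5) ≤ RR (kc + 5) := by
    unfold RR
    have : (2 : ℤ) ^ (k + 5) ≤ 2 ^ (kc + 5) := pow_le_pow_right₀ (by norm_num) (by omega)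
    omega
  rcases split_disp2 h hij hj (Y := 412 * 2 ^ kc) (by omega) (by omega) with hA | ⟨i2, j2, a1, a2, a3, a4, l, l1, l2, l3⟩
  · exact Or.inl hA
  rcases split_disp2 h1 a2 (by omega) (Y := 206 * 2 ^ kc) (by omega) (by omega) with
    hB | ⟨i3, j3, b1, b2, b3, b4, l', l1', l2', l3'⟩
  · right
    left
    obtain ⟨l', c1, c2, c3⟩ := hB
    exact ⟨l', c1, by omega, by omega⟩
  right
  right
  refine ⟨l, l1, fun g hg hh hgh => ?_⟩
  have hcl := (fd_cl h l1 hg hgh).1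
  obtain ⟨s, s1, s2, s3, s4, s5⟩ := hg
  have h_sm := h.2.2.2.1
  have h1_sm := h1.2.2.2.1
  -- the two directions agree
  have c1 := h_sm l l1 i3 j3 (by omega) b2 (by omega)
  have c2 := h1_sm l' l1' i3 j3 l2' b2 l3'
  have d1 : 206 * 2 ^ kc ≤ Tight.sg (u + l) (lev t j3 - lev t i3) := NTm.sg_abs b4 (R := RR (kc + 5)) (by
    rw [NTm.sg_sub]
    omega) (by omega)
  have d2 : 206 * 2 ^ kc ≤ Tight.sg (u1 + l') (lev t j3 - lev t i3) := NTm.sg_abs b4 (R := RR (kc + 5)) (by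
    rw [NTm.sg_sub]
    omega) (by omega)
  have hpar : Even (u + l) ↔ Even (u1 + l') := by
    unfold Tight.sg at d1 d2
    by_cases x1 : Even (u + l) <;> by_cases x2 : Even (u1 + l')
    · exact ⟨fun _ => x2, fun _ => x1⟩
    · exfalso
      rw [if_pos x1] at d1
      rw [if_neg x2] at d2
      omega
    · exfalso
      rw [if_neg x1] at d1
      rw [if_pos x2] at d2
      omega
    · exact ⟨fun h => absurd h x1, fun h => absurd h x2⟩
  have hij3 : i3 + 10 ≤ j3 := by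
    by_contra hc
    obtain ⟨n, hn⟩ : ∃ n, j3 = i3 + n := ⟨j3 - i3, by omega⟩
    have h5 := lip t i3 n
    rw [← hn] at h5
    omega
  obtain ⟨i4, hi4⟩ : ∃ i4, i4 = max i3 (s + 1) := ⟨_, rfl⟩
  have hi4a : i3 ≤ i4 ∧ s + 1 ≤ i4 ∧ i4 ≤ i3 + 2 := by
    rw [hi4]
    refine ⟨le_max_left _ _, le_max_right _ _, ?_⟩
    rw [max_le_iff]
    omega
  obtain ⟨j4, hj4⟩ : ∃ j4, j4 = min j3 (s + g.length) := ⟨_, rfl⟩
  have hj4a : j4 ≤ j3 ∧ j4 ≤ s + g.length ∧ j3 ≤ j4 + 1 := by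
    rw [hj4]
    refine ⟨min_le_left _ _, min_le_right _ _, ?_⟩
    rcases le_total j3 (s + g.length) with h5 | h5
    · rw [min_eq_left h5]
      omega
    · rw [min_eq_right h5]
      omega
  have hlev4 := (sg_le_of_abs (k := u + l) (two_step t (i := i3) (i' := i4) hi4a.1 hi4a.2.2)).1
  have hlev5 : Tight.sg (u + l) (lev t j3) ≤ Tight.sg (u + l) (lev t j4) + 2 := by
    have h5 : j3 = j4 ∨ j3 = j4 + 1 := by omega
    rcases h5 with h5 | h5
    · rw [h5]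
      omega
    · rw [h5]
      exact (sg_le_of_abs (k := u + l) (step_abs t j4)).1
  rw [NTm.sg_sub] at d1
  refine window2 hgh hcl (p := i4 - s) (p' := j4 - s) (by omega) (by omega) ?_ ?_
  · have e1 := s5 (j4 - s) (by omega) (by omega)
    have e2 := s5 (i4 - s) (by omega) (by omega)
    rw [show s + (j4 - s) = j4 by omega, NTm.sg_sub] at e1
    rw [show s + (i4 - s) = i4 by omega, NTm.sg_sub] at e2
    omega
  · intro x x' x1 x2 x3
    have e1 := s5 x (by omega) (by omega)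
    have e2 := s5 x' (by omega) (by omega)
    rw [NTm.sg_sub] at e1 e2
    have c3 := h1_sm l' l1' (s + x) (s + x') (by omega) (by omega) (by omega)
    rw [← NTm.sg_par hpar, ← NTm.sg_par hpar] at c3
    omega

end NTW

end HexObs
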