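import Pool.Agent.NTW.EventDefs
import Pool.Agent.NTW.Geo2
import Pool.Agent.NTW.FoldCl
import Pool.Agent.NTW.SeqQ
import Pool.Agent.NTW.DmJ
import Pool.Agent.NTW.GNormX
import Pool.Agent.NTW.FactsA
import Pool.Agent.NTW.FoldEx
import Pool.Agent.NT.Grow
import Pool.Agent.NT.Disp

/-!
NTW: no walk of the box has a large displacement in a short time, with an exception of small weight.
-/

set_option autoImplicit false

namespace HexObs

namespace NTW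

open Finset TS SDN

open scoped ENNReal

/-- the short leaves are a class of small norm -/
def ShortD (Dm : ℕ → ℝ≥0∞ → (List Bool → ℝ≥0∞) → Prop) : Prop := ∀ (J : ℕ) (δ : ℝ), 0 < δ →
  ∃ (d : ℝ) (k0 : ℕ), 0 < d ∧ ∀ (kc : ℕ) (x : ℝ), k0 ≤ kc → T2.Short (2 ^ (kc + J)) x d →
    SmD Dm kc (NTm.SL kc J x) δ

/-- the leaves without small backtracks in a window are a class of small norm -/
def CleanD (Dm : ℕ → ℝ≥0∞ → (List Bool → ℝ≥0∞) → Prop) : Prop := ∃ (K : ℝ) (s : ℕ), 1 ≤ K ∧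
  ∀ kc J n k : ℕ, k + 5 ≤ kc → n * 2 ^ (k + s) ≤ 2 ^ kc → k + s ≤ kc → 2 ≤ J →
    SmD Dm kc (NTm.GU k kc (2 ^ (kc + J))) (K * 8 ^ J / 4 ^ n)

theorem cleanD {C δ : ℝ} (h : Inp C δ) (hA : SsA) (h3 : Ss3) (hD : SsD) : CleanD DmJ := by
  obtain ⟨Ka, hKa, hG⟩ := GX.norm_GU
  obtain ⟨K1, hK1, h1⟩ := DmJ_dx h hA h3
  obtain ⟨K2, hK2, h2⟩ := DmJ_qx h hA hD
  obtain ⟨K, hK⟩ : ∃ K, K = max Ka (max K1 K2) := ⟨_, rfl⟩
  have k0 : Ka ≤ K := by rw [hK]; exact le_max_left _ _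
  have k1 : K1 ≤ K := by rw [hK]; exact (le_max_left _ _).trans (le_max_right _ _)
  have k2 : K2 ≤ K := by rw [hK]; exact (le_max_right _ _).trans (le_max_right _ _)
  obtain ⟨s, hs, hG⟩ := hG K k0
  refine ⟨K + K, s, by linarith, fun kc J n k hk hn hks hJ => ⟨fun x Φ hΦ => ?_, fun y x Ψ Φ hΨ hF hΦ => ?_⟩⟩
  · have hq : GX.QX K (2 ^ (kc + 4)) (fun _ => 0) 0 := by
      refine ⟨fun _ _ _ _ => le_rfl, fun _ _ _ _ _ => le_rfl, fun _ _ _ _ _ _ _ => ?_⟩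
      simp [Rec8.sw_zero]
    exact (hG kc J n k Φ _ x 0 ((h1 kc x Φ hΦ).le k1 k1) hq hk hn hks hJ).1
  · exact (hG kc J n k Φ _ x y ((h1 kc x Φ hΦ).le k1 k1) (QX_le (h2 kc y Ψ hΨ hF) k2) hk hn hks hJ).2

/-- walks of the box with a displacement of at least 824 2 ^ kc levels in the direction false in a time less than x - 1 -/
def DF2 (kc J lam : ℕ) (x : ℝ) : Set (List Bool) :=
  {t | t ∈ SAL lam ∧ t ∈ WL (kc + J) ∧ ∃ i j : ℕ, i ≤ j ∧ j ≤ t.length ∧ ((j : ℝ) - i + 1 < x) ∧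
    824 * (2 : ℤ) ^ kc ≤ |lev t j - lev t i|}

lemma lev_box {L : ℕ} {t : List Bool} (ht : t ∈ WL L) {n : ℕ} (hn : n ≤ t.length) : |lev t n| ≤ 3 * 2 ^ L + 2 := by
  have h := ht.2 n hn false
  unfold row at h
  have e : lvl false (vx oo up t n) = lev t n := rfl
  rw [e] at h
  rw [abs_le] at h ⊢
  omega

lemma PosL.len_le {t : List Bool} {u l : ℕ} {e : ℕ → ℕ} {g : List Bool} (h : PosL t u e l g) :
    g.length + e l ≤ e (l + 1) + 1 := by
  obtain ⟨s, h1, h2, h3, h4, -⟩ := h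
  omega

/-- the leaves of the fold chain of a walk of the box -/
lemma rep_box2 {b L m u : ℕ} {t : List Bool} {e : ℕ → ℕ} (hb : 1 ≤ b) (hL : 1 ≤ L)
    (hw : t ∈ WL L) (h : Fd b t m u e) {gs : List (List Bool)} (hR : RepG t m u e gs) (l : ℕ) (hl : l < m) :
    ∃ g ∈ gs, PosL t u e l g ∧ g ∈ BrR (2 ^ (b - 1)) (2 ^ (L + 2)) := by
  have hl' : l < gs.length := by rw [hR.len]; exact hl
  refine ⟨gs[l], List.getElem_mem hl', hR.pos l hl', ?_⟩
  obtain ⟨k, k1, k2⟩ := hR.brd gs[l] (List.getElem_mem hl')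
  obtain ⟨-, h3, h4'⟩ := fd_cl h hl (hR.pos l hl') k2
  have h4 := (abs_le.1 h4').2
  have hmono : ∀ a c : ℕ, a ≤ c → c ≤ m → e a ≤ e c := by
    intro a c hac hc
    induction c, hac using Nat.le_induction with
    | base => exact le_rfl
    | succ c hac ih => exact (ih (by omega)).trans (h.2.1.lt c (by omega)).le
  have hle := h.2.1.le
  have h5 := lev_box hw (show e l ≤ t.length from (hmono l m hl.le le_rfl).trans hle)
  have h6 := lev_box hw (show e (l + 1) ≤ t.length from (hmono (l + 1) m hl le_rfl).trans hle)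
  have h7 : |lev t (e (l + 1)) - lev t (e l)| ≤ 6 * 2 ^ L + 4 := by
    have := abs_sub (lev t (e (l + 1))) (lev t (e l))
    linarith
  refine ⟨k, ?_, ?_, k2⟩
  · have e1 : 2 ^ b = 2 * 2 ^ (b - 1) := by
      rw [← pow_succ']
      congr 1
      omega
    have e2 : 1 ≤ 2 ^ (b - 1) := Nat.one_le_two_pow
    omega
  · have h8 : 3 * (k : ℤ) ≤ 6 * 2 ^ L + 10 := by
      linarith [h4]
    have e3 : (2 : ℕ) ^ (L + 2) = 4 * 2 ^ L := by
      rw [pow_add]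
      ring
    have e4 : 2 ≤ 2 ^ L := by
      calc 2 = 2 ^ 1 := rfl
        _ ≤ 2 ^ L := Nat.pow_le_pow_right (by norm_num) hL
    rw [e3]
    zify
    zify at e4
    omega

lemma SmD_le {Dm : ℕ → ℝ≥0∞ → (List Bool → ℝ≥0∞) → Prop} {kc : ℕ} {S : Set (List Bool)} {δ δ' : ℝ} (h : δ ≤ δ')
    (hS : SmD Dm kc S δ) : SmD Dm kc S δ' := by
  refine ⟨fun x Φ hΦ => (hS.near x Φ hΦ).trans ?_, fun y x Ψ Φ hΨ hF hΦ => (hS.free y x Ψ Φ hΨ hF hΦ).trans ?_⟩
  · exact mul_le_mul_left (ENNReal.ofReal_le_ofReal h) _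
  · refine mul_le_mul_left (ENNReal.ofReal_le_ofReal ?_) _
    have := (Ub_pos kc).le
    gcongr

theorem disp2 {Dm : ℕ → ℝ≥0∞ → (List Bool → ℝ≥0∞) → Prop} (hev : Event2 Dm) (hsh : ShortD Dm) (hcl : CleanD Dm)
    (J : ℕ) (hJ : 6 ≤ J) {ε : ℝ} (hε : 0 < ε) : ∃ (d : ℝ) (k0 : ℕ), 0 < d ∧
    ∀ (kc lam lam' : ℕ) (x : ℝ), k0 ≤ kc → QL (kc + 8) lam' → NTm.AS x (d * Ub kc) →
    gf (DF2 kc J lam x) ≤ ENNReal.ofReal (ε * Ub (kc + J)) * bl (lam + lam' + 40) (kc + 6) ^ 2 := by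
  obtain ⟨K, s, hK, hG⟩ := hcl
  obtain ⟨δ0, k00, hδ0, hev0⟩ := hev J hJ (ε / 3) (by positivity)
  obtain ⟨n, hn⟩ : ∃ n : ℕ, K * 8 ^ (J + 2) / 4 ^ n ≤ δ0 := by
    obtain ⟨n, hn⟩ := exists_pow_lt_of_lt_one (show 0 < δ0 / (K * 8 ^ (J + 2)) by positivity)
      (show (1 / 4 : ℝ) < 1 by norm_num)
    refine ⟨n, ?_⟩
    calc K * 8 ^ (J + 2) / 4 ^ n = K * 8 ^ (J + 2) * (1 / 4) ^ n := by
          rw [one_div, inv_pow]
          rfl
      _ ≤ K * 8 ^ (J + 2) * (δ0 / (K * 8 ^ (J + 2))) := by gcongr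
      _ = δ0 := by
          field_simp
  obtain ⟨j1, hj1⟩ : ∃ j1, j1 = s + n + 5 := ⟨_, rfl⟩
  obtain ⟨δ1, k01, hδ1, hev1⟩ := hev (J + j1) (by omega) (ε / 3) (by positivity)
  obtain ⟨d0, k02, hd0, hsh0⟩ := hsh (J + 2) δ0 hδ0
  obtain ⟨d1, k03, hd1, hsh1⟩ := hsh (J + j1 + 2) δ1 hδ1
  refine ⟨min d0 d1, k00 + k01 + k02 + k03 + j1, lt_min hd0 hd1, ?_⟩
  intro kc lam lam' x hkc hQ hAS
  obtain ⟨k, hk⟩ : ∃ k, kc = k + j1 := ⟨kc - j1, by omega⟩
  have hU := Ub_pos kc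
  have hN : Ub kc ≤ UU (2 ^ (kc + (J + 2))) := TS.UU_mono (Nat.pow_le_pow_right (by norm_num) (by omega))
  have hS0 : SmD Dm kc (NTm.SL kc (J + 2) x) δ0 := by
    refine hsh0 kc x (by omega) (NTm.AS_short hAS ?_)
    calc min d0 d1 * Ub kc ≤ d0 * Ub kc := by
          gcongr
          exact min_le_left _ _
      _ ≤ _ := by gcongr
  have hS1 : SmD Dm k (NTm.SL k (J + j1 + 2) x) δ1 := by
    refine hsh1 k x (by omega) (NTm.AS_short hAS ?_)
    rw [show k + (J + j1 + 2) = kc + (J + 2) by omega]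
    calc min d0 d1 * Ub kc ≤ d1 * Ub kc := by
          gcongr
          exact min_le_right _ _
      _ ≤ _ := by gcongr
  have hnk : n * 2 ^ (k + s) ≤ 2 ^ kc := by
    calc n * 2 ^ (k + s) ≤ 2 ^ n * 2 ^ (k + s) := Nat.mul_le_mul_right _ Nat.lt_two_pow_self.le
      _ = 2 ^ (n + (k + s)) := by rw [← pow_add]
      _ ≤ 2 ^ kc := Nat.pow_le_pow_right (by norm_num) (by omega)
  have hSG : SmD Dm kc (NTm.GU k kc (2 ^ (kc + (J + 2)))) δ0 :=
    SmD_le hn (hG kc (J + 2) n k (by omega) hnk (by omega) (by omega))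
  have e0 := hev0 kc lam lam' _ (by omega) hQ hS0
  have e2 := hev0 kc lam lam' _ (by omega) hQ hSG
  have e1 := hev1 k lam lam' _ (by omega) (QL_anti (by omega) hQ) hS1
  rw [show k + (J + j1) = kc + J by omega] at e1
  have hb : bl (lam + lam' + 40) (k + 6) ≤ bl (lam + lam' + 40) (kc + 6) := bl_mono _ (by omega)
  have e1' := e1.trans (mul_le_mul' le_rfl (pow_le_pow_left' hb 2))
  have hsub : DF2 kc J lam x ⊆
      ({t | t ∈ SAL lam ∧ t ∈ WL (kc + J) ∧ ∃ (m u : ℕ) (e : ℕ → ℕ), Fd (kc + 5) t m u e ∧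
        ∀ gs, RepG t m u e gs → ∃ g ∈ gs, g ∈ NTm.SL kc (J + 2) x} ∪
      {t | t ∈ SAL lam ∧ t ∈ WL (kc + J) ∧ ∃ (m u : ℕ) (e : ℕ → ℕ), Fd (k + 5) t m u e ∧
        ∀ gs, RepG t m u e gs → ∃ g ∈ gs, g ∈ NTm.SL k (J + j1 + 2) x}) ∪
      {t | t ∈ SAL lam ∧ t ∈ WL (kc + J) ∧ ∃ (m u : ℕ) (e : ℕ → ℕ), Fd (kc + 5) t m u e ∧
        ∀ gs, RepG t m u e gs → ∃ g ∈ gs, g ∈ NTm.GU k kc (2 ^ (kc + (J + 2)))} := by
    rintro t ⟨ht, hw, i, j, hij, hj, hlen, hd⟩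
    have hRR : ∀ b : ℕ, b ≤ kc + 5 → RR b ≤ 96 * 2 ^ kc := by
      intro b hb
      unfold RR
      have h1 : (2 : ℤ) ^ b ≤ 2 ^ (kc + 5) := pow_le_pow_right₀ (by norm_num) hb
      rw [pow_add] at h1
      linarith
    have hno : ∀ b : ℕ, b ≤ kc + 5 → ¬ ∀ i i', i ≤ t.length → i' ≤ t.length → lev t i - lev t i' < RR b := by
      intro b hb hall
      have h1 := hall i j (hij.trans hj) hj
      have h2 := hall j i hj (hij.trans hj)
      have h3 := hRR b hb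
      have h4 : (0 : ℤ) < 2 ^ kc := by positivity
      rcases abs_cases (lev t j - lev t i) with ⟨h5, -⟩ | ⟨h5, -⟩ <;> rw [h5] at hd <;> linarith
    obtain ⟨m, u, e, h⟩ := (fd_exists (b := kc + 5) (by omega) ht.1).resolve_left (hno _ le_rfl)
    obtain ⟨m1, u1, e1, h1⟩ := (fd_exists (b := k + 5) (by omega) ht.1).resolve_left (hno _ (by omega))
    have hlen' : ∀ (u l : ℕ) (e : ℕ → ℕ) (g : List Bool), i ≤ e l → e (l + 1) ≤ j → PosL t u e l g →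
        (g.length : ℝ) < x := by
      intro u l e g h1 h2 h3
      have h4 := h3.len_le
      have h5 : (g.length : ℝ) + i ≤ j + 1 := by
        exact_mod_cast (by omega : g.length + i ≤ j + 1)
      linarith
    rcases geo2 (by omega) h h1 hij hj hd with ⟨l, l1, l2, l3⟩ | ⟨l, l1, l2, l3⟩ |
      ⟨l, l1, l2⟩
    · left; left
      refine ⟨ht, hw, m, u, e, h, fun gs hR => ?_⟩
      obtain ⟨g, hg, hp, hB⟩ := rep_box2 (by omega) (by omega) hw h hR l l1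
      refine ⟨g, hg, ?_, hlen' u l e g l2 l3 hp⟩
      rw [show kc + (J + 2) = kc + J + 2 by omega]
      exact hB
    · left; right
      refine ⟨ht, hw, m1, u1, e1, h1, fun gs hR => ?_⟩
      obtain ⟨g, hg, hp, hB⟩ := rep_box2 (by omega) (by omega) hw h1 hR l l1
      refine ⟨g, hg, ?_, hlen' u1 l e1 g l2 l3 hp⟩
      rw [show k + (J + j1 + 2) = kc + J + 2 by omega]
      exact hB
    · right
      refine ⟨ht, hw, m, u, e, h, fun gs hR => ?_⟩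
      obtain ⟨g, hg, hp, hB⟩ := rep_box2 (by omega) (by omega) hw h hR l l1
      obtain ⟨hh, b1, b2, b3⟩ := hB
      obtain ⟨z, z1, z2, z3⟩ := l2 g hp hh b3
      refine ⟨g, hg, z, z1, hh, z2, ?_, b3, z3⟩
      rw [show kc + (J + 2) = kc + J + 2 by omega]
      exact b2
  refine (gf_mono hsub).trans ((gf_union_le _ _).trans ((add_le_add ((gf_union_le _ _).trans (add_le_add e0 e1')) e2).trans ?_))
  have hUL := Ub_pos (kc + J)
  rw [← add_mul, ← add_mul, ← ENNReal.ofReal_add (by positivity) (by positivity),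
    ← ENNReal.ofReal_add (by positivity) (by positivity)]
  refine mul_le_mul_left (ENNReal.ofReal_le_ofReal (le_of_eq ?_)) _
  ring

/-- l grows by an additive constant in a fixed number of scales -/
lemma seq_add {θ : ℝ} {l : ℕ → ℕ} (hl : NTm.Seq θ l) (h0 : 0 < θ) (h1 : θ < 1) (c : ℕ) :
    ∃ q k0 : ℕ, ∀ k, k0 ≤ k → l k + c ≤ l (k + q) := by
  obtain ⟨b, hb, k0, hg⟩ := NTm.seq_grow hl h0 h1
  obtain ⟨k1, hk1⟩ := hl.low (1 / 3) (by norm_num)
  obtain ⟨q, hq⟩ : ∃ q : ℕ, 2 / b ≤ (2 : ℝ) ^ q := by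
    obtain ⟨q, hq⟩ := pow_unbounded_of_one_lt (2 / b) (show (1 : ℝ) < 2 by norm_num)
    exact ⟨q, hq.le⟩
  refine ⟨q, k0 + k1 + c, fun k hk => ?_⟩
  have e1 := hg k q (by omega)
  have e2 := hk1 k (by omega)
  have e3 : (c : ℝ) ≤ l k := by
    refine le_trans ?_ e2
    rw [show (4 / 3 - 1 / 3 : ℝ) * k = (k : ℝ) by ring, Real.rpow_natCast]
    have : c ≤ 2 ^ k := (show c ≤ k by omega).trans Nat.lt_two_pow_self.le
    exact_mod_cast this
  have e4 : 2 ≤ b * 2 ^ q := by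
    rw [div_le_iff₀ hb] at hq
    linarith
  have e5 : (2 : ℝ) * l k ≤ l (k + q) := by
    refine le_trans ?_ e1
    have : (0 : ℝ) ≤ l k := Nat.cast_nonneg _
    nlinarith
  have e6 : ((l k + c : ℕ) : ℝ) ≤ l (k + q) := by
    push_cast
    linarith
  exact_mod_cast e6

theorem modu_of {Dm : ℕ → ℝ≥0∞ → (List Bool → ℝ≥0∞) → Prop} (hev : Event2 Dm) (hsh : ShortD Dm) (hcl : CleanD Dm)
    {θ : ℝ} {l : ℕ → ℕ} (hl : NTm.Seq θ l) (h0 : 0 < θ) (h1 : θ ≤ 1 / 2)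
    {G : Set ℕ} (hG : NTm.Good l G) : ModuP l G := by
  intro J' r hr
  obtain ⟨c, hc, hgood⟩ := hG
  obtain ⟨q, q0, hq⟩ := seq_add hl h0 (by linarith) 40
  -- the scale of the displacement
  obtain ⟨a, ha⟩ : ∃ a : ℕ, 824 / 2 ^ a ≤ r := by
    obtain ⟨n, hn⟩ := exists_pow_lt_of_lt_one (show 0 < r / 824 by positivity) (show (1 / 2 : ℝ) < 1 by norm_num)
    refine ⟨n, ?_⟩
    calc (824 : ℝ) / 2 ^ n = 824 * (1 / 2) ^ n := by
          rw [one_div, inv_pow]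
          rfl
      _ ≤ 824 * (r / 824) := by
          have := hn.le
          gcongr
      _ = r := by
          field_simp
  obtain ⟨a', ha'⟩ : ∃ a', a' = a + 8 := ⟨_, rfl⟩
  have har : 824 / 2 ^ a' ≤ r := by
    refine le_trans ?_ ha
    rw [ha']
    apply div_le_div_of_nonneg_left (by norm_num) (by positivity)
    exact pow_le_pow_right₀ (by norm_num) (by omega)
  refine ⟨q, fun η hη => ?_⟩
  obtain ⟨d, k1, hd, hdisp⟩ := disp2 hev hsh hcl (a' + J') (by omega) (show 0 < η / 2 ^ J' by positivity)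
  obtain ⟨j1, hj1⟩ := NTm.seq_small hl hd
  refine ⟨c (a' + j1) / 2, k1 + a' + j1 + q0, half_pos (hc _), fun L hLG hL => ?_⟩
  obtain ⟨kc, hkc⟩ : ∃ kc, kc = L - a' := ⟨_, rfl⟩
  have hAS := hj1 kc (by omega)
  have hQ : QL (kc + 8) (l (kc + 8)) := QL_seq hl h1 _
  have e1 := hdisp kc (l L) (l (kc + 8)) _ (by omega) hQ hAS
  have hU := Ub_pos L
  have hlp : (0 : ℝ) < l (kc - j1) := by exact_mod_cast hl.one _
  have hsub : {t | t ∈ SAL (l L) ∧ t ∈ WL (L + J') ∧ ∃ i j : ℕ, i ≤ j ∧ j ≤ t.length ∧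
      (j : ℝ) - i ≤ c (a' + j1) / 2 * l L ∧ r * 2 ^ L ≤ |((lev t j - lev t i : ℤ) : ℝ)|} ⊆
      DF2 kc (a' + J') (l L) ((l (kc - j1) : ℝ) + 1) := by
    rintro t ⟨ht, hw, i, j, hij, hj, hlen, hdis⟩
    refine ⟨ht, ?_, i, j, hij, hj, ?_, ?_⟩
    · rw [show kc + (a' + J') = L + J' by omega]
      exact hw
    · have h3 := hgood L hLG (a' + j1) (by omega)
      rw [show L - (a' + j1) = kc - j1 by omega] at h3
      linarith
    · have h4 : (824 : ℝ) * 2 ^ kc ≤ r * 2 ^ L := by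
        have h5 : (2 : ℝ) ^ L = 2 ^ a' * 2 ^ kc := by
          rw [← pow_add]
          congr 1
          omega
        rw [h5]
        have h6 : (824 : ℝ) ≤ r * 2 ^ a' := by
          rw [div_le_iff₀ (by positivity)] at har
          exact har
        calc (824 : ℝ) * 2 ^ kc ≤ (r * 2 ^ a') * 2 ^ kc := by gcongr
          _ = _ := by ring
      have h7 := h4.trans hdis
      have h8 : ((824 * (2 : ℤ) ^ kc : ℤ) : ℝ) ≤ ((|lev t j - lev t i| : ℤ) : ℝ) := by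
        push_cast
        push_cast at h7
        exact h7
      exact_mod_cast h8
  refine (gf_mono hsub).trans (e1.trans ?_)
  have hb : bl (l L + l (kc + 8) + 40) (kc + 6) ≤ bl (2 * l (L + q)) (L + q) := by
    refine (bl_mono _ (show kc + 6 ≤ L + q by omega)).trans (bl_mono_lam ?_ _)
    have g1 := hq L (by omega)
    have g2 : l (kc + 8) ≤ l L := hl.mono (by omega)
    omega
  refine mul_le_mul' (ENNReal.ofReal_le_ofReal ?_) (pow_le_pow_left' hb 2)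
  have g3 : Ub (kc + (a' + J')) ≤ 2 ^ J' * Ub L := by
    rw [show kc + (a' + J') = L + J' by omega]
    exact UU_ratio_up L J'
  calc η / 2 ^ J' * Ub (kc + (a' + J')) ≤ η / 2 ^ J' * (2 ^ J' * Ub L) := by gcongr
    _ = η * Ub L := by
        field_simp

end NTW

end HexObs
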