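import Pool.Agent.NTW.DomW
import Pool.Agent.NTW.KernS
import Pool.Agent.T2.UpDefs

/-!
NTW: the short leaves have small norm (next leaf, end functional dominated by a number x).
-/

set_option autoImplicit false

namespace HexObs

namespace NTW

open Finset TS SDN SDN.T2

open scoped ENNReal

open Rec8 (mb)

variable {C δ : ℝ}

namespace SH

/-- the functional of the short words -/
noncomputable def Gsh (lam : ℝ) (Φ : List Bool → ℝ≥0∞) (t : List Bool) : ℝ≥0∞ := by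
  classical exact if (t.length : ℝ) < lam then Φ t else 0

lemma Gsh_eq (lam : ℝ) (Φ : List Bool → ℝ≥0∞) (t : List Bool) [Decidable ((t.length : ℝ) < lam)] :
    Gsh lam Φ t = if (t.length : ℝ) < lam then Φ t else 0 := by
  unfold Gsh
  split_ifs <;> rfl

lemma Gsh_le (lam : ℝ) (Φ : List Bool → ℝ≥0∞) (t : List Bool) : Gsh lam Φ t ≤ Φ t := by
  classical
  rw [Gsh_eq]
  split_ifs
  · exact le_rfl
  · exact zero_le

lemma Gsh_her {lam : ℝ} {Φ : List Bool → ℝ≥0∞} (h : Hered Φ) : Hered (Gsh lam Φ) := by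
  classical
  intro s hs t
  rw [Gsh_eq, Gsh_eq]
  by_cases h1 : ((s ++ t).length : ℝ) < lam
  · rw [if_pos h1, if_pos]
    · exact h s hs t
    · rw [List.length_append] at h1
      push_cast at h1
      have : (0 : ℝ) ≤ (s.length : ℝ) := Nat.cast_nonneg _
      linarith
  · rw [if_neg h1]
    exact zero_le

lemma gf_short {N : ℕ} {lam d : ℝ} (hS : T2.Short N lam d) :
    gf {Z : List Bool | (∃ h, h ≤ N ∧ Z ∈ Brd h) ∧ (Z.length : ℝ) < lam} ≤ ENNReal.ofReal (d * UU N) := by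
  refine le_trans ?_ hS
  have hsub : {Z : List Bool | (∃ h, h ≤ N ∧ Z ∈ Brd h) ∧ (Z.length : ℝ) < lam} ⊆
      ⋃ h ∈ range (N + 1), {Z | Z ∈ Brd h ∧ (Z.length : ℝ) < lam} := by
    rintro Z ⟨⟨h, h1, h2⟩, h3⟩
    rw [Set.mem_iUnion₂]
    exact ⟨h, Finset.mem_range.2 (by omega), h2, h3⟩
  exact (gf_mono hsub).trans (ENNReal.tsum_biUnion_le (fun t => wE t) (range (N + 1)) _)

/-- the rest of a short leaf behind the piece P -/
theorem rest_short (hE : EndsP) : ∃ K : ℝ, 1 ≤ K ∧ ∀ (E N k1 n r : ℕ) (lam d : ℝ) (x : ℝ≥0∞) (Φ : List Bool → ℝ≥0∞)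
    (P : List Bool), Dom k1 x Φ → 0 ≤ d → T2.Short N lam d → n + 2 ^ (k1 + 1) ≤ E → P ∈ Irr r →
    Rec8.sw {Z | Z ∈ BU ∧ ∃ Y ∈ Brd n, Y ++ (P ++ Z) ∈ BrR E N} (fun Z => Gsh lam Φ (P ++ Z)) ≤
      x * ((if E ≤ n + r + 2 ^ (k1 + 1) then SS k1 P else 0) + ENNReal.ofReal (d * UU N) * ENNReal.ofReal K) := by
  classical
  obtain ⟨K, hK1, hK⟩ := hE
  refine ⟨K, hK1, fun E N k1 n r lam d x Φ P hΦ hd hS hn hP => ?_⟩
  refine (outR hn hP (fun Z => Gsh lam Φ (P ++ Z))).trans ?_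
  rw [mul_add]
  refine add_le_add ?_ ?_
  · split_ifs with hE
    · have h2 : ∑' m : ℕ, mu k1 m r * Rec8.sw {M | M ∈ Brd m ∧ ∃ Y ∈ Brd n, Y ++ (P ++ M) ∈ BrR E N}
          (fun Z => Gsh lam Φ (P ++ Z)) ≤ ∑' m : ℕ, mu k1 m r * Rec8.sw (Brd m) (fun M => Φ (P ++ M)) := by
        refine ENNReal.tsum_le_tsum fun m => ?_
        gcongr
        exact Rec8.sw_mono (fun t ht => ht.1) (fun t _ => Gsh_le _ _ _)
      exact h2.trans ((DW.sum_low1 k1 r _).trans (hΦ.bd r P hP))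
    · rw [mul_zero, nonpos_iff_eq_zero, ENNReal.tsum_eq_zero]
      intro m
      rcases Nat.lt_or_ge m (2 ^ (k1 + 1)) with hm | hm
      · have e : {M : List Bool | M ∈ Brd m ∧ ∃ Y ∈ Brd n, Y ++ (P ++ M) ∈ BrR E N} = ∅ := by
          rw [Set.eq_empty_iff_forall_notMem]
          rintro M ⟨hM, Y, hY, H, h1, -, h3⟩
          have := Brd_height h3 (Brd_append hY (Brd_append hP.1 hM))
          omega
        rw [e]
        unfold Rec8.sw
        rw [tsum_empty, mul_zero]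
      · rw [mu_eq_zero hm, zero_mul]
  · have hPb : P ∈ Brd r := hP.1
    have h3 : ∀ m r' : ℕ, mu k1 m r' * Rec8.sw {Z | ∃ h, h ≤ N ∧ Z ∈ Brd h} (fun Z => Rec8.sw (Irr r') (fun P' =>
        Rec8.sw {M | M ∈ Brd m ∧ ∃ Y ∈ Brd n, Y ++ (P ++ (Z ++ (P' ++ M))) ∈ BrR E N}
          (fun M => Gsh lam Φ (P ++ (Z ++ (P' ++ M)))))) ≤
        ENNReal.ofReal (d * UU N) * (mu k1 m r' * Rec8.sw (Irr r') (fun P' => Rec8.sw (Brd m) (fun M => Φ (P' ++ M)))) := by
      intro m r'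
      rw [mul_left_comm]
      refine mul_le_mul_right ?_ _
      calc Rec8.sw {Z | ∃ h, h ≤ N ∧ Z ∈ Brd h} (fun Z => Rec8.sw (Irr r') (fun P' =>
            Rec8.sw {M | M ∈ Brd m ∧ ∃ Y ∈ Brd n, Y ++ (P ++ (Z ++ (P' ++ M))) ∈ BrR E N}
              (fun M => Gsh lam Φ (P ++ (Z ++ (P' ++ M))))))
          ≤ Rec8.sw {Z | ∃ h, h ≤ N ∧ Z ∈ Brd h} (fun Z => (if (Z.length : ℝ) < lam then 1 else 0) *
            Rec8.sw (Irr r') (fun P' => Rec8.sw (Brd m) (fun M => Φ (P' ++ M)))) := by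
            refine Rec8.sw_mono' fun Z hZ => ?_
            obtain ⟨z, hz0, hZ⟩ := hZ
            split_ifs with hz
            · rw [one_mul]
              refine Rec8.sw_mono' fun P' hP' => ?_
              refine Rec8.sw_mono (fun t ht => ht.1) fun M hM => ?_
              refine (Gsh_le _ _ _).trans ?_
              rw [← List.append_assoc]
              exact hΦ.her _ ⟨_, Brd_append hPb hZ⟩ _
            · rw [zero_mul]
              refine le_of_eq ?_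
              have h0 : ∀ P' M : List Bool, Gsh lam Φ (P ++ (Z ++ (P' ++ M))) = 0 := by
                intro P' M
                rw [Gsh_eq, if_neg]
                intro h1
                apply hz
                rw [List.length_append, List.length_append] at h1
                push_cast at h1
                have e1 : (0 : ℝ) ≤ (P.length : ℝ) := Nat.cast_nonneg _
                have e2 : (0 : ℝ) ≤ ((P' ++ M).length : ℝ) := Nat.cast_nonneg _
                linarith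
              simp only [h0]
              simp only [Rec8.sw_zero]
        _ = gf {Z : List Bool | (∃ h, h ≤ N ∧ Z ∈ Brd h) ∧ (Z.length : ℝ) < lam} *
            Rec8.sw (Irr r') (fun P' => Rec8.sw (Brd m) (fun M => Φ (P' ++ M))) := by
            generalize Rec8.sw (Irr r') (fun P' => Rec8.sw (Brd m) (fun M => Φ (P' ++ M))) = y
            rw [← NX_const, Rec8.sw_ind, Rec8.sw_ind]
            refine tsum_congr fun Z => ?_
            by_cases h1 : Z ∈ {Z | ∃ h, h ≤ N ∧ Z ∈ Brd h}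
            · by_cases h2 : (Z.length : ℝ) < lam
              · rw [if_pos h1, if_pos h2, if_pos (show Z ∈ {Z : List Bool | (∃ h, h ≤ N ∧ Z ∈ Brd h) ∧ (Z.length : ℝ) < lam} from
                  ⟨h1, h2⟩), one_mul]
              · rw [if_pos h1, if_neg h2, zero_mul, mul_zero, if_neg]
                exact fun h3 => h2 h3.2
            · rw [if_neg h1, if_neg]
              exact fun h3 => h1 h3.1
        _ ≤ _ := mul_le_mul_left (gf_short hS) _
    refine (ENNReal.tsum_le_tsum fun m => ENNReal.tsum_le_tsum fun r' => h3 m r').trans ?_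
    simp only [ENNReal.tsum_mul_left]
    calc ENNReal.ofReal (d * UU N) * ∑' m : ℕ, ∑' r' : ℕ, mu k1 m r' *
          Rec8.sw (Irr r') (fun P' => Rec8.sw (Brd m) (fun M => Φ (P' ++ M)))
        ≤ ENNReal.ofReal (d * UU N) * (ENNReal.ofReal K * x) := mul_le_mul_right (hK k1 x Φ hΦ) _
      _ = x * (ENNReal.ofReal (d * UU N) * ENNReal.ofReal K) := by ring

end SH

open SH DW in
/-- **the short leaves have small norm** -/
theorem short_near (h : Inp C δ) (hA : SsA) : ∃ K c : ℝ, 1 ≤ K ∧ 0 < c ∧ ∀ (k N j : ℕ) (lam d : ℝ) (x : ℝ≥0∞)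
    (Φ : List Bool → ℝ≥0∞), Dom k x Φ → 0 ≤ d → T2.Short N lam d → j ≤ k →
    xT (2 ^ (k + 4)) k (vA (2 ^ (k + 4)) {g | g ∈ BrR (2 ^ (k + 4)) N ∧ (g.length : ℝ) < lam} Φ) ≤
      ENNReal.ofReal (K * ((2 : ℝ) ^ (-(c * ((k : ℝ) - j))) + d * (UU N / Ub j))) * x := by
  classical
  obtain ⟨K3, c, hK3, hc, k3h⟩ := ss3J h
  obtain ⟨K1, hK1, k1h⟩ := k1 h
  obtain ⟨Kr, hKr, hrest⟩ := rest_short (endsP_of hA)
  refine ⟨16 * (K3 + Kr * K1), c, by nlinarith, hc, fun k N j lam d x Φ hΦ hd hS hj => ?_⟩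
  refine xT_le fun b I hb hI => ?_
  obtain ⟨i, hIi⟩ := hI
  have hp4 : 2 ^ (k + 4) = 8 * 2 ^ (k + 1) := by ring
  have hp1 : 2 ^ (k + 1) = 2 * 2 ^ k := by ring
  have hp0 : 1 ≤ 2 ^ k := Nat.one_le_two_pow
  have hk0e : 2 ^ (j + 1) ≤ 2 ^ (k + 1) := Nat.pow_le_pow_right (by norm_num) (by omega)
  obtain ⟨A, hA⟩ : ∃ A, A = d * UU N := ⟨_, rfl⟩
  have hUN : 0 < UU N := Num2Aux.UU_pos N
  have hA0 : 0 ≤ A := by
    rw [hA]
    positivity
  let Θ : ℕ → List Bool → ℝ≥0∞ := fun r P =>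
    x * ((if 2 ^ k < r then SS k P else 0) + ENNReal.ofReal A * ENNReal.ofReal Kr)
  have s0 : ∀ t, vA (2 ^ (k + 4)) {g | g ∈ BrR (2 ^ (k + 4)) N ∧ (g.length : ℝ) < lam} Φ t ≤
      vA (2 ^ (k + 4)) (BrR (2 ^ (k + 4)) N) (fun g => Gsh lam Φ g) t := by
    intro t
    unfold vA
    rw [Rec8.sw_ind, Rec8.sw_ind]
    refine ENNReal.tsum_le_tsum fun g => ?_
    by_cases h1 : g ∈ {g' | g' ∈ {g | g ∈ BrR (2 ^ (k + 4)) N ∧ (g.length : ℝ) < lam} ∧ RT (2 ^ (k + 4)) LFold t g'}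
    · rw [if_pos h1, if_pos (show g ∈ {g' | g' ∈ BrR (2 ^ (k + 4)) N ∧ RT (2 ^ (k + 4)) LFold t g'} from
        ⟨h1.1.1, h1.2⟩), Gsh_eq, if_pos h1.1.2]
    · rw [if_neg h1]
      exact zero_le
  have s1 : Rec8.sw (Fld.BrB b) (fun M => vA (2 ^ (k + 4)) {g | g ∈ BrR (2 ^ (k + 4)) N ∧ (g.length : ℝ) < lam} Φ (I ++ M)) ≤
      Rec8.sw (Fld.BrB b) (fun M => ∑' n : ℕ, ∑' r : ℕ, mu j n r * Rec8.sw (Brd n) (fun X =>
        Rec8.sw {P | P ∈ Irr r ∧ ∃ c : Bool, KRel (2 ^ (k + 4)) I P M ((!c) :: c :: X)} (fun P => Θ r P))) := by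
    refine Rec8.sw_mono' fun M hM => (s0 _).trans ?_
    obtain ⟨m, -, hMm⟩ := hM
    refine WN.next_win (G := fun _ => Gsh lam Φ) (fun _ => Gsh_her hΦ.her) (by omega) le_rfl (fun _ r P => Θ r P)
      (fun n r P hn hP => ?_) hIi.1 hMm
    refine (hrest (2 ^ (k + 4)) N k n r lam d x Φ P hΦ hd hS (by omega) hP).trans ?_
    rw [← hA]
    refine mul_le_mul_right (add_le_add ?_ le_rfl) x
    by_cases h1 : 2 ^ (k + 4) ≤ n + r + 2 ^ (k + 1)
    · rw [if_pos h1, if_pos (by omega)]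
    · rw [if_neg h1]
      exact zero_le
  have s2 := fold_sum (2 ^ (k + 4)) b j I (mu j) (mb j) (fun a n r => mu_le_mb) (fun n r => mu_eq_zero)
    (fun a r => mb_mono (Nat.le_succ a) r) Θ
  refine s1.trans (s2.trans ?_)
  have s4 := sumS (2 ^ (k + 4)) j b I x (ENNReal.ofReal A * ENNReal.ofReal Kr) k k (mb j) (fun a r => mb_le_one _ _ _)
  have t1 := k3h (2 ^ (k + 4)) k j b I le_rfl hj hb
  have t2 := k1h (2 ^ (k + 4)) k j b I le_rfl (by omega) hb
  have hUj := Ub_pos j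
  obtain ⟨q, hq⟩ : ∃ q : ℝ, q = (2 : ℝ) ^ (-(c * ((k : ℝ) - j))) := ⟨_, rfl⟩
  have hq0 : 0 < q := by
    rw [hq]
    exact Real.rpow_pos_of_pos two_pos _
  rw [← hq] at t1 ⊢
  have hAj : 0 ≤ A / Ub j := div_nonneg hA0 hUj.le
  calc 16 * ∑ a ∈ range (j + 2), ∑' r : ℕ, mb j a r * Rec8.sw (Irr r) (fun P => KT (2 ^ (k + 4)) b I a P * Θ r P)
      ≤ 16 * (x * (ENNReal.ofReal (K3 * q) * Sw (2 ^ (k + 4)) k b I +
          ENNReal.ofReal A * ENNReal.ofReal Kr * (ENNReal.ofReal (K1 / Ub j) * Sw (2 ^ (k + 4)) k b I))) := by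
        refine mul_le_mul_right (s4.trans ?_) _
        refine mul_le_mul_right (add_le_add t1 (mul_le_mul_right t2 _)) x
    _ = ENNReal.ofReal (16 * K3 * q + 16 * (Kr * K1) * (A / Ub j)) * x * Sw (2 ^ (k + 4)) k b I := by
        have e16 : ENNReal.ofReal 16 = 16 := by simp
        have e1 : ENNReal.ofReal (16 * K3 * q) = 16 * ENNReal.ofReal (K3 * q) := by
          rw [← e16, ← ENNReal.ofReal_mul (by norm_num)]
          congr 1
          ring
        have e2 : ENNReal.ofReal (16 * (Kr * K1) * (A / Ub j)) =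
            16 * (ENNReal.ofReal A * ENNReal.ofReal Kr * ENNReal.ofReal (K1 / Ub j)) := by
          rw [← e16, ← ENNReal.ofReal_mul hA0, ← ENNReal.ofReal_mul (by positivity), ← ENNReal.ofReal_mul (by norm_num)]
          congr 1
          ring
        rw [ENNReal.ofReal_add (by positivity) (by positivity), e1, e2]
        ring
    _ ≤ _ := by
        refine mul_le_mul_left (mul_le_mul_left (ENNReal.ofReal_le_ofReal ?_) _) _
        have e3 : d * (UU N / Ub j) = A / Ub j := by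
          rw [hA]
          ring
        rw [e3]
        have h9 : 0 ≤ Kr * K1 * q := by positivity
        have h10 : 0 ≤ K3 * (A / Ub j) := by positivity
        nlinarith

/-- the class of the short leaves -/
def SLs (kc J : ℕ) (lam : ℝ) : Set (List Bool) := {g | g ∈ BrR (2 ^ (kc + 4)) (2 ^ (kc + J)) ∧ (g.length : ℝ) < lam}

/-- the short leaves, small constant -/
theorem short_near_small (h : Inp C δ) (hA : SsA) (J : ℕ) {η : ℝ} (hη : 0 < η) : ∃ (d : ℝ) (k0 : ℕ), 0 < d ∧ ∀ (kc : ℕ) (lam : ℝ),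
    k0 ≤ kc → T2.Short (2 ^ (kc + J)) lam d → ∀ (x : ℝ≥0∞) (Φ : List Bool → ℝ≥0∞), Dom kc x Φ →
    xT (2 ^ (kc + 4)) kc (vA (2 ^ (kc + 4)) (SLs kc J lam) Φ) ≤ ENNReal.ofReal η * x := by
  obtain ⟨K, c, hK, hc, hx⟩ := short_near h hA
  have h2J : (1 : ℝ) ≤ 2 ^ J := one_le_pow₀ (by norm_num)
  obtain ⟨J', hJ'⟩ : ∃ J' : ℕ, K * (2 : ℝ) ^ (-(c * (J' : ℝ))) ≤ η / 2 := by
    have hx1 : (2 : ℝ) ^ (-c) < 1 := Real.rpow_lt_one_of_one_lt_of_neg (by norm_num) (by linarith)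
    obtain ⟨n, hn⟩ := exists_pow_lt_of_lt_one (show 0 < η / (2 * K) by positivity) hx1
    refine ⟨n, ?_⟩
    have h1 : (2 : ℝ) ^ (-(c * (n : ℝ))) = ((2 : ℝ) ^ (-c)) ^ n := by
      rw [← Real.rpow_natCast, ← Real.rpow_mul (by norm_num)]
      congr 1
      ring
    rw [h1]
    calc K * ((2 : ℝ) ^ (-c)) ^ n ≤ K * (η / (2 * K)) := mul_le_mul_of_nonneg_left hn.le (by linarith)
      _ = η / 2 := by field_simp
  obtain ⟨d, hd⟩ : ∃ d : ℝ, d = η / (2 * (K * 2 ^ (J + J'))) := ⟨_, rfl⟩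
  have hd0 : 0 < d := by
    rw [hd]
    positivity
  refine ⟨d, J', hd0, fun kc lam hkc hS x Φ hΦ => ?_⟩
  refine (hx kc (2 ^ (kc + J)) (kc - J') lam d x Φ hΦ hd0.le hS (Nat.sub_le _ _)).trans
    (mul_le_mul_left (ENNReal.ofReal_le_ofReal ?_) _)
  have hUj := Ub_pos (kc - J')
  have e3 : (kc : ℝ) - ((kc - J' : ℕ) : ℝ) = J' := by
    rw [Nat.cast_sub hkc]
    ring
  rw [e3, mul_add]
  have e4 : UU (2 ^ (kc + J)) / Ub (kc - J') ≤ 2 ^ (J + J') := by
    rw [div_le_iff₀ hUj]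
    have h5 := UU_ratio_up (kc - J') (J' + J)
    have e5 : kc - J' + (J' + J) = kc + J := by omega
    rw [e5] at h5
    rw [add_comm J J']
    exact h5
  have e6 : K * (d * (UU (2 ^ (kc + J)) / Ub (kc - J'))) ≤ η / 2 := by
    calc K * (d * (UU (2 ^ (kc + J)) / Ub (kc - J'))) ≤ K * (d * 2 ^ (J + J')) := by gcongr
      _ = η / 2 := by
        rw [hd]
        field_simp
  linarith

end NTW

end HexObs
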