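import Pool.Agent.NTW.TwoG
import Pool.Agent.NTW.ShortD
import Pool.Agent.NTW.DmJ
import Pool.Agent.NTW.QDefs
import Pool.Agent.NT.TallV
import Pool.Agent.NT.FactA

/-!
NTW: the short leaves have exponentially small norm (near and two sided): two windows, one near each end of the leaf.
-/

set_option autoImplicit false

namespace HexObs

namespace NTW

open Finset TS SDN SDN.T2

open scoped ENNReal

open Rec8 (mb)

variable {C δ : ℝ}

namespace SE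

open KJ SH DW DO TG

/-- the giants, one weight with a gain -/
theorem giS (h : Inp C δ) : ∃ K c : ℝ, 1 ≤ K ∧ 0 < c ∧ ∀ k j : ℕ, j ≤ k →
    ∑' r : ℕ, (if 2 ^ k < r then Rec8.sw (Irr r) (fun P => SJ k j P) else 0) ≤
      ENNReal.ofReal (K * (2 : ℝ) ^ (-(c * ((k : ℝ) - j)))) := by
  obtain ⟨K, c, hK, hc, hs⟩ := ssJ1 h
  refine ⟨K, c, hK, hc, fun k j hj => ?_⟩
  have h1 := hs k j hj
  have hU := Ub_pos k
  have h2 : ENNReal.ofReal (Ub k) * Lg k (fun P => SJ k j P) ≤ Lg k (fun P => SJ k j (rev P) * SS k P) := by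
    rw [← Lg_rev k (fun P => SJ k j P), ← Lg_mul]
    refine Lg_mono fun P => ?_
    rw [mul_comm]
    exact mul_le_mul_right (DE.Ub_le_SS k P) _
  have h3 := h2.trans h1
  have hq : (0 : ℝ) < (2 : ℝ) ^ (-(c * ((k : ℝ) - j))) := Real.rpow_pos_of_pos two_pos _
  rw [ENNReal.ofReal_mul (by positivity), mul_comm (ENNReal.ofReal (K * _)) _] at h3
  exact (ENNReal.mul_le_mul_iff_right (ENNReal.ofReal_pos.2 hU).ne' ENNReal.ofReal_ne_top).1 h3

/-- the high short bridges -/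
def HS (k N : ℕ) (lam : ℝ) : Set (List Bool) := {Z | (∃ h, 2 ^ k ≤ h ∧ h ≤ N ∧ Z ∈ Brd h) ∧ (Z.length : ℝ) < lam}

/-- the rest of a short leaf behind a piece P which is not a giant -/
theorem rest_exp (h : Inp C δ) (hA : SsA) : ∃ K c : ℝ, 1 ≤ K ∧ 0 < c ∧ ∀ (k j N n r : ℕ) (lam : ℝ) (x A : ℝ≥0∞)
    (Φ : List Bool → ℝ≥0∞) (P : List Bool), DomJ k x Φ → j ≤ k → gf (HS k N lam) ≤ A → n ≤ 2 ^ (k + 1) → r ≤ 2 ^ k →
    P ∈ Irr r →
    Rec8.sw {Z | Z ∈ BU ∧ ∃ Y ∈ Brd n, Y ++ (P ++ Z) ∈ BrR (2 ^ (k + 4)) N} (fun Z => Gsh lam Φ (P ++ Z)) ≤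
      x * (ENNReal.ofReal (K * (2 : ℝ) ^ (-(c * ((k : ℝ) - j))) * UU N) + ENNReal.ofReal (K * 2 ^ (k - j)) * A) := by
  classical
  obtain ⟨K1, c, hK1, hc, hgi⟩ := giS h
  obtain ⟨K2, hK2, hend⟩ := endsJ hA
  refine ⟨K1 + K2, c, by linarith, hc, fun k j N n r lam x A Φ P hΦ hj hHS hn hr hP => ?_⟩
  have hp4 : 2 ^ (k + 4) = 16 * 2 ^ k := by ring
  have hp1 : 2 ^ (k + 1) = 2 * 2 ^ k := by ring
  have hp0 : 1 ≤ 2 ^ k := Nat.one_le_two_pow
  have hpj : 2 ^ (j + 1) ≤ 2 ^ (k + 1) := Nat.pow_le_pow_right (by norm_num) (by omega)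
  have hPb : P ∈ Brd r := hP.1
  refine (outR (k := j) (by omega) hP (fun Z => Gsh lam Φ (P ++ Z))).trans ?_
  have hz : ∑' m : ℕ, mu j m r * Rec8.sw {M | M ∈ Brd m ∧ ∃ Y ∈ Brd n, Y ++ (P ++ M) ∈ BrR (2 ^ (k + 4)) N}
      (fun Z => Gsh lam Φ (P ++ Z)) = 0 := by
    rw [ENNReal.tsum_eq_zero]
    intro m
    rcases Nat.lt_or_ge m (2 ^ (j + 1)) with hm | hm
    · have e : {M : List Bool | M ∈ Brd m ∧ ∃ Y ∈ Brd n, Y ++ (P ++ M) ∈ BrR (2 ^ (k + 4)) N} = ∅ := by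
        rw [Set.eq_empty_iff_forall_notMem]
        rintro M ⟨hM, Y, hY, H, h1, -, h3⟩
        have := Brd_height h3 (Brd_append hY (Brd_append hP.1 hM))
        omega
      rw [e]
      unfold Rec8.sw
      rw [tsum_empty, mul_zero]
    · rw [mu_eq_zero hm, zero_mul]
  rw [hz, zero_add]
  -- the two kinds of pieces near the tail
  have hT : ∀ m r' : ℕ, mu j m r' * Rec8.sw {Z | ∃ h, h ≤ N ∧ Z ∈ Brd h} (fun Z => Rec8.sw (Irr r') (fun P' =>
      Rec8.sw {M | M ∈ Brd m ∧ ∃ Y ∈ Brd n, Y ++ (P ++ (Z ++ (P' ++ M))) ∈ BrR (2 ^ (k + 4)) N}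
        (fun M => Gsh lam Φ (P ++ (Z ++ (P' ++ M)))))) ≤
      (ENNReal.ofReal (UU N) * (if 2 ^ k < r' then mu j m r' * Rec8.sw (Irr r') (fun P' =>
        Rec8.sw (Brd m) (fun M => Φ (P' ++ M))) else 0)) +
      A * (mu j m r' * Rec8.sw (Irr r') (fun P' => Rec8.sw (Brd m) (fun M => Φ (P' ++ M)))) := by
    intro m r'
    by_cases hr' : 2 ^ k < r'
    · rw [if_pos hr']
      refine le_trans ?_ le_self_add
      rw [mul_left_comm]
      refine mul_le_mul_right ?_ _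
      calc Rec8.sw {Z | ∃ h, h ≤ N ∧ Z ∈ Brd h} (fun Z => Rec8.sw (Irr r') (fun P' =>
            Rec8.sw {M | M ∈ Brd m ∧ ∃ Y ∈ Brd n, Y ++ (P ++ (Z ++ (P' ++ M))) ∈ BrR (2 ^ (k + 4)) N}
              (fun M => Gsh lam Φ (P ++ (Z ++ (P' ++ M))))))
          ≤ Rec8.sw {Z | ∃ h, h ≤ N ∧ Z ∈ Brd h} (fun _ =>
            1 * Rec8.sw (Irr r') (fun P' => Rec8.sw (Brd m) (fun M => Φ (P' ++ M)))) := by
            refine Rec8.sw_mono' fun Z hZ => ?_
            obtain ⟨z, hz0, hZ⟩ := hZ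
            rw [one_mul]
            refine Rec8.sw_mono' fun P' hP' => ?_
            refine Rec8.sw_mono (fun t ht => ht.1) fun M hM => ?_
            refine (Gsh_le _ _ _).trans ?_
            rw [← List.append_assoc]
            exact hΦ.her _ ⟨_, Brd_append hPb hZ⟩ _
        _ = gf {Z | ∃ h, h ≤ N ∧ Z ∈ Brd h} *
            Rec8.sw (Irr r') (fun P' => Rec8.sw (Brd m) (fun M => Φ (P' ++ M))) := by
            rw [Rec8.sw_mul_right, Rec8.sw_one]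
        _ ≤ _ := mul_le_mul_left (NTm.low_mass N) _
    · rw [if_neg hr', mul_zero, zero_add]
      rcases Nat.lt_or_ge m (2 ^ (j + 1)) with hm | hm
      swap
      · rw [mu_eq_zero hm, zero_mul]
        exact zero_le
      rw [mul_left_comm]
      refine mul_le_mul_right ?_ _
      calc Rec8.sw {Z | ∃ h, h ≤ N ∧ Z ∈ Brd h} (fun Z => Rec8.sw (Irr r') (fun P' =>
            Rec8.sw {M | M ∈ Brd m ∧ ∃ Y ∈ Brd n, Y ++ (P ++ (Z ++ (P' ++ M))) ∈ BrR (2 ^ (k + 4)) N}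
              (fun M => Gsh lam Φ (P ++ (Z ++ (P' ++ M))))))
          ≤ Rec8.sw {Z | ∃ h, h ≤ N ∧ Z ∈ Brd h} (fun Z => (if Z ∈ HS k N lam then 1 else 0) *
            Rec8.sw (Irr r') (fun P' => Rec8.sw (Brd m) (fun M => Φ (P' ++ M)))) := by
            refine Rec8.sw_mono' fun Z hZ => ?_
            obtain ⟨z, hz0, hZ⟩ := hZ
            by_cases hH : Z ∈ HS k N lam
            · rw [if_pos hH, one_mul]
              refine Rec8.sw_mono' fun P' hP' => ?_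
              refine Rec8.sw_mono (fun t ht => ht.1) fun M hM => ?_
              refine (Gsh_le _ _ _).trans ?_
              rw [← List.append_assoc]
              exact hΦ.her _ ⟨_, Brd_append hPb hZ⟩ _
            · rw [if_neg hH, zero_mul]
              have h0 : Rec8.sw (Irr r') (fun P' => Rec8.sw {M | M ∈ Brd m ∧ ∃ Y ∈ Brd n,
                  Y ++ (P ++ (Z ++ (P' ++ M))) ∈ BrR (2 ^ (k + 4)) N}
                  (fun M => Gsh lam Φ (P ++ (Z ++ (P' ++ M))))) ≤ Rec8.sw (Irr r') (fun _ => 0) := by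
                refine Rec8.sw_mono' fun P' hP' => ?_
                refine (Rec8.sw_mono' (Ψ := fun _ => 0) fun M hM => ?_).trans (le_of_eq (Rec8.sw_zero _))
                obtain ⟨hM1, Y, hY, H, h1, h2, h3⟩ := hM
                have h4 := Brd_height h3 (Brd_append hY (Brd_append hP.1 (Brd_append hZ (Brd_append hP'.1 hM1))))
                rw [Gsh_eq, if_neg]
                intro hlen
                refine hH ⟨⟨z, by omega, hz0, hZ⟩, ?_⟩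
                rw [List.length_append, List.length_append] at hlen
                push_cast at hlen
                have e1 : (0 : ℝ) ≤ (P.length : ℝ) := Nat.cast_nonneg _
                have e2 : (0 : ℝ) ≤ ((P' ++ M).length : ℝ) := Nat.cast_nonneg _
                linarith
              exact h0.trans (le_of_eq (Rec8.sw_zero _))
        _ = gf (HS k N lam) * Rec8.sw (Irr r') (fun P' => Rec8.sw (Brd m) (fun M => Φ (P' ++ M))) := by
            generalize Rec8.sw (Irr r') (fun P' => Rec8.sw (Brd m) (fun M => Φ (P' ++ M))) = y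
            rw [← NX_const, Rec8.sw_ind, Rec8.sw_ind]
            refine tsum_congr fun Z => ?_
            by_cases h1 : Z ∈ {Z | ∃ h, h ≤ N ∧ Z ∈ Brd h}
            · by_cases h2 : Z ∈ HS k N lam
              · rw [if_pos h1, if_pos h2, if_pos h2, one_mul]
              · rw [if_pos h1, if_neg h2, if_neg h2, zero_mul, mul_zero]
            · rw [if_neg h1, if_neg]
              rintro ⟨⟨z, -, h3, h4⟩, -⟩
              exact h1 ⟨z, h3, h4⟩
        _ ≤ _ := mul_le_mul_left hHS _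
  refine (ENNReal.tsum_le_tsum fun m => ENNReal.tsum_le_tsum fun r' => hT m r').trans ?_
  simp only [ENNReal.tsum_add, ENNReal.tsum_mul_left]
  -- the giants
  have hG : ∑' m : ℕ, ∑' r' : ℕ, (if 2 ^ k < r' then mu j m r' * Rec8.sw (Irr r') (fun P' =>
      Rec8.sw (Brd m) (fun M => Φ (P' ++ M))) else 0) ≤ x * ENNReal.ofReal (K1 * (2 : ℝ) ^ (-(c * ((k : ℝ) - j)))) := by
    rw [ENNReal.tsum_comm]
    refine le_trans ?_ (mul_le_mul_right (hgi k j hj) x)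
    rw [← ENNReal.tsum_mul_left]
    refine ENNReal.tsum_le_tsum fun r' => ?_
    by_cases hr' : 2 ^ k < r'
    · simp only [if_pos hr']
      have e1 : ∑' m : ℕ, mu j m r' * Rec8.sw (Irr r') (fun P => Rec8.sw (Brd m) (fun M => Φ (P ++ M))) =
          Rec8.sw (Irr r') (fun P => ∑' m : ℕ, mu j m r' * Rec8.sw (Brd m) (fun M => Φ (P ++ M))) := by
        rw [NX_sw_tsum]
        exact tsum_congr fun n => (Rec8.sw_mul_left _ _ _).symm
      rw [e1, ← Rec8.sw_mul_left]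
      exact Rec8.sw_mono' fun P' hP' => (sum_low1 j r' _).trans (hΦ.bdj j hj r' P' hP')
    · simp only [if_neg hr', tsum_zero, mul_zero]
      exact le_rfl
  have hE := hend k j x Φ hΦ hj
  have hE' : ∑' m : ℕ, ∑' r' : ℕ, mu j m r' * Rec8.sw (Irr r') (fun P' => Rec8.sw (Brd m) (fun M => Φ (P' ++ M))) ≤
      ENNReal.ofReal (K2 * 2 ^ (k - j)) * x := by
    rw [ENNReal.tsum_comm]
    exact hE
  obtain ⟨q, hq⟩ : ∃ q : ℝ, q = (2 : ℝ) ^ (-(c * ((k : ℝ) - j))) := ⟨_, rfl⟩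
  have hq0 : 0 < q := by
    rw [hq]
    exact Real.rpow_pos_of_pos two_pos _
  rw [← hq] at hG ⊢
  have hUN : 0 < UU N := Num2Aux.UU_pos N
  calc ENNReal.ofReal (UU N) * (∑' m : ℕ, ∑' r' : ℕ, (if 2 ^ k < r' then mu j m r' * Rec8.sw (Irr r') (fun P' =>
        Rec8.sw (Brd m) (fun M => Φ (P' ++ M))) else 0)) +
      A * ∑' m : ℕ, ∑' r' : ℕ, mu j m r' * Rec8.sw (Irr r') (fun P' => Rec8.sw (Brd m) (fun M => Φ (P' ++ M)))
      ≤ ENNReal.ofReal (UU N) * (x * ENNReal.ofReal (K1 * q)) + A * (ENNReal.ofReal (K2 * 2 ^ (k - j)) * x) :=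
        add_le_add (mul_le_mul_right hG _) (mul_le_mul_right hE' _)
    _ = x * (ENNReal.ofReal (K1 * q * UU N) + ENNReal.ofReal (K2 * 2 ^ (k - j)) * A) := by
        rw [ENNReal.ofReal_mul (p := K1 * q) (by positivity)]
        ring
    _ ≤ _ := by
        have e1 : K1 * q * UU N ≤ (K1 + K2) * q * UU N := by
          have : 0 ≤ K2 * q * UU N := by positivity
          nlinarith
        have e2 : K2 * 2 ^ (k - j) ≤ (K1 + K2) * 2 ^ (k - j) := by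
          have : 0 ≤ K1 * 2 ^ (k - j) := by positivity
          nlinarith
        gcongr

/-- the rest of a short leaf behind any piece P -/
theorem rest_th (h : Inp C δ) (hA : SsA) : ∃ K c : ℝ, 1 ≤ K ∧ 0 < c ∧ ∀ (k j N n r : ℕ) (lam : ℝ) (x A : ℝ≥0∞)
    (Φ : List Bool → ℝ≥0∞) (P : List Bool), DomJ k x Φ → j ≤ k → gf (HS k N lam) ≤ A → n ≤ 2 ^ (k + 1) →
    P ∈ Irr r →
    Rec8.sw {Z | Z ∈ BU ∧ ∃ Y ∈ Brd n, Y ++ (P ++ Z) ∈ BrR (2 ^ (k + 4)) N} (fun Z => Gsh lam Φ (P ++ Z)) ≤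
      (ENNReal.ofReal (1 + K * (UU N / Ub k)) * x) * ((if 2 ^ k < r then SS k P else 0) +
        (ENNReal.ofReal (K * (2 : ℝ) ^ (-(c * ((k : ℝ) - j))) * UU N) + ENNReal.ofReal (K * 2 ^ (k - j)) * A)) := by
  obtain ⟨K1, c, hK1, hc, h1⟩ := rest_exp h hA
  obtain ⟨K2, hK2, h2⟩ := restD_of hA
  refine ⟨K1 + K2, c, by linarith, hc, fun k j N n r lam x A Φ P hΦ hj hHS hn hP => ?_⟩
  have hp4 : 2 ^ (k + 4) = 16 * 2 ^ k := by ring
  have hp1 : 2 ^ (k + 1) = 2 * 2 ^ k := by ring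
  have hp0 : 1 ≤ 2 ^ k := Nat.one_le_two_pow
  have hU := Ub_pos k
  have hUN : 0 < UU N := Num2Aux.UU_pos N
  obtain ⟨q, hq⟩ : ∃ q : ℝ, q = (2 : ℝ) ^ (-(c * ((k : ℝ) - j))) := ⟨_, rfl⟩
  have hq0 : 0 < q := by
    rw [hq]
    exact Real.rpow_pos_of_pos two_pos _
  by_cases hr : 2 ^ k < r
  · rw [if_pos hr]
    refine le_trans ?_ (mul_le_mul_right le_self_add _)
    have h3 : Rec8.sw {Z | Z ∈ BU ∧ ∃ Y ∈ Brd n, Y ++ (P ++ Z) ∈ BrR (2 ^ (k + 4)) N} (fun Z => Gsh lam Φ (P ++ Z)) ≤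
        Rec8.sw {Z | Z ∈ BU ∧ ∃ Y ∈ Brd n, Y ++ (P ++ Z) ∈ BrR (2 ^ (k + 4)) N} (fun Z => Φ (P ++ Z)) :=
      Rec8.sw_mono' fun Z _ => Gsh_le _ _ _
    refine h3.trans ((h2 (2 ^ (k + 4)) N k n r x Φ P hΦ.dom (by omega) hP).trans ?_)
    have h4 : (if 2 ^ (k + 4) ≤ n + r + 2 ^ (k + 1) then SS k P else 0) ≤ SS k P := by
      split_ifs
      · exact le_rfl
      · exact zero_le
    have h5 : ENNReal.ofReal (K2 * UU N) ≤ ENNReal.ofReal (K2 * (UU N / Ub k)) * SS k P := by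
      refine le_trans (le_of_eq ?_) (mul_le_mul_right (DE.Ub_le_SS k P) _)
      rw [← ENNReal.ofReal_mul (by positivity)]
      congr 1
      field_simp
    calc x * ((if 2 ^ (k + 4) ≤ n + r + 2 ^ (k + 1) then SS k P else 0) + ENNReal.ofReal (K2 * UU N))
        ≤ x * (SS k P + ENNReal.ofReal (K2 * (UU N / Ub k)) * SS k P) := mul_le_mul_right (add_le_add h4 h5) _
      _ = (ENNReal.ofReal (1 + K2 * (UU N / Ub k)) * x) * SS k P := by
          rw [ENNReal.ofReal_add (by norm_num) (by positivity), ENNReal.ofReal_one]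
          ring
      _ ≤ _ := by
          have : K2 * (UU N / Ub k) ≤ (K1 + K2) * (UU N / Ub k) := by
            have : 0 ≤ K1 * (UU N / Ub k) := by positivity
            nlinarith
          gcongr
  · rw [if_neg hr, zero_add]
    refine (h1 k j N n r lam x A Φ P hΦ hj hHS hn (by omega) hP).trans ?_
    rw [← hq]
    have h6 : (1 : ℝ≥0∞) ≤ ENNReal.ofReal (1 + (K1 + K2) * (UU N / Ub k)) := by
      rw [← ENNReal.ofReal_one]
      apply ENNReal.ofReal_le_ofReal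
      have : 0 ≤ (K1 + K2) * (UU N / Ub k) := by positivity
      linarith
    have e1 : K1 * q * UU N ≤ (K1 + K2) * q * UU N := by
      have : 0 ≤ K2 * q * UU N := by positivity
      nlinarith
    have e2 : K1 * 2 ^ (k - j) ≤ (K1 + K2) * 2 ^ (k - j) := by
      have : 0 ≤ K2 * (2 : ℝ) ^ (k - j) := by positivity
      nlinarith
    calc x * (ENNReal.ofReal (K1 * q * UU N) + ENNReal.ofReal (K1 * 2 ^ (k - j)) * A)
        ≤ (1 * x) * (ENNReal.ofReal ((K1 + K2) * q * UU N) + ENNReal.ofReal ((K1 + K2) * 2 ^ (k - j)) * A) := by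
          rw [one_mul]
          gcongr
      _ ≤ _ := by gcongr

/-- the next leaf is short -/
theorem near_exp (h : Inp C δ) (hA : SsA) : ∃ K c : ℝ, 1 ≤ K ∧ 0 < c ∧ ∀ (k j j' N : ℕ) (lam A : ℝ) (x : ℝ≥0∞)
    (Φ : List Bool → ℝ≥0∞), DomJ k x Φ → j ≤ k → j' ≤ k → 0 ≤ A → gf (HS k N lam) ≤ ENNReal.ofReal A →
    xT (2 ^ (k + 4)) k (vA (2 ^ (k + 4)) {g | g ∈ BrR (2 ^ (k + 4)) N ∧ (g.length : ℝ) < lam} Φ) ≤
      ENNReal.ofReal (K * (1 + UU N / Ub k) * ((2 : ℝ) ^ (-(c * ((k : ℝ) - j'))) +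
        ((2 : ℝ) ^ (-(c * ((k : ℝ) - j))) * UU N + 2 ^ (k - j) * A) / Ub j')) * x := by
  classical
  obtain ⟨K3, c3, hK3, hc3, k3h⟩ := ss3J h
  obtain ⟨K1, hK1, k1h⟩ := k1 h
  obtain ⟨Kr, cr, hKr, hcr, hrest⟩ := rest_th h hA
  refine ⟨16 * Kr * (K3 + Kr * K1), min c3 cr, ?_, lt_min hc3 hcr, fun k j j' N lam A x Φ hΦ hj hj' hA0 hHS => ?_⟩
  · have h1 : 1 ≤ Kr * K1 := one_le_mul_of_one_le_of_one_le hKr hK1
    have h2 : 1 ≤ K3 + Kr * K1 := by linarith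
    have h3 : 1 ≤ Kr * (K3 + Kr * K1) := one_le_mul_of_one_le_of_one_le hKr h2
    nlinarith
  refine xT_le fun b I hb hI => ?_
  obtain ⟨i, hIi⟩ := hI
  have hp4 : 2 ^ (k + 4) = 8 * 2 ^ (k + 1) := by ring
  have hp1 : 2 ^ (k + 1) = 2 * 2 ^ k := by ring
  have hp0 : 1 ≤ 2 ^ k := Nat.one_le_two_pow
  have hk0e : 2 ^ (j' + 1) ≤ 2 ^ (k + 1) := Nat.pow_le_pow_right (by norm_num) (by omega)
  have hUN : 0 < UU N := Num2Aux.UU_pos N
  have hU := Ub_pos k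
  have hUj := Ub_pos j'
  obtain ⟨q, hq⟩ : ∃ q : ℝ, q = (2 : ℝ) ^ (-(cr * ((k : ℝ) - j))) := ⟨_, rfl⟩
  obtain ⟨q', hq'⟩ : ∃ q' : ℝ, q' = (2 : ℝ) ^ (-(c3 * ((k : ℝ) - j'))) := ⟨_, rfl⟩
  have hq0 : 0 < q := by
    rw [hq]
    exact Real.rpow_pos_of_pos two_pos _
  have hq0' : 0 < q' := by
    rw [hq']
    exact Real.rpow_pos_of_pos two_pos _
  have hjk : (j : ℝ) ≤ k := by exact_mod_cast hj
  have hjk' : (j' : ℝ) ≤ k := by exact_mod_cast hj'
  have hq1 : q ≤ (2 : ℝ) ^ (-(min c3 cr * ((k : ℝ) - j))) := by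
    rw [hq]
    refine Real.rpow_le_rpow_of_exponent_le (by norm_num) ?_
    have := min_le_right c3 cr
    nlinarith
  have hq1' : q' ≤ (2 : ℝ) ^ (-(min c3 cr * ((k : ℝ) - j'))) := by
    rw [hq']
    refine Real.rpow_le_rpow_of_exponent_le (by norm_num) ?_
    have := min_le_left c3 cr
    nlinarith
  obtain ⟨B, hB⟩ : ∃ B : ℝ, B = Kr * q * UU N + Kr * 2 ^ (k - j) * A := ⟨_, rfl⟩
  have hB0 : 0 ≤ B := by
    rw [hB]
    positivity
  have hBe : ENNReal.ofReal (Kr * q * UU N) + ENNReal.ofReal (Kr * 2 ^ (k - j)) * ENNReal.ofReal A = ENNReal.ofReal B := by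
    rw [hB, ENNReal.ofReal_add (by positivity) (by positivity), ENNReal.ofReal_mul (p := Kr * 2 ^ (k - j)) (by positivity)]
  obtain ⟨ρ, hρ⟩ : ∃ ρ : ℝ, ρ = 1 + Kr * (UU N / Ub k) := ⟨_, rfl⟩
  have hρ0 : 0 ≤ ρ := by
    rw [hρ]
    positivity
  let Θ : ℕ → List Bool → ℝ≥0∞ := fun r P =>
    (ENNReal.ofReal ρ * x) * ((if 2 ^ k < r then SS k P else 0) + ENNReal.ofReal B)
  have s0 : ∀ t, vA (2 ^ (k + 4)) {g | g ∈ BrR (2 ^ (k + 4)) N ∧ (g.length : ℝ) < lam} Φ t ≤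
      vA (2 ^ (k + 4)) (BrR (2 ^ (k + 4)) N) (fun g => Gsh lam Φ g) t := by
    intro t
    unfold vA
    rw [Rec8.sw_ind, Rec8.sw_ind]
    refine ENNReal.tsum_le_tsum fun g => ?_
    by_cases h1 : g ∈ {g' | g' ∈ {g | g ∈ BrR (2 ^ (k + 4)) N ∧ (g.length : ℝ) < lam} ∧ RT (2 ^ (k + 4)) LFold t g'}
    · rw [if_pos h1, if_pos (show g ∈ {g' | g' ∈ BrR (2 ^ (k + 4)) N ∧ RT (2 ^ (k + 4)) LFold t g'} from
        ⟨h1.1.1, h1.2⟩), Gsh_eq, if_pos h1.1.2]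
    · rw [if_neg h1]
      exact zero_le
  have s1 : Rec8.sw (Fld.BrB b) (fun M => vA (2 ^ (k + 4)) {g | g ∈ BrR (2 ^ (k + 4)) N ∧ (g.length : ℝ) < lam} Φ (I ++ M)) ≤
      Rec8.sw (Fld.BrB b) (fun M => ∑' n : ℕ, ∑' r : ℕ, mu j' n r * Rec8.sw (Brd n) (fun X =>
        Rec8.sw {P | P ∈ Irr r ∧ ∃ c : Bool, KRel (2 ^ (k + 4)) I P M ((!c) :: c :: X)} (fun P => Θ r P))) := by
    refine Rec8.sw_mono' fun M hM => (s0 _).trans ?_
    obtain ⟨m, -, hMm⟩ := hM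
    refine WN.next_win (G := fun _ => Gsh lam Φ) (fun _ => Gsh_her hΦ.her) (by omega) le_rfl (fun _ r P => Θ r P)
      (fun n r P hn hP => ?_) hIi.1 hMm
    have h9 := hrest k j N n r lam x _ Φ P hΦ hj hHS (by omega) hP
    rw [← hq, hBe, ← hρ] at h9
    exact h9
  have s2 := fold_sum (2 ^ (k + 4)) b j' I (mu j') (mb j') (fun a n r => mu_le_mb) (fun n r => mu_eq_zero)
    (fun a r => mb_mono (Nat.le_succ a) r) Θ
  refine s1.trans (s2.trans ?_)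
  have s4 := DW.sumS (2 ^ (k + 4)) j' b I (ENNReal.ofReal ρ * x) (ENNReal.ofReal B) k k (mb j') (fun a r => mb_le_one _ _ _)
  have t1 := k3h (2 ^ (k + 4)) k j' b I le_rfl hj' hb
  have t2 := k1h (2 ^ (k + 4)) k j' b I le_rfl (by omega) hb
  rw [← hq'] at t1
  calc 16 * ∑ a ∈ range (j' + 2), ∑' r : ℕ, mb j' a r * Rec8.sw (Irr r) (fun P => KT (2 ^ (k + 4)) b I a P * Θ r P)
      ≤ 16 * ((ENNReal.ofReal ρ * x) * (ENNReal.ofReal (K3 * q') * Sw (2 ^ (k + 4)) k b I +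
          ENNReal.ofReal B * (ENNReal.ofReal (K1 / Ub j') * Sw (2 ^ (k + 4)) k b I))) := by
        refine mul_le_mul_right (s4.trans ?_) _
        exact mul_le_mul_right (add_le_add t1 (mul_le_mul_right t2 _)) _
    _ = ENNReal.ofReal (16 * ρ * (K3 * q' + B * (K1 / Ub j'))) * x * Sw (2 ^ (k + 4)) k b I := by
        have e16 : ENNReal.ofReal 16 = 16 := by simp
        rw [ENNReal.ofReal_mul (p := 16 * ρ) (by positivity), ENNReal.ofReal_mul (p := 16) (by norm_num),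
          ENNReal.ofReal_add (by positivity) (by positivity), ENNReal.ofReal_mul (p := B) hB0, e16]
        ring
    _ ≤ _ := by
        refine mul_le_mul_left (mul_le_mul_left (ENNReal.ofReal_le_ofReal ?_) _) _
        obtain ⟨Q, hQ⟩ : ∃ Q : ℝ, Q = (2 : ℝ) ^ (-(min c3 cr * ((k : ℝ) - j))) := ⟨_, rfl⟩
        obtain ⟨Q', hQ'⟩ : ∃ Q' : ℝ, Q' = (2 : ℝ) ^ (-(min c3 cr * ((k : ℝ) - j'))) := ⟨_, rfl⟩
        rw [← hQ] at hq1 ⊢
        rw [← hQ'] at hq1' ⊢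
        have r1 : ρ ≤ Kr * (1 + UU N / Ub k) := by
          rw [hρ]
          nlinarith
        have r2 : K3 * q' + B * (K1 / Ub j') ≤ (K3 + Kr * K1) * (Q' + (Q * UU N + 2 ^ (k - j) * A) / Ub j') := by
          have e1 : B * (K1 / Ub j') ≤ (Kr * K1) * ((Q * UU N + 2 ^ (k - j) * A) / Ub j') := by
            rw [hB]
            have e2 : (Kr * q * UU N + Kr * 2 ^ (k - j) * A) * (K1 / Ub j') =
                (Kr * K1) * ((q * UU N + 2 ^ (k - j) * A) / Ub j') := by ring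
            rw [e2]
            gcongr
          have e3 : K3 * q' ≤ K3 * Q' := by gcongr
          have hQ0 : 0 ≤ Q := hq0.le.trans hq1
          have hQ0' : 0 ≤ Q' := hq0'.le.trans hq1'
          have e4 : 0 ≤ K3 * ((Q * UU N + 2 ^ (k - j) * A) / Ub j') := by positivity
          have e5 : 0 ≤ Kr * K1 * Q' := by positivity
          nlinarith
        calc 16 * ρ * (K3 * q' + B * (K1 / Ub j'))
            ≤ 16 * (Kr * (1 + UU N / Ub k)) * ((K3 + Kr * K1) * (Q' + (Q * UU N + 2 ^ (k - j) * A) / Ub j')) := by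
              have e6 : 0 ≤ K3 * q' + B * (K1 / Ub j') := by positivity
              exact mul_le_mul (mul_le_mul_of_nonneg_left r1 (by norm_num)) r2 e6 (by positivity)
          _ = _ := by ring

/-- the short leaves, two sided -/
theorem free_exp (h : Inp C δ) (hA : SsA) : ∃ K c : ℝ, 1 ≤ K ∧ 0 < c ∧ ∀ (k j j' N : ℕ) (lam A : ℝ) (y x : ℝ≥0∞)
    (Ψ Φ : List Bool → ℝ≥0∞), DomJ k y Ψ → DomJ k x Φ → j ≤ k → j' ≤ k → 0 ≤ A → gf (HS k N lam) ≤ ENNReal.ofReal A →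
    Rec8.sw {g | g ∈ BrR (2 ^ (k + 4)) N ∧ (g.length : ℝ) < lam} (fun g => Ψ (rev g) * Φ g) ≤
      ENNReal.ofReal (K * (1 + UU N / Ub k) * ((2 : ℝ) ^ (-(c * ((k : ℝ) - j'))) * Ub k +
        2 ^ (k - j') * ((2 : ℝ) ^ (-(c * ((k : ℝ) - j))) * UU N + 2 ^ (k - j) * A))) * (y * x) := by
  classical
  obtain ⟨Ks, cs, hKs, hcs, hss⟩ := ssJ1 h
  obtain ⟨K1, hK1, hend1⟩ := endsJ hA
  obtain ⟨Kr, cr, hKr, hcr, hrest⟩ := rest_th h hA
  refine ⟨Kr * (Ks + Kr * K1), min cs cr, ?_, lt_min hcs hcr, fun k j j' N lam A y x Ψ Φ hΨ hΦ hj hj' hA0 hHS => ?_⟩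
  · have h1 : 1 ≤ Kr * K1 := one_le_mul_of_one_le_of_one_le hKr hK1
    have h2 : 1 ≤ Ks + Kr * K1 := by linarith
    exact one_le_mul_of_one_le_of_one_le hKr h2
  have hp4 : 2 ^ (k + 4) = 8 * 2 ^ (k + 1) := by ring
  have hp1 : 2 ^ (k + 1) = 2 * 2 ^ k := by ring
  have hp0 : 1 ≤ 2 ^ k := Nat.one_le_two_pow
  have hk0e : 2 ^ (j' + 1) ≤ 2 ^ (k + 1) := Nat.pow_le_pow_right (by norm_num) (by omega)
  have hUN : 0 < UU N := Num2Aux.UU_pos N
  have hU := Ub_pos k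
  obtain ⟨q, hq⟩ : ∃ q : ℝ, q = (2 : ℝ) ^ (-(cr * ((k : ℝ) - j))) := ⟨_, rfl⟩
  obtain ⟨q', hq'⟩ : ∃ q' : ℝ, q' = (2 : ℝ) ^ (-(cs * ((k : ℝ) - j'))) := ⟨_, rfl⟩
  have hq0 : 0 < q := by
    rw [hq]
    exact Real.rpow_pos_of_pos two_pos _
  have hq0' : 0 < q' := by
    rw [hq']
    exact Real.rpow_pos_of_pos two_pos _
  have hjk : (j : ℝ) ≤ k := by exact_mod_cast hj
  have hjk' : (j' : ℝ) ≤ k := by exact_mod_cast hj'
  have hq1 : q ≤ (2 : ℝ) ^ (-(min cs cr * ((k : ℝ) - j))) := by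
    rw [hq]
    refine Real.rpow_le_rpow_of_exponent_le (by norm_num) ?_
    have := min_le_right cs cr
    nlinarith
  have hq1' : q' ≤ (2 : ℝ) ^ (-(min cs cr * ((k : ℝ) - j'))) := by
    rw [hq']
    refine Real.rpow_le_rpow_of_exponent_le (by norm_num) ?_
    have := min_le_left cs cr
    nlinarith
  obtain ⟨B, hB⟩ : ∃ B : ℝ, B = Kr * q * UU N + Kr * 2 ^ (k - j) * A := ⟨_, rfl⟩
  have hB0 : 0 ≤ B := by
    rw [hB]
    positivity
  have hBe : ENNReal.ofReal (Kr * q * UU N) + ENNReal.ofReal (Kr * 2 ^ (k - j)) * ENNReal.ofReal A = ENNReal.ofReal B := by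
    rw [hB, ENNReal.ofReal_add (by positivity) (by positivity), ENNReal.ofReal_mul (p := Kr * 2 ^ (k - j)) (by positivity)]
  obtain ⟨ρ, hρ⟩ : ∃ ρ : ℝ, ρ = 1 + Kr * (UU N / Ub k) := ⟨_, rfl⟩
  have hρ0 : 0 ≤ ρ := by
    rw [hρ]
    positivity
  obtain ⟨G, hG⟩ : ∃ G : List Bool → ℝ≥0∞, G = fun g => if (g.length : ℝ) < lam then Ψ (rev g) * Φ g else 0 := ⟨_, rfl⟩
  have hGg : ∀ g, G g = if (g.length : ℝ) < lam then Ψ (rev g) * Φ g else 0 := fun g => by rw [hG]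
  have e1 : Rec8.sw {g | g ∈ BrR (2 ^ (k + 4)) N ∧ (g.length : ℝ) < lam} (fun g => Ψ (rev g) * Φ g) =
      Rec8.sw (BrR (2 ^ (k + 4)) N) G := by
    rw [Rec8.sw_ind, Rec8.sw_ind]
    refine tsum_congr fun g => ?_
    rw [hGg]
    by_cases h1 : g ∈ BrR (2 ^ (k + 4)) N
    · by_cases h2 : (g.length : ℝ) < lam
      · rw [if_pos (show g ∈ {g | g ∈ BrR (2 ^ (k + 4)) N ∧ (g.length : ℝ) < lam} from ⟨h1, h2⟩), if_pos h1, if_pos h2]
      · rw [if_neg (fun h3 : g ∈ {g | g ∈ BrR (2 ^ (k + 4)) N ∧ (g.length : ℝ) < lam} => h2 h3.2), if_pos h1,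
          if_neg h2, mul_zero]
    · rw [if_neg (fun h3 : g ∈ {g | g ∈ BrR (2 ^ (k + 4)) N ∧ (g.length : ℝ) < lam} => h1 h3.1), if_neg h1]
  rw [e1]
  -- the rest behind the piece near the head
  have hrest' : ∀ (n r : ℕ) (X P : List Bool), n < 2 ^ (j' + 1) → X ∈ Brd n → P ∈ Irr r →
      Rec8.sw {Z | Z ∈ BU ∧ X ++ (P ++ Z) ∈ BrR (2 ^ (k + 4)) N} (fun Z => G (X ++ (P ++ Z))) ≤
        Ψ (rev P ++ rev X) * ((ENNReal.ofReal ρ * x) * ((if 2 ^ k < r then SS k P else 0) + ENNReal.ofReal B)) := by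
    intro n r X P hn hX hP
    have h1 : Rec8.sw {Z | Z ∈ BU ∧ X ++ (P ++ Z) ∈ BrR (2 ^ (k + 4)) N} (fun Z => G (X ++ (P ++ Z))) ≤
        Rec8.sw {Z | Z ∈ BU ∧ ∃ Y ∈ Brd n, Y ++ (P ++ Z) ∈ BrR (2 ^ (k + 4)) N}
          (fun Z => Ψ (rev P ++ rev X) * Gsh lam Φ (P ++ Z)) := by
      refine Rec8.sw_mono (fun Z hZ => ⟨hZ.1, X, hX, hZ.2⟩) fun Z hZ => ?_
      obtain ⟨⟨z, hZ1⟩, -⟩ := hZ
      rw [hGg]
      by_cases h2 : ((X ++ (P ++ Z)).length : ℝ) < lam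
      · rw [if_pos h2, Gsh_eq, if_pos]
        · refine mul_le_mul' ?_ (hΦ.her X ⟨n, hX⟩ _)
          rw [rev_append, rev_append, List.append_assoc]
          exact hΨ.her (rev Z) ⟨z, Brd_rev hZ1⟩ _
        · rw [List.length_append] at h2
          push_cast at h2
          have a1 : (0 : ℝ) ≤ (X.length : ℝ) := Nat.cast_nonneg _
          linarith
      · rw [if_neg h2]
        exact zero_le
    refine h1.trans ?_
    rw [Rec8.sw_mul_left]
    have h9 := hrest k j N n r lam x _ Φ P hΦ hj hHS (by omega) hP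
    rw [← hq, hBe, ← hρ] at h9
    exact mul_le_mul_right h9 _
  obtain ⟨x', hx'⟩ : ∃ x', x' = ENNReal.ofReal ρ * x := ⟨_, rfl⟩
  obtain ⟨B', hB'⟩ : ∃ B', B' = ENNReal.ofReal B := ⟨_, rfl⟩
  rw [← hx', ← hB'] at hrest'
  -- the level near the head
  have s1 : Rec8.sw (BrR (2 ^ (k + 4)) N) G ≤ ∑' n : ℕ, ∑' r : ℕ, mu j' n r * Rec8.sw (Brd n) (fun X =>
      Rec8.sw (Irr r) (fun P => Ψ (rev P ++ rev X) * (x' * ((if 2 ^ k < r then SS k P else 0) + B')))) := by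
    refine (inR (j := j') (D := 2 ^ (k + 4)) (N := N) (by omega) _).trans ?_
    refine ENNReal.tsum_le_tsum fun n => ENNReal.tsum_le_tsum fun r => ?_
    by_cases hn : 2 ^ (j' + 1) ≤ n
    · rw [mu_eq_zero hn, zero_mul, zero_mul]
    exact mul_le_mul_right (Rec8.sw_mono' fun X hX => Rec8.sw_mono' fun P hP => hrest' n r X P (by omega) hX hP) _
  refine s1.trans ?_
  -- reversal of X and exchange of the sums
  have s2 : ∀ n r : ℕ, Rec8.sw (Brd n) (fun X => Rec8.sw (Irr r) (fun P => Ψ (rev P ++ rev X) *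
        (x' * ((if 2 ^ k < r then SS k P else 0) + B')))) =
      Rec8.sw (Irr r) (fun P => (x' * ((if 2 ^ k < r then SS k P else 0) + B')) *
        Rec8.sw (Brd n) (fun M => Ψ (rev P ++ M))) := by
    intro n r
    rw [Rec8.sw_comm]
    refine Rec8.sw_congr fun P _ => ?_
    rw [← Rec8.sw_mul_left, ← DO.sw_rev (Brd n) (fun t ht => Brd_rev ht)
      (fun M => (x' * ((if 2 ^ k < r then SS k P else 0) + B')) * Ψ (rev P ++ M))]
    exact Rec8.sw_congr fun X _ => mul_comm _ _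
  simp only [s2]
  -- the two parts
  have s3 : ∀ r : ℕ, ∑' n : ℕ, mu j' n r * Rec8.sw (Irr r) (fun P =>
      (x' * ((if 2 ^ k < r then SS k P else 0) + B')) *
        Rec8.sw (Brd n) (fun M => Ψ (rev P ++ M))) ≤
      x' * (y * (if 2 ^ k < r then Rec8.sw (Irr r) (fun P => SJ k j' (rev P) * SS k P) else 0)) +
      x' * (B' * ∑' n : ℕ, mu j' n r * Rec8.sw (Irr r) (fun P => Rec8.sw (Brd n) (fun M => Ψ (P ++ M)))) := by
    intro r
    have e1 : ∀ n : ℕ, Rec8.sw (Irr r) (fun P => (x' * ((if 2 ^ k < r then SS k P else 0) + B')) *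
        Rec8.sw (Brd n) (fun M => Ψ (rev P ++ M))) =
        Rec8.sw (Irr r) (fun P => x' * ((if 2 ^ k < r then SS k P else 0) *
          Rec8.sw (Brd n) (fun M => Ψ (rev P ++ M)))) +
        x' * (B' * Rec8.sw (Irr r) (fun P => Rec8.sw (Brd n) (fun M => Ψ (P ++ M)))) := by
      intro n
      rw [← DO.sw_rev (Irr r) (fun t ht => Irr_rev ht) (fun P => Rec8.sw (Brd n) (fun M => Ψ (P ++ M))),
        ← Rec8.sw_mul_left, ← Rec8.sw_mul_left, ← Rec8.sw_add]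
      refine Rec8.sw_congr fun P _ => ?_
      ring
    have e1' : ∀ n : ℕ, mu j' n r * Rec8.sw (Irr r) (fun P => (x' * ((if 2 ^ k < r then
        SS k P else 0) + B')) * Rec8.sw (Brd n) (fun M => Ψ (rev P ++ M))) =
        mu j' n r * Rec8.sw (Irr r) (fun P => x' * ((if 2 ^ k < r then SS k P else 0) *
          Rec8.sw (Brd n) (fun M => Ψ (rev P ++ M)))) +
        mu j' n r * (x' * (B' * Rec8.sw (Irr r) (fun P => Rec8.sw (Brd n) (fun M => Ψ (P ++ M))))) := fun n => by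
      rw [e1 n, mul_add]
    rw [tsum_congr e1', ENNReal.tsum_add]
    refine add_le_add ?_ ?_
    · rw [DO.tsum_pull (Irr r) (fun n => mu j' n r) x' (fun P => if 2 ^ k < r then SS k P else 0)
        (fun n P => Rec8.sw (Brd n) (fun M => Ψ (rev P ++ M)))]
      have e3 : Rec8.sw (Irr r) (fun P => x' * ((if 2 ^ k < r then SS k P else 0) *
            ∑' n : ℕ, mu j' n r * Rec8.sw (Brd n) (fun M => Ψ (rev P ++ M)))) ≤
          Rec8.sw (Irr r) (fun P => x' * ((if 2 ^ k < r then SS k P else 0) *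
            (y * SJ k j' (rev P)))) :=
        Rec8.sw_mono' fun P hP => mul_le_mul_right (mul_le_mul_right ((sum_low1 j' r _).trans
          (hΨ.bdj j' hj' r (rev P) (Irr_rev hP))) _) _
      refine e3.trans (le_of_eq ?_)
      by_cases hr : 2 ^ k < r
      · simp only [if_pos hr]
        rw [← Rec8.sw_mul_left, ← Rec8.sw_mul_left]
        refine Rec8.sw_congr fun P _ => ?_
        ring
      · simp only [if_neg hr]
        simp [Rec8.sw_zero]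
    · rw [← ENNReal.tsum_mul_left, ← ENNReal.tsum_mul_left]
      refine ENNReal.tsum_le_tsum fun n => le_of_eq ?_
      ring
  rw [ENNReal.tsum_comm]
  refine (ENNReal.tsum_le_tsum s3).trans ?_
  rw [ENNReal.tsum_add, ENNReal.tsum_mul_left, ENNReal.tsum_mul_left, ENNReal.tsum_mul_left, ENNReal.tsum_mul_left]
  have t1 := hss k j' hj'
  unfold KJ.Lg at t1
  have t2 := hend1 k j' y Ψ hΨ hj'
  rw [← hq'] at t1
  calc x' * (y * ∑' r : ℕ, (if 2 ^ k < r then Rec8.sw (Irr r) (fun P => SJ k j' (rev P) * SS k P) else 0)) +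
      x' * (B' * ∑' r : ℕ, ∑' n : ℕ, mu j' n r * Rec8.sw (Irr r) (fun P => Rec8.sw (Brd n) (fun M => Ψ (P ++ M))))
      ≤ x' * (y * ENNReal.ofReal (Ks * q' * Ub k)) + x' * (B' * (ENNReal.ofReal (K1 * 2 ^ (k - j')) * y)) := by gcongr
    _ = ENNReal.ofReal (ρ * (Ks * q' * Ub k + B * (K1 * 2 ^ (k - j')))) * (y * x) := by
        rw [hB', hx', ENNReal.ofReal_mul (p := ρ) hρ0, ENNReal.ofReal_add (by positivity) (by positivity),
          ENNReal.ofReal_mul (p := B) hB0]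
        ring
    _ ≤ _ := by
        refine mul_le_mul_left (ENNReal.ofReal_le_ofReal ?_) _
        obtain ⟨Q, hQ⟩ : ∃ Q : ℝ, Q = (2 : ℝ) ^ (-(min cs cr * ((k : ℝ) - j))) := ⟨_, rfl⟩
        obtain ⟨Q', hQ'⟩ : ∃ Q' : ℝ, Q' = (2 : ℝ) ^ (-(min cs cr * ((k : ℝ) - j'))) := ⟨_, rfl⟩
        rw [← hQ] at hq1 ⊢
        rw [← hQ'] at hq1' ⊢
        have hQ0 : 0 ≤ Q := hq0.le.trans hq1
        have hQ0' : 0 ≤ Q' := hq0'.le.trans hq1'
        have r1 : ρ ≤ Kr * (1 + UU N / Ub k) := by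
          rw [hρ]
          nlinarith
        have r2 : Ks * q' * Ub k + B * (K1 * 2 ^ (k - j')) ≤
            (Ks + Kr * K1) * (Q' * Ub k + 2 ^ (k - j') * (Q * UU N + 2 ^ (k - j) * A)) := by
          have e1 : B * (K1 * 2 ^ (k - j')) ≤ (Kr * K1) * (2 ^ (k - j') * (Q * UU N + 2 ^ (k - j) * A)) := by
            rw [hB]
            have e2 : (Kr * q * UU N + Kr * 2 ^ (k - j) * A) * (K1 * 2 ^ (k - j')) =
                (Kr * K1) * (2 ^ (k - j') * (q * UU N + 2 ^ (k - j) * A)) := by ring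
            rw [e2]
            gcongr
          have e3 : Ks * q' * Ub k ≤ Ks * (Q' * Ub k) := by
            rw [mul_assoc]
            gcongr
          have e4 : 0 ≤ Ks * (2 ^ (k - j') * (Q * UU N + 2 ^ (k - j) * A)) := by positivity
          have e5 : 0 ≤ Kr * K1 * (Q' * Ub k) := by positivity
          nlinarith
        calc ρ * (Ks * q' * Ub k + B * (K1 * 2 ^ (k - j')))
            ≤ (Kr * (1 + UU N / Ub k)) * ((Ks + Kr * K1) * (Q' * Ub k + 2 ^ (k - j') * (Q * UU N + 2 ^ (k - j) * A))) := by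
              have e6 : 0 ≤ Ks * q' * Ub k + B * (K1 * 2 ^ (k - j')) := by positivity
              exact mul_le_mul r1 r2 e6 (by positivity)
          _ = _ := by ring

end SE

open SE in
/-- **the short leaves have exponentially small norm, next leaf and two sided** -/
theorem short_q4 (h : Inp C δ) (hA : SsA) : ∃ (d : ℝ) (C : ℕ), 0 < d ∧ 1 ≤ C ∧
    ∀ (kc J a q : ℕ) (x : ℝ), C * (q + 1) ≤ 2 ^ a → C * (q + 1) + a ≤ kc → NTm.AS x (d * Ub (kc - a)) →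
      SmD DmJ kc (NTm.SL kc J x) (C * 4 ^ J * (1 / 2) ^ q) := by
  classical
  obtain ⟨K1, c1, hK1, hc1, hnear⟩ := near_exp h hA
  obtain ⟨K2, c2, hK2, hc2, hfree⟩ := free_exp h hA
  obtain ⟨d, s, k0, hd, htall⟩ := NTm.tallV
  -- the windows
  obtain ⟨c, hc⟩ : ∃ c, c = min c1 c2 := ⟨_, rfl⟩
  have hc0 : 0 < c := by
    rw [hc]
    exact lt_min hc1 hc2
  have hcc1 : c ≤ c1 := by rw [hc]; exact min_le_left _ _
  have hcc2 : c ≤ c2 := by rw [hc]; exact min_le_right _ _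
  obtain ⟨D', hD'⟩ : ∃ D' : ℕ, 1 ≤ c * D' := by
    obtain ⟨n, hn⟩ := exists_nat_ge (1 / c)
    rw [div_le_iff₀ hc0] at hn
    exact ⟨n, by linarith⟩
  obtain ⟨D, hD⟩ : ∃ D : ℕ, (D' : ℝ) + 1 ≤ c * D := by
    obtain ⟨n, hn⟩ := exists_nat_ge (((D' : ℝ) + 1) / c)
    rw [div_le_iff₀ hc0] at hn
    exact ⟨n, by linarith⟩
  obtain ⟨CK, hCK⟩ := exists_nat_ge (6 * (K1 + K2))
  refine ⟨d, 2 ^ s * (D + D' + 1) + k0 + D + D' + CK, hd, ?_, ?_⟩
  · have h1 : 1 ≤ 2 ^ s := Nat.one_le_two_pow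
    have h2 : 1 ≤ 2 ^ s * (D + D' + 1) := Nat.mul_pos h1 (by omega)
    omega
  intro kc J a q lam h1 h2 hAS
  obtain ⟨C, hC⟩ : ∃ C : ℕ, C = 2 ^ s * (D + D' + 1) + k0 + D + D' + CK := ⟨_, rfl⟩
  rw [← hC] at h1 h2 ⊢
  obtain ⟨R, hR⟩ : ∃ R : ℕ, R = D * (q + 1) := ⟨_, rfl⟩
  obtain ⟨R', hR'⟩ : ∃ R' : ℕ, R' = D' * (q + 1) := ⟨_, rfl⟩
  have hs1 : 1 ≤ 2 ^ s := Nat.one_le_two_pow
  have hCq : C ≤ C * (q + 1) := Nat.le_mul_of_pos_right _ (by omega)
  have hRC : R ≤ C * (q + 1) := by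
    rw [hR]
    exact Nat.mul_le_mul_right _ (by omega)
  have hRC' : R' ≤ C * (q + 1) := by
    rw [hR']
    exact Nat.mul_le_mul_right _ (by omega)
  have hs2 : 2 ^ s ≤ C := by
    have : 2 ^ s * 1 ≤ 2 ^ s * (D + D' + 1) := Nat.mul_le_mul_left _ (by omega)
    omega
  have hsa : s ≤ a := by
    by_contra hcon
    have : 2 ^ a < 2 ^ s := Nat.pow_lt_pow_right (by norm_num) (by omega)
    omega
  obtain ⟨H, hH⟩ : ∃ H : ℕ, H = 2 ^ (a - s) := ⟨_, rfl⟩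
  have hHa : 2 ^ s * H = 2 ^ a := by
    rw [hH, ← pow_add]
    congr 1
    omega
  have hHR : R + R' + q ≤ H := by
    have e1 : 2 ^ s * (R + R' + q) ≤ 2 ^ s * H := by
      rw [hHa]
      refine le_trans ?_ h1
      have e2 : R + R' + q ≤ (D + D' + 1) * (q + 1) := by
        rw [hR, hR']
        have : (D + D' + 1) * (q + 1) = D * (q + 1) + D' * (q + 1) + (q + 1) := by ring
        omega
      calc 2 ^ s * (R + R' + q) ≤ 2 ^ s * ((D + D' + 1) * (q + 1)) := Nat.mul_le_mul_left _ e2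
        _ = (2 ^ s * (D + D' + 1)) * (q + 1) := by ring
        _ ≤ C * (q + 1) := Nat.mul_le_mul_right _ (by omega)
    exact Nat.le_of_mul_le_mul_left e1 (by positivity)
  have hH1 : 1 ≤ H := by
    rw [hH]
    exact Nat.one_le_two_pow
  have hHk : H * 2 ^ (kc - a + s) = 2 ^ kc := by
    rw [hH, ← pow_add]
    congr 1
    omega
  have hU := Ub_pos kc
  have hUa := Ub_pos (kc - a)
  have hUak : Ub (kc - a) ≤ Ub kc := Ub_mono (by omega)
  have htb := htall (kc - a) lam (by omega) hAS H hH1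
  have h2J : (1 : ℝ) ≤ 2 ^ J := one_le_pow₀ (by norm_num)
  have hUN : UU (2 ^ (kc + J)) ≤ 2 ^ J * Ub kc := UU_ratio_up kc J
  have hUN0 : 0 < UU (2 ^ (kc + J)) := Num2Aux.UU_pos _
  have hρ : 1 + UU (2 ^ (kc + J)) / Ub kc ≤ 2 * 2 ^ J := by
    have : UU (2 ^ (kc + J)) / Ub kc ≤ 2 ^ J := by
      rw [div_le_iff₀ hU]
      exact hUN
    linarith
  have hρ0 : 0 ≤ 1 + UU (2 ^ (kc + J)) / Ub kc := by positivity
  obtain ⟨A, hA'⟩ : ∃ A : ℝ, A = Ub kc / 2 ^ H := ⟨_, rfl⟩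
  have hA0 : 0 ≤ A := by
    rw [hA']
    positivity
  have hHS : gf (HS kc (2 ^ (kc + J)) lam) ≤ ENNReal.ofReal A := by
    refine (gf_mono ?_).trans (htb.trans (ENNReal.ofReal_le_ofReal ?_))
    · rintro Z ⟨⟨z, z1, -, z3⟩, z4⟩
      exact ⟨z, by rw [hHk]; exact z1, z3, z4⟩
    · rw [hA']
      exact div_le_div_of_nonneg_right hUak (by positivity)
  obtain ⟨j, hj⟩ : ∃ j, j = kc - R := ⟨_, rfl⟩
  obtain ⟨j', hj'⟩ : ∃ j', j' = kc - R' := ⟨_, rfl⟩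
  have hjk : j ≤ kc := by omega
  have hjk' : j' ≤ kc := by omega
  have eR : kc - j = R := by omega
  have eR' : kc - j' = R' := by omega
  have eRr : (kc : ℝ) - j = R := by
    have : kc = j + R := by omega
    rw [this]
    push_cast
    ring
  have eRr' : (kc : ℝ) - j' = R' := by
    have : kc = j' + R' := by omega
    rw [this]
    push_cast
    ring
  have hq0 : (0 : ℝ) ≤ q := Nat.cast_nonneg q
  have e2 : ((1 / 2 : ℝ)) ^ q = (2 : ℝ) ^ (-(q : ℝ)) := by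
    rw [Real.rpow_neg (by norm_num), Real.rpow_natCast, one_div, inv_pow]
  have hpow' : ∀ c' : ℝ, c ≤ c' → (2 : ℝ) ^ (-(c' * ((kc : ℝ) - j'))) ≤ (1 / 2) ^ q := by
    intro c' hc'
    rw [eRr', e2]
    refine Real.rpow_le_rpow_of_exponent_le (by norm_num) ?_
    have e3 : (R' : ℝ) = D' * (q + 1) := by
      rw [hR']
      push_cast
      ring
    rw [e3]
    have e5 : (0 : ℝ) ≤ D' := Nat.cast_nonneg D'
    have e6 : 1 ≤ c' * D' := hD'.trans (mul_le_mul_of_nonneg_right hc' e5)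
    have e4 : c' * (D' * ((q : ℝ) + 1)) = (c' * D') * (q + 1) := by ring
    rw [e4]
    nlinarith
  have hpow : ∀ c' : ℝ, c ≤ c' → (2 : ℝ) ^ R' * (2 : ℝ) ^ (-(c' * ((kc : ℝ) - j))) ≤ (1 / 2) ^ q := by
    intro c' hc'
    rw [eRr, e2, ← Real.rpow_natCast, ← Real.rpow_add two_pos]
    refine Real.rpow_le_rpow_of_exponent_le (by norm_num) ?_
    have e3 : (R : ℝ) = D * (q + 1) := by
      rw [hR]
      push_cast
      ring
    have e3' : (R' : ℝ) = D' * (q + 1) := by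
      rw [hR']
      push_cast
      ring
    rw [e3, e3']
    have e5 : (0 : ℝ) ≤ D := Nat.cast_nonneg D
    have e6 : (D' : ℝ) + 1 ≤ c' * D := hD.trans (mul_le_mul_of_nonneg_right hc' e5)
    have e4 : c' * (D * ((q : ℝ) + 1)) = (c' * D) * (q + 1) := by ring
    rw [e4]
    nlinarith
  have hHR' : (2 : ℝ) ^ R' * (2 ^ R * A) ≤ (1 / 2) ^ q * Ub kc := by
    rw [hA']
    have e1 : (2 : ℝ) ^ (R + R' + q) ≤ 2 ^ H := pow_le_pow_right₀ (by norm_num) hHR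
    rw [pow_add, pow_add] at e1
    rw [one_div_pow]
    have e3 : (2 : ℝ) ^ R' * (2 ^ R * (Ub kc / 2 ^ H)) = (2 ^ R * 2 ^ R') * Ub kc / 2 ^ H := by ring
    rw [e3, div_le_iff₀ (by positivity)]
    have e4 : 1 / 2 ^ q * Ub kc * 2 ^ H = Ub kc * (2 ^ H / 2 ^ q) := by ring
    rw [e4, mul_comm (2 ^ R * 2 ^ R') (Ub kc)]
    refine mul_le_mul_of_nonneg_left ?_ hU.le
    rw [le_div_iff₀ (by positivity)]
    exact e1
  have hUj : Ub kc ≤ 2 ^ R' * Ub j' := by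
    have h5 := UU_ratio_up j' R'
    have e5 : j' + R' = kc := by omega
    rw [e5] at h5
    exact h5
  have hUj0 := Ub_pos j'
  have h4J : (2 : ℝ) ^ J * 2 ^ J = 4 ^ J := by
    rw [← mul_pow]
    norm_num
  have hCK6 : 6 * (K1 + K2) ≤ (C : ℝ) := by
    rw [hC]
    push_cast
    have : (0 : ℝ) ≤ 2 ^ s * (D + D' + 1) + k0 + D + D' := by positivity
    linarith
  constructor
  · intro x Φ hΦ
    refine (hnear kc j j' (2 ^ (kc + J)) lam A x Φ hΦ.2 hjk hjk' hA0 hHS).trans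
      (mul_le_mul_left (ENNReal.ofReal_le_ofReal ?_) _)
    rw [eR]
    have g1 := hpow' c1 hcc1
    have g2 := hpow c1 hcc1
    obtain ⟨Q, hQ⟩ : ∃ Q : ℝ, Q = (2 : ℝ) ^ (-(c1 * ((kc : ℝ) - j))) := ⟨_, rfl⟩
    obtain ⟨Q', hQ'⟩ : ∃ Q' : ℝ, Q' = (2 : ℝ) ^ (-(c1 * ((kc : ℝ) - j'))) := ⟨_, rfl⟩
    have hQ0 : 0 < Q := by
      rw [hQ]
      exact Real.rpow_pos_of_pos two_pos _
    have hQ0' : 0 < Q' := by
      rw [hQ']
      exact Real.rpow_pos_of_pos two_pos _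
    rw [← hQ'] at g1
    rw [← hQ] at g2
    rw [← hQ, ← hQ']
    have g3 : (Q * UU (2 ^ (kc + J)) + 2 ^ R * A) / Ub j' ≤ 2 ^ J * (1 / 2) ^ q + (1 / 2) ^ q := by
      rw [div_le_iff₀ hUj0]
      have g4 : 2 ^ R' * (Q * UU (2 ^ (kc + J)) + 2 ^ R * A) ≤ (2 ^ J * (1 / 2) ^ q + (1 / 2) ^ q) * (2 ^ R' * Ub j') := by
        calc 2 ^ R' * (Q * UU (2 ^ (kc + J)) + 2 ^ R * A) = (2 ^ R' * Q) * UU (2 ^ (kc + J)) + 2 ^ R' * (2 ^ R * A) := by
              ring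
          _ ≤ (1 / 2) ^ q * (2 ^ J * Ub kc) + (1 / 2) ^ q * Ub kc :=
              add_le_add (mul_le_mul g2 hUN hUN0.le (by positivity)) hHR'
          _ = (2 ^ J * (1 / 2) ^ q + (1 / 2) ^ q) * Ub kc := by ring
          _ ≤ _ := mul_le_mul_of_nonneg_left hUj (by positivity)
      have g5 : (0 : ℝ) < 2 ^ R' := by positivity
      have g6 : (2 ^ J * (1 / 2) ^ q + (1 / 2) ^ q) * (2 ^ R' * Ub j') =
          2 ^ R' * ((2 ^ J * (1 / 2) ^ q + (1 / 2) ^ q) * Ub j') := by ring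
      rw [g6] at g4
      exact le_of_mul_le_mul_left g4 g5
    have g7 : Q' + (Q * UU (2 ^ (kc + J)) + 2 ^ R * A) / Ub j' ≤ 3 * 2 ^ J * (1 / 2) ^ q := by
      have : (1 / 2 : ℝ) ^ q ≤ 2 ^ J * (1 / 2) ^ q := le_mul_of_one_le_left (by positivity) h2J
      linarith
    calc K1 * (1 + UU (2 ^ (kc + J)) / Ub kc) * (Q' + (Q * UU (2 ^ (kc + J)) + 2 ^ R * A) / Ub j')
        ≤ K1 * (2 * 2 ^ J) * (3 * 2 ^ J * (1 / 2) ^ q) := by
          have : 0 ≤ Q' + (Q * UU (2 ^ (kc + J)) + 2 ^ R * A) / Ub j' := by positivity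
          exact mul_le_mul (mul_le_mul_of_nonneg_left hρ (by linarith)) g7 this (by positivity)
      _ = 6 * K1 * (2 ^ J * 2 ^ J) * (1 / 2) ^ q := by ring
      _ = 6 * K1 * 4 ^ J * (1 / 2) ^ q := by rw [h4J]
      _ ≤ C * 4 ^ J * (1 / 2) ^ q := by
          have : 6 * K1 ≤ (C : ℝ) := by linarith
          gcongr
  · intro y x Ψ Φ hΨ _ hΦ
    refine (hfree kc j j' (2 ^ (kc + J)) lam A y x Ψ Φ hΨ.2 hΦ.2 hjk hjk' hA0 hHS).trans
      (mul_le_mul_left (ENNReal.ofReal_le_ofReal ?_) _)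
    rw [eR, eR']
    have g1 := hpow' c2 hcc2
    have g2 := hpow c2 hcc2
    obtain ⟨Q, hQ⟩ : ∃ Q : ℝ, Q = (2 : ℝ) ^ (-(c2 * ((kc : ℝ) - j))) := ⟨_, rfl⟩
    obtain ⟨Q', hQ'⟩ : ∃ Q' : ℝ, Q' = (2 : ℝ) ^ (-(c2 * ((kc : ℝ) - j'))) := ⟨_, rfl⟩
    have hQ0 : 0 < Q := by
      rw [hQ]
      exact Real.rpow_pos_of_pos two_pos _
    have hQ0' : 0 < Q' := by
      rw [hQ']
      exact Real.rpow_pos_of_pos two_pos _
    rw [← hQ'] at g1
    rw [← hQ] at g2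
    rw [← hQ, ← hQ']
    have g7 : Q' * Ub kc + 2 ^ R' * (Q * UU (2 ^ (kc + J)) + 2 ^ R * A) ≤ 3 * 2 ^ J * (1 / 2) ^ q * Ub kc := by
      have e3 : (1 / 2 : ℝ) ^ q * Ub kc ≤ 2 ^ J * ((1 / 2) ^ q * Ub kc) := le_mul_of_one_le_left (by positivity) h2J
      calc Q' * Ub kc + 2 ^ R' * (Q * UU (2 ^ (kc + J)) + 2 ^ R * A)
          = Q' * Ub kc + ((2 ^ R' * Q) * UU (2 ^ (kc + J)) + 2 ^ R' * (2 ^ R * A)) := by ring
        _ ≤ (1 / 2) ^ q * Ub kc + ((1 / 2) ^ q * (2 ^ J * Ub kc) + (1 / 2) ^ q * Ub kc) :=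
            add_le_add (mul_le_mul_of_nonneg_right g1 hU.le)
              (add_le_add (mul_le_mul g2 hUN hUN0.le (by positivity)) hHR')
        _ ≤ _ := by linarith
    calc K2 * (1 + UU (2 ^ (kc + J)) / Ub kc) * (Q' * Ub kc + 2 ^ R' * (Q * UU (2 ^ (kc + J)) + 2 ^ R * A))
        ≤ K2 * (2 * 2 ^ J) * (3 * 2 ^ J * (1 / 2) ^ q * Ub kc) := by
          have : 0 ≤ Q' * Ub kc + 2 ^ R' * (Q * UU (2 ^ (kc + J)) + 2 ^ R * A) := by positivity
          exact mul_le_mul (mul_le_mul_of_nonneg_left hρ (by linarith)) g7 this (by positivity)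
      _ = 6 * K2 * (2 ^ J * 2 ^ J) * (1 / 2) ^ q * Ub kc := by ring
      _ = 6 * K2 * 4 ^ J * (1 / 2) ^ q * Ub kc := by rw [h4J]
      _ ≤ C * 4 ^ J * (1 / 2) ^ q * Ub kc := by
          have : 6 * K2 ≤ (C : ℝ) := by linarith
          gcongr

end NTW

end HexObs
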