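import Pool.Agent.NTW.LowM
import Pool.Agent.NTW.FactsA
import Pool.Agent.NTW.SeqQ
import Pool.Agent.NT.Grow
import Pool.Agent.NT.DenseS
import Pool.Agent.NT.DenseG
import Pool.Agent.NTS.DenseW

/-!
NTW: the typical scales of a sequence of quantiles, natural density.
-/

set_option autoImplicit false

namespace HexObs

namespace NTW

open Finset TS SDN

open NTSF (LowD)

open scoped ENNReal Classical

/-- the density of the windows gives the density -/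
lemma dense_lowD {e : ℝ} {G : Set ℕ} (hG : NTm.Dense e G) : LowD e G := by
  intro η hη
  obtain ⟨D, hD⟩ : ∃ D : ℝ, D = 1 + 2 * |1 - e| / η := ⟨_, rfl⟩
  have hD1 : 1 ≤ D := by
    rw [hD]
    have : 0 ≤ 2 * |1 - e| / η := by positivity
    linarith
  have hD2 : 2 * |1 - e| ≤ D * η := by
    rw [hD, add_mul, div_mul_cancel₀ _ hη.ne']
    linarith
  obtain ⟨x0, hx0⟩ := hG D (by linarith)
  refine ⟨⌈(1 + D) * (x0 + 1) + 1⌉₊ + ⌈4 * |1 - e| * (D + 1) / η⌉₊, fun X hX => ?_⟩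
  have hX1 : (1 + D) * (x0 + 1) + 1 ≤ (X : ℝ) := (Nat.le_ceil _).trans (by exact_mod_cast (by omega : ⌈(1 + D) * ((x0 : ℝ) + 1) + 1⌉₊ ≤ X))
  have hX2 : 4 * |1 - e| * (D + 1) / η ≤ (X : ℝ) := (Nat.le_ceil _).trans (by exact_mod_cast (by omega : ⌈4 * |1 - e| * (D + 1) / η⌉₊ ≤ X))
  rw [div_le_iff₀ hη] at hX2
  obtain ⟨x, hx⟩ : ∃ x : ℕ, x = ⌊((X : ℝ) - 1) / (1 + D)⌋₊ := ⟨_, rfl⟩
  have h1D : 0 < 1 + D := by linarith
  have hXx : 0 ≤ ((X : ℝ) - 1) / (1 + D) := by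
    apply div_nonneg _ h1D.le
    nlinarith [Nat.cast_nonneg (α := ℝ) x0]
  have hx1 : (x : ℝ) ≤ ((X : ℝ) - 1) / (1 + D) := by
    rw [hx]
    exact Nat.floor_le hXx
  have hx2 : ((X : ℝ) - 1) / (1 + D) < x + 1 := by
    rw [hx]
    exact Nat.lt_floor_add_one _
  rw [le_div_iff₀ h1D] at hx1
  rw [div_lt_iff₀ h1D] at hx2
  have hxx0 : x0 ≤ x := by
    have h1 : ((x0 : ℝ) + 1) * (1 + D) < (x + 1) * (1 + D) := by nlinarith
    have h2 : ((x0 : ℝ) + 1) < x + 1 := lt_of_mul_lt_mul_right h1 h1D.le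
    have h3 : (x0 : ℝ) < x := by linarith
    exact_mod_cast h3.le
  have h5 := hx0 x hxx0
  have h6 : ((Finset.Icc x ⌊(1 + D) * (x : ℝ)⌋₊).filter (fun k => k ∈ G)).card ≤
      ((Finset.range X).filter fun k => k ∈ G).card := by
    apply Finset.card_le_card
    intro k hk
    rw [Finset.mem_filter, Finset.mem_Icc] at hk
    rw [Finset.mem_filter, Finset.mem_range]
    refine ⟨?_, hk.2⟩
    have h7 : (k : ℝ) ≤ (1 + D) * x := by
      refine le_trans (by exact_mod_cast hk.1.2) (Nat.floor_le ?_)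
      positivity
    have h8 : (k : ℝ) < X := by nlinarith
    exact_mod_cast h8
  have h7 : (((Finset.Icc x ⌊(1 + D) * (x : ℝ)⌋₊).filter (fun k => k ∈ G)).card : ℝ) ≤
      (((Finset.range X).filter fun k => k ∈ G).card : ℝ) := by exact_mod_cast h6
  refine le_trans ?_ (h5.trans h7)
  have hXp : (0 : ℝ) ≤ X := Nat.cast_nonneg X
  have hxp : (0 : ℝ) ≤ x := Nat.cast_nonneg x
  -- D x ≥ X - (X/(1+D)) - ...
  have h8 : (X : ℝ) - 1 - x - (1 + D) ≤ D * x := by nlinarith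
  have h9 : D * (x : ℝ) ≤ X := by nlinarith
  rcases le_or_gt 0 (1 - e) with he | he
  · rw [abs_of_nonneg he] at hD2 hX2
    -- x ≤ X / (1 + D)
    have h10 : (x : ℝ) * (1 - e) ≤ η / 2 * X := by
      have h11 : (x : ℝ) * (1 + D) ≤ X := by linarith
      have h12 : (1 - e) * 2 ≤ (1 + D) * η := by nlinarith
      nlinarith
    nlinarith
  · have h10 : (1 - e - η) * X ≤ (1 - e) * X := by nlinarith
    nlinarith

lemma LowD.inter {e e' : ℝ} {G G' : Set ℕ} (h : LowD e G) (h' : LowD e' G') : LowD (e + e') (G ∩ G') := by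
  obtain ⟨S, hS⟩ : ∃ S, S = G ∩ G' := ⟨_, rfl⟩
  rw [← hS]
  intro η hη
  obtain ⟨x0, hx0⟩ := h (η / 2) (by positivity)
  obtain ⟨x1, hx1⟩ := h' (η / 2) (by positivity)
  refine ⟨max x0 x1, fun x hx => ?_⟩
  have h1 := hx0 x (le_of_max_le_left hx)
  have h2 := hx1 x (le_of_max_le_right hx)
  have h3 : ((range x).filter fun k => k ∈ G).card + ((range x).filter fun k => k ∈ G').card ≤
      x + ((range x).filter fun k => k ∈ S).card := by
    rw [← Finset.card_union_add_card_inter]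
    apply add_le_add
    · refine (Finset.card_le_card (show _ ⊆ range x from ?_)).trans (by rw [card_range])
      exact union_subset (filter_subset _ _) (filter_subset _ _)
    · apply Finset.card_le_card
      intro k hk
      rw [mem_inter, mem_filter, mem_filter] at hk
      rw [mem_filter, hS]
      exact ⟨hk.1.1, hk.1.2, hk.2.2⟩
  have h4 : (((range x).filter fun k => k ∈ G).card : ℝ) + (((range x).filter fun k => k ∈ G').card : ℝ) ≤
      x + (((range x).filter fun k => k ∈ S).card : ℝ) := by exact_mod_cast h3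
  nlinarith

lemma ScaleP.mono {l : ℕ → ℕ} {G G' : Set ℕ} (h : ScaleP l G) (hG : G' ⊆ G) : ScaleP l G' := by
  intro q
  obtain ⟨K, L0, hK, h1⟩ := h q
  exact ⟨K, L0, hK, fun L hL => h1 L (hG hL)⟩

lemma good_mono {l : ℕ → ℕ} {G G' : Set ℕ} (h : NTm.Good l G) (hG : G' ⊆ G) : NTm.Good l G' := by
  obtain ⟨c, hc, h1⟩ := h
  exact ⟨c, hc, fun L hL => h1 L (hG hL)⟩

lemma good_GCK2 {K : ℝ} (hK : 1 ≤ K) (c : ℝ) (l : ℕ → ℕ) : NTm.Good l (NTm.GCK K c l) := by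
  refine ⟨fun j => (K * (2 : ℝ) ^ (c * (j : ℝ)))⁻¹, fun j => by positivity, fun L hL j hj => ?_⟩
  have h := hL j hj
  have h0 : 0 < K * (2 : ℝ) ^ (c * (j : ℝ)) := by positivity
  calc (K * (2 : ℝ) ^ (c * (j : ℝ)))⁻¹ * (l L : ℝ) ≤ (K * (2 : ℝ) ^ (c * (j : ℝ)))⁻¹ *
        (K * (2 : ℝ) ^ (c * (j : ℝ)) * l (L - j)) := by gcongr
    _ = l (L - j) := by
        rw [← mul_assoc, inv_mul_cancel₀ h0.ne', one_mul]

/-- multiples of the quantiles -/
lemma seq_mul {θ : ℝ} {l : ℕ → ℕ} (hl : NTm.Seq θ l) (h0 : 0 < θ) (h1 : θ < 1) (A : ℕ) :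
    ∃ s k0 : ℕ, ∀ k, k0 ≤ k → A * l k ≤ l (k + s) := by
  obtain ⟨b, hb, k0, h⟩ := NTm.seq_grow hl h0 h1
  obtain ⟨s, hs⟩ := pow_unbounded_of_one_lt ((A : ℝ) / b) (show (1 : ℝ) < 2 by norm_num)
  refine ⟨s, k0, fun k hk => ?_⟩
  have h2 := h k s hk
  rw [div_lt_iff₀ hb] at hs
  have h3 : (A : ℝ) * l k ≤ l (k + s) := by
    refine le_trans ?_ h2
    have : (0 : ℝ) ≤ l k := Nat.cast_nonneg _
    nlinarith
  exact_mod_cast h3

/-- typical scales -/
theorem scaleP_of {θ : ℝ} {l : ℕ → ℕ} (hl : NTm.Seq θ l) (h0 : 0 < θ) (hθ : θ ≤ 1 / 2) {e : ℝ} (he : 0 < e) :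
    ∃ G : Set ℕ, LowD e G ∧ ScaleP l G := by
  obtain ⟨C, δ, h⟩ := inp_exists
  obtain ⟨G, ⟨x0, hx0⟩, hG⟩ := scales_of h hl.mono (QL_seq hl hθ) (seq_mul hl h0 (by linarith)) hl.one lowM1 lowM2 he
  refine ⟨G, fun η hη => ⟨x0, fun x hx => le_trans ?_ (hx0 x hx)⟩, fun q => ?_⟩
  · have : (0 : ℝ) ≤ x := Nat.cast_nonneg x
    nlinarith
  · obtain ⟨K, L0, hK, h3⟩ := hG q
    exact ⟨K, L0, hK, h3⟩

/-- typical scales at which the quantiles do not jump -/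
theorem scaleG_of {θ : ℝ} {l : ℕ → ℕ} (hl : NTm.Seq θ l) (h0 : 0 < θ) (hθ : θ ≤ 1 / 2) {e : ℝ} (he : 0 < e) :
    ∃ G : Set ℕ, LowD e G ∧ ScaleP l G ∧ NTm.Good l G := by
  obtain ⟨G, hG, hS⟩ := scaleP_of hl h0 hθ (show 0 < e / 2 by linarith)
  obtain ⟨G', hG', hD⟩ := NTm.good_dense hl (show 0 < e / 2 by linarith)
  refine ⟨G ∩ G', ?_, ScaleP.mono hS Set.inter_subset_left, good_mono hG' Set.inter_subset_right⟩
  have := LowD.inter hG (dense_lowD hD)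
  rwa [add_halves] at this

/-- typical scales with the growth of the quantiles of the exponent c -/
theorem scaleGCK_of {θ : ℝ} {l : ℕ → ℕ} (hl : NTm.Seq θ l) (h0 : 0 < θ) (hθ : θ ≤ 1 / 2) {c e : ℝ} (hc : 4 / 3 < c)
    (he : 0 < e) : ∃ (K : ℝ) (G : Set ℕ), 1 ≤ K ∧ G ⊆ NTm.GCK K c l ∧
    LowD (1 - (c - 4 / 3) / (c - 1) + e) G ∧ ScaleP l G ∧ NTm.Good l G := by
  obtain ⟨G, hG, hS⟩ := scaleP_of hl h0 hθ (show 0 < e / 2 by linarith)
  obtain ⟨K, hK, hD⟩ := NTm.dense_GCK hl (NTm.seq_grow hl h0 (by linarith)) hc (show 0 < e / 2 by linarith)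
  refine ⟨K, G ∩ NTm.GCK K c l, hK, Set.inter_subset_right, ?_, ScaleP.mono hS Set.inter_subset_left,
    good_mono (good_GCK2 hK c l) Set.inter_subset_right⟩
  have := LowD.inter hG (dense_lowD hD)
  refine this.mono (by linarith)

end NTW

end HexObs
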