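import Pool.Agent.NTW.DomJ
import Pool.Agent.NTW.DomW
import Pool.Agent.NTW.Ext
import Pool.Agent.NTW.Cover
import Pool.Agent.T2.UpDefs

/-!
NTW: two sided sum over a leaf of a general functional of the leaf: the level near the head lies in a lower window than the
level near the tail; the free part between them is summed with a factor A.
-/

set_option autoImplicit false

namespace HexObs

namespace NTW

open Finset TS SDN

open scoped ENNReal

open Rec8 (mb)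

variable {C δ : ℝ}

namespace TG

open DO DW

/-- the end at the window j in terms of the window k -/
lemma min_shift {j k : ℕ} (h : j ≤ k) (r : ℕ) :
    min 1 ((r : ℝ≥0∞) / 2 ^ j) ≤ 2 ^ (k - j) * min 1 ((r : ℝ≥0∞) / 2 ^ k) := by
  have e : (r : ℝ≥0∞) / 2 ^ j = 2 ^ (k - j) * ((r : ℝ≥0∞) / 2 ^ k) := by
    have h1 : (2 : ℝ≥0∞) ^ k = 2 ^ (k - j) * 2 ^ j := by rw [← pow_add, Nat.sub_add_cancel h]
    have h2 : (2 : ℝ≥0∞) ^ (k - j) ≠ 0 := by positivity
    have h3 : (2 : ℝ≥0∞) ^ (k - j) ≠ ⊤ := ENNReal.pow_ne_top (by norm_num)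
    rw [h1, ← mul_div_assoc, ENNReal.mul_div_mul_left _ _ h2 h3]
  have h1 : (1 : ℝ≥0∞) ≤ 2 ^ (k - j) := one_le_pow₀ (by norm_num)
  rw [e]
  rcases le_total (1 : ℝ≥0∞) ((r : ℝ≥0∞) / 2 ^ k) with hc | hc
  · rw [min_eq_left hc, mul_one]
    exact (min_le_left _ _).trans h1
  · rw [min_eq_right hc]
    exact min_le_right _ _

/-- the ends at the window j of a functional dominated up to the window k -/
lemma endsJ (hA : SsA) : ∃ K : ℝ, 1 ≤ K ∧ ∀ (k j : ℕ) (x : ℝ≥0∞) (Φ : List Bool → ℝ≥0∞), DomJ k x Φ → j ≤ k →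
    ∑' r : ℕ, ∑' n : ℕ, mu j n r * Rec8.sw (Irr r) (fun P => Rec8.sw (Brd n) (fun M => Φ (P ++ M))) ≤
      ENNReal.ofReal (K * 2 ^ (k - j)) * x := by
  obtain ⟨K, hK, hs⟩ := hA
  refine ⟨K, hK, fun k j x Φ hΦ hj => ?_⟩
  have h1 : ∀ r : ℕ, ∑' n : ℕ, mu j n r * Rec8.sw (Irr r) (fun P => Rec8.sw (Brd n) (fun M => Φ (P ++ M))) ≤
      2 ^ (k - j) * x * (min 1 ((r : ℝ≥0∞) / 2 ^ k) * Rec8.sw (Irr r) (fun P => SS k P)) := by
    intro r
    have h2 : ∑' n : ℕ, mu j n r * Rec8.sw (Irr r) (fun P => Rec8.sw (Brd n) (fun M => Φ (P ++ M))) =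
        Rec8.sw (Irr r) (fun P => ∑' n : ℕ, mu j n r * Rec8.sw (Brd n) (fun M => Φ (P ++ M))) := by
      rw [NX_sw_tsum]
      exact tsum_congr fun n => (Rec8.sw_mul_left _ _ _).symm
    rw [h2]
    calc Rec8.sw (Irr r) (fun P => ∑' n : ℕ, mu j n r * Rec8.sw (Brd n) (fun M => Φ (P ++ M)))
        ≤ Rec8.sw (Irr r) (fun P => min 1 ((r : ℝ≥0∞) / 2 ^ j) * (x * SS k P)) :=
          Rec8.sw_mono' fun P hP => (sum_low j r _).trans
            (mul_le_mul_right ((hΦ.bdj j hj r P hP).trans (mul_le_mul_right (SJ_le_SS k j P) _)) _)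
      _ = min 1 ((r : ℝ≥0∞) / 2 ^ j) * (x * Rec8.sw (Irr r) (fun P => SS k P)) := by
          rw [Rec8.sw_mul_left, Rec8.sw_mul_left]
      _ ≤ 2 ^ (k - j) * min 1 ((r : ℝ≥0∞) / 2 ^ k) * (x * Rec8.sw (Irr r) (fun P => SS k P)) :=
          mul_le_mul_left (min_shift hj r) _
      _ = _ := by ring
  refine (ENNReal.tsum_le_tsum h1).trans ?_
  rw [ENNReal.tsum_mul_left]
  calc 2 ^ (k - j) * x * ∑' r : ℕ, min 1 ((r : ℝ≥0∞) / 2 ^ k) * Rec8.sw (Irr r) (fun P => SS k P)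
      ≤ 2 ^ (k - j) * x * ENNReal.ofReal K := mul_le_mul_right (hs k) _
    _ = _ := by
      rw [ENNReal.ofReal_mul (by linarith), ENNReal.ofReal_pow (by norm_num)]
      simp only [ENNReal.ofReal_ofNat]
      ring

end TG

open TG DO DW in
/-- **two sided sum over a leaf, general functional** -/
theorem two_gen_of (h : Inp C δ) (hA : SsA) : ∃ K c : ℝ, 1 ≤ K ∧ 0 < c ∧ ∀ (k j E N : ℕ) (A : ℝ) (x y : ℝ≥0∞)
    (Ψ Φ G : List Bool → ℝ≥0∞), DomJ k x Ψ → Dom k y Φ → 2 ^ (k + 4) ≤ E → E ≤ N → j ≤ k → 0 ≤ A →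
    (∀ g ∈ BrR E N, G g ≤ Ψ (rev g) * Φ g) →
    (∀ X ∈ BU, ∀ P ∈ IU, ∀ P' ∈ IU, ∀ M ∈ BU, Rec8.sw {V | V ∈ BU ∧ X ++ (P ++ (V ++ (P' ++ M))) ∈ BrR E N}
      (fun V => G (X ++ (P ++ (V ++ (P' ++ M))))) ≤ ENNReal.ofReal A * (Ψ (rev (X ++ P)) * Φ (P' ++ M))) →
    Rec8.sw (BrR E N) G ≤ ENNReal.ofReal (K * ((2 : ℝ) ^ (-(c * ((k : ℝ) - j))) * UU N + 2 ^ (k - j) * A)) * (x * y) := by
  obtain ⟨Ks, c, hKs, hc, hss⟩ := ssJ1 h
  obtain ⟨K1, hK1, hend1⟩ := endsJ hA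
  obtain ⟨K2, hK2, hend2⟩ := endsD_of hA
  refine ⟨Ks + K1 * K2, c, by nlinarith, hc, fun k j E N A x y Ψ Φ G hΨ hΦ hkE hEN hjk hA0 hG hV => ?_⟩
  have hp4 : 2 ^ (k + 4) = 8 * 2 ^ (k + 1) := by ring
  have hp1 : 2 ^ (k + 1) = 2 * 2 ^ k := by ring
  have hp0 : 1 ≤ 2 ^ k := Nat.one_le_two_pow
  have hpj : 2 ^ (j + 1) ≤ 2 ^ (k + 1) := Nat.pow_le_pow_right (by norm_num) (by omega)
  classical
  -- the rest behind the piece at the window j
  have hrest : ∀ (n r : ℕ) (X P : List Bool), n < 2 ^ (j + 1) → X ∈ Brd n → P ∈ Irr r →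
      Rec8.sw {Z | Z ∈ BU ∧ X ++ (P ++ Z) ∈ BrR E N} (fun Z => G (X ++ (P ++ Z))) ≤
        Ψ (rev P ++ rev X) * (y * ((if 2 ^ k < r then SS k P else 0) + ENNReal.ofReal (A * K2))) := by
    intro n r X P hn hX hP
    have hPb : P ∈ Brd r := hP.1
    have e0 : Rec8.sw {Z | Z ∈ BU ∧ X ++ (P ++ Z) ∈ BrR E N} (fun Z => G (X ++ (P ++ Z))) =
        Rec8.sw {Z | Z ∈ BU ∧ ∃ Y ∈ Brd n, Y ++ (P ++ Z) ∈ BrR E N}
          (fun Z => if X ++ (P ++ Z) ∈ BrR E N then G (X ++ (P ++ Z)) else 0) := by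
      simp only [Rec8.sw_ind]
      refine tsum_congr fun Z => ?_
      by_cases h1 : Z ∈ BU ∧ X ++ (P ++ Z) ∈ BrR E N
      · rw [if_pos (show Z ∈ {Z | Z ∈ BU ∧ X ++ (P ++ Z) ∈ BrR E N} from h1),
          if_pos (show Z ∈ {Z | Z ∈ BU ∧ ∃ Y ∈ Brd n, Y ++ (P ++ Z) ∈ BrR E N} from ⟨h1.1, X, hX, h1.2⟩), if_pos h1.2]
      · rw [if_neg (show Z ∉ {Z | Z ∈ BU ∧ X ++ (P ++ Z) ∈ BrR E N} from h1)]
        split_ifs with a1 a2
        · exact absurd ⟨a1.1, a2⟩ h1
        · rw [mul_zero]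
        · rfl
    rw [e0]
    refine (outR (k := k) (by omega) hP _).trans ?_
    rw [mul_add, mul_add]
    refine add_le_add ?_ ?_
    · -- one piece over both levels
      by_cases hr : 2 ^ k < r
      · rw [if_pos hr]
        have h2 : ∑' m : ℕ, mu k m r * Rec8.sw {M | M ∈ Brd m ∧ ∃ Y ∈ Brd n, Y ++ (P ++ M) ∈ BrR E N}
            (fun Z => if X ++ (P ++ Z) ∈ BrR E N then G (X ++ (P ++ Z)) else 0) ≤
            ∑' m : ℕ, mu k m r * Rec8.sw (Brd m) (fun M => Ψ (rev P ++ rev X) * Φ (P ++ M)) := by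
          refine ENNReal.tsum_le_tsum fun m => ?_
          gcongr
          refine Rec8.sw_mono (fun t ht => ht.1) (fun M hM => ?_)
          split_ifs with a1
          · refine (hG _ a1).trans ?_
            rw [rev_append, rev_append, List.append_assoc]
            exact mul_le_mul' (hΨ.her (rev M) ⟨m, Brd_rev hM.1⟩ _) (hΦ.her X ⟨n, hX⟩ _)
          · exact zero_le
        refine h2.trans ?_
        simp only [Rec8.sw_mul_left]
        have e3 : ∀ m : ℕ, mu k m r * (Ψ (rev P ++ rev X) * Rec8.sw (Brd m) (fun M => Φ (P ++ M))) =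
            Ψ (rev P ++ rev X) * (mu k m r * Rec8.sw (Brd m) (fun M => Φ (P ++ M))) := fun m => by ring
        simp only [e3]
        rw [ENNReal.tsum_mul_left]
        exact mul_le_mul_right (end_le' hΦ hP) _
      · rw [if_neg hr, mul_zero, mul_zero]
        rw [nonpos_iff_eq_zero, ENNReal.tsum_eq_zero]
        intro m
        rcases Nat.lt_or_ge m (2 ^ (k + 1)) with hm | hm
        · have e : {M : List Bool | M ∈ Brd m ∧ ∃ Y ∈ Brd n, Y ++ (P ++ M) ∈ BrR E N} = ∅ := by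
            rw [Set.eq_empty_iff_forall_notMem]
            rintro M ⟨hM, Y, hY, H, h1, -, h3⟩
            have := Brd_height h3 (Brd_append hY (Brd_append hP.1 hM))
            omega
          rw [e]
          unfold Rec8.sw
          rw [tsum_empty, mul_zero]
        · rw [mu_eq_zero hm, zero_mul]
    · -- two pieces
      have h3 : ∀ m r' : ℕ, mu k m r' * Rec8.sw {Z | ∃ h, h ≤ N ∧ Z ∈ Brd h} (fun Z => Rec8.sw (Irr r') (fun P' =>
          Rec8.sw {M | M ∈ Brd m ∧ ∃ Y ∈ Brd n, Y ++ (P ++ (Z ++ (P' ++ M))) ∈ BrR E N}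
            (fun M => if X ++ (P ++ (Z ++ (P' ++ M))) ∈ BrR E N then G (X ++ (P ++ (Z ++ (P' ++ M)))) else 0))) ≤
          (ENNReal.ofReal A * Ψ (rev P ++ rev X)) *
            (mu k m r' * Rec8.sw (Irr r') (fun P' => Rec8.sw (Brd m) (fun M => Φ (P' ++ M)))) := by
        intro m r'
        rw [mul_left_comm]
        refine mul_le_mul_right ?_ _
        calc Rec8.sw {Z | ∃ h, h ≤ N ∧ Z ∈ Brd h} (fun Z => Rec8.sw (Irr r') (fun P' =>
              Rec8.sw {M | M ∈ Brd m ∧ ∃ Y ∈ Brd n, Y ++ (P ++ (Z ++ (P' ++ M))) ∈ BrR E N}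
                (fun M => if X ++ (P ++ (Z ++ (P' ++ M))) ∈ BrR E N then G (X ++ (P ++ (Z ++ (P' ++ M)))) else 0)))
            ≤ Rec8.sw BU (fun Z => Rec8.sw (Irr r') (fun P' => Rec8.sw (Brd m)
                (fun M => if X ++ (P ++ (Z ++ (P' ++ M))) ∈ BrR E N then G (X ++ (P ++ (Z ++ (P' ++ M)))) else 0))) :=
              Rec8.sw_mono (fun Z hZ => by obtain ⟨z, -, hz⟩ := hZ; exact ⟨z, hz⟩) fun Z _ =>
                Rec8.sw_mono' fun P' _ => Rec8.sw_mono (fun M hM => hM.1) fun _ _ => le_rfl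
          _ = Rec8.sw (Irr r') (fun P' => Rec8.sw (Brd m) (fun M => Rec8.sw BU (fun Z =>
                if X ++ (P ++ (Z ++ (P' ++ M))) ∈ BrR E N then G (X ++ (P ++ (Z ++ (P' ++ M)))) else 0))) := by
              rw [Rec8.sw_comm]
              exact Rec8.sw_congr fun P' _ => Rec8.sw_comm _ _ _
          _ ≤ Rec8.sw (Irr r') (fun P' => Rec8.sw (Brd m) (fun M =>
                ENNReal.ofReal A * (Ψ (rev P ++ rev X) * Φ (P' ++ M)))) := by
              refine Rec8.sw_mono' fun P' hP' => Rec8.sw_mono' fun M hM => ?_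
              have h5 := hV X ⟨n, hX⟩ P ⟨r, hP⟩ P' ⟨r', hP'⟩ M ⟨m, hM⟩
              rw [rev_append] at h5
              refine le_trans (le_of_eq ?_) h5
              simp only [Rec8.sw_ind]
              refine tsum_congr fun V => ?_
              by_cases h6 : V ∈ BU ∧ X ++ (P ++ (V ++ (P' ++ M))) ∈ BrR E N
              · rw [if_pos (show V ∈ BU from h6.1), if_pos h6.2,
                  if_pos (show V ∈ {V | V ∈ BU ∧ X ++ (P ++ (V ++ (P' ++ M))) ∈ BrR E N} from h6)]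
              · rw [if_neg (show V ∉ {V | V ∈ BU ∧ X ++ (P ++ (V ++ (P' ++ M))) ∈ BrR E N} from h6)]
                split_ifs with a1 a2
                · exact absurd ⟨a1, a2⟩ h6
                · rw [mul_zero]
                · rfl
          _ = (ENNReal.ofReal A * Ψ (rev P ++ rev X)) *
                Rec8.sw (Irr r') (fun P' => Rec8.sw (Brd m) (fun M => Φ (P' ++ M))) := by
              rw [← Rec8.sw_mul_left]
              refine Rec8.sw_congr fun P' _ => ?_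
              rw [← Rec8.sw_mul_left]
              refine Rec8.sw_congr fun M _ => ?_
              ring
      refine (ENNReal.tsum_le_tsum fun m => ENNReal.tsum_le_tsum fun r' => h3 m r').trans ?_
      simp only [ENNReal.tsum_mul_left]
      calc ENNReal.ofReal A * Ψ (rev P ++ rev X) * ∑' m : ℕ, ∑' r' : ℕ, mu k m r' *
            Rec8.sw (Irr r') (fun P' => Rec8.sw (Brd m) (fun M => Φ (P' ++ M)))
          ≤ ENNReal.ofReal A * Ψ (rev P ++ rev X) * (ENNReal.ofReal K2 * y) :=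
            mul_le_mul_right (hend2 k y Φ hΦ) _
        _ = Ψ (rev P ++ rev X) * (y * ENNReal.ofReal (A * K2)) := by
            rw [ENNReal.ofReal_mul hA0]
            ring
  obtain ⟨B, hB⟩ : ∃ B, B = ENNReal.ofReal (A * K2) := ⟨_, rfl⟩
  rw [← hB] at hrest
  -- the level near the head
  have s1 : Rec8.sw (BrR E N) G ≤ ∑' n : ℕ, ∑' r : ℕ, mu j n r * Rec8.sw (Brd n) (fun X =>
      Rec8.sw (Irr r) (fun P => Ψ (rev P ++ rev X) * (y * ((if 2 ^ k < r then SS k P else 0) + B)))) := by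
    refine (inR (j := j) (D := E) (N := N) (by omega) _).trans ?_
    refine ENNReal.tsum_le_tsum fun n => ENNReal.tsum_le_tsum fun r => ?_
    by_cases hn : 2 ^ (j + 1) ≤ n
    · rw [mu_eq_zero hn, zero_mul, zero_mul]
    exact mul_le_mul_right (Rec8.sw_mono' fun X hX => Rec8.sw_mono' fun P hP => hrest n r X P (by omega) hX hP) _
  refine s1.trans ?_
  -- reversal of X and exchange of the sums
  have s2 : ∀ n r : ℕ, Rec8.sw (Brd n) (fun X => Rec8.sw (Irr r) (fun P => Ψ (rev P ++ rev X) *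
        (y * ((if 2 ^ k < r then SS k P else 0) + B)))) =
      Rec8.sw (Irr r) (fun P => (y * ((if 2 ^ k < r then SS k P else 0) + B)) *
        Rec8.sw (Brd n) (fun M => Ψ (rev P ++ M))) := by
    intro n r
    rw [Rec8.sw_comm]
    refine Rec8.sw_congr fun P _ => ?_
    rw [← Rec8.sw_mul_left, ← DO.sw_rev (Brd n) (fun t ht => Brd_rev ht)
      (fun M => (y * ((if 2 ^ k < r then SS k P else 0) + B)) * Ψ (rev P ++ M))]
    exact Rec8.sw_congr fun X _ => mul_comm _ _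
  simp only [s2]
  -- the two parts
  have s3 : ∀ r : ℕ, ∑' n : ℕ, mu j n r * Rec8.sw (Irr r) (fun P =>
      (y * ((if 2 ^ k < r then SS k P else 0) + B)) *
        Rec8.sw (Brd n) (fun M => Ψ (rev P ++ M))) ≤
      y * (x * (if 2 ^ k < r then Rec8.sw (Irr r) (fun P => SJ k j (rev P) * SS k P) else 0)) +
      y * (B * ∑' n : ℕ, mu j n r * Rec8.sw (Irr r) (fun P => Rec8.sw (Brd n) (fun M => Ψ (P ++ M)))) := by
    intro r
    have e1 : ∀ n : ℕ, Rec8.sw (Irr r) (fun P => (y * ((if 2 ^ k < r then SS k P else 0) + B)) *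
        Rec8.sw (Brd n) (fun M => Ψ (rev P ++ M))) =
        Rec8.sw (Irr r) (fun P => y * ((if 2 ^ k < r then SS k P else 0) *
          Rec8.sw (Brd n) (fun M => Ψ (rev P ++ M)))) +
        y * (B * Rec8.sw (Irr r) (fun P => Rec8.sw (Brd n) (fun M => Ψ (P ++ M)))) := by
      intro n
      rw [← DO.sw_rev (Irr r) (fun t ht => Irr_rev ht) (fun P => Rec8.sw (Brd n) (fun M => Ψ (P ++ M))),
        ← Rec8.sw_mul_left, ← Rec8.sw_mul_left, ← Rec8.sw_add]
      refine Rec8.sw_congr fun P _ => ?_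
      ring
    have e1' : ∀ n : ℕ, mu j n r * Rec8.sw (Irr r) (fun P => (y * ((if 2 ^ k < r then
        SS k P else 0) + B)) * Rec8.sw (Brd n) (fun M => Ψ (rev P ++ M))) =
        mu j n r * Rec8.sw (Irr r) (fun P => y * ((if 2 ^ k < r then SS k P else 0) *
          Rec8.sw (Brd n) (fun M => Ψ (rev P ++ M)))) +
        mu j n r * (y * (B * Rec8.sw (Irr r) (fun P => Rec8.sw (Brd n) (fun M => Ψ (P ++ M))))) := fun n => by
      rw [e1 n, mul_add]
    rw [tsum_congr e1', ENNReal.tsum_add]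
    refine add_le_add ?_ ?_
    · rw [DO.tsum_pull (Irr r) (fun n => mu j n r) y (fun P => if 2 ^ k < r then SS k P else 0)
        (fun n P => Rec8.sw (Brd n) (fun M => Ψ (rev P ++ M)))]
      have e3 : Rec8.sw (Irr r) (fun P => y * ((if 2 ^ k < r then SS k P else 0) *
            ∑' n : ℕ, mu j n r * Rec8.sw (Brd n) (fun M => Ψ (rev P ++ M)))) ≤
          Rec8.sw (Irr r) (fun P => y * ((if 2 ^ k < r then SS k P else 0) *
            (x * SJ k j (rev P)))) :=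
        Rec8.sw_mono' fun P hP => mul_le_mul_right (mul_le_mul_right ((sum_low1 j r _).trans
          (hΨ.bdj j hjk r (rev P) (Irr_rev hP))) _) _
      refine e3.trans (le_of_eq ?_)
      by_cases hr : 2 ^ k < r
      · simp only [if_pos hr]
        rw [← Rec8.sw_mul_left, ← Rec8.sw_mul_left]
        refine Rec8.sw_congr fun P _ => ?_
        ring
      · simp only [if_neg hr]
        simp [Rec8.sw_zero]
    · rw [← ENNReal.tsum_mul_left, ← ENNReal.tsum_mul_left]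
      refine ENNReal.tsum_le_tsum fun n => le_of_eq ?_
      ring
  rw [ENNReal.tsum_comm]
  refine (ENNReal.tsum_le_tsum s3).trans ?_
  rw [ENNReal.tsum_add, ENNReal.tsum_mul_left, ENNReal.tsum_mul_left, ENNReal.tsum_mul_left, ENNReal.tsum_mul_left]
  have t1 := hss k j hjk
  unfold KJ.Lg at t1
  have t2 := hend1 k j x Ψ hΨ hjk
  have hUk := Ub_pos k
  have hUN : 0 < UU N := Num2Aux.UU_pos N
  have hUkN : Ub k ≤ UU N := Num2Aux.UU_mono (by omega)
  obtain ⟨q, hq⟩ : ∃ q : ℝ, q = (2 : ℝ) ^ (-(c * ((k : ℝ) - j))) := ⟨_, rfl⟩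
  have hq0 : 0 < q := by
    rw [hq]
    exact Real.rpow_pos_of_pos two_pos _
  rw [← hq] at t1 ⊢
  have hA1 : 0 ≤ 2 ^ (k - j) * A := by positivity
  calc y * (x * ∑' r : ℕ, (if 2 ^ k < r then Rec8.sw (Irr r) (fun P => SJ k j (rev P) * SS k P) else 0)) +
      y * (B * ∑' r : ℕ, ∑' n : ℕ, mu j n r * Rec8.sw (Irr r) (fun P => Rec8.sw (Brd n) (fun M => Ψ (P ++ M))))
      ≤ y * (x * ENNReal.ofReal (Ks * q * Ub k)) + y * (B * (ENNReal.ofReal (K1 * 2 ^ (k - j)) * x)) := by gcongr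
    _ = ENNReal.ofReal (Ks * q * Ub k + (A * K2) * (K1 * 2 ^ (k - j))) * (x * y) := by
        rw [hB, ENNReal.ofReal_add (by positivity) (by positivity),
          ENNReal.ofReal_mul (p := A * K2) (by positivity)]
        ring
    _ ≤ ENNReal.ofReal ((Ks + K1 * K2) * (q * UU N + 2 ^ (k - j) * A)) * (x * y) := by
        refine mul_le_mul_left (ENNReal.ofReal_le_ofReal ?_) _
        have h1 : Ks * q * Ub k ≤ Ks * (q * UU N) := by
          rw [mul_assoc]
          exact mul_le_mul_of_nonneg_left (mul_le_mul_of_nonneg_left hUkN hq0.le) (by linarith)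
        have h2 : 0 ≤ K1 * K2 * (q * UU N) := by positivity
        have h3 : 0 ≤ Ks * (2 ^ (k - j) * A) := by positivity
        nlinarith

namespace TG

/-- the bridges of height at most N with less than lam letters -/
lemma gf_short {N : ℕ} {lam d : ℝ} (hS : T2.Short N lam d) :
    gf {Z : List Bool | (∃ h, h ≤ N ∧ Z ∈ Brd h) ∧ (Z.length : ℝ) < lam} ≤ ENNReal.ofReal (d * UU N) := by
  classical
  refine le_trans ?_ hS
  have hsub : {Z : List Bool | (∃ h, h ≤ N ∧ Z ∈ Brd h) ∧ (Z.length : ℝ) < lam} ⊆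
      ⋃ h ∈ range (N + 1), {Z | Z ∈ Brd h ∧ (Z.length : ℝ) < lam} := by
    rintro Z ⟨⟨h, h1, h2⟩, h3⟩
    rw [Set.mem_iUnion₂]
    exact ⟨h, Finset.mem_range.2 (by omega), h2, h3⟩
  exact (gf_mono hsub).trans (ENNReal.tsum_biUnion_le (fun t => wE t) (range (N + 1)) _)

/-- the bridges of a height in a window -/
lemma gf_win (c : ℤ) (w : ℕ) : gf {Z : List Bool | Z ∈ BU ∧ |c - 3 * (hgt Z : ℤ)| ≤ w} ≤ ENNReal.ofReal (UU w) := by
  classical
  -- the heights form an interval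
  obtain ⟨S, hS⟩ : ∃ S : Finset ℕ, S = (range ((c + w).toNat + 1)).filter (fun v : ℕ => |c - 3 * (v : ℤ)| ≤ w) := ⟨_, rfl⟩
  have hmem : ∀ v : ℕ, v ∈ S ↔ |c - 3 * (v : ℤ)| ≤ w := by
    intro v
    rw [hS, Finset.mem_filter, Finset.mem_range]
    constructor
    · exact fun h => h.2
    · intro h
      refine ⟨?_, h⟩
      rw [abs_le] at h
      omega
  have hsub : {Z : List Bool | Z ∈ BU ∧ |c - 3 * (hgt Z : ℤ)| ≤ w} ⊆ ⋃ v ∈ S, Brd v := by
    rintro Z ⟨⟨v, hv⟩, h⟩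
    rw [hgt_eq hv] at h
    rw [Set.mem_iUnion₂]
    exact ⟨v, (hmem v).2 h, hv⟩
  refine (gf_mono hsub).trans ((ENNReal.tsum_biUnion_le (fun t => wE t) S _).trans ?_)
  have e1 : ∀ v : ℕ, ∑' t : Brd v, wE (t : List Bool) = ENNReal.ofReal (uu v) := fun v => NO_gf v
  simp only [e1]
  rw [← ENNReal.ofReal_sum_of_nonneg (f := uu) (fun s _ => ENNReal.toReal_nonneg)]
  refine ENNReal.ofReal_le_ofReal ?_
  -- at most w + 1 of them
  have hcard : S.card ≤ w + 1 := by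
    rcases S.eq_empty_or_nonempty with h0 | h0
    · rw [h0]
      simp
    · have hsub2 : S ⊆ Finset.Icc (S.min' h0) (S.min' h0 + w) := by
        intro v hv
        rw [Finset.mem_Icc]
        refine ⟨S.min'_le v hv, ?_⟩
        have h1 := (hmem v).1 hv
        have h2 := (hmem _).1 (S.min'_mem h0)
        rw [abs_le] at h1 h2
        omega
      refine (Finset.card_le_card hsub2).trans ?_
      rw [Nat.card_Icc]
      omega
  unfold UU
  have key : ∀ (m : ℕ) (T : Finset ℕ), T.card ≤ m → ∑ v ∈ T, uu v ≤ ∑ v ∈ range m, uu v := by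
    intro m
    induction m with
    | zero =>
      intro T hT
      rw [Finset.card_eq_zero.1 (Nat.le_zero.1 hT)]
      simp
    | succ m ih =>
      intro T hT
      rcases T.eq_empty_or_nonempty with h0 | h0
      · rw [h0, Finset.sum_empty]
        exact Finset.sum_nonneg fun v _ => ENNReal.toReal_nonneg
      · rw [Finset.sum_range_succ, ← Finset.sum_erase_add T _ (T.max'_mem h0)]
        rcases Nat.lt_or_ge (T.max' h0) m with hlt | hge
        · -- T is a subset of range m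
          have hT2 : T ⊆ range m := fun v hv => Finset.mem_range.2 (lt_of_le_of_lt (T.le_max' v hv) hlt)
          rw [Finset.sum_erase_add T _ (T.max'_mem h0)]
          have hb : ∑ v ∈ T, uu v ≤ ∑ v ∈ range m, uu v :=
            Finset.sum_le_sum_of_subset_of_nonneg hT2 fun v _ _ => ENNReal.toReal_nonneg
          have : 0 ≤ uu m := ENNReal.toReal_nonneg
          linarith
        · refine add_le_add (ih _ ?_) (uu_anti hge)
          rw [Finset.card_erase_of_mem (T.max'_mem h0)]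
          omega
  exact key _ S hcard

end TG

open TG in
/-- **two sided sum over the short leaves** -/
theorem two_short_of (h : Inp C δ) (hA : SsA) : ∃ K c : ℝ, 1 ≤ K ∧ 0 < c ∧ ∀ (k j E N : ℕ) (lam d : ℝ) (x y : ℝ≥0∞)
    (Ψ Φ : List Bool → ℝ≥0∞), DomJ k x Ψ → Dom k y Φ → 2 ^ (k + 4) ≤ E → E ≤ N → j ≤ k → 0 ≤ d → T2.Short N lam d →
    Rec8.sw {g | g ∈ BrR E N ∧ (g.length : ℝ) < lam} (fun g => Ψ (rev g) * Φ g) ≤
      ENNReal.ofReal (K * (((2 : ℝ) ^ (-(c * ((k : ℝ) - j))) + 2 ^ (k - j) * d) * UU N)) * (x * y) := by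
  classical
  obtain ⟨K, c, hK, hc, hgen⟩ := two_gen_of h hA
  refine ⟨K, c, hK, hc, fun k j E N lam d x y Ψ Φ hΨ hΦ hkE hEN hjk hd hS => ?_⟩
  have hUN : 0 < UU N := Num2Aux.UU_pos N
  obtain ⟨G, hG⟩ : ∃ G : List Bool → ℝ≥0∞, G = fun g => if (g.length : ℝ) < lam then Ψ (rev g) * Φ g else 0 := ⟨_, rfl⟩
  have hGg : ∀ g, G g = if (g.length : ℝ) < lam then Ψ (rev g) * Φ g else 0 := fun g => by rw [hG]
  have e1 : Rec8.sw {g | g ∈ BrR E N ∧ (g.length : ℝ) < lam} (fun g => Ψ (rev g) * Φ g) = Rec8.sw (BrR E N) G := by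
    rw [Rec8.sw_ind, Rec8.sw_ind]
    refine tsum_congr fun g => ?_
    rw [hGg]
    by_cases h1 : g ∈ BrR E N
    · by_cases h2 : (g.length : ℝ) < lam
      · rw [if_pos (show g ∈ {g | g ∈ BrR E N ∧ (g.length : ℝ) < lam} from ⟨h1, h2⟩), if_pos h1, if_pos h2]
      · rw [if_neg (fun h3 : g ∈ {g | g ∈ BrR E N ∧ (g.length : ℝ) < lam} => h2 h3.2), if_pos h1, if_neg h2, mul_zero]
    · rw [if_neg (fun h3 : g ∈ {g | g ∈ BrR E N ∧ (g.length : ℝ) < lam} => h1 h3.1), if_neg h1]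
  rw [e1]
  refine (hgen k j E N (d * UU N) x y Ψ Φ G hΨ hΦ hkE hEN hjk (by positivity) ?_ ?_).trans (le_of_eq ?_)
  · intro g _
    rw [hGg]
    split_ifs
    · exact le_rfl
    · exact zero_le
  · rintro X ⟨n, hX⟩ P ⟨r, hP⟩ P' ⟨r', hP'⟩ M ⟨m, hM⟩
    have hPb : P ∈ Brd r := hP.1
    have hPb' : P' ∈ Brd r' := hP'.1
    refine le_trans ?_ (mul_le_mul_left (gf_short hS) (Ψ (rev (X ++ P)) * Φ (P' ++ M)))
    rw [← NX_const, Rec8.sw_ind, Rec8.sw_ind]
    refine ENNReal.tsum_le_tsum fun V => ?_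
    by_cases h1 : V ∈ BU ∧ X ++ (P ++ (V ++ (P' ++ M))) ∈ BrR E N
    · rw [if_pos (show V ∈ {V | V ∈ BU ∧ X ++ (P ++ (V ++ (P' ++ M))) ∈ BrR E N} from h1)]
      obtain ⟨⟨v, hV⟩, H, hH1, hH2, hH3⟩ := h1
      have hXP : X ++ P ∈ Brd (n + r) := Brd_append hX hPb
      have hPM : P' ++ M ∈ Brd (r' + m) := Brd_append hPb' hM
      have h4 : X ++ (P ++ (V ++ (P' ++ M))) ∈ Brd (n + (r + (v + (r' + m)))) :=
        Brd_append hX (Brd_append hPb (Brd_append hV hPM))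
      have h5 := Brd_height hH3 h4
      rw [hGg]
      by_cases h2 : ((X ++ (P ++ (V ++ (P' ++ M)))).length : ℝ) < lam
      · rw [if_pos h2]
        have h6 : (V.length : ℝ) < lam := by
          simp only [List.length_append] at h2
          push_cast at h2
          have a1 : (0 : ℝ) ≤ (X.length : ℝ) := Nat.cast_nonneg _
          have a2 : (0 : ℝ) ≤ (P.length : ℝ) := Nat.cast_nonneg _
          have a3 : (0 : ℝ) ≤ (P'.length : ℝ) := Nat.cast_nonneg _
          have a4 : (0 : ℝ) ≤ (M.length : ℝ) := Nat.cast_nonneg _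
          linarith
        rw [if_pos (show V ∈ {Z : List Bool | (∃ h, h ≤ N ∧ Z ∈ Brd h) ∧ (Z.length : ℝ) < lam} from
          ⟨⟨v, by omega, hV⟩, h6⟩)]
        refine mul_le_mul_right (mul_le_mul' ?_ ?_) _
        · have e2 : rev (X ++ (P ++ (V ++ (P' ++ M)))) = rev (V ++ (P' ++ M)) ++ rev (X ++ P) := by
            rw [← List.append_assoc, rev_append]
          rw [e2]
          exact hΨ.her _ ⟨_, Brd_rev (Brd_append hV hPM)⟩ _
        · have e2 : X ++ (P ++ (V ++ (P' ++ M))) = (X ++ (P ++ V)) ++ (P' ++ M) := by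
            simp only [List.append_assoc]
          rw [e2]
          exact hΦ.her _ ⟨_, Brd_append hX (Brd_append hPb hV)⟩ _
      · rw [if_neg h2, mul_zero]
        exact zero_le
    · rw [if_neg (fun h2 : V ∈ {V | V ∈ BU ∧ X ++ (P ++ (V ++ (P' ++ M))) ∈ BrR E N} => h1 h2)]
      exact zero_le
  · congr 2
    ring

/-- the short leaves have small two sided norm -/
theorem short_free_of (h : Inp C δ) (hA : SsA) (J : ℕ) {ε : ℝ} (hε : 0 < ε) : ∃ (d : ℝ) (k0 : ℕ), 0 < d ∧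
    ∀ (kc : ℕ) (lam : ℝ) (y x : ℝ≥0∞) (Ψ Φ : List Bool → ℝ≥0∞), k0 ≤ kc → T2.Short (2 ^ (kc + J)) lam d →
    DomJ kc y Ψ → Dom kc x Φ →
    Rec8.sw {g | g ∈ BrR (2 ^ (kc + 4)) (2 ^ (kc + J)) ∧ (g.length : ℝ) < lam} (fun g => Ψ (rev g) * Φ g) ≤
      ENNReal.ofReal (ε * Ub kc) * (y * x) := by
  obtain ⟨K, c, hK, hc, hS⟩ := two_short_of h hA
  have h2J : (1 : ℝ) ≤ 2 ^ J := one_le_pow₀ (by norm_num)
  have hK0 : 0 < K := by linarith
  obtain ⟨J', hJ'⟩ : ∃ J' : ℕ, K * 2 ^ J * (2 : ℝ) ^ (-(c * (J' : ℝ))) ≤ ε / 2 := by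
    have hx1 : (2 : ℝ) ^ (-c) < 1 := Real.rpow_lt_one_of_one_lt_of_neg (by norm_num) (by linarith)
    obtain ⟨n, hn⟩ := exists_pow_lt_of_lt_one (show 0 < ε / (2 * (K * 2 ^ J)) by positivity) hx1
    refine ⟨n, ?_⟩
    have h1 : (2 : ℝ) ^ (-(c * (n : ℝ))) = ((2 : ℝ) ^ (-c)) ^ n := by
      rw [← Real.rpow_natCast, ← Real.rpow_mul (by norm_num)]
      congr 1
      ring
    rw [h1]
    calc K * 2 ^ J * ((2 : ℝ) ^ (-c)) ^ n ≤ K * 2 ^ J * (ε / (2 * (K * 2 ^ J))) := by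
          have := hn.le
          gcongr
      _ = ε / 2 := by
          field_simp
  refine ⟨ε / (2 * (K * 2 ^ J * 2 ^ J')), J', by positivity, fun kc lam y x Ψ Φ hkc hSh hΨ hΦ => ?_⟩
  have hU := Ub_pos kc
  have hUN : UU (2 ^ (kc + J)) ≤ 2 ^ J * Ub kc := UU_ratio_up kc J
  rcases Nat.lt_or_ge J 4 with hJ | hJ
  · have e : {g : List Bool | g ∈ BrR (2 ^ (kc + 4)) (2 ^ (kc + J)) ∧ (g.length : ℝ) < lam} = ∅ := by
      rw [Set.eq_empty_iff_forall_notMem]
      rintro g ⟨⟨n, h1, h2, -⟩, -⟩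
      have : 2 ^ (kc + J) < 2 ^ (kc + 4) := Nat.pow_lt_pow_right (by norm_num) (by omega)
      omega
    rw [e]
    unfold Rec8.sw
    rw [tsum_empty]
    exact zero_le
  refine (hS kc (kc - J') (2 ^ (kc + 4)) (2 ^ (kc + J)) lam _ y x Ψ Φ hΨ hΦ le_rfl
    (Nat.pow_le_pow_right (by norm_num) (by omega)) (Nat.sub_le _ _) (by positivity) hSh).trans
    (mul_le_mul_left (ENNReal.ofReal_le_ofReal ?_) _)
  have e2 : kc - (kc - J') = J' := by omega
  have e3 : (kc : ℝ) - ((kc - J' : ℕ) : ℝ) = J' := by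
    rw [Nat.cast_sub hkc]
    ring
  rw [e2, e3]
  have h1 : (0 : ℝ) ≤ (2 : ℝ) ^ (-(c * (J' : ℝ))) := (Real.rpow_pos_of_pos two_pos _).le
  have h2 : K * 2 ^ J * (2 ^ J' * (ε / (2 * (K * 2 ^ J * 2 ^ J')))) = ε / 2 := by
    field_simp
  calc K * (((2 : ℝ) ^ (-(c * (J' : ℝ))) + 2 ^ J' * (ε / (2 * (K * 2 ^ J * 2 ^ J')))) * UU (2 ^ (kc + J)))
      ≤ K * (((2 : ℝ) ^ (-(c * (J' : ℝ))) + 2 ^ J' * (ε / (2 * (K * 2 ^ J * 2 ^ J')))) * (2 ^ J * Ub kc)) := by
        gcongr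
    _ = (K * 2 ^ J * (2 : ℝ) ^ (-(c * (J' : ℝ))) + K * 2 ^ J * (2 ^ J' * (ε / (2 * (K * 2 ^ J * 2 ^ J'))))) * Ub kc := by
        ring
    _ ≤ (ε / 2 + ε / 2) * Ub kc := by
        rw [h2]
        gcongr
    _ = ε * Ub kc := by ring

end NTW

end HexObs
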