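import Pool.Agent.NTW.TailB
import Pool.Agent.NTW.TwoG
import Pool.Agent.NTW.ShortD
import Pool.Agent.NTW.EventJ

/-!
NTW: the short classes have small norm; TailP with the hypotheses SsA and RepTwo only.
-/

set_option autoImplicit false

namespace HexObs

namespace NTW

open Finset TS SDN SDN.CN NTm

open scoped ENNReal

theorem shortN (hA : SsA) : ShortN DmJ := by
  obtain ⟨C, δ, h⟩ := inp_exists
  intro J hJ η hη
  obtain ⟨d1, k1, hd1, h1⟩ := short_near_small h hA J hη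
  obtain ⟨d2, k2, hd2, h2⟩ := short_free_of h hA J hη
  refine ⟨min d1 d2, max k1 k2, lt_min hd1 hd2, fun kc lam hkc hS => ?_⟩
  have hS1 : T2.Short (2 ^ (kc + J)) lam d1 := hS.trans (ENNReal.ofReal_le_ofReal
    (mul_le_mul_of_nonneg_right (min_le_left _ _) (Num2Aux.UU_pos _).le))
  have hS2 : T2.Short (2 ^ (kc + J)) lam d2 := hS.trans (ENNReal.ofReal_le_ofReal
    (mul_le_mul_of_nonneg_right (min_le_right _ _) (Num2Aux.UU_pos _).le))
  exact ⟨fun x Φ hΦ => h1 kc lam (le_trans (le_max_left _ _) hkc) hS1 x Φ hΦ.dom, fun y x Ψ Φ hΨ _ hΦ =>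
    h2 kc lam y x Ψ Φ (le_trans (le_max_right _ _) hkc) hS2 hΨ.2 hΦ.dom⟩

theorem finJ : FinJ := domJ_end

/-- **TailP** -/
theorem tailP' (hA : SsA) (hR : RepTwo) {θ : ℝ} {l : ℕ → ℕ} (hl : NTm.Seq θ l) (h0 : 0 < θ) (hθ : θ ≤ 1 / 2) :
    TailP l := by
  obtain ⟨C, δ, h⟩ := inp_exists
  exact tailP h hA ss3P ssDP (shortN hA) finJ (coverTwo hR) hl h0 hθ

end NTW

end HexObs
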