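import Pool.Agent.EXK.Final
import Pool.Agent.HexTP.Expo
import Pool.Agent.HexStep.Two
import Pool.Agent.EXL.GlFin
import Pool.Agent.Ex.P2Main

/-!
NTW, wide arcs: the arcs of height in (T, 2T] over a distance of order T weigh at least c T ^ (-1/4), for all large T.
-/

set_option autoImplicit false

namespace HexObs

namespace NTW

namespace Wide

open Finset TP

open scoped ENNReal

lemma sum_quarter (n : ℕ) : ∑ k ∈ range n, ((k : ℝ) + 1) ^ (-(1 / 4) : ℝ) ≤ 2 * (n : ℝ) ^ (3 / 4 : ℝ) := by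
  induction n with
  | zero => simp
  | succ n ih =>
    rw [Finset.sum_range_succ]
    have hn : (0 : ℝ) ≤ n := Nat.cast_nonneg n
    have hn1 : (0 : ℝ) < (n : ℝ) + 1 := by linarith
    have h1 := Real.geom_mean_le_arith_mean2_weighted (w₁ := 3 / 4) (w₂ := 1 / 4) (p₁ := (n : ℝ)) (p₂ := (n : ℝ) + 1)
      (by norm_num) (by norm_num) hn hn1.le (by norm_num)
    have hq : 0 < ((n : ℝ) + 1) ^ (1 / 4 : ℝ) := Real.rpow_pos_of_pos hn1 _
    have e1 : ((n : ℝ) + 1) ^ (-(1 / 4) : ℝ) = (((n : ℝ) + 1) ^ (1 / 4 : ℝ))⁻¹ := Real.rpow_neg hn1.le _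
    have e2 : ((n : ℝ) + 1) ^ (3 / 4 : ℝ) = ((n : ℝ) + 1) / ((n : ℝ) + 1) ^ (1 / 4 : ℝ) := by
      rw [show (3 / 4 : ℝ) = 1 - 1 / 4 by norm_num, Real.rpow_sub hn1, Real.rpow_one]
    push_cast
    rw [e1, e2]
    have h2 : (n : ℝ) ^ (3 / 4 : ℝ) ≤ ((n : ℝ) + 1 / 4) / ((n : ℝ) + 1) ^ (1 / 4 : ℝ) := by
      rw [le_div_iff₀ hq]
      linarith
    have h3 : 2 * (((n : ℝ) + 1) / ((n : ℝ) + 1) ^ (1 / 4 : ℝ)) -
        (2 * (((n : ℝ) + 1 / 4) / ((n : ℝ) + 1) ^ (1 / 4 : ℝ)) + (((n : ℝ) + 1) ^ (1 / 4 : ℝ))⁻¹) =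
        1 / 2 / ((n : ℝ) + 1) ^ (1 / 4 : ℝ) := by
      generalize ((n : ℝ) + 1) ^ (1 / 4 : ℝ) = y at hq
      field_simp
      ring
    have h4 : 0 ≤ 1 / 2 / ((n : ℝ) + 1) ^ (1 / 4 : ℝ) := by positivity
    linarith

lemma geo_le {x : ℝ} (hx : 0 < x) : (1 - Real.exp (-x))⁻¹ ≤ 1 + 1 / x := by
  have h1 : Real.exp (-x) < 1 := by
    rw [← Real.exp_zero]
    exact Real.exp_lt_exp.2 (by linarith)
  have h2 : 0 < 1 - Real.exp (-x) := by linarith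
  have h3 : x + 1 ≤ Real.exp x := Real.add_one_le_exp x
  have h4 : Real.exp (-x) = (Real.exp x)⁻¹ := Real.exp_neg x
  have h5 : 0 < Real.exp x := Real.exp_pos x
  rw [inv_le_comm₀ h2 (by positivity)]
  have e : (1 + 1 / x)⁻¹ = x / (x + 1) := by field_simp
  rw [e, h4, div_le_iff₀ (by linarith)]
  have h6 : (1 - (Real.exp x)⁻¹) * (x + 1) = (x + 1) - (x + 1) * (Real.exp x)⁻¹ := by ring
  rw [h6]
  have h7 : (x + 1) * (Real.exp x)⁻¹ ≤ 1 := by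
    rw [← div_eq_mul_inv, div_le_one h5]
    exact h3
  linarith

theorem mid_mass {C r c1 : ℝ} (hC : 0 < C) (hr : 0 < r) (hc : 0 < c1) : ∃ (η c : ℝ) (K : ℕ), 0 < η ∧ 0 < c ∧ 1 ≤ K ∧
    ∀ (T : ℕ) (A : ℕ → ℝ), 1 ≤ T → (∀ k, 0 ≤ A k) →
      (∀ k : ℕ, ((k : ℝ) + 1) * A k ≤ C * ((k : ℝ) + 1) ^ (-(1 / 4) : ℝ) * Real.exp (-r * (((k : ℝ) + 1) / T))) →
      Summable (fun k : ℕ => ((k : ℝ) + 1) * A k) → c1 * (T : ℝ) ^ (3 / 4 : ℝ) ≤ ∑' k : ℕ, ((k : ℝ) + 1) * A k →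
      c * (T : ℝ) ^ (-(1 / 4) : ℝ) ≤ ∑ k ∈ (range (K * T)).filter (fun k : ℕ => η * T ≤ (k : ℝ) + 1), A k := by
  obtain ⟨η, hη0, hη⟩ : ∃ η : ℝ, 0 < η ∧ 2 * C * η ^ (3 / 4 : ℝ) ≤ c1 / 4 := by
    refine ⟨(c1 / (8 * C)) ^ (4 / 3 : ℝ), Real.rpow_pos_of_pos (by positivity) _, ?_⟩
    rw [← Real.rpow_mul (by positivity)]
    have e : (4 / 3 : ℝ) * (3 / 4) = 1 := by norm_num
    rw [e, Real.rpow_one]
    apply le_of_eq
    field_simp
    ring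
  obtain ⟨K, hK1, hK⟩ : ∃ K : ℕ, 1 ≤ K ∧ C * (1 + 1 / r) * Real.exp (-(r * K)) ≤ c1 / 4 := by
    have h1 : Filter.Tendsto (fun K : ℕ => C * (1 + 1 / r) * Real.exp (-(r * K))) Filter.atTop (nhds (C * (1 + 1 / r) * 0)) := by
      refine Filter.Tendsto.const_mul _ ?_
      refine Real.tendsto_exp_neg_atTop_nhds_zero.comp ?_
      exact Filter.Tendsto.const_mul_atTop hr tendsto_natCast_atTop_atTop
    rw [mul_zero] at h1
    obtain ⟨K, h2, h3⟩ := ((h1.eventually (ge_mem_nhds (by positivity : (0 : ℝ) < c1 / 4))).and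
      (Filter.eventually_ge_atTop 1)).exists
    exact ⟨K, h3, h2⟩
  have hK0 : (0 : ℝ) < K := by exact_mod_cast hK1
  refine ⟨η, c1 / (2 * K), K, hη0, by positivity, hK1, fun T A hT hA hb hs hl => ?_⟩
  have hT1 : (1 : ℝ) ≤ T := by exact_mod_cast hT
  have hT0 : (0 : ℝ) < T := by linarith
  have hp3 : 0 < (T : ℝ) ^ (3 / 4 : ℝ) := Real.rpow_pos_of_pos hT0 _
  have hp1 : 0 < (T : ℝ) ^ (-(1 / 4) : ℝ) := Real.rpow_pos_of_pos hT0 _
  have e34 : (T : ℝ) ^ (-(1 / 4) : ℝ) * T = (T : ℝ) ^ (3 / 4 : ℝ) := by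
    rw [← Real.rpow_add_one hT0.ne']
    norm_num
  obtain ⟨M, hM⟩ : ∃ M, M = K * T := ⟨_, rfl⟩
  have hMR : (M : ℝ) = K * T := by rw [hM]; push_cast; ring
  have hMT : (T : ℝ) ≤ M := by
    rw [hMR]
    have : (1 : ℝ) ≤ K := by exact_mod_cast hK1
    nlinarith
  -- the tail
  have htail : ∑' k : ℕ, (((k + M : ℕ) : ℝ) + 1) * A (k + M) ≤ c1 / 4 * (T : ℝ) ^ (3 / 4 : ℝ) := by
    obtain ⟨q, hq⟩ : ∃ q, q = Real.exp (-(r / T)) := ⟨_, rfl⟩
    have hq0 : 0 ≤ q := by rw [hq]; exact (Real.exp_pos _).le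
    have hq1 : q < 1 := by
      have hrT : 0 < r / T := by positivity
      rw [hq, ← Real.exp_zero]
      exact Real.exp_lt_exp.2 (by linarith)
    have hterm : ∀ k : ℕ, (((k + M : ℕ) : ℝ) + 1) * A (k + M) ≤
        (C * (T : ℝ) ^ (-(1 / 4) : ℝ) * Real.exp (-(r * K))) * q ^ k := by
      intro k
      refine (hb (k + M)).trans ?_
      have h1 : (((k + M : ℕ) : ℝ) + 1) ^ (-(1 / 4) : ℝ) ≤ (T : ℝ) ^ (-(1 / 4) : ℝ) := by
        refine Real.rpow_le_rpow_of_nonpos hT0 ?_ (by norm_num)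
        push_cast
        have : (0 : ℝ) ≤ k := Nat.cast_nonneg k
        linarith
      have h2 : Real.exp (-r * ((((k + M : ℕ) : ℝ) + 1) / T)) ≤ Real.exp (-(r * K)) * q ^ k := by
        rw [hq, ← Real.exp_nat_mul, ← Real.exp_add]
        apply Real.exp_le_exp.2
        push_cast
        rw [hMR]
        have e1 : -r * (((k : ℝ) + K * T + 1) / T) = -(r * K) + k * -(r / T) - r / T := by
          field_simp
          ring
        rw [e1]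
        have : 0 < r / T := by positivity
        linarith
      calc C * (((k + M : ℕ) : ℝ) + 1) ^ (-(1 / 4) : ℝ) * Real.exp (-r * ((((k + M : ℕ) : ℝ) + 1) / T))
          ≤ C * (T : ℝ) ^ (-(1 / 4) : ℝ) * (Real.exp (-(r * K)) * q ^ k) := by gcongr
        _ = _ := by ring
    have hs2 : Summable (fun k : ℕ => (((k + M : ℕ) : ℝ) + 1) * A (k + M)) :=
      (summable_nat_add_iff (f := fun k : ℕ => ((k : ℝ) + 1) * A k) M).2 hs
    have hs3 : Summable (fun k : ℕ => (C * (T : ℝ) ^ (-(1 / 4) : ℝ) * Real.exp (-(r * K))) * q ^ k) :=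
      (summable_geometric_of_lt_one hq0 hq1).mul_left _
    refine (hs2.tsum_le_tsum hterm hs3).trans ?_
    rw [tsum_mul_left, tsum_geometric_of_lt_one hq0 hq1]
    have h3 : (1 - q)⁻¹ ≤ (1 + 1 / r) * T := by
      rw [hq]
      refine (geo_le (x := r / T) (by positivity)).trans ?_
      have e2 : 1 + 1 / (r / (T : ℝ)) = 1 + T / r := by field_simp
      rw [e2]
      have e3 : (1 + 1 / r) * (T : ℝ) = T + T / r := by ring
      rw [e3]
      linarith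
    have hE : 0 < Real.exp (-(r * K)) := Real.exp_pos _
    calc C * (T : ℝ) ^ (-(1 / 4) : ℝ) * Real.exp (-(r * K)) * (1 - q)⁻¹
        ≤ C * (T : ℝ) ^ (-(1 / 4) : ℝ) * Real.exp (-(r * K)) * ((1 + 1 / r) * T) := by gcongr
      _ = C * (1 + 1 / r) * Real.exp (-(r * K)) * ((T : ℝ) ^ (-(1 / 4) : ℝ) * T) := by ring
      _ = C * (1 + 1 / r) * Real.exp (-(r * K)) * (T : ℝ) ^ (3 / 4 : ℝ) := by rw [e34]
      _ ≤ c1 / 4 * (T : ℝ) ^ (3 / 4 : ℝ) := by gcongr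
  -- the near part
  obtain ⟨S, hS⟩ : ∃ S, S = ∑ k ∈ (range M).filter (fun k : ℕ => η * T ≤ (k : ℝ) + 1), A k := ⟨_, rfl⟩
  have hnear : ∑ k ∈ (range M).filter (fun k : ℕ => ¬ η * T ≤ (k : ℝ) + 1), ((k : ℝ) + 1) * A k ≤
      c1 / 4 * (T : ℝ) ^ (3 / 4 : ℝ) := by
    have h1 : ∑ k ∈ (range M).filter (fun k : ℕ => ¬ η * T ≤ (k : ℝ) + 1), ((k : ℝ) + 1) * A k ≤
        ∑ k ∈ range ⌊η * T⌋₊, C * ((k : ℝ) + 1) ^ (-(1 / 4) : ℝ) := by
      refine (Finset.sum_le_sum fun k _ => (hb k).trans ?_).trans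
        (Finset.sum_le_sum_of_subset_of_nonneg (f := fun k : ℕ => C * ((k : ℝ) + 1) ^ (-(1 / 4) : ℝ)) ?_ ?_)
      · have h2 : Real.exp (-r * (((k : ℝ) + 1) / T)) ≤ 1 := by
          apply Real.exp_le_one_iff.2
          have : 0 ≤ ((k : ℝ) + 1) / T := by positivity
          nlinarith
        have h3 : 0 ≤ C * ((k : ℝ) + 1) ^ (-(1 / 4) : ℝ) := by positivity
        calc C * ((k : ℝ) + 1) ^ (-(1 / 4) : ℝ) * Real.exp (-r * (((k : ℝ) + 1) / T))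
            ≤ C * ((k : ℝ) + 1) ^ (-(1 / 4) : ℝ) * 1 := mul_le_mul_of_nonneg_left h2 h3
          _ = _ := mul_one _
      · intro k hk
        rw [Finset.mem_filter] at hk
        rw [Finset.mem_range]
        have h4 : ((k + 1 : ℕ) : ℝ) ≤ η * T := by
          push_cast
          exact (not_le.1 hk.2).le
        have h5 : k + 1 ≤ ⌊η * T⌋₊ := Nat.le_floor h4
        omega
      · intro k _ _
        positivity
    refine h1.trans ?_
    rw [← Finset.mul_sum]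
    have h6 : ((⌊η * T⌋₊ : ℕ) : ℝ) ^ (3 / 4 : ℝ) ≤ (η * T) ^ (3 / 4 : ℝ) :=
      Real.rpow_le_rpow (Nat.cast_nonneg _) (Nat.floor_le (by positivity)) (by norm_num)
    calc C * ∑ k ∈ range ⌊η * T⌋₊, ((k : ℝ) + 1) ^ (-(1 / 4) : ℝ)
        ≤ C * (2 * (η * T) ^ (3 / 4 : ℝ)) := by
          have := sum_quarter ⌊η * T⌋₊
          gcongr
          linarith
      _ = 2 * C * η ^ (3 / 4 : ℝ) * (T : ℝ) ^ (3 / 4 : ℝ) := by
          rw [Real.mul_rpow hη0.le hT0.le]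
          ring
      _ ≤ c1 / 4 * (T : ℝ) ^ (3 / 4 : ℝ) := by gcongr
  have hmid : ∑ k ∈ (range M).filter (fun k : ℕ => η * T ≤ (k : ℝ) + 1), ((k : ℝ) + 1) * A k ≤ (K * T) * S := by
    rw [hS, Finset.mul_sum]
    refine Finset.sum_le_sum fun k hk => ?_
    rw [Finset.mem_filter, Finset.mem_range] at hk
    refine mul_le_mul_of_nonneg_right ?_ (hA k)
    rw [← hMR]
    exact_mod_cast hk.1
  have hsplit := hs.sum_add_tsum_nat_add M
  have hfil := Finset.sum_filter_add_sum_filter_not (range M) (fun k : ℕ => η * T ≤ (k : ℝ) + 1)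
    (fun k : ℕ => ((k : ℝ) + 1) * A k)
  rw [← hM, ← hS]
  have h7 : c1 / 2 * (T : ℝ) ^ (3 / 4 : ℝ) ≤ (K * T) * S := by
    have h8 := hl
    rw [← hsplit, ← hfil] at h8
    linarith
  have h9 : c1 / (2 * K) * (T : ℝ) ^ (-(1 / 4) : ℝ) * (K * T) = c1 / 2 * (T : ℝ) ^ (3 / 4 : ℝ) := by
    rw [← e34]
    field_simp
  have h10 : (0 : ℝ) < K * T := by positivity
  by_contra hcon
  push Not at hcon
  have h11 : S * (K * T) < c1 / (2 * K) * (T : ℝ) ^ (-(1 / 4) : ℝ) * (K * T) := mul_lt_mul_of_pos_right hcon h10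
  rw [h9] at h11
  linarith

/-- the increment of a sequence asymptotic to n ^ (3 / 4) -/
lemma incr {f : ℕ → ℝ} {κ : ℝ} (hκ : 0 < κ) (hf : Filter.Tendsto (fun n : ℕ => f n / (n : ℝ) ^ (3 / 4 : ℝ)) Filter.atTop (nhds κ)) :
    ∃ T0 : ℕ, 1 ≤ T0 ∧ ∀ T : ℕ, T0 ≤ T → κ / 4 * (T : ℝ) ^ (3 / 4 : ℝ) ≤ f (2 * T) - f T := by
  have h1 : ∀ᶠ n : ℕ in Filter.atTop, f n / (n : ℝ) ^ (3 / 4 : ℝ) ∈ Set.Icc (κ * (19 / 20)) (κ * (21 / 20)) :=
    hf.eventually (Icc_mem_nhds (by linarith) (by linarith))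
  obtain ⟨T1, hT1⟩ := Filter.eventually_atTop.1 h1
  refine ⟨max T1 1, le_max_right _ _, fun T hT => ?_⟩
  have hTT : T1 ≤ T := (le_max_left _ _).trans hT
  have hTo : 1 ≤ T := (le_max_right _ _).trans hT
  have hT0 : (0 : ℝ) < T := by exact_mod_cast hTo
  have hp : 0 < (T : ℝ) ^ (3 / 4 : ℝ) := Real.rpow_pos_of_pos hT0 _
  have h2 := (hT1 T hTT).2
  have h3 := (hT1 (2 * T) (by omega)).1
  rw [div_le_iff₀ hp] at h2
  have e : (((2 * T : ℕ) : ℕ) : ℝ) ^ (3 / 4 : ℝ) = 2 ^ (3 / 4 : ℝ) * (T : ℝ) ^ (3 / 4 : ℝ) := by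
    push_cast
    rw [Real.mul_rpow (by norm_num) hT0.le]
  rw [e, le_div_iff₀ (by positivity)] at h3
  have h4 : (3 / 2 : ℝ) ≤ 2 ^ (3 / 4 : ℝ) := by
    have h5 : (3 / 2 : ℝ) = ((3 / 2 : ℝ) ^ (4 : ℝ)) ^ (1 / 4 : ℝ) := by
      rw [← Real.rpow_mul (by norm_num)]
      norm_num
    have h6 : (2 : ℝ) ^ (3 / 4 : ℝ) = ((2 : ℝ) ^ (3 : ℝ)) ^ (1 / 4 : ℝ) := by
      rw [← Real.rpow_mul (by norm_num)]
      norm_num
    rw [h5, h6]
    refine Real.rpow_le_rpow (by positivity) ?_ (by norm_num)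
    norm_num
  have h7 : κ * (19 / 20) * (3 / 2 * (T : ℝ) ^ (3 / 4 : ℝ)) ≤ κ * (19 / 20) * (2 ^ (3 / 4 : ℝ) * (T : ℝ) ^ (3 / 4 : ℝ)) := by
    gcongr
  nlinarith

/-- arcs from the foot 0 to the foot d that stay in the strip of height T but not in the strip of height S -/
def AW (S T d : ℕ) : Set (List Bool) :=
  {t | t ∈ Arc (St T) ∅ oo up (foot oo up d) ∧ t ∉ Arc (St S) ∅ oo up (foot oo up d)}

lemma AW_add {S T : ℕ} (h : S ≤ T) (d : ℕ) : GG T d = GG S d + gf (AW S T d) := by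
  unfold GG
  rw [← gf_union]
  · congr 1
    ext t
    constructor
    · intro ht
      by_cases h1 : t ∈ Arc (St S) ∅ oo up (foot oo up d)
      · exact Or.inl h1
      · exact Or.inr ⟨ht, h1⟩
    · rintro (h1 | h1)
      · exact arc_mono h h1
      · exact h1.1
  · rw [Set.disjoint_left]
    intro t h1 h2
    exact h2.2 h1

lemma AW_gT {S T : ℕ} (hS : 1 ≤ S) (h : S ≤ T) (d : ℕ) : gf (AW S T d) = ENNReal.ofReal (gT T d - gT S d) := by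
  have h1 := AW_add h d
  have h2 := GG_ne_top (hS.trans h) d
  have h3 := GG_ne_top hS d
  have h4 : gf (AW S T d) ≠ ∞ := by
    intro h5
    rw [h5] at h1
    exact h2 (by rw [h1]; simp)
  unfold gT
  rw [h1, ENNReal.toReal_add h3 h4, add_sub_cancel_left, ENNReal.ofReal_toReal h4]

lemma KT_sum {T : ℕ} (hT : 1 ≤ T) : (SP.KT T).toReal = ∑' k : ℕ, ((k : ℝ) + 1) * gT T (k + 1) ∧
    Summable (fun k : ℕ => ((k : ℝ) + 1) * gT T (k + 1)) := by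
  have h0 := (SP.two hT).1
  have e : ∀ k : ℕ, (((k : ℝ≥0∞) + 1) * GG T (k + 1)).toReal = ((k : ℝ) + 1) * gT T (k + 1) := by
    intro k
    rw [ENNReal.toReal_mul, ENNReal.toReal_add (by simp) (by simp)]
    simp [gT]
  constructor
  · unfold SP.KT
    rw [ENNReal.tsum_toReal_eq]
    · exact tsum_congr e
    · intro k
      exact ENNReal.ne_top_of_tsum_ne_top h0 k
  · have h1 := ENNReal.summable_toReal h0
    exact h1.congr e

lemma bT_up : ∃ C : ℝ, 0 < C ∧ ∀ n : ℕ, 1 ≤ n → bT n ≤ C * (n : ℝ) ^ (-(1 / 4) : ℝ) := by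
  obtain ⟨C, hC, h⟩ := Ex.P2.main (A := fun n => HexObs.bT n) (B := fun n => HexObs.bT n)
    (fun n => Pool.Agent.EXL.bT_nonneg' n) (fun _ _ h => Pool.Agent.EXL.bT_anti h) (fun _ => rfl) Pool.Agent.EXL.Glue.relE_bT
  exact ⟨C, hC, fun n hn => (h n hn).2⟩

theorem wide : ∃ (η c : ℝ) (K T0 : ℕ), 0 < η ∧ 0 < c ∧ 1 ≤ K ∧ 1 ≤ T0 ∧ ∀ T : ℕ, T0 ≤ T →
    ENNReal.ofReal (c * (T : ℝ) ^ (-(1 / 4) : ℝ)) ≤
      ∑ k ∈ (range (K * T)).filter (fun k : ℕ => η * T ≤ (k : ℝ) + 1), gf (AW T (2 * T) (k + 1)) := by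
  obtain ⟨C3, hC3, hb⟩ := bT_up
  have hC2 := C2_pos
  have hrt := rt_pos
  obtain ⟨κ, hκ, hK⟩ : ∃ κ : ℝ, 0 < κ ∧ Filter.Tendsto (fun n : ℕ => EXK.KR n / (n : ℝ) ^ (3 / 4 : ℝ)) Filter.atTop (nhds κ) := by
    refine ⟨_, ?_, EXK.K_asym⟩
    have h1 : 0 < Real.sqrt 2 - 1 := by
      have := Real.one_lt_sqrt_two
      linarith
    have h2 : 0 < Real.Gamma (3 / 4) := Real.Gamma_pos_of_pos (by norm_num)
    have h3 : 0 < Real.sqrt Real.pi := Real.sqrt_pos.2 Real.pi_pos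
    positivity
  obtain ⟨T0, hT0, hinc⟩ := incr hκ hK
  obtain ⟨η, c, K, hη, hc, hK1, hm⟩ := mid_mass (C := C2 * C3) (r := rt / 2) (c1 := κ / 4) (by positivity) (by positivity)
    (by positivity)
  refine ⟨η, c, K, T0, hη, hc, hK1, hT0, fun T hT => ?_⟩
  have hT1 : 1 ≤ T := hT0.trans hT
  have hTT : T ≤ 2 * T := by omega
  have hT2 : 1 ≤ 2 * T := by omega
  have hTr : (0 : ℝ) < T := by exact_mod_cast hT1
  obtain ⟨e1, s1⟩ := KT_sum hT1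
  obtain ⟨e2, s2⟩ := KT_sum hT2
  have hA : ∀ k : ℕ, 0 ≤ gT (2 * T) (k + 1) - gT T (k + 1) := fun k => sub_nonneg.2 (gT_mono hT2 hTT _)
  have h1 := hm T (fun k => gT (2 * T) (k + 1) - gT T (k + 1)) hT1 hA ?_ ?_ ?_
  · have h2 : ∑ k ∈ (range (K * T)).filter (fun k : ℕ => η * T ≤ (k : ℝ) + 1), gf (AW T (2 * T) (k + 1)) =
        ENNReal.ofReal (∑ k ∈ (range (K * T)).filter (fun k : ℕ => η * T ≤ (k : ℝ) + 1),
          (gT (2 * T) (k + 1) - gT T (k + 1))) := by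
      rw [ENNReal.ofReal_sum_of_nonneg (fun k _ => hA k)]
      exact Finset.sum_congr rfl (fun k _ => AW_gT hT1 hTT _)
    rw [h2]
    exact ENNReal.ofReal_le_ofReal h1
  · intro k
    have h3 := gT_exp hT2 (show 1 ≤ k + 1 by omega)
    have h4 := hb (k + 1) (by omega)
    push_cast at h3 h4
    have h5 : 0 ≤ gT T (k + 1) := gT_nonneg _ _
    have h6 : Real.exp (-rt * (((k : ℝ) + 1) / (2 * T))) = Real.exp (-(rt / 2) * (((k : ℝ) + 1) / T)) := by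
      congr 1
      field_simp
    rw [h6] at h3
    calc ((k : ℝ) + 1) * (gT (2 * T) (k + 1) - gT T (k + 1)) ≤ ((k : ℝ) + 1) * gT (2 * T) (k + 1) := by
          apply mul_le_mul_of_nonneg_left _ (by positivity)
          linarith
      _ ≤ C2 * bT (k + 1) * Real.exp (-(rt / 2) * (((k : ℝ) + 1) / T)) := h3
      _ ≤ C2 * (C3 * ((k : ℝ) + 1) ^ (-(1 / 4) : ℝ)) * Real.exp (-(rt / 2) * (((k : ℝ) + 1) / T)) := by
          apply mul_le_mul_of_nonneg_right _ (Real.exp_pos _).le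
          exact mul_le_mul_of_nonneg_left h4 hC2.le
      _ = C2 * C3 * ((k : ℝ) + 1) ^ (-(1 / 4) : ℝ) * Real.exp (-(rt / 2) * (((k : ℝ) + 1) / T)) := by ring
  · have := s2.sub s1
    exact this.congr (fun k => by ring)
  · have h3 := hinc T hT
    rw [EXK.KR_eq hT1, EXK.KR_eq hT2, e1, e2, ← s2.tsum_sub s1] at h3
    refine h3.trans (le_of_eq ?_)
    exact tsum_congr (fun k => by ring)

end Wide

end NTW

end HexObs
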