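import Pool.Agent.NTW.FactsA
import Pool.Agent.NTW.Ext
import Pool.Agent.NTW.SeqQ
import Pool.Agent.NT.Grow

/-!
NTW: the words of small range along the sequence l.
-/

set_option autoImplicit false

namespace HexObs

namespace NTW

open Finset TS SDN

open scoped ENNReal

/-- 2 l L + 32 ≤ 2 l (L + q) -/
lemma seq_room {θ : ℝ} {l : ℕ → ℕ} (hl : NTm.Seq θ l) (h0 : 0 < θ) (h1 : θ < 1) (A : ℕ) : ∃ (q k0 : ℕ), ∀ L, k0 ≤ L →
    A * l L ≤ l (L + q) := by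
  obtain ⟨b, hb, k0, hg⟩ := NTm.seq_grow hl h0 h1
  obtain ⟨q, hq⟩ := pow_unbounded_of_one_lt ((A : ℝ) / b) (show (1 : ℝ) < 2 by norm_num)
  refine ⟨q, k0, fun L hL => ?_⟩
  have h2 := hg L q hL
  have h3 : (A : ℝ) ≤ b * 2 ^ q := by
    rw [div_lt_iff₀ hb] at hq
    linarith
  have h4 : (0 : ℝ) ≤ l L := Nat.cast_nonneg _
  have h5 : ((A * l L : ℕ) : ℝ) ≤ l (L + q) := by
    push_cast
    calc (A : ℝ) * l L ≤ b * 2 ^ q * l L := by gcongr
      _ ≤ _ := h2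
  exact_mod_cast h5

theorem extP_of {θ : ℝ} {l : ℕ → ℕ} (hl : NTm.Seq θ l) (h0 : 0 < θ) (h1 : θ ≤ 1 / 2) (hA : SsA) (hD : SsD)
    (hC : CoverTwo) (hP : PivotEx) : ExtP l := by
  obtain ⟨K, hK, hext⟩ := ext_of hA hD hC hP
  obtain ⟨q, k0, hq⟩ := seq_room hl h0 (by linarith) 17
  refine ⟨K, q, k0, by linarith, fun L J hL => ?_⟩
  refine (hext (L - J) (l L) (l (L - J)) (QL_seq hl h1 _)).trans (mul_le_mul_right ?_ _)
  unfold BB
  have h2 := hq L (by omega)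
  have h3 := hl.one L
  have h4 := hl.mono (Nat.sub_le L J)
  have h5 : bl (l L + l (L - J) + 32) (L - J) ≤ bl (2 * l (L + q)) (L + q) :=
    (bl_mono _ (by omega)).trans (bl_mono_lam (by omega) _)
  gcongr

end NTW

end HexObs
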