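import Pool.Agent.NTW.TwoG
import Pool.Agent.NTW.ShortD
import Pool.Agent.NTW.ModuA

/-!
NTW: the short leaves are a class of small norm (near and two sided) for the predicate DmJ.
-/

set_option autoImplicit false

namespace HexObs

namespace NTW

open Finset TS SDN

open scoped ENNReal

variable {C δ : ℝ}

/-- the short leaves are a class of small norm -/
theorem shortD (h : Inp C δ) (hA : SsA) : ShortD DmJ := by
  intro J ε hε
  obtain ⟨d1, k1, hd1, h1⟩ := short_near_small h hA J hε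
  obtain ⟨d2, k2, hd2, h2⟩ := short_free_of h hA J hε
  refine ⟨min d1 d2, max k1 k2, lt_min hd1 hd2, fun kc x hkc hS => ?_⟩
  have hU : 0 ≤ UU (2 ^ (kc + J)) := (Num2Aux.UU_pos _).le
  have hS1 : T2.Short (2 ^ (kc + J)) x d1 := hS.trans (ENNReal.ofReal_le_ofReal
    (mul_le_mul_of_nonneg_right (min_le_left _ _) hU))
  have hS2 : T2.Short (2 ^ (kc + J)) x d2 := hS.trans (ENNReal.ofReal_le_ofReal
    (mul_le_mul_of_nonneg_right (min_le_right _ _) hU))
  exact ⟨fun z Φ hΦ => h1 kc x (le_trans (le_max_left _ _) hkc) hS1 z Φ hΦ.dom,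
    fun y z Ψ Φ hΨ _ hΦ => h2 kc x y z Ψ Φ (le_trans (le_max_right _ _) hkc) hS2 hΨ.2 hΦ.dom⟩

end NTW

end HexObs
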