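import Pool.Agent.NTW.LowJ
import Pool.Agent.NTW.ShortDJ
import Pool.Agent.NTW.TailF
import Pool.Agent.NTW.ExtA
import Pool.Agent.NTW.EventJ

/-!
NTW: the facts in the direction 0, assembled (hypotheses: SsA, the representation RepTwo, the typical scales ScaleP).
-/

set_option autoImplicit false

namespace HexObs

namespace NTW

open Finset TS SDN

open scoped ENNReal

/-- **the facts of direction 0** -/
theorem factsF_A (hA : SsA) (hR : RepTwo) {θ : ℝ} {l : ℕ → ℕ} (hl : NTm.Seq θ l) (h0 : 0 < θ) (h1 : θ ≤ 1 / 2)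
    {G : Set ℕ} (hG : NTm.Good l G) (hS : ScaleP l G) : FactsF l G := by
  obtain ⟨C, δ, h⟩ := inp_exists
  exact factsF_of hl (tailP' hA hR hl h0 h1) (extP_of hl h0 h1 hA ssDP (coverTwo hR) pivotEx)
    (low_of hR (twoGen h hA) dmP hl h0 h1)
    (modu_of (event2J hA hR) (shortD h hA) (cleanD h hA ss3P ssDP) hl h0 h1 hG) hS hG

end NTW

end HexObs
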