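import Pool.Agent.NTW.DispQA
import Pool.Agent.NTW.ShortE
import Pool.Agent.NTW.KernU
import Pool.Agent.NTW.EqJ

/-!
NTW: no large displacements in a short time, quantitative form, no hypothesis left.
-/

set_option autoImplicit false

namespace HexObs

namespace NTW

open TS SDN

/-- the short leaves, exponential form -/
theorem shortQ4J : ShortQ4 DmJ := by
  obtain ⟨C, δ, h⟩ := inp_exists
  exact short_q4 h (ssA h)

/-- no large displacements in a short time, quantitative form, from the event theorem -/
theorem dispQ2_event (hev : EventQ2 DmJ) : DispQ2 := by
  obtain ⟨C, δ, h⟩ := inp_exists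
  exact dispQ4_of hev shortQ4J (cleanD h (ssA h) (ssThree h) (ssBoth h))

/-- **no large displacements in a short time, quantitative form** -/
theorem dispQ2 : DispQ2 := by
  obtain ⟨C, δ, h⟩ := inp_exists
  exact dispQ2_event (eventQ2J (ssA h))

end NTW

end HexObs
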