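import Pool.Agent.NTQ.Deep
import Pool.Agent.NTS.DirDefs

/-!
NTW: a walk with at most 2 ^ (2 L) letters makes no displacement x ≥ 2 ^ (κ L) in a time at most x ^ b, b < 4 / 3, up
to a weight smaller than every power (all self-avoiding walks).
-/

set_option autoImplicit false

namespace HexObs

namespace NTW

open Finset TS SDN SDN.CN NTm NTm.DeepA

open scoped ENNReal

/-- no displacement x ≥ 2 ^ (κ L) in a time at most x ^ b, b < 4 / 3 -/
def Deep2 : Prop := ∀ b κ Q : ℝ, 0 < b → b < 4 / 3 → 0 < κ → ∃ L0 : ℕ, ∀ L : ℕ, L0 ≤ L →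
  gf {t | t ∈ SAL (2 ^ (2 * L)) ∧ ∃ (dir : Bool) (i j : ℕ), i < j ∧ j ≤ t.length ∧
    (2 : ℝ) ^ (κ * L) ≤ |((lvl dir (vx oo up t j) - lvl dir (vx oo up t i) : ℤ) : ℝ)| ∧
    (j : ℝ) - i ≤ |((lvl dir (vx oo up t j) - lvl dir (vx oo up t i) : ℤ) : ℝ)| ^ b} ≤
    ENNReal.ofReal ((2 : ℝ) ^ (-(Q * L)))

/-- no displacement `x ≥ 2 ^ (κ L)` in a time at most `x ^ b`, `b < 4 / 3`: all self-avoiding walks -/
theorem deep2 : Deep2 := by
  intro b κ Q hb hb1 hκ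
  obtain ⟨β, hβ⟩ : ∃ β : ℝ, β = (b + 4 / 3) / 2 := ⟨_, rfl⟩
  obtain ⟨c, M0, hc, hE⟩ := ExpsA.expUp (β := β) (by rw [hβ]; linarith)
  obtain ⟨Cp, hCp, hpoly⟩ := SAL_poly
  obtain ⟨L2, hL2⟩ := weight (g := 2) (Q := Q) (b := κ / 2) one_pos hCp (by positivity) hc (show (0 : ℝ) < 1 from one_pos)
  obtain ⟨L3, hL3⟩ := exists_nat_ge ((M0 : ℝ) / (κ / 2))
  obtain ⟨L4, hL4⟩ := exists_nat_ge (8 / κ)
  obtain ⟨L5, hL5⟩ := exists_nat_ge (4 * b / ((4 / 3 - b) / 2) / (κ / 2))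
  refine ⟨L2 + L3 + L4 + L5, fun L hL => ?_⟩
  have hLR : (0 : ℝ) ≤ L := Nat.cast_nonneg _
  have hL8 : 8 ≤ κ * L := by
    have h4 : (L4 : ℝ) ≤ L := by exact_mod_cast (by omega : L4 ≤ L)
    have h5 := hL4.trans h4
    rw [div_le_iff₀ hκ] at h5
    linarith
  have hLb : 4 * b ≤ (4 / 3 - b) / 2 * (κ / 2 * L) := by
    have h4 : (L5 : ℝ) ≤ L := by exact_mod_cast (by omega : L5 ≤ L)
    have h5 := hL5.trans h4
    rw [div_le_iff₀ (by positivity), div_le_iff₀ (by linarith)] at h5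
    linarith
  obtain ⟨A, hA⟩ : ∃ A : ℕ → Set (List Bool), ∀ m, A m =
    {w | w ∈ SA ∧ T2.Ext m w ∧ (w.length : ℝ) ≤ (2 : ℝ) ^ (β * m)} := ⟨_, fun _ => rfl⟩
  classical
  obtain ⟨I, hI⟩ : ∃ I : Finset ℕ, I = (Finset.range (2 * L + 1)).filter (fun m : ℕ => κ / 2 * (L : ℝ) ≤ m) := ⟨_, rfl⟩
  have hsub : {t | t ∈ SAL (2 ^ (2 * L)) ∧ ∃ (dir : Bool) (i j : ℕ), i < j ∧ j ≤ t.length ∧
      (2 : ℝ) ^ (κ * L) ≤ |((lvl dir (vx oo up t j) - lvl dir (vx oo up t i) : ℤ) : ℝ)| ∧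
      (j : ℝ) - i ≤ |((lvl dir (vx oo up t j) - lvl dir (vx oo up t i) : ℤ) : ℝ)| ^ b} ⊆
      ⋃ m ∈ I, {t | t ∈ SAL (2 ^ (2 * L)) ∧ ∃ i k, (t.drop i).take k ∈ A m} := by
    rintro t ⟨⟨hSA, hlen⟩, dir, i, j, hij, hj, h1, h2⟩
    have hijR : (0 : ℝ) < (j : ℝ) - i := by
      have : (i : ℝ) < j := by exact_mod_cast hij
      linarith
    obtain ⟨Δ, hΔ⟩ : ∃ Δ : ℤ, Δ = |lvl dir (vx oo up t j) - lvl dir (vx oo up t i)| := ⟨_, rfl⟩
    have hΔR : |((lvl dir (vx oo up t j) - lvl dir (vx oo up t i) : ℤ) : ℝ)| = (Δ : ℝ) := by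
      rw [hΔ, Int.cast_abs]
    rw [hΔR] at h1 h2
    have hΔ0 : (0 : ℝ) < Δ := lt_of_lt_of_le (by positivity) h1
    have h3 : (Δ : ℝ) ≤ 2 * ((j : ℝ) - i) := by
      have h4 := lip t dir i (j - i)
      rw [Nat.add_sub_cancel' hij.le, ← hΔ] at h4
      have h5 : (Δ : ℝ) ≤ ((2 * ((j - i : ℕ) : ℤ) : ℤ) : ℝ) := by exact_mod_cast h4
      rw [← Nat.cast_sub hij.le]
      exact_mod_cast h5
    have h6 : (j : ℝ) - i ≤ (2 : ℝ) ^ (2 * L) := by
      have h7 : (j : ℝ) ≤ ((2 ^ (2 * L) : ℕ) : ℝ) := by exact_mod_cast hj.trans hlen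
      have h8 : (0 : ℝ) ≤ i := Nat.cast_nonneg _
      push_cast at h7
      linarith
    obtain ⟨y, hy⟩ : ∃ y : ℝ, y = Real.logb 2 Δ := ⟨_, rfl⟩
    have hΔy : (Δ : ℝ) = (2 : ℝ) ^ y := by
      rw [hy, Real.rpow_logb (by norm_num) (by norm_num) hΔ0]
    have k1 : κ * L ≤ y := by
      have h4 := Real.logb_le_logb_of_le (b := 2) (by norm_num) (by positivity) h1
      rwa [Real.logb_rpow (by norm_num) (by norm_num), ← hy] at h4
    have k2 : y ≤ 2 * L + 1 := by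
      have h4 := Real.logb_le_logb_of_le (b := 2) (by norm_num) hΔ0 (h3.trans (mul_le_mul_of_nonneg_left h6 (by norm_num)))
      rw [Real.logb_mul (by norm_num) (by positivity), Real.logb_self_eq_one (by norm_num), Real.logb_pow,
        Real.logb_self_eq_one (by norm_num), ← hy] at h4
      push_cast at h4
      linarith
    obtain ⟨m, hm⟩ : ∃ m : ℕ, ⌊y⌋₊ = m + 3 := by
      have : 4 ≤ ⌊y⌋₊ := Nat.le_floor (by push_cast; linarith)
      exact ⟨⌊y⌋₊ - 3, by omega⟩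
    have m1 : (m : ℝ) + 3 ≤ y := by
      have h4 := Nat.floor_le (show (0 : ℝ) ≤ y by linarith)
      rw [hm] at h4
      push_cast at h4
      exact h4
    have m2 : y < m + 4 := by
      have h4 := Nat.lt_floor_add_one y
      rw [hm] at h4
      push_cast at h4
      linarith
    have m4 : κ / 2 * L ≤ m := by linarith
    have m5 : m ≤ 2 * L := by
      have h4 : (m : ℝ) ≤ ((2 * L : ℕ) : ℝ) := by
        push_cast
        linarith
      exact_mod_cast h4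
    have m6 : 2 ^ (m + 3) ≤ |lvl dir (vx oo up t j) - lvl dir (vx oo up t i)| := by
      rw [← hΔ]
      have h4 : ((2 : ℝ) ^ (m + 3)) ≤ Δ := by
        rw [hΔy, ← Real.rpow_natCast]
        refine Real.rpow_le_rpow_of_exponent_le (by norm_num) ?_
        push_cast
        exact m1
      exact_mod_cast h4
    obtain ⟨w1, w2, w3⟩ := inf_ext hSA hij.le hj m6
    refine Set.mem_iUnion₂.2 ⟨m, ?_, ⟨hSA, hlen⟩, i, j - i, ?_⟩
    · rw [hI, Finset.mem_filter, Finset.mem_range]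
      exact ⟨by omega, m4⟩
    · rw [hA]
      refine ⟨w1, w2, ?_⟩
      rw [w3, Nat.cast_sub hij.le]
      refine h2.trans ?_
      rw [hΔy, ← Real.rpow_mul (by norm_num)]
      refine Real.rpow_le_rpow_of_exponent_le (by norm_num) ?_
      have h5 : y * b ≤ (m + 4) * b := mul_le_mul_of_nonneg_right m2.le hb.le
      have h6 : (4 / 3 - b) / 2 * (κ / 2 * L) ≤ (4 / 3 - b) / 2 * m := mul_le_mul_of_nonneg_left m4 (by linarith)
      rw [hβ]
      linarith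
  have hone : ∀ m ∈ I, gf {t | t ∈ SAL (2 ^ (2 * L)) ∧ ∃ i k, (t.drop i).take k ∈ A m} ≤
      ENNReal.ofReal ((2 : ℝ) ^ (-(Q * L)) / ((2 * L + 1 : ℕ) : ℝ)) := by
    intro m hm
    rw [hI, Finset.mem_filter, Finset.mem_range] at hm
    obtain ⟨-, hm2⟩ := hm
    have hmM : M0 ≤ m := by
      have h4 : (L3 : ℝ) ≤ L := by exact_mod_cast (by omega : L3 ≤ L)
      have h5 := hL3.trans h4
      rw [div_le_iff₀ (by positivity)] at h5
      have h6 : (M0 : ℝ) ≤ m := by linarith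
      exact_mod_cast h6
    have h4 : gf (A m) ≤ ENNReal.ofReal (Real.exp (-(2 : ℝ) ^ (c * m))) := by
      rw [hA]
      exact hE m hmM
    have h5 := hpoly (2 ^ (2 * L)) Nat.one_le_two_pow
    refine (gf_inf (2 ^ (2 * L)) (A m)).trans ((mul_le_mul' (pow_le_pow_left' h5 2) h4).trans ?_)
    rw [← ENNReal.ofReal_pow (by positivity), ← ENNReal.ofReal_mul (by positivity)]
    apply ENNReal.ofReal_le_ofReal
    have h6 := hL2 L m (by omega) hm2 (2 ^ (2 * L)) (by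
      rw [one_mul, show (2 : ℝ) * L = ((2 * L : ℕ) : ℝ) by push_cast; ring, Real.rpow_natCast]
      push_cast
      exact le_rfl)
    rw [one_mul] at h6
    rw [le_div_iff₀ (by positivity), mul_comm]
    exact h6
  refine (gf_mono hsub).trans ((ENNReal.tsum_biUnion_le wE I _).trans ((Finset.sum_le_sum hone).trans ?_))
  rw [Finset.sum_const, nsmul_eq_mul, ← ENNReal.ofReal_natCast, ← ENNReal.ofReal_mul (by positivity)]
  apply ENNReal.ofReal_le_ofReal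
  have hcard : (I.card : ℝ) ≤ ((2 * L + 1 : ℕ) : ℝ) := by
    have h1 : I.card ≤ 2 * L + 1 := by
      rw [hI]
      refine (Finset.card_filter_le _ _).trans ?_
      rw [Finset.card_range]
    exact_mod_cast h1
  calc (I.card : ℝ) * ((2 : ℝ) ^ (-(Q * L)) / ((2 * L + 1 : ℕ) : ℝ)) ≤
      ((2 * L + 1 : ℕ) : ℝ) * ((2 : ℝ) ^ (-(Q * L)) / ((2 * L + 1 : ℕ) : ℝ)) :=
        mul_le_mul_of_nonneg_right hcard (by positivity)
    _ = (2 : ℝ) ^ (-(Q * L)) := by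
        field_simp

end NTW

end HexObs
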