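import Pool.Agent.NTW.QDefs
import Pool.Agent.NTW.Deep2
import Pool.Agent.NTW.ModuA
import Pool.Agent.NT.FactHK

/-!
NTW: the Hoelder modulus of the walks in the box at the good scales (HoldP), and FactFH.
-/

set_option autoImplicit false

namespace HexObs

namespace NTW

open Finset TS SDN NTm

open scoped ENNReal

/-- the Hoelder modulus in the box -/
def HoldP (a : ℝ) (l : ℕ → ℕ) (G : Set ℕ) : Prop := ∀ J' : ℕ, ∃ q : ℕ, ∀ η : ℝ, 0 < η →
  ∃ (M : ℝ) (L0 : ℕ), 0 < M ∧ ∀ L ∈ G, L0 ≤ L →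
  gf {t | t ∈ SAL (l L) ∧ t ∈ WL (L + J') ∧ ∃ i j : ℕ, i < j ∧ j ≤ t.length ∧
    M * 2 ^ L * (((j : ℝ) - i) / l L) ^ a ≤ |((lev t j - lev t i : ℤ) : ℝ)|} ≤ ENNReal.ofReal (η * Ub L) * BB l L q

/-- bl is at least 1 / 2 -/
lemma one_le_bl {lam lam' : ℕ} (hQ : QL 0 lam') (h : lam' ≤ lam) (j : ℕ) : 1 ≤ 2 * bl lam j := by
  have h0 := hQ 0 (Nat.zero_le _)
  have h1 : gf {X | (∃ n, n ≤ 2 ^ 0 ∧ X ∈ Brd n) ∧ X.length ≤ lam'} ≤ HHl (2 ^ 0) lam := by
    refine gf_mono fun W hW => ?_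
    obtain ⟨⟨n, hn, hW1⟩, hW2⟩ := hW
    exact ⟨SSt_mo hn (BAR.Brd_SSt hW1), by omega⟩
  have hU0 : 0 < UU (2 ^ 0) := Num2Aux.UU_pos _
  have h2 : HHl (2 ^ 0) lam / ENNReal.ofReal (UU (2 ^ 0)) ≤ bl lam j := le_bl _ (Nat.zero_le _)
  have h3 : ENNReal.ofReal (UU (2 ^ 0)) ≤ 2 * HHl (2 ^ 0) lam := h0.trans (mul_le_mul_right h1 _)
  have hne : ENNReal.ofReal (UU (2 ^ 0)) ≠ 0 := (ENNReal.ofReal_pos.2 hU0).ne'
  calc (1 : ℝ≥0∞) = ENNReal.ofReal (UU (2 ^ 0)) / ENNReal.ofReal (UU (2 ^ 0)) :=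
        (ENNReal.div_self hne ENNReal.ofReal_ne_top).symm
    _ ≤ 2 * HHl (2 ^ 0) lam / ENNReal.ofReal (UU (2 ^ 0)) := ENNReal.div_le_div_right h3 _
    _ = 2 * (HHl (2 ^ 0) lam / ENNReal.ofReal (UU (2 ^ 0))) := by
        rw [mul_div_assoc]
    _ ≤ 2 * bl lam j := mul_le_mul_right h2 _

lemma one_le_BB {θ : ℝ} {l : ℕ → ℕ} (hl : NTm.Seq θ l) (h1 : θ ≤ 1 / 2) (L q : ℕ) : 1 ≤ 4 * BB l L q := by
  have h0 : l 0 ≤ l (L + q) := hl.mono (Nat.zero_le _)
  have h2 := one_le_bl (QL_seq hl h1 0) (show l 0 ≤ 2 * l (L + q) by omega) (L + q)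
  have h3 : (1 : ℝ≥0∞) * 1 ≤ (2 * bl (2 * l (L + q)) (L + q)) * (2 * bl (2 * l (L + q)) (L + q)) := mul_le_mul' h2 h2
  rw [one_mul] at h3
  refine h3.trans (le_of_eq ?_)
  unfold BB
  ring

theorem holdP_of (hD : DispQ2) {θ : ℝ} {l : ℕ → ℕ} (hl : NTm.Seq θ l) (h0 : 0 < θ) (hθ : θ ≤ 1 / 2) {a c : ℝ} (K2 : ℝ)
    (hc : 4 / 3 < c) (ha : 0 < a) (hac : a * c < 1) : HoldP a l (GCK K2 c l) := by
  intro i0
  obtain ⟨q1, kq, hq1⟩ := seq_add hl h0 (by linarith) 40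
  refine ⟨i0 + 8 + q1, fun e he => ?_⟩
  have hc0 : 0 < c := by linarith
  -- the constant K2
  obtain ⟨jK, hjK⟩ : ∃ jK : ℕ, 2 * K2 ≤ (2 : ℝ) ^ (c * (jK : ℝ)) := by
    have h1 : 1 < (2 : ℝ) ^ c := Real.one_lt_rpow (by norm_num) hc0
    obtain ⟨j, hj⟩ := pow_unbounded_of_one_lt (2 * K2) h1
    refine ⟨j, hj.le.trans (le_of_eq ?_)⟩
    rw [← Real.rpow_natCast, ← Real.rpow_mul (by norm_num)]
  have hs0 : 0 < 1 - 4 / 3 * a := by nlinarith
  have ha1 : a < 1 := by nlinarith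
  obtain ⟨d, C', hd, hdisp⟩ := hD
  obtain ⟨C, hC⟩ : ∃ C : ℕ, C = C' + 1 := ⟨_, rfl⟩
  have hC1 : 1 ≤ C := by omega
  obtain ⟨j1, hj1⟩ := seq_small hl hd
  have hCR : (1 : ℝ) ≤ C := by exact_mod_cast hC1
  -- the number s
  obtain ⟨s, hs⟩ : ∃ s : ℕ, 2 * 2 ^ i0 * (1 / 2 : ℝ) ^ s ≤ e / 4 := by
    obtain ⟨n, hn⟩ := exists_pow_lt_of_lt_one (show 0 < e / (4 * (2 * 2 ^ i0)) by positivity)
      (show (1 / 2 : ℝ) < 1 by norm_num)
    refine ⟨n, ?_⟩
    calc 2 * 2 ^ i0 * (1 / 2 : ℝ) ^ n ≤ 2 * 2 ^ i0 * (e / (4 * (2 * 2 ^ i0))) := by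
          have := hn.le
          gcongr
      _ = e / 4 := by
          field_simp
  obtain ⟨A, hA⟩ : ∃ A : ℝ, A = 2 * (C * (2 + s)) := ⟨_, rfl⟩
  have hA0 : 0 < A := by rw [hA]; positivity
  obtain ⟨K1, hK10, hK1⟩ := poly_exp hA0 (show 0 < 2 * (a * c) by positivity) (show 0 < 1 - a * c by linarith)
  obtain ⟨D0, hD0⟩ : ∃ D0 : ℝ, D0 = 824 * 2 ^ (i0 + 1) := ⟨_, rfl⟩
  have hD0p : 0 < D0 := by rw [hD0]; positivity
  -- the deep scales
  obtain ⟨κ0, hκ0⟩ : ∃ κ0 : ℝ, κ0 = 1 / (32 * C) := ⟨_, rfl⟩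
  have hκ0p : 0 < κ0 := by rw [hκ0]; positivity
  have hκ01 : κ0 ≤ 1 / 8 := by
    rw [hκ0]
    apply div_le_div_of_nonneg_left (by norm_num) (by norm_num)
    linarith
  obtain ⟨η, hη⟩ : ∃ η : ℝ, η = κ0 * (1 - 4 / 3 * a) / 4 := ⟨_, rfl⟩
  have hη0 : 0 < η := by rw [hη]; positivity
  have hη1 : η ≤ (1 - 4 / 3 * a) / 4 := by
    rw [hη]
    apply div_le_div_of_nonneg_right _ (by norm_num)
    calc κ0 * (1 - 4 / 3 * a) ≤ 1 * (1 - 4 / 3 * a) := by gcongr; linarith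
      _ = _ := one_mul _
  have hη2 : η ≤ 1 / 4 := by linarith
  obtain ⟨C2, hC2, hup⟩ := hl.up η hη0
  have haη : a * η ≤ η := by nlinarith
  have hσ : 0 < 1 - a * (4 / 3 + η) := by nlinarith
  have hab : a * (4 / 3 - η) < 1 := by nlinarith
  have hgap : 0 < 1 - a * (4 / 3 + η) - (1 - κ0) * (1 - a * (4 / 3 - η)) := by
    have e1 : 1 - a * (4 / 3 + η) - (1 - κ0) * (1 - a * (4 / 3 - η)) =
        κ0 * (1 - 4 / 3 * a) - 2 * (a * η) + κ0 * (a * η) := by ring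
    rw [e1]
    have e2 : κ0 * (1 - 4 / 3 * a) = 4 * η := by rw [hη]; ring
    rw [e2]
    have : 0 < κ0 * (a * η) := by positivity
    linarith
  obtain ⟨L2, hdeep⟩ := deep2 (4 / 3 - η) (1 - a * (4 / 3 + η)) 1 (by linarith) (by linarith) hσ
  -- large L
  obtain ⟨L3, hL3⟩ : ∃ L3 : ℕ, ∀ L : ℕ, L3 ≤ L → D0 ≤
      (2 : ℝ) ^ ((1 - a * (4 / 3 + η) - (1 - κ0) * (1 - a * (4 / 3 - η))) * (L : ℝ)) := by
    have h1 : Filter.Tendsto (fun L : ℕ => (2 : ℝ) ^ ((1 - a * (4 / 3 + η) - (1 - κ0) * (1 - a * (4 / 3 - η))) * (L : ℝ)))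
        Filter.atTop Filter.atTop :=
      (tendsto_rpow_atTop_of_base_gt_one 2 (by norm_num)).comp
        (tendsto_natCast_atTop_atTop.const_mul_atTop hgap)
    exact Filter.eventually_atTop.1 (h1.eventually_ge_atTop D0)
  obtain ⟨L4, hL4⟩ : ∃ L4 : ℕ, ∀ L : ℕ, L4 ≤ L → C2 ≤ (2 : ℝ) ^ ((2 - (4 / 3 + η)) * (L : ℝ)) := by
    have h1 : Filter.Tendsto (fun L : ℕ => (2 : ℝ) ^ ((2 - (4 / 3 + η)) * (L : ℝ))) Filter.atTop Filter.atTop :=
      (tendsto_rpow_atTop_of_base_gt_one 2 (by norm_num)).comp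
        (tendsto_natCast_atTop_atTop.const_mul_atTop (by linarith))
    exact Filter.eventually_atTop.1 (h1.eventually_ge_atTop C2)
  obtain ⟨L5, hL5⟩ : ∃ L5 : ℕ, ∀ L : ℕ, L5 ≤ L → (2 : ℝ) ^ (-(1 * (L : ℝ))) ≤ e / 16 := by
    have h1 : Filter.Tendsto (fun L : ℕ => (2 : ℝ) ^ (1 * (L : ℝ))) Filter.atTop Filter.atTop :=
      (tendsto_rpow_atTop_of_base_gt_one 2 (by norm_num)).comp
        (tendsto_natCast_atTop_atTop.const_mul_atTop (by norm_num))
    obtain ⟨L5, hL5⟩ := Filter.eventually_atTop.1 (h1.eventually_ge_atTop (16 / e))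
    refine ⟨L5, fun L hL => ?_⟩
    rw [Real.rpow_neg (by norm_num), inv_le_comm₀ (by positivity) (by positivity), inv_div]
    exact hL5 L hL
  obtain ⟨M, hM⟩ : ∃ M : ℝ, M = max (D0 * (2 : ℝ) ^ (a * c * ((j1 + jK : ℕ) : ℝ)) * K1) (C2 ^ a) := ⟨_, rfl⟩
  have hC2a : 0 < C2 ^ a := by positivity
  have hM1 : D0 * (2 : ℝ) ^ (a * c * ((j1 + jK : ℕ) : ℝ)) * K1 ≤ M := by
    rw [hM]
    exact le_max_left _ _
  have hM2 : C2 ^ a ≤ M := by
    rw [hM]
    exact le_max_right _ _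
  have hM0 : 0 < M := hC2a.trans_le hM2
  choose aJ haJ1 haJ2 using fun J : ℕ => exists_clog (C * (J + (J + s) + 1)) (Nat.mul_pos hC1 (Nat.succ_pos _))
  refine ⟨M, kq + L2 + L3 + L4 + L5 + 32 * (C * (s + 1)) + 32 * C + 32 * j1 + i0 + 1000, hM0, fun L hLG hL => ?_⟩
  have hU := Ub_pos L
  have hU1 := Ch.one_le_Ub L
  obtain ⟨DS, hDS⟩ : ∃ DS : ℕ → Set (List Bool), DS = fun J => {t | (32 * (C * J) ≤ L ∧ 6 ≤ J) ∧
      t ∈ SAL (l L) ∧ t ∈ DFQ (L + i0 - J) J ((l (L + i0 - J - 2 * aJ J - j1) : ℝ) + 1)} := ⟨_, rfl⟩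
  have hBB : (bl (l L + l (L + i0 + 8) + 40) (L + i0 + 8)) ^ 2 ≤ BB l L (i0 + 8 + q1) := by
    unfold BB
    refine pow_le_pow_left' ((bl_mono _ (show L + i0 + 8 ≤ L + (i0 + 8 + q1) by omega)).trans (bl_mono_lam ?_ _)) 2
    have g1 := hq1 (L + i0 + 8) (by omega)
    have g2 : l L ≤ l (L + i0 + 8) := hl.mono (by omega)
    rw [show L + (i0 + 8 + q1) = L + i0 + 8 + q1 by omega]
    omega
  -- natural numbers
  have hnat : ∀ J : ℕ, 32 * (C * J) ≤ L → J ≤ L / 32 ∧ C * (J + (J + s) + 1) ≤ 3 * (L / 32) + 31 ∧ aJ J ≤ 6 * (L / 32) + 62 := by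
    intro J hJ
    have h1 : J ≤ C * J := Nat.le_mul_of_pos_left _ hC1
    have h2 : C * (J + (J + s) + 1) = 2 * (C * J) + C * (s + 1) := by ring
    have h3 := haJ2 J
    have h4 : aJ J < 2 ^ aJ J := Nat.lt_two_pow_self
    omega
  have hgood : ∀ J : ℕ, 32 * (C * J) ≤ L → 6 ≤ J → gf (DS J) ≤
      ENNReal.ofReal ((1 / 2) ^ (J + s) * Ub (L + i0)) * BB l L (i0 + 8 + q1) := by
    intro J hJ hJ6
    obtain ⟨n1, n2, n3⟩ := hnat J hJ
    have hAS := hj1 (L + i0 - J - 2 * aJ J) (by omega)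
    have hCC : C' * (J + (J + s) + 1) ≤ C * (J + (J + s) + 1) := Nat.mul_le_mul_right _ (by omega)
    have h1 := hdisp (L + i0 - J) J (aJ J) (J + s) (l L) (l (L + i0 - J + J + 8)) _ hJ6 (hCC.trans (haJ1 J)) (by omega)
      (QL_seq hl hθ _) hAS
    rw [show L + i0 - J + J = L + i0 by omega] at h1
    refine (gf_mono fun t ht => ?_).trans (h1.trans (mul_le_mul_right hBB _))
    rw [hDS] at ht
    exact ht.2
  have hsumDS : gf (⋃ J ∈ range (L + i0 + 1), DS J) ≤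
      ENNReal.ofReal (e / 4 * Ub L) * BB l L (i0 + 8 + q1) := by
    refine (ENNReal.tsum_biUnion_le (fun t => wE t) (range (L + i0 + 1)) DS).trans ?_
    have h1 : ∀ J ∈ range (L + i0 + 1), gf (DS J) ≤
        ENNReal.ofReal ((1 / 2) ^ J * ((1 / 2) ^ s * Ub (L + i0))) * BB l L (i0 + 8 + q1) := by
      intro J _
      by_cases hJ : 32 * (C * J) ≤ L ∧ 6 ≤ J
      · refine (hgood J hJ.1 hJ.2).trans (mul_le_mul_left (ENNReal.ofReal_le_ofReal (le_of_eq ?_)) _)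
        rw [pow_add]
        ring
      · have : DS J = ∅ := by
          rw [hDS]
          ext t
          exact ⟨fun ht => hJ ht.1, fun ht => ht.elim⟩
        rw [this]
        simp [gf]
    refine (Finset.sum_le_sum h1).trans ?_
    have hUL := Ub_pos (L + i0)
    rw [← Finset.sum_mul, ← ENNReal.ofReal_sum_of_nonneg (fun J _ => by positivity), ← Finset.sum_mul]
    refine mul_le_mul_left (ENNReal.ofReal_le_ofReal ?_) _
    have h2 : ∑ J ∈ range (L + i0 + 1), (1 / 2 : ℝ) ^ J ≤ 2 := by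
      have := Summable.sum_le_tsum (f := fun J : ℕ => (1 / 2 : ℝ) ^ J) (range (L + i0 + 1)) (fun J _ => by positivity)
        (summable_geometric_of_lt_one (by norm_num) (by norm_num))
      rw [tsum_geometric_two] at this
      exact this
    have h3 : Ub (L + i0) ≤ 2 ^ i0 * Ub L := UU_ratio_up L i0
    calc (∑ J ∈ range (L + i0 + 1), (1 / 2 : ℝ) ^ J) * ((1 / 2) ^ s * Ub (L + i0)) ≤
          2 * ((1 / 2) ^ s * (2 ^ i0 * Ub L)) := by gcongr
      _ = (2 * 2 ^ i0 * (1 / 2 : ℝ) ^ s) * Ub L := by ring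
      _ ≤ _ := by gcongr
  have hlL1 : (1 : ℝ) ≤ l L := by exact_mod_cast hl.one L
  have hlL0 : (0 : ℝ) < l L := by linarith
  have hlup : (l L : ℝ) ≤ C2 * (2 : ℝ) ^ ((4 / 3 + η) * (L : ℝ)) := hup L
  obtain ⟨DD, hDD⟩ : ∃ DD : Set (List Bool), DD = {t | t ∈ SAL (2 ^ (2 * L)) ∧ ∃ (dir : Bool) (i j : ℕ), i < j ∧
    j ≤ t.length ∧ (2 : ℝ) ^ ((1 - a * (4 / 3 + η)) * (L : ℝ)) ≤ |((lvl dir (vx oo up t j) - lvl dir (vx oo up t i) : ℤ) : ℝ)| ∧
    (j : ℝ) - i ≤ |((lvl dir (vx oo up t j) - lvl dir (vx oo up t i) : ℤ) : ℝ)| ^ (4 / 3 - η)} := ⟨_, rfl⟩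
  have hdd : gf DD ≤ ENNReal.ofReal (e / 4 * Ub L) * BB l L (i0 + 8 + q1) := by
    rw [hDD]
    refine (hdeep L (by omega)).trans ((ENNReal.ofReal_le_ofReal ((hL5 L (by omega)).trans
      (show e / 16 ≤ e / 16 * Ub L by nlinarith))).trans ?_)
    calc ENNReal.ofReal (e / 16 * Ub L) = ENNReal.ofReal (e / 16 * Ub L) * 1 := (mul_one _).symm
      _ ≤ ENNReal.ofReal (e / 16 * Ub L) * (4 * BB l L (i0 + 8 + q1)) := mul_le_mul_right (one_le_BB hl hθ L _) _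
      _ = ENNReal.ofReal (e / 4 * Ub L) * BB l L (i0 + 8 + q1) := by
          rw [show e / 4 * Ub L = 4 * (e / 16 * Ub L) by ring, ENNReal.ofReal_mul (p := 4) (by norm_num),
            ENNReal.ofReal_ofNat]
          ring
  have hsub : {t | t ∈ SAL (l L) ∧ t ∈ WL (L + i0) ∧ ∃ i j : ℕ, i < j ∧ j ≤ t.length ∧
      M * 2 ^ L * (((j : ℝ) - i) / l L) ^ a ≤ |((lev t j - lev t i : ℤ) : ℝ)|} ⊆
      (⋃ J ∈ range (L + i0 + 1), DS J) ∪ DD := by
    rintro t ⟨ht, hb, i, j, hij, hj, hx⟩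
    obtain ⟨x, hxx⟩ : ∃ x : ℝ, x = |((lev t j - lev t i : ℤ) : ℝ)| := ⟨_, rfl⟩
    obtain ⟨τ, hτ⟩ : ∃ τ : ℝ, τ = (j : ℝ) - i := ⟨_, rfl⟩
    rw [← hxx, ← hτ] at hx
    have hτ1 : 1 ≤ τ := by
      rw [hτ]
      have : (i : ℝ) + 1 ≤ j := by exact_mod_cast hij
      linarith
    have htlen : t.length ≤ l L := ht.2
    rcases le_or_gt x (D0 * (2 : ℝ) ^ ((1 - κ0) * (L : ℝ))) with hxd | hxd
    · -- deep
      right
      have h1 := time_deep (a := a) (b := 4 / 3 - η) (β := 4 / 3 + η) (κ0 := κ0) (D1 := D0) (C2 := C2) (M := M) (x := x)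
        (τ := τ) (lL := l L) (L := L) ha hlL0 hτ1 hC2 hab hlup hM2 (by
          rw [hD0]
          have : (1 : ℝ) ≤ 2 ^ (i0 + 1) := one_le_pow₀ (by norm_num)
          linarith) (by rw [Real.rpow_natCast]; exact hx) hxd (by linarith) (hL3 L (by omega))
      rw [hDD]
      refine ⟨⟨ht.1, ?_⟩, false, i, j, hij, hj, ?_, ?_⟩
      rotate_left
      · have := h1.1
        rw [hxx] at this
        exact this
      · have := h1.2
        rw [hxx, hτ] at this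
        exact this
      refine htlen.trans ?_
      have h2 : (l L : ℝ) ≤ (2 : ℝ) ^ (2 * L) := by
        refine hlup.trans ?_
        calc C2 * (2 : ℝ) ^ ((4 / 3 + η) * (L : ℝ)) ≤ (2 : ℝ) ^ ((2 - (4 / 3 + η)) * (L : ℝ)) * (2 : ℝ) ^ ((4 / 3 + η) * (L : ℝ)) := by
              have := hL4 L (by omega)
              gcongr
          _ = (2 : ℝ) ^ (2 * L) := by
              rw [← Real.rpow_add (by norm_num), ← Real.rpow_natCast]
              congr 1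
              push_cast
              ring
      exact_mod_cast h2
    · -- the macroscopic scales
      left
      have h2L : (1 : ℝ) ≤ (2 : ℝ) ^ ((1 - κ0) * (L : ℝ)) :=
        Real.one_le_rpow (by norm_num) (by have : 0 ≤ 1 - κ0 := by linarith
                                           positivity)
      have hx824 : 824 ≤ x := by
        have h1 : (1 : ℝ) ≤ 2 ^ (i0 + 1) := one_le_pow₀ (by norm_num)
        have h2 : 824 * 1 ≤ D0 * (2 : ℝ) ^ ((1 - κ0) * (L : ℝ)) := by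
          rw [hD0]
          nlinarith
        linarith
      have hxB : x < 824 * 2 ^ (L + i0 - 7) := by
        have h1 : x ≤ 6 * 2 ^ (L + i0) + 4 := by
          have g1 := lev_box hb (hij.le.trans hj)
          have g2 := lev_box hb hj
          have g3 : |lev t j - lev t i| ≤ 6 * 2 ^ (L + i0) + 4 := by
            have := abs_sub (lev t j) (lev t i)
            linarith
          rw [hxx]
          have g4 : ((|lev t j - lev t i| : ℤ) : ℝ) ≤ ((6 * 2 ^ (L + i0) + 4 : ℤ) : ℝ) := by exact_mod_cast g3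
          rw [Int.cast_abs] at g4
          push_cast at g4 ⊢
          exact g4
        have h2 : (2 : ℝ) ^ (L + i0) = 128 * 2 ^ (L + i0 - 7) := by
          have : (128 : ℝ) = 2 ^ 7 := by norm_num
          rw [this, ← pow_add]
          congr 1
          omega
        have h3 : (8 : ℝ) ≤ 2 ^ (L + i0 - 7) := by
          have : (8 : ℝ) = 2 ^ 3 := by norm_num
          rw [this]
          exact pow_le_pow_right₀ (by norm_num) (by omega)
        rw [h2] at h1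
        linarith
      obtain ⟨k, hkB, hk1, hk2⟩ := scale_of hx824 hxB
      obtain ⟨J, hJ⟩ : ∃ J, J = L + i0 - k := ⟨_, rfl⟩
      have hkJ : k + J = L + i0 := by omega
      -- J ≤ κ0 L
      have hJκ : (J : ℝ) ≤ κ0 * L := by
        have h1 : D0 * (2 : ℝ) ^ ((1 - κ0) * (L : ℝ)) < 824 * 2 ^ (k + 1) := hxd.trans hk2
        rw [hD0] at h1
        have h2 : (2 : ℝ) ^ ((i0 : ℝ) + (1 - κ0) * L) < (2 : ℝ) ^ (k : ℝ) := by
          rw [Real.rpow_add (by norm_num), Real.rpow_natCast, Real.rpow_natCast]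
          have h3 : (824 : ℝ) * 2 ^ (i0 + 1) * (2 : ℝ) ^ ((1 - κ0) * (L : ℝ)) = 1648 * (2 ^ i0 * (2 : ℝ) ^ ((1 - κ0) * (L : ℝ))) := by
            rw [pow_succ]
            ring
          have h4 : (824 : ℝ) * 2 ^ (k + 1) = 1648 * 2 ^ k := by
            rw [pow_succ]
            ring
          rw [h3, h4] at h1
          linarith
        rw [Real.rpow_lt_rpow_left_iff (by norm_num)] at h2
        have h5 : (k : ℝ) + J = L + i0 := by exact_mod_cast hkJ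
        linarith
      have hJC : 32 * (C * J) ≤ L := by
        rw [hκ0, div_mul_eq_mul_div, one_mul, le_div_iff₀ (by positivity)] at hJκ
        have : ((32 * (C * J) : ℕ) : ℝ) ≤ (L : ℝ) := by
          push_cast
          linarith
        exact_mod_cast this
      have hJ6 : 6 ≤ J := by omega
      obtain ⟨n1, n2, n3⟩ := hnat J hJC
      rw [Set.mem_iUnion₂]
      refine ⟨J, Finset.mem_range.2 (by omega), ?_⟩
      rw [hDS]
      refine ⟨⟨hJC, hJ6⟩, ?_⟩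
      have hLk : L + i0 - J = k := by omega
      rw [hLk]
      refine ⟨ht, by rw [hkJ]; exact hb, i, j, hij.le, hj, ?_, ?_⟩
      · -- the time
        have haJR : (2 : ℝ) ^ aJ J ≤ A * ((J : ℝ) + 1) := by
          have h1 := haJ2 J
          have h2 : ((2 ^ aJ J : ℕ) : ℝ) ≤ ((2 * (C * (J + (J + s) + 1)) : ℕ) : ℝ) := by exact_mod_cast h1
          push_cast at h2
          refine h2.trans ?_
          rw [hA]
          have h3 : (J : ℝ) + (J + s) + 1 ≤ (2 + s) * (J + 1) := by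
            have h4 : (0 : ℝ) ≤ s * J := by positivity
            nlinarith
          calc 2 * ((C : ℝ) * (J + (J + s) + 1)) ≤ 2 * (C * ((2 + s) * (J + 1))) := by gcongr
            _ = _ := by ring
        have hpow : (2 : ℝ) ^ (a * c * ((2 * aJ J : ℕ) : ℝ)) ≤ K1 * (2 : ℝ) ^ ((1 - a * c) * J) := by
          refine le_trans (le_of_eq ?_) ((Real.rpow_le_rpow (by positivity) haJR (show 0 ≤ 2 * (a * c) by positivity)).trans (hK1 J))
          rw [← Real.rpow_natCast (2 : ℝ) (aJ J), ← Real.rpow_mul (by norm_num)]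
          congr 1
          push_cast
          ring
        have h1 := time_short (a := a) (c := c) (D0 := D0) (M := M) (K1 := K1) (x := x) (τ := τ) (lL := l L) (L := L)
          (i0 := i0) (J := J) (aJ := 2 * aJ J) (j1 := j1 + jK) (k := k) ha hc0 hlL0 (by linarith) hM0 hkJ hk2 hx hD0 hpow hM1
        have h2 := hLG (J + 2 * aJ J + j1) (by omega)
        have h3 : l (L - (J + 2 * aJ J + j1)) ≤ l (k - 2 * aJ J - j1) := hl.mono (by omega)
        have h4 : (l (L - (J + 2 * aJ J + j1)) : ℝ) ≤ l (k - 2 * aJ J - j1) := by exact_mod_cast h3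
        have h5 : (2 : ℝ) ^ (-(c * (J + ((2 * aJ J : ℕ) : ℝ) + ((j1 + jK : ℕ) : ℝ)))) * (l L : ℝ) ≤
            l (L - (J + 2 * aJ J + j1)) / 2 := by
          have h6 : ((J + 2 * aJ J + j1 : ℕ) : ℝ) = (J : ℝ) + ((2 * aJ J : ℕ) : ℝ) + j1 := by push_cast; ring
          rw [h6] at h2
          have h7 : 2 * (l L : ℝ) ≤ (2 : ℝ) ^ (c * (J + ((2 * aJ J : ℕ) : ℝ) + ((j1 + jK : ℕ) : ℝ))) *
              l (L - (J + 2 * aJ J + j1)) := by
            have h8 : (2 : ℝ) ^ (c * (J + ((2 * aJ J : ℕ) : ℝ) + ((j1 + jK : ℕ) : ℝ))) =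
                (2 : ℝ) ^ (c * (jK : ℝ)) * (2 : ℝ) ^ (c * ((J : ℝ) + ((2 * aJ J : ℕ) : ℝ) + j1)) := by
              rw [← Real.rpow_add (by norm_num)]
              congr 1
              push_cast
              ring
            rw [h8]
            calc 2 * (l L : ℝ) ≤ 2 * (K2 * (2 : ℝ) ^ (c * ((J : ℝ) + ((2 * aJ J : ℕ) : ℝ) + j1)) *
                  l (L - (J + 2 * aJ J + j1))) := by gcongr
              _ = (2 * K2) * (2 : ℝ) ^ (c * ((J : ℝ) + ((2 * aJ J : ℕ) : ℝ) + j1)) * l (L - (J + 2 * aJ J + j1)) := by ring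
              _ ≤ _ := by gcongr
          calc (2 : ℝ) ^ (-(c * (J + ((2 * aJ J : ℕ) : ℝ) + ((j1 + jK : ℕ) : ℝ)))) * (l L : ℝ) =
                (2 : ℝ) ^ (-(c * (J + ((2 * aJ J : ℕ) : ℝ) + ((j1 + jK : ℕ) : ℝ)))) * (2 * (l L : ℝ)) / 2 := by ring
            _ ≤ (2 : ℝ) ^ (-(c * (J + ((2 * aJ J : ℕ) : ℝ) + ((j1 + jK : ℕ) : ℝ)))) *
                  ((2 : ℝ) ^ (c * (J + ((2 * aJ J : ℕ) : ℝ) + ((j1 + jK : ℕ) : ℝ))) * l (L - (J + 2 * aJ J + j1))) / 2 := by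
                gcongr
            _ = _ := by
                rw [← mul_assoc, ← Real.rpow_add (by norm_num), neg_add_cancel, Real.rpow_zero, one_mul]
        have h9 : (0 : ℝ) < l (k - 2 * aJ J - j1) := by exact_mod_cast hl.one _
        rw [hτ] at h1
        linarith
      · -- the displacement
        have h7 : 824 * 2 ^ k ≤ |((lev t j - lev t i : ℤ) : ℝ)| := by rw [← hxx]; exact hk1
        rw [← Int.cast_abs] at h7
        have h8 : ((824 * (2 : ℤ) ^ k : ℤ) : ℝ) ≤ ((|lev t j - lev t i| : ℤ) : ℝ) := by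
          push_cast
          push_cast at h7
          exact h7
        exact_mod_cast h8
  refine (gf_mono hsub).trans ((gf_union_le _ _).trans ((add_le_add hsumDS hdd).trans ?_))
  rw [← add_mul, ← ENNReal.ofReal_add (by positivity) (by positivity)]
  refine mul_le_mul_left (ENNReal.ofReal_le_ofReal ?_) _
  have : 0 < e * Ub L := by positivity
  linarith

/-- the walks leave a large box with small weight -/
lemma box_small {l : ℕ → ℕ} {G : Set ℕ} (hT : TailP l) (hS : ScaleP l G) {ε : ℝ} (hε : 0 < ε) : ∃ i0 L0 : ℕ,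
    ∀ L ∈ G, L0 ≤ L → gf {t | t ∈ SAL (l L) ∧ t ∉ WL (L + i0)} ≤ ENNReal.ofReal ε * gf (SAL (l L)) := by
  obtain ⟨K1, q1, L1, hK1, h1⟩ := hT
  obtain ⟨C1, M1, hC1, hS1⟩ := hS q1
  obtain ⟨CD, hCD, hdir⟩ := dirRed
  obtain ⟨i, hi⟩ := exists_pow_lt_of_lt_one (show 0 < ε / (2 * CD) / (K1 * C1) by positivity)
    (show (1 / 2 : ℝ) < 1 by norm_num)
  refine ⟨i, max (max L1 M1) 1, fun L hLG hL' => ?_⟩
  have hL : max L1 M1 ≤ L := le_trans (le_max_left _ _) hL'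
  have hL1' : 1 ≤ L := le_trans (le_max_right _ _) hL'
  have a2 : gf {t | t ∈ SAL (l L) ∧ ∃ n, n ≤ t.length ∧ (2 : ℝ) ^ i * 2 ^ L ≤ |((lev t n : ℤ) : ℝ)|} ≤
      ENNReal.ofReal (ε / (2 * CD)) * gf (SAL (l L)) := by
    refine (at_scale (by positivity) (hS1 L hLG (le_trans (le_max_right _ _) hL))
      (h1 L (le_trans (le_max_left _ _) hL) i)).trans (mul_le_mul_left (ENNReal.ofReal_le_ofReal ?_) _)
    have e1 : (1 : ℝ) / 2 ^ (12 * i) ≤ (1 / 2) ^ i := by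
      rw [div_pow, one_pow]
      apply one_div_le_one_div_of_le (by positivity)
      exact pow_le_pow_right₀ (by norm_num) (by omega)
    calc K1 / 2 ^ (12 * i) * C1 = (K1 * C1) * (1 / 2 ^ (12 * i)) := by ring
      _ ≤ (K1 * C1) * (1 / 2) ^ i := by gcongr
      _ ≤ (K1 * C1) * (ε / (2 * CD) / (K1 * C1)) := by gcongr
      _ = ε / (2 * CD) := by field_simp
  have hp : (2 : ℝ) ≤ 2 ^ i * 2 ^ L := by
    have b1 : (1 : ℝ) ≤ 2 ^ i := one_le_pow₀ (by norm_num)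
    have b2 : (2 : ℝ) ^ 1 ≤ 2 ^ L := pow_le_pow_right₀ (by norm_num) hL1'
    rw [pow_one] at b2
    nlinarith
  have a3 := hdir (l L) {t | ∃ n, n ≤ t.length ∧ 3 * ((2 : ℝ) ^ i * 2 ^ L) ≤ |((lvl true (vx oo up t n) : ℤ) : ℝ)|}
    {t | ∃ n, n ≤ t.length ∧ (2 : ℝ) ^ i * 2 ^ L ≤ |((lev t n : ℤ) : ℝ)|} (by
    rintro q t sg _ hq hsg h1 h2 ⟨n, hn, hn3⟩
    have c2 : lvl true (vx oo up t 0) = 0 := by
      show ip oo (hd true) = 0
      decide
    have c3 := h1 0 (Nat.zero_le _)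
    rw [c2, zero_sub, abs_neg] at c3
    have c3' : |((lvl true (vx oo up t q) : ℤ) : ℝ)| ≤ 2 := by exact_mod_cast c3
    rcases Nat.lt_or_ge n q with hiq | hiq
    · exfalso
      have c4 := h1 n hiq.le
      have c4' : |((lvl true (vx oo up t n) : ℤ) : ℝ) - ((lvl true (vx oo up t q) : ℤ) : ℝ)| ≤ 2 := by exact_mod_cast c4
      have c5 : |((lvl true (vx oo up t n) : ℤ) : ℝ)| ≤ 4 := by
        calc |((lvl true (vx oo up t n) : ℤ) : ℝ)| = |(((lvl true (vx oo up t n) : ℤ) : ℝ) -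
              ((lvl true (vx oo up t q) : ℤ) : ℝ)) + ((lvl true (vx oo up t q) : ℤ) : ℝ)| := by ring_nf
          _ ≤ _ := abs_add_le _ _
          _ ≤ 2 + 2 := add_le_add c4' c3'
          _ = 4 := by norm_num
      linarith
    · obtain ⟨n', rfl⟩ := Nat.exists_eq_add_of_le hiq
      have c4 := h2 n' hn
      refine ⟨n', by rw [List.length_drop]; omega, ?_⟩
      have c5 : |lvl true (vx oo up t (q + n')) - lvl true (vx oo up t q)| = |lev (t.drop q) n'| := by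
        rw [c4, abs_mul]
        rcases hsg with rfl | rfl
        · rw [abs_one, one_mul]
          rfl
        · rw [abs_neg, abs_one, one_mul]
          rfl
      have c6 : |((lvl true (vx oo up t (q + n')) : ℤ) : ℝ) - ((lvl true (vx oo up t q) : ℤ) : ℝ)| =
          |((lev (t.drop q) n' : ℤ) : ℝ)| := by
        have := congrArg (fun z : ℤ => (z : ℝ)) c5
        simpa [Int.cast_abs] using this
      rw [← c6]
      have c7 : |((lvl true (vx oo up t (q + n')) : ℤ) : ℝ)| ≤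
          |((lvl true (vx oo up t (q + n')) : ℤ) : ℝ) - ((lvl true (vx oo up t q) : ℤ) : ℝ)| +
            |((lvl true (vx oo up t q) : ℤ) : ℝ)| := by
        calc |((lvl true (vx oo up t (q + n')) : ℤ) : ℝ)| = |(((lvl true (vx oo up t (q + n')) : ℤ) : ℝ) -
              ((lvl true (vx oo up t q) : ℤ) : ℝ)) + ((lvl true (vx oo up t q) : ℤ) : ℝ)| := by ring_nf
          _ ≤ _ := abs_add_le _ _
      linarith)
  have hsub : {t | t ∈ SAL (l L) ∧ t ∉ WL (L + i)} ⊆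
      {t | t ∈ SAL (l L) ∧ ∃ n, n ≤ t.length ∧ (2 : ℝ) ^ i * 2 ^ L ≤ |((lev t n : ℤ) : ℝ)|} ∪
      {t | t ∈ SAL (l L) ∧ t ∈ {t | ∃ n, n ≤ t.length ∧
        3 * ((2 : ℝ) ^ i * 2 ^ L) ≤ |((lvl true (vx oo up t n) : ℤ) : ℝ)|}} := by
    rintro t ⟨ht, hw⟩
    have hw' : ∃ n, n ≤ t.length ∧ ∃ dir, 2 ^ (L + i) < |row dir (vx oo up t n)| := by
      by_contra hc
      push Not at hc
      exact hw ⟨ht.1, hc⟩
    obtain ⟨n, hn, dir, hd⟩ := hw'
    have hlv : 3 * (2 : ℤ) ^ (L + i) ≤ |lvl dir (vx oo up t n)| := by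
      unfold row at hd
      rcases lt_abs.1 hd with h | h
      · have : 3 * (2 : ℤ) ^ (L + i) ≤ lvl dir (vx oo up t n) := by omega
        exact this.trans (le_abs_self _)
      · have : 3 * (2 : ℤ) ^ (L + i) ≤ -lvl dir (vx oo up t n) := by omega
        exact this.trans (neg_le_abs _)
    have hlv' : 3 * ((2 : ℝ) ^ i * 2 ^ L) ≤ |((lvl dir (vx oo up t n) : ℤ) : ℝ)| := by
      have c1 : ((3 * (2 : ℤ) ^ (L + i) : ℤ) : ℝ) ≤ ((|lvl dir (vx oo up t n)| : ℤ) : ℝ) := by exact_mod_cast hlv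
      rw [Int.cast_abs] at c1
      push_cast at c1
      rw [pow_add] at c1
      rw [mul_comm ((2 : ℝ) ^ i)]
      exact c1
    cases dir with
    | false =>
      left
      refine ⟨ht, n, hn, ?_⟩
      have : lvl false (vx oo up t n) = lev t n := rfl
      rw [this] at hlv'
      linarith
    | true =>
      right
      exact ⟨ht, n, hn, hlv'⟩
  refine (gf_mono hsub).trans ((gf_union_le _ _).trans ((add_le_add a2 (a3.trans (mul_le_mul_right a2 _))).trans ?_))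
  rw [← mul_assoc, ← ENNReal.ofReal_mul (by linarith), ← add_mul, ← ENNReal.ofReal_add (by positivity) (by positivity)]
  refine mul_le_mul_left (ENNReal.ofReal_le_ofReal ?_) _
  have d2 : CD * (ε / (2 * CD)) = ε / 2 := by field_simp
  have d3 : ε / (2 * CD) ≤ ε / 2 := by
    apply div_le_div_of_nonneg_left hε.le (by norm_num)
    linarith
  rw [d2]
  linarith

/-- **the Hoelder modulus, direction 0** -/
theorem factFH_of (hD : DispQ2) {θ : ℝ} {l : ℕ → ℕ} (hl : NTm.Seq θ l) (h0 : 0 < θ) (hθ : θ ≤ 1 / 2) {a c : ℝ} (K2 : ℝ)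
    (hc : 4 / 3 < c) (ha : 0 < a) (hac : a * c < 1) {G : Set ℕ} (hG : G ⊆ GCK K2 c l) (hT : TailP l) (hS : ScaleP l G) :
    FactFH a l G := by
  intro e he
  obtain ⟨i0, L1, hbox⟩ := box_small hT hS (show 0 < e / 2 by positivity)
  obtain ⟨q, hq⟩ := holdP_of hD hl h0 hθ K2 hc ha hac i0
  obtain ⟨C, L2, hC, hSq⟩ := hS q
  obtain ⟨M, L3, hM, hH⟩ := hq (e / (2 * C)) (by positivity)
  refine ⟨M, max (max L1 L2) L3, hM, fun L hLG hL => ?_⟩
  have b1 : L1 ≤ L := le_trans (le_trans (le_max_left _ _) (le_max_left _ _)) hL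
  have b2 : L2 ≤ L := le_trans (le_trans (le_max_right _ _) (le_max_left _ _)) hL
  have b3 : L3 ≤ L := le_trans (le_max_right _ _) hL
  have a1 := at_scale (by positivity) (hSq L hLG b2) (hH L (hG hLG) b3)
  have a2 := hbox L hLG b1
  have hsub : {t | t ∈ SAL (l L) ∧ ∃ i j : ℕ, i < j ∧ j ≤ t.length ∧
      M * 2 ^ L * (((j : ℝ) - i) / l L) ^ a ≤ |((lev t j - lev t i : ℤ) : ℝ)|} ⊆
      {t | t ∈ SAL (l L) ∧ t ∈ WL (L + i0) ∧ ∃ i j : ℕ, i < j ∧ j ≤ t.length ∧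
        M * 2 ^ L * (((j : ℝ) - i) / l L) ^ a ≤ |((lev t j - lev t i : ℤ) : ℝ)|} ∪
      {t | t ∈ SAL (l L) ∧ t ∉ WL (L + i0)} := by
    rintro t ⟨ht, hev⟩
    by_cases hw : t ∈ WL (L + i0)
    · exact Or.inl ⟨ht, hw, hev⟩
    · exact Or.inr ⟨ht, hw⟩
  refine (gf_mono hsub).trans ((gf_union_le _ _).trans ((add_le_add a1 a2).trans ?_))
  rw [← add_mul, ← ENNReal.ofReal_add (by positivity) (by positivity)]
  refine mul_le_mul_left (ENNReal.ofReal_le_ofReal (le_of_eq ?_)) _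
  field_simp
  ring

end NTW

end HexObs
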