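import Pool.Agent.NTS.Fin
import Pool.Agent.NTS.DirF
import Pool.Agent.NTW.AsmA
import Pool.Agent.NTW.FactFA
import Pool.Agent.NTW.ScalesF
import Pool.Agent.NTW.DispQB
import Pool.Agent.NTW.Rep2
import Pool.Agent.NT.SeqEx

/-!
NTW (natural time for all self-avoiding walks): the assembly, no hypothesis left.
-/

set_option autoImplicit false

namespace NTSF

open Finset

open HexObs hiding pos

open HexObs.SDN HexObs.NTW

open HexObs.NTm (Seq Good GCK seq_exists)

/-- the choice of the exponent c -/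
lemma exp_choice {a r : ℝ} (ha0 : 0 < a) (ha1 : a < 3 / 4) (har : a / (3 * (1 - a)) < r) :
    ∃ (c e r' : ℝ), 4 / 3 < c ∧ a * c < 1 ∧ 0 < e ∧ 1 - (c - 4 / 3) / (c - 1) + e = r' ∧ 0 ≤ r' ∧ r' < r := by
  obtain ⟨q, hq⟩ : ∃ q : ℝ, q = a / (3 * (1 - a)) := ⟨_, rfl⟩
  have h1a : 0 < 1 - a := by linarith
  have hq0 : 0 < q := by
    rw [hq]
    positivity
  have hq1 : q < 1 := by
    rw [hq, div_lt_one (by positivity)]
    linarith
  have hqa : q * (3 * (1 - a)) = a := by
    rw [hq]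
    field_simp
  rw [← hq] at har
  obtain ⟨e, he⟩ : ∃ e : ℝ, e = min (r - q) (1 - q) / 2 := ⟨_, rfl⟩
  have he0 : 0 < e := by
    rw [he]
    have : 0 < min (r - q) (1 - q) := lt_min (by linarith) (by linarith)
    positivity
  have he1 : e ≤ (r - q) / 2 := by
    rw [he]
    have := min_le_left (r - q) (1 - q)
    linarith
  have he2 : e ≤ (1 - q) / 2 := by
    rw [he]
    have := min_le_right (r - q) (1 - q)
    linarith
  have hd0 : 0 < q + e / 2 := by positivity
  obtain ⟨c, hc⟩ : ∃ c : ℝ, c = 1 + 1 / 3 / (q + e / 2) := ⟨_, rfl⟩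
  have hc43 : 4 / 3 < c := by
    rw [hc]
    have : 1 / 3 < 1 / 3 / (q + e / 2) := by
      rw [lt_div_iff₀ hd0]
      linarith
    linarith
  have hac : a * c < 1 := by
    have h1 : a * (1 / 3 / (q + e / 2)) < 1 - a := by
      rw [mul_div_assoc', div_lt_iff₀ hd0]
      nlinarith
    rw [hc]
    linarith
  have hdens : 1 - (c - 4 / 3) / (c - 1) + e / 2 = q + e := by
    have h1 : c - 1 = 1 / 3 / (q + e / 2) := by
      rw [hc]
      ring
    have h2 : c - 4 / 3 = (c - 1) - 1 / 3 := by ring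
    have h3 : 0 < c - 1 := by linarith
    rw [h2, sub_div, div_self h3.ne', h1]
    field_simp
    ring
  exact ⟨c, e / 2, q + e, hc43, hac, by positivity, hdens, by positivity, by linarith⟩

/-- **the uniform n-step self-avoiding walks in natural time** -/
theorem finA (a : NNReal) (ε r : ℝ) (ha : 0 < a) (ha1 : (a : ℝ) < 3 / 4) (hε : 0 < ε) (hε1 : ε < 1)
    (har : (a : ℝ) / (3 * (1 - (a : ℝ))) < r) (hr : r < 1) : ConclN a ε r := by
  have ha0 : (0 : ℝ) < a := ha
  obtain ⟨c, e, r', hc, hac, he, hdens, hr', hrr⟩ := exp_choice ha0 ha1 har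
  obtain ⟨Ci, δi, hI⟩ := inp_exists
  have hA : SsA := ssA hI
  obtain ⟨l, hl⟩ := seq_exists (θ := 1 / 4) (by norm_num) (by norm_num)
  have h0 : (0 : ℝ) < 1 / 4 := by norm_num
  have h1 : (1 : ℝ) / 4 ≤ 1 / 2 := by norm_num
  obtain ⟨K, G, hK, hGc, hD, hS, hG⟩ := scaleGCK_of hl h0 h1 hc he
  rw [hdens] at hD
  have hFF : FactsF l G := factsF_A hA rep_two hl h0 h1 hG hS
  have hFH : FactFH a l G := factFH_of dispQ2 hl h0 h1 K hc ha0 hac hGc (tailP' hA rep_two hl h0 h1) hS
  exact result_of ha (by linarith) hε hε1 hr' hrr hr hl.up hl.low (factsS_of dirRed hFF)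
    (factSH_of dirRed hl.one hl.up ha0 ha1 hFH) hD

end NTSF
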