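import Pool.Agent.NTW.DmJ
import Pool.Agent.NTW.EventDefs

/-!
NTW: the leaves with a clean window are a class of small norm (near and two sided), for dominated functionals.
-/

set_option autoImplicit false

namespace HexObs

namespace NTW

open Finset TS SDN SDN.CN NTm

open scoped ENNReal

/-- the leaves with a clean window -/
theorem cleanD_of {C δ : ℝ} (h : Inp C δ) (hA : SsA) (h3 : Ss3) (hD : SsD) : ∃ (K1 : ℝ) (s : ℕ), 1 ≤ K1 ∧
    ∀ kc J n k : ℕ, k + 5 ≤ kc → n * 2 ^ (k + s) ≤ 2 ^ kc → k + s ≤ kc → 2 ≤ J →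
      SmD DmJ kc (GU k kc (2 ^ (kc + J))) (K1 * 8 ^ J / 4 ^ n) := by
  obtain ⟨Ka, hKa, hn⟩ := GX.norm_GU
  obtain ⟨Kx, hKx, hdx⟩ := DmJ_dx h hA h3
  obtain ⟨Kq, hKq, hqx⟩ := DmJ_qx h hA hD
  obtain ⟨K, hK⟩ : ∃ K, K = Ka + Kx + Kq := ⟨_, rfl⟩
  obtain ⟨s, hs, hns⟩ := hn K (by linarith)
  refine ⟨K + K, s, by linarith, fun kc J n k h1 h2 h4 h5 => ⟨fun x Φ hΦ => ?_, fun y x Ψ Φ hΨ hf hΦ => ?_⟩⟩
  · have hx : DX K K (2 ^ (kc + 4)) Φ x := (hdx kc x Φ hΦ).le (by linarith) (by linarith)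
    have hq0 : GX.QX K (2 ^ (kc + 4)) (fun _ => 0) 0 := by
      refine ⟨?_, ?_, ?_⟩
      · intros
        exact le_rfl
      · intros
        exact le_rfl
      · intros
        simp [Rec8.sw_zero]
    exact (hns kc J n k Φ (fun _ => 0) x 0 hx hq0 h1 h2 h4 h5).1
  · have hx : DX K K (2 ^ (kc + 4)) Φ x := (hdx kc x Φ hΦ).le (by linarith) (by linarith)
    have hq : GX.QX K (2 ^ (kc + 4)) (fun g => Ψ (rev g)) y := QX_le (hqx kc y Ψ hΨ hf) (by linarith)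
    exact (hns kc J n k Φ (fun g => Ψ (rev g)) x y hx hq h1 h2 h4 h5).2

end NTW

end HexObs
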