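import Pool.Agent.SDN.CleanFin

/-!
NTW: the class theorem of the long leaves without backtracks, for end functionals with a number x (structure DX) in place
of the norm.
-/

set_option autoImplicit false

namespace HexObs

namespace NTW

open Finset TS SDN SDN.CN

open scoped ENNReal

/-- what the class theorems use of an end functional: total bound and two scale bound with the number x -/
structure DX (K0 K1 : ℝ) (D : ℕ) (Φ : List Bool → ℝ≥0∞) (x : ℝ≥0∞) : Prop where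
  her : HerD D Φ
  tot : ∀ N : ℕ, Rec8.sw (BrR D N) Φ ≤ ENNReal.ofReal (K0 * UU N) * x
  two : ∀ i E N : ℕ, 2 ^ (i + 4) ≤ D → D ≤ E → E ≤ N →
    xT (2 ^ (i + 4)) i (vA (2 ^ (i + 4)) (BrR E N) Φ) ≤ ENNReal.ofReal (K1 * (UU N / Ub i)) * x

/-- the bounds of the block n -/
structure PX (k s : ℕ) (Φ : List Bool → ℝ≥0∞) (x : ℝ≥0∞) (M : ℝ) (n : ℕ) : Prop where
  near : ∀ i, i ≤ k → xT (2 ^ (i + 4)) i (vA (2 ^ (i + 4)) (WW k s n) Φ) ≤
    ENNReal.ofReal (M / 4 ^ n / Ub i) * x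
  free : Rec8.sw (WW k s n) Φ ≤ ENNReal.ofReal (M / 4 ^ n) * x

lemma PX_three {k s : ℕ} {Φ : List Bool → ℝ≥0∞} {x : ℝ≥0∞} {M : ℝ} {n : ℕ} (hn : 4 ≤ n) (hM : 0 ≤ M)
    (h : ∀ i, i < n → PX k s Φ x M i) :
    (∀ i, i ≤ k → xT (2 ^ (i + 4)) i (vA (2 ^ (i + 4)) (W3 k s n) Φ) ≤
      ENNReal.ofReal (84 * M / 4 ^ n / Ub i) * x) ∧
    Rec8.sw (W3 k s n) Φ ≤ ENNReal.ofReal (84 * M / 4 ^ n) * x := by
  have h3 := three hn M
  constructor
  · intro i hi
    have hU := Ub_pos i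
    refine (xT_mono fun t => W3_vA t).trans ((xT_sum _ _ _ _).trans ?_)
    calc ∑ j ∈ (range n).filter (fun i => n ≤ i + 3), xT (2 ^ (i + 4)) i (fun t => vA (2 ^ (i + 4)) (WW k s j) Φ t)
        ≤ ∑ j ∈ (range n).filter (fun i => n ≤ i + 3), ENNReal.ofReal (M / 4 ^ j / Ub i) * x := by
          refine Finset.sum_le_sum fun j hj => ?_
          rw [Finset.mem_filter, Finset.mem_range] at hj
          exact (h j hj.1).near i hi
      _ = ENNReal.ofReal (∑ j ∈ (range n).filter (fun i => n ≤ i + 3), M / 4 ^ j / Ub i) * x := by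
          rw [← Finset.sum_mul, ENNReal.ofReal_sum_of_nonneg]
          intro j _
          positivity
      _ ≤ _ := by
          refine mul_le_mul_left (ENNReal.ofReal_le_ofReal ?_) _
          rw [← Finset.sum_div]
          exact div_le_div_of_nonneg_right h3 hU.le
  · refine W3_sw.trans ?_
    calc ∑ j ∈ (range n).filter (fun i => n ≤ i + 3), Rec8.sw (WW k s j) Φ
        ≤ ∑ j ∈ (range n).filter (fun i => n ≤ i + 3), ENNReal.ofReal (M / 4 ^ j) * x := by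
          refine Finset.sum_le_sum fun j hj => ?_
          rw [Finset.mem_filter, Finset.mem_range] at hj
          exact (h j hj.1).free
      _ = ENNReal.ofReal (∑ j ∈ (range n).filter (fun i => n ≤ i + 3), M / 4 ^ j) * x := by
          rw [← Finset.sum_mul, ENNReal.ofReal_sum_of_nonneg]
          intro j _
          positivity
      _ ≤ _ := mul_le_mul_left (ENNReal.ofReal_le_ofReal h3) _

/-- the sum over the links, after the operator with the bound κ for the first piece -/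
lemma link_sumX {k s n : ℕ} {Φ : List Bool → ℝ≥0∞} {x : ℝ≥0∞} {M K1 K2 κ : ℝ} (hn : 4 ≤ n) (hM : 0 ≤ M) (hK1 : 0 ≤ K1)
    (hK2 : 1 ≤ K2) (hκ : 0 ≤ κ) (h : ∀ i, i < n → PX k s Φ x M i)
    (hnA : ∀ (i : ℕ) (Ψ : List Bool → ℝ≥0∞), Hered Ψ → xT (2 ^ (i + 4)) i (vA (2 ^ (i + 4)) (BrR (2 ^ (i + 4)) (2 ^ (i + 4 + 1))) Ψ) ≤
      ENNReal.ofReal (32 * K2) * xT (2 ^ (i + 4)) i Ψ)
    (hnum : K1 * (84 * (514 + ∑ i ∈ range (k + 1), 2 ^ (i + 5) * (32 * K2) / Ub i)) ≤ 2 ^ (k + s))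
    {X : ℝ≥0∞} {Z : ℕ → ℝ≥0∞} (hX : X ≤ ENNReal.ofReal (K1 * κ) * (2 * (257 * Rec8.sw (W3 k s n) Φ)))
    (hZ : ∀ i, i ≤ k → Z (i + 4) ≤ ENNReal.ofReal (K1 * κ) * xT (2 ^ (i + 4)) i (ZZ (i + 4) (W3 k s n) Φ)) :
    X + ∑ j ∈ Ico 4 (k + 5), 2 ^ (j + 1) * Z j ≤
      2 ^ (k + s) * (ENNReal.ofReal (M / 4 ^ n * κ) * x) := by
  obtain ⟨h1, h2⟩ := PX_three hn hM h
  have hMn : 0 ≤ 84 * M / 4 ^ n := by positivity
  have hX' : X ≤ ENNReal.ofReal (K1 * κ * (514 * (84 * M / 4 ^ n))) * x := by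
    refine hX.trans ?_
    calc ENNReal.ofReal (K1 * κ) * (2 * (257 * Rec8.sw (W3 k s n) Φ)) ≤
          ENNReal.ofReal (K1 * κ) * (2 * (257 * (ENNReal.ofReal (84 * M / 4 ^ n) * x))) := by gcongr
      _ = ENNReal.ofReal (K1 * κ * (514 * (84 * M / 4 ^ n))) * x := by
          have e : ENNReal.ofReal 514 = 2 * 257 := by
            rw [ENNReal.ofReal_ofNat]
            norm_num
          rw [ENNReal.ofReal_mul (p := K1 * κ) (by positivity), ENNReal.ofReal_mul (p := 514) (by norm_num), e]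
          ring
  have hZ' : ∀ i ∈ range (k + 1), 2 ^ (i + 4 + 1) * Z (i + 4) ≤
      ENNReal.ofReal (K1 * κ * ((2 ^ (i + 5) * (32 * K2) / Ub i) * (84 * M / 4 ^ n))) * x := by
    intro i hi
    rw [Finset.mem_range] at hi
    have hU := Ub_pos i
    have h3 : xT (2 ^ (i + 4)) i (ZZ (i + 4) (W3 k s n) Φ) ≤
        ENNReal.ofReal (32 * K2) * (ENNReal.ofReal (84 * M / 4 ^ n / Ub i) * x) := by
      refine (hnA i _ (hered_vA _ _ _)).trans ?_
      exact mul_le_mul_right (h1 i (by omega)) _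
    calc (2 : ℝ≥0∞) ^ (i + 4 + 1) * Z (i + 4) ≤ 2 ^ (i + 4 + 1) * (ENNReal.ofReal (K1 * κ) *
          (ENNReal.ofReal (32 * K2) * (ENNReal.ofReal (84 * M / 4 ^ n / Ub i) * x))) := by
          refine mul_le_mul_right ((hZ i (by omega)).trans (mul_le_mul_right h3 _)) _
      _ = _ := by
          have e : (2 : ℝ≥0∞) ^ (i + 4 + 1) = ENNReal.ofReal (2 ^ (i + 5)) := by
            rw [ENNReal.ofReal_pow (by norm_num)]
            norm_num
          rw [e, ← mul_assoc, ← mul_assoc, ← mul_assoc, ← ENNReal.ofReal_mul (by positivity),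
            ← ENNReal.ofReal_mul (by positivity), ← ENNReal.ofReal_mul (by positivity)]
          congr 2
          field_simp
  have hsum : ∑ j ∈ Ico 4 (k + 5), (2 : ℝ≥0∞) ^ (j + 1) * Z j = ∑ i ∈ range (k + 1), 2 ^ (i + 4 + 1) * Z (i + 4) := by
    rw [Finset.sum_Ico_eq_sum_range]
    refine Finset.sum_congr (by congr 1) fun i _ => ?_
    rw [add_comm 4 i]
  rw [hsum]
  calc X + ∑ i ∈ range (k + 1), 2 ^ (i + 4 + 1) * Z (i + 4) ≤
        ENNReal.ofReal (K1 * κ * (514 * (84 * M / 4 ^ n))) * x + ∑ i ∈ range (k + 1),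
          ENNReal.ofReal (K1 * κ * ((2 ^ (i + 5) * (32 * K2) / Ub i) * (84 * M / 4 ^ n))) * x :=
        add_le_add hX' (Finset.sum_le_sum hZ')
    _ = ENNReal.ofReal (K1 * (84 * (514 + ∑ i ∈ range (k + 1), 2 ^ (i + 5) * (32 * K2) / Ub i)) * (M / 4 ^ n * κ)) * x := by
        rw [← Finset.sum_mul, ← add_mul, ← ENNReal.ofReal_sum_of_nonneg, ← ENNReal.ofReal_add]
        · congr 2
          rw [← Finset.mul_sum, ← Finset.sum_mul]
          ring
        · positivity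
        · refine Finset.sum_nonneg fun i _ => ?_
          have hU := Ub_pos i
          positivity
        · intro i _
          have hU := Ub_pos i
          positivity
    _ ≤ ENNReal.ofReal (2 ^ (k + s) * (M / 4 ^ n * κ)) * x := by
        refine mul_le_mul_left (ENNReal.ofReal_le_ofReal ?_) _
        exact mul_le_mul_of_nonneg_right hnum (by positivity)
    _ = _ := by
        rw [ENNReal.ofReal_mul (by positivity), ENNReal.ofReal_pow (by norm_num), ENNReal.ofReal_ofNat]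
        ring

/-- all blocks -/
theorem PX_all {K0 K1 K2 : ℝ} (hK0 : 1 ≤ K0) (hK1 : 1 ≤ K1) (hK2 : 1 ≤ K2)
    (htot : ∀ (D N k : ℕ) (Φ : List Bool → ℝ≥0∞), Hered Φ → 2 ^ (k + 4) ≤ D →
      Rec8.sw (BrR D N) Φ ≤ ENNReal.ofReal (K0 * UU N) * xT D k Φ)
    (htwo : ∀ (D0 k0 D1 k1 E N : ℕ) (Φ : List Bool → ℝ≥0∞), Hered Φ → 2 ^ (k0 + 4) ≤ D0 →
      2 ^ (k1 + 4) ≤ D1 → D0 ≤ E → D1 ≤ E → E ≤ N →
      xT D0 k0 (vA D0 (BrR E N) Φ) ≤ ENNReal.ofReal (K1 * (UU N / Ub k0)) * xT D1 k1 Φ)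
    (hnA : ∀ (i : ℕ) (Ψ : List Bool → ℝ≥0∞), Hered Ψ → xT (2 ^ (i + 4)) i (vA (2 ^ (i + 4)) (BrR (2 ^ (i + 4)) (2 ^ (i + 4 + 1))) Ψ) ≤
      ENNReal.ofReal (32 * K2) * xT (2 ^ (i + 4)) i Ψ)
    {k s : ℕ} (hs : 6 ≤ s)
    (hnum : (K0 + K1) * UU (4 * 2 ^ (k + s)) * (84 * (514 + ∑ i ∈ range (k + 1), 2 ^ (i + 5) * (32 * K2) / Ub i)) ≤
      2 ^ (k + s))
    {Φ : List Bool → ℝ≥0∞} {x : ℝ≥0∞} (hΦ : DX K0 K1 (2 ^ (k + 4)) Φ x) {M : ℝ} (hM : 64 * ((K0 + K1) * UU (4 * 2 ^ (k + s))) ≤ M) :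
    ∀ n, PX k s Φ x M n := by
  have hU4 : 0 < UU (4 * 2 ^ (k + s)) := Num2Aux.UU_pos _
  have hM0 : 0 ≤ M := le_trans (by positivity) hM
  intro n
  induction n using Nat.strong_induction_on with
  | _ n ih =>
  obtain ⟨R, hR⟩ : ∃ R, R = 2 ^ (k + s) := ⟨_, rfl⟩
  have hR1 : 2 * 2 ^ (k + 5) ≤ R := by
    rw [hR, ← pow_succ']
    exact Nat.pow_le_pow_right (by norm_num) (by omega)
  have hp5 : 2 ^ (k + 5) = 2 * 2 ^ (k + 4) := by rw [← pow_succ']
  have hp4 : 1 ≤ 2 ^ (k + 4) := Nat.one_le_two_pow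
  have hi4 : ∀ i, i ≤ k → 2 ^ (i + 4) ≤ 2 ^ (k + 4) := fun i hi => Nat.pow_le_pow_right (by norm_num) (by omega)
  rcases Nat.lt_or_ge n 4 with hn | hn
  · -- the first blocks
    have hsub : WW k s n ⊆ BrR (2 ^ (k + 4)) (4 * R) := by
      rintro g ⟨⟨-, h, -, h2, h3⟩, u, u1, u2⟩
      have := Brd_height h3 u2
      subst this
      refine ⟨h, u1, ?_, h3⟩
      rw [← hR] at h2
      have : (n + 1) * R ≤ 4 * R := Nat.mul_le_mul_right _ (by omega)
      omega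
    have h4n : (4 : ℝ) ^ n ≤ 64 := by
      calc (4 : ℝ) ^ n ≤ 4 ^ 3 := pow_le_pow_right₀ (by norm_num) (by omega)
        _ = 64 := by norm_num
    rw [← hR] at hM hU4
    have hM1 : K1 * UU (4 * R) ≤ M / 4 ^ n := by
      rw [le_div_iff₀ (by positivity)]
      calc K1 * UU (4 * R) * 4 ^ n ≤ (K0 + K1) * UU (4 * R) * 64 := by gcongr; linarith
        _ ≤ M := by linarith
    have hM2 : K0 * UU (4 * R) ≤ M / 4 ^ n := by
      rw [le_div_iff₀ (by positivity)]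
      calc K0 * UU (4 * R) * 4 ^ n ≤ (K0 + K1) * UU (4 * R) * 64 := by gcongr; linarith
        _ ≤ M := by linarith
    refine ⟨fun i hi => ?_, ?_⟩
    · have hU := Ub_pos i
      refine (xT_mono (Ψ := vA (2 ^ (i + 4)) (BrR (2 ^ (k + 4)) (4 * R)) Φ) fun t => ?_).trans
        ((hΦ.two i (2 ^ (k + 4)) (4 * R) (hi4 i hi) le_rfl (by omega)).trans (mul_le_mul_left (ENNReal.ofReal_le_ofReal ?_) _))
      · unfold vA
        exact Rec8.sw_mono (fun g hg => ⟨hsub hg.1, hg.2⟩) fun _ _ => le_rfl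
      · rw [← mul_div_assoc]
        exact div_le_div_of_nonneg_right hM1 hU.le
    · refine (Rec8.sw_mono hsub fun _ _ => le_rfl).trans ((hΦ.tot (4 * R)).trans
        (mul_le_mul_left (ENNReal.ofReal_le_ofReal hM2) _))
  · -- the recursion
    refine ⟨fun i hi => ?_, ?_⟩
    · have hU := Ub_pos i
      have hstep : ∀ t, 2 ^ (k + s) * vA (2 ^ (i + 4)) (WW k s n) Φ t ≤
          vA (2 ^ (i + 4)) (BrR (2 * R) (4 * R)) (fun _ => 257 * Rec8.sw (W3 k s n) Φ) t +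
          ∑ j ∈ Ico 4 (k + 5), 2 ^ (j + 1) * vA (2 ^ (i + 4)) (BrR (2 * R) (4 * R)) (ZZ j (W3 k s n) Φ) t := by
        intro t
        rw [hR]
        exact step_avg hΦ.her hs hn (fun g => RT (2 ^ (i + 4)) LFold t g)
          (fun x' y ⟨Z, z1, z2, z3⟩ => ⟨Z, z1, z2, LFold_pre z3⟩)
          (fun x' y z hx ⟨Z, z1, z2, z3⟩ => ⟨Z, z1, z2, LFold_fst hx z3⟩)
      have h1 : 2 ^ (k + s) * xT (2 ^ (i + 4)) i (vA (2 ^ (i + 4)) (WW k s n) Φ) ≤
          xT (2 ^ (i + 4)) i (vA (2 ^ (i + 4)) (BrR (2 * R) (4 * R)) (fun _ => 257 * Rec8.sw (W3 k s n) Φ)) +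
          ∑ j ∈ Ico 4 (k + 5), 2 ^ (j + 1) *
            xT (2 ^ (i + 4)) i (vA (2 ^ (i + 4)) (BrR (2 * R) (4 * R)) (ZZ j (W3 k s n) Φ)) := by
        have hc0 : (2 : ℝ≥0∞) ^ (k + s) ≠ 0 := by positivity
        have hct : (2 : ℝ≥0∞) ^ (k + s) ≠ ⊤ := ENNReal.pow_ne_top (by norm_num)
        have h2 : vA (2 ^ (i + 4)) (WW k s n) Φ = fun t => (2 ^ (k + s))⁻¹ * (2 ^ (k + s) * vA (2 ^ (i + 4)) (WW k s n) Φ t) := by
          funext t
          rw [← mul_assoc, ENNReal.inv_mul_cancel hc0 hct, one_mul]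
        have h3 : xT (2 ^ (i + 4)) i (vA (2 ^ (i + 4)) (WW k s n) Φ) ≤ (2 ^ (k + s))⁻¹ *
            xT (2 ^ (i + 4)) i (fun t => 2 ^ (k + s) * vA (2 ^ (i + 4)) (WW k s n) Φ t) := by
          conv_lhs => rw [h2]
          exact xT_smul _ _ _ _
        calc 2 ^ (k + s) * xT (2 ^ (i + 4)) i (vA (2 ^ (i + 4)) (WW k s n) Φ) ≤
              2 ^ (k + s) * ((2 ^ (k + s))⁻¹ * xT (2 ^ (i + 4)) i (fun t => 2 ^ (k + s) * vA (2 ^ (i + 4)) (WW k s n) Φ t)) := by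
              gcongr
          _ = xT (2 ^ (i + 4)) i (fun t => 2 ^ (k + s) * vA (2 ^ (i + 4)) (WW k s n) Φ t) := by
              rw [← mul_assoc, ENNReal.mul_inv_cancel hc0 hct, one_mul]
          _ ≤ _ := by
              refine (xT_mono hstep).trans ((xT_add _ _ _ _).trans (add_le_add le_rfl ?_))
              refine (xT_sum _ _ _ _).trans (Finset.sum_le_sum fun j _ => ?_)
              exact xT_smul _ _ _ _
      apply le_of_mul (k := k) (s := s)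
      refine h1.trans ?_
      have h5 := link_sumX (k := k) (s := s) (n := n) (Φ := Φ) (x := x) (M := M) (K1 := (K0 + K1) * UU (4 * R)) (K2 := K2)
        (κ := 1 / Ub i) hn hM0 (by rw [hR]; positivity) hK2 (by positivity) ih hnA (by rw [hR]; exact hnum)
        (X := xT (2 ^ (i + 4)) i (vA (2 ^ (i + 4)) (BrR (2 * R) (4 * R)) (fun _ => 257 * Rec8.sw (W3 k s n) Φ)))
        (Z := fun j => xT (2 ^ (i + 4)) i (vA (2 ^ (i + 4)) (BrR (2 * R) (4 * R)) (ZZ j (W3 k s n) Φ))) ?_ ?_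
      · refine h5.trans (le_of_eq ?_)
        rw [mul_one_div]
      · refine (htwo (2 ^ (i + 4)) i (2 ^ (i + 4)) i (2 * R) (4 * R) _ (fun _ _ _ => le_rfl) le_rfl le_rfl
          (by have := hi4 i hi; omega) (by have := hi4 i hi; omega) (by omega)).trans ?_
        refine mul_le_mul' (ENNReal.ofReal_le_ofReal ?_) (xT_const _ _ _)
        rw [mul_div_assoc', mul_one_div]
        apply div_le_div_of_nonneg_right _ hU.le
        rw [hR]
        exact mul_le_mul_of_nonneg_right (by linarith) hU4.le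
      · intro j hj
        refine (htwo (2 ^ (i + 4)) i (2 ^ (j + 4)) j (2 * R) (4 * R) _ (hered_vA _ _ _) le_rfl le_rfl
          (by have := hi4 i hi; omega) (by have := hi4 j hj; omega) (by omega)).trans ?_
        refine mul_le_mul_left (ENNReal.ofReal_le_ofReal ?_) _
        rw [mul_div_assoc', mul_one_div]
        apply div_le_div_of_nonneg_right _ hU.le
        rw [hR]
        exact mul_le_mul_of_nonneg_right (by linarith) hU4.le
    · have h1 := step_avg hΦ.her hs hn (fun _ => True) (fun _ _ _ => trivial) (fun _ _ _ _ _ => trivial)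
      apply le_of_mul (k := k) (s := s)
      have e1 : Rec8.sw {g | g ∈ WW k s n ∧ True} Φ = Rec8.sw (WW k s n) Φ := by
        congr 1
        ext g
        simp
      rw [e1] at h1
      refine h1.trans ?_
      rw [← hR]
      have h5 := link_sumX (k := k) (s := s) (n := n) (Φ := Φ) (x := x) (M := M) (K1 := (K0 + K1) * UU (4 * R)) (K2 := K2)
        (κ := 1) hn hM0 (by rw [hR]; positivity) hK2 (by norm_num) ih hnA (by rw [hR]; exact hnum)
        (X := Rec8.sw {g | g ∈ BrR (2 * R) (4 * R) ∧ True} (fun _ => 257 * Rec8.sw (W3 k s n) Φ))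
        (Z := fun j => Rec8.sw {g | g ∈ BrR (2 * R) (4 * R) ∧ True} (ZZ j (W3 k s n) Φ)) ?_ ?_
      · refine h5.trans (le_of_eq ?_)
        rw [mul_one]
      · refine (Rec8.sw_mono (B := BrR (2 * R) (4 * R)) (Ψ := fun _ => 257 * Rec8.sw (W3 k s n) Φ) (fun g hg => hg.1)
          fun _ _ => le_rfl).trans ?_
        refine (htot (2 * R) (4 * R) k _ (fun _ _ _ => le_rfl) (by omega)).trans ?_
        refine mul_le_mul' (ENNReal.ofReal_le_ofReal ?_) (xT_const _ _ _)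
        rw [mul_one, hR]
        exact mul_le_mul_of_nonneg_right (by linarith) hU4.le
      · intro j hj
        have hj2 := hi4 j hj
        refine (Rec8.sw_mono (B := BrR (2 ^ (j + 4)) (4 * R)) (Ψ := ZZ (j + 4) (W3 k s n) Φ) (fun x hx => by
          obtain ⟨⟨u, u1, u2, u3⟩, -⟩ := hx
          exact ⟨u, by omega, u2, u3⟩) fun _ _ => le_rfl).trans ?_
        refine (htot (2 ^ (j + 4)) (4 * R) j _ (hered_vA _ _ _) le_rfl).trans ?_
        refine mul_le_mul_left (ENNReal.ofReal_le_ofReal ?_) _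
        rw [mul_one, hR]
        exact mul_le_mul_of_nonneg_right (by linarith) hU4.le


/-- the long leaves without backtracks have exponentially small weight -/
theorem clean_X : ∃ (K0 K1 : ℝ), 1 ≤ K0 ∧ 1 ≤ K1 ∧ ∀ (A0 A1 : ℝ), K0 ≤ A0 → K1 ≤ A1 → ∃ (K : ℝ) (s : ℕ), 1 ≤ K ∧ 6 ≤ s ∧
    ∀ (k n : ℕ) (Φ : List Bool → ℝ≥0∞) (x : ℝ≥0∞), DX A0 A1 (2 ^ (k + 4)) Φ x →
    xT (2 ^ (k + 4)) k (vA (2 ^ (k + 4)) (CK (k + 5) (k + s) n ∩ HB (2 ^ (k + 4))) Φ) ≤ ENNReal.ofReal (K / 4 ^ n) * x ∧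
    Rec8.sw (CK (k + 5) (k + s) n ∩ HB (2 ^ (k + 4))) Φ ≤ ENNReal.ofReal (K * Ub k / 4 ^ n) * x := by
  obtain ⟨C, δ, hInp⟩ := inp_exists
  obtain ⟨B0, hB0, htot'⟩ := totH hInp
  obtain ⟨B1, hB1, htwo'⟩ := two_scale
  obtain ⟨K2, hK2, hnA⟩ := nA hInp
  refine ⟨B0, B1, hB0, hB1, fun K0 K1 hA0 hA1 => ?_⟩
  have hK0 : 1 ≤ K0 := hB0.trans hA0
  have hK1 : 1 ≤ K1 := hB1.trans hA1
  have htot : ∀ (D N k : ℕ) (Φ : List Bool → ℝ≥0∞), Hered Φ → 2 ^ (k + 4) ≤ D →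
      Rec8.sw (BrR D N) Φ ≤ ENNReal.ofReal (K0 * UU N) * xT D k Φ := fun D N k Φ hΦ hD =>
    (htot' D N k Φ hΦ hD).trans (mul_le_mul_left (ENNReal.ofReal_le_ofReal
      (mul_le_mul_of_nonneg_right hA0 (Num2Aux.UU_pos N).le)) _)
  have htwo : ∀ (D0 k0 D1 k1 E N : ℕ) (Φ : List Bool → ℝ≥0∞), Hered Φ → 2 ^ (k0 + 4) ≤ D0 →
      2 ^ (k1 + 4) ≤ D1 → D0 ≤ E → D1 ≤ E → E ≤ N →
      xT D0 k0 (vA D0 (BrR E N) Φ) ≤ ENNReal.ofReal (K1 * (UU N / Ub k0)) * xT D1 k1 Φ :=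
    fun D0 k0 D1 k1 E N Φ hΦ h1 h2 h3 h4 h5 => (htwo' D0 k0 D1 k1 E N Φ hΦ h1 h2 h3 h4 h5).trans
      (mul_le_mul_left (ENNReal.ofReal_le_ofReal (mul_le_mul_of_nonneg_right hA1
        (div_nonneg (Num2Aux.UU_pos N).le (Ub_pos k0).le))) _)
  obtain ⟨s, hs, hnum⟩ := link_num (K0 + K1) K2 (by linarith) hK2
  refine ⟨64 * ((K0 + K1) * 2 ^ (s + 2)), s, ?_, hs, fun k n Φ x hΦ => ?_⟩
  · have : (1 : ℝ) ≤ 2 ^ (s + 2) := one_le_pow₀ (by norm_num)
    nlinarith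
  have hUk := Ub_pos k
  have hnA' : ∀ (i : ℕ) (Ψ : List Bool → ℝ≥0∞), Hered Ψ → xT (2 ^ (i + 4)) i (vA (2 ^ (i + 4)) (BrR (2 ^ (i + 4)) (2 ^ (i + 4 + 1))) Ψ) ≤
      ENNReal.ofReal (32 * K2) * xT (2 ^ (i + 4)) i Ψ := by
    intro i Ψ hΨ
    have h1 := hnA (2 ^ (i + 4)) (2 ^ (i + 4 + 1)) i LFold 32 Ψ hΨ RNb_LFold le_rfl (by norm_num) (by
      have h2 := UU_ratio_up i 5
      have e : (32 : ℝ) = 2 ^ 5 := by norm_num
      rw [e]
      exact h2)
    rw [mul_comm K2 32] at h1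
    exact h1
  have hU4 : UU (4 * 2 ^ (k + s)) ≤ 2 ^ (s + 2) * Ub k := by
    have h2 := UU_ratio_up k (s + 2)
    have e : 4 * 2 ^ (k + s) = 2 ^ (k + (s + 2)) := by
      rw [← add_assoc, pow_add _ (k + s) 2]
      ring
    rw [e]
    exact h2
  have hP := PX_all hK0 hK1 hK2 htot htwo hnA' hs (hnum k) hΦ (M := 64 * ((K0 + K1) * (2 ^ (s + 2) * Ub k))) (by
    gcongr) n
  constructor
  · refine (hP.near k le_rfl).trans (mul_le_mul_left (ENNReal.ofReal_le_ofReal (le_of_eq ?_)) _)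
    field_simp
  · refine hP.free.trans (mul_le_mul_left (ENNReal.ofReal_le_ofReal (le_of_eq ?_)) _)
    ring

end NTW

end HexObs
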