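import Pool.Agent.NTW.StepW
import Pool.Agent.NTW.GNormX

/-!
NTW: the long leaves without backtracks, with the end functional Φ and the start functional q.
-/

set_option autoImplicit false

namespace HexObs

namespace NTW

open Finset TS SDN SDN.CN NTm

open scoped ENNReal

/-- a step of the recursion for the leaves without backtracks -/
lemma stp_WW {k s n : ℕ} (hs : 6 ≤ s) (hn : 4 ≤ n) :
    Stp k (2 * 2 ^ (k + s)) (3 * 2 ^ (k + s)) (2 ^ (k + 4)) (WW k s n) (BrR (2 * 2 ^ (k + s)) (4 * 2 ^ (k + s)))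
      (W3 k s n) := by
  obtain ⟨R, hR⟩ : ∃ R, R = 2 ^ (k + s) := ⟨_, rfl⟩
  have hR1 : 2 * 2 ^ (k + 5) ≤ R := by
    rw [hR, ← pow_succ']
    exact Nat.pow_le_pow_right (by norm_num) (by omega)
  have hp5 : 2 ^ (k + 5) = 2 * 2 ^ (k + 4) := by rw [← pow_succ']
  have hp4 : 1 ≤ 2 ^ (k + 4) := Nat.one_le_two_pow
  -- membership in the blocks
  have hblk : ∀ (w : ℕ) (z : List Bool), z ∈ Brd w → z ∈ CL (k + 5) → (n - 3) * R ≤ w → w < n * R →
      z ∈ W3 k s n ∧ z ∈ HB (2 ^ (k + 4)) := by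
    intro w z hz hc h1 h2
    have hRpos : 0 < R := by omega
    have h3 : n - 3 ≤ w / R := (Nat.le_div_iff_mul_le hRpos).2 h1
    have h4 : w / R < n := (Nat.div_lt_iff_lt_mul hRpos).2 h2
    have h5 : w / R * R ≤ w := Nat.div_mul_le_self w R
    have h6 : w < (w / R + 1) * R := by
      have g1 := Nat.div_add_mod w R
      have g2 := Nat.mod_lt w hRpos
      have g3 : (w / R + 1) * R = R * (w / R) + R := by ring
      omega
    have h7 : R ≤ w := by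
      have : 1 * R ≤ (n - 3) * R := Nat.mul_le_mul_right _ (by omega)
      omega
    have h8 : z ∈ HB (2 ^ (k + 4)) := ⟨w, by omega, hz⟩
    refine ⟨⟨w / R, by omega, h4, ⟨hc, w, ?_, ?_, hz⟩, h8⟩, h8⟩
    · rw [← hR]
      exact h5
    · rw [← hR]
      exact h6
  refine ⟨?_, fun g hg => hg.2, ?_, ?_, hp4⟩
  · rintro g ⟨⟨hgc, h, h1, h2, hgh⟩, hgD⟩ a ha1 ha2
    rw [← hR] at h1 h2 ha1 ha2 ⊢
    have hah : a < h := by
      have : 4 * R ≤ n * R := Nat.mul_le_mul_right _ hn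
      omega
    have e3 : (n - 3) * R + 3 * R = n * R := by
      rw [← add_mul]
      congr 1
      omega
    have e4 : (n + 1) * R = n * R + R := by ring
    rcases cut_or_zig (b := k + 5) (by omega) hgh hgc (by omega : 1 ≤ a) hah with
      ⟨t1, ht1, t2, ht2, ht2c, rfl⟩ | ⟨u, d, w, G1, D, G3, hG1, hD, hG3, hG3c, hunf, f1, f2, i1, i2, i3, i4, i5⟩
    · left
      obtain ⟨b1, b2⟩ := hblk (h - a) t2 ht2 ht2c (by omega) (by omega)
      exact ⟨t1, ht1, ⟨a, ha1, by omega, ht1⟩, t2, b1, rfl⟩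
    · right
      obtain ⟨b1, b2⟩ := hblk w G3 hG3 hG3c (by omega) (by omega)
      refine ⟨G1, D, G3, ⟨u, by omega, by omega, hG1⟩, ⟨d, i3, i4, hD⟩, b1, hunf, f1, f2, ?_, ?_⟩
      · rw [hgt_eq hG1]
        exact i1
      · rw [hgt_eq hG1, hgt_eq hD]
        exact i2
  · rintro g ⟨u, u1, u2, u3⟩
    rw [← hR] at u1
    exact ⟨u, by omega, u3⟩
  · rintro g ⟨i, _, _, hi⟩
    exact hi.2

/-- **the long leaves without backtracks have exponentially small weight, two functionals** -/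
theorem clean_XY : ∃ Ka : ℝ, 1 ≤ Ka ∧ ∀ K0 : ℝ, Ka ≤ K0 → ∃ (K : ℝ) (s : ℕ), 1 ≤ K ∧ 6 ≤ s ∧
    ∀ (k n : ℕ) (Φ q : List Bool → ℝ≥0∞) (x y : ℝ≥0∞), DX K0 K0 (2 ^ (k + 4)) Φ x → GX.QX K0 (2 ^ (k + 4)) q y →
    (∀ N : ℕ, Rec8.sw (BrR (2 ^ (k + 4)) N) (fun g => q g * Φ g) ≤ ENNReal.ofReal (K0 * UU N) * (y * x)) →
    xT (2 ^ (k + 4)) k (vA (2 ^ (k + 4)) (CK (k + 5) (k + s) n ∩ HB (2 ^ (k + 4))) Φ) ≤ ENNReal.ofReal (K / 4 ^ n) * x ∧
    Rec8.sw (CK (k + 5) (k + s) n ∩ HB (2 ^ (k + 4))) (fun g => q g * Φ g) ≤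
      ENNReal.ofReal (K * Ub k / 4 ^ n) * (y * x) := by
  obtain ⟨C, δ, hInp⟩ := inp_exists
  obtain ⟨B0, hB0, htot'⟩ := totH hInp
  obtain ⟨B1, hB1, htwo'⟩ := two_scale
  obtain ⟨K2, hK2, hnA⟩ := nA hInp
  refine ⟨B0 + B1, by linarith, fun K0 hA => ?_⟩
  have hA0 : B0 ≤ K0 := by linarith
  have hA1 : B1 ≤ K0 := by linarith
  have hK0 : 1 ≤ K0 := hB0.trans hA0
  have htot : ∀ (D N k : ℕ) (Φ : List Bool → ℝ≥0∞), Hered Φ → 2 ^ (k + 4) ≤ D →
      Rec8.sw (BrR D N) Φ ≤ ENNReal.ofReal (K0 * UU N) * xT D k Φ := fun D N k Φ hΦ hD =>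
    (htot' D N k Φ hΦ hD).trans (mul_le_mul_left (ENNReal.ofReal_le_ofReal
      (mul_le_mul_of_nonneg_right hA0 (Num2Aux.UU_pos N).le)) _)
  have htwo : ∀ (D0 k0 D1 k1 E N : ℕ) (Φ : List Bool → ℝ≥0∞), Hered Φ → 2 ^ (k0 + 4) ≤ D0 →
      2 ^ (k1 + 4) ≤ D1 → D0 ≤ E → D1 ≤ E → E ≤ N →
      xT D0 k0 (vA D0 (BrR E N) Φ) ≤ ENNReal.ofReal (K0 * (UU N / Ub k0)) * xT D1 k1 Φ :=
    fun D0 k0 D1 k1 E N Φ hΦ h1 h2 h3 h4 h5 => (htwo' D0 k0 D1 k1 E N Φ hΦ h1 h2 h3 h4 h5).trans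
      (mul_le_mul_left (ENNReal.ofReal_le_ofReal (mul_le_mul_of_nonneg_right hA1
        (div_nonneg (Num2Aux.UU_pos N).le (Ub_pos k0).le))) _)
  obtain ⟨s, hs, hnum⟩ := link_num (K0 + K0) K2 (by linarith) hK2
  refine ⟨64 * ((K0 + K0) * 2 ^ (s + 2)), s, ?_, hs, fun k n Φ q x y hΦ hq hpair => ?_⟩
  · have : (1 : ℝ) ≤ 2 ^ (s + 2) := one_le_pow₀ (by norm_num)
    nlinarith
  have hUk := Ub_pos k
  have hnA' : ∀ (i : ℕ) (Ψ : List Bool → ℝ≥0∞), Hered Ψ → xT (2 ^ (i + 4)) i (vA (2 ^ (i + 4)) (BrR (2 ^ (i + 4)) (2 ^ (i + 4 + 1))) Ψ) ≤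
      ENNReal.ofReal (32 * K2) * xT (2 ^ (i + 4)) i Ψ := by
    intro i Ψ hΨ
    have h1 := hnA (2 ^ (i + 4)) (2 ^ (i + 4 + 1)) i LFold 32 Ψ hΨ RNb_LFold le_rfl (by norm_num) (by
      have h2 := UU_ratio_up i 5
      have e : (32 : ℝ) = 2 ^ 5 := by norm_num
      rw [e]
      exact h2)
    rw [mul_comm K2 32] at h1
    exact h1
  have hU4 : UU (4 * 2 ^ (k + s)) ≤ 2 ^ (s + 2) * Ub k := by
    have h2 := UU_ratio_up k (s + 2)
    have e : 4 * 2 ^ (k + s) = 2 ^ (k + (s + 2)) := by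
      rw [← add_assoc, pow_add _ (k + s) 2]
      ring
    rw [e]
    exact h2
  obtain ⟨M, hM⟩ : ∃ M, M = 64 * ((K0 + K0) * (2 ^ (s + 2) * Ub k)) := ⟨_, rfl⟩
  have hM0 : 0 ≤ M := by rw [hM]; positivity
  have hU40 : 0 < UU (4 * 2 ^ (k + s)) := Num2Aux.UU_pos _
  have hall := PX_all hK0 hK0 hK2 htot htwo hnA' hs (hnum k) hΦ (M := M) (by
    rw [hM]
    gcongr)
  constructor
  · refine ((hall n).near k le_rfl).trans (mul_le_mul_left (ENNReal.ofReal_le_ofReal (le_of_eq ?_)) _)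
    rw [hM]
    field_simp
  · have hfin : Rec8.sw (WW k s n) (fun g => q g * Φ g) ≤ ENNReal.ofReal (M / 4 ^ n) * (y * x) := by
      rcases Nat.lt_or_ge n 4 with hn | hn
      · have hsub : WW k s n ⊆ BrR (2 ^ (k + 4)) (4 * 2 ^ (k + s)) := by
          rintro g ⟨⟨-, h, -, h2, h3⟩, u, u1, u2⟩
          have := Brd_height h3 u2
          subst this
          refine ⟨h, u1, ?_, h3⟩
          have : (n + 1) * 2 ^ (k + s) ≤ 4 * 2 ^ (k + s) := Nat.mul_le_mul_right _ (by omega)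
          omega
        have h4n : (4 : ℝ) ^ n ≤ 64 := by
          calc (4 : ℝ) ^ n ≤ 4 ^ 3 := pow_le_pow_right₀ (by norm_num) (by omega)
            _ = 64 := by norm_num
        refine (Rec8.sw_mono hsub fun _ _ => le_rfl).trans ((hpair (4 * 2 ^ (k + s))).trans
          (mul_le_mul_left (ENNReal.ofReal_le_ofReal ?_) _))
        rw [le_div_iff₀ (by positivity), hM]
        calc K0 * UU (4 * 2 ^ (k + s)) * 4 ^ n ≤ (K0 + K0) * (2 ^ (s + 2) * Ub k) * 64 := by gcongr; linarith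
          _ = _ := by ring
      · obtain ⟨h1, h2⟩ := PX_three hn hM0 fun i _ => hall i
        obtain ⟨R, hR⟩ : ∃ R, R = 2 ^ (k + s) := ⟨_, rfl⟩
        have hR1 : 2 * 2 ^ (k + 5) ≤ R := by
          rw [hR, ← pow_succ']
          exact Nat.pow_le_pow_right (by norm_num) (by omega)
        have hp5 : 2 ^ (k + 5) = 2 * 2 ^ (k + 4) := by rw [← pow_succ']
        have hXD : BrR (2 * 2 ^ (k + s)) (4 * 2 ^ (k + s)) ⊆ HB (2 ^ (k + 4)) := by
          rintro g ⟨u, u1, -, u3⟩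
          rw [← hR] at u1
          exact ⟨u, by omega, u3⟩
        have h3 := free2W (stp_WW (k := k) (s := s) (n := n) hs hn) hΦ.her q
          (fun x' hx y' hy => hq.cut x' (hXD hx) y' (by
            obtain ⟨i, _, _, hi⟩ := hy
            obtain ⟨u, _, hu⟩ := hi.2
            exact ⟨u, hu⟩))
          (fun x' hx y' z hg => hq.zig x' (hXD hx) y' z hg.2) (x := x) (y := y) (m := 84 * M / 4 ^ n)
          (κ := (K0 + K0) * UU (4 * 2 ^ (k + s))) (K2 := K2) (by positivity) (by positivity) hK2 hnA'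
          (fun i hi => h1 i hi) h2 (fun i hi Θ hΘ => by
            have hi4 : 2 ^ (i + 4) ≤ 2 ^ (k + 4) := Nat.pow_le_pow_right (by norm_num) (by omega)
            refine (Rec8.sw_mono (B := BrR (2 ^ (k + 4)) (4 * 2 ^ (k + s))) (Ψ := fun g => q g * Θ g) (fun g hx => by
              obtain ⟨u, u1, u2, u3⟩ := hx
              rw [← hR] at u1
              exact ⟨u, by omega, u2, u3⟩) fun _ _ => le_rfl).trans ?_
            refine (hq.tot (2 ^ (i + 4)) i (4 * 2 ^ (k + s)) Θ hΘ le_rfl hi4).trans ?_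
            exact mul_le_mul_left (ENNReal.ofReal_le_ofReal (mul_le_mul_of_nonneg_right (by linarith) hU40.le)) _)
        have hcard : ((3 * 2 ^ (k + s) - 2 * 2 ^ (k + s) : ℕ) : ℝ≥0∞) = 2 ^ (k + s) := by
          have : 3 * 2 ^ (k + s) - 2 * 2 ^ (k + s) = 2 ^ (k + s) := by omega
          rw [this]
          push_cast
          rfl
        rw [hcard] at h3
        apply le_of_mul (k := k) (s := s)
        refine h3.trans (fin_link ?_)
        have h6 := hnum k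
        have h7 : (K0 + K0) * UU (4 * 2 ^ (k + s)) * lk k K2 * (84 * M / 4 ^ n) =
            (K0 + K0) * UU (4 * 2 ^ (k + s)) * (84 * lk k K2) * (M / 4 ^ n) := by ring
        rw [h7]
        exact mul_le_mul_of_nonneg_right h6 (by positivity)
    refine hfin.trans (mul_le_mul_left (ENNReal.ofReal_le_ofReal (le_of_eq ?_)) _)
    rw [hM]
    ring

end NTW

end HexObs
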