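import Pool.Agent.SDN.ChainA

/-!
NTW, crowding with two free ends, part A: the chain sum with old and new block pairs, continued by ℓ more leaves and an
end functional Φ of the last leaf.
-/

set_option autoImplicit false

namespace HexObs

namespace NTW

open Finset TS SDN

open scoped ENNReal

/-- bound of the tilted weight of the continuations; B is the functional behind the last pair -/
noncomputable def FB (D N k j1 j3 : ℕ) (κ : ℝ≥0∞) (B : List Bool → ℝ≥0∞) : ℕ → ℕ → List Bool → ℝ≥0∞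
  | _, 0 => B
  | n, j + 1 => fun t => tB D N k j1 j3 LFold (tA D N LFold (FB D N k j1 j3 κ B n j)) t +
      tA D N LFold (tB D N k j1 j3 LFold (FB D N k j1 j3 κ B n j)) t +
      κ * tU D N k j1 j3 LFold (tU D N k j1 j3 LFold (FB D N k j1 j3 κ B n j)) t +
      (if n = 0 then 0 else tA D N LFold (tA D N LFold (FB D N k j1 j3 κ B (n - 1) j)) t)

open Classical in
/-- the continuations of 2 j + ℓ leaves after g; the block pairs of the first 2 j leaves are counted -/
def CB (D N q w ℓ : ℕ) (G : Finset (ℤ × ℤ × ℤ)) (n j : ℕ) (X S : ℤ) (g : List Bool) : Set (List (List Bool)) :=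
  {gs | gs.length = 2 * j + ℓ ∧ List.IsChain LFold (g :: gs) ∧ (∀ u ∈ gs, u ∈ BrR D N) ∧
    NCB (G ∪ (caps q w X S (gs.take (2 * j))).toFinset) ∧
    ((caps q w X S (gs.take (2 * j))).toFinset \ G).card ≤ n}

namespace CrA

open Ch

lemma hered_iter (D N : ℕ) {Φ : List Bool → ℝ≥0∞} (hΦ : Hered Φ) : ∀ ℓ : ℕ, Hered ((tA D N LFold)^[ℓ] Φ)
  | 0 => hΦ
  | ℓ + 1 => by
    rw [Function.iterate_succ_apply']
    exact hered_tA _ _ _ _

lemma hered_FB (D N k j1 j3 : ℕ) (κ : ℝ≥0∞) {B : List Bool → ℝ≥0∞} (hB : Hered B) :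
    ∀ n j : ℕ, Hered (FB D N k j1 j3 κ B n j)
  | n, 0 => by
    cases n <;> exact hB
  | n, j + 1 => by
    intro s hs t
    have h1 := hered_tB D N k j1 j3 LFold (tA D N LFold (FB D N k j1 j3 κ B n j)) s hs t
    have h2 := hered_tA D N LFold (tB D N k j1 j3 LFold (FB D N k j1 j3 κ B n j)) s hs t
    have h3 := hered_tU D N k j1 j3 LFold (tU D N k j1 j3 LFold (FB D N k j1 j3 κ B n j)) s hs t
    have h4 := hered_tA D N LFold (tA D N LFold (FB D N k j1 j3 κ B (n - 1) j)) s hs t
    show tB D N k j1 j3 LFold (tA D N LFold (FB D N k j1 j3 κ B n j)) (s ++ t) +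
      tA D N LFold (tB D N k j1 j3 LFold (FB D N k j1 j3 κ B n j)) (s ++ t) +
      κ * tU D N k j1 j3 LFold (tU D N k j1 j3 LFold (FB D N k j1 j3 κ B n j)) (s ++ t) +
      (if n = 0 then 0 else tA D N LFold (tA D N LFold (FB D N k j1 j3 κ B (n - 1) j)) (s ++ t)) ≤
      tB D N k j1 j3 LFold (tA D N LFold (FB D N k j1 j3 κ B n j)) t +
      tA D N LFold (tB D N k j1 j3 LFold (FB D N k j1 j3 κ B n j)) t +
      κ * tU D N k j1 j3 LFold (tU D N k j1 j3 LFold (FB D N k j1 j3 κ B n j)) t +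
      (if n = 0 then 0 else tA D N LFold (tA D N LFold (FB D N k j1 j3 κ B (n - 1) j)) t)
    refine add_le_add (add_le_add (add_le_add h1 h2) (mul_le_mul_right h3 κ)) ?_
    split_ifs
    · exact le_rfl
    · exact h4

/-- the weight of a continuation of g with the end functional Φ -/
noncomputable def VV (D : ℕ) (Φ : List Bool → ℝ≥0∞) (g : List Bool) (gs : List (List Bool)) : ℝ≥0∞ :=
  SDN.wt D gs * Φ (gs.getLastD g)

lemma VV_nil (D : ℕ) (Φ : List Bool → ℝ≥0∞) (g : List Bool) : VV D Φ g [] = Φ g := by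
  unfold VV
  rw [SDN.Ch.wt_nil, one_mul]
  rfl

lemma VV_cons (D : ℕ) (Φ : List Bool → ℝ≥0∞) (g g' : List Bool) (gs : List (List Bool)) :
    VV D Φ g (g' :: gs) = wE g' * tl D (hgt g') * VV D Φ g' gs := by
  unfold VV
  rw [SDN.Ch.wt_cons, List.getLastD_cons, mul_assoc]

/-- the sum over ℓ more leaves -/
lemma base_le (D N : ℕ) (Φ : List Bool → ℝ≥0∞) : ∀ (ℓ : ℕ) (g : List Bool), g ∈ HB D →
    ∑' gs : {gs : List (List Bool) // gs ∈ {gs : List (List Bool) | gs.length = ℓ ∧ List.IsChain LFold (g :: gs) ∧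
      ∀ u ∈ gs, u ∈ BrR D N}}, VV D Φ g gs.1 ≤ (tA D N LFold)^[ℓ] Φ g := by
  intro ℓ
  induction ℓ with
  | zero =>
    intro g _
    have hsub : {gs : List (List Bool) | gs.length = 0 ∧ List.IsChain LFold (g :: gs) ∧ ∀ u ∈ gs, u ∈ BrR D N} ⊆
        ({[]} : Set (List (List Bool))) := by
      intro gs hgs
      exact List.length_eq_zero_iff.1 hgs.1
    refine (ENNReal.tsum_mono_subtype (fun gs : List (List Bool) => VV D Φ g gs) hsub).trans ?_
    have e := tsum_singleton ([] : List (List Bool)) (fun r => VV D Φ g r)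
    rw [VV_nil] at e
    exact e.le
  | succ ℓ ih =>
    intro g hg
    rw [Function.iterate_succ_apply']
    obtain ⟨F, hF⟩ : ∃ F, F = (tA D N LFold)^[ℓ] Φ := ⟨_, rfl⟩
    rw [← hF] at ih ⊢
    refine (tsum_dec _ {g' | g' ∈ BrR D N ∧ RT D LFold g g'} (fun g' => {gs : List (List Bool) | gs.length = ℓ ∧
      List.IsChain LFold (g' :: gs) ∧ ∀ u ∈ gs, u ∈ BrR D N}) List.cons (VV D Φ g) ?_).trans ?_
    · rintro ⟨gs, h1, h2, h3⟩
      rcases gs with _ | ⟨g', rest⟩
      · simp at h1
      · rw [List.isChain_cons_cons] at h2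
        refine ⟨⟨⟨g', h3 g' List.mem_cons_self, RT_self hg h2.1⟩, ⟨rest, ?_, h2.2, fun u hu =>
          h3 u (List.mem_cons_of_mem _ hu)⟩⟩, rfl⟩
        simp only [List.length_cons] at h1
        omega
    · unfold tA sB
      refine ENNReal.tsum_le_tsum fun g' => ?_
      calc ∑' c : {c // c ∈ {gs : List (List Bool) | gs.length = ℓ ∧ List.IsChain LFold (g'.1 :: gs) ∧
            ∀ u ∈ gs, u ∈ BrR D N}}, VV D Φ g (g'.1 :: c.1)
          = wE g'.1 * tl D (hgt g'.1) * ∑' c : {c // c ∈ {gs : List (List Bool) | gs.length = ℓ ∧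
            List.IsChain LFold (g'.1 :: gs) ∧ ∀ u ∈ gs, u ∈ BrR D N}}, VV D Φ g'.1 c.1 := by
            rw [← ENNReal.tsum_mul_left]
            exact tsum_congr fun c => VV_cons _ _ _ _ _
        _ ≤ wE g'.1 * tl D (hgt g'.1) * F g'.1 := mul_le_mul_right (ih g'.1 (BrR_HB g'.2.1)) _
        _ = _ := by rw [mul_assoc]

/-- the first pair of a chain -/
lemma CB_two {D N q w ℓ : ℕ} {G : Finset (ℤ × ℤ × ℤ)} {n j : ℕ} {X S : ℤ} {g g' g'' : List Bool}
    {rest : List (List Bool)} (h : g' :: g'' :: rest ∈ CB D N q w ℓ G n (j + 1) X S g) :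
    g' ∈ BrR D N ∧ g'' ∈ BrR D N ∧ LFold g g' ∧ LFold g' g'' ∧
      ((cap q w X S g' g'' ∈ G ∧
        rest ∈ CB D N q w ℓ G n j (X + latE g' + tw g' - latE g'' - tw g'') (S + ht g' - ht g'') g'') ∨
      (cap q w X S g' g'' ∉ G ∧ n ≠ 0 ∧ rest ∈ CB D N q w ℓ (insert (cap q w X S g' g'') G) (n - 1) j
        (X + latE g' + tw g' - latE g'' - tw g'') (S + ht g' - ht g'') g'')) := by
  classical
  obtain ⟨h1, h2, h3, h4, h5⟩ := h
  rw [List.isChain_cons_cons, List.isChain_cons_cons] at h2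
  have hlen : rest.length = 2 * j + ℓ := by
    simp only [List.length_cons] at h1
    omega
  have htk : (g' :: g'' :: rest).take (2 * (j + 1)) = g' :: g'' :: rest.take (2 * j) := by
    rw [show 2 * (j + 1) = 2 * j + 1 + 1 by ring, List.take_succ_cons, List.take_succ_cons]
  rw [htk] at h4 h5
  obtain ⟨c, hc⟩ : ∃ c, c = caps q w (X + latE g' + tw g' - latE g'' - tw g'') (S + ht g' - ht g'')
    (rest.take (2 * j)) := ⟨_, rfl⟩
  obtain ⟨e, he⟩ : ∃ e, e = cap q w X S g' g'' := ⟨_, rfl⟩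
  have hcaps : caps q w X S (g' :: g'' :: rest.take (2 * j)) = e :: c := by
    rw [he, hc]
    rfl
  rw [hcaps, List.toFinset_cons] at h4 h5
  have hr : ∀ u ∈ rest, u ∈ BrR D N := fun u hu => h3 u (List.mem_cons_of_mem _ (List.mem_cons_of_mem _ hu))
  refine ⟨h3 g' (List.mem_cons_self), h3 g'' (List.mem_cons_of_mem _ (List.mem_cons_self)), h2.1, h2.2.1, ?_⟩
  rw [← he]
  by_cases hG : e ∈ G
  · left
    refine ⟨hG, hlen, h2.2.2, hr, ?_, ?_⟩
    · rw [← hc]
      have e1 : G ∪ insert e c.toFinset = G ∪ c.toFinset := by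
        ext x
        simp only [Finset.mem_union, Finset.mem_insert]
        constructor
        · rintro (h | rfl | h)
          · exact Or.inl h
          · exact Or.inl hG
          · exact Or.inr h
        · rintro (h | h)
          · exact Or.inl h
          · exact Or.inr (Or.inr h)
      rw [e1] at h4
      exact h4
    · rw [← hc]
      refine le_trans (Finset.card_le_card ?_) h5
      exact Finset.sdiff_subset_sdiff (Finset.subset_insert _ _) (Finset.Subset.refl _)
  · right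
    have e2 : insert e c.toFinset \ G = insert e (c.toFinset \ insert e G) := by
      ext x
      simp only [Finset.mem_sdiff, Finset.mem_insert]
      constructor
      · rintro ⟨rfl | h, h'⟩
        · exact Or.inl rfl
        · by_cases hx : x = e
          · exact Or.inl hx
          · refine Or.inr ⟨h, ?_⟩
            rintro (h'' | h'')
            · exact hx h''
            · exact h' h''
      · rintro (rfl | ⟨h, h'⟩)
        · exact ⟨Or.inl rfl, hG⟩
        · exact ⟨Or.inr h, fun h'' => h' (Or.inr h'')⟩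
    have e3 : (insert e (c.toFinset \ insert e G)).card = (c.toFinset \ insert e G).card + 1 := by
      apply Finset.card_insert_of_notMem
      intro h
      exact (Finset.mem_sdiff.1 h).2 (Finset.mem_insert_self _ _)
    rw [e2, e3] at h5
    refine ⟨hG, by omega, hlen, h2.2.2, hr, ?_, ?_⟩
    · rw [← hc]
      have e4 : G ∪ insert e c.toFinset = insert e G ∪ c.toFinset := by
        ext x
        simp only [Finset.mem_union, Finset.mem_insert]
        tauto
      rw [e4] at h4
      exact h4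
    · rw [← hc]
      omega

lemma CB_ncb {D N q w ℓ : ℕ} {G : Finset (ℤ × ℤ × ℤ)} {n j : ℕ} {X S : ℤ} {g : List Bool} {gs : List (List Bool)}
    (h : gs ∈ CB D N q w ℓ G n j X S g) : NCB G := by
  classical
  intro x hx y hy
  exact h.2.2.2.1 x (Finset.mem_union_left _ hx) y (Finset.mem_union_left _ hy)

/-- two leaves in front of a family of chains -/
lemma two_step {A : Set (List (List Bool))} {B : Set (List Bool)} {C : List Bool → Set (List Bool)} {D : ℕ}
    {Φ : List Bool → ℝ≥0∞} {g : List Bool} {F : List Bool → List Bool → ℝ≥0∞}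
    (hA : ∀ gs ∈ A, ∃ g' ∈ B, ∃ g'' ∈ C g', ∃ rest, gs = g' :: g'' :: rest)
    (hF : ∀ g' ∈ B, ∀ g'' ∈ C g', ∑' r : {r // r ∈ {rest | g' :: g'' :: rest ∈ A}}, VV D Φ g'' r.1 ≤ F g' g'') :
    ∑' gs : {gs // gs ∈ A}, VV D Φ g gs.1 ≤ sB B (fun g' => wE g' * (tl D (hgt g') *
      sB (C g') (fun g'' => wE g'' * (tl D (hgt g'') * F g' g'')))) := by
  refine (tsum_dec A B (fun g' => {tl | g' :: tl ∈ A}) List.cons (VV D Φ g) ?_).trans ?_
  · rintro ⟨gs, hgs⟩
    obtain ⟨g', h1, g'', h2, rest, rfl⟩ := hA gs hgs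
    exact ⟨⟨⟨g', h1⟩, ⟨g'' :: rest, hgs⟩⟩, rfl⟩
  · unfold sB
    refine ENNReal.tsum_le_tsum fun g' => ?_
    refine (tsum_dec {tl | g'.1 :: tl ∈ A} (C g'.1) (fun g'' => {rest | g'.1 :: g'' :: rest ∈ A}) List.cons
      (fun tl => VV D Φ g (g'.1 :: tl)) ?_).trans ?_
    · rintro ⟨tl, htl⟩
      obtain ⟨g1, h1, g2, h2, rest, h3⟩ := hA _ htl
      have e1 : g'.1 = g1 := by
        have := congrArg (fun l => l.head?) h3
        simpa using this
      have e2 : tl = g2 :: rest := by
        have := congrArg List.tail h3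
        simpa using this
      rw [← e1] at h2
      refine ⟨⟨⟨g2, h2⟩, ⟨rest, ?_⟩⟩, e2⟩
      show g'.1 :: g2 :: rest ∈ A
      rw [← e2]
      exact htl
    · beta_reduce
      rw [← mul_assoc, ← ENNReal.tsum_mul_left]
      refine ENNReal.tsum_le_tsum fun g'' => ?_
      have h := hF g'.1 g'.2 g''.1 g''.2
      calc ∑' c : {c // c ∈ {rest | g'.1 :: g''.1 :: rest ∈ A}}, VV D Φ g (g'.1 :: g''.1 :: c.1)
          = ∑' c : {c // c ∈ {rest | g'.1 :: g''.1 :: rest ∈ A}},
            (wE g'.1 * tl D (hgt g'.1) * (wE g''.1 * tl D (hgt g''.1))) * VV D Φ g''.1 c.1 := by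
            refine tsum_congr fun c => ?_
            rw [VV_cons, VV_cons]
            ring
        _ = (wE g'.1 * tl D (hgt g'.1) * (wE g''.1 * tl D (hgt g''.1))) *
            ∑' c : {c // c ∈ {rest | g'.1 :: g''.1 :: rest ∈ A}}, VV D Φ g''.1 c.1 := ENNReal.tsum_mul_left
        _ ≤ (wE g'.1 * tl D (hgt g'.1) * (wE g''.1 * tl D (hgt g''.1))) * F g'.1 g''.1 := mul_le_mul_right h _
        _ = _ := by ring

/-- THE CHAIN SUM: the tilted weight of the continuations is at most FB -/
theorem chain_absB {D N k j1 j3 w ℓ : ℕ} {κ : ℝ≥0∞} {Φ B : List Bool → ℝ≥0∞} (hP : PairCap D N k j1 j3 w κ)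
    (hB : Hered B) (hbase : ∀ g ∈ HB D, ∑' gs : {gs : List (List Bool) // gs ∈ {gs : List (List Bool) |
      gs.length = ℓ ∧ List.IsChain LFold (g :: gs) ∧ ∀ u ∈ gs, u ∈ BrR D N}}, VV D Φ g gs.1 ≤ B g) :
    ∀ (j n : ℕ) (G : Finset (ℤ × ℤ × ℤ)) (X S : ℤ) (g : List Bool), g ∈ HB D →
    ∑' gs : {gs // gs ∈ CB D N (k + 2) w ℓ G n j X S g}, VV D Φ g gs.1 ≤ FB D N k j1 j3 κ B n j g := by
  classical
  intro j
  induction j with
  | zero =>
    intro n G X S g hg
    have e2 : FB D N k j1 j3 κ B n 0 g = B g := by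
      cases n <;> rfl
    rw [e2]
    refine (ENNReal.tsum_mono_subtype (fun gs : List (List Bool) => VV D Φ g gs) ?_).trans (hbase g hg)
    rintro gs ⟨h1, h2, h3, _⟩
    exact ⟨by omega, h2, h3⟩
  | succ j ih =>
    intro n G X S g hg
    by_cases hne : ∃ gs, gs ∈ CB D N (k + 2) w ℓ G n (j + 1) X S g
    swap
    · have : IsEmpty {gs : List (List Bool) // gs ∈ CB D N (k + 2) w ℓ G n (j + 1) X S g} :=
        ⟨fun r => hne ⟨r.1, r.2⟩⟩
      rw [tsum_empty]
      exact zero_le
    obtain ⟨gs0, hgs0⟩ := hne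
    have hG := CB_ncb hgs0
    obtain ⟨F1, hF1⟩ : ∃ F1, F1 = FB D N k j1 j3 κ B n j := ⟨_, rfl⟩
    obtain ⟨F2, hF2⟩ : ∃ F2 : List Bool → ℝ≥0∞, F2 = fun t => if n = 0 then 0 else FB D N k j1 j3 κ B (n - 1) j t :=
      ⟨_, rfl⟩
    have hstep := two_step (A := CB D N (k + 2) w ℓ G n (j + 1) X S g) (B := {g' | g' ∈ BrR D N ∧ LFold g g'})
      (C := fun g' => {g'' | g'' ∈ BrR D N ∧ LFold g' g''}) (D := D) (Φ := Φ) (g := g)
      (F := fun g' g'' => (if cap (k + 2) w X S g' g'' ∈ G then F1 g'' else 0) + F2 g'') ?_ ?_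
    · refine hstep.trans ?_
      have h1 : sB {g' | g' ∈ BrR D N ∧ LFold g g'} (fun g' => wE g' * (tl D (hgt g') *
          sB {g'' | g'' ∈ BrR D N ∧ LFold g' g''} (fun g'' => wE g'' * (tl D (hgt g'') *
            ((if cap (k + 2) w X S g' g'' ∈ G then F1 g'' else 0) + F2 g''))))) =
          sB {g' | g' ∈ BrR D N ∧ LFold g g'} (fun g' => wE g' * (tl D (hgt g') *
            sB {g'' | g'' ∈ BrR D N ∧ LFold g' g'' ∧ cap (k + 2) w X S g' g'' ∈ G}
              (fun g'' => wE g'' * (tl D (hgt g'') * F1 g'')))) +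
          sB {g' | g' ∈ BrR D N ∧ LFold g g'} (fun g' => wE g' * (tl D (hgt g') *
            sB {g'' | g'' ∈ BrR D N ∧ LFold g' g''} (fun g'' => wE g'' * (tl D (hgt g'') * F2 g'')))) := by
        rw [← sB_add]
        refine sB_congr fun g' _ => ?_
        rw [← mul_add, ← mul_add]
        congr 2
        have e1 : sB {g'' | g'' ∈ BrR D N ∧ LFold g' g'' ∧ cap (k + 2) w X S g' g'' ∈ G}
            (fun g'' => wE g'' * (tl D (hgt g'') * F1 g'')) =
            sB {g'' | g'' ∈ BrR D N ∧ LFold g' g''}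
              (fun g'' => if cap (k + 2) w X S g' g'' ∈ G then wE g'' * (tl D (hgt g'') * F1 g'') else 0) := by
          rw [sB_ite]
          congr 1
          ext g''
          exact ⟨fun h => ⟨⟨h.1, h.2.1⟩, h.2.2⟩, fun h => ⟨h.1.1, h.1.2, h.2⟩⟩
        rw [e1, ← sB_add]
        refine sB_congr fun g'' _ => ?_
        split_ifs
        · ring
        · ring
      rw [h1]
      have hBsub : {g' | g' ∈ BrR D N ∧ LFold g g'} ⊆ {g' | g' ∈ BrR D N ∧ RT D LFold g g'} :=
        fun g' h => ⟨h.1, RT_self hg h.2⟩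
      have h2 : sB {g' | g' ∈ BrR D N ∧ LFold g g'} (fun g' => wE g' * (tl D (hgt g') *
            sB {g'' | g'' ∈ BrR D N ∧ LFold g' g'' ∧ cap (k + 2) w X S g' g'' ∈ G}
              (fun g'' => wE g'' * (tl D (hgt g'') * F1 g'')))) ≤
          tB D N k j1 j3 LFold (tA D N LFold F1) g + tA D N LFold (tB D N k j1 j3 LFold F1) g +
            κ * tU D N k j1 j3 LFold (tU D N k j1 j3 LFold F1) g := by
        refine le_trans (sB_mono hBsub fun _ _ => le_rfl) (hP G hG F1 ?_ X S g)
        rw [hF1]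
        exact hered_FB D N k j1 j3 κ hB n j
      have h3 : sB {g' | g' ∈ BrR D N ∧ LFold g g'} (fun g' => wE g' * (tl D (hgt g') *
            sB {g'' | g'' ∈ BrR D N ∧ LFold g' g''} (fun g'' => wE g'' * (tl D (hgt g'') * F2 g'')))) ≤
          if n = 0 then 0 else tA D N LFold (tA D N LFold (FB D N k j1 j3 κ B (n - 1) j)) g := by
        rw [hF2]
        split_ifs with hn
        · apply le_of_eq
          simp only [mul_zero, sB_zero]
        · unfold tA
          refine sB_mono hBsub fun g' hg' => ?_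
          refine mul_le_mul_right (mul_le_mul_right ?_ _) _
          refine sB_mono ?_ fun _ _ => le_rfl
          intro g'' h
          exact ⟨h.1, RT_self (BrR_HB hg'.1) h.2⟩
      rw [hF1] at h2
      rw [hF1]
      exact add_le_add h2 h3
    · intro gs hgs
      have hlen := hgs.1
      rcases gs with _ | ⟨g', _ | ⟨g'', rest⟩⟩
      · simp only [List.length_nil] at hlen
        omega
      · simp only [List.length_cons, List.length_nil] at hlen
        omega
      · obtain ⟨h1, h2, h3, h4, _⟩ := CB_two hgs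
        exact ⟨g', ⟨h1, h3⟩, g'', ⟨h2, h4⟩, rest, rfl⟩
    · intro g' hg' g'' hg''
      obtain ⟨X', hX'⟩ : ∃ X' : ℤ, X' = X + latE g' + tw g' - latE g'' - tw g'' := ⟨_, rfl⟩
      obtain ⟨S', hS'⟩ : ∃ S' : ℤ, S' = S + ht g' - ht g'' := ⟨_, rfl⟩
      by_cases hc : cap (k + 2) w X S g' g'' ∈ G
      · rw [if_pos hc]
        have hsub : {rest | g' :: g'' :: rest ∈ CB D N (k + 2) w ℓ G n (j + 1) X S g} ⊆
            CB D N (k + 2) w ℓ G n j X' S' g'' := by
          intro rest hrest
          obtain ⟨_, _, _, _, h | h⟩ := CB_two hrest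
          · rw [hX', hS']
            exact h.2
          · exact absurd hc h.1
        refine (ENNReal.tsum_mono_subtype (fun gs : List (List Bool) => VV D Φ g'' gs) hsub).trans ?_
        refine (ih n G X' S' g'' (BrR_HB hg''.1)).trans ?_
        rw [hF1]
        exact le_self_add
      · rw [if_neg hc, zero_add]
        by_cases hn : n = 0
        · have : IsEmpty {r : List (List Bool) //
              r ∈ {rest | g' :: g'' :: rest ∈ CB D N (k + 2) w ℓ G n (j + 1) X S g}} := by
            refine ⟨fun r => ?_⟩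
            obtain ⟨_, _, _, _, h | h⟩ := CB_two r.2
            · exact hc h.1
            · exact h.2.1 hn
          rw [tsum_empty]
          exact zero_le
        · have hsub : {rest | g' :: g'' :: rest ∈ CB D N (k + 2) w ℓ G n (j + 1) X S g} ⊆
              CB D N (k + 2) w ℓ (insert (cap (k + 2) w X S g' g'') G) (n - 1) j X' S' g'' := by
            intro rest hrest
            obtain ⟨_, _, _, _, h | h⟩ := CB_two hrest
            · exact absurd h.1 hc
            · rw [hX', hS']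
              exact h.2.2
          refine (ENNReal.tsum_mono_subtype (fun gs : List (List Bool) => VV D Φ g'' gs) hsub).trans ?_
          refine (ih (n - 1) _ X' S' g'' (BrR_HB hg''.1)).trans ?_
          rw [hF2]
          simp only
          rw [if_neg hn]

/-- the norm of FB -/
theorem x_FB {D N k j1 j3 : ℕ} {κ K lam : ℝ≥0∞} {B : List Bool → ℝ≥0∞} (hBh : Hered B) (hK : 1 ≤ K) (hlam : lam ≤ 1)
    (hA : ∀ Φ, Hered Φ → xT D k (tA D N LFold Φ) ≤ K * xT D k Φ)
    (hB : ∀ Φ, Hered Φ → xT D k (fun t => tB D N k j1 j3 LFold (tA D N LFold Φ) t +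
      tA D N LFold (tB D N k j1 j3 LFold Φ) t + κ * tU D N k j1 j3 LFold (tU D N k j1 j3 LFold Φ) t) ≤
        lam * xT D k Φ) :
    ∀ j n : ℕ, xT D k (FB D N k j1 j3 κ B n j) ≤ xT D k B * (2 ^ j * K ^ (2 * n) * lam ^ (j - n)) := by
  intro j
  induction j with
  | zero =>
    intro n
    have e : FB D N k j1 j3 κ B n 0 = B := by
      cases n <;> rfl
    rw [e, Nat.zero_sub, pow_zero, pow_zero, one_mul, mul_one]
    calc xT D k B = xT D k B * 1 := (mul_one _).symm
      _ ≤ xT D k B * K ^ (2 * n) := mul_le_mul_right (one_le_pow₀ hK) _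
  | succ j ih =>
    intro n
    obtain ⟨x0, hx0⟩ : ∃ x0, x0 = xT D k B := ⟨_, rfl⟩
    have h1 := hB _ (hered_FB D N k j1 j3 κ hBh n j)
    have h2 := ih n
    rw [← hx0] at h2 ⊢
    have hfirst : lam * xT D k (FB D N k j1 j3 κ B n j) ≤ x0 * (2 ^ j * K ^ (2 * n) * lam ^ (j + 1 - n)) := by
      calc lam * xT D k (FB D N k j1 j3 κ B n j) ≤ lam * (x0 * (2 ^ j * K ^ (2 * n) * lam ^ (j - n))) :=
            mul_le_mul_right h2 _
        _ = x0 * (2 ^ j * K ^ (2 * n) * lam ^ (j - n + 1)) := by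
            rw [pow_succ]
            ring
        _ ≤ x0 * (2 ^ j * K ^ (2 * n) * lam ^ (j + 1 - n)) := by
            refine mul_le_mul_right (mul_le_mul_right ?_ _) _
            exact pow_le_pow_right_of_le_one' hlam (by omega)
    have hsecond : xT D k (fun t => if n = 0 then 0 else tA D N LFold (tA D N LFold (FB D N k j1 j3 κ B (n - 1) j)) t) ≤
        x0 * (2 ^ j * K ^ (2 * n) * lam ^ (j + 1 - n)) := by
      by_cases hn : n = 0
      · have e : (fun t => if n = 0 then 0 else tA D N LFold (tA D N LFold (FB D N k j1 j3 κ B (n - 1) j)) t) =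
            fun _ => (0 : ℝ≥0∞) := by
          funext t
          rw [if_pos hn]
        rw [e, xT_zero]
        exact zero_le
      · have e : (fun t => if n = 0 then 0 else tA D N LFold (tA D N LFold (FB D N k j1 j3 κ B (n - 1) j)) t) =
            tA D N LFold (tA D N LFold (FB D N k j1 j3 κ B (n - 1) j)) := by
          funext t
          rw [if_neg hn]
        rw [e]
        have h3 := ih (n - 1)
        rw [← hx0] at h3
        calc xT D k (tA D N LFold (tA D N LFold (FB D N k j1 j3 κ B (n - 1) j))) ≤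
              K * xT D k (tA D N LFold (FB D N k j1 j3 κ B (n - 1) j)) := hA _ (hered_tA _ _ _ _)
          _ ≤ K * (K * xT D k (FB D N k j1 j3 κ B (n - 1) j)) :=
              mul_le_mul_right (hA _ (hered_FB D N k j1 j3 κ hBh (n - 1) j)) _
          _ ≤ K * (K * (x0 * (2 ^ j * K ^ (2 * (n - 1)) * lam ^ (j - (n - 1))))) :=
              mul_le_mul_right (mul_le_mul_right h3 _) _
          _ = x0 * (2 ^ j * K ^ (2 * n) * lam ^ (j + 1 - n)) := by
              obtain ⟨m, rfl⟩ : ∃ m, n = m + 1 := ⟨n - 1, by omega⟩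
              rw [Nat.add_sub_cancel, Nat.add_sub_add_right]
              have e2 : K ^ (2 * (m + 1)) = K ^ (2 * m) * (K * K) := by
                rw [mul_add, pow_add, mul_one, pow_two]
              rw [e2]
              ring
    calc xT D k (FB D N k j1 j3 κ B n (j + 1)) ≤
          xT D k (fun t => tB D N k j1 j3 LFold (tA D N LFold (FB D N k j1 j3 κ B n j)) t +
            tA D N LFold (tB D N k j1 j3 LFold (FB D N k j1 j3 κ B n j)) t +
            κ * tU D N k j1 j3 LFold (tU D N k j1 j3 LFold (FB D N k j1 j3 κ B n j)) t) +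
          xT D k (fun t => if n = 0 then 0 else tA D N LFold (tA D N LFold (FB D N k j1 j3 κ B (n - 1) j)) t) :=
          xT_add D k _ _
      _ ≤ x0 * (2 ^ j * K ^ (2 * n) * lam ^ (j + 1 - n)) + x0 * (2 ^ j * K ^ (2 * n) * lam ^ (j + 1 - n)) :=
          add_le_add (h1.trans hfirst) hsecond
      _ = x0 * (2 ^ (j + 1) * K ^ (2 * n) * lam ^ (j + 1 - n)) := by
          rw [pow_succ]
          ring

/-- the norm of the base -/
theorem x_iter {D N k : ℕ} {K : ℝ≥0∞} (hA : ∀ Φ, Hered Φ → xT D k (tA D N LFold Φ) ≤ K * xT D k Φ)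
    {Φ : List Bool → ℝ≥0∞} (hΦ : Hered Φ) : ∀ ℓ : ℕ, xT D k ((tA D N LFold)^[ℓ] Φ) ≤ K ^ ℓ * xT D k Φ
  | 0 => by
    rw [pow_zero, one_mul]
    exact le_rfl
  | ℓ + 1 => by
    rw [Function.iterate_succ_apply']
    refine (hA _ (hered_iter D N hΦ ℓ)).trans ?_
    rw [pow_succ', mul_assoc]
    exact mul_le_mul_right (x_iter hA hΦ ℓ) _

end CrA

end NTW

end HexObs
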