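import Pool.Agent.NTW.DomT
import Pool.Agent.NTW.DomE
import Pool.Agent.NTW.CrdA
import Pool.Agent.SDN.Peierls1F
import Pool.Agent.SDN.NormT

/-!
NTW, crowding with two free ends, part B: the sum over the chains with m leaves, few doublings and few block pairs, with
two dominated end functionals.
-/

set_option autoImplicit false

namespace HexObs

namespace NTW

open Finset TS SDN

open scoped ENNReal

variable {C δ : ℝ}

open Classical in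
/-- the chains of m leaves; the block pairs of the 2 ((m - 4) / 2) leaves behind the first leaf are counted -/
def CS (D N q w n m : ℕ) : Set (List (List Bool)) :=
  {gs | gs.length = m ∧ List.IsChain LFold gs ∧ (∀ u ∈ gs, u ∈ BrR D N) ∧
    NCB (caps q w 0 0 ((gs.drop 1).take (2 * ((m - 4) / 2)))).toFinset ∧
    (caps q w 0 0 ((gs.drop 1).take (2 * ((m - 4) / 2)))).toFinset.card ≤ n}

namespace CrB

/-- one more leaf, tilted, a dominated functional -/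
theorem xtA_of (h : Inp C δ) (hA : SsA) (h3 : Ss3) : ∃ K : ℝ, 1 ≤ K ∧ ∀ (k N : ℕ) (x : ℝ≥0∞)
    (Φ : List Bool → ℝ≥0∞), Dom k x Φ →
    xT (2 ^ (k + 4)) k (tA (2 ^ (k + 4)) N LFold Φ) ≤ ENNReal.ofReal K * x := by
  obtain ⟨K, hK, hn⟩ := nextD_of h hA h3
  refine ⟨64 * K, by linarith, fun k N x Φ hΦ => ?_⟩
  refine (xT_mono fun t => tA_le _ N Nat.one_le_two_pow LFold Φ t).trans ((xT_tsum _ _ _).trans ?_)
  rw [← NT_sum (by linarith) x]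
  refine ENNReal.tsum_le_tsum fun i => ?_
  refine (xT_smul _ _ _ _).trans (mul_le_mul_right ?_ _)
  have h1 := hn (2 ^ (k + 4)) k k (2 ^ (k + 4)) (2 ^ (i + 1) * 2 ^ (k + 4)) x Φ hΦ le_rfl le_rfl le_rfl
    (Nat.le_mul_of_pos_left _ (by positivity))
  refine h1.trans (mul_le_mul_left (ENNReal.ofReal_le_ofReal ?_) _)
  have h2 := UU_block k i
  have hU := Ub_pos k
  calc K * (UU (2 ^ (i + 1) * 2 ^ (k + 4)) / Ub k) ≤ K * (2 ^ (i + 5) * Ub k / Ub k) := by gcongr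
    _ = K * 2 ^ (i + 5) := by field_simp

/-- the tilted sum over the first leaf, two dominated functionals -/
theorem two2t_of (hA : SsA) (hD : SsD) : ∃ K : ℝ, 1 ≤ K ∧ ∀ (k N : ℕ) (x y : ℝ≥0∞) (Ψ Φ : List Bool → ℝ≥0∞),
    Dom k x Ψ → Dom k y Φ →
    sB (BrR (2 ^ (k + 4)) N) (fun g => wE g * (tl (2 ^ (k + 4)) (hgt g) * (Ψ (rev g) * Φ g))) ≤
      ENNReal.ofReal (K * Ub k) * (x * y) := by
  obtain ⟨K, hK, hn⟩ := two2_of hA hD
  refine ⟨64 * K, by linarith, fun k N x y Ψ Φ hΨ hΦ => ?_⟩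
  have hU := Ub_pos k
  have h1 := tl_blocks (D := 2 ^ (k + 4)) (N := N) Nat.one_le_two_pow Set.univ (fun g => Ψ (rev g) * Φ g)
  have e1 : sB (BrR (2 ^ (k + 4)) N) (fun g => wE g * (tl (2 ^ (k + 4)) (hgt g) * (Ψ (rev g) * Φ g))) =
      Rec8.sw {g | g ∈ BrR (2 ^ (k + 4)) N ∧ g ∈ Set.univ}
        (fun g => tl (2 ^ (k + 4)) (hgt g) * (Ψ (rev g) * Φ g)) := by
    have : {g | g ∈ BrR (2 ^ (k + 4)) N ∧ g ∈ Set.univ} = BrR (2 ^ (k + 4)) N := by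
      ext g
      simp
    rw [this]
    rfl
  rw [e1]
  refine h1.trans ?_
  rw [show 64 * K * Ub k = 64 * (K * Ub k) by ring, ← NT_sum (by positivity) (x * y)]
  refine ENNReal.tsum_le_tsum fun i => mul_le_mul_right ?_ _
  have e2 : Rec8.sw {g | g ∈ BrR (2 ^ (k + 4)) (2 ^ (i + 1) * 2 ^ (k + 4)) ∧ g ∈ Set.univ}
      (fun g => Ψ (rev g) * Φ g) =
      Rec8.sw (BrR (2 ^ (k + 4)) (2 ^ (i + 1) * 2 ^ (k + 4))) (fun g => Ψ (rev g) * Φ g) := by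
    congr 1
    ext g
    simp
  rw [e2]
  have h2 := hn k k (2 ^ (k + 4)) (2 ^ (i + 1) * 2 ^ (k + 4)) x y Ψ Φ hΨ hΦ le_rfl le_rfl
    (Nat.le_mul_of_pos_left _ (by positivity))
  refine h2.trans (mul_le_mul_left (ENNReal.ofReal_le_ofReal ?_) _)
  have h4 := UU_block k i
  have h5 : K * UU (2 ^ (i + 1) * 2 ^ (k + 4)) ≤ K * (2 ^ (i + 5) * Ub k) :=
    mul_le_mul_of_nonneg_left h4 (by linarith)
  calc K * UU (2 ^ (i + 1) * 2 ^ (k + 4)) ≤ K * (2 ^ (i + 5) * Ub k) := h5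
    _ = _ := by ring

/-- the chain behind the first leaf -/
lemma CS_cons {D N q w n m : ℕ} (hm : 4 ≤ m) {gs : List (List Bool)} (h : gs ∈ CS D N q w n m) :
    ∃ g ∈ BrR D N, ∃ rest ∈ CB D N q w (m - 1 - 2 * ((m - 4) / 2)) ∅ n ((m - 4) / 2) 0 0 g, gs = g :: rest := by
  classical
  obtain ⟨h1, h2, h3, h4, h5⟩ := h
  rcases gs with _ | ⟨g, rest⟩
  · simp only [List.length_nil] at h1
    omega
  · rw [List.drop_one, List.tail_cons] at h4 h5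
    refine ⟨g, h3 g List.mem_cons_self, rest, ⟨?_, h2, fun u hu => h3 u (List.mem_cons_of_mem _ hu), ?_, ?_⟩, rfl⟩
    · simp only [List.length_cons] at h1
      omega
    · rw [Finset.empty_union]
      exact h4
    · rw [Finset.sdiff_empty]
      exact h5

/-- the tilted sum over the chains is a sum over the first leaf -/
theorem CS_le {D N k j1 j3 w n m : ℕ} (hm : 4 ≤ m) {κ : ℝ≥0∞} {Ψ Φ B : List Bool → ℝ≥0∞}
    (hP : Ch.PairCap D N k j1 j3 w κ) (hΦ : Hered Φ) (hB : B = (tA D N LFold)^[m - 1 - 2 * ((m - 4) / 2)] Φ) :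
    ∑' gs : {gs // gs ∈ CS D N (k + 2) w n m}, SDN.wt D gs.1 * (Ψ (rev (gs.1.headD [])) * Φ (gs.1.getLastD [])) ≤
      sB (BrR D N) (fun g => wE g * (tl D (hgt g) *
        (Ψ (rev g) * FB D N k j1 j3 κ B n ((m - 4) / 2) g))) := by
  refine (tsum_dec (CS D N (k + 2) w n m) (BrR D N)
    (fun g => CB D N (k + 2) w (m - 1 - 2 * ((m - 4) / 2)) ∅ n ((m - 4) / 2) 0 0 g) List.cons
    (fun gs => SDN.wt D gs * (Ψ (rev (gs.headD [])) * Φ (gs.getLastD []))) ?_).trans ?_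
  · rintro ⟨gs, hgs⟩
    obtain ⟨g, h1, rest, h2, rfl⟩ := CS_cons hm hgs
    exact ⟨⟨⟨g, h1⟩, ⟨rest, h2⟩⟩, rfl⟩
  · unfold sB
    refine ENNReal.tsum_le_tsum fun g => ?_
    have h1 := CrA.chain_absB (N := N) (w := w) (ℓ := m - 1 - 2 * ((m - 4) / 2)) (Φ := Φ) (B := B) hP
      (by rw [hB]; exact CrA.hered_iter D N hΦ _) (fun g hg => by
        rw [hB]
        exact CrA.base_le D N Φ _ g hg) ((m - 4) / 2) n ∅ 0 0 g.1 (BrR_HB g.2)
    calc ∑' c : {c // c ∈ CB D N (k + 2) w (m - 1 - 2 * ((m - 4) / 2)) ∅ n ((m - 4) / 2) 0 0 g.1},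
          SDN.wt D (g.1 :: c.1) * (Ψ (rev ((g.1 :: c.1).headD [])) * Φ ((g.1 :: c.1).getLastD []))
        = (wE g.1 * tl D (hgt g.1) * Ψ (rev g.1)) *
          ∑' c : {c // c ∈ CB D N (k + 2) w (m - 1 - 2 * ((m - 4) / 2)) ∅ n ((m - 4) / 2) 0 0 g.1},
            CrA.VV D Φ g.1 c.1 := by
          rw [← ENNReal.tsum_mul_left]
          refine tsum_congr fun c => ?_
          rw [SDN.Ch.wt_cons, List.headD_cons, List.getLastD_cons]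
          unfold CrA.VV
          ring
      _ ≤ (wE g.1 * tl D (hgt g.1) * Ψ (rev g.1)) * FB D N k j1 j3 κ B n ((m - 4) / 2) g.1 :=
          mul_le_mul_right h1 _
      _ = _ := by ring

/-- from the weight to the tilted weight -/
lemma untiltZ (D Λ : ℕ) (P : Set (List (List Bool))) (Z : List (List Bool) → ℝ≥0∞) :
    ∑' gs : {gs // gs ∈ P ∧ dbl D gs ≤ Λ}, SDN.wl gs.1 * Z gs.1 ≤ 4 ^ Λ * ∑' gs : {gs // gs ∈ P}, SDN.wt D gs.1 * Z gs.1 := by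
  calc ∑' gs : {gs // gs ∈ P ∧ dbl D gs ≤ Λ}, SDN.wl gs.1 * Z gs.1
      ≤ ∑' gs : {gs // gs ∈ P ∧ dbl D gs ≤ Λ}, 4 ^ Λ * (SDN.wt D gs.1 * Z gs.1) := by
        refine ENNReal.tsum_le_tsum fun gs => ?_
        rw [wl_eq_wt D gs.1, ← mul_assoc]
        gcongr
        · norm_num
        · exact gs.2.2
    _ = 4 ^ Λ * ∑' gs : {gs // gs ∈ P ∧ dbl D gs ≤ Λ}, SDN.wt D gs.1 * Z gs.1 := ENNReal.tsum_mul_left
    _ ≤ 4 ^ Λ * ∑' gs : {gs // gs ∈ P}, SDN.wt D gs.1 * Z gs.1 := by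
        gcongr
        exact ENNReal.tsum_comp_le_tsum_of_injective
          (f := fun gs : {gs // gs ∈ P ∧ dbl D gs ≤ Λ} => (⟨gs.1, gs.2.1⟩ : {gs // gs ∈ P}))
          (fun a b hab => Subtype.ext (congrArg (fun p => p.1) hab))
          (fun gs : {gs // gs ∈ P} => SDN.wt D gs.1 * Z gs.1)

end CrB

open CrB in
/-- **the crowding estimate for chains with two dominated ends** -/
theorem crowd2_chain (hA : SsA) (h3 : Ss3) (hD : SsD) (Λ : ℕ) : ∃ (k0 w0 Q : ℕ) (C0 : ℝ), w0 ≤ k0 ∧ 2 ≤ Q ∧ 0 < C0 ∧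
    ∀ (k N m n : ℕ) (x y : ℝ≥0∞) (Ψ Φ : List Bool → ℝ≥0∞), k0 ≤ k → 4 ≤ m → 2 * Q * (n + 1) ≤ m → Dom k x Ψ →
    Dom k y Φ →
    ∑' gs : {gs // gs ∈ CS (2 ^ (k + 4)) N (k + 2) (2 ^ (k - w0)) n m ∧ dbl (2 ^ (k + 4)) gs ≤ Λ * m},
      SDN.wl gs.1 * (Ψ (rev (gs.1.headD [])) * Φ (gs.1.getLastD [])) ≤
        ENNReal.ofReal (C0 * Ub k / 4 ^ m) * (x * y) := by
  obtain ⟨C, δ, hI⟩ := inp_exists
  obtain ⟨K, c, hN⟩ := nrm_exists
  obtain ⟨Cs, hCs, hP⟩ := pairCap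
  obtain ⟨K1, hK1, htA⟩ := xtA_of hI hA h3
  obtain ⟨K2, hK2, htwo⟩ := two2t_of hA hD
  obtain ⟨K3, hK3, hdom⟩ := Dom_xT hI
  have hK := hN.one_le
  have hK0 : 0 ≤ K := by linarith
  obtain ⟨r, hr⟩ : ∃ r, r = 2 * Λ + 6 := ⟨_, rfl⟩
  obtain ⟨a, a', w0, K0, ha, hK00, hpar⟩ := params1 K c Cs ((1 / 2) ^ (4 * r)) hK hN.pos hCs (by positivity)
  obtain ⟨Q0, hQ0⟩ := pow_unbounded_of_one_lt K (by norm_num : (1 : ℝ) < 2)
  obtain ⟨Q, hQ⟩ : ∃ Q, Q = max Q0 2 := ⟨_, rfl⟩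
  have hKQ : K ≤ 2 ^ Q := by
    refine hQ0.le.trans (pow_le_pow_right₀ (by norm_num) ?_)
    rw [hQ]
    exact le_max_left _ _
  have hQ2 : 2 ≤ Q := by
    rw [hQ]
    exact le_max_right _ _
  refine ⟨a + a' + w0, w0, Q, K2 * K3 * (K ^ 3 * K1) * 2 ^ (10 * r), by omega, hQ2, by positivity,
    fun k N m n x y Ψ Φ hk hm hn hΨ hΦ => ?_⟩
  obtain ⟨w, hw⟩ : ∃ w, w = 2 ^ (k - w0) := ⟨_, rfl⟩
  have hw1 : 1 ≤ w := by
    rw [hw]
    exact Nat.one_le_two_pow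
  have hw2 : w ≤ 2 ^ k := by
    rw [hw]
    exact Nat.pow_le_pow_right (by norm_num) (by omega)
  rw [← hw]
  have hpar' := hpar k hk
  have hPC := hP N k (k - a) (k - a - a') w K0 hw1 hw2 hK00
  obtain ⟨κ, hκ⟩ : ∃ κ : ℝ, κ = Cs * (K0 * w * 2 ^ k / 4 ^ (k - a - a') + 1 / K0) := ⟨_, rfl⟩
  rw [← hκ] at hPC
  rw [← hw, ← hκ] at hpar'
  have hκ0 : 0 ≤ κ := by
    rw [hκ]
    positivity
  obtain ⟨lam, hlam⟩ : ∃ lam : ℝ, lam = (1 / 2) ^ (4 * r) := ⟨_, rfl⟩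
  have hlam0 : 0 ≤ lam := by
    rw [hlam]
    positivity
  have hlam1 : lam ≤ 1 := by
    rw [hlam]
    exact pow_le_one₀ (by norm_num) (by norm_num)
  rw [← hlam] at hpar'
  obtain ⟨j, hj⟩ : ∃ j, j = (m - 4) / 2 := ⟨_, rfl⟩
  obtain ⟨ℓ, hℓ⟩ : ∃ ℓ, ℓ = m - 1 - 2 * ((m - 4) / 2) := ⟨_, rfl⟩
  obtain ⟨ℓ', hℓ', hℓ3⟩ : ∃ ℓ', ℓ = ℓ' + 1 ∧ ℓ' ≤ 3 := ⟨ℓ - 1, by omega, by omega⟩
  obtain ⟨B, hB⟩ : ∃ B, B = (tA (2 ^ (k + 4)) N LFold)^[m - 1 - 2 * ((m - 4) / 2)] Φ := ⟨_, rfl⟩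
  have hUk := (Ub_pos k).le
  have hKE : (1 : ℝ≥0∞) ≤ ENNReal.ofReal K := by
    rw [← ENNReal.ofReal_one]
    exact ENNReal.ofReal_le_ofReal hK
  -- the base
  have hBn : xT (2 ^ (k + 4)) k B ≤ ENNReal.ofReal (K ^ 3 * K1) * y := by
    rw [hB, ← hℓ, hℓ', Function.iterate_succ_apply]
    refine (CrA.x_iter (fun Φ hΦ => hN.tA k N Φ hΦ) (Ch.hered_tA _ _ _ _) ℓ').trans ?_
    refine (mul_le_mul' (pow_le_pow_right₀ hKE hℓ3) (htA k N y Φ hΦ)).trans (le_of_eq ?_)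
    rw [← mul_assoc, ← ENNReal.ofReal_pow hK0, ← ENNReal.ofReal_mul (by positivity)]
  have hBh : Hered B := by
    rw [hB]
    exact CrA.hered_iter _ _ hΦ.her _
  -- the chain
  obtain ⟨F, hF⟩ : ∃ F, F = FB (2 ^ (k + 4)) N k (k - a) (k - a - a') (ENNReal.ofReal κ) B n j := ⟨_, rfl⟩
  have hFh : Hered F := by
    rw [hF]
    exact CrA.hered_FB _ _ _ _ _ _ hBh _ _
  have hFn : xT (2 ^ (k + 4)) k F ≤ ENNReal.ofReal (K ^ 3 * K1 * (2 ^ j * K ^ (2 * n) * lam ^ (j - n))) * y := by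
    rw [hF]
    refine (CrA.x_FB (K := ENNReal.ofReal K) (lam := ENNReal.ofReal lam) hBh hKE
      (by rw [← ENNReal.ofReal_one]; exact ENNReal.ofReal_le_ofReal hlam1)
      (fun Φ hΦ => hN.tA k N Φ hΦ)
      (fun Φ hΦ => PE.two_norm hN (by omega : k - a + 3 ≤ k) (by omega : k - a - a' ≤ k - a) hκ0 hpar' Φ hΦ)
      j n).trans ?_
    refine (mul_le_mul_left hBn _).trans (le_of_eq ?_)
    have e2 : (2 : ℝ≥0∞) = ENNReal.ofReal 2 := by norm_num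
    rw [e2, ← ENNReal.ofReal_pow (by norm_num), ← ENNReal.ofReal_pow hK0, ← ENNReal.ofReal_pow hlam0,
      ← ENNReal.ofReal_mul (by positivity), ← ENNReal.ofReal_mul (by positivity), mul_right_comm,
      ← ENNReal.ofReal_mul (by positivity)]
  have hFd := hdom (2 ^ (k + 4)) k k F hFh le_rfl le_rfl
  have hsum := htwo k N x _ Ψ F hΨ hFd
  -- the numbers
  have h1 := untiltZ (2 ^ (k + 4)) (Λ * m) (CS (2 ^ (k + 4)) N (k + 2) w n m)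
    (fun gs => Ψ (rev (gs.headD [])) * Φ (gs.getLastD []))
  refine h1.trans ?_
  have h2 := CS_le (n := n) (Ψ := Ψ) hm hPC hΦ.her hB
  rw [← hj, ← hF] at h2
  have e4 : (4 : ℝ≥0∞) ^ (Λ * m) = ENNReal.ofReal (4 ^ (Λ * m)) := by
    rw [ENNReal.ofReal_pow (by norm_num)]
    norm_num
  rw [e4]
  refine (mul_le_mul_right (h2.trans hsum) _).trans ?_
  have h3 := PE.pow_num Λ (m := m) (n := n + 1) (j := j) hK hKQ hn hQ2 hj hm
  rw [Nat.add_sub_cancel, ← hr, ← hlam] at h3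
  calc ENNReal.ofReal (4 ^ (Λ * m)) * (ENNReal.ofReal (K2 * Ub k) * (x * (ENNReal.ofReal K3 *
        xT (2 ^ (k + 4)) k F)))
      ≤ ENNReal.ofReal (4 ^ (Λ * m)) * (ENNReal.ofReal (K2 * Ub k) * (x * (ENNReal.ofReal K3 *
        (ENNReal.ofReal (K ^ 3 * K1 * (2 ^ j * K ^ (2 * n) * lam ^ (j - n))) * y)))) := by gcongr
    _ = ENNReal.ofReal (K2 * K3 * (K ^ 3 * K1) * Ub k * (4 ^ (Λ * m) * (2 ^ j * K ^ (2 * n) * lam ^ (j - n)))) *
        (x * y) := by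
        have e5 : K2 * K3 * (K ^ 3 * K1) * Ub k * (4 ^ (Λ * m) * (2 ^ j * K ^ (2 * n) * lam ^ (j - n))) =
            4 ^ (Λ * m) * ((K2 * Ub k) * (K3 * (K ^ 3 * K1 * (2 ^ j * K ^ (2 * n) * lam ^ (j - n))))) := by ring
        rw [e5, ENNReal.ofReal_mul (p := 4 ^ (Λ * m)) (by positivity), ENNReal.ofReal_mul (p := K2 * Ub k) (by positivity),
          ENNReal.ofReal_mul (p := K3) (by positivity)]
        ring
    _ ≤ ENNReal.ofReal (K2 * K3 * (K ^ 3 * K1) * 2 ^ (10 * r) * Ub k / 4 ^ m) * (x * y) := by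
        refine mul_le_mul_left (ENNReal.ofReal_le_ofReal ?_) _
        calc K2 * K3 * (K ^ 3 * K1) * Ub k * (4 ^ (Λ * m) * (2 ^ j * K ^ (2 * n) * lam ^ (j - n)))
            ≤ K2 * K3 * (K ^ 3 * K1) * Ub k * (2 ^ (10 * r) / 4 ^ m) := by gcongr
          _ = _ := by ring

end NTW

end HexObs
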