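import Pool.Agent.NTW.QDefs
import Pool.Agent.NTW.ModuA

/-!
NTW: no large displacements in a short time, quantitative form with two free ends, from the event theorem with an
exponential constant.
-/

set_option autoImplicit false

namespace HexObs

namespace NTW

open Finset TS SDN

open scoped ENNReal

namespace DQ

lemma num_pow {A D F : ℝ} {X q : ℕ} (hA : 1 ≤ A) (hD : 1 ≤ D) (hF : 3 * A * D * 2 ≤ F) (hX : 1 ≤ X) (hq : q ≤ X) :
    A * D ^ X / F ^ X ≤ 1 / 3 * (1 / 2) ^ q := by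
  have hF0 : 0 < F := by
    have : 0 < 3 * A * D * 2 := by positivity
    linarith
  have h1 : (3 * A * D * 2) ^ X ≤ F ^ X := pow_le_pow_left₀ (by positivity) hF X
  have h2 : 3 * A ≤ (3 * A) ^ X := by
    calc 3 * A = (3 * A) ^ 1 := (pow_one _).symm
      _ ≤ (3 * A) ^ X := pow_le_pow_right₀ (by linarith) hX
  have h3 : (2 : ℝ) ^ q ≤ 2 ^ X := pow_le_pow_right₀ (by norm_num) hq
  have h4 : 3 * A * D ^ X * 2 ^ q ≤ F ^ X := by
    calc 3 * A * D ^ X * 2 ^ q ≤ (3 * A) ^ X * D ^ X * 2 ^ X := by gcongr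
      _ = (3 * A * D * 2) ^ X := by rw [← mul_pow, ← mul_pow]
      _ ≤ _ := h1
  rw [div_le_iff₀ (by positivity), one_div_pow]
  have h5 : 1 / 3 * (1 / 2 ^ q) * F ^ X = F ^ X / (3 * 2 ^ q) := by
    field_simp
  rw [h5, le_div_iff₀ (by positivity)]
  linarith

lemma clog_near {Y a : ℕ} (hY : 1 ≤ Y) (ha : Y ≤ 2 ^ a) : ∃ j : ℕ, Y ≤ 2 ^ j ∧ 2 ^ j ≤ 2 * Y ∧ j ≤ a := by
  refine ⟨Nat.clog 2 Y, Nat.le_pow_clog (by norm_num) _, ?_, Nat.clog_le_of_le_pow ha⟩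
  rcases Nat.lt_or_ge 1 Y with h | h
  · have h1 : 2 ^ (Nat.clog 2 Y - 1) < Y := Nat.pow_pred_clog_lt_self (by norm_num) h
    have h2 : 1 ≤ Nat.clog 2 Y := Nat.clog_pos (by norm_num) h
    have h3 : 2 ^ Nat.clog 2 Y = 2 * 2 ^ (Nat.clog 2 Y - 1) := by
      rw [← pow_succ']
      congr 1
      omega
    omega
  · have h0 : Y = 1 := by omega
    rw [h0]
    simp

/-- the covering of the displacement event -/
lemma DFQ_cover {k j1 J lam : ℕ} {x : ℝ} :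
    {t | t ∈ SAL lam ∧ t ∈ DFQ (k + j1) J x} ⊆
      ({t | t ∈ SAL lam ∧ t ∈ EQ2 (k + j1) J (NTm.SL (k + j1) (J + 2) x)} ∪
        {t | t ∈ SAL lam ∧ t ∈ EQ2 k (J + j1) (NTm.SL k (J + j1 + 2) x)}) ∪
      {t | t ∈ SAL lam ∧ t ∈ EQ2 (k + j1) J (NTm.GU k (k + j1) (2 ^ (k + j1 + (J + 2))))} := by
  rintro t ⟨ht, hw, i, j, hij, hj, hlam, hd⟩
  have hw' : t ∈ WL (k + (J + j1)) := by
    rw [show k + (J + j1) = k + j1 + J by omega]
    exact hw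
  have hRR : ∀ b : ℕ, b ≤ k + j1 + 5 → RR b ≤ 96 * 2 ^ (k + j1) := by
    intro b hb
    unfold RR
    have h1 : (2 : ℤ) ^ b ≤ 2 ^ (k + j1 + 5) := pow_le_pow_right₀ (by norm_num) hb
    rw [pow_add _ (k + j1)] at h1
    linarith
  have hno : ∀ b : ℕ, b ≤ k + j1 + 5 → ¬ ∀ i i', i ≤ t.length → i' ≤ t.length → lev t i - lev t i' < RR b := by
    intro b hb hall
    have h1 := hall i j (hij.trans hj) hj
    have h2 := hall j i hj (hij.trans hj)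
    have h3 := hRR b hb
    have h4 : (0 : ℤ) < 2 ^ (k + j1) := by positivity
    rcases abs_cases (lev t j - lev t i) with ⟨h5, -⟩ | ⟨h5, -⟩ <;> rw [h5] at hd <;> linarith
  obtain ⟨m, u, e, h⟩ := (fd_exists (b := k + j1 + 5) (by omega) ht.1).resolve_left (hno _ le_rfl)
  obtain ⟨m1, u1, e1, h1⟩ := (fd_exists (b := k + 5) (by omega) ht.1).resolve_left (hno _ (by omega))
  have hlen : ∀ (u l : ℕ) (e : ℕ → ℕ) (g : List Bool), i ≤ e l → e (l + 1) ≤ j → PosL t u e l g →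
      (g.length : ℝ) < x := by
    intro u l e g h1 h2 h3
    have h4 := h3.len_le
    have h5 : (g.length : ℝ) + i ≤ j + 1 := by
      exact_mod_cast (by omega : g.length + i ≤ j + 1)
    linarith
  rcases geo2 (show k ≤ k + j1 by omega) h h1 hij hj hd with ⟨l, l1, l2, l3⟩ | ⟨l, l1, l2, l3⟩ | ⟨l, l1, l2⟩
  · left; left
    refine ⟨ht, hw, m, u, e, h, l, l1, fun g hp hB => ⟨?_, hlen u l e g l2 l3 hp⟩⟩
    rw [show k + j1 + (J + 2) = k + j1 + J + 2 by omega]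
    exact hB
  · left; right
    refine ⟨ht, hw', m1, u1, e1, h1, l, l1, fun g hp hB => ⟨?_, hlen u1 l e1 g l2 l3 hp⟩⟩
    rw [show k + (J + j1 + 2) = k + (J + j1) + 2 by omega]
    exact hB
  · right
    refine ⟨ht, hw, m, u, e, h, l, l1, fun g hp hB => ?_⟩
    obtain ⟨hh, b1, b2, b3⟩ := hB
    obtain ⟨z, z1, z2, z3⟩ := l2 g hp hh b3
    refine ⟨z, z1, hh, z2, ?_, b3, z3⟩
    rw [show k + j1 + (J + 2) = k + j1 + J + 2 by omega]
    exact b2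

end DQ

/-- the short leaves, exponential form with 4 ^ J -/
def ShortQ4 (Dm : ℕ → ℝ≥0∞ → (List Bool → ℝ≥0∞) → Prop) : Prop := ∃ (d : ℝ) (C : ℕ), 0 < d ∧ 1 ≤ C ∧
  ∀ (kc J a q : ℕ) (x : ℝ), C * (q + 1) ≤ 2 ^ a → C * (q + 1) + a ≤ kc → NTm.AS x (d * Ub (kc - a)) →
    SmD Dm kc (NTm.SL kc J x) (C * 4 ^ J * (1 / 2) ^ q)

open DQ in
/-- **no large displacements in a short time, quantitative form** -/
theorem dispQ4_of {Dm : ℕ → ℝ≥0∞ → (List Bool → ℝ≥0∞) → Prop} (hev : EventQ2 Dm) (hsh : ShortQ4 Dm) (hcl : CleanD Dm) :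
    DispQ2 := by
  obtain ⟨K, s0, hK, hG⟩ := hcl
  obtain ⟨C1, k1, hC1, hev⟩ := hev
  obtain ⟨ds, Cs, hds, hCs, hsh⟩ := hsh
  have hCs1 : (1 : ℝ) ≤ Cs := by exact_mod_cast hCs
  obtain ⟨s, hs⟩ : ∃ s, s = s0 + 5 := ⟨_, rfl⟩
  -- the number of fine blocks
  obtain ⟨B1, hB1⟩ : ∃ B1 : ℝ, B1 = 3 * (64 * K) * (8 * C1) * 2 := ⟨_, rfl⟩
  obtain ⟨c1, hc1⟩ : ∃ c1 : ℕ, B1 ≤ (4 : ℝ) ^ c1 := by
    obtain ⟨c1, h⟩ := pow_unbounded_of_one_lt B1 (show (1 : ℝ) < 4 by norm_num)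
    exact ⟨c1, h.le⟩
  obtain ⟨c3, hc3⟩ : ∃ c3, c3 = (c1 + 1) * 2 ^ s := ⟨_, rfl⟩
  -- the exponent of the short leaves
  obtain ⟨B2, hB2⟩ : ∃ B2 : ℝ, B2 = 3 * (16 * Cs) * (4 * C1) ^ (1 + 2 * c3) * 2 := ⟨_, rfl⟩
  obtain ⟨c5, hc5⟩ : ∃ c5 : ℕ, B2 ≤ (2 : ℝ) ^ c5 := by
    obtain ⟨c5, h⟩ := pow_unbounded_of_one_lt B2 (show (1 : ℝ) < 2 by norm_num)
    exact ⟨c5, h.le⟩
  refine ⟨ds, k1 + Cs * (c5 + 1) + c3, hds, ?_⟩
  intro kc J a q lam lam' x hJ ha hkc hQ hAS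
  obtain ⟨X, hX⟩ : ∃ X, X = J + q + 1 := ⟨_, rfl⟩
  rw [← hX] at ha hkc
  have hX1 : 1 ≤ X := by omega
  have hexp : (k1 + Cs * (c5 + 1) + c3) * X = k1 * X + Cs * (c5 + 1) * X + c3 * X := by ring
  rw [hexp] at ha hkc
  have hk1X : k1 ≤ k1 * X := Nat.le_mul_of_pos_right _ hX1
  have hCX : Cs * (c5 * X + 1) ≤ Cs * (c5 + 1) * X := by
    calc Cs * (c5 * X + 1) ≤ Cs * (c5 * X + X) := by gcongr
      _ = Cs * (c5 + 1) * X := by ring
  have hc3p : 1 ≤ c3 := by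
    rw [hc3]
    exact Nat.mul_pos (by omega) (by positivity)
  -- the fine scale
  obtain ⟨j1, hj1, hj2, hj1a⟩ := clog_near (Y := c3 * X) (a := a) (Nat.mul_pos hc3p hX1) (by omega)
  have hj1s : s ≤ j1 := by
    by_contra hcon
    have h1 : 2 ^ j1 < 2 ^ s := Nat.pow_lt_pow_right (by norm_num) (by omega)
    have h2 : 2 ^ s ≤ c3 := by
      rw [hc3]
      exact Nat.le_mul_of_pos_left _ (by omega)
    have h3 : c3 ≤ c3 * X := Nat.le_mul_of_pos_right _ hX1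
    omega
  have hj1X : j1 ≤ 2 * c3 * X := by
    have h1 : j1 < 2 ^ j1 := Nat.lt_two_pow_self
    have h2 : 2 * (c3 * X) = 2 * c3 * X := by ring
    omega
  obtain ⟨k, rfl⟩ : ∃ k, kc = k + j1 := ⟨kc - j1, by omega⟩
  have hn : c1 * X * 2 ^ (k + s) ≤ 2 ^ (k + j1) := by
    calc c1 * X * 2 ^ (k + s) ≤ (c1 + 1) * X * 2 ^ (k + s) := by gcongr; omega
      _ = 2 ^ k * (c3 * X) := by
          rw [hc3, pow_add]
          ring
      _ ≤ 2 ^ k * 2 ^ j1 := by gcongr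
      _ = 2 ^ (k + j1) := by rw [pow_add]
  have hn0 : c1 * X * 2 ^ (k + s0) ≤ 2 ^ (k + j1) := by
    refine le_trans (Nat.mul_le_mul_left _ (Nat.pow_le_pow_right (by norm_num) ?_)) hn
    omega
  -- the three classes
  have hUm : ∀ x y : ℕ, x ≤ y → Ub x ≤ Ub y := fun x y h => Ub_mono h
  have hS0 : SmD Dm (k + j1) (NTm.SL (k + j1) (J + 2) x) (Cs * 4 ^ (J + 2) * (1 / 2) ^ (c5 * X)) := by
    refine hsh (k + j1) (J + 2) a (c5 * X) x (by omega) (by omega) fun N => (hAS N).trans (ENNReal.ofReal_le_ofReal ?_)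
    have := hUm (k + j1 - 2 * a) (k + j1 - a) (by omega)
    gcongr
  have hS1 : SmD Dm k (NTm.SL k (J + j1 + 2) x) (Cs * 4 ^ (J + j1 + 2) * (1 / 2) ^ (c5 * X)) := by
    refine hsh k (J + j1 + 2) a (c5 * X) x (by omega) (by omega) fun N => (hAS N).trans (ENNReal.ofReal_le_ofReal ?_)
    have := hUm (k + j1 - 2 * a) (k - a) (by omega)
    gcongr
  have hSG : SmD Dm (k + j1) (NTm.GU k (k + j1) (2 ^ (k + j1 + (J + 2)))) (K * 8 ^ (J + 2) / 4 ^ (c1 * X)) :=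
    hG (k + j1) (J + 2) (c1 * X) k (by omega) hn0 (by omega) (by omega)
  have e0 := hev (k + j1) J lam lam' _ _ (by omega) hJ (by positivity) hQ hS0
  have e1 := hev k (J + j1) lam lam' _ _ (by omega) (by omega) (by positivity)
    (by rw [show k + (J + j1) + 8 = k + j1 + J + 8 by omega]; exact hQ) hS1
  have e2 := hev (k + j1) J lam lam' _ _ (by omega) hJ (by positivity) hQ hSG
  rw [show k + (J + j1) = k + j1 + J by omega] at e1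
  refine (gf_mono DFQ_cover).trans ((gf_union_le _ _).trans ((add_le_add ((gf_union_le _ _).trans (add_le_add e0 e1)) e2).trans ?_))
  have hUL := Ub_pos (k + j1 + J)
  rw [← add_mul, ← add_mul, ← ENNReal.ofReal_add (by positivity) (by positivity),
    ← ENNReal.ofReal_add (by positivity) (by positivity)]
  refine mul_le_mul_left (ENNReal.ofReal_le_ofReal ?_) _
  -- numbers
  have hp1 : (1 : ℝ) ≤ (4 * C1) ^ (1 + 2 * c3) := one_le_pow₀ (by linarith)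
  have g1 : C1 ^ (J + j1) * (Cs * 4 ^ (J + j1 + 2) * (1 / 2) ^ (c5 * X)) ≤ 1 / 3 * (1 / 2) ^ q := by
    refine le_trans ?_ (num_pow (A := 16 * Cs) (D := (4 * C1) ^ (1 + 2 * c3)) (F := 2 ^ c5) (X := X) (q := q) (by linarith) hp1
      (by rw [hB2] at hc5; exact hc5) hX1 (by omega))
    have h1 : (4 * C1) ^ (J + j1) ≤ ((4 * C1) ^ (1 + 2 * c3)) ^ X := by
      rw [← pow_mul]
      apply pow_le_pow_right₀ (by linarith)
      have : (1 + 2 * c3) * X = X + 2 * c3 * X := by ring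
      omega
    have h2 : (1 / 2 : ℝ) ^ (c5 * X) = 1 / ((2 : ℝ) ^ c5) ^ X := by rw [← pow_mul, one_div_pow]
    rw [h2]
    calc C1 ^ (J + j1) * (Cs * 4 ^ (J + j1 + 2) * (1 / ((2 : ℝ) ^ c5) ^ X)) =
          16 * Cs * (4 * C1) ^ (J + j1) / ((2 : ℝ) ^ c5) ^ X := by
          rw [mul_pow, pow_add _ (J + j1) 2]
          ring
      _ ≤ 16 * Cs * ((4 * C1) ^ (1 + 2 * c3)) ^ X / ((2 : ℝ) ^ c5) ^ X := by gcongr
  have g0 : C1 ^ J * (Cs * 4 ^ (J + 2) * (1 / 2) ^ (c5 * X)) ≤ 1 / 3 * (1 / 2) ^ q := by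
    refine le_trans ?_ g1
    have h1 : C1 ^ J ≤ C1 ^ (J + j1) := pow_le_pow_right₀ hC1 (by omega)
    have h2 : (4 : ℝ) ^ (J + 2) ≤ 4 ^ (J + j1 + 2) := pow_le_pow_right₀ (by norm_num) (by omega)
    gcongr
  have g2 : C1 ^ J * (K * 8 ^ (J + 2) / 4 ^ (c1 * X)) ≤ 1 / 3 * (1 / 2) ^ q := by
    refine le_trans ?_ (num_pow (A := 64 * K) (D := 8 * C1) (F := 4 ^ c1) (X := X) (q := q) (by linarith) (by linarith)
      (by rw [hB1] at hc1; exact hc1) hX1 (by omega))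
    rw [← pow_mul]
    have h1 : (8 * C1) ^ J ≤ (8 * C1) ^ X := pow_le_pow_right₀ (by linarith) (by omega)
    calc C1 ^ J * (K * 8 ^ (J + 2) / 4 ^ (c1 * X)) = 64 * K * (8 * C1) ^ J / 4 ^ (c1 * X) := by
          rw [mul_pow, pow_add]
          ring
      _ ≤ _ := by gcongr
  calc C1 ^ J * (Cs * 4 ^ (J + 2) * (1 / 2) ^ (c5 * X)) * Ub (k + j1 + J) +
      C1 ^ (J + j1) * (Cs * 4 ^ (J + j1 + 2) * (1 / 2) ^ (c5 * X)) * Ub (k + j1 + J) +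
      C1 ^ J * (K * 8 ^ (J + 2) / 4 ^ (c1 * X)) * Ub (k + j1 + J) ≤ 1 / 3 * (1 / 2) ^ q * Ub (k + j1 + J) +
        1 / 3 * (1 / 2) ^ q * Ub (k + j1 + J) + 1 / 3 * (1 / 2) ^ q * Ub (k + j1 + J) := by gcongr
    _ = _ := by ring

/-- the form with 2 ^ J -/
theorem dispQ2_of {Dm : ℕ → ℝ≥0∞ → (List Bool → ℝ≥0∞) → Prop} (hev : EventQ2 Dm) (hsh : ShortQ2 Dm) (hcl : CleanD Dm) :
    DispQ2 := by
  refine dispQ4_of hev ?_ hcl
  obtain ⟨d, C, hd, hC, h⟩ := hsh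
  refine ⟨d, C, hd, hC, fun kc J a q x h1 h2 h3 => ?_⟩
  have h4 := h kc J a q x h1 h2 h3
  have h5 : (C : ℝ) * 2 ^ J * (1 / 2) ^ q ≤ C * 4 ^ J * (1 / 2) ^ q := by
    have : (2 : ℝ) ^ J ≤ 4 ^ J := pow_le_pow_left₀ (by norm_num) (by norm_num) J
    gcongr
  refine ⟨fun x Φ hΦ => (h4.near x Φ hΦ).trans (mul_le_mul_left (ENNReal.ofReal_le_ofReal h5) _),
    fun y x Ψ Φ hΨ hf hΦ => (h4.free y x Ψ Φ hΨ hf hΦ).trans (mul_le_mul_left (ENNReal.ofReal_le_ofReal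
      (mul_le_mul_of_nonneg_right h5 (Ub_pos kc).le)) _)⟩

end NTW

end HexObs
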