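import Pool.Agent.SDN.TwoK

/-!
NTW, definitions: functionals of tails dominated by a number x at the scales up to k. The bound is pointwise in the
irreducible piece P, with a universal weight SS k P (all scales up to k together).
-/

set_option autoImplicit false

namespace HexObs

namespace NTW

open Finset TS SDN

open scoped ENNReal

/-- the universal weight of a piece P, scales up to k -/
noncomputable def SS (k : ℕ) (P : List Bool) : ℝ≥0∞ :=
  ∑ j ∈ range (k + 1), ∑ b ∈ range (j + 1), Sw (2 ^ (j + 4)) j b P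

/-- the functional Φ is dominated by the number x, scales up to k -/
structure Dom (k : ℕ) (x : ℝ≥0∞) (Φ : List Bool → ℝ≥0∞) : Prop where
  her : Hered Φ
  bd : ∀ (r : ℕ) (P : List Bool), P ∈ Irr r →
    Rec8.sw {M | ∃ m, m < 2 ^ (k + 1) ∧ M ∈ Brd m} (fun M => Φ (P ++ M)) ≤ x * SS k P

lemma Dom.mono {k : ℕ} {x y : ℝ≥0∞} {Φ : List Bool → ℝ≥0∞} (h : Dom k x Φ) (hxy : x ≤ y) : Dom k y Φ :=
  ⟨h.her, fun r P hP => (h.bd r P hP).trans (mul_le_mul' hxy le_rfl)⟩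

lemma SS_mono {k k' : ℕ} (h : k ≤ k') (P : List Bool) : SS k P ≤ SS k' P := by
  unfold SS
  exact Finset.sum_le_sum_of_subset (Finset.range_mono (by omega))

lemma Dom.add {k : ℕ} {x y : ℝ≥0∞} {Φ Ψ : List Bool → ℝ≥0∞} (h : Dom k x Φ) (h' : Dom k y Ψ) :
    Dom k (x + y) (fun t => Φ t + Ψ t) := by
  refine ⟨fun s hs t => add_le_add (h.her s hs t) (h'.her s hs t), fun r P hP => ?_⟩
  rw [Rec8.sw_add, add_mul]
  exact add_le_add (h.bd r P hP) (h'.bd r P hP)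

lemma Dom.smul {k : ℕ} {x : ℝ≥0∞} {Φ : List Bool → ℝ≥0∞} (c : ℝ≥0∞) (h : Dom k x Φ) :
    Dom k (c * x) (fun t => c * Φ t) := by
  refine ⟨fun s hs t => mul_le_mul_right (h.her s hs t) _, fun r P hP => ?_⟩
  rw [Rec8.sw_mul_left, mul_assoc]
  exact mul_le_mul_right (h.bd r P hP) _

lemma Dom.le {k : ℕ} {x : ℝ≥0∞} {Φ Ψ : List Bool → ℝ≥0∞} (h : Dom k x Φ) (hΨ : Hered Ψ) (hle : ∀ t, Ψ t ≤ Φ t) :
    Dom k x Ψ :=
  ⟨hΨ, fun r P hP => (Rec8.sw_mono' fun _ _ => hle _).trans (h.bd r P hP)⟩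

end NTW

end HexObs
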