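import Pool.Agent.NTW.WinK
import Pool.Agent.NTW.DefsW
import Pool.Agent.BAR.Defs
import Pool.Agent.PHW.JumpV

/-!
NTW, block (A): the hanging half plane walks by blocks of their height, windows.
-/

set_option autoImplicit false

namespace HexObs

namespace NTW

open Finset TS SDN

open scoped ENNReal

open Rec8 (mb)

variable {C δ : ℝ}

/-- the leaf may be replaced by its end -/
theorem LF_drop {X g W : List Bool} (hg : g ≠ []) (h : LFold (X ++ g) W) : LFold g W := by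
  have h1 : lst (X ++ g) = lst g := by
    unfold lst
    rw [List.getLastD_eq_getLast?, List.getLastD_eq_getLast?, List.getLast?_append_of_ne_nil _ hg]
  unfold LFold Hang at *
  rw [h1, rev_append] at h
  split_ifs at h ⊢ with hb
  · exact HangA.Dj_pref_right h
  · exact HangA.Dj_pref_left h

theorem SSt_mo {a b : ℕ} (hab : a ≤ b) {t : List Bool} (ht : t ∈ SSt a) : t ∈ SSt b := by
  refine ⟨fun i h1 h2 => ?_, ht.inj⟩
  have h3 := mem_St.1 (ht.mem i h1 h2)
  rw [mem_St]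
  omega

theorem Hered_EF (D N : ℕ) : Hered (EF D N) := by
  intro s hs t
  unfold EF
  exact gf_mono fun W hW => ⟨hW.1, hW.2.1, RT_her hs hW.2.2⟩

/-- hanging walks of a height in (2^i, M], at most m -/
noncomputable def Bk (i M m : ℕ) (g : List Bool) : ℝ≥0∞ :=
  gf {W | (W ∈ SSt M ∧ W ∉ SSt (2 ^ i)) ∧ W ∈ SSt m ∧ LFold g W}

theorem Bk_le_EF {i M m : ℕ} {g : List Bool} (hg : g ∈ HB (2 ^ i)) : Bk i M m g ≤ EF (2 ^ i) M g :=
  gf_mono fun _ hW => ⟨hW.1.1, hW.1.2, RT_of hg hW.2.2⟩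

theorem Bk_mono {i M m m' : ℕ} {X g g' : List Bool} (hg : g ≠ []) (hX : g' = X ++ g) (hm : m' ≤ m) :
    Bk i M m' g' ≤ Bk i M m g := by
  subst hX
  exact gf_mono fun _ hW => ⟨hW.1, SSt_mo hm hW.2.1, LF_drop hg hW.2.2⟩

/-- blocks of the hanging walk -/
theorem GLf_blocks {i0 j N m : ℕ} (h0 : i0 ≤ j) (hm : m ≤ N) (g : List Bool) :
    GLf m g ≤ BAR.HH (2 ^ i0) + ((∑ i ∈ Ico i0 j, Bk i (2 ^ (i + 1)) m g) + Bk j N m g) := by
  classical
  have hsub : {W | W ∈ SSt m ∧ LFold g W} ⊆ SSt (2 ^ i0) ∪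
      ((⋃ i ∈ Ico i0 j, {W | (W ∈ SSt (2 ^ (i + 1)) ∧ W ∉ SSt (2 ^ i)) ∧ W ∈ SSt m ∧ LFold g W}) ∪
        {W | (W ∈ SSt N ∧ W ∉ SSt (2 ^ j)) ∧ W ∈ SSt m ∧ LFold g W}) := by
    rintro W ⟨h1, h2⟩
    by_cases h3 : W ∈ SSt (2 ^ i0)
    · exact Or.inl h3
    right
    by_cases h4 : W ∈ SSt (2 ^ j)
    · left
      have hex : ∃ i, W ∈ SSt (2 ^ (i0 + i)) := ⟨j - i0, by rwa [Nat.add_sub_cancel' h0]⟩
      obtain ⟨i, hi1, hi2⟩ : ∃ i, W ∈ SSt (2 ^ (i0 + i)) ∧ ∀ i' < i, W ∉ SSt (2 ^ (i0 + i')) :=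
        ⟨Nat.find hex, Nat.find_spec hex, fun i' hi' => Nat.find_min hex hi'⟩
      have hi0 : i ≠ 0 := by
        rintro rfl
        exact h3 hi1
      obtain ⟨i', rfl⟩ : ∃ i', i = i' + 1 := ⟨i - 1, by omega⟩
      have hij : i0 + (i' + 1) ≤ j := by
        by_contra hc
        exact hi2 (j - i0) (by omega) (by rwa [Nat.add_sub_cancel' h0])
      rw [Set.mem_iUnion₂]
      refine ⟨i0 + i', Finset.mem_Ico.2 ⟨by omega, by omega⟩, ⟨?_, hi2 i' (by omega)⟩, h1, h2⟩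
      rw [add_assoc]
      exact hi1
    · right
      exact ⟨⟨SSt_mo hm h1, h4⟩, h1, h2⟩
  unfold GLf
  refine (gf_mono hsub).trans ((gf_union_le _ _).trans (add_le_add le_rfl ((gf_union_le _ _).trans
    (add_le_add ?_ le_rfl))))
  exact JumpVaux.gf_biUnion_le _ _

/-- norm of the free ends of the block i -/
noncomputable def zz (i : ℕ) : ℝ≥0∞ := xT (2 ^ i) (i - 4) (EF (2 ^ i) (2 ^ (i + 1)))

/-- norm of the free ends of a height in (2^j, N] -/
noncomputable def zN (j N : ℕ) : ℝ≥0∞ := xT (2 ^ j) (j - 4) (EF (2 ^ j) N)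

/-- window of the heights -/
theorem sumwin {V : ℕ → Prop} [DecidablePred V] {a w : ℕ} (h : ∀ v, V v → a ≤ v ∧ v < a + w) :
    (∑' v : ℕ, if V v then gf (Brd v) else 0) ≤ ENNReal.ofReal (UU w) := by
  have h1 : (∑' v : ℕ, if V v then gf (Brd v) else 0) = ∑ v ∈ Ico a (a + w), if V v then gf (Brd v) else 0 := by
    refine tsum_eq_sum fun v hv => ?_
    rw [if_neg]
    intro hV
    exact hv (Finset.mem_Ico.2 (h v hV))
  rw [h1]
  calc ∑ v ∈ Ico a (a + w), (if V v then gf (Brd v) else 0) ≤ ∑ v ∈ Ico a (a + w), gf (Brd v) := by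
        refine Finset.sum_le_sum fun v _ => ?_
        split_ifs
        · exact le_rfl
        · exact zero_le
    _ = ∑ v ∈ range w, gf (Brd (a + v)) := by
        rw [Finset.sum_Ico_eq_sum_range, Nat.add_sub_cancel_left]
    _ ≤ ∑ v ∈ range w, gf (Brd v) := by
        refine Finset.sum_le_sum fun v _ => ?_
        rw [NO_gf, NO_gf]
        exact ENNReal.ofReal_le_ofReal (uu_anti (Nat.le_add_left v a))
    _ = ENNReal.ofReal (∑ v ∈ range w, uu v) := by
        rw [ENNReal.ofReal_sum_of_nonneg fun v _ => (uu_pos v).le]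
        exact Finset.sum_congr rfl fun v _ => NO_gf v
    _ ≤ _ := by
        refine ENNReal.ofReal_le_ofReal ?_
        unfold UU
        rw [Finset.sum_range_succ]
        have := (uu_pos w).le
        linarith

/-- the window functional: n = height of the leaf. Either the leaf is in the top window of [., N], or the hanging walk is
higher than n - w -/
noncomputable def Sf (i M N w n : ℕ) (t : List Bool) : ℝ≥0∞ :=
  if n ≤ N then (if N < n + w then EF (2 ^ i) M t else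
    gf {W | ((W ∈ SSt M ∧ W ∉ SSt (2 ^ i)) ∧ RT (2 ^ i) LFold t W) ∧ W ∈ SSt n ∧ W ∉ SSt (n - w)}) else 0

theorem Hered_Sf (i M N w n : ℕ) : Hered (Sf i M N w n) := by
  intro s hs t
  unfold Sf
  split_ifs
  · exact Hered_EF _ _ s hs t
  · exact gf_mono fun W hW => ⟨⟨hW.1.1, RT_her hs hW.1.2⟩, hW.2⟩
  · exact le_rfl

theorem Sf_le (i M N w n : ℕ) (t : List Bool) : Sf i M N w n t ≤ EF (2 ^ i) M t := by
  unfold Sf
  split_ifs
  · exact le_rfl
  · exact gf_mono fun W hW => ⟨hW.1.1.1, hW.1.1.2, hW.1.2⟩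
  · exact zero_le

theorem Sf_win {i M N w : ℕ} (n : ℕ) (t : List Bool) :
    ∑' v : ℕ, gf (Brd v) * Sf i M N w (n + v) t ≤ ENNReal.ofReal (2 * UU w) * EF (2 ^ i) M t := by
  classical
  obtain ⟨A, hA⟩ : ∃ A : Set (List Bool), A = {W | (W ∈ SSt M ∧ W ∉ SSt (2 ^ i)) ∧ RT (2 ^ i) LFold t W} := ⟨_, rfl⟩
  have hEF : EF (2 ^ i) M t = gf A := by
    rw [hA]
    unfold EF
    congr 1
    ext W
    constructor
    · rintro ⟨h1, h2, h3⟩
      exact ⟨⟨h1, h2⟩, h3⟩
    · rintro ⟨⟨h1, h2⟩, h3⟩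
      exact ⟨h1, h2, h3⟩
  have hpt : ∀ v : ℕ, gf (Brd v) * Sf i M N w (n + v) t ≤
      (if n + v ≤ N ∧ N < n + v + w then gf (Brd v) else 0) * gf A +
      ∑' W : List Bool, (if W ∈ A ∧ W ∈ SSt (n + v) ∧ W ∉ SSt (n + v - w) then wE W * gf (Brd v) else 0) := by
    intro v
    unfold Sf
    by_cases h1 : n + v ≤ N
    · rw [if_pos h1]
      by_cases h2 : N < n + v + w
      · rw [if_pos h2, if_pos ⟨h1, h2⟩, hEF]
        exact le_self_add
      · rw [if_neg h2]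
        refine le_trans (le_of_eq ?_) le_add_self
        rw [gf_ind {W | ((W ∈ SSt M ∧ W ∉ SSt (2 ^ i)) ∧ RT (2 ^ i) LFold t W) ∧ W ∈ SSt (n + v) ∧
          W ∉ SSt (n + v - w)}, ← ENNReal.tsum_mul_left]
        refine tsum_congr fun W => ?_
        have e : (W ∈ {W | ((W ∈ SSt M ∧ W ∉ SSt (2 ^ i)) ∧ RT (2 ^ i) LFold t W) ∧ W ∈ SSt (n + v) ∧
          W ∉ SSt (n + v - w)}) ↔ (W ∈ A ∧ W ∈ SSt (n + v) ∧ W ∉ SSt (n + v - w)) := by
          rw [hA]
          rfl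
        by_cases h3 : W ∈ A ∧ W ∈ SSt (n + v) ∧ W ∉ SSt (n + v - w)
        · rw [if_pos h3, if_pos (e.2 h3), mul_comm]
        · rw [if_neg h3, if_neg (fun hc => h3 (e.1 hc)), mul_zero]
    · rw [if_neg h1, mul_zero]
      exact zero_le
  refine (ENNReal.tsum_le_tsum hpt).trans ?_
  rw [ENNReal.tsum_add, ENNReal.tsum_mul_right]
  have e1 : ENNReal.ofReal (2 * UU w) * EF (2 ^ i) M t = ENNReal.ofReal (UU w) * gf A + ENNReal.ofReal (UU w) * gf A := by
    rw [hEF, two_mul, ENNReal.ofReal_add (Num2Aux.UU_pos w).le (Num2Aux.UU_pos w).le]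
    ring
  rw [e1]
  refine add_le_add ?_ ?_
  · refine mul_le_mul_left (sumwin (a := N + 1 - w - n) fun v hv => ?_) _
    omega
  · rw [ENNReal.tsum_comm]
    have e2 : ENNReal.ofReal (UU w) * gf A = ∑' W : List Bool, ENNReal.ofReal (UU w) * (if W ∈ A then wE W else 0) := by
      rw [gf_ind, ENNReal.tsum_mul_left]
    rw [e2]
    refine ENNReal.tsum_le_tsum fun W => ?_
    by_cases hW : W ∈ A
    · rw [if_pos hW]
      have hex : ∃ m, W ∈ SSt m := by
        rw [hA] at hW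
        exact ⟨M, hW.1.1⟩
      obtain ⟨m, hm1, hm2⟩ : ∃ m, W ∈ SSt m ∧ ∀ m' < m, W ∉ SSt m' :=
        ⟨Nat.find hex, Nat.find_spec hex, fun m' hm' => Nat.find_min hex hm'⟩
      have hm0 : 1 ≤ m := by
        by_contra hc
        have : m = 0 := by omega
        rw [this] at hm1
        rw [hA] at hW
        exact hW.1.2 (SSt_mo (Nat.zero_le _) hm1)
      have e3 : ∀ v : ℕ, (if W ∈ A ∧ W ∈ SSt (n + v) ∧ W ∉ SSt (n + v - w) then wE W * gf (Brd v) else 0) =
          wE W * (if W ∈ SSt (n + v) ∧ W ∉ SSt (n + v - w) then gf (Brd v) else 0) := by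
        intro v
        by_cases h3 : W ∈ SSt (n + v) ∧ W ∉ SSt (n + v - w)
        · rw [if_pos h3, if_pos ⟨hW, h3⟩]
        · rw [if_neg h3, if_neg (fun hc => h3 hc.2), mul_zero]
      rw [tsum_congr e3, ENNReal.tsum_mul_left, mul_comm]
      refine mul_le_mul_left (sumwin (a := m - n) fun v hv => ?_) _
      have h4 : m ≤ n + v := by
        by_contra hc
        exact hm2 _ (by omega) hv.1
      have h5 : n + v - w < m := by
        by_contra hc
        exact hv.2 (SSt_mo (by omega) hm1)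
      omega
    · rw [if_neg hW, mul_zero]
      refine le_of_eq (ENNReal.tsum_eq_zero.2 fun v => ?_)
      rw [if_neg (fun hc => hW hc.1)]

end NTW

end HexObs
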