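import Pool.Agent.NTW.EndsS
import Pool.Agent.NTW.DefsL
import Pool.Agent.PLW.Strip

/-!
NTW, block (A) with a time bound: the bootstrap for the norm of the free ends.
-/

set_option autoImplicit false

namespace HexObs

namespace NTW

open Finset TS SDN

open scoped ENNReal

open Rec8 (mb)

variable {C δ : ℝ}

theorem Hered_EFl (D N lam : ℕ) : Hered (EFl D N lam) := by
  intro s hs t
  unfold EFl
  exact gf_mono fun W hW => ⟨hW.1, hW.2.1, RT_her hs hW.2.2.1, hW.2.2.2⟩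

/-- hanging walks of a height in (2^i, M], at most m -/
noncomputable def Bkl (i M m lam : ℕ) (g : List Bool) : ℝ≥0∞ :=
  gf {W | (W ∈ SSt M ∧ W ∉ SSt (2 ^ i)) ∧ W ∈ SSt m ∧ LFold g W ∧ g.length + W.length ≤ lam + 10}

lemma lev_le3 (t : List Bool) (i : ℕ) : lev t i ≤ 2 * i := by
  induction i with
  | zero =>
    rw [lev_zero]
    norm_num
  | succ i ih =>
    rw [lev_succ]
    have h1 : ∀ d ∈ dirs, ip d up ≤ 2 := by decide
    have h2 := h1 _ (dx_mem upd t i)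
    push_cast
    linarith

lemma brd_len' {n : ℕ} {u : List Bool} (h : u ∈ Brd n) : n ≤ u.length := by
  have h1 := (mem_Brd.1 h).2.2.2
  have h2 := lev_le3 u u.length
  omega

lemma HB_len {i : ℕ} (hi : 4 ≤ i) {g : List Bool} (hg : g ∈ HB (2 ^ i)) : 10 ≤ g.length := by
  obtain ⟨n, h1, h2⟩ := hg
  have h3 := brd_len' h2
  have h4 : 2 ^ 4 ≤ 2 ^ i := Nat.pow_le_pow_right (by norm_num) hi
  omega

theorem Bkl_le_EFl {i M m lam : ℕ} (hi : 4 ≤ i) {g : List Bool} (hg : g ∈ HB (2 ^ i)) :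
    Bkl i M m lam g ≤ EFl (2 ^ i) M lam g := by
  have h1 := HB_len hi hg
  exact gf_mono fun W hW => ⟨hW.1.1, hW.1.2, RT_of hg hW.2.2.1, by have := hW.2.2.2; omega⟩

/-- blocks of the hanging walk -/
theorem GLl_blocks {i0 j N m lam : ℕ} (h0 : i0 ≤ j) (hm : m ≤ N) (g : List Bool) :
    GLl m (lam + 10) g ≤ BAR.HH (2 ^ i0) + ((∑ i ∈ Ico i0 j, Bkl i (2 ^ (i + 1)) m lam g) + Bkl j N m lam g) := by
  classical
  have hsub : {W | W ∈ SSt m ∧ LFold g W ∧ g.length + W.length ≤ lam + 10} ⊆ SSt (2 ^ i0) ∪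
      ((⋃ i ∈ Ico i0 j, {W | (W ∈ SSt (2 ^ (i + 1)) ∧ W ∉ SSt (2 ^ i)) ∧ W ∈ SSt m ∧ LFold g W ∧
        g.length + W.length ≤ lam + 10}) ∪
        {W | (W ∈ SSt N ∧ W ∉ SSt (2 ^ j)) ∧ W ∈ SSt m ∧ LFold g W ∧ g.length + W.length ≤ lam + 10}) := by
    rintro W ⟨h1, h2⟩
    by_cases h3 : W ∈ SSt (2 ^ i0)
    · exact Or.inl h3
    right
    by_cases h4 : W ∈ SSt (2 ^ j)
    · left
      have hex : ∃ i, W ∈ SSt (2 ^ (i0 + i)) := ⟨j - i0, by rwa [Nat.add_sub_cancel' h0]⟩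
      obtain ⟨i, hi1, hi2⟩ : ∃ i, W ∈ SSt (2 ^ (i0 + i)) ∧ ∀ i' < i, W ∉ SSt (2 ^ (i0 + i')) :=
        ⟨Nat.find hex, Nat.find_spec hex, fun i' hi' => Nat.find_min hex hi'⟩
      have hi0 : i ≠ 0 := by
        rintro rfl
        exact h3 hi1
      obtain ⟨i', rfl⟩ : ∃ i', i = i' + 1 := ⟨i - 1, by omega⟩
      have hij : i0 + (i' + 1) ≤ j := by
        by_contra hc
        exact hi2 (j - i0) (by omega) (by rwa [Nat.add_sub_cancel' h0])
      rw [Set.mem_iUnion₂]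
      refine ⟨i0 + i', Finset.mem_Ico.2 ⟨by omega, by omega⟩, ⟨?_, hi2 i' (by omega)⟩, h1, h2⟩
      rw [add_assoc]
      exact hi1
    · right
      exact ⟨⟨SSt_mo hm h1, h4⟩, h1, h2⟩
  unfold GLl
  refine (gf_mono hsub).trans ((gf_union_le _ _).trans (add_le_add le_rfl ((gf_union_le _ _).trans
    (add_le_add ?_ le_rfl))))
  exact JumpVaux.gf_biUnion_le _ _

/-- the window functional: n = height of the leaf. Either the leaf is in the top window of [., N], or the hanging walk is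
higher than n - w -/
noncomputable def Sfl (i M N w lam n : ℕ) (t : List Bool) : ℝ≥0∞ :=
  if n ≤ N then (if N < n + w then EFl (2 ^ i) M lam t else
    gf {W | ((W ∈ SSt M ∧ W ∉ SSt (2 ^ i)) ∧ RT (2 ^ i) LFold t W ∧ W.length ≤ lam) ∧ W ∈ SSt n ∧ W ∉ SSt (n - w)}) else 0

theorem Hered_Sfl (i M N w lam n : ℕ) : Hered (Sfl i M N w lam n) := by
  intro s hs t
  unfold Sfl
  split_ifs
  · exact Hered_EFl _ _ _ s hs t
  · exact gf_mono fun W hW => ⟨⟨hW.1.1, RT_her hs hW.1.2.1, hW.1.2.2⟩, hW.2⟩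
  · exact le_rfl

theorem Sfl_le (i M N w lam n : ℕ) (t : List Bool) : Sfl i M N w lam n t ≤ EFl (2 ^ i) M lam t := by
  unfold Sfl
  split_ifs
  · exact le_rfl
  · exact gf_mono fun W hW => ⟨hW.1.1.1, hW.1.1.2, hW.1.2⟩
  · exact zero_le

theorem Sfl_win {i M N w lam : ℕ} (n : ℕ) (t : List Bool) :
    ∑' v : ℕ, gf (Brd v) * Sfl i M N w lam (n + v) t ≤ ENNReal.ofReal (2 * UU w) * EFl (2 ^ i) M lam t := by
  classical
  obtain ⟨A, hA⟩ : ∃ A : Set (List Bool), A = {W | (W ∈ SSt M ∧ W ∉ SSt (2 ^ i)) ∧ RT (2 ^ i) LFold t W ∧ W.length ≤ lam} := ⟨_, rfl⟩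
  have hEF : EFl (2 ^ i) M lam t = gf A := by
    rw [hA]
    unfold EFl
    congr 1
    ext W
    constructor
    · rintro ⟨h1, h2, h3⟩
      exact ⟨⟨h1, h2⟩, h3⟩
    · rintro ⟨⟨h1, h2⟩, h3⟩
      exact ⟨h1, h2, h3⟩
  have hpt : ∀ v : ℕ, gf (Brd v) * Sfl i M N w lam (n + v) t ≤
      (if n + v ≤ N ∧ N < n + v + w then gf (Brd v) else 0) * gf A +
      ∑' W : List Bool, (if W ∈ A ∧ W ∈ SSt (n + v) ∧ W ∉ SSt (n + v - w) then wE W * gf (Brd v) else 0) := by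
    intro v
    unfold Sfl
    by_cases h1 : n + v ≤ N
    · rw [if_pos h1]
      by_cases h2 : N < n + v + w
      · rw [if_pos h2, if_pos ⟨h1, h2⟩, hEF]
        exact le_self_add
      · rw [if_neg h2]
        refine le_trans (le_of_eq ?_) le_add_self
        rw [gf_ind {W | ((W ∈ SSt M ∧ W ∉ SSt (2 ^ i)) ∧ RT (2 ^ i) LFold t W ∧ W.length ≤ lam) ∧ W ∈ SSt (n + v) ∧
          W ∉ SSt (n + v - w)}, ← ENNReal.tsum_mul_left]
        refine tsum_congr fun W => ?_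
        have e : (W ∈ {W | ((W ∈ SSt M ∧ W ∉ SSt (2 ^ i)) ∧ RT (2 ^ i) LFold t W ∧ W.length ≤ lam) ∧ W ∈ SSt (n + v) ∧
          W ∉ SSt (n + v - w)}) ↔ (W ∈ A ∧ W ∈ SSt (n + v) ∧ W ∉ SSt (n + v - w)) := by
          rw [hA]
          rfl
        by_cases h3 : W ∈ A ∧ W ∈ SSt (n + v) ∧ W ∉ SSt (n + v - w)
        · rw [if_pos h3, if_pos (e.2 h3), mul_comm]
        · rw [if_neg h3, if_neg (fun hc => h3 (e.1 hc)), mul_zero]
    · rw [if_neg h1, mul_zero]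
      exact zero_le
  refine (ENNReal.tsum_le_tsum hpt).trans ?_
  rw [ENNReal.tsum_add, ENNReal.tsum_mul_right]
  have e1 : ENNReal.ofReal (2 * UU w) * EFl (2 ^ i) M lam t = ENNReal.ofReal (UU w) * gf A + ENNReal.ofReal (UU w) * gf A := by
    rw [hEF, two_mul, ENNReal.ofReal_add (Num2Aux.UU_pos w).le (Num2Aux.UU_pos w).le]
    ring
  rw [e1]
  refine add_le_add ?_ ?_
  · refine mul_le_mul_left (sumwin (a := N + 1 - w - n) fun v hv => ?_) _
    omega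
  · rw [ENNReal.tsum_comm]
    have e2 : ENNReal.ofReal (UU w) * gf A = ∑' W : List Bool, ENNReal.ofReal (UU w) * (if W ∈ A then wE W else 0) := by
      rw [gf_ind, ENNReal.tsum_mul_left]
    rw [e2]
    refine ENNReal.tsum_le_tsum fun W => ?_
    by_cases hW : W ∈ A
    · rw [if_pos hW]
      have hex : ∃ m, W ∈ SSt m := by
        rw [hA] at hW
        exact ⟨M, hW.1.1⟩
      obtain ⟨m, hm1, hm2⟩ : ∃ m, W ∈ SSt m ∧ ∀ m' < m, W ∉ SSt m' :=
        ⟨Nat.find hex, Nat.find_spec hex, fun m' hm' => Nat.find_min hex hm'⟩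
      have hm0 : 1 ≤ m := by
        by_contra hc
        have : m = 0 := by omega
        rw [this] at hm1
        rw [hA] at hW
        exact hW.1.2 (SSt_mo (Nat.zero_le _) hm1)
      have e3 : ∀ v : ℕ, (if W ∈ A ∧ W ∈ SSt (n + v) ∧ W ∉ SSt (n + v - w) then wE W * gf (Brd v) else 0) =
          wE W * (if W ∈ SSt (n + v) ∧ W ∉ SSt (n + v - w) then gf (Brd v) else 0) := by
        intro v
        by_cases h3 : W ∈ SSt (n + v) ∧ W ∉ SSt (n + v - w)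
        · rw [if_pos h3, if_pos ⟨hW, h3⟩]
        · rw [if_neg h3, if_neg (fun hc => h3 hc.2), mul_zero]
      rw [tsum_congr e3, ENNReal.tsum_mul_left, mul_comm]
      refine mul_le_mul_left (sumwin (a := m - n) fun v hv => ?_) _
      have h4 : m ≤ n + v := by
        by_contra hc
        exact hm2 _ (by omega) hv.1
      have h5 : n + v - w < m := by
        by_contra hc
        exact hv.2 (SSt_mo (by omega) hm1)
      omega
    · rw [if_neg hW, mul_zero]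
      refine le_of_eq (ENNReal.tsum_eq_zero.2 fun v => ?_)
      rw [if_neg (fun hc => hW hc.1)]

/-- the blocks of the hanging walks are disjoint -/
theorem sum_Bkl_le (S : Finset ℕ) (m lam : ℕ) (g : List Bool) :
    ∑ i ∈ S, Bkl i (2 ^ (i + 1)) m lam g ≤ GLl m (lam + 10) g := by
  classical
  unfold Bkl GLl
  simp only [gf_ind]
  rw [← Summable.tsum_finsetSum (fun _ _ => ENNReal.summable)]
  refine ENNReal.tsum_le_tsum fun W => ?_
  by_cases hW : W ∈ {W | W ∈ SSt m ∧ LFold g W ∧ g.length + W.length ≤ lam + 10}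
  · rw [if_pos hW]
    by_cases hex : ∃ i ∈ S, W ∈ SSt (2 ^ (i + 1)) ∧ W ∉ SSt (2 ^ i)
    · obtain ⟨i, hi, h1, h2⟩ := hex
      rw [Finset.sum_eq_single i]
      · split_ifs
        · exact le_rfl
        · exact zero_le
      · intro i' _ hne
        rw [if_neg]
        rintro ⟨⟨h3, h4⟩, -⟩
        rcases Nat.lt_or_ge i i' with h5 | h5
        · exact h4 (SSt_mo (Nat.pow_le_pow_right (by norm_num) (by omega)) h1)
        · exact h2 (SSt_mo (Nat.pow_le_pow_right (by norm_num) (by omega)) h3)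
      · exact fun h => absurd hi h
    · refine le_trans (le_of_eq (Finset.sum_eq_zero fun i hi => ?_)) zero_le
      rw [if_neg]
      exact fun hc => hex ⟨i, hi, hc.1⟩
  · rw [if_neg hW]
    refine le_of_eq (Finset.sum_eq_zero fun i hi => ?_)
    rw [if_neg]
    exact fun hc => hW hc.2

/-- the low blocks -/
theorem low_blkl (h : Inp C δ) : ∃ K c : ℝ, 1 ≤ K ∧ 0 < c ∧ ∀ i j N lam : ℕ, 4 ≤ i → i + 6 ≤ j → 2 ^ j ≤ N →
    xT (2 ^ j) (j - 4) (Op (2 ^ j) N (fun g => Bkl i (2 ^ (i + 1)) (hgt g - 1) lam g)) ≤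
      ENNReal.ofReal (K / Ub (j - 4)) * Rec8.sw (BrR 1 N) (fun Z => Bkl i (2 ^ (i + 1)) (hgt Z - 1) lam Z) +
        ENNReal.ofReal (K * (2 : ℝ) ^ (-(c * ((j : ℝ) - i)))) * zl lam i := by
  obtain ⟨K, c, hK, hc, hl⟩ := lowA h
  refine ⟨K, c, hK, hc, fun i j N lam hi hij hN => ?_⟩
  have hk : j - 4 + 4 = j := by omega
  have hk1 : i - 4 + 4 = i := by omega
  have e1 : 2 ^ (i + 2) = 2 * 2 ^ (i + 1) := by ring
  have e0 : 1 ≤ 2 ^ (i + 1) := Nat.one_le_two_pow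
  have e2 : 2 ^ (i + 2) ≤ 2 ^ (j - 4) := Nat.pow_le_pow_right (by norm_num) (by omega)
  have e3 : i - 4 + 6 = i + 2 := by omega
  have hij2 : 2 ^ i ≤ 2 ^ j := Nat.pow_le_pow_right (by norm_num) (by omega)
  have hm := hl (2 ^ j) (j - 4) (2 ^ i) (i - 4) (2 ^ j) N (2 ^ (i + 1) + 1) (EFl (2 ^ i) (2 ^ (i + 1)) lam)
    (fun g => Bkl i (2 ^ (i + 1)) (hgt g - 1) lam g)
    (Rec8.sw (BrR 1 N) (fun Z => Bkl i (2 ^ (i + 1)) (hgt Z - 1) lam Z)) (Hered_EFl _ _ _)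
    (by rw [hk]) (by rw [hk1]) (by omega) le_rfl hN (by omega) (by rw [e3]; omega) ?_ ?_
  · have e4 : ((j - 4 : ℕ) : ℝ) - ((i - 4 : ℕ) : ℝ) = (j : ℝ) - i := by
      rw [Nat.cast_sub (by omega), Nat.cast_sub hi]
      ring
    rw [e4] at hm
    exact hm
  · intro n r z X P Z _ hX hP hZ _ hg
    exact (Bkl_le_EFl hi (HB_of_BrR hij2 hg)).trans (Hered_EFl _ _ _ X ⟨n, hX⟩ _)
  · intro n r X P _ hX hP
    refine Rec8.sw_mono ?_ ?_
    · rintro Z ⟨⟨z, hz, hZ⟩, hg⟩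
      obtain ⟨H, -, h2, h3⟩ := hg
      have := Brd_height h3 (Brd_append hX (Brd_append hP.1 hZ))
      exact ⟨z, by omega, by omega, hZ⟩
    · rintro Z ⟨⟨z, hz, hZ⟩, hg⟩
      have hz1 : 1 ≤ z := by omega
      refine gf_mono fun W hW => ⟨hW.1, ?_, ?_, ?_⟩
      · refine SSt_mo ?_ hW.1.1
        rw [hgt_eq hZ]
        omega
      · have h5 := hW.2.2.1
        rw [← List.append_assoc] at h5
        exact LF_drop (Brd_ne_nil hZ hz1) h5
      · have h5 := hW.2.2.2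
        rw [List.length_append, List.length_append] at h5
        omega

/-- the statement of HSumL -/
def HSumL : Prop := ∃ K : ℝ, 1 ≤ K ∧ ∀ (E N j lam lam' : ℕ), QL j lam' → ∑' r : ℕ, min 1 ((r : ℝ≥0∞) / 2 ^ j) *
  Rec8.sw (Irr r) (fun P => Rec8.sw {Z | Z ∈ BU ∧ P ++ Z ∈ BrR E N}
    (fun Z => GLl (hgt (P ++ Z) - 1) lam (P ++ Z))) ≤ ENNReal.ofReal (K / Ub j) * HHl (N + 2 ^ j) (lam + lam' + 1)

lemma HHl_mono {a b l m : ℕ} (h : a ≤ b) (hl : l ≤ m) : HHl a l ≤ HHl b m :=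
  gf_mono fun _ hW => ⟨SSt_mo h hW.1, hW.2.trans hl⟩

/-- one of the high blocks; M = upper bound of the heights of the hanging walk -/
theorem high_blkl (h : Inp C δ) (hA : ClsA C δ) (hS : HSumL) : ∀ ε : ℝ, 0 < ε → ∃ (C1 : ℝ) (J : ℕ), 1 ≤ C1 ∧
    ∀ i j M N lam lam' : ℕ, QL j lam' → 4 ≤ i → i ≤ j → J ≤ j → 2 ^ j ≤ N → N ≤ 2 ^ (j + 2) →
    xT (2 ^ j) (j - 4) (Op (2 ^ j) N (fun g => Bkl i M (hgt g - 1) lam g)) ≤
      ENNReal.ofReal (C1 / UU N) * HHl N (lam + lam' + 12) +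
        ENNReal.ofReal ε * xT (2 ^ i) (i - 4) (EFl (2 ^ i) M lam) := by
  classical
  intro ε hε
  obtain ⟨K1, c1, hK1, hc1, hwin⟩ := win2 h
  obtain ⟨K2, c2, hK2, hc2, hcls⟩ := hA h
  obtain ⟨K3, hK3, hsum⟩ := hS
  obtain ⟨θ, hθ, hdown⟩ := UU_ratio_down
  -- powers of two tend to zero
  have htend : ∀ (c : ℝ), 0 < c → ∀ η : ℝ, 0 < η → ∃ n : ℕ, (2 : ℝ) ^ (-(c * (n : ℝ))) ≤ η := by
    intro c hc η hη
    have h1 : Filter.Tendsto (fun n : ℕ => ((2 : ℝ) ^ (-c)) ^ n) Filter.atTop (nhds 0) := by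
      apply tendsto_pow_atTop_nhds_zero_of_lt_one (Real.rpow_pos_of_pos two_pos _).le
      exact Real.rpow_lt_one_of_one_lt_of_neg (by norm_num) (by linarith)
    obtain ⟨n, hn⟩ := ((h1.eventually (gt_mem_nhds hη)).exists)
    refine ⟨n, ?_⟩
    rw [← Real.rpow_natCast, ← Real.rpow_mul (by norm_num)] at hn
    refine le_of_lt (lt_of_eq_of_lt ?_ hn)
    congr 1
    ring
  obtain ⟨d0, hd0⟩ := htend c1 hc1 (ε / (4 * (K1 * 64))) (by positivity)
  obtain ⟨d1, hd1⟩ : ∃ d1 : ℕ, d1 = d0 + 3 := ⟨_, rfl⟩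
  obtain ⟨m0, hm0⟩ := htend θ hθ (ε / (4 * (K1 * 64) * 4)) (by positivity)
  obtain ⟨s, hs⟩ : ∃ s : ℕ, s = d1 + 4 + m0 := ⟨_, rfl⟩
  obtain ⟨n0, hn0⟩ := htend c2 hc2 (ε / (2 * (K2 * 2 ^ (s + 3)))) (by positivity)
  obtain ⟨s2, hs2⟩ : ∃ s2 : ℕ, s2 = n0 + 3 := ⟨_, rfl⟩
  refine ⟨K2 * ((s2 : ℝ) + 2) * (K3 * 2 ^ (s + 3)) + 1, s + 1 + s2 + 4, by
    have : 0 ≤ K2 * ((s2 : ℝ) + 2) * (K3 * 2 ^ (s + 3)) := by positivity
    linarith, fun i j M N lam lam' hQ hi hij hJ hN hN2 => ?_⟩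
  obtain ⟨w, hw⟩ : ∃ w : ℕ, w = 2 ^ (j - s) := ⟨_, rfl⟩
  obtain ⟨jj, hjj⟩ : ∃ jj : ℕ, jj = j - s - 1 := ⟨_, rfl⟩
  obtain ⟨a1, ha1⟩ : ∃ a1 : ℕ, a1 = jj - s2 := ⟨_, rfl⟩
  obtain ⟨j1, hj1⟩ : ∃ j1 : ℕ, j1 = j - 4 - d1 := ⟨_, rfl⟩
  have hk : j - 4 + 4 = j := by omega
  have hk1 : i - 4 + 4 = i := by omega
  have hij2 : 2 ^ i ≤ 2 ^ j := Nat.pow_le_pow_right (by norm_num) (by omega)
  have hwj : w = 2 ^ (jj + 1) := by
    rw [hw]
    congr 1
    omega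
  have hw1 : 1 ≤ w := by
    rw [hw]
    exact Nat.one_le_two_pow
  have hwj2 : w ≤ 2 ^ (j - 1) := by
    rw [hw]
    exact Nat.pow_le_pow_right (by norm_num) (by omega)
  have hj2 : 2 ^ (j - 1) < 2 ^ j := Nat.pow_lt_pow_right (by norm_num) (by omega)
  obtain ⟨Φ, hΦ⟩ : ∃ Φ : List Bool → ℝ≥0∞, Φ = EFl (2 ^ i) M lam := ⟨_, rfl⟩
  have hHer : Hered Φ := by
    rw [hΦ]
    exact Hered_EFl _ _ _
  obtain ⟨x, hx⟩ : ∃ x, x = xT (2 ^ i) (i - 4) Φ := ⟨_, rfl⟩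
  rw [← hΦ, ← hx]
  -- the two classes
  obtain ⟨FA, hFA⟩ : ∃ FA : List Bool → ℝ≥0∞, FA = fun g => if g ∈ BrR (2 ^ j) N ∧ hgt g + w ≤ N then
    Bkl i M (hgt g - w) lam g else 0 := ⟨_, rfl⟩
  have hsplit : ∀ g ∈ BrR (2 ^ j) N, Bkl i M (hgt g - 1) lam g ≤ Sfl i M N w lam (hgt g) g + FA g := by
    intro g hg
    have hgH : g ∈ HB (2 ^ i) := HB_of_BrR hij2 hg
    have hgN : hgt g ≤ N := by
      obtain ⟨n, -, h2, h3⟩ := hg
      rw [hgt_eq h3]
      exact h2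
    by_cases h1 : N < hgt g + w
    · refine le_trans ?_ le_self_add
      unfold Sfl
      rw [if_pos hgN, if_pos h1]
      exact Bkl_le_EFl hi hgH
    · have h2 : Sfl i M N w lam (hgt g) g = gf {W | ((W ∈ SSt M ∧ W ∉ SSt (2 ^ i)) ∧ RT (2 ^ i) LFold g W ∧ W.length ≤ lam) ∧
          W ∈ SSt (hgt g) ∧ W ∉ SSt (hgt g - w)} := by
        unfold Sfl
        rw [if_pos hgN, if_neg h1]
      rw [h2, hFA]
      simp only
      rw [if_pos ⟨hg, by omega⟩]
      refine (gf_mono ?_).trans (gf_union_le _ _)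
      intro W hW
      have hlen := HB_len hi hgH
      by_cases h3 : W ∈ SSt (hgt g - w)
      · exact Or.inr ⟨hW.1, h3, hW.2.2⟩
      · exact Or.inl ⟨⟨hW.1, RT_of hgH hW.2.2.1, by have := hW.2.2.2; omega⟩, SSt_mo (by omega) hW.2.1, h3⟩
  have h0 : xT (2 ^ j) (j - 4) (Op (2 ^ j) N (fun g => Bkl i M (hgt g - 1) lam g)) ≤
      xT (2 ^ j) (j - 4) (Op (2 ^ j) N (fun g => Sfl i M N w lam (hgt g) g)) + xT (2 ^ j) (j - 4) (Op (2 ^ j) N FA) := by
    refine le_trans (xT_mono (Ψ := fun t => Op (2 ^ j) N (fun g => Sfl i M N w lam (hgt g) g) t + Op (2 ^ j) N FA t)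
      fun t => ?_) (xT_add _ _ _ _)
    rw [← Op_add]
    exact Op_mono hsplit t
  -- ratios
  have hUN : 0 < UU N := Num2Aux.UU_pos N
  have r1 : UU N / Ub (j - 4) ≤ 64 := by
    rw [div_le_iff₀ (Ub_pos _)]
    have e := UU_ratio_up (j - 4) 6
    have e2 : j - 4 + 6 = j + 2 := by omega
    rw [e2] at e
    have e3 : UU N ≤ UU (2 ^ (j + 2)) := Num2Aux.UU_mono hN2
    unfold Ub
    norm_num at e
    linarith
  have r2 : UU N / Ub jj ≤ 2 ^ (s + 3) := by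
    rw [div_le_iff₀ (Ub_pos _)]
    have e := UU_ratio_up jj (s + 3)
    have e2 : jj + (s + 3) = j + 2 := by omega
    rw [e2] at e
    have e3 : UU N ≤ UU (2 ^ (j + 2)) := Num2Aux.UU_mono hN2
    unfold Ub
    linarith
  have r3 : UU w / Ub j1 ≤ 2 * (2 : ℝ) ^ (-(θ * (m0 : ℝ))) := by
    have e := hdown (j - s) m0
    have e2 : j - s + m0 = j1 := by omega
    rw [e2, ← hw] at e
    exact e
  -- windows
  have hW1 := hwin (2 ^ j) (j - 4) (2 ^ i) (i - 4) (2 ^ j) N j1 (2 * UU w) Φ (Sfl i M N w lam) hHer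
    (fun n => Hered_Sfl i M N w lam n) (fun n t => by rw [hΦ]; exact Sfl_le i M N w lam n t)
    (by have := Num2Aux.UU_pos w; positivity) (fun n t => by rw [hΦ]; exact Sfl_win n t)
    (by rw [hk]) (by rw [hk1]) (by omega) le_rfl hij2 hN (by omega)
  have hW2 : xT (2 ^ j) (j - 4) (Op (2 ^ j) N (fun g => Sfl i M N w lam (hgt g) g)) ≤ ENNReal.ofReal (ε / 2) * x := by
    refine hW1.trans ?_
    rw [← hx]
    refine mul_le_mul_left (ENNReal.ofReal_le_ofReal ?_) x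
    have e1 : ((j - 4 : ℕ) : ℝ) - (j1 : ℝ) = (d1 : ℝ) := by
      rw [hj1, Nat.cast_sub (by omega : d1 ≤ j - 4)]
      ring
    rw [e1]
    have e2 : (2 : ℝ) ^ (-(c1 * (d1 : ℝ))) ≤ (2 : ℝ) ^ (-(c1 * (d0 : ℝ))) := by
      apply Real.rpow_le_rpow_of_exponent_le (by norm_num)
      have : (d0 : ℝ) ≤ d1 := by exact_mod_cast (by omega : d0 ≤ d1)
      nlinarith
    have e3 : 2 * UU w / Ub j1 = 2 * (UU w / Ub j1) := by ring
    rw [e3]
    have hp1 : 0 < (2 : ℝ) ^ (-(c1 * (d1 : ℝ))) := Real.rpow_pos_of_pos two_pos _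
    have hp2 : 0 ≤ UU w / Ub j1 := div_nonneg (Num2Aux.UU_pos w).le (Ub_pos j1).le
    calc K1 * (UU N / Ub (j - 4)) * ((2 : ℝ) ^ (-(c1 * (d1 : ℝ))) + 2 * (UU w / Ub j1))
        ≤ K1 * 64 * (ε / (4 * (K1 * 64)) + 2 * (2 * (ε / (4 * (K1 * 64) * 4)))) := by
          gcongr
          · exact e2.trans hd0
          · exact r3.trans (by gcongr)
      _ = ε / 2 := by
          field_simp
          ring
  -- the other class
  have hU3 : 0 < Ub jj := Ub_pos jj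
  have hC1 := hcls (2 ^ j) (j - 4) (2 ^ i) (i - 4) (2 ^ j) N jj a1 Φ FA
    (fun g => if hgt g + w ≤ N then GLl (hgt g - 1) (lam + 10) g else 0)
    (ENNReal.ofReal (K3 / Ub jj) * HHl N (lam + lam' + 12)) hHer ?_ ?_ ?_
    (by rw [hk]) (by rw [hk1]) (by omega) le_rfl hij2 hN (by omega) (by omega)
  · have hC2 : xT (2 ^ j) (j - 4) (Op (2 ^ j) N FA) ≤
        ENNReal.ofReal (K2 * ((s2 : ℝ) + 2) * (K3 * 2 ^ (s + 3)) / UU N) * HHl N (lam + lam' + 12) + ENNReal.ofReal (ε / 2) * x := by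
      refine hC1.trans ?_
      rw [← hx]
      have e1 : (jj : ℝ) - (a1 : ℝ) = (s2 : ℝ) := by
        rw [ha1, Nat.cast_sub (by omega : s2 ≤ jj)]
        ring
      rw [e1, ← mul_assoc, ← ENNReal.ofReal_mul (by positivity)]
      refine add_le_add (mul_le_mul_left (ENNReal.ofReal_le_ofReal ?_) _) (mul_le_mul_left (ENNReal.ofReal_le_ofReal ?_) x)
      · have e2 : K3 / Ub jj ≤ K3 * 2 ^ (s + 3) / UU N := by
          rw [div_le_div_iff₀ hU3 hUN]
          have := (div_le_iff₀ hU3).1 r2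
          calc K3 * UU N ≤ K3 * (2 ^ (s + 3) * Ub jj) := by gcongr
            _ = _ := by ring
        calc K2 * ((s2 : ℝ) + 2) * (K3 / Ub jj) ≤ K2 * ((s2 : ℝ) + 2) * (K3 * 2 ^ (s + 3) / UU N) := by gcongr
          _ = _ := by ring
      · have e2 : (2 : ℝ) ^ (-(c2 * (s2 : ℝ))) ≤ (2 : ℝ) ^ (-(c2 * (n0 : ℝ))) := by
          apply Real.rpow_le_rpow_of_exponent_le (by norm_num)
          have : (n0 : ℝ) ≤ s2 := by exact_mod_cast (by omega : n0 ≤ s2)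
          nlinarith
        calc K2 * (UU N / Ub jj) * (2 : ℝ) ^ (-(c2 * (s2 : ℝ))) ≤ K2 * 2 ^ (s + 3) * (ε / (2 * (K2 * 2 ^ (s + 3)))) := by
              gcongr
              exact e2.trans hn0
          _ = ε / 2 := by
              field_simp
    refine h0.trans ((add_le_add hW2 hC2).trans ?_)
    have e1 : ENNReal.ofReal ε = ENNReal.ofReal (ε / 2) + ENNReal.ofReal (ε / 2) := by
      rw [← ENNReal.ofReal_add (by positivity) (by positivity)]
      congr 1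
      ring
    have e2 : ENNReal.ofReal (K2 * ((s2 : ℝ) + 2) * (K3 * 2 ^ (s + 3)) / UU N) ≤
        ENNReal.ofReal ((K2 * ((s2 : ℝ) + 2) * (K3 * 2 ^ (s + 3)) + 1) / UU N) := by
      apply ENNReal.ofReal_le_ofReal
      gcongr
      linarith
    calc ENNReal.ofReal (ε / 2) * x +
          (ENNReal.ofReal (K2 * ((s2 : ℝ) + 2) * (K3 * 2 ^ (s + 3)) / UU N) * HHl N (lam + lam' + 12) + ENNReal.ofReal (ε / 2) * x)
        = ENNReal.ofReal (K2 * ((s2 : ℝ) + 2) * (K3 * 2 ^ (s + 3)) / UU N) * HHl N (lam + lam' + 12) + ENNReal.ofReal ε * x := by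
          rw [e1]
          ring
      _ ≤ _ := by
          gcongr
  · intro g
    rw [hFA]
    simp only
    split_ifs with hg
    · rw [hΦ]
      exact Bkl_le_EFl hi (HB_of_BrR hij2 hg.1)
    · exact zero_le
  · intro n r X P Z hn hX hP hZ hg
    rw [hFA]
    simp only
    split_ifs with h1 h2 h2
    · obtain ⟨z, hz⟩ := hZ
      have hPZ : P ++ Z ∈ Brd (r + z) := Brd_append hP.1 hz
      have hT : X ++ (P ++ Z) ∈ Brd (n + (r + z)) := Brd_append hX hPZ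
      have hne : P ++ Z ≠ [] := by
        intro hc
        rw [hc] at hPZ
        have e1 := hgt_eq hPZ
        have e2 : hgt ([] : List Bool) = 0 := by
          have h00 : ([] : List Bool) ∈ Brd 0 := by
            rw [Brd_zero]
            exact Set.mem_singleton _
          exact hgt_eq h00
        obtain ⟨H, h3, -, h5⟩ := hg
        have := Brd_height h5 hT
        omega
      refine gf_mono fun W hW => ⟨SSt_mo ?_ hW.2.1, LF_drop hne hW.2.2.1, ?_⟩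
      · rw [hgt_eq hPZ, hgt_eq hT]
        omega
      · have h5 := hW.2.2.2
        rw [List.length_append] at h5
        omega
    · exfalso
      apply h2
      obtain ⟨z, hz⟩ := hZ
      have hPZ : P ++ Z ∈ Brd (r + z) := Brd_append hP.1 hz
      have hT : X ++ (P ++ Z) ∈ Brd (n + (r + z)) := Brd_append hX hPZ
      have h3 := h1.2
      rw [hgt_eq hT] at h3
      rw [hgt_eq hPZ]
      omega
    · exact zero_le
    · exact zero_le
  · calc ∑' r : ℕ, min 1 ((r : ℝ≥0∞) / 2 ^ jj) * Rec8.sw (Irr r) (fun P =>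
          Rec8.sw {Z | Z ∈ BU ∧ P ++ Z ∈ BrR (2 ^ j - 2 ^ (jj + 1)) N}
          (fun Z => if hgt (P ++ Z) + w ≤ N then GLl (hgt (P ++ Z) - 1) (lam + 10) (P ++ Z) else 0))
        ≤ ∑' r : ℕ, min 1 ((r : ℝ≥0∞) / 2 ^ jj) * Rec8.sw (Irr r) (fun P =>
          Rec8.sw {Z | Z ∈ BU ∧ P ++ Z ∈ BrR (2 ^ j - 2 ^ (jj + 1)) (N - w)}
          (fun Z => GLl (hgt (P ++ Z) - 1) (lam + 10) (P ++ Z))) := by
          refine ENNReal.tsum_le_tsum fun r => mul_le_mul_right (Rec8.sw_mono' fun P hP => ?_) _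
          rw [Rec8.sw_ind, Rec8.sw_ind]
          refine ENNReal.tsum_le_tsum fun Z => ?_
          by_cases hZ : Z ∈ {Z | Z ∈ BU ∧ P ++ Z ∈ BrR (2 ^ j - 2 ^ (jj + 1)) N}
          · rw [if_pos hZ]
            by_cases h1 : hgt (P ++ Z) + w ≤ N
            · rw [if_pos h1, if_pos]
              · obtain ⟨hZ1, H, h2, h3, h4⟩ := hZ
                rw [hgt_eq h4] at h1
                exact ⟨hZ1, H, h2, by omega, h4⟩
            · rw [if_neg h1, mul_zero]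
              exact zero_le
          · rw [if_neg hZ]
            exact zero_le
      _ ≤ ENNReal.ofReal (K3 / Ub jj) * HHl (N - w + 2 ^ jj) (lam + 10 + lam' + 1) :=
          hsum _ _ _ _ _ (fun i hi => hQ i (by omega))
      _ ≤ _ := by
          refine mul_le_mul_right (HHl_mono ?_ (by omega)) _
          have : 2 ^ (jj + 1) = 2 * 2 ^ jj := by ring
          omega

/-- the statement EFl_le of JoinL -/
def EFlLe : Prop := ∃ K : ℝ, 1 ≤ K ∧ ∀ (D N lam : ℕ), 1 ≤ D → D ≤ N → ∀ t, EFl D N lam t ≤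
  ENNReal.ofReal K * Rec8.sw {g | g ∈ BrR D N ∧ RT D LFold t g} (fun g => 1 + GLl (hgt g - 1) (lam + 10) g)

/-- the statement sumZl of JoinL -/
def SumZl : Prop := ∃ K : ℝ, 1 ≤ K ∧ ∀ N lam, Rec8.sw (BrR 1 N) (fun g => GLl (hgt g - 1) lam g) ≤
  ENNReal.ofReal K * HHl N (lam + 1)

/-- **one step of the bootstrap** -/
theorem step1l_of (h : Inp C δ) (hA : ClsA C δ) (hS : HSumL) (hE : EFlLe) (hZ : SumZl) :
    ∃ K c : ℝ, 1 ≤ K ∧ 0 < c ∧ ∀ (c0 : ℕ) (ε : ℝ), 6 ≤ c0 → 0 < ε → ∃ C1 : ℝ, 1 ≤ C1 ∧ ∀ j N lam lam' : ℕ,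
      5 ≤ j → 2 ^ j < N → N ≤ 2 ^ (j + 2) → QL j lam' →
      zNl lam j N ≤ ENNReal.ofReal (C1 / UU N) * HHl N (lam + lam' + 12) +
        ∑ i ∈ Ico 5 (j + 1 - c0), ENNReal.ofReal (K * (2 : ℝ) ^ (-(c * ((j : ℝ) - i)))) * zl lam i +
        ENNReal.ofReal ε * (∑ i ∈ Ico (max 5 (j + 1 - c0)) j, zl lam i + zNl lam j N) := by
  obtain ⟨K0, hK0, hEF⟩ := hE
  obtain ⟨K1, c, hK1, hc, hlow⟩ := low_blkl h
  obtain ⟨KZ, hKZ, hZ⟩ := hZ
  obtain ⟨KL, hKLd⟩ : ∃ KL : ℝ, KL = 8 := ⟨_, rfl⟩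
  have hKL : 1 ≤ KL := by linarith
  obtain ⟨K2, hK2, h2s⟩ := two_scale_of (fun h => k3T h)
  refine ⟨K0 * K1, c, one_le_mul_of_one_le_of_one_le hK0 hK1, hc, fun c0 ε hc0 hε => ?_⟩
  obtain ⟨C2, J, hC2, hhigh⟩ := high_blkl h hA hS (ε / K0) (by positivity)
  obtain ⟨H5, hH5⟩ : ∃ H5 : ℝ, 0 ≤ H5 ∧ 1 + BAR.HH (2 ^ 5) = ENNReal.ofReal H5 := by
    refine ⟨(1 + BAR.HH (2 ^ 5)).toReal, ENNReal.toReal_nonneg, (ENNReal.ofReal_toReal ?_).symm⟩
    exact ENNReal.add_ne_top.2 ⟨ENNReal.one_ne_top, PLW.gf_SSt_fin _⟩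
  refine ⟨K0 * (K2 * 64 * (2 * H5) * KL + K1 * 64 * KZ + c0 * C2 + C2) + 2 * UU (2 ^ (J + 2)), ?_,
    fun j N lam lam' hj hjN hN hQ => ?_⟩
  · have h1 := Num2Aux.UU_pos (2 ^ (J + 2))
    have h0 : 1 ≤ K0 * C2 := one_le_mul_of_one_le_of_one_le hK0 hC2
    have h3 : 0 ≤ K0 * (K2 * 64 * (2 * H5) * KL + K1 * 64 * KZ + c0 * C2) := by
      have := hH5.1
      positivity
    nlinarith
  have hUN : 0 < UU N := Num2Aux.UU_pos N
  have hUk : 0 < Ub (j - 4) := Ub_pos _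
  obtain ⟨hH50, hH5⟩ := hH5
  obtain ⟨X, hX⟩ : ∃ X, X = HHl N (lam + lam' + 12) := ⟨_, rfl⟩
  rw [← hX]
  -- small j
  rcases Nat.lt_or_ge j J with hJ | hJ
  · have h1 : zNl lam j N ≤ 2 * X := by
      refine le_trans (xT_mono (Ψ := fun _ => X) fun t => ?_) (xT_const _ _ _)
      rw [hX]
      exact gf_mono fun W hW => ⟨hW.1, by have := hW.2.2.2; omega⟩
    have h2 : (2 : ℝ≥0∞) ≤ ENNReal.ofReal ((K0 * (K2 * 64 * (2 * H5) * KL + K1 * 64 * KZ + c0 * C2 + C2) +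
        2 * UU (2 ^ (J + 2))) / UU N) := by
      have e2 : (2 : ℝ≥0∞) = ENNReal.ofReal 2 := by simp
      rw [e2]
      apply ENNReal.ofReal_le_ofReal
      rw [le_div_iff₀ hUN]
      have h3 : UU N ≤ UU (2 ^ (J + 2)) := Num2Aux.UU_mono (hN.trans (Nat.pow_le_pow_right (by norm_num) (by omega)))
      have h4 : 0 ≤ K0 * (K2 * 64 * (2 * H5) * KL + K1 * 64 * KZ + c0 * C2 + C2) := by positivity
      linarith
    exact h1.trans ((mul_le_mul_left h2 X).trans (le_add_right (le_add_right le_rfl)))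
  -- ratio
  have r1 : UU N ≤ 64 * Ub (j - 4) := by
    have e := UU_ratio_up (j - 4) 6
    have e2 : j - 4 + 6 = j + 2 := by omega
    rw [e2] at e
    have e3 : UU N ≤ UU (2 ^ (j + 2)) := Num2Aux.UU_mono hN
    unfold Ub
    norm_num at e
    linarith
  have hk : j - 4 + 4 = j := by omega
  obtain ⟨D, hD⟩ : ∃ D : ℕ, D = 2 ^ j := ⟨_, rfl⟩
  obtain ⟨k, hkd⟩ : ∃ k : ℕ, k = j - 4 := ⟨_, rfl⟩
  obtain ⟨m0, hm0⟩ : ∃ m0 : ℕ, m0 = max 5 (j + 1 - c0) := ⟨_, rfl⟩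
  have hm0j : m0 ≤ j := by omega
  have hm05 : 5 ≤ m0 := by omega
  obtain ⟨L, hL⟩ : ∃ L : Finset ℕ, L = Ico 5 (j + 1 - c0) := ⟨_, rfl⟩
  obtain ⟨H, hH⟩ : ∃ H : Finset ℕ, H = Ico m0 j := ⟨_, rfl⟩
  obtain ⟨B, hB⟩ : ∃ B : ℕ → ℕ → List Bool → ℝ≥0∞, B = fun i M g => Bkl i M (hgt g - 1) lam g := ⟨_, rfl⟩
  -- decomposition
  have hpt : ∀ g ∈ BrR D N, 1 + GLl (hgt g - 1) (lam + 10) g ≤ ENNReal.ofReal H5 +
      (∑ i ∈ L, B i (2 ^ (i + 1)) g + (∑ i ∈ H, B i (2 ^ (i + 1)) g + B j N g)) := by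
    intro g hg
    have hgN : hgt g - 1 ≤ N := by
      obtain ⟨n, -, h2, h3⟩ := hg
      rw [hgt_eq h3]
      omega
    have h1 := GLl_blocks (i0 := 5) (lam := lam) hj hgN g
    have h2 : ∑ i ∈ Ico 5 j, Bkl i (2 ^ (i + 1)) (hgt g - 1) lam g =
        ∑ i ∈ L, B i (2 ^ (i + 1)) g + ∑ i ∈ H, B i (2 ^ (i + 1)) g := by
      rw [hL, hH, hB]
      have h3 : Ico 5 (j + 1 - c0) = Ico 5 m0 := by
        ext x
        simp only [Finset.mem_Ico]
        omega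
      rw [h3, Finset.sum_Ico_consecutive _ hm05 hm0j]
    rw [h2] at h1
    rw [← hH5]
    refine (add_le_add_right h1 1).trans (le_of_eq ?_)
    rw [hB]
    ring
  have hmain : zNl lam j N ≤ ENNReal.ofReal K0 * (xT D k (Op D N (fun _ => ENNReal.ofReal H5)) +
      (∑ i ∈ L, xT D k (Op D N (B i (2 ^ (i + 1)))) + (∑ i ∈ H, xT D k (Op D N (B i (2 ^ (i + 1)))) +
        xT D k (Op D N (B j N))))) := by
    have s1 : zNl lam j N ≤ xT D k (fun t => ENNReal.ofReal K0 * Op D N (fun g => ENNReal.ofReal H5 +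
      (∑ i ∈ L, B i (2 ^ (i + 1)) g + (∑ i ∈ H, B i (2 ^ (i + 1)) g + B j N g))) t) := by
      unfold zNl
      rw [← hD, ← hkd]
      refine xT_mono fun t => ?_
      refine (hEF D N lam (by rw [hD]; exact Nat.one_le_two_pow) (by rw [hD]; exact hjN.le) t).trans ?_
      exact mul_le_mul_right (Op_mono hpt t) _
    refine s1.trans ((xT_smul _ _ _ _).trans (mul_le_mul_right ?_ _))
    have s2 : ∀ t, Op D N (fun g => ENNReal.ofReal H5 +
      (∑ i ∈ L, B i (2 ^ (i + 1)) g + (∑ i ∈ H, B i (2 ^ (i + 1)) g + B j N g))) t =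
      Op D N (fun _ => ENNReal.ofReal H5) t + (∑ i ∈ L, Op D N (B i (2 ^ (i + 1))) t +
        (∑ i ∈ H, Op D N (B i (2 ^ (i + 1))) t + Op D N (B j N) t)) := by
      intro t
      rw [Op_add, Op_add, Op_add, Op_sum, Op_sum]
    refine (xT_mono fun t => (s2 t).le).trans ?_
    refine (xT_add _ _ _ _).trans (add_le_add le_rfl ((xT_add _ _ _ _).trans (add_le_add (xT_sum _ _ _ _)
      ((xT_add _ _ _ _).trans (add_le_add (xT_sum _ _ _ _) le_rfl)))))
  -- the constant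
  have hone : 1 ≤ ENNReal.ofReal (KL / UU N) * X := by
    have h1 : ENNReal.ofReal (UU (2 ^ j)) ≤ 2 * X := by
      refine (hQ j le_rfl).trans (mul_le_mul_right ?_ _)
      rw [hX]
      refine gf_mono fun W hW => ?_
      obtain ⟨⟨n, hn, hW1⟩, hW2⟩ := hW
      exact ⟨SSt_mo (hn.trans hjN.le) (BAR.Brd_SSt hW1), by omega⟩
    have h2 : UU N ≤ 4 * UU (2 ^ j) := by
      have e := UU_ratio_up j 2
      have e3 : UU N ≤ UU (2 ^ (j + 2)) := Num2Aux.UU_mono hN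
      norm_num at e
      linarith
    have h3 : ENNReal.ofReal (1 / UU N) * ENNReal.ofReal (UU N) = 1 := by
      rw [← ENNReal.ofReal_mul (by positivity), one_div_mul_cancel hUN.ne', ENNReal.ofReal_one]
    have h4 : ENNReal.ofReal (UU N) ≤ ENNReal.ofReal KL * X := by
      calc ENNReal.ofReal (UU N) ≤ ENNReal.ofReal (4 * UU (2 ^ j)) := ENNReal.ofReal_le_ofReal h2
        _ = ENNReal.ofReal 4 * ENNReal.ofReal (UU (2 ^ j)) := ENNReal.ofReal_mul (by norm_num)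
        _ ≤ ENNReal.ofReal 4 * (2 * X) := mul_le_mul_right h1 _
        _ = ENNReal.ofReal KL * X := by
            rw [hKLd, ← mul_assoc]
            congr 1
            rw [show (8 : ℝ) = 4 * 2 by norm_num, ENNReal.ofReal_mul (by norm_num)]
            simp
    calc (1 : ℝ≥0∞) = ENNReal.ofReal (1 / UU N) * ENNReal.ofReal (UU N) := h3.symm
      _ ≤ ENNReal.ofReal (1 / UU N) * (ENNReal.ofReal KL * X) := mul_le_mul_right h4 _
      _ = ENNReal.ofReal (KL / UU N) * X := by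
          rw [← mul_assoc, ← ENNReal.ofReal_mul (by positivity)]
          congr 2
          ring
  have t1 : xT D k (Op D N (fun _ => ENNReal.ofReal H5)) ≤ ENNReal.ofReal (K2 * 64 * (2 * H5) * KL / UU N) * X := by
    have h1 := h2s D k D k D N (fun _ => ENNReal.ofReal H5) (fun _ _ _ => le_rfl) (by rw [hD, hkd, hk])
      (by rw [hD, hkd, hk]) le_rfl le_rfl (by rw [hD]; exact hjN.le)
    have h2 : xT D k (Op D N (fun _ => ENNReal.ofReal H5)) ≤
        ENNReal.ofReal (K2 * 64) * (2 * ENNReal.ofReal H5) := by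
      refine h1.trans (mul_le_mul' (ENNReal.ofReal_le_ofReal ?_) (xT_const _ _ _))
      rw [hkd]
      gcongr
      rw [div_le_iff₀ hUk]
      exact r1
    have e2 : (2 : ℝ≥0∞) = ENNReal.ofReal 2 := by simp
    calc xT D k (Op D N (fun _ => ENNReal.ofReal H5)) ≤ ENNReal.ofReal (K2 * 64) * (2 * ENNReal.ofReal H5) := h2
      _ = ENNReal.ofReal (K2 * 64 * (2 * H5)) * 1 := by
          rw [e2, ← ENNReal.ofReal_mul (by norm_num), ← ENNReal.ofReal_mul (by positivity), mul_one]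
      _ ≤ ENNReal.ofReal (K2 * 64 * (2 * H5)) * (ENNReal.ofReal (KL / UU N) * X) := mul_le_mul_right hone _
      _ = _ := by
          rw [← mul_assoc, ← ENNReal.ofReal_mul (by positivity)]
          congr 2
          ring
  -- low blocks
  have t2 : ∑ i ∈ L, xT D k (Op D N (B i (2 ^ (i + 1)))) ≤ ENNReal.ofReal (K1 * 64 * KZ / UU N) * X +
      ∑ i ∈ L, ENNReal.ofReal (K1 * (2 : ℝ) ^ (-(c * ((j : ℝ) - i)))) * zl lam i := by
    calc ∑ i ∈ L, xT D k (Op D N (B i (2 ^ (i + 1)))) ≤ ∑ i ∈ L, (ENNReal.ofReal (K1 / Ub (j - 4)) *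
          Rec8.sw (BrR 1 N) (fun Z => Bkl i (2 ^ (i + 1)) (hgt Z - 1) lam Z) +
          ENNReal.ofReal (K1 * (2 : ℝ) ^ (-(c * ((j : ℝ) - i)))) * zl lam i) := by
          refine Finset.sum_le_sum fun i hi => ?_
          rw [hL, Finset.mem_Ico] at hi
          rw [hD, hkd, hB]
          exact hlow i j N lam (by omega) (by omega) hjN.le
      _ = ENNReal.ofReal (K1 / Ub (j - 4)) * Rec8.sw (BrR 1 N) (fun Z => ∑ i ∈ L, Bkl i (2 ^ (i + 1)) (hgt Z - 1) lam Z) +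
          ∑ i ∈ L, ENNReal.ofReal (K1 * (2 : ℝ) ^ (-(c * ((j : ℝ) - i)))) * zl lam i := by
          rw [Finset.sum_add_distrib, Rec8.sw_sum, Finset.mul_sum]
      _ ≤ ENNReal.ofReal (K1 * 64 / UU N) * (ENNReal.ofReal KZ * X) +
          ∑ i ∈ L, ENNReal.ofReal (K1 * (2 : ℝ) ^ (-(c * ((j : ℝ) - i)))) * zl lam i := by
          refine add_le_add (mul_le_mul' (ENNReal.ofReal_le_ofReal ?_) ?_) le_rfl
          · rw [div_le_div_iff₀ hUk hUN]
            calc K1 * UU N ≤ K1 * (64 * Ub (j - 4)) := by gcongr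
              _ = _ := by ring
          · rw [hX]
            exact (Rec8.sw_mono' fun g _ => sum_Bkl_le L (hgt g - 1) lam g).trans ((hZ N (lam + 10)).trans
              (mul_le_mul_right (HHl_mono le_rfl (by omega)) _))
      _ = _ := by
          rw [← mul_assoc, ← ENNReal.ofReal_mul (by positivity)]
          congr 3
          ring
  -- high blocks
  have t3 : ∑ i ∈ H, xT D k (Op D N (B i (2 ^ (i + 1)))) ≤ ENNReal.ofReal (c0 * C2 / UU N) * X +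
      ENNReal.ofReal (ε / K0) * ∑ i ∈ H, zl lam i := by
    calc ∑ i ∈ H, xT D k (Op D N (B i (2 ^ (i + 1)))) ≤ ∑ i ∈ H, (ENNReal.ofReal (C2 / UU N) * X +
          ENNReal.ofReal (ε / K0) * zl lam i) := by
          refine Finset.sum_le_sum fun i hi => ?_
          rw [hH, Finset.mem_Ico] at hi
          rw [hD, hkd, hB, hX]
          exact hhigh i j (2 ^ (i + 1)) N lam lam' hQ (by omega) (by omega) hJ hjN.le hN
      _ = (H.card : ℝ≥0∞) * (ENNReal.ofReal (C2 / UU N) * X) + ENNReal.ofReal (ε / K0) * ∑ i ∈ H, zl lam i := by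
          rw [Finset.sum_add_distrib, Finset.sum_const, nsmul_eq_mul, Finset.mul_sum]
      _ ≤ _ := by
          refine add_le_add ?_ le_rfl
          have h1 : H.card ≤ c0 := by
            rw [hH, Nat.card_Ico]
            omega
          have h2 : (H.card : ℝ≥0∞) ≤ ENNReal.ofReal (c0 : ℝ) := by
            rw [ENNReal.ofReal_natCast]
            exact_mod_cast h1
          rw [← mul_assoc]
          refine mul_le_mul_left ?_ X
          calc (H.card : ℝ≥0∞) * ENNReal.ofReal (C2 / UU N) ≤ ENNReal.ofReal (c0 : ℝ) * ENNReal.ofReal (C2 / UU N) := by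
                gcongr
            _ = ENNReal.ofReal (c0 * C2 / UU N) := by
                rw [← ENNReal.ofReal_mul (by positivity)]
                congr 1
                ring
  have t4 : xT D k (Op D N (B j N)) ≤ ENNReal.ofReal (C2 / UU N) * X + ENNReal.ofReal (ε / K0) * zNl lam j N := by
    rw [hD, hkd, hB, hX]
    exact hhigh j j N N lam lam' hQ (by omega) le_rfl hJ hjN.le hN
  refine hmain.trans ((mul_le_mul_right (add_le_add t1 (add_le_add t2 (add_le_add t3 t4))) _).trans ?_)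
  have e1 : ∑ i ∈ L, ENNReal.ofReal (K0 * K1 * (2 : ℝ) ^ (-(c * ((j : ℝ) - i)))) * zl lam i =
      ENNReal.ofReal K0 * ∑ i ∈ L, ENNReal.ofReal (K1 * (2 : ℝ) ^ (-(c * ((j : ℝ) - i)))) * zl lam i := by
    rw [Finset.mul_sum]
    refine Finset.sum_congr rfl fun i _ => ?_
    rw [← mul_assoc, ← ENNReal.ofReal_mul (by positivity)]
    congr 2
    ring
  have e2 : ENNReal.ofReal ε = ENNReal.ofReal K0 * ENNReal.ofReal (ε / K0) := by
    rw [← ENNReal.ofReal_mul (by positivity)]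
    congr 1
    field_simp
  have e3 : ENNReal.ofReal K0 * (ENNReal.ofReal (K2 * 64 * (2 * H5) * KL / UU N) +
      ENNReal.ofReal (K1 * 64 * KZ / UU N) + ENNReal.ofReal (c0 * C2 / UU N) + ENNReal.ofReal (C2 / UU N)) ≤
      ENNReal.ofReal ((K0 * (K2 * 64 * (2 * H5) * KL + K1 * 64 * KZ + c0 * C2 + C2) + 2 * UU (2 ^ (J + 2))) / UU N) := by
    rw [← ENNReal.ofReal_add (by positivity) (by positivity), ← ENNReal.ofReal_add (by positivity) (by positivity),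
      ← ENNReal.ofReal_add (by positivity) (by positivity), ← ENNReal.ofReal_mul (by positivity)]
    apply ENNReal.ofReal_le_ofReal
    have h1 := Num2Aux.UU_pos (2 ^ (J + 2))
    have e4 : K0 * (K2 * 64 * (2 * H5) * KL / UU N + K1 * 64 * KZ / UU N + c0 * C2 / UU N + C2 / UU N) =
        K0 * (K2 * 64 * (2 * H5) * KL + K1 * 64 * KZ + c0 * C2 + C2) / UU N := by ring
    rw [e4]
    gcongr
    linarith
  rw [← hm0, ← hH, ← hL, e1, e2]
  refine le_trans (le_of_eq ?_) (add_le_add (add_le_add (mul_le_mul_left e3 X) le_rfl) le_rfl)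
  ring

end NTW

end HexObs
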