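import Pool.Agent.BAR.HCut
import Pool.Agent.TightN.SNum
import Pool.Agent.TightS.SBasic
import Pool.Agent.Tight.LeafArcs
import Pool.Agent.NTW.DefsW

/-!
NTW, block (A), module HSum: half plane words whose first leaf starts with an irreducible bridge of height r, with
the weight r: bridges of height at most R are put in front.
-/

set_option autoImplicit false

namespace HexObs

namespace NTW

open Finset ENNReal BAR TS SDN

/-- half plane words of the strip of height N that start with an irreducible bridge of height r -/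
def HI (N r : ℕ) : Set (List Bool) := {w | w ∈ SSt N ∧ ∃ P ∈ Irr r, ∃ s, Pos s ∧ w = P ++ s}

/-- a bridge of height h in front -/
def HIb (N h r : ℕ) : Set (List Bool) := {t | ∃ x ∈ Brd h, ∃ w ∈ HI N r, t = x ++ w}

lemma brd_zero_nil {v : List Bool} (h : v ∈ Brd 0) : v = [] := by
  rw [Brd_zero] at h
  exact h

/-- irreducible bridges at the beginning of the same word -/
lemma irr_pref {r a : ℕ} {P s v u : List Bool} (hP : P ∈ Irr r) (hs : Pos s) (hv : v ∈ Brd a) (hu : Pos u)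
    (ha : 1 ≤ a) (h : P ++ s = v ++ u) : r ≤ a := by
  by_contra hlt
  push Not at hlt
  obtain ⟨z, hz, h1, -⟩ := BAR.nested hv hP.1 hu hs hlt.le h.symm
  rcases hP.2.2 a (r - a) v z hv hz h1 with h2 | h2
  · rw [h2] at hv
    have := Brd_height hv nil_mem_Brd
    omega
  · rw [h2] at hz
    have := Brd_height hz nil_mem_Brd
    omega

lemma irr_pos {r : ℕ} {P : List Bool} (hP : P ∈ Irr r) : 1 ≤ r := by
  by_contra h
  have h0 : r = 0 := by omega
  rw [h0] at hP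
  exact hP.2.1 (brd_zero_nil hP.1)

lemma pos_cat {a : ℕ} {v u : List Bool} (hv : v ∈ Brd a) (hu : Pos u) : Pos (v ++ u) := by
  intro i h1 h2
  by_cases h : i ≤ v.length
  · rw [lev_append (by omega)]
    exact pos_Brd hv i h1 h
  · have := BAR.beyond hv hu (i := i) (by omega) h2
    omega

/-- two positions of the irreducible bridge in the same word -/
lemma HIb_gap {N h h' r r' : ℕ} {t : List Bool} (h1 : t ∈ HIb N h r) (h2 : t ∈ HIb N h' r') (hh : h < h') :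
    h + r ≤ h' := by
  obtain ⟨x, hx, w, ⟨hw, P, hP, s, hs, rfl⟩, rfl⟩ := h1
  obtain ⟨x', hx', w', ⟨hw', P', hP', s', hs', rfl⟩, he⟩ := h2
  have p1 : Pos (P ++ s) := pos_cat hP.1 hs
  have p2 : Pos (P' ++ s') := pos_cat hP'.1 hs'
  obtain ⟨v, hv, h3, h4⟩ := BAR.nested hx hx' p1 p2 hh.le he
  have := irr_pref hP hs hv p2 (by omega) h4
  omega

lemma HIb_unique {N h r r' : ℕ} {t : List Bool} (h1 : t ∈ HIb N h r) (h2 : t ∈ HIb N h r') : r = r' := by
  obtain ⟨x, hx, w, ⟨hw, P, hP, s, hs, rfl⟩, rfl⟩ := h1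
  obtain ⟨x', hx', w', ⟨hw', P', hP', s', hs', rfl⟩, he⟩ := h2
  have p1 : Pos (P ++ s) := pos_cat hP.1 hs
  have p2 : Pos (P' ++ s') := pos_cat hP'.1 hs'
  obtain ⟨v, hv, h3, h4⟩ := BAR.nested hx hx' p1 p2 le_rfl he
  rw [Nat.sub_self] at hv
  have hv0 := brd_zero_nil hv
  rw [hv0, List.nil_append] at h4
  exact le_antisymm (irr_pref hP hs hP'.1 hs' (irr_pos hP') h4) (irr_pref hP' hs' hP.1 hs (irr_pos hP) h4.symm)

lemma HIb_SSt {N h r : ℕ} {t : List Bool} (h1 : t ∈ HIb N h r) : t ∈ SSt (h + N) := by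
  obtain ⟨x, hx, w, hw, rfl⟩ := h1
  exact SSt_cat hx hw.1

lemma gf_HIb (N h r : ℕ) : gf (Brd h) * gf (HI N r) ≤ gf (HIb N h r) := by
  refine mul_le_gf (fun a ha b hb => ⟨a, ha, b, hb, rfl⟩) ?_
  intro a ha b hb a' ha' b' hb' he
  obtain ⟨v, hv, h3, h4⟩ := BAR.nested ha ha' (pos_SSt hb.1) (pos_SSt hb'.1) le_rfl he
  rw [Nat.sub_self] at hv
  have hv0 := brd_zero_nil hv
  rw [h3, hv0, List.append_nil]

/-- disjoint intervals -/
lemma gap_sum (S : Finset ℕ) (f : ℕ → ℕ) (hf : ∀ a ∈ S, ∀ b ∈ S, a < b → a + f a ≤ b) :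
    ∀ n ∈ S, ∑ a ∈ S.filter (· < n), f a ≤ n := by
  intro n
  induction n using Nat.strong_induction_on with
  | _ n ih =>
    intro hn
    rcases (S.filter (· < n)).eq_empty_or_nonempty with h | h
    · rw [h]
      simp
    · obtain ⟨m, hm, hmax⟩ := (S.filter (· < n)).exists_max_image id h
      rw [mem_filter] at hm
      have e : S.filter (· < n) = insert m (S.filter (· < m)) := by
        ext x
        rw [mem_insert, mem_filter, mem_filter]
        constructor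
        · intro hx
          have := hmax x (mem_filter.2 hx)
          simp only [id] at this
          rcases this.lt_or_eq with h1 | h1
          · exact Or.inr ⟨hx.1, h1⟩
          · exact Or.inl h1
        · rintro (rfl | hx)
          · exact hm
          · exact ⟨hx.1, hx.2.trans hm.2⟩
      rw [e, sum_insert (by simp)]
      have h1 := ih m hm.2 hm.1
      have h2 := hf m hm.1 n hn hm.2
      omega

lemma gap_min (S : Finset ℕ) (f : ℕ → ℕ) (hf : ∀ a ∈ S, ∀ b ∈ S, a < b → a + f a ≤ b) (j H : ℕ)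
    (hS : ∀ a ∈ S, a ≤ H) :
    ∑ a ∈ S, min 1 ((f a : ℝ≥0∞) / 2 ^ j) ≤ (H : ℝ≥0∞) / 2 ^ j + 1 := by
  rcases S.eq_empty_or_nonempty with h | h
  · rw [h]
    simp
  · obtain ⟨m, hm, hmax⟩ := S.exists_max_image id h
    have e : S = insert m (S.filter (· < m)) := by
      ext x
      rw [mem_insert, mem_filter]
      constructor
      · intro hx
        have := hmax x hx
        simp only [id] at this
        rcases this.lt_or_eq with h1 | h1
        · exact Or.inr ⟨hx, h1⟩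
        · exact Or.inl h1
      · rintro (rfl | hx)
        · exact hm
        · exact hx.1
    rw [e, sum_insert (by simp), add_comm]
    refine add_le_add ?_ (min_le_left _ _)
    calc ∑ a ∈ S.filter (· < m), min 1 ((f a : ℝ≥0∞) / 2 ^ j)
        ≤ ∑ a ∈ S.filter (· < m), (f a : ℝ≥0∞) / 2 ^ j := sum_le_sum fun a _ => min_le_right _ _
      _ = ((∑ a ∈ S.filter (· < m), f a : ℕ) : ℝ≥0∞) / 2 ^ j := by
          push_cast
          simp only [div_eq_mul_inv]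
          rw [sum_mul]
      _ ≤ (H : ℝ≥0∞) / 2 ^ j := by
          refine ENNReal.div_le_div_right ?_ _
          exact_mod_cast (gap_sum S f hf m hm).trans (hS m hm)

/-- disjoint intervals in an interval of length N -/
lemma gap_card (S : Finset ℕ) (f : ℕ → ℕ) (hf : ∀ a ∈ S, ∀ b ∈ S, a < b → a + f a ≤ b) (H N : ℕ)
    (h1 : ∀ a ∈ S, a + f a ≤ H) (h2 : ∀ a ∈ S, H ≤ a + N) : ∑ a ∈ S, f a ≤ N := by
  have hd : (S : Set ℕ).PairwiseDisjoint (fun a => Ico a (a + f a)) := by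
    intro a ha b hb hab
    rw [Function.onFun, disjoint_left]
    intro x hx hx'
    rw [mem_Ico] at hx hx'
    rcases lt_or_gt_of_ne hab with h | h
    · have := hf a ha b hb h
      omega
    · have := hf b hb a ha h
      omega
  calc ∑ a ∈ S, f a = ∑ a ∈ S, (Ico a (a + f a)).card := sum_congr rfl fun a _ => by simp
    _ = (S.biUnion fun a => Ico a (a + f a)).card := (card_biUnion hd).symm
    _ ≤ (Ico (H - N) H).card := by
        refine card_le_card fun x hx => ?_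
        obtain ⟨a, ha, hx⟩ := mem_biUnion.1 hx
        rw [mem_Ico] at hx ⊢
        have := h1 a ha
        have := h2 a ha
        omega
    _ ≤ N := by
        rw [Nat.card_Ico]
        omega

open Classical in
/-- the positions of the irreducible bridge in one word -/
lemma pos_fun (A : ℕ → ℕ → Set (List Bool)) (t : List Bool) (T : List Bool) (N M : ℕ)
    (hA : ∀ h r, t ∈ A h r → T ∈ HIb N h r) (w : ℕ → ℝ≥0∞) :
    ∃ (S : Finset ℕ) (f : ℕ → ℕ), S ⊆ range M ∧ (∀ h ∈ S, t ∈ A h (f h)) ∧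
      (∀ a ∈ S, ∀ b ∈ S, a < b → a + f a ≤ b) ∧
      ∑ h ∈ range M, ∑' r : ℕ, (if t ∈ A h r then w r else 0) = ∑ h ∈ S, w (f h) := by
  set S := (range M).filter fun h => ∃ r, t ∈ A h r with hS
  choose! f hf using fun (h : ℕ) (hh : h ∈ S) => (mem_filter.1 hh).2
  refine ⟨S, f, filter_subset _ _, hf, fun a ha b hb hab => HIb_gap (hA _ _ (hf a ha)) (hA _ _ (hf b hb)) hab, ?_⟩
  have h1 : ∀ h ∈ range M, (∑' r : ℕ, (if t ∈ A h r then w r else 0)) = if h ∈ S then w (f h) else 0 := by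
    intro h hh
    by_cases hm : h ∈ S
    · rw [if_pos hm, tsum_eq_single (f h)]
      · rw [if_pos (hf h hm)]
      · intro r hr
        rw [if_neg]
        intro hr'
        exact hr (HIb_unique (hA _ _ hr') (hA _ _ (hf h hm)))
    · rw [if_neg hm, ENNReal.tsum_eq_zero]
      intro r
      rw [if_neg]
      intro hr
      exact hm (mem_filter.2 ⟨hh, r, hr⟩)
  rw [sum_congr rfl h1, ← sum_filter]
  refine sum_congr ?_ fun _ _ => rfl
  ext x
  rw [mem_filter]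
  exact ⟨fun h => h.2, fun h => ⟨(mem_filter.1 h).1, h⟩⟩

open Classical in
/-- the number of the positions, with the weight min 1 (r / 2 ^ j) -/
lemma count_min (A : ℕ → ℕ → Set (List Bool)) (t : List Bool) (N j : ℕ)
    (hA : ∀ h r, t ∈ A h r → ∃ T, ∀ h' r', t ∈ A h' r' → T ∈ HIb N h' r') :
    ∑ h ∈ range (2 ^ j + 1), ∑' r : ℕ, (if t ∈ A h r then min 1 ((r : ℝ≥0∞) / 2 ^ j) else 0) ≤ 2 := by
  by_cases hex : ∃ h r, t ∈ A h r
  · obtain ⟨h0, r0, ht0⟩ := hex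
    obtain ⟨T, hT⟩ := hA h0 r0 ht0
    obtain ⟨S, f, hS, h1, h2, h3⟩ := pos_fun A t T N (2 ^ j + 1) hT (fun r => min 1 ((r : ℝ≥0∞) / 2 ^ j))
    rw [h3]
    refine (gap_min S f h2 j (2 ^ j) ?_).trans ?_
    · intro a ha
      have := mem_range.1 (hS ha)
      omega
    · push_cast
      rw [ENNReal.div_self (by positivity) (ENNReal.pow_ne_top (by norm_num))]
      norm_num
  · push Not at hex
    rw [sum_eq_zero]
    · exact zero_le
    · intro h _
      rw [ENNReal.tsum_eq_zero]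
      intro r
      rw [if_neg (hex h r)]

open Classical in
/-- the number of the positions, with the weight r -/
lemma count_id (A : ℕ → ℕ → Set (List Bool)) (t : List Bool) (N M : ℕ)
    (hA : ∀ h r, t ∈ A h r → ∃ T H, ∀ h' r', t ∈ A h' r' → T ∈ HIb N h' r' ∧ h' + r' ≤ H ∧ H ≤ h' + N) :
    ∑ h ∈ range M, ∑' r : ℕ, (if t ∈ A h r then (r : ℝ≥0∞) else 0) ≤ N := by
  by_cases hex : ∃ h r, t ∈ A h r
  · obtain ⟨h0, r0, ht0⟩ := hex
    obtain ⟨T, H, hT⟩ := hA h0 r0 ht0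
    obtain ⟨S, f, hS, h1, h2, h3⟩ := pos_fun A t T N M (fun h r hr => (hT h r hr).1) (fun r => (r : ℝ≥0∞))
    rw [h3]
    have h4 := gap_card S f h2 H N (fun a ha => (hT _ _ (h1 a ha)).2.1) (fun a ha => (hT _ _ (h1 a ha)).2.2)
    exact_mod_cast h4
  · push Not at hex
    rw [sum_eq_zero]
    · exact zero_le
    · intro h _
      rw [ENNReal.tsum_eq_zero]
      intro r
      rw [if_neg (hex h r)]

open Classical in
/-- product form, abstract -/
theorem prod_form (N R : ℕ) (w : ℕ → ℝ≥0∞) (c : ℝ≥0∞) (W : ℕ → Set (List Bool)) (A : ℕ → ℕ → Set (List Bool))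
    (h1 : ∀ h r, gf (Brd h) * gf (W r) ≤ gf (A h r)) (h2 : ∀ h r, A h r ⊆ SSt (h + N))
    (h3 : ∀ t, ∑ h ∈ range (R + 1), ∑' r : ℕ, (if t ∈ A h r then w r else 0) ≤ c) :
    ENNReal.ofReal (UU R) * ∑' r : ℕ, w r * gf (W r) ≤ c * HH (N + R) := by
  have hgf : ∀ P : Set (List Bool), gf P = ∑' t : List Bool, if t ∈ P then wE t else 0 := by
    intro P
    unfold gf
    rw [tsum_subtype P wE]
    exact tsum_congr fun t => by simp only [Set.indicator_apply]
  have hU : ENNReal.ofReal (UU R) = ∑ h ∈ range (R + 1), gf (Brd h) := by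
    rw [← sum_BT R]
    exact sum_congr rfl fun r _ => (gf_Brd r).symm
  calc ENNReal.ofReal (UU R) * ∑' r : ℕ, w r * gf (W r)
      = ∑ h ∈ range (R + 1), ∑' r : ℕ, w r * (gf (Brd h) * gf (W r)) := by
        rw [hU, sum_mul]
        refine sum_congr rfl fun h _ => ?_
        rw [← ENNReal.tsum_mul_left]
        exact tsum_congr fun r => by ring
    _ ≤ ∑ h ∈ range (R + 1), ∑' r : ℕ, w r * gf (A h r) :=
        sum_le_sum fun h _ => ENNReal.tsum_le_tsum fun r => mul_le_mul_right (h1 h r) _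
    _ = ∑ h ∈ range (R + 1), ∑' r : ℕ, ∑' t : List Bool, wE t * (if t ∈ A h r then w r else 0) := by
        refine sum_congr rfl fun h _ => tsum_congr fun r => ?_
        rw [hgf, ← ENNReal.tsum_mul_left]
        refine tsum_congr fun t => ?_
        split_ifs
        · ring
        · rw [mul_zero, mul_zero]
    _ = ∑' t : List Bool, wE t * ∑ h ∈ range (R + 1), ∑' r : ℕ, (if t ∈ A h r then w r else 0) := by
        simp only [ENNReal.tsum_comm (α := ℕ) (β := List Bool)]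
        rw [← Summable.tsum_finsetSum fun i _ => ENNReal.summable]
        refine tsum_congr fun t => ?_
        rw [mul_sum]
        exact sum_congr rfl fun h _ => ENNReal.tsum_mul_left
    _ ≤ ∑' t : List Bool, (if t ∈ SSt (N + R) then wE t else 0) * c := by
        refine ENNReal.tsum_le_tsum fun t => ?_
        by_cases ht : t ∈ SSt (N + R)
        · rw [if_pos ht]
          exact mul_le_mul_right (h3 t) _
        · have h0 : ∑ h ∈ range (R + 1), ∑' r : ℕ, (if t ∈ A h r then w r else 0) = 0 := by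
            refine sum_eq_zero fun h hh => ?_
            rw [ENNReal.tsum_eq_zero]
            intro r
            rw [if_neg]
            intro hr
            exact ht (SSt_mono (by have := mem_range.1 hh; omega) (h2 h r hr))
          rw [h0, mul_zero]
          exact zero_le
    _ = c * HH (N + R) := by
        rw [ENNReal.tsum_mul_right, mul_comm]
        unfold HH
        rw [hgf]

lemma joi_len {g W : List Bool} {h : ℕ} (hg : g ∈ Brd h) (hh : 1 ≤ h) : (joi g W).length = g.length + 1 + W.length :=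
  (unf_step (r := W) hg hh).1

lemma joi_lev_le {g W : List Bool} {h : ℕ} (hg : g ∈ Brd h) (hh : 1 ≤ h) {i : ℕ} (hi : i ≤ g.length) :
    lev (joi g W) i = lev g i := ((unf_step_lev (r := W) hg hh).1 i hi).1

lemma joi_lev_gt {g W : List Bool} {h : ℕ} (hg : g ∈ Brd h) (hh : 1 ≤ h) (hW : Pos W) {i : ℕ} (h1 : g.length < i)
    (h2 : i ≤ (joi g W).length) : lev (joi g W) i < 3 * h := by
  rw [joi_len hg hh] at h2
  obtain ⟨j, rfl⟩ : ∃ j, i = g.length + 1 + j := ⟨i - g.length - 1, by omega⟩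
  have h3 := ((unf_step_lev (r := W) hg hh).2 j).1
  have h4 : lev (joi g W) (g.length + 1 + j) = 3 * h - 1 - lev W j := h3
  rw [h4]
  rcases Nat.eq_zero_or_pos j with h0 | h0
  · rw [h0, lev_zero]
    omega
  · have := hW j h0 (by omega)
    omega

/-- the leaf is determined by the word -/
lemma joi_uniq {g W g' W' : List Bool} {h h' : ℕ} (hg : g ∈ Brd h) (hh : 1 ≤ h) (hW : Pos W) (hg' : g' ∈ Brd h')
    (hh' : 1 ≤ h') (hW' : Pos W') (e : joi g W = joi g' W') : g = g' ∧ W = W' := by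
  have key : ∀ {g W g' W' : List Bool} {h h' : ℕ}, g ∈ Brd h → 1 ≤ h → Pos W → g' ∈ Brd h' → 1 ≤ h' → Pos W' →
      joi g W = joi g' W' → g.length ≤ g'.length := by
    intro g W g' W' h h' hg hh hW hg' hh' hW' e
    by_contra hlt
    push Not at hlt
    have h1 : lev (joi g W) g.length = 3 * h := by
      rw [joi_lev_le hg hh le_rfl]
      exact (mem_Brd.1 hg).2.2.2
    have h2 : lev (joi g' W') g'.length = 3 * h' := by
      rw [joi_lev_le hg' hh' le_rfl]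
      exact (mem_Brd.1 hg').2.2.2
    have h3 := joi_lev_gt hg' hh' hW' hlt (by rw [← e, joi_len hg hh]; omega)
    rw [← e, h1] at h3
    rw [← e, joi_lev_le hg hh hlt.le] at h2
    rcases Nat.eq_zero_or_pos g'.length with h0 | h0
    · rw [h0, lev_zero] at h2
      omega
    · have := ((mem_Brd.1 hg).1 g'.length h0 hlt.le).2
      omega
  have hlen : g.length = g'.length := le_antisymm (key hg hh hW hg' hh' hW' e) (key hg' hh' hW' hg hh hW e.symm)
  have hne := Brd_ne_nil hg hh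
  have hne' := Brd_ne_nil hg' hh'
  have hd : g.dropLast.length = g'.dropLast.length := by
    rw [List.length_dropLast, List.length_dropLast, hlen]
  have e2 : g.dropLast ++ ((!lst g) :: (!lst g) :: W) = g'.dropLast ++ ((!lst g') :: (!lst g') :: W') := e
  obtain ⟨e3, e4⟩ := List.append_inj e2 hd
  simp only [List.cons.injEq] at e4
  obtain ⟨e5, -, e6⟩ := e4
  have e7 : lst g = lst g' := by
    revert e5
    cases lst g <;> cases lst g' <;> simp
  refine ⟨?_, e6⟩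
  rw [split_lst hne, split_lst hne', e3, e7]

lemma joi_cat {x g : List Bool} (hg : g ≠ []) (W : List Bool) : joi (x ++ g) W = x ++ joi g W := by
  have h1 : lst (x ++ g) = lst g := by
    rw [split_lst hg, ← List.append_assoc, lst_append, lst_append]
  unfold joi
  rw [List.dropLast_append_of_ne_nil hg, h1, List.append_assoc]

lemma wE_joi {g W : List Bool} {h : ℕ} (hg : g ∈ Brd h) (hh : 1 ≤ h) :
    wE (joi g W) = ENNReal.ofReal xc * (wE g * wE W) := by
  rw [wE_eq_pow, wE_eq_pow, wE_eq_pow, joi_len hg hh, pow_add, pow_add, pow_one]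
  ring

/-- the leaf P ++ Z and a half plane word W that hangs at its end -/
def TJ (E N r : ℕ) (x : List Bool × List Bool × List Bool) : Prop :=
  x.1 ∈ Irr r ∧ (x.2.1 ∈ BU ∧ x.1 ++ x.2.1 ∈ BrR E N) ∧
    (x.2.2 ∈ SSt (hgt (x.1 ++ x.2.1) - 1) ∧ LFold (x.1 ++ x.2.1) x.2.2)

/-- their words -/
def WJ (E N r : ℕ) : Set (List Bool) := {w | ∃ x, TJ E N r x ∧ w = joi (x.1 ++ x.2.1) x.2.2}

lemma TJ_brd {E N r : ℕ} {x : List Bool × List Bool × List Bool} (h : TJ E N r x) :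
    ∃ k, 1 ≤ k ∧ k ≤ N ∧ x.1 ++ x.2.1 ∈ Brd k ∧ x.2.2 ∈ SSt (k - 1) := by
  obtain ⟨h1, ⟨h2, k, -, hk, h3⟩, h4, -⟩ := h
  obtain ⟨z, hz⟩ := h2
  have h5 : k = r + z := Brd_height h3 (Brd_append h1.1 hz)
  have := irr_pos h1
  rw [hgt_eq h3] at h4
  exact ⟨k, by omega, hk, h3, h4⟩

lemma sw_TJ (E N r : ℕ) :
    Rec8.sw (Irr r) (fun P => Rec8.sw {Z | Z ∈ BU ∧ P ++ Z ∈ BrR E N} (fun Z => GLf (hgt (P ++ Z) - 1) (P ++ Z))) =
      ∑' x : {x // TJ E N r x}, wE x.1.1 * (wE x.1.2.1 * wE x.1.2.2) := by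
  classical
  have hgf : ∀ P : Set (List Bool), gf P = ∑' t : List Bool, if t ∈ P then wE t else 0 := by
    intro P
    unfold gf
    rw [tsum_subtype P wE]
    exact tsum_congr fun t => by simp only [Set.indicator_apply]
  have e0 : (∑' x : {x // TJ E N r x}, wE x.1.1 * (wE x.1.2.1 * wE x.1.2.2)) =
    ∑' x : List Bool × List Bool × List Bool, if TJ E N r x then wE x.1 * (wE x.2.1 * wE x.2.2) else 0 := by
      refine (tsum_subtype {x | TJ E N r x} (fun x => wE x.1 * (wE x.2.1 * wE x.2.2))).trans ?_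
      exact tsum_congr fun t => by simp only [Set.indicator_apply, Set.mem_ofPred_eq]
  rw [e0]
  rw [ENNReal.tsum_prod', Rec8.sw_ind]
  refine tsum_congr fun P => ?_
  rw [ENNReal.tsum_prod']
  by_cases hP : P ∈ Irr r
  · rw [if_pos hP, Rec8.sw_ind, ← ENNReal.tsum_mul_left]
    refine tsum_congr fun Z => ?_
    by_cases hZ : Z ∈ BU ∧ P ++ Z ∈ BrR E N
    · have hZ' : Z ∈ {Z | Z ∈ BU ∧ P ++ Z ∈ BrR E N} := hZ
      rw [if_pos hZ']
      unfold GLf
      rw [hgf, ← ENNReal.tsum_mul_left, ← ENNReal.tsum_mul_left]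
      refine tsum_congr fun W => ?_
      by_cases hW : W ∈ SSt (hgt (P ++ Z) - 1) ∧ LFold (P ++ Z) W
      · have hW' : W ∈ {W | W ∈ SSt (hgt (P ++ Z) - 1) ∧ LFold (P ++ Z) W} := hW
        have h3 : TJ E N r (P, Z, W) := ⟨hP, hZ, hW⟩
        rw [if_pos hW', if_pos h3]
      · have hW' : W ∉ {W | W ∈ SSt (hgt (P ++ Z) - 1) ∧ LFold (P ++ Z) W} := hW
        have h3 : ¬ TJ E N r (P, Z, W) := fun h => hW h.2.2
        rw [if_neg hW', if_neg h3, mul_zero, mul_zero]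
    · have hZ' : Z ∉ {Z | Z ∈ BU ∧ P ++ Z ∈ BrR E N} := hZ
      rw [if_neg hZ', mul_zero]
      symm
      rw [ENNReal.tsum_eq_zero]
      intro W
      rw [if_neg]
      exact fun h => hZ h.2.1
  · rw [if_neg hP]
    symm
    rw [ENNReal.tsum_eq_zero]
    intro Z
    rw [ENNReal.tsum_eq_zero]
    intro W
    rw [if_neg]
    exact fun h => hP h.1

lemma sw_le_WJ (E N r : ℕ) : ENNReal.ofReal xc *
    Rec8.sw (Irr r) (fun P => Rec8.sw {Z | Z ∈ BU ∧ P ++ Z ∈ BrR E N} (fun Z => GLf (hgt (P ++ Z) - 1) (P ++ Z))) ≤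
      gf (WJ E N r) := by
  rw [sw_TJ, ← ENNReal.tsum_mul_left]
  let ψ : {x // TJ E N r x} → {w // w ∈ WJ E N r} := fun x => ⟨joi (x.1.1 ++ x.1.2.1) x.1.2.2, x.1, x.2, rfl⟩
  have hψ : Function.Injective ψ := by
    rintro ⟨⟨P, Z, W⟩, hx⟩ ⟨⟨P', Z', W'⟩, hx'⟩ he
    have he' : joi (P ++ Z) W = joi (P' ++ Z') W' := congrArg Subtype.val he
    obtain ⟨k, hk, -, hb, hW⟩ := TJ_brd hx
    obtain ⟨k', hk', -, hb', hW'⟩ := TJ_brd hx'
    obtain ⟨e1, e2⟩ := joi_uniq hb hk (pos_SSt hW) hb' hk' (pos_SSt hW') he'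
    obtain ⟨z, hz⟩ := hx.2.1.1
    obtain ⟨z', hz'⟩ := hx'.2.1.1
    obtain ⟨v, hv, e3, e4⟩ := BAR.nested hx.1.1 hx'.1.1 (pos_Brd hz) (pos_Brd hz') le_rfl e1
    rw [Nat.sub_self] at hv
    have hv0 := brd_zero_nil hv
    rw [hv0, List.append_nil] at e3
    rw [hv0, List.nil_append] at e4
    apply Subtype.ext
    exact Prod.ext e3.symm (Prod.ext e4 e2)
  calc ∑' x : {x // TJ E N r x}, ENNReal.ofReal xc * (wE x.1.1 * (wE x.1.2.1 * wE x.1.2.2))
      = ∑' x : {x // TJ E N r x}, wE (ψ x).1 := by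
        refine tsum_congr fun x => ?_
        obtain ⟨k, hk, -, hb, -⟩ := TJ_brd x.2
        show _ = wE (joi (x.1.1 ++ x.1.2.1) x.1.2.2)
        rw [wE_joi hb hk, wE_append]
        ring
    _ ≤ gf (WJ E N r) := ENNReal.tsum_comp_le_tsum_of_injective hψ (fun w : {w // w ∈ WJ E N r} => wE w.1)

/-- a bridge of height h in front -/
def WJb (E N h r : ℕ) : Set (List Bool) := {t | ∃ x ∈ Brd h, ∃ w ∈ WJ E N r, t = x ++ w}

/-- the words of leaves with hanging half plane words are half plane words -/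
def JoiMem : Prop := ∀ {h : ℕ} {g W : List Bool}, g ∈ Brd h → 1 ≤ h → W ∈ SSt (h - 1) → LFold g W → joi g W ∈ SSt h

lemma WJ_SSt (H : JoiMem) {E N r : ℕ} {w : List Bool} (hw : w ∈ WJ E N r) : w ∈ SSt N := by
  obtain ⟨x, hx, rfl⟩ := hw
  obtain ⟨k, hk, hkN, hb, hW⟩ := TJ_brd hx
  exact SSt_mono hkN (H hb hk hW hx.2.2.2)

lemma WJb_SSt (H : JoiMem) {E N h r : ℕ} {t : List Bool} (ht : t ∈ WJb E N h r) : t ∈ SSt (h + N) := by
  obtain ⟨x, hx, w, hw, rfl⟩ := ht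
  exact SSt_cat hx (WJ_SSt H hw)

lemma gf_front {W : Set (List Bool)} (hW : ∀ w ∈ W, Pos w) (h : ℕ) :
    gf (Brd h) * gf W ≤ gf {t | ∃ x ∈ Brd h, ∃ w ∈ W, t = x ++ w} := by
  refine mul_le_gf (fun a ha b hb => ⟨a, ha, b, hb, rfl⟩) ?_
  intro a ha b hb a' ha' b' hb' he
  obtain ⟨v, hv, h3, h4⟩ := BAR.nested ha ha' (hW b hb) (hW b' hb') le_rfl he
  rw [Nat.sub_self] at hv
  have hv0 := brd_zero_nil hv
  rw [h3, hv0, List.append_nil]

/-- the leaf of a word of WJb -/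
lemma WJb_leaf {E N h r : ℕ} {t : List Bool} (ht : t ∈ WJb E N h r) :
    ∃ (T W : List Bool) (k : ℕ), T ∈ Brd k ∧ 1 ≤ k ∧ Pos W ∧ t = joi T W ∧ T ∈ HIb N h r ∧ h + r ≤ k ∧ k ≤ h + N := by
  obtain ⟨x, hx, w, ⟨y, hy, rfl⟩, rfl⟩ := ht
  obtain ⟨k, hk, hkN, hb, hW⟩ := TJ_brd hy
  refine ⟨x ++ (y.1 ++ y.2.1), y.2.2, h + k, Brd_append hx hb, by omega, pos_SSt hW, ?_, ?_, ?_, by omega⟩
  · rw [joi_cat (Brd_ne_nil hb hk)]
  · refine ⟨x, hx, y.1 ++ y.2.1, ⟨SSt_mono hkN (Brd_SSt hb), y.1, hy.1, y.2.1, ?_, rfl⟩, rfl⟩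
    obtain ⟨z, hz⟩ := hy.2.1.1
    exact pos_Brd hz
  · obtain ⟨z, hz⟩ := hy.2.1.1
    have := Brd_height hb (Brd_append hy.1.1 hz)
    omega

lemma WJb_key {E N h r : ℕ} {t : List Bool} (ht : t ∈ WJb E N h r) :
    ∃ T H, ∀ h' r', t ∈ WJb E N h' r' → T ∈ HIb N h' r' ∧ h' + r' ≤ H ∧ H ≤ h' + N := by
  obtain ⟨T, W, k, hT, hk, hW, e, -⟩ := WJb_leaf ht
  refine ⟨T, k, fun h' r' ht' => ?_⟩
  obtain ⟨T', W', k', hT', hk', hW', e', hT2, h3, h4⟩ := WJb_leaf ht'
  have e3 := (joi_uniq hT hk hW hT' hk' hW' (e.symm.trans e')).1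
  rw [← e3] at hT' hT2
  have e4 := Brd_height hT hT'
  rw [e4]
  exact ⟨hT2, h3, h4⟩

/-- the leaves P ++ Z -/
def WI (E N r : ℕ) : Set (List Bool) := {g | ∃ P ∈ Irr r, ∃ Z ∈ BU, P ++ Z ∈ BrR E N ∧ g = P ++ Z}

/-- a bridge of height h in front -/
def WIb (E N h r : ℕ) : Set (List Bool) := {t | ∃ x ∈ Brd h, ∃ w ∈ WI E N r, t = x ++ w}

lemma WIb_leaf {E N h r : ℕ} {t : List Bool} (ht : t ∈ WIb E N h r) :
    ∃ k : ℕ, t ∈ Brd k ∧ t ∈ HIb N h r ∧ h + r ≤ k ∧ k ≤ h + N := by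
  obtain ⟨x, hx, w, ⟨P, hP, Z, ⟨z, hZ⟩, ⟨k, -, hkN, hk⟩, rfl⟩, rfl⟩ := ht
  have e := Brd_height hk (Brd_append hP.1 hZ)
  refine ⟨h + k, Brd_append hx hk, ⟨x, hx, P ++ Z, ⟨SSt_mono hkN (Brd_SSt hk), P, hP, Z, pos_Brd hZ, rfl⟩, rfl⟩, by omega, by omega⟩

lemma WIb_key {E N h r : ℕ} {t : List Bool} (ht : t ∈ WIb E N h r) :
    ∃ T H, ∀ h' r', t ∈ WIb E N h' r' → T ∈ HIb N h' r' ∧ h' + r' ≤ H ∧ H ≤ h' + N := by
  obtain ⟨k, hk, -⟩ := WIb_leaf ht
  refine ⟨t, k, fun h' r' ht' => ?_⟩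
  obtain ⟨k', hk', h2, h3, h4⟩ := WIb_leaf ht'
  rw [Brd_height hk hk']
  exact ⟨h2, h3, h4⟩

lemma WIb_SSt {E N h r : ℕ} {t : List Bool} (ht : t ∈ WIb E N h r) : t ∈ SSt (h + N) := by
  obtain ⟨k, hk, -, -, h4⟩ := WIb_leaf ht
  exact SSt_mono h4 (Brd_SSt hk)

lemma sw_le_WI (E N r : ℕ) :
    Rec8.sw (Irr r) (fun P => Rec8.sw {Z | Z ∈ BU ∧ P ++ Z ∈ BrR E N} (fun _ => 1)) ≤ gf (WI E N r) := by
  classical
  have hgf : ∀ P : Set (List Bool), gf P = ∑' t : List Bool, if t ∈ P then wE t else 0 := by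
    intro P
    unfold gf
    rw [tsum_subtype P wE]
    exact tsum_congr fun t => by simp only [Set.indicator_apply]
  let TI : List Bool × List Bool → Prop := fun x => x.1 ∈ Irr r ∧ (x.2 ∈ BU ∧ x.1 ++ x.2 ∈ BrR E N)
  have e1 : Rec8.sw (Irr r) (fun P => Rec8.sw {Z | Z ∈ BU ∧ P ++ Z ∈ BrR E N} (fun _ => 1)) =
      ∑' x : {x // TI x}, wE x.1.1 * wE x.1.2 := by
    have e0 : (∑' x : {x // TI x}, wE x.1.1 * wE x.1.2) =
      ∑' x : List Bool × List Bool, if TI x then wE x.1 * wE x.2 else 0 := by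
        refine (tsum_subtype {x | TI x} (fun x => wE x.1 * wE x.2)).trans ?_
        exact tsum_congr fun t => by simp only [Set.indicator_apply, Set.mem_ofPred_eq]
    rw [e0]
    rw [ENNReal.tsum_prod', Rec8.sw_ind]
    refine tsum_congr fun P => ?_
    by_cases hP : P ∈ Irr r
    · rw [if_pos hP, Rec8.sw_one, hgf, ← ENNReal.tsum_mul_left]
      refine tsum_congr fun Z => ?_
      by_cases hZ : Z ∈ BU ∧ P ++ Z ∈ BrR E N
      · have hZ' : Z ∈ {Z | Z ∈ BU ∧ P ++ Z ∈ BrR E N} := hZ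
        have h3 : TI (P, Z) := ⟨hP, hZ⟩
        rw [if_pos hZ', if_pos h3]
      · have hZ' : Z ∉ {Z | Z ∈ BU ∧ P ++ Z ∈ BrR E N} := hZ
        have h3 : ¬ TI (P, Z) := fun h => hZ h.2
        rw [if_neg hZ', if_neg h3, mul_zero]
    · rw [if_neg hP]
      symm
      rw [ENNReal.tsum_eq_zero]
      intro Z
      rw [if_neg]
      exact fun h => hP h.1
  rw [e1]
  let ψ : {x // TI x} → {w // w ∈ WI E N r} := fun x => ⟨x.1.1 ++ x.1.2, x.1.1, x.2.1, x.1.2, x.2.2.1, x.2.2.2, rfl⟩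
  have hψ : Function.Injective ψ := by
    rintro ⟨⟨P, Z⟩, hx⟩ ⟨⟨P', Z'⟩, hx'⟩ he
    have he' : P ++ Z = P' ++ Z' := congrArg Subtype.val he
    obtain ⟨z, hz⟩ := hx.2.1
    obtain ⟨z', hz'⟩ := hx'.2.1
    obtain ⟨v, hv, e3, e4⟩ := BAR.nested hx.1.1 hx'.1.1 (pos_Brd hz) (pos_Brd hz') le_rfl he'
    rw [Nat.sub_self] at hv
    have hv0 := brd_zero_nil hv
    rw [hv0, List.append_nil] at e3
    rw [hv0, List.nil_append] at e4
    apply Subtype.ext
    exact Prod.ext e3.symm e4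
  calc ∑' x : {x // TI x}, wE x.1.1 * wE x.1.2 = ∑' x : {x // TI x}, wE (ψ x).1 := by
        refine tsum_congr fun x => ?_
        show _ = wE (x.1.1 ++ x.1.2)
        rw [wE_append]
    _ ≤ gf (WI E N r) := ENNReal.tsum_comp_le_tsum_of_injective hψ (fun w : {w // w ∈ WI E N r} => wE w.1)

/-- HSum, both parts, abstract weight -/
theorem hsum_abs (H : JoiMem) (E N R : ℕ) (w : ℕ → ℝ≥0∞) (c : ℝ≥0∞)
    (h3 : ∀ t, ∑ h ∈ range (R + 1), ∑' r : ℕ, (open Classical in if t ∈ WJb E N h r then w r else 0) ≤ c)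
    (h4 : ∀ t, ∑ h ∈ range (R + 1), ∑' r : ℕ, (open Classical in if t ∈ WIb E N h r then w r else 0) ≤ c) :
    ENNReal.ofReal (UU R) * ∑' r : ℕ, w r * Rec8.sw (Irr r) (fun P => Rec8.sw {Z | Z ∈ BU ∧ P ++ Z ∈ BrR E N}
      (fun Z => 1 + GLf (hgt (P ++ Z) - 1) (P ++ Z))) ≤ (1 + (ENNReal.ofReal xc)⁻¹) * (c * BAR.HH (N + R)) := by
  have hx0 : ENNReal.ofReal xc ≠ 0 := by
    rw [Ne, ENNReal.ofReal_eq_zero, not_le]
    exact xc_pos
  have hx1 : ENNReal.ofReal xc ≠ ∞ := ENNReal.ofReal_ne_top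
  have hJ := prod_form N R w c (WJ E N) (WJb E N)
    (fun h r => gf_front (fun w hw => pos_SSt (WJ_SSt H hw)) h) (fun h r t ht => WJb_SSt H ht) h3
  have hI := prod_form N R w c (WI E N) (WIb E N) (fun h r => gf_front (fun w hw => by
    obtain ⟨P, hP, Z, hZ, ⟨k, -, -, hk⟩, rfl⟩ := hw
    exact pos_Brd hk) h) (fun h r t ht => WIb_SSt ht) h4
  have key : ∀ r, Rec8.sw (Irr r) (fun P => Rec8.sw {Z | Z ∈ BU ∧ P ++ Z ∈ BrR E N}
      (fun Z => 1 + GLf (hgt (P ++ Z) - 1) (P ++ Z))) ≤ gf (WI E N r) + (ENNReal.ofReal xc)⁻¹ * gf (WJ E N r) := by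
    intro r
    have e : (fun P => Rec8.sw {Z | Z ∈ BU ∧ P ++ Z ∈ BrR E N} (fun Z => 1 + GLf (hgt (P ++ Z) - 1) (P ++ Z))) =
        fun P => Rec8.sw {Z | Z ∈ BU ∧ P ++ Z ∈ BrR E N} (fun _ => 1) +
          Rec8.sw {Z | Z ∈ BU ∧ P ++ Z ∈ BrR E N} (fun Z => GLf (hgt (P ++ Z) - 1) (P ++ Z)) := by
      funext P
      rw [← Rec8.sw_add]
    rw [e, Rec8.sw_add]
    refine add_le_add (sw_le_WI E N r) ?_
    have h5 := sw_le_WJ E N r
    rw [← ENNReal.div_eq_inv_mul, ENNReal.le_div_iff_mul_le (Or.inl hx0) (Or.inl hx1), mul_comm]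
    exact h5
  calc _ ≤ ENNReal.ofReal (UU R) * ∑' r : ℕ, w r * (gf (WI E N r) + (ENNReal.ofReal xc)⁻¹ * gf (WJ E N r)) :=
        mul_le_mul_right (ENNReal.tsum_le_tsum fun r => mul_le_mul_right (key r) _) _
    _ = ENNReal.ofReal (UU R) * (∑' r : ℕ, w r * gf (WI E N r)) +
        (ENNReal.ofReal xc)⁻¹ * (ENNReal.ofReal (UU R) * ∑' r : ℕ, w r * gf (WJ E N r)) := by
        have e2 : ∑' r : ℕ, w r * (gf (WI E N r) + (ENNReal.ofReal xc)⁻¹ * gf (WJ E N r)) =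
            (∑' r : ℕ, w r * gf (WI E N r)) + (ENNReal.ofReal xc)⁻¹ * ∑' r : ℕ, w r * gf (WJ E N r) := by
          rw [← ENNReal.tsum_mul_left, ← ENNReal.tsum_add]
          exact tsum_congr fun r => by ring
        rw [e2]
        ring
    _ ≤ c * HH (N + R) + (ENNReal.ofReal xc)⁻¹ * (c * HH (N + R)) := add_le_add hI (mul_le_mul_right hJ _)
    _ = _ := by ring

/-- the constant -/
noncomputable def KS : ℝ := 1 + xc⁻¹

lemma KS_one : 1 ≤ KS := by
  unfold KS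
  have := inv_pos.2 xc_pos
  linarith

lemma KS_eq : 1 + (ENNReal.ofReal xc)⁻¹ = ENNReal.ofReal KS := by
  unfold KS
  rw [ENNReal.ofReal_add zero_le_one (inv_pos.2 xc_pos).le, ENNReal.ofReal_one, ENNReal.ofReal_inv_of_pos xc_pos]

/-- HSum with the weight r -/
theorem hsum_of (H : JoiMem) : ∃ K : ℝ, 1 ≤ K ∧ ∀ (E N R : ℕ), ENNReal.ofReal (UU R) * ∑' r : ℕ, (r : ℝ≥0∞) *
    Rec8.sw (Irr r) (fun P => Rec8.sw {Z | Z ∈ BU ∧ P ++ Z ∈ BrR E N}
      (fun Z => 1 + GLf (hgt (P ++ Z) - 1) (P ++ Z))) ≤ ENNReal.ofReal (K * N) * BAR.HH (N + R) := by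
  refine ⟨KS, KS_one, fun E N R => ?_⟩
  refine (hsum_abs H E N R (fun r => (r : ℝ≥0∞)) N (fun t => ?_) (fun t => ?_)).trans (le_of_eq ?_)
  · exact count_id (WJb E N) t N (R + 1) fun h r ht => WJb_key ht
  · exact count_id (WIb E N) t N (R + 1) fun h r ht => WIb_key ht
  · rw [KS_eq, ENNReal.ofReal_mul (by linarith [KS_one]), ENNReal.ofReal_natCast, mul_assoc]

/-- HSum with the weight min 1 (r / 2 ^ j) -/
theorem hsum_min_of (H : JoiMem) : ∃ K : ℝ, 1 ≤ K ∧ ∀ (E N j : ℕ), ∑' r : ℕ, min 1 ((r : ℝ≥0∞) / 2 ^ j) *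
    Rec8.sw (Irr r) (fun P => Rec8.sw {Z | Z ∈ BU ∧ P ++ Z ∈ BrR E N}
      (fun Z => 1 + GLf (hgt (P ++ Z) - 1) (P ++ Z))) ≤ ENNReal.ofReal (K / Ub j) * BAR.HH (N + 2 ^ j) := by
  refine ⟨KS * 2, by linarith [KS_one], fun E N j => ?_⟩
  have hU : 0 < Ub j := Ub_pos j
  have hU0 : ENNReal.ofReal (Ub j) ≠ 0 := by
    rw [Ne, ENNReal.ofReal_eq_zero, not_le]
    exact hU
  have h1 := hsum_abs H E N (2 ^ j) (fun r => min 1 ((r : ℝ≥0∞) / 2 ^ j)) 2 (fun t => ?_) (fun t => ?_)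
  · rw [ENNReal.ofReal_div_of_pos hU, ENNReal.mul_comm_div, ← mul_div_assoc,
      ENNReal.le_div_iff_mul_le (Or.inl hU0) (Or.inl ENNReal.ofReal_ne_top), mul_comm]
    refine h1.trans (le_of_eq ?_)
    rw [KS_eq, ENNReal.ofReal_mul (by linarith [KS_one]), ENNReal.ofReal_ofNat, mul_assoc]
  · exact count_min (WJb E N) t N j fun h r ht => (WJb_key ht).imp fun T h5 h' r' ht' => (h5.choose_spec h' r' ht').1
  · exact count_min (WIb E N) t N j fun h r ht => (WIb_key ht).imp fun T h5 h' r' ht' => (h5.choose_spec h' r' ht').1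

end NTW

end HexObs
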