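import Pool.Agent.NTW.EndsD
import Pool.Agent.NTW.Join
import Pool.Agent.NTW.HSum
import Pool.Agent.TightS.Params

/-!
NTW, block (A): one step of the bootstrap for the norm of the free ends.
-/

set_option autoImplicit false

namespace HexObs

namespace NTW

open Finset TS SDN

open scoped ENNReal

open Rec8 (mb)

variable {C δ : ℝ}

/-- the leaf operator -/
noncomputable def Op (D N : ℕ) (F : List Bool → ℝ≥0∞) (t : List Bool) : ℝ≥0∞ :=
  Rec8.sw {g | g ∈ BrR D N ∧ RT D LFold t g} F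

theorem Op_mono {D N : ℕ} {F G : List Bool → ℝ≥0∞} (h : ∀ g ∈ BrR D N, F g ≤ G g) (t : List Bool) :
    Op D N F t ≤ Op D N G t := Rec8.sw_mono' fun g hg => h g hg.1

theorem Op_add (D N : ℕ) (F G : List Bool → ℝ≥0∞) (t : List Bool) :
    Op D N (fun g => F g + G g) t = Op D N F t + Op D N G t := Rec8.sw_add _ _ _

theorem Op_sum (D N : ℕ) (S : Finset ℕ) (F : ℕ → List Bool → ℝ≥0∞) (t : List Bool) :
    Op D N (fun g => ∑ i ∈ S, F i g) t = ∑ i ∈ S, Op D N (F i) t := Rec8.sw_sum _ _ _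

theorem xT_sum (D k : ℕ) (S : Finset ℕ) (Φ : ℕ → List Bool → ℝ≥0∞) :
    xT D k (fun g => ∑ i ∈ S, Φ i g) ≤ ∑ i ∈ S, xT D k (Φ i) := by
  classical
  induction S using Finset.induction_on with
  | empty =>
    simp only [Finset.sum_empty]
    refine xT_le fun b I _ _ => ?_
    rw [Rec8.sw_zero]
    exact zero_le
  | insert a s ha ih =>
    simp only [Finset.sum_insert ha]
    exact (xT_add _ _ _ _).trans (add_le_add le_rfl ih)

theorem HB_of_BrR {D N i : ℕ} (h : 2 ^ i ≤ D) {g : List Bool} (hg : g ∈ BrR D N) : g ∈ HB (2 ^ i) := by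
  obtain ⟨n, h1, -, h2⟩ := hg
  exact ⟨n, h.trans h1, h2⟩

/-- the blocks of the hanging walks are disjoint -/
theorem sum_Bk_le (S : Finset ℕ) (m : ℕ) (g : List Bool) : ∑ i ∈ S, Bk i (2 ^ (i + 1)) m g ≤ GLf m g := by
  classical
  unfold Bk GLf
  simp only [gf_ind]
  rw [← Summable.tsum_finsetSum (fun _ _ => ENNReal.summable)]
  refine ENNReal.tsum_le_tsum fun W => ?_
  by_cases hW : W ∈ {W | W ∈ SSt m ∧ LFold g W}
  · rw [if_pos hW]
    by_cases hex : ∃ i ∈ S, W ∈ SSt (2 ^ (i + 1)) ∧ W ∉ SSt (2 ^ i)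
    · obtain ⟨i, hi, h1, h2⟩ := hex
      rw [Finset.sum_eq_single i]
      · split_ifs
        · exact le_rfl
        · exact zero_le
      · intro i' _ hne
        rw [if_neg]
        rintro ⟨⟨h3, h4⟩, -⟩
        rcases Nat.lt_or_ge i i' with h5 | h5
        · exact h4 (SSt_mo (Nat.pow_le_pow_right (by norm_num) (by omega)) h1)
        · exact h2 (SSt_mo (Nat.pow_le_pow_right (by norm_num) (by omega)) h3)
      · exact fun h => absurd hi h
    · refine le_trans (le_of_eq (Finset.sum_eq_zero fun i hi => ?_)) zero_le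
      rw [if_neg]
      exact fun hc => hex ⟨i, hi, hc.1⟩
  · rw [if_neg hW]
    refine le_of_eq (Finset.sum_eq_zero fun i hi => ?_)
    rw [if_neg]
    exact fun hc => hW hc.2

/-- the low blocks -/
theorem low_blk (h : Inp C δ) : ∃ K c : ℝ, 1 ≤ K ∧ 0 < c ∧ ∀ i j N : ℕ, 4 ≤ i → i + 6 ≤ j → 2 ^ j ≤ N →
    xT (2 ^ j) (j - 4) (Op (2 ^ j) N (fun g => Bk i (2 ^ (i + 1)) (hgt g - 1) g)) ≤
      ENNReal.ofReal (K / Ub (j - 4)) * Rec8.sw (BrR 1 N) (fun Z => Bk i (2 ^ (i + 1)) (hgt Z - 1) Z) +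
        ENNReal.ofReal (K * (2 : ℝ) ^ (-(c * ((j : ℝ) - i)))) * zz i := by
  obtain ⟨K, c, hK, hc, hl⟩ := lowA h
  refine ⟨K, c, hK, hc, fun i j N hi hij hN => ?_⟩
  have hk : j - 4 + 4 = j := by omega
  have hk1 : i - 4 + 4 = i := by omega
  have e1 : 2 ^ (i + 2) = 2 * 2 ^ (i + 1) := by ring
  have e0 : 1 ≤ 2 ^ (i + 1) := Nat.one_le_two_pow
  have e2 : 2 ^ (i + 2) ≤ 2 ^ (j - 4) := Nat.pow_le_pow_right (by norm_num) (by omega)
  have e3 : i - 4 + 6 = i + 2 := by omega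
  have hij2 : 2 ^ i ≤ 2 ^ j := Nat.pow_le_pow_right (by norm_num) (by omega)
  have hm := hl (2 ^ j) (j - 4) (2 ^ i) (i - 4) (2 ^ j) N (2 ^ (i + 1) + 1) (EF (2 ^ i) (2 ^ (i + 1)))
    (fun g => Bk i (2 ^ (i + 1)) (hgt g - 1) g)
    (Rec8.sw (BrR 1 N) (fun Z => Bk i (2 ^ (i + 1)) (hgt Z - 1) Z)) (Hered_EF _ _)
    (by rw [hk]) (by rw [hk1]) (by omega) le_rfl hN (by omega) (by rw [e3]; omega) ?_ ?_
  · have e4 : ((j - 4 : ℕ) : ℝ) - ((i - 4 : ℕ) : ℝ) = (j : ℝ) - i := by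
      rw [Nat.cast_sub (by omega), Nat.cast_sub hi]
      ring
    rw [e4] at hm
    exact hm
  · intro n r z X P Z _ hX hP hZ _ hg
    exact (Bk_le_EF (HB_of_BrR hij2 hg)).trans (Hered_EF _ _ X ⟨n, hX⟩ _)
  · intro n r X P _ hX hP
    refine Rec8.sw_mono ?_ ?_
    · rintro Z ⟨⟨z, hz, hZ⟩, hg⟩
      obtain ⟨H, -, h2, h3⟩ := hg
      have := Brd_height h3 (Brd_append hX (Brd_append hP.1 hZ))
      exact ⟨z, by omega, by omega, hZ⟩
    · rintro Z ⟨⟨z, hz, hZ⟩, hg⟩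
      have hz1 : 1 ≤ z := by omega
      refine gf_mono fun W hW => ⟨hW.1, ?_, ?_⟩
      · refine SSt_mo ?_ hW.1.1
        rw [hgt_eq hZ]
        omega
      · have h5 := hW.2.2
        rw [← List.append_assoc] at h5
        exact LF_drop (Brd_ne_nil hZ hz1) h5

/-- the statement of EndsA -/
def ClsA (C δ : ℝ) : Prop := Inp C δ → ∃ K c : ℝ, 1 ≤ K ∧ 0 < c ∧ ∀ (D0 k D1 k1 E N j a1 : ℕ)
    (Φ F G : List Bool → ℝ≥0∞) (B : ℝ≥0∞), Hered Φ → (∀ g, F g ≤ Φ g) →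
    (∀ n r X P Z, n < 2 ^ (j + 1) → X ∈ Brd n → P ∈ Irr r → Z ∈ BU → X ++ (P ++ Z) ∈ BrR E N →
      F (X ++ (P ++ Z)) ≤ G (P ++ Z)) →
    (∑' r : ℕ, min 1 ((r : ℝ≥0∞) / 2 ^ j) * Rec8.sw (Irr r) (fun P =>
      Rec8.sw {Z | Z ∈ BU ∧ P ++ Z ∈ BrR (E - 2 ^ (j + 1)) N} (fun Z => G (P ++ Z))) ≤ B) →
    2 ^ (k + 4) ≤ D0 → 2 ^ (k1 + 4) ≤ D1 → k1 ≤ k → D0 ≤ E → D1 ≤ E → E ≤ N → j ≤ k → a1 + 3 ≤ j →
    xT D0 k (fun t => Rec8.sw {g | g ∈ BrR E N ∧ RT D0 LFold t g} F) ≤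
      ENNReal.ofReal (K * ((j : ℝ) - a1 + 2)) * B +
        ENNReal.ofReal (K * (UU N / Ub j) * (2 : ℝ) ^ (-(c * ((j : ℝ) - a1)))) * xT D1 k1 Φ

lemma HH_mono {a b : ℕ} (h : a ≤ b) : BAR.HH a ≤ BAR.HH b := gf_mono fun _ hW => SSt_mo h hW

/-- one of the high blocks; M = upper bound of the heights of the hanging walk -/
theorem high_blk (h : Inp C δ) (hA : ClsA C δ) : ∀ ε : ℝ, 0 < ε → ∃ (C1 : ℝ) (J : ℕ), 1 ≤ C1 ∧ ∀ i j M N : ℕ, 4 ≤ i →
    i ≤ j → J ≤ j → 2 ^ j ≤ N → N ≤ 2 ^ (j + 2) →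
    xT (2 ^ j) (j - 4) (Op (2 ^ j) N (fun g => Bk i M (hgt g - 1) g)) ≤
      ENNReal.ofReal (C1 / UU N) * BAR.HH N + ENNReal.ofReal ε * xT (2 ^ i) (i - 4) (EF (2 ^ i) M) := by
  classical
  intro ε hε
  obtain ⟨K1, c1, hK1, hc1, hwin⟩ := win2 h
  obtain ⟨K2, c2, hK2, hc2, hcls⟩ := hA h
  obtain ⟨K3, hK3, hsum⟩ := hsum_min_of (fun hg hh hW hR => joi_mem hg hh hW hR)
  obtain ⟨θ, hθ, hdown⟩ := UU_ratio_down
  -- powers of two tend to zero
  have htend : ∀ (c : ℝ), 0 < c → ∀ η : ℝ, 0 < η → ∃ n : ℕ, (2 : ℝ) ^ (-(c * (n : ℝ))) ≤ η := by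
    intro c hc η hη
    have h1 : Filter.Tendsto (fun n : ℕ => ((2 : ℝ) ^ (-c)) ^ n) Filter.atTop (nhds 0) := by
      apply tendsto_pow_atTop_nhds_zero_of_lt_one (Real.rpow_pos_of_pos two_pos _).le
      exact Real.rpow_lt_one_of_one_lt_of_neg (by norm_num) (by linarith)
    obtain ⟨n, hn⟩ := ((h1.eventually (gt_mem_nhds hη)).exists)
    refine ⟨n, ?_⟩
    rw [← Real.rpow_natCast, ← Real.rpow_mul (by norm_num)] at hn
    refine le_of_lt (lt_of_eq_of_lt ?_ hn)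
    congr 1
    ring
  obtain ⟨d0, hd0⟩ := htend c1 hc1 (ε / (4 * (K1 * 64))) (by positivity)
  obtain ⟨d1, hd1⟩ : ∃ d1 : ℕ, d1 = d0 + 3 := ⟨_, rfl⟩
  obtain ⟨m0, hm0⟩ := htend θ hθ (ε / (4 * (K1 * 64) * 4)) (by positivity)
  obtain ⟨s, hs⟩ : ∃ s : ℕ, s = d1 + 4 + m0 := ⟨_, rfl⟩
  obtain ⟨n0, hn0⟩ := htend c2 hc2 (ε / (2 * (K2 * 2 ^ (s + 3)))) (by positivity)
  obtain ⟨s2, hs2⟩ : ∃ s2 : ℕ, s2 = n0 + 3 := ⟨_, rfl⟩
  refine ⟨K2 * ((s2 : ℝ) + 2) * (K3 * 2 ^ (s + 3)) + 1, s + 1 + s2 + 4, by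
    have : 0 ≤ K2 * ((s2 : ℝ) + 2) * (K3 * 2 ^ (s + 3)) := by positivity
    linarith, fun i j M N hi hij hJ hN hN2 => ?_⟩
  obtain ⟨w, hw⟩ : ∃ w : ℕ, w = 2 ^ (j - s) := ⟨_, rfl⟩
  obtain ⟨jj, hjj⟩ : ∃ jj : ℕ, jj = j - s - 1 := ⟨_, rfl⟩
  obtain ⟨a1, ha1⟩ : ∃ a1 : ℕ, a1 = jj - s2 := ⟨_, rfl⟩
  obtain ⟨j1, hj1⟩ : ∃ j1 : ℕ, j1 = j - 4 - d1 := ⟨_, rfl⟩
  have hk : j - 4 + 4 = j := by omega
  have hk1 : i - 4 + 4 = i := by omega
  have hij2 : 2 ^ i ≤ 2 ^ j := Nat.pow_le_pow_right (by norm_num) (by omega)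
  have hwj : w = 2 ^ (jj + 1) := by
    rw [hw]
    congr 1
    omega
  have hw1 : 1 ≤ w := by
    rw [hw]
    exact Nat.one_le_two_pow
  have hwj2 : w ≤ 2 ^ (j - 1) := by
    rw [hw]
    exact Nat.pow_le_pow_right (by norm_num) (by omega)
  have hj2 : 2 ^ (j - 1) < 2 ^ j := Nat.pow_lt_pow_right (by norm_num) (by omega)
  obtain ⟨Φ, hΦ⟩ : ∃ Φ : List Bool → ℝ≥0∞, Φ = EF (2 ^ i) M := ⟨_, rfl⟩
  have hHer : Hered Φ := by
    rw [hΦ]
    exact Hered_EF _ _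
  obtain ⟨x, hx⟩ : ∃ x, x = xT (2 ^ i) (i - 4) Φ := ⟨_, rfl⟩
  rw [← hΦ, ← hx]
  -- the two classes
  obtain ⟨FA, hFA⟩ : ∃ FA : List Bool → ℝ≥0∞, FA = fun g => if g ∈ BrR (2 ^ j) N ∧ hgt g + w ≤ N then
    Bk i M (hgt g - w) g else 0 := ⟨_, rfl⟩
  have hsplit : ∀ g ∈ BrR (2 ^ j) N, Bk i M (hgt g - 1) g ≤ Sf i M N w (hgt g) g + FA g := by
    intro g hg
    have hgH : g ∈ HB (2 ^ i) := HB_of_BrR hij2 hg
    have hgN : hgt g ≤ N := by
      obtain ⟨n, -, h2, h3⟩ := hg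
      rw [hgt_eq h3]
      exact h2
    by_cases h1 : N < hgt g + w
    · refine le_trans ?_ le_self_add
      unfold Sf
      rw [if_pos hgN, if_pos h1]
      exact Bk_le_EF hgH
    · have h2 : Sf i M N w (hgt g) g = gf {W | ((W ∈ SSt M ∧ W ∉ SSt (2 ^ i)) ∧ RT (2 ^ i) LFold g W) ∧
          W ∈ SSt (hgt g) ∧ W ∉ SSt (hgt g - w)} := by
        unfold Sf
        rw [if_pos hgN, if_neg h1]
      rw [h2, hFA]
      simp only
      rw [if_pos ⟨hg, by omega⟩]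
      refine (gf_mono ?_).trans (gf_union_le _ _)
      intro W hW
      by_cases h3 : W ∈ SSt (hgt g - w)
      · exact Or.inr ⟨hW.1, h3, hW.2.2⟩
      · exact Or.inl ⟨⟨hW.1, RT_of hgH hW.2.2⟩, SSt_mo (by omega) hW.2.1, h3⟩
  have h0 : xT (2 ^ j) (j - 4) (Op (2 ^ j) N (fun g => Bk i M (hgt g - 1) g)) ≤
      xT (2 ^ j) (j - 4) (Op (2 ^ j) N (fun g => Sf i M N w (hgt g) g)) + xT (2 ^ j) (j - 4) (Op (2 ^ j) N FA) := by
    refine le_trans (xT_mono (Ψ := fun t => Op (2 ^ j) N (fun g => Sf i M N w (hgt g) g) t + Op (2 ^ j) N FA t)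
      fun t => ?_) (xT_add _ _ _ _)
    rw [← Op_add]
    exact Op_mono hsplit t
  -- ratios
  have hUN : 0 < UU N := Num2Aux.UU_pos N
  have r1 : UU N / Ub (j - 4) ≤ 64 := by
    rw [div_le_iff₀ (Ub_pos _)]
    have e := UU_ratio_up (j - 4) 6
    have e2 : j - 4 + 6 = j + 2 := by omega
    rw [e2] at e
    have e3 : UU N ≤ UU (2 ^ (j + 2)) := Num2Aux.UU_mono hN2
    unfold Ub
    norm_num at e
    linarith
  have r2 : UU N / Ub jj ≤ 2 ^ (s + 3) := by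
    rw [div_le_iff₀ (Ub_pos _)]
    have e := UU_ratio_up jj (s + 3)
    have e2 : jj + (s + 3) = j + 2 := by omega
    rw [e2] at e
    have e3 : UU N ≤ UU (2 ^ (j + 2)) := Num2Aux.UU_mono hN2
    unfold Ub
    linarith
  have r3 : UU w / Ub j1 ≤ 2 * (2 : ℝ) ^ (-(θ * (m0 : ℝ))) := by
    have e := hdown (j - s) m0
    have e2 : j - s + m0 = j1 := by omega
    rw [e2, ← hw] at e
    exact e
  -- windows
  have hW1 := hwin (2 ^ j) (j - 4) (2 ^ i) (i - 4) (2 ^ j) N j1 (2 * UU w) Φ (Sf i M N w) hHer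
    (fun n => Hered_Sf i M N w n) (fun n t => by rw [hΦ]; exact Sf_le i M N w n t)
    (by have := Num2Aux.UU_pos w; positivity) (fun n t => by rw [hΦ]; exact Sf_win n t)
    (by rw [hk]) (by rw [hk1]) (by omega) le_rfl hij2 hN (by omega)
  have hW2 : xT (2 ^ j) (j - 4) (Op (2 ^ j) N (fun g => Sf i M N w (hgt g) g)) ≤ ENNReal.ofReal (ε / 2) * x := by
    refine hW1.trans ?_
    rw [← hx]
    refine mul_le_mul_left (ENNReal.ofReal_le_ofReal ?_) x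
    have e1 : ((j - 4 : ℕ) : ℝ) - (j1 : ℝ) = (d1 : ℝ) := by
      rw [hj1, Nat.cast_sub (by omega : d1 ≤ j - 4)]
      ring
    rw [e1]
    have e2 : (2 : ℝ) ^ (-(c1 * (d1 : ℝ))) ≤ (2 : ℝ) ^ (-(c1 * (d0 : ℝ))) := by
      apply Real.rpow_le_rpow_of_exponent_le (by norm_num)
      have : (d0 : ℝ) ≤ d1 := by exact_mod_cast (by omega : d0 ≤ d1)
      nlinarith
    have e3 : 2 * UU w / Ub j1 = 2 * (UU w / Ub j1) := by ring
    rw [e3]
    have hp1 : 0 < (2 : ℝ) ^ (-(c1 * (d1 : ℝ))) := Real.rpow_pos_of_pos two_pos _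
    have hp2 : 0 ≤ UU w / Ub j1 := div_nonneg (Num2Aux.UU_pos w).le (Ub_pos j1).le
    calc K1 * (UU N / Ub (j - 4)) * ((2 : ℝ) ^ (-(c1 * (d1 : ℝ))) + 2 * (UU w / Ub j1))
        ≤ K1 * 64 * (ε / (4 * (K1 * 64)) + 2 * (2 * (ε / (4 * (K1 * 64) * 4)))) := by
          gcongr
          · exact e2.trans hd0
          · exact r3.trans (by gcongr)
      _ = ε / 2 := by
          field_simp
          ring
  -- the other class
  have hU3 : 0 < Ub jj := Ub_pos jj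
  have hC1 := hcls (2 ^ j) (j - 4) (2 ^ i) (i - 4) (2 ^ j) N jj a1 Φ FA
    (fun g => if hgt g + w ≤ N then GLf (hgt g - 1) g else 0) (ENNReal.ofReal (K3 / Ub jj) * BAR.HH N) hHer ?_ ?_ ?_
    (by rw [hk]) (by rw [hk1]) (by omega) le_rfl hij2 hN (by omega) (by omega)
  · have hC2 : xT (2 ^ j) (j - 4) (Op (2 ^ j) N FA) ≤
        ENNReal.ofReal (K2 * ((s2 : ℝ) + 2) * (K3 * 2 ^ (s + 3)) / UU N) * BAR.HH N + ENNReal.ofReal (ε / 2) * x := by
      refine hC1.trans ?_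
      rw [← hx]
      have e1 : (jj : ℝ) - (a1 : ℝ) = (s2 : ℝ) := by
        rw [ha1, Nat.cast_sub (by omega : s2 ≤ jj)]
        ring
      rw [e1, ← mul_assoc, ← ENNReal.ofReal_mul (by positivity)]
      refine add_le_add (mul_le_mul_left (ENNReal.ofReal_le_ofReal ?_) _) (mul_le_mul_left (ENNReal.ofReal_le_ofReal ?_) x)
      · have e2 : K3 / Ub jj ≤ K3 * 2 ^ (s + 3) / UU N := by
          rw [div_le_div_iff₀ hU3 hUN]
          have := (div_le_iff₀ hU3).1 r2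
          calc K3 * UU N ≤ K3 * (2 ^ (s + 3) * Ub jj) := by gcongr
            _ = _ := by ring
        calc K2 * ((s2 : ℝ) + 2) * (K3 / Ub jj) ≤ K2 * ((s2 : ℝ) + 2) * (K3 * 2 ^ (s + 3) / UU N) := by gcongr
          _ = _ := by ring
      · have e2 : (2 : ℝ) ^ (-(c2 * (s2 : ℝ))) ≤ (2 : ℝ) ^ (-(c2 * (n0 : ℝ))) := by
          apply Real.rpow_le_rpow_of_exponent_le (by norm_num)
          have : (n0 : ℝ) ≤ s2 := by exact_mod_cast (by omega : n0 ≤ s2)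
          nlinarith
        calc K2 * (UU N / Ub jj) * (2 : ℝ) ^ (-(c2 * (s2 : ℝ))) ≤ K2 * 2 ^ (s + 3) * (ε / (2 * (K2 * 2 ^ (s + 3)))) := by
              gcongr
              exact e2.trans hn0
          _ = ε / 2 := by
              field_simp
    refine h0.trans ((add_le_add hW2 hC2).trans ?_)
    have e1 : ENNReal.ofReal ε = ENNReal.ofReal (ε / 2) + ENNReal.ofReal (ε / 2) := by
      rw [← ENNReal.ofReal_add (by positivity) (by positivity)]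
      congr 1
      ring
    have e2 : ENNReal.ofReal (K2 * ((s2 : ℝ) + 2) * (K3 * 2 ^ (s + 3)) / UU N) ≤
        ENNReal.ofReal ((K2 * ((s2 : ℝ) + 2) * (K3 * 2 ^ (s + 3)) + 1) / UU N) := by
      apply ENNReal.ofReal_le_ofReal
      gcongr
      linarith
    calc ENNReal.ofReal (ε / 2) * x +
          (ENNReal.ofReal (K2 * ((s2 : ℝ) + 2) * (K3 * 2 ^ (s + 3)) / UU N) * BAR.HH N + ENNReal.ofReal (ε / 2) * x)
        = ENNReal.ofReal (K2 * ((s2 : ℝ) + 2) * (K3 * 2 ^ (s + 3)) / UU N) * BAR.HH N + ENNReal.ofReal ε * x := by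
          rw [e1]
          ring
      _ ≤ _ := by
          gcongr
  · intro g
    rw [hFA]
    simp only
    split_ifs with hg
    · rw [hΦ]
      exact Bk_le_EF (HB_of_BrR hij2 hg.1)
    · exact zero_le
  · intro n r X P Z hn hX hP hZ hg
    rw [hFA]
    simp only
    split_ifs with h1 h2 h2
    · obtain ⟨z, hz⟩ := hZ
      have hPZ : P ++ Z ∈ Brd (r + z) := Brd_append hP.1 hz
      have hT : X ++ (P ++ Z) ∈ Brd (n + (r + z)) := Brd_append hX hPZ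
      have hne : P ++ Z ≠ [] := by
        intro hc
        rw [hc] at hPZ
        have e1 := hgt_eq hPZ
        have e2 : hgt ([] : List Bool) = 0 := by
          have h00 : ([] : List Bool) ∈ Brd 0 := by
            rw [Brd_zero]
            exact Set.mem_singleton _
          exact hgt_eq h00
        obtain ⟨H, h3, -, h5⟩ := hg
        have := Brd_height h5 hT
        omega
      refine gf_mono fun W hW => ⟨SSt_mo ?_ hW.2.1, LF_drop hne hW.2.2⟩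
      rw [hgt_eq hPZ, hgt_eq hT]
      omega
    · exfalso
      apply h2
      obtain ⟨z, hz⟩ := hZ
      have hPZ : P ++ Z ∈ Brd (r + z) := Brd_append hP.1 hz
      have hT : X ++ (P ++ Z) ∈ Brd (n + (r + z)) := Brd_append hX hPZ
      have h3 := h1.2
      rw [hgt_eq hT] at h3
      rw [hgt_eq hPZ]
      omega
    · exact zero_le
    · exact zero_le
  · calc ∑' r : ℕ, min 1 ((r : ℝ≥0∞) / 2 ^ jj) * Rec8.sw (Irr r) (fun P =>
          Rec8.sw {Z | Z ∈ BU ∧ P ++ Z ∈ BrR (2 ^ j - 2 ^ (jj + 1)) N}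
          (fun Z => if hgt (P ++ Z) + w ≤ N then GLf (hgt (P ++ Z) - 1) (P ++ Z) else 0))
        ≤ ∑' r : ℕ, min 1 ((r : ℝ≥0∞) / 2 ^ jj) * Rec8.sw (Irr r) (fun P =>
          Rec8.sw {Z | Z ∈ BU ∧ P ++ Z ∈ BrR (2 ^ j - 2 ^ (jj + 1)) (N - w)}
          (fun Z => 1 + GLf (hgt (P ++ Z) - 1) (P ++ Z))) := by
          refine ENNReal.tsum_le_tsum fun r => mul_le_mul_right (Rec8.sw_mono' fun P hP => ?_) _
          rw [Rec8.sw_ind, Rec8.sw_ind]
          refine ENNReal.tsum_le_tsum fun Z => ?_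
          by_cases hZ : Z ∈ {Z | Z ∈ BU ∧ P ++ Z ∈ BrR (2 ^ j - 2 ^ (jj + 1)) N}
          · rw [if_pos hZ]
            by_cases h1 : hgt (P ++ Z) + w ≤ N
            · rw [if_pos h1, if_pos]
              · gcongr
                exact le_add_self
              · obtain ⟨hZ1, H, h2, h3, h4⟩ := hZ
                rw [hgt_eq h4] at h1
                exact ⟨hZ1, H, h2, by omega, h4⟩
            · rw [if_neg h1, mul_zero]
              exact zero_le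
          · rw [if_neg hZ]
            exact zero_le
      _ ≤ ENNReal.ofReal (K3 / Ub jj) * BAR.HH (N - w + 2 ^ jj) := hsum _ _ _
      _ ≤ _ := by
          refine mul_le_mul_right (HH_mono ?_) _
          have : 2 ^ (jj + 1) = 2 * 2 ^ jj := by ring
          omega

theorem xT_const (D k : ℕ) (c : ℝ≥0∞) : xT D k (fun _ => c) ≤ 2 * c := by
  calc xT D k (fun _ => c) = xT D k (fun _ => c * 1) := by simp only [mul_one]
    _ ≤ c * xT D k (fun _ => 1) := xT_smul D k c (fun _ => 1)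
    _ ≤ c * 2 := by gcongr; exact xT_one D k
    _ = 2 * c := mul_comm _ _

/-- **one step of the bootstrap** -/
theorem step1_of (h : Inp C δ) (hA : ClsA C δ)
    (hZ : ∃ K : ℝ, 1 ≤ K ∧ ∀ N, Rec8.sw (BrR 1 N) (fun g => GLf (hgt g - 1) g) ≤ ENNReal.ofReal K * BAR.HH N)
    (hLow : ∃ K : ℝ, 1 ≤ K ∧ ∀ N, ENNReal.ofReal (UU N) ≤ ENNReal.ofReal K * BAR.HH N)
    (hfin : ∀ N, BAR.HH N ≠ ⊤) :
    ∃ K c : ℝ, 1 ≤ K ∧ 0 < c ∧ ∀ (c0 : ℕ) (ε : ℝ), 6 ≤ c0 → 0 < ε → ∃ C1 : ℝ, 1 ≤ C1 ∧ ∀ j N : ℕ, 5 ≤ j → 2 ^ j < N →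
      N ≤ 2 ^ (j + 2) → zN j N ≤ ENNReal.ofReal (C1 / UU N) * BAR.HH N +
        ∑ i ∈ Ico 5 (j + 1 - c0), ENNReal.ofReal (K * (2 : ℝ) ^ (-(c * ((j : ℝ) - i)))) * zz i +
        ENNReal.ofReal ε * (∑ i ∈ Ico (max 5 (j + 1 - c0)) j, zz i + zN j N) := by
  obtain ⟨K0, hK0, hEF⟩ := EF_le
  obtain ⟨K1, c, hK1, hc, hlow⟩ := low_blk h
  obtain ⟨KZ, hKZ, hZ⟩ := hZ
  obtain ⟨KL, hKL, hLow⟩ := hLow
  obtain ⟨K2, hK2, h2s⟩ := two_scale_of (fun h => k3T h)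
  refine ⟨K0 * K1, c, one_le_mul_of_one_le_of_one_le hK0 hK1, hc, fun c0 ε hc0 hε => ?_⟩
  obtain ⟨C2, J, hC2, hhigh⟩ := high_blk h hA (ε / K0) (by positivity)
  obtain ⟨H5, hH5⟩ : ∃ H5 : ℝ, 0 ≤ H5 ∧ 1 + BAR.HH (2 ^ 5) = ENNReal.ofReal H5 := by
    refine ⟨(1 + BAR.HH (2 ^ 5)).toReal, ENNReal.toReal_nonneg, (ENNReal.ofReal_toReal ?_).symm⟩
    exact ENNReal.add_ne_top.2 ⟨ENNReal.one_ne_top, hfin _⟩
  refine ⟨K0 * (K2 * 64 * (2 * H5) * KL + K1 * 64 * KZ + c0 * C2 + C2) + 2 * UU (2 ^ (J + 2)), ?_,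
    fun j N hj hjN hN => ?_⟩
  · have h1 := Num2Aux.UU_pos (2 ^ (J + 2))
    have h0 : 1 ≤ K0 * C2 := one_le_mul_of_one_le_of_one_le hK0 hC2
    have h3 : 0 ≤ K0 * (K2 * 64 * (2 * H5) * KL + K1 * 64 * KZ + c0 * C2) := by
      have := hH5.1
      positivity
    nlinarith
  have hUN : 0 < UU N := Num2Aux.UU_pos N
  have hUk : 0 < Ub (j - 4) := Ub_pos _
  obtain ⟨hH50, hH5⟩ := hH5
  obtain ⟨X, hX⟩ : ∃ X, X = BAR.HH N := ⟨_, rfl⟩
  rw [← hX]
  -- small j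
  rcases Nat.lt_or_ge j J with hJ | hJ
  · have h1 : zN j N ≤ 2 * X := by
      refine le_trans (xT_mono (Ψ := fun _ => X) fun t => ?_) (xT_const _ _ _)
      rw [hX]
      exact gf_mono fun W hW => hW.1
    have h2 : (2 : ℝ≥0∞) ≤ ENNReal.ofReal ((K0 * (K2 * 64 * (2 * H5) * KL + K1 * 64 * KZ + c0 * C2 + C2) +
        2 * UU (2 ^ (J + 2))) / UU N) := by
      have e2 : (2 : ℝ≥0∞) = ENNReal.ofReal 2 := by simp
      rw [e2]
      apply ENNReal.ofReal_le_ofReal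
      rw [le_div_iff₀ hUN]
      have h3 : UU N ≤ UU (2 ^ (J + 2)) := Num2Aux.UU_mono (hN.trans (Nat.pow_le_pow_right (by norm_num) (by omega)))
      have h4 : 0 ≤ K0 * (K2 * 64 * (2 * H5) * KL + K1 * 64 * KZ + c0 * C2 + C2) := by positivity
      linarith
    exact h1.trans ((mul_le_mul_left h2 X).trans (le_add_right (le_add_right le_rfl)))
  -- ratio
  have r1 : UU N ≤ 64 * Ub (j - 4) := by
    have e := UU_ratio_up (j - 4) 6
    have e2 : j - 4 + 6 = j + 2 := by omega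
    rw [e2] at e
    have e3 : UU N ≤ UU (2 ^ (j + 2)) := Num2Aux.UU_mono hN
    unfold Ub
    norm_num at e
    linarith
  have hk : j - 4 + 4 = j := by omega
  obtain ⟨D, hD⟩ : ∃ D : ℕ, D = 2 ^ j := ⟨_, rfl⟩
  obtain ⟨k, hkd⟩ : ∃ k : ℕ, k = j - 4 := ⟨_, rfl⟩
  obtain ⟨m0, hm0⟩ : ∃ m0 : ℕ, m0 = max 5 (j + 1 - c0) := ⟨_, rfl⟩
  have hm0j : m0 ≤ j := by omega
  have hm05 : 5 ≤ m0 := by omega
  obtain ⟨L, hL⟩ : ∃ L : Finset ℕ, L = Ico 5 (j + 1 - c0) := ⟨_, rfl⟩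
  obtain ⟨H, hH⟩ : ∃ H : Finset ℕ, H = Ico m0 j := ⟨_, rfl⟩
  obtain ⟨B, hB⟩ : ∃ B : ℕ → ℕ → List Bool → ℝ≥0∞, B = fun i M g => Bk i M (hgt g - 1) g := ⟨_, rfl⟩
  -- decomposition
  have hpt : ∀ g ∈ BrR D N, 1 + GLf (hgt g - 1) g ≤ ENNReal.ofReal H5 +
      (∑ i ∈ L, B i (2 ^ (i + 1)) g + (∑ i ∈ H, B i (2 ^ (i + 1)) g + B j N g)) := by
    intro g hg
    have hgN : hgt g - 1 ≤ N := by
      obtain ⟨n, -, h2, h3⟩ := hg
      rw [hgt_eq h3]
      omega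
    have h1 := GLf_blocks (i0 := 5) hj hgN g
    have h2 : ∑ i ∈ Ico 5 j, Bk i (2 ^ (i + 1)) (hgt g - 1) g =
        ∑ i ∈ L, B i (2 ^ (i + 1)) g + ∑ i ∈ H, B i (2 ^ (i + 1)) g := by
      rw [hL, hH, hB]
      have h3 : Ico 5 (j + 1 - c0) = Ico 5 m0 := by
        ext x
        simp only [Finset.mem_Ico]
        omega
      rw [h3, Finset.sum_Ico_consecutive _ hm05 hm0j]
    rw [h2] at h1
    rw [← hH5]
    refine (add_le_add_right h1 1).trans (le_of_eq ?_)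
    rw [hB]
    ring
  have hmain : zN j N ≤ ENNReal.ofReal K0 * (xT D k (Op D N (fun _ => ENNReal.ofReal H5)) +
      (∑ i ∈ L, xT D k (Op D N (B i (2 ^ (i + 1)))) + (∑ i ∈ H, xT D k (Op D N (B i (2 ^ (i + 1)))) +
        xT D k (Op D N (B j N))))) := by
    have s1 : zN j N ≤ xT D k (fun t => ENNReal.ofReal K0 * Op D N (fun g => ENNReal.ofReal H5 +
      (∑ i ∈ L, B i (2 ^ (i + 1)) g + (∑ i ∈ H, B i (2 ^ (i + 1)) g + B j N g))) t) := by
      unfold zN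
      rw [← hD, ← hkd]
      refine xT_mono fun t => ?_
      refine (hEF D N (by rw [hD]; exact Nat.one_le_two_pow) (by rw [hD]; exact hjN.le) t).trans ?_
      exact mul_le_mul_right (Op_mono hpt t) _
    refine s1.trans ((xT_smul _ _ _ _).trans (mul_le_mul_right ?_ _))
    have s2 : ∀ t, Op D N (fun g => ENNReal.ofReal H5 +
      (∑ i ∈ L, B i (2 ^ (i + 1)) g + (∑ i ∈ H, B i (2 ^ (i + 1)) g + B j N g))) t =
      Op D N (fun _ => ENNReal.ofReal H5) t + (∑ i ∈ L, Op D N (B i (2 ^ (i + 1))) t +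
        (∑ i ∈ H, Op D N (B i (2 ^ (i + 1))) t + Op D N (B j N) t)) := by
      intro t
      rw [Op_add, Op_add, Op_add, Op_sum, Op_sum]
    refine (xT_mono fun t => (s2 t).le).trans ?_
    refine (xT_add _ _ _ _).trans (add_le_add le_rfl ((xT_add _ _ _ _).trans (add_le_add (xT_sum _ _ _ _)
      ((xT_add _ _ _ _).trans (add_le_add (xT_sum _ _ _ _) le_rfl)))))
  -- the constant
  have hone : 1 ≤ ENNReal.ofReal (KL / UU N) * X := by
    have h1 := hLow N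
    rw [← hX] at h1
    have h2 : ENNReal.ofReal (1 / UU N) * ENNReal.ofReal (UU N) = 1 := by
      rw [← ENNReal.ofReal_mul (by positivity), one_div_mul_cancel hUN.ne', ENNReal.ofReal_one]
    calc (1 : ℝ≥0∞) = ENNReal.ofReal (1 / UU N) * ENNReal.ofReal (UU N) := h2.symm
      _ ≤ ENNReal.ofReal (1 / UU N) * (ENNReal.ofReal KL * X) := mul_le_mul_right h1 _
      _ = ENNReal.ofReal (KL / UU N) * X := by
          rw [← mul_assoc, ← ENNReal.ofReal_mul (by positivity)]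
          congr 2
          ring
  have t1 : xT D k (Op D N (fun _ => ENNReal.ofReal H5)) ≤ ENNReal.ofReal (K2 * 64 * (2 * H5) * KL / UU N) * X := by
    have h1 := h2s D k D k D N (fun _ => ENNReal.ofReal H5) (fun _ _ _ => le_rfl) (by rw [hD, hkd, hk])
      (by rw [hD, hkd, hk]) le_rfl le_rfl (by rw [hD]; exact hjN.le)
    have h2 : xT D k (Op D N (fun _ => ENNReal.ofReal H5)) ≤
        ENNReal.ofReal (K2 * 64) * (2 * ENNReal.ofReal H5) := by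
      refine h1.trans (mul_le_mul' (ENNReal.ofReal_le_ofReal ?_) (xT_const _ _ _))
      rw [hkd]
      gcongr
      rw [div_le_iff₀ hUk]
      exact r1
    have e2 : (2 : ℝ≥0∞) = ENNReal.ofReal 2 := by simp
    calc xT D k (Op D N (fun _ => ENNReal.ofReal H5)) ≤ ENNReal.ofReal (K2 * 64) * (2 * ENNReal.ofReal H5) := h2
      _ = ENNReal.ofReal (K2 * 64 * (2 * H5)) * 1 := by
          rw [e2, ← ENNReal.ofReal_mul (by norm_num), ← ENNReal.ofReal_mul (by positivity), mul_one]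
      _ ≤ ENNReal.ofReal (K2 * 64 * (2 * H5)) * (ENNReal.ofReal (KL / UU N) * X) := mul_le_mul_right hone _
      _ = _ := by
          rw [← mul_assoc, ← ENNReal.ofReal_mul (by positivity)]
          congr 2
          ring
  -- low blocks
  have t2 : ∑ i ∈ L, xT D k (Op D N (B i (2 ^ (i + 1)))) ≤ ENNReal.ofReal (K1 * 64 * KZ / UU N) * X +
      ∑ i ∈ L, ENNReal.ofReal (K1 * (2 : ℝ) ^ (-(c * ((j : ℝ) - i)))) * zz i := by
    calc ∑ i ∈ L, xT D k (Op D N (B i (2 ^ (i + 1)))) ≤ ∑ i ∈ L, (ENNReal.ofReal (K1 / Ub (j - 4)) *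
          Rec8.sw (BrR 1 N) (fun Z => Bk i (2 ^ (i + 1)) (hgt Z - 1) Z) +
          ENNReal.ofReal (K1 * (2 : ℝ) ^ (-(c * ((j : ℝ) - i)))) * zz i) := by
          refine Finset.sum_le_sum fun i hi => ?_
          rw [hL, Finset.mem_Ico] at hi
          rw [hD, hkd, hB]
          exact hlow i j N (by omega) (by omega) hjN.le
      _ = ENNReal.ofReal (K1 / Ub (j - 4)) * Rec8.sw (BrR 1 N) (fun Z => ∑ i ∈ L, Bk i (2 ^ (i + 1)) (hgt Z - 1) Z) +
          ∑ i ∈ L, ENNReal.ofReal (K1 * (2 : ℝ) ^ (-(c * ((j : ℝ) - i)))) * zz i := by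
          rw [Finset.sum_add_distrib, Rec8.sw_sum, Finset.mul_sum]
      _ ≤ ENNReal.ofReal (K1 * 64 / UU N) * (ENNReal.ofReal KZ * X) +
          ∑ i ∈ L, ENNReal.ofReal (K1 * (2 : ℝ) ^ (-(c * ((j : ℝ) - i)))) * zz i := by
          refine add_le_add (mul_le_mul' (ENNReal.ofReal_le_ofReal ?_) ?_) le_rfl
          · rw [div_le_div_iff₀ hUk hUN]
            calc K1 * UU N ≤ K1 * (64 * Ub (j - 4)) := by gcongr
              _ = _ := by ring
          · rw [hX]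
            exact (Rec8.sw_mono' fun g _ => sum_Bk_le L (hgt g - 1) g).trans (hZ N)
      _ = _ := by
          rw [← mul_assoc, ← ENNReal.ofReal_mul (by positivity)]
          congr 3
          ring
  -- high blocks
  have t3 : ∑ i ∈ H, xT D k (Op D N (B i (2 ^ (i + 1)))) ≤ ENNReal.ofReal (c0 * C2 / UU N) * X +
      ENNReal.ofReal (ε / K0) * ∑ i ∈ H, zz i := by
    calc ∑ i ∈ H, xT D k (Op D N (B i (2 ^ (i + 1)))) ≤ ∑ i ∈ H, (ENNReal.ofReal (C2 / UU N) * X +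
          ENNReal.ofReal (ε / K0) * zz i) := by
          refine Finset.sum_le_sum fun i hi => ?_
          rw [hH, Finset.mem_Ico] at hi
          rw [hD, hkd, hB, hX]
          exact hhigh i j (2 ^ (i + 1)) N (by omega) (by omega) hJ hjN.le hN
      _ = (H.card : ℝ≥0∞) * (ENNReal.ofReal (C2 / UU N) * X) + ENNReal.ofReal (ε / K0) * ∑ i ∈ H, zz i := by
          rw [Finset.sum_add_distrib, Finset.sum_const, nsmul_eq_mul, Finset.mul_sum]
      _ ≤ _ := by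
          refine add_le_add ?_ le_rfl
          have h1 : H.card ≤ c0 := by
            rw [hH, Nat.card_Ico]
            omega
          have h2 : (H.card : ℝ≥0∞) ≤ ENNReal.ofReal (c0 : ℝ) := by
            rw [ENNReal.ofReal_natCast]
            exact_mod_cast h1
          rw [← mul_assoc]
          refine mul_le_mul_left ?_ X
          calc (H.card : ℝ≥0∞) * ENNReal.ofReal (C2 / UU N) ≤ ENNReal.ofReal (c0 : ℝ) * ENNReal.ofReal (C2 / UU N) := by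
                gcongr
            _ = ENNReal.ofReal (c0 * C2 / UU N) := by
                rw [← ENNReal.ofReal_mul (by positivity)]
                congr 1
                ring
  have t4 : xT D k (Op D N (B j N)) ≤ ENNReal.ofReal (C2 / UU N) * X + ENNReal.ofReal (ε / K0) * zN j N := by
    rw [hD, hkd, hB, hX]
    exact hhigh j j N N (by omega) le_rfl hJ hjN.le hN
  refine hmain.trans ((mul_le_mul_right (add_le_add t1 (add_le_add t2 (add_le_add t3 t4))) _).trans ?_)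
  have e1 : ∑ i ∈ L, ENNReal.ofReal (K0 * K1 * (2 : ℝ) ^ (-(c * ((j : ℝ) - i)))) * zz i =
      ENNReal.ofReal K0 * ∑ i ∈ L, ENNReal.ofReal (K1 * (2 : ℝ) ^ (-(c * ((j : ℝ) - i)))) * zz i := by
    rw [Finset.mul_sum]
    refine Finset.sum_congr rfl fun i _ => ?_
    rw [← mul_assoc, ← ENNReal.ofReal_mul (by positivity)]
    congr 2
    ring
  have e2 : ENNReal.ofReal ε = ENNReal.ofReal K0 * ENNReal.ofReal (ε / K0) := by
    rw [← ENNReal.ofReal_mul (by positivity)]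
    congr 1
    field_simp
  have e3 : ENNReal.ofReal K0 * (ENNReal.ofReal (K2 * 64 * (2 * H5) * KL / UU N) +
      ENNReal.ofReal (K1 * 64 * KZ / UU N) + ENNReal.ofReal (c0 * C2 / UU N) + ENNReal.ofReal (C2 / UU N)) ≤
      ENNReal.ofReal ((K0 * (K2 * 64 * (2 * H5) * KL + K1 * 64 * KZ + c0 * C2 + C2) + 2 * UU (2 ^ (J + 2))) / UU N) := by
    rw [← ENNReal.ofReal_add (by positivity) (by positivity), ← ENNReal.ofReal_add (by positivity) (by positivity),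
      ← ENNReal.ofReal_add (by positivity) (by positivity), ← ENNReal.ofReal_mul (by positivity)]
    apply ENNReal.ofReal_le_ofReal
    have h1 := Num2Aux.UU_pos (2 ^ (J + 2))
    have e4 : K0 * (K2 * 64 * (2 * H5) * KL / UU N + K1 * 64 * KZ / UU N + c0 * C2 / UU N + C2 / UU N) =
        K0 * (K2 * 64 * (2 * H5) * KL + K1 * 64 * KZ + c0 * C2 + C2) / UU N := by ring
    rw [e4]
    gcongr
    linarith
  rw [← hm0, ← hH, ← hL, e1, e2]
  refine le_trans (le_of_eq ?_) (add_le_add (add_le_add (mul_le_mul_left e3 X) le_rfl) le_rfl)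
  ring

end NTW

end HexObs
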