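import Pool.Agent.NTW.EvQSum
import Pool.Agent.NTW.DmJ
import Pool.Agent.NTW.EventDefs

/-!
NTW (doc NTW/37Q, section E): the bound of the two sums of EvQSum as a literal statement.
-/

set_option autoImplicit false

namespace HexObs

namespace NTW

open Finset TS SDN SDN.CN NTm EQS

open scoped ENNReal

/-- the functional behind the leaf in S -/
noncomputable def GZ (W : ℕ → Set (List Bool)) (kp : ℕ → ℕ) (n : ℕ) (Φ : ℕ → List Bool → ℝ≥0∞) (M : ℕ) (t : List Bool) :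
    ℝ≥0∞ := Φ 0 t + FZ W kp n Φ M 0 t

/-- the bound of the sums over the monotone chains with two free ends -/
def FunZ : Prop := ∃ Q : ℝ, 1 ≤ Q ∧ ∀ (kc J n : ℕ) (W : ℕ → Set (List Bool)) (kp : ℕ → ℕ) (S : Set (List Bool)) (δ : ℝ)
  (x : ℝ≥0∞) (Φ : ℕ → List Bool → ℝ≥0∞), Wnd kc J n W kp → 1 ≤ n → 0 < δ → SmD DmJ kc S δ →
  (∀ i, i < n → DmJ (kp i) x (Φ i)) → Flp (2 ^ (kc + 4)) (Φ 0) → ∀ M M' : ℕ,
    Rec8.sw S (fun g => Φ 0 (rev g) * GZ W kp n Φ M g) +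
      ∑ i ∈ range n, Rec8.sw (W i) (fun g => Φ i (rev g) * (vA (2 ^ (kc + 4)) S (GZ W kp n Φ M) g +
        ∑ i' ∈ range n, vA (2 ^ (kp (min i i') + 4)) (W i')
          (FL W kp (vA (2 ^ (kc + 4)) S (GZ W kp n Φ M)) M' i') g)) ≤
    ENNReal.ofReal (Q ^ (n + J + 1) * δ * Ub (kc + J)) * x ^ 2

end NTW

end HexObs
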