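import Pool.Agent.NTQ.Sum

/-!
NTW (doc NTW/37Q, section E): sums over the monotone chains with weights of the first and of the last piece; the windows
of the first and of the last piece are not constrained.
-/

set_option autoImplicit false

namespace HexObs

namespace NTW

open Finset TS SDN SDN.CN NTm

open scoped ENNReal

namespace EQS

/-- the last piece z behind a piece of the window i -/
noncomputable def Zf (W : ℕ → Set (List Bool)) (kp : ℕ → ℕ) (n : ℕ) (Φ : ℕ → List Bool → ℝ≥0∞) (i : ℕ) (t : List Bool) :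
    ℝ≥0∞ := ∑ i' ∈ range n, vA (2 ^ (kp (min i i') + 4)) (W i') (Φ i') t

/-- the right continuations with at most M + 1 pieces, windows number ≥ i in increasing order, last piece free -/
noncomputable def FZ (W : ℕ → Set (List Bool)) (kp : ℕ → ℕ) (n : ℕ) (Φ : ℕ → List Bool → ℝ≥0∞) :
    ℕ → ℕ → List Bool → ℝ≥0∞
  | 0, i => Zf W kp n Φ i
  | M + 1, i => fun t => Zf W kp n Φ i t + ∑ i' ∈ Ico i n, vA (2 ^ (kp i + 4)) (W i') (FZ W kp n Φ M i') t

/-- right parts: windows number ≥ i in increasing order, last piece free -/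
def IncZ (W : ℕ → Set (List Bool)) (n : ℕ) : ℕ → List (List Bool) → Prop
  | _, [] => False
  | i, g :: gs => (gs = [] ∧ ∃ i', i' < n ∧ g ∈ W i') ∨ ∃ i', i ≤ i' ∧ i' < n ∧ g ∈ W i' ∧ IncZ W n i' gs

/-- the part behind the leaf in S: nothing (b) or a right part -/
def AftZ (W : ℕ → Set (List Bool)) (n : ℕ) (b : Prop) (gs : List (List Bool)) : Prop := (b ∧ gs = []) ∨ (¬ b ∧ IncZ W n 0 gs)

/-- windows number < i in decreasing order (not strictly), a leaf in S, a right part with at most M pieces -/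
def DecZ (W : ℕ → Set (List Bool)) (n M : ℕ) (S : Set (List Bool)) (b : Prop) : ℕ → List (List Bool) → Prop
  | _, [] => False
  | i, g :: gs => (g ∈ S ∧ gs.length ≤ M ∧ AftZ W n b gs) ∨ ∃ i', i' < i ∧ g ∈ W i' ∧ DecZ W n M S b (i' + 1) gs

/-- sums over the chains by the first piece, with a weight of the last one -/
lemma sum_consW (w : List Bool → ℝ≥0∞) (s : Finset ℕ) (A : ℕ → Set (List Bool)) (F : ℕ → List Bool → ℝ≥0∞)
    (v : List Bool → ℝ≥0∞) (c : List (List Bool) → Prop)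
    (c' : ℕ → List Bool → List (List Bool) → Prop) [∀ gs, Decidable (c gs)] [∀ i g gs, Decidable (c' i g gs)]
    (h : ∀ g gs, c (g :: gs) → ∃ i ∈ s, g ∈ A i ∧ c' i g gs)
    (hF : ∀ i ∈ s, ∀ g ∈ A i,
      (∑' gs : List (List Bool), if c' i g gs then v g * (SDN.wl gs * w (gs.getLastD g)) else 0) ≤ F i g) :
    ∑' g : List Bool, ∑' gs : List (List Bool),
      (if c (g :: gs) then v g * (SDN.wl (g :: gs) * w (gs.getLastD g)) else 0) ≤ ∑ i ∈ s, Rec8.sw (A i) (F i) := by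
  classical
  have h1 : ∑ i ∈ s, Rec8.sw (A i) (F i) = ∑' g : List Bool, ∑ i ∈ s, (if g ∈ A i then wE g * F i g else 0) := by
    rw [Summable.tsum_finsetSum (fun _ _ => ENNReal.summable)]
    exact Finset.sum_congr rfl fun i _ => Rec8.sw_ind _ _
  rw [h1]
  refine ENNReal.tsum_le_tsum fun g => ?_
  have h2 : ∑' gs : List (List Bool), (if c (g :: gs) then v g * (SDN.wl (g :: gs) * w (gs.getLastD g)) else 0) ≤
      ∑' gs : List (List Bool), ∑ i ∈ s, (if g ∈ A i then wE g * (if c' i g gs then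
        v g * (SDN.wl gs * w (gs.getLastD g)) else 0) else 0) := by
    refine ENNReal.tsum_le_tsum fun gs => ?_
    by_cases hc : c (g :: gs)
    · rw [if_pos hc]
      obtain ⟨i, hi, hg, hc'⟩ := h g gs hc
      refine le_trans ?_ (Finset.single_le_sum (f := fun i => (if g ∈ A i then wE g * (if c' i g gs then
        v g * (SDN.wl gs * w (gs.getLastD g)) else 0) else 0)) (fun _ _ => zero_le) hi)
      simp only [if_pos hg, if_pos hc', NTm.wl_cons]
      apply le_of_eq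
      ring
    · rw [if_neg hc]
      exact zero_le
  refine h2.trans ?_
  rw [Summable.tsum_finsetSum (fun _ _ => ENNReal.summable)]
  refine Finset.sum_le_sum fun i hi => ?_
  by_cases hg : g ∈ A i
  · simp only [if_pos hg]
    rw [ENNReal.tsum_mul_left]
    exact mul_le_mul_right (hF i hi g hg) _
  · simp only [if_neg hg, tsum_zero, le_refl]

/-- the sum with the weight of the last piece, by the first piece -/
lemma step_sum (w : List Bool → ℝ≥0∞) (s : Finset ℕ) (A : ℕ → Set (List Bool)) (F : ℕ → List Bool → ℝ≥0∞)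
    (c : List (List Bool) → Prop) (c' : ℕ → List Bool → List (List Bool) → Prop) [∀ gs, Decidable (c gs)]
    [∀ i g gs, Decidable (c' i g gs)] (h0 : ¬ c []) (g0 : List Bool)
    (h : ∀ g gs, c (g :: gs) → ∃ i ∈ s, g ∈ A i ∧ c' i g gs)
    (hF : ∀ i ∈ s, ∀ g ∈ A i, (∑' gs : List (List Bool), if c' i g gs then SDN.wl gs * w (gs.getLastD g) else 0) ≤ F i g) :
    ∑' gs : List (List Bool), (if c gs then SDN.wl gs * w (gs.getLastD g0) else 0) ≤ ∑ i ∈ s, Rec8.sw (A i) (F i) := by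
  refine (CCh.tsum_list _ (if_neg h0)).trans ?_
  have h1 := sum_consW w s A F (fun _ => 1) c c' h (by simpa only [one_mul] using hF)
  refine le_trans (le_of_eq ?_) h1
  refine tsum_congr fun g => tsum_congr fun gs => ?_
  simp only [one_mul, List.getLastD_cons]

lemma sum_or (c c1 c2 : List (List Bool) → Prop) [∀ gs, Decidable (c gs)] [∀ gs, Decidable (c1 gs)]
    [∀ gs, Decidable (c2 gs)] (h : ∀ gs, c gs → c1 gs ∨ c2 gs) (f : List (List Bool) → ℝ≥0∞) :
    ∑' gs, (if c gs then f gs else 0) ≤ ∑' gs, (if c1 gs then f gs else 0) + ∑' gs, (if c2 gs then f gs else 0) := by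
  rw [← ENNReal.tsum_add]
  refine ENNReal.tsum_le_tsum fun gs => ?_
  by_cases hc : c gs
  · rw [if_pos hc]
    rcases h gs hc with h1 | h1
    · rw [if_pos h1]
      exact le_self_add
    · rw [if_pos h1]
      exact le_add_self
  · rw [if_neg hc]
    exact zero_le

lemma sum_nil (c : List (List Bool) → Prop) [∀ gs, Decidable (c gs)] (h : ∀ gs, c gs → gs = []) (f : List (List Bool) → ℝ≥0∞) :
    ∑' gs, (if c gs then f gs else 0) ≤ f [] := by
  rw [tsum_eq_single []]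
  · split_ifs
    · exact le_rfl
    · exact zero_le
  · intro gs hgs
    rw [if_neg]
    exact fun hc => hgs (h gs hc)

section

variable {kc J n : ℕ} {W : ℕ → Set (List Bool)} {kp : ℕ → ℕ} {Φ : ℕ → List Bool → ℝ≥0∞} {w : List Bool → ℝ≥0∞}

lemma HB_lt (hW : Wnd kc J n W kp) {i i' : ℕ} {g : List Bool} (h : i' ≤ i) (hg : g ∈ HB (2 ^ (kp i + 4))) :
    g ∈ HB (2 ^ (kp i' + 4)) := by
  obtain ⟨h, a1, a2⟩ := hg
  exact ⟨h, (Nat.pow_le_pow_right (by norm_num) (Nat.add_le_add_right (hW.mono i' i ‹_›) 4)).trans a1, a2⟩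

lemma HB_W (hW : Wnd kc J n W kp) {i : ℕ} {g : List Bool} (hi : i < n) (hg : g ∈ W i) : g ∈ HB (2 ^ (kp i + 4)) := by
  obtain ⟨h, a1, a2, a3⟩ := hW.sub i hi hg
  exact ⟨h, a1, a3⟩

/-- the last piece behind g -/
lemma TZ_le (hW : Wnd kc J n W kp) (hw : ∀ i, i < n → ∀ g ∈ W i, w g ≤ Φ i g) (i : ℕ) (g : List Bool)
    (hg : g ∈ HB (2 ^ (kp i + 4))) (c : List (List Bool) → Prop) [∀ gs, Decidable (c gs)]
    (hc : ∀ g' gs, c (g' :: gs) → gs = [] ∧ LFold g g' ∧ ∃ i', i' < n ∧ g' ∈ W i') (h0 : ¬ c []) :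
    (∑' gs : List (List Bool), if c gs then SDN.wl gs * w (gs.getLastD g) else 0) ≤ Zf W kp n Φ i g := by
  classical
  refine step_sum w (range n) (fun i' => {g' | g' ∈ W i' ∧ RT (2 ^ (kp (min i i') + 4)) LFold g g'}) Φ c
    (fun _ _ gs => gs = []) h0 g ?_ ?_
  · intro g' gs hcc
    obtain ⟨h1, h2, i', h3, h4⟩ := hc g' gs hcc
    exact ⟨i', Finset.mem_range.2 h3, ⟨h4, RT_of (HB_lt hW (min_le_left i i') hg) h2⟩, h1⟩
  · rintro i' hi' g' ⟨h5, -⟩
    refine (sum_nil _ (fun gs h => h) _).trans ?_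
    rw [NTm.wl_nil, one_mul]
    exact hw i' (Finset.mem_range.1 hi') g' h5

open Classical in
/-- right chains behind the piece g -/
lemma TR_leZ (hW : Wnd kc J n W kp) (hw : ∀ i, i < n → ∀ g ∈ W i, w g ≤ Φ i g) (M : ℕ) :
    ∀ (i : ℕ) (g : List Bool), g ∈ HB (2 ^ (kp i + 4)) →
    (∑' gs : List (List Bool), if gs.length ≤ M + 1 ∧ (g :: gs).IsChain LFold ∧ IncZ W n i gs then
      SDN.wl gs * w (gs.getLastD g) else 0) ≤ FZ W kp n Φ M i g := by
  induction M with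
  | zero =>
    intro i g hg
    refine TZ_le hW hw i g hg (fun gs => gs.length ≤ 0 + 1 ∧ (g :: gs).IsChain LFold ∧ IncZ W n i gs) ?_
      (fun h => h.2.2)
    rintro g' gs ⟨h1, h2, h3⟩
    rw [List.isChain_cons_cons] at h2
    rw [List.length_cons] at h1
    have h0 : gs = [] := List.length_eq_zero_iff.1 (by omega)
    subst h0
    rcases h3 with ⟨-, h4⟩ | ⟨i', -, -, -, h4⟩
    · exact ⟨rfl, h2.1, h4⟩
    · exact h4.elim
  | succ M ih =>
    intro i g hg
    refine (sum_or _ (fun gs => (g :: gs).IsChain LFold ∧ ∃ g', gs = [g'] ∧ ∃ i', i' < n ∧ g' ∈ W i')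
      (fun gs => gs.length ≤ M + 1 + 1 ∧ (g :: gs).IsChain LFold ∧ ∃ g' gs', gs = g' :: gs' ∧ ∃ i', i ≤ i' ∧ i' < n ∧
        g' ∈ W i' ∧ IncZ W n i' gs') ?_ _).trans (add_le_add ?_ ?_)
    · rintro gs ⟨h1, h2, h3⟩
      cases gs with
      | nil => exact h3.elim
      | cons g' gs =>
        rcases h3 with ⟨h4, h5⟩ | h4
        · subst h4
          exact Or.inl ⟨h2, g', rfl, h5⟩
        · exact Or.inr ⟨h1, h2, g', gs, rfl, h4⟩
    · refine TZ_le hW hw i g hg _ ?_ ?_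
      · rintro g' gs ⟨h2, g1, h3, h4⟩
        rw [List.isChain_cons_cons] at h2
        rw [List.cons.injEq] at h3
        obtain ⟨rfl, rfl⟩ := h3
        exact ⟨rfl, h2.1, h4⟩
      · rintro ⟨-, g', h3, -⟩
        exact absurd h3 (by simp)
    · refine step_sum w (Ico i n) (fun i' => {g' | g' ∈ W i' ∧ RT (2 ^ (kp i + 4)) LFold g g'}) (fun i' => FZ W kp n Φ M i')
        _ (fun i' g' gs => gs.length ≤ M + 1 ∧ (g' :: gs).IsChain LFold ∧ IncZ W n i' gs) ?_ g ?_ ?_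
      · rintro ⟨-, -, g', gs', h3, -⟩
        exact absurd h3 (by simp)
      · rintro g' gs ⟨h1, h2, g1, gs1, h3, i', h4, h5, h6, h7⟩
        rw [List.cons.injEq] at h3
        obtain ⟨rfl, rfl⟩ := h3
        rw [List.isChain_cons_cons] at h2
        rw [List.length_cons] at h1
        exact ⟨i', Finset.mem_Ico.2 ⟨h4, h5⟩, ⟨h6, RT_of hg h2.1⟩, by omega, h2.2, h7⟩
      · rintro i' hi' g' ⟨h5, -⟩
        exact ih i' g' (HB_W hW (Finset.mem_Ico.1 hi').2 h5)

variable {S : Set (List Bool)} {b : Prop}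

open Classical in
/-- behind the leaf in S -/
lemma TS_le (hW : Wnd kc J n W kp) (hw : ¬ b → ∀ i, i < n → ∀ g ∈ W i, w g ≤ Φ i g) (hwS : b → ∀ g ∈ S, w g ≤ Φ 0 g)
    (hS : S ⊆ HB (2 ^ (kc + 4))) (M : ℕ) (g : List Bool) (hg : g ∈ S) :
    (∑' gs : List (List Bool), if gs.length ≤ M + 1 ∧ (g :: gs).IsChain LFold ∧ AftZ W n b gs then
      SDN.wl gs * w (gs.getLastD g) else 0) ≤ Φ 0 g + FZ W kp n Φ M 0 g := by
  by_cases hb : b
  · refine (sum_nil _ ?_ _).trans ?_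
    · rintro gs ⟨-, -, h | h⟩
      · exact h.2
      · exact absurd hb h.1
    · rw [NTm.wl_nil, one_mul]
      exact (hwS hb g hg).trans le_self_add
  · refine le_trans ?_ ((TR_leZ hW (hw hb) M 0 g (by rw [hW.zero]; exact hS hg)).trans le_add_self)
    refine ENNReal.tsum_le_tsum fun gs => ?_
    split_ifs with h1 h2
    · exact le_rfl
    · exfalso
      apply h2
      obtain ⟨a1, a2, a3 | a3⟩ := h1
      · exact absurd a3.1 hb
      · exact ⟨a1, a2, a3.2⟩
    · exact zero_le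
    · exact le_rfl

open Classical in
/-- left chains behind the piece g, the leaf in S and the right chains -/
lemma TL_leZ (hW : Wnd kc J n W kp) (hw : ¬ b → ∀ i, i < n → ∀ g ∈ W i, w g ≤ Φ i g)
    (hwS : b → ∀ g ∈ S, w g ≤ Φ 0 g) (hS : S ⊆ HB (2 ^ (kc + 4))) (M M' : ℕ) :
    ∀ (i : ℕ) (g : List Bool), i < n → g ∈ HB (2 ^ (kp i + 4)) →
    (∑' gs : List (List Bool), if gs.length ≤ M' + 1 ∧ (g :: gs).IsChain LFold ∧ DecZ W n (M + 1) S b (i + 1) gs then
      SDN.wl gs * w (gs.getLastD g) else 0) ≤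
      FL W kp (vA (2 ^ (kc + 4)) S (fun t => Φ 0 t + FZ W kp n Φ M 0 t)) M' i g := by
  have hmono : ∀ (i : ℕ) (g : List Bool), g ∈ HB (2 ^ (kp i + 4)) → g ∈ HB (2 ^ (kc + 4)) := by
    intro i g hg
    have := HB_lt hW (Nat.zero_le i) hg
    rwa [hW.zero] at this
  obtain ⟨G, hG⟩ : ∃ G : List Bool → ℝ≥0∞, G = fun t => Φ 0 t + FZ W kp n Φ M 0 t := ⟨_, rfl⟩
  rw [← hG]
  have hR : ∀ g ∈ S, (∑' gs : List (List Bool), if gs.length ≤ M + 1 ∧ (g :: gs).IsChain LFold ∧ AftZ W n b gs then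
      SDN.wl gs * w (gs.getLastD g) else 0) ≤ G g := fun g hg => by
    rw [hG]
    exact TS_le hW hw hwS hS M g hg
  -- the leaf in S behind g
  have hSg : ∀ (g : List Bool), g ∈ HB (2 ^ (kc + 4)) → ∀ (c : List (List Bool) → Prop) [∀ gs, Decidable (c gs)], ¬ c [] →
      (∀ g' gs, c (g' :: gs) → LFold g g' ∧ g' ∈ S ∧ gs.length ≤ M + 1 ∧ (g' :: gs).IsChain LFold ∧ AftZ W n b gs) →
      (∑' gs : List (List Bool), if c gs then SDN.wl gs * w (gs.getLastD g) else 0) ≤ vA (2 ^ (kc + 4)) S G g := by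
    intro g hg c _ h0 hc
    refine (step_sum w (range 1) (fun _ => {g' | g' ∈ S ∧ RT (2 ^ (kc + 4)) LFold g g'}) (fun _ => G) c
      (fun _ g' gs => gs.length ≤ M + 1 ∧ (g' :: gs).IsChain LFold ∧ AftZ W n b gs) h0 g ?_ ?_).trans ?_
    · intro g' gs h
      obtain ⟨h1, h2, h3, h4, h5⟩ := hc g' gs h
      exact ⟨0, Finset.mem_range.2 (by omega), ⟨h2, RT_of hg h1⟩, h3, h4, h5⟩
    · rintro _ _ g' ⟨h5, -⟩
      exact hR g' h5
    · rw [Finset.sum_range_one]
      exact le_rfl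
  induction M' with
  | zero =>
    intro i g hi hg
    refine hSg g (hmono i g hg) (fun gs => gs.length ≤ 0 + 1 ∧ (g :: gs).IsChain LFold ∧
      DecZ W n (M + 1) S b (i + 1) gs) (fun h => h.2.2) ?_
    rintro g' gs ⟨h1, h2, h3⟩
    rw [List.isChain_cons_cons] at h2
    rw [List.length_cons] at h1
    have h0 : gs = [] := List.length_eq_zero_iff.1 (by omega)
    rcases h3 with ⟨h4, h5, h6⟩ | ⟨i', h4, h5, h6⟩
    · exact ⟨h2.1, h4, h5, h2.2, h6⟩
    · rw [h0] at h6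
      exact h6.elim
  | succ M' ih =>
    intro i g hi hg
    refine (sum_or _ (fun gs => (g :: gs).IsChain LFold ∧ ∃ g' gs', gs = g' :: gs' ∧ g' ∈ S ∧ gs'.length ≤ M + 1 ∧
        AftZ W n b gs')
      (fun gs => gs.length ≤ M' + 1 + 1 ∧ (g :: gs).IsChain LFold ∧ ∃ g' gs', gs = g' :: gs' ∧ ∃ i', i' < i + 1 ∧
        g' ∈ W i' ∧ DecZ W n (M + 1) S b (i' + 1) gs') ?_ _).trans (add_le_add ?_ ?_)
    · rintro gs ⟨h1, h2, h3⟩
      cases gs with
      | nil => exact h3.elim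
      | cons g' gs =>
        rcases h3 with h4 | h4
        · exact Or.inl ⟨h2, g', gs, rfl, h4⟩
        · exact Or.inr ⟨h1, h2, g', gs, rfl, h4⟩
    · refine hSg g (hmono i g hg) _ ?_ ?_
      · rintro ⟨-, g', gs', h3, -⟩
        exact absurd h3 (by simp)
      · rintro g' gs ⟨h2, g1, gs1, h3, h4, h5, h6⟩
        rw [List.cons.injEq] at h3
        obtain ⟨rfl, rfl⟩ := h3
        rw [List.isChain_cons_cons] at h2
        exact ⟨h2.1, h4, h5, h2.2, h6⟩
    · refine step_sum w (range (i + 1)) (fun i' => {g' | g' ∈ W i' ∧ RT (2 ^ (kp i' + 4)) LFold g g'})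
        (fun i' => FL W kp (vA (2 ^ (kc + 4)) S G) M' i') _
        (fun i' g' gs => gs.length ≤ M' + 1 ∧ (g' :: gs).IsChain LFold ∧ DecZ W n (M + 1) S b (i' + 1) gs) ?_ g ?_ ?_
      · rintro ⟨-, -, g', gs', h3, -⟩
        exact absurd h3 (by simp)
      · rintro g' gs ⟨h1, h2, g1, gs1, h3, i', h4, h5, h6⟩
        rw [List.cons.injEq] at h3
        obtain ⟨rfl, rfl⟩ := h3
        rw [List.isChain_cons_cons] at h2
        rw [List.length_cons] at h1
        exact ⟨i', Finset.mem_range.2 h4, ⟨h5, RT_of (HB_lt hW (by omega) hg) h2.1⟩, by omega, h2.2, h6⟩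
      · rintro i' hi' g' ⟨h5, -⟩
        have hi'n : i' < n := by
          have := Finset.mem_range.1 hi'
          omega
        exact ih i' g' hi'n (HB_W hW hi'n h5)

open Classical in
/-- THE SUM: the leaf in S is the first piece -/
theorem sum_first (hW : Wnd kc J n W kp) (hw : ¬ b → ∀ i, i < n → ∀ g ∈ W i, w g ≤ Φ i g)
    (hwS : b → ∀ g ∈ S, w g ≤ Φ 0 g) (hS : S ⊆ HB (2 ^ (kc + 4))) (M : ℕ) (v Ψ : List Bool → ℝ≥0∞)
    (hv : ∀ g ∈ S, v g ≤ Ψ g) :
    (∑' gs : List (List Bool), if gs.IsChain LFold ∧ ∃ g gs', gs = g :: gs' ∧ g ∈ S ∧ gs'.length ≤ M + 1 ∧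
      AftZ W n b gs' then SDN.wl gs * (v (gs.headD []) * w (gs.getLastD [])) else 0) ≤
      Rec8.sw S (fun g => Ψ g * (Φ 0 g + FZ W kp n Φ M 0 g)) := by
  refine (CCh.tsum_list _ (if_neg ?_)).trans ?_
  · rintro ⟨-, g, gs', h, -⟩
    exact absurd h (by simp)
  have h1 := sum_consW w (range 1) (fun _ => S) (fun _ g => Ψ g * (Φ 0 g + FZ W kp n Φ M 0 g)) v
    (fun gs => gs.IsChain LFold ∧ ∃ g gs', gs = g :: gs' ∧ g ∈ S ∧ gs'.length ≤ M + 1 ∧ AftZ W n b gs')
    (fun _ g gs => gs.length ≤ M + 1 ∧ (g :: gs).IsChain LFold ∧ AftZ W n b gs) ?_ ?_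
  · rw [Finset.sum_range_one] at h1
    refine le_trans (le_of_eq ?_) h1
    refine tsum_congr fun g => tsum_congr fun gs => ?_
    simp only [List.headD_cons, List.getLastD_cons]
    split_ifs
    · ring
    · rfl
  · rintro g gs ⟨h2, g1, gs1, h3, h4, h5, h6⟩
    rw [List.cons.injEq] at h3
    obtain ⟨rfl, rfl⟩ := h3
    exact ⟨0, Finset.mem_range.2 (by omega), h4, h5, h2, h6⟩
  · rintro _ _ g hg
    have h2 := TS_le hW hw hwS hS M g hg
    have h3 : (∑' gs : List (List Bool), if gs.length ≤ M + 1 ∧ (g :: gs).IsChain LFold ∧ AftZ W n b gs then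
        v g * (SDN.wl gs * w (gs.getLastD g)) else 0) = v g * ∑' gs : List (List Bool),
        (if gs.length ≤ M + 1 ∧ (g :: gs).IsChain LFold ∧ AftZ W n b gs then SDN.wl gs * w (gs.getLastD g) else 0) := by
      rw [← ENNReal.tsum_mul_left]
      exact tsum_congr fun gs => by split_ifs <;> simp
    rw [h3]
    exact mul_le_mul' (hv g hg) h2

open Classical in
/-- THE SUM: the first piece is in a window -/
theorem sum_left (hW : Wnd kc J n W kp) (hw : ¬ b → ∀ i, i < n → ∀ g ∈ W i, w g ≤ Φ i g)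
    (hwS : b → ∀ g ∈ S, w g ≤ Φ 0 g) (hS : S ⊆ HB (2 ^ (kc + 4))) (M M' : ℕ) (v : List Bool → ℝ≥0∞)
    (Ψ : ℕ → List Bool → ℝ≥0∞) (hv : ∀ i, i < n → ∀ g ∈ W i, v g ≤ Ψ i g) :
    (∑' gs : List (List Bool), if gs.IsChain LFold ∧ ∃ g gs', gs = g :: gs' ∧ (∃ i, i < n ∧ g ∈ W i) ∧
      gs'.length ≤ M' + 1 ∧ DecZ W n (M + 1) S b n gs' then SDN.wl gs * (v (gs.headD []) * w (gs.getLastD [])) else 0) ≤
      ∑ i ∈ range n, Rec8.sw (W i) (fun g => Ψ i g * (vA (2 ^ (kc + 4)) S (fun t => Φ 0 t + FZ W kp n Φ M 0 t) g +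
        ∑ i' ∈ range n, vA (2 ^ (kp (min i i') + 4)) (W i')
          (FL W kp (vA (2 ^ (kc + 4)) S (fun t => Φ 0 t + FZ W kp n Φ M 0 t)) M' i') g)) := by
  obtain ⟨G, hG⟩ : ∃ G : List Bool → ℝ≥0∞, G = fun t => Φ 0 t + FZ W kp n Φ M 0 t := ⟨_, rfl⟩
  rw [← hG]
  have hR : ∀ g ∈ S, (∑' gs : List (List Bool), if gs.length ≤ M + 1 ∧ (g :: gs).IsChain LFold ∧ AftZ W n b gs then
      SDN.wl gs * w (gs.getLastD g) else 0) ≤ G g := fun g hg => by
    rw [hG]
    exact TS_le hW hw hwS hS M g hg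
  have hL : ∀ (i : ℕ) (g : List Bool), i < n → g ∈ HB (2 ^ (kp i + 4)) →
    (∑' gs : List (List Bool), if gs.length ≤ M' + 1 ∧ (g :: gs).IsChain LFold ∧ DecZ W n (M + 1) S b (i + 1) gs then
      SDN.wl gs * w (gs.getLastD g) else 0) ≤ FL W kp (vA (2 ^ (kc + 4)) S G) M' i g := by
    rw [hG]
    exact TL_leZ hW hw hwS hS M M'
  refine (CCh.tsum_list _ (if_neg ?_)).trans ?_
  · rintro ⟨-, g, gs', h, -⟩
    exact absurd h (by simp)
  have h1 := sum_consW w (range n) W (fun i g => Ψ i g * (vA (2 ^ (kc + 4)) S G g + ∑ i' ∈ range n,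
      vA (2 ^ (kp (min i i') + 4)) (W i') (FL W kp (vA (2 ^ (kc + 4)) S G) M' i') g)) v
    (fun gs => gs.IsChain LFold ∧ ∃ g gs', gs = g :: gs' ∧ (∃ i, i < n ∧ g ∈ W i) ∧ gs'.length ≤ M' + 1 ∧
      DecZ W n (M + 1) S b n gs')
    (fun _ g gs => gs.length ≤ M' + 1 ∧ (g :: gs).IsChain LFold ∧ DecZ W n (M + 1) S b n gs) ?_ ?_
  · refine le_trans (le_of_eq ?_) h1
    refine tsum_congr fun g => tsum_congr fun gs => ?_
    simp only [List.headD_cons, List.getLastD_cons]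
    split_ifs
    · ring
    · rfl
  · rintro g gs ⟨h2, g1, gs1, h3, ⟨i, h4, h4'⟩, h5, h6⟩
    rw [List.cons.injEq] at h3
    obtain ⟨rfl, rfl⟩ := h3
    exact ⟨i, Finset.mem_range.2 h4, h4', h5, h2, h6⟩
  · rintro i hi g hg
    rw [Finset.mem_range] at hi
    have hgB := HB_W hW hi hg
    have hg0 : g ∈ HB (2 ^ (kc + 4)) := by
      have := HB_lt hW (Nat.zero_le i) hgB
      rwa [hW.zero] at this
    have h3 : (∑' gs : List (List Bool), if gs.length ≤ M' + 1 ∧ (g :: gs).IsChain LFold ∧ DecZ W n (M + 1) S b n gs then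
        v g * (SDN.wl gs * w (gs.getLastD g)) else 0) = v g * ∑' gs : List (List Bool),
        (if gs.length ≤ M' + 1 ∧ (g :: gs).IsChain LFold ∧ DecZ W n (M + 1) S b n gs then
          SDN.wl gs * w (gs.getLastD g) else 0) := by
      rw [← ENNReal.tsum_mul_left]
      exact tsum_congr fun gs => by split_ifs <;> simp
    rw [h3]
    refine mul_le_mul' (hv i hi g hg) ?_
    refine (sum_or _ (fun gs => (g :: gs).IsChain LFold ∧ ∃ g' gs', gs = g' :: gs' ∧ g' ∈ S ∧ gs'.length ≤ M + 1 ∧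
        AftZ W n b gs')
      (fun gs => gs.length ≤ M' + 1 ∧ (g :: gs).IsChain LFold ∧ ∃ g' gs', gs = g' :: gs' ∧ ∃ i', i' < n ∧
        g' ∈ W i' ∧ DecZ W n (M + 1) S b (i' + 1) gs') ?_ _).trans (add_le_add ?_ ?_)
    · rintro gs ⟨h1, h2, h3⟩
      cases gs with
      | nil => exact h3.elim
      | cons g' gs =>
        rcases h3 with h4 | h4
        · exact Or.inl ⟨h2, g', gs, rfl, h4⟩
        · exact Or.inr ⟨h1, h2, g', gs, rfl, h4⟩
    · refine (step_sum w (range 1) (fun _ => {g' | g' ∈ S ∧ RT (2 ^ (kc + 4)) LFold g g'}) (fun _ => G) _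
        (fun _ g' gs => gs.length ≤ M + 1 ∧ (g' :: gs).IsChain LFold ∧ AftZ W n b gs) ?_ g ?_ ?_).trans ?_
      · rintro ⟨-, g', gs', h3, -⟩
        exact absurd h3 (by simp)
      · rintro g' gs ⟨h2, g1, gs1, h3, h4, h5, h6⟩
        rw [List.cons.injEq] at h3
        obtain ⟨rfl, rfl⟩ := h3
        rw [List.isChain_cons_cons] at h2
        exact ⟨0, Finset.mem_range.2 (by omega), ⟨h4, RT_of hg0 h2.1⟩, h5, h2.2, h6⟩
      · rintro _ _ g' ⟨h5, -⟩
        exact hR g' h5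
      · rw [Finset.sum_range_one]
        exact le_rfl
    · refine step_sum w (range n) (fun i' => {g' | g' ∈ W i' ∧ RT (2 ^ (kp (min i i') + 4)) LFold g g'})
        (fun i' => FL W kp (vA (2 ^ (kc + 4)) S G) M' i') _
        (fun i' g' gs => gs.length ≤ M' + 1 ∧ (g' :: gs).IsChain LFold ∧ DecZ W n (M + 1) S b (i' + 1) gs) ?_ g ?_ ?_
      · rintro ⟨-, -, g', gs', h3, -⟩
        exact absurd h3 (by simp)
      · rintro g' gs ⟨h1, h2, g1, gs1, h3, i', h4, h5, h6⟩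
        rw [List.cons.injEq] at h3
        obtain ⟨rfl, rfl⟩ := h3
        rw [List.isChain_cons_cons] at h2
        rw [List.length_cons] at h1
        exact ⟨i', Finset.mem_range.2 h4, ⟨h5, RT_of (HB_lt hW (min_le_left i i') hgB) h2.1⟩, by omega, h2.2, h6⟩
      · rintro i' hi' g' ⟨h5, -⟩
        rw [Finset.mem_range] at hi'
        exact hL i' g' hi' (HB_W hW hi' h5)

end

end EQS

end NTW

end HexObs
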