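import Pool.Agent.NTW.RiseW

/-!
NTW: typical scales in windows. For a monotone function whose increments over `j` steps are at most linear in `j` up to a
small multiple of the position, all but a small proportion of the points of every window `[x, (1 + δ) x]` have a controlled
growth to the right, measured from the point `L - s`. No exact rate is needed.
-/

set_option autoImplicit false

namespace HexObs

namespace NTW

open Finset

open Classical in
/-- **typical scales in windows** -/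
theorem riseV (h : ℕ → ℝ) (K : ℝ) (hm : Monotone h) (hK0 : 0 ≤ K)
    (hκ : ∀ r : ℝ, 0 < r → ∃ B : ℝ, ∀ L j : ℕ, h (L + j) - h L ≤ K * j + r * (L + j) + B) :
    ∀ e : ℝ, 0 < e → ∃ a : ℝ, 0 < a ∧ ∀ s : ℕ, ∀ δ : ℝ, 0 < δ → ∃ x0 : ℕ, ∀ x : ℕ, x0 ≤ x →
      (((Finset.Icc x ⌊(1 + δ) * x⌋₊).filter
        (fun L => ¬ (∀ j : ℕ, h (L + j) - h (L - s) ≤ a * ((j : ℝ) + s)))).card : ℝ) ≤ e * (δ * x) := by
  classical
  intro e he
  set a : ℝ := (2 * K + 2) / e + K + 2 with haD
  have ha : 0 < a := by positivity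
  have ha2 : K + 2 ≤ a := by
    have : 0 ≤ (2 * K + 2) / e := by positivity
    linarith
  have hae : 2 * K + 2 ≤ a * e := by
    have h1 : (2 * K + 2) / e ≤ a := by linarith
    calc 2 * K + 2 = (2 * K + 2) / e * e := by field_simp
      _ ≤ a * e := mul_le_mul_of_nonneg_right h1 he.le
  refine ⟨a, ha, fun s δ hδ => ?_⟩
  set M : ℝ := 4 * (2 + δ) + 2 + 2 * K * (2 + δ) with hM
  have hM0 : 0 < M := by positivity
  set r : ℝ := min 1 (δ / M) with hr
  have hr0 : 0 < r := lt_min one_pos (by positivity)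
  have hr1 : r ≤ 1 := min_le_left _ _
  have hrM : r * M ≤ δ := by
    calc r * M ≤ δ / M * M := mul_le_mul_of_nonneg_right (min_le_right _ _) hM0.le
      _ = δ := by field_simp
  obtain ⟨B, hB⟩ := hκ r hr0
  have hB0 : 0 ≤ B := by
    have := hB 0 0
    simp only [Nat.cast_zero, mul_zero, add_zero, sub_self, zero_add] at this
    exact this
  set c0 : ℝ := K * (1 + s) + K * (2 + 2 * B) + 4 * B + (2 * B + 1) with hc0
  have hc00 : 0 ≤ c0 := by positivity
  refine ⟨max (max 1 s) ⌈c0 / δ⌉₊, fun x hx => ?_⟩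
  have hx1 : 1 ≤ x := (le_max_left _ _).trans ((le_max_left _ _).trans hx)
  have hxs : s ≤ x := (le_max_right _ _).trans ((le_max_left _ _).trans hx)
  have hxc : c0 ≤ δ * x := by
    have h1 : (⌈c0 / δ⌉₊ : ℝ) ≤ x := by exact_mod_cast (le_max_right _ _).trans hx
    have h2 := (Nat.le_ceil (c0 / δ)).trans h1
    rw [div_le_iff₀ hδ] at h2
    linarith
  have hx1' : (1 : ℝ) ≤ x := by exact_mod_cast hx1
  set X : ℕ := ⌊(1 + δ) * x⌋₊ + 1 with hX
  have hXle : (X : ℝ) ≤ (1 + δ) * x + 1 := by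
    rw [hX]
    push_cast
    have := Nat.floor_le (show (0 : ℝ) ≤ (1 + δ) * x by positivity)
    linarith
  have hXge : x ≤ X := by
    have h1 : (x : ℝ) ≤ (1 + δ) * x := by nlinarith
    have := Nat.le_floor h1
    omega
  have hXge' : (x : ℝ) ≤ X := by exact_mod_cast hXge
  have hXx : (X : ℝ) ≤ (2 + δ) * x := by nlinarith
  set Y : ℕ := X + ⌈2 * r * X + 2 * B⌉₊ with hY
  have hYle : (Y : ℝ) ≤ X + (2 * r * X + 2 * B) + 1 := by
    rw [hY]
    push_cast
    have := (Nat.ceil_lt_add_one (show 0 ≤ 2 * r * (X : ℝ) + 2 * B by positivity)).le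
    linarith
  have hXY : X ≤ Y := by omega
  have hXY' : (X : ℝ) ≤ Y := by exact_mod_cast hXY
  have hYR : ∀ L < X, ∀ j : ℕ, a * j < h (L + j) - h L → L + j ≤ Y := by
    intro L hL j hj
    have h1 := hB L j
    have h3 : (L : ℝ) ≤ X := by exact_mod_cast hL.le
    have hj0 : (0 : ℝ) ≤ j := Nat.cast_nonneg j
    have h4 : a * j < K * j + r * (L + j) + B := by linarith
    have h5 : (K + 2) * j ≤ a * j := mul_le_mul_of_nonneg_right ha2 hj0
    have h7 : r * j ≤ 1 * j := mul_le_mul_of_nonneg_right hr1 hj0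
    have h8 : r * L ≤ r * X := mul_le_mul_of_nonneg_left h3 hr0.le
    have h9' : 0 ≤ r * (X : ℝ) := by positivity
    have h9 : (j : ℝ) ≤ 2 * r * X + 2 * B := by linarith
    have h10 : j ≤ ⌈2 * r * (X : ℝ) + 2 * B⌉₊ := by
      have := h9.trans (Nat.le_ceil _)
      exact_mod_cast this
    omega
  have hR := Ri_right hm X Y ha hYR (Y - x) x (by omega)
  have hL := Ri_leftW hm (a := a) hxs hXge
  have hsub : (Icc x ⌊(1 + δ) * x⌋₊).filter (fun L => ¬ (∀ j : ℕ, h (L + j) - h (L - s) ≤ a * ((j : ℝ) + s))) ⊆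
      (Ico x X).filter (fun L => a * s < h L - h (L - s)) ∪
        (Ico x X).filter (fun L => ∃ j : ℕ, a * j < h (L + j) - h L) := by
    intro L hL
    rw [mem_filter, mem_Icc] at hL
    rw [mem_union, mem_filter, mem_filter, mem_Ico]
    obtain ⟨⟨hL1, hL2⟩, hb⟩ := hL
    have hL3 : x ≤ L ∧ L < X := ⟨hL1, by omega⟩
    push Not at hb
    obtain ⟨j, hj⟩ := hb
    by_cases h1 : a * s < h L - h (L - s)
    · exact Or.inl ⟨hL3, h1⟩
    · refine Or.inr ⟨hL3, j, ?_⟩
      push Not at h1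
      nlinarith
  have hcard : (((Icc x ⌊(1 + δ) * x⌋₊).filter
        (fun L => ¬ (∀ j : ℕ, h (L + j) - h (L - s) ≤ a * ((j : ℝ) + s)))).card : ℝ) ≤
      ((Ico x X).filter (fun L => a * s < h L - h (L - s))).card +
        ((Ico x X).filter (fun L => ∃ j : ℕ, a * j < h (L + j) - h L)).card := by
    exact_mod_cast (card_le_card hsub).trans (card_union_le _ _)
  have hcs : ((x - s : ℕ) : ℝ) = x - s := Nat.cast_sub hxs
  have hs0 : (0 : ℝ) ≤ s := Nat.cast_nonneg s
  have hxs' : (s : ℝ) ≤ x := by exact_mod_cast hxs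
  have hrx : 0 ≤ r * (x : ℝ) := by positivity
  have v1 : h X - h (x - s) ≤ K * (X - x + s) + r * (X + x) + 2 * B := by
    have w1 := hB (x - s) (X - (x - s))
    have w2 : x - s + (X - (x - s)) = X := by omega
    have w3 : ((X - (x - s) : ℕ) : ℝ) = X - (x - s) := by
      rw [Nat.cast_sub (by omega), hcs]
    rw [w2, w3, hcs] at w1
    nlinarith
  have v2 : h Y - h x ≤ K * (Y - x) + r * (Y + x) + 2 * B := by
    have w1 := hB x (Y - x)
    have w2 : x + (Y - x) = Y := by omega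
    have w3 : ((Y - x : ℕ) : ℝ) = Y - x := Nat.cast_sub (by omega)
    rw [w2, w3] at w1
    nlinarith
  have hYx : (Y : ℝ) ≤ 3 * ((2 + δ) * x) + 2 * B + 1 := by
    have w1 : r * X ≤ 1 * X := mul_le_mul_of_nonneg_right hr1 (by linarith)
    linarith
  have v3 : K * (X - x + s) ≤ K * (δ * x + 1 + s) := mul_le_mul_of_nonneg_left (by linarith) hK0
  have v4 : K * (Y - x) ≤ K * (δ * x + 2 + 2 * (r * X) + 2 * B) := mul_le_mul_of_nonneg_left (by linarith) hK0
  have v5 : r * (X + x) + r * (Y + x) + K * (2 * (r * X)) ≤ δ * x + (2 * B + 1) := by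
    have w1 : r * X ≤ r * ((2 + δ) * x) := mul_le_mul_of_nonneg_left hXx hr0.le
    have w2 : r * Y ≤ r * (3 * ((2 + δ) * x)) + (2 * B + 1) := by
      have w3 : r * Y ≤ r * (3 * ((2 + δ) * x) + 2 * B + 1) := mul_le_mul_of_nonneg_left hYx hr0.le
      have w4 : r * (2 * B + 1) ≤ 1 * (2 * B + 1) := mul_le_mul_of_nonneg_right hr1 (by linarith)
      linarith
    have w5 : K * (2 * (r * X)) ≤ K * (2 * (r * ((2 + δ) * x))) :=
      mul_le_mul_of_nonneg_left (by linarith) hK0
    have w6 : r * M * x ≤ δ * x := mul_le_mul_of_nonneg_right hrM (by linarith)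
    have w7 : r * M * x = r * ((2 + δ) * x) + r * (3 * ((2 + δ) * x)) + 2 * (r * x) +
        K * (2 * (r * ((2 + δ) * x))) := by
      rw [hM]
      ring
    linarith
  have h9 : a * (((Icc x ⌊(1 + δ) * x⌋₊).filter
        (fun L => ¬ (∀ j : ℕ, h (L + j) - h (L - s) ≤ a * ((j : ℝ) + s)))).card : ℝ) ≤ a * (e * (δ * x)) := by
    calc a * (((Icc x ⌊(1 + δ) * x⌋₊).filter
          (fun L => ¬ (∀ j : ℕ, h (L + j) - h (L - s) ≤ a * ((j : ℝ) + s)))).card : ℝ)
        ≤ a * (((Ico x X).filter (fun L => a * s < h L - h (L - s))).card +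
        ((Ico x X).filter (fun L => ∃ j : ℕ, a * j < h (L + j) - h L)).card) :=
          mul_le_mul_of_nonneg_left hcard ha.le
      _ ≤ (h X - h (x - s)) + (h Y - h x) := by
          rw [mul_add]
          exact add_le_add hL hR
      _ ≤ (2 * K + 2) * (δ * x) := by
          rw [hc0] at hxc
          nlinarith
      _ ≤ a * e * (δ * x) := mul_le_mul_of_nonneg_right hae (by positivity)
      _ = a * (e * (δ * x)) := by ring
  exact le_of_mul_le_mul_left h9 ha

end NTW

end HexObs
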