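import Pool.Agent.NTW.FrExp
import Pool.Agent.NTW.RiseV

/-!
NTW: the typical scales in windows without an exact rate. From the height doubling of the normalised weight of the half
plane words (bl lam (j + 1) at most a constant times bl (lam + lam' + 12) j) the increments of log_2 (frL l) are at most
linear, up to o(L); so all but a small proportion of the scales of every window have a controlled growth to the right.
-/

set_option autoImplicit false

namespace HexObs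

namespace NTW

open Finset TS SDN

open scoped ENNReal

namespace Fr

/-- height doubling, iterated -/
lemma bl_iter {D : ℝ} (hD : 1 ≤ D) (H : ∀ j lam lam' : ℕ, QL j lam' →
    bl lam (j + 1) ≤ ENNReal.ofReal D * bl (lam + lam' + 12) j) {l : ℕ → ℕ} (hQ : ∀ j, QL j (l j)) (i : ℕ) :
    ∀ d lam : ℕ, ∃ lam2 : ℕ, bl lam (i + d) ≤ ENNReal.ofReal (D ^ d) * bl lam2 i := by
  intro d
  induction d with
  | zero =>
    intro lam
    exact ⟨lam, by simp⟩
  | succ d ih =>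
    intro lam
    obtain ⟨lam2, h2⟩ := ih (lam + l (i + d) + 12)
    refine ⟨lam2, ?_⟩
    have h1 := H (i + d) lam (l (i + d)) (hQ _)
    rw [← add_assoc]
    calc bl lam (i + d + 1) ≤ ENNReal.ofReal D * bl (lam + l (i + d) + 12) (i + d) := h1
      _ ≤ ENNReal.ofReal D * (ENNReal.ofReal (D ^ d) * bl lam2 i) := mul_le_mul' le_rfl h2
      _ = ENNReal.ofReal (D ^ (d + 1)) * bl lam2 i := by
        rw [← mul_assoc, ← ENNReal.ofReal_mul (by linarith), pow_succ, mul_comm D]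

/-- the normalised weight at the scale i without restriction of the length, against the one with l L letters at the
scale L -/
lemma bl_comp {b : ℝ} (hb : 4 / 3 < b) : ∃ K : ℝ, 1 ≤ K ∧ ∀ (l : ℕ → ℕ) (i L lam : ℕ), i ≤ L →
    (2 : ℝ) ^ (b * i) ≤ l L → bl lam i ≤ ENNReal.ofReal K * bl (l L) L := by
  obtain ⟨m0, hm0⟩ := HH_le_HHl hb
  obtain ⟨A, B, hA, hB, hp⟩ := Sc.bl_le_poly
  obtain ⟨K, hK⟩ : ∃ K : ℝ, K = 3 + 2 * (A * (2 : ℝ) ^ (B * m0)) := ⟨_, rfl⟩
  have hp0 : 0 < A * (2 : ℝ) ^ (B * m0) := by positivity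
  refine ⟨K, by rw [hK]; linarith, fun l i L lam hiL hl => ?_⟩
  unfold bl
  refine iSup_le fun a => ?_
  have hai : a.1 ≤ i := by have := a.2; omega
  rcases Nat.lt_or_ge a.1 m0 with h1 | h1
  · have h2 : HHl (2 ^ a.1) lam / ENNReal.ofReal (UU (2 ^ a.1)) ≤ bl lam m0 := le_bl lam h1.le
    have h3 := hp lam m0
    have h4 : ENNReal.ofReal (1 / 2) ≤ bl (l L) L := by
      rw [← Sc.ofReal_frL]
      exact ENNReal.ofReal_le_ofReal (frL_ge_half l L)
    calc HHl (2 ^ a.1) lam / ENNReal.ofReal (UU (2 ^ a.1)) ≤ ENNReal.ofReal (A * (2 : ℝ) ^ (B * m0)) := h2.trans h3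
      _ ≤ ENNReal.ofReal (K * (1 / 2)) := ENNReal.ofReal_le_ofReal (by rw [hK]; linarith)
      _ = ENNReal.ofReal K * ENNReal.ofReal (1 / 2) := ENNReal.ofReal_mul (by rw [hK]; linarith)
      _ ≤ ENNReal.ofReal K * bl (l L) L := mul_le_mul' le_rfl h4
  · have h2 : (((2 ^ a.1 : ℕ) : ℝ)) ^ b ≤ ((l L : ℕ) : ℝ) := by
      push_cast
      rw [← Real.rpow_natCast, ← Real.rpow_mul (by norm_num), mul_comm]
      refine le_trans ?_ hl
      apply Real.rpow_le_rpow_of_exponent_le (by norm_num)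
      exact mul_le_mul_of_nonneg_left (by exact_mod_cast hai) (by linarith)
    have h3 := hm0 (2 ^ a.1) (h1.trans Nat.lt_two_pow_self.le) (l L) h2
    have h4 : HHl (2 ^ a.1) (l L) + 2 ≤ 3 * HHl (2 ^ a.1) (l L) := by
      have h5 : (2 : ℝ≥0∞) ≤ 2 * HHl (2 ^ a.1) (l L) := by
        calc (2 : ℝ≥0∞) = 2 * 1 := (mul_one _).symm
          _ ≤ _ := mul_le_mul' le_rfl (one_le_HHl _ _)
      calc HHl (2 ^ a.1) (l L) + 2 ≤ HHl (2 ^ a.1) (l L) + 2 * HHl (2 ^ a.1) (l L) := add_le_add le_rfl h5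
        _ = 3 * HHl (2 ^ a.1) (l L) := by ring
    have h5 : HHl (2 ^ a.1) lam ≤ 3 * HHl (2 ^ a.1) (l L) := (Sc.HHl_le_HH _ _).trans (h3.trans h4)
    have h6 : (3 : ℝ≥0∞) ≤ ENNReal.ofReal K := by
      have h7 : (3 : ℝ≥0∞) = ENNReal.ofReal 3 := by norm_num
      rw [h7]
      exact ENNReal.ofReal_le_ofReal (by rw [hK]; linarith)
    calc HHl (2 ^ a.1) lam / ENNReal.ofReal (UU (2 ^ a.1))
        ≤ (3 * HHl (2 ^ a.1) (l L)) / ENNReal.ofReal (UU (2 ^ a.1)) := ENNReal.div_le_div_right h5 _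
      _ = 3 * (HHl (2 ^ a.1) (l L) / ENNReal.ofReal (UU (2 ^ a.1))) := mul_div_assoc _ _ _
      _ ≤ ENNReal.ofReal K * bl (l L) L := mul_le_mul' h6 (le_bl (l L) (hai.trans hiL))

end Fr

open Fr in
/-- **the increments of the logarithm of the normalised weight are at most linear, up to o(L)** -/
theorem frL_lip {D : ℝ} (hD : 1 ≤ D) (H : ∀ j lam lam' : ℕ, QL j lam' →
    bl lam (j + 1) ≤ ENNReal.ofReal D * bl (lam + lam' + 12) j) {l : ℕ → ℕ} (hQ : ∀ j, QL j (l j))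
    (hlow : ∀ e : ℝ, 0 < e → ∃ k0 : ℕ, ∀ k : ℕ, k0 ≤ k → (2 : ℝ) ^ ((4 / 3 - e) * k) ≤ l k) :
    ∀ r : ℝ, 0 < r → ∃ B : ℝ, ∀ L j : ℕ, Real.logb 2 (Sc.frL l (L + j)) - Real.logb 2 (Sc.frL l L) ≤
      Real.logb 2 D * j + r * (L + j) + B := by
  intro r hr
  obtain ⟨q, hq⟩ : ∃ q : ℝ, q = Real.logb 2 D := ⟨_, rfl⟩
  have hq0 : 0 ≤ q := by rw [hq]; exact Real.logb_nonneg (by norm_num) hD
  obtain ⟨η, hη⟩ : ∃ η : ℝ, η = min (1 / 2) (r / (q + 1)) := ⟨_, rfl⟩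
  have hη0 : 0 < η := by rw [hη]; exact lt_min (by norm_num) (by positivity)
  have hη1 : η ≤ 1 / 2 := by rw [hη]; exact min_le_left _ _
  have hη2 : η * (q + 1) ≤ r := by
    have : η ≤ r / (q + 1) := by rw [hη]; exact min_le_right _ _
    rwa [le_div_iff₀ (by positivity)] at this
  obtain ⟨b, hb⟩ : ∃ b : ℝ, b = 4 / 3 * (1 + η / 2) := ⟨_, rfl⟩
  have hb1 : 4 / 3 < b := by rw [hb]; linarith
  obtain ⟨K, hK, hcomp⟩ := bl_comp hb1
  obtain ⟨k0, hk0⟩ := hlow (2 * η / 3) (by positivity)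
  obtain ⟨A, B0, hA, hB0, hp⟩ := Sc.bl_le_poly
  have hAp : (0 : ℝ) < A * (2 : ℝ) ^ (B0 * (0 : ℕ)) := by positivity
  obtain ⟨A2, hA2⟩ : ∃ A2 : ℝ, A2 = A * (2 : ℝ) ^ (B0 * (0 : ℕ)) := ⟨_, rfl⟩
  rw [← hA2] at hAp
  have hBK := abs_nonneg (Real.logb 2 K)
  have hBA := abs_nonneg (Real.logb 2 A2)
  refine ⟨|Real.logb 2 K| + |Real.logb 2 A2| + q * k0 + q + 1, fun L j => ?_⟩
  rw [← hq]
  have hLn : (0 : ℝ) ≤ L := Nat.cast_nonneg L
  have hjn : (0 : ℝ) ≤ j := Nat.cast_nonneg j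
  have hrL : 0 ≤ r * (L + j : ℝ) := by positivity
  have hqk : 0 ≤ q * (k0 : ℝ) := by positivity
  rcases Nat.lt_or_ge L k0 with h1 | h1
  · -- small L
    have h2 := frL_ge_half l L
    have h3 := Real.logb_le_logb_of_le (b := 2) (by norm_num) (by norm_num) h2
    have h4 : Real.logb 2 (1 / 2) = -1 := by
      rw [one_div, Real.logb_inv, Real.logb_self_eq_one (by norm_num)]
    rw [h4] at h3
    obtain ⟨lam2, h5⟩ := bl_iter hD H hQ 0 (L + j) (l (L + j))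
    rw [zero_add] at h5
    have h6 : Sc.frL l (L + j) ≤ D ^ (L + j) * A2 := by
      have h7 : bl (l (L + j)) (L + j) ≤ ENNReal.ofReal (D ^ (L + j) * A2) := by
        rw [ENNReal.ofReal_mul (by positivity), hA2]
        exact h5.trans (mul_le_mul' le_rfl (hp lam2 0))
      rw [← Sc.ofReal_frL] at h7
      exact (ENNReal.ofReal_le_ofReal_iff (by positivity)).1 h7
    have h8 := Real.logb_le_logb_of_le (b := 2) (by norm_num) (Sc.frL_pos l (L + j)) h6
    rw [Real.logb_mul (by positivity) hAp.ne', Real.logb_pow, ← hq] at h8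
    have h9 := le_abs_self (Real.logb 2 A2)
    have h10 : q * (L : ℝ) ≤ q * k0 := mul_le_mul_of_nonneg_left (by exact_mod_cast h1.le) hq0
    push_cast at h8
    nlinarith
  · obtain ⟨i, hi⟩ : ∃ i : ℕ, i = ⌊(1 - η) * (L : ℝ)⌋₊ := ⟨_, rfl⟩
    have hi1 : (i : ℝ) ≤ (1 - η) * L := by
      rw [hi]
      exact Nat.floor_le (by nlinarith)
    have hi2 : (1 - η) * L - 1 ≤ (i : ℝ) := by
      rw [hi]
      linarith [Nat.lt_floor_add_one ((1 - η) * (L : ℝ))]
    have hiL : i ≤ L := by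
      have h2 : (i : ℝ) ≤ L := by nlinarith
      exact_mod_cast h2
    have hll : (2 : ℝ) ^ (b * i) ≤ l L := by
      refine le_trans ?_ (hk0 L h1)
      apply Real.rpow_le_rpow_of_exponent_le (by norm_num)
      have h2 : b * i ≤ b * ((1 - η) * L) := mul_le_mul_of_nonneg_left hi1 (by linarith)
      refine h2.trans ?_
      rw [← mul_assoc]
      apply mul_le_mul_of_nonneg_right _ hLn
      rw [hb]
      nlinarith [sq_nonneg η]
    obtain ⟨d, hd⟩ : ∃ d : ℕ, L + j = i + d := ⟨L + j - i, by omega⟩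
    obtain ⟨lam2, h5⟩ := bl_iter hD H hQ i d (l (L + j))
    have h6 : Sc.frL l (L + j) ≤ D ^ d * (K * Sc.frL l L) := by
      have h7 : bl (l (L + j)) (L + j) ≤ ENNReal.ofReal (D ^ d * (K * Sc.frL l L)) := by
        rw [ENNReal.ofReal_mul (by positivity), ENNReal.ofReal_mul (by linarith), Sc.ofReal_frL]
        nth_rewrite 2 [hd]
        exact h5.trans (mul_le_mul' le_rfl (hcomp l i L lam2 hiL hll))
      rw [← Sc.ofReal_frL] at h7
      have h8 := Sc.frL_pos l L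
      exact (ENNReal.ofReal_le_ofReal_iff (by positivity)).1 h7
    have h8 := Real.logb_le_logb_of_le (b := 2) (by norm_num) (Sc.frL_pos l (L + j)) h6
    have h9 := Sc.frL_pos l L
    rw [Real.logb_mul (by positivity) (by positivity), Real.logb_mul (by linarith) h9.ne', Real.logb_pow,
      ← hq] at h8
    have h10 := le_abs_self (Real.logb 2 K)
    have h11 : (d : ℝ) = L + j - i := by
      have : ((L + j : ℕ) : ℝ) = ((i + d : ℕ) : ℝ) := by rw [hd]
      push_cast at this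
      linarith
    rw [h11] at h8
    have h12 : q * ((L : ℝ) - i) ≤ q * (η * L + 1) := mul_le_mul_of_nonneg_left (by linarith) hq0
    have h13 : η * (q + 1) * L ≤ r * L := mul_le_mul_of_nonneg_right hη2 hLn
    have h14 : 0 ≤ η * (L : ℝ) := by positivity
    have h15 : 0 ≤ r * (j : ℝ) := by positivity
    nlinarith

open Classical in
/-- **the typical scales in windows, from the height doubling only** -/
theorem rise_frLV {D : ℝ} (hD : 1 ≤ D) (H : ∀ j lam lam' : ℕ, QL j lam' →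
    bl lam (j + 1) ≤ ENNReal.ofReal D * bl (lam + lam' + 12) j) {l : ℕ → ℕ} (hl : Monotone l)
    (hQ : ∀ j, QL j (l j))
    (hlow : ∀ e : ℝ, 0 < e → ∃ k0 : ℕ, ∀ k : ℕ, k0 ≤ k → (2 : ℝ) ^ ((4 / 3 - e) * k) ≤ l k) {e : ℝ} (he : 0 < e) :
    ∃ a : ℝ, 0 < a ∧ ∀ (s : ℕ) (δ : ℝ), 0 < δ → ∃ x0 : ℕ, ∀ x : ℕ, x0 ≤ x →
      (((Finset.Icc x ⌊(1 + δ) * x⌋₊).filter
        (fun L => ¬ (∀ j : ℕ, Sc.frL l (L + j) ≤ (2 : ℝ) ^ (a * ((j : ℝ) + s)) * Sc.frL l (L - s)))).card : ℝ) ≤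
        e * (δ * x) := by
  obtain ⟨h, hh⟩ : ∃ h : ℕ → ℝ, ∀ L, h L = Real.logb 2 (Sc.frL l L) := ⟨_, fun _ => rfl⟩
  have hm : Monotone h := by
    intro i j hij
    rw [hh, hh]
    exact Real.logb_le_logb_of_le (b := 2) (by norm_num) (Sc.frL_pos l i) (Sc.frL_mono hl hij)
  have hlip : ∀ r : ℝ, 0 < r → ∃ B : ℝ, ∀ L j : ℕ, h (L + j) - h L ≤ Real.logb 2 D * j + r * (L + j) + B := by
    intro r hr
    obtain ⟨B, hB⟩ := frL_lip hD H hQ hlow r hr
    exact ⟨B, fun L j => by rw [hh, hh]; exact hB L j⟩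
  obtain ⟨a, ha, hr⟩ := riseV h (Real.logb 2 D) hm (Real.logb_nonneg (by norm_num) hD) hlip e he
  refine ⟨a, ha, fun s δ hδ => ?_⟩
  obtain ⟨x0, hx0⟩ := hr s δ hδ
  refine ⟨x0, fun x hx => le_trans ?_ (hx0 x hx)⟩
  have hc : ((Finset.Icc x ⌊(1 + δ) * x⌋₊).filter
      (fun L => ¬ (∀ j : ℕ, Sc.frL l (L + j) ≤ (2 : ℝ) ^ (a * ((j : ℝ) + s)) * Sc.frL l (L - s)))).card ≤
      ((Finset.Icc x ⌊(1 + δ) * x⌋₊).filter (fun L => ¬ (∀ j : ℕ, h (L + j) - h (L - s) ≤ a * ((j : ℝ) + s)))).card := by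
    apply Finset.card_le_card
    intro L hL
    rw [Finset.mem_filter] at hL ⊢
    refine ⟨hL.1, fun hcon => hL.2 fun j => ?_⟩
    have h1 := hcon j
    rw [hh, hh] at h1
    have h2 : Real.logb 2 (Sc.frL l (L + j)) ≤ Real.logb 2 ((2 : ℝ) ^ (a * ((j : ℝ) + s)) * Sc.frL l (L - s)) := by
      rw [Real.logb_mul (by positivity) (Sc.frL_pos _ _).ne', Real.logb_rpow (by norm_num) (by norm_num)]
      linarith
    have h3 := Sc.frL_pos l (L - s)
    exact (Real.logb_le_logb (b := 2) (by norm_num) (Sc.frL_pos _ _) (by positivity)).1 h2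
  exact_mod_cast hc

end NTW

end HexObs
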