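import Pool.Agent.NTW.ScalesF
import Pool.Agent.NTW.FrLip
import Pool.Agent.NTW.HgtDbl

/-!
NTW: the typical scales of a sequence of quantiles in every window `[x, (1 + δ) x]`.
-/

set_option autoImplicit false

namespace HexObs

namespace NTW

open Finset TS SDN

open scoped ENNReal Classical

variable {C δ : ℝ}

open Sc in
/-- the scales with a controlled growth of the weights to the right have the estimate ScaleP -/
theorem scaleP_core {l : ℕ → ℕ} (h : Inp C δ) (hQ : ∀ j, QL j (l j)) {s k0 : ℕ}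
    (hs : ∀ k, k0 ≤ k → 100 * l k ≤ l (k + s)) (hone : ∀ k, 1 ≤ l k) (h1 : LowM1) (h2 : LowM2) (a : ℝ) :
    ScaleP l {L | ∀ j : ℕ, frL l (L + j) ≤ (2 : ℝ) ^ (a * ((j : ℝ) + s)) * frL l (L - s)} := by
  obtain ⟨c, hc, h1⟩ := h1
  obtain ⟨K2, hK2, h2⟩ := h2
  obtain ⟨ε, hε⟩ : ∃ ε : ℝ, ε = ((2 : ℝ) ^ (a * (0 + (s : ℝ))))⁻¹ / 4 := ⟨_, rfl⟩
  have hε0 : 0 < ε := by rw [hε]; positivity
  obtain ⟨C1, hC1, hgr⟩ := growL h ε hε0
  have hs' : ∀ k, k0 ≤ k → 5 * l k + 34 ≤ l (k + s) := by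
    intro k hk
    have := hs k hk
    have := hone k
    omega
  intro q
  obtain ⟨W, hW⟩ : ∃ W : ℝ, W = (2 : ℝ) ^ (a * (((q + s : ℕ) : ℝ) + s)) * (2 * C1 * K2) := ⟨_, rfl⟩
  have hW0 : 0 < W := by
    rw [hW]
    have : 0 < 2 * C1 * K2 := by positivity
    positivity
  refine ⟨2 ^ s * W ^ 2 / c, k0 + s, by positivity, fun L hL hL0 => ?_⟩
  have hL' : ∀ j : ℕ, frL l (L + j) ≤ (2 : ℝ) ^ (a * ((j : ℝ) + s)) * frL l (L - s) := hL
  obtain ⟨L', hLL⟩ : ∃ L', L = L' + s := ⟨L - s, by omega⟩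
  have hk0 : k0 ≤ L' := by omega
  have hLs : L - s = L' := by omega
  rw [hLs] at hL'
  obtain ⟨g, hgd⟩ : ∃ g, g = gf {W | W ∈ BAR.NA (2 ^ L') ∧ W.length ≤ 2 * l L' + 12} := ⟨_, rfl⟩
  have hU : 0 < UU (2 ^ L') := Num2Aux.UU_pos _
  -- the value at the scale L'
  have f1 : bl (l L') L' ≤ ENNReal.ofReal (2 * C1 * K2) * g := by
    have f2 : bl (l L') L' ≤ ENNReal.ofReal C1 * (HHl (2 ^ L') (l L' + l L' + 12) / ENNReal.ofReal (UU (2 ^ L'))) +
        ENNReal.ofReal ε * bl (l L' + l L' + 12) L' := by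
      refine iSup_le fun i => ?_
      exact hgr i.1 L' (l L') (l L') (hQ L') (by have := i.2; omega)
    have f3 : bl (l L' + l L' + 12) L' ≤ ENNReal.ofReal ((2 : ℝ) ^ (a * (0 + (s : ℝ)))) * bl (l L') L' := by
      calc bl (l L' + l L' + 12) L' ≤ bl (l L) L := by
            refine (bl_mono _ (by omega : L' ≤ L)).trans (bl_mono_lam ?_ _)
            have := hs' L' hk0
            rw [hLL]
            omega
        _ = ENNReal.ofReal (frL l (L + 0)) := by rw [ofReal_frL, add_zero]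
        _ ≤ ENNReal.ofReal ((2 : ℝ) ^ (a * (((0 : ℕ) : ℝ) + s)) * frL l L') := ENNReal.ofReal_le_ofReal (hL' 0)
        _ = _ := by rw [ENNReal.ofReal_mul (by positivity), ofReal_frL, Nat.cast_zero]
    have f4 : HHl (2 ^ L') (l L' + l L' + 12) / ENNReal.ofReal (UU (2 ^ L')) ≤ ENNReal.ofReal K2 * g := by
      rw [ENNReal.div_le_iff (by simpa using hU) ENNReal.ofReal_ne_top]
      have f5 := h2 L' (l L' + l L' + 12)
      rw [ENNReal.ofReal_mul (by linarith)] at f5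
      have f6 : l L' + l L' + 12 = 2 * l L' + 12 := by ring
      rw [f6] at f5 ⊢
      rw [← hgd] at f5
      refine f5.trans (le_of_eq ?_)
      ring
    have f7 : ENNReal.ofReal ε * bl (l L' + l L' + 12) L' ≤ ENNReal.ofReal (1 / 4) * bl (l L') L' := by
      refine (mul_le_mul_right f3 _).trans (le_of_eq ?_)
      rw [← mul_assoc, ← ENNReal.ofReal_mul hε0.le, hε]
      congr 2
      have : (0 : ℝ) < (2 : ℝ) ^ (a * (0 + (s : ℝ))) := by positivity
      field_simp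
    have f8 := Cl_abs (bl_ne_top (l L') L') (le_refl (1 / 4 : ℝ)) (f2.trans (add_le_add (mul_le_mul_right f4 _) f7))
    refine f8.trans ?_
    rw [← mul_assoc, ← mul_assoc, ← ENNReal.ofReal_mul (by norm_num), ← ENNReal.ofReal_mul (by positivity)]
    refine mul_le_mul_left (ENNReal.ofReal_le_ofReal ?_) _
    have : 0 < C1 * K2 := by positivity
    linarith
  -- the value at the scale L + q
  have f9 : bl (2 * l (L + q)) (L + q) ≤ ENNReal.ofReal W * g := by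
    calc bl (2 * l (L + q)) (L + q) ≤ bl (l (L + (q + s))) (L + (q + s)) := by
          refine (bl_mono _ (by omega : L + q ≤ L + (q + s))).trans (bl_mono_lam ?_ _)
          have := hs' (L + q) (by omega)
          rw [← add_assoc]
          omega
      _ = ENNReal.ofReal (frL l (L + (q + s))) := by rw [ofReal_frL]
      _ ≤ ENNReal.ofReal ((2 : ℝ) ^ (a * (((q + s : ℕ) : ℝ) + s)) * frL l L') := ENNReal.ofReal_le_ofReal (hL' (q + s))
      _ = ENNReal.ofReal ((2 : ℝ) ^ (a * (((q + s : ℕ) : ℝ) + s))) * bl (l L') L' := by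
          rw [ENNReal.ofReal_mul (by positivity), ofReal_frL]
      _ ≤ ENNReal.ofReal ((2 : ℝ) ^ (a * (((q + s : ℕ) : ℝ) + s))) * (ENNReal.ofReal (2 * C1 * K2) * g) :=
          mul_le_mul_right f1 _
      _ = _ := by rw [← mul_assoc, ← ENNReal.ofReal_mul (by positivity), hW]
  have f10 : ENNReal.ofReal (c * UU (2 ^ L')) * g ^ 2 ≤ gf (SAL (l L)) := by
    rw [hgd]
    refine (h1 L' (2 * l L' + 12) (l L') (hQ L')).trans (gf_mono ?_)
    rintro t ⟨ht, htl⟩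
    refine ⟨ht, htl.trans ?_⟩
    have := hs' L' hk0
    rw [hLL]
    omega
  have f11 : Ub L ≤ 2 ^ s * Ub L' := by
    rw [hLL]
    exact Ub_shift L' s
  calc ENNReal.ofReal (Ub L) * (bl (2 * l (L + q)) (L + q)) ^ 2
      ≤ ENNReal.ofReal (2 ^ s * Ub L') * (ENNReal.ofReal W * g) ^ 2 := by gcongr
    _ = ENNReal.ofReal (2 ^ s * W ^ 2 / c) * (ENNReal.ofReal (c * UU (2 ^ L')) * g ^ 2) := by
        rw [mul_pow, ← ENNReal.ofReal_pow hW0.le, ← mul_assoc, ← mul_assoc, ← ENNReal.ofReal_mul (by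
          have := Ub_pos L'
          positivity), ← ENNReal.ofReal_mul (by positivity)]
        congr 2
        have : Ub L' = UU (2 ^ L') := rfl
        rw [this]
        field_simp
    _ ≤ _ := mul_le_mul_right f10 _


/-- intersection of two sets of scales in windows -/
lemma dense_inter {e e' η : ℝ} {G G' : Set ℕ} (h : NTm.Dense e G) (h' : NTm.Dense e' G') (hη : 0 < η) :
    NTm.Dense (e + e' + η) (G ∩ G') := by
  obtain ⟨S, hS⟩ : ∃ S, S = G ∩ G' := ⟨_, rfl⟩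
  rw [← hS]
  intro δ hδ
  obtain ⟨x0, hx0⟩ := h δ hδ
  obtain ⟨x1, hx1⟩ := h' δ hδ
  obtain ⟨x2, hx2⟩ : ∃ x2 : ℕ, 1 / (η * δ) ≤ x2 := exists_nat_ge _
  refine ⟨max x2 (max x0 x1), fun x hx => ?_⟩
  have e0 : x2 ≤ x := le_trans (le_max_left _ _) hx
  have e1 := hx0 x (le_trans (le_trans (le_max_left _ _) (le_max_right _ _)) hx)
  have e2 := hx1 x (le_trans (le_trans (le_max_right _ _) (le_max_right _ _)) hx)
  obtain ⟨I, hI⟩ : ∃ I, I = Finset.Icc x ⌊(1 + δ) * (x : ℝ)⌋₊ := ⟨_, rfl⟩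
  rw [← hI] at e1 e2 ⊢
  have hxR : (0 : ℝ) ≤ x := Nat.cast_nonneg _
  have e3 : (I.card : ℝ) ≤ δ * x + 1 := by
    have hb1 : ((⌊(1 + δ) * (x : ℝ)⌋₊ : ℕ) : ℝ) ≤ (1 + δ) * x := Nat.floor_le (by positivity)
    have hxb : x ≤ ⌊(1 + δ) * (x : ℝ)⌋₊ := by
      refine Nat.le_floor ?_
      nlinarith
    rw [hI, Nat.card_Icc, Nat.cast_sub (by omega)]
    push_cast
    linarith
  have e4 : (I.filter fun k => k ∈ G).card + (I.filter fun k => k ∈ G').card ≤
      I.card + (I.filter fun k => k ∈ S).card := by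
    rw [← Finset.card_union_add_card_inter]
    apply add_le_add
    · exact Finset.card_le_card (union_subset (filter_subset _ _) (filter_subset _ _))
    · apply Finset.card_le_card
      intro k hk
      rw [mem_inter, mem_filter, mem_filter] at hk
      rw [mem_filter, hS]
      exact ⟨hk.1.1, hk.1.2, hk.2.2⟩
  have e5 : ((I.filter fun k => k ∈ G).card : ℝ) + ((I.filter fun k => k ∈ G').card : ℝ) ≤
      (I.card : ℝ) + ((I.filter fun k => k ∈ S).card : ℝ) := by exact_mod_cast e4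
  have e6 : 1 ≤ η * (δ * x) := by
    have h1 : 1 / (η * δ) ≤ (x : ℝ) := hx2.trans (by exact_mod_cast e0)
    rw [div_le_iff₀ (by positivity)] at h1
    linarith
  linarith

open Sc in
/-- the scales with a controlled growth to the right, in windows -/
lemma rise_frLW {θ : ℝ} {l : ℕ → ℕ} (hl : NTm.Seq θ l) (hθ : θ ≤ 1 / 2) {e : ℝ} (he : 0 < e) :
    ∃ a : ℝ, 0 < a ∧ ∀ s : ℕ,
      NTm.Dense e {L | ∀ j : ℕ, frL l (L + j) ≤ (2 : ℝ) ^ (a * ((j : ℝ) + s)) * frL l (L - s)} := by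
  obtain ⟨D, hD, H⟩ := hgt_dbl
  obtain ⟨a, ha, hr⟩ := rise_frLV hD H hl.mono (QL_seq hl hθ) hl.low he
  refine ⟨a, ha, fun s => ?_⟩
  obtain ⟨G, hG⟩ : ∃ G : Set ℕ, G = {L | ∀ j : ℕ, frL l (L + j) ≤ (2 : ℝ) ^ (a * ((j : ℝ) + s)) * frL l (L - s)} :=
    ⟨_, rfl⟩
  rw [← hG]
  intro δ hδ
  obtain ⟨x0, hx0⟩ := hr s δ hδ
  refine ⟨x0, fun x hx => ?_⟩
  have e1 := hx0 x hx
  obtain ⟨I, hI⟩ : ∃ I, I = Finset.Icc x ⌊(1 + δ) * (x : ℝ)⌋₊ := ⟨_, rfl⟩
  rw [← hI] at e1 ⊢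
  have hxR : (0 : ℝ) ≤ x := Nat.cast_nonneg _
  have e3 : δ * x ≤ (I.card : ℝ) := by
    have hb2 : (1 + δ) * (x : ℝ) < (⌊(1 + δ) * (x : ℝ)⌋₊ : ℕ) + 1 := Nat.lt_floor_add_one _
    have hxb : x ≤ ⌊(1 + δ) * (x : ℝ)⌋₊ := by
      refine Nat.le_floor ?_
      nlinarith
    rw [hI, Nat.card_Icc, Nat.cast_sub (by omega)]
    push_cast
    linarith
  have e4 : (I.filter fun k => k ∉ G).card ≤ (I.filter
      (fun L => ¬ (∀ j : ℕ, frL l (L + j) ≤ (2 : ℝ) ^ (a * ((j : ℝ) + s)) * frL l (L - s)))).card := by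
    apply Finset.card_le_card
    intro L hL
    rw [Finset.mem_filter] at hL ⊢
    refine ⟨hL.1, fun hcon => hL.2 ?_⟩
    rw [hG]
    intro j
    exact hcon j
  have e5 : ((I.filter fun k => k ∉ G).card : ℝ) ≤ e * (δ * x) := le_trans (by exact_mod_cast e4) e1
  have e6 : ((I.filter fun k => k ∈ G).card : ℝ) + ((I.filter fun k => k ∉ G).card : ℝ) = I.card := by
    exact_mod_cast Finset.card_filter_add_card_filter_not (s := I) (fun k => k ∈ G)
  linarith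

/-- typical scales in windows -/
theorem scalePW {θ : ℝ} {l : ℕ → ℕ} (hl : NTm.Seq θ l) (h0 : 0 < θ) (hθ : θ ≤ 1 / 2) {e : ℝ} (he : 0 < e) :
    ∃ G : Set ℕ, NTm.Dense e G ∧ ScaleP l G := by
  obtain ⟨C, δ, h⟩ := inp_exists
  obtain ⟨a, ha, hD⟩ := rise_frLW hl hθ he
  obtain ⟨s, k0, hs⟩ := seq_mul hl h0 (by linarith) 100
  exact ⟨_, hD s, scaleP_core h (QL_seq hl hθ) hs hl.one lowM1 lowM2 a⟩

/-- **typical scales in windows** with the growth of the quantiles of the exponent c -/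
theorem scaleW_all {θ : ℝ} {l : ℕ → ℕ} (hl : NTm.Seq θ l) (h0 : 0 < θ) (hθ : θ ≤ 1 / 2) {c e : ℝ} (hc : 4 / 3 < c)
    (he : 0 < e) : ∃ (K : ℝ) (G : Set ℕ), 1 ≤ K ∧ G ⊆ NTm.GCK K c l ∧
    NTm.Dense (1 - (c - 4 / 3) / (c - 1) + e) G ∧ ScaleP l G ∧ NTm.Good l G := by
  obtain ⟨G, hG, hS⟩ := scalePW hl h0 hθ (show 0 < e / 3 by linarith)
  obtain ⟨K, hK, hD⟩ := NTm.dense_GCK hl (NTm.seq_grow hl h0 (by linarith)) hc (show 0 < e / 3 by linarith)
  refine ⟨K, G ∩ NTm.GCK K c l, hK, Set.inter_subset_right, ?_, ScaleP.mono hS Set.inter_subset_left,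
    good_mono (good_GCK2 hK c l) Set.inter_subset_right⟩
  have := dense_inter hG hD (show 0 < e / 3 by linarith)
  have he' : e / 3 + (1 - (c - 4 / 3) / (c - 1) + e / 3) + e / 3 = 1 - (c - 4 / 3) / (c - 1) + e := by ring
  rwa [he'] at this

end NTW

end HexObs
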