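import Pool.Agent.NTW.FinA
import Pool.Agent.NTW.ScalesW

/-!
NTW (natural time for all self-avoiding walks): the final theorem with the density of the scales in the windows
[x, (1 + δ) x], no hypothesis.
-/

set_option autoImplicit false

namespace NTSF

open Finset

open HexObs hiding pos

open HexObs.SDN HexObs.NTW

open HexObs.NTm (Seq Good GCK seq_exists)

lemma dense_mono {r r' : ℝ} (h : r' ≤ r) {G : Set ℕ} (hD : HexObs.NTm.Dense r' G) : HexObs.NTm.Dense r G := by
  intro δ hδ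
  obtain ⟨x0, hx0⟩ := hD δ hδ
  refine ⟨x0, fun x hx => le_trans ?_ (hx0 x hx)⟩
  exact mul_le_mul_of_nonneg_right (by linarith) (by positivity)

/-- **the uniform n-step self-avoiding walks in natural time, windows** -/
theorem finW (a : NNReal) (ε r : ℝ) (ha : 0 < a) (ha1 : (a : ℝ) < 3 / 4) (hε : 0 < ε) (hε1 : ε < 1)
    (har : (a : ℝ) / (3 * (1 - (a : ℝ))) < r) (hr : r < 1) : ConclW a ε r := by
  have ha0 : (0 : ℝ) < a := ha
  obtain ⟨c, e, r', hc, hac, he, hdens, hr', hrr⟩ := exp_choice ha0 ha1 har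
  obtain ⟨Ci, δi, hI⟩ := inp_exists
  have hA : SsA := ssA hI
  obtain ⟨l, hl⟩ := seq_exists (θ := 1 / 4) (by norm_num) (by norm_num)
  have h0 : (0 : ℝ) < 1 / 4 := by norm_num
  have h1 : (1 : ℝ) / 4 ≤ 1 / 2 := by norm_num
  obtain ⟨K, G, hK, hGc, hD, hS, hG⟩ := scaleW_all hl h0 h1 hc he
  rw [hdens] at hD
  have hFF : FactsF l G := factsF_A hA rep_two hl h0 h1 hG hS
  have hFH : FactFH a l G := factFH_of dispQ2 hl h0 h1 K hc ha0 hac hGc (tailP' hA rep_two hl h0 h1) hS
  exact result_win ha (by linarith) hε hε1 hr hl.up hl.low (factsS_of dirRed hFF)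
    (factSH_of dirRed hl.one hl.up ha0 ha1 hFH) (dense_mono hrr.le hD)

end NTSF
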