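import Pool.Agent.NTW.Scales
import Pool.Agent.BAR.Glue
import Pool.Agent.BAR.SizeMain
import Pool.Agent.NT.Exps
import Pool.Agent.NT.SeqDefs
import Pool.Agent.NUGC.LegAll

/-!
NTW: the exponent of the normalised weight of the half plane words with at most l L letters: if HH m has the exponent
61 / 48 from below (BAR.HLow), then log_2 (frL l L) = (25 / 48) L + o(L).
-/

set_option autoImplicit false

namespace HexObs

namespace NTW

open Complex Finset ENNReal SDN PLW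

namespace Fr

/-- words with an extent of m rows and more than m ^ b letters have a bounded weight -/
theorem long_small {a : ℝ} (ha : 1 ≤ a) (hexp : ∀ β : ℝ, a < β → ∃ (c : ℝ) (L0 : ℕ), 0 < c ∧ ∀ L : ℕ, L0 ≤ L →
    gf {t | t ∈ WL L ∧ (2 : ℝ) ^ (β * L) ≤ t.length} ≤ ENNReal.ofReal (Real.exp (-(2 : ℝ) ^ (c * L)))) {b : ℝ}
    (hb : a < b) : ∃ m0 : ℕ, ∀ m : ℕ, m0 ≤ m → ∀ n : ℕ, (m : ℝ) ^ b ≤ n →
      gf {t | t ∈ SA ∧ BAR.Ext m t ∧ n < t.length} ≤ 2 := by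
  obtain ⟨β, hβ⟩ : ∃ β, β = (a + b) / 2 := ⟨_, rfl⟩
  have hβ1 : a < β := by rw [hβ]; linarith
  have hβ2 : β < b := by rw [hβ]; linarith
  have hb0 : 0 < b := by linarith
  have hβ0 : 0 < β := by linarith
  obtain ⟨η, hη⟩ : ∃ η, η = (b - β) / (2 * b) := ⟨_, rfl⟩
  have hη0 : 0 < η := by rw [hη]; exact div_pos (by linarith) (by linarith)
  have hη1 : η ≤ 1 / 2 := by
    rw [hη, div_le_iff₀ (by linarith)]
    linarith
  obtain ⟨κ, hκ⟩ : ∃ κ, κ = b - β / (1 - η) := ⟨_, rfl⟩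
  have h1η : 0 < 1 - η := by linarith
  have hκ0 : 0 < κ := by
    rw [hκ, sub_pos, div_lt_iff₀ h1η, hη]
    have h1 : b * (1 - (b - β) / (2 * b)) = (b + β) / 2 := by
      field_simp
      ring
    rw [h1]
    linarith
  obtain ⟨c, L0, hc, hL0⟩ := hexp β hβ1
  obtain ⟨L1, hL1⟩ := BAR.lat_small hη0 (by linarith : η ≤ 1)
  obtain ⟨m1, hm1⟩ := exists_nat_ge ((2 : ℝ) ^ ((L0 : ℝ) + L1))
  obtain ⟨m2, hm2⟩ := exists_nat_ge ((2 : ℝ) ^ (β / κ))
  refine ⟨m1 + m2 + 1, fun m hm n hn => ?_⟩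
  have hmR : (1 : ℝ) ≤ m := by exact_mod_cast (by omega : 1 ≤ m)
  have hm0 : (0 : ℝ) < m := by linarith
  have hl2 : 0 < Real.log 2 := Real.log_pos (by norm_num)
  obtain ⟨x, hx⟩ : ∃ x, x = Real.log m / Real.log 2 := ⟨_, rfl⟩
  have hxm : (2 : ℝ) ^ x = m := by
    rw [hx, Real.rpow_def_of_pos (by norm_num), mul_div_cancel₀ _ hl2.ne', Real.exp_log hm0]
  have hx0 : 0 ≤ x := by rw [hx]; exact div_nonneg (Real.log_nonneg hmR) hl2.le
  have hxL : (L0 : ℝ) + L1 ≤ x := by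
    have h1 : (2 : ℝ) ^ ((L0 : ℝ) + L1) ≤ (2 : ℝ) ^ x := by
      rw [hxm]
      refine hm1.trans ?_
      exact_mod_cast (by omega : m1 ≤ m)
    exact (Real.rpow_le_rpow_left_iff (by norm_num)).1 h1
  obtain ⟨L, hL⟩ : ∃ L : ℕ, L = ⌈x / (1 - η)⌉₊ := ⟨_, rfl⟩
  have hLa : x / (1 - η) ≤ L := by rw [hL]; exact Nat.le_ceil _
  have hLb : (L : ℝ) < x / (1 - η) + 1 := by rw [hL]; exact Nat.ceil_lt_add_one (by positivity)
  have hxx : x ≤ x / (1 - η) := by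
    rw [le_div_iff₀ h1η]
    nlinarith
  have hLL : L0 + L1 ≤ L := by
    have : ((L0 + L1 : ℕ) : ℝ) ≤ L := by
      push_cast
      linarith
    exact_mod_cast this
  have hmL : (m : ℝ) ≤ (2 : ℝ) ^ ((1 - η) * L) := by
    rw [← hxm]
    apply Real.rpow_le_rpow_of_exponent_le (by norm_num)
    rw [div_le_iff₀ h1η] at hLa
    linarith
  have hβL : (2 : ℝ) ^ (β * L) ≤ n := by
    refine le_trans ?_ hn
    rw [← hxm, ← Real.rpow_mul (by norm_num)]
    apply Real.rpow_le_rpow_of_exponent_le (by norm_num)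
    have h1 : β ≤ κ * x := by
      have h2 : (2 : ℝ) ^ (β / κ) ≤ (2 : ℝ) ^ x := by
        rw [hxm]
        refine hm2.trans ?_
        exact_mod_cast (by omega : m2 ≤ m)
      have h3 := (Real.rpow_le_rpow_left_iff (by norm_num)).1 h2
      rw [div_le_iff₀ hκ0] at h3
      linarith
    have h2 : x * b = κ * x + β * (x / (1 - η)) := by
      rw [hκ]
      ring
    have h3 : β * L ≤ β * (x / (1 - η)) + β := by
      nlinarith
    linarith
  have hsub : {t | t ∈ SA ∧ BAR.Ext m t ∧ n < t.length} ⊆ {t | t ∈ WL L ∧ (2 : ℝ) ^ (β * L) ≤ t.length} ∪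
      {t | t ∈ SA ∧ BAR.Ext m t ∧ t ∉ WL L} := by
    rintro t ⟨h1, h2, h4⟩
    by_cases h3 : t ∈ WL L
    · left
      refine ⟨h3, hβL.trans ?_⟩
      exact_mod_cast h4.le
    · exact Or.inr ⟨h1, h2, h3⟩
  have h1 : gf {t | t ∈ WL L ∧ (2 : ℝ) ^ (β * L) ≤ t.length} ≤ 1 := by
    refine (hL0 L (by omega)).trans ?_
    rw [← ENNReal.ofReal_one]
    apply ENNReal.ofReal_le_ofReal
    apply Real.exp_le_one_iff.2
    have : (0 : ℝ) < (2 : ℝ) ^ (c * L) := by positivity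
    linarith
  have h2 := hL1 L (by omega) m hmL
  calc gf {t | t ∈ SA ∧ BAR.Ext m t ∧ n < t.length} ≤ gf ({t | t ∈ WL L ∧ (2 : ℝ) ^ (β * L) ≤ t.length} ∪
      {t | t ∈ SA ∧ BAR.Ext m t ∧ t ∉ WL L}) := gf_mono hsub
    _ ≤ gf {t | t ∈ WL L ∧ (2 : ℝ) ^ (β * L) ≤ t.length} +
        gf {t | t ∈ SA ∧ BAR.Ext m t ∧ t ∉ WL L} := gf_union_le _ _
    _ ≤ 1 + 1 := add_le_add h1 h2
    _ = 2 := by norm_num

/-- the half plane words of m rows with more than m ^ b letters, b > 4 / 3, have a bounded weight -/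
theorem HH_le_HHl {b : ℝ} (hb : 4 / 3 < b) : ∃ m0 : ℕ, ∀ m : ℕ, m0 ≤ m → ∀ n : ℕ, (m : ℝ) ^ b ≤ n →
    BAR.HH m ≤ HHl m n + 2 := by
  have hM : ∀ a' : ℝ, (4 / 3 : ℝ) < a' → ∃ C : ℝ, 0 ≤ C ∧ T2.MeanLen a' C := by
    intro a' ha'
    obtain ⟨C, hC, h⟩ := NTm.ExpsA.meanLen (e := a' - 4 / 3) (by linarith)
    refine ⟨C, hC, ?_⟩
    rwa [add_sub_cancel] at h
  obtain ⟨m0, h⟩ := long_small (a := 4 / 3) (by norm_num) (fun _ hβ => BAR.exp_low (by norm_num) hM hβ) hb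
  refine ⟨m0, fun m hm n hn => ?_⟩
  have h1 := h m hm n hn
  have hsub : SSt m ⊆ {W | W ∈ SSt m ∧ W.length ≤ n} ∪ {t | t ∈ SA ∧ BAR.Ext m t ∧ n < t.length} := by
    intro w hw
    rcases le_or_gt w.length n with h2 | h2
    · exact Or.inl ⟨hw, h2⟩
    · exact Or.inr ⟨(BAR.SSt_Ext hw).1, (BAR.SSt_Ext hw).2, h2⟩
  exact (gf_mono hsub).trans ((gf_union_le _ _).trans (add_le_add le_rfl h1))

lemma one_le_HHl (N lam : ℕ) : 1 ≤ HHl N lam := by
  unfold HHl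
  have h3 : gf {[]} ≤ gf {W | W ∈ SSt N ∧ W.length ≤ lam} := by
    refine gf_mono ?_
    intro t ht
    rw [Set.mem_singleton_iff] at ht
    subst ht
    exact ⟨BAR.nil_SSt _, Nat.zero_le _⟩
  refine le_trans ?_ h3
  unfold gf
  rw [tsum_singleton (f := wE)]
  unfold wE
  simp

lemma frL_ge_half (l : ℕ → ℕ) (L : ℕ) : 1 / 2 ≤ Sc.frL l L := by
  have h1 : HHl (2 ^ 0) (l L) / ENNReal.ofReal (UU (2 ^ 0)) ≤ bl (l L) L := le_bl (l L) (Nat.zero_le L)
  have hU : UU (2 ^ 0) ≤ 2 := by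
    have := CuLogAux.UU_le_succ 1
    rw [pow_zero]
    norm_num at this
    linarith
  have h2 : ENNReal.ofReal (1 / 2) ≤ bl (l L) L := by
    refine le_trans ?_ h1
    rw [one_div, ENNReal.ofReal_inv_of_pos (by norm_num), ENNReal.div_eq_inv_mul]
    calc (ENNReal.ofReal 2)⁻¹ = (ENNReal.ofReal 2)⁻¹ * 1 := (mul_one _).symm
      _ ≤ (ENNReal.ofReal (UU (2 ^ 0)))⁻¹ * HHl (2 ^ 0) (l L) :=
        mul_le_mul' (ENNReal.inv_le_inv.2 (ENNReal.ofReal_le_ofReal hU)) (one_le_HHl _ _)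
  rw [← Sc.ofReal_frL] at h2
  exact (ENNReal.ofReal_le_ofReal_iff (Sc.frL_pos l L).le).1 h2

/-- the normalised weight has at most the exponent h - 3 / 4 -/
lemma frL_up {h : ℝ} (H : BAR.HUp h) (l : ℕ → ℕ) {r : ℝ} (hr : 0 < r) (hh : 0 ≤ h - 3 / 4 + r) :
    ∃ K : ℝ, 0 < K ∧ ∀ L : ℕ, Sc.frL l L ≤ K * (2 : ℝ) ^ ((h - 3 / 4 + r) * L) := by
  obtain ⟨A0, hA0⟩ := H r hr
  obtain ⟨A, hA⟩ : ∃ A, A = max A0 1 := ⟨_, rfl⟩
  have hA1 : 1 ≤ A := by rw [hA]; exact le_max_right _ _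
  have hAA : A0 ≤ A := by rw [hA]; exact le_max_left _ _
  obtain ⟨c, C, hc, hC, hU⟩ := BAR.UU_two
  refine ⟨A / c, by positivity, fun L => ?_⟩
  have h1 : bl (l L) L ≤ ENNReal.ofReal (A / c * (2 : ℝ) ^ ((h - 3 / 4 + r) * L)) := by
    unfold bl
    refine iSup_le fun i => ?_
    have hi : (i.1 : ℝ) ≤ L := by exact_mod_cast (by have := i.2; omega : i.1 ≤ L)
    have hp0 : (0 : ℝ) < ((2 ^ i.1 : ℕ) : ℝ) := by exact_mod_cast Nat.one_le_two_pow
    have h2 := hA0 (2 ^ i.1) Nat.one_le_two_pow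
    have h3 := (hU (2 ^ i.1) Nat.one_le_two_pow).1
    have e1 : (((2 ^ i.1 : ℕ) : ℝ)) = (2 : ℝ) ^ (i.1 : ℝ) := by
      rw [Real.rpow_natCast]
      push_cast
      rfl
    have hU0 : 0 < UU (2 ^ i.1) := lt_of_lt_of_le (by positivity) h3
    calc HHl (2 ^ i.1) (l L) / ENNReal.ofReal (UU (2 ^ i.1))
        ≤ ENNReal.ofReal (A * ((2 ^ i.1 : ℕ) : ℝ) ^ (h + r)) / ENNReal.ofReal (c * ((2 ^ i.1 : ℕ) : ℝ) ^ (3 / 4 : ℝ)) := by
          refine ENNReal.div_le_div ((Sc.HHl_le_HH _ _).trans (h2.trans (ENNReal.ofReal_le_ofReal ?_)))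
            (ENNReal.ofReal_le_ofReal h3)
          exact mul_le_mul_of_nonneg_right hAA (by positivity)
      _ = ENNReal.ofReal (A / c * (2 : ℝ) ^ ((h - 3 / 4 + r) * i.1)) := by
          rw [← ENNReal.ofReal_div_of_pos (by positivity)]
          congr 1
          rw [e1, ← Real.rpow_mul (by norm_num), ← Real.rpow_mul (by norm_num)]
          have e2 : (h - 3 / 4 + r) * i.1 = i.1 * (h + r) - i.1 * (3 / 4) := by ring
          rw [e2, Real.rpow_sub (by norm_num)]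
          field_simp
      _ ≤ _ := by
          apply ENNReal.ofReal_le_ofReal
          apply mul_le_mul_of_nonneg_left _ (by positivity)
          exact Real.rpow_le_rpow_of_exponent_le (by norm_num) (mul_le_mul_of_nonneg_left hi hh)
  rw [← Sc.ofReal_frL] at h1
  exact (ENNReal.ofReal_le_ofReal_iff (by positivity)).1 h1

/-- the normalised weight at a scale i with (2 ^ i) ^ b letters -/
lemma frL_lower {h : ℝ} (H : BAR.HLow h) {b : ℝ} (hb : 4 / 3 < b) {e : ℝ} (he : 0 < e) :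
    ∃ (c : ℝ) (i0 : ℕ), 0 < c ∧ ∀ (l : ℕ → ℕ) (i L : ℕ), i0 ≤ i → i ≤ L → (2 : ℝ) ^ (b * i) ≤ l L →
      c * (2 : ℝ) ^ ((h - 3 / 4 - e) * i) ≤ Sc.frL l L := by
  obtain ⟨m0, hm0⟩ := HH_le_HHl hb
  obtain ⟨c0, hc0, hH⟩ := H e he
  obtain ⟨c, C, hc, hC, hU⟩ := BAR.UU_two
  refine ⟨c0 / (3 * C), m0, by positivity, fun l i L hi hiL hl => ?_⟩
  have hp0 : (0 : ℝ) < ((2 ^ i : ℕ) : ℝ) := by exact_mod_cast Nat.one_le_two_pow
  have e1 : (((2 ^ i : ℕ) : ℝ)) = (2 : ℝ) ^ (i : ℝ) := by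
    rw [Real.rpow_natCast]
    push_cast
    rfl
  have h1 : BAR.HH (2 ^ i) ≤ HHl (2 ^ i) (l L) + 2 := by
    apply hm0 _ (hi.trans Nat.lt_two_pow_self.le)
    rw [e1, ← Real.rpow_mul (by norm_num), mul_comm]
    exact hl
  have h2 : HHl (2 ^ i) (l L) + 2 ≤ 3 * HHl (2 ^ i) (l L) := by
    have h3 : (2 : ℝ≥0∞) ≤ 2 * HHl (2 ^ i) (l L) := by
      calc (2 : ℝ≥0∞) = 2 * 1 := (mul_one _).symm
        _ ≤ _ := mul_le_mul' le_rfl (one_le_HHl _ _)
    calc HHl (2 ^ i) (l L) + 2 ≤ HHl (2 ^ i) (l L) + 2 * HHl (2 ^ i) (l L) := add_le_add le_rfl h3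
      _ = 3 * HHl (2 ^ i) (l L) := by ring
  have h3 := hH (2 ^ i) Nat.one_le_two_pow
  have h4 := (hU (2 ^ i) Nat.one_le_two_pow)
  have hU0 : 0 < UU (2 ^ i) := lt_of_lt_of_le (by positivity) h4.1
  have h5 : ENNReal.ofReal (c0 / (3 * C) * (2 : ℝ) ^ ((h - 3 / 4 - e) * i)) ≤ bl (l L) L := by
    calc ENNReal.ofReal (c0 / (3 * C) * (2 : ℝ) ^ ((h - 3 / 4 - e) * i))
        = ENNReal.ofReal (c0 * ((2 ^ i : ℕ) : ℝ) ^ (h - e)) / (3 * ENNReal.ofReal (C * ((2 ^ i : ℕ) : ℝ) ^ (3 / 4 : ℝ))) := by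
          have e3 : (3 : ℝ≥0∞) = ENNReal.ofReal 3 := by norm_num
          rw [e3, ← ENNReal.ofReal_mul (by norm_num), ← ENNReal.ofReal_div_of_pos (by positivity)]
          congr 1
          rw [e1, ← Real.rpow_mul (by norm_num), ← Real.rpow_mul (by norm_num)]
          have e2 : (h - 3 / 4 - e) * i = i * (h - e) - i * (3 / 4) := by ring
          rw [e2, Real.rpow_sub (by norm_num)]
          field_simp
      _ ≤ (3 * HHl (2 ^ i) (l L)) / (3 * ENNReal.ofReal (UU (2 ^ i))) :=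
          ENNReal.div_le_div (h3.trans (h1.trans h2)) (mul_le_mul' le_rfl (ENNReal.ofReal_le_ofReal h4.2))
      _ = HHl (2 ^ i) (l L) / ENNReal.ofReal (UU (2 ^ i)) :=
          ENNReal.mul_div_mul_left _ _ (by norm_num) (by norm_num)
      _ ≤ bl (l L) L := le_bl (l L) hiL
  rw [← Sc.ofReal_frL] at h5
  exact (ENNReal.ofReal_le_ofReal_iff (Sc.frL_pos l L).le).1 h5

end Fr

open Fr in
/-- the exponent of the normalised weight -/
theorem frL_exp_of {h : ℝ} (hh : 3 / 4 ≤ h) (HU : BAR.HUp h) (HL : BAR.HLow h) {l : ℕ → ℕ}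
    (hlow : ∀ e : ℝ, 0 < e → ∃ k0 : ℕ, ∀ k : ℕ, k0 ≤ k → (2 : ℝ) ^ ((4 / 3 - e) * k) ≤ l k) :
    ∀ r : ℝ, 0 < r → ∃ B : ℝ, ∀ L : ℕ, |Real.logb 2 (Sc.frL l L) - (h - 3 / 4) * L| ≤ r * L + B := by
  intro r hr
  -- upper bound
  obtain ⟨K, hK, hup⟩ := frL_up HU l hr (by linarith)
  -- lower bound
  obtain ⟨q, hq⟩ : ∃ q : ℝ, q = h - 3 / 4 := ⟨_, rfl⟩
  have hq0 : 0 ≤ q := by rw [hq]; linarith
  obtain ⟨η, hη⟩ : ∃ η : ℝ, η = min (1 / 2) (r / (2 * (q + 1))) := ⟨_, rfl⟩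
  have hη0 : 0 < η := by rw [hη]; exact lt_min (by norm_num) (by positivity)
  have hη1 : η ≤ 1 / 2 := by rw [hη]; exact min_le_left _ _
  have hη2 : η * (q + 1) ≤ r / 2 := by
    have : η ≤ r / (2 * (q + 1)) := by rw [hη]; exact min_le_right _ _
    rw [le_div_iff₀ (by positivity)] at this
    linarith
  obtain ⟨b, hb⟩ : ∃ b : ℝ, b = 4 / 3 * (1 + η / 2) := ⟨_, rfl⟩
  have hb1 : 4 / 3 < b := by rw [hb]; linarith
  obtain ⟨c, i0, hc, hl⟩ := frL_lower HL hb1 (e := r / 2) (by positivity)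
  obtain ⟨k0, hk0⟩ := hlow (2 * η / 3) (by positivity)
  obtain ⟨L0, hL0⟩ : ∃ L0 : ℕ, L0 = k0 + 2 * (i0 + 1) := ⟨_, rfl⟩
  obtain ⟨B, hB⟩ : ∃ B : ℝ, B = |Real.logb 2 K| + |Real.logb 2 c| + q * L0 + (q + r) + 2 := ⟨_, rfl⟩
  have hBK := abs_nonneg (Real.logb 2 K)
  have hBc := abs_nonneg (Real.logb 2 c)
  have hqL : 0 ≤ q * L0 := by positivity
  refine ⟨B, fun L => ?_⟩
  have hLn : (0 : ℝ) ≤ L := Nat.cast_nonneg L
  have hrL : 0 ≤ r * L := by positivity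
  rw [← hq, abs_le]
  constructor
  · -- the lower bound
    rcases Nat.lt_or_ge L L0 with h1 | h1
    · have h2 := frL_ge_half l L
      have h3 := Real.logb_le_logb_of_le (b := 2) (by norm_num) (by norm_num) h2
      have h4 : Real.logb 2 (1 / 2) = -1 := by
        rw [one_div, Real.logb_inv, Real.logb_self_eq_one (by norm_num)]
      rw [h4] at h3
      have h5 : q * (L : ℝ) ≤ q * L0 := mul_le_mul_of_nonneg_left (by exact_mod_cast h1.le) hq0
      linarith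
    · obtain ⟨i, hi⟩ : ∃ i : ℕ, i = ⌊(1 - η) * (L : ℝ)⌋₊ := ⟨_, rfl⟩
      have hi1 : (i : ℝ) ≤ (1 - η) * L := by
        rw [hi]
        exact Nat.floor_le (by nlinarith)
      have hi2 : (1 - η) * L - 1 ≤ (i : ℝ) := by
        rw [hi]
        linarith [Nat.lt_floor_add_one ((1 - η) * (L : ℝ))]
      have hLL0 : ((k0 : ℝ) + 2 * (i0 + 1)) ≤ L := by
        have : ((k0 + 2 * (i0 + 1) : ℕ) : ℝ) ≤ L := by exact_mod_cast (by omega : k0 + 2 * (i0 + 1) ≤ L)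
        push_cast at this
        exact this
      have hk0n : (0 : ℝ) ≤ k0 := Nat.cast_nonneg k0
      have hi0 : i0 ≤ i := by
        have h2 : (i0 : ℝ) ≤ i := by nlinarith
        exact_mod_cast h2
      have hiL : i ≤ L := by
        have h2 : (i : ℝ) ≤ L := by nlinarith
        exact_mod_cast h2
      have hll : (2 : ℝ) ^ (b * i) ≤ l L := by
        refine le_trans ?_ (hk0 L (by omega))
        apply Real.rpow_le_rpow_of_exponent_le (by norm_num)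
        have h2 : b * i ≤ b * ((1 - η) * L) := mul_le_mul_of_nonneg_left hi1 (by linarith)
        refine h2.trans ?_
        rw [← mul_assoc]
        apply mul_le_mul_of_nonneg_right _ hLn
        rw [hb]
        nlinarith [sq_nonneg η]
      have h2 := hl l i L hi0 hiL hll
      have h3 := Real.logb_le_logb_of_le (b := 2) (by norm_num) (by positivity) h2
      rw [Real.logb_mul hc.ne' (by positivity), Real.logb_rpow (by norm_num) (by norm_num), ← hq] at h3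
      have h4 := neg_abs_le (Real.logb 2 c)
      -- (q - r / 2) i ≥ q L - r L - (q + r)
      have h5 : q * L - r * L - (q + r) ≤ (q - r / 2) * i := by
        have h6 : q * ((1 - η) * L - 1) ≤ q * i := mul_le_mul_of_nonneg_left hi2 hq0
        have h7 : r / 2 * (i : ℝ) ≤ r / 2 * L := mul_le_mul_of_nonneg_left (by exact_mod_cast hiL) (by positivity)
        have h8 : η * (q + 1) * L ≤ r / 2 * L := mul_le_mul_of_nonneg_right hη2 hLn
        have h9 : 0 ≤ η * L := by positivity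
        nlinarith
      linarith
  · -- the upper bound
    have h1 := hup L
    have h2 := Real.logb_le_logb_of_le (b := 2) (by norm_num) (Sc.frL_pos l L) h1
    rw [Real.logb_mul hK.ne' (by positivity), Real.logb_rpow (by norm_num) (by norm_num), ← hq] at h2
    have h3 := le_abs_self (Real.logb 2 K)
    have h4 : (q + r) * (L : ℝ) = q * L + r * L := by ring
    linarith

/-- **the exponent of the normalised weight of the half plane words with at most l L letters is 25 / 48** -/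
theorem frL_exp (HL : BAR.HLow (61 / 48)) {θ : ℝ} {l : ℕ → ℕ} (hl : NTm.Seq θ l) :
    ∀ r : ℝ, 0 < r → ∃ B : ℝ, ∀ L : ℕ, |Real.logb 2 (Sc.frL l L) - 25 / 48 * L| ≤ r * L + B := by
  have h := frL_exp_of (h := 61 / 48) (by norm_num) NUGC.hUp HL hl.low
  norm_num at h ⊢
  exact h

end NTW

end HexObs
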