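import Pool.Agent.BAR.HCut
import Pool.Agent.PHW.Mirror
import Pool.Agent.PHW.TopA
import Pool.Agent.Tight.Defs

/-!
NTW, hook lemma, part A: a bridge, an arc and a half plane walk in the turned frame.
-/

set_option autoImplicit false

namespace HexObs

namespace NTW

open Finset

open scoped ENNReal

/-- arcs: walks of the half plane from the start back to the bottom row; the last vertex is the vertex of level 2
above the bottom row, the last direction is downwards -/
def Arc : Set (List Bool) :=
  {A | BAR.Pos A ∧ (∀ i k, i < k → k ≤ A.length → vx oo up A i ≠ vx oo up A k) ∧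
    dx up A A.length = -up ∧ lev A A.length = 2}

/-! ### 1. Concatenation in the turned frame -/

lemma vx_turn {A : List Bool} (hA : dx up A A.length = -up) (Z : List Bool) (j : ℕ) :
    vx oo up (A ++ Z) (A.length + j) = vx oo up A A.length - vx oo up Z j := by
  have h1 : vx oo up (A ++ Z) (A.length + j) =
      vx (vx oo up (A ++ Z) A.length) (dx up (A ++ Z) A.length) Z j := by
    unfold vx dx
    rw [vs_shift]
    apply vs_congr
    intro k _
    exact tf_append_right k
  rw [h1, vx_append (by omega), dx_append le_rfl, hA, vx_turned]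

lemma dx_turn {A : List Bool} (hA : dx up A A.length = -up) (Z : List Bool) (j : ℕ) :
    dx up (A ++ Z) (A.length + j) = -dx up Z j := by
  have h1 : dx up (A ++ Z) (A.length + j) = dx (dx up (A ++ Z) A.length) Z j := by
    unfold dx
    rw [ds_shift]
    apply ds_congr
    intro k _
    exact tf_append_right k
  rw [h1, dx_append le_rfl, hA]
  have h := dx_mulE (-1, 0) up Z j
  have e : mulE (-1, 0) up = -up := by decide
  have e2 : ∀ p : Pt, mulE (-1, 0) p = -p := by
    intro p
    ext <;> simp [mulE]
  rw [e, e2] at h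
  exact h

lemma lev_turn {A : List Bool} (hA : dx up A A.length = -up) (Z : List Bool) (j : ℕ) :
    lev (A ++ Z) (A.length + j) = lev A A.length - lev Z j := by
  unfold lev
  rw [vx_turn hA]
  simp only [ip, Prod.fst_sub, Prod.snd_sub]
  ring

lemma lat_turn {A : List Bool} (hA : dx up A A.length = -up) (Z : List Bool) (j : ℕ) :
    lat (A ++ Z) (A.length + j) = latE A - lat Z j := by
  unfold latE lat
  rw [vx_turn hA]
  simp only [cross, Prod.fst_sub, Prod.snd_sub]
  ring

lemma two_le_lev {Z : List Bool} {k : ℕ} (h : 0 < lev Z k) : 2 ≤ lev Z k := by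
  have h1 := lev_mod Z k
  split_ifs at h1 <;> omega

lemma arc_pos {A : List Bool} (hA : A ∈ Arc) : 1 ≤ A.length := by
  by_contra hcon
  have h0 : A.length = 0 := by omega
  have h1 := hA.2.2.2
  rw [h0, lev_zero] at h1
  omega

/-! ### 2. The word t ++ (A ++ Z) -/

section word

variable {T : ℕ} {t A Z : List Bool}

lemma hk_lev1 {i : ℕ} (hi : i ≤ t.length) : lev (t ++ (A ++ Z)) i = lev t i := lev_append (by omega)

lemma hk_lev1' (ht : t ∈ Brd T) {i : ℕ} (hi : i ≤ t.length) : lev (t ++ (A ++ Z)) i ≤ 3 * T := by
  rw [hk_lev1 hi]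
  rcases Nat.eq_zero_or_pos i with h | h
  · rw [h, lev_zero]
    omega
  · exact ((mem_Brd.1 ht).1 i h hi).2

lemma hk_lev2 (ht : t ∈ Brd T) {j : ℕ} (hj : j ≤ A.length) :
    lev (t ++ (A ++ Z)) (t.length + j) = 3 * T + lev A j := by
  rw [lev_cat (mem_Brd.1 ht).2.2.1, (mem_Brd.1 ht).2.2.2, lev_append (by omega)]

lemma hk_lev2' (ht : t ∈ Brd T) (hA : A ∈ Arc) {i : ℕ} (h1 : t.length < i) (h2 : i ≤ t.length + A.length) :
    3 * (T : ℤ) < lev (t ++ (A ++ Z)) i := by
  obtain ⟨j, rfl⟩ : ∃ j, i = t.length + j := ⟨i - t.length, by omega⟩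
  rw [hk_lev2 ht (by omega)]
  have := hA.1 j (by omega) (by omega)
  omega

lemma hk_lev3 (ht : t ∈ Brd T) (hA : A ∈ Arc) (k : ℕ) :
    lev (t ++ (A ++ Z)) (t.length + (A.length + k)) = 3 * T + 2 - lev Z k := by
  rw [lev_cat (mem_Brd.1 ht).2.2.1, (mem_Brd.1 ht).2.2.2, lev_turn hA.2.2.1, hA.2.2.2]
  ring

lemma hk_lev3' (ht : t ∈ Brd T) (hA : A ∈ Arc) (hZ : BAR.Pos Z) {i : ℕ} (h1 : t.length + A.length < i)
    (h2 : i ≤ (t ++ (A ++ Z)).length) : lev (t ++ (A ++ Z)) i ≤ 3 * (T : ℤ) := by
  rw [List.length_append, List.length_append] at h2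
  obtain ⟨k, rfl⟩ : ∃ k, i = t.length + (A.length + k) := ⟨i - t.length - A.length, by omega⟩
  rw [hk_lev3 ht hA]
  have := two_le_lev (hZ k (by omega) (by omega))
  omega

end word

/-! ### 3. Two decompositions of the same word are nested -/

theorem hook_nested {T T' : ℕ} {t t' A A' Z Z' : List Bool} (ht : t ∈ Brd T) (ht' : t' ∈ Brd T') (hA : A ∈ Arc)
    (hA' : A' ∈ Arc) (hZ : BAR.Pos Z) (hZ' : BAR.Pos Z')
    (hinj : ∀ i k, i < k → k ≤ Z'.length → vx oo up Z' i ≠ vx oo up Z' k)
    (h : t ++ (A ++ Z) = t' ++ (A' ++ Z')) (hT : T ≤ T') :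
    ∃ b ∈ Brd (T' - T), ∃ c ∈ Brd (T' - T), t' = t ++ b ∧ A = b ++ (A' ++ c) ∧ Z' = c ++ Z := by
  have hA1 := arc_pos hA'
  have hlen : (t ++ (A ++ Z)).length = (t' ++ (A' ++ Z')).length := by rw [h]
  have hlen1 : t.length + (A.length + Z.length) = t'.length + (A'.length + Z'.length) := by
    simpa only [List.length_append] using hlen
  -- the vertices above the level 3 T' are above the level 3 T
  have hsub : ∀ i, t'.length < i → i ≤ t'.length + A'.length → t.length < i ∧ i ≤ t.length + A.length := by
    intro i h1 h2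
    have h3 := hk_lev2' (Z := Z') ht' hA' h1 h2
    rw [← h] at h3
    constructor
    · by_contra hcon
      have h4 := hk_lev1' (A := A) (Z := Z) ht (i := i) (by omega)
      omega
    · by_contra hcon
      have h4 := hk_lev3' (Z := Z) ht hA hZ (i := i) (by omega) (by
        rw [List.length_append, List.length_append]
        omega)
      omega
  have hl1 : t.length ≤ t'.length := by
    have := (hsub (t'.length + 1) (by omega) (by omega)).1
    omega
  have hl2 : t'.length + A'.length ≤ t.length + A.length := (hsub (t'.length + A'.length) (by omega) le_rfl).2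
  -- t' = t ++ b
  obtain ⟨b, hb⟩ : ∃ b, t' = t ++ b := by
    have h1 : t <+: t' := by
      apply List.prefix_of_prefix_length_le (l₃ := t ++ (A ++ Z)) (List.prefix_append t _) _ hl1
      rw [h]
      exact List.prefix_append t' _
    obtain ⟨b, hb⟩ := h1
    exact ⟨b, hb.symm⟩
  have hbl : t'.length = t.length + b.length := by rw [hb, List.length_append]
  have h2 : A ++ Z = b ++ (A' ++ Z') := by
    rw [hb, List.append_assoc] at h
    exact List.append_cancel_left h
  -- A = b ++ A' ++ c
  obtain ⟨c, hc⟩ : ∃ c, A = b ++ A' ++ c := by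
    have h1 : (b ++ A') <+: A := by
      apply List.prefix_of_prefix_length_le (l₃ := A ++ Z) _ (List.prefix_append A _) (by
        rw [List.length_append]
        omega)
      rw [h2, ← List.append_assoc]
      exact List.prefix_append _ _
    obtain ⟨c, hc⟩ := h1
    exact ⟨c, hc.symm⟩
  have hcl : A.length = b.length + A'.length + c.length := by
    rw [hc, List.length_append, List.length_append]
  have hZc : Z' = c ++ Z := by
    rw [hc, List.append_assoc, List.append_assoc] at h2
    have h3 := List.append_cancel_left h2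
    exact (List.append_cancel_left h3).symm
  have hZl : Z'.length = c.length + Z.length := by rw [hZc, List.length_append]
  have hbB : b ∈ Brd (T' - T) := by
    refine (Brd_cancel ht (hb ▸ ht') ?_).2
    intro j hj1 hj2
    have h3 := hk_lev2' (Z := Z) ht hA (i := t.length + j) (by omega) (by omega)
    rw [h, hk_lev1 (by omega), hb] at h3
    exact h3
  refine ⟨b, hbB, c, ?_, hb, by rw [hc, List.append_assoc], hZc⟩
  have hZpre : ∀ j, j ≤ c.length → lev Z' j = lev c j := by
    intro j hj
    rw [hZc]
    exact lev_append (by omega)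
  have hlevc : ∀ j, j ≤ c.length →
      lev (t ++ (A ++ Z)) (t.length + (b.length + A'.length + j)) = 3 * (T' : ℤ) + 2 - lev c j := by
    intro j hj
    rw [h, show t.length + (b.length + A'.length + j) = t'.length + (A'.length + j) by omega, hk_lev3 ht' hA',
      hZpre j hj]
  rw [mem_Brd]
  have hcast : ((T' - T : ℕ) : ℤ) = (T' : ℤ) - T := by
    rw [Nat.cast_sub hT]
  refine ⟨?_, ?_, ?_, ?_⟩
  · intro j hj1 hj2
    have h3 := hZ' j hj1 (by omega)
    rw [hZpre j hj2] at h3
    have h4 := hk_lev2' (Z := Z) ht hA (i := t.length + (b.length + A'.length + j)) (by omega) (by omega)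
    rw [hlevc j hj2] at h4
    have h5 := lev_mod c j
    rw [hcast]
    split_ifs at h5 <;> constructor <;> omega
  · intro i k hik hk heq
    apply hinj i k hik (by omega)
    rw [hZc, vx_append (by omega), vx_append (by omega)]
    exact heq
  · have h3 : dx up (t ++ (A ++ Z)) (t.length + A.length) = -up := by
      rw [dx_cat (mem_Brd.1 ht).2.2.1, dx_append le_rfl]
      exact hA.2.2.1
    rw [h, show t.length + A.length = t'.length + (A'.length + c.length) by omega, dx_cat (mem_Brd.1 ht').2.2.1,
      dx_turn hA'.2.2.1, hZc, dx_append le_rfl] at h3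
    exact neg_inj.1 h3
  · have h3 := hk_lev2 (Z := Z) ht (A := A) le_rfl
    rw [hA.2.2.2, hcl, hlevc c.length le_rfl] at h3
    rw [hcast]
    omega

/-! ### 4. Membership -/

theorem hook_mem {T h w0 : ℕ} {t A Z : List Bool} (ht : t ∈ Brd T) (htb : InBox t w0) (hA : A ∈ Arc) (hAh : A ∈ SSt h)
    (hsep : 3 * (w0 : ℤ) < |latE A|) (hZ : Z ∈ SSt T) (hZb : InBox Z w0) : t ++ (A ++ Z) ∈ SSt (T + h) := by
  have hd := (mem_Brd.1 ht).2.2.1
  have hlen : (t ++ (A ++ Z)).length = t.length + (A.length + Z.length) := by
    rw [List.length_append, List.length_append]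
  have hlat1 : ∀ i, i ≤ t.length → lat (t ++ (A ++ Z)) i = lat t i := fun i hi => lat_append (by omega)
  have hlat3 : ∀ k, lat (t ++ (A ++ Z)) (t.length + (A.length + k)) = latE t + latE A - lat Z k := by
    intro k
    rw [lat_cat hd, lat_turn hA.2.2.1]
    ring
  refine ⟨fun i hi1 hi2 => ?_, fun i k hik hk heq => ?_⟩
  · rw [hlen] at hi2
    rw [mem_St]
    by_cases h1 : i ≤ t.length
    · rw [hk_lev1 h1]
      have := (mem_Brd.1 ht).1 i hi1 h1
      push_cast
      omega
    · by_cases h2 : i ≤ t.length + A.length
      · obtain ⟨j, rfl⟩ : ∃ j, i = t.length + j := ⟨i - t.length, by omega⟩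
        rw [hk_lev2 ht (by omega)]
        have := mem_St.1 (hAh.mem j (by omega) (by omega))
        push_cast
        omega
      · obtain ⟨j, rfl⟩ : ∃ j, i = t.length + (A.length + j) := ⟨i - t.length - A.length, by omega⟩
        rw [hk_lev3 ht hA]
        have := mem_St.1 (hZ.mem j (by omega) (by omega))
        push_cast
        omega
  · rw [hlen] at hk
    by_cases h1 : k ≤ t.length
    · rw [vx_append (by omega), vx_append (by omega)] at heq
      exact (mem_Brd.1 ht).2.1 i k hik h1 heq
    · by_cases h2 : k ≤ t.length + A.length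
      · obtain ⟨j, rfl⟩ : ∃ j, k = t.length + j := ⟨k - t.length, by omega⟩
        by_cases h3 : i ≤ t.length
        · have h4 : lev (t ++ (A ++ Z)) i = lev (t ++ (A ++ Z)) (t.length + j) := congrArg (fun p => ip p up) heq
          have h5 := hk_lev1' (A := A) (Z := Z) ht h3
          have h6 := hk_lev2' (Z := Z) ht hA (i := t.length + j) (by omega) (by omega)
          omega
        · obtain ⟨j', rfl⟩ : ∃ j', i = t.length + j' := ⟨i - t.length, by omega⟩
          rw [vx_cat hd, vx_cat hd, vx_append (by omega), vx_append (by omega)] at heq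
          exact hA.2.1 j' j (by omega) (by omega) (add_left_cancel heq)
      · obtain ⟨j, rfl⟩ : ∃ j, k = t.length + (A.length + j) := ⟨k - t.length - A.length, by omega⟩
        by_cases h3 : i ≤ t.length
        · have h4 : lat (t ++ (A ++ Z)) i = lat (t ++ (A ++ Z)) (t.length + (A.length + j)) := by
            unfold lat
            rw [heq]
          rw [hlat1 i h3, hlat3] at h4
          have h5 := abs_le.1 (htb i h3)
          have h6 := abs_le.1 (htb t.length le_rfl)
          have h7 := abs_le.1 (hZb j (by omega))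
          have h8 : latE t = lat t t.length := rfl
          rw [h8] at h4
          rcases lt_abs.1 hsep with h9 | h9 <;> omega
        · by_cases h3' : i < t.length + A.length
          · have h4 : lev (t ++ (A ++ Z)) i = lev (t ++ (A ++ Z)) (t.length + (A.length + j)) :=
              congrArg (fun p => ip p up) heq
            have h5 := hk_lev2' (Z := Z) ht hA (i := i) (by omega) (by omega)
            have h6 := hk_lev3' (Z := Z) ht hA (BAR.pos_SSt hZ) (i := t.length + (A.length + j)) (by omega)
              (by rw [hlen]; omega)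
            omega
          · obtain ⟨j', rfl⟩ : ∃ j', i = t.length + (A.length + j') := ⟨i - t.length - A.length, by omega⟩
            rw [vx_cat hd, vx_cat hd, vx_turn hA.2.2.1, vx_turn hA.2.2.1] at heq
            have h5 := add_left_cancel heq
            exact hZ.inj j' j (by omega) (by omega) (sub_right_inj.1 h5)

/-- lateral position of the hook word -/
lemma hook_box {T a b : ℕ} {t A Z : List Bool} (ht : t ∈ Brd T) (htb : InBox t a) (hA : A ∈ Arc) (hAb : InBox A b)
    (hZb : InBox Z a) : InBox (t ++ (A ++ Z)) (2 * a + b) := by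
  have hd := (mem_Brd.1 ht).2.2.1
  intro i hi
  rw [List.length_append, List.length_append] at hi
  have h6 := abs_le.1 (htb t.length le_rfl)
  have h8 : latE t = lat t t.length := rfl
  have h9 : latE A = lat A A.length := rfl
  rw [abs_le]
  push_cast
  by_cases h1 : i ≤ t.length
  · rw [lat_append (by omega)]
    have h5 := abs_le.1 (htb i h1)
    constructor <;> omega
  · by_cases h2 : i ≤ t.length + A.length
    · obtain ⟨j, rfl⟩ : ∃ j, i = t.length + j := ⟨i - t.length, by omega⟩
      rw [lat_cat hd, lat_append (by omega), h8]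
      have h5 := abs_le.1 (hAb j (by omega))
      constructor <;> omega
    · obtain ⟨j, rfl⟩ : ∃ j, i = t.length + (A.length + j) := ⟨i - t.length - A.length, by omega⟩
      rw [lat_cat hd, lat_turn hA.2.2.1, h8, h9]
      have h5 := abs_le.1 (hAb A.length le_rfl)
      have h7 := abs_le.1 (hZb j (by omega))
      constructor <;> omega

end NTW

end HexObs
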