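import Pool.Agent.NTW.HookA

/-!
NTW, hook lemma, part B: second moment.
-/

set_option autoImplicit false

namespace HexObs

namespace NTW

open Finset

open scoped ENNReal

/-! ### 1. Abstract second moment -/

lemma two_mul_le' (a b : ℝ≥0∞) : 2 * a * b ≤ a ^ 2 + b ^ 2 := by
  rcases eq_or_ne a ∞ with ha | ha
  · rw [ha]
    simp
  rcases eq_or_ne b ∞ with hb | hb
  · rw [hb]
    simp
  lift a to NNReal using ha
  lift b to NNReal using hb
  have h := two_mul_le_add_sq a b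
  exact_mod_cast h

theorem second_moment {X : Type*} (f : X → List Bool) (κ : ℝ≥0∞) (hκ0 : κ ≠ 0) (hκ : κ ≠ ∞)
    (h1 : ∑' x, wE (f x) ≠ ∞)
    (h2 : ∑' x, ∑' y, (if f x = f y then wE (f x) else 0) ≤ κ * ∑' x, wE (f x)) :
    ∑' x, wE (f x) ≤ κ * gf (Set.range f) := by
  classical
  set R : List Bool → ℝ≥0∞ := fun w => ∑' x, if f x = w then 1 else 0 with hR
  have key : ∀ g : List Bool → ℝ≥0∞, ∑' x, g (f x) = ∑' w, g w * R w := by
    intro g
    have e1 : ∀ x, g (f x) = ∑' w, if f x = w then g w else 0 := by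
      intro x
      rw [tsum_eq_single (f x)]
      · rw [if_pos rfl]
      · intro w hw
        rw [if_neg (fun h => hw h.symm)]
    rw [tsum_congr e1, ENNReal.tsum_comm]
    refine tsum_congr fun w => ?_
    rw [hR]
    simp only
    rw [← ENNReal.tsum_mul_left]
    refine tsum_congr fun x => ?_
    split_ifs
    · rw [mul_one]
    · rw [mul_zero]
  set M1 := ∑' x, wE (f x) with hM1
  have e1 : M1 = ∑' w, wE w * R w := key wE
  have e2 : ∑' x, ∑' y, (if f x = f y then wE (f x) else 0) = ∑' w, wE w * R w ^ 2 := by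
    have h3 : ∀ x, ∑' y, (if f x = f y then wE (f x) else 0) = wE (f x) * R (f x) := by
      intro x
      rw [hR]
      simp only
      rw [← ENNReal.tsum_mul_left]
      refine tsum_congr fun y => ?_
      by_cases h : f x = f y
      · rw [if_pos h, if_pos h.symm, mul_one]
      · rw [if_neg h, if_neg (fun h' => h h'.symm), mul_zero]
    rw [tsum_congr h3, key (fun w => wE w * R w)]
    refine tsum_congr fun w => ?_
    ring
  rw [e2] at h2
  have h3 : ∀ w, 2 * κ * (wE w * R w) ≤ κ ^ 2 * (if w ∈ Set.range f then wE w else 0) + wE w * R w ^ 2 := by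
    intro w
    by_cases hw : w ∈ Set.range f
    · rw [if_pos hw]
      have h4 := mul_le_mul' (le_refl (wE w)) (two_mul_le' κ (R w))
      calc 2 * κ * (wE w * R w) = wE w * (2 * κ * R w) := by ring
        _ ≤ wE w * (κ ^ 2 + R w ^ 2) := h4
        _ = _ := by ring
    · have h4 : R w = 0 := by
        rw [hR]
        simp only
        rw [ENNReal.tsum_eq_zero]
        intro x
        rw [if_neg]
        rintro rfl
        exact hw ⟨x, rfl⟩
      rw [h4]
      simp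
  have h4 := ENNReal.tsum_le_tsum h3
  rw [ENNReal.tsum_mul_left, ENNReal.tsum_add, ENNReal.tsum_mul_left, ← e1] at h4
  have h5 : ∑' w, (if w ∈ Set.range f then wE w else 0) = gf (Set.range f) := by
    unfold gf
    rw [tsum_subtype (Set.range f) wE]
    refine tsum_congr fun w => ?_
    rw [Set.indicator_apply]
  rw [h5] at h4
  have h6 : κ * M1 + κ * M1 ≤ κ ^ 2 * gf (Set.range f) + κ * M1 := by
    calc κ * M1 + κ * M1 = 2 * κ * M1 := by ring
      _ ≤ _ := h4.trans (add_le_add le_rfl h2)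
  have h7 : κ * M1 ≤ κ ^ 2 * gf (Set.range f) := (ENNReal.add_le_add_iff_right (ENNReal.mul_ne_top hκ h1)).1 h6
  have h8 : κ * M1 ≤ κ * (κ * gf (Set.range f)) := by
    rw [← mul_assoc, ← sq]
    exact h7
  exact (ENNReal.mul_le_mul_iff_right hκ0 hκ).1 h8

/-! ### 2. The hook words -/

/-- the hook words of three classes -/
def Hk (P Q S : Set (List Bool)) : Set (List Bool) := {w | ∃ t ∈ P, ∃ A ∈ Q, ∃ Z ∈ S, w = t ++ (A ++ Z)}

/-- the word of three words -/
def hkw {P Q S : Set (List Bool)} (x : P × Q × S) : List Bool := (x.1 : List Bool) ++ ((x.2.1 : List Bool) ++ (x.2.2 : List Bool))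

lemma range_hkw (P Q S : Set (List Bool)) : Set.range (hkw (P := P) (Q := Q) (S := S)) = Hk P Q S := by
  ext w
  constructor
  · rintro ⟨⟨⟨t, ht⟩, ⟨A, hA⟩, ⟨Z, hZ⟩⟩, rfl⟩
    exact ⟨t, ht, A, hA, Z, hZ, rfl⟩
  · rintro ⟨t, ht, A, hA, Z, hZ, rfl⟩
    exact ⟨⟨⟨t, ht⟩, ⟨A, hA⟩, ⟨Z, hZ⟩⟩, rfl⟩

lemma tsum_hkw (P Q S : Set (List Bool)) : ∑' x : P × Q × S, wE (hkw x) = gf P * (gf Q * gf S) := by
  have h1 : ∀ x : P × Q × S, wE (hkw x) = wE x.1 * (wE x.2.1 * wE x.2.2) := by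
    intro x
    unfold hkw
    rw [wE_append, wE_append]
  rw [tsum_congr h1, ENNReal.tsum_prod']
  unfold gf
  rw [← ENNReal.tsum_mul_right]
  refine tsum_congr fun a => ?_
  show ∑' z : Q × S, wE a * (wE z.1 * wE z.2) = _
  rw [ENNReal.tsum_mul_left]
  congr 1
  rw [ENNReal.tsum_prod', ← ENNReal.tsum_mul_right]
  refine tsum_congr fun b => ?_
  show ∑' c : S, wE b * wE c = _
  rw [ENNReal.tsum_mul_left]

/-- the pairs with the same word, the first bridge not higher than the second -/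
lemma pairs_le {P Q S : Set (List Bool)} {T0 D : ℕ} (hP : ∀ t ∈ P, ∃ T, T0 ≤ T ∧ T ≤ T0 + D ∧ t ∈ Brd T)
    (hQ : Q ⊆ Arc) (hS : ∀ Z ∈ S, ∃ m, Z ∈ SSt m) :
    ∑' p : {p : (P × Q × S) × (P × Q × S) | hkw p.1 = hkw p.2 ∧
        ∃ T T', T ≤ T' ∧ (p.1.1 : List Bool) ∈ Brd T ∧ (p.2.1 : List Bool) ∈ Brd T'}, wE (hkw (p : (P × Q × S) × (P × Q × S)).1) ≤
      ENNReal.ofReal (∑ d ∈ range (D + 1), uu d ^ 2) * (gf P * (gf Q * gf S)) := by
  classical
  set E := {p : (P × Q × S) × (P × Q × S) | hkw p.1 = hkw p.2 ∧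
        ∃ T T', T ≤ T' ∧ (p.1.1 : List Bool) ∈ Brd T ∧ (p.2.1 : List Bool) ∈ Brd T'} with hE
  have hex : ∀ p : E, ∃ d : Fin (D + 1), ∃ b : Brd d.1, ∃ c : Brd d.1,
      ((p : (P × Q × S) × (P × Q × S)).2.1 : List Bool) = (p : (P × Q × S) × (P × Q × S)).1.1 ++ (b : List Bool) ∧
      ((p : (P × Q × S) × (P × Q × S)).1.2.1 : List Bool) = (b : List Bool) ++ (((p : (P × Q × S) × (P × Q × S)).2.2.1 : List Bool) ++ (c : List Bool)) ∧
      ((p : (P × Q × S) × (P × Q × S)).2.2.2 : List Bool) = (c : List Bool) ++ ((p : (P × Q × S) × (P × Q × S)).1.2.2 : List Bool) := by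
    rintro ⟨⟨⟨⟨t, ht⟩, ⟨A, hA⟩, ⟨Z, hZ⟩⟩, ⟨⟨t', ht'⟩, ⟨A', hA'⟩, ⟨Z', hZ'⟩⟩⟩, hp1, T, T', hTT, hT, hT'⟩
    obtain ⟨T1, h11, h12, h13⟩ := hP t ht
    obtain ⟨T2, h21, h22, h23⟩ := hP t' ht'
    have e1 : T1 = T := Brd_height h13 hT
    have e2 : T2 = T' := Brd_height h23 hT'
    obtain ⟨m, hm⟩ := hS Z hZ
    obtain ⟨m', hm'⟩ := hS Z' hZ'
    obtain ⟨b, hb, c, hc, r1, r2, r3⟩ := hook_nested hT hT' (hQ hA) (hQ hA') (BAR.pos_SSt hm) (BAR.pos_SSt hm') hm'.inj hp1 hTT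
    exact ⟨⟨T' - T, by omega⟩, ⟨b, hb⟩, ⟨c, hc⟩, r1, r2, r3⟩
  choose d b c r1 r2 r3 using hex
  let ψ : E → P × (Σ d : Fin (D + 1), Brd d.1 × Brd d.1) × Q × S := fun p =>
    (p.1.1.1, ⟨d p, (b p, c p)⟩, p.1.2.2.1, p.1.1.2.2)
  have hψ : Function.Injective ψ := by
    intro p q hpq
    have g1 : p.1.1.1 = q.1.1.1 := congrArg (fun z => z.1) hpq
    have g2 : (⟨d p, (b p, c p)⟩ : Σ d : Fin (D + 1), Brd d.1 × Brd d.1) = ⟨d q, (b q, c q)⟩ := congrArg (fun z => z.2.1) hpq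
    have g3 : p.1.2.2.1 = q.1.2.2.1 := congrArg (fun z => z.2.2.1) hpq
    have g4 : p.1.1.2.2 = q.1.1.2.2 := congrArg (fun z => z.2.2.2) hpq
    have gb : (b p : List Bool) = b q := congrArg (fun z : Σ d : Fin (D + 1), Brd d.1 × Brd d.1 => (z.2.1 : List Bool)) g2
    have gc : (c p : List Bool) = c q := congrArg (fun z : Σ d : Fin (D + 1), Brd d.1 × Brd d.1 => (z.2.2 : List Bool)) g2
    have h5 : p.1.2.1 = q.1.2.1 := by
      apply Subtype.ext
      rw [r1 p, r1 q, g1, gb]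
    have h6 : p.1.1.2.1 = q.1.1.2.1 := by
      apply Subtype.ext
      rw [r2 p, r2 q, g3, gb, gc]
    have h7 : p.1.2.2.2 = q.1.2.2.2 := by
      apply Subtype.ext
      rw [r3 p, r3 q, g4, gc]
    apply Subtype.ext
    exact Prod.ext (Prod.ext g1 (Prod.ext h6 g4)) (Prod.ext h5 (Prod.ext g3 h7))
  let g : P × (Σ d : Fin (D + 1), Brd d.1 × Brd d.1) × Q × S → ℝ≥0∞ := fun z =>
    wE z.1 * ((wE z.2.1.2.1 * wE z.2.1.2.2) * (wE z.2.2.1 * wE z.2.2.2))
  have hw : ∀ p : E, wE (hkw p.1.1) = g (ψ p) := by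
    intro p
    show wE ((p.1.1.1 : List Bool) ++ ((p.1.1.2.1 : List Bool) ++ (p.1.1.2.2 : List Bool))) =
      wE p.1.1.1 * ((wE (b p) * wE (c p)) * (wE p.1.2.2.1 * wE p.1.1.2.2))
    rw [wE_append, wE_append, r2 p, wE_append, wE_append]
    ring
  have hsum : ∑' z, g z = ENNReal.ofReal (∑ d ∈ range (D + 1), uu d ^ 2) * (gf P * (gf Q * gf S)) := by
    have s1 : ∑' y : Σ d : Fin (D + 1), Brd d.1 × Brd d.1, (wE y.2.1 * wE y.2.2) = ENNReal.ofReal (∑ d ∈ range (D + 1), uu d ^ 2) := by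
      rw [ENNReal.tsum_sigma', tsum_fintype, ENNReal.ofReal_sum_of_nonneg (fun d _ => sq_nonneg _),
        Finset.sum_range (fun d => ENNReal.ofReal (uu d ^ 2))]
      refine Finset.sum_congr rfl fun d _ => ?_
      rw [ENNReal.tsum_prod']
      have e3 : ∀ a : Brd d.1, ∑' a' : Brd d.1, wE (a : List Bool) * wE (a' : List Bool) = wE a * gf (Brd d.1) := by
        intro a
        unfold gf
        rw [ENNReal.tsum_mul_left]
      refine (tsum_congr e3).trans ?_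
      rw [ENNReal.tsum_mul_right]
      show gf (Brd d.1) * gf (Brd d.1) = _
      rw [gf_Brd, CuLogAux.bt_eq, ← ENNReal.ofReal_mul (by unfold uu; exact ENNReal.toReal_nonneg), sq]
    have s2 : ∑' z, g z = gf P * ((∑' y : Σ d : Fin (D + 1), Brd d.1 × Brd d.1, (wE y.2.1 * wE y.2.2)) * (gf Q * gf S)) := by
      rw [ENNReal.tsum_prod']
      unfold gf
      rw [← ENNReal.tsum_mul_right]
      refine tsum_congr fun a => ?_
      show ∑' z : (Σ d : Fin (D + 1), Brd d.1 × Brd d.1) × Q × S, wE a * ((wE z.1.2.1 * wE z.1.2.2) * (wE z.2.1 * wE z.2.2)) = _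
      rw [ENNReal.tsum_mul_left]
      congr 1
      rw [ENNReal.tsum_prod', ← ENNReal.tsum_mul_right]
      refine tsum_congr fun y => ?_
      show ∑' z : Q × S, ((wE y.2.1 * wE y.2.2) * (wE z.1 * wE z.2)) = _
      rw [ENNReal.tsum_mul_left]
      congr 1
      rw [ENNReal.tsum_prod', ← ENNReal.tsum_mul_right]
      refine tsum_congr fun b => ?_
      show ∑' c : S, wE b * wE c = _
      rw [ENNReal.tsum_mul_left]
    rw [s2, s1]
    ring
  rw [← hsum]
  calc ∑' p : E, wE (hkw p.1.1) = ∑' p : E, g (ψ p) := tsum_congr hw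
    _ ≤ ∑' z, g z := ENNReal.tsum_comp_le_tsum_of_injective hψ g

theorem hook_mass {P Q S : Set (List Bool)} {T0 D : ℕ} (hP : ∀ t ∈ P, ∃ T, T0 ≤ T ∧ T ≤ T0 + D ∧ t ∈ Brd T)
    (hQ : Q ⊆ Arc) (hS : ∀ Z ∈ S, ∃ m, Z ∈ SSt m) (fP : gf P ≠ ∞) (fQ : gf Q ≠ ∞) (fS : gf S ≠ ∞) :
    gf P * (gf Q * gf S) ≤ ENNReal.ofReal (2 * ∑ d ∈ range (D + 1), uu d ^ 2) * gf (Hk P Q S) := by
  classical
  have hpos : 0 < ∑ d ∈ range (D + 1), uu d ^ 2 := by
    refine Finset.sum_pos' (fun d _ => sq_nonneg _) ⟨0, by simp, ?_⟩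
    have : uu 0 = 1 := by
      unfold uu
      rw [← gf_Brd, Brd_zero]
      unfold gf
      simp [wE]
    rw [this]
    norm_num
  rw [← tsum_hkw, ← range_hkw]
  refine second_moment hkw _ ?_ ENNReal.ofReal_ne_top ?_ ?_
  · rw [Ne, ENNReal.ofReal_eq_zero]
    push Not
    linarith
  · rw [tsum_hkw]
    exact ENNReal.mul_ne_top fP (ENNReal.mul_ne_top fQ fS)
  · have hle := pairs_le hP hQ hS
    set E := {p : (P × Q × S) × (P × Q × S) | hkw p.1 = hkw p.2 ∧
        ∃ T T', T ≤ T' ∧ (p.1.1 : List Bool) ∈ Brd T ∧ (p.2.1 : List Bool) ∈ Brd T'} with hE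
    have e1 : ∑' x : P × Q × S, ∑' y : P × Q × S, (if hkw x = hkw y then wE (hkw x) else 0) ≤
        ∑' x : P × Q × S, ∑' y : P × Q × S, ((if (x, y) ∈ E then wE (hkw x) else 0) + (if (y, x) ∈ E then wE (hkw y) else 0)) := by
      refine ENNReal.tsum_le_tsum fun x => ENNReal.tsum_le_tsum fun y => ?_
      by_cases h : hkw x = hkw y
      · rw [if_pos h]
        obtain ⟨T1, h11, h12, h13⟩ := hP x.1 x.1.2
        obtain ⟨T2, h21, h22, h23⟩ := hP y.1 y.1.2
        rcases Nat.le_total T1 T2 with hT | hT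
        · have : (x, y) ∈ E := ⟨h, T1, T2, hT, h13, h23⟩
          rw [if_pos this]
          exact le_self_add
        · have : (y, x) ∈ E := ⟨h.symm, T2, T1, hT, h23, h13⟩
          rw [if_pos this]
          exact (le_of_eq (congrArg wE h)).trans le_add_self
      · rw [if_neg h]
        exact zero_le
    refine e1.trans ?_
    have e2 : ∑' x : P × Q × S, ∑' y : P × Q × S, ((if (x, y) ∈ E then wE (hkw x) else 0) + (if (y, x) ∈ E then wE (hkw y) else 0)) =
        ∑' x : P × Q × S, ∑' y : P × Q × S, (if (x, y) ∈ E then wE (hkw x) else 0) +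
        ∑' x : P × Q × S, ∑' y : P × Q × S, (if (y, x) ∈ E then wE (hkw y) else 0) := by
      rw [← ENNReal.tsum_add]
      refine tsum_congr fun x => ?_
      rw [ENNReal.tsum_add]
    have e3 : ∑' x : P × Q × S, ∑' y : P × Q × S, (if (x, y) ∈ E then wE (hkw x) else 0) = ∑' p : E, wE (hkw (p : (P × Q × S) × (P × Q × S)).1) := by
      rw [← ENNReal.tsum_prod (f := fun x y : P × Q × S => if (x, y) ∈ E then wE (hkw x) else 0),
        tsum_subtype E (fun p => wE (hkw p.1))]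
      refine tsum_congr fun p => ?_
      rw [Set.indicator_apply]
    have e4 : ∑' x : P × Q × S, ∑' y : P × Q × S, (if (y, x) ∈ E then wE (hkw y) else 0) =
        ∑' x : P × Q × S, ∑' y : P × Q × S, (if (x, y) ∈ E then wE (hkw x) else 0) := ENNReal.tsum_comm
    rw [e2, e4, e3, ENNReal.ofReal_mul (by norm_num), tsum_hkw]
    refine (add_le_add hle hle).trans (le_of_eq ?_)
    rw [show ENNReal.ofReal 2 = 2 by norm_num]
    ring

end NTW

end HexObs
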