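import Pool.Agent.NTW.KernS

/-!
NTW, kernel bounds for the universal weight SS: the ends, from the upper bound UpG of the growth of the renewal function.
-/

set_option autoImplicit false

namespace HexObs

namespace NTW

open Finset TS SDN

open scoped ENNReal

variable {C δ : ℝ}

namespace KA

open SDN.TK KG

/-- the irreducible pieces of a block, by heights -/
lemma sum_IrrB (l : ℕ) (F : List Bool → ℝ≥0∞) [DecidablePred (Fld.Bl l)] :
    ∑' r : ℕ, (if Fld.Bl l r then Rec8.sw (Irr r) F else 0) ≤ Rec8.sw (IrrB l) F := by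
  classical
  have e1 : ∀ r : ℕ, (if Fld.Bl l r then Rec8.sw (Irr r) F else 0) =
      ∑' t : List Bool, (if Fld.Bl l r ∧ t ∈ Irr r then wE t * F t else 0) := by
    intro r
    by_cases hr : Fld.Bl l r
    · rw [if_pos hr, Rec8.sw_ind]
      refine tsum_congr fun t => ?_
      simp only [hr, true_and]
    · rw [if_neg hr]
      simp only [hr, false_and, if_false, tsum_zero]
  rw [tsum_congr e1, ENNReal.tsum_comm, Rec8.sw_ind]
  refine ENNReal.tsum_le_tsum fun t => ?_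
  by_cases ht : t ∈ IrrB l
  · rw [if_pos ht]
    obtain ⟨r, hr, htr⟩ := ht
    rw [tsum_eq_single r]
    · split_ifs
      · exact le_rfl
      · exact zero_le
    · intro r' hr'
      rw [if_neg]
      rintro ⟨-, h2⟩
      exact hr' (Brd_height h2.1 htr.1)
  · rw [if_neg ht, nonpos_iff_eq_zero, ENNReal.tsum_eq_zero]
    intro r
    rw [if_neg]
    rintro ⟨h1, h2⟩
    exact ht ⟨r, h1, h2⟩

/-- the averaged sum over the pieces, by blocks -/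
lemma minblocks (F : List Bool → ℝ≥0∞) (k : ℕ) :
    ∑' r : ℕ, min 1 ((r : ℝ≥0∞) / 2 ^ k) * Rec8.sw (Irr r) F ≤
      (∑' r : ℕ, (if 2 ^ k < r then Rec8.sw (Irr r) F else 0)) +
      ∑ l ∈ range (k + 1), ENNReal.ofReal ((2 : ℝ) ^ ((l : ℝ) + 1 - k)) * Rec8.sw (IrrB l) F := by
  classical
  have h1 : ∀ r : ℕ, min 1 ((r : ℝ≥0∞) / 2 ^ k) * Rec8.sw (Irr r) F ≤
      (if 2 ^ k < r then Rec8.sw (Irr r) F else 0) + ∑ l ∈ range (k + 1), ENNReal.ofReal ((2 : ℝ) ^ ((l : ℝ) + 1 - k)) *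
        (if Fld.Bl l r then Rec8.sw (Irr r) F else 0) := by
    intro r
    by_cases hr : 2 ^ k < r
    · rw [if_pos hr]
      exact (mul_le_of_le_one_left zero_le (min_le_left _ _)).trans le_self_add
    · rw [if_neg hr, zero_add]
      rcases Nat.eq_zero_or_pos r with h0 | h0
      · subst h0
        simp
      · obtain ⟨l, hl⟩ : ∃ l, l = Nat.log 2 r := ⟨_, rfl⟩
        have hlk : l ≤ k := by
          have h2 : 2 ^ l ≤ r := by
            rw [hl]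
            exact Nat.pow_log_le_self 2 (by omega)
          exact (Nat.pow_le_pow_iff_right (by norm_num)).1 (h2.trans (not_lt.1 hr))
        have hB : Fld.Bl l r := by
          rw [hl]
          exact ⟨Nat.lt_pow_succ_log_self (by norm_num) r, Or.inl (Nat.pow_log_le_self 2 (by omega))⟩
        refine le_trans ?_ (Finset.single_le_sum (f := fun l : ℕ => ENNReal.ofReal ((2 : ℝ) ^ ((l : ℝ) + 1 - k)) *
          (if Fld.Bl l r then Rec8.sw (Irr r) F else 0)) (fun _ _ => zero_le) (Finset.mem_range.2 (by omega : l < k + 1)))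
        show _ ≤ ENNReal.ofReal ((2 : ℝ) ^ ((l : ℝ) + 1 - k)) * (if Fld.Bl l r then Rec8.sw (Irr r) F else 0)
        rw [if_pos hB]
        refine mul_le_mul_left ((min_le_right _ _).trans ?_) _
        have h3 : (r : ℝ≥0∞) ≤ 2 ^ (l + 1) := by
          have := hB.1.le
          exact_mod_cast this
        have h4 : (2 : ℝ≥0∞) ^ (l + 1) / 2 ^ k = ENNReal.ofReal ((2 : ℝ) ^ ((l : ℝ) + 1 - k)) := by
          rw [Real.rpow_sub two_pos, Real.rpow_add two_pos, Real.rpow_natCast, Real.rpow_natCast, Real.rpow_one,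
            ENNReal.ofReal_div_of_pos (by positivity), ENNReal.ofReal_mul (by positivity), ENNReal.ofReal_pow (by norm_num),
            ENNReal.ofReal_pow (by norm_num), ENNReal.ofReal_ofNat, pow_succ]
        rw [← h4]
        exact ENNReal.div_le_div_right h3 _
  refine (ENNReal.tsum_le_tsum h1).trans ?_
  rw [ENNReal.tsum_add, Summable.tsum_finsetSum (fun _ _ => ENNReal.summable)]
  refine add_le_add le_rfl (Finset.sum_le_sum fun l _ => ?_)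
  rw [ENNReal.tsum_mul_left]
  exact mul_le_mul_right (sum_IrrB l F) _

/-- the mass of a block -/
lemma mass_block : ∃ K : ℝ, 1 ≤ K ∧ ∀ l : ℕ, Rec8.sw (IrrB l) (fun _ => 1) ≤ ENNReal.ofReal (K / Ub l) := by
  classical
  obtain ⟨K, hK, h⟩ := avg_mass
  refine ⟨K, hK, fun l => le_trans ?_ (h l)⟩
  have e1 : ∀ r : ℕ, min 1 ((r : ℝ≥0∞) / 2 ^ l) * kap' r =
      ∑' t : List Bool, min 1 ((r : ℝ≥0∞) / 2 ^ l) * (if t ∈ Irr r then wE t * 1 else 0) := by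
    intro r
    rw [ENNReal.tsum_mul_left, ← Rec8.sw_ind, Rec8.sw_one]
    rfl
  rw [tsum_congr e1, ENNReal.tsum_comm, Rec8.sw_ind]
  refine ENNReal.tsum_le_tsum fun t => ?_
  by_cases ht : t ∈ IrrB l
  · rw [if_pos ht]
    obtain ⟨r, hr, htr⟩ := ht
    refine le_trans ?_ (ENNReal.le_tsum r)
    rw [if_pos htr]
    have h1 : (1 : ℝ≥0∞) ≤ min 1 ((r : ℝ≥0∞) / 2 ^ l) := by
      refine le_min le_rfl ?_
      rw [ENNReal.le_div_iff_mul_le (Or.inl (by positivity)) (Or.inl (by finiteness)), one_mul]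
      have h2 : 2 ^ l ≤ r := by
        rcases hr.2 with h3 | h3
        · exact h3
        · rw [h3, pow_zero]
          exact Irr_pos htr
      exact_mod_cast h2
    calc wE t * 1 = 1 * (wE t * 1) := (one_mul _).symm
      _ ≤ _ := mul_le_mul_left h1 _
  · rw [if_neg ht]
    exact zero_le

/-- the sum over the blocks b of the gain -/
lemma bsum (hδ : 0 < δ) : ∃ K : ℝ, 1 ≤ K ∧ ∀ a l : ℕ, ∑ b ∈ range (a + 1), (2 : ℝ) ^ (-(δ * ((min a l - b : ℕ) : ℝ))) ≤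
    K * (2 : ℝ) ^ (1 / 8 * ((a - l : ℕ) : ℝ)) := by
  obtain ⟨K, hK, h1⟩ := geo_low hδ
  refine ⟨K + 16, by linarith, fun a l => ?_⟩
  have hsplit : range (a + 1) = range (min a l + 1) ∪ Icc (min a l + 1) a := by
    ext b
    simp only [Finset.mem_union, Finset.mem_range, Finset.mem_Icc]
    omega
  have hdisj : Disjoint (range (min a l + 1)) (Icc (min a l + 1) a) := by
    rw [Finset.disjoint_left]
    intro b hb hb'
    rw [Finset.mem_range] at hb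
    rw [Finset.mem_Icc] at hb'
    omega
  have e1 : ∑ b ∈ Icc (min a l + 1) a, (2 : ℝ) ^ (-(δ * ((min a l - b : ℕ) : ℝ))) = ((a - l : ℕ) : ℝ) := by
    calc ∑ b ∈ Icc (min a l + 1) a, (2 : ℝ) ^ (-(δ * ((min a l - b : ℕ) : ℝ))) = ∑ b ∈ Icc (min a l + 1) a, (1 : ℝ) := by
          refine Finset.sum_congr rfl fun b hb => ?_
          rw [Finset.mem_Icc] at hb
          rw [show min a l - b = 0 by omega]
          simp
      _ = _ := by
          rw [Finset.sum_const, Nat.card_Icc, nsmul_eq_mul, mul_one]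
          congr 1
          omega
  have e2 : ((a - l : ℕ) : ℝ) ≤ 16 * (2 : ℝ) ^ (1 / 8 * ((a - l : ℕ) : ℝ)) := by
    obtain ⟨n, hn⟩ : ∃ n, n = a - l := ⟨_, rfl⟩
    rw [← hn]
    have h2 := Real.add_one_le_exp (Real.log 2 * (1 / 8 * (n : ℝ)))
    rw [Real.exp_mul, Real.exp_log two_pos] at h2
    have h3 := Real.log_two_gt_d9
    have h4 : (0 : ℝ) ≤ n := Nat.cast_nonneg _
    nlinarith
  have e3 : 1 ≤ (2 : ℝ) ^ (1 / 8 * ((a - l : ℕ) : ℝ)) := p_one (by positivity)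
  rw [hsplit, Finset.sum_union hdisj, e1]
  have e4 := h1 (min a l)
  nlinarith

/-- one term of the sum -/
noncomputable def G (j l a : ℕ) : ℝ := (2 : ℝ) ^ (kap0 / 4 * ((j : ℝ) + 1 - a)) * (Ub a / Ub l) *
  (2 : ℝ) ^ (kap0 / 8 * ((l - a : ℕ) : ℝ)) * (2 : ℝ) ^ (1 / 8 * ((a - l : ℕ) : ℝ))

lemma G_nonneg (j l a : ℕ) : 0 ≤ G j l a := by
  unfold G
  have := Ub_pos a
  have := Ub_pos l
  positivity

/-- the weight of all scales of the window j, summed over a block -/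
lemma block (h : Inp C δ) : ∃ K : ℝ, 1 ≤ K ∧ ∀ j l : ℕ,
    Rec8.sw (IrrB l) (fun P => ∑ b ∈ range (j + 1), Sw (2 ^ (j + 4)) j b P) ≤
      ENNReal.ofReal (K * ∑ a ∈ range (j + 2), G j l a) := by
  have hk := kap0_pos
  obtain ⟨K1, hK1, h1⟩ := mass_block
  obtain ⟨K2, hK2, h2⟩ := bsum h.pos
  have hC := h.one_le
  refine ⟨K1 + C * K2, by nlinarith, fun j l => ?_⟩
  have hUl := Ub_pos l
  rw [Rec8.sw_sum]
  have e1 : ∀ b ∈ range (j + 1), Rec8.sw (IrrB l) (fun P => Sw (2 ^ (j + 4)) j b P) ≤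
      ENNReal.ofReal (K1 * G j l b + ∑ a ∈ Icc b (j + 1), (2 : ℝ) ^ (kap0 / 4 * ((j : ℝ) + 1 - a)) *
        (C * TT (kap0 / 8) δ l a b)) := by
    intro b hb
    rw [Finset.mem_range] at hb
    have hUb := Ub_pos b
    have e2 : Rec8.sw (IrrB l) (fun P => Sw (2 ^ (j + 4)) j b P) =
        ENNReal.ofReal ((2 : ℝ) ^ (kap0 / 4 * ((j : ℝ) - b)) * Ub b) * Rec8.sw (IrrB l) (fun _ => 1) +
        ∑ a ∈ Icc b (j + 1), ENNReal.ofReal ((2 : ℝ) ^ (kap0 / 4 * ((j : ℝ) + 1 - a))) *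
          Rec8.sw (IrrB l) (fun P => EE (2 ^ (j + 4)) b a (rev P)) := by
      simp only [← Rec8.sw_mul_left]
      rw [← Rec8.sw_sum, ← Rec8.sw_add]
      refine Rec8.sw_congr fun P _ => ?_
      unfold Sw
      rw [mul_one]
    rw [e2, ENNReal.ofReal_add (mul_nonneg (by linarith) (G_nonneg _ _ _))
      (Finset.sum_nonneg fun a _ => mul_nonneg (p_pos _).le (mul_nonneg (by linarith) (TT_nonneg _ _ _ _ _)))]
    refine add_le_add ?_ ?_
    · refine (mul_le_mul' le_rfl (h1 l)).trans ?_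
      rw [← ENNReal.ofReal_mul (by positivity)]
      apply ENNReal.ofReal_le_ofReal
      unfold G
      have q1 : (2 : ℝ) ^ (kap0 / 4 * ((j : ℝ) - b)) ≤ (2 : ℝ) ^ (kap0 / 4 * ((j : ℝ) + 1 - b)) := by
        apply p_mono
        nlinarith
      have q2 : 1 ≤ (2 : ℝ) ^ (kap0 / 8 * ((l - b : ℕ) : ℝ)) := p_one (by positivity)
      have q3 : 1 ≤ (2 : ℝ) ^ (1 / 8 * ((b - l : ℕ) : ℝ)) := p_one (by positivity)
      have q4 := p_pos (kap0 / 4 * ((j : ℝ) + 1 - b))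
      calc (2 : ℝ) ^ (kap0 / 4 * ((j : ℝ) - b)) * Ub b * (K1 / Ub l)
          = K1 * ((2 : ℝ) ^ (kap0 / 4 * ((j : ℝ) - b)) * (Ub b / Ub l) * 1 * 1) := by ring
        _ ≤ K1 * ((2 : ℝ) ^ (kap0 / 4 * ((j : ℝ) + 1 - b)) * (Ub b / Ub l) *
            (2 : ℝ) ^ (kap0 / 8 * ((l - b : ℕ) : ℝ)) * (2 : ℝ) ^ (1 / 8 * ((b - l : ℕ) : ℝ))) := by gcongr
    · rw [ENNReal.ofReal_sum_of_nonneg (fun a _ => mul_nonneg (p_pos _).le (mul_nonneg (by linarith)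
        (TT_nonneg _ _ _ _ _)))]
      refine Finset.sum_le_sum fun a ha => ?_
      rw [Finset.mem_Icc] at ha
      rw [ENNReal.ofReal_mul (p_pos _).le]
      refine mul_le_mul' le_rfl ?_
      rw [rev_sum l (fun I => EE (2 ^ (j + 4)) b a I)]
      exact h.tef (2 ^ (j + 4)) a b l ha.1 (Nat.pow_le_pow_right (by norm_num) (by omega))
  refine (Finset.sum_le_sum e1).trans ?_
  rw [← ENNReal.ofReal_sum_of_nonneg (fun b _ => add_nonneg (mul_nonneg (by linarith) (G_nonneg _ _ _))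
    (Finset.sum_nonneg fun a _ => mul_nonneg (p_pos _).le (mul_nonneg (by linarith) (TT_nonneg _ _ _ _ _))))]
  apply ENNReal.ofReal_le_ofReal
  rw [Finset.sum_add_distrib, add_mul]
  refine add_le_add ?_ ?_
  · rw [← Finset.mul_sum]
    refine mul_le_mul_of_nonneg_left ?_ (by linarith)
    exact Finset.sum_le_sum_of_subset_of_nonneg (Finset.range_mono (by omega)) fun a _ _ => G_nonneg _ _ _
  · rw [Finset.sum_comm' (s' := fun a => range (min a j + 1)) (t' := range (j + 2)) (by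
      intro x y
      simp only [Finset.mem_range, Finset.mem_Icc]
      omega)]
    rw [Finset.mul_sum]
    refine Finset.sum_le_sum fun a ha => ?_
    have hUa := Ub_pos a
    have q1 := p_pos (kap0 / 4 * ((j : ℝ) + 1 - a))
    have q2 := p_pos (kap0 / 8 * ((l - a : ℕ) : ℝ))
    have e5 : ∑ b ∈ range (min a j + 1), (2 : ℝ) ^ (-(δ * ((min a l - b : ℕ) : ℝ))) ≤
        K2 * (2 : ℝ) ^ (1 / 8 * ((a - l : ℕ) : ℝ)) := by
      refine le_trans ?_ (h2 a l)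
      exact Finset.sum_le_sum_of_subset_of_nonneg (Finset.range_mono (by omega)) fun b _ _ => (p_pos _).le
    calc ∑ b ∈ range (min a j + 1), (2 : ℝ) ^ (kap0 / 4 * ((j : ℝ) + 1 - a)) * (C * TT (kap0 / 8) δ l a b)
        = (2 : ℝ) ^ (kap0 / 4 * ((j : ℝ) + 1 - a)) * (C * (Ub a / Ub l * (2 : ℝ) ^ (kap0 / 8 * ((l - a : ℕ) : ℝ)))) *
          ∑ b ∈ range (min a j + 1), (2 : ℝ) ^ (-(δ * ((min a l - b : ℕ) : ℝ))) := by
          rw [Finset.mul_sum]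
          refine Finset.sum_congr rfl fun b _ => ?_
          unfold TT
          ring
      _ ≤ (2 : ℝ) ^ (kap0 / 4 * ((j : ℝ) + 1 - a)) * (C * (Ub a / Ub l * (2 : ℝ) ^ (kap0 / 8 * ((l - a : ℕ) : ℝ)))) *
          (K2 * (2 : ℝ) ^ (1 / 8 * ((a - l : ℕ) : ℝ))) := by gcongr
      _ = _ := by
          unfold G
          ring

/-- one term, three gains -/
lemma term (hU : UpG) : ∃ K : ℝ, 1 ≤ K ∧ ∀ k j l a : ℕ, l ≤ k → j ≤ k → a ≤ j + 1 →
    (2 : ℝ) ^ ((l : ℝ) + 1 - k) * G j l a ≤ K * ((2 : ℝ) ^ (-(1 / 8 * ((k - l : ℕ) : ℝ))) *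
      (2 : ℝ) ^ (-(kap0 / 2 * ((k - j : ℕ) : ℝ))) * (2 : ℝ) ^ (-(kap0 / 2 * ((j + 1 - a : ℕ) : ℝ)))) := by
  have hk := kap0_pos
  have hk6 := kap0_lt
  obtain ⟨K, hK, h1⟩ := hU
  refine ⟨8 * K, by linarith, fun k j l a hl hj ha => ?_⟩
  have hUl := Ub_pos l
  have hUa := Ub_pos a
  rw [Nat.cast_sub hl, Nat.cast_sub hj, Nat.cast_sub ha, Nat.cast_add, Nat.cast_one]
  have hl' : (l : ℝ) ≤ k := by exact_mod_cast hl
  have hj' : (j : ℝ) ≤ k := by exact_mod_cast hj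
  have ha' : (a : ℝ) ≤ j + 1 := by exact_mod_cast ha
  unfold G
  rcases Nat.lt_or_ge a l with hal | hal
  · have hal' : (a : ℝ) ≤ l := by exact_mod_cast hal.le
    have e1 := ratio0 hal.le
    rw [show a - l = 0 by omega, Nat.cast_sub hal.le]
    have e2 : (2 : ℝ) ^ ((l : ℝ) + 1 - k) * ((2 : ℝ) ^ (kap0 / 4 * ((j : ℝ) + 1 - a)) *
        (2 * (2 : ℝ) ^ (-(kap0 * ((l : ℝ) - a)))) * (2 : ℝ) ^ (kap0 / 8 * ((l : ℝ) - a)) *
        (2 : ℝ) ^ (1 / 8 * ((0 : ℕ) : ℝ))) = 2 * (2 : ℝ) ^ (((l : ℝ) + 1 - k) + kap0 / 4 * ((j : ℝ) + 1 - a) +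
          -(kap0 * ((l : ℝ) - a)) + kap0 / 8 * ((l : ℝ) - a)) := by
      rw [Real.rpow_add two_pos, Real.rpow_add two_pos, Real.rpow_add two_pos]
      simp
      ring
    have e3 : (2 : ℝ) ^ (-(1 / 8 * ((k : ℝ) - l))) * (2 : ℝ) ^ (-(kap0 / 2 * ((k : ℝ) - j))) *
        (2 : ℝ) ^ (-(kap0 / 2 * ((j : ℝ) + 1 - a))) = (2 : ℝ) ^ (-(1 / 8 * ((k : ℝ) - l)) + -(kap0 / 2 * ((k : ℝ) - j)) +
        -(kap0 / 2 * ((j : ℝ) + 1 - a))) := by
      rw [Real.rpow_add two_pos, Real.rpow_add two_pos]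
    have e4 : (2 : ℝ) ^ (((l : ℝ) + 1 - k) + kap0 / 4 * ((j : ℝ) + 1 - a) +
          -(kap0 * ((l : ℝ) - a)) + kap0 / 8 * ((l : ℝ) - a)) ≤
        4 * (2 : ℝ) ^ (-(1 / 8 * ((k : ℝ) - l)) + -(kap0 / 2 * ((k : ℝ) - j)) +
        -(kap0 / 2 * ((j : ℝ) + 1 - a))) := by
      have e5 : (4 : ℝ) = (2 : ℝ) ^ (2 : ℝ) := by norm_num
      rw [e5, ← Real.rpow_add two_pos]
      apply p_mono
      nlinarith [mul_nonneg hk.le (sub_nonneg.2 hl'), mul_nonneg hk.le (sub_nonneg.2 hj'),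
        mul_nonneg hk.le (sub_nonneg.2 ha'), mul_nonneg (sub_nonneg.2 hk6.le) (sub_nonneg.2 hl')]
    calc (2 : ℝ) ^ ((l : ℝ) + 1 - k) * ((2 : ℝ) ^ (kap0 / 4 * ((j : ℝ) + 1 - a)) *
        (Ub a / Ub l) * (2 : ℝ) ^ (kap0 / 8 * ((l : ℝ) - a)) * (2 : ℝ) ^ (1 / 8 * ((0 : ℕ) : ℝ)))
        ≤ (2 : ℝ) ^ ((l : ℝ) + 1 - k) * ((2 : ℝ) ^ (kap0 / 4 * ((j : ℝ) + 1 - a)) *
        (2 * (2 : ℝ) ^ (-(kap0 * ((l : ℝ) - a)))) * (2 : ℝ) ^ (kap0 / 8 * ((l : ℝ) - a)) *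
        (2 : ℝ) ^ (1 / 8 * ((0 : ℕ) : ℝ))) := by gcongr
      _ ≤ 8 * K * ((2 : ℝ) ^ (-(1 / 8 * ((k : ℝ) - l))) * (2 : ℝ) ^ (-(kap0 / 2 * ((k : ℝ) - j))) *
        (2 : ℝ) ^ (-(kap0 / 2 * ((j : ℝ) + 1 - a)))) := by
          rw [e2, e3]
          have := p_pos (-(1 / 8 * ((k : ℝ) - l)) + -(kap0 / 2 * ((k : ℝ) - j)) +
            -(kap0 / 2 * ((j : ℝ) + 1 - a)))
          nlinarith
  · have hal' : (l : ℝ) ≤ a := by exact_mod_cast hal
    have e1 : Ub a / Ub l ≤ K * (2 : ℝ) ^ (3 / 4 * ((a : ℝ) - l)) := by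
      rw [div_le_iff₀ hUl]
      exact h1 l a hal
    rw [show l - a = 0 by omega, Nat.cast_sub hal]
    have e2 : (2 : ℝ) ^ ((l : ℝ) + 1 - k) * ((2 : ℝ) ^ (kap0 / 4 * ((j : ℝ) + 1 - a)) *
        (K * (2 : ℝ) ^ (3 / 4 * ((a : ℝ) - l))) * (2 : ℝ) ^ (kap0 / 8 * ((0 : ℕ) : ℝ)) *
        (2 : ℝ) ^ (1 / 8 * ((a : ℝ) - l))) = K * (2 : ℝ) ^ (((l : ℝ) + 1 - k) + kap0 / 4 * ((j : ℝ) + 1 - a) +
          3 / 4 * ((a : ℝ) - l) + 1 / 8 * ((a : ℝ) - l)) := by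
      rw [Real.rpow_add two_pos, Real.rpow_add two_pos, Real.rpow_add two_pos]
      simp
      ring
    have e3 : (2 : ℝ) ^ (-(1 / 8 * ((k : ℝ) - l))) * (2 : ℝ) ^ (-(kap0 / 2 * ((k : ℝ) - j))) *
        (2 : ℝ) ^ (-(kap0 / 2 * ((j : ℝ) + 1 - a))) = (2 : ℝ) ^ (-(1 / 8 * ((k : ℝ) - l)) + -(kap0 / 2 * ((k : ℝ) - j)) +
        -(kap0 / 2 * ((j : ℝ) + 1 - a))) := by
      rw [Real.rpow_add two_pos, Real.rpow_add two_pos]
    have e4 : (2 : ℝ) ^ (((l : ℝ) + 1 - k) + kap0 / 4 * ((j : ℝ) + 1 - a) +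
          3 / 4 * ((a : ℝ) - l) + 1 / 8 * ((a : ℝ) - l)) ≤
        4 * (2 : ℝ) ^ (-(1 / 8 * ((k : ℝ) - l)) + -(kap0 / 2 * ((k : ℝ) - j)) +
        -(kap0 / 2 * ((j : ℝ) + 1 - a))) := by
      have e5 : (4 : ℝ) = (2 : ℝ) ^ (2 : ℝ) := by norm_num
      rw [e5, ← Real.rpow_add two_pos]
      apply p_mono
      nlinarith [mul_nonneg hk.le (sub_nonneg.2 hl'), mul_nonneg hk.le (sub_nonneg.2 hj'),
        mul_nonneg hk.le (sub_nonneg.2 ha'), mul_nonneg (sub_nonneg.2 hk6.le) (sub_nonneg.2 hj'),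
        mul_nonneg (sub_nonneg.2 hk6.le) (sub_nonneg.2 ha')]
    calc (2 : ℝ) ^ ((l : ℝ) + 1 - k) * ((2 : ℝ) ^ (kap0 / 4 * ((j : ℝ) + 1 - a)) *
        (Ub a / Ub l) * (2 : ℝ) ^ (kap0 / 8 * ((0 : ℕ) : ℝ)) * (2 : ℝ) ^ (1 / 8 * ((a : ℝ) - l)))
        ≤ (2 : ℝ) ^ ((l : ℝ) + 1 - k) * ((2 : ℝ) ^ (kap0 / 4 * ((j : ℝ) + 1 - a)) *
        (K * (2 : ℝ) ^ (3 / 4 * ((a : ℝ) - l))) * (2 : ℝ) ^ (kap0 / 8 * ((0 : ℕ) : ℝ)) *
        (2 : ℝ) ^ (1 / 8 * ((a : ℝ) - l))) := by gcongr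
      _ ≤ 8 * K * ((2 : ℝ) ^ (-(1 / 8 * ((k : ℝ) - l))) * (2 : ℝ) ^ (-(kap0 / 2 * ((k : ℝ) - j))) *
        (2 : ℝ) ^ (-(kap0 / 2 * ((j : ℝ) + 1 - a)))) := by
          rw [e2, e3]
          have := p_pos (-(1 / 8 * ((k : ℝ) - l)) + -(kap0 / 2 * ((k : ℝ) - j)) +
            -(kap0 / 2 * ((j : ℝ) + 1 - a)))
          nlinarith

end KA

open KA KG in
open SDN.TK in
/-- the ends, universal weight -/
theorem ssA_of (hU : UpG) (h : Inp C δ) : SsA := by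
  have hk := kap0_pos
  obtain ⟨K1, hK1, h1⟩ := KS.farS h
  obtain ⟨K2, hK2, h2⟩ := block h
  obtain ⟨K3, hK3, h3⟩ := term hU
  obtain ⟨K4, hK4, h4⟩ := geo_low (c := kap0 / 2) (by linarith)
  obtain ⟨K5, hK5, h5⟩ := geo_low (c := 1 / 8) (by norm_num)
  refine ⟨K1 + K2 * K3 * (K4 * K4 * K5), by
    have : 0 ≤ K2 * K3 * (K4 * K4 * K5) := by positivity
    linarith, fun k => ?_⟩
  refine (minblocks _ k).trans ?_
  rw [ENNReal.ofReal_add (by linarith) (by positivity)]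
  refine add_le_add ?_ ?_
  · have e1 := h1 k k le_rfl
    simp only [one_mul] at e1
    refine e1.trans (ENNReal.ofReal_le_ofReal ?_)
    exact mul_le_of_le_one_right (by linarith) (KS.gnk_le_one le_rfl)
  · have e1 : ∀ l ∈ range (k + 1), ENNReal.ofReal ((2 : ℝ) ^ ((l : ℝ) + 1 - k)) * Rec8.sw (IrrB l) (fun P => SS k P) ≤
        ENNReal.ofReal (K2 * K3 * (K4 * K4) * (2 : ℝ) ^ (-(1 / 8 * ((k - l : ℕ) : ℝ)))) := by
      intro l hl
      rw [Finset.mem_range] at hl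
      unfold SS
      rw [Rec8.sw_sum]
      have e2 : ∑ j ∈ range (k + 1), Rec8.sw (IrrB l) (fun P => ∑ b ∈ range (j + 1), Sw (2 ^ (j + 4)) j b P) ≤
          ENNReal.ofReal (∑ j ∈ range (k + 1), K2 * ∑ a ∈ range (j + 2), G j l a) := by
        rw [ENNReal.ofReal_sum_of_nonneg (fun j _ => mul_nonneg (by linarith)
          (Finset.sum_nonneg fun a _ => G_nonneg _ _ _))]
        exact Finset.sum_le_sum fun j _ => h2 j l
      refine (mul_le_mul' le_rfl e2).trans ?_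
      rw [← ENNReal.ofReal_mul (p_pos _).le]
      apply ENNReal.ofReal_le_ofReal
      have e3 : ∀ j ∈ range (k + 1), (2 : ℝ) ^ ((l : ℝ) + 1 - k) * (K2 * ∑ a ∈ range (j + 2), G j l a) ≤
          K2 * K3 * K4 * (2 : ℝ) ^ (-(1 / 8 * ((k - l : ℕ) : ℝ))) * (2 : ℝ) ^ (-(kap0 / 2 * ((k - j : ℕ) : ℝ))) := by
        intro j hj
        rw [Finset.mem_range] at hj
        have q1 := p_pos (-(1 / 8 * ((k - l : ℕ) : ℝ)))
        have q2 := p_pos (-(kap0 / 2 * ((k - j : ℕ) : ℝ)))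
        calc (2 : ℝ) ^ ((l : ℝ) + 1 - k) * (K2 * ∑ a ∈ range (j + 2), G j l a)
            = K2 * ∑ a ∈ range (j + 2), (2 : ℝ) ^ ((l : ℝ) + 1 - k) * G j l a := by
              rw [← Finset.mul_sum]
              ring
          _ ≤ K2 * ∑ a ∈ range (j + 2), K3 * ((2 : ℝ) ^ (-(1 / 8 * ((k - l : ℕ) : ℝ))) *
              (2 : ℝ) ^ (-(kap0 / 2 * ((k - j : ℕ) : ℝ))) * (2 : ℝ) ^ (-(kap0 / 2 * ((j + 1 - a : ℕ) : ℝ)))) := by
              refine mul_le_mul_of_nonneg_left (Finset.sum_le_sum fun a ha => ?_) (by linarith)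
              rw [Finset.mem_range] at ha
              exact h3 k j l a (by omega) (by omega) (by omega)
          _ = K2 * K3 * (2 : ℝ) ^ (-(1 / 8 * ((k - l : ℕ) : ℝ))) * (2 : ℝ) ^ (-(kap0 / 2 * ((k - j : ℕ) : ℝ))) *
              ∑ a ∈ range (j + 2), (2 : ℝ) ^ (-(kap0 / 2 * ((j + 1 - a : ℕ) : ℝ))) := by
              rw [← Finset.mul_sum, ← Finset.mul_sum]
              ring
          _ ≤ K2 * K3 * (2 : ℝ) ^ (-(1 / 8 * ((k - l : ℕ) : ℝ))) * (2 : ℝ) ^ (-(kap0 / 2 * ((k - j : ℕ) : ℝ))) * K4 := by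
              have := h4 (j + 1)
              gcongr
          _ = _ := by ring
      calc (2 : ℝ) ^ ((l : ℝ) + 1 - k) * ∑ j ∈ range (k + 1), K2 * ∑ a ∈ range (j + 2), G j l a
          = ∑ j ∈ range (k + 1), (2 : ℝ) ^ ((l : ℝ) + 1 - k) * (K2 * ∑ a ∈ range (j + 2), G j l a) := by
            rw [Finset.mul_sum]
        _ ≤ ∑ j ∈ range (k + 1), K2 * K3 * K4 * (2 : ℝ) ^ (-(1 / 8 * ((k - l : ℕ) : ℝ))) *
            (2 : ℝ) ^ (-(kap0 / 2 * ((k - j : ℕ) : ℝ))) := Finset.sum_le_sum e3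
        _ = K2 * K3 * K4 * (2 : ℝ) ^ (-(1 / 8 * ((k - l : ℕ) : ℝ))) *
            ∑ j ∈ range (k + 1), (2 : ℝ) ^ (-(kap0 / 2 * ((k - j : ℕ) : ℝ))) := by rw [Finset.mul_sum]
        _ ≤ K2 * K3 * K4 * (2 : ℝ) ^ (-(1 / 8 * ((k - l : ℕ) : ℝ))) * K4 := by
            have := h4 k
            have q1 := p_pos (-(1 / 8 * ((k - l : ℕ) : ℝ)))
            gcongr
        _ = _ := by ring
    refine (Finset.sum_le_sum e1).trans ?_
    rw [← ENNReal.ofReal_sum_of_nonneg (fun l _ => mul_nonneg (by positivity) (p_pos _).le)]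
    apply ENNReal.ofReal_le_ofReal
    rw [← Finset.mul_sum]
    have := h5 k
    calc K2 * K3 * (K4 * K4) * ∑ l ∈ range (k + 1), (2 : ℝ) ^ (-(1 / 8 * ((k - l : ℕ) : ℝ))) ≤
        K2 * K3 * (K4 * K4) * K5 := by gcongr
      _ = _ := by ring

end NTW

end HexObs
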