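import Pool.Agent.NTW.DomD
import Pool.Agent.NTW.TwoS
import Pool.Agent.NTW.KernG

/-!
NTW: the giants used at both ends, with the gains of the windows.
-/

set_option autoImplicit false

namespace HexObs

namespace NTW

open Finset TS SDN SDN.T2 SDN.TK

open scoped ENNReal

open Rec8 (mb sw)

variable {C δ : ℝ}

/-- the universal weight of a piece P for the parts of the window j, scales up to k -/
noncomputable def SSJ (k j : ℕ) (P : List Bool) : ℝ≥0∞ :=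
  ∑ i ∈ range (k + 1), ∑ b ∈ range (min i j + 1), Sw (2 ^ (i + 4)) i b P

lemma SSJ_self (k : ℕ) (P : List Bool) : SSJ k k P = SS k P := by
  unfold SSJ SS
  refine Finset.sum_congr rfl fun i hi => ?_
  rw [Finset.mem_range] at hi
  rw [min_eq_left (by omega)]

lemma SSJ_mono {k j j' : ℕ} (h : j ≤ j') (P : List Bool) : SSJ k j P ≤ SSJ k j' P := by
  unfold SSJ
  exact Finset.sum_le_sum fun i _ => Finset.sum_le_sum_of_subset (Finset.range_mono (by omega))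

lemma SSJ_monok {k k' j : ℕ} (h : k ≤ k') (P : List Bool) : SSJ k j P ≤ SSJ k' j P := by
  unfold SSJ
  exact Finset.sum_le_sum_of_subset (Finset.range_mono (by omega))

/-- the giants used at both ends, with the gain of the window at the first end -/
def SsDJ : Prop := ∃ K c : ℝ, 1 ≤ K ∧ 0 < c ∧ ∀ k0 k1 e j0 j1 : ℕ, k0 ≤ e → k1 ≤ e → j0 ≤ e → j1 ≤ e →
  ∑' r : ℕ, (if 2 ^ e < r then Rec8.sw (Irr r) (fun P => SSJ k0 j0 (rev P) * SSJ k1 j1 P) else 0) ≤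
    ENNReal.ofReal (K * Ub e * ((2 : ℝ) ^ (-(c * ((e : ℝ) - j0))) * (2 : ℝ) ^ (-(c * ((e : ℝ) - j1)))))

namespace KDJ

/-- normalised weight of one block -/
noncomputable def Yb (δ : ℝ) (e i b : ℕ) : ℝ :=
  (2 : ℝ) ^ (kap0 / 4 * ((i : ℝ) - b)) * Ub b / Ub e + ∑ a ∈ Icc b (i + 1), TW.X1 δ i e b a

lemma Yb_nonneg (δ : ℝ) (e i b : ℕ) : 0 ≤ Yb δ e i b := by
  unfold Yb
  have h1 := Ub_pos b
  have h2 := Ub_pos e
  have h3 := p_pos (kap0 / 4 * ((i : ℝ) - b))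
  exact add_nonneg (by positivity) (Finset.sum_nonneg fun a _ => TW.X1_nonneg _ _ _ _ _)

/-- linear against exponential -/
lemma lin_exp {c : ℝ} (hc : 0 < c) : ∃ K : ℝ, 1 ≤ K ∧ ∀ n : ℕ, ((n : ℝ) + 2) ≤ K * (2 : ℝ) ^ (c * (n : ℝ)) := by
  have hl : 0 < Real.log 2 := Real.log_pos (by norm_num)
  refine ⟨2 + 1 / (c * Real.log 2), by
    have : 0 < 1 / (c * Real.log 2) := by positivity
    linarith, fun n => ?_⟩
  have h1 : c * n * Real.log 2 + 1 ≤ (2 : ℝ) ^ (c * (n : ℝ)) := by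
    have := Real.add_one_le_exp (Real.log 2 * (c * (n : ℝ)))
    rw [Real.rpow_def_of_pos (by norm_num)]
    linarith
  have hn : (0 : ℝ) ≤ n := Nat.cast_nonneg n
  have h2 : (1 : ℝ) ≤ (2 : ℝ) ^ (c * (n : ℝ)) := by
    have : 0 ≤ c * n * Real.log 2 := by positivity
    linarith
  have h3 : (n : ℝ) ≤ 1 / (c * Real.log 2) * (2 : ℝ) ^ (c * (n : ℝ)) := by
    rw [div_mul_eq_mul_div, one_mul, le_div_iff₀ (by positivity)]
    have : (n : ℝ) * (c * Real.log 2) = c * n * Real.log 2 := by ring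
    linarith
  linarith

lemma Yb_le (hδ : 0 < δ) : ∃ K c : ℝ, 1 ≤ K ∧ 0 < c ∧ ∀ e i b : ℕ, b ≤ i → i ≤ e →
    Yb δ e i b ≤ K * ((2 : ℝ) ^ (-(c * ((e : ℝ) - i))) * (2 : ℝ) ^ (-(c * ((e : ℝ) - b)))) := by
  have hk := kap0_pos
  obtain ⟨c2, hc2⟩ : ∃ c2, c2 = min (5 / 8 * kap0) (δ / 2) := ⟨_, rfl⟩
  have hc20 : 0 < c2 := by
    rw [hc2]
    exact lt_min (by linarith) (by linarith)
  have hc2a : c2 ≤ 5 / 8 * kap0 := by rw [hc2]; exact min_le_left _ _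
  have hc2b : c2 ≤ δ / 2 := by rw [hc2]; exact min_le_right _ _
  obtain ⟨K1, hK1, h1⟩ := lin_exp (c := c2 / 2) (by linarith)
  obtain ⟨c, hc⟩ : ∃ c, c = min (kap0 / 4) (c2 / 2) := ⟨_, rfl⟩
  have hc0 : 0 < c := by
    rw [hc]
    exact lt_min (by linarith) (by linarith)
  have hca : c ≤ kap0 / 4 := by rw [hc]; exact min_le_left _ _
  have hcb : c ≤ c2 / 2 := by rw [hc]; exact min_le_right _ _
  obtain ⟨q, hq⟩ : ∃ q : ℝ, q = (2 : ℝ) ^ (kap0 / 4) := ⟨_, rfl⟩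
  have hq1 : 1 ≤ q := by rw [hq]; exact p_one (by linarith)
  refine ⟨2 + 2 * q * K1, c, by nlinarith, hc0, fun e i b hbi hie => ?_⟩
  have hbi' : (b : ℝ) ≤ i := by exact_mod_cast hbi
  have hie' : (i : ℝ) ≤ e := by exact_mod_cast hie
  have hUb := Ub_pos b
  have hUe := Ub_pos e
  obtain ⟨g, hg⟩ : ∃ g : ℝ, g = (2 : ℝ) ^ (-(c * ((e : ℝ) - i))) * (2 : ℝ) ^ (-(c * ((e : ℝ) - b))) := ⟨_, rfl⟩
  have hg0 : 0 < g := by
    rw [hg]
    exact mul_pos (p_pos _) (p_pos _)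
  rw [← hg]
  -- first term
  have t1 : (2 : ℝ) ^ (kap0 / 4 * ((i : ℝ) - b)) * Ub b / Ub e ≤ 2 * g := by
    have r := KG.ratio0 (k := b) (e := e) (hbi.trans hie)
    calc (2 : ℝ) ^ (kap0 / 4 * ((i : ℝ) - b)) * Ub b / Ub e = (2 : ℝ) ^ (kap0 / 4 * ((i : ℝ) - b)) * (Ub b / Ub e) := by ring
      _ ≤ (2 : ℝ) ^ (kap0 / 4 * ((i : ℝ) - b)) * (2 * (2 : ℝ) ^ (-(kap0 * ((e : ℝ) - b)))) :=
        mul_le_mul_of_nonneg_left r (p_pos _).le
      _ = 2 * (2 : ℝ) ^ (kap0 / 4 * ((i : ℝ) - b) + -(kap0 * ((e : ℝ) - b))) := by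
        rw [Real.rpow_add two_pos]
        ring
      _ ≤ 2 * (2 : ℝ) ^ (-(c * ((e : ℝ) - i)) + -(c * ((e : ℝ) - b))) := by
        apply mul_le_mul_of_nonneg_left _ (by norm_num)
        apply p_mono
        have e1 : c * ((e : ℝ) - i) ≤ kap0 / 4 * ((e : ℝ) - i) := mul_le_mul_of_nonneg_right hca (by linarith)
        have e2 : c * ((e : ℝ) - b) ≤ kap0 / 4 * ((e : ℝ) - b) := mul_le_mul_of_nonneg_right hca (by linarith)
        nlinarith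
      _ = _ := by rw [hg, Real.rpow_add two_pos]
  -- the other terms
  have t2 : ∀ a ∈ Icc b (i + 1), TW.X1 δ i e b a ≤ 2 * q * ((2 : ℝ) ^ (-(kap0 / 4 * ((e : ℝ) - i))) *
      (2 : ℝ) ^ (-(c2 * ((e : ℝ) - b)))) := by
    intro a ha
    rw [Finset.mem_Icc] at ha
    have hba' : (b : ℝ) ≤ a := by exact_mod_cast ha.1
    have hai' : (a : ℝ) ≤ (i : ℝ) + 1 := by exact_mod_cast ha.2
    unfold TW.X1
    rcases Nat.lt_or_ge e a with hae | hae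
    · -- a = e + 1
      have h3 : a = e + 1 := by omega
      have h4 : i = e := by omega
      have e1 : (e - a : ℕ) = 0 := by omega
      have e2 : (min a e - b : ℕ) = e - b := by omega
      have e3 : ((e - b : ℕ) : ℝ) = (e : ℝ) - b := by
        rw [Nat.cast_sub (by omega)]
      rw [e1, e2, e3, h4, h3]
      push_cast
      have r : Ub (e + 1) / Ub e ≤ 2 := by
        rw [div_le_iff₀ hUe]
        exact Ub_succ e
      have r0 : 0 ≤ Ub (e + 1) / Ub e := div_nonneg (Ub_pos _).le hUe.le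
      have e4 : (2 : ℝ) ^ (kap0 / 4 * ((e : ℝ) + 1 - (e + 1))) = 1 := by
        rw [sub_self, mul_zero, Real.rpow_zero]
      have e5 : (2 : ℝ) ^ (kap0 / 8 * 0) = 1 := by
        rw [mul_zero, Real.rpow_zero]
      have e6 : (2 : ℝ) ^ (-(kap0 / 4 * ((e : ℝ) - e))) = 1 := by
        rw [sub_self, mul_zero, neg_zero, Real.rpow_zero]
      rw [e4, e5, e6, one_mul, mul_one, one_mul]
      have e7 : (2 : ℝ) ^ (-(δ / 2 * ((e : ℝ) - b))) ≤ (2 : ℝ) ^ (-(c2 * ((e : ℝ) - b))) := by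
        apply p_mono
        have : c2 * ((e : ℝ) - b) ≤ δ / 2 * ((e : ℝ) - b) := mul_le_mul_of_nonneg_right hc2b (by linarith)
        linarith
      have e8 := p_pos (-(c2 * ((e : ℝ) - b)))
      have e9 := p_pos (-(δ / 2 * ((e : ℝ) - b)))
      calc Ub (e + 1) / Ub e * (2 : ℝ) ^ (-(δ / 2 * ((e : ℝ) - b))) ≤ 2 * (2 : ℝ) ^ (-(c2 * ((e : ℝ) - b))) :=
            mul_le_mul r e7 e9.le (by norm_num)
        _ ≤ 2 * q * (2 : ℝ) ^ (-(c2 * ((e : ℝ) - b))) := by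
            apply mul_le_mul_of_nonneg_right _ e8.le
            linarith
    · have hae' : (a : ℝ) ≤ e := by exact_mod_cast hae
      have e2 : (min a e - b : ℕ) = a - b := by omega
      have e3 : ((a - b : ℕ) : ℝ) = (a : ℝ) - b := Nat.cast_sub ha.1
      have e4 : ((e - a : ℕ) : ℝ) = (e : ℝ) - a := Nat.cast_sub hae
      rw [e2, e3, e4]
      have r := KG.ratio0 (k := a) (e := e) hae
      have q1 := p_pos (kap0 / 4 * ((i : ℝ) + 1 - a))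
      have q2 := p_pos (kap0 / 8 * ((e : ℝ) - a))
      have q3 := p_pos (-(δ / 2 * ((a : ℝ) - b)))
      calc (2 : ℝ) ^ (kap0 / 4 * ((i : ℝ) + 1 - a)) * (Ub a / Ub e) * (2 : ℝ) ^ (kap0 / 8 * ((e : ℝ) - a)) *
            (2 : ℝ) ^ (-(δ / 2 * ((a : ℝ) - b)))
          ≤ (2 : ℝ) ^ (kap0 / 4 * ((i : ℝ) + 1 - a)) * (2 * (2 : ℝ) ^ (-(kap0 * ((e : ℝ) - a)))) *
            (2 : ℝ) ^ (kap0 / 8 * ((e : ℝ) - a)) * (2 : ℝ) ^ (-(δ / 2 * ((a : ℝ) - b))) := by gcongr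
        _ = 2 * (2 : ℝ) ^ (kap0 / 4 * ((i : ℝ) + 1 - a) + -(kap0 * ((e : ℝ) - a)) + kap0 / 8 * ((e : ℝ) - a) +
            -(δ / 2 * ((a : ℝ) - b))) := by
          rw [Real.rpow_add two_pos, Real.rpow_add two_pos, Real.rpow_add two_pos]
          ring
        _ ≤ 2 * (2 : ℝ) ^ (kap0 / 4 + -(kap0 / 4 * ((e : ℝ) - i)) + -(c2 * ((e : ℝ) - b))) := by
          apply mul_le_mul_of_nonneg_left _ (by norm_num)
          apply p_mono
          have e5 : c2 * ((e : ℝ) - a) ≤ 5 / 8 * kap0 * ((e : ℝ) - a) := mul_le_mul_of_nonneg_right hc2a (by linarith)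
          have e6 : c2 * ((a : ℝ) - b) ≤ δ / 2 * ((a : ℝ) - b) := mul_le_mul_of_nonneg_right hc2b (by linarith)
          nlinarith
        _ = _ := by
          rw [Real.rpow_add two_pos, Real.rpow_add two_pos, hq]
          ring
  have t3 : ∑ a ∈ Icc b (i + 1), TW.X1 δ i e b a ≤ 2 * q * K1 * g := by
    refine (Finset.sum_le_sum t2).trans ?_
    rw [Finset.sum_const, nsmul_eq_mul, Nat.card_Icc]
    have e1 : ((i + 1 + 1 - b : ℕ) : ℝ) ≤ ((e - b : ℕ) : ℝ) + 2 := by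
      have : i + 1 + 1 - b ≤ (e - b) + 2 := by omega
      exact_mod_cast this
    have e2 := h1 (e - b)
    have e3 : ((e - b : ℕ) : ℝ) = (e : ℝ) - b := Nat.cast_sub (hbi.trans hie)
    rw [e3] at e1 e2
    have q1 := p_pos (-(kap0 / 4 * ((e : ℝ) - i)))
    have q2 := p_pos (-(c2 * ((e : ℝ) - b)))
    calc ((i + 1 + 1 - b : ℕ) : ℝ) * (2 * q * ((2 : ℝ) ^ (-(kap0 / 4 * ((e : ℝ) - i))) * (2 : ℝ) ^ (-(c2 * ((e : ℝ) - b)))))
        ≤ (K1 * (2 : ℝ) ^ (c2 / 2 * ((e : ℝ) - b))) * (2 * q * ((2 : ℝ) ^ (-(kap0 / 4 * ((e : ℝ) - i))) *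
          (2 : ℝ) ^ (-(c2 * ((e : ℝ) - b))))) := by
          apply mul_le_mul_of_nonneg_right (e1.trans e2)
          positivity
      _ = 2 * q * K1 * (2 : ℝ) ^ (c2 / 2 * ((e : ℝ) - b) + -(kap0 / 4 * ((e : ℝ) - i)) + -(c2 * ((e : ℝ) - b))) := by
          rw [Real.rpow_add two_pos, Real.rpow_add two_pos]
          ring
      _ ≤ 2 * q * K1 * (2 : ℝ) ^ (-(c * ((e : ℝ) - i)) + -(c * ((e : ℝ) - b))) := by
          apply mul_le_mul_of_nonneg_left _ (by positivity)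
          apply p_mono
          have e4 : c * ((e : ℝ) - i) ≤ kap0 / 4 * ((e : ℝ) - i) := mul_le_mul_of_nonneg_right hca (by linarith)
          have e5 : c * ((e : ℝ) - b) ≤ c2 / 2 * ((e : ℝ) - b) := mul_le_mul_of_nonneg_right hcb (by linarith)
          linarith
      _ = _ := by rw [hg, Real.rpow_add two_pos]
  unfold Yb
  calc _ ≤ 2 * g + 2 * q * K1 * g := add_le_add t1 t3
    _ = _ := by ring

/-- the sum over the blocks of a window, all scales -/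
lemma Ysum (hδ : 0 < δ) : ∃ K c : ℝ, 1 ≤ K ∧ 0 < c ∧ ∀ e k j : ℕ, k ≤ e → j ≤ e →
    ∑ i ∈ range (k + 1), ∑ b ∈ range (min i j + 1), Yb δ e i b ≤ K * (2 : ℝ) ^ (-(c * ((e : ℝ) - j))) := by
  obtain ⟨K1, c, hK1, hc, h1⟩ := Yb_le hδ
  obtain ⟨K2, hK2, h2⟩ := geo_low hc
  refine ⟨K1 * K2 * K2, c, one_le_mul_of_one_le_of_one_le (one_le_mul_of_one_le_of_one_le hK1 hK2) hK2, hc,
    fun e k j hke hje => ?_⟩
  have hje' : (j : ℝ) ≤ e := by exact_mod_cast hje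
  have hke' : (k : ℝ) ≤ e := by exact_mod_cast hke
  have hb : ∀ i, ∑ b ∈ range (min i j + 1), (2 : ℝ) ^ (-(c * ((e : ℝ) - b))) ≤ K2 * (2 : ℝ) ^ (-(c * ((e : ℝ) - j))) := by
    intro i
    calc ∑ b ∈ range (min i j + 1), (2 : ℝ) ^ (-(c * ((e : ℝ) - b)))
        ≤ ∑ b ∈ range (j + 1), (2 : ℝ) ^ (-(c * ((e : ℝ) - b))) :=
          Finset.sum_le_sum_of_subset_of_nonneg (Finset.range_mono (by omega)) fun b _ _ => (p_pos _).le
      _ = ∑ b ∈ range (j + 1), (2 : ℝ) ^ (-(c * ((j - b : ℕ) : ℝ))) * (2 : ℝ) ^ (-(c * ((e : ℝ) - j))) := by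
          refine Finset.sum_congr rfl fun b hb => ?_
          rw [Finset.mem_range] at hb
          rw [← Real.rpow_add two_pos, Nat.cast_sub (by omega)]
          congr 1
          ring
      _ = (∑ b ∈ range (j + 1), (2 : ℝ) ^ (-(c * ((j - b : ℕ) : ℝ)))) * (2 : ℝ) ^ (-(c * ((e : ℝ) - j))) := by
          rw [Finset.sum_mul]
      _ ≤ _ := mul_le_mul_of_nonneg_right (h2 j) (p_pos _).le
  have hi : ∑ i ∈ range (k + 1), (2 : ℝ) ^ (-(c * ((e : ℝ) - i))) ≤ K2 := by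
    calc ∑ i ∈ range (k + 1), (2 : ℝ) ^ (-(c * ((e : ℝ) - i)))
        ≤ ∑ i ∈ range (k + 1), (2 : ℝ) ^ (-(c * ((k - i : ℕ) : ℝ))) := by
          refine Finset.sum_le_sum fun i hi => ?_
          rw [Finset.mem_range] at hi
          apply p_mono
          rw [Nat.cast_sub (by omega)]
          have : c * ((k : ℝ) - i) ≤ c * ((e : ℝ) - i) := mul_le_mul_of_nonneg_left (by linarith) hc.le
          linarith
      _ ≤ K2 := h2 k
  calc ∑ i ∈ range (k + 1), ∑ b ∈ range (min i j + 1), Yb δ e i b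
      ≤ ∑ i ∈ range (k + 1), (K1 * (2 : ℝ) ^ (-(c * ((e : ℝ) - i))) * (K2 * (2 : ℝ) ^ (-(c * ((e : ℝ) - j))))) := by
        refine Finset.sum_le_sum fun i hi => ?_
        rw [Finset.mem_range] at hi
        calc ∑ b ∈ range (min i j + 1), Yb δ e i b
            ≤ ∑ b ∈ range (min i j + 1), K1 * (2 : ℝ) ^ (-(c * ((e : ℝ) - i))) * (2 : ℝ) ^ (-(c * ((e : ℝ) - b))) := by
              refine Finset.sum_le_sum fun b hb => ?_
              rw [Finset.mem_range] at hb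
              rw [mul_assoc]
              exact h1 e i b (by omega) (by omega)
          _ = K1 * (2 : ℝ) ^ (-(c * ((e : ℝ) - i))) * ∑ b ∈ range (min i j + 1), (2 : ℝ) ^ (-(c * ((e : ℝ) - b))) := by
              rw [Finset.mul_sum]
          _ ≤ _ := by
              apply mul_le_mul_of_nonneg_left (hb i)
              have := p_pos (-(c * ((e : ℝ) - i)))
              positivity
    _ = K1 * (∑ i ∈ range (k + 1), (2 : ℝ) ^ (-(c * ((e : ℝ) - i)))) * (K2 * (2 : ℝ) ^ (-(c * ((e : ℝ) - j)))) := by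
        rw [Finset.mul_sum, Finset.sum_mul]
    _ ≤ K1 * K2 * (K2 * (2 : ℝ) ^ (-(c * ((e : ℝ) - j)))) := by
        have := p_pos (-(c * ((e : ℝ) - j)))
        gcongr
    _ = _ := by ring

/-! ### One pair of blocks -/

/-- sum over the giants -/
noncomputable def Gs (e : ℕ) (F : List Bool → ℝ≥0∞) : ℝ≥0∞ := ∑' r : ℕ, (if 2 ^ e < r then sw (Irr r) F else 0)

lemma Gs_mono {e : ℕ} {F G : List Bool → ℝ≥0∞} (h : ∀ P, F P ≤ G P) : Gs e F ≤ Gs e G := by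
  unfold Gs
  refine ENNReal.tsum_le_tsum fun r => ?_
  split_ifs
  · exact Rec8.sw_mono' fun P _ => h P
  · exact le_rfl

lemma Gs_add (e : ℕ) (F G : List Bool → ℝ≥0∞) : Gs e (fun P => F P + G P) = Gs e F + Gs e G := by
  unfold Gs
  rw [← ENNReal.tsum_add]
  refine tsum_congr fun r => ?_
  split_ifs
  · exact Rec8.sw_add _ _ _
  · rw [add_zero]

lemma Gs_mul (e : ℕ) (c : ℝ≥0∞) (F : List Bool → ℝ≥0∞) : Gs e (fun P => c * F P) = c * Gs e F := by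
  unfold Gs
  rw [← ENNReal.tsum_mul_left]
  refine tsum_congr fun r => ?_
  split_ifs
  · exact Rec8.sw_mul_left _ _ _
  · rw [mul_zero]

lemma Gs_sum {ι : Type} (e : ℕ) (s : Finset ι) (F : ι → List Bool → ℝ≥0∞) :
    Gs e (fun P => ∑ i ∈ s, F i P) = ∑ i ∈ s, Gs e (F i) := by
  unfold Gs
  rw [← Summable.tsum_finsetSum (fun _ _ => ENNReal.summable)]
  refine tsum_congr fun r => ?_
  split_ifs
  · exact Rec8.sw_sum _ _ _
  · rw [Finset.sum_const_zero]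

lemma Gs_one : ∃ K : ℝ, 1 ≤ K ∧ ∀ e : ℕ, Gs e (fun _ => 1) ≤ ENNReal.ofReal (K / Ub e) := by
  obtain ⟨K2, hK2, h2⟩ := giants
  refine ⟨K2, hK2, fun e => ?_⟩
  have h5 := h2 (e + 1)
  rw [Nat.add_sub_cancel] at h5
  have e2 : Gs e (fun _ => 1) = ∑' r : ℕ, (if 2 ^ e < r then kap' r else 0) := by
    unfold Gs
    refine tsum_congr fun r => ?_
    split_ifs
    · exact Rec8.sw_one _
    · rfl
  rw [e2]
  refine h5.trans (ENNReal.ofReal_le_ofReal ?_)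
  have hUe := Ub_pos e
  have h6 : Ub e ≤ Ub (e + 1) := Ub_mono (Nat.le_succ e)
  gcongr

/-- the giants with a pair of blocks -/
lemma pair (h : Inp C δ) : ∃ K : ℝ, 1 ≤ K ∧ ∀ e i0 b0 i1 b1 : ℕ, b0 ≤ i0 → b1 ≤ i1 →
    Gs e (fun P => Sw (2 ^ (i0 + 4)) i0 b0 (rev P) * Sw (2 ^ (i1 + 4)) i1 b1 P) ≤
      ENNReal.ofReal (K * Ub e * (Yb δ e i0 b0 * Yb δ e i1 b1)) := by
  have hk := kap0_pos
  have hδ := h.pos
  obtain ⟨K1, hK1, h1⟩ := Gs_one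
  obtain ⟨K2, hK2, h2⟩ := giant1 h
  obtain ⟨K3, hK3, h3⟩ := giant2 h
  obtain ⟨K, hK⟩ : ∃ K, K = max K1 (max K2 K3) := ⟨_, rfl⟩
  have hKK1 : K1 ≤ K := by rw [hK]; exact le_max_left _ _
  have hKK2 : K2 ≤ K := by rw [hK]; exact (le_max_left _ _).trans (le_max_right _ _)
  have hKK3 : K3 ≤ K := by rw [hK]; exact (le_max_right _ _).trans (le_max_right _ _)
  have hK0 : 1 ≤ K := hK1.trans hKK1
  refine ⟨K, hK0, fun e i0 b0 i1 b1 hb0 hb1 => ?_⟩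
  have hUe := Ub_pos e
  -- the numbers
  obtain ⟨α0, hα0⟩ : ∃ α : ℝ, α = (2 : ℝ) ^ (kap0 / 4 * ((i0 : ℝ) - b0)) * Ub b0 := ⟨_, rfl⟩
  obtain ⟨α1, hα1⟩ : ∃ α : ℝ, α = (2 : ℝ) ^ (kap0 / 4 * ((i1 : ℝ) - b1)) * Ub b1 := ⟨_, rfl⟩
  have hα00 : 0 ≤ α0 := by
    rw [hα0]
    exact mul_nonneg (p_pos _).le (Ub_pos _).le
  have hα10 : 0 ≤ α1 := by
    rw [hα1]
    exact mul_nonneg (p_pos _).le (Ub_pos _).le
  have hbeta : ∀ (i b a : ℕ), (2 : ℝ) ^ (kap0 / 4 * ((i : ℝ) + 1 - a)) * TT (kap0 / 8) δ e a b ≤ TW.X1 δ i e b a := by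
    intro i b a
    unfold TT TW.X1
    have hUa := Ub_pos a
    have e3 : (2 : ℝ) ^ (-(δ * ((min a e - b : ℕ) : ℝ))) ≤ (2 : ℝ) ^ (-(δ / 2 * ((min a e - b : ℕ) : ℝ))) := by
      apply p_mono
      have : (0 : ℝ) ≤ ((min a e - b : ℕ) : ℝ) := Nat.cast_nonneg _
      nlinarith
    have q1 := p_pos (kap0 / 4 * ((i : ℝ) + 1 - a))
    have q2 := p_pos (kap0 / 8 * ((e - a : ℕ) : ℝ))
    calc (2 : ℝ) ^ (kap0 / 4 * ((i : ℝ) + 1 - a)) * (Ub a / Ub e *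
          (2 : ℝ) ^ (kap0 / 8 * ((e - a : ℕ) : ℝ)) * (2 : ℝ) ^ (-(δ * ((min a e - b : ℕ) : ℝ)))) ≤
        (2 : ℝ) ^ (kap0 / 4 * ((i : ℝ) + 1 - a)) * (Ub a / Ub e *
          (2 : ℝ) ^ (kap0 / 8 * ((e - a : ℕ) : ℝ)) * (2 : ℝ) ^ (-(δ / 2 * ((min a e - b : ℕ) : ℝ)))) := by
          gcongr
      _ = _ := by ring
  -- expansion
  have hD : ∀ i a : ℕ, a ≤ i + 1 → 2 ^ (a + 3) ≤ 2 ^ (i + 4) := fun i a ha =>
    Nat.pow_le_pow_right (by norm_num) (by omega)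
  have hexp : ∀ P : List Bool, Sw (2 ^ (i0 + 4)) i0 b0 (rev P) * Sw (2 ^ (i1 + 4)) i1 b1 P =
      ENNReal.ofReal α0 * ENNReal.ofReal α1 * 1 +
      (∑ a ∈ Icc b1 (i1 + 1), ENNReal.ofReal α0 * ENNReal.ofReal ((2 : ℝ) ^ (kap0 / 4 * ((i1 : ℝ) + 1 - a))) *
        EE (2 ^ (i1 + 4)) b1 a (rev P) +
      (∑ a ∈ Icc b0 (i0 + 1), ENNReal.ofReal α1 * ENNReal.ofReal ((2 : ℝ) ^ (kap0 / 4 * ((i0 : ℝ) + 1 - a))) *
        EE (2 ^ (i0 + 4)) b0 a P +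
      ∑ a ∈ Icc b0 (i0 + 1), ∑ a' ∈ Icc b1 (i1 + 1), (ENNReal.ofReal ((2 : ℝ) ^ (kap0 / 4 * ((i0 : ℝ) + 1 - a))) *
        ENNReal.ofReal ((2 : ℝ) ^ (kap0 / 4 * ((i1 : ℝ) + 1 - a')))) * (EE (2 ^ (i0 + 4)) b0 a P *
          EE (2 ^ (i1 + 4)) b1 a' (rev P)))) := by
    intro P
    unfold Sw
    rw [rev_rev, ← hα0, ← hα1, add_mul, mul_add, mul_add, Finset.sum_mul_sum, Finset.mul_sum, Finset.sum_mul]
    have e1 : ∀ a a' : ℕ, ENNReal.ofReal ((2 : ℝ) ^ (kap0 / 4 * ((i0 : ℝ) + 1 - a))) * EE (2 ^ (i0 + 4)) b0 a P *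
        (ENNReal.ofReal ((2 : ℝ) ^ (kap0 / 4 * ((i1 : ℝ) + 1 - a'))) * EE (2 ^ (i1 + 4)) b1 a' (rev P)) =
        (ENNReal.ofReal ((2 : ℝ) ^ (kap0 / 4 * ((i0 : ℝ) + 1 - a))) *
        ENNReal.ofReal ((2 : ℝ) ^ (kap0 / 4 * ((i1 : ℝ) + 1 - a')))) * (EE (2 ^ (i0 + 4)) b0 a P *
          EE (2 ^ (i1 + 4)) b1 a' (rev P)) := by
      intro a a'
      ring
    simp only [e1]
    have e2 : ∀ a : ℕ, ENNReal.ofReal ((2 : ℝ) ^ (kap0 / 4 * ((i0 : ℝ) + 1 - a))) * EE (2 ^ (i0 + 4)) b0 a P *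
        ENNReal.ofReal α1 = ENNReal.ofReal α1 * ENNReal.ofReal ((2 : ℝ) ^ (kap0 / 4 * ((i0 : ℝ) + 1 - a))) *
        EE (2 ^ (i0 + 4)) b0 a P := by
      intro a
      ring
    simp only [e2]
    have e3 : ∀ a : ℕ, ENNReal.ofReal α0 * (ENNReal.ofReal ((2 : ℝ) ^ (kap0 / 4 * ((i1 : ℝ) + 1 - a))) *
        EE (2 ^ (i1 + 4)) b1 a (rev P)) = ENNReal.ofReal α0 * ENNReal.ofReal ((2 : ℝ) ^ (kap0 / 4 * ((i1 : ℝ) + 1 - a))) *
        EE (2 ^ (i1 + 4)) b1 a (rev P) := by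
      intro a
      ring
    simp only [e3, mul_one]
    rw [add_assoc]
  simp only [hexp]
  rw [Gs_add, Gs_add, Gs_add, Gs_sum, Gs_sum, Gs_sum]
  simp only [Gs_sum, Gs_mul]
  -- the sums
  obtain ⟨S0, hS0⟩ : ∃ S, S = ∑ a ∈ Icc b0 (i0 + 1), TW.X1 δ i0 e b0 a := ⟨_, rfl⟩
  obtain ⟨S1, hS1⟩ : ∃ S, S = ∑ a ∈ Icc b1 (i1 + 1), TW.X1 δ i1 e b1 a := ⟨_, rfl⟩
  have hS00 : 0 ≤ S0 := by
    rw [hS0]
    exact Finset.sum_nonneg fun a _ => TW.X1_nonneg _ _ _ _ _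
  have hS10 : 0 ≤ S1 := by
    rw [hS1]
    exact Finset.sum_nonneg fun a _ => TW.X1_nonneg _ _ _ _ _
  have g1 : ENNReal.ofReal α0 * ENNReal.ofReal α1 * Gs e (fun _ => 1) ≤ ENNReal.ofReal (K * (α0 * α1 / Ub e)) := by
    refine (mul_le_mul' le_rfl (h1 e)).trans ?_
    rw [← ENNReal.ofReal_mul hα00, ← ENNReal.ofReal_mul (by positivity)]
    apply ENNReal.ofReal_le_ofReal
    calc α0 * α1 * (K1 / Ub e) = K1 * (α0 * α1 / Ub e) := by ring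
      _ ≤ _ := by
        apply mul_le_mul_of_nonneg_right hKK1
        positivity
  have g2 : ∑ a ∈ Icc b1 (i1 + 1), ENNReal.ofReal α0 * ENNReal.ofReal ((2 : ℝ) ^ (kap0 / 4 * ((i1 : ℝ) + 1 - a))) *
      Gs e (fun P => EE (2 ^ (i1 + 4)) b1 a (rev P)) ≤ ENNReal.ofReal (K * (α0 * S1)) := by
    have e1 : K * (α0 * S1) = ∑ a ∈ Icc b1 (i1 + 1), K * (α0 * TW.X1 δ i1 e b1 a) := by
      rw [hS1]
      simp only [Finset.mul_sum]
    rw [e1, ENNReal.ofReal_sum_of_nonneg (fun a _ => by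
      have := TW.X1_nonneg δ i1 e b1 a
      positivity)]
    refine Finset.sum_le_sum fun a ha => ?_
    rw [Finset.mem_Icc] at ha
    refine (mul_le_mul' le_rfl (h2 (2 ^ (i1 + 4)) e a b1 ha.1 (hD i1 a ha.2)).2).trans ?_
    rw [← ENNReal.ofReal_mul hα00, ← ENNReal.ofReal_mul (by positivity)]
    apply ENNReal.ofReal_le_ofReal
    have hT := TT_nonneg (kap0 / 8) δ e a b1
    calc α0 * (2 : ℝ) ^ (kap0 / 4 * ((i1 : ℝ) + 1 - a)) * (K2 * TT (kap0 / 8) δ e a b1) =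
        K2 * (α0 * ((2 : ℝ) ^ (kap0 / 4 * ((i1 : ℝ) + 1 - a)) * TT (kap0 / 8) δ e a b1)) := by ring
      _ ≤ K * (α0 * TW.X1 δ i1 e b1 a) := by
        have := hbeta i1 b1 a
        have := p_pos (kap0 / 4 * ((i1 : ℝ) + 1 - a))
        gcongr
  have g3 : ∑ a ∈ Icc b0 (i0 + 1), ENNReal.ofReal α1 * ENNReal.ofReal ((2 : ℝ) ^ (kap0 / 4 * ((i0 : ℝ) + 1 - a))) *
      Gs e (fun P => EE (2 ^ (i0 + 4)) b0 a P) ≤ ENNReal.ofReal (K * (α1 * S0)) := by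
    have e1 : K * (α1 * S0) = ∑ a ∈ Icc b0 (i0 + 1), K * (α1 * TW.X1 δ i0 e b0 a) := by
      rw [hS0]
      simp only [Finset.mul_sum]
    rw [e1, ENNReal.ofReal_sum_of_nonneg (fun a _ => by
      have := TW.X1_nonneg δ i0 e b0 a
      positivity)]
    refine Finset.sum_le_sum fun a ha => ?_
    rw [Finset.mem_Icc] at ha
    refine (mul_le_mul' le_rfl (h2 (2 ^ (i0 + 4)) e a b0 ha.1 (hD i0 a ha.2)).1).trans ?_
    rw [← ENNReal.ofReal_mul hα10, ← ENNReal.ofReal_mul (by positivity)]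
    apply ENNReal.ofReal_le_ofReal
    have hT := TT_nonneg (kap0 / 8) δ e a b0
    calc α1 * (2 : ℝ) ^ (kap0 / 4 * ((i0 : ℝ) + 1 - a)) * (K2 * TT (kap0 / 8) δ e a b0) =
        K2 * (α1 * ((2 : ℝ) ^ (kap0 / 4 * ((i0 : ℝ) + 1 - a)) * TT (kap0 / 8) δ e a b0)) := by ring
      _ ≤ K * (α1 * TW.X1 δ i0 e b0 a) := by
        have := hbeta i0 b0 a
        have := p_pos (kap0 / 4 * ((i0 : ℝ) + 1 - a))
        gcongr
  have g4 : ∑ a ∈ Icc b0 (i0 + 1), ∑ a' ∈ Icc b1 (i1 + 1), (ENNReal.ofReal ((2 : ℝ) ^ (kap0 / 4 * ((i0 : ℝ) + 1 - a))) *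
        ENNReal.ofReal ((2 : ℝ) ^ (kap0 / 4 * ((i1 : ℝ) + 1 - a')))) * Gs e (fun P => EE (2 ^ (i0 + 4)) b0 a P *
          EE (2 ^ (i1 + 4)) b1 a' (rev P)) ≤ ENNReal.ofReal (K * (Ub e * (S0 * S1))) := by
    have e1 : K * (Ub e * (S0 * S1)) = ∑ a ∈ Icc b0 (i0 + 1), ∑ a' ∈ Icc b1 (i1 + 1),
        K * (Ub e * (TW.X1 δ i0 e b0 a * TW.X1 δ i1 e b1 a')) := by
      rw [hS0, hS1, Finset.sum_mul_sum]
      simp only [Finset.mul_sum]
    have hnn : ∀ a a' : ℕ, 0 ≤ K * (Ub e * (TW.X1 δ i0 e b0 a * TW.X1 δ i1 e b1 a')) := fun a a' => by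
      have := TW.X1_nonneg δ i0 e b0 a
      have := TW.X1_nonneg δ i1 e b1 a'
      positivity
    rw [e1, ENNReal.ofReal_sum_of_nonneg (fun a _ => Finset.sum_nonneg fun a' _ => hnn a a')]
    refine Finset.sum_le_sum fun a ha => ?_
    rw [ENNReal.ofReal_sum_of_nonneg (fun a' _ => hnn a a')]
    refine Finset.sum_le_sum fun a' ha' => ?_
    rw [Finset.mem_Icc] at ha ha'
    refine (mul_le_mul' le_rfl (h3 (2 ^ (i0 + 4)) (2 ^ (i1 + 4)) e a b0 a' b1 ha.1 ha'.1 (hD i0 a ha.2)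
      (hD i1 a' ha'.2))).trans ?_
    rw [← ENNReal.ofReal_mul (p_pos _).le, ← ENNReal.ofReal_mul (mul_nonneg (p_pos _).le (p_pos _).le)]
    apply ENNReal.ofReal_le_ofReal
    have g := TW.gain_prod hδ i0 i1 e a b0 a' b1
    have q1 := TW.X1_nonneg δ i0 e b0 a
    have q2 := TW.X1_nonneg δ i1 e b1 a'
    calc (2 : ℝ) ^ (kap0 / 4 * ((i0 : ℝ) + 1 - a)) * (2 : ℝ) ^ (kap0 / 4 * ((i1 : ℝ) + 1 - a')) *
          (K3 * (Real.sqrt (TT (kap0 / 8) δ e a b0 * TT (kap0 / 8) δ e a' b1) * Real.sqrt (Ub a * Ub a')))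
        = K3 * ((2 : ℝ) ^ (kap0 / 4 * ((i0 : ℝ) + 1 - a)) * ((2 : ℝ) ^ (kap0 / 4 * ((i1 : ℝ) + 1 - a')) *
          (Real.sqrt (TT (kap0 / 8) δ e a b0 * TT (kap0 / 8) δ e a' b1) * Real.sqrt (Ub a * Ub a')))) := by ring
      _ ≤ K3 * (Ub e * (TW.X1 δ i0 e b0 a * TW.X1 δ i1 e b1 a')) := mul_le_mul_of_nonneg_left g (by linarith)
      _ ≤ _ := by
        apply mul_le_mul_of_nonneg_right hKK3
        positivity
  refine (add_le_add g1 (add_le_add g2 (add_le_add g3 g4))).trans ?_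
  have hK00 : 0 ≤ K := by linarith
  rw [← ENNReal.ofReal_add (by positivity) (by positivity), ← ENNReal.ofReal_add (by positivity) (by positivity),
    ← ENNReal.ofReal_add (by positivity) (by positivity)]
  apply ENNReal.ofReal_le_ofReal
  apply le_of_eq
  unfold Yb
  rw [← hS0, ← hS1, ← hα0, ← hα1]
  field_simp
  ring

end KDJ

open KDJ in
/-- **the giants used at both ends** -/
theorem ssDJ (h : Inp C δ) : SsDJ := by
  classical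
  have hδ := h.pos
  obtain ⟨K1, hK1, h1⟩ := pair h
  obtain ⟨K2, c, hK2, hc, h2⟩ := Ysum hδ
  refine ⟨K1 * (K2 * K2), c, one_le_mul_of_one_le_of_one_le hK1 (one_le_mul_of_one_le_of_one_le hK2 hK2), hc,
    fun k0 k1 e j0 j1 hk0 hk1 hj0 hj1 => ?_⟩
  have hUe := Ub_pos e
  show Gs e (fun P => SSJ k0 j0 (rev P) * SSJ k1 j1 P) ≤ _
  have e1 : ∀ P : List Bool, SSJ k0 j0 (rev P) * SSJ k1 j1 P =
      ∑ i0 ∈ range (k0 + 1), ∑ b0 ∈ range (min i0 j0 + 1), ∑ i1 ∈ range (k1 + 1), ∑ b1 ∈ range (min i1 j1 + 1),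
        Sw (2 ^ (i0 + 4)) i0 b0 (rev P) * Sw (2 ^ (i1 + 4)) i1 b1 P := by
    intro P
    unfold SSJ
    rw [Finset.sum_mul]
    refine Finset.sum_congr rfl fun i0 _ => ?_
    rw [Finset.sum_mul]
    refine Finset.sum_congr rfl fun b0 _ => ?_
    rw [Finset.mul_sum]
    exact Finset.sum_congr rfl fun i1 _ => Finset.mul_sum _ _ _
  simp only [e1]
  rw [Gs_sum]
  simp only [Gs_sum]
  have hY := Yb_nonneg δ e
  have e2 : ∑ i0 ∈ range (k0 + 1), ∑ b0 ∈ range (min i0 j0 + 1), ∑ i1 ∈ range (k1 + 1), ∑ b1 ∈ range (min i1 j1 + 1),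
      Gs e (fun P => Sw (2 ^ (i0 + 4)) i0 b0 (rev P) * Sw (2 ^ (i1 + 4)) i1 b1 P) ≤
      ∑ i0 ∈ range (k0 + 1), ∑ b0 ∈ range (min i0 j0 + 1), ∑ i1 ∈ range (k1 + 1), ∑ b1 ∈ range (min i1 j1 + 1),
      ENNReal.ofReal (K1 * Ub e * (Yb δ e i0 b0 * Yb δ e i1 b1)) := by
    refine Finset.sum_le_sum fun i0 _ => Finset.sum_le_sum fun b0 hb0 => Finset.sum_le_sum fun i1 _ =>
      Finset.sum_le_sum fun b1 hb1 => ?_
    rw [Finset.mem_range] at hb0 hb1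
    exact h1 e i0 b0 i1 b1 (by omega) (by omega)
  refine e2.trans ?_
  have hnn : ∀ i0 b0 i1 b1 : ℕ, 0 ≤ K1 * Ub e * (Yb δ e i0 b0 * Yb δ e i1 b1) := fun i0 b0 i1 b1 => by
    have := hY i0 b0
    have := hY i1 b1
    positivity
  have e3 : ∑ i0 ∈ range (k0 + 1), ∑ b0 ∈ range (min i0 j0 + 1), ∑ i1 ∈ range (k1 + 1), ∑ b1 ∈ range (min i1 j1 + 1),
      ENNReal.ofReal (K1 * Ub e * (Yb δ e i0 b0 * Yb δ e i1 b1)) =
      ENNReal.ofReal (K1 * Ub e * ((∑ i0 ∈ range (k0 + 1), ∑ b0 ∈ range (min i0 j0 + 1), Yb δ e i0 b0) *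
        ∑ i1 ∈ range (k1 + 1), ∑ b1 ∈ range (min i1 j1 + 1), Yb δ e i1 b1)) := by
    have e4 : K1 * Ub e * ((∑ i0 ∈ range (k0 + 1), ∑ b0 ∈ range (min i0 j0 + 1), Yb δ e i0 b0) *
        ∑ i1 ∈ range (k1 + 1), ∑ b1 ∈ range (min i1 j1 + 1), Yb δ e i1 b1) =
        ∑ i0 ∈ range (k0 + 1), ∑ b0 ∈ range (min i0 j0 + 1), ∑ i1 ∈ range (k1 + 1), ∑ b1 ∈ range (min i1 j1 + 1),
        K1 * Ub e * (Yb δ e i0 b0 * Yb δ e i1 b1) := by
      obtain ⟨Y, hY1⟩ : ∃ Y, Y = ∑ i1 ∈ range (k1 + 1), ∑ b1 ∈ range (min i1 j1 + 1), Yb δ e i1 b1 := ⟨_, rfl⟩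
      rw [← hY1, Finset.sum_mul, Finset.mul_sum]
      refine Finset.sum_congr rfl fun i0 _ => ?_
      rw [Finset.sum_mul, Finset.mul_sum]
      refine Finset.sum_congr rfl fun b0 _ => ?_
      rw [hY1]
      simp only [Finset.mul_sum]
    rw [e4, ENNReal.ofReal_sum_of_nonneg (fun i0 _ => Finset.sum_nonneg fun b0 _ => Finset.sum_nonneg fun i1 _ =>
      Finset.sum_nonneg fun b1 _ => hnn i0 b0 i1 b1)]
    refine Finset.sum_congr rfl fun i0 _ => ?_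
    rw [ENNReal.ofReal_sum_of_nonneg (fun b0 _ => Finset.sum_nonneg fun i1 _ =>
      Finset.sum_nonneg fun b1 _ => hnn i0 b0 i1 b1)]
    refine Finset.sum_congr rfl fun b0 _ => ?_
    rw [ENNReal.ofReal_sum_of_nonneg (fun i1 _ => Finset.sum_nonneg fun b1 _ => hnn i0 b0 i1 b1)]
    refine Finset.sum_congr rfl fun i1 _ => ?_
    rw [ENNReal.ofReal_sum_of_nonneg (fun b1 _ => hnn i0 b0 i1 b1)]
  rw [e3]
  apply ENNReal.ofReal_le_ofReal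
  have f0 := h2 e k0 j0 hk0 hj0
  have f1 := h2 e k1 j1 hk1 hj1
  have n0 : 0 ≤ ∑ i0 ∈ range (k0 + 1), ∑ b0 ∈ range (min i0 j0 + 1), Yb δ e i0 b0 :=
    Finset.sum_nonneg fun i0 _ => Finset.sum_nonneg fun b0 _ => hY i0 b0
  have n1 : 0 ≤ ∑ i1 ∈ range (k1 + 1), ∑ b1 ∈ range (min i1 j1 + 1), Yb δ e i1 b1 :=
    Finset.sum_nonneg fun i0 _ => Finset.sum_nonneg fun b0 _ => hY i0 b0
  have q0 := p_pos (-(c * ((e : ℝ) - j0)))
  have q1 := p_pos (-(c * ((e : ℝ) - j1)))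
  calc K1 * Ub e * ((∑ i0 ∈ range (k0 + 1), ∑ b0 ∈ range (min i0 j0 + 1), Yb δ e i0 b0) *
        ∑ i1 ∈ range (k1 + 1), ∑ b1 ∈ range (min i1 j1 + 1), Yb δ e i1 b1)
      ≤ K1 * Ub e * ((K2 * (2 : ℝ) ^ (-(c * ((e : ℝ) - j0)))) * (K2 * (2 : ℝ) ^ (-(c * ((e : ℝ) - j1))))) := by
        gcongr
    _ = _ := by ring

end NTW

end HexObs
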