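import Pool.Agent.NTW.DomO
import Pool.Agent.NTW.KernG

/-!
NTW: the universal weight with the parts of the blocks up to j only, and the giants seen from both sides with a gain in
k - j.
-/

set_option autoImplicit false

namespace HexObs

namespace NTW

open Finset TS SDN

open scoped ENNReal

open Rec8 (mb)

variable {C δ : ℝ}

/-- the universal weight of a piece P, scales up to k, parts of the blocks up to j -/
noncomputable def SJ (k j : ℕ) (P : List Bool) : ℝ≥0∞ :=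
  ∑ i ∈ range (k + 1), ∑ b ∈ range (min i j + 1), Sw (2 ^ (i + 4)) i b P

lemma SJ_self (k : ℕ) (P : List Bool) : SJ k k P = SS k P := by
  unfold SJ SS
  refine Finset.sum_congr rfl fun i hi => ?_
  rw [Finset.mem_range] at hi
  rw [min_eq_left (by omega)]

lemma SJ_le_SS (k j : ℕ) (P : List Bool) : SJ k j P ≤ SS k P := by
  unfold SJ SS
  refine Finset.sum_le_sum fun i _ => Finset.sum_le_sum_of_subset (Finset.range_mono ?_)
  omega

namespace KJ

open SDN.TK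

/-- sum over the giants -/
noncomputable def Lg (k : ℕ) (f : List Bool → ℝ≥0∞) : ℝ≥0∞ := ∑' r : ℕ, (if 2 ^ k < r then Rec8.sw (Irr r) f else 0)

lemma Lg_mono {k : ℕ} {f g : List Bool → ℝ≥0∞} (h : ∀ P, f P ≤ g P) : Lg k f ≤ Lg k g := by
  unfold Lg
  refine ENNReal.tsum_le_tsum fun r => ?_
  split_ifs
  · exact Rec8.sw_mono' fun P _ => h P
  · exact le_rfl

lemma Lg_add (k : ℕ) (f g : List Bool → ℝ≥0∞) : Lg k (fun P => f P + g P) = Lg k f + Lg k g := by
  unfold Lg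
  rw [← ENNReal.tsum_add]
  refine tsum_congr fun r => ?_
  split_ifs
  · exact Rec8.sw_add _ _ _
  · rw [add_zero]

lemma Lg_mul (k : ℕ) (c : ℝ≥0∞) (f : List Bool → ℝ≥0∞) : Lg k (fun P => c * f P) = c * Lg k f := by
  unfold Lg
  rw [← ENNReal.tsum_mul_left]
  refine tsum_congr fun r => ?_
  split_ifs
  · exact Rec8.sw_mul_left _ _ _
  · rw [mul_zero]

lemma Lg_sum {ι : Type*} (k : ℕ) (s : Finset ι) (f : ι → List Bool → ℝ≥0∞) :
    Lg k (fun P => ∑ i ∈ s, f i P) = ∑ i ∈ s, Lg k (f i) := by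
  unfold Lg
  rw [← Summable.tsum_finsetSum (fun _ _ => ENNReal.summable)]
  refine tsum_congr fun r => ?_
  split_ifs
  · exact Rec8.sw_sum _ _ _
  · rw [Finset.sum_const_zero]

lemma Lg_rev (k : ℕ) (f : List Bool → ℝ≥0∞) : Lg k (fun P => f (rev P)) = Lg k f := by
  unfold Lg
  refine tsum_congr fun r => ?_
  split_ifs
  · unfold Rec8.sw
    have hA : ∀ t ∈ Irr r, rev t ∈ Irr r := fun t ht => Irr_rev ht
    have e : ∀ t : {t : List Bool // t ∈ Irr r}, wE t.1 * f (rev t.1) =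
        (fun s : {t : List Bool // t ∈ Irr r} => wE s.1 * f s.1) ⟨rev t.1, hA t.1 t.2⟩ := by
      intro t
      show _ = wE (rev t.1) * f (rev t.1)
      rw [wE_rev]
    rw [tsum_congr e]
    have hinv : Function.Involutive (fun t : {t : List Bool // t ∈ Irr r} =>
        (⟨rev t.1, hA t.1 t.2⟩ : {t : List Bool // t ∈ Irr r})) := by
      intro t
      apply Subtype.ext
      exact rev_rev t.1
    exact (Equiv.ofBijective _ hinv.bijective).tsum_eq (fun s : {t : List Bool // t ∈ Irr r} => wE s.1 * f s.1)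
  · rfl

/-- one coefficient -/
noncomputable def wJ (c : ℝ) (k i b a : ℕ) : ℝ :=
  (2 : ℝ) ^ (c * ((k : ℝ) - b)) * (2 : ℝ) ^ (kap0 / 4 * ((i : ℝ) + 1 - a))

lemma wJ_pos (c : ℝ) (k i b a : ℕ) : 0 < wJ c k i b a := mul_pos (p_pos _) (p_pos _)

/-- one factor of the gain -/
noncomputable def YJ (c δ : ℝ) (k i b a : ℕ) : ℝ := wJ c k i b a * (Ub a / Ub k) *
  (2 : ℝ) ^ (kap0 / 8 * ((k - a : ℕ) : ℝ)) * (2 : ℝ) ^ (-(δ / 2 * ((min a k - b : ℕ) : ℝ)))

lemma YJ_nonneg (c δ : ℝ) (k i b a : ℕ) : 0 ≤ YJ c δ k i b a := by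
  unfold YJ
  have := wJ_pos c k i b a
  have := Ub_pos a
  have := Ub_pos k
  have := p_pos (kap0 / 8 * ((k - a : ℕ) : ℝ))
  have := p_pos (-(δ / 2 * ((min a k - b : ℕ) : ℝ)))
  positivity

/-- the sum of the factors -/
lemma S3J {c : ℝ} (hc : 0 ≤ c) (hck : c ≤ kap0 / 8) (hcd : c ≤ δ / 4) (hδ : 0 < δ) : ∃ K : ℝ, 1 ≤ K ∧ ∀ k : ℕ,
    ∑ i ∈ range (k + 1), ∑ b ∈ range (i + 1), ∑ a ∈ Icc b (i + 1), YJ c δ k i b a ≤ K := by
  have hk := kap0_pos
  obtain ⟨K1, hK1, h1⟩ := geo_Ub (η := kap0 / 2) (by linarith)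
  obtain ⟨K2, hK2, h2⟩ := geo_low (c := δ / 4) (by linarith)
  obtain ⟨K3, hK3, h3⟩ := geo_low (c := kap0 / 4) (by linarith)
  refine ⟨2 * K1 * K2 * K3, one_le_mul_of_one_le_of_one_le (one_le_mul_of_one_le_of_one_le (by linarith) hK2) hK3,
    fun k => ?_⟩
  have hUk := Ub_pos k
  -- one term
  have hterm : ∀ i a b : ℕ, i ≤ k → b ≤ i → b ≤ a → a ≤ i + 1 → YJ c δ k i b a ≤
      (2 : ℝ) ^ (-(kap0 / 4 * ((k - i : ℕ) : ℝ))) * (((2 : ℝ) ^ (kap0 / 2 * (((k + 1 : ℕ) : ℝ) - a)) * Ub a / Ub k) *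
        (2 : ℝ) ^ (-(δ / 4 * ((min a k - b : ℕ) : ℝ)))) := by
    intro i a b hi hb hba ha
    have hUa := Ub_pos a
    have e1 : ((k : ℝ) - b) = ((k - a : ℕ) : ℝ) + ((min a k - b : ℕ) : ℝ) := by
      have : k = (k - a) + (min a k - b) + b := by omega
      have h4 : (k : ℝ) = ((k - a : ℕ) : ℝ) + ((min a k - b : ℕ) : ℝ) + b := by exact_mod_cast this
      linarith
    have e2 : ((i : ℝ) + 1 - a) = (((k + 1 : ℕ) : ℝ) - a) - ((k - i : ℕ) : ℝ) := by
      rw [Nat.cast_sub hi]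
      push_cast
      ring
    have e3 : ((k - a : ℕ) : ℝ) ≤ ((k + 1 : ℕ) : ℝ) - a := by
      rcases Nat.lt_or_ge k a with h4 | h4
      · rw [Nat.sub_eq_zero_of_le h4.le]
        have : (a : ℝ) ≤ ((k + 1 : ℕ) : ℝ) := by exact_mod_cast (show a ≤ k + 1 by omega)
        push_cast at this ⊢
        linarith
      · rw [Nat.cast_sub h4]
        push_cast
        linarith
    have q0 : (0 : ℝ) ≤ ((k - a : ℕ) : ℝ) := Nat.cast_nonneg _
    have q1 : (0 : ℝ) ≤ ((min a k - b : ℕ) : ℝ) := Nat.cast_nonneg _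
    have q2 : (0 : ℝ) ≤ ((k - i : ℕ) : ℝ) := Nat.cast_nonneg _
    unfold YJ wJ
    have key : (2 : ℝ) ^ (c * ((k : ℝ) - b)) * (2 : ℝ) ^ (kap0 / 4 * ((i : ℝ) + 1 - a)) *
        (2 : ℝ) ^ (kap0 / 8 * ((k - a : ℕ) : ℝ)) * (2 : ℝ) ^ (-(δ / 2 * ((min a k - b : ℕ) : ℝ))) ≤
        (2 : ℝ) ^ (-(kap0 / 4 * ((k - i : ℕ) : ℝ))) * (2 : ℝ) ^ (kap0 / 2 * (((k + 1 : ℕ) : ℝ) - a)) *
        (2 : ℝ) ^ (-(δ / 4 * ((min a k - b : ℕ) : ℝ))) := by
      rw [← Real.rpow_add two_pos, ← Real.rpow_add two_pos, ← Real.rpow_add two_pos, ← Real.rpow_add two_pos,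
        ← Real.rpow_add two_pos]
      apply p_mono
      rw [e1, e2]
      nlinarith
    calc (2 : ℝ) ^ (c * ((k : ℝ) - b)) * (2 : ℝ) ^ (kap0 / 4 * ((i : ℝ) + 1 - a)) * (Ub a / Ub k) *
        (2 : ℝ) ^ (kap0 / 8 * ((k - a : ℕ) : ℝ)) * (2 : ℝ) ^ (-(δ / 2 * ((min a k - b : ℕ) : ℝ))) =
        ((2 : ℝ) ^ (c * ((k : ℝ) - b)) * (2 : ℝ) ^ (kap0 / 4 * ((i : ℝ) + 1 - a)) *
        (2 : ℝ) ^ (kap0 / 8 * ((k - a : ℕ) : ℝ)) * (2 : ℝ) ^ (-(δ / 2 * ((min a k - b : ℕ) : ℝ)))) * (Ub a / Ub k) := by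
          ring
      _ ≤ ((2 : ℝ) ^ (-(kap0 / 4 * ((k - i : ℕ) : ℝ))) * (2 : ℝ) ^ (kap0 / 2 * (((k + 1 : ℕ) : ℝ) - a)) *
        (2 : ℝ) ^ (-(δ / 4 * ((min a k - b : ℕ) : ℝ)))) * (Ub a / Ub k) :=
          mul_le_mul_of_nonneg_right key (by positivity)
      _ = _ := by ring
  calc ∑ i ∈ range (k + 1), ∑ b ∈ range (i + 1), ∑ a ∈ Icc b (i + 1), YJ c δ k i b a
      ≤ ∑ i ∈ range (k + 1), (2 : ℝ) ^ (-(kap0 / 4 * ((k - i : ℕ) : ℝ))) * (2 * K1 * K2) := by
        refine Finset.sum_le_sum fun i hi => ?_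
        rw [Finset.mem_range] at hi
        rw [Finset.sum_comm' (s' := fun a => range (min a i + 1)) (t' := range (i + 2)) (by
          intro x y
          simp only [Finset.mem_range, Finset.mem_Icc]
          omega)]
        calc ∑ a ∈ range (i + 2), ∑ b ∈ range (min a i + 1), YJ c δ k i b a
            ≤ ∑ a ∈ range (i + 2), (2 : ℝ) ^ (-(kap0 / 4 * ((k - i : ℕ) : ℝ))) *
              (((2 : ℝ) ^ (kap0 / 2 * (((k + 1 : ℕ) : ℝ) - a)) * Ub a / Ub k) * K2) := by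
              refine Finset.sum_le_sum fun a ha => ?_
              rw [Finset.mem_range] at ha
              have hUa := Ub_pos a
              have hp1 := p_pos (-(kap0 / 4 * ((k - i : ℕ) : ℝ)))
              have hp2 := p_pos (kap0 / 2 * (((k + 1 : ℕ) : ℝ) - a))
              calc ∑ b ∈ range (min a i + 1), YJ c δ k i b a
                  ≤ ∑ b ∈ range (min a i + 1), (2 : ℝ) ^ (-(kap0 / 4 * ((k - i : ℕ) : ℝ))) *
                    (((2 : ℝ) ^ (kap0 / 2 * (((k + 1 : ℕ) : ℝ) - a)) * Ub a / Ub k) *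
                      (2 : ℝ) ^ (-(δ / 4 * ((min a k - b : ℕ) : ℝ)))) := by
                    refine Finset.sum_le_sum fun b hb => ?_
                    rw [Finset.mem_range] at hb
                    exact hterm i a b (by omega) (by omega) (by omega) (by omega)
                _ = (2 : ℝ) ^ (-(kap0 / 4 * ((k - i : ℕ) : ℝ))) *
                    (((2 : ℝ) ^ (kap0 / 2 * (((k + 1 : ℕ) : ℝ) - a)) * Ub a / Ub k) *
                      ∑ b ∈ range (min a i + 1), (2 : ℝ) ^ (-(δ / 4 * ((min a k - b : ℕ) : ℝ)))) := by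
                    rw [Finset.mul_sum, Finset.mul_sum]
                _ ≤ _ := by
                    have h5 : ∑ b ∈ range (min a i + 1), (2 : ℝ) ^ (-(δ / 4 * ((min a k - b : ℕ) : ℝ))) ≤ K2 := by
                      refine le_trans (Finset.sum_le_sum_of_subset_of_nonneg (Finset.range_mono ?_)
                        fun _ _ _ => (p_pos _).le) (h2 (min a k))
                      omega
                    gcongr
          _ = (2 : ℝ) ^ (-(kap0 / 4 * ((k - i : ℕ) : ℝ))) * (K2 / Ub k) *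
              ∑ a ∈ range (i + 2), (2 : ℝ) ^ (kap0 / 2 * (((k + 1 : ℕ) : ℝ) - a)) * Ub a := by
              rw [Finset.mul_sum]
              refine Finset.sum_congr rfl fun a _ => ?_
              ring
          _ ≤ (2 : ℝ) ^ (-(kap0 / 4 * ((k - i : ℕ) : ℝ))) * (K2 / Ub k) * (K1 * (2 * Ub k)) := by
              have hp1 := p_pos (-(kap0 / 4 * ((k - i : ℕ) : ℝ)))
              refine mul_le_mul_of_nonneg_left ?_ (by positivity)
              refine le_trans (Finset.sum_le_sum_of_subset_of_nonneg (t := range (k + 1 + 1)) (Finset.range_mono (by omega))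
                fun a _ _ => mul_nonneg (p_pos _).le (Ub_pos a).le) ((h1 (k + 1)).trans ?_)
              exact mul_le_mul_of_nonneg_left (Ub_succ k) (by linarith)
          _ = _ := by
              field_simp
    _ = (∑ i ∈ range (k + 1), (2 : ℝ) ^ (-(kap0 / 4 * ((k - i : ℕ) : ℝ)))) * (2 * K1 * K2) := by rw [Finset.sum_mul]
    _ ≤ K3 * (2 * K1 * K2) := mul_le_mul_of_nonneg_right (h3 k) (by positivity)
    _ = _ := by ring

lemma sum3_mul (k : ℕ) (c : ℝ≥0∞) (f : ℕ → ℕ → ℕ → ℝ≥0∞) :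
    c * ∑ i ∈ range (k + 1), ∑ b ∈ range (i + 1), ∑ a ∈ Icc b (i + 1), f i b a =
      ∑ i ∈ range (k + 1), ∑ b ∈ range (i + 1), ∑ a ∈ Icc b (i + 1), c * f i b a := by
  rw [Finset.mul_sum]
  refine Finset.sum_congr rfl fun i _ => ?_
  rw [Finset.mul_sum]
  refine Finset.sum_congr rfl fun b _ => ?_
  rw [Finset.mul_sum]

lemma prod3 (k : ℕ) (d : ℝ≥0∞) (f : ℕ → ℕ → ℕ → ℝ≥0∞) :
    (∑ i ∈ range (k + 1), ∑ b ∈ range (i + 1), ∑ a ∈ Icc b (i + 1), f i b a) * d =
      ∑ i ∈ range (k + 1), ∑ b ∈ range (i + 1), ∑ a ∈ Icc b (i + 1), f i b a * d := by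
  rw [Finset.sum_mul]
  refine Finset.sum_congr rfl fun i _ => ?_
  rw [Finset.sum_mul]
  refine Finset.sum_congr rfl fun b _ => ?_
  rw [Finset.sum_mul]

lemma sum3_mulR (k : ℕ) (c : ℝ) (f : ℕ → ℕ → ℕ → ℝ) :
    c * ∑ i ∈ range (k + 1), ∑ b ∈ range (i + 1), ∑ a ∈ Icc b (i + 1), f i b a =
      ∑ i ∈ range (k + 1), ∑ b ∈ range (i + 1), ∑ a ∈ Icc b (i + 1), c * f i b a := by
  rw [Finset.mul_sum]
  refine Finset.sum_congr rfl fun i _ => ?_
  rw [Finset.mul_sum]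
  refine Finset.sum_congr rfl fun b _ => ?_
  rw [Finset.mul_sum]

lemma prod3R (k : ℕ) (d : ℝ) (f : ℕ → ℕ → ℕ → ℝ) :
    (∑ i ∈ range (k + 1), ∑ b ∈ range (i + 1), ∑ a ∈ Icc b (i + 1), f i b a) * d =
      ∑ i ∈ range (k + 1), ∑ b ∈ range (i + 1), ∑ a ∈ Icc b (i + 1), f i b a * d := by
  rw [Finset.sum_mul]
  refine Finset.sum_congr rfl fun i _ => ?_
  rw [Finset.sum_mul]
  refine Finset.sum_congr rfl fun b _ => ?_
  rw [Finset.sum_mul]

/-- the weight SJ with factors in place of the restriction of the blocks -/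
noncomputable def ZJ (c : ℝ) (k : ℕ) (P : List Bool) : ℝ≥0∞ :=
  ∑ i ∈ range (k + 1), ∑ b ∈ range (i + 1), ENNReal.ofReal ((2 : ℝ) ^ (c * ((k : ℝ) - b))) * Sw (2 ^ (i + 4)) i b P

lemma SJ_le {c : ℝ} (hc : 0 ≤ c) {k j : ℕ} (hj : j ≤ k) (P : List Bool) :
    SJ k j P ≤ ENNReal.ofReal ((2 : ℝ) ^ (-(c * ((k : ℝ) - j)))) * ZJ c k P := by
  unfold SJ ZJ
  rw [Finset.mul_sum]
  refine Finset.sum_le_sum fun i _ => ?_
  rw [Finset.mul_sum]
  refine le_trans (Finset.sum_le_sum fun b hb => ?_) (Finset.sum_le_sum_of_subset (Finset.range_mono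
    (show min i j + 1 ≤ i + 1 by omega)))
  rw [Finset.mem_range] at hb
  have hbj : (b : ℝ) ≤ j := by exact_mod_cast (show b ≤ j by omega)
  rw [← mul_assoc, ← ENNReal.ofReal_mul (p_pos _).le, ← Real.rpow_add two_pos]
  refine le_trans (le_of_eq (one_mul _).symm) (mul_le_mul' ?_ le_rfl)
  rw [← ENNReal.ofReal_one]
  apply ENNReal.ofReal_le_ofReal
  apply p_one
  nlinarith

/-- the first part of the weight -/
noncomputable def A0J (c : ℝ) (k : ℕ) : ℝ := ∑ i ∈ range (k + 1), ∑ b ∈ range (i + 1),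
  (2 : ℝ) ^ (c * ((k : ℝ) - b)) * ((2 : ℝ) ^ (kap0 / 4 * ((i : ℝ) - b)) * Ub b)

lemma A0J_nonneg (c : ℝ) (k : ℕ) : 0 ≤ A0J c k :=
  Finset.sum_nonneg fun i _ => Finset.sum_nonneg fun b _ => by
    have := Ub_pos b
    have := p_pos (c * ((k : ℝ) - b))
    have := p_pos (kap0 / 4 * ((i : ℝ) - b))
    positivity

lemma A0J_le {c : ℝ} (hck : c ≤ kap0 / 8) : ∃ K : ℝ, 1 ≤ K ∧ ∀ k : ℕ, A0J c k ≤ K * Ub k := by
  have hk := kap0_pos
  obtain ⟨K1, hK1, h1⟩ := geo_Ub (η := kap0 / 2) (by linarith)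
  obtain ⟨K3, hK3, h3⟩ := geo_low (c := kap0 / 4) (by linarith)
  refine ⟨K1 * K3, one_le_mul_of_one_le_of_one_le hK1 hK3, fun k => ?_⟩
  have hUk := Ub_pos k
  unfold A0J
  calc ∑ i ∈ range (k + 1), ∑ b ∈ range (i + 1),
        (2 : ℝ) ^ (c * ((k : ℝ) - b)) * ((2 : ℝ) ^ (kap0 / 4 * ((i : ℝ) - b)) * Ub b)
      ≤ ∑ i ∈ range (k + 1), (2 : ℝ) ^ (-(kap0 / 4 * ((k - i : ℕ) : ℝ))) * (K1 * Ub k) := by
        refine Finset.sum_le_sum fun i hi => ?_
        rw [Finset.mem_range] at hi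
        refine le_trans ?_ (mul_le_mul_of_nonneg_left (h1 k) (p_pos _).le)
        rw [Finset.mul_sum]
        refine le_trans (Finset.sum_le_sum fun b hb => ?_) (Finset.sum_le_sum_of_subset_of_nonneg
          (show range (i + 1) ⊆ range (k + 1) from Finset.range_mono (by omega)) fun b _ _ =>
            mul_nonneg (p_pos _).le (mul_nonneg (p_pos _).le (Ub_pos b).le))
        rw [Finset.mem_range] at hb
        have hUb := Ub_pos b
        rw [← mul_assoc, ← mul_assoc]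
        refine mul_le_mul_of_nonneg_right ?_ hUb.le
        rw [← Real.rpow_add two_pos, ← Real.rpow_add two_pos]
        apply p_mono
        rw [Nat.cast_sub (show i ≤ k by omega)]
        have hbi : (b : ℝ) ≤ i := by exact_mod_cast (show b ≤ i by omega)
        have hik : (i : ℝ) ≤ k := by exact_mod_cast (show i ≤ k by omega)
        nlinarith
    _ = (∑ i ∈ range (k + 1), (2 : ℝ) ^ (-(kap0 / 4 * ((k - i : ℕ) : ℝ)))) * (K1 * Ub k) := by rw [Finset.sum_mul]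
    _ ≤ K3 * (K1 * Ub k) := mul_le_mul_of_nonneg_right (h3 k) (by positivity)
    _ = _ := by ring

/-- the second part of the weight -/
noncomputable def EJ (c : ℝ) (k : ℕ) (P : List Bool) : ℝ≥0∞ := ∑ i ∈ range (k + 1), ∑ b ∈ range (i + 1),
  ∑ a ∈ Icc b (i + 1), ENNReal.ofReal (wJ c k i b a) * EE (2 ^ (i + 4)) b a (rev P)

lemma ZJ_eq (c : ℝ) (k : ℕ) (P : List Bool) : ZJ c k P = ENNReal.ofReal (A0J c k) + EJ c k P := by
  unfold ZJ A0J EJ
  have hnn : ∀ i b : ℕ, 0 ≤ (2 : ℝ) ^ (c * ((k : ℝ) - b)) * ((2 : ℝ) ^ (kap0 / 4 * ((i : ℝ) - b)) * Ub b) := fun i b => by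
    have := Ub_pos b
    have := p_pos (c * ((k : ℝ) - b))
    have := p_pos (kap0 / 4 * ((i : ℝ) - b))
    positivity
  rw [ENNReal.ofReal_sum_of_nonneg (fun i _ => Finset.sum_nonneg fun b _ => hnn i b), ← Finset.sum_add_distrib]
  refine Finset.sum_congr rfl fun i _ => ?_
  rw [ENNReal.ofReal_sum_of_nonneg (fun b _ => hnn i b), ← Finset.sum_add_distrib]
  refine Finset.sum_congr rfl fun b _ => ?_
  have e1 : ENNReal.ofReal ((2 : ℝ) ^ (c * ((k : ℝ) - b)) * ((2 : ℝ) ^ (kap0 / 4 * ((i : ℝ) - b)) * Ub b)) =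
      ENNReal.ofReal ((2 : ℝ) ^ (c * ((k : ℝ) - b))) * ENNReal.ofReal ((2 : ℝ) ^ (kap0 / 4 * ((i : ℝ) - b)) * Ub b) :=
    ENNReal.ofReal_mul (p_pos _).le
  unfold Sw
  rw [mul_add, e1, Finset.mul_sum]
  congr 1
  refine Finset.sum_congr rfl fun a _ => ?_
  unfold wJ
  rw [ENNReal.ofReal_mul (p_pos _).le, mul_assoc]

end KJ

open KJ SDN.TK in
/-- the giants seen from both sides, weights with factors -/
theorem zzJ (h : Inp C δ) {c : ℝ} (hc : 0 ≤ c) (hck : c ≤ kap0 / 8) (hcd : c ≤ δ / 4) : ∃ K : ℝ, 1 ≤ K ∧ ∀ k : ℕ,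
    Lg k (fun P => ZJ c k (rev P) * ZJ c k P) ≤ ENNReal.ofReal (K * Ub k) := by
  have hk := kap0_pos
  have hδ := h.pos
  obtain ⟨Ka, hKa, ha⟩ := A0J_le (c := c) hck
  obtain ⟨Kg, hKg, hg⟩ := giants
  obtain ⟨K3, hK3, h3⟩ := giant1 h
  obtain ⟨K2, hK2, h2⟩ := giant2 h
  obtain ⟨K4, hK4, h4⟩ := S3J hc hck hcd hδ
  refine ⟨Ka * Ka * Kg + 2 * (Ka * (K3 * K4)) + K2 * (K4 * K4), by
    have q1 : 1 ≤ Ka * Ka * Kg := one_le_mul_of_one_le_of_one_le (one_le_mul_of_one_le_of_one_le hKa hKa) hKg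
    have q2 : 0 ≤ 2 * (Ka * (K3 * K4)) := by positivity
    have q3 : 0 ≤ K2 * (K4 * K4) := by positivity
    linarith, fun k => ?_⟩
  have hUk := Ub_pos k
  have hA0 := A0J_nonneg c k
  have hAk := ha k
  -- one factor
  have hone : Lg k (fun P => EJ c k P) ≤ ENNReal.ofReal (K3 * K4) := by
    unfold EJ
    simp only [Lg_sum, Lg_mul]
    calc ∑ i ∈ range (k + 1), ∑ b ∈ range (i + 1), ∑ a ∈ Icc b (i + 1),
          ENNReal.ofReal (wJ c k i b a) * Lg k (fun P => EE (2 ^ (i + 4)) b a (rev P))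
        ≤ ∑ i ∈ range (k + 1), ∑ b ∈ range (i + 1), ∑ a ∈ Icc b (i + 1), ENNReal.ofReal (K3 * YJ c δ k i b a) := by
          refine Finset.sum_le_sum fun i hi => Finset.sum_le_sum fun b hb => Finset.sum_le_sum fun a ha => ?_
          rw [Finset.mem_range] at hi hb
          rw [Finset.mem_Icc] at ha
          have hD : 2 ^ (a + 3) ≤ 2 ^ (i + 4) := Nat.pow_le_pow_right (by norm_num) (by omega)
          have h5 := (h3 (2 ^ (i + 4)) k a b ha.1 hD).2
          refine (mul_le_mul' le_rfl h5).trans ?_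
          rw [← ENNReal.ofReal_mul (wJ_pos _ _ _ _ _).le]
          apply ENNReal.ofReal_le_ofReal
          unfold TT YJ
          have hUa := Ub_pos a
          have hw := wJ_pos c k i b a
          have e3 : (2 : ℝ) ^ (-(δ * ((min a k - b : ℕ) : ℝ))) ≤ (2 : ℝ) ^ (-(δ / 2 * ((min a k - b : ℕ) : ℝ))) := by
            apply p_mono
            have : (0 : ℝ) ≤ ((min a k - b : ℕ) : ℝ) := Nat.cast_nonneg _
            nlinarith
          have q2 := p_pos (kap0 / 8 * ((k - a : ℕ) : ℝ))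
          calc wJ c k i b a * (K3 * (Ub a / Ub k * (2 : ℝ) ^ (kap0 / 8 * ((k - a : ℕ) : ℝ)) *
                (2 : ℝ) ^ (-(δ * ((min a k - b : ℕ) : ℝ))))) ≤
              wJ c k i b a * (K3 * (Ub a / Ub k * (2 : ℝ) ^ (kap0 / 8 * ((k - a : ℕ) : ℝ)) *
                (2 : ℝ) ^ (-(δ / 2 * ((min a k - b : ℕ) : ℝ))))) := by gcongr
            _ = _ := by ring
      _ = ENNReal.ofReal (K3 * ∑ i ∈ range (k + 1), ∑ b ∈ range (i + 1), ∑ a ∈ Icc b (i + 1), YJ c δ k i b a) := by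
          have hnn : ∀ i b a : ℕ, 0 ≤ K3 * YJ c δ k i b a := fun i b a => mul_nonneg (by linarith) (YJ_nonneg _ _ _ _ _ _)
          rw [Finset.mul_sum, ENNReal.ofReal_sum_of_nonneg]
          · refine Finset.sum_congr rfl fun i _ => ?_
            rw [Finset.mul_sum, ENNReal.ofReal_sum_of_nonneg]
            · refine Finset.sum_congr rfl fun b _ => ?_
              rw [Finset.mul_sum, ENNReal.ofReal_sum_of_nonneg]
              exact fun a _ => hnn i b a
            · intro b _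
              rw [Finset.mul_sum]
              exact Finset.sum_nonneg fun a _ => hnn i b a
          · intro i _
            rw [Finset.mul_sum]
            refine Finset.sum_nonneg fun b _ => ?_
            rw [Finset.mul_sum]
            exact Finset.sum_nonneg fun a _ => hnn i b a
      _ ≤ _ := ENNReal.ofReal_le_ofReal (mul_le_mul_of_nonneg_left (h4 k) (by linarith))
  have hmass : Lg k (fun _ => 1) ≤ ENNReal.ofReal (Kg / Ub k) := by
    have h5 := hg (k + 1)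
    rw [Nat.add_sub_cancel] at h5
    have e2 : Lg k (fun _ => 1) = ∑' r : ℕ, (if 2 ^ k < r then kap' r else 0) := by
      unfold Lg
      refine tsum_congr fun r => ?_
      rw [Rec8.sw_one]
      rfl
    rw [e2]
    refine h5.trans (ENNReal.ofReal_le_ofReal ?_)
    have h6 : Ub k ≤ Ub (k + 1) := Ub_mono (Nat.le_succ k)
    gcongr
  -- two factors
  have htwo : Lg k (fun P => EJ c k (rev P) * EJ c k P) ≤ ENNReal.ofReal (K2 * (K4 * K4) * Ub k) := by
    have e1 : ∀ P : List Bool, EJ c k (rev P) * EJ c k P =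
        ∑ i ∈ range (k + 1), ∑ b ∈ range (i + 1), ∑ a ∈ Icc b (i + 1),
          ∑ i2 ∈ range (k + 1), ∑ b2 ∈ range (i2 + 1), ∑ a2 ∈ Icc b2 (i2 + 1),
            ENNReal.ofReal (wJ c k i b a) * (ENNReal.ofReal (wJ c k i2 b2 a2) *
              (EE (2 ^ (i + 4)) b a P * EE (2 ^ (i2 + 4)) b2 a2 (rev P))) := by
      intro P
      have e0 : EJ c k (rev P) = ∑ i ∈ range (k + 1), ∑ b ∈ range (i + 1),
          ∑ a ∈ Icc b (i + 1), ENNReal.ofReal (wJ c k i b a) * EE (2 ^ (i + 4)) b a P := by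
        unfold EJ
        rw [rev_rev]
      rw [e0, prod3]
      refine Finset.sum_congr rfl fun i _ => Finset.sum_congr rfl fun b _ => Finset.sum_congr rfl fun a _ => ?_
      unfold EJ
      rw [sum3_mul]
      refine Finset.sum_congr rfl fun i2 _ => Finset.sum_congr rfl fun b2 _ => Finset.sum_congr rfl fun a2 _ => ?_
      ring
    simp only [e1]
    simp only [Lg_sum, Lg_mul]
    calc ∑ i ∈ range (k + 1), ∑ b ∈ range (i + 1), ∑ a ∈ Icc b (i + 1),
          ∑ i2 ∈ range (k + 1), ∑ b2 ∈ range (i2 + 1), ∑ a2 ∈ Icc b2 (i2 + 1),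
            ENNReal.ofReal (wJ c k i b a) * (ENNReal.ofReal (wJ c k i2 b2 a2) *
              Lg k (fun P => EE (2 ^ (i + 4)) b a P * EE (2 ^ (i2 + 4)) b2 a2 (rev P)))
        ≤ ∑ i ∈ range (k + 1), ∑ b ∈ range (i + 1), ∑ a ∈ Icc b (i + 1),
          ∑ i2 ∈ range (k + 1), ∑ b2 ∈ range (i2 + 1), ∑ a2 ∈ Icc b2 (i2 + 1),
            ENNReal.ofReal (K2 * Ub k * (YJ c δ k i b a * YJ c δ k i2 b2 a2)) := by
          refine Finset.sum_le_sum fun i hi => Finset.sum_le_sum fun b hb => Finset.sum_le_sum fun a ha =>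
            Finset.sum_le_sum fun i2 hi2 => Finset.sum_le_sum fun b2 hb2 => Finset.sum_le_sum fun a2 ha2 => ?_
          rw [Finset.mem_range] at hi hb hi2 hb2
          rw [Finset.mem_Icc] at ha ha2
          have hD : 2 ^ (a + 3) ≤ 2 ^ (i + 4) := Nat.pow_le_pow_right (by norm_num) (by omega)
          have hD2 : 2 ^ (a2 + 3) ≤ 2 ^ (i2 + 4) := Nat.pow_le_pow_right (by norm_num) (by omega)
          have h5 := h2 (2 ^ (i + 4)) (2 ^ (i2 + 4)) k a b a2 b2 ha.1 ha2.1 hD hD2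
          have h5' : Lg k (fun P => EE (2 ^ (i + 4)) b a P * EE (2 ^ (i2 + 4)) b2 a2 (rev P)) ≤ ENNReal.ofReal
            (K2 * (Real.sqrt (TT (kap0 / 8) δ k a b * TT (kap0 / 8) δ k a2 b2) * Real.sqrt (Ub a * Ub a2))) := h5
          refine (mul_le_mul' le_rfl (mul_le_mul' le_rfl h5')).trans ?_
          rw [← ENNReal.ofReal_mul (wJ_pos _ _ _ _ _).le, ← ENNReal.ofReal_mul (wJ_pos _ _ _ _ _).le]
          apply ENNReal.ofReal_le_ofReal
          rw [sqrt_val]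
          unfold YJ
          have hUa := Ub_pos a
          have hUa2 := Ub_pos a2
          have hw := wJ_pos c k i b a
          have hw2 := wJ_pos c k i2 b2 a2
          have p1 := p_pos (kap0 / 16 * ((k - a : ℕ) : ℝ))
          have p2 := p_pos (kap0 / 16 * ((k - a2 : ℕ) : ℝ))
          have p3 := p_pos (-(δ / 2 * ((min a k - b : ℕ) : ℝ)))
          have p4 := p_pos (-(δ / 2 * ((min a2 k - b2 : ℕ) : ℝ)))
          have r1 : (2 : ℝ) ^ (kap0 / 16 * ((k - a : ℕ) : ℝ)) ≤ (2 : ℝ) ^ (kap0 / 8 * ((k - a : ℕ) : ℝ)) := by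
            apply p_mono
            have : (0 : ℝ) ≤ ((k - a : ℕ) : ℝ) := Nat.cast_nonneg _
            nlinarith
          have r2 : (2 : ℝ) ^ (kap0 / 16 * ((k - a2 : ℕ) : ℝ)) ≤ (2 : ℝ) ^ (kap0 / 8 * ((k - a2 : ℕ) : ℝ)) := by
            apply p_mono
            have : (0 : ℝ) ≤ ((k - a2 : ℕ) : ℝ) := Nat.cast_nonneg _
            nlinarith
          calc wJ c k i b a * (wJ c k i2 b2 a2 * (K2 * (Ub a * (Ub a2 / Ub k) *
                ((2 : ℝ) ^ (kap0 / 16 * ((k - a : ℕ) : ℝ)) * (2 : ℝ) ^ (kap0 / 16 * ((k - a2 : ℕ) : ℝ))) *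
                ((2 : ℝ) ^ (-(δ / 2 * ((min a k - b : ℕ) : ℝ))) * (2 : ℝ) ^ (-(δ / 2 * ((min a2 k - b2 : ℕ) : ℝ)))))))
              ≤ wJ c k i b a * (wJ c k i2 b2 a2 * (K2 * (Ub a * (Ub a2 / Ub k) *
                ((2 : ℝ) ^ (kap0 / 8 * ((k - a : ℕ) : ℝ)) * (2 : ℝ) ^ (kap0 / 8 * ((k - a2 : ℕ) : ℝ))) *
                ((2 : ℝ) ^ (-(δ / 2 * ((min a k - b : ℕ) : ℝ))) * (2 : ℝ) ^ (-(δ / 2 * ((min a2 k - b2 : ℕ) : ℝ))))))) := by
                gcongr
            _ = _ := by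
                field_simp
      _ = ENNReal.ofReal (K2 * Ub k * ((∑ i ∈ range (k + 1), ∑ b ∈ range (i + 1), ∑ a ∈ Icc b (i + 1), YJ c δ k i b a) *
            (∑ i ∈ range (k + 1), ∑ b ∈ range (i + 1), ∑ a ∈ Icc b (i + 1), YJ c δ k i b a))) := by
          have hY : ∀ i b a : ℕ, 0 ≤ YJ c δ k i b a := fun i b a => YJ_nonneg _ _ _ _ _ _
          have hKU : 0 ≤ K2 * Ub k := by positivity
          have e2 : K2 * Ub k * ((∑ i ∈ range (k + 1), ∑ b ∈ range (i + 1), ∑ a ∈ Icc b (i + 1), YJ c δ k i b a) *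
            (∑ i ∈ range (k + 1), ∑ b ∈ range (i + 1), ∑ a ∈ Icc b (i + 1), YJ c δ k i b a)) =
              ∑ i ∈ range (k + 1), ∑ b ∈ range (i + 1), ∑ a ∈ Icc b (i + 1),
              ∑ i2 ∈ range (k + 1), ∑ b2 ∈ range (i2 + 1), ∑ a2 ∈ Icc b2 (i2 + 1),
                K2 * Ub k * (YJ c δ k i b a * YJ c δ k i2 b2 a2) := by
            rw [prod3R, sum3_mulR]
            refine Finset.sum_congr rfl fun i _ => Finset.sum_congr rfl fun b _ => Finset.sum_congr rfl fun a _ => ?_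
            rw [sum3_mulR, sum3_mulR]
          rw [e2]
          have hnn : ∀ i b a i2 b2 a2 : ℕ, 0 ≤ K2 * Ub k * (YJ c δ k i b a * YJ c δ k i2 b2 a2) :=
            fun i b a i2 b2 a2 => mul_nonneg hKU (mul_nonneg (hY _ _ _) (hY _ _ _))
          rw [ENNReal.ofReal_sum_of_nonneg fun i _ => Finset.sum_nonneg fun b _ => Finset.sum_nonneg fun a _ =>
            Finset.sum_nonneg fun i2 _ => Finset.sum_nonneg fun b2 _ => Finset.sum_nonneg fun a2 _ => hnn i b a i2 b2 a2]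
          refine Finset.sum_congr rfl fun i _ => ?_
          rw [ENNReal.ofReal_sum_of_nonneg fun b _ => Finset.sum_nonneg fun a _ =>
            Finset.sum_nonneg fun i2 _ => Finset.sum_nonneg fun b2 _ => Finset.sum_nonneg fun a2 _ => hnn i b a i2 b2 a2]
          refine Finset.sum_congr rfl fun b _ => ?_
          rw [ENNReal.ofReal_sum_of_nonneg fun a _ =>
            Finset.sum_nonneg fun i2 _ => Finset.sum_nonneg fun b2 _ => Finset.sum_nonneg fun a2 _ => hnn i b a i2 b2 a2]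
          refine Finset.sum_congr rfl fun a _ => ?_
          rw [ENNReal.ofReal_sum_of_nonneg fun i2 _ => Finset.sum_nonneg fun b2 _ => Finset.sum_nonneg fun a2 _ =>
            hnn i b a i2 b2 a2]
          refine Finset.sum_congr rfl fun i2 _ => ?_
          rw [ENNReal.ofReal_sum_of_nonneg fun b2 _ => Finset.sum_nonneg fun a2 _ => hnn i b a i2 b2 a2]
          refine Finset.sum_congr rfl fun b2 _ => ?_
          rw [ENNReal.ofReal_sum_of_nonneg fun a2 _ => hnn i b a i2 b2 a2]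
      _ ≤ _ := by
          apply ENNReal.ofReal_le_ofReal
          have n0 : 0 ≤ ∑ i ∈ range (k + 1), ∑ b ∈ range (i + 1), ∑ a ∈ Icc b (i + 1), YJ c δ k i b a :=
            Finset.sum_nonneg fun i _ => Finset.sum_nonneg fun b _ => Finset.sum_nonneg fun a _ => YJ_nonneg _ _ _ _ _ _
          have f := h4 k
          have g := mul_le_mul f f n0 (by linarith)
          calc K2 * Ub k * ((∑ i ∈ range (k + 1), ∑ b ∈ range (i + 1), ∑ a ∈ Icc b (i + 1), YJ c δ k i b a) *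
            (∑ i ∈ range (k + 1), ∑ b ∈ range (i + 1), ∑ a ∈ Icc b (i + 1), YJ c δ k i b a)) ≤
              K2 * Ub k * (K4 * K4) := mul_le_mul_of_nonneg_left g (by positivity)
            _ = _ := by ring
  -- the product
  obtain ⟨A, hA⟩ : ∃ A, A = ENNReal.ofReal (A0J c k) := ⟨_, rfl⟩
  have hAle : A ≤ ENNReal.ofReal (Ka * Ub k) := by
    rw [hA]
    exact ENNReal.ofReal_le_ofReal hAk
  have e1 : ∀ P : List Bool, ZJ c k (rev P) * ZJ c k P =
      A * A * 1 + (A * EJ c k (rev P) + (A * EJ c k P + EJ c k (rev P) * EJ c k P)) := by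
    intro P
    rw [ZJ_eq, ZJ_eq, ← hA]
    ring
  have e2 : Lg k (fun P => ZJ c k (rev P) * ZJ c k P) = A * A * Lg k (fun _ => 1) + (A * Lg k (fun P => EJ c k P) +
      (A * Lg k (fun P => EJ c k P) + Lg k (fun P => EJ c k (rev P) * EJ c k P))) := by
    simp only [e1]
    rw [Lg_add, Lg_add, Lg_add, Lg_mul, Lg_mul, Lg_mul, Lg_rev k (fun P => EJ c k P)]
  rw [e2]
  calc A * A * Lg k (fun _ => 1) + (A * Lg k (fun P => EJ c k P) +
      (A * Lg k (fun P => EJ c k P) + Lg k (fun P => EJ c k (rev P) * EJ c k P)))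
      ≤ ENNReal.ofReal (Ka * Ub k) * ENNReal.ofReal (Ka * Ub k) * ENNReal.ofReal (Kg / Ub k) +
        (ENNReal.ofReal (Ka * Ub k) * ENNReal.ofReal (K3 * K4) + (ENNReal.ofReal (Ka * Ub k) * ENNReal.ofReal (K3 * K4) +
          ENNReal.ofReal (K2 * (K4 * K4) * Ub k))) := by gcongr
    _ = _ := by
        rw [← ENNReal.ofReal_mul (by positivity), ← ENNReal.ofReal_mul (by positivity),
          ← ENNReal.ofReal_mul (by positivity), ← ENNReal.ofReal_add (by positivity) (by positivity),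
          ← ENNReal.ofReal_add (by positivity) (by positivity), ← ENNReal.ofReal_add (by positivity) (by positivity)]
        congr 1
        field_simp
        ring

open KJ SDN.TK in
lemma SS_le_ZJ {c : ℝ} (hc : 0 ≤ c) (k : ℕ) (P : List Bool) : SS k P ≤ ZJ c k P := by
  have h1 := SJ_le hc (le_refl k) P
  rw [SJ_self, sub_self, mul_zero, neg_zero, Real.rpow_zero, ENNReal.ofReal_one, one_mul] at h1
  exact h1

open KJ SDN.TK in
/-- **the giants seen from both sides, parts of the blocks up to j on one side: a gain in k - j** -/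
theorem ssJ1 (h : Inp C δ) : ∃ K c : ℝ, 1 ≤ K ∧ 0 < c ∧ ∀ k j : ℕ, j ≤ k →
    Lg k (fun P => SJ k j (rev P) * SS k P) ≤ ENNReal.ofReal (K * (2 : ℝ) ^ (-(c * ((k : ℝ) - j))) * Ub k) := by
  have hk := kap0_pos
  have hδ := h.pos
  obtain ⟨c, hc⟩ : ∃ c, c = min (kap0 / 8) (δ / 4) := ⟨_, rfl⟩
  have hc0 : 0 < c := by
    rw [hc]
    exact lt_min (by linarith) (by linarith)
  obtain ⟨K, hK, hz⟩ := zzJ h hc0.le (by rw [hc]; exact min_le_left _ _) (by rw [hc]; exact min_le_right _ _)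
  refine ⟨K, c, hK, hc0, fun k j hj => ?_⟩
  have hUk := Ub_pos k
  have hg := p_pos (-(c * ((k : ℝ) - j)))
  calc Lg k (fun P => SJ k j (rev P) * SS k P)
      ≤ Lg k (fun P => ENNReal.ofReal ((2 : ℝ) ^ (-(c * ((k : ℝ) - j)))) * (ZJ c k (rev P) * ZJ c k P)) := by
        refine Lg_mono fun P => ?_
        refine (mul_le_mul' (SJ_le hc0.le hj (rev P)) (SS_le_ZJ hc0.le k P)).trans (le_of_eq ?_)
        ring
    _ = ENNReal.ofReal ((2 : ℝ) ^ (-(c * ((k : ℝ) - j)))) * Lg k (fun P => ZJ c k (rev P) * ZJ c k P) := by rw [Lg_mul]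
    _ ≤ ENNReal.ofReal ((2 : ℝ) ^ (-(c * ((k : ℝ) - j)))) * ENNReal.ofReal (K * Ub k) := by
        gcongr
        exact hz k
    _ = _ := by
        rw [← ENNReal.ofReal_mul hg.le]
        congr 1
        ring

open KJ SDN.TK in
/-- **the giants seen from both sides, parts of the blocks up to j: a gain in k - j** -/
theorem ssJ (h : Inp C δ) : ∃ K c : ℝ, 1 ≤ K ∧ 0 < c ∧ ∀ k j : ℕ, j ≤ k →
    Lg k (fun P => SJ k j (rev P) * SJ k j P) ≤ ENNReal.ofReal (K * (2 : ℝ) ^ (-(c * ((k : ℝ) - j))) * Ub k) := by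
  have hk := kap0_pos
  have hδ := h.pos
  obtain ⟨c, hc⟩ : ∃ c, c = min (kap0 / 8) (δ / 4) := ⟨_, rfl⟩
  have hc0 : 0 < c := by
    rw [hc]
    exact lt_min (by linarith) (by linarith)
  obtain ⟨K, hK, hz⟩ := zzJ h hc0.le (by rw [hc]; exact min_le_left _ _) (by rw [hc]; exact min_le_right _ _)
  refine ⟨K, 2 * c, hK, by linarith, fun k j hj => ?_⟩
  have hUk := Ub_pos k
  have hg := p_pos (-(c * ((k : ℝ) - j)))
  calc Lg k (fun P => SJ k j (rev P) * SJ k j P)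
      ≤ Lg k (fun P => ENNReal.ofReal ((2 : ℝ) ^ (-(c * ((k : ℝ) - j)))) * (ENNReal.ofReal ((2 : ℝ) ^ (-(c * ((k : ℝ) - j)))) *
          (ZJ c k (rev P) * ZJ c k P))) := by
        refine Lg_mono fun P => ?_
        refine (mul_le_mul' (SJ_le hc0.le hj (rev P)) (SJ_le hc0.le hj P)).trans (le_of_eq ?_)
        ring
    _ = ENNReal.ofReal ((2 : ℝ) ^ (-(c * ((k : ℝ) - j)))) * (ENNReal.ofReal ((2 : ℝ) ^ (-(c * ((k : ℝ) - j)))) *
          Lg k (fun P => ZJ c k (rev P) * ZJ c k P)) := by rw [Lg_mul, Lg_mul]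
    _ ≤ ENNReal.ofReal ((2 : ℝ) ^ (-(c * ((k : ℝ) - j)))) * (ENNReal.ofReal ((2 : ℝ) ^ (-(c * ((k : ℝ) - j)))) *
          ENNReal.ofReal (K * Ub k)) := by
        gcongr
        exact hz k
    _ = _ := by
        rw [← ENNReal.ofReal_mul hg.le, ← ENNReal.ofReal_mul hg.le]
        congr 1
        have : (2 : ℝ) ^ (-(2 * c * ((k : ℝ) - j))) = (2 : ℝ) ^ (-(c * ((k : ℝ) - j))) * (2 : ℝ) ^ (-(c * ((k : ℝ) - j))) := by
          rw [← Real.rpow_add two_pos]
          congr 1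
          ring
        rw [this]
        ring

end NTW

end HexObs
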