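import Pool.Agent.NTW.Ext
import Pool.Agent.NTW.Cover
import Pool.Agent.NTW.ModuA
import Pool.Agent.NTW.EndsD
import Pool.Agent.NTW.Win

/-!
NTW: the last vertex of a walk is not close to the row of the first one, with an exception of small weight (LowP).
-/

set_option autoImplicit false

namespace HexObs

namespace NTW

open Finset TS SDN

open scoped ENNReal

/-- the statement two_gen -/
def TwoGen : Prop := ∃ K c : ℝ, 1 ≤ K ∧ 0 < c ∧ ∀ (k j E N : ℕ) (A : ℝ) (x y : ℝ≥0∞) (Ψ Φ F : List Bool → ℝ≥0∞),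
  DomJ k x Ψ → Dom k y Φ → 2 ^ (k + 4) ≤ E → E ≤ N → j + 3 ≤ k → 0 ≤ A → (∀ g, F g ≤ Ψ (rev g) * Φ g) →
  (∀ X ∈ BU, ∀ P ∈ IU, ∀ P' ∈ IU, ∀ M ∈ BU, Rec8.sw BU (fun V => F (X ++ (P ++ (V ++ (P' ++ M))))) ≤
    ENNReal.ofReal A * (Ψ (rev (X ++ P)) * Φ (P' ++ M))) →
  Rec8.sw (BrR E N) F ≤ ENNReal.ofReal (K * ((2 : ℝ) ^ (-(c * ((k : ℝ) - j))) * UU N + 2 ^ (k - j) * A)) * (x * y)

/-- the free end o can hang at some leaf of height at least D with the tail t -/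
def Hg (D N lam : ℕ) (t : List Bool) (o : Option (List Bool)) : Prop :=
  ∀ W ∈ o, W ∈ SSt N ∧ RT D LFold t W ∧ t.length + W.length ≤ lam

open Classical in
/-- weight of the pairs of free ends at both sides of the leaf g with a total displacement of at most 3 w -/
noncomputable def TW (D N lam w : ℕ) (g : List Bool) : ℝ≥0∞ :=
  ∑' (o : Option (List Bool)) (o' : Option (List Bool)),
    if Hg D N lam (rev g) o ∧ Hg D N lam g o' ∧ |lvW o - 3 * (hgt g : ℤ) + lvW o'| ≤ 3 * w then wO o * wO o' else 0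

lemma hgt_app' {s t : List Bool} (hs : s ∈ BU) (ht : t ∈ BU) : hgt (s ++ t) = hgt s + hgt t := by
  obtain ⟨n, hn⟩ := hs
  obtain ⟨m, hm⟩ := ht
  rw [hgt_eq hn, hgt_eq hm, hgt_eq (Brd_append hn hm)]

lemma Hg_her {D N lam : ℕ} {s t : List Bool} {o : Option (List Bool)} (hs : s ∈ BU) (h : Hg D N lam (s ++ t) o) :
    Hg D N lam t o := by
  intro W hW
  obtain ⟨h1, h2, h3⟩ := h W hW
  rw [List.length_append] at h3
  exact ⟨h1, RT_her hs h2, by omega⟩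

open Classical in
lemma sum_Hg (D N lam : ℕ) (t : List Bool) :
    ∑' o : Option (List Bool), (if Hg D N lam t o then wO o else 0) = 1 + ENl D N lam t := by
  have h := sum_end (fun W => W ∈ SSt N ∧ RT D LFold t W ∧ t.length + W.length ≤ lam)
  refine Eq.trans (tsum_congr fun o => ?_) h
  by_cases ho : Hg D N lam t o
  · rw [if_pos ho, Set.indicator_of_mem]
    exact ho
  · rw [if_neg ho, Set.indicator_of_notMem]
    exact ho

open Classical in
lemma sum_Hg2 (D N lam : ℕ) (s t : List Bool) (c : ℝ≥0∞) :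
    ∑' (o : Option (List Bool)) (o' : Option (List Bool)), (if Hg D N lam s o ∧ Hg D N lam t o' then wO o * wO o' * c
      else 0) = (1 + ENl D N lam s) * (1 + ENl D N lam t) * c := by
  rw [← sum_Hg, ← sum_Hg, ← ENNReal.tsum_mul_right, ← ENNReal.tsum_mul_right]
  refine tsum_congr fun o => ?_
  rw [← ENNReal.tsum_mul_left, ← ENNReal.tsum_mul_right]
  refine tsum_congr fun o' => ?_
  by_cases h1 : Hg D N lam s o
  · by_cases h2 : Hg D N lam t o'
    · rw [if_pos h1, if_pos h2, if_pos ⟨h1, h2⟩]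
    · rw [if_pos h1, if_neg h2, if_neg (fun h => h2 h.2)]
      ring
  · rw [if_neg h1, if_neg (fun h => h1 h.1)]
    ring

lemma TW_le (D N lam w : ℕ) (g : List Bool) :
    TW D N lam w g ≤ (1 + ENl D N lam (rev g)) * (1 + ENl D N lam g) := by
  classical
  have h := sum_Hg2 D N lam (rev g) g 1
  rw [mul_one] at h
  rw [← h]
  unfold TW
  refine ENNReal.tsum_le_tsum fun o => ENNReal.tsum_le_tsum fun o' => ?_
  split_ifs with h1 h2 h2
  · rw [mul_one]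
  · exact absurd ⟨h1.1, h1.2.1⟩ h2
  · exact zero_le
  · exact le_rfl

lemma sw_BU_hgt (F : ℕ → ℝ≥0∞) : Rec8.sw BU (fun Z => F (hgt Z)) = ∑' v : ℕ, gf (Brd v) * F v := by
  have h2 := sB_BU (fun n _ => F n)
  have h3 : Rec8.sw BU (fun Z => F (hgt Z)) = sB BU (fun X => wE X * (fun n (_ : List Bool) => F n) (hgt X) X) := rfl
  rw [h3, h2]
  refine tsum_congr fun v => ?_
  show Rec8.sw (Brd v) (fun _ => F v) = _
  rw [NX_const]

lemma win_nat {c : ℤ} {v w : ℕ} (h : |c - 3 * (v : ℤ)| ≤ 3 * w) :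
    (c / 3 - w).toNat ≤ v ∧ v < (c / 3 - w).toNat + (2 * w + 1) := by
  rw [abs_le] at h
  omega

lemma TW_V {D N lam w : ℕ} {X P P' M : List Bool} (hX : X ∈ BU) (hP : P ∈ IU) (hP' : P' ∈ IU) (hM : M ∈ BU) :
    Rec8.sw BU (fun V => TW D N lam w (X ++ (P ++ (V ++ (P' ++ M))))) ≤ ENNReal.ofReal (UU (2 * w + 1)) *
      ((1 + ENl D N lam (rev (X ++ P))) * (1 + ENl D N lam (P' ++ M))) := by
  classical
  have hPB : P ∈ BU := by
    obtain ⟨r, hr⟩ := hP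
    exact ⟨r, hr.1⟩
  have hPB' : P' ∈ BU := by
    obtain ⟨r, hr⟩ := hP'
    exact ⟨r, hr.1⟩
  obtain ⟨a, ha⟩ : ∃ a, a = hgt X + (hgt P + (hgt P' + hgt M)) := ⟨_, rfl⟩
  obtain ⟨G, hG⟩ : ∃ G : ℕ → ℝ≥0∞, G = fun v => ∑' (o : Option (List Bool)) (o' : Option (List Bool)),
    if Hg D N lam (rev (X ++ P)) o ∧ Hg D N lam (P' ++ M) o' ∧ |lvW o - 3 * ((a + v : ℕ) : ℤ) + lvW o'| ≤ 3 * w then
      wO o * wO o' else 0 := ⟨_, rfl⟩
  have h1 : Rec8.sw BU (fun V => TW D N lam w (X ++ (P ++ (V ++ (P' ++ M))))) ≤ Rec8.sw BU (fun V => G (hgt V)) := by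
    refine Rec8.sw_mono' fun V hV => ?_
    rw [hG]
    unfold TW
    refine ENNReal.tsum_le_tsum fun o => ENNReal.tsum_le_tsum fun o' => ?_
    have hh : hgt (X ++ (P ++ (V ++ (P' ++ M)))) = a + hgt V := by
      rw [hgt_app' hX (SDN.Ch.BU_app hPB (SDN.Ch.BU_app hV (SDN.Ch.BU_app hPB' hM))), hgt_app' hPB (SDN.Ch.BU_app hV (SDN.Ch.BU_app hPB' hM)),
        hgt_app' hV (SDN.Ch.BU_app hPB' hM), hgt_app' hPB' hM, ha]
      ring
    by_cases h : Hg D N lam (rev (X ++ (P ++ (V ++ (P' ++ M))))) o ∧ Hg D N lam (X ++ (P ++ (V ++ (P' ++ M)))) o' ∧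
        |lvW o - 3 * (hgt (X ++ (P ++ (V ++ (P' ++ M)))) : ℤ) + lvW o'| ≤ 3 * w
    · rw [if_pos h]
      obtain ⟨c1, c2, c3⟩ := h
      rw [if_pos]
      refine ⟨?_, ?_, ?_⟩
      · have e : rev (X ++ (P ++ (V ++ (P' ++ M)))) = rev (V ++ (P' ++ M)) ++ rev (X ++ P) := by
          rw [← List.append_assoc X P, rev_append]
        rw [e] at c1
        refine Hg_her ?_ c1
        obtain ⟨n, hn⟩ := SDN.Ch.BU_app hV (SDN.Ch.BU_app hPB' hM)
        exact ⟨n, Brd_rev hn⟩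
      · have e : X ++ (P ++ (V ++ (P' ++ M))) = (X ++ (P ++ V)) ++ (P' ++ M) := by simp
        rw [e] at c2
        exact Hg_her (SDN.Ch.BU_app hX (SDN.Ch.BU_app hPB hV)) c2
      · rw [hh] at c3
        exact c3
    · rw [if_neg h]
      exact zero_le
  refine h1.trans ?_
  rw [sw_BU_hgt, hG]
  calc ∑' v : ℕ, gf (Brd v) * (∑' (o : Option (List Bool)) (o' : Option (List Bool)),
        if Hg D N lam (rev (X ++ P)) o ∧ Hg D N lam (P' ++ M) o' ∧ |lvW o - 3 * ((a + v : ℕ) : ℤ) + lvW o'| ≤ 3 * w then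
          wO o * wO o' else 0)
      = ∑' v : ℕ, ∑' (o : Option (List Bool)) (o' : Option (List Bool)), gf (Brd v) *
        (if Hg D N lam (rev (X ++ P)) o ∧ Hg D N lam (P' ++ M) o' ∧ |lvW o - 3 * ((a + v : ℕ) : ℤ) + lvW o'| ≤ 3 * w then
          wO o * wO o' else 0) := by
        refine tsum_congr fun v => ?_
        rw [← ENNReal.tsum_mul_left]
        refine tsum_congr fun o => ?_
        rw [← ENNReal.tsum_mul_left]
    _ = ∑' (o : Option (List Bool)) (o' : Option (List Bool)), ∑' v : ℕ, gf (Brd v) *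
        (if Hg D N lam (rev (X ++ P)) o ∧ Hg D N lam (P' ++ M) o' ∧ |lvW o - 3 * ((a + v : ℕ) : ℤ) + lvW o'| ≤ 3 * w then
          wO o * wO o' else 0) := by
        rw [ENNReal.tsum_comm]
        refine tsum_congr fun o => ?_
        rw [ENNReal.tsum_comm]
    _ ≤ ∑' (o : Option (List Bool)) (o' : Option (List Bool)), (if Hg D N lam (rev (X ++ P)) o ∧
        Hg D N lam (P' ++ M) o' then wO o * wO o' * ENNReal.ofReal (UU (2 * w + 1)) else 0) := by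
        refine ENNReal.tsum_le_tsum fun o => ENNReal.tsum_le_tsum fun o' => ?_
        by_cases h : Hg D N lam (rev (X ++ P)) o ∧ Hg D N lam (P' ++ M) o'
        · rw [if_pos h]
          obtain ⟨b, hb⟩ : ∃ b, b = lvW o - 3 * (a : ℤ) + lvW o' := ⟨_, rfl⟩
          have h2 : (∑' v : ℕ, if |b - 3 * (v : ℤ)| ≤ 3 * (w : ℤ) then gf (Brd v) else 0) ≤
              ENNReal.ofReal (UU (2 * w + 1)) := sumwin fun v hv => win_nat hv
          refine le_trans (le_of_eq ?_) (mul_le_mul_right h2 _)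
          rw [← ENNReal.tsum_mul_left]
          refine tsum_congr fun v => ?_
          have e : lvW o - 3 * ((a + v : ℕ) : ℤ) + lvW o' = b - 3 * (v : ℤ) := by
            rw [hb]
            push_cast
            ring
          rw [e]
          by_cases h3 : |b - 3 * (v : ℤ)| ≤ 3 * (w : ℤ)
          · rw [if_pos ⟨h.1, h.2, h3⟩, if_pos h3]
            ring
          · rw [if_neg (fun hc => h3 hc.2.2), if_neg h3]
            ring
        · rw [if_neg h]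
          refine le_of_eq ?_
          rw [ENNReal.tsum_eq_zero]
          intro v
          rw [if_neg (fun hc => h ⟨hc.1, hc.2.1⟩), mul_zero]
    _ = _ := by
        rw [sum_Hg2]
        ring

open Classical in
/-- the sum over the pivot leaf -/
lemma sum_pivot {D N lam w : ℕ} {S : Set (List Bool)} (hS : ∀ g ∈ S, g ∈ HB D ∧ rev g ∈ HB D) :
    ∑' (o : Option (List Bool)) (gs : List (List Bool)) (o' : Option (List Bool)),
      (if gs ≠ [] ∧ gs.IsChain LFold ∧ (∀ g ∈ gs, ∃ k : ℕ, 1 ≤ k ∧ g ∈ Brd k) ∧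
        (∃ g ∈ S, gs = [g] ∧ |lvW o - 3 * (hgt g : ℤ) + lvW o'| ≤ 3 * w) ∧
        (∀ W ∈ o, W ∈ SSt N ∧ LFold (rev (gs.headD [])) W ∧ (gs.headD []).length + W.length ≤ lam) ∧
        (∀ W ∈ o', W ∈ SSt N ∧ LFold (gs.getLastD []) W ∧ (gs.getLastD []).length + W.length ≤ lam)
      then wO o * SDN.wl gs * wO o' else 0) ≤ Rec8.sw S (TW D N lam w) := by
  rw [ENNReal.tsum_comm]
  refine EX.tsum_one S _ _ fun gs => ?_
  by_cases h : ∃ g ∈ S, gs = [g]
  · obtain ⟨g, hg, rfl⟩ := h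
    right
    refine ⟨g, hg, rfl, ?_⟩
    have h4 : SDN.wl [g] = wE g := by
      unfold SDN.wl
      simp
    rw [h4]
    unfold TW
    rw [← ENNReal.tsum_mul_left]
    refine ENNReal.tsum_le_tsum fun o => ?_
    rw [← ENNReal.tsum_mul_left]
    refine ENNReal.tsum_le_tsum fun o' => ?_
    split_ifs with h1 h2 h2
    · exact le_of_eq (by ring)
    · exfalso
      apply h2
      obtain ⟨-, -, -, ⟨g', -, c2, c3⟩, c4, c5⟩ := h1
      have hgg : g = g' := by simpa using c2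
      rw [← hgg] at c3
      refine ⟨fun W hW => ?_, fun W hW => ?_, c3⟩
      · obtain ⟨d1, d2, d3⟩ := c4 W hW
        refine ⟨d1, RT_of (hS g hg).2 d2, ?_⟩
        rw [rev_length]
        exact d3
      · obtain ⟨d1, d2, d3⟩ := c5 W hW
        exact ⟨d1, RT_of (hS g hg).1 d2, d3⟩
    · exact zero_le
    · exact zero_le
  · left
    rw [ENNReal.tsum_eq_zero]
    intro o
    rw [ENNReal.tsum_eq_zero]
    intro o'
    rw [if_neg]
    rintro ⟨-, -, -, ⟨g, h1, h2, -⟩, -⟩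
    exact h ⟨g, h1, h2⟩

open EX in
/-- one dyadic range -/
theorem low_pivot (hR : RepTwo) (hT : TwoGen) (hDm : DmP DmJ) : ∃ K c : ℝ, 1 ≤ K ∧ 0 < c ∧ ∀ i n w lam lam' : ℕ, 6 ≤ i →
    3 ≤ n → n + 5 ≤ i → QL (i - 1) lam' →
    gf {t | t ∈ SAL lam ∧ Rng (3 * 2 ^ (i + 1)) t ∧ ¬ Rng (3 * 2 ^ i) t ∧ |lev t t.length| + 20 ≤ 3 * w} ≤
      ENNReal.ofReal (K * ((2 : ℝ) ^ (-(c * n)) * Ub (i + 2) + 2 ^ n * UU (2 * w + 1))) *
        bl (lam + lam' + 32) (i + 1) ^ 2 := by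
  obtain ⟨Kc, hKc, hC⟩ := cover_gen hR
  obtain ⟨Ke, hKe, hE⟩ := hDm.fin
  obtain ⟨K2, c, hK2, hc, h2⟩ := hT
  refine ⟨Kc * (K2 * (Ke * Ke)), c, one_le_mul_of_one_le_of_one_le hKc (one_le_mul_of_one_le_of_one_le hK2
    (one_le_mul_of_one_le_of_one_le hKe hKe)), hc, fun i n w lam lam' hi hn hni hQ => ?_⟩
  classical
  have e1 : i - 1 + 2 = i + 1 := by omega
  have hp0 : 2 ^ i = 2 * 2 ^ (i - 1) := by
    rw [← pow_succ']
    congr 1
    omega
  have hp1 : 2 ^ (i + 1) = 2 * 2 ^ i := by ring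
  have hp2 : 2 ^ (i + 2) = 4 * 2 ^ i := by ring
  have hp6 : 2 ^ 6 ≤ 2 ^ i := Nat.pow_le_pow_right (by norm_num) hi
  obtain ⟨S, hS⟩ : ∃ S : Set (List Bool), S = BrR (2 ^ (i - 1)) (2 ^ (i + 2)) := ⟨_, rfl⟩
  obtain ⟨Φ, hΦ⟩ : ∃ Φ : List Bool → ℝ≥0∞, Φ = fun t => 1 + ENl (2 ^ (i - 1)) (2 ^ (i + 1)) (lam + 20) t := ⟨_, rfl⟩
  -- the cover
  have h1 := hC {t | t ∈ SAL lam ∧ Rng (3 * 2 ^ (i + 1)) t ∧ ¬ Rng (3 * 2 ^ i) t ∧ |lev t t.length| + 20 ≤ 3 * w}
    (2 ^ (i + 1)) (2 ^ (i + 1)) lam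
    (fun o gs o' => ∃ g ∈ S, gs = [g] ∧ |lvW o - 3 * (hgt g : ℤ) + lvW o'| ≤ 3 * w) ?_
  · refine h1.trans ?_
    have h3 := sum_pivot (D := 2 ^ (i - 1)) (N := 2 ^ (i + 1)) (lam := lam + 20) (w := w) (S := S)
      (fun g hg => Brd_HB le_rfl (by rw [hS] at hg; exact hg))
    refine (mul_le_mul_right h3 _).trans ?_
    have hdom := hE (i - 1) (2 ^ (i + 1)) (lam + 20) lam' (by omega) (by omega) (by rw [e1]) hQ
    rw [← hΦ, e1] at hdom
    have h6 := h2 (i - 1 - 4) (i - 1 - 4 - n) (2 ^ (i - 1)) (2 ^ (i + 2)) (UU (2 * w + 1)) _ _ Φ Φ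
      (TW (2 ^ (i - 1)) (2 ^ (i + 1)) (lam + 20) w) hdom.2 hdom.dom
      (Nat.pow_le_pow_right (by norm_num) (by omega)) (by omega) (by omega) (Num2Aux.UU_pos _).le
      (fun g => by rw [hΦ]; exact TW_le _ _ _ _ _)
      (fun X hX P hP P' hP' M hM => by rw [hΦ]; exact TW_V hX hP hP' hM)
    rw [hS]
    refine (mul_le_mul_right h6 _).trans (le_of_eq ?_)
    have e2 : lam + 20 + lam' + 12 = lam + lam' + 32 := by ring
    have e3 : i - 1 - 4 - (i - 1 - 4 - n) = n := by omega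
    have e4 : (((i - 1 - 4 : ℕ) : ℝ) - ((i - 1 - 4 - n : ℕ) : ℝ)) = n := by
      rw [← Nat.cast_sub (by omega), e3]
    have hU : 0 ≤ UU (2 ^ (i + 2)) := (Num2Aux.UU_pos _).le
    have hU2 : 0 ≤ UU (2 * w + 1) := (Num2Aux.UU_pos _).le
    rw [e2, e3, e4]
    show _ = ENNReal.ofReal (Kc * (K2 * (Ke * Ke)) * ((2 : ℝ) ^ (-(c * n)) * UU (2 ^ (i + 2)) + 2 ^ n * UU (2 * w + 1))) * _
    obtain ⟨R, hR0⟩ : ∃ R, R = (2 : ℝ) ^ (-(c * n)) * UU (2 ^ (i + 2)) + 2 ^ n * UU (2 * w + 1) := ⟨_, rfl⟩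
    have hR1 : 0 ≤ R := by rw [hR0]; positivity
    rw [← hR0, show Kc * (K2 * (Ke * Ke)) * R = Kc * (K2 * R * (Ke * Ke)) by ring,
      ENNReal.ofReal_mul (p := Kc) (by linarith), ENNReal.ofReal_mul (p := K2 * R) (by positivity),
      ENNReal.ofReal_mul (p := Ke) (by linarith)]
    ring
  · rintro t ⟨ht, hr1, hr2, hlev⟩
    refine ⟨ht, ?_⟩
    obtain ⟨i1, i2, hi1, hi2, hr3⟩ : ∃ i1 i2, i1 ≤ t.length ∧ i2 ≤ t.length ∧ 3 * 2 ^ i < lev t i1 - lev t i2 := by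
      unfold Rng at hr2
      push Not at hr2
      obtain ⟨i1, i2, a, b, c⟩ := hr2
      exact ⟨i1, i2, a, b, c⟩
    have hz6 : (2 : ℤ) ^ 6 ≤ 2 ^ i := by exact_mod_cast hp6
    have hzi : (2 : ℤ) ^ i = 2 * 2 ^ (i - 1) := by exact_mod_cast hp0
    have hz1 : (2 : ℤ) ^ (i + 1) = 2 * 2 ^ i := by ring
    have hz2 : (2 : ℤ) ^ (i + 2) = 4 * 2 ^ i := by ring
    obtain ⟨u, e, hF, hb⟩ := pivot_ex ht.1 ⟨i1, i2, hi1, hi2, by omega⟩
    have he1 : e 1 ≤ t.length := hF.le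
    have he0 : e 0 ≤ t.length := ((hF.lt 0 (by omega)).le).trans he1
    -- the height of the pivot
    obtain ⟨Δ, hΔ⟩ : ∃ Δ, Δ = Tight.sg u (lev t (e 1)) - Tight.sg u (lev t (e 0)) := ⟨_, rfl⟩
    have hΔ1 : Δ ≤ 3 * 2 ^ (i + 1) := by
      rw [hΔ, ← sg_sub]
      have h3 := hr1 (e 1) (e 0) he1 he0
      have h4 := hr1 (e 0) (e 1) he0 he1
      unfold Tight.sg
      split_ifs <;> omega
    have hΔ2 : 3 * 2 ^ i < Δ := by
      rw [hΔ]
      have h3 := hb i1 hi1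
      have h4 := hb i2 hi2
      have h5 : lev t i1 - lev t i2 ≤ |Tight.sg u (lev t i1) - Tight.sg u (lev t i2)| := by
        rw [← sg_sub, sg_abs]
        exact le_abs_self _
      rcases abs_cases (Tight.sg u (lev t i1) - Tight.sg u (lev t i2)) with h6 | h6
      · omega
      · omega
    refine ⟨1, u, e, le_rfl, hF, fun a ha => ?_, fun a ha1 ha2 => ?_, fun o gs o' hgs hdis => ?_⟩
    · have h3 := hb a (by omega)
      push_cast
      omega
    · have h3 := hb a ha2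
      show Tight.sg u (lev t (e 1)) - Tight.sg u (lev t a) ≤ _
      push_cast
      omega
    · obtain ⟨g, h, h3, h4, h5⟩ := pivot_hgt hgs
      refine ⟨g, ?_, h3, ?_⟩
      · rw [hS]
        rw [← hΔ, abs_le] at h5
        have h6 : (2 : ℤ) ^ (i - 1) ≤ h := by omega
        have h7 : (h : ℤ) ≤ 2 ^ (i + 2) := by omega
        exact ⟨h, by exact_mod_cast h6, by exact_mod_cast h7, h4⟩
      · have h6 := hdis rfl g (by rw [h3]; simp) h h4
        have h7 := sg_abs u (lev t t.length)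
        rw [hgt_eq h4]
        rw [abs_le] at h6 ⊢
        have h8 := abs_le.1 (le_refl |Tight.sg u (lev t t.length)|)
        rw [h7] at h8
        constructor <;> linarith [h6.1, h6.2, h8.1, h8.2]

open EX in
/-- the last vertex is not close to the row of the first one -/
theorem low_of (hR : RepTwo) (hT : TwoGen) (hDm : DmP DmJ) {θ : ℝ} {l : ℕ → ℕ} (hl : NTm.Seq θ l) (h0 : 0 < θ)
    (h1 : θ ≤ 1 / 2) : LowP l := by
  obtain ⟨K, c, hK, hc, hblk⟩ := low_pivot hR hT hDm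
  obtain ⟨q1, k1, hq1⟩ := seq_add hl h0 (by linarith) 40
  intro J J'
  refine ⟨J' + 2 + q1, fun η hη => ?_⟩
  -- number of blocks
  obtain ⟨M, hM⟩ : ∃ M : ℝ, M = ((J + J' + 1 : ℕ) : ℝ) + 1 := ⟨_, rfl⟩
  have hM0 : 0 < M := by rw [hM]; positivity
  -- the window
  obtain ⟨n, hn3, hn⟩ : ∃ n : ℕ, 3 ≤ n ∧ K * ((2 : ℝ) ^ (-(c * n)) * 2 ^ (J' + 4)) ≤ η / (2 * M) := by
    have hx1 : (2 : ℝ) ^ (-c) < 1 := Real.rpow_lt_one_of_one_lt_of_neg (by norm_num) (by linarith)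
    obtain ⟨n, hn⟩ := exists_pow_lt_of_lt_one (show 0 < η / (2 * M) / (K * 2 ^ (J' + 4)) by positivity) hx1
    refine ⟨n + 3, by omega, ?_⟩
    have e1 : (2 : ℝ) ^ (-(c * ((n + 3 : ℕ) : ℝ))) ≤ ((2 : ℝ) ^ (-c)) ^ n := by
      rw [← Real.rpow_natCast, ← Real.rpow_mul (by norm_num)]
      apply Real.rpow_le_rpow_of_exponent_le (by norm_num)
      push_cast
      nlinarith
    calc K * ((2 : ℝ) ^ (-(c * ((n + 3 : ℕ) : ℝ))) * 2 ^ (J' + 4))
        ≤ K * ((η / (2 * M) / (K * 2 ^ (J' + 4))) * 2 ^ (J' + 4)) := by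
          have := e1.trans hn.le
          gcongr
      _ = η / (2 * M) := by field_simp
  obtain ⟨a, ha⟩ := Ub_small (show 0 < η / (2 * M) / (K * 2 ^ n) by positivity)
  refine ⟨1 / 2 ^ (a + 1), max (J + n + 11 + a + 8) k1, by positivity, fun L hL => ?_⟩
  have hL1 : J + n + 11 + a + 8 ≤ L := le_trans (le_max_left _ _) hL
  have hL2 : k1 ≤ L := le_trans (le_max_right _ _) hL
  obtain ⟨w, hw⟩ : ∃ w : ℕ, w = 2 ^ (L - a - 2) := ⟨_, rfl⟩
  have hU := Ub_pos L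
  have hUw : UU (2 * w + 1) ≤ Ub (L - a) := by
    refine TS.UU_mono ?_
    have e1 : 2 ^ (L - a) = 4 * 2 ^ (L - a - 2) := by
      obtain ⟨b, hb⟩ : ∃ b, L - a = b + 2 := ⟨L - a - 2, by omega⟩
      rw [hb, show b + 2 - 2 = b by omega, pow_add]
      ring
    rw [e1, hw]
    have : 1 ≤ 2 ^ (L - a - 2) := Nat.one_le_two_pow
    omega
  have hwz : (2 : ℤ) ^ (L - a - 1) + 20 ≤ 3 * w := by
    have e1 : (2 : ℤ) ^ (L - a - 1) = 2 * 2 ^ (L - a - 2) := by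
      obtain ⟨b, hb⟩ : ∃ b, L - a = b + 2 := ⟨L - a - 2, by omega⟩
      rw [hb, show b + 2 - 2 = b by omega, show b + 2 - 1 = b + 1 by omega, pow_succ]
      ring
    have e2 : (2 : ℤ) ^ 5 ≤ 2 ^ (L - a - 2) := pow_le_pow_right₀ (by norm_num) (by omega)
    rw [e1, hw]
    push_cast
    linarith
  classical
  have hsub : {t | t ∈ SAL (l L) ∧ (∃ i i', i ≤ t.length ∧ i' ≤ t.length ∧ 3 * 2 ^ (L - J) < lev t i - lev t i') ∧
      (∀ n, n ≤ t.length → |((lev t n : ℤ) : ℝ)| ≤ 2 ^ J' * 2 ^ L) ∧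
      |((lev t t.length : ℤ) : ℝ)| ≤ 1 / 2 ^ (a + 1) * 2 ^ L} ⊆
      ⋃ i ∈ Finset.Ico (L - J) (L + J' + 1), {t | t ∈ SAL (l L) ∧ Rng (3 * 2 ^ (i + 1)) t ∧ ¬ Rng (3 * 2 ^ i) t ∧
        |lev t t.length| + 20 ≤ 3 * w} := by
    rintro t ⟨ht, ⟨i1, i2, hi1, hi2, hr⟩, hbox, hend⟩
    have hR1 : ¬ Rng (3 * 2 ^ (L - J)) t := by
      intro h
      have := h i1 i2 hi1 hi2
      omega
    have hR2 : Rng (3 * 2 ^ (L - J + (J + J' + 1))) t := by
      intro i i' hi hi'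
      have b1 := hbox i hi
      have b2 := hbox i' hi'
      rw [show L - J + (J + J' + 1) = J' + L + 1 by omega]
      have b1' : |lev t i| ≤ 2 ^ J' * 2 ^ L := by exact_mod_cast b1
      have b2' : |lev t i'| ≤ 2 ^ J' * 2 ^ L := by exact_mod_cast b2
      rw [abs_le] at b1' b2'
      have e1 : (2 : ℤ) ^ (J' + L + 1) = 2 * (2 ^ J' * 2 ^ L) := by
        rw [pow_succ, pow_add]
        ring
      have e2 : (0 : ℤ) < 2 ^ J' * 2 ^ L := by positivity
      rw [e1]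
      linarith [b1'.1, b1'.2, b2'.1, b2'.2]
    have hex : ∃ s, Rng (3 * 2 ^ (L - J + s)) t := ⟨_, hR2⟩
    obtain ⟨s, hs1, hs2⟩ : ∃ s, Rng (3 * 2 ^ (L - J + s)) t ∧ ∀ s' < s, ¬ Rng (3 * 2 ^ (L - J + s')) t :=
      ⟨Nat.find hex, Nat.find_spec hex, fun s' hs' => Nat.find_min hex hs'⟩
    have hs0 : s ≠ 0 := by
      rintro rfl
      exact hR1 hs1
    obtain ⟨s', rfl⟩ : ∃ s', s = s' + 1 := ⟨s - 1, by omega⟩
    have hsJ : s' + 1 ≤ J + J' + 1 := by
      by_contra hc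
      exact hs2 (J + J' + 1) (by omega) hR2
    rw [Set.mem_iUnion₂]
    refine ⟨L - J + s', Finset.mem_Ico.2 ⟨by omega, by omega⟩, ht, ?_, hs2 s' (by omega), ?_⟩
    · rw [add_assoc]
      exact hs1
    · have e1 : (1 : ℝ) / 2 ^ (a + 1) * 2 ^ L = 2 ^ (L - a - 1) := by
        rw [one_div, inv_mul_eq_div, div_eq_iff (by positivity), ← pow_add]
        congr 1
        omega
      rw [e1] at hend
      have e2 : |lev t t.length| ≤ 2 ^ (L - a - 1) := by exact_mod_cast hend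
      linarith
  refine (gf_mono hsub).trans ((JumpVaux.gf_biUnion_le _ _).trans ?_)
  have h3 : ∀ i ∈ Finset.Ico (L - J) (L + J' + 1), gf {t | t ∈ SAL (l L) ∧ Rng (3 * 2 ^ (i + 1)) t ∧ ¬ Rng (3 * 2 ^ i) t ∧
      |lev t t.length| + 20 ≤ 3 * w} ≤ ENNReal.ofReal (η / M * Ub L) * BB l L (J' + 2 + q1) := by
    intro i hi
    rw [Finset.mem_Ico] at hi
    refine (hblk i n w (l L) (l (i - 1)) (by omega) hn3 (by omega) (QL_seq hl h1 _)).trans ?_
    have hb : bl (l L + l (i - 1) + 32) (i + 1) ≤ bl (2 * l (L + (J' + 2 + q1))) (L + (J' + 2 + q1)) := by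
      refine (bl_mono _ (show i + 1 ≤ L + (J' + 2 + q1) by omega)).trans (bl_mono_lam ?_ _)
      have g1 := hq1 (L + J') (by omega)
      have g2 : l (i - 1) ≤ l (L + J') := hl.mono (by omega)
      have g3 : l L ≤ l (L + J') := hl.mono (by omega)
      have g4 : l (L + J' + q1) ≤ l (L + (J' + 2 + q1)) := hl.mono (by omega)
      omega
    refine mul_le_mul' (ENNReal.ofReal_le_ofReal ?_) (pow_le_pow_left' hb 2)
    have g5 : Ub (i + 2) ≤ 2 ^ (J' + 4) * Ub L := by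
      refine le_trans (TS.UU_mono (Nat.pow_le_pow_right (by norm_num) (show i + 2 ≤ L + (J' + 4) by omega))) ?_
      exact UU_ratio_up L (J' + 4)
    have g6 : UU (2 * w + 1) ≤ η / (2 * M) / (K * 2 ^ n) * Ub L := hUw.trans (ha L (by omega))
    have hK0 : 0 < K := by linarith
    calc K * ((2 : ℝ) ^ (-(c * n)) * Ub (i + 2) + 2 ^ n * UU (2 * w + 1))
        ≤ K * ((2 : ℝ) ^ (-(c * n)) * (2 ^ (J' + 4) * Ub L) + 2 ^ n * (η / (2 * M) / (K * 2 ^ n) * Ub L)) := by gcongr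
      _ = K * ((2 : ℝ) ^ (-(c * n)) * 2 ^ (J' + 4)) * Ub L + η / (2 * M) * Ub L := by
          field_simp
      _ ≤ η / (2 * M) * Ub L + η / (2 * M) * Ub L := by gcongr
      _ = η / M * Ub L := by
          field_simp
          ring
  refine (Finset.sum_le_sum h3).trans ?_
  rw [Finset.sum_const, Nat.card_Ico, nsmul_eq_mul, ← mul_assoc]
  refine mul_le_mul_left ?_ _
  rw [← ENNReal.ofReal_natCast, ← ENNReal.ofReal_mul (by positivity)]
  apply ENNReal.ofReal_le_ofReal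
  have e1 : ((L + J' + 1 - (L - J) : ℕ) : ℝ) ≤ M := by
    rw [hM]
    have : L + J' + 1 - (L - J) = J + J' + 1 := by omega
    rw [this]
    linarith
  calc ((L + J' + 1 - (L - J) : ℕ) : ℝ) * (η / M * Ub L) ≤ M * (η / M * Ub L) := by gcongr
    _ = η * Ub L := by field_simp

end NTW

end HexObs
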