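import Pool.Agent.NTW.TwoG
import Pool.Agent.NTW.LowA

/-!
NTW: the two sided sum in the form used in LowA.
-/

set_option autoImplicit false

namespace HexObs

namespace NTW

open Finset TS SDN

open scoped ENNReal

variable {C δ : ℝ}

/-- **two sided sum over a leaf, general functional** -/
theorem twoGen (h : Inp C δ) (hA : SsA) : TwoGen := by
  obtain ⟨K, c, hK, hc, hgen⟩ := two_gen_of h hA
  refine ⟨K, c, hK, hc, fun k j E N A x y Ψ Φ F hΨ hΦ hkE hEN hjk hA0 hF hV => ?_⟩
  refine hgen k j E N A x y Ψ Φ F hΨ hΦ hkE hEN (by omega) hA0 (fun g _ => hF g) fun X hX P hP P' hP' M hM => ?_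
  exact (Rec8.sw_mono (fun V hV => hV.1) fun _ _ => le_rfl).trans (hV X hX P hP P' hP' M hM)

end NTW

end HexObs
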