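import Mathlib.Analysis.SpecialFunctions.Pow.Real

/-!
NTW: typical scales. For a monotone function of linear growth all but a small proportion of the points L have a
controlled growth to the right of L, measured from the point L - j6; the constant does not depend on j6.
-/

set_option autoImplicit false

namespace HexObs

namespace NTW

open Finset

/-- points with a fast growth in a window of fixed length on the left -/
theorem Ri_left {h : ℕ → ℝ} (hm : Monotone h) (h0 : 0 ≤ h 0) {a : ℝ} (j x : ℕ) :
    a * ((range x).filter (fun L => a * j < h L - h (L - j))).card ≤ h x := by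
  have hnn : ∀ n, 0 ≤ h n := fun n => h0.trans (hm (Nat.zero_le n))
  rcases Nat.eq_zero_or_pos j with hj | hj
  · subst hj
    have : (range x).filter (fun L => a * ((0 : ℕ) : ℝ) < h L - h (L - 0)) = ∅ := by
      refine filter_eq_empty_iff.2 fun L _ => ?_
      simp
    rw [this]
    simpa using hnn x
  have hsum : ∀ x, ∑ L ∈ range x, (h L - h (L - j)) ≤ ∑ i ∈ range j, h (x - (i + 1)) := by
    intro x
    induction x with
    | zero =>
      simp only [range_zero, sum_empty]
      exact sum_nonneg fun _ _ => hnn _
    | succ x ih =>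
      rw [sum_range_succ]
      have e : ∑ i ∈ range j, h (x + 1 - (i + 1)) = ∑ i ∈ range j, h (x - (i + 1)) + (h x - h (x - j)) := by
        have e1 : ∑ i ∈ range j, (h (x - i) - h (x - (i + 1))) = h (x - 0) - h (x - j) :=
          Finset.sum_range_sub' (fun i => h (x - i)) j
        rw [sum_sub_distrib] at e1
        simp only [Nat.add_sub_add_right]
        simp only [Nat.sub_zero] at e1
        linarith
      rw [e]
      linarith
  have h1 : ∑ L ∈ (range x).filter (fun L => a * j < h L - h (L - j)), (a * j) ≤
      ∑ L ∈ range x, (h L - h (L - j)) := by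
    refine (sum_le_sum (fun L hL => (mem_filter.1 hL).2.le)).trans ?_
    refine sum_le_sum_of_subset_of_nonneg (filter_subset _ _) fun L _ _ => ?_
    have := hm (Nat.sub_le L j)
    linarith
  have h2 : ∑ i ∈ range j, h (x - (i + 1)) ≤ j * h x := by
    refine (sum_le_sum (fun i _ => hm (Nat.sub_le x (i + 1)))).trans ?_
    simp
  have h3 := (h1.trans (hsum x)).trans h2
  rw [sum_const, nsmul_eq_mul] at h3
  have hj' : (0 : ℝ) < j := by exact_mod_cast hj
  have h4 : (j : ℝ) * (a * ((range x).filter (fun L => a * j < h L - h (L - j))).card) ≤ j * h x := by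
    calc (j : ℝ) * (a * ((range x).filter (fun L => a * j < h L - h (L - j))).card) =
          ((range x).filter (fun L => a * j < h L - h (L - j))).card * (a * j) := by ring
      _ ≤ _ := h3
  exact le_of_mul_le_mul_left h4 hj'

open Classical in
/-- rising sun: points with a fast growth in some window on the right -/
theorem Ri_right {h : ℕ → ℝ} (hm : Monotone h) {a : ℝ} (x Y : ℕ) (ha : 0 < a)
    (hY : ∀ L < x, ∀ j : ℕ, a * j < h (L + j) - h L → L + j ≤ Y) :
    ∀ d n : ℕ, n + d = Y →
      a * ((Ico n x).filter (fun L => ∃ j : ℕ, a * j < h (L + j) - h L)).card ≤ h Y - h n := by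
  classical
  intro d
  induction d using Nat.strong_induction_on with
  | _ d ih =>
    intro n hn
    have hnY : h n ≤ h Y := hm (by omega)
    rcases Nat.lt_or_ge n x with hx | hx
    · by_cases hb : ∃ j : ℕ, a * j < h (n + j) - h n
      · obtain ⟨j, hj⟩ := hb
        have hj0 : 0 < j := by
          rcases Nat.eq_zero_or_pos j with h1 | h1
          · subst h1
            simp at hj
          · exact h1
        have hjY := hY n hx j hj
        have hih := ih (Y - (n + j)) (by omega) (n + j) (by omega)
        have hcard : ((Ico n x).filter (fun L => ∃ j : ℕ, a * j < h (L + j) - h L)).card ≤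
            j + ((Ico (n + j) x).filter (fun L => ∃ j : ℕ, a * j < h (L + j) - h L)).card := by
          have hsub : (Ico n x).filter (fun L => ∃ j : ℕ, a * j < h (L + j) - h L) ⊆
              Ico n (n + j) ∪ (Ico (n + j) x).filter (fun L => ∃ j : ℕ, a * j < h (L + j) - h L) := by
            intro L hL
            rw [mem_filter, mem_Ico] at hL
            rw [mem_union, mem_Ico, mem_filter, mem_Ico]
            rcases Nat.lt_or_ge L (n + j) with h1 | h1
            · exact Or.inl ⟨hL.1.1, h1⟩
            · exact Or.inr ⟨⟨h1, hL.1.2⟩, hL.2⟩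
          refine (card_le_card hsub).trans ((card_union_le _ _).trans ?_)
          simp
        have hcard' : (((Ico n x).filter (fun L => ∃ j : ℕ, a * j < h (L + j) - h L)).card : ℝ) ≤
            j + ((Ico (n + j) x).filter (fun L => ∃ j : ℕ, a * j < h (L + j) - h L)).card := by
          exact_mod_cast hcard
        have := mul_le_mul_of_nonneg_left hcard' ha.le
        linarith
      · have hd : 0 < d ∨ d = 0 := by omega
        rcases hd with hd | hd
        · have hih := ih (d - 1) (by omega) (n + 1) (by omega)
          have heq : (Ico n x).filter (fun L => ∃ j : ℕ, a * j < h (L + j) - h L) =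
              (Ico (n + 1) x).filter (fun L => ∃ j : ℕ, a * j < h (L + j) - h L) := by
            ext L
            simp only [mem_filter, mem_Ico]
            constructor
            · rintro ⟨⟨h1, h2⟩, h3⟩
              refine ⟨⟨?_, h2⟩, h3⟩
              rcases Nat.eq_or_lt_of_le h1 with h4 | h4
              · subst h4
                exact absurd h3 hb
              · exact h4
            · rintro ⟨⟨h1, h2⟩, h3⟩
              exact ⟨⟨by omega, h2⟩, h3⟩
          rw [heq]
          have := hm (Nat.le_succ n)
          linarith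
        · -- n = Y : no bad point in [n, x)
          have hempty : (Ico n x).filter (fun L => ∃ j : ℕ, a * j < h (L + j) - h L) = ∅ := by
            refine filter_eq_empty_iff.2 fun L hL => ?_
            rw [mem_Ico] at hL
            rintro ⟨j, hj⟩
            have h1 := hY L hL.2 j hj
            have hj0 : j = 0 := by omega
            subst hj0
            simp at hj
          rw [hempty]
          simp only [card_empty, Nat.cast_zero, mul_zero]
          linarith
    · rw [Ico_eq_empty_of_le hx]
      simp only [filter_empty, card_empty, Nat.cast_zero, mul_zero]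
      linarith

open Classical in
/-- **typical scales**: a does not depend on j6 -/
theorem rise : ∀ (h : ℕ → ℝ) (C : ℝ), Monotone h → 0 ≤ h 0 → (∀ x : ℕ, h x ≤ C * x + C) →
    ∀ e : ℝ, 0 < e → ∃ a : ℝ, 0 < a ∧ ∀ j6 : ℕ, ∃ x0 : ℕ, ∀ x ≥ x0,
      (((Finset.range x).filter
        (fun L => ¬ (∀ j : ℕ, h (L + j) - h (L - j6) ≤ a * ((j : ℝ) + j6)))).card : ℝ) ≤ e * x := by
  classical
  intro h C hm h0 hC e he
  have hnn : ∀ n, 0 ≤ h n := fun n => h0.trans (hm (Nat.zero_le n))
  have hC0 : 0 ≤ C := by
    have := hC 0
    simp only [Nat.cast_zero, mul_zero, zero_add] at this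
    linarith
  refine ⟨2 * C + 6 * C / e + 1, by positivity, fun j6 => ⟨1, fun x hx => ?_⟩⟩
  set a : ℝ := 2 * C + 6 * C / e + 1 with haD
  have ha : 0 < a := by positivity
  have ha2 : 2 * C + 1 ≤ a := by
    have : 0 ≤ 6 * C / e := by positivity
    linarith
  have hae : 6 * C ≤ a * e := by
    have h1 : 6 * C / e ≤ a := by linarith
    calc 6 * C = 6 * C / e * e := by field_simp
      _ ≤ a * e := mul_le_mul_of_nonneg_right h1 he.le
  have hx1 : (1 : ℝ) ≤ x := by exact_mod_cast hx
  have hY : ∀ L < x, ∀ j : ℕ, a * j < h (L + j) - h L → L + j ≤ 2 * x := by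
    intro L hL j hj
    by_contra hcon
    have h1 : x + 1 ≤ j := by omega
    have h2 := hC (L + j)
    have h3 := hnn L
    have h4 : ((L + j : ℕ) : ℝ) = L + j := by push_cast; ring
    rw [h4] at h2
    have h5 : (L : ℝ) + 1 ≤ j := by exact_mod_cast (by omega : L + 1 ≤ j)
    have h6 : (0 : ℝ) < j := by linarith [(Nat.cast_nonneg L : (0 : ℝ) ≤ L)]
    have h7 : C * (L + j) + C ≤ 2 * C * j := by nlinarith
    have h8 : 2 * C * j ≤ a * j := by nlinarith
    linarith
  have hR := Ri_right hm x (2 * x) ha hY (2 * x) 0 (by omega)
  have hL := Ri_left hm h0 (a := a) j6 x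
  have hsub : (range x).filter (fun L => ¬ (∀ j : ℕ, h (L + j) - h (L - j6) ≤ a * ((j : ℝ) + j6))) ⊆
      (range x).filter (fun L => a * j6 < h L - h (L - j6)) ∪
        (Ico 0 x).filter (fun L => ∃ j : ℕ, a * j < h (L + j) - h L) := by
    intro L hL
    rw [mem_filter, mem_range] at hL
    rw [mem_union, mem_filter, mem_filter, mem_range, mem_Ico]
    obtain ⟨hLx, hb⟩ := hL
    push Not at hb
    obtain ⟨j, hj⟩ := hb
    by_cases h1 : a * j6 < h L - h (L - j6)
    · exact Or.inl ⟨hLx, h1⟩
    · refine Or.inr ⟨⟨Nat.zero_le _, hLx⟩, j, ?_⟩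
      push Not at h1
      nlinarith
  have hcard : (((range x).filter (fun L => ¬ (∀ j : ℕ, h (L + j) - h (L - j6) ≤ a * ((j : ℝ) + j6)))).card : ℝ) ≤
      ((range x).filter (fun L => a * j6 < h L - h (L - j6))).card +
        ((Ico 0 x).filter (fun L => ∃ j : ℕ, a * j < h (L + j) - h L)).card := by
    exact_mod_cast (card_le_card hsub).trans (card_union_le _ _)
  have hx2 := hC (2 * x)
  have hx3 := hC x
  push_cast at hx2
  have h9 : a * (((range x).filter (fun L => ¬ (∀ j : ℕ, h (L + j) - h (L - j6) ≤ a * ((j : ℝ) + j6)))).card : ℝ) ≤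
      a * (e * x) := by
    calc a * (((range x).filter (fun L => ¬ (∀ j : ℕ, h (L + j) - h (L - j6) ≤ a * ((j : ℝ) + j6)))).card : ℝ)
        ≤ a * (((range x).filter (fun L => a * j6 < h L - h (L - j6))).card +
        ((Ico 0 x).filter (fun L => ∃ j : ℕ, a * j < h (L + j) - h L)).card) :=
          mul_le_mul_of_nonneg_left hcard ha.le
      _ ≤ h x + (h (2 * x) - h 0) := by
          rw [mul_add]
          exact add_le_add hL hR
      _ ≤ 6 * C * x := by nlinarith
      _ ≤ a * e * x := by nlinarith
      _ = a * (e * x) := by ring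
  exact le_of_mul_le_mul_left h9 ha

end NTW

end HexObs
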