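import Pool.Agent.NTW.GrowL
import Pool.Agent.NTW.Rise
import Pool.Agent.NTW.Close
import Pool.Agent.BAR.ColE
import Pool.Agent.BAR.HCut

/-!
NTW: the typical scales. At all but a small proportion of the scales L the normalised weight of the half plane words at
the scale L + q is at most a constant (depending on q) times the weight of the half plane words without cut levels of
the scale L - s.
-/

set_option autoImplicit false

namespace HexObs

namespace NTW

open Finset TS SDN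

open scoped ENNReal Classical

variable {C δ : ℝ}

/-- lower bound of the mass of the self-avoiding words: two half plane words without cut levels joined by a bridge -/
def LowM1 : Prop := ∃ c : ℝ, 0 < c ∧ ∀ j lam lam' : ℕ, QL j lam' →
  ENNReal.ofReal (c * UU (2 ^ j)) * (gf {W | W ∈ BAR.NA (2 ^ j) ∧ W.length ≤ lam}) ^ 2 ≤
    gf (SAL (2 * lam + lam' + 10))

/-- half plane words: the last cut level -/
def LowM2 : Prop := ∃ K : ℝ, 1 ≤ K ∧ ∀ j lam : ℕ,
  HHl (2 ^ j) lam ≤ ENNReal.ofReal (K * UU (2 ^ j)) * gf {W | W ∈ BAR.NA (2 ^ j) ∧ W.length ≤ lam}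

namespace Sc

lemma HHl_le_HH (N lam : ℕ) : HHl N lam ≤ BAR.HH N := gf_mono fun _ h => h.1

lemma bl_le_poly : ∃ A B : ℝ, 1 ≤ A ∧ 0 ≤ B ∧ ∀ lam L : ℕ, bl lam L ≤ ENNReal.ofReal (A * (2 : ℝ) ^ (B * L)) := by
  obtain ⟨A, B, hA, hB, h⟩ := BAR.HH_poly
  refine ⟨A, B, hA, hB, fun lam L => ?_⟩
  unfold bl
  refine iSup_le fun i => ?_
  have hU : 1 ≤ UU (2 ^ i.1) := by
    have h1 := Num2Aux.UU_mono (Nat.zero_le (2 ^ i.1))
    have h2 : UU 0 = 1 := by
      rw [Num2Aux.UU_eq]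
      simp
    linarith
  have h1 : HHl (2 ^ i.1) lam ≤ ENNReal.ofReal (A * (2 : ℝ) ^ (B * L)) := by
    refine (HHl_le_HH _ _).trans ((h _ Nat.one_le_two_pow).trans (ENNReal.ofReal_le_ofReal ?_))
    have h2 : (((2 ^ i.1 : ℕ) : ℝ)) ^ B ≤ (2 : ℝ) ^ (B * L) := by
      push_cast
      rw [← Real.rpow_natCast, ← Real.rpow_mul (by norm_num)]
      apply Real.rpow_le_rpow_of_exponent_le (by norm_num)
      have h3 : (i.1 : ℝ) ≤ L := by exact_mod_cast (by have := i.2; omega : i.1 ≤ L)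
      nlinarith
    exact mul_le_mul_of_nonneg_left h2 (by linarith)
  calc HHl (2 ^ i.1) lam / ENNReal.ofReal (UU (2 ^ i.1)) ≤ HHl (2 ^ i.1) lam / 1 := by
        apply ENNReal.div_le_div_left
        rw [← ENNReal.ofReal_one]
        exact ENNReal.ofReal_le_ofReal hU
    _ = HHl (2 ^ i.1) lam := div_one _
    _ ≤ _ := h1

lemma bl_ne_top (lam L : ℕ) : bl lam L ≠ ⊤ := by
  obtain ⟨A, B, -, -, h⟩ := bl_le_poly
  exact ne_top_of_le_ne_top ENNReal.ofReal_ne_top (h lam L)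

lemma bl_ne_zero (lam L : ℕ) : bl lam L ≠ 0 := by
  have h1 : HHl (2 ^ 0) lam / ENNReal.ofReal (UU (2 ^ 0)) ≤ bl lam L := le_bl lam (Nat.zero_le L)
  have h2 : (1 : ℝ≥0∞) ≤ HHl (2 ^ 0) lam := by
    unfold HHl
    have h3 : gf {[]} ≤ gf {W | W ∈ SSt (2 ^ 0) ∧ W.length ≤ lam} := by
      refine gf_mono ?_
      intro t ht
      rw [Set.mem_singleton_iff] at ht
      subst ht
      exact ⟨BAR.nil_SSt _, Nat.zero_le _⟩
    refine le_trans ?_ h3
    unfold gf
    rw [tsum_singleton (f := wE)]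
    unfold wE
    simp
  intro h0
  rw [h0, nonpos_iff_eq_zero, ENNReal.div_eq_zero_iff] at h1
  rcases h1 with h1 | h1
  · rw [h1] at h2
    exact absurd h2 (by norm_num)
  · exact ENNReal.ofReal_ne_top h1

lemma Ub_shift (k s : ℕ) : Ub (k + s) ≤ 2 ^ s * Ub k := by
  induction s with
  | zero => simp
  | succ n ih =>
    have := Ub_succ (k + n)
    rw [← add_assoc, pow_succ]
    linarith

/-- the normalised weight at the scale L, with at most l L letters -/
noncomputable def frL (l : ℕ → ℕ) (L : ℕ) : ℝ := (bl (l L) L).toReal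

lemma frL_pos (l : ℕ → ℕ) (L : ℕ) : 0 < frL l L := ENNReal.toReal_pos (bl_ne_zero _ _) (bl_ne_top _ _)

lemma frL_mono {l : ℕ → ℕ} (hl : Monotone l) {i j : ℕ} (h : i ≤ j) : frL l i ≤ frL l j :=
  ENNReal.toReal_mono (bl_ne_top _ _) ((bl_mono _ h).trans (bl_mono_lam (hl h) _))

lemma ofReal_frL (l : ℕ → ℕ) (L : ℕ) : ENNReal.ofReal (frL l L) = bl (l L) L := ENNReal.ofReal_toReal (bl_ne_top _ _)

/-- the scales with a controlled growth to the right -/
lemma rise_frL {l : ℕ → ℕ} (hl : Monotone l) {e : ℝ} (he : 0 < e) : ∃ a : ℝ, 0 < a ∧ ∀ s : ℕ, ∃ x0 : ℕ, ∀ x ≥ x0,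
    (((Finset.range x).filter
      (fun L => ¬ (∀ j : ℕ, frL l (L + j) ≤ (2 : ℝ) ^ (a * ((j : ℝ) + s)) * frL l (L - s)))).card : ℝ) ≤ e * x := by
  obtain ⟨A, B, hA, hB, hp⟩ := bl_le_poly
  obtain ⟨h, hh⟩ : ∃ h : ℕ → ℝ, ∀ L, h L = Real.logb 2 (frL l L) - Real.logb 2 (frL l 0) := ⟨_, fun _ => rfl⟩
  have hm : Monotone h := by
    intro i j hij
    rw [hh, hh]
    have := Real.logb_le_logb_of_le (b := 2) (by norm_num) (frL_pos l i) (frL_mono hl hij)
    linarith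
  have h0 : 0 ≤ h 0 := by rw [hh, sub_self]
  obtain ⟨D, hD⟩ : ∃ D, D = Real.logb 2 A - Real.logb 2 (frL l 0) := ⟨_, rfl⟩
  have hup : ∀ x : ℕ, h x ≤ (B + |D|) * x + (B + |D|) := by
    intro x
    have h1 : frL l x ≤ A * (2 : ℝ) ^ (B * x) := by
      have h2 := hp (l x) x
      rw [← ofReal_frL] at h2
      exact (ENNReal.ofReal_le_ofReal_iff (by positivity)).1 h2
    have h3 := Real.logb_le_logb_of_le (b := 2) (by norm_num) (frL_pos l x) h1
    rw [Real.logb_mul (by positivity) (by positivity), Real.logb_rpow (by norm_num) (by norm_num)] at h3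
    rw [hh]
    have h4 := le_abs_self D
    have h5 := abs_nonneg D
    have h6 : (0 : ℝ) ≤ x := Nat.cast_nonneg x
    nlinarith [mul_nonneg h5 h6]
  obtain ⟨a, ha, hr⟩ := rise h (B + |D|) hm h0 hup e he
  refine ⟨a, ha, fun s => ?_⟩
  obtain ⟨x0, hx0⟩ := hr s
  refine ⟨x0, fun x hx => le_trans ?_ (hx0 x hx)⟩
  have hc : ((Finset.range x).filter
      (fun L => ¬ (∀ j : ℕ, frL l (L + j) ≤ (2 : ℝ) ^ (a * ((j : ℝ) + s)) * frL l (L - s)))).card ≤
      ((Finset.range x).filter (fun L => ¬ (∀ j : ℕ, h (L + j) - h (L - s) ≤ a * ((j : ℝ) + s)))).card := by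
    apply Finset.card_le_card
    intro L hL
    rw [Finset.mem_filter] at hL ⊢
    refine ⟨hL.1, fun hcon => hL.2 fun j => ?_⟩
    have h1 := hcon j
    rw [hh, hh] at h1
    have h2 : Real.logb 2 (frL l (L + j)) ≤ Real.logb 2 ((2 : ℝ) ^ (a * ((j : ℝ) + s)) * frL l (L - s)) := by
      rw [Real.logb_mul (by positivity) (frL_pos _ _).ne', Real.logb_rpow (by norm_num) (by norm_num)]
      linarith
    exact (Real.logb_le_logb (by norm_num) (frL_pos _ _) (mul_pos (by positivity) (frL_pos _ _))).1 h2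
  exact_mod_cast hc

end Sc

open Sc in
/-- typical scales -/
theorem scales_of {l : ℕ → ℕ} (h : Inp C δ) (hl : Monotone l) (hQ : ∀ j, QL j (l j))
    (hg : ∀ A : ℕ, ∃ s k0 : ℕ, ∀ k, k0 ≤ k → A * l k ≤ l (k + s)) (hone : ∀ k, 1 ≤ l k) (h1 : LowM1) (h2 : LowM2)
    {e : ℝ} (he : 0 < e) : ∃ G : Set ℕ,
    (∃ x0 : ℕ, ∀ x : ℕ, x0 ≤ x → (1 - e) * x ≤ (((Finset.range x).filter fun k => k ∈ G).card : ℝ)) ∧
    ∀ q : ℕ, ∃ (K : ℝ) (L0 : ℕ), 0 < K ∧ ∀ L ∈ G, L0 ≤ L →
      ENNReal.ofReal (Ub L) * (bl (2 * l (L + q)) (L + q)) ^ 2 ≤ ENNReal.ofReal K * gf (SAL (l L)) := by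
  obtain ⟨a, ha, hrise⟩ := rise_frL hl he
  obtain ⟨s, k0, hs⟩ := hg 100
  obtain ⟨c, hc, h1⟩ := h1
  obtain ⟨K2, hK2, h2⟩ := h2
  obtain ⟨ε, hε⟩ : ∃ ε : ℝ, ε = ((2 : ℝ) ^ (a * (0 + (s : ℝ))))⁻¹ / 4 := ⟨_, rfl⟩
  have hε0 : 0 < ε := by rw [hε]; positivity
  obtain ⟨C1, hC1, hgr⟩ := growL h ε hε0
  obtain ⟨G, hG⟩ : ∃ G : Set ℕ, G = {L | ∀ j : ℕ, frL l (L + j) ≤ (2 : ℝ) ^ (a * ((j : ℝ) + s)) * frL l (L - s)} := ⟨_, rfl⟩
  have hs' : ∀ k, k0 ≤ k → 5 * l k + 34 ≤ l (k + s) := by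
    intro k hk
    have := hs k hk
    have := hone k
    omega
  refine ⟨G, ?_, fun q => ?_⟩
  · obtain ⟨x0, hx0⟩ := hrise s
    refine ⟨x0, fun x hx => ?_⟩
    have e1 := hx0 x hx
    have e2 : ((Finset.range x).filter fun k => k ∈ G).card + ((Finset.range x).filter fun k => k ∉ G).card = x := by
      rw [Finset.card_filter_add_card_filter_not, Finset.card_range]
    have e3 : (((Finset.range x).filter fun k => k ∉ G).card : ℝ) ≤ e * x := by
      refine le_trans (le_of_eq ?_) e1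
      rw [hG]
      rfl
    have e4 : (((Finset.range x).filter fun k => k ∈ G).card : ℝ) + (((Finset.range x).filter fun k => k ∉ G).card : ℝ) = x := by
      exact_mod_cast e2
    linarith
  obtain ⟨W, hW⟩ : ∃ W : ℝ, W = (2 : ℝ) ^ (a * (((q + s : ℕ) : ℝ) + s)) * (2 * C1 * K2) := ⟨_, rfl⟩
  have hW0 : 0 < W := by
    rw [hW]
    have : 0 < 2 * C1 * K2 := by positivity
    positivity
  refine ⟨2 ^ s * W ^ 2 / c, k0 + s, by positivity, fun L hL hL0 => ?_⟩
  rw [hG] at hL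
  have hL' : ∀ j : ℕ, frL l (L + j) ≤ (2 : ℝ) ^ (a * ((j : ℝ) + s)) * frL l (L - s) := hL
  obtain ⟨L', hLL⟩ : ∃ L', L = L' + s := ⟨L - s, by omega⟩
  have hk0 : k0 ≤ L' := by omega
  have hLs : L - s = L' := by omega
  rw [hLs] at hL'
  obtain ⟨g, hgd⟩ : ∃ g, g = gf {W | W ∈ BAR.NA (2 ^ L') ∧ W.length ≤ 2 * l L' + 12} := ⟨_, rfl⟩
  have hU : 0 < UU (2 ^ L') := Num2Aux.UU_pos _
  -- the value at the scale L'
  have f1 : bl (l L') L' ≤ ENNReal.ofReal (2 * C1 * K2) * g := by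
    have f2 : bl (l L') L' ≤ ENNReal.ofReal C1 * (HHl (2 ^ L') (l L' + l L' + 12) / ENNReal.ofReal (UU (2 ^ L'))) +
        ENNReal.ofReal ε * bl (l L' + l L' + 12) L' := by
      refine iSup_le fun i => ?_
      exact hgr i.1 L' (l L') (l L') (hQ L') (by have := i.2; omega)
    have f3 : bl (l L' + l L' + 12) L' ≤ ENNReal.ofReal ((2 : ℝ) ^ (a * (0 + (s : ℝ)))) * bl (l L') L' := by
      calc bl (l L' + l L' + 12) L' ≤ bl (l L) L := by
            refine (bl_mono _ (by omega : L' ≤ L)).trans (bl_mono_lam ?_ _)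
            have := hs' L' hk0
            rw [hLL]
            omega
        _ = ENNReal.ofReal (frL l (L + 0)) := by rw [ofReal_frL, add_zero]
        _ ≤ ENNReal.ofReal ((2 : ℝ) ^ (a * (((0 : ℕ) : ℝ) + s)) * frL l L') := ENNReal.ofReal_le_ofReal (hL' 0)
        _ = _ := by rw [ENNReal.ofReal_mul (by positivity), ofReal_frL, Nat.cast_zero]
    have f4 : HHl (2 ^ L') (l L' + l L' + 12) / ENNReal.ofReal (UU (2 ^ L')) ≤ ENNReal.ofReal K2 * g := by
      rw [ENNReal.div_le_iff (by simpa using hU) ENNReal.ofReal_ne_top]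
      have f5 := h2 L' (l L' + l L' + 12)
      rw [ENNReal.ofReal_mul (by linarith)] at f5
      have f6 : l L' + l L' + 12 = 2 * l L' + 12 := by ring
      rw [f6] at f5 ⊢
      rw [← hgd] at f5
      refine f5.trans (le_of_eq ?_)
      ring
    have f7 : ENNReal.ofReal ε * bl (l L' + l L' + 12) L' ≤ ENNReal.ofReal (1 / 4) * bl (l L') L' := by
      refine (mul_le_mul_right f3 _).trans (le_of_eq ?_)
      rw [← mul_assoc, ← ENNReal.ofReal_mul hε0.le, hε]
      congr 2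
      have : (0 : ℝ) < (2 : ℝ) ^ (a * (0 + (s : ℝ))) := by positivity
      field_simp
    have f8 := Cl_abs (bl_ne_top (l L') L') (le_refl (1 / 4 : ℝ)) (f2.trans (add_le_add (mul_le_mul_right f4 _) f7))
    refine f8.trans ?_
    rw [← mul_assoc, ← mul_assoc, ← ENNReal.ofReal_mul (by norm_num), ← ENNReal.ofReal_mul (by positivity)]
    refine mul_le_mul_left (ENNReal.ofReal_le_ofReal ?_) _
    have : 0 < C1 * K2 := by positivity
    linarith
  -- the value at the scale L + q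
  have f9 : bl (2 * l (L + q)) (L + q) ≤ ENNReal.ofReal W * g := by
    calc bl (2 * l (L + q)) (L + q) ≤ bl (l (L + (q + s))) (L + (q + s)) := by
          refine (bl_mono _ (by omega : L + q ≤ L + (q + s))).trans (bl_mono_lam ?_ _)
          have := hs' (L + q) (by omega)
          rw [← add_assoc]
          omega
      _ = ENNReal.ofReal (frL l (L + (q + s))) := by rw [ofReal_frL]
      _ ≤ ENNReal.ofReal ((2 : ℝ) ^ (a * (((q + s : ℕ) : ℝ) + s)) * frL l L') := ENNReal.ofReal_le_ofReal (hL' (q + s))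
      _ = ENNReal.ofReal ((2 : ℝ) ^ (a * (((q + s : ℕ) : ℝ) + s))) * bl (l L') L' := by
          rw [ENNReal.ofReal_mul (by positivity), ofReal_frL]
      _ ≤ ENNReal.ofReal ((2 : ℝ) ^ (a * (((q + s : ℕ) : ℝ) + s))) * (ENNReal.ofReal (2 * C1 * K2) * g) :=
          mul_le_mul_right f1 _
      _ = _ := by rw [← mul_assoc, ← ENNReal.ofReal_mul (by positivity), hW]
  have f10 : ENNReal.ofReal (c * UU (2 ^ L')) * g ^ 2 ≤ gf (SAL (l L)) := by
    rw [hgd]
    refine (h1 L' (2 * l L' + 12) (l L') (hQ L')).trans (gf_mono ?_)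
    rintro t ⟨ht, htl⟩
    refine ⟨ht, htl.trans ?_⟩
    have := hs' L' hk0
    rw [hLL]
    omega
  have f11 : Ub L ≤ 2 ^ s * Ub L' := by
    rw [hLL]
    exact Ub_shift L' s
  calc ENNReal.ofReal (Ub L) * (bl (2 * l (L + q)) (L + q)) ^ 2
      ≤ ENNReal.ofReal (2 ^ s * Ub L') * (ENNReal.ofReal W * g) ^ 2 := by gcongr
    _ = ENNReal.ofReal (2 ^ s * W ^ 2 / c) * (ENNReal.ofReal (c * UU (2 ^ L')) * g ^ 2) := by
        rw [mul_pow, ← ENNReal.ofReal_pow hW0.le, ← mul_assoc, ← mul_assoc, ← ENNReal.ofReal_mul (by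
          have := Ub_pos L'
          positivity), ← ENNReal.ofReal_mul (by positivity)]
        congr 2
        have : Ub L' = UU (2 ^ L') := rfl
        rw [this]
        field_simp
    _ ≤ _ := mul_le_mul_right f10 _

end NTW

end HexObs
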