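import Pool.Agent.NTW.HSumL
import Pool.Agent.NTW.Scales
import Pool.Agent.BAR1.Join

/-!
NTW, (S3): lower bound of the mass of the words by two half plane words without cuts and a bridge between them, with a
bound of the number of letters.
-/

set_option autoImplicit false

namespace HexObs

namespace NTW

open Finset ENNReal BAR TS SDN

/-- half plane words without cuts and with at most lam letters -/
noncomputable def NAl (N lam : ℕ) : ℝ≥0∞ := gf {W | W ∈ BAR.NA N ∧ W.length ≤ lam}

namespace LM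

/-- the reversed word D, a step through the foot, the word M on the other side -/
def jj (D : List Bool) (b : Bool) (M : List Bool) : List Bool := rev D ++ (b :: (!b) :: M)

lemma jj_len (D : List Bool) (b : Bool) (M : List Bool) : (jj D b M).length = D.length + 2 + M.length := by
  unfold jj
  rw [List.length_append, rev_length, List.length_cons, List.length_cons]
  omega

/-- the frame of the joined word: the foot of D is the origin -/
def VV (D t : List Bool) (i : ℕ) : Pt := vx (tip oo up D) (-(dx up D D.length)) t i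

lemma VV_frame (D t : List Bool) : ∃ u : Pt, nrm u = 1 ∧ mulE u up = -(dx up D D.length) ∧
    ∀ i, VV D t i = tip oo up D + mulE u (vx oo up t i - oo) := by
  have h0 : dx up D D.length ∈ dirs := dx_mem upd D _
  have h1 : -(dx up D D.length) ∈ dirs := by
    rw [mem_dirs, nrm_neg]
    exact mem_dirs.1 h0
  refine ⟨rotTo up (-(dx up D D.length)), nrm_rotTo upd h1, rotTo_apply _ upd, fun i => ?_⟩
  have h2 := vx_mulE (rotTo up (-(dx up D D.length))) oo (tip oo up D) up t i
  rw [rotTo_apply _ upd] at h2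
  exact h2

lemma VV_low {D : List Bool} {b : Bool} {M : List Bool} {i : ℕ} (hi : i ≤ D.length + 1) :
    VV D (jj D b M) i = vx oo up D (D.length + 1 - i) := by
  unfold VV jj
  rw [vx_append (by rw [rev_length]; exact hi)]
  exact vx_rev oo up D i hi

lemma dir_low {D : List Bool} {b : Bool} {M : List Bool} {i : ℕ} (hi : i ≤ D.length) :
    dx (-(dx up D D.length)) (jj D b M) i = -(dx up D (D.length - i)) := by
  unfold jj
  rw [dx_append (by rw [rev_length]; exact hi)]
  exact dx_rev up D i hi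

lemma tf_mid (D : List Bool) (b : Bool) (M : List Bool) : tf (jj D b M) D.length = b ∧
    tf (jj D b M) (D.length + 1) = !b := by
  unfold jj
  constructor
  · have h := tf_append_right (t := rev D) (s := b :: (!b) :: M) 0
    rw [rev_length] at h
    exact h
  · have h := tf_append_right (t := rev D) (s := b :: (!b) :: M) 1
    rw [rev_length] at h
    exact h

lemma VV_high (D : List Bool) (b : Bool) (M : List Bool) (k : ℕ) :
    VV D (jj D b M) (D.length + 2 + k) = turn b (-up) - vx oo up M k := by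
  have h0 : VV D (jj D b M) (D.length + 1) = oo := by
    rw [VV_low le_rfl, Nat.sub_self]
    rfl
  obtain ⟨t1, t2⟩ := tf_mid D b M
  have d0 : dx (-(dx up D D.length)) (jj D b M) D.length = -up := by
    rw [dir_low le_rfl, Nat.sub_self]
    rfl
  have d1 : dx (-(dx up D D.length)) (jj D b M) (D.length + 1) = turn b (-up) := by
    rw [dx_succ, d0, t1]
  have d2 : dx (-(dx up D D.length)) (jj D b M) (D.length + 2) = -up := by
    rw [dx_succ, d1, t2, turn_turn]
  have v2 : VV D (jj D b M) (D.length + 2) = turn b (-up) := by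
    unfold VV at h0 ⊢
    rw [vx_succ, h0, d1]
    exact zero_add _
  have h3 := lowA_drop (tip oo up D) (-(dx up D D.length)) (jj D b M) (D.length + 2) k
  have h4 : (jj D b M).drop (D.length + 2) = M := by
    unfold jj
    rw [List.drop_append, rev_length]
    have e1 : D.length + 2 - D.length = 2 := by omega
    rw [e1, List.drop_of_length_le (by rw [rev_length]; omega)]
    rfl
  rw [d2, h4] at h3
  unfold VV at v2 ⊢
  rw [h3, v2]
  have h5 := vx_sgn (σ := -1) (Or.inr rfl) (turn b (-up)) M k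
  have e2 : ((-1 : ℤ) • up : Pt) = -up := by simp
  have e3 : ((-1 : ℤ) • vx oo up M k : Pt) = -(vx oo up M k) := by simp
  rw [e2, e3] at h5
  rw [h5, sub_eq_add_neg]

lemma lv_turn (b : Bool) : ip (turn b (-up)) up = -1 := by
  cases b <;> decide

lemma lv_high (D : List Bool) (b : Bool) (M : List Bool) (k : ℕ) :
    ip (VV D (jj D b M) (D.length + 2 + k)) up = -1 - lev M k := by
  rw [VV_high, ip_sub_left, lv_turn]
  rfl

lemma lv_low {D : List Bool} {b : Bool} {M : List Bool} {i : ℕ} (hi : i ≤ D.length + 1) :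
    ip (VV D (jj D b M) i) up = lev D (D.length + 1 - i) := by
  rw [VV_low hi]
  rfl

lemma lev_nonneg {m : ℕ} {M : List Bool} (hM : M ∈ SSt m) {k : ℕ} (hk : k ≤ M.length) : 0 ≤ lev M k := by
  rcases Nat.eq_zero_or_pos k with h | h
  · rw [h, lev_zero]
  · exact (pos_SSt hM k h hk).le

lemma pos_low {n : ℕ} {D : List Bool} {b : Bool} (hD : D ++ [b] ∈ SSt n) {k : ℕ} (h1 : 1 ≤ k)
    (hk : k ≤ D.length + 1) : 0 < lev D k := by
  have h := pos_SSt hD k h1 (by rw [List.length_append, List.length_singleton]; exact hk)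
  rwa [lev_append hk] at h

theorem jj_mem {n m : ℕ} {D M : List Bool} {b : Bool} (hD : D ++ [b] ∈ SSt n) (hM : M ∈ SSt m) : jj D b M ∈ SA := by
  refine ⟨fun i _ _ => Set.mem_univ _, fun i k hik hk heq => ?_⟩
  obtain ⟨u, -, -, hu⟩ := VV_frame D (jj D b M)
  have hV : VV D (jj D b M) i = VV D (jj D b M) k := by rw [hu, hu, heq]
  rw [jj_len] at hk
  rcases Nat.lt_or_ge (D.length + 1) k with h1 | h1
  · obtain ⟨k', rfl⟩ : ∃ k', k = D.length + 2 + k' := ⟨k - (D.length + 2), by omega⟩
    have l1 := lv_high D b M k'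
    have hk' : k' ≤ M.length := by omega
    have l2 := lev_nonneg hM hk'
    rcases Nat.lt_or_ge (D.length + 1) i with h2 | h2
    · obtain ⟨i', rfl⟩ : ∃ i', i = D.length + 2 + i' := ⟨i - (D.length + 2), by omega⟩
      rw [VV_high, VV_high] at hV
      exact hM.inj i' k' (by omega) hk' (sub_right_injective hV)
    · have l3 := lv_low (D := D) (b := b) (M := M) h2
      rw [hV, l1] at l3
      rcases Nat.eq_zero_or_pos (D.length + 1 - i) with h4 | h4
      · rw [h4, lev_zero] at l3
        omega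
      · have := pos_low hD h4 (by omega)
        omega
  · rw [VV_low (by omega), VV_low h1] at hV
    refine hD.inj (D.length + 1 - k) (D.length + 1 - i) (by omega)
      (by rw [List.length_append, List.length_singleton]; omega) ?_
    rw [vx_append (by omega), vx_append (by omega)]
    exact hV.symm

/-- the direction up occurs at even vertices only -/
lemma even_up {D : List Bool} {m : ℕ} (h : dx up D m = up) : (3 : ℤ) ∣ lev D m := by
  have h1 := lev_mod D m
  have h2 := lev_mod D (m + 1)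
  have h3 := lev_succ D m
  rw [h] at h3
  have h4 : ip up up = 2 := by decide
  rw [h4] at h3
  by_cases he : Even m
  · rw [if_pos he, sub_zero] at h1
    exact h1
  · rw [if_neg he] at h1
    have h5 : Even (m + 1) := by
      rw [Nat.even_add_one]
      exact he
    rw [if_pos h5] at h2
    omega

theorem jj_lt {n n' m : ℕ} {D D' M M' : List Bool} {b b' : Bool} (hD : D ++ [b] ∈ SSt n) (hM : M ∈ SSt m)
    (hD' : D' ++ [b'] ∈ NA n') (hd : dx up D D.length = dx up D' D'.length)
    (h : jj D b M = jj D' b' M') (hlt : D.length < D'.length) : False := by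
  obtain ⟨u, hu1, hu2, hu3⟩ := VV_frame D (jj D b M)
  obtain ⟨q, hq⟩ : ∃ q : ℕ, q = D'.length - D.length := ⟨_, rfl⟩
  -- the two frames differ by a translation
  have hfr : ∀ i, VV D' (jj D' b' M') i = VV D (jj D b M) i + (tip oo up D' - tip oo up D) := by
    intro i
    rw [hu3 i, ← h]
    unfold VV
    rw [← hd, ← hu2]
    have h2 := vx_mulE u oo (tip oo up D') up (jj D b M) i
    rw [h2]
    abel
  obtain ⟨ℓ, hℓ⟩ : ∃ ℓ : ℤ, ℓ = ip (tip oo up D' - tip oo up D) up := ⟨_, rfl⟩
  have hlv : ∀ i, ip (VV D' (jj D' b' M') i) up = ip (VV D (jj D b M) i) up + ℓ := by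
    intro i
    rw [hfr i, ip_add_left, hℓ]
  have hlen : (jj D b M).length = (jj D' b' M').length := congrArg List.length h
  rw [jj_len, jj_len] at hlen
  -- levels of D'
  have hk : ∀ k, k ≤ D'.length + 1 → lev D' k = ip (VV D (jj D b M) (D'.length + 1 - k)) up + ℓ := by
    intro k hk
    have h1 := lv_low (D := D') (b := b') (M := M') (i := D'.length + 1 - k) (by omega)
    rw [hlv] at h1
    rw [show D'.length + 1 - (D'.length + 1 - k) = k by omega] at h1
    exact h1.symm
  have hq0 : lev D' q = ℓ := by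
    rw [hk q (by omega), show D'.length + 1 - q = D.length + 1 by omega, lv_low le_rfl, Nat.sub_self, lev_zero]
    ring
  have hbelow : ∀ k, k < q → lev D' k ≤ ℓ - 1 := by
    intro k hkq
    obtain ⟨k', hk'⟩ : ∃ k', D'.length + 1 - k = D.length + 2 + k' := ⟨D'.length + 1 - k - (D.length + 2), by omega⟩
    rw [hk k (by omega), hk', lv_high]
    have := lev_nonneg hM (k := k') (by omega)
    omega
  have habove : ∀ k, q < k → k ≤ D'.length + 1 → ℓ < lev D' k := by
    intro k h1 h2
    rw [hk k h2, lv_low (by omega)]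
    have := pos_low hD (k := D.length + 1 - (D'.length + 1 - k)) (by omega) (by omega)
    omega
  -- the direction
  have hdir : dx up D' q = up := by
    have h1 := dir_low (D := D') (b := b') (M := M') (i := D.length) (by omega)
    rw [← h, ← hd, dir_low le_rfl, Nat.sub_self, show D'.length - D.length = q from hq.symm] at h1
    have h2 : dx up D 0 = up := rfl
    rw [h2, neg_inj] at h1
    exact h1.symm
  have h3 : (3 : ℤ) ∣ ℓ := hq0 ▸ even_up hdir
  have hpos : 0 < ℓ := by
    rw [← hq0]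
    exact pos_low hD'.1 (by omega) (by omega)
  obtain ⟨r, hr⟩ : ∃ r : ℕ, ℓ = 3 * (r : ℤ) := by
    obtain ⟨c, hc⟩ := h3
    exact ⟨c.toNat, by rw [Int.toNat_of_nonneg (by omega)]; exact hc⟩
  have hcl : (D'.take q).length = q := by
    rw [List.length_take]
    omega
  have hsp : D' ++ [b'] = D'.take q ++ (D'.drop q ++ [b']) := by
    rw [← List.append_assoc, List.take_append_drop]
  have hlev : ∀ k, k ≤ q + 1 → lev (D'.take q) k = lev D' k := by
    intro k hk1
    have h1 : lev (D'.take q ++ D'.drop q) k = lev (D'.take q) k := lev_append (by rw [hcl]; exact hk1)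
    rw [List.take_append_drop] at h1
    exact h1.symm
  have hvx : ∀ k, k ≤ q + 1 → vx oo up (D'.take q) k = vx oo up D' k := by
    intro k hk1
    have h1 : vx oo up (D'.take q ++ D'.drop q) k = vx oo up (D'.take q) k := vx_append (by rw [hcl]; exact hk1)
    rw [List.take_append_drop] at h1
    exact h1.symm
  have hdx : dx up (D'.take q) q = up := by
    have h1 : dx up (D'.take q ++ D'.drop q) q = dx up (D'.take q) q := dx_append (by rw [hcl])
    rw [List.take_append_drop] at h1
    rw [← h1, hdir]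
  have hbrd : D'.take q ∈ Brd r := by
    rw [mem_Brd, hcl]
    refine ⟨fun i h1 h2 => ?_, fun i k h1 h2 heq => ?_, hdx, ?_⟩
    · rw [hlev i (by omega)]
      refine ⟨pos_low hD'.1 h1 (by omega), ?_⟩
      rcases Nat.lt_or_ge i q with h4 | h4
      · have := hbelow i h4
        omega
      · have : i = q := by omega
        rw [this, hq0, hr]
    · rw [hvx i (by omega), hvx k (by omega)] at heq
      refine hD'.1.inj i k h1 (by rw [List.length_append, List.length_singleton]; omega) ?_
      rw [vx_append (by omega), vx_append (by omega)]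
      exact heq
    · rw [hlev q (by omega), hq0, hr]
  refine hD'.2 r (by omega) ⟨D'.take q, D'.drop q ++ [b'], hbrd, fun i h1 h2 => ?_, hsp⟩
  have hdl : (D'.drop q ++ [b']).length = D'.length - q + 1 := by
    rw [List.length_append, List.length_drop, List.length_singleton]
  rw [hdl] at h2
  have h4 := lev_cat (s := D'.take q) (t := D'.drop q ++ [b']) (by rw [hcl]; exact hdx) i
  rw [hcl, hlev q (by omega), hq0, ← hsp, lev_append (by omega)] at h4
  have h5 := habove (q + i) (by omega) (by omega)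
  omega

theorem jj_inj {n n' m m' : ℕ} {D D' M M' : List Bool} {b b' : Bool} (hD : D ++ [b] ∈ NA n) (hM : M ∈ SSt m)
    (hD' : D' ++ [b'] ∈ NA n') (hM' : M' ∈ SSt m') (hd : dx up D D.length = dx up D' D'.length)
    (h : jj D b M = jj D' b' M') : D = D' ∧ b = b' ∧ M = M' := by
  rcases lt_trichotomy D.length D'.length with hl | hl | hl
  · exact (jj_lt hD.1 hM hD' hd h hl).elim
  · unfold jj at h
    obtain ⟨h1, h2⟩ := List.append_inj h (by rw [rev_length, rev_length, hl])
    have h3 : rev (rev D) = rev (rev D') := by rw [h1]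
    rw [rev_rev, rev_rev] at h3
    rw [List.cons.injEq, List.cons.injEq] at h2
    exact ⟨h3, h2.1, h2.2.2⟩
  · exact (jj_lt hD'.1 hM' hD hd.symm h.symm hl).elim

/-- nonempty half plane words without cuts, the last edge has the direction δ -/
def NB (n lam : ℕ) (δ : Pt) : Set (List Bool) :=
  {N | ∃ D b, N = D ++ [b] ∧ N ∈ NA n ∧ N.length ≤ lam ∧ dx up D D.length = δ}

def NP (n lam : ℕ) (δ : Pt) : Set (List Bool) :=
  {a | ∃ D b, D ++ [b] ∈ NA n ∧ D.length + 1 ≤ lam ∧ dx up D D.length = δ ∧ a = rev D ++ [b, !b]}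

lemma gf_NB (n lam : ℕ) (δ : Pt) : gf (NB n lam δ) ≤ ENNReal.ofReal (1 / xc) * gf (NP n lam δ) := by
  have hx : 0 < xc := xc_pos
  refine gf_le_of_inj (fun N => rev N.dropLast ++ [N.getLastD false, !(N.getLastD false)]) ?_ ?_ _ ?_
  · rintro N ⟨D, b, rfl, h1, h2, h3⟩
    refine ⟨D, b, h1, ?_, h3, ?_⟩
    · rwa [List.length_append, List.length_singleton] at h2
    · simp
  · rintro N ⟨D, b, rfl, -⟩ N' ⟨D', b', rfl, -⟩ he
    simp only [List.dropLast_concat, List.getLastD_concat] at he
    have hl : (rev D).length = (rev D').length := by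
      have := congrArg List.length he
      simp only [List.length_append, List.length_cons, List.length_nil] at this
      omega
    obtain ⟨h1, h2⟩ := List.append_inj he hl
    have h3 : rev (rev D) = rev (rev D') := by rw [h1]
    rw [rev_rev, rev_rev] at h3
    rw [List.cons.injEq] at h2
    rw [h3, h2.1]
  · rintro N ⟨D, b, rfl, -⟩
    simp only [List.dropLast_concat, List.getLastD_concat]
    unfold wE
    rw [← ENNReal.ofReal_mul (by positivity)]
    apply ENNReal.ofReal_le_ofReal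
    simp only [List.length_append, List.length_cons, List.length_nil, rev_length]
    rw [show D.length + (0 + 1 + 1) = D.length + (0 + 1) + 1 by ring, pow_succ _ (D.length + (0 + 1)),
      div_mul_eq_mul_div, one_mul, mul_div_assoc, div_self hx.ne', mul_one]

lemma NP_mul {n lam lam' : ℕ} {δ : Pt} {MM : Set (List Bool)} (hM : ∀ M ∈ MM, (∃ m, M ∈ SSt m) ∧ M.length ≤ lam') :
    gf (NP n lam δ) * gf MM ≤ gf (SAL (lam + lam' + 1)) := by
  refine mul_le_gf ?_ ?_
  · rintro a ⟨D, b, h1, h2, h3, rfl⟩ M hMM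
    obtain ⟨⟨m, hm⟩, hl⟩ := hM M hMM
    have e : rev D ++ [b, !b] ++ M = jj D b M := by
      unfold jj
      rw [List.append_assoc]
      rfl
    rw [e]
    refine ⟨jj_mem h1.1 hm, ?_⟩
    rw [jj_len]
    omega
  · rintro a ⟨D, b, h1, h2, h3, rfl⟩ M hMM a' ⟨D', b', h1', h2', h3', rfl⟩ M' hMM' he
    obtain ⟨⟨m, hm⟩, hl⟩ := hM M hMM
    obtain ⟨⟨m', hm'⟩, hl'⟩ := hM M' hMM'
    have e : ∀ (D : List Bool) (b : Bool) (M : List Bool), rev D ++ [b, !b] ++ M = jj D b M := by
      intro D b M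
      unfold jj
      rw [List.append_assoc]
      rfl
    rw [e, e] at he
    obtain ⟨e1, e2, -⟩ := jj_inj h1 hm h1' hm' (h3.trans h3'.symm) he
    rw [e1, e2]

/-- nonempty words -/
def NQ (n lam : ℕ) : Set (List Bool) := {N | N ∈ NA n ∧ N.length ≤ lam ∧ N ≠ []}

lemma gf_NQ {n lam lam' : ℕ} {MM : Set (List Bool)} (hM : ∀ M ∈ MM, (∃ m, M ∈ SSt m) ∧ M.length ≤ lam') :
    gf (NQ n lam) * gf MM ≤ ENNReal.ofReal (6 / xc) * gf (SAL (lam + lam' + 1)) := by
  have hx : 0 < xc := xc_pos
  have h1 : NQ n lam ⊆ ⋃ δ ∈ dirs, NB n lam δ := by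
    rintro N ⟨h1, h2, h3⟩
    rw [Set.mem_iUnion₂]
    refine ⟨dx up N.dropLast N.dropLast.length, dx_mem upd _ _, N.dropLast, N.getLast h3, ?_, h1, h2, rfl⟩
    exact (List.dropLast_append_getLast h3).symm
  have h2 : gf (NQ n lam) ≤ ∑ δ ∈ dirs, ENNReal.ofReal (1 / xc) * gf (NP n lam δ) :=
    (gf_mono h1).trans ((gf_bi_le _ _).trans (sum_le_sum fun δ _ => gf_NB n lam δ))
  calc gf (NQ n lam) * gf MM ≤ (∑ δ ∈ dirs, ENNReal.ofReal (1 / xc) * gf (NP n lam δ)) * gf MM :=
        mul_le_mul_left h2 _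
    _ = ∑ δ ∈ dirs, ENNReal.ofReal (1 / xc) * (gf (NP n lam δ) * gf MM) := by
        rw [sum_mul]
        exact sum_congr rfl fun δ _ => mul_assoc _ _ _
    _ ≤ ∑ _δ ∈ dirs, ENNReal.ofReal (1 / xc) * gf (SAL (lam + lam' + 1)) :=
        sum_le_sum fun δ _ => mul_le_mul_right (NP_mul hM) _
    _ = ENNReal.ofReal (6 / xc) * gf (SAL (lam + lam' + 1)) := by
        rw [sum_const, nsmul_eq_mul, ← mul_assoc]
        have hc : dirs.card = 6 := by decide
        rw [hc]
        have e : ((6 : ℕ) : ℝ≥0∞) = ENNReal.ofReal 6 := by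
          rw [show (6 : ℝ) = ((6 : ℕ) : ℝ) by norm_num, ENNReal.ofReal_natCast]
        rw [e, ← ENNReal.ofReal_mul (by norm_num)]
        congr 2
        ring

lemma sing_NA {n : ℕ} (hn : 1 ≤ n) (b : Bool) : [b] ∈ NA n := by
  have h2 : lev [b] 1 = 2 := by
    rw [lev_succ, lev_zero]
    show 0 + ip up up = 2
    decide
  refine ⟨⟨fun i h1 h3 => ?_, fun i k h1 h3 heq => ?_⟩, ?_⟩
  · rw [List.length_singleton] at h3
    have : i = 1 := by omega
    rw [this, mem_St, h2]
    omega
  · rw [List.length_singleton] at h3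
    have e1 : i = 0 := by omega
    have e2 : k = 1 := by omega
    have h4 : lev [b] i = lev [b] k := congrArg (fun p => ip p up) heq
    rw [e1, e2, lev_zero, h2] at h4
    omega
  · rintro j hj ⟨c, s, hc, hs, he⟩
    rcases c with _ | ⟨x, c⟩
    · have := Brd_height hc nil_mem_Brd
      omega
    · rw [List.cons_append, List.cons.injEq] at he
      obtain ⟨h3, h4⟩ := he
      have h5 : c = [] := by
        have := congrArg List.length h4
        rw [List.length_append, List.length_nil] at this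
        exact List.length_eq_zero_iff.1 (by omega)
      rw [h5, ← h3] at hc
      have h6 := (mem_Brd.1 hc).2.2.2
      rw [List.length_singleton, h2] at h6
      omega

lemma NAl_le {n : ℕ} (hn : 1 ≤ n) (lam : ℕ) : NAl n lam ≤ ENNReal.ofReal (1 + 1 / xc) * gf (NQ n (lam + 1)) := by
  have hx : 0 < xc := xc_pos
  have h1 : {W | W ∈ NA n ∧ W.length ≤ lam} ⊆ {[]} ∪ NQ n (lam + 1) := by
    rintro W ⟨h1, h2⟩
    by_cases h : W = []
    · exact Or.inl h
    · exact Or.inr ⟨h1, by omega, h⟩
  have h2 : gf {([] : List Bool)} ≤ ENNReal.ofReal (1 / xc) * gf (NQ n (lam + 1)) := by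
    refine gf_le_of_inj (fun _ => [false]) ?_ ?_ _ ?_
    · rintro t -
      exact ⟨sing_NA hn false, by rw [List.length_singleton]; omega, by simp⟩
    · rintro a ha b hb -
      rw [Set.mem_singleton_iff] at ha hb
      rw [ha, hb]
    · rintro t ht
      rw [Set.mem_singleton_iff] at ht
      rw [ht]
      unfold wE
      rw [← ENNReal.ofReal_mul (by positivity)]
      apply ENNReal.ofReal_le_ofReal
      rw [List.length_nil, List.length_singleton, pow_zero, pow_one]
      apply le_of_eq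
      field_simp
  calc NAl n lam ≤ gf ({[]} ∪ NQ n (lam + 1)) := gf_mono h1
    _ ≤ ENNReal.ofReal (1 / xc) * gf (NQ n (lam + 1)) + gf (NQ n (lam + 1)) :=
        (gf_union_le _ _).trans (add_le_add h2 le_rfl)
    _ = ENNReal.ofReal (1 + 1 / xc) * gf (NQ n (lam + 1)) := by
        rw [add_comm, ENNReal.ofReal_add zero_le_one (by positivity), add_mul, ENNReal.ofReal_one, one_mul]

/-- a short bridge and a short word without cuts -/
def MB (n lam lam' : ℕ) : Set (List Bool) :=
  {M | ∃ h ∈ range (n + 1), ∃ X ∈ BS lam' h, ∃ W, (W ∈ NA n ∧ W.length ≤ lam) ∧ M = X ++ W}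

lemma gf_MB (n lam lam' : ℕ) : (∑ h ∈ range (n + 1), gf (BS lam' h)) * NAl n lam ≤ gf (MB n lam lam') := by
  have h1 : ∀ h, gf (BS lam' h) * NAl n lam ≤ gf {M | ∃ X ∈ BS lam' h, ∃ W, (W ∈ NA n ∧ W.length ≤ lam) ∧ M = X ++ W} := by
    intro h
    refine mul_le_gf (fun a ha b hb => ⟨a, ha, b, hb, rfl⟩) ?_
    intro a ha b hb a' ha' b' hb' he
    obtain ⟨v, hv, h3, h4⟩ := BAR.nested ha.1 ha'.1 (pos_SSt hb.1.1) (pos_SSt hb'.1.1) le_rfl he
    rw [Nat.sub_self] at hv
    have hv0 := brd_zero_nil hv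
    rw [h3, hv0, List.append_nil]
  rw [sum_mul]
  refine (sum_le_sum fun h _ => h1 h).trans ((gf_bi_eq _ _ ?_).trans (gf_mono ?_))
  · have key : ∀ i j w, i ≤ j → w ∈ {M | ∃ X ∈ BS lam' i, ∃ W, (W ∈ NA n ∧ W.length ≤ lam) ∧ M = X ++ W} →
        w ∈ {M | ∃ X ∈ BS lam' j, ∃ W, (W ∈ NA n ∧ W.length ≤ lam) ∧ M = X ++ W} → i = j := by
      rintro i j w hij ⟨c, hc, s, hs, rfl⟩ ⟨c', hc', s', hs', h⟩
      obtain ⟨v, hv, h2, h3⟩ := nested hc.1 hc'.1 (pos_SSt hs.1.1) (pos_SSt hs'.1.1) hij h
      by_contra hne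
      exact hs.1.2 (j - i) (by omega) ⟨v, s', hv, pos_SSt hs'.1.1, h3⟩
    intro i j w hi hj
    rcases Nat.le_total i j with hij | hij
    · exact key i j w hij hi hj
    · exact (key j i w hij hj hi).symm
  · intro w hw
    rw [Set.mem_iUnion₂] at hw
    obtain ⟨i, hi, hw'⟩ := hw
    exact ⟨i, hi, hw'⟩

lemma MB_mem {n lam lam' : ℕ} {M : List Bool} (h : M ∈ MB n lam lam') : (∃ m, M ∈ SSt m) ∧ M.length ≤ lam + lam' := by
  obtain ⟨h, -, X, hX, W, hW, rfl⟩ := h
  refine ⟨⟨_, SSt_cat hX.1 hW.1.1⟩, ?_⟩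
  have := hX.2
  have := hW.2
  rw [List.length_append]
  omega

end LM

/-- lower bound of the mass -/
theorem lowM1 : LowM1 := by
  have hx : 0 < xc := xc_pos
  obtain ⟨K, hK⟩ : ∃ K : ℝ, K = 2 * (1 + 1 / xc) * (6 / xc) := ⟨_, rfl⟩
  have hK0 : 0 < K := by
    rw [hK]
    positivity
  refine ⟨1 / K, by positivity, fun j lam lam' hQ => ?_⟩
  have hn : 1 ≤ 2 ^ j := Nat.one_le_two_pow
  have hUU : 0 ≤ UU (2 ^ j) := (Num2Aux.UU_pos _).le
  have h1 : ENNReal.ofReal (UU (2 ^ j)) ≤ 2 * ∑ h ∈ range (2 ^ j + 1), gf (BS lam' h) :=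
    (hQ j le_rfl).trans (mul_le_mul_right (fronts j lam') _)
  have h2 := LM.gf_MB (2 ^ j) lam lam'
  have h3 := LM.NAl_le hn lam
  have h4 := LM.gf_NQ (n := 2 ^ j) (lam := lam + 1) (lam' := lam + lam') (MM := LM.MB (2 ^ j) lam lam')
    (fun M hM => LM.MB_mem hM)
  have h5 : ENNReal.ofReal (UU (2 ^ j)) * NAl (2 ^ j) lam ^ 2 ≤ ENNReal.ofReal K * gf (SAL (2 * lam + lam' + 10)) := by
    calc ENNReal.ofReal (UU (2 ^ j)) * NAl (2 ^ j) lam ^ 2
        ≤ (2 * ∑ h ∈ range (2 ^ j + 1), gf (BS lam' h)) * (NAl (2 ^ j) lam * NAl (2 ^ j) lam) := by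
          rw [sq]
          exact mul_le_mul_left h1 _
      _ = 2 * NAl (2 ^ j) lam * ((∑ h ∈ range (2 ^ j + 1), gf (BS lam' h)) * NAl (2 ^ j) lam) := by ring
      _ ≤ 2 * (ENNReal.ofReal (1 + 1 / xc) * gf (LM.NQ (2 ^ j) (lam + 1))) * gf (LM.MB (2 ^ j) lam lam') :=
          mul_le_mul' (mul_le_mul_right h3 _) h2
      _ = 2 * ENNReal.ofReal (1 + 1 / xc) * (gf (LM.NQ (2 ^ j) (lam + 1)) * gf (LM.MB (2 ^ j) lam lam')) := by ring
      _ ≤ 2 * ENNReal.ofReal (1 + 1 / xc) * (ENNReal.ofReal (6 / xc) * gf (SAL (lam + 1 + (lam + lam') + 1))) :=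
          mul_le_mul_right h4 _
      _ ≤ 2 * ENNReal.ofReal (1 + 1 / xc) * (ENNReal.ofReal (6 / xc) * gf (SAL (2 * lam + lam' + 10))) := by
          refine mul_le_mul_right (mul_le_mul_right (gf_mono ?_) _) _
          rintro t ⟨ht, hl⟩
          exact ⟨ht, by omega⟩
      _ = ENNReal.ofReal K * gf (SAL (2 * lam + lam' + 10)) := by
          rw [hK, ENNReal.ofReal_mul (by positivity), ENNReal.ofReal_mul (by norm_num)]
          have e : (2 : ℝ≥0∞) = ENNReal.ofReal 2 := by
            rw [show (2 : ℝ) = ((2 : ℕ) : ℝ) by norm_num, ENNReal.ofReal_natCast]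
            norm_num
          rw [e]
          ring
  have h6 : ENNReal.ofReal (1 / K * UU (2 ^ j)) = ENNReal.ofReal (1 / K) * ENNReal.ofReal (UU (2 ^ j)) :=
    ENNReal.ofReal_mul (by positivity)
  have h7 : ENNReal.ofReal (1 / K) * ENNReal.ofReal K = 1 := by
    rw [← ENNReal.ofReal_mul (by positivity), one_div, inv_mul_cancel₀ hK0.ne', ENNReal.ofReal_one]
  calc ENNReal.ofReal (1 / K * UU (2 ^ j)) * (gf {W | W ∈ BAR.NA (2 ^ j) ∧ W.length ≤ lam}) ^ 2
      = ENNReal.ofReal (1 / K) * (ENNReal.ofReal (UU (2 ^ j)) * NAl (2 ^ j) lam ^ 2) := by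
        rw [h6, mul_assoc]
        rfl
    _ ≤ ENNReal.ofReal (1 / K) * (ENNReal.ofReal K * gf (SAL (2 * lam + lam' + 10))) := mul_le_mul_right h5 _
    _ = gf (SAL (2 * lam + lam' + 10)) := by rw [← mul_assoc, h7, one_mul]

/-- the last cut of a half plane word -/
theorem lowM2 : LowM2 := by
  refine ⟨1, le_rfl, fun j lam => ?_⟩
  rw [one_mul]
  have h1 : {W | W ∈ SSt (2 ^ j) ∧ W.length ≤ lam} ⊆
      ⋃ r ∈ range (2 ^ j + 1), {w | ∃ c ∈ Brd r, ∃ s ∈ {W | W ∈ BAR.NA (2 ^ j) ∧ W.length ≤ lam}, w = c ++ s} := by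
    rintro W ⟨hW, hl⟩
    obtain ⟨r, hr, c, hc, s, hs, rfl⟩ := last_cut hW (2 ^ j)
    rw [Set.mem_iUnion₂]
    refine ⟨r, mem_range.2 (by omega), c, hc, s, ⟨⟨hs.1, fun i hi hcut => ?_⟩, ?_⟩, rfl⟩
    · by_cases h : i ≤ 2 ^ j - r
      · exact hs.2 i hi h hcut
      · obtain ⟨c', s', hc', hs', rfl⟩ := hcut
        have h2 := Brd_height_le (Brd_append hc hc') (s := s') (by rwa [List.append_assoc])
        omega
    · rw [List.length_append] at hl
      show s.length ≤ lam
      omega
  refine (gf_mono h1).trans ((gf_bi_le _ _).trans ?_)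
  rw [← sum_BT, sum_mul]
  refine sum_le_sum fun r _ => ?_
  rw [← gf_Brd]
  refine gf_le_mul fun t ht => ?_
  obtain ⟨c, hc, s, hs, h⟩ := ht
  exact ⟨c, hc, s, hs, h⟩

end NTW

end HexObs
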