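import Pool.Agent.NTW.RepDefs
import Pool.Agent.Tight.Leaves
import Pool.Agent.SDN.LeafW
import Pool.Agent.PHW.Rotate

/-!
NTW, two ended representation, part A: leaves and folds without an assumption on the foot of the first leaf.
-/

set_option autoImplicit false

namespace HexObs

namespace NTW

open Finset TS SDN

namespace Rp

/-- levels that do not become negative are positive -/
lemma pos_of_nonneg {W : List Bool} {k : ℕ} (hk : 1 ≤ k) (h : ∀ j, j ≤ k + 1 → 0 ≤ lev W j) : 0 < lev W k := by
  by_contra hcon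
  have h0 : lev W k = 0 := le_antisymm (not_lt.1 hcon) (h k (by omega))
  have hev : Even k := by
    by_contra he
    have hmod := lev_mod W k
    rw [if_neg he, h0] at hmod
    omega
  obtain ⟨l, rfl⟩ : ∃ l, k = l + 1 := ⟨k - 1, by omega⟩
  have hodd : ¬ Even l := by
    intro he
    rw [Nat.even_add_one] at hev
    exact hev he
  have s1 := lev_succ W l
  have s2 := lev_succ W (l + 1)
  have b1 := h l (by omega)
  have b2 := h (l + 1 + 1) le_rfl
  have c1 : dx up W l = -up := by
    rcases step_odd upd W hodd with ⟨h, hip⟩ | ⟨h, hip⟩ | ⟨h, hip⟩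
    · exact h
    · rw [hip, h0] at s1
      omega
    · rw [hip, h0] at s1
      omega
  have c2 : dx up W (l + 1) = up := by
    rcases step_even upd W hev with ⟨h, hip⟩ | ⟨h, hip⟩ | ⟨h, hip⟩
    · exact h
    · rw [hip, h0] at s2
      omega
    · rw [hip, h0] at s2
      omega
  have d3 := dx_succ up W l
  rw [c1, c2] at d3
  revert d3
  cases tf W l <;> decide

/-- the free neighbour of the top, only the vertices from 1 on are used -/
lemma top_free' {T : ℕ} {t : List Bool} {c : Bool} {m : ℕ}
    (hle : ∀ k, 1 ≤ k → k ≤ m + 1 → lev t k ≤ 3 * T)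
    (hinj : ∀ i k, 1 ≤ i → i < k → k ≤ m + 2 → vx oo up t i ≠ vx oo up t k)
    (hlev : lev t (m + 1) = 3 * T) (hd : dx up t (m + 1) = turn c (turn c up)) :
    ∀ j, 1 ≤ j → j ≤ m + 1 → vx oo up t j ≠ vx oo up t (m + 1) + turn c up + turn c (turn c up) := by
  intro j hj0 hj heq
  have hlj : lev t j = 3 * T := by
    have e := congrArg (fun p => ip p up) heq
    simp only [ip_add_left] at e
    have e1 : ip (turn c up) up + ip (turn c (turn c up)) up = 0 := by
      cases c <;> decide
    have e2 : lev t j = lev t (m + 1) + ip (turn c up) up + ip (turn c (turn c up)) up := e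
    rw [e2, hlev]
    linarith
  have hjm : j ≠ m + 1 := by
    rintro rfl
    have : turn c up + turn c (turn c up) = 0 := by
      linear_combination (-1 : Pt) * heq
    revert this
    cases c <;> decide
  have hev : Even j := by
    by_contra he
    have hmod := lev_mod t j
    rw [if_neg he, hlj] at hmod
    omega
  obtain ⟨l, rfl⟩ : ∃ l, j = l + 1 := ⟨j - 1, by omega⟩
  have hodd : ¬ Even l := by
    intro he
    rw [Nat.even_add_one] at hev
    exact hev he
  have hl1 : 1 ≤ l := by
    by_contra hcon
    have : l = 0 := by omega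
    rw [this] at hodd
    exact hodd (by decide)
  have v2 : vx oo up t (m + 2) = vx oo up t (m + 1) + turn c (turn c up) := by
    rw [show m + 2 = m + 1 + 1 from rfl, vx_succ, hd]
  have s1 := lev_succ t l
  have s2 := lev_succ t (l + 1)
  have p1 := vx_succ oo up t l
  have p2 := vx_succ oo up t (l + 1)
  have n1 := hinj l (l + 2) hl1 (by omega) (by omega)
  have n2 := hinj l (m + 2) hl1 (by omega) (by omega)
  have n3 := hinj (l + 2) (m + 2) (by omega) (by omega) (by omega)
  have b1 := hle l hl1 (by omega)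
  have b2 := hle (l + 2) (by omega) (by omega)
  have c1 : dx up t l = rotL up ∨ dx up t l = rotR up := by
    rcases step_odd upd t hodd with ⟨h, hip⟩ | ⟨h, hip⟩ | ⟨h, hip⟩
    · exfalso
      rw [hip, hlj] at s1
      omega
    · exact Or.inl h
    · exact Or.inr h
  have c2 : dx up t (l + 1) = rotL (rotL up) ∨ dx up t (l + 1) = rotR (rotR up) := by
    rcases step_even upd t hev with ⟨h, hip⟩ | ⟨h, hip⟩ | ⟨h, hip⟩
    · exfalso
      rw [hip, hlj] at s2
      have : lev t (l + 2) = lev t (l + 1 + 1) := rfl
      omega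
    · exact Or.inl h
    · exact Or.inr h
  have hLL : rotL (rotL up) = -rotR up := by decide
  have hRR : rotR (rotR up) = -rotL up := by decide
  rw [hLL, hRR] at c2
  rw [v2] at n2 n3
  have e4 : vx oo up t l = vx oo up t (m + 1) + turn c up + turn c (turn c up) - dx up t l := by
    rw [← heq, p1]
    abel
  have e5 : vx oo up t (l + 2) = vx oo up t (m + 1) + turn c up + turn c (turn c up) + dx up t (l + 1) := by
    rw [← heq]
    exact p2
  rcases c1 with c1 | c1 <;> rcases c2 with c2 | c2
  · rw [c1] at e4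
    rw [c2] at e5
    cases c
    · apply n3
      rw [e5]
      show _ + rotR up + _ + -rotR up = _
      abel
    · apply n2
      rw [e4]
      show _ + rotL up + _ - rotL up = _
      abel
  · apply n1
    rw [e4, e5, c1, c2]
    abel
  · apply n1
    rw [e4, e5, c1, c2]
    abel
  · rw [c1] at e4
    rw [c2] at e5
    cases c
    · apply n2
      rw [e4]
      show _ + rotR up + _ - rotR up = _
      abel
    · apply n3
      rw [e5]
      show _ + rotL up + _ + -rotL up = _
      abel

/-- a word and its prefix with another last letter -/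
lemma take_vx {q : List Bool} {m : ℕ} (hm : m ≤ q.length) (x : Bool) {k : ℕ} (hk : k ≤ m + 1) :
    vx oo up (q.take m ++ [x]) k = vx oo up q k := by
  have hal : (q.take m).length = m := by
    rw [List.length_take]
    omega
  have hsplit : q = q.take m ++ q.drop m := (List.take_append_drop m q).symm
  rw [vx_append (by omega)]
  conv_rhs => rw [hsplit]
  rw [vx_append (by omega)]

lemma take_vx' {q : List Bool} {m : ℕ} (hm : m ≤ q.length) {k : ℕ} (hk : k ≤ m + 1) :
    vx oo up (q.take m) k = vx oo up q k := by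
  have hal : (q.take m).length = m := by
    rw [List.length_take]
    omega
  have hsplit : q = q.take m ++ q.drop m := (List.take_append_drop m q).symm
  conv_rhs => rw [hsplit]
  rw [vx_append (by omega)]

lemma take_dx' {q : List Bool} {m : ℕ} (hm : m ≤ q.length) {k : ℕ} (hk : k ≤ m) :
    dx up (q.take m) k = dx up q k := by
  have hal : (q.take m).length = m := by
    rw [List.length_take]
    omega
  have hsplit : q = q.take m ++ q.drop m := (List.take_append_drop m q).symm
  conv_rhs => rw [hsplit]
  rw [dx_append (by omega)]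

/-- the hanging relation at a fold, only the vertices from 1 on are used -/
lemma hang_fold' {q : List Bool} {c : Bool} {m M : ℕ}
    (hle : ∀ k, 1 ≤ k → k ≤ m + 1 → lev q k ≤ 3 * M)
    (hinj : ∀ i k, 1 ≤ i → i < k → k ≤ q.length → vx oo up q i ≠ vx oo up q k) (hm2 : m + 2 ≤ q.length)
    (hlev : lev q (m + 1) = 3 * M) (hd0 : dx up q m = turn c up) (hd : dx up q (m + 1) = turn c (turn c up))
    {r : List Bool} (hr : ∀ k, k ≤ r.length → m + 2 + k ≤ q.length ∧
      vx oo up r k = vx oo up q (m + 2) - vx oo up q (m + 2 + k)) :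
    Hang (q.take m ++ [!c]) (!c) r := by
  have hal : (q.take m).length = m := by
    rw [List.length_take]
    omega
  have hva : ∀ k, k ≤ m + 1 → vx oo up (q.take m ++ [!c]) k = vx oo up q k := fun k hk => take_vx (by omega) _ hk
  have hgl : (q.take m ++ [!c]).length = m + 1 := by
    rw [List.length_append, hal]
    rfl
  have hgd : dx up (q.take m ++ [!c]) (m + 1) = up := by
    have h1 := dx_append_one (d0 := up) (t := q.take m) (b := !c)
    rw [hgl] at h1
    rw [h1, hal, take_dx' (by omega) le_rfl, hd0, turn_turn]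
  have hfree := top_free' (t := q) (c := c) (m := m) hle
    (fun i k h0 h1 h2 => hinj i k h0 h1 (by omega)) hlev hd
  have v2 : vx oo up q (m + 2) = vx oo up q (m + 1) + turn c (turn c up) := by
    rw [show m + 2 = m + 1 + 1 from rfl, vx_succ, hd]
  apply hang_of (by rw [hgl]; exact hgd)
  · intro j hj1 hj2
    rw [hgl] at hj2 ⊢
    rw [hva j hj2, hva _ le_rfl]
    simp only [Bool.not_not]
    exact hfree j hj1 hj2
  · intro j hj1 hj2 k hk
    rw [hgl] at hj2 ⊢
    rw [hva j hj2, hva _ le_rfl]
    simp only [Bool.not_not]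
    obtain ⟨hk1, hk2⟩ := hr k hk
    rw [hk2]
    intro heq
    apply hinj j (m + 2 + k) hj1 (by omega) hk1
    rw [v2] at heq
    linear_combination heq

/-- the top vertex of a leaf behind which the word goes down is even -/
lemma even_top {q : List Bool} {E : ℕ} (hE : 1 ≤ E) (h1 : ∀ j, 1 ≤ j → j ≤ E → 0 < lev q j ∧ lev q j ≤ lev q E)
    (h2 : lev q (E + 1) < lev q E) : Even E := by
  obtain ⟨m, rfl⟩ : ∃ m, E = m + 1 := ⟨E - 1, by omega⟩
  have h0e : 0 < lev q (m + 1) := (h1 (m + 1) (by omega) le_rfl).1
  have hm_le : lev q m ≤ lev q (m + 1) := by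
    rcases Nat.eq_zero_or_pos m with h | h
    · rw [h, lev_zero]
      rw [h] at h0e
      exact h0e.le
    · exact (h1 m h (by omega)).2
  by_contra hodd
  have s1 := lev_succ q (m + 1)
  have hem : Even m := by
    rw [Nat.even_add_one, not_not] at hodd
    exact hodd
  have d2 : dx up q (m + 1) = -up := by
    rcases step_odd upd q hodd with ⟨h, hip⟩ | ⟨h, hip⟩ | ⟨h, hip⟩
    · exact h
    · exfalso
      rw [hip] at s1
      linarith
    · exfalso
      rw [hip] at s1
      linarith
  have s0 := lev_succ q m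
  have d1 : dx up q m = up := by
    rcases step_even upd q hem with ⟨h, hip⟩ | ⟨h, hip⟩ | ⟨h, hip⟩
    · exact h
    · exfalso
      rw [hip] at s0
      linarith
    · exfalso
      rw [hip] at s0
      linarith
  have d3 := dx_succ up q m
  rw [d1, d2] at d3
  revert d3
  cases tf q m <;> decide

/-- a leaf that ends at an even vertex -/
lemma leaf_even {q : List Bool} {E : ℕ} (hE : 1 ≤ E) (hEq : E ≤ q.length)
    (hinj : ∀ i k, 1 ≤ i → i < k → k ≤ E → vx oo up q i ≠ vx oo up q k)
    (h1 : ∀ j, 1 ≤ j → j ≤ E → 0 < lev q j ∧ lev q j ≤ lev q E) (hev : Even E) :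
    ∃ (c : Bool) (M : ℕ), 1 ≤ M ∧ lev q E = 3 * M ∧ dx up q (E - 1) = turn c up ∧ q.take (E - 1) ++ [!c] ∈ Brd M ∧
      (q.take (E - 1) ++ [!c]).length = E ∧ ∀ i, i ≤ E → vx oo up (q.take (E - 1) ++ [!c]) i = vx oo up q i := by
  obtain ⟨m, rfl⟩ : ∃ m, E = m + 1 := ⟨E - 1, by omega⟩
  rw [show m + 1 - 1 = m from rfl]
  have h0e : 0 < lev q (m + 1) := (h1 (m + 1) (by omega) le_rfl).1
  have hm_le : lev q m ≤ lev q (m + 1) := by
    rcases Nat.eq_zero_or_pos m with h | h
    · rw [h, lev_zero]
      rw [h] at h0e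
      exact h0e.le
    · exact (h1 m h (by omega)).2
  have hodd : ¬ Even m := by
    intro h
    rw [Nat.even_add_one] at hev
    exact hev h
  obtain ⟨M, hM⟩ : ∃ M : ℕ, lev q (m + 1) = 3 * M := by
    have := lev_mod q (m + 1)
    rw [if_pos hev, sub_zero] at this
    obtain ⟨z, hz⟩ := this
    refine ⟨z.toNat, ?_⟩
    omega
  have hM1 : 1 ≤ M := by
    by_contra h
    have : M = 0 := by omega
    rw [this] at hM
    simp at hM
    omega
  obtain ⟨c, hc⟩ : ∃ c : Bool, dx up q m = turn c up := by
    rcases step_odd upd q hodd with ⟨hd, hip⟩ | ⟨hd, hip⟩ | ⟨hd, hip⟩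
    · exfalso
      have hs := lev_succ q m
      rw [hip] at hs
      linarith
    · exact ⟨true, hd⟩
    · exact ⟨false, hd⟩
  have hal : (q.take m).length = m := by
    rw [List.length_take]
    omega
  have hgl : (q.take m ++ [!c]).length = m + 1 := by
    rw [List.length_append, hal]
    rfl
  have hvg : ∀ k, k ≤ m + 1 → vx oo up (q.take m ++ [!c]) k = vx oo up q k := fun k hk => take_vx (by omega) _ hk
  have hlg : ∀ k, k ≤ m + 1 → lev (q.take m ++ [!c]) k = lev q k := by
    intro k hk
    unfold lev
    rw [hvg k hk]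
  refine ⟨c, M, hM1, hM, hc, ?_, hgl, hvg⟩
  rw [mem_Brd, hgl]
  refine ⟨?_, ?_, ?_, ?_⟩
  · intro k k1 k2
    rw [hlg k k2, ← hM]
    exact h1 k k1 k2
  · intro k l hkl hl
    rcases Nat.eq_zero_or_pos k with h0 | h0
    · intro heq
      have e1 : lev (q.take m ++ [!c]) k = lev (q.take m ++ [!c]) l := by
        unfold lev
        rw [heq]
      rw [hlg l hl, h0, lev_zero] at e1
      have := (h1 l (by omega) hl).1
      omega
    · rw [hvg k (by omega), hvg l hl]
      exact hinj k l h0 hkl hl
  · have k1 := dx_append_one (d0 := up) (t := q.take m) (b := !c)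
    rw [hgl] at k1
    rw [k1, hal, take_dx' (by omega) le_rfl, hc, turn_turn]
  · rw [hlg _ le_rfl, hM]

/-- a leaf that ends with a step to an odd vertex -/
lemma leaf_odd {q : List Bool} {E : ℕ} (hEq : E ≤ q.length) (h4 : 4 ≤ lev q E)
    (hinj : ∀ i k, 1 ≤ i → i < k → k ≤ E → vx oo up q i ≠ vx oo up q k)
    (h1 : ∀ j, 1 ≤ j → j ≤ E → 0 < lev q j ∧ lev q j ≤ lev q E) (hodd : ¬ Even E) :
    ∃ M : ℕ, 1 ≤ M ∧ lev q E = 3 * M + 2 ∧ 1 ≤ E ∧ q.take (E - 1) ∈ Brd M ∧ (q.take (E - 1)).length = E - 1 := by
  have hE0 : E ≠ 0 := by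
    rintro rfl
    exact hodd (by decide)
  obtain ⟨m, rfl⟩ : ∃ m, E = m + 1 := ⟨E - 1, by omega⟩
  have hl1 : lev q 1 = 2 := by
    have h0 := lev_succ q 0
    rw [lev_zero, zero_add, zero_add] at h0
    rw [h0]
    show ip up up = 2
    decide
  have hev : Even m := by
    rw [Nat.even_add_one, not_not] at hodd
    exact hodd
  have hm1 : 1 ≤ m := by
    by_contra h
    have : m = 0 := by omega
    rw [this] at h4
    rw [zero_add] at h4
    omega
  have s0 := lev_succ q m
  have bm := (h1 m hm1 (by omega)).2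
  have d1 : dx up q m = up ∧ lev q (m + 1) = lev q m + 2 := by
    rcases step_even upd q hev with ⟨h, hip⟩ | ⟨h, hip⟩ | ⟨h, hip⟩
    · exact ⟨h, by rw [s0, hip]⟩
    · exfalso
      rw [hip] at s0
      omega
    · exfalso
      rw [hip] at s0
      omega
  obtain ⟨M, hM⟩ : ∃ M : ℕ, lev q m = 3 * M := by
    have := lev_mod q m
    rw [if_pos hev, sub_zero] at this
    obtain ⟨z, hz⟩ := this
    refine ⟨z.toNat, ?_⟩
    omega
  rw [show m + 1 - 1 = m from rfl]
  have hal : (q.take m).length = m := by
    rw [List.length_take]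
    omega
  have hvg : ∀ k, k ≤ m + 1 → vx oo up (q.take m) k = vx oo up q k := fun k hk => take_vx' (by omega) hk
  have hlg : ∀ k, k ≤ m + 1 → lev (q.take m) k = lev q k := by
    intro k hk
    unfold lev
    rw [hvg k hk]
  have hlow : ∀ k, 1 ≤ k → k ≤ m → lev q k ≤ lev q m := by
    intro k k1 k2
    by_contra hcon
    have b1 := (h1 k k1 (by omega)).2
    have hko : ¬ Even k := by
      intro he
      have hmod := lev_mod q k
      rw [if_pos he] at hmod
      omega
    have hmod := lev_mod q k
    rw [if_neg hko] at hmod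
    have hlk : lev q k = lev q (m + 1) := by omega
    have hkm : k ≠ m := by
      rintro rfl
      exact hko hev
    have s2 := lev_succ q k
    have b2 := (h1 (k + 1) (by omega) (by omega)).2
    have d2 : dx up q k = -up := by
      rcases step_odd upd q hko with ⟨h, hip⟩ | ⟨h, hip⟩ | ⟨h, hip⟩
      · exact h
      · exfalso
        rw [hip] at s2
        omega
      · exfalso
        rw [hip] at s2
        omega
    have hk1 : k ≠ 1 := by
      rintro rfl
      omega
    obtain ⟨l, rfl⟩ : ∃ l, k = l + 1 := ⟨k - 1, by omega⟩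
    have hle : Even l := by
      rw [Nat.even_add_one, not_not] at hko
      exact hko
    have s3 := lev_succ q l
    have b3 := (h1 l (by omega) (by omega)).2
    have d3 : dx up q l = up := by
      rcases step_even upd q hle with ⟨h, hip⟩ | ⟨h, hip⟩ | ⟨h, hip⟩
      · exact h
      · exfalso
        rw [hip] at s3
        omega
      · exfalso
        rw [hip] at s3
        omega
    have d4 := dx_succ up q l
    rw [d2, d3] at d4
    revert d4
    cases tf q l <;> decide
  refine ⟨M, by omega, by omega, by omega, ?_, hal⟩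
  rw [mem_Brd, hal]
  refine ⟨?_, ?_, ?_, ?_⟩
  · intro k k1 k2
    rw [hlg k (by omega), ← hM]
    exact ⟨(h1 k k1 (by omega)).1, hlow k k1 k2⟩
  · intro k l hkl hl
    rcases Nat.eq_zero_or_pos k with h0 | h0
    · intro heq
      have e1 : lev (q.take m) k = lev (q.take m) l := by
        unfold lev
        rw [heq]
      rw [hlg l (by omega), h0, lev_zero] at e1
      have := (h1 l (by omega) (by omega)).1
      omega
    · rw [hvg k (by omega), hvg l (by omega)]
      exact hinj k l h0 hkl (by omega)
  · rw [take_dx' (by omega) le_rfl, d1.1]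
  · rw [hlg _ (by omega), hM]

/-- the letters at a fold -/
lemma fold_letters {q : List Bool} {m M : ℕ} {c : Bool} (hM : lev q (m + 1) = 3 * M)
    (hc : dx up q m = turn c up) (h2 : lev q (m + 2) < lev q (m + 1)) :
    tf q m = c ∧ dx up q (m + 1) = turn c (turn c up) ∧ lev q (m + 2) = 3 * M - 1 ∧
      (lev q (m + 3) < lev q (m + 1) → tf q (m + 1) = c ∧ dx up q (m + 2) = -up) := by
  have hup2 : ip up up = 2 := by decide
  have hdx1 := dx_succ up q m
  rw [hc] at hdx1
  have hb : tf q m = c := by
    by_contra hne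
    have hb' : tf q m = !c := by
      cases h5 : tf q m <;> cases h6 : c <;> rw [h5, h6] at hne <;> simp at hne ⊢
    rw [hb', turn_turn] at hdx1
    have hs := lev_succ q (m + 1)
    rw [hdx1, hup2] at hs
    have : lev q (m + 2) = lev q (m + 1 + 1) := rfl
    linarith
  rw [hb] at hdx1
  have hl2 : lev q (m + 1 + 1) = 3 * M - 1 := by
    have hs := lev_succ q (m + 1)
    rw [hdx1, hM] at hs
    have e : ip (turn c (turn c up)) up = -1 := by
      cases c <;> decide
    rw [e] at hs
    rw [hs]
    ring
  refine ⟨hb, hdx1, hl2, fun h3 => ?_⟩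
  have hb2 : tf q (m + 1) = c := by
    by_contra hne
    have hb' : tf q (m + 1) = !c := by
      cases h5 : tf q (m + 1) <;> cases h6 : c <;> rw [h5, h6] at hne <;> simp at hne ⊢
    have hdx2 := dx_succ up q (m + 1)
    rw [hb', hdx1, turn_turn] at hdx2
    have hs := lev_succ q (m + 1 + 1)
    rw [hdx2, hl2] at hs
    have e : ip (turn c up) up = 1 := by
      cases c <;> decide
    rw [e] at hs
    have e2 : lev q (m + 3) = lev q (m + 1 + 1 + 1) := rfl
    rw [e2, hs, hM] at h3
    omega
  refine ⟨hb2, ?_⟩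
  have h4 := dx_succ up q (m + 1)
  rw [hb2, hdx1] at h4
  rw [show m + 2 = m + 1 + 1 from rfl, h4]
  cases c <;> decide

end Rp

end NTW

end HexObs
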