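import Pool.Agent.NTW.RepA

/-!
NTW, two ended representation, part B: frames of the words of the leaves, definitions.
-/

set_option autoImplicit false

namespace HexObs

namespace NTW

open Finset TS SDN

namespace Rp

/-- a vector in the frame of the piece number k -/
def sgP (k : ℕ) (p : Pt) : Pt := if Even k then -p else p

/-- the vertices of q, from the foot on, are the vertices of t behind the vertex number s, in the frame of the piece number k -/
def Fr (t : List Bool) (k s : ℕ) (q : List Bool) : Prop :=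
  s + q.length = t.length ∧ ∃ P : Pt, ∀ i, 1 ≤ i → i ≤ q.length → vx oo up t (s + i) = P + sgP k (vx oo up q i)

/-- the end of the word: x = last letter, y = type of the end without a free end, o' = the free end -/
def endF (x : Bool) (y : Fin 3) (o' : Option (List Bool)) (w : List Bool) : List Bool :=
  match o' with
  | some W => w.dropLast ++ (!lst w) :: (!lst w) :: (W ++ [x])
  | none => if y = 0 then w.dropLast ++ [x] else if y = 1 then w ++ [x] else w.dropLast ++ [!lst w, x]

lemma ip_sgP (k : ℕ) (p : Pt) : ip (sgP k p) up = Tight.sg k (ip p up) := by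
  unfold sgP Tight.sg
  split_ifs
  · simp only [ip, Prod.fst_neg, Prod.snd_neg]
    ring
  · rfl

lemma sgP_inj {k : ℕ} {p q : Pt} (h : sgP k p = sgP k q) : p = q := by
  unfold sgP at h
  split_ifs at h
  · exact neg_injective h
  · exact h

lemma sgP_add (k : ℕ) (p q : Pt) : sgP k (p + q) = sgP k p + sgP k q := by
  unfold sgP
  split_ifs
  · abel
  · rfl

lemma sgP_neg (k : ℕ) (p : Pt) : sgP k (-p) = -sgP k p := by
  unfold sgP
  split_ifs
  · rfl
  · rfl

lemma sgP_sub (k : ℕ) (p q : Pt) : sgP k (p - q) = sgP k p - sgP k q := by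
  rw [sub_eq_add_neg, sub_eq_add_neg, sgP_add, sgP_neg]

lemma sgP_succ (k : ℕ) (p : Pt) : sgP (k + 1) p = -sgP k p := by
  unfold sgP
  by_cases h : Even k
  · rw [if_neg (by rw [Nat.even_add_one]; simpa using h), if_pos h, neg_neg]
  · rw [if_pos (Nat.even_add_one.2 h), if_neg h]

lemma sg_add (k : ℕ) (x y : ℤ) : Tight.sg k (x + y) = Tight.sg k x + Tight.sg k y := by
  unfold Tight.sg
  split_ifs
  · ring
  · rfl

lemma sg_sub (k : ℕ) (x y : ℤ) : Tight.sg k (x - y) = Tight.sg k x - Tight.sg k y := by
  unfold Tight.sg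
  split_ifs
  · ring
  · rfl

lemma sg_succ (k : ℕ) (x : ℤ) : Tight.sg (k + 1) x = -Tight.sg k x := by
  unfold Tight.sg
  by_cases h : Even k
  · rw [if_neg (by rw [Nat.even_add_one]; simpa using h), if_pos h, neg_neg]
  · rw [if_pos (Nat.even_add_one.2 h), if_neg h]

/-- the direction of the piece number k -/
lemma dD_sgP (k : ℕ) : dD false k = sgP k up := rfl

lemma xD_false (k : ℕ) (t : List Bool) (i : ℕ) : xD (dD false k) t i = Tight.sg k (lev t i) := xD_dD false k t i

lemma lev_one (q : List Bool) : lev q 1 = 2 := by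
  have h0 := lev_succ q 0
  rw [lev_zero, zero_add, zero_add] at h0
  rw [h0]
  show ip up up = 2
  decide

lemma Fr.lev {t : List Bool} {k s : ℕ} {q : List Bool} (h : Fr t k s q) {i : ℕ} (h1 : 1 ≤ i) (h2 : i ≤ q.length) :
    HexObs.lev q i = Tight.sg k (HexObs.lev t (s + i)) - Tight.sg k (HexObs.lev t (s + 1)) + 2 := by
  obtain ⟨-, P, hP⟩ := h
  have e1 := congrArg (fun p => ip p up) (hP i h1 h2)
  have e2 := congrArg (fun p => ip p up) (hP 1 le_rfl (by omega))
  simp only [ip_add_left, ip_sgP] at e1 e2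
  have f1 : HexObs.lev t (s + i) = ip P up + Tight.sg k (HexObs.lev q i) := e1
  have f2 : HexObs.lev t (s + 1) = ip P up + Tight.sg k (HexObs.lev q 1) := e2
  rw [f1, f2, lev_one]
  unfold Tight.sg
  split_ifs
  · ring
  · ring

lemma Fr.inj {t : List Bool} {k s : ℕ} {q : List Bool} (ht : t ∈ SA) (h : Fr t k s q) :
    ∀ i j, 1 ≤ i → i < j → j ≤ q.length → vx oo up q i ≠ vx oo up q j := by
  intro i j h1 h2 h3 heq
  obtain ⟨hl, P, hP⟩ := h
  refine ht.inj (s + i) (s + j) (by omega) (by omega) ?_
  rw [hP i h1 (by omega), hP j (by omega) h3, heq]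

end Rp

end NTW

end HexObs
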