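import Pool.Agent.NTW.RepB

/-!
NTW, two ended representation, part M: the interior leaves.
-/

set_option autoImplicit false

namespace HexObs

namespace NTW

open Finset TS SDN

namespace Rp

lemma drop_tf {q : List Bool} {m : ℕ} (hm : m < q.length) : q.drop m = tf q m :: q.drop (m + 1) := by
  rw [List.drop_eq_getElem_cons hm]
  congr 1
  unfold tf
  rw [List.getD_eq_getElem _ _ hm]

lemma split2 {q : List Bool} {m : ℕ} (hm : m + 2 ≤ q.length) :
    q = q.take m ++ tf q m :: tf q (m + 1) :: q.drop (m + 2) := by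
  conv_lhs => rw [← List.take_append_drop m q, drop_tf (q := q) (m := m) (by omega), drop_tf (q := q) (m := m + 1) (by omega)]

/-- the word behind a step down -/
lemma down_vx {q : List Bool} {e : ℕ} (h : dx up q e = -up) (j : ℕ) :
    vx oo up (q.drop e) j = vx oo up q e - vx oo up q (e + j) := by
  rw [vx_drop, h, vx_turned]
  abel

/-- one leaf behind which the walk goes down by at least two levels, the vertices from 1 on are used -/
lemma mid_q {q : List Bool} {E : ℕ} (hE : 1 ≤ E) (hE2 : E + 2 ≤ q.length)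
    (hinj : ∀ i k, 1 ≤ i → i < k → k ≤ q.length → vx oo up q i ≠ vx oo up q k)
    (h1 : ∀ j, 1 ≤ j → j ≤ E → 0 < lev q j ∧ lev q j ≤ lev q E)
    (h2 : lev q (E + 1) < lev q E) (h3 : lev q (E + 2) < lev q E) :
    ∃ (c : Bool) (M : ℕ), 1 ≤ M ∧ lev q E = 3 * M ∧ tf q (E - 1) = c ∧ q.take (E - 1) ++ [!c] ∈ Brd M ∧
      (q.take (E - 1) ++ [!c]).length = E ∧ (∀ i, i ≤ E → vx oo up (q.take (E - 1) ++ [!c]) i = vx oo up q i) ∧
      q = q.take (E - 1) ++ c :: c :: q.drop (E + 1) ∧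
      (∀ j, vx oo up (q.drop (E + 1)) j = vx oo up q (E + 1) - vx oo up q (E + 1 + j)) ∧ lev q (E + 1) = 3 * M - 1 ∧
      ∀ r : List Bool, (∀ k, k ≤ r.length → E + 1 + k ≤ q.length ∧ vx oo up r k = vx oo up (q.drop (E + 1)) k) →
        LFold (q.take (E - 1) ++ [!c]) r := by
  have hev : Even E := even_top hE h1 h2
  obtain ⟨c, M, hM1, hM, hc, hB, hlen, hvx⟩ := leaf_even hE (by omega) (fun i k a b d => hinj i k a b (by omega)) h1 hev
  obtain ⟨m, rfl⟩ : ∃ m, E = m + 1 := ⟨E - 1, by omega⟩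
  obtain ⟨f1, f2, f3, f4⟩ := fold_letters (m := m) hM hc h2
  obtain ⟨f5, f6⟩ := f4 h3
  have hdn : ∀ j, vx oo up (q.drop (m + 1 + 1)) j = vx oo up q (m + 1 + 1) - vx oo up q (m + 1 + 1 + j) :=
    fun j => down_vx f6 j
  refine ⟨c, M, hM1, hM, f1, hB, hlen, hvx, ?_, hdn, f3, ?_⟩
  · have e := split2 (q := q) (m := m) (by omega)
    rw [f1, f5] at e
    exact e
  · intro r hr
    show Hang _ (lst _) r
    rw [show lst (q.take (m + 1 - 1) ++ [!c]) = !c from lst_append _ _]
    rw [show m + 1 - 1 = m from rfl]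
    refine hang_fold' (M := M) (fun k k1 k2 => ?_) hinj (by omega) hM hc f2 (fun k hk => ?_)
    · rw [← hM]
      exact (h1 k k1 k2).2
    · obtain ⟨a, b⟩ := hr k hk
      refine ⟨by omega, ?_⟩
      rw [b, hdn k]

/-- the frame of the next leaf -/
lemma Fr.next {t : List Bool} {k s : ℕ} {q : List Bool} (h : Fr t k s q) {E : ℕ} (hE : E + 1 ≤ q.length)
    (hd : ∀ j, vx oo up (q.drop (E + 1)) j = vx oo up q (E + 1) - vx oo up q (E + 1 + j)) :
    Fr t (k + 1) (s + E + 1) (q.drop (E + 1)) := by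
  obtain ⟨hl, P, hP⟩ := h
  have hdl : (q.drop (E + 1)).length = q.length - (E + 1) := List.length_drop
  refine ⟨by omega, P + sgP k (vx oo up q (E + 1)), fun i h1 h2 => ?_⟩
  rw [show s + E + 1 + i = s + (E + 1 + i) by omega, hP (E + 1 + i) (by omega) (by omega), hd i, sgP_succ, sgP_sub]
  abel

end Rp

end NTW

end HexObs
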