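import Pool.Agent.NTW.RepM

/-!
NTW, two ended representation, part T: the chain of the leaves, from the two ends.
-/

set_option autoImplicit false

namespace HexObs

namespace NTW

open Finset TS SDN

namespace Rp

/-- the end of the last word (Prop form) -/
def EndQ : Prop := ∀ {q : List Bool} {E N1 : ℕ}, 1 ≤ E → E ≤ q.length →
    (∀ i k, 1 ≤ i → i < k → k ≤ q.length → vx oo up q i ≠ vx oo up q k) →
    (∀ j, 1 ≤ j → j ≤ E → 0 < lev q j ∧ lev q j ≤ lev q E) → 3 ≤ lev q E →
    (∀ i, E < i → i ≤ q.length → lev q i < lev q E ∧ lev q E - lev q i ≤ 3 * N1) →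
    ∃ (g : List Bool) (M : ℕ) (o' : Option (List Bool)) (x : Bool) (y : Fin 3), 1 ≤ M ∧ g ∈ Brd M ∧
      |lev q E - 3 * M| ≤ 2 ∧ g.length ≤ E ∧ E ≤ g.length + 1 ∧ (∀ i, i ≤ g.length → vx oo up g i = vx oo up q i) ∧
      q = endF x y o' g ∧ (∀ W ∈ o', W ∈ SSt N1 ∧ LFold g W) ∧ |lev q q.length - lev q E + lvW o'| ≤ 4 ∧
      q.length ≤ g.length + (o'.getD []).length + 3 ∧ g.length + (o'.getD []).length ≤ q.length + 3

/-- the start of the first word (Prop form) -/
def StartR : Prop := ∀ {t : List Bool} {m u : ℕ} {e : ℕ → ℕ} {N0 : ℕ}, t ∈ SA → 1 ≤ m → FoldG t m u e →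
    (∀ i, i < e 0 → Tight.sg u (lev t i) - Tight.sg u (lev t (e 0)) ≤ 3 * N0) → 1 ≤ e 0 →
    ∃ (c0 : Bool) (W0 : List Bool), t = rev W0 ++ (!c0) :: (!c0) :: t.drop (e 0) ∧ W0.length + 2 = e 0 ∧
      Fr t u (e 0 - 1) (c0 :: t.drop (e 0)) ∧ W0 ∈ SSt N0 ∧
      |Tight.sg u (lev t 0) - Tight.sg u (lev t (e 0)) - lev W0 W0.length| ≤ 6 ∧
      ∀ (g : List Bool) (k : ℕ), g ∈ Brd k → 1 ≤ k → e 0 - 1 + g.length ≤ t.length →
        (∀ i, i ≤ g.length → vx oo up g i = vx oo up (c0 :: t.drop (e 0)) i) → LFold (rev g) W0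

lemma endF_append (x : Bool) (y : Fin 3) (o' : Option (List Bool)) (a : List Bool) {w : List Bool} (hw : w ≠ []) :
    endF x y o' (a ++ w) = a ++ endF x y o' w := by
  have h1 : (a ++ w).dropLast = a ++ w.dropLast := List.dropLast_append_of_ne_nil hw
  have h2 : lst (a ++ w) = lst w := by
    unfold lst
    rw [List.getLastD_eq_getLast?, List.getLastD_eq_getLast?, List.getLast?_append_of_ne_nil a hw]
  unfold endF
  cases o' with
  | some W =>
    simp only [h1, h2, List.append_assoc]
  | none =>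
    simp only [h1, h2]
    split_ifs <;> simp only [List.append_assoc]

lemma Brd_two {g : List Bool} {k : ℕ} (hg : g ∈ Brd k) (hk : 1 ≤ k) : 2 ≤ g.length := by
  rw [mem_Brd] at hg
  have h1 := hg.2.2.2
  by_contra hcon
  have h2 : g.length = 0 ∨ g.length = 1 := by omega
  rcases h2 with h2 | h2
  · rw [h2, lev_zero] at h1
    omega
  · rw [h2, lev_one] at h1
    omega

lemma e_le {t : List Bool} {m u : ℕ} {e : ℕ → ℕ} (h : FoldG t m u e) {j : ℕ} (hj : j ≤ m) : e j ≤ t.length := by
  have key : ∀ d, d ≤ m → e (m - d) ≤ t.length := by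
    intro d
    induction d with
    | zero =>
      intro _
      exact h.le
    | succ d ih =>
      intro hd
      have h1 := ih (by omega)
      have h2 := h.lt (m - (d + 1)) (by omega)
      rw [show m - (d + 1) + 1 = m - d by omega] at h2
      omega
  have := key (m - j) (by omega)
  rwa [show m - (m - j) = j by omega] at this

/-- the state in front of the leaf number l -/
structure Stt (t : List Bool) (u : ℕ) (e : ℕ → ℕ) (l s : ℕ) (q : List Bool) : Prop where
  fr : Fr t (u + l) s q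
  s1 : e l ≤ s + 1
  s2 : s ≤ e l + 1
  s3 : s < e (l + 1)
  pos : ∀ j, 1 ≤ j → j ≤ e (l + 1) - s → 0 < lev q j ∧ lev q j ≤ lev q (e (l + 1) - s)
  h3 : 3 ≤ lev q (e (l + 1) - s)
  dr : ∀ a, 1 ≤ a → q.drop a = t.drop (s + a)
  wd : 1 ≤ l → q = t.drop (e l + 1) ∧ s = e l + 1

lemma Stt.posL {t : List Bool} {u : ℕ} {e : ℕ → ℕ} {l s : ℕ} {q : List Bool} (S : Stt t u e l s q) {g : List Bool}
    (hg : ∀ i, i ≤ g.length → vx oo up g i = vx oo up q i) (h1 : s + g.length ≤ e (l + 1))
    (h2 : e (l + 1) ≤ s + g.length + 1) (hle : e (l + 1) ≤ t.length) : PosL t u e l g := by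
  refine ⟨s, S.s1, S.s2, h1, h2, fun i i1 i2 => ?_⟩
  have hql := S.fr.1
  have e1 : lev g i = lev q i := by
    unfold lev
    rw [hg i i2]
  rw [e1, S.fr.lev i1 (by omega), lev_one, sg_sub]
  ring

variable {t : List Bool} {m u : ℕ} {e : ℕ → ℕ} {N1 : ℕ}

/-- one interior leaf and the next state -/
lemma Stt.next (ht : t ∈ SA) (h : FoldG t m u e) {l s : ℕ} {q : List Bool} (hl : l + 1 < m) (S : Stt t u e l s q) :
    ∃ (g : List Bool) (M : ℕ), 1 ≤ M ∧ g ∈ Brd M ∧ s + g.length = e (l + 1) ∧
      (∀ i, i ≤ g.length → vx oo up g i = vx oo up q i) ∧ (1 ≤ l → g = lw t (e l) (e (l + 1))) ∧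
      q = g.dropLast ++ (!lst g) :: (!lst g) :: t.drop (e (l + 1) + 1) ∧
      Stt t u e (l + 1) (e (l + 1) + 1) (t.drop (e (l + 1) + 1)) ∧
      ∀ r : List Bool, (∀ k, k ≤ r.length → e (l + 1) + 1 + k ≤ t.length ∧
        vx oo up r k = vx oo up (t.drop (e (l + 1) + 1)) k) → LFold g r := by
  have hle2 := e_le h (j := l + 2) (by omega)
  have hlt1 := h.lt (l + 1) (by omega)
  have hgap := h.gap (l + 1) hl
  have hlo := h.lo (l + 1) (by omega) hl
  have hhi := h.hi (l + 1) hl
  have hql := S.fr.1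
  have hs3 := S.s3
  have hD := dD_mem false (u + (l + 1))
  have hge : e (l + 1) + 2 ≤ e (l + 1 + 1) := by
    by_contra hcon
    have e1 : e (l + 1 + 1) = e (l + 1) + 1 := by omega
    have e2 := xD_step_le hD t (e (l + 1))
    rw [xD_false, xD_false, ← e1] at e2
    omega
  obtain ⟨E, hE⟩ : ∃ E, E = e (l + 1) - s := ⟨_, rfl⟩
  have hsE : s + E = e (l + 1) := by omega
  have hle2' : e (l + 1 + 1) ≤ t.length := hle2
  have hE1 : 1 ≤ E := by omega
  have hE2 : E + 2 ≤ q.length := by omega
  -- levels of q behind its top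
  have hlq : ∀ i, 1 ≤ i → i ≤ q.length → lev q i = -Tight.sg (u + (l + 1)) (lev t (s + i)) +
      Tight.sg (u + (l + 1)) (lev t (s + 1)) + 2 := by
    intro i i1 i2
    rw [S.fr.lev i1 i2, show u + (l + 1) = u + l + 1 by omega, sg_succ, sg_succ]
    ring
  have hpos := S.pos
  rw [← hE] at hpos
  have hqE := hlq E hE1 (by omega)
  have hqE1 := hlq (E + 1) (by omega) (by omega)
  have hqE2 := hlq (E + 2) (by omega) (by omega)
  rw [show s + (E + 1) = e (l + 1) + 1 by omega] at hqE1
  rw [show s + (E + 2) = e (l + 1) + 2 by omega] at hqE2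
  rw [hsE] at hqE
  have lo1 := hlo (e (l + 1) + 1) (by omega) (by omega)
  have lo2 := hlo (e (l + 1) + 2) (by omega) (by omega)
  obtain ⟨c, M, hM1, hM, hc, hB, hlen, hvx, hsp, hdn, hl1, hF⟩ := mid_q hE1 hE2 (S.fr.inj ht) hpos (by omega) (by omega)
  have hdrop : q.drop (E + 1) = t.drop (e (l + 1) + 1) := by
    rw [S.dr (E + 1) (by omega)]
    congr 1
    omega
  have hfr := S.fr.next (E := E) (by omega) hdn
  rw [hdrop, hsE, show u + l + 1 = u + (l + 1) by omega] at hfr
  -- levels of the next word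
  have hlq' : ∀ j, e (l + 1) + 1 + j ≤ t.length → lev (t.drop (e (l + 1) + 1)) j =
      Tight.sg (u + (l + 1)) (lev t (e (l + 1) + 1 + j)) - Tight.sg (u + (l + 1)) (lev t (e (l + 1))) - 1 := by
    intro j hj
    have e1 : lev (t.drop (e (l + 1) + 1)) j = lev q (E + 1) - lev q (E + 1 + j) := by
      have e2 := hdn j
      rw [hdrop] at e2
      have e3 := congrArg (fun p => ip p up) e2
      simp only [ip_sub_left] at e3
      exact e3
    have e4 := hlq (E + 1 + j) (by omega) (by omega)
    rw [show s + (E + 1 + j) = e (l + 1) + 1 + j by omega] at e4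
    rw [e1, e4]
    omega
  have hnn : ∀ j, e (l + 1) + 1 + j ≤ e (l + 1 + 1) → 0 ≤ lev (t.drop (e (l + 1) + 1)) j := by
    intro j hj
    have e1 := hlo (e (l + 1) + 1 + j) (by omega) hj
    rw [hlq' j (by omega)]
    omega
  obtain ⟨E', hE'⟩ : ∃ E', E' = e (l + 1 + 1) - (e (l + 1) + 1) := ⟨_, rfl⟩
  have hE'1 : e (l + 1) + 1 + E' = e (l + 1 + 1) := by omega
  have htop := hlq' E' (by omega)
  rw [hE'1] at htop
  refine ⟨q.take (E - 1) ++ [!c], M, hM1, hB, by omega, ?_, ?_, ?_, ⟨hfr, by omega, le_rfl, by omega, ?_, ?_, ?_, ?_⟩, ?_⟩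
  · intro i hi
    rw [hlen] at hi
    exact hvx i hi
  · intro hl0
    obtain ⟨w1, w2⟩ := S.wd hl0
    unfold lw
    rw [← hc, w1, tf_drop]
    rw [show e (l + 1) - e l - 2 = E - 1 by omega, show e l + 1 + (E - 1) = e (l + 1) - 1 by omega]
  · rw [lst_append, Bool.not_not, List.dropLast_concat, ← hdrop]
    exact hsp
  · rw [← hE']
    intro j j1 j2
    have t1 := hhi (e (l + 1) + 1 + j) (by omega) (by omega)
    have t2 := hlq' j (by omega)
    refine ⟨?_, by omega⟩
    rcases Nat.lt_or_ge j E' with h5 | h5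
    · exact pos_of_nonneg j1 (fun i hi => hnn i (by omega))
    · have : j = E' := by omega
      rw [this]
      omega
  · rw [← hE']
    omega
  · intro a ha
    rw [List.drop_drop]
  · intro _
    exact ⟨rfl, rfl⟩
  · intro r hr
    apply hF
    intro k hk
    obtain ⟨a, b⟩ := hr k hk
    refine ⟨by omega, ?_⟩
    rw [hdrop]
    exact b

/-- the chain of the leaves from the leaf number l on -/
theorem tail_rep (hEQ : EndQ) (ht : t ∈ SA) (h : FoldG t m u e)
    (h1 : ∀ i, e m < i → i ≤ t.length → Tight.sg (u + (m - 1)) (lev t (e m)) - Tight.sg (u + (m - 1)) (lev t i) ≤ 3 * N1) :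
    ∀ (d l s : ℕ) (q : List Bool), l + d + 1 = m → Stt t u e l s q →
    ∃ (g : List Bool) (gs : List (List Bool)) (o' : Option (List Bool)) (x : Bool) (y : Fin 3),
      gs.length = d ∧ (g :: gs).IsChain LFold ∧ (∀ w ∈ g :: gs, ∃ k : ℕ, 1 ≤ k ∧ w ∈ Brd k) ∧
      (∀ (i : ℕ) (hi : i < (g :: gs).length), PosL t u e (l + i) (g :: gs)[i]) ∧
      (∀ (i : ℕ) (hi : i < (g :: gs).length), 1 ≤ l + i → l + i + 2 ≤ m → (g :: gs)[i] = lw t (e (l + i)) (e (l + i + 1))) ∧
      (∀ W ∈ o', W ∈ SSt N1 ∧ LFold ((g :: gs).getLastD []) W) ∧ q = endF x y o' (unf (g :: gs)) ∧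
      q.length ≤ (unf (g :: gs)).length + (o'.getD []).length + 3 ∧
      (unf (g :: gs)).length + (o'.getD []).length ≤ q.length + 3 ∧
      s + g.length ≤ t.length ∧ (∀ i, i ≤ g.length → vx oo up g i = vx oo up q i) ∧
      (d = 0 → ∃ M : ℕ, g ∈ Brd M ∧ |lev q (e (l + 1) - s) - 3 * M| ≤ 2 ∧
        |lev q q.length - lev q (e (l + 1) - s) + lvW o'| ≤ 4) := by
  intro d
  induction d with
  | zero =>
    intro l s q hd S
    have hm : m = l + 1 := by omega
    subst hm
    have hle := e_le h (j := l + 1) le_rfl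
    have hql := S.fr.1
    have hs3 := S.s3
    obtain ⟨E, hE⟩ : ∃ E, E = e (l + 1) - s := ⟨_, rfl⟩
    have hsE : s + E = e (l + 1) := by omega
    have hpos := S.pos
    have h3 := S.h3
    rw [← hE] at hpos h3
    have hfin : ∀ i, E < i → i ≤ q.length → lev q i < lev q E ∧ lev q E - lev q i ≤ 3 * N1 := by
      intro i i1 i2
      have e1 := S.fr.lev (i := i) (by omega) i2
      have e2 := S.fr.lev (i := E) (by omega) (by omega)
      rw [hsE] at e2
      have e3 := h.fin (s + i) (by omega) (by omega)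
      have e4 := h1 (s + i) (by omega) (by omega)
      rw [show u + (l + 1 - 1) = u + l by omega] at e3 e4
      constructor <;> omega
    obtain ⟨g, M, o', x, y, k1, k2, k3, k4, k5, k6, k7, k8, k9, k10, k11⟩ :=
      hEQ (q := q) (E := E) (N1 := N1) (by omega) (by omega) (S.fr.inj ht) hpos h3 hfin
    refine ⟨g, [], o', x, y, rfl, List.isChain_singleton _, ?_, ?_, ?_, ?_, k7, k10, k11, by omega, k6, ?_⟩
    · intro w hw
      rw [List.mem_singleton] at hw
      rw [hw]
      exact ⟨M, k1, k2⟩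
    · intro i hi
      have hi0 : i = 0 := by
        simp only [List.length_cons, List.length_nil] at hi
        omega
      subst hi0
      show PosL t u e l g
      exact S.posL k6 (by omega) (by omega) hle
    · intro i hi a b
      exfalso
      omega
    · exact k8
    · intro _
      rw [← hE]
      exact ⟨M, k2, k3, k9⟩
  | succ d ih =>
    intro l s q hd S
    have hle := e_le h (j := l + 1) (by omega)
    have hql := S.fr.1
    obtain ⟨g, M, a1, a2, a3, a4, a5, a6, a7, a8⟩ := S.next ht h (by omega)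
    obtain ⟨g', gs', o', x, y, b1, b2, b3, b4, b5, b6, b7, b8, b9, b10, b11, b12⟩ :=
      ih (l + 1) (e (l + 1) + 1) (t.drop (e (l + 1) + 1)) (by omega) a7
    have hne : unf (g' :: gs') ≠ [] := by
      apply unf_ne_nil _ (by simp)
      intro w hw hw0
      obtain ⟨k, k1, k2⟩ := b3 w hw
      have := Brd_two k2 k1
      rw [hw0] at this
      simp at this
    have hg2 := Brd_two a2 a1
    have hdl : (t.drop (e (l + 1) + 1)).length = t.length - (e (l + 1) + 1) := List.length_drop
    have hul : (unf (g :: g' :: gs')).length = g.length + 1 + (unf (g' :: gs')).length := by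
      show (g.dropLast ++ (!lst g) :: (!lst g) :: unf (g' :: gs')).length = _
      rw [List.length_append, List.length_dropLast, List.length_cons, List.length_cons]
      omega
    have hle2 := e_le h (j := l + 2) (by omega)
    have ha3 := a7.s3
    refine ⟨g, g' :: gs', o', x, y, by rw [List.length_cons, b1], ?_, ?_, ?_, ?_, ?_, ?_, ?_, ?_, by omega, a4, ?_⟩
    · rw [List.isChain_cons_cons]
      exact ⟨a8 g' (fun k hk => ⟨by omega, b11 k hk⟩), b2⟩
    · intro w hw
      rcases List.mem_cons.1 hw with hw | hw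
      · rw [hw]
        exact ⟨M, a1, a2⟩
      · exact b3 w hw
    · intro i hi
      rcases Nat.eq_zero_or_pos i with hi0 | hi0
      · subst hi0
        show PosL t u e l g
        exact S.posL a4 (by omega) (by omega) hle
      · obtain ⟨i', rfl⟩ : ∃ i', i = i' + 1 := ⟨i - 1, by omega⟩
        have hi' : i' < (g' :: gs').length := by
          rw [List.length_cons] at hi
          omega
        have := b4 i' hi'
        rw [show l + 1 + i' = l + (i' + 1) by omega] at this
        exact this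
    · intro i hi c1 c2
      rcases Nat.eq_zero_or_pos i with hi0 | hi0
      · subst hi0
        exact a5 c1
      · obtain ⟨i', rfl⟩ : ∃ i', i = i' + 1 := ⟨i - 1, by omega⟩
        have hi' : i' < (g' :: gs').length := by
          rw [List.length_cons] at hi
          omega
        have := b5 i' hi' (by omega) (by omega)
        rw [show l + 1 + i' = l + (i' + 1) by omega] at this
        exact this
    · intro W hW
      exact b6 W hW
    · show q = endF x y o' (g.dropLast ++ (!lst g) :: (!lst g) :: unf (g' :: gs'))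
      have e1 : g.dropLast ++ (!lst g) :: (!lst g) :: unf (g' :: gs') =
          (g.dropLast ++ [!lst g, !lst g]) ++ unf (g' :: gs') := by simp
      rw [e1, endF_append x y o' _ hne, ← b7]
      rw [a6]
      simp
    · rw [hul]
      omega
    · rw [hul]
      omega
    · intro h0
      omega

end Rp

end NTW

end HexObs
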