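import Pool.Agent.NTW.Rise

/-!
NTW: typical scales in windows. For a monotone function with an exact linear rate all but a small proportion of the points
of every window `[x, (1 + δ) x]` have a controlled growth to the right, measured from the point `L - s`.
-/

set_option autoImplicit false

namespace HexObs

namespace NTW

open Finset

/-- points of a window with a fast growth on the left -/
theorem Ri_leftW {h : ℕ → ℝ} (hm : Monotone h) {a : ℝ} {j n x : ℕ} (hj : j ≤ n) (hn : n ≤ x) :
    a * ((Ico n x).filter (fun L => a * j < h L - h (L - j))).card ≤ h x - h (n - j) := by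
  have hx : h (n - j) ≤ h x := hm (by omega)
  rcases Nat.eq_zero_or_pos j with hj0 | hj0
  · subst hj0
    have : (Ico n x).filter (fun L => a * ((0 : ℕ) : ℝ) < h L - h (L - 0)) = ∅ := by
      refine filter_eq_empty_iff.2 fun L _ => ?_
      simp
    rw [this]
    simp only [card_empty, Nat.cast_zero, mul_zero]
    linarith
  have hsum : ∑ L ∈ Ico n x, (h L - h (L - j)) ≤ j * (h x - h (n - j)) := by
    obtain ⟨d, rfl⟩ := Nat.exists_eq_add_of_le hn
    have e : ∑ L ∈ Ico n (n + d), (h L - h (L - j)) =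
        ∑ i ∈ range j, (h (n + d - j + i) - h (n - j + i)) := by
      clear hx hn
      induction d with
      | zero => simp
      | succ d ih =>
        have hs : ∑ i ∈ range j, (h (n + (d + 1) - j + i) - h (n - j + i)) =
            ∑ i ∈ range j, (h (n + d - j + i) - h (n - j + i)) + (h (n + d) - h (n + d - j)) := by
          have e1 : ∑ i ∈ range j, (h (n + d - j + (i + 1)) - h (n + d - j + i)) =
              h (n + d - j + j) - h (n + d - j + 0) := Finset.sum_range_sub (fun i => h (n + d - j + i)) j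
          have e2 : n + d - j + j = n + d := by omega
          have e3 : ∀ i, n + (d + 1) - j + i = n + d - j + (i + 1) := fun i => by omega
          rw [e2, add_zero] at e1
          rw [← e1, ← sum_add_distrib]
          refine sum_congr rfl fun i _ => ?_
          rw [e3]
          ring
        rw [hs, ← ih, show n + (d + 1) = n + d + 1 by ring, Finset.sum_Ico_succ_top (by omega)]
    rw [e]
    calc ∑ i ∈ range j, (h (n + d - j + i) - h (n - j + i)) ≤ ∑ _i ∈ range j, (h (n + d) - h (n - j)) := by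
          refine sum_le_sum fun i hi => ?_
          rw [mem_range] at hi
          have h1 : h (n + d - j + i) ≤ h (n + d) := hm (by omega)
          have h2 : h (n - j) ≤ h (n - j + i) := hm (by omega)
          linarith
      _ = j * (h (n + d) - h (n - j)) := by
          rw [sum_const, card_range, nsmul_eq_mul]
  have h1 : ∑ L ∈ (Ico n x).filter (fun L => a * j < h L - h (L - j)), (a * j) ≤
      ∑ L ∈ Ico n x, (h L - h (L - j)) := by
    refine (sum_le_sum (fun L hL => (mem_filter.1 hL).2.le)).trans ?_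
    refine sum_le_sum_of_subset_of_nonneg (filter_subset _ _) fun L _ _ => ?_
    have := hm (Nat.sub_le L j)
    linarith
  have h3 := h1.trans hsum
  rw [sum_const, nsmul_eq_mul] at h3
  have hj' : (0 : ℝ) < j := by exact_mod_cast hj0
  have h4 : (j : ℝ) * (a * ((Ico n x).filter (fun L => a * j < h L - h (L - j))).card) ≤ j * (h x - h (n - j)) := by
    calc (j : ℝ) * (a * ((Ico n x).filter (fun L => a * j < h L - h (L - j))).card) =
          ((Ico n x).filter (fun L => a * j < h L - h (L - j))).card * (a * j) := by ring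
      _ ≤ _ := h3
  exact le_of_mul_le_mul_left h4 hj'

open Classical in
/-- **typical scales in windows** -/
theorem riseW (h : ℕ → ℝ) (κ : ℝ) (hm : Monotone h)
    (hκ : ∀ r : ℝ, 0 < r → ∃ B : ℝ, ∀ L : ℕ, |h L - κ * L| ≤ r * L + B) :
    ∀ e : ℝ, 0 < e → ∃ a : ℝ, 0 < a ∧ ∀ s : ℕ, ∀ δ : ℝ, 0 < δ → ∃ x0 : ℕ, ∀ x : ℕ, x0 ≤ x →
      (((Finset.Icc x ⌊(1 + δ) * x⌋₊).filter
        (fun L => ¬ (∀ j : ℕ, h (L + j) - h (L - s) ≤ a * ((j : ℝ) + s)))).card : ℝ) ≤ e * (δ * x) := by
  classical
  intro e he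
  set K : ℝ := |κ| with hK
  have hK0 : 0 ≤ K := abs_nonneg κ
  have hκK : κ ≤ K := le_abs_self κ
  set a : ℝ := (2 * K + 2) / e + K + 2 with haD
  have ha : 0 < a := by positivity
  have ha2 : K + 2 ≤ a := by
    have : 0 ≤ (2 * K + 2) / e := by positivity
    linarith
  have hae : 2 * K + 2 ≤ a * e := by
    have h1 : (2 * K + 2) / e ≤ a := by linarith
    calc 2 * K + 2 = (2 * K + 2) / e * e := by field_simp
      _ ≤ a * e := mul_le_mul_of_nonneg_right h1 he.le
  refine ⟨a, ha, fun s δ hδ => ?_⟩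
  set M : ℝ := 4 * (2 + δ) + 2 + 2 * K * (2 + δ) with hM
  have hM0 : 0 < M := by positivity
  set r : ℝ := min 1 (δ / M) with hr
  have hr0 : 0 < r := lt_min one_pos (by positivity)
  have hr1 : r ≤ 1 := min_le_left _ _
  have hrM : r * M ≤ δ := by
    calc r * M ≤ δ / M * M := mul_le_mul_of_nonneg_right (min_le_right _ _) hM0.le
      _ = δ := by field_simp
  obtain ⟨B, hB⟩ := hκ r hr0
  have hB0 : 0 ≤ B := by
    have := hB 0
    simp only [Nat.cast_zero, mul_zero, zero_add] at this
    exact (abs_nonneg _).trans this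
  have hup : ∀ L : ℕ, h L ≤ κ * L + r * L + B := fun L => by
    have := (abs_le.1 (hB L)).2
    linarith
  have hlo : ∀ L : ℕ, κ * L - r * L - B ≤ h L := fun L => by
    have := (abs_le.1 (hB L)).1
    linarith
  set c0 : ℝ := K * (1 + s) + K * (2 + 2 * B) + 4 * B + (2 * B + 1) with hc0
  have hc00 : 0 ≤ c0 := by positivity
  refine ⟨max (max 1 s) ⌈c0 / δ⌉₊, fun x hx => ?_⟩
  have hx1 : 1 ≤ x := (le_max_left _ _).trans ((le_max_left _ _).trans hx)
  have hxs : s ≤ x := (le_max_right _ _).trans ((le_max_left _ _).trans hx)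
  have hxc : c0 ≤ δ * x := by
    have h1 : (⌈c0 / δ⌉₊ : ℝ) ≤ x := by exact_mod_cast (le_max_right _ _).trans hx
    have h2 := (Nat.le_ceil (c0 / δ)).trans h1
    rw [div_le_iff₀ hδ] at h2
    linarith
  have hx1' : (1 : ℝ) ≤ x := by exact_mod_cast hx1
  set X : ℕ := ⌊(1 + δ) * x⌋₊ + 1 with hX
  have hXle : (X : ℝ) ≤ (1 + δ) * x + 1 := by
    rw [hX]
    push_cast
    have := Nat.floor_le (show (0 : ℝ) ≤ (1 + δ) * x by positivity)
    linarith
  have hXge : x ≤ X := by
    have h1 : (x : ℝ) ≤ (1 + δ) * x := by nlinarith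
    have := Nat.le_floor h1
    omega
  have hXge' : (x : ℝ) ≤ X := by exact_mod_cast hXge
  have hXx : (X : ℝ) ≤ (2 + δ) * x := by nlinarith
  set Y : ℕ := X + ⌈2 * r * X + 2 * B⌉₊ with hY
  have hYle : (Y : ℝ) ≤ X + (2 * r * X + 2 * B) + 1 := by
    rw [hY]
    push_cast
    have := (Nat.ceil_lt_add_one (show 0 ≤ 2 * r * (X : ℝ) + 2 * B by positivity)).le
    linarith
  have hXY : X ≤ Y := by omega
  have hXY' : (X : ℝ) ≤ Y := by exact_mod_cast hXY
  have hYR : ∀ L < X, ∀ j : ℕ, a * j < h (L + j) - h L → L + j ≤ Y := by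
    intro L hL j hj
    have h1 := hup (L + j)
    have h2 := hlo L
    push_cast at h1
    have h3 : (L : ℝ) ≤ X := by exact_mod_cast hL.le
    have hj0 : (0 : ℝ) ≤ j := Nat.cast_nonneg j
    have h4 : a * j < κ * j + r * (2 * L + j) + 2 * B := by linarith
    have h5 : (K + 2) * j ≤ a * j := mul_le_mul_of_nonneg_right ha2 hj0
    have h6 : κ * j ≤ K * j := mul_le_mul_of_nonneg_right hκK hj0
    have h7 : r * j ≤ 1 * j := mul_le_mul_of_nonneg_right hr1 hj0
    have h8 : r * L ≤ r * X := mul_le_mul_of_nonneg_left h3 hr0.le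
    have h9 : (j : ℝ) ≤ 2 * r * X + 2 * B := by linarith
    have h10 : j ≤ ⌈2 * r * (X : ℝ) + 2 * B⌉₊ := by
      have := h9.trans (Nat.le_ceil _)
      exact_mod_cast this
    omega
  have hR := Ri_right hm X Y ha hYR (Y - x) x (by omega)
  have hL := Ri_leftW hm (a := a) hxs hXge
  have hsub : (Icc x ⌊(1 + δ) * x⌋₊).filter (fun L => ¬ (∀ j : ℕ, h (L + j) - h (L - s) ≤ a * ((j : ℝ) + s))) ⊆
      (Ico x X).filter (fun L => a * s < h L - h (L - s)) ∪
        (Ico x X).filter (fun L => ∃ j : ℕ, a * j < h (L + j) - h L) := by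
    intro L hL
    rw [mem_filter, mem_Icc] at hL
    rw [mem_union, mem_filter, mem_filter, mem_Ico]
    obtain ⟨⟨hL1, hL2⟩, hb⟩ := hL
    have hL3 : x ≤ L ∧ L < X := ⟨hL1, by omega⟩
    push Not at hb
    obtain ⟨j, hj⟩ := hb
    by_cases h1 : a * s < h L - h (L - s)
    · exact Or.inl ⟨hL3, h1⟩
    · refine Or.inr ⟨hL3, j, ?_⟩
      push Not at h1
      nlinarith
  have hcard : (((Icc x ⌊(1 + δ) * x⌋₊).filter
        (fun L => ¬ (∀ j : ℕ, h (L + j) - h (L - s) ≤ a * ((j : ℝ) + s)))).card : ℝ) ≤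
      ((Ico x X).filter (fun L => a * s < h L - h (L - s))).card +
        ((Ico x X).filter (fun L => ∃ j : ℕ, a * j < h (L + j) - h L)).card := by
    exact_mod_cast (card_le_card hsub).trans (card_union_le _ _)
  have u1 := hup X
  have u2 := hlo (x - s)
  have u3 := hup Y
  have u4 := hlo x
  have hcs : ((x - s : ℕ) : ℝ) = x - s := Nat.cast_sub hxs
  rw [hcs] at u2
  have hs0 : (0 : ℝ) ≤ s := Nat.cast_nonneg s
  have hxs' : (s : ℝ) ≤ x := by exact_mod_cast hxs
  have v1 : h X - h (x - s) ≤ K * (X - x + s) + r * (X + x) + 2 * B := by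
    have w1 : κ * (X - x + s) ≤ K * (X - x + s) := mul_le_mul_of_nonneg_right hκK (by linarith)
    have w2 : 0 ≤ r * s := by positivity
    nlinarith
  have v2 : h Y - h x ≤ K * (Y - x) + r * (Y + x) + 2 * B := by
    have w1 : κ * (Y - x) ≤ K * (Y - x) := mul_le_mul_of_nonneg_right hκK (by linarith)
    nlinarith
  have hYx : (Y : ℝ) ≤ 3 * ((2 + δ) * x) + 2 * B + 1 := by
    have w1 : r * X ≤ 1 * X := mul_le_mul_of_nonneg_right hr1 (by linarith)
    linarith
  have v3 : K * (X - x + s) ≤ K * (δ * x + 1 + s) := mul_le_mul_of_nonneg_left (by linarith) hK0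
  have v4 : K * (Y - x) ≤ K * (δ * x + 2 + 2 * (r * X) + 2 * B) := mul_le_mul_of_nonneg_left (by linarith) hK0
  have v5 : r * (X + x) + r * (Y + x) + K * (2 * (r * X)) ≤ δ * x + (2 * B + 1) := by
    have w1 : r * X ≤ r * ((2 + δ) * x) := mul_le_mul_of_nonneg_left hXx hr0.le
    have w2 : r * Y ≤ r * (3 * ((2 + δ) * x)) + (2 * B + 1) := by
      have w3 : r * Y ≤ r * (3 * ((2 + δ) * x) + 2 * B + 1) := mul_le_mul_of_nonneg_left hYx hr0.le
      have w4 : r * (2 * B + 1) ≤ 1 * (2 * B + 1) := mul_le_mul_of_nonneg_right hr1 (by linarith)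
      linarith
    have w5 : K * (2 * (r * X)) ≤ K * (2 * (r * ((2 + δ) * x))) :=
      mul_le_mul_of_nonneg_left (by linarith) hK0
    have w6 : r * M * x ≤ δ * x := mul_le_mul_of_nonneg_right hrM (by linarith)
    have w7 : r * M * x = r * ((2 + δ) * x) + r * (3 * ((2 + δ) * x)) + 2 * (r * x) +
        K * (2 * (r * ((2 + δ) * x))) := by
      rw [hM]
      ring
    linarith
  have h9 : a * (((Icc x ⌊(1 + δ) * x⌋₊).filter
        (fun L => ¬ (∀ j : ℕ, h (L + j) - h (L - s) ≤ a * ((j : ℝ) + s)))).card : ℝ) ≤ a * (e * (δ * x)) := by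
    calc a * (((Icc x ⌊(1 + δ) * x⌋₊).filter
          (fun L => ¬ (∀ j : ℕ, h (L + j) - h (L - s) ≤ a * ((j : ℝ) + s)))).card : ℝ)
        ≤ a * (((Ico x X).filter (fun L => a * s < h L - h (L - s))).card +
        ((Ico x X).filter (fun L => ∃ j : ℕ, a * j < h (L + j) - h L)).card) :=
          mul_le_mul_of_nonneg_left hcard ha.le
      _ ≤ (h X - h (x - s)) + (h Y - h x) := by
          rw [mul_add]
          exact add_le_add hL hR
      _ ≤ (2 * K + 2) * (δ * x) := by
          rw [hc0] at hxc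
          nlinarith
      _ ≤ a * e * (δ * x) := mul_le_mul_of_nonneg_right hae (by positivity)
      _ = a * (e * (δ * x)) := by ring
  exact le_of_mul_le_mul_left h9 ha

end NTW

end HexObs
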