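import Pool.Agent.NTW.TwoG

/-!
NTW: the two sided sum over the short leaves, exponential form: the level near the head in a window j', the level near the
tail in a window j; only the high short bridges have to be rare.
-/

set_option autoImplicit false

namespace HexObs

namespace NTW

open Finset TS SDN

open scoped ENNReal

open Rec8 (mb)

variable {C δ : ℝ}

namespace SF

open DO DW TG

/-- the giants, universal weight -/
lemma giS (h : Inp C δ) : ∃ K c : ℝ, 1 ≤ K ∧ 0 < c ∧ ∀ k j : ℕ, j ≤ k →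
    ∑' r : ℕ, (if 2 ^ k < r then Rec8.sw (Irr r) (fun P => SJ k j (rev P)) else 0) ≤
      ENNReal.ofReal (K * (2 : ℝ) ^ (-(c * ((k : ℝ) - j)))) := by
  obtain ⟨K, c, hK, hc, hs⟩ := ssJ1 h
  refine ⟨K, c, hK, hc, fun k j hj => ?_⟩
  have h1 := hs k j hj
  have hU := Ub_pos k
  have h2 : ENNReal.ofReal (Ub k) * ∑' r : ℕ, (if 2 ^ k < r then Rec8.sw (Irr r) (fun P => SJ k j (rev P)) else 0) ≤
      ENNReal.ofReal (K * (2 : ℝ) ^ (-(c * ((k : ℝ) - j))) * Ub k) := by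
    refine le_trans ?_ h1
    unfold KJ.Lg
    rw [← ENNReal.tsum_mul_left]
    refine ENNReal.tsum_le_tsum fun r => ?_
    split_ifs
    · rw [← Rec8.sw_mul_left]
      refine Rec8.sw_mono' fun P _ => ?_
      rw [mul_comm]
      exact mul_le_mul_right (DE.Ub_le_SS k P) _
    · rw [mul_zero]
  have hU0 : ENNReal.ofReal (Ub k) ≠ 0 := (ENNReal.ofReal_pos.2 hU).ne'
  rw [mul_comm (ENNReal.ofReal (Ub k)), ENNReal.ofReal_mul (q := Ub k) (by positivity)] at h2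
  exact (ENNReal.mul_le_mul_iff_left hU0 ENNReal.ofReal_ne_top).1 h2

/-- the level near the head: sum over the first piece -/
lemma head_sum (hA : SsA) : ∃ K : ℝ, 1 ≤ K ∧ ∀ (k j E N : ℕ) (x y B : ℝ≥0∞) (Ψ G Wt : List Bool → ℝ≥0∞), DomJ k x Ψ →
    2 ^ (j + 1) ≤ E → j ≤ k →
    (∀ (n r : ℕ) (X P : List Bool), n < 2 ^ (j + 1) → X ∈ Brd n → P ∈ Irr r →
      Rec8.sw {Z | Z ∈ BU ∧ X ++ (P ++ Z) ∈ BrR E N} (fun Z => G (X ++ (P ++ Z))) ≤
        Ψ (rev P ++ rev X) * (y * ((if 2 ^ k < r then Wt P else 0) + B))) →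
    Rec8.sw (BrR E N) G ≤ y * (x * ∑' r : ℕ, (if 2 ^ k < r then Rec8.sw (Irr r) (fun P => SJ k j (rev P) * Wt P) else 0)) +
      y * (B * (ENNReal.ofReal (K * 2 ^ (k - j)) * x)) := by
  obtain ⟨K1, hK1, hend1⟩ := endsJ hA
  refine ⟨K1, hK1, fun k j E N x y B Ψ G Wt hΨ hjE hjk hrest => ?_⟩
  have s1 : Rec8.sw (BrR E N) G ≤ ∑' n : ℕ, ∑' r : ℕ, mu j n r * Rec8.sw (Brd n) (fun X =>
      Rec8.sw (Irr r) (fun P => Ψ (rev P ++ rev X) * (y * ((if 2 ^ k < r then Wt P else 0) + B)))) := by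
    refine (inR (j := j) (D := E) (N := N) hjE _).trans ?_
    refine ENNReal.tsum_le_tsum fun n => ENNReal.tsum_le_tsum fun r => ?_
    by_cases hn : 2 ^ (j + 1) ≤ n
    · rw [mu_eq_zero hn, zero_mul, zero_mul]
    exact mul_le_mul_right (Rec8.sw_mono' fun X hX => Rec8.sw_mono' fun P hP => hrest n r X P (by omega) hX hP) _
  refine s1.trans ?_
  have s2 : ∀ n r : ℕ, Rec8.sw (Brd n) (fun X => Rec8.sw (Irr r) (fun P => Ψ (rev P ++ rev X) *
        (y * ((if 2 ^ k < r then Wt P else 0) + B)))) =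
      Rec8.sw (Irr r) (fun P => (y * ((if 2 ^ k < r then Wt P else 0) + B)) *
        Rec8.sw (Brd n) (fun M => Ψ (rev P ++ M))) := by
    intro n r
    rw [Rec8.sw_comm]
    refine Rec8.sw_congr fun P _ => ?_
    rw [← Rec8.sw_mul_left, ← DO.sw_rev (Brd n) (fun t ht => Brd_rev ht)
      (fun M => (y * ((if 2 ^ k < r then Wt P else 0) + B)) * Ψ (rev P ++ M))]
    exact Rec8.sw_congr fun X _ => mul_comm _ _
  simp only [s2]
  have s3 : ∀ r : ℕ, ∑' n : ℕ, mu j n r * Rec8.sw (Irr r) (fun P =>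
      (y * ((if 2 ^ k < r then Wt P else 0) + B)) *
        Rec8.sw (Brd n) (fun M => Ψ (rev P ++ M))) ≤
      y * (x * (if 2 ^ k < r then Rec8.sw (Irr r) (fun P => SJ k j (rev P) * Wt P) else 0)) +
      y * (B * ∑' n : ℕ, mu j n r * Rec8.sw (Irr r) (fun P => Rec8.sw (Brd n) (fun M => Ψ (P ++ M)))) := by
    intro r
    have e1 : ∀ n : ℕ, Rec8.sw (Irr r) (fun P => (y * ((if 2 ^ k < r then Wt P else 0) + B)) *
        Rec8.sw (Brd n) (fun M => Ψ (rev P ++ M))) =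
        Rec8.sw (Irr r) (fun P => y * ((if 2 ^ k < r then Wt P else 0) *
          Rec8.sw (Brd n) (fun M => Ψ (rev P ++ M)))) +
        y * (B * Rec8.sw (Irr r) (fun P => Rec8.sw (Brd n) (fun M => Ψ (P ++ M)))) := by
      intro n
      rw [← DO.sw_rev (Irr r) (fun t ht => Irr_rev ht) (fun P => Rec8.sw (Brd n) (fun M => Ψ (P ++ M))),
        ← Rec8.sw_mul_left, ← Rec8.sw_mul_left, ← Rec8.sw_add]
      refine Rec8.sw_congr fun P _ => ?_
      ring
    have e1' : ∀ n : ℕ, mu j n r * Rec8.sw (Irr r) (fun P => (y * ((if 2 ^ k < r then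
        Wt P else 0) + B)) * Rec8.sw (Brd n) (fun M => Ψ (rev P ++ M))) =
        mu j n r * Rec8.sw (Irr r) (fun P => y * ((if 2 ^ k < r then Wt P else 0) *
          Rec8.sw (Brd n) (fun M => Ψ (rev P ++ M)))) +
        mu j n r * (y * (B * Rec8.sw (Irr r) (fun P => Rec8.sw (Brd n) (fun M => Ψ (P ++ M))))) := fun n => by
      rw [e1 n, mul_add]
    rw [tsum_congr e1', ENNReal.tsum_add]
    refine add_le_add ?_ ?_
    · rw [DO.tsum_pull (Irr r) (fun n => mu j n r) y (fun P => if 2 ^ k < r then Wt P else 0)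
        (fun n P => Rec8.sw (Brd n) (fun M => Ψ (rev P ++ M)))]
      have e3 : Rec8.sw (Irr r) (fun P => y * ((if 2 ^ k < r then Wt P else 0) *
            ∑' n : ℕ, mu j n r * Rec8.sw (Brd n) (fun M => Ψ (rev P ++ M)))) ≤
          Rec8.sw (Irr r) (fun P => y * ((if 2 ^ k < r then Wt P else 0) *
            (x * SJ k j (rev P)))) :=
        Rec8.sw_mono' fun P hP => mul_le_mul_right (mul_le_mul_right ((sum_low1 j r _).trans
          (hΨ.bdj j hjk r (rev P) (Irr_rev hP))) _) _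
      refine e3.trans (le_of_eq ?_)
      by_cases hr : 2 ^ k < r
      · simp only [if_pos hr]
        rw [← Rec8.sw_mul_left, ← Rec8.sw_mul_left]
        refine Rec8.sw_congr fun P _ => ?_
        ring
      · simp only [if_neg hr]
        simp [Rec8.sw_zero]
    · rw [← ENNReal.tsum_mul_left, ← ENNReal.tsum_mul_left]
      refine ENNReal.tsum_le_tsum fun n => le_of_eq ?_
      ring
  rw [ENNReal.tsum_comm]
  refine (ENNReal.tsum_le_tsum s3).trans ?_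
  rw [ENNReal.tsum_add, ENNReal.tsum_mul_left, ENNReal.tsum_mul_left, ENNReal.tsum_mul_left, ENNReal.tsum_mul_left]
  have t2 := hend1 k j x Ψ hΨ hjk
  gcongr

/-- the giants at the tail -/
lemma tail_giant {Kg c : ℝ} (hg : ∀ k j : ℕ, j ≤ k →
    ∑' r : ℕ, (if 2 ^ k < r then Rec8.sw (Irr r) (fun P => SJ k j (rev P)) else 0) ≤
      ENNReal.ofReal (Kg * (2 : ℝ) ^ (-(c * ((k : ℝ) - j))))) {k j : ℕ} (hj : j ≤ k) {y : ℝ≥0∞} {Φ : List Bool → ℝ≥0∞}
    (hΦ : DomJ k y Φ) :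
    ∑' m : ℕ, ∑' r : ℕ, mu j m r * (if 2 ^ k < r then Rec8.sw (Irr r) (fun P => Rec8.sw (Brd m) (fun M => Φ (P ++ M)))
      else 0) ≤ y * ENNReal.ofReal (Kg * (2 : ℝ) ^ (-(c * ((k : ℝ) - j)))) := by
  rw [ENNReal.tsum_comm]
  calc ∑' r : ℕ, ∑' m : ℕ, mu j m r * (if 2 ^ k < r then Rec8.sw (Irr r) (fun P => Rec8.sw (Brd m) (fun M => Φ (P ++ M)))
        else 0)
      ≤ ∑' r : ℕ, y * (if 2 ^ k < r then Rec8.sw (Irr r) (fun P => SJ k j (rev P)) else 0) := by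
        refine ENNReal.tsum_le_tsum fun r => ?_
        by_cases hr : 2 ^ k < r
        · simp only [if_pos hr]
          have h2 : ∑' n : ℕ, mu j n r * Rec8.sw (Irr r) (fun P => Rec8.sw (Brd n) (fun M => Φ (P ++ M))) =
              Rec8.sw (Irr r) (fun P => ∑' n : ℕ, mu j n r * Rec8.sw (Brd n) (fun M => Φ (P ++ M))) := by
            rw [NX_sw_tsum]
            exact tsum_congr fun n => (Rec8.sw_mul_left _ _ _).symm
          rw [h2, ← Rec8.sw_mul_left, DO.sw_rev (Irr r) (fun t ht => Irr_rev ht) (fun P => y * SJ k j P)]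
          exact Rec8.sw_mono' fun P hP => (sum_low1 j r _).trans (hΦ.bdj j hj r P hP)
        · simp only [if_neg hr, mul_zero]
          rw [tsum_zero]
    _ = y * ∑' r : ℕ, (if 2 ^ k < r then Rec8.sw (Irr r) (fun P => SJ k j (rev P)) else 0) := ENNReal.tsum_mul_left
    _ ≤ _ := mul_le_mul_right (hg k j hj) _

/-- the rest of a short leaf behind a piece that is not a giant -/
lemma rest_small {Kg c Ke : ℝ} (hg : ∀ k j : ℕ, j ≤ k →
    ∑' r : ℕ, (if 2 ^ k < r then Rec8.sw (Irr r) (fun P => SJ k j (rev P)) else 0) ≤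
      ENNReal.ofReal (Kg * (2 : ℝ) ^ (-(c * ((k : ℝ) - j)))))
    (he : ∀ (k j : ℕ) (x : ℝ≥0∞) (Φ : List Bool → ℝ≥0∞), DomJ k x Φ → j ≤ k →
      ∑' r : ℕ, ∑' n : ℕ, mu j n r * Rec8.sw (Irr r) (fun P => Rec8.sw (Brd n) (fun M => Φ (P ++ M))) ≤
        ENNReal.ofReal (Ke * 2 ^ (k - j)) * x)
    {k j N n r : ℕ} {lam : ℝ} {A y : ℝ≥0∞} {Ψ Φ : List Bool → ℝ≥0∞} (hΨ : Hered Ψ) (hΦ : DomJ k y Φ) (hj : j ≤ k)
    (hA : gf {Z : List Bool | (∃ h, 2 ^ k ≤ h ∧ Z ∈ Brd h) ∧ (Z.length : ℝ) < lam} ≤ A)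
    {X P : List Bool} (hn : n < 2 ^ (k + 1)) (hX : X ∈ Brd n) (hP : P ∈ Irr r) (hr : ¬ 2 ^ k < r)
    {G : List Bool → ℝ≥0∞} (hG1 : ∀ g, G g ≤ Ψ (rev g) * Φ g) (hG2 : ∀ g, ¬ (g.length : ℝ) < lam → G g = 0) :
    Rec8.sw {Z | Z ∈ BU ∧ X ++ (P ++ Z) ∈ BrR (2 ^ (k + 4)) N} (fun Z => G (X ++ (P ++ Z))) ≤
      Ψ (rev P ++ rev X) * (y * (ENNReal.ofReal (UU N) * ENNReal.ofReal (Kg * (2 : ℝ) ^ (-(c * ((k : ℝ) - j)))) +
        A * ENNReal.ofReal (Ke * 2 ^ (k - j)))) := by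
  classical
  have hp4 : 2 ^ (k + 4) = 8 * 2 ^ (k + 1) := by ring
  have hp1 : 2 ^ (k + 1) = 2 * 2 ^ k := by ring
  have hp0 : 1 ≤ 2 ^ k := Nat.one_le_two_pow
  have hpj : 2 ^ (j + 1) ≤ 2 ^ (k + 1) := Nat.pow_le_pow_right (by norm_num) (by omega)
  have hPb : P ∈ Brd r := hP.1
  obtain ⟨E, hE⟩ : ∃ E, E = 2 ^ (k + 4) := ⟨_, rfl⟩
  rw [← hE]
  have e0 : Rec8.sw {Z | Z ∈ BU ∧ X ++ (P ++ Z) ∈ BrR E N} (fun Z => G (X ++ (P ++ Z))) =
      Rec8.sw {Z | Z ∈ BU ∧ ∃ Y ∈ Brd n, Y ++ (P ++ Z) ∈ BrR E N}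
        (fun Z => if X ++ (P ++ Z) ∈ BrR E N then G (X ++ (P ++ Z)) else 0) := by
    simp only [Rec8.sw_ind]
    refine tsum_congr fun Z => ?_
    by_cases h1 : Z ∈ BU ∧ X ++ (P ++ Z) ∈ BrR E N
    · rw [if_pos (show Z ∈ {Z | Z ∈ BU ∧ X ++ (P ++ Z) ∈ BrR E N} from h1),
        if_pos (show Z ∈ {Z | Z ∈ BU ∧ ∃ Y ∈ Brd n, Y ++ (P ++ Z) ∈ BrR E N} from ⟨h1.1, X, hX, h1.2⟩), if_pos h1.2]
    · rw [if_neg (show Z ∉ {Z | Z ∈ BU ∧ X ++ (P ++ Z) ∈ BrR E N} from h1)]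
      split_ifs with a1 a2
      · exact absurd ⟨a1.1, a2⟩ h1
      · rw [mul_zero]
      · rfl
  rw [e0]
  refine (outR (k := j) (by omega) hP _).trans ?_
  have hfirst : ∑' m : ℕ, mu j m r * Rec8.sw {M | M ∈ Brd m ∧ ∃ Y ∈ Brd n, Y ++ (P ++ M) ∈ BrR E N}
      (fun Z => if X ++ (P ++ Z) ∈ BrR E N then G (X ++ (P ++ Z)) else 0) = 0 := by
    rw [ENNReal.tsum_eq_zero]
    intro m
    rcases Nat.lt_or_ge m (2 ^ (j + 1)) with hm | hm
    · have e : {M : List Bool | M ∈ Brd m ∧ ∃ Y ∈ Brd n, Y ++ (P ++ M) ∈ BrR E N} = ∅ := by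
        rw [Set.eq_empty_iff_forall_notMem]
        rintro M ⟨hM, Y, hY, H, h1, -, h3⟩
        have := Brd_height h3 (Brd_append hY (Brd_append hP.1 hM))
        omega
      rw [e]
      unfold Rec8.sw
      rw [tsum_empty, mul_zero]
    · rw [mu_eq_zero hm, zero_mul]
  rw [hfirst, zero_add]
  have hpt : ∀ m r' : ℕ, mu j m r' * Rec8.sw {Z | ∃ h, h ≤ N ∧ Z ∈ Brd h} (fun Z => Rec8.sw (Irr r') (fun P' =>
      Rec8.sw {M | M ∈ Brd m ∧ ∃ Y ∈ Brd n, Y ++ (P ++ (Z ++ (P' ++ M))) ∈ BrR E N}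
        (fun M => if X ++ (P ++ (Z ++ (P' ++ M))) ∈ BrR E N then G (X ++ (P ++ (Z ++ (P' ++ M)))) else 0))) ≤
      (Ψ (rev P ++ rev X) * ENNReal.ofReal (UU N)) *
        (mu j m r' * (if 2 ^ k < r' then Rec8.sw (Irr r') (fun P' => Rec8.sw (Brd m) (fun M => Φ (P' ++ M))) else 0)) +
      (Ψ (rev P ++ rev X) * A) *
        (mu j m r' * Rec8.sw (Irr r') (fun P' => Rec8.sw (Brd m) (fun M => Φ (P' ++ M)))) := by
    intro m r'
    rcases Nat.lt_or_ge m (2 ^ (j + 1)) with hm | hm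
    swap
    · rw [mu_eq_zero hm]
      simp
    obtain ⟨S, hS⟩ : ∃ S : Set (List Bool), S = {Z : List Bool | (∃ h, h ≤ N ∧ Z ∈ Brd h) ∧
        (¬ 2 ^ k < r' → (∃ h, 2 ^ k ≤ h ∧ Z ∈ Brd h) ∧ (Z.length : ℝ) < lam)} := ⟨_, rfl⟩
    obtain ⟨T, hT⟩ : ∃ T : ℝ≥0∞, T = Rec8.sw (Irr r') (fun P' => Rec8.sw (Brd m) (fun M => Φ (P' ++ M))) := ⟨_, rfl⟩
    have h1 : Rec8.sw {Z | ∃ h, h ≤ N ∧ Z ∈ Brd h} (fun Z => Rec8.sw (Irr r') (fun P' =>
        Rec8.sw {M | M ∈ Brd m ∧ ∃ Y ∈ Brd n, Y ++ (P ++ (Z ++ (P' ++ M))) ∈ BrR E N}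
          (fun M => if X ++ (P ++ (Z ++ (P' ++ M))) ∈ BrR E N then G (X ++ (P ++ (Z ++ (P' ++ M)))) else 0))) ≤
        gf S * (Ψ (rev P ++ rev X) * T) := by
      rw [← NX_const, Rec8.sw_ind, Rec8.sw_ind]
      refine ENNReal.tsum_le_tsum fun Z => ?_
      by_cases hZ : Z ∈ {Z | ∃ h, h ≤ N ∧ Z ∈ Brd h}
      swap
      · rw [if_neg hZ]
        exact zero_le
      rw [if_pos hZ]
      obtain ⟨v, hvN, hv⟩ := hZ
      by_cases hZS : Z ∈ S
      · rw [if_pos hZS]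
        refine mul_le_mul_right ?_ _
        rw [hT, ← Rec8.sw_mul_left]
        refine Rec8.sw_mono' fun P' hP' => ?_
        rw [← Rec8.sw_mul_left]
        refine Rec8.sw_mono (fun M hM => hM.1) fun M hM => ?_
        have hPM : P' ++ M ∈ Brd (r' + m) := Brd_append hP'.1 hM.1
        split_ifs with a1
        · refine (hG1 _).trans (mul_le_mul' ?_ ?_)
          · have e2 : rev (X ++ (P ++ (Z ++ (P' ++ M)))) = rev (Z ++ (P' ++ M)) ++ (rev P ++ rev X) := by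
              rw [← List.append_assoc, rev_append, show rev (X ++ P) = rev P ++ rev X by rw [rev_append]]
            rw [e2]
            exact hΨ _ ⟨_, Brd_rev (Brd_append hv hPM)⟩ _
          · have e2 : X ++ (P ++ (Z ++ (P' ++ M))) = (X ++ (P ++ Z)) ++ (P' ++ M) := by
              simp only [List.append_assoc]
            rw [e2]
            exact hΦ.her _ ⟨_, Brd_append hX (Brd_append hPb hv)⟩ _
        · exact zero_le
      · rw [if_neg hZS, nonpos_iff_eq_zero]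
        have h2 : Rec8.sw (Irr r') (fun P' =>
            Rec8.sw {M | M ∈ Brd m ∧ ∃ Y ∈ Brd n, Y ++ (P ++ (Z ++ (P' ++ M))) ∈ BrR E N}
              (fun M => if X ++ (P ++ (Z ++ (P' ++ M))) ∈ BrR E N then G (X ++ (P ++ (Z ++ (P' ++ M)))) else 0)) ≤ 0 := by
          refine le_trans (Rec8.sw_mono' (Ψ := fun _ => 0) fun P' hP' => ?_) (le_of_eq (Rec8.sw_zero _))
          refine le_trans (Rec8.sw_mono' (Ψ := fun _ => 0) fun M hM => ?_) (le_of_eq (Rec8.sw_zero _))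
          split_ifs with a1
          · rw [nonpos_iff_eq_zero]
            apply hG2
            intro hlen
            apply hZS
            rw [hS]
            refine ⟨⟨v, hvN, hv⟩, fun hr' => ⟨⟨v, ?_, hv⟩, ?_⟩⟩
            · obtain ⟨H, h5, -, h6⟩ := a1
              have h7 := Brd_height h6 (Brd_append hX (Brd_append hPb (Brd_append hv (Brd_append hP'.1 hM.1))))
              omega
            · simp only [List.length_append] at hlen
              push_cast at hlen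
              have b1 : (0 : ℝ) ≤ (X.length : ℝ) := Nat.cast_nonneg _
              have b2 : (0 : ℝ) ≤ (P.length : ℝ) := Nat.cast_nonneg _
              have b3 : (0 : ℝ) ≤ (P'.length : ℝ) := Nat.cast_nonneg _
              have b4 : (0 : ℝ) ≤ (M.length : ℝ) := Nat.cast_nonneg _
              linarith
          · exact le_rfl
        rw [nonpos_iff_eq_zero.1 h2, mul_zero]
    refine (mul_le_mul_right h1 _).trans ?_
    rw [← hT]
    by_cases hr' : 2 ^ k < r'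
    · have h3 : gf S ≤ ENNReal.ofReal (UU N) := by
        refine (gf_mono ?_).trans (gf_BU_le N)
        rintro Z hZ
        rw [hS] at hZ
        exact hZ.1
      rw [if_pos hr']
      refine le_trans (mul_le_mul_right (mul_le_mul_left h3 _) _) (le_trans (le_of_eq ?_) le_self_add)
      ring
    · have h3 : gf S ≤ A := by
        refine (gf_mono ?_).trans hA
        rintro Z hZ
        rw [hS] at hZ
        exact hZ.2 hr'
      rw [if_neg hr']
      refine le_trans (mul_le_mul_right (mul_le_mul_left h3 _) _) (le_trans (le_of_eq ?_) le_add_self)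
      ring
  refine (ENNReal.tsum_le_tsum fun m => ENNReal.tsum_le_tsum fun r' => hpt m r').trans ?_
  simp only [ENNReal.tsum_add, ENNReal.tsum_mul_left]
  have t1 := tail_giant hg hj hΦ
  have t2 := he k j y Φ hΦ hj
  rw [ENNReal.tsum_comm] at t2
  calc Ψ (rev P ++ rev X) * ENNReal.ofReal (UU N) * ∑' m : ℕ, ∑' r' : ℕ, mu j m r' *
        (if 2 ^ k < r' then Rec8.sw (Irr r') (fun P' => Rec8.sw (Brd m) (fun M => Φ (P' ++ M))) else 0) +
      Ψ (rev P ++ rev X) * A * ∑' m : ℕ, ∑' r' : ℕ, mu j m r' *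
        Rec8.sw (Irr r') (fun P' => Rec8.sw (Brd m) (fun M => Φ (P' ++ M)))
      ≤ Ψ (rev P ++ rev X) * ENNReal.ofReal (UU N) * (y * ENNReal.ofReal (Kg * (2 : ℝ) ^ (-(c * ((k : ℝ) - j))))) +
        Ψ (rev P ++ rev X) * A * (ENNReal.ofReal (Ke * 2 ^ (k - j)) * y) := by gcongr
    _ = _ := by ring

end SF

open SF DO DW TG in
/-- **two sided sum over the short leaves, exponential form** -/
theorem free_exp (h : Inp C δ) (hA : SsA) : ∃ K c : ℝ, 1 ≤ K ∧ 0 < c ∧ ∀ (k j j' N : ℕ) (A lam : ℝ) (x y : ℝ≥0∞)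
    (Ψ Φ : List Bool → ℝ≥0∞), DomJ k x Ψ → DomJ k y Φ → j ≤ k → j' ≤ k → 0 ≤ A →
    gf {Z : List Bool | (∃ h, 2 ^ k ≤ h ∧ Z ∈ Brd h) ∧ (Z.length : ℝ) < lam} ≤ ENNReal.ofReal A →
    Rec8.sw {g | g ∈ BrR (2 ^ (k + 4)) N ∧ (g.length : ℝ) < lam} (fun g => Ψ (rev g) * Φ g) ≤
      ENNReal.ofReal (K * ((2 : ℝ) ^ (-(c * ((k : ℝ) - j'))) * UU N +
        2 ^ (k - j') * (2 : ℝ) ^ (-(c * ((k : ℝ) - j))) * UU N + 2 ^ (k - j') * 2 ^ (k - j) * A)) * (x * y) := by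
  classical
  obtain ⟨Ks, c1, hKs, hc1, hss⟩ := ssJ1 h
  obtain ⟨Kg, c2, hKg, hc2, hg⟩ := giS h
  obtain ⟨Kh, hKh, hhead⟩ := head_sum hA
  obtain ⟨Ke, hKe, hend⟩ := endsJ hA
  obtain ⟨Kr, hKr, hrest⟩ := rest_domN (endsP_of hA)
  obtain ⟨c, hc⟩ : ∃ c, c = min c1 c2 := ⟨_, rfl⟩
  have hc0 : 0 < c := by rw [hc]; exact lt_min hc1 hc2
  have hKr0 : 0 ≤ Kr * Kg := mul_nonneg (by linarith) (by linarith)
  have hKh0 : 0 ≤ Kh * (Kg + Ke) := mul_nonneg (by linarith) (by linarith)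
  refine ⟨Ks + Kr * Kg + Kh * (Kg + Ke), c, by linarith, hc0,
    fun k j j' N A lam x y Ψ Φ hΨ hΦ hj hj' hA0 hAg => ?_⟩
  rcases Nat.lt_or_ge N (2 ^ (k + 4)) with hN | hN
  · have e : {g : List Bool | g ∈ BrR (2 ^ (k + 4)) N ∧ (g.length : ℝ) < lam} = ∅ := by
      rw [Set.eq_empty_iff_forall_notMem]
      rintro g ⟨⟨n, h1, h2, -⟩, -⟩
      omega
    rw [e]
    unfold Rec8.sw
    rw [tsum_empty]
    exact zero_le
  have hp4 : 2 ^ (k + 4) = 8 * 2 ^ (k + 1) := by ring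
  have hp1 : 2 ^ (k + 1) = 2 * 2 ^ k := by ring
  have hp0 : 1 ≤ 2 ^ k := Nat.one_le_two_pow
  have hpj : 2 ^ (j' + 1) ≤ 2 ^ (k + 1) := Nat.pow_le_pow_right (by norm_num) (by omega)
  have hUN : 0 < UU N := Num2Aux.UU_pos N
  have hUk := Ub_pos k
  have hUkN : Ub k ≤ UU N := Num2Aux.UU_mono (by omega)
  obtain ⟨G, hG⟩ : ∃ G : List Bool → ℝ≥0∞, G = fun g => if (g.length : ℝ) < lam then Ψ (rev g) * Φ g else 0 := ⟨_, rfl⟩
  have hGg : ∀ g, G g = if (g.length : ℝ) < lam then Ψ (rev g) * Φ g else 0 := fun g => by rw [hG]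
  have hG1 : ∀ g, G g ≤ Ψ (rev g) * Φ g := by
    intro g
    rw [hGg]
    split_ifs
    · exact le_rfl
    · exact zero_le
  have hG2 : ∀ g, ¬ (g.length : ℝ) < lam → G g = 0 := fun g hgl => by rw [hGg, if_neg hgl]
  have e1 : Rec8.sw {g | g ∈ BrR (2 ^ (k + 4)) N ∧ (g.length : ℝ) < lam} (fun g => Ψ (rev g) * Φ g) =
      Rec8.sw (BrR (2 ^ (k + 4)) N) G := by
    rw [Rec8.sw_ind, Rec8.sw_ind]
    refine tsum_congr fun g => ?_
    rw [hGg]
    by_cases h1 : g ∈ BrR (2 ^ (k + 4)) N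
    · by_cases h2 : (g.length : ℝ) < lam
      · rw [if_pos (show g ∈ {g | g ∈ BrR (2 ^ (k + 4)) N ∧ (g.length : ℝ) < lam} from ⟨h1, h2⟩), if_pos h1, if_pos h2]
      · rw [if_neg (fun h3 : g ∈ {g | g ∈ BrR (2 ^ (k + 4)) N ∧ (g.length : ℝ) < lam} => h2 h3.2), if_pos h1, if_neg h2,
          mul_zero]
    · rw [if_neg (fun h3 : g ∈ {g | g ∈ BrR (2 ^ (k + 4)) N ∧ (g.length : ℝ) < lam} => h1 h3.1), if_neg h1]
  rw [e1]
  obtain ⟨B, hB⟩ : ∃ B : ℝ≥0∞, B = ENNReal.ofReal (UU N) * ENNReal.ofReal (Kg * (2 : ℝ) ^ (-(c2 * ((k : ℝ) - j)))) +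
        ENNReal.ofReal A * ENNReal.ofReal (Ke * 2 ^ (k - j)) := ⟨_, rfl⟩
  have hrest' : ∀ (n r : ℕ) (X P : List Bool), n < 2 ^ (j' + 1) → X ∈ Brd n → P ∈ Irr r →
      Rec8.sw {Z | Z ∈ BU ∧ X ++ (P ++ Z) ∈ BrR (2 ^ (k + 4)) N} (fun Z => G (X ++ (P ++ Z))) ≤
        Ψ (rev P ++ rev X) * (y * ((if 2 ^ k < r then SS k P + ENNReal.ofReal (Kr * UU N) else 0) + B)) := by
    intro n r X P hn hX hP
    by_cases hr : 2 ^ k < r
    · rw [if_pos hr]
      have h1 := hrest (2 ^ (k + 4)) N k n r y Φ P hΦ.dom (by omega) hP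
      have h2 : Rec8.sw {Z | Z ∈ BU ∧ X ++ (P ++ Z) ∈ BrR (2 ^ (k + 4)) N} (fun Z => G (X ++ (P ++ Z))) ≤
          Ψ (rev P ++ rev X) * Rec8.sw {Z | Z ∈ BU ∧ ∃ Y ∈ Brd n, Y ++ (P ++ Z) ∈ BrR (2 ^ (k + 4)) N}
            (fun Z => Φ (P ++ Z)) := by
        rw [← Rec8.sw_mul_left]
        refine Rec8.sw_mono (fun Z hZ => ⟨hZ.1, X, hX, hZ.2⟩) fun Z hZ => ?_
        refine (hG1 _).trans (mul_le_mul' ?_ (hΦ.her X ⟨n, hX⟩ _))
        rw [rev_append, rev_append, List.append_assoc]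
        obtain ⟨z, hz⟩ := hZ.1
        exact hΨ.her (rev Z) ⟨z, Brd_rev hz⟩ _
      refine h2.trans (mul_le_mul_right (h1.trans (mul_le_mul_right ?_ y)) _)
      refine le_trans (add_le_add ?_ le_rfl) le_self_add
      split_ifs
      · exact le_rfl
      · exact zero_le
    · rw [if_neg hr, zero_add, hB]
      exact rest_small hg hend hΨ.her hΦ hj hAg (by omega) hX hP hr hG1 hG2
  refine (hhead k j' (2 ^ (k + 4)) N x y B Ψ G (fun P => SS k P + ENNReal.ofReal (Kr * UU N)) hΨ (by omega) hj'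
    hrest').trans ?_
  -- the giants at the head
  obtain ⟨q', hq'⟩ : ∃ q : ℝ, q = (2 : ℝ) ^ (-(c * ((k : ℝ) - j'))) := ⟨_, rfl⟩
  obtain ⟨q, hq⟩ : ∃ q : ℝ, q = (2 : ℝ) ^ (-(c * ((k : ℝ) - j))) := ⟨_, rfl⟩
  have hq0 : 0 < q := by rw [hq]; exact Real.rpow_pos_of_pos two_pos _
  have hq'0 : 0 < q' := by rw [hq']; exact Real.rpow_pos_of_pos two_pos _
  have hexp : ∀ (c' : ℝ) (i : ℕ), c ≤ c' → i ≤ k → (2 : ℝ) ^ (-(c' * ((k : ℝ) - i))) ≤ (2 : ℝ) ^ (-(c * ((k : ℝ) - i))) := by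
    intro c' i hcc hi
    refine Real.rpow_le_rpow_of_exponent_le (by norm_num) ?_
    have h5 : (i : ℝ) ≤ k := by exact_mod_cast hi
    have := mul_le_mul_of_nonneg_right hcc (by linarith : (0 : ℝ) ≤ (k : ℝ) - i)
    linarith
  have a1 : (2 : ℝ) ^ (-(c1 * ((k : ℝ) - j'))) ≤ q' := by rw [hq']; exact hexp c1 j' (by rw [hc]; exact min_le_left _ _) hj'
  have a2 : (2 : ℝ) ^ (-(c2 * ((k : ℝ) - j'))) ≤ q' := by rw [hq']; exact hexp c2 j' (by rw [hc]; exact min_le_right _ _) hj'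
  have a3 : (2 : ℝ) ^ (-(c2 * ((k : ℝ) - j))) ≤ q := by rw [hq]; exact hexp c2 j (by rw [hc]; exact min_le_right _ _) hj
  have t1 : ∑' r : ℕ, (if 2 ^ k < r then Rec8.sw (Irr r) (fun P => SJ k j' (rev P) *
      (SS k P + ENNReal.ofReal (Kr * UU N))) else 0) ≤ ENNReal.ofReal (Ks * q' * Ub k + Kr * UU N * (Kg * q')) := by
    have h1 : ∀ r : ℕ, (if 2 ^ k < r then Rec8.sw (Irr r) (fun P => SJ k j' (rev P) *
        (SS k P + ENNReal.ofReal (Kr * UU N))) else 0) =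
        (if 2 ^ k < r then Rec8.sw (Irr r) (fun P => SJ k j' (rev P) * SS k P) else 0) +
        ENNReal.ofReal (Kr * UU N) * (if 2 ^ k < r then Rec8.sw (Irr r) (fun P => SJ k j' (rev P)) else 0) := by
      intro r
      split_ifs
      · rw [← Rec8.sw_mul_left, ← Rec8.sw_add]
        refine Rec8.sw_congr fun P _ => ?_
        ring
      · rw [mul_zero, add_zero]
    rw [tsum_congr h1, ENNReal.tsum_add, ENNReal.tsum_mul_left, ENNReal.ofReal_add (by positivity) (by positivity),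
      ENNReal.ofReal_mul (p := Kr * UU N) (by positivity)]
    refine add_le_add ((hss k j' hj').trans (ENNReal.ofReal_le_ofReal ?_)) (mul_le_mul_right ((hg k j' hj').trans
      (ENNReal.ofReal_le_ofReal ?_)) _)
    · gcongr
    · gcongr
  have t2 : B ≤ ENNReal.ofReal (UU N * (Kg * q) + A * (Ke * 2 ^ (k - j))) := by
    rw [hB, ENNReal.ofReal_add (by positivity) (by positivity), ENNReal.ofReal_mul (p := UU N) hUN.le,
      ENNReal.ofReal_mul (p := A) hA0]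
    gcongr
  calc y * (x * ∑' r : ℕ, (if 2 ^ k < r then Rec8.sw (Irr r) (fun P => SJ k j' (rev P) *
        (SS k P + ENNReal.ofReal (Kr * UU N))) else 0)) + y * (B * (ENNReal.ofReal (Kh * 2 ^ (k - j')) * x))
      ≤ y * (x * ENNReal.ofReal (Ks * q' * Ub k + Kr * UU N * (Kg * q'))) +
        y * (ENNReal.ofReal (UU N * (Kg * q) + A * (Ke * 2 ^ (k - j))) * (ENNReal.ofReal (Kh * 2 ^ (k - j')) * x)) := by
        gcongr
    _ = ENNReal.ofReal ((Ks * q' * Ub k + Kr * UU N * (Kg * q')) +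
          (UU N * (Kg * q) + A * (Ke * 2 ^ (k - j))) * (Kh * 2 ^ (k - j'))) * (x * y) := by
        rw [ENNReal.ofReal_add (p := Ks * q' * Ub k + Kr * UU N * (Kg * q')) (by positivity) (by positivity),
          ENNReal.ofReal_mul (p := UU N * (Kg * q) + A * (Ke * 2 ^ (k - j))) (by positivity)]
        ring
    _ ≤ _ := by
        rw [← hq, ← hq']
        refine mul_le_mul_left (ENNReal.ofReal_le_ofReal ?_) _
        have b1 : Ks * q' * Ub k ≤ Ks * q' * UU N := mul_le_mul_of_nonneg_left hUkN (by positivity)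
        have p1 : 0 ≤ q' * UU N := by positivity
        have p2 : 0 ≤ 2 ^ (k - j') * q * UU N := by positivity
        have p3 : 0 ≤ 2 ^ (k - j') * 2 ^ (k - j) * A := by positivity
        have m1 : 0 ≤ Kr * Kg := by positivity
        have m2 : 0 ≤ Kh * Kg := by positivity
        have m3 : 0 ≤ Kh * Ke := by positivity
        have m4 : 0 ≤ Ks := by linarith
        calc (Ks * q' * Ub k + Kr * UU N * (Kg * q')) + (UU N * (Kg * q) + A * (Ke * 2 ^ (k - j))) * (Kh * 2 ^ (k - j'))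
            ≤ (Ks * q' * UU N + Kr * UU N * (Kg * q')) + (UU N * (Kg * q) + A * (Ke * 2 ^ (k - j))) * (Kh * 2 ^ (k - j')) := by
              linarith
          _ = (Ks + Kr * Kg) * (q' * UU N) + (Kh * Kg) * (2 ^ (k - j') * q * UU N) +
              (Kh * Ke) * (2 ^ (k - j') * 2 ^ (k - j) * A) := by ring
          _ ≤ (Ks + Kr * Kg + Kh * (Kg + Ke)) * (q' * UU N) + (Ks + Kr * Kg + Kh * (Kg + Ke)) * (2 ^ (k - j') * q * UU N) +
              (Ks + Kr * Kg + Kh * (Kg + Ke)) * (2 ^ (k - j') * 2 ^ (k - j) * A) := by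
              refine add_le_add (add_le_add ?_ ?_) ?_
              · exact mul_le_mul_of_nonneg_right (by nlinarith) p1
              · exact mul_le_mul_of_nonneg_right (by nlinarith) p2
              · exact mul_le_mul_of_nonneg_right (by nlinarith) p3
          _ = _ := by ring

end NTW

end HexObs
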