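import Pool.Agent.NTW.DmJ
import Pool.Agent.NT.TallV

/-!
NTW: the leaves without backtracks and with few letters have small norm (sum over all heights, with the exponential moment
of the height), two functionals.
-/

set_option autoImplicit false

namespace HexObs

namespace NTW

open Finset TS SDN SDN.CN NTm

open scoped ENNReal

/-- the classes of the short leaves have small norm (near and two sided) -/
def ShortN (Dm : ℕ → ℝ≥0∞ → (List Bool → ℝ≥0∞) → Prop) : Prop := ∀ J : ℕ, 6 ≤ J → ∀ δ : ℝ, 0 < δ →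
  ∃ (d : ℝ) (k0 : ℕ), 0 < d ∧ ∀ (kc : ℕ) (lam : ℝ), k0 ≤ kc → T2.Short (2 ^ (kc + J)) lam d →
    (∀ (x : ℝ≥0∞) (Φ : List Bool → ℝ≥0∞), Dm kc x Φ →
      xT (2 ^ (kc + 4)) kc (vA (2 ^ (kc + 4)) (SL kc J lam) Φ) ≤ ENNReal.ofReal δ * x) ∧
    (∀ (y x : ℝ≥0∞) (Ψ Φ : List Bool → ℝ≥0∞), Dm kc y Ψ → Flp (2 ^ (kc + 4)) Ψ → Dm kc x Φ →
      Rec8.sw (SL kc J lam) (fun g => Ψ (rev g) * Φ g) ≤ ENNReal.ofReal (δ * Ub kc) * (y * x))

/-- **the norm of the short leaves, all heights, two functionals** -/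
theorem smG_short {C δ0 : ℝ} (hI : Inp C δ0) (hA : SsA) (h3 : Ss3) (hD : SsD) (hSh : ShortN DmJ) :
    ∃ (d : ℝ) (s k0 : ℕ), 0 < d ∧ 6 ≤ s ∧ ∀ (kc : ℕ) (lam : ℝ) (y : ℝ≥0∞) (Ψ : List Bool → ℝ≥0∞), k0 ≤ kc →
      AS lam (d * Ub kc) → DmJ kc y Ψ → Flp (2 ^ (kc + 4)) Ψ →
      ∃ ν : ℕ → ℝ≥0∞, TG.SmG (SHO lam) (fun _ => 1) Ψ y (DmJ kc) kc s ν := by
  obtain ⟨Ka, hKa, hclean⟩ := clean_XY
  obtain ⟨K1, hK1, hdx⟩ := DmJ_dx hI hA h3
  obtain ⟨K2, hK2, hpair⟩ := DmJ_pair hA hD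
  obtain ⟨K3, hK3, hqx⟩ := DmJ_qx hI hA hD
  obtain ⟨K, s, hK, hs, hcn'⟩ := hclean (Ka + K1 + K2 + K3) (by linarith)
  have hcn : ∀ (k n : ℕ) (Φ Ψ : List Bool → ℝ≥0∞) (x y : ℝ≥0∞), DmJ k x Φ → DmJ k y Ψ → Flp (2 ^ (k + 4)) Ψ →
      xT (2 ^ (k + 4)) k (vA (2 ^ (k + 4)) (CK (k + 5) (k + s) n ∩ HB (2 ^ (k + 4))) Φ) ≤ ENNReal.ofReal (K / 4 ^ n) * x ∧
      Rec8.sw (CK (k + 5) (k + s) n ∩ HB (2 ^ (k + 4))) (fun g => Ψ (rev g) * Φ g) ≤
        ENNReal.ofReal (K * Ub k / 4 ^ n) * (y * x) := fun k n Φ Ψ x y hΦ hΨ hf =>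
    hcn' k n Φ (fun g => Ψ (rev g)) x y ((hdx k x Φ hΦ).le (by linarith) (by linarith))
      (QX_le (hqx k y Ψ hΨ hf) (by linarith)) fun N => (hpair k x y Ψ Φ hΨ hΦ N).trans (mul_le_mul_left
        (ENNReal.ofReal_le_ofReal (mul_le_mul_of_nonneg_right (by linarith) (Num2Aux.UU_pos N).le)) _)
  clear hcn'
  -- the classes of the large heights
  obtain ⟨n0, hn0⟩ : ∃ n0 : ℕ, 4 * K * (1 / 2) ^ n0 ≤ 1 / 8 := by
    obtain ⟨n0, hn0⟩ := exists_pow_lt_of_lt_one (show 0 < 1 / (32 * K) by positivity) (show (1 / 2 : ℝ) < 1 by norm_num)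
    refine ⟨n0, ?_⟩
    calc 4 * K * (1 / 2) ^ n0 ≤ 4 * K * (1 / (32 * K)) := by gcongr
      _ = 1 / 8 := by
          field_simp
          norm_num
  obtain ⟨δ, hδ⟩ : ∃ δ : ℝ, δ = 1 / (8 * (n0 + 1) * 2 ^ n0) := ⟨_, rfl⟩
  have hδ0 : 0 < δ := by rw [hδ]; positivity
  obtain ⟨J, hJ⟩ : ∃ J, J = s + n0 := ⟨_, rfl⟩
  obtain ⟨d, k0, hd, hsm⟩ := hSh J (by omega) δ hδ0
  refine ⟨d, s, k0, hd, hs, fun kc lam y Ψ hkc hAS hΨ hf => ?_⟩
  have hU := Ub_pos kc
  obtain ⟨hSn, hSf⟩ := hsm kc lam hkc (AS_short hAS (by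
    have hN : Ub kc ≤ UU (2 ^ (kc + J)) := UU_mono (Nat.pow_le_pow_right (by norm_num) (by omega))
    gcongr))
  have hcl : ∀ j : ℕ, j < n0 → TV.Cj (SHO lam) kc s j ⊆ SL kc J lam := by
    rintro j hj g ⟨⟨⟨-, h, h1, h2, h3⟩, h', h4, h5⟩, h6⟩
    have e : h' = h := Brd_height h5 h3
    refine ⟨⟨h, by omega, ?_, h3⟩, h6⟩
    have h8 : (j + 1) * 2 ^ (kc + s) ≤ 2 ^ n0 * 2 ^ (kc + s) := Nat.mul_le_mul_right _ (by
      have := Nat.lt_two_pow_self (n := n0)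
      omega)
    rw [← pow_add] at h8
    rw [hJ]
    rw [show kc + (s + n0) = n0 + (kc + s) by omega]
    omega
  refine ⟨fun j => if j < n0 then ENNReal.ofReal δ else ENNReal.ofReal (K / 4 ^ j), ?_, ?_, ?_, ?_⟩
  · exact fun Φ hΦ => DmJ_dm kc Φ hΦ
  · intro j x Φ hΦ
    have e1 : (fun g => (fun _ : List Bool => (1 : ℝ≥0∞)) g * Φ g) = Φ := by
      funext g
      exact one_mul _
    show xT (2 ^ (kc + 4)) kc (vA (2 ^ (kc + 4)) (TV.Cj (SHO lam) kc s j) (fun g => (fun _ : List Bool => (1 : ℝ≥0∞)) g * Φ g)) ≤ _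
    rw [e1]
    by_cases hj : j < n0
    · rw [if_pos hj]
      refine (xT_mono fun t => ?_).trans (hSn x Φ hΦ)
      unfold vA
      exact Rec8.sw_mono (fun g hg => ⟨hcl j hj hg.1, hg.2⟩) fun _ _ => le_rfl
    · rw [if_neg hj]
      refine (xT_mono fun t => ?_).trans (hcn kc j Φ Ψ x y hΦ hΨ hf).1
      unfold vA
      exact Rec8.sw_mono (fun g hg => ⟨hg.1.1, hg.2⟩) fun _ _ => le_rfl
  · intro j x Φ hΦ
    have e1 : (fun g => (fun _ : List Bool => (1 : ℝ≥0∞)) g * (Ψ (rev g) * Φ g)) = fun g => Ψ (rev g) * Φ g := by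
      funext g
      exact one_mul _
    show Rec8.sw (TV.Cj (SHO lam) kc s j) (fun g => (fun _ : List Bool => (1 : ℝ≥0∞)) g * (Ψ (rev g) * Φ g)) ≤ _
    rw [e1]
    by_cases hj : j < n0
    · rw [if_pos hj]
      refine (Rec8.sw_mono (B := SL kc J lam) (Ψ := fun g => Ψ (rev g) * Φ g) (hcl j hj) fun _ _ => le_rfl).trans
        ((hSf y x Ψ Φ hΨ hf hΦ).trans (le_of_eq ?_))
      rw [ENNReal.ofReal_mul hδ0.le]
    · rw [if_neg hj]
      refine (Rec8.sw_mono (B := CK (kc + 5) (kc + s) j ∩ HB (2 ^ (kc + 4))) (Ψ := fun g => Ψ (rev g) * Φ g)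
        (fun g hg => hg.1) fun _ _ => le_rfl).trans ((hcn kc j Φ Ψ x y hΦ hΨ hf).2.trans (le_of_eq ?_))
      rw [← ENNReal.ofReal_mul (by positivity)]
      congr 2
      ring
  · -- the sum
    have e2 : ∀ j : ℕ, (2 : ℝ≥0∞) ^ (j + 1) = ENNReal.ofReal (2 ^ (j + 1)) := by
      intro j
      rw [ENNReal.ofReal_pow (by norm_num)]
      congr 1
      norm_num
    have h1 : ∀ j : ℕ, (2 : ℝ≥0∞) ^ (j + 1) * (if j < n0 then ENNReal.ofReal δ else ENNReal.ofReal (K / 4 ^ j)) ≤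
        (if j < n0 then ENNReal.ofReal (2 ^ n0 * δ) else 0) + ENNReal.ofReal (if j < n0 then 0 else 2 * K * (1 / 2) ^ j) := by
      intro j
      rw [e2]
      split_ifs with hj
      · rw [← ENNReal.ofReal_mul (by positivity)]
        refine le_trans (ENNReal.ofReal_le_ofReal ?_) le_self_add
        apply mul_le_mul_of_nonneg_right _ hδ0.le
        exact pow_le_pow_right₀ (by norm_num) (by omega)
      · rw [← ENNReal.ofReal_mul (by positivity), zero_add]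
        apply ENNReal.ofReal_le_ofReal
        apply le_of_eq
        have e4 : (4 : ℝ) ^ j = 2 ^ j * 2 ^ j := by
          rw [← mul_pow]
          norm_num
        rw [e4, one_div, inv_pow, pow_succ]
        field_simp
    refine (ENNReal.tsum_le_tsum h1).trans ?_
    rw [ENNReal.tsum_add]
    have h2 : ∑' j : ℕ, (if j < n0 then ENNReal.ofReal (2 ^ n0 * δ) else 0) ≤ ENNReal.ofReal (1 / 8) := by
      rw [tsum_eq_sum (s := range n0) (fun j hj => by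
        rw [Finset.mem_range] at hj
        rw [if_neg hj])]
      have h3 : ∑ j ∈ range n0, (if j < n0 then ENNReal.ofReal (2 ^ n0 * δ) else 0) = n0 * ENNReal.ofReal (2 ^ n0 * δ) := by
        rw [Finset.sum_congr rfl (g := fun _ => ENNReal.ofReal (2 ^ n0 * δ)) (fun j hj => by
          rw [Finset.mem_range] at hj
          rw [if_pos hj]), Finset.sum_const, Finset.card_range, nsmul_eq_mul]
      rw [h3, ← ENNReal.ofReal_natCast, ← ENNReal.ofReal_mul (by positivity)]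
      apply ENNReal.ofReal_le_ofReal
      rw [hδ]
      rw [show (n0 : ℝ) * (2 ^ n0 * (1 / (8 * (n0 + 1) * 2 ^ n0))) = (n0 / (n0 + 1)) / 8 by field_simp]
      have h4 : (n0 : ℝ) / (n0 + 1) ≤ 1 := by
        rw [div_le_one (by positivity)]
        linarith
      linarith
    have h5 : ∑' j : ℕ, ENNReal.ofReal (if j < n0 then 0 else 2 * K * (1 / 2) ^ j) ≤ ENNReal.ofReal (1 / 8) := by
      have hsum : Summable (fun j : ℕ => 2 * K * (1 / 2 : ℝ) ^ (j + n0)) := by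
        have := (summable_geometric_of_lt_one (r := (1 / 2 : ℝ)) (by norm_num) (by norm_num)).mul_left (2 * K * (1 / 2) ^ n0)
        refine this.congr fun j => ?_
        rw [pow_add]
        ring
      obtain ⟨f, hf⟩ : ∃ f : ℕ → ℝ≥0∞, f = fun j => ENNReal.ofReal (if j < n0 then 0 else 2 * K * (1 / 2) ^ j) := ⟨_, rfl⟩
      have hf1 : ∀ j, j < n0 → f j = 0 := fun j hj => by
        rw [hf]
        show ENNReal.ofReal (if j < n0 then 0 else 2 * K * (1 / 2) ^ j) = 0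
        rw [if_pos hj, ENNReal.ofReal_zero]
      have hf2 : ∀ j, f (j + n0) = ENNReal.ofReal (2 * K * (1 / 2 : ℝ) ^ (j + n0)) := fun j => by
        rw [hf]
        show ENNReal.ofReal (if j + n0 < n0 then 0 else 2 * K * (1 / 2) ^ (j + n0)) = _
        rw [if_neg (by omega)]
      have h6 : ∑' j : ℕ, f j = ∑' j : ℕ, ENNReal.ofReal (2 * K * (1 / 2 : ℝ) ^ (j + n0)) := by
        have h8 := Summable.sum_add_tsum_nat_add' (f := f) (k := n0) ENNReal.summable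
        rw [← h8, Finset.sum_eq_zero (fun j hj => hf1 j (Finset.mem_range.1 hj)), zero_add]
        exact tsum_congr hf2
      rw [← hf]
      rw [h6, ← ENNReal.ofReal_tsum_of_nonneg (fun j => by positivity) hsum]
      apply ENNReal.ofReal_le_ofReal
      have h7 : ∀ j : ℕ, 2 * K * (1 / 2 : ℝ) ^ (j + n0) = (2 * K * (1 / 2) ^ n0) * (1 / 2) ^ j := by
        intro j
        rw [pow_add]
        ring
      rw [tsum_congr h7, tsum_mul_left, tsum_geometric_two]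
      linarith
    refine (add_le_add h2 h5).trans ?_
    rw [← ENNReal.ofReal_add (by norm_num) (by norm_num)]
    apply ENNReal.ofReal_le_ofReal
    norm_num

end NTW

end HexObs
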