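import Pool.Agent.NTW.CleanX
import Pool.Agent.NT.Step

/-!
NTW: one step of the norm estimate of the leaves without backtracks, with a weight q at the start of the leaf.
-/

set_option autoImplicit false

namespace HexObs

namespace NTW

open Finset TS SDN SDN.CN NTm

open scoped ENNReal

open Classical in
/-- one level, with weights -/
theorem step_aW {k A1 A2 D a : ℕ} {G X W : Set (List Bool)} (h : Stp k A1 A2 D G X W) {Φ : List Bool → ℝ≥0∞} (hΦ : HerD D Φ)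
    (ha1 : A1 ≤ a) (ha2 : a < A2) (q : List Bool → ℝ≥0∞) (hq1 : ∀ x ∈ X, ∀ y ∈ W, q (x ++ y) ≤ q x)
    (hq2 : ∀ x ∈ X, ∀ y z, unf [x, y, z] ∈ G → q (unf [x, y, z]) ≤ q x) :
    Rec8.sw G (fun g => q g * Φ g) ≤
      Rec8.sw X (fun x => q x * ((if hgt x = a then 1 else 0) * Rec8.sw W Φ)) +
      Rec8.sw X (fun x => q x * Rec8.sw {y | y ∈ SBr (k + 5) ∧ LFold x y}
        (fun y => (if a ≤ hgt x ∧ hgt x ≤ a + hgt y then 1 else 0) * Rec8.sw {z | z ∈ W ∧ LFold y z} Φ)) := by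
  refine (TN5b_sw_union (B := {g | g ∈ G ∧ ∃ t1 ∈ Brd a, t1 ∈ X ∧ ∃ t2 ∈ W, g = t1 ++ t2})
    (C := {g | g ∈ G ∧ ∃ G1 D G3, G1 ∈ X ∧ D ∈ SBr (k + 5) ∧ G3 ∈ W ∧ unf [G1, D, G3] = g ∧ LFold G1 D ∧
      LFold D G3 ∧ a ≤ hgt G1 ∧ hgt G1 ≤ a + hgt D}) ?_ _).trans ?_
  · rintro g hg
    rcases h.dec g hg a ha1 ha2 with h1 | h1
    · exact Or.inl ⟨hg, h1⟩
    · exact Or.inr ⟨hg, h1⟩
  · refine add_le_add ?_ ?_
    · -- cut
      have e1 : Rec8.sw X (fun x => q x * ((if hgt x = a then 1 else 0) * Rec8.sw W Φ)) =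
          Rec8.sw X (fun x => Rec8.sw W (fun y => (q x * (if hgt x = a then 1 else 0)) * Φ y)) :=
        Rec8.sw_congr fun x _ => by rw [Rec8.sw_mul_left]; ring
      rw [e1, sw2]
      refine Rec8.sw_cover _ _ _ (fun p : List Bool × List Bool => p.1 ++ p.2) ?_
      rintro g ⟨hgW, t1, ht1, ht1X, t2, ht2, rfl⟩
      refine ⟨(t1, t2), rfl, ?_⟩
      rw [if_pos (⟨ht1X, ht2⟩ : _ ∧ _), wE_append]
      show wE t1 * wE t2 * (q (t1 ++ t2) * Φ (t1 ++ t2)) ≤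
        wE t1 * (wE t2 * ((q t1 * (if hgt t1 = a then 1 else 0)) * Φ t2))
      rw [if_pos (hgt_eq ht1), mul_one, mul_assoc]
      gcongr
      · exact hq1 _ ht1X _ ht2
      · exact hΦ.her t1 ⟨a, ht1⟩ t2
    · -- zig-zag
      have e1 : Rec8.sw X (fun x => q x * Rec8.sw {y | y ∈ SBr (k + 5) ∧ LFold x y}
          (fun y => (if a ≤ hgt x ∧ hgt x ≤ a + hgt y then 1 else 0) * Rec8.sw {z | z ∈ W ∧ LFold y z} Φ)) =
          Rec8.sw X (fun x => Rec8.sw {y | y ∈ SBr (k + 5) ∧ LFold x y}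
          (fun y => (q x * (if a ≤ hgt x ∧ hgt x ≤ a + hgt y then 1 else 0)) * Rec8.sw {z | z ∈ W ∧ LFold y z} Φ)) :=
        Rec8.sw_congr fun x _ => by
          rw [← Rec8.sw_mul_left]
          exact Rec8.sw_congr fun y _ => by ring
      rw [e1, sw3]
      refine Rec8.sw_cover _ _ _ (fun p : List Bool × (List Bool × List Bool) => unf [p.1, p.2.1, p.2.2]) ?_
      rintro g ⟨hgW, G1, D1, G3, hG1, hD, hG3, hunf, f1, f2, i1, i2⟩
      refine ⟨(G1, (D1, G3)), hunf, ?_⟩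
      have n1 : G1 ≠ [] := by
        obtain ⟨u, u1, u3⟩ := h.hX hG1
        have : 1 ≤ 2 ^ (k + 5) := Nat.one_le_two_pow
        exact Brd_ne_nil u3 (by omega)
      have n2 : D1 ≠ [] := by
        obtain ⟨u, u1, u2, u3⟩ := hD
        exact Brd_ne_nil u3 u1
      have n3 : G3 ≠ [] := by
        obtain ⟨u, u1, u3⟩ := h.hW hG3
        have := h.hD
        exact Brd_ne_nil u3 (by omega)
      have hqG : q g ≤ q G1 := by
        have := hq2 G1 hG1 D1 G3 (by rw [hunf]; exact hgW)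
        rwa [hunf] at this
      rw [if_pos (⟨hG1, ⟨hD, f1⟩, hG3, f2⟩ : _ ∧ _ ∧ _)]
      show wE g * (q g * Φ g) ≤ wE G1 * (wE D1 * ((q G1 * (if a ≤ hgt G1 ∧ hgt G1 ≤ a + hgt D1 then 1 else 0)) *
        (wE G3 * Φ G3)))
      rw [if_pos ⟨i1, i2⟩, mul_one]
      have h1 : wE g ≤ wE G1 * (wE D1 * wE G3) := by
        rw [← hunf]
        exact wE_unf3 n1 n2 n3
      have h2 : Φ g ≤ Φ G3 := by
        obtain ⟨s', hs'⟩ : ∃ s', g = s' ++ G3 := by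
          refine ⟨G1.dropLast ++ (!lst G1) :: (!lst G1) :: (D1.dropLast ++ [(!lst D1), (!lst D1)]), ?_⟩
          rw [← hunf]
          show G1.dropLast ++ (!lst G1) :: (!lst G1) :: (D1.dropLast ++ (!lst D1) :: (!lst D1) :: G3) = _
          simp [List.append_assoc]
        rw [hs']
        refine hΦ.suf s' G3 (h.hW hG3) ?_
        rw [← hs']
        exact h.hG hgW
      calc wE g * (q g * Φ g) ≤ (wE G1 * (wE D1 * wE G3)) * (q G1 * Φ G3) := by gcongr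
        _ = _ := by ring

open Classical in
/-- average over the levels of the window [A1, A2), with weights -/
theorem step_avgW {k A1 A2 D : ℕ} {G X W : Set (List Bool)} (h : Stp k A1 A2 D G X W) {Φ : List Bool → ℝ≥0∞}
    (hΦ : HerD D Φ) (q : List Bool → ℝ≥0∞) (hq1 : ∀ x ∈ X, ∀ y ∈ W, q (x ++ y) ≤ q x)
    (hq2 : ∀ x ∈ X, ∀ y z, unf [x, y, z] ∈ G → q (unf [x, y, z]) ≤ q x) :
    ((A2 - A1 : ℕ) : ℝ≥0∞) * Rec8.sw G (fun g => q g * Φ g) ≤
      Rec8.sw X (fun x => q x * (257 * Rec8.sw W Φ)) +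
      ∑ j ∈ Ico 4 (k + 5), 2 ^ (j + 1) * Rec8.sw X (fun x => q x * ZZ j W Φ x) := by
  have h1 : ∀ a ∈ Ico A1 A2, Rec8.sw G (fun g => q g * Φ g) ≤
      Rec8.sw X (fun x => q x * ((if hgt x = a then 1 else 0) * Rec8.sw W Φ)) +
      Rec8.sw X (fun x => q x * Rec8.sw {y | y ∈ SBr (k + 5) ∧ LFold x y}
        (fun y => (if a ≤ hgt x ∧ hgt x ≤ a + hgt y then 1 else 0) * Rec8.sw {z | z ∈ W ∧ LFold y z} Φ)) := by
    intro a ha
    rw [Finset.mem_Ico] at ha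
    exact step_aW h hΦ ha.1 ha.2 q hq1 hq2
  have h2 := Finset.sum_le_sum h1
  rw [Finset.sum_const, nsmul_eq_mul, Nat.card_Ico, Finset.sum_add_distrib, ← Rec8.sw_sum, ← Rec8.sw_sum] at h2
  refine h2.trans ?_
  have h3 : Rec8.sw X (fun x => ∑ a ∈ Ico A1 A2, q x * ((if hgt x = a then 1 else 0) * Rec8.sw W Φ)) ≤
      Rec8.sw X (fun x => q x * Rec8.sw W Φ) := by
    refine Rec8.sw_mono' fun x _ => ?_
    rw [← Finset.mul_sum, ← Finset.sum_mul]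
    have h4 : ∑ a ∈ Ico A1 A2, (if hgt x = a then (1 : ℝ≥0∞) else 0) ≤ 1 := by
      rw [Finset.sum_ite_eq]
      split_ifs
      · exact le_rfl
      · exact zero_le
    calc q x * ((∑ a ∈ Ico A1 A2, (if hgt x = a then (1 : ℝ≥0∞) else 0)) * Rec8.sw W Φ) ≤
          q x * (1 * Rec8.sw W Φ) := by gcongr
      _ = _ := by rw [one_mul]
  have h5 : Rec8.sw X (fun x => ∑ a ∈ Ico A1 A2, q x * Rec8.sw {y | y ∈ SBr (k + 5) ∧ LFold x y}
        (fun y => (if a ≤ hgt x ∧ hgt x ≤ a + hgt y then 1 else 0) * Rec8.sw {z | z ∈ W ∧ LFold y z} Φ)) ≤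
      Rec8.sw X (fun x => q x * (256 * Rec8.sw W Φ) + ∑ j ∈ Ico 4 (k + 5), 2 ^ (j + 1) * (q x * ZZ j W Φ x)) := by
    refine Rec8.sw_mono' fun x hx => ?_
    rw [← Finset.mul_sum, ← Rec8.sw_sum]
    have hxH : x ∈ HB (2 ^ (k + 5)) := h.hX hx
    have h8 : q x * (256 * Rec8.sw W Φ) + ∑ j ∈ Ico 4 (k + 5), 2 ^ (j + 1) * (q x * ZZ j W Φ x) =
        q x * (256 * Rec8.sw W Φ + ∑ j ∈ Ico 4 (k + 5), 2 ^ (j + 1) * ZZ j W Φ x) := by
      rw [mul_add, Finset.mul_sum]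
      congr 1
      exact Finset.sum_congr rfl fun j _ => by ring
    rw [h8]
    refine mul_le_mul_right ?_ _
    refine le_trans (Rec8.sw_mono' fun y _ => ?_) (dyadic hxH)
    rw [← Finset.sum_mul]
    gcongr
    rw [← Finset.sum_filter, Finset.sum_const, nsmul_eq_mul, mul_one]
    have := card_win A1 A2 (hgt x) (hgt y)
    have h6 : (((Ico A1 A2).filter (fun a => a ≤ hgt x ∧ hgt x ≤ a + hgt y)).card : ℝ≥0∞) ≤
        ((hgt y + 1 : ℕ) : ℝ≥0∞) := by exact_mod_cast this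
    push_cast at h6
    exact h6
  refine (add_le_add h3 h5).trans (le_of_eq ?_)
  rw [Rec8.sw_add, Rec8.sw_sum, ← add_assoc]
  congr 1
  · rw [← Rec8.sw_add]
    refine Rec8.sw_congr fun x _ => ?_
    have : (257 : ℝ≥0∞) = 1 + 256 := by norm_num
    rw [this, add_mul, one_mul, mul_add]
  · exact Finset.sum_congr rfl fun j _ => Rec8.sw_mul_left _ _ _

/-- the two ended free part: mix = the first pieces with the weight q and any functional, near and free = the bounds of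
the rest -/
theorem free2W {k A1 A2 D : ℕ} {G X W : Set (List Bool)} (h : Stp k A1 A2 D G X W) {Φ : List Bool → ℝ≥0∞}
    (hΦ : HerD D Φ) (q : List Bool → ℝ≥0∞) (hq1 : ∀ x ∈ X, ∀ y ∈ W, q (x ++ y) ≤ q x)
    (hq2 : ∀ x ∈ X, ∀ y z, unf [x, y, z] ∈ G → q (unf [x, y, z]) ≤ q x) {x y : ℝ≥0∞} {m κ K2 : ℝ} (hm : 0 ≤ m)
    (hκ : 0 ≤ κ) (hK2 : 1 ≤ K2)
    (hnA : ∀ (i : ℕ) (Ψ : List Bool → ℝ≥0∞), Hered Ψ → xT (2 ^ (i + 4)) i (vA (2 ^ (i + 4)) (BrR (2 ^ (i + 4)) (2 ^ (i + 4 + 1))) Ψ) ≤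
      ENNReal.ofReal (32 * K2) * xT (2 ^ (i + 4)) i Ψ)
    (h1 : ∀ i, i ≤ k → xT (2 ^ (i + 4)) i (vA (2 ^ (i + 4)) W Φ) ≤ ENNReal.ofReal (m / Ub i) * x)
    (h2 : Rec8.sw W Φ ≤ ENNReal.ofReal m * x)
    (hmix : ∀ i, i ≤ k → ∀ Θ : List Bool → ℝ≥0∞, Hered Θ →
      Rec8.sw X (fun g => q g * Θ g) ≤ ENNReal.ofReal κ * (y * xT (2 ^ (i + 4)) i Θ)) :
    ((A2 - A1 : ℕ) : ℝ≥0∞) * Rec8.sw G (fun g => q g * Φ g) ≤ ENNReal.ofReal (κ * lk k K2 * m) * (y * x) := by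
  refine (step_avgW h hΦ q hq1 hq2).trans ?_
  have h5 := link (k := k) (W := W) (Φ := Φ) (x := x) (m := m) (K1 := κ) (K2 := K2) (κ := 1) hm hκ hK2 (by norm_num) h1 h2
    hnA (X := ENNReal.ofReal κ * (2 * (257 * Rec8.sw W Φ)))
    (Z := fun j => if j < 4 then 0 else ENNReal.ofReal κ * xT (2 ^ j) (j - 4) (ZZ j W Φ)) (by rw [mul_one]) (by
      intro i hi
      rw [if_neg (by omega), mul_one]
      simp)
  have e1 : y * (ENNReal.ofReal (κ * lk k K2 * (m * 1)) * x) = ENNReal.ofReal (κ * lk k K2 * m) * (y * x) := by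
    rw [mul_one]
    ring
  rw [← e1]
  refine le_trans ?_ (mul_le_mul_right h5 y)
  rw [mul_add, Finset.mul_sum]
  refine add_le_add ?_ (Finset.sum_le_sum fun j hj => ?_)
  · refine (hmix 0 (by omega) (fun _ => 257 * Rec8.sw W Φ) (fun _ _ _ => le_rfl)).trans ?_
    calc ENNReal.ofReal κ * (y * xT (2 ^ (0 + 4)) 0 (fun _ => 257 * Rec8.sw W Φ)) ≤
          ENNReal.ofReal κ * (y * (2 * (257 * Rec8.sw W Φ))) := by
          gcongr
          exact xT_const _ _ _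
      _ = _ := by ring
  · rw [Finset.mem_Ico] at hj
    obtain ⟨i, rfl⟩ : ∃ i, j = i + 4 := ⟨j - 4, by omega⟩
    have h6 := hmix i (by omega) (ZZ (i + 4) W Φ) (hered_vA _ _ _)
    rw [if_neg (by omega)]
    calc (2 : ℝ≥0∞) ^ (i + 4 + 1) * Rec8.sw X (fun x => q x * ZZ (i + 4) W Φ x) ≤
          2 ^ (i + 4 + 1) * (ENNReal.ofReal κ * (y * xT (2 ^ (i + 4)) i (ZZ (i + 4) W Φ))) := mul_le_mul_right h6 _
      _ = _ := by
          rw [show i + 4 - 4 = i by omega]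
          ring

end NTW

end HexObs
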