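import Pool.Agent.NTW.ShortG
import Pool.Agent.NTW.SeqQ
import Pool.Agent.NTW.FoldCl
import Pool.Agent.NTW.FoldEx
import Pool.Agent.NTW.Ext
import Pool.Agent.NTW.FactsA
import Pool.Agent.NT.Grow

/-!
NTW: tail of the vertical range of the words with at most l L letters (TailP).
-/

set_option autoImplicit false

namespace HexObs

namespace NTW

open Finset TS SDN SDN.CN NTm

open scoped ENNReal

/-- the end functional is controlled in the sense of DomJ -/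
def FinJ : Prop := ∃ K : ℝ, 1 ≤ K ∧ ∀ j N lam lam' : ℕ, 5 ≤ j → 2 ^ j < N → N ≤ 2 ^ (j + 2) → QL j lam' →
  DomJ (j - 4) (ENNReal.ofReal K * bl (lam + lam' + 12) (j + 2)) (fun t => 1 + ENl (2 ^ j) N lam t)

/-- number of units 2 ^ K in the heights of the leaves -/
noncomputable def nV (K : ℕ) (gs : List (List Bool)) : ℕ := (gs.map fun g => hgt g / 2 ^ K + 1).sum

lemma e_mono {t : List Bool} {m u : ℕ} {e : ℕ → ℕ} (h : FoldG t m u e) {i j : ℕ} (hij : i ≤ j) (hj : j ≤ m) : e i ≤ e j := by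
  induction j with
  | zero =>
    have : i = 0 := by omega
    rw [this]
  | succ j ih =>
    rcases Nat.lt_or_ge i (j + 1) with h1 | h1
    · exact (ih (by omega) (by omega)).trans (h.lt j (by omega)).le
    · have : i = j + 1 := by omega
      rw [this]

lemma sg_le_abs (u : ℕ) (x : ℤ) : Tight.sg u x ≤ |x| := by
  rw [← EX.sg_abs u x]
  exact le_abs_self _

/-- the leaves in a representation of the scale kc + 5 -/
lemma rep_leaf {t : List Bool} {kc m u lam : ℕ} {e : ℕ → ℕ} {gs : List (List Bool)} (hFd : Fd (kc + 5) t m u e)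
    (hR : RepG t m u e gs) (hlam : t.length ≤ lam) : ∀ g ∈ gs, g ∈ TV.Sa (SHO ((lam : ℝ) + 1)) kc := by
  intro g hg
  obtain ⟨l, hl, rfl⟩ := List.mem_iff_getElem.1 hg
  have hlm : l < m := by rw [← hR.len]; exact hl
  obtain ⟨k, hk1, hk⟩ := hR.brd _ hg
  obtain ⟨h1, h2, -⟩ := fd_cl hFd hlm (hR.pos l hl) hk
  refine ⟨⟨h1, k, ?_, hk⟩, ?_⟩
  · have : 2 ^ (kc + 5) = 2 * 2 ^ (kc + 4) := by rw [← pow_succ']
    have : 1 ≤ 2 ^ (kc + 4) := Nat.one_le_two_pow
    omega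
  · obtain ⟨s, s1, s2, s3, s4, s5⟩ := hR.pos l hl
    have h3 := e_mono hFd.2.1 (i := l + 1) (j := m) (by omega) le_rfl
    have h4 := hFd.2.1.le
    have h5 : gs[l].length ≤ lam := by omega
    have h6 : (gs[l].length : ℝ) ≤ lam := by exact_mod_cast h5
    show (gs[l].length : ℝ) < (lam : ℝ) + 1
    linarith

/-- the words whose leaves have a large total height -/
theorem chain_tail {C δ : ℝ} (hI : Inp C δ) (hA : SsA) (h3 : Ss3) (hD : SsD) (hSh : ShortN DmJ) (hF : FinJ)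
    (hC : CoverTwo) : ∃ (K d : ℝ) (s k0 : ℕ), 1 ≤ K ∧ 0 < d ∧ 6 ≤ s ∧ ∀ (kc lam lam' V : ℕ), k0 ≤ kc →
      QL (kc + 4) lam' → AS ((lam : ℝ) + 1) (d * Ub kc) →
      gf {t | t ∈ SAL lam ∧ ∃ (m u : ℕ) (e : ℕ → ℕ), Fd (kc + 5) t m u e ∧
        ∀ gs, RepG t m u e gs → V ≤ nV (kc + s) gs} ≤
        ENNReal.ofReal (K * Ub kc / 2 ^ V) * (bl (lam + lam' + 40) (kc + 6)) ^ 2 := by
  classical
  obtain ⟨Kc, hKc, hC⟩ := hC
  obtain ⟨Kf, hKf, hF⟩ := hF
  obtain ⟨d, s, k0, hd, hs, hsm⟩ := smG_short hI hA h3 hD hSh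
  refine ⟨Kc * (Kf * Kf), d, s, max k0 1, one_le_mul_of_one_le_of_one_le hKc (one_le_mul_of_one_le_of_one_le hKf hKf),
    hd, hs, fun kc lam lam' V hkc hQ hAS => ?_⟩
  have hU := Ub_pos kc
  obtain ⟨D, hDD⟩ : ∃ D, D = 2 ^ (kc + 4) := ⟨_, rfl⟩
  have hD1 : 1 ≤ D := by rw [hDD]; exact Nat.one_le_two_pow
  obtain ⟨N, hN⟩ : ∃ N, N = 2 ^ (kc + 5) := ⟨_, rfl⟩
  have hND : N = 2 * D := by rw [hN, hDD, ← pow_succ']
  obtain ⟨Ψ, hΨ⟩ : ∃ Ψ : List Bool → ℝ≥0∞, Ψ = fun t => 1 + ENl D N (lam + 20) t := ⟨_, rfl⟩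
  obtain ⟨x, hx⟩ : ∃ x, x = ENNReal.ofReal Kf * bl (lam + 20 + lam' + 12) (kc + 6) := ⟨_, rfl⟩
  have hdm : DmJ kc x Ψ := by
    refine ⟨?_, ?_⟩
    · rw [hΨ, ← hDD]
      exact herD_one hD1 N (lam + 20)
    · have h1 := hF (kc + 4) N (lam + 20) lam' (by have := le_max_right k0 1; omega) (by rw [← hDD]; omega) (by
        rw [hN]
        exact Nat.pow_le_pow_right (by norm_num) (by omega)) hQ
      rw [show kc + 4 - 4 = kc by omega, show kc + 4 + 2 = kc + 6 by omega, ← hDD] at h1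
      rw [hΨ, hx]
      exact h1
  have hflp : Flp (2 ^ (kc + 4)) Ψ := by
    rw [hΨ, ← hDD]
    exact flp_one hD1 N (lam + 20)
  obtain ⟨ν, hν⟩ := hsm kc ((lam : ℝ) + 1) x Ψ (le_trans (le_max_left _ _) hkc) hAS hdm hflp
  -- the cover
  have h1 := hC {t | t ∈ SAL lam ∧ ∃ (m u : ℕ) (e : ℕ → ℕ), Fd (kc + 5) t m u e ∧
        ∀ gs, RepG t m u e gs → V ≤ nV (kc + s) gs} N N lam
        (fun gs => (∀ g ∈ gs, g ∈ TV.Sa (SHO ((lam : ℝ) + 1)) kc) ∧ V ≤ nV (kc + s) gs) (by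
    rintro t ⟨ht, m, u, e, hFd, hV⟩
    obtain ⟨hm, hG, -, -, hb, hf⟩ := id hFd
    refine ⟨ht, m, u, e, hm, hG, ?_, ?_, ?_⟩
    · intro i hi
      have h2 := hb i (e 0) hi.le le_rfl
      have h3 := hb (e 0) i le_rfl hi.le
      unfold RR at h2 h3
      rw [hN]
      push_cast
      unfold Tight.sg
      split_ifs <;> omega
    · intro i hi hi'
      have h2 := hf i (e m) hi.le hi' le_rfl hG.le
      have h3 := hf (e m) i le_rfl hG.le hi.le hi'
      unfold RR at h2 h3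
      rw [hN]
      push_cast
      unfold Tight.sg
      split_ifs <;> omega
    · intro gs hR
      exact ⟨rep_leaf hFd hR ht.2, hV gs hR⟩)
  -- the sum over the chains
  have h2 : ∑' gs : List (List Bool), (if gs ≠ [] ∧ gs.IsChain LFold ∧ (∀ g ∈ gs, ∃ k : ℕ, 1 ≤ k ∧ g ∈ Brd k) ∧
      ((∀ g ∈ gs, g ∈ TV.Sa (SHO ((lam : ℝ) + 1)) kc) ∧ V ≤ nV (kc + s) gs) then
      SDN.wl gs * (EE0 N lam (rev (gs.headD [])) * EE0 N lam (gs.getLastD [])) else 0) ≤
      ∑' n : ℕ, ENNReal.ofReal (Ub kc * (1 / 4) ^ (n + 1) / 2 ^ V) * (x * x) := by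
    calc _ ≤ ∑' gs : List (List Bool), ∑' n : ℕ, (if gs.length = n + 1 ∧ gs.IsChain LFold ∧
          (∀ u ∈ gs, u ∈ TV.Sa (SHO ((lam : ℝ) + 1)) kc) ∧ V ≤ (gs.map fun g => hgt g / 2 ^ (kc + s) + 1).sum then
          SDN.wl gs * (gs.map fun _ => (1 : ℝ≥0∞)).prod * (Ψ (rev (gs.headD [])) * Ψ (gs.getLastD [])) else 0) := by
          refine ENNReal.tsum_le_tsum fun gs => ?_
          by_cases hg : gs ≠ [] ∧ gs.IsChain LFold ∧ (∀ g ∈ gs, ∃ k : ℕ, 1 ≤ k ∧ g ∈ Brd k) ∧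
              ((∀ g ∈ gs, g ∈ TV.Sa (SHO ((lam : ℝ) + 1)) kc) ∧ V ≤ nV (kc + s) gs)
          · rw [if_pos hg]
            obtain ⟨g1, g2, -, g4, g5⟩ := hg
            have hlen : 1 ≤ gs.length := List.length_pos_iff.2 g1
            refine le_trans ?_ (ENNReal.le_tsum (gs.length - 1))
            rw [if_pos ⟨by omega, g2, g4, g5⟩]
            have hp1 : (gs.map fun _ => (1 : ℝ≥0∞)).prod = 1 := by
              rw [List.map_const', List.prod_replicate, one_pow]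
            rw [hp1, mul_one]
            have hHB : ∀ g ∈ gs, g ∈ HB D ∧ rev g ∈ HB D := by
              intro g hg
              obtain ⟨k, k1, k2⟩ := (g4 g hg).1.2
              rw [← hDD] at k1
              exact ⟨⟨k, k1, k2⟩, ⟨k, k1, Brd_rev k2⟩⟩
            have hhd : gs.headD [] ∈ gs := by
              obtain ⟨g, gs', rfl⟩ := List.exists_cons_of_ne_nil g1
              exact List.mem_cons_self
            have hlt : gs.getLastD [] ∈ gs := by
              rw [List.getLastD_eq_getLast?, List.getLast?_eq_some_getLast g1]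
              exact List.getLast_mem g1
            rw [hΨ]
            exact mul_le_mul_right (mul_le_mul' (EX.EE0_le (hHB _ hhd).2) (EX.EE0_le (hHB _ hlt).1)) _
          · rw [if_neg hg]
            exact zero_le
      _ = ∑' n : ℕ, ∑' gs : List (List Bool), (if gs.length = n + 1 ∧ gs.IsChain LFold ∧
          (∀ u ∈ gs, u ∈ TV.Sa (SHO ((lam : ℝ) + 1)) kc) ∧ V ≤ (gs.map fun g => hgt g / 2 ^ (kc + s) + 1).sum then
          SDN.wl gs * (gs.map fun _ => (1 : ℝ≥0∞)).prod * (Ψ (rev (gs.headD [])) * Ψ (gs.getLastD [])) else 0) :=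
          ENNReal.tsum_comm
      _ ≤ _ := ENNReal.tsum_le_tsum fun n => TG.chain_GV hν hdm n V
  have h4 : ∑' n : ℕ, ENNReal.ofReal (Ub kc * (1 / 4) ^ (n + 1) / 2 ^ V) * (x * x) ≤
      ENNReal.ofReal (Ub kc / 2 ^ V) * (x * x) := by
    rw [ENNReal.tsum_mul_right]
    refine mul_le_mul_left ?_ _
    have hsum : Summable (fun n : ℕ => Ub kc * (1 / 4 : ℝ) ^ (n + 1) / 2 ^ V) := by
      have := (summable_geometric_of_lt_one (r := (1 / 4 : ℝ)) (by norm_num) (by norm_num)).mul_left (Ub kc / 4 / 2 ^ V)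
      refine this.congr fun n => ?_
      rw [pow_succ]
      ring
    rw [← ENNReal.ofReal_tsum_of_nonneg (fun n => by positivity) hsum]
    apply ENNReal.ofReal_le_ofReal
    have h7 : ∀ n : ℕ, Ub kc * (1 / 4 : ℝ) ^ (n + 1) / 2 ^ V = (Ub kc / 4 / 2 ^ V) * (1 / 4) ^ n := fun n => by
      rw [pow_succ]
      ring
    rw [tsum_congr h7, tsum_mul_left, tsum_geometric_of_lt_one (by norm_num) (by norm_num)]
    have h8 : 0 ≤ Ub kc / 2 ^ V := by positivity
    have h10 : (1 - 1 / 4 : ℝ)⁻¹ = 4 / 3 := by norm_num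
    rw [h10]
    have h9 : Ub kc / 4 / 2 ^ V * (4 / 3) = Ub kc / 2 ^ V / 3 := by ring
    rw [h9]
    linarith
  have hx2 : x * x ≤ ENNReal.ofReal (Kf * Kf) * (bl (lam + lam' + 40) (kc + 6)) ^ 2 := by
    have h5 : bl (lam + 20 + lam' + 12) (kc + 6) ≤ bl (lam + lam' + 40) (kc + 6) := bl_mono_lam (by omega) _
    rw [hx, ENNReal.ofReal_mul (by linarith), sq]
    calc _ = (ENNReal.ofReal Kf * ENNReal.ofReal Kf) * (bl (lam + 20 + lam' + 12) (kc + 6) *
          bl (lam + 20 + lam' + 12) (kc + 6)) := by ring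
      _ ≤ _ := mul_le_mul_right (mul_le_mul' h5 h5) _
  refine (h1.trans (mul_le_mul_right (le_trans (le_of_eq (tsum_congr fun gs => ?_))
    (h2.trans (h4.trans (mul_le_mul_right hx2 _)))) _)).trans (le_of_eq ?_)
  · congr
  rw [← mul_assoc (ENNReal.ofReal (Ub kc / 2 ^ V)), ← mul_assoc, ← ENNReal.ofReal_mul (by positivity),
    ← ENNReal.ofReal_mul (by linarith)]
  congr 2
  ring

end NTW

end HexObs
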