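import Pool.Agent.NTW.TailA

/-!
NTW: the levels of a word against the heights of its leaves; TailP.
-/

set_option autoImplicit false

namespace HexObs

namespace NTW

open Finset TS SDN SDN.CN NTm

open scoped ENNReal

namespace TA

variable {t : List Bool} {m u : ℕ} {e : ℕ → ℕ}

/-- a vertex of the piece number j -/
lemma in_piece (h : FoldG t m u e) {j i : ℕ} (hj : j < m) (h1 : e j ≤ i) (h2 : i ≤ e (j + 1)) :
    |lev t i - lev t (e j)| ≤ |lev t (e (j + 1)) - lev t (e j)| := by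
  have h3 := h.hi j hj i h1 h2
  have h4 : Tight.sg (u + j) (lev t (e j)) ≤ Tight.sg (u + j) (lev t i) := by
    rcases Nat.eq_zero_or_pos j with h0 | h0
    · subst h0
      exact h.lo0 i h1 h2
    · rcases Nat.lt_or_ge (e j) i with h5 | h5
      · exact (h.lo j h0 hj i h5 h2).le
      · have : i = e j := by omega
        rw [this]
  have e1 : |lev t i - lev t (e j)| = Tight.sg (u + j) (lev t i) - Tight.sg (u + j) (lev t (e j)) := by
    rw [← EX.sg_abs (u + j), EX.sg_sub, abs_of_nonneg (by linarith)]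
  have e2 : |lev t (e (j + 1)) - lev t (e j)| = Tight.sg (u + j) (lev t (e (j + 1))) - Tight.sg (u + j) (lev t (e j)) := by
    rw [← EX.sg_abs (u + j), EX.sg_sub, abs_of_nonneg (by linarith)]
  rw [e1, e2]
  linarith

/-- the sum of the displacements of the first l pieces -/
lemma sum_pieces {b : ℕ} (hFd : Fd b t m u e) {gs : List (List Bool)} (hR : RepG t m u e gs) (l : ℕ) (hl : l ≤ m) :
    ∑ j ∈ range l, |lev t (e (j + 1)) - lev t (e j)| ≤ (((gs.take l).map fun g => 3 * hgt g + 6).sum : ℕ) := by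
  induction l with
  | zero => simp
  | succ l ih =>
    have hl' : l < gs.length := by rw [hR.len]; omega
    have ih' := ih (by omega)
    obtain ⟨k, hk1, hk⟩ := hR.brd _ (List.getElem_mem hl')
    obtain ⟨-, -, h1⟩ := fd_cl hFd (by omega : l < m) (hR.pos l hl') hk
    have h8 : ((gs.take (l + 1)).map fun g => 3 * hgt g + 6).sum =
        ((gs.take l).map fun g => 3 * hgt g + 6).sum + (3 * k + 6) := by
      rw [List.take_add_one, List.map_append, List.sum_append, List.getElem?_eq_getElem hl']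
      simp only [Option.toList_some, List.map_cons, List.map_nil, List.sum_cons, List.sum_nil, add_zero]
      rw [hgt_eq hk]
    rw [Finset.sum_range_succ, h8]
    rw [abs_le] at h1
    push_cast at ih' ⊢
    linarith [h1.1]

/-- the level of the fold number l -/
lemma lev_fold {b : ℕ} (hFd : Fd b t m u e) (l : ℕ) (hl : l ≤ m) :
    |lev t (e l)| ≤ RR b + ∑ j ∈ range l, |lev t (e (j + 1)) - lev t (e j)| := by
  induction l with
  | zero =>
    obtain ⟨-, hG, -, -, hb, -⟩ := hFd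
    have h1 := hb (e 0) 0 le_rfl (Nat.zero_le _)
    have h2 := hb 0 (e 0) (Nat.zero_le _) le_rfl
    rw [lev_zero] at h1 h2
    rw [Finset.sum_range_zero, add_zero, abs_le]
    constructor <;> linarith
  | succ l ih =>
    have ih' := ih (by omega)
    rw [Finset.sum_range_succ]
    have h1 : |lev t (e (l + 1))| ≤ |lev t (e l)| + |lev t (e (l + 1)) - lev t (e l)| := by
      calc |lev t (e (l + 1))| = |lev t (e l) + (lev t (e (l + 1)) - lev t (e l))| := by ring_nf
        _ ≤ _ := abs_add_le _ _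
    linarith

/-- the fold interval of a vertex -/
lemma find_piece (h : FoldG t m u e) (i : ℕ) (h0 : e 0 ≤ i) (h1 : i ≤ e m) (hm : 1 ≤ m) :
    ∃ j, j < m ∧ e j ≤ i ∧ i ≤ e (j + 1) := by
  classical
  obtain ⟨j, hj⟩ : ∃ j, j = Nat.findGreatest (fun j => e j ≤ i) (m - 1) := ⟨_, rfl⟩
  have h2 : e j ≤ i := by
    rw [hj]
    exact Nat.findGreatest_spec (P := fun j => e j ≤ i) (Nat.zero_le _) h0
  have h3 : j ≤ m - 1 := by rw [hj]; exact Nat.findGreatest_le _
  refine ⟨j, by omega, h2, ?_⟩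
  by_contra hcon
  push Not at hcon
  rcases Nat.lt_or_ge j (m - 1) with h4 | h4
  · have h5 := Nat.findGreatest_is_greatest (P := fun j => e j ≤ i) (n := m - 1) (k := j + 1) (by rw [← hj]; omega) (by omega)
    exact h5 hcon.le
  · have h5 : j + 1 = m := by omega
    rw [h5] at hcon
    omega

/-- **the levels against the heights of the leaves** -/
lemma lev_le {kc s : ℕ} (hs : 6 ≤ s) (hFd : Fd (kc + 5) t m u e) {gs : List (List Bool)} (hR : RepG t m u e gs) {n : ℕ}
    (hn : n ≤ t.length) : |lev t n| ≤ 6 * 2 ^ (kc + s) * ((nV (kc + s) gs : ℤ) + 1) := by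
  obtain ⟨hm, hG, hbig, hsm, hb, hf⟩ := id hFd
  have hp : (0 : ℤ) < 2 ^ (kc + 5) := by positivity
  -- the bound by the displacements
  have key : |lev t n| ≤ 2 * RR (kc + 5) + ∑ j ∈ range m, |lev t (e (j + 1)) - lev t (e j)| := by
    have hpos : ∀ l, l ≤ m → ∑ j ∈ range l, |lev t (e (j + 1)) - lev t (e j)| ≤
        ∑ j ∈ range m, |lev t (e (j + 1)) - lev t (e j)| := fun l hl =>
      Finset.sum_le_sum_of_subset_of_nonneg (Finset.range_mono hl) fun _ _ _ => abs_nonneg _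
    have hRR : 0 < RR (kc + 5) := by unfold RR; omega
    rcases Nat.lt_or_ge n (e 0) with h1 | h1
    · have h2 := hb n 0 h1.le (Nat.zero_le _)
      have h3 := hb 0 n (Nat.zero_le _) h1.le
      rw [lev_zero] at h2 h3
      have h4 := hpos 0 (Nat.zero_le _)
      rw [Finset.sum_range_zero] at h4
      rw [abs_le]
      constructor <;> linarith
    · rcases Nat.lt_or_ge (e m) n with h5 | h5
      · have h6 := hf n (e m) h5.le hn le_rfl hG.le
        have h7 := hf (e m) n le_rfl hG.le h5.le hn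
        have h8 := lev_fold hFd m le_rfl
        have h9 : |lev t n| ≤ |lev t (e m)| + |lev t n - lev t (e m)| := by
          calc |lev t n| = |lev t (e m) + (lev t n - lev t (e m))| := by ring_nf
            _ ≤ _ := abs_add_le _ _
        have h10 : |lev t n - lev t (e m)| ≤ RR (kc + 5) := by
          rw [abs_le]
          constructor <;> linarith
        linarith
      · obtain ⟨j, j1, j2, j3⟩ := find_piece hG n h1 h5 hm
        have h6 := in_piece hG j1 j2 j3
        have h8 := lev_fold hFd j j1.le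
        have h9 : |lev t n| ≤ |lev t (e j)| + |lev t n - lev t (e j)| := by
          calc |lev t n| = |lev t (e j) + (lev t n - lev t (e j))| := by ring_nf
            _ ≤ _ := abs_add_le _ _
        have h10 := hpos (j + 1) (by omega)
        rw [Finset.sum_range_succ] at h10
        linarith
  have h1 := sum_pieces hFd hR m le_rfl
  rw [List.take_of_length_le (by rw [hR.len])] at h1
  -- units
  have hq : ∀ ls : List (List Bool), (ls.map fun g => 3 * hgt g + 6).sum ≤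
      6 * 2 ^ (kc + s) * (ls.map fun g => hgt g / 2 ^ (kc + s) + 1).sum := by
    intro ls
    induction ls with
    | nil => simp
    | cons g ls ih =>
      rw [List.map_cons, List.sum_cons, List.map_cons, List.sum_cons, mul_add]
      have h6 := Nat.lt_mul_div_succ (hgt g) (show 0 < 2 ^ (kc + s) by positivity)
      have h7 : 6 * 2 ^ (kc + s) * (hgt g / 2 ^ (kc + s) + 1) = 6 * (2 ^ (kc + s) * (hgt g / 2 ^ (kc + s) + 1)) := by ring
      have h8 : 1 ≤ 2 ^ (kc + s) := Nat.one_le_two_pow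
      omega
  have h2 := hq gs
  have h3 : (2 : ℤ) ^ (kc + 5) * 2 ≤ 2 ^ (kc + s) := by
    rw [← pow_succ]
    exact pow_le_pow_right₀ (by norm_num) (by omega)
  have h4 : (((gs.map fun g => 3 * hgt g + 6).sum : ℕ) : ℤ) ≤ 6 * 2 ^ (kc + s) * (nV (kc + s) gs : ℤ) := by
    unfold nV
    exact_mod_cast h2
  unfold RR at key
  have h5 : 6 * (2 : ℤ) ^ (kc + s) * ((nV (kc + s) gs : ℤ) + 1) =
      6 * 2 ^ (kc + s) * (nV (kc + s) gs : ℤ) + 6 * 2 ^ (kc + s) := by ring
  rw [h5]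
  linarith

end TA

open TA in
/-- **TailP** -/
theorem tailP {C δ : ℝ} (hI : Inp C δ) (hA : SsA) (h3 : Ss3) (hD : SsD) (hSh : ShortN DmJ) (hF : FinJ)
    (hC : CoverTwo) {θ : ℝ} {l : ℕ → ℕ} (hl : NTm.Seq θ l) (h0 : 0 < θ) (hθ : θ ≤ 1 / 2) : TailP l := by
  obtain ⟨K, d, s, k1, hK, hd, hs, hchain⟩ := chain_tail hI hA h3 hD hSh hF hC
  obtain ⟨Ke, hKe, hext⟩ := ext_of hA hD hC (fun t ht hr => pivot_ex ht hr)
  obtain ⟨j0, hj0⟩ := seq_small hl hd
  obtain ⟨b, hb, k2, hgrow⟩ := seq_grow hl h0 (by linarith)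
  obtain ⟨a, ha⟩ : ∃ a : ℕ, 21 ≤ b * (2 : ℝ) ^ a := by
    obtain ⟨a, ha⟩ := pow_unbounded_of_one_lt (21 / b) (show (1 : ℝ) < 2 by norm_num)
    refine ⟨a, ?_⟩
    rw [div_lt_iff₀ hb] at ha
    linarith
  obtain ⟨q0, hq0⟩ : ∃ q0, q0 = j0 + s + 3 := ⟨_, rfl⟩
  obtain ⟨K1, hK1, hn1⟩ := num_exp (c := Real.log 2 / 2 ^ q0) (by positivity) 12
  refine ⟨(Ke * 2 ^ (j0 + 5) + K * 2 ^ j0) * 2 ^ (12 * q0) + 2 * K * 2 ^ j0 * K1, j0 + 6 + a, max k1 k2, by positivity,
    fun L hL i => ?_⟩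
  have hL1 : k1 ≤ L := le_trans (le_max_left _ _) hL
  have hL2 : k2 ≤ L := le_trans (le_max_right _ _) hL
  have hU := Ub_pos L
  obtain ⟨kc, hkc⟩ : ∃ kc, kc = L + j0 := ⟨_, rfl⟩
  have hAS : AS ((l L : ℝ) + 1) (d * Ub kc) := by
    have := hj0 kc (by omega)
    rwa [show kc - j0 = L by omega] at this
  -- the numbers bl
  have hlen : l L + l (kc + 5) + 40 ≤ 2 * l (L + (j0 + 6 + a)) := by
    have g1 := hgrow (L + j0 + 5) a (by omega)
    have g2 : l L ≤ l (L + j0 + 5) := hl.mono (by omega)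
    have g3 := hl.one (L + j0 + 5)
    have g4 : l (L + j0 + 5 + a) ≤ l (L + (j0 + 6 + a)) := hl.mono (by omega)
    have g5 : (21 : ℝ) * l (L + j0 + 5) ≤ l (L + j0 + 5 + a) := by
      refine le_trans ?_ g1
      have : (0 : ℝ) ≤ l (L + j0 + 5) := Nat.cast_nonneg _
      gcongr
    have g6 : 21 * l (L + j0 + 5) ≤ l (L + j0 + 5 + a) := by exact_mod_cast g5
    rw [hkc]
    omega
  have hbl : ∀ c j : ℕ, c ≤ 40 → j ≤ kc + 6 → (bl (l L + l (kc + 5) + c) j) ^ 2 ≤ BB l L (j0 + 6 + a) := by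
    intro c j hc hj
    unfold BB
    have h1 : bl (l L + l (kc + 5) + c) j ≤ bl (2 * l (L + (j0 + 6 + a))) (L + (j0 + 6 + a)) :=
      (bl_mono_lam (by omega) _).trans (bl_mono _ (by omega))
    exact pow_le_pow_left' h1 2
  have hch : ∀ V : ℕ, gf {t | t ∈ SAL (l L) ∧ ∃ (m u : ℕ) (e : ℕ → ℕ), Fd (kc + 5) t m u e ∧
      ∀ gs, RepG t m u e gs → V ≤ nV (kc + s) gs} ≤
      ENNReal.ofReal (K * 2 ^ j0 * Ub L / 2 ^ V) * BB l L (j0 + 6 + a) := by
    intro V
    refine (hchain kc (l L) (l (kc + 5)) V (by omega) (QL_anti (by omega) (QL_seq hl hθ (kc + 5))) hAS).trans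
      (mul_le_mul' (ENNReal.ofReal_le_ofReal ?_) (hbl 40 (kc + 6) le_rfl le_rfl))
    have e1 : Ub kc ≤ 2 ^ j0 * Ub L := by
      rw [hkc]
      exact UU_ratio_up L j0
    apply div_le_div_of_nonneg_right _ (by positivity)
    calc K * Ub kc ≤ K * (2 ^ j0 * Ub L) := by gcongr
      _ = _ := by ring
  rcases Nat.lt_or_ge i q0 with hi | hi
  · -- all words
    have hsub : {t | t ∈ SAL (l L) ∧ ∃ n, n ≤ t.length ∧ (2 : ℝ) ^ i * 2 ^ L ≤ |((lev t n : ℤ) : ℝ)|} ⊆
        {t | t ∈ SAL (l L) ∧ ∀ i i', i ≤ t.length → i' ≤ t.length → lev t i - lev t i' ≤ 3 * 2 ^ (kc + 5)} ∪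
        {t | t ∈ SAL (l L) ∧ ∃ (m u : ℕ) (e : ℕ → ℕ), Fd (kc + 5) t m u e ∧ ∀ gs, RepG t m u e gs → 0 ≤ nV (kc + s) gs} := by
      rintro t ⟨ht, -⟩
      rcases fd_exists (b := kc + 5) (by omega) ht.1 with h1 | ⟨m, u, e, h1⟩
      · left
        refine ⟨ht, fun i i' a1 a2 => ?_⟩
        have := h1 i i' a1 a2
        unfold RR at this
        omega
      · right
        exact ⟨ht, m, u, e, h1, fun _ _ => Nat.zero_le _⟩
    refine (gf_mono hsub).trans ((gf_union_le _ _).trans ?_)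
    have a1 := (hext (kc + 5) (l L) (l (kc + 5)) (QL_seq hl hθ (kc + 5))).trans
      (mul_le_mul' le_rfl (hbl 32 (kc + 5) (by omega) (by omega)))
    refine (add_le_add a1 (hch 0)).trans ?_
    rw [← add_mul, ← ENNReal.ofReal_add (by have := Ub_pos (kc + 5); positivity) (by positivity)]
    refine mul_le_mul_left (ENNReal.ofReal_le_ofReal ?_) _
    have e1 : Ub (kc + 5) ≤ 2 ^ (j0 + 5) * Ub L := by
      rw [hkc, add_assoc]
      exact UU_ratio_up L (j0 + 5)
    have e2 : (2 : ℝ) ^ (12 * i) ≤ 2 ^ (12 * q0) := pow_le_pow_right₀ (by norm_num) (by omega)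
    have e3 : 0 < (2 : ℝ) ^ (12 * i) := by positivity
    rw [div_mul_eq_mul_div, le_div_iff₀ e3, pow_zero, div_one]
    have e4 : 0 ≤ 2 * K * 2 ^ j0 * K1 * Ub L := by positivity
    calc (Ke * Ub (kc + 5) + K * 2 ^ j0 * Ub L) * 2 ^ (12 * i) ≤
          (Ke * (2 ^ (j0 + 5) * Ub L) + K * 2 ^ j0 * Ub L) * 2 ^ (12 * q0) := by gcongr
      _ = (Ke * 2 ^ (j0 + 5) + K * 2 ^ j0) * 2 ^ (12 * q0) * Ub L := by ring
      _ ≤ _ := by
        rw [add_mul]
        linarith
  · -- far levels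
    obtain ⟨V, hV⟩ : ∃ V, V = 2 ^ (i - q0) - 1 := ⟨_, rfl⟩
    have hV1 : V + 1 = 2 ^ (i - q0) := by
      have : 1 ≤ 2 ^ (i - q0) := Nat.one_le_two_pow
      omega
    have hsub : {t | t ∈ SAL (l L) ∧ ∃ n, n ≤ t.length ∧ (2 : ℝ) ^ i * 2 ^ L ≤ |((lev t n : ℤ) : ℝ)|} ⊆
        {t | t ∈ SAL (l L) ∧ ∃ (m u : ℕ) (e : ℕ → ℕ), Fd (kc + 5) t m u e ∧ ∀ gs, RepG t m u e gs → V ≤ nV (kc + s) gs} := by
      rintro t ⟨ht, n, hn, hlev⟩
      have hlev' : (2 : ℤ) ^ (i + L) ≤ |lev t n| := by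
        have : ((2 : ℝ)) ^ (i + L) ≤ |((lev t n : ℤ) : ℝ)| := by
          rw [pow_add]
          exact hlev
        exact_mod_cast this
      rcases fd_exists (b := kc + 5) (by omega) ht.1 with h1 | ⟨m, u, e, h1⟩
      · exfalso
        have b1 := h1 n 0 hn (Nat.zero_le _)
        have b2 := h1 0 n (Nat.zero_le _) hn
        rw [lev_zero] at b1 b2
        have b3 : |lev t n| < RR (kc + 5) := by
          rw [abs_lt]
          constructor <;> linarith
        have b4 : (2 : ℤ) ^ (kc + 7) ≤ 2 ^ (i + L) := pow_le_pow_right₀ (by norm_num) (by omega)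
        have b5 : (2 : ℤ) ^ (kc + 7) = 4 * 2 ^ (kc + 5) := by ring
        have b6 : (0 : ℤ) < 2 ^ (kc + 5) := by positivity
        unfold RR at b3
        linarith
      · refine ⟨ht, m, u, e, h1, fun gs hR => ?_⟩
        have b1 := lev_le hs h1 hR hn
        have b2 : (2 : ℤ) ^ (i + L) ≤ 8 * 2 ^ (kc + s) * ((nV (kc + s) gs : ℤ) + 1) := by
          refine hlev'.trans (b1.trans ?_)
          have : (0 : ℤ) ≤ 2 ^ (kc + s) * ((nV (kc + s) gs : ℤ) + 1) := by positivity
          linarith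
        have b3 : (2 : ℤ) ^ (i + L) = 8 * 2 ^ (kc + s) * 2 ^ (i - q0) := by
          have : (8 : ℤ) = 2 ^ 3 := by norm_num
          rw [this, ← pow_add, ← pow_add]
          congr 1
          omega
        rw [b3] at b2
        have b4 : (2 : ℤ) ^ (i - q0) ≤ (nV (kc + s) gs : ℤ) + 1 := le_of_mul_le_mul_left b2 (by positivity)
        have b5 : 2 ^ (i - q0) ≤ nV (kc + s) gs + 1 := by exact_mod_cast b4
        omega
    refine (gf_mono hsub).trans ((hch V).trans (mul_le_mul_left (ENNReal.ofReal_le_ofReal ?_) _))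
    have n1 := hn1 i
    have e3 : Real.exp (-(Real.log 2 / 2 ^ q0 * 2 ^ i)) = 1 / (2 * 2 ^ V) := by
      have e4 : (2 : ℝ) ^ i = 2 ^ q0 * 2 ^ (i - q0) := by
        rw [← pow_add]
        congr 1
        omega
      have e5 : Real.log 2 / 2 ^ q0 * 2 ^ i = ((V + 1 : ℕ) : ℝ) * Real.log 2 := by
        rw [e4, hV1]
        push_cast
        field_simp
      rw [e5, Real.exp_neg, ← Real.log_pow, Real.exp_log (by positivity), one_div, pow_succ']
    rw [e3, mul_one_div, div_le_iff₀ (by positivity)] at n1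
    rw [div_mul_eq_mul_div, div_le_div_iff₀ (by positivity) (by positivity)]
    have e6 : 0 ≤ (Ke * 2 ^ (j0 + 5) + K * 2 ^ j0) * 2 ^ (12 * q0) * Ub L * 2 ^ V := by positivity
    calc K * 2 ^ j0 * Ub L * 2 ^ (12 * i) ≤ K * 2 ^ j0 * Ub L * (K1 * (2 * 2 ^ V)) := by gcongr
      _ = 2 * K * 2 ^ j0 * K1 * Ub L * 2 ^ V := by ring
      _ ≤ _ := by
        rw [add_mul, add_mul]
        linarith

end NTW

end HexObs
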